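import Mathlib

/-! The parts of this file: FQ.Cnt, H71.CZ.Ten, H71.FQ.Pow. -/

section

/-!
# The counting lemma of PROJECT FQ (note 4122, step (1))

`I` is a finite set with `p ^ m` elements, `s` a permutation of `I` for which every element is
`s ^ k i0`, and `T` a function of finite subsets of `I` with values in a commutative ring `L` without
`p`-torsion in which the natural numbers prime to `p` are units. If `T (s S) = T S` for all `S`, then
`p ^ (m + 1)` divides `∑_S p ^ |S| T S - T ∅`.
-/

open Finset

namespace FQ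

section

variable {L : Type*} [CommRing L] {I : Type*} [Fintype I] [DecidableEq I]

/-- invariance under all powers of `s` -/
theorem inv_pow (s : Equiv.Perm I) (T : Finset I → L)
    (hT : ∀ S : Finset I, T (S.map s.toEmbedding) = T S) (k : ℕ) (S : Finset I) :
    T (S.map (s ^ k).toEmbedding) = T S := by
  induction k generalizing S with
  | zero =>
      congr 1
      ext x
      simp only [pow_zero, mem_map_equiv]
      exact Iff.rfl
  | succ k ih =>
      have : S.map (s ^ (k + 1)).toEmbedding = (S.map (s ^ k).toEmbedding).map s.toEmbedding := by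
        ext x
        simp only [pow_succ', mem_map_equiv]
        exact Iff.rfl
      rw [this, hT, ih]

/-- the sum over the sets with `j` elements which contain `i` does not depend on `i` -/
theorem sum_mem_eq (s : Equiv.Perm I) (T : Finset I → L)
    (hT : ∀ S : Finset I, T (S.map s.toEmbedding) = T S) (j : ℕ) (i0 i : I)
    (hi : ∃ k : ℕ, (s ^ k) i0 = i) :
    ∑ S ∈ (powersetCard j (univ : Finset I)).filter (fun S => i ∈ S), T S
      = ∑ S ∈ (powersetCard j (univ : Finset I)).filter (fun S => i0 ∈ S), T S := by
  obtain ⟨k, rfl⟩ := hi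
  symm
  refine Finset.sum_bij' (fun S _ => S.map (s ^ k).toEmbedding)
    (fun S _ => S.map (s ^ k).symm.toEmbedding) ?_ ?_ ?_ ?_ ?_
  · intro S hS
    simp only [mem_filter, mem_powersetCard, subset_univ, true_and, card_map] at hS ⊢
    exact ⟨hS.1, mem_map_of_mem _ hS.2⟩
  · intro S hS
    simp only [mem_filter, mem_powersetCard, subset_univ, true_and, card_map] at hS ⊢
    refine ⟨hS.1, ?_⟩
    rw [mem_map]
    exact ⟨_, hS.2, by simp⟩
  · intro S _
    ext x
    simp
  · intro S _
    ext x
    simp
  · intro S _
    exact (inv_pow s T hT k S).symm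

/-- double counting: `j c_j = |I| * (the part of the sets containing i0)` -/
theorem mul_sum_card (s : Equiv.Perm I) (T : Finset I → L)
    (hT : ∀ S : Finset I, T (S.map s.toEmbedding) = T S) (i0 : I)
    (hs : ∀ i : I, ∃ k : ℕ, (s ^ k) i0 = i) (j : ℕ) :
    (j : L) * ∑ S ∈ powersetCard j (univ : Finset I), T S
      = (Fintype.card I : L) *
        ∑ S ∈ (powersetCard j (univ : Finset I)).filter (fun S => i0 ∈ S), T S := by
  have h1 : (j : L) * ∑ S ∈ powersetCard j (univ : Finset I), T S
      = ∑ S ∈ powersetCard j (univ : Finset I), ∑ i : I, if i ∈ S then T S else 0 := by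
    rw [mul_sum]
    refine sum_congr rfl fun S hS => ?_
    rw [mem_powersetCard] at hS
    rw [← Finset.sum_filter, sum_const, nsmul_eq_mul]
    congr 2
    rw [← hS.2]
    congr 1
    ext x
    simp
  rw [h1, sum_comm]
  have h2 : ∀ i ∈ (univ : Finset I),
      (∑ S ∈ powersetCard j (univ : Finset I), if i ∈ S then T S else 0)
        = ∑ S ∈ (powersetCard j (univ : Finset I)).filter (fun S => i0 ∈ S), T S := by
    intro i _
    rw [← Finset.sum_filter]
    exact sum_mem_eq s T hT j i0 i (hs i)
  rw [sum_congr rfl h2, sum_const, nsmul_eq_mul, card_univ]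

end

end FQ

end

section

/-!
# Project CZ: tensor products of elements and matrices of group rings

`tp a = ⊗ a_i` in `B[G^I]`, coefficient at `g` the product of the coefficients of the `a_i` at `g i`.

PROOFS.  `tp_mul`: coefficient at `g`; or expand both factors in singletons (`tp_sum_single`): `tp a` is the sum over the functions
`g ∈ piFinset (supports)` of `single g (∏ (a i).coeff (g i))`, and `tp` is multilinear; for `a i = single (g i) (b i)` it is
`single g (∏ b i)`.  A clean way: `tp` as the composition of a `MultilinearMap` over `B` (`MultilinearMap.mkPiRing`-like) and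
`MonoidAlgebra.induction_linear` in one coordinate at a time; or `Finset.prod_univ_sum`.
`tp_sum`: `Finset.prod_univ_sum` for the coefficients.
`tpM_mul`: `tpM (U V) v w = tp (i ↦ ∑_y U (v i) y * V y (w i)) = ∑_{x : I → Y} tp (i ↦ U (v i) (x i) * V (x i) (w i))`.
-/

set_option autoImplicit false

open Matrix

universe u v w

namespace Pool.Agent.H71.CZ

section

variable {B : Type u} [CommRing B] {G : Type v} [Group G] {I : Type w} [Fintype I]

open Classical in
/-- the tensor product of the elements `a i` -/
noncomputable def tp (a : I → MonoidAlgebra B G) : MonoidAlgebra B (I → G) :=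
  MonoidAlgebra.ofCoeff (Finsupp.onFinset (Fintype.piFinset fun i => (a i).coeff.support)
    (fun g => ∏ i, (a i).coeff (g i)) (by
      intro g hg
      rw [Fintype.mem_piFinset]
      intro i
      rw [Finsupp.mem_support_iff]
      intro h
      exact hg (Finset.prod_eq_zero (Finset.mem_univ i) h)))

theorem tp_coeff (a : I → MonoidAlgebra B G) (g : I → G) :
    (tp a).coeff g = ∏ i, (a i).coeff (g i) := rfl

theorem tp_ext {x y : MonoidAlgebra B (I → G)} (h : ∀ g, x.coeff g = y.coeff g) : x = y :=
  MonoidAlgebra.coeff_injective (Finsupp.ext h)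

/-- the coefficient at `g` as a multilinear map -/
noncomputable def tpC (g : I → G) : MultilinearMap B (fun _ : I => MonoidAlgebra B G) B :=
  (MultilinearMap.mkPiAlgebra B I B).compLinearMap fun i =>
    (Finsupp.lapply (g i)).comp (MonoidAlgebra.coeffLinearEquiv (S := B) (M := G) B).toLinearMap

theorem tpC_apply (g : I → G) (a : I → MonoidAlgebra B G) : tpC g a = ∏ i, (a i).coeff (g i) := by
  unfold tpC
  rw [MultilinearMap.compLinearMap_apply, MultilinearMap.mkPiAlgebra_apply]
  rfl

/-- the tensor product as a multilinear map -/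
noncomputable def tpL : MultilinearMap B (fun _ : I => MonoidAlgebra B G) (MonoidAlgebra B (I → G)) where
  toFun := tp
  map_update_add' m i x y := by
    refine tp_ext fun g => ?_
    have h := (tpC (B := B) g).map_update_add m i x y
    rw [tpC_apply, tpC_apply, tpC_apply] at h
    rw [MonoidAlgebra.coeff_add, Finsupp.add_apply, tp_coeff, tp_coeff, tp_coeff]
    exact h
  map_update_smul' m i c x := by
    refine tp_ext fun g => ?_
    have h := (tpC (B := B) g).map_update_smul m i c x
    rw [tpC_apply, tpC_apply] at h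
    rw [MonoidAlgebra.coeff_smul, Finsupp.smul_apply, tp_coeff, tp_coeff]
    exact h

theorem tpL_apply (a : I → MonoidAlgebra B G) : tpL a = tp a := rfl

theorem tp_single (g : I → G) (b : I → B) :
    tp (fun i => MonoidAlgebra.single (g i) (b i)) = MonoidAlgebra.single g (∏ i, b i) := by
  classical
  refine tp_ext fun h => ?_
  rw [tp_coeff, MonoidAlgebra.coeff_single, Finsupp.single_apply]
  by_cases hgh : g = h
  · subst hgh
    rw [if_pos rfl]
    refine Finset.prod_congr rfl fun i _ => ?_
    rw [MonoidAlgebra.coeff_single, Finsupp.single_eq_same]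
  · rw [if_neg hgh]
    obtain ⟨i, hi⟩ := Function.ne_iff.1 hgh
    refine Finset.prod_eq_zero (Finset.mem_univ i) ?_
    rw [MonoidAlgebra.coeff_single, Finsupp.single_apply, if_neg hi]

theorem tp_one : tp (fun _ : I => (1 : MonoidAlgebra B G)) = 1 := by
  have h := tp_single (B := B) (fun _ : I => (1 : G)) fun _ => 1
  rw [Finset.prod_const_one] at h
  exact h

theorem tp_mul (a b : I → MonoidAlgebra B G) : tp a * tp b = tp fun i => a i * b i := by
  classical
  -- both sides are multilinear in `a`
  have key : ∀ b : I → MonoidAlgebra B G,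
      (LinearMap.mulRight B (tp b)).compMultilinearMap tpL =
        (tpL (B := B) (G := G) (I := I)).compLinearMap fun i => LinearMap.mulRight B (b i) := by
    intro b
    refine Module.Basis.ext_multilinear (fun _ => MonoidAlgebra.basis G B) fun v => ?_
    rw [LinearMap.compMultilinearMap_apply, MultilinearMap.compLinearMap_apply]
    simp only [LinearMap.mulRight_apply, tpL_apply]
    -- both sides are multilinear in `b`
    have key2 : (LinearMap.mulLeft B (tp fun i => MonoidAlgebra.basis G B (v i))).compMultilinearMap tpL =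
        (tpL (B := B) (G := G) (I := I)).compLinearMap fun i => LinearMap.mulLeft B (MonoidAlgebra.basis G B (v i)) := by
      refine Module.Basis.ext_multilinear (fun _ => MonoidAlgebra.basis G B) fun w => ?_
      rw [LinearMap.compMultilinearMap_apply, MultilinearMap.compLinearMap_apply]
      simp only [LinearMap.mulLeft_apply, tpL_apply]
      have e : ∀ g : G, (MonoidAlgebra.basis G B g : MonoidAlgebra B G) = MonoidAlgebra.single g 1 := fun g => by
        simp [MonoidAlgebra.basis]
      simp only [e, MonoidAlgebra.single_mul_single]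
      rw [tp_single v fun _ => (1 : B), tp_single w fun _ => (1 : B), MonoidAlgebra.single_mul_single,
        tp_single (fun i => v i * w i) fun _ => (1 : B) * 1]
      simp only [mul_one, Finset.prod_const_one]
      rfl
    have h2 := congrArg (fun f => f b) key2
    simp only [LinearMap.compMultilinearMap_apply, MultilinearMap.compLinearMap_apply, LinearMap.mulLeft_apply,
      tpL_apply] at h2
    exact h2
  have h := congrArg (fun f => f a) (key b)
  simp only [LinearMap.compMultilinearMap_apply, MultilinearMap.compLinearMap_apply, LinearMap.mulRight_apply,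
    tpL_apply] at h
  exact h

theorem tp_zero (a : I → MonoidAlgebra B G) (i : I) (h : a i = 0) : tp a = 0 := by
  refine tp_ext fun g => ?_
  rw [tp_coeff, MonoidAlgebra.coeff_zero, Finsupp.zero_apply]
  refine Finset.prod_eq_zero (Finset.mem_univ i) ?_
  rw [h, MonoidAlgebra.coeff_zero, Finsupp.zero_apply]

theorem tp_sum {X : Type*} [Fintype X] [DecidableEq I] (a : I → X → MonoidAlgebra B G) :
    tp (fun i => ∑ x, a i x) = ∑ x : I → X, tp fun i => a i (x i) := by
  refine tp_ext fun g => ?_
  rw [tp_coeff, MonoidAlgebra.coeff_sum, Finsupp.finset_sum_apply]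
  simp only [MonoidAlgebra.coeff_sum, Finsupp.finset_sum_apply, tp_coeff]
  rw [Finset.prod_univ_sum, Fintype.piFinset_univ]

/-- naturality in the group -/
theorem tp_map {G' : Type*} [Group G'] (f : G →* G') (a : I → MonoidAlgebra B G)
    (F : (I → G) →* (I → G')) (hF : ∀ g i, F g i = f (g i)) :
    MonoidAlgebra.mapDomainRingHom B F (tp a) =
      tp fun i => MonoidAlgebra.mapDomainRingHom B f (a i) := by
  classical
  have key : (MonoidAlgebra.mapDomainAlgHom B B F).toLinearMap.compMultilinearMap tpL =
      (tpL (B := B) (G := G') (I := I)).compLinearMap fun _ => (MonoidAlgebra.mapDomainAlgHom B B f).toLinearMap := by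
    refine Module.Basis.ext_multilinear (fun _ => MonoidAlgebra.basis G B) fun v => ?_
    rw [LinearMap.compMultilinearMap_apply, MultilinearMap.compLinearMap_apply]
    simp only [tpL_apply]
    have e : ∀ g : G, (MonoidAlgebra.basis G B g : MonoidAlgebra B G) = MonoidAlgebra.single g 1 := fun g => by
      simp [MonoidAlgebra.basis]
    simp only [e]
    rw [tp_single v fun _ => (1 : B)]
    simp only [AlgHom.toLinearMap_apply, MonoidAlgebra.mapDomainAlgHom_apply, MonoidAlgebra.mapDomain_single]
    rw [tp_single (fun i => f (v i)) fun _ => (1 : B)]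
    congr 1
    exact funext fun i => hF v i
  have h := congrArg (fun f => f a) key
  simp only [LinearMap.compMultilinearMap_apply, MultilinearMap.compLinearMap_apply, tpL_apply] at h
  exact h

variable {Y : Type*} [Fintype Y] [DecidableEq Y] [DecidableEq I]

/-- the tensor power of a matrix -/
noncomputable def tpM (U : Matrix Y Y (MonoidAlgebra B G)) :
    Matrix (I → Y) (I → Y) (MonoidAlgebra B (I → G)) :=
  fun v w => tp fun i => U (v i) (w i)

theorem tpM_apply (U : Matrix Y Y (MonoidAlgebra B G)) (v w : I → Y) :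
    tpM U v w = tp fun i => U (v i) (w i) := rfl

theorem tpM_one : tpM (1 : Matrix Y Y (MonoidAlgebra B G)) =
    (1 : Matrix (I → Y) (I → Y) (MonoidAlgebra B (I → G))) := by
  ext1 v w
  rw [tpM_apply]
  by_cases h : v = w
  · subst h
    simp only [Matrix.one_apply_eq]
    exact tp_one
  · rw [Matrix.one_apply_ne h]
    obtain ⟨i, hi⟩ := Function.ne_iff.1 h
    exact tp_zero _ i (Matrix.one_apply_ne hi)

theorem tpM_mul (U V : Matrix Y Y (MonoidAlgebra B G)) :
    (tpM (U * V) : Matrix (I → Y) (I → Y) (MonoidAlgebra B (I → G))) = tpM U * tpM V := by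
  ext1 v w
  rw [tpM_apply, Matrix.mul_apply]
  simp only [Matrix.mul_apply, tpM_apply, tp_mul]
  exact tp_sum fun i y => U (v i) y * V y (w i)

end

end Pool.Agent.H71.CZ

end

section

/-!
# Project FQ: powers and trace functionals

`lam` is a function on a ring `A` with the trace property on a subring `S`, with values in a ring `B` in which
`p ^ (m + 1) = 0`. Then `lam ((x + p y) ^ (p ^ m)) = lam (x ^ (p ^ m))`.

PROOF. Expand the product in subsets of `Fin q`, `q = p ^ m`; `lam` of the word of a subset is invariant under the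
cyclic shift. Then `j c_j = q e_j` for the sum `c_j` of the words of the subsets with `j` elements
(`FQ.mul_sum_card`). Write `j = p ^ v u`; `u` is a unit of `B`, so `p ^ v c_j ∈ p ^ m B`, and `v < j` gives
`p ^ j c_j = 0` for `j ≥ 1`.
-/

set_option autoImplicit false

namespace Pool.Agent.H71.FQ

open Finset

/-- the word of a subset: `y` at the places of `S`, `x` elsewhere -/
noncomputable def wordOf {A : Type*} [Ring A] (q : ℕ) (x y : A) (S : Finset (Fin q)) : A :=
  (List.ofFn (S.piecewise (fun _ => y) (fun _ => x))).prod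

theorem add_pow_words {A : Type*} [Ring A] (q : ℕ) (x y : A) :
    (x + y) ^ q = ∑ S : Finset (Fin q), wordOf q x y S := by
  have h := (MultilinearMap.mkPiAlgebraFin ℤ q A).map_add_univ (fun _ => y) (fun _ => x)
  simp only [MultilinearMap.mkPiAlgebraFin_apply, Pi.add_apply] at h
  have h2 : (List.ofFn ((fun _ => y) + (fun _ => x) : Fin q → A)).prod = (x + y) ^ q := by
    have : ((fun _ => y) + (fun _ => x) : Fin q → A) = fun _ => x + y := by
      funext i
      simp [add_comm]
    rw [this, List.ofFn_const, List.prod_replicate]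
  rw [h2] at h
  exact h

theorem wordOf_nsmul {A : Type*} [Ring A] (q : ℕ) (x y : A) (p : ℕ) (S : Finset (Fin q)) :
    wordOf q x (p • y) S = (p ^ S.card) • wordOf q x y S := by
  have h := (MultilinearMap.mkPiAlgebraFin ℤ q A).map_piecewise_smul (fun _ => (p : ℤ))
    (S.piecewise (fun _ => y) (fun _ => x)) S
  simp only [MultilinearMap.mkPiAlgebraFin_apply, prod_const] at h
  have h2 : S.piecewise (fun i => (p : ℤ) • (S.piecewise (fun _ => y) (fun _ => x) : Fin q → A) i)
      (S.piecewise (fun _ => y) (fun _ => x)) = S.piecewise (fun _ => p • y) (fun _ => x) := by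
    funext i
    by_cases hi : i ∈ S
    · simp [Finset.piecewise, hi]
    · simp [Finset.piecewise, hi]
  rw [h2] at h
  rw [wordOf, wordOf, h, ← Nat.cast_pow, natCast_zsmul]

/-- cyclic invariance of the words under a trace function -/
theorem lam_word_rotate {A B : Type*} [Ring A] [CommRing B] (lam : A →+ B) (S : Subring A)
    (h : ∀ x ∈ S, ∀ y ∈ S, lam (x * y) = lam (y * x)) (k : ℕ) (f : Fin (k + 1) → A)
    (hf : ∀ i, f i ∈ S) :
    lam (List.ofFn (fun i => f (finRotate (k + 1) i))).prod = lam (List.ofFn f).prod := by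
  have h1 : (List.ofFn f).prod = f 0 * (List.ofFn fun i : Fin k => f i.succ).prod := by
    rw [List.ofFn_succ, List.prod_cons]
  have h2 : (List.ofFn (fun i => f (finRotate (k + 1) i))).prod
      = (List.ofFn fun i : Fin k => f i.succ).prod * f 0 := by
    rw [List.ofFn_succ', List.concat_eq_append, List.prod_append, List.prod_singleton]
    congr 2
    · congr 1
      congr 1
      funext i
      congr 1
      simp [finRotate_succ_apply, Fin.ext_iff]
    · simp
  rw [h1, h2]
  refine (h _ (hf 0) _ ?_).symm
  refine Subring.list_prod_mem S ?_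
  intro a ha
  rw [List.mem_ofFn] at ha
  obtain ⟨i, rfl⟩ := ha
  exact hf _

theorem isUnit_of_not_dvd {B : Type*} [CommRing B] {p : ℕ} (hp : p.Prime) {m : ℕ}
    (hB : (p : B) ^ (m + 1) = 0) {u : ℕ} (hu : ¬ p ∣ u) : IsUnit (u : B) := by
  have hc : IsCoprime (u : ℤ) ((p : ℤ) ^ (m + 1)) := by
    have : Nat.Coprime u (p ^ (m + 1)) :=
      Nat.Coprime.pow_right _ ((hp.coprime_iff_not_dvd.mpr hu).symm)
    have h2 := Nat.isCoprime_iff_coprime.mpr this
    simpa using h2
  obtain ⟨a, b, hab⟩ := hc
  have h3 : (a : B) * (u : B) + (b : B) * (p : B) ^ (m + 1) = 1 := by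
    have := congrArg (fun z : ℤ => (z : B)) hab
    simpa using this
  rw [hB, mul_zero, add_zero] at h3
  exact IsUnit.of_mul_eq_one_right _ h3

theorem lam_pow {A B : Type*} [Ring A] [CommRing B] (lam : A →+ B) (S : Subring A)
    (h : ∀ x ∈ S, ∀ y ∈ S, lam (x * y) = lam (y * x)) {p : ℕ} (hp : p.Prime) {m : ℕ}
    (hB : (p : B) ^ (m + 1) = 0) {x y : A} (hx : x ∈ S) (hy : y ∈ S) :
    lam ((x + p • y) ^ p ^ m) = lam (x ^ p ^ m) := by
  obtain ⟨k, hk⟩ : ∃ k, p ^ m = k + 1 := Nat.exists_eq_succ_of_ne_zero (pow_pos hp.pos m).ne'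
  set T : Finset (Fin (p ^ m)) → B := fun S => lam (wordOf (p ^ m) x y S) with hTdef
  have h1 : lam ((x + p • y) ^ p ^ m) = ∑ S : Finset (Fin (p ^ m)), (p : B) ^ S.card * T S := by
    rw [add_pow_words, map_sum]
    refine sum_congr rfl fun U _ => ?_
    rw [wordOf_nsmul, map_nsmul, nsmul_eq_mul, Nat.cast_pow]
  have h2 : lam (x ^ p ^ m) = T ∅ := by
    rw [hTdef]
    simp only [wordOf, Finset.piecewise_empty]
    rw [List.ofFn_const, List.prod_replicate]
  have hrot : ∀ U : Finset (Fin (p ^ m)), T (U.map (finRotate (p ^ m)).toEmbedding) = T U := by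
    rw [hTdef]
    clear_value T
    rw [hk]
    intro U
    simp only [wordOf]
    have h3 : (U.piecewise (fun _ => y) (fun _ => x) : Fin (k + 1) → A) = fun i =>
        ((U.map (finRotate (k + 1)).toEmbedding).piecewise (fun _ => y) (fun _ => x) :
          Fin (k + 1) → A) (finRotate (k + 1) i) := by
      funext i
      simp only [Finset.piecewise, mem_map_equiv, Equiv.symm_apply_apply]
    rw [h3]
    refine (lam_word_rotate lam S h k _ ?_).symm
    intro i
    simp only [Finset.piecewise]
    split_ifs
    · exact hy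
    · exact hx
  have htr : ∀ i : Fin (p ^ m), ∃ j : ℕ, ((finRotate (p ^ m)) ^ j) ⟨0, pow_pos hp.pos m⟩ = i := by
    intro i
    refine ⟨i, ?_⟩
    have h5 : ∀ (j : ℕ) (hj : j < p ^ m), ((finRotate (p ^ m)) ^ j) ⟨0, pow_pos hp.pos m⟩ = ⟨j, hj⟩ := by
      intro j
      induction j with
      | zero => intro hj; simp
      | succ j ih =>
          intro hj
          rw [pow_succ', Equiv.Perm.mul_apply, ih (by omega)]
          have h6 : ∀ (N : ℕ) (hN : N = k + 1) (h7 : j < N) (h8 : j + 1 < N),
              finRotate N ⟨j, h7⟩ = ⟨j + 1, h8⟩ := by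
            rintro N rfl h7 h8
            exact finRotate_of_lt (by omega)
          exact h6 _ hk _ _
    exact h5 i i.2
  have hcard : Fintype.card (Fin (p ^ m)) = p ^ m := Fintype.card_fin _
  have h0 : (∑ S : Finset (Fin (p ^ m)), (p : B) ^ S.card * T S)
      = ∑ j ∈ range (Fintype.card (Fin (p ^ m)) + 1),
          (p : B) ^ j * ∑ S ∈ powersetCard j (univ : Finset (Fin (p ^ m))), T S := by
    have h1 := Finset.sum_powerset (univ : Finset (Fin (p ^ m))) (fun S => (p : B) ^ S.card * T S)
    rw [Finset.powerset_univ, card_univ] at h1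
    rw [h1]
    refine sum_congr rfl fun j _ => ?_
    rw [mul_sum]
    refine sum_congr rfl fun S hS => ?_
    rw [mem_powersetCard] at hS
    rw [hS.2]
  rw [h1, h2, h0, sum_range_succ']
  have h3 : (p : B) ^ 0 * ∑ S ∈ powersetCard 0 (univ : Finset (Fin (p ^ m))), T S = T ∅ := by
    simp
  rw [h3]
  convert zero_add _
  refine sum_eq_zero fun j _ => ?_
  have h4 := FQ.mul_sum_card (finRotate (p ^ m)) T hrot _ htr (j + 1)
  rw [hcard, Nat.cast_pow] at h4
  obtain ⟨v, u, hpu, hju⟩ := Nat.exists_eq_pow_mul_and_not_dvd (Nat.succ_ne_zero j) p hp.ne_one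
  have hv : v + 1 ≤ j + 1 := by
    have h5 : p ^ v ≤ j + 1 := by
      rw [← Nat.succ_eq_add_one, hju]
      exact Nat.le_mul_of_pos_right _ (Nat.pos_of_ne_zero (by rintro rfl; simp at hpu))
    exact (Nat.lt_pow_self hp.one_lt).trans_le h5
  obtain ⟨U, hU⟩ := isUnit_of_not_dvd hp hB hpu
  set c := ∑ S ∈ powersetCard (j + 1) (univ : Finset (Fin (p ^ m))), T S with hc
  have h6 : (p : B) ^ v * c = (p : B) ^ m * (((U⁻¹ : Bˣ) : B) *
      ∑ S ∈ (powersetCard (j + 1) (univ : Finset (Fin (p ^ m)))).filter
        (fun S => ⟨0, pow_pos hp.pos m⟩ ∈ S), T S) := by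
    have h7 : ((j + 1 : ℕ) : B) = (p : B) ^ v * (u : B) := by
      rw [← Nat.succ_eq_add_one, hju]; push_cast; ring
    rw [h7, ← hU] at h4
    calc (p : B) ^ v * c = ((U⁻¹ : Bˣ) : B) * ((p : B) ^ v * (U : B) * c) := by
          rw [show ((U⁻¹ : Bˣ) : B) * ((p : B) ^ v * (U : B) * c)
            = (((U⁻¹ : Bˣ) : B) * (U : B)) * ((p : B) ^ v * c) by ring, Units.inv_mul, one_mul]
      _ = _ := by rw [h4]; ring
  obtain ⟨r, hr⟩ := Nat.exists_eq_add_of_le hv
  rw [show j + 1 = r + 1 + v by omega, pow_add, mul_assoc, h6, ← mul_assoc, ← pow_add,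
    show r + 1 + m = r + (m + 1) by omega, pow_add, hB, mul_zero, zero_mul]

end Pool.Agent.H71.FQ

end
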