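import Pool.Agent.H71.TCZ.M01
import Pool.Agent.H71.TCZ.M30

/-! The parts of this file: H16.KN.TTa, H71.FQ.TCls. -/

section

/-!
# Project KN: the trace cochains

`φ` a function of `K` variables in `G`, invariant under the centralizer of `c` (`CI`).  `TM c φ b` is the sum over the
words `g_0, …, g_{K-1}` of the coefficient of `tr (b_0 ⋯ b_{K-1})` times `φ (u, u g_0, u g_0 g_1, …)`, where
`u (g_0 ⋯ g_{K-1}) u⁻¹ = c` (zero if there is no such `u`).  `TT c φ x` is its value on the letters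
`x_j⁻¹ x_{j+1}` (`j` cyclic) of a tuple of invertible matrices.

PROOFS.  `TM_eq`: `TB` with `q = 1` is `lam (wf c ..) (∏ io j (b j))`; `io j (b j) = ∑ x ∈ S, single (let1 x j) (cof (b j) x)`;
expand the product (e.g. by induction on `K`, or `MultilinearMap.mkPiAlgebraFin .. map_sum`); for the word
`W = ∏ let1 (g j) j`: `prd W = ∏ g j`, `cnt j W = 1`, `occ j W y = [y * g 0 * ⋯ * g (j-1)]`.  The other statements
follow from `TM_eq` or from `TB_blk`, `TB_sum`, `lam_map`, `wf_map`.
-/

set_option autoImplicit false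

open Matrix

universe u v w

namespace Pool.Agent.H16.KN

open Pool.Agent.H71.FQ

section

variable {G : Type u} [Group G] {B : Type v} [CommRing B] {K : ℕ}

/-- invariance under the centralizer of `c` -/
def CI (c : G) (φ : (Fin K → G) → B) : Prop :=
  ∀ g : G, g * c = c * g → ∀ x, φ (fun j => g * x j) = φ x

/-- the vertices `u, u g_0, u g_0 g_1, …` -/
def vtx (u : G) (g : Fin K → G) (j : Fin K) : G := u * ((List.ofFn g).take j).prod

open Classical in
/-- the value of `φ` on a word -/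
noncomputable def wv (c : G) (φ : (Fin K → G) → B) (g : Fin K → G) : B :=
  if h : ∃ u : G, u * (List.ofFn g).prod * u⁻¹ = c then φ (vtx h.choose g) else 0

theorem wv_eq {c : G} {φ : (Fin K → G) → B} (hφ : CI c φ) (g : Fin K → G) (u : G)
    (hu : u * (List.ofFn g).prod * u⁻¹ = c) : wv c φ g = φ (vtx u g) := by
  have h : ∃ u : G, u * (List.ofFn g).prod * u⁻¹ = c := ⟨u, hu⟩
  rw [wv, dif_pos h]
  generalize hw : h.choose = w
  have hw' : w * (List.ofFn g).prod * w⁻¹ = c := by rw [← hw]; exact h.choose_spec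
  have e : vtx w g = fun j => (w * u⁻¹) * vtx u g j := by
    funext j
    unfold vtx
    group
  rw [e]
  refine hφ _ ?_ _
  calc w * u⁻¹ * c = w * u⁻¹ * (u * (List.ofFn g).prod * u⁻¹) := by rw [hu]
    _ = (w * (List.ofFn g).prod * w⁻¹) * (w * u⁻¹) := by group
    _ = c * (w * u⁻¹) := by rw [hw']

theorem wv_zero (c : G) (φ : (Fin K → G) → B) (g : Fin K → G)
    (h : ∀ u : G, u * (List.ofFn g).prod * u⁻¹ ≠ c) : wv c φ g = 0 := by
  rw [wv, dif_neg]
  rintro ⟨u, hu⟩
  exact h u hu

/-- the value on a cyclic word of matrices -/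
noncomputable def TM (c : G) (φ : (Fin K → G) → B) {N : ℕ}
    (b : Fin K → Matrix (Fin N) (Fin N) (MonoidAlgebra B G)) : B :=
  TB c (fun v : Fin K → Fin 1 → G => φ fun j => v j 0) b

omit [CommRing B] in
private theorem isInv_one {c : G} {φ : (Fin K → G) → B} (hφ : CI c φ) :
    IsInv c (fun v : Fin K → Fin 1 → G => φ fun j => v j 0) := by
  refine ⟨fun g hg v => ?_, fun v => ?_⟩
  · exact hφ g hg fun j => v j 0
  · exact hφ c rfl fun j => v j 0

private theorem io_eq_sum {N : ℕ} (l : ℕ) (a : Matrix (Fin N) (Fin N) (MonoidAlgebra B G))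
    (S : Finset G) (hS : ∀ x, cof a x ≠ 0 → x ∈ S) :
    (io l a : FR G (Fin N) B) = ∑ x : S, MonoidAlgebra.single (let1 (x : G) l) (cof a (x : G)) := by
  classical
  symm
  apply eq_io
  · intro x
    rw [MonoidAlgebra.coeff_sum, Finsupp.finsetSum_apply]
    by_cases hx : x ∈ S
    · rw [Finset.sum_eq_single (⟨x, hx⟩ : S)]
      · rw [MonoidAlgebra.coeff_single, Finsupp.single_eq_same]
      · intro y _ hy
        rw [MonoidAlgebra.coeff_single, Finsupp.single_eq_of_ne]
        intro h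
        exact hy (Subtype.ext (let1_injective l h).symm)
      · intro h
        exact absurd (Finset.mem_univ _) h
    · have h0 : cof a x = 0 := by
        by_contra h
        exact hx (hS x h)
      rw [h0]
      refine Finset.sum_eq_zero fun y _ => ?_
      rw [MonoidAlgebra.coeff_single, Finsupp.single_eq_of_ne]
      intro h
      apply hx
      rw [let1_injective l h]
      exact y.2
  · intro W hW
    rw [MonoidAlgebra.coeff_sum, Finsupp.finsetSum_apply]
    refine Finset.sum_eq_zero fun y _ => ?_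
    rw [MonoidAlgebra.coeff_single, Finsupp.single_eq_of_ne]
    intro h
    exact hW y h

private theorem prod_single {R : Type*} [Semiring R] {M : Type*} [Monoid M] {n : ℕ}
    (w : Fin n → M) (A : Fin n → R) :
    (List.ofFn fun j => (MonoidAlgebra.single (w j) (A j) : MonoidAlgebra R M)).prod =
      MonoidAlgebra.single (List.ofFn w).prod (List.ofFn A).prod := by
  induction n with
  | zero => simp [MonoidAlgebra.one_def]
  | succ n ih =>
    rw [List.ofFn_succ, List.prod_cons, ih, List.ofFn_succ, List.prod_cons, List.ofFn_succ,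
      List.prod_cons, MonoidAlgebra.single_mul_single]

private theorem prd_word {n : ℕ} (g : Fin n → G) (l : Fin n → ℕ) :
    prd (List.ofFn fun j => let1 (g j) (l j)).prod = (List.ofFn g).prod := by
  rw [map_list_prod, List.map_ofFn]
  rfl

private theorem occ_word {n : ℕ} (g : Fin n → G) (i : ℕ) (y : G) :
    occ i (List.ofFn fun j : Fin n => let1 (g j) (j : ℕ)).prod y =
      if i < n then [y * ((List.ofFn g).take i).prod] else [] := by
  induction n with
  | zero =>
    rw [List.ofFn_zero, List.prod_nil, if_neg (Nat.not_lt_zero i)]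
    rfl
  | succ n ih =>
    have h1 : (List.ofFn fun j : Fin (n + 1) => let1 (g j) (j : ℕ)) =
        (List.ofFn fun j : Fin n => let1 (g j.castSucc) (j : ℕ)) ++ [let1 (g (Fin.last n)) n] := by
      rw [List.ofFn_succ', List.concat_eq_append]
      rfl
    have h2 : List.ofFn g = (List.ofFn fun j : Fin n => g j.castSucc) ++ [g (Fin.last n)] := by
      rw [List.ofFn_succ', List.concat_eq_append]
    rw [h1, List.prod_append, List.prod_singleton, occ_mul, ih fun j => g j.castSucc, occ_let1,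
      prd_word (fun j : Fin n => g j.castSucc) fun j => (j : ℕ), h2]
    rcases lt_trichotomy i n with h | h | h
    · rw [if_pos h, if_neg (by omega), if_pos (by omega), List.append_nil,
        List.take_append_of_le_length (by rw [List.length_ofFn]; exact h.le)]
    · subst h
      rw [if_neg (lt_irrefl _), if_pos rfl, if_pos (by omega), List.nil_append,
        List.take_append_of_le_length (by rw [List.length_ofFn]), List.take_of_length_le
          (by rw [List.length_ofFn])]
    · rw [if_neg (by omega), if_neg (by omega), if_neg (by omega), List.append_nil]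

private theorem wf_word {c : G} {φ : (Fin K → G) → B} (hφ : CI c φ) (g : Fin K → G) :
    wf c (fun v : Fin K → Fin 1 → G => φ fun j => v j 0) (fun j : Fin K => (j : ℕ))
      (List.ofFn fun j : Fin K => let1 (g j) (j : ℕ)).prod = wv c φ g := by
  have hcnt : ∀ j : Fin K, cnt (j : ℕ) (List.ofFn fun j : Fin K => let1 (g j) (j : ℕ)).prod = 1 := by
    intro j
    rw [cnt, occ_word, if_pos j.2]
    rfl
  by_cases h : ∃ u : G, u * (List.ofFn g).prod * u⁻¹ = c
  · obtain ⟨u, hu⟩ := h
    rw [wv_eq hφ g u hu, wf_eq (isInv_one hφ) _ _ hcnt u (by rw [prd_word]; exact hu)]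
    show φ _ = φ _
    congr 1
    funext j
    rw [rd, occ_word, if_pos j.2]
    rfl
  · rw [wv_zero c φ g fun u hu => h ⟨u, hu⟩]
    refine wf_of_prd _ _ _ ?_
    intro y hy
    rw [prd_word] at hy
    exact h ⟨y, hy⟩

/-- **The explicit formula.** -/
theorem TM_eq {c : G} {φ : (Fin K → G) → B} (hφ : CI c φ) {N : ℕ}
    (b : Fin K → Matrix (Fin N) (Fin N) (MonoidAlgebra B G)) (S : Finset G)
    (hS : ∀ j, ∀ x, cof (b j) x ≠ 0 → x ∈ S) :
    TM c φ b = ∑ g : Fin K → S,
      ((List.ofFn fun j => cof (b j) (g j : G)).prod).trace * wv c φ (fun j => (g j : G)) := by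
  classical
  unfold TM TB
  rw [pow_one]
  have h1 : (List.ofFn fun j : Fin K => (io (j : ℕ) (b j) : FR G (Fin N) B)).prod =
      ∑ g : Fin K → S, MonoidAlgebra.single (List.ofFn fun j : Fin K => let1 (g j : G) (j : ℕ)).prod
        (List.ofFn fun j => cof (b j) (g j : G)).prod := by
    have h2 : (fun j : Fin K => (io (j : ℕ) (b j) : FR G (Fin N) B)) = fun j : Fin K =>
        ∑ x : S, MonoidAlgebra.single (let1 (x : G) (j : ℕ)) (cof (b j) (x : G)) := by
      funext j
      exact io_eq_sum (j : ℕ) (b j) S (hS j)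
    rw [h2]
    have h3 := MultilinearMap.map_sum (MultilinearMap.mkPiAlgebraFin ℕ K (FR G (Fin N) B))
      (fun (j : Fin K) (x : S) =>
        (MonoidAlgebra.single (let1 (x : G) (j : ℕ)) (cof (b j) (x : G)) : FR G (Fin N) B))
    simp only [MultilinearMap.mkPiAlgebraFin_apply] at h3
    rw [h3]
    refine Finset.sum_congr rfl fun g _ => ?_
    exact prod_single _ _
  rw [h1, map_sum]
  refine Finset.sum_congr rfl fun g _ => ?_
  rw [lam_single, wf_word hφ]

omit [Group G] in
theorem exists_supp {N : ℕ} (b : Fin K → Matrix (Fin N) (Fin N) (MonoidAlgebra B G)) :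
    ∃ S : Finset G, ∀ j, ∀ x, cof (b j) x ≠ 0 → x ∈ S := by
  classical
  refine ⟨Finset.univ.biUnion fun j => Finset.univ.biUnion fun i => Finset.univ.biUnion fun i' =>
    (b j i i').coeff.support, ?_⟩
  intro j x hx
  have h : ∃ i i', (b j i i').coeff x ≠ 0 := by
    by_contra h
    push Not at h
    apply hx
    ext i i'
    exact h i i'
  obtain ⟨i, i', h⟩ := h
  simp only [Finset.mem_biUnion, Finset.mem_univ, true_and]
  exact ⟨j, i, i', Finsupp.mem_support_iff.2 h⟩

theorem TM_sum {κ : Type*} (s : Finset κ) (a : κ → ℤ) (c : G) (φ : κ → (Fin K → G) → B) {N : ℕ}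
    (b : Fin K → Matrix (Fin N) (Fin N) (MonoidAlgebra B G)) :
    TM c (fun v => ∑ i ∈ s, a i • φ i v) b = ∑ i ∈ s, a i • TM c (φ i) b :=
  TB_sum s a c (fun i (v : Fin K → Fin 1 → G) => φ i fun j => v j 0) b

theorem TM_add (c : G) (φ ψ : (Fin K → G) → B) {N : ℕ}
    (b : Fin K → Matrix (Fin N) (Fin N) (MonoidAlgebra B G)) :
    TM c (fun v => φ v + ψ v) b = TM c φ b + TM c ψ b := by
  have h := TM_sum (Finset.univ : Finset (Fin 2)) (fun _ => 1) c (fun i => ![φ, ψ] i) b
  simpa [Fin.sum_univ_two] using h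

theorem TM_smul (c : G) (φ : (Fin K → G) → B) (r : B) {N : ℕ}
    (b : Fin K → Matrix (Fin N) (Fin N) (MonoidAlgebra B G)) :
    TM c (fun v => r * φ v) b = r * TM c φ b := by
  unfold TM TB
  rw [lam_apply, lam_apply, Finsupp.sum, Finsupp.sum, Finset.mul_sum]
  refine Finset.sum_congr rfl fun W _ => ?_
  have h : wf c (fun v : Fin K → Fin 1 → G => r * φ fun j => v j 0) (fun j : Fin K => (j : ℕ)) W =
      r * wf c (fun v : Fin K → Fin 1 → G => φ fun j => v j 0) (fun j : Fin K => (j : ℕ)) W := by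
    by_cases h : (∀ j : Fin K, cnt (j : ℕ) W = 1) ∧ ∃ u : G, u * prd W * u⁻¹ = c
    · rw [wf, dif_pos h, wf, dif_pos h]
    · rw [wf, dif_neg h, wf, dif_neg h, mul_zero]
  rw [h]
  ring

theorem TM_map {B' : Type w} [CommRing B'] (f : B →+* B') {c : G} {φ : (Fin K → G) → B}
    (hφ : CI c φ) {N : ℕ} (b : Fin K → Matrix (Fin N) (Fin N) (MonoidAlgebra B G)) :
    TM c (fun v => f (φ v)) (fun j => (b j).map (MonoidAlgebra.mapRingHom G f)) =
      f (TM c φ b) := by
  have _ := hφ
  unfold TM TB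
  rw [← lam_map]
  congr 2
  funext W
  exact wf_map f (fun v : Fin K → Fin 1 → G => φ fun j => v j 0) _ W

/-- the letters of a tuple -/
noncomputable def lts [NeZero K] {N : ℕ} (x : Fin K → GLm N (MonoidAlgebra B G)) (j : Fin K) :
    Matrix (Fin N) (Fin N) (MonoidAlgebra B G) := ((x j)⁻¹ * x (j + 1)).val

/-- The trace cochain. -/
noncomputable def TT [NeZero K] (c : G) (φ : (Fin K → G) → B) {N : ℕ}
    (x : Fin K → GLm N (MonoidAlgebra B G)) : B := TM c φ (lts x)

theorem TT_inv [NeZero K] (c : G) (φ : (Fin K → G) → B) {N : ℕ} (g : GLm N (MonoidAlgebra B G))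
    (x : Fin K → GLm N (MonoidAlgebra B G)) : TT c φ (fun j => g * x j) = TT c φ x := by
  unfold TT
  congr 1
  funext j
  unfold lts
  congr 1
  group

theorem TT_blk [NeZero K] (c : G) (φ : (Fin K → G) → B) {N M : ℕ}
    (x : Fin K → GLm N (MonoidAlgebra B G)) (y : Fin K → GLm M (MonoidAlgebra B G)) :
    TT c φ (fun j => blk N M (MonoidAlgebra B G) (x j, y j)) = TT c φ x + TT c φ y := by
  unfold TT TM
  rw [← TB_blk (Nat.pos_of_ne_zero (NeZero.ne K)) Nat.one_pos]
  congr 1
  funext j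
  unfold lts
  rw [← map_inv, ← map_mul]
  rfl

theorem TT_map [NeZero K] {B' : Type w} [CommRing B'] (f : B →+* B') {c : G}
    {φ : (Fin K → G) → B} (hφ : CI c φ) {N : ℕ} (x : Fin K → GLm N (MonoidAlgebra B G)) :
    TT c (fun v => f (φ v)) (fun j => mapGL (MonoidAlgebra.mapRingHom G f) N (x j)) =
      f (TT c φ x) := by
  unfold TT
  rw [← TM_map f hφ]
  congr 1
  funext j
  unfold lts
  rw [← map_inv, ← map_mul, mapGL_val]

end

end Pool.Agent.H16.KN

end

section

/-!
# Project FQ: the functionals of the K-groups of `K[G]`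

`LD K p m` is a commutative ring `B` with `p ^ (m + 1) = 0` and a surjection to `K` with kernel `p B`. A function `Φ`
of tuples (`IsPhi`) defines the cocycle `TK Φ` of `GL_N(K[G])` with values in `B`: lift the matrices
`h_j⁻¹ h_{j+1}` (`j` cyclic) to matrices over `B[G]` and take `TB`. These cocycles are compatible with block sums and
define `trT : KQ (K[G]) n →+ B`.

PROOFS. `TK_eq`: `TB_congr`; if two matrices over `B[G]` have the same image over `K[G]` their difference is
`p • d`. `TK_face`: `TB_merge_zero`, `TB_merge_succ` and `TK_eq` (the product of two lifts is a lift of the product).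
`TK_blk`: `TB_blk` with the block sums of the lifts. `isCoc_TK`: left invariance is clear; the sum of the faces is the
`TK` of `v ↦ ∑ i, (-1) ^ i • Φ (v without v i) = 0` by `TK_face`, `TB_sum`. `trT_cob`: `TK` of a coboundary is the
coboundary of a `TK`; `HG.ev_cob`.
-/

set_option autoImplicit false

open Matrix

universe u v w

namespace Pool.Agent.H71.FQ

/-- A ring in which `p ^ (m + 1) = 0` with a surjection to `K` with kernel `p B`. -/
structure LD (K : Type u) [CommRing K] (p m : ℕ) where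
  /-- the ring -/
  B : Type u
  inst : CommRing B
  /-- the projection -/
  π : B →+* K
  surj : Function.Surjective π
  hker : ∀ b : B, π b = 0 → ∃ b' : B, b = (p : B) * b'
  hB : (p : B) ^ (m + 1) = 0
  hp : p.Prime

instance {K : Type u} [CommRing K] {p m : ℕ} (L : LD K p m) : CommRing L.B := L.inst

section

variable {K : Type u} [CommRing K] {p m : ℕ} (L : LD K p m) {G : Type v} [Group G]

/-- the reduction of the matrices -/
noncomputable def LD.red {ι : Type*} (a : Matrix ι ι (MonoidAlgebra L.B G)) :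
    Matrix ι ι (MonoidAlgebra K G) := a.map (MonoidAlgebra.mapRingHom G L.π)

theorem LD.exists_lift {ι : Type*} (X : Matrix ι ι (MonoidAlgebra K G)) :
    ∃ a : Matrix ι ι (MonoidAlgebra L.B G), L.red a = X := by
  classical
  let s : K → L.B := fun k => if k = 0 then 0 else (L.surj k).choose
  have hs0 : s 0 = 0 := if_pos rfl
  have hs : ∀ k, L.π (s k) = k := by
    intro k
    by_cases hk : k = 0
    · subst hk
      rw [hs0, map_zero]
    · have h1 : s k = (L.surj k).choose := if_neg hk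
      rw [h1]
      exact (L.surj k).choose_spec
  refine ⟨fun i j => MonoidAlgebra.ofCoeff ((X i j).coeff.mapRange s hs0), ?_⟩
  refine Matrix.ext fun i j => MonoidAlgebra.coeff_injective (Finsupp.ext fun g => ?_)
  change (MonoidAlgebra.mapRingHom G L.π (MonoidAlgebra.ofCoeff ((X i j).coeff.mapRange s hs0))).coeff g = _
  rw [MonoidAlgebra.coeff_mapRingHom, MonoidAlgebra.coeff_ofCoeff, Finsupp.mapRange_apply, hs]

/-- a lift of a matrix -/
noncomputable def LD.lft {ι : Type*} (X : Matrix ι ι (MonoidAlgebra K G)) :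
    Matrix ι ι (MonoidAlgebra L.B G) := (L.exists_lift X).choose

theorem LD.red_lft {ι : Type*} (X : Matrix ι ι (MonoidAlgebra K G)) : L.red (L.lft X) = X :=
  (L.exists_lift X).choose_spec

theorem LD.eq_add_smul {ι : Type*} (a a' : Matrix ι ι (MonoidAlgebra L.B G))
    (h : L.red a' = L.red a) : ∃ d, a' = a + p • d := by
  classical
  let t : L.B → L.B := fun b => if hb : b ≠ 0 ∧ L.π b = 0 then (L.hker b hb.2).choose else 0
  have ht0 : t 0 = 0 := dif_neg (by simp)
  have ht : ∀ b, L.π b = 0 → (p : L.B) * t b = b := by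
    intro b hb
    by_cases h0 : b = 0
    · subst h0
      rw [ht0, mul_zero]
    · have h1 : t b = (L.hker b hb).choose := dif_pos ⟨h0, hb⟩
      rw [h1]
      exact (L.hker b hb).choose_spec.symm
  refine ⟨fun i j => MonoidAlgebra.ofCoeff ((a' i j - a i j).coeff.mapRange t ht0), ?_⟩
  refine Matrix.ext fun i j => MonoidAlgebra.coeff_injective (Finsupp.ext fun g => ?_)
  have h1 : L.π ((a' i j).coeff g - (a i j).coeff g) = 0 := by
    have h2 : (MonoidAlgebra.mapRingHom G L.π (a' i j)).coeff g =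
        (MonoidAlgebra.mapRingHom G L.π (a i j)).coeff g :=
      congrArg (fun X : Matrix ι ι (MonoidAlgebra K G) => (X i j).coeff g) h
    rw [MonoidAlgebra.coeff_mapRingHom, MonoidAlgebra.coeff_mapRingHom] at h2
    rw [map_sub, h2, sub_self]
  have h3 : (a' i j - a i j).coeff g = (a' i j).coeff g - (a i j).coeff g := by
    rw [MonoidAlgebra.coeff_sub]
    rfl
  change (a' i j).coeff g = (a i j + p • MonoidAlgebra.ofCoeff ((a' i j - a i j).coeff.mapRange t ht0)).coeff g
  rw [MonoidAlgebra.coeff_add, Finsupp.add_apply, MonoidAlgebra.coeff_smul, Finsupp.smul_apply,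
    MonoidAlgebra.coeff_ofCoeff, Finsupp.mapRange_apply, h3, nsmul_eq_mul, ht _ h1]
  ring

/-- The cochain of `GL(K[G])` defined by `Φ`. -/
noncomputable def TK {ι : Type*} [Fintype ι] [DecidableEq ι] {k : ℕ} (c : G)
    (Φ : (Fin (k + 1) → Fin (p ^ m) → G) → L.B)
    (h : Fin (k + 1) → (Matrix ι ι (MonoidAlgebra K G))ˣ) : L.B :=
  TB c Φ fun j => L.lft ((h j)⁻¹ * h (j + 1)).val

theorem TK_eq {ι : Type*} [Fintype ι] [DecidableEq ι] {k : ℕ} {c : G}
    {Φ : (Fin (k + 1) → Fin (p ^ m) → G) → L.B} (hΦ : IsInv c Φ)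
    (h : Fin (k + 1) → (Matrix ι ι (MonoidAlgebra K G))ˣ)
    (b : Fin (k + 1) → Matrix ι ι (MonoidAlgebra L.B G))
    (hb : ∀ j, L.red (b j) = ((h j)⁻¹ * h (j + 1)).val) : TK L c Φ h = TB c Φ b := by
  refine TB_congr L.hp L.hB hΦ b _ fun j => L.eq_add_smul _ _ ?_
  rw [L.red_lft, hb j]

theorem TK_congr_arg {ι : Type*} [Fintype ι] [DecidableEq ι] {k : ℕ} (c : G)
    (Φ : (Fin (k + 1) → Fin (p ^ m) → G) → L.B)
    (h h' : Fin (k + 1) → (Matrix ι ι (MonoidAlgebra K G))ˣ)
    (hh : ∀ j, (h j)⁻¹ * h (j + 1) = (h' j)⁻¹ * h' (j + 1)) : TK L c Φ h = TK L c Φ h' := by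
  unfold TK
  congr 1
  funext j
  rw [hh j]

theorem LD.red_mul {ι : Type*} [Fintype ι] (a b : Matrix ι ι (MonoidAlgebra L.B G)) :
    L.red (a * b) = L.red a * L.red b := by
  unfold LD.red
  exact Matrix.map_mul

theorem TK_inv {ι : Type*} [Fintype ι] [DecidableEq ι] {k : ℕ} (c : G)
    (Φ : (Fin (k + 1) → Fin (p ^ m) → G) → L.B)
    (g : (Matrix ι ι (MonoidAlgebra K G))ˣ) (h : Fin (k + 1) → (Matrix ι ι (MonoidAlgebra K G))ˣ) :
    TK L c Φ (fun j => g * h j) = TK L c Φ h := by
  refine TK_congr_arg L c Φ _ _ fun j => ?_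
  rw [_root_.mul_inv_rev, mul_assoc, inv_mul_cancel_left]

/-- the successor of `j` after the omission of `i + 1`, for `j < i` -/
theorem succAbove_add_one_of_lt {k : ℕ} {i j : Fin (k + 1)} (h : j < i) :
    i.succ.succAbove (j + 1) = j.castSucc + 1 := by
  have hj : j ≠ Fin.last k := fun hc => by
    rw [hc] at h
    exact absurd h (not_lt.mpr (Fin.le_last i))
  have h1 : ((j + 1 : Fin (k + 1)) : ℕ) = j + 1 := by rw [Fin.val_add_one, if_neg hj]
  have h2 : ((j.castSucc + 1 : Fin (k + 2)) : ℕ) = j + 1 := by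
    rw [Fin.val_add_one, if_neg (Fin.castSucc_lt_last j).ne, Fin.val_castSucc]
  have h3 : (j + 1).castSucc < i.succ := by
    rw [Fin.lt_def, Fin.val_castSucc, Fin.val_succ, h1]
    have := Fin.lt_def.mp h
    omega
  rw [Fin.succAbove_of_castSucc_lt _ _ h3]
  apply Fin.ext
  rw [Fin.val_castSucc, h1, h2]

/-- the successor of `j` after the omission of `i + 1`, for `i ≤ j` -/
theorem succAbove_add_one_of_le {k : ℕ} {i j : Fin (k + 1)} (h : i ≤ j) :
    i.succ.succAbove (j + 1) = j.succ + 1 := by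
  by_cases hj : j = Fin.last k
  · rw [hj, Fin.last_add_one, Fin.succ_last, Fin.last_add_one]
    rw [Fin.succAbove_of_castSucc_lt _ _ (by rw [Fin.castSucc_zero]; exact Fin.succ_pos i),
      Fin.castSucc_zero]
  · have h1 : ((j + 1 : Fin (k + 1)) : ℕ) = j + 1 := by rw [Fin.val_add_one, if_neg hj]
    have h3 : i.succ ≤ (j + 1).castSucc := by
      rw [Fin.le_def, Fin.val_castSucc, Fin.val_succ, h1]
      have := Fin.le_def.mp h
      omega
    rw [Fin.succAbove_of_le_castSucc _ _ h3]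
    apply Fin.ext
    rw [Fin.val_succ, h1, Fin.val_add_one, if_neg (fun hc => hj (Fin.succ_injective _ (by rw [hc, Fin.succ_last]))), Fin.val_succ]

/-- **The faces.** -/
theorem TK_face {ι : Type*} [Fintype ι] [DecidableEq ι] {k : ℕ} {c : G}
    {Φ : (Fin (k + 1) → Fin (p ^ m) → G) → L.B} (hΦ : IsInv c Φ)
    (h : Fin (k + 2) → (Matrix ι ι (MonoidAlgebra K G))ˣ) (i : Fin (k + 2)) :
    TK L c (fun v : Fin (k + 2) → Fin (p ^ m) → G => Φ fun j => v (i.succAbove j)) h =
      TK L c Φ fun j => h (i.succAbove j) := by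
  induction i using Fin.cases with
  | zero =>
    simp only [Fin.zero_succAbove]
    refine (TB_merge_zero (pow_pos L.hp.pos m) hΦ _).trans (TK_eq L hΦ _ _ fun j => ?_).symm
    by_cases hj : j = Fin.last k
    · rw [if_pos hj, L.red_mul, L.red_lft, L.red_lft, ← Units.val_mul, hj, Fin.last_add_one,
        Fin.last_add_one, Fin.succ_last, zero_add, mul_assoc, mul_inv_cancel_left]
      rfl
    · have h1 : (j + 1).succ = j.succ + 1 := by
        apply Fin.ext
        rw [Fin.val_succ, Fin.val_add_one, if_neg hj, Fin.val_add_one,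
          if_neg (fun hc => hj (Fin.succ_injective _ (by rw [hc, Fin.succ_last]))), Fin.val_succ]
      rw [if_neg hj, L.red_lft, h1]
  | succ i =>
    refine (TB_merge_succ (pow_pos L.hp.pos m) hΦ _ i).trans (TK_eq L hΦ _ _ fun j => ?_).symm
    rcases lt_trichotomy j i with hj | hj | hj
    · rw [if_pos hj, L.red_lft, succAbove_add_one_of_lt hj,
        Fin.succAbove_of_castSucc_lt _ _ (by rw [Fin.lt_def, Fin.val_castSucc, Fin.val_succ]; have := Fin.lt_def.mp hj; omega)]
    · subst hj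
      rw [if_neg (lt_irrefl _), if_pos rfl, L.red_mul, L.red_lft, L.red_lft, ← Units.val_mul,
        succAbove_add_one_of_le le_rfl, Fin.coeSucc_eq_succ, mul_assoc, mul_inv_cancel_left,
        Fin.succAbove_of_castSucc_lt _ _ Fin.castSucc_lt_succ]
    · rw [if_neg (not_lt.mpr hj.le), if_neg hj.ne', L.red_lft, succAbove_add_one_of_le hj.le,
        Fin.succAbove_of_le_castSucc _ _ (by rw [Fin.le_def, Fin.val_castSucc, Fin.val_succ]; have := Fin.lt_def.mp hj; omega)]

theorem TK_sum {κ : Type*} (s : Finset κ) (a : κ → ℤ) {ι : Type*} [Fintype ι] [DecidableEq ι]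
    {k : ℕ} (c : G) (Φ : κ → (Fin (k + 1) → Fin (p ^ m) → G) → L.B)
    (h : Fin (k + 1) → (Matrix ι ι (MonoidAlgebra K G))ˣ) :
    TK L c (fun v => ∑ i ∈ s, a i • Φ i v) h = ∑ i ∈ s, a i • TK L c (Φ i) h :=
  TB_sum s a c Φ _

theorem TK_blk {N M k : ℕ} {c : G} {Φ : (Fin (k + 1) → Fin (p ^ m) → G) → L.B} (hΦ : IsInv c Φ)
    (h : Fin (k + 1) → GLm N (MonoidAlgebra K G) × GLm M (MonoidAlgebra K G)) :
    TK L c Φ (fun j => blk N M (MonoidAlgebra K G) (h j)) =
      TK L c Φ (fun j => (h j).1) + TK L c Φ (fun j => (h j).2) := by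
  rw [TK_eq L hΦ (fun j => blk N M (MonoidAlgebra K G) (h j))
    (fun j => (fromBlocks (L.lft ((h j).1⁻¹ * (h (j + 1)).1).val) 0 0
      (L.lft ((h j).2⁻¹ * (h (j + 1)).2).val)).submatrix finSumFinEquiv.symm finSumFinEquiv.symm)]
  · exact TB_blk (Nat.succ_pos k) (pow_pos L.hp.pos m) c Φ _ _
  · intro j
    rw [← map_inv, ← map_mul, blk_val]
    have h1 : ∀ (A : Matrix (Fin N) (Fin N) (MonoidAlgebra L.B G)) (A' : Matrix (Fin M) (Fin M) (MonoidAlgebra L.B G)),
        L.red ((fromBlocks A 0 0 A').submatrix finSumFinEquiv.symm finSumFinEquiv.symm) =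
          blkM (L.red A) (L.red A') := by
      intro A A'
      unfold LD.red blkM
      rw [← Matrix.submatrix_map, Matrix.fromBlocks_map, Matrix.map_zero _ (map_zero _),
        Matrix.map_zero _ (map_zero _)]
    rw [h1, L.red_lft, L.red_lft]
    rfl

/-- The functions of tuples which define functionals on `KQ (K[G]) n`. -/
structure IsPhi {B : Type w} [CommRing B] (c : G) {n q : ℕ} (Φ : (Fin (n + 2) → Fin q → G) → B) : Prop
    extends IsInv c Φ where
  coc : ∀ v : Fin (n + 3) → Fin q → G,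
    ∑ i : Fin (n + 3), (-1 : ℤ) ^ (i : ℕ) • Φ (fun j => v (i.succAbove j)) = 0

variable {n : ℕ} {c : G}

theorem TK_zero {ι : Type*} [Fintype ι] [DecidableEq ι] {k : ℕ}
    (h : Fin (k + 1) → (Matrix ι ι (MonoidAlgebra K G))ˣ) :
    TK L c (fun _ : Fin (k + 1) → Fin (p ^ m) → G => 0) h = 0 := by
  have h1 := TK_sum L (∅ : Finset Unit) (fun _ => 0) c
    (fun _ (_ : Fin (k + 1) → Fin (p ^ m) → G) => (0 : L.B)) h
  simpa only [Finset.sum_empty] using h1

theorem isCoc_TK (N : ℕ) {Φ : (Fin (n + 2) → Fin (p ^ m) → G) → L.B} (hΦ : IsPhi c Φ) :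
    IsCoc (GLm N (MonoidAlgebra K G)) n fun h => TK L c Φ h where
  inv g x := TK_inv L c Φ g x
  coc x := by
    have h1 : ∀ i : Fin (n + 3), TK L c Φ (fun j => x (i.succAbove j)) =
        TK L c (fun v : Fin (n + 3) → Fin (p ^ m) → G => Φ fun j => v (i.succAbove j)) x :=
      fun i => (TK_face L hΦ.toIsInv x i).symm
    simp only [h1]
    rw [← TK_sum L Finset.univ (fun i : Fin (n + 3) => (-1 : ℤ) ^ (i : ℕ)) c
      (fun i (v : Fin (n + 3) → Fin (p ^ m) → G) => Φ fun j => v (i.succAbove j)) x]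
    have h2 : (fun v : Fin (n + 3) → Fin (p ^ m) → G =>
        ∑ i : Fin (n + 3), (-1 : ℤ) ^ (i : ℕ) • Φ fun j => v (i.succAbove j)) = fun _ => 0 :=
      funext hΦ.coc
    rw [h2]
    exact TK_zero L x

theorem HG.ev_add {Γ : Type*} [Group Γ] {M : Type*} [AddCommGroup M]
    {φ φ₁ φ₂ : (Fin (n + 2) → Γ) → M} (hφ : IsCoc Γ n φ) (h₁ : IsCoc Γ n φ₁) (h₂ : IsCoc Γ n φ₂)
    (h : ∀ x, φ x = φ₁ x + φ₂ x) (x : HG Γ n) : HG.ev hφ x = HG.ev h₁ x + HG.ev h₂ x := by
  obtain ⟨z, rfl⟩ := HG.mk_surjective x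
  rw [HG.ev_mk, HG.ev_mk, HG.ev_mk]
  obtain rfl : φ = fun x => φ₁ x + φ₂ x := funext h
  simp only [Finsupp.linearCombination_apply, Finsupp.sum, smul_add, Finset.sum_add_distrib]

/-- **The functional defined by `Φ`.** -/
noncomputable def trT {Φ : (Fin (n + 2) → Fin (p ^ m) → G) → L.B} (hΦ : IsPhi c Φ) :
    KQ (MonoidAlgebra K G) n →+ L.B :=
  KQ.lift (fun N => HG.ev (isCoc_TK L N hΦ)) (by
    intro N M w
    rw [HG.ev_map, HG.ev_map, HG.ev_map]
    exact HG.ev_add _ _ _ (fun h => TK_blk L hΦ.toIsInv h) w)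

theorem trT_cls {Φ : (Fin (n + 2) → Fin (p ^ m) → G) → L.B} (hΦ : IsPhi c Φ) (N : ℕ)
    (x : HG (GLm N (MonoidAlgebra K G)) n) :
    trT L hΦ (KQ.cls (MonoidAlgebra K G) n N x) = HG.ev (isCoc_TK L N hΦ) x :=
  KQ.lift_cls _ _ N x

theorem TK_smul {ι : Type*} [Fintype ι] [DecidableEq ι] {k : ℕ} (a : ℤ)
    (Φ : (Fin (k + 1) → Fin (p ^ m) → G) → L.B)
    (h : Fin (k + 1) → (Matrix ι ι (MonoidAlgebra K G))ˣ) :
    TK L c (fun v => a • Φ v) h = a • TK L c Φ h := by
  have h1 := TK_sum L (Finset.univ : Finset Unit) (fun _ => a) c (fun _ => Φ) h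
  simpa only [Finset.univ_unique, Finset.sum_singleton] using h1

theorem trT_smul {Φ : (Fin (n + 2) → Fin (p ^ m) → G) → L.B} (hΦ : IsPhi c Φ) (a : ℤ)
    (h : IsPhi c fun v => a • Φ v) (x : KQ (MonoidAlgebra K G) n) :
    trT L h x = a • trT L hΦ x := by
  suffices H : trT L h = a • trT L hΦ by rw [H]; rfl
  apply KQ.hom_ext
  intro N x
  change trT L h (KQ.cls (MonoidAlgebra K G) n N x) = a • trT L hΦ (KQ.cls (MonoidAlgebra K G) n N x)
  rw [trT_cls, trT_cls]
  have hc : IsCoc (GLm N (MonoidAlgebra K G)) n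
      fun y => (DistribSMul.toAddMonoidHom L.B a) (TK L c Φ y) :=
    ⟨fun g y => by rw [(isCoc_TK L N hΦ).inv], fun y => by
      have h2 := congrArg (DistribSMul.toAddMonoidHom L.B a) ((isCoc_TK L N hΦ).coc y)
      rw [map_zero, map_sum] at h2
      rw [← h2]
      exact Finset.sum_congr rfl fun i _ => (map_zsmul _ _ _).symm⟩
  rw [HG.ev_congr (isCoc_TK L N h) hc (fun y => TK_smul L a Φ y) x,
    HG.ev_comp (isCoc_TK L N hΦ) (DistribSMul.toAddMonoidHom L.B a) hc x]
  rfl

/-- Coboundaries vanish. -/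
theorem trT_cob {Φ : (Fin (n + 2) → Fin (p ^ m) → G) → L.B} (hΦ : IsPhi c Φ)
    {Ψ : (Fin (n + 1) → Fin (p ^ m) → G) → L.B} (hΨ : IsInv c Ψ)
    {Φ' : (Fin (n + 2) → Fin (p ^ m) → G) → L.B} (hΦ' : IsPhi c Φ')
    (h : ∀ v, Φ' v = Φ v + ∑ i : Fin (n + 2), (-1 : ℤ) ^ (i : ℕ) • Ψ (fun j => v (i.succAbove j)))
    (x : KQ (MonoidAlgebra K G) n) : trT L hΦ' x = trT L hΦ x := by
  suffices H : trT L hΦ' = trT L hΦ by rw [H]
  apply KQ.hom_ext
  intro N x
  rw [trT_cls, trT_cls]
  have key : ∀ y : Fin (n + 2) → GLm N (MonoidAlgebra K G), TK L c Φ' y = TK L c Φ y +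
      ∑ i : Fin (n + 2), (-1 : ℤ) ^ (i : ℕ) • TK L c Ψ (fun j => y (i.succAbove j)) := by
    intro y
    have h1 : Φ' = fun v => ∑ o : Option (Fin (n + 2)), (o.elim (1 : ℤ) fun i => (-1 : ℤ) ^ (i : ℕ)) •
        (o.elim Φ fun i (v : Fin (n + 2) → Fin (p ^ m) → G) => Ψ fun j => v (i.succAbove j)) v := by
      funext v
      rw [h v, Fintype.sum_option]
      simp only [Option.elim_none, Option.elim_some, one_smul]
    have h2 := TK_sum L Finset.univ (fun o : Option (Fin (n + 2)) =>
      o.elim (1 : ℤ) fun i => (-1 : ℤ) ^ (i : ℕ)) c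
      (fun o => o.elim Φ fun i (v : Fin (n + 2) → Fin (p ^ m) → G) => Ψ fun j => v (i.succAbove j)) y
    rw [← h1, Fintype.sum_option] at h2
    rw [h2]
    simp only [Option.elim_none, Option.elim_some, one_smul]
    congr 1
    refine Finset.sum_congr rfl fun i _ => ?_
    congr 1
    exact TK_face L hΨ y i
  have hc : IsCoc (GLm N (MonoidAlgebra K G)) n fun y =>
      ∑ i : Fin (n + 2), (-1 : ℤ) ^ (i : ℕ) • TK L c Ψ (fun j => y (i.succAbove j)) := by
    have e : (fun y : Fin (n + 2) → GLm N (MonoidAlgebra K G) =>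
        ∑ i : Fin (n + 2), (-1 : ℤ) ^ (i : ℕ) • TK L c Ψ (fun j => y (i.succAbove j))) =
          fun y => TK L c Φ' y - TK L c Φ y := funext fun y => by rw [key y, add_sub_cancel_left]
    rw [e]
    refine ⟨fun g y => ?_, fun y => ?_⟩
    · exact congrArg₂ (· - ·) ((isCoc_TK L N hΦ').inv g y) ((isCoc_TK L N hΦ).inv g y)
    · simp only [smul_sub, Finset.sum_sub_distrib]
      rw [(isCoc_TK L N hΦ').coc, (isCoc_TK L N hΦ).coc, sub_zero]
  rw [HG.ev_add (isCoc_TK L N hΦ') (isCoc_TK L N hΦ) hc key x,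
    HG.ev_cob (fun y => TK L c Ψ y) (fun g y => TK_inv L c Ψ g y) hc x, add_zero]

end

end Pool.Agent.H71.FQ

end
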