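import Pool.Agent.H71.TCZ.M42
import Pool.Agent.H71.TCZ.M49

/-! The parts of this file: H16.KN.Coch, H16.KN.Rot, H39.KL.Supp. -/

section

/-!
# Project KN: products of cochains, the cochains of the measures

PROOFS.  `dl_pL`, `dl_pE`: split off the last (two) indices of the sum (`Fin.sum_univ_castSucc`).
`meas_of_exp`: `ν` from `exists_nu_tuple`, `H` from `exists_homotopy` for `A = ν`, `B v = μ • (point mass of π (v 0))`,
`b v = π (v 0)` (`μ = orderOf c * p ^ r`, as in `HG.ev_vmap` of `FQ/HG.lean`);
`ψ v = linearCombination φ (tens ν (n + 1) v)`, `β v = linearCombination φ (H n (single v 1))`;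
apply `linearCombination φ` to `bd (H (n+1) (single v)) + μ H n (bd (single v)) = vmap ν - vmap B`: the first term
vanishes (`φ` is a cocycle), so `μ dl β = ψ - μ ^ (n + 2) φ(π ..)`.
-/

set_option autoImplicit false

open Matrix

universe u v w

namespace Pool.Agent.H16.KN

open Pool.Agent.H71.FQ

section

variable {X : Type u} {B : Type v} [CommRing B] {k : ℕ}

/-- the product of `ψ` with a function of the last two variables -/
def pL (ψ : (Fin (k + 1) → X) → B) (l : X → X → B) (v : Fin (k + 2) → X) : B :=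
  ψ (fun j => v j.castSucc) * l (v (Fin.last k).castSucc) (v (Fin.last (k + 1)))

private theorem sa_last {m : ℕ} (i : Fin (m + 1)) :
    (Fin.castSucc i).succAbove (Fin.last m) = Fin.last (m + 1) := by
  rw [Fin.succAbove_of_le_castSucc _ _ (Fin.castSucc_le_castSucc_iff.2 (Fin.le_last i)), Fin.succ_last]

end

section

variable {G : Type u} [Group G] {B : Type v} [CommRing B] {n : ℕ}

/-- equivariant maps to the centralizer -/
theorem exists_pi (c : G) : ∃ π : G → Subgroup.centralizer ({c} : Set G),
    ∀ (z : Subgroup.centralizer ({c} : Set G)) (g : G), π (z * g) = z * π g := by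
  classical
  have h0 : ∀ g : G, g * (Quotient.out (Quotient.mk
      (QuotientGroup.rightRel (Subgroup.centralizer ({c} : Set G))) g))⁻¹ ∈
      Subgroup.centralizer ({c} : Set G) := by
    intro g
    have h1 := Quotient.mk_out (s := QuotientGroup.rightRel (Subgroup.centralizer ({c} : Set G))) g
    exact QuotientGroup.rightRel_apply.1 h1
  refine ⟨fun g => ⟨_, h0 g⟩, fun z g => ?_⟩
  apply Subtype.ext
  show (z : G) * g * (Quotient.out (Quotient.mk
      (QuotientGroup.rightRel (Subgroup.centralizer ({c} : Set G))) ((z : G) * g)))⁻¹ =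
    (z : G) * (g * (Quotient.out (Quotient.mk
      (QuotientGroup.rightRel (Subgroup.centralizer ({c} : Set G))) g))⁻¹)
  have h2 : Quotient.mk (QuotientGroup.rightRel (Subgroup.centralizer ({c} : Set G))) ((z : G) * g) =
      Quotient.mk (QuotientGroup.rightRel (Subgroup.centralizer ({c} : Set G))) g := by
    refine Quotient.sound (QuotientGroup.rightRel_apply.2 ?_)
    rw [_root_.mul_inv_rev, mul_inv_cancel_left]
    exact Subgroup.inv_mem _ z.2
  rw [h2, mul_assoc]

private theorem lc_smul_bd {X : Type*} {Z : Type*} (φ : (Fin (n + 2) → Z) → B) (f : (Fin (n + 1) → Z) → B)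
    (hf : ∀ x : Fin (n + 2) → Z, ∑ i : Fin (n + 2), (-1 : ℤ) ^ (i : ℕ) • f (fun j => x (i.succAbove j)) = φ x)
    (ν : X → Z →₀ ℤ) (μ : ℤ) (hμ : ∀ x, mass (ν x) = μ) (c : Cx ℤ X (n + 2)) :
    Finsupp.linearCombination ℤ φ (vmap ν (n + 1) (bd ℤ X (n + 1) c)) = 0 := by
  have h1 : ∀ d : Cx ℤ Z (n + 1), Finsupp.linearCombination ℤ φ d =
      Finsupp.linearCombination ℤ f (bd ℤ Z n d) := by
    intro d
    rw [lc_bd]
    congr 1
    congr 1
    funext x
    exact (hf x).symm
  rw [h1, bd_vmap ν μ hμ, bd_bd, map_zero, smul_zero, map_zero]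

private theorem lc_single_bd {X : Type*} {m : ℕ} (ψ : (Fin (m + 1) → X) → B) (v : Fin (m + 2) → X) :
    Finsupp.linearCombination ℤ ψ (bd ℤ X m (Finsupp.single v 1)) = dl ψ v := by
  rw [lc_bd, Finsupp.linearCombination_single, one_smul]
  rfl

/-- The cochains of the measures: for all `m` the cochain of `φ` on the first coordinates is cohomologous, up to `μ`,
to a rotation invariant cocycle. -/
def Meas (p : ℕ) (c : G) (π : G → Subgroup.centralizer ({c} : Set G))
    (φ : (Fin (n + 2) → Subgroup.centralizer ({c} : Set G)) → B) : Prop :=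
  ∃ μ : ℕ, μ ≠ 0 ∧ ∀ m, ∃ (ψ : (Fin (n + 2) → Fin (p ^ m) → G) → B)
    (β : (Fin (n + 1) → Fin (p ^ m) → G) → B),
    (∀ g : G, g * c = c * g → ∀ v, ψ (fun j b => g * v j b) = ψ v) ∧
    (∀ v, ψ (fun j => sig (p ^ m) c (v j)) = ψ v) ∧ (∀ v, dl ψ v = 0) ∧
    (∀ g : G, g * c = c * g → ∀ v, β (fun j b => g * v j b) = β v) ∧
    ∀ (h0 : 0 < p ^ m) v, (μ : B) ^ (n + 2) * φ (fun j => π (v j ⟨0, h0⟩)) = ψ v - (μ : B) * dl β v

end

end Pool.Agent.H16.KN

end

section

/-!
# Project KN: divisibility of the functionals of rotation invariant functions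

PROOF of `TR_dvd`.  The letters of `rep q x` are those of `x` repeated: `lts (rep q x) t = lts x (t mod (k + 1))`.  By
`TM_eq` the value is the sum over `w : Fin q → (Fin (k + 1) → S)` of `F w`, the trace of the product of the coefficients
times `wv c (flat q Φ) g`, `g` the word of `w`.  `F` is invariant under `rotF 1`: cyclic invariance of the trace, and for
`u g u⁻¹ = c`, `A` the product of the first block: `(u A) (rotated g) (u A)⁻¹ = c` and the vertices of the rotated word
are `sig q c` of the vertices (`RIq`).  If `rotF (p ^ a) w = w` then the product of `g` is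
(the product of the first `p ^ a` blocks) ^ `p ^ (m - a)`, so `wv = 0` by `hroot`.  `cyc_sum_dvd`.
-/

set_option autoImplicit false

open Matrix

universe u v w

namespace Pool.Agent.H16.KN

open Pool.Agent.H71.FQ

section

variable {G : Type u} [Group G] {B : Type v} [CommRing B] {k : ℕ}

/-- rotation invariance -/
def RIq (c : G) (q : ℕ) (Φ : (Fin (k + 1) → Fin q → G) → B) : Prop :=
  ∀ v, Φ (fun j => sig q c (v j)) = Φ v

instance instNZp (p m : ℕ) [Fact p.Prime] : NeZero (p ^ m) :=
  ⟨pow_ne_zero m (Fact.out : p.Prime).ne_zero⟩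

/-! ### Words of blocks -/

/-- the word of the blocks `w 0, …, w (q - 1)` -/
private def wd {X : Type w} (q : ℕ) (w : Fin q → Fin (k + 1) → X) (t : Fin (q * (k + 1))) : X :=
  w (finProdFinEquiv.symm t).1 (finProdFinEquiv.symm t).2

private theorem ofFn_wd {X : Type w} (q : ℕ) (w : Fin q → Fin (k + 1) → X) :
    List.ofFn (wd q w) = (List.ofFn fun b => List.ofFn (w b)).flatten := by
  rw [List.ofFn_mul]
  congr 1
  congr 1
  funext i
  congr 1
  funext j
  have h : (finProdFinEquiv.symm (⟨(i : ℕ) * (k + 1) + j, by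
      have h1 : ((i : ℕ) + 1) * (k + 1) ≤ q * (k + 1) := Nat.mul_le_mul_right _ i.2
      have h2 := j.2
      have h3 : ((i : ℕ) + 1) * (k + 1) = (i : ℕ) * (k + 1) + (k + 1) := by ring
      omega⟩ : Fin (q * (k + 1)))) = (i, j) := by
    rw [Equiv.symm_apply_eq]
    apply Fin.ext
    rw [finProdFinEquiv_apply_val]
    show (i : ℕ) * (k + 1) + j = (j : ℕ) + (k + 1) * i
    ring
  rw [wd, h]

private theorem wd_rot {X : Type w} (n : ℕ) (w : Fin (n + 1) → Fin (k + 1) → X) :
    ∃ L : List X, List.ofFn (wd (n + 1) w) = List.ofFn (w 0) ++ L ∧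
      List.ofFn (wd (n + 1) (rotF 1 w)) = L ++ List.ofFn (w 0) := by
  refine ⟨(List.ofFn fun i : Fin n => List.ofFn (w i.succ)).flatten, ?_, ?_⟩
  · rw [ofFn_wd, List.ofFn_succ, List.flatten_cons]
  · rw [ofFn_wd, List.ofFn_succ', List.concat_eq_append, List.flatten_append]
    have h1 : ∀ i : Fin n, rotF 1 w i.castSucc = w i.succ := by
      intro i
      show w (finRotate (n + 1) i.castSucc) = w i.succ
      congr 1
      rw [finRotate_apply]
      exact Fin.coeSucc_eq_succ
    have h2 : rotF 1 w (Fin.last n) = w 0 := by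
      show w (finRotate (n + 1) (Fin.last n)) = w 0
      rw [finRotate_last]
    simp only [h1, h2, List.flatten_cons, List.flatten_nil, List.append_nil]

/-! ### Rotation of the words -/

omit [CommRing B] in
private theorem CI_flat {c : G} {q : ℕ} {Φ : (Fin (k + 1) → Fin q → G) → B} (hΦ : CIq c q Φ) :
    CI c (flat q Φ) := fun g hg _ => hΦ g hg _

private theorem wv_rot {q : ℕ} (hq : q ≠ 0) {c : G} {Φ : (Fin (k + 1) → Fin q → G) → B}
    (hΦ : CIq c q Φ) (hr : RIq c q Φ) (w : Fin q → Fin (k + 1) → G) :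
    wv c (flat q Φ) (wd q (rotF 1 w)) = wv c (flat q Φ) (wd q w) := by
  obtain ⟨n, rfl⟩ := Nat.exists_eq_succ_of_ne_zero hq
  obtain ⟨L, h1, h2⟩ := wd_rot n w
  have hA : (List.ofFn (w 0)).length = k + 1 := List.length_ofFn
  have hL : L.length = (k + 1) * n := by
    have h3 := congrArg List.length h1
    rw [List.length_ofFn, List.length_append, hA] at h3
    have h4 : (n + 1) * (k + 1) = (k + 1) + (k + 1) * n := by ring
    omega
  generalize List.ofFn (w 0) = A at *
  by_cases h : ∃ u, u * (List.ofFn (wd (n + 1) w)).prod * u⁻¹ = c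
  · obtain ⟨u, hu⟩ := h
    have hu' : (u * A.prod) * (List.ofFn (wd (n + 1) (rotF 1 w))).prod * (u * A.prod)⁻¹ = c := by
      rw [h2, List.prod_append, ← hu, h1, List.prod_append]
      group
    rw [wv_eq (CI_flat hΦ) _ _ hu', wv_eq (CI_flat hΦ) _ _ hu]
    have hcu : u * (A.prod * L.prod) = c * u := by
      rw [← hu, h1, List.prod_append]
      group
    show Φ _ = Φ _
    rw [← hr fun (j : Fin (k + 1)) (b : Fin (n + 1)) => vtx u (wd (n + 1) w) (finProdFinEquiv (b, j))]
    congr 1
    funext j b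
    show vtx (u * A.prod) (wd (n + 1) (rotF 1 w)) (finProdFinEquiv (b, j)) =
      sig (n + 1) c (fun b => vtx u (wd (n + 1) w) (finProdFinEquiv (b, j))) b
    have hj : (j : ℕ) < k + 1 := j.2
    unfold vtx sig
    rw [h1, h2]
    simp only [finProdFinEquiv_apply_val]
    by_cases hb : (b : ℕ) + 1 < n + 1
    · have h5 : (k + 1) * ((b : ℕ) + 1) ≤ (k + 1) * n := Nat.mul_le_mul_left _ (by omega)
      have h6 : (k + 1) * ((b : ℕ) + 1) = (k + 1) * b + (k + 1) := by ring
      have h7 : (A ++ L).take ((j : ℕ) + (k + 1) * ((b : ℕ) + 1)) =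
          A ++ L.take ((j : ℕ) + (k + 1) * b) := by
        rw [List.take_append, List.take_of_length_le (by rw [hA]; omega), hA]
        congr 2
        omega
      rw [dif_pos hb, List.take_append_of_le_length (by rw [hL]; omega), h7, List.prod_append,
        mul_assoc]
    · have h5 : (b : ℕ) = n := by have := b.2; omega
      have h7 : (L ++ A).take ((j : ℕ) + (k + 1) * n) = L ++ A.take (j : ℕ) := by
        rw [List.take_append, List.take_of_length_le (by rw [hL]; omega), hL]
        congr 2
        omega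
      have h8 : (A ++ L).take ((j : ℕ) + (k + 1) * 0) = A.take (j : ℕ) := by
        rw [mul_zero, add_zero, List.take_append_of_le_length (by rw [hA]; omega)]
      rw [dif_neg hb, h5, h7]
      show _ = c * (u * ((A ++ L).take ((j : ℕ) + (k + 1) * 0)).prod)
      rw [h8, List.prod_append, ← mul_assoc, mul_assoc u, hcu, mul_assoc]
  · rw [wv_zero c _ (wd (n + 1) w) fun u hu => h ⟨u, hu⟩, wv_zero c]
    intro u hu
    apply h
    refine ⟨u * A.prod⁻¹, ?_⟩
    rw [← hu, h1, h2, List.prod_append, List.prod_append]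
    group

private theorem trace_rot {q : ℕ} (hq : q ≠ 0) {N : ℕ}
    (w : Fin q → Fin (k + 1) → Matrix (Fin N) (Fin N) B) :
    (List.ofFn (wd q (rotF 1 w))).prod.trace = (List.ofFn (wd q w)).prod.trace := by
  obtain ⟨n, rfl⟩ := Nat.exists_eq_succ_of_ne_zero hq
  obtain ⟨L, h1, h2⟩ := wd_rot n w
  rw [h1, h2, List.prod_append, List.prod_append, Matrix.trace_mul_comm]

/-! ### Periodic words -/

private theorem prod_periodic {M : Type w} [Monoid M] (f : ℕ → M) (r s : ℕ)
    (hf : ∀ i, f (i + r) = f i) :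
    ((List.range (s * r)).map f).prod = ((List.range r).map f).prod ^ s := by
  induction s with
  | zero => simp
  | succ s ih =>
    have h : (s + 1) * r = r + s * r := by ring
    rw [h, List.range_add, List.map_append, List.prod_append, pow_succ', List.map_map]
    congr 1
    rw [← ih]
    congr 2
    funext i
    show f (r + i) = f i
    rw [add_comm, hf]

private theorem rot_iter (n k : ℕ) (i : Fin (n + 1)) :
    (((finRotate (n + 1))^[k] i : Fin (n + 1)) : ℕ) = ((i : ℕ) + k) % (n + 1) := by
  induction k with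
  | zero => simp [Nat.mod_eq_of_lt i.2]
  | succ k ih =>
    rw [Function.iterate_succ_apply', finRotate_apply, Fin.val_add, ih, Fin.val_one', ← Nat.add_mod,
      add_assoc]

private theorem periodic {q r s : ℕ} (hq : q ≠ 0) (hrs : q = s * r) (S : Finset G)
    (w : Fin q → Fin (k + 1) → G) (hw : rotF r w = w) (hS : ∀ b j, w b j ∈ S) :
    ∃ l : List G, (∀ g ∈ l, g ∈ S) ∧ l.length = r * (k + 1) ∧
      (List.ofFn (wd q w)).prod = l.prod ^ s := by
  obtain ⟨n, rfl⟩ := Nat.exists_eq_succ_of_ne_zero hq
  have hm : ∀ i : ℕ, i % (n + 1) < n + 1 := fun i => Nat.mod_lt _ n.succ_pos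
  obtain ⟨v, hv⟩ : ∃ v : ℕ → Fin (k + 1) → G, v = fun i => w ⟨i % (n + 1), hm i⟩ := ⟨_, rfl⟩
  have hvr : ∀ i, v (i + r) = v i := by
    intro i
    rw [hv]
    have h := congrFun hw ⟨i % (n + 1), hm i⟩
    show w ⟨(i + r) % (n + 1), hm _⟩ = w ⟨i % (n + 1), hm i⟩
    rw [← h]
    show _ = w ((finRotate (n + 1))^[r] ⟨i % (n + 1), hm i⟩)
    congr 1
    apply Fin.ext
    rw [rot_iter]
    show (i + r) % (n + 1) = (i % (n + 1) + r) % (n + 1)
    rw [Nat.mod_add_mod]
  refine ⟨((List.range r).map fun i => List.ofFn (v i)).flatten, ?_, ?_, ?_⟩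
  · intro g hg
    obtain ⟨l, hl, hgl⟩ := List.mem_flatten.1 hg
    obtain ⟨i, -, rfl⟩ := List.mem_map.1 hl
    obtain ⟨j, rfl⟩ := List.mem_ofFn.1 hgl
    rw [hv]
    exact hS _ _
  · rw [List.length_flatten, List.map_map]
    have h : (List.length ∘ fun i => List.ofFn (v i)) = fun _ : ℕ => k + 1 := by
      funext i
      exact List.length_ofFn
    rw [h, List.map_const', List.sum_replicate, List.length_range, smul_eq_mul]
  · rw [ofFn_wd, List.prod_flatten, List.prod_flatten, List.map_map]
    have h := prod_periodic (fun i => (List.ofFn (v i)).prod) r s fun i => by rw [hvr]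
    have h2 : (List.map List.prod (List.ofFn fun b => List.ofFn (w b))) =
        (List.range (s * r)).map fun i => (List.ofFn (v i)).prod := by
      rw [← hrs, List.map_ofFn]
      refine List.ext_getElem (by simp) fun i h3 h4 => ?_
      rw [List.getElem_ofFn, List.getElem_map, List.getElem_range]
      have h5 : i < n + 1 := by simpa using h3
      rw [hv]
      show (List.ofFn (w ⟨i, _⟩)).prod = (List.ofFn (w ⟨i % (n + 1), _⟩)).prod
      simp only [Nat.mod_eq_of_lt h5]
    rw [h2, h]
    rfl

/-! ### The letters of the repeated tuple -/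

private theorem lts_rep (q : ℕ) [NeZero q] {N : ℕ} (x : Fin (k + 1) → GLm N (MonoidAlgebra B G))
    (t : Fin (q * (k + 1))) : lts (rep q x) t = lts x (finProdFinEquiv.symm t).2 := by
  have h : (finProdFinEquiv.symm (t + 1)).2 = (finProdFinEquiv.symm t).2 + 1 := by
    apply Fin.ext
    show ((t + 1 : Fin (q * (k + 1))) : ℕ) % (k + 1) = _
    rw [Fin.val_add, Fin.val_add, Fin.val_one', Fin.val_one', Nat.add_mod_mod, Nat.add_mod_mod,
      Nat.mod_mul_left_mod]
    show ((t : ℕ) + 1) % (k + 1) = ((t : ℕ) % (k + 1) + 1) % (k + 1)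
    rw [Nat.mod_add_mod]
  unfold lts rep
  rw [h]

theorem TR_dvd {p : ℕ} [Fact p.Prime] (m a : ℕ) (ha : a ≤ m) {c : G}
    {Φ : (Fin (k + 1) → Fin (p ^ m) → G) → B} (hΦ : CIq c (p ^ m) Φ) (hr : RIq c (p ^ m) Φ) {N : ℕ}
    (x : Fin (k + 1) → GLm N (MonoidAlgebra B G)) (S : Finset G)
    (hS : ∀ j, ∀ g, cof (lts x j) g ≠ 0 → g ∈ S)
    (hroot : ∀ l : List G, (∀ g ∈ l, g ∈ S) → l.length = p ^ a * (k + 1) →
      ∀ u : G, u * l.prod ^ p ^ (m - a) * u⁻¹ ≠ c) :
    (p : B) ^ (a + 1) ∣ TR (p ^ m) c Φ (QC.t N x) := by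
  have hq : p ^ m ≠ 0 := pow_ne_zero m (Fact.out : p.Prime).ne_zero
  rw [TR_t]
  unfold TT
  rw [TM_eq (CI_flat hΦ) _ S fun t g hg => hS _ g (by rw [← lts_rep (p ^ m) x t]; exact hg)]
  have h1 : (∑ g : Fin (p ^ m * (k + 1)) → S,
      ((List.ofFn fun j => cof (lts (rep (p ^ m) x) j) (g j : G)).prod).trace *
        wv c (flat (p ^ m) Φ) (fun j => (g j : G))) =
      ∑ w : Fin (p ^ m) → Fin (k + 1) → S,
        (List.ofFn (wd (p ^ m) fun b j => cof (lts x j) (w b j : G))).prod.trace *
          wv c (flat (p ^ m) Φ) (wd (p ^ m) fun b j => (w b j : G)) := by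
    rw [← ((Equiv.arrowCongr finProdFinEquiv (Equiv.refl S)).symm.trans
      (Equiv.curry (Fin (p ^ m)) (Fin (k + 1)) S)).symm.sum_comp]
    refine Finset.sum_congr rfl fun w _ => ?_
    refine congrArg₂ (fun (L : List (Matrix (Fin N) (Fin N) B)) (t : B) => L.prod.trace * t) ?_ rfl
    refine congrArg List.ofFn (funext fun t => ?_)
    rw [lts_rep]
    rfl
  rw [h1]
  refine cyc_sum_dvd (Fact.out : p.Prime) m a ha _ (fun w => ?_) fun w hw => ?_
  · have h2 := wv_rot hq hΦ hr fun b j => (w b j : G)
    have h3 := trace_rot hq fun b j => cof (lts x j) (w b j : G)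
    exact congrArg₂ (fun s t : B => s * t) h3 h2
  · obtain ⟨l, hl, hlen, hp⟩ := periodic (r := p ^ a) (s := p ^ (m - a)) hq
      (by rw [← pow_add, Nat.sub_add_cancel ha]) S (fun b j => (w b j : G))
      (by
        funext b j
        exact congrArg Subtype.val (congrFun (congrFun hw b) j)) (fun b j => (w b j).2)
    rw [wv_zero, mul_zero]
    intro u
    rw [hp]
    exact hroot l hl hlen u

end

end Pool.Agent.H16.KN

end

section

/-!
# Project KL: the trace cochains on tuples of a special form

`TT_congr`: the value depends only on the values of the cochain on the vertices of the words with non-zero coefficients.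
`TT_dup`: tuples with repeated vertices.

PROOFS.  `TT_congr`: `TM_eq` for both (with a finite set `S` containing all supports, `exists_supp`): in each term either a
coefficient matrix is zero, or `wv_eq` / `wv_zero` and the hypothesis.
`TT_dup`: let `δ` be a strictly monotone section of `s` (the least element of each fibre); by `TT_congr`
`φ v = φ (v ∘ δ ∘ s)` on the vertices of the words with non-zero coefficients (the letters inside a fibre are `1`, whose
only non-zero coefficient is at `1`); then `TT_comp` for `δ`.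
-/

set_option autoImplicit false

open Matrix

universe u v w

namespace Pool.Agent.H39.KL

open Pool.Agent.H71.FQ Pool.Agent.H16.KN

section

variable {G : Type u} [Group G] {B : Type v} [CommRing B] {K : ℕ} [NeZero K]

/-- **The value depends only on the words with non-zero coefficients.** -/
theorem TT_congr {c : G} {φ ψ : (Fin K → G) → B} (hφ : CI c φ) (hψ : CI c ψ) {N : ℕ}
    (x : Fin K → GLm N (MonoidAlgebra B G))
    (h : ∀ (g : Fin K → G) (u : G), (∀ j, cof (lts x j) (g j) ≠ 0) →
      u * (List.ofFn g).prod * u⁻¹ = c → φ (vtx u g) = ψ (vtx u g)) :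
    TT c φ x = TT c ψ x := by
  classical
  obtain ⟨S, hS⟩ := exists_supp (lts x)
  unfold TT
  rw [TM_eq hφ (lts x) S hS, TM_eq hψ (lts x) S hS]
  refine Finset.sum_congr rfl fun g _ => ?_
  by_cases hg : ∀ j, cof (lts x j) (g j : G) ≠ 0
  · congr 1
    by_cases hu : ∃ u : G, u * (List.ofFn fun j => (g j : G)).prod * u⁻¹ = c
    · obtain ⟨u, hu⟩ := hu
      rw [wv_eq hφ _ u hu, wv_eq hψ _ u hu]
      exact h _ u hg hu
    · rw [wv_zero c φ _ fun u h' => hu ⟨u, h'⟩, wv_zero c ψ _ fun u h' => hu ⟨u, h'⟩]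
  · push Not at hg
    obtain ⟨j, hj⟩ := hg
    have h0 : (List.ofFn fun j => cof (lts x j) (g j : G)).prod = 0 := by
      refine List.prod_eq_zero ?_
      rw [List.mem_ofFn]
      exact ⟨j, hj⟩
    rw [h0, Matrix.trace_zero, zero_mul, zero_mul]

omit [Group G] [NeZero K] in
private theorem cof_one [Group G] {N : ℕ} {g : G}
    (h : cof (1 : Matrix (Fin N) (Fin N) (MonoidAlgebra B G)) g ≠ 0) : g = 1 := by
  classical
  by_contra hg
  apply h
  ext i j
  show ((1 : Matrix (Fin N) (Fin N) (MonoidAlgebra B G)) i j).coeff g = 0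
  by_cases hij : i = j
  · subst hij
    rw [Matrix.one_apply_eq, MonoidAlgebra.one_def, MonoidAlgebra.coeff_single,
      Finsupp.single_eq_of_ne hg]
  · rw [Matrix.one_apply_ne hij]
    rfl

private theorem take_prod {G : Type u} [Group G] {n : ℕ} (g : Fin n → G) (a b : ℕ) (hab : a ≤ b)
    (hb : b ≤ n) (h : ∀ t : Fin n, a ≤ (t : ℕ) → (t : ℕ) < b → g t = 1) :
    ((List.ofFn g).take a).prod = ((List.ofFn g).take b).prod := by
  induction b with
  | zero =>
    obtain rfl : a = 0 := Nat.le_zero.1 hab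
    rfl
  | succ b ih =>
    rcases Nat.eq_or_lt_of_le hab with h1 | h1
    · rw [h1]
    · rw [ih (Nat.lt_succ_iff.1 h1) (by omega) fun t h2 h3 => h t h2 (by omega)]
      have hbl : b < (List.ofFn g).length := by rw [List.length_ofFn]; omega
      rw [List.take_succ_eq_append_getElem hbl, List.prod_append, List.prod_singleton,
        List.getElem_ofFn, h ⟨b, by omega⟩ (Nat.lt_succ_iff.1 h1) (Nat.lt_succ_self b), mul_one]

private theorem val_add_one' {n : ℕ} [NeZero n] (t : Fin n) (h : (t : ℕ) + 1 < n) :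
    ((t + 1 : Fin n) : ℕ) = (t : ℕ) + 1 := by
  rw [Fin.val_add, Fin.val_one', Nat.mod_eq_of_lt (by omega : 1 < n), Nat.mod_eq_of_lt h]

/-- **Repeated vertices.** -/
theorem TT_dup {K' : ℕ} [NeZero K'] {c : G} {φ : (Fin K' → G) → B} (hφ : CI c φ)
    (s : Fin K' → Fin K) (hs : Monotone s) (hs' : Function.Surjective s) {N : ℕ}
    (x : Fin K → GLm N (MonoidAlgebra B G)) :
    TT c φ (fun t => x (s t)) = TT c (fun v : Fin K → G => φ fun t => v (s t)) x := by
  have hδ : ∀ i, s (Function.surjInv hs' i) = i := Function.surjInv_eq hs'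
  have hmono : StrictMono (Function.surjInv hs') := by
    intro i i' h
    by_contra h1
    have h2 := hs (not_lt.1 h1)
    rw [hδ, hδ] at h2
    exact absurd h (not_lt.2 h2)
  have hφ' : CI c (fun v : Fin K → G => φ fun t => v (s t)) := fun g hg v =>
    hφ g hg fun t => v (s t)
  have hψ : CI c (fun v : Fin K' → G => φ fun t => v (Function.surjInv hs' (s t))) :=
    fun g hg v => hφ g hg fun t => v (Function.surjInv hs' (s t))
  have key : ∀ (g : Fin K' → G) (u : G),
      (∀ j, cof (lts (fun t => x (s t)) j) (g j) ≠ 0) →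
      ∀ a b : Fin K', a ≤ b → s a = s b → vtx u g a = vtx u g b := by
    intro g u hg a b hab hsab
    unfold vtx
    congr 1
    refine take_prod g a b hab b.2.le ?_
    intro t hat htb
    have h1 : (t : ℕ) + 1 < K' := by omega
    have h2 : s t = s a := by
      refine le_antisymm ?_ (hs (Fin.le_def.2 hat))
      rw [hsab]
      exact hs (Fin.le_def.2 htb.le)
    have h3 : s (t + 1) = s a := by
      refine le_antisymm ?_ (hs (Fin.le_def.2 ?_))
      · rw [hsab]
        refine hs (Fin.le_def.2 ?_)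
        rw [val_add_one' t h1]
        exact htb
      · rw [val_add_one' t h1]
        omega
    have h4 : lts (fun t => x (s t)) t = (1 : Matrix (Fin N) (Fin N) (MonoidAlgebra B G)) := by
      unfold lts
      beta_reduce
      rw [h2, h3, inv_mul_cancel]
      rfl
    have h5 := hg t
    rw [h4] at h5
    exact cof_one h5
  have h1 : TT c φ (fun t => x (s t)) =
      TT c (fun v : Fin K' → G => φ fun t => v (Function.surjInv hs' (s t)))
        (fun t => x (s t)) := by
    refine TT_congr hφ hψ _ ?_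
    intro g u hg _
    congr 1
    funext t
    have h2 : s (Function.surjInv hs' (s t)) = s t := hδ (s t)
    rcases le_total t (Function.surjInv hs' (s t)) with h3 | h3
    · exact key g u hg t _ h3 h2.symm
    · exact (key g u hg _ t h3 h2).symm
  rw [h1]
  have h2 := TT_comp hφ' (Function.surjInv hs') hmono (fun t => x (s t))
  refine h2.trans ?_
  congr 1
  funext j
  rw [hδ]

end

end Pool.Agent.H39.KL

end
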