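import Pool.Agent.H71.TCZ.M03

/-! The parts of this file: H71.FJ.Nil, H71.FJ.Rank. -/

section

/-!
# Nilpotent kernels: lifting of idempotent matrices
-/

set_option autoImplicit false

open Matrix

universe u v w

namespace Pool.Agent.H71.FJ

variable {R : Type u} [Ring R] {S : Type v} [Ring S]

/-- A ring homomorphism with nilpotent kernel, witnessed by a filtration. -/
def NilKer (φ : R →+* S) : Prop :=
  ∃ (N : ℕ) (J : ℕ → AddSubgroup R), (∀ x, x ∈ J 0) ∧ (∀ x ∈ J N, x = 0) ∧
    ∀ j x y, φ x = 0 → y ∈ J j → x * y ∈ J (j + 1)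

theorem NilKer.isNilpotent {φ : R →+* S} (h : NilKer φ) {x : R} (hx : φ x = 0) :
    IsNilpotent x := by
  obtain ⟨N, J, h0, hN, hJ⟩ := h
  have key : ∀ j : ℕ, x ^ j ∈ J j := by
    intro j
    induction j with
    | zero => exact h0 _
    | succ j ih =>
      rw [pow_succ']
      exact hJ j x _ hx ih
  exact ⟨N, hN _ (key N)⟩

theorem NilKer.mono {φ : R →+* S} {T : Type w} [Ring T] {ψ : R →+* T} (h : NilKer φ)
    (hle : ∀ x, ψ x = 0 → φ x = 0) : NilKer ψ := by
  obtain ⟨N, J, h0, hN, hJ⟩ := h
  exact ⟨N, J, h0, hN, fun j x y hx hy => hJ j x y (hle x hx) hy⟩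

theorem NilKer.matrix {φ : R →+* S} (h : NilKer φ) (ι : Type*) [Fintype ι] [DecidableEq ι] :
    NilKer (φ.mapMatrix : Matrix ι ι R →+* Matrix ι ι S) := by
  obtain ⟨N, J, h0, hN, hJ⟩ := h
  refine ⟨N, fun j =>
    { carrier := {X | ∀ i k, X i k ∈ J j}
      add_mem' := fun {a b} ha hb i k => (J j).add_mem (ha i k) (hb i k)
      zero_mem' := fun i k => (J j).zero_mem
      neg_mem' := fun {a} ha i k => (J j).neg_mem (ha i k) }, ?_, ?_, ?_⟩
  · intro x i k
    exact h0 _
  · intro x hx
    ext i k
    exact hN _ (hx i k)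
  · intro j x y hx hy i k
    rw [Matrix.mul_apply]
    refine AddSubgroup.sum_mem _ (fun l _ => hJ j _ _ ?_ (hy l k))
    have := congrFun (congrFun hx i) l
    simpa using this

theorem NilKer.monoidAlgebra {φ : R →+* S} (h : NilKer φ) (G : Type*) [Monoid G] :
    NilKer (MonoidAlgebra.mapRingHom G φ) := by
  classical
  obtain ⟨N, J, h0, hN, hJ⟩ := h
  refine ⟨N, fun j =>
    { carrier := {X | ∀ g, X.coeff g ∈ J j}
      add_mem' := fun {a b} ha hb g => by
        rw [MonoidAlgebra.coeff_add]
        exact (J j).add_mem (ha g) (hb g)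
      zero_mem' := fun g => by
        rw [MonoidAlgebra.coeff_zero]
        exact (J j).zero_mem
      neg_mem' := fun {a} ha g => by
        rw [MonoidAlgebra.coeff_neg]
        exact (J j).neg_mem (ha g) }, ?_, ?_, ?_⟩
  · intro x g
    exact h0 _
  · intro x hx
    ext g
    exact hN _ (hx g)
  · intro j x y hx hy g
    rw [MonoidAlgebra.coeff_mul]
    refine AddSubgroup.sum_mem _ (fun a _ => AddSubgroup.sum_mem _ (fun b _ => ?_))
    simp only
    split_ifs
    · refine hJ j _ _ ?_ (hy b)
      have := congrArg (fun z => MonoidAlgebra.coeff z a) hx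
      simpa using this
    · exact (J (j + 1)).zero_mem

/-- Idempotents lift. -/
theorem exists_lift_idem {φ : R →+* S} (hs : Function.Surjective φ) (h : NilKer φ) {ι : Type*}
    [Fintype ι] [DecidableEq ι] (e : Matrix ι ι S) (he : e * e = e) :
    ∃ f : Matrix ι ι R, f * f = f ∧ f.map φ = e := by
  have hsurj : Function.Surjective (φ.mapMatrix : Matrix ι ι R →+* Matrix ι ι S) := by
    intro X
    choose g hg using hs
    exact ⟨X.map g, by ext i j; simp [hg]⟩
  obtain ⟨f, hf1, hf2⟩ := exists_isIdempotentElem_eq_of_ker_isNilpotent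
    (φ.mapMatrix : Matrix ι ι R →+* Matrix ι ι S)
    (fun x hx => (h.matrix ι).isNilpotent (RingHom.mem_ker.1 hx)) e
    (RingHom.mem_range.2 (hsurj e)) he
  exact ⟨f, hf1, hf2⟩

theorem idem_nilpotent {A : Type*} [Ring A] {x : A} (h : x * x = x) (hn : IsNilpotent x) :
    x = 0 := by
  obtain ⟨n, hn⟩ := hn
  have key : ∀ k : ℕ, x ^ (k + 1) = x := by
    intro k
    induction k with
    | zero => simp
    | succ k ih => rw [pow_succ, ih, h]
  rcases n with _ | n
  · rw [pow_zero] at hn
    calc x = x * 1 := (mul_one x).symm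
      _ = 0 := by rw [hn, mul_zero]
  · rw [key] at hn
    exact hn

/-- Lifts of equivalent idempotents are equivalent. -/
theorem matEquiv_of_map {φ : R →+* S} (hs : Function.Surjective φ) (h : NilKer φ) {ι κ : Type*}
    [Fintype ι] [DecidableEq ι] [Fintype κ] [DecidableEq κ] {e : Matrix ι ι R} {f : Matrix κ κ R}
    (he : e * e = e) (hf : f * f = f) (hef : MatEquiv (e.map φ) (f.map φ)) : MatEquiv e f := by
  obtain ⟨xb, yb, h1, h2⟩ := hef
  choose g hg using hs
  obtain ⟨x, hx⟩ : ∃ x : Matrix ι κ R, x = e * (xb.map g) * f := ⟨_, rfl⟩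
  obtain ⟨y, hy⟩ : ∃ y : Matrix κ ι R, y = f * (yb.map g) * e := ⟨_, rfl⟩
  have hxm : x.map φ = xb * yb * xb * (f.map φ) := by
    rw [hx, Matrix.map_mul, Matrix.map_mul]
    have : (xb.map g).map φ = xb := by ext i j; simp [hg]
    rw [this, ← h1]
  have hym : y.map φ = yb * xb * yb * (e.map φ) := by
    rw [hy, Matrix.map_mul, Matrix.map_mul]
    have : (yb.map g).map φ = yb := by ext i j; simp [hg]
    rw [this, ← h2]
  have hee : (xb * yb) * (xb * yb) = xb * yb := by rw [h1]; exact K0.map_idem φ he
  have hff : (yb * xb) * (yb * xb) = yb * xb := by rw [h2]; exact K0.map_idem φ hf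
  have hex : e * x = x := by rw [hx, ← Matrix.mul_assoc, ← Matrix.mul_assoc, he]
  have hxf : x * f = x := by rw [hx, Matrix.mul_assoc, hf]
  have hfy : f * y = y := by rw [hy, ← Matrix.mul_assoc, ← Matrix.mul_assoc, hf]
  have hye : y * e = y := by rw [hy, Matrix.mul_assoc, he]
  have hxy : (x * y).map φ = e.map φ := by
    rw [Matrix.map_mul, hxm, hym, ← h2, ← h1]
    calc xb * yb * xb * (yb * xb) * (yb * xb * yb * (xb * yb))
        = (xb * yb) * (xb * yb) * (xb * yb) * (xb * yb) * (xb * yb) := by
          simp only [Matrix.mul_assoc]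
      _ = xb * yb := by simp only [hee]
  have hyx : (y * x).map φ = f.map φ := by
    rw [Matrix.map_mul, hxm, hym, ← h2, ← h1]
    calc yb * xb * yb * (xb * yb) * (xb * yb * xb * (yb * xb))
        = (yb * xb) * (yb * xb) * (yb * xb) * (yb * xb) * (yb * xb) := by
          simp only [Matrix.mul_assoc]
      _ = yb * xb := by simp only [hff]
  have hn : IsNilpotent (e - x * y) := by
    apply (h.matrix ι).isNilpotent
    rw [map_sub, RingHom.mapMatrix_apply, RingHom.mapMatrix_apply, hxy, sub_self]
  have hu : IsUnit (1 - (e - x * y)) := hn.isUnit_one_sub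
  obtain ⟨u, hu⟩ := hu
  have hue : (u : Matrix ι ι R) * e = x * y := by
    rw [hu, Matrix.sub_mul, Matrix.one_mul, Matrix.sub_mul, he, Matrix.mul_assoc, hye]
    abel
  have heu : e * (u : Matrix ι ι R) = x * y := by
    rw [hu, Matrix.mul_sub, Matrix.mul_one, Matrix.mul_sub, he, ← Matrix.mul_assoc, hex]
    abel
  have hxyv : x * y * ((u⁻¹ : (Matrix ι ι R)ˣ) : Matrix ι ι R) = e := by
    rw [← heu, Matrix.mul_assoc, Units.mul_inv, Matrix.mul_one]
  have hve : ((u⁻¹ : (Matrix ι ι R)ˣ) : Matrix ι ι R) * (x * y) = e := by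
    rw [← hue, ← Matrix.mul_assoc, Units.inv_mul, Matrix.one_mul]
  have hvm : ((u⁻¹ : (Matrix ι ι R)ˣ) : Matrix ι ι R).map φ * (xb * yb) = xb * yb := by
    have := congrArg (fun z : Matrix ι ι R => z.map φ) hve
    simp only [Matrix.map_mul] at this
    rw [← Matrix.map_mul, hxy, ← h1] at this
    exact this
  refine ⟨x, y * ((u⁻¹ : (Matrix ι ι R)ˣ) : Matrix ι ι R), ?_, ?_⟩
  · rw [← Matrix.mul_assoc, hxyv]
  · set v : Matrix ι ι R := ((u⁻¹ : (Matrix ι ι R)ˣ) : Matrix ι ι R) with hv
    obtain ⟨q, hq⟩ : ∃ q : Matrix κ κ R, q = y * v * x := ⟨_, rfl⟩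
    have hqq : q * q = q := by
      calc q * q = y * (v * (x * y)) * v * x := by rw [hq]; simp only [Matrix.mul_assoc]
        _ = q := by rw [hve, hye, hq]
    have hfq : f * q = q := by rw [hq, ← Matrix.mul_assoc, ← Matrix.mul_assoc, hfy]
    have hqf : q * f = q := by rw [hq, Matrix.mul_assoc, hxf]
    have hqm : q.map φ = f.map φ := by
      rw [hq, Matrix.map_mul, Matrix.map_mul, hxm, hym, ← h1, ← h2]
      calc yb * xb * yb * (xb * yb) * v.map φ * (xb * yb * xb * (yb * xb))
          = yb * (xb * yb) * (xb * yb) * (v.map φ * (xb * yb)) * xb * (yb * xb) := by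
            simp only [Matrix.mul_assoc]
        _ = (yb * xb) * (yb * xb) * (yb * xb) * (yb * xb) * (yb * xb) := by
            rw [hvm]
            simp only [Matrix.mul_assoc]
        _ = yb * xb := by simp only [hff]
    have hdiff : f - q = 0 := by
      apply idem_nilpotent
      · rw [Matrix.sub_mul, Matrix.mul_sub, Matrix.mul_sub, hf, hqq, hfq, hqf]
        abel
      · apply (h.matrix κ).isNilpotent
        rw [map_sub, RingHom.mapMatrix_apply, RingHom.mapMatrix_apply, hqm, sub_self]
    rw [← hq]
    exact (sub_eq_zero.1 hdiff).symm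

namespace K0

/-- a lift of an idempotent matrix -/
noncomputable def liftIdem {φ : R →+* S} (hs : Function.Surjective φ) (h : NilKer φ)
    (a : IdemMat S) : IdemMat R where
  n := a.n
  mat := (exists_lift_idem hs h a.mat a.idem).choose
  idem := (exists_lift_idem hs h a.mat a.idem).choose_spec.1

theorem liftIdem_map {φ : R →+* S} (hs : Function.Surjective φ) (h : NilKer φ)
    (a : IdemMat S) : (liftIdem hs h a).mat.map φ = a.mat :=
  (exists_lift_idem hs h a.mat a.idem).choose_spec.2

/-- The inverse of `K₀(R) → K₀(S)` for a surjection with nilpotent kernel. -/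
noncomputable def nilLift {φ : R →+* S} (hs : Function.Surjective φ) (h : NilKer φ) :
    K0 S →+ K0 R :=
  lift (fun a => mk (liftIdem hs h a))
    (fun a b hab => mk_eq_of_equiv (matEquiv_of_map hs h (liftIdem hs h a).idem
      (liftIdem hs h b).idem (by rw [liftIdem_map, liftIdem_map]; exact hab)))
    (fun a b => by
      rw [← mk_sum]
      refine mk_eq_of_equiv (matEquiv_of_map hs h (liftIdem hs h (a.sum b)).idem
        (IdemMat.sum _ _).idem ?_)
      rw [liftIdem_map]
      have : (IdemMat.sum (liftIdem hs h a) (liftIdem hs h b)).mat.map φ = (a.sum b).mat := by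
        have h1 : (fromBlocks (liftIdem hs h a).mat 0 0 (liftIdem hs h b).mat).map φ =
            fromBlocks a.mat 0 0 b.mat := by
          rw [fromBlocks_map, liftIdem_map, liftIdem_map, Matrix.map_zero _ (map_zero φ),
            Matrix.map_zero _ (map_zero φ)]
          rfl
        have h2 : (IdemMat.sum (liftIdem hs h a) (liftIdem hs h b)).mat.map φ =
            ((fromBlocks (liftIdem hs h a).mat 0 0 (liftIdem hs h b).mat).map φ).submatrix
              finSumFinEquiv.symm finSumFinEquiv.symm := rfl
        rw [h2, h1]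
        rfl
      rw [this]
      exact matEquiv_refl (a.sum b).idem)

theorem map_nilLift {φ : R →+* S} (hs : Function.Surjective φ) (h : NilKer φ) (x : K0 S) :
    map φ (nilLift hs h x) = x := by
  have : (map φ).comp (nilLift hs h) = AddMonoidHom.id _ := by
    apply hom_ext
    intro a
    rw [AddMonoidHom.comp_apply, nilLift, lift_mk, map_mk, AddMonoidHom.id_apply, mk_eq_cls]
    have := liftIdem_map hs h a
    exact cls_congr _ _ (by rw [this]; exact matEquiv_refl a.idem)
  exact DFunLike.congr_fun this x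

theorem nilLift_map {φ : R →+* S} (hs : Function.Surjective φ) (h : NilKer φ) (x : K0 R) :
    nilLift hs h (map φ x) = x := by
  have : (nilLift hs h).comp (map φ) = AddMonoidHom.id _ := by
    apply hom_ext
    intro a
    rw [AddMonoidHom.comp_apply, map_mk, AddMonoidHom.id_apply, cls, nilLift, lift_mk]
    refine mk_eq_of_equiv (matEquiv_of_map hs h (liftIdem hs h _).idem a.idem ?_)
    rw [liftIdem_map]
    exact toFin_equiv _ _
  exact DFunLike.congr_fun this x

theorem map_injective {φ : R →+* S} (hs : Function.Surjective φ) (h : NilKer φ) :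
    Function.Injective (map φ) :=
  Function.LeftInverse.injective (nilLift_map hs h)

end K0

end Pool.Agent.H71.FJ

end

section

/-!
# Idempotent matrices over division rings; ranks and traces
-/

set_option autoImplicit false

open Matrix

universe u v w

namespace Pool.Agent.H71.FJ

/-- Idempotent matrices over a division ring are equivalent to identity matrices. -/
theorem exists_matEquiv_one {D : Type u} [DivisionRing D] {ι : Type*} [Fintype ι] [DecidableEq ι]
    (e : Matrix ι ι D) (he : e * e = e) :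
    ∃ r : ℕ, MatEquiv e (1 : Matrix (Fin r) (Fin r) D) := by
  set f : (ι → D) →ₗ[D] (ι → D) := e.toLinearMapRight' with hf
  have hff : ∀ v, f (f v) = f v := by
    intro v
    rw [hf, ← Matrix.toLinearMapRight'_mul_apply, he]
  have hM : LinearMap.toMatrixRight' f = e := by
    rw [hf]
    exact LinearMap.toMatrixRight'.apply_symm_apply e
  let ψ : LinearMap.range f ≃ₗ[D] (Fin (Module.finrank D (LinearMap.range f)) → D) :=
    (Module.finBasis D (LinearMap.range f)).equivFun
  let X : (ι → D) →ₗ[D] (Fin (Module.finrank D (LinearMap.range f)) → D) :=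
    ψ.toLinearMap ∘ₗ f.rangeRestrict
  let Y : (Fin (Module.finrank D (LinearMap.range f)) → D) →ₗ[D] (ι → D) :=
    (LinearMap.range f).subtype ∘ₗ ψ.symm.toLinearMap
  have hYX : Y ∘ₗ X = f := by
    refine LinearMap.ext fun v => ?_
    simp only [X, Y, LinearMap.comp_apply, LinearEquiv.coe_coe, LinearEquiv.symm_apply_apply]
    rfl
  have hXY : X ∘ₗ Y = LinearMap.id := by
    refine LinearMap.ext fun v => ?_
    simp only [X, Y, LinearMap.comp_apply, LinearEquiv.coe_coe, LinearMap.id_apply]
    obtain ⟨w, hw⟩ : ∃ w, ψ w = v := ψ.surjective v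
    rw [← hw, LinearEquiv.symm_apply_apply]
    congr 1
    obtain ⟨z, t, rfl⟩ := w
    apply Subtype.ext
    exact hff t
  refine ⟨Module.finrank D (LinearMap.range f), LinearMap.toMatrixRight' X,
    LinearMap.toMatrixRight' Y, ?_, ?_⟩
  · rw [← LinearMap.toMatrixRight'_comp, hYX, hM]
  · rw [← LinearMap.toMatrixRight'_comp, hXY, LinearMap.toMatrixRight'_id]

namespace K0

theorem matEquiv_one_one {R : Type u} [Ring R] {ι κ : Type*} [Fintype ι] [DecidableEq ι]
    [Fintype κ] [DecidableEq κ] (σ : ι ≃ κ) :
    MatEquiv (1 : Matrix ι ι R) (1 : Matrix κ κ R) := by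
  have := matEquiv_submatrix (R := R) (1 : Matrix κ κ R) (by simp) σ
  rw [submatrix_one_equiv] at this
  exact this

/-- The class of the free module of rank one. -/
noncomputable def one (R : Type u) [Ring R] : K0 R :=
  cls (1 : Matrix (Fin 1) (Fin 1) R) (by simp)

theorem cls_one_fin {R : Type u} [Ring R] (r : ℕ) :
    cls (1 : Matrix (Fin r) (Fin r) R) (by simp) = r • one R := by
  induction r with
  | zero =>
    have h := cls_fromBlocks (R := R) (ι := Fin 0) (κ := Fin 0) (e := 1) (f := 1) (by simp)
      (by simp)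
    have h2 : cls (fromBlocks (1 : Matrix (Fin 0) (Fin 0) R) 0 0 (1 : Matrix (Fin 0) (Fin 0) R))
        (fromBlocks_idem (by simp) (by simp)) = cls (1 : Matrix (Fin 0) (Fin 0) R) (by simp) := by
      apply cls_congr
      rw [fromBlocks_one]
      exact matEquiv_one_one finSumFinEquiv
    rw [h2] at h
    rw [zero_smul]
    simpa using h
  | succ r ih =>
    rw [succ_nsmul, ← ih, one, ← cls_fromBlocks]
    apply cls_congr
    rw [fromBlocks_one]
    exact matEquiv_one_one finSumFinEquiv.symm

theorem cls_one {R : Type u} [Ring R] {ι : Type*} [Fintype ι] [DecidableEq ι] :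
    cls (1 : Matrix ι ι R) (by simp) = Fintype.card ι • one R := by
  rw [← cls_one_fin]
  exact cls_congr _ _ (matEquiv_one_one (Fintype.equivFin ι))

theorem map_one' {R : Type u} [Ring R] {S : Type v} [Ring S] (f : R →+* S) :
    map f (one R) = one S := by
  rw [one, map_cls]
  exact cls_congr _ _ (by
    rw [Matrix.map_one _ (map_zero f) (map_one f)]
    exact matEquiv_refl (by simp))

theorem push_one {R : Type u} [Ring R] {S : Type v} [Ring S] {J : Type*} [Fintype J]
    [DecidableEq J] (φ : R →+* Matrix J J S) : push φ (one R) = Fintype.card J • one S := by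
  rw [one, push_cls, ← cls_one]
  apply cls_congr
  have : flat φ (1 : Matrix (Fin 1) (Fin 1) R) = (1 : Matrix (Fin 1 × J) (Fin 1 × J) S) := by
    ext ⟨i, a⟩ ⟨j, b⟩
    have hij : i = j := Subsingleton.elim _ _
    subst hij
    simp [flat, Matrix.one_apply]
  rw [this]
  exact matEquiv_one_one (Equiv.uniqueProd J (Fin 1))

theorem tr_one {R : Type u} [Ring R] {M : Type*} [AddCommGroup M] (τ : R →+ M)
    (hτ : ∀ x y, τ (x * y) = τ (y * x)) : tr τ hτ (one R) = τ 1 := by
  rw [one, tr_cls]
  simp

section Division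

variable {D : Type u} [DivisionRing D]

/-- the rank of an idempotent matrix -/
noncomputable def rkNat (a : IdemMat D) : ℕ := (exists_matEquiv_one a.mat a.idem).choose

theorem rkNat_spec (a : IdemMat D) :
    MatEquiv a.mat (1 : Matrix (Fin (rkNat a)) (Fin (rkNat a)) D) :=
  (exists_matEquiv_one a.mat a.idem).choose_spec

theorem card_eq_of_matEquiv_one {ι κ : Type*} [Fintype ι] [DecidableEq ι] [Fintype κ]
    [DecidableEq κ] (h : MatEquiv (1 : Matrix ι ι D) (1 : Matrix κ κ D)) :
    Fintype.card ι = Fintype.card κ := by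
  obtain ⟨x, y, h1, h2⟩ := h
  exact Matrix.square_of_invertible x y h1 h2

theorem rkNat_eq {a : IdemMat D} {ι : Type*} [Fintype ι] [DecidableEq ι]
    (h : MatEquiv a.mat (1 : Matrix ι ι D)) : rkNat a = Fintype.card ι := by
  have := card_eq_of_matEquiv_one (matEquiv_trans (by simp) (by simp)
    (matEquiv_symm (rkNat_spec a)) h)
  simpa using this

/-- The rank homomorphism of a division ring. -/
noncomputable def rk : K0 D →+ ℤ :=
  lift (fun a => (rkNat a : ℤ))
    (fun a b hab => by
      have := rkNat_eq (matEquiv_trans a.idem (by simp) hab (rkNat_spec b))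
      simp only [Fintype.card_fin] at this
      rw [this])
    (fun a b => by
      have h1 : MatEquiv (a.sum b).mat
          (fromBlocks (1 : Matrix (Fin (rkNat a)) (Fin (rkNat a)) D) 0 0
            (1 : Matrix (Fin (rkNat b)) (Fin (rkNat b)) D)) :=
        matEquiv_trans (a.sum b).idem (fromBlocks_idem (by simp) (by simp))
          (matEquiv_submatrix _ (fromBlocks_idem a.idem b.idem) _)
          (matEquiv_fromBlocks (rkNat_spec a) (rkNat_spec b))
      rw [fromBlocks_one] at h1
      rw [rkNat_eq h1]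
      simp)

theorem rk_mk (a : IdemMat D) : rk (mk a) = (rkNat a : ℤ) := lift_mk _ _ _ a

theorem rk_cls_of_matEquiv {ι κ : Type*} [Fintype ι] [DecidableEq ι] [Fintype κ] [DecidableEq κ]
    {e : Matrix ι ι D} (he : e * e = e) (h : MatEquiv e (1 : Matrix κ κ D)) :
    rk (cls e he) = (Fintype.card κ : ℤ) := by
  rw [cls, rk_mk, rkNat_eq (matEquiv_trans (toFin e he).idem (by simp) (toFin_equiv e he) h)]

theorem rk_one : rk (one D) = 1 := by
  rw [one, rk_cls_of_matEquiv _ (matEquiv_refl (by simp))]
  simp

theorem eq_rk_smul_one (x : K0 D) : x = rk x • one D := by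
  obtain ⟨a, b, rfl⟩ := exists_sub x
  have key : ∀ a : IdemMat D, mk a = rk (mk a) • one D := by
    intro a
    rw [rk_mk, natCast_zsmul, ← cls_one_fin, mk_eq_cls]
    exact cls_congr _ _ (rkNat_spec a)
  rw [map_sub, sub_smul, ← key, ← key]

theorem rk_map {E : Type v} [DivisionRing E] (f : D →+* E) (x : K0 D) : rk (map f x) = rk x := by
  conv_lhs => rw [eq_rk_smul_one x, map_zsmul, map_one', map_zsmul, rk_one]
  simp

theorem rk_push {E : Type v} [DivisionRing E] {J : Type*} [Fintype J] [DecidableEq J]
    (φ : D →+* Matrix J J E) (x : K0 D) : rk (push φ x) = rk x * Fintype.card J := by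
  conv_lhs => rw [eq_rk_smul_one x, map_zsmul, push_one, map_zsmul, map_nsmul, rk_one]
  simp

end Division

/-- the trace of a lift of an idempotent is its rank -/
theorem tr_eq_rk {B : Type u} [CommRing B] {K : Type v} [Field K] {φ : B →+* K}
    (hs : Function.Surjective φ) (h : NilKer φ) (x : K0 B) :
    tr (AddMonoidHom.id B) (fun x y => mul_comm x y) x = (rk (map φ x) : B) := by
  have h1 : x = rk (map φ x) • one B := by
    apply map_injective hs h
    rw [map_zsmul, map_one']
    exact eq_rk_smul_one _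
  conv_lhs => rw [h1, map_zsmul, tr_one]
  simp

end K0

end Pool.Agent.H71.FJ

end
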