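import Pool.Agent.H71.TCZ.M02
import Pool.Agent.H71.TCZ.M06

/-! The parts of this file: H95.WH.Push, H95.WH.Inter. -/

section

/-!
# Push-forward along a homomorphism to a matrix ring

For `φ : R →+* Matrix J J S` the homomorphism `K1.push φ : K₁(R) → K₁(S)` sends `[U]` to the class of
the matrix over `S` obtained by replacing every entry of `U` by its image (a `J × J` block).
`flat`, `flat_mul` are in `Pool/Agent/H71/FJ/K0.lean`, `lamR`, `twR`, `incl` in
`Pool/Agent/H71/FJ/Group.lean`.

## Paper proofs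

`push`: additivity by `cls_mul` and `flat_mul`; stability: `flat φ (diag(U, 1))` is, after the
reindexing `(Fin n ⊕ Fin 1) × J ≃ (Fin n × J) ⊕ (Fin 1 × J)`, `fromBlocks (flat φ U) 0 0 1` (`cls_reindex`,
`cls_stab`).
`push_congr`: `flat φ U = (1 ⊗ P) (flat φ' U) (1 ⊗ Q)` (`cls_conj`).
`push_sigma`: block diagonal homomorphisms.
`push_one`: a one-element index type.
`ind_res1`: same proof as `ind_res` in `Pool/Agent/H71/FJ/Group.lean`.
-/

set_option autoImplicit false

open Matrix
open scoped Classical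

universe u v w

namespace Pool.Agent.H95.WH

variable {R : Type u} [Ring R] {S : Type v} [Ring S] {T : Type w} [Ring T]
  {J : Type*} [Fintype J] [DecidableEq J]

/-- Replace every entry by its image. -/
def flatM {ι κ : Type*} (φ : R →+* Matrix J J S) (U : Matrix ι κ R) : Matrix (ι × J) (κ × J) S :=
  Matrix.of fun p q => φ (U p.1 q.1) p.2 q.2

theorem flatM_mul {ι κ l : Type*} [Fintype κ] (φ : R →+* Matrix J J S) (U : Matrix ι κ R)
    (V : Matrix κ l R) : flatM φ (U * V) = flatM φ U * flatM φ V := by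
  ext ⟨i, a⟩ ⟨j, b⟩
  simp only [flatM, of_apply, mul_apply, map_sum, map_mul, Fintype.sum_prod_type, Matrix.sum_apply]

theorem flatM_one {ι : Type*} [DecidableEq ι] (φ : R →+* Matrix J J S) :
    flatM φ (1 : Matrix ι ι R) = 1 := by
  ext ⟨i, a⟩ ⟨j, b⟩
  by_cases h : i = j
  · subst h
    simp [flatM, Matrix.one_apply]
  · have h' : ((i, a) : ι × J) ≠ (j, b) := fun e => h (congrArg Prod.fst e)
    rw [Matrix.one_apply_ne h', flatM, of_apply, Matrix.one_apply_ne h, map_zero]
    rfl

/-- `flatM` on invertible matrices. -/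
def flatU {ι : Type*} [Fintype ι] [DecidableEq ι] (φ : R →+* Matrix J J S)
    (U : (Matrix ι ι R)ˣ) : (Matrix (ι × J) (ι × J) S)ˣ where
  val := flatM φ U.val
  inv := flatM φ U.inv
  val_inv := by rw [← flatM_mul, U.val_inv, flatM_one]
  inv_val := by rw [← flatM_mul, U.inv_val, flatM_one]

theorem flatU_mul {ι : Type*} [Fintype ι] [DecidableEq ι] (φ : R →+* Matrix J J S)
    (U V : (Matrix ι ι R)ˣ) : flatU φ (U * V) = flatU φ U * flatU φ V :=
  Units.ext (flatM_mul φ U.val V.val)

theorem cls_flatU_stab {n : ℕ} (φ : R →+* Matrix J J S) (U : (Matrix (Fin n) (Fin n) R)ˣ) :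
    K1.cls (flatU φ (stab U)) = K1.cls (flatU φ U) := by
  let e : Fin (n + 1) × J ≃ (Fin n × J) ⊕ (Fin 1 × J) :=
    (Equiv.prodCongr finSumFinEquiv.symm (Equiv.refl J)).trans (Equiv.sumProdDistrib (Fin n) (Fin 1) J)
  rw [← K1.cls_reindex e (flatU φ (stab U))]
  apply K1.cls_stab
  rw [reU_val]
  change (flatM φ (stabMat U.val)).submatrix e.symm e.symm = fromBlocks (flatM φ U.val) 0 0 1
  ext x y
  rcases x with ⟨i, a⟩ | ⟨i, a⟩ <;> rcases y with ⟨j, b⟩ | ⟨j, b⟩
  · simp [e, flatM, stabMat]
  · simp [e, flatM, stabMat]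
  · simp [e, flatM, stabMat]
  · have hij : i = j := Subsingleton.elim _ _
    subst hij
    simp [e, flatM, stabMat, Matrix.one_apply]

namespace K1

/-- Push-forward. -/
noncomputable def push (φ : R →+* Matrix J J S) : K1 R →+ K1 S :=
  lift (fun _ U => cls (flatU φ U)) (fun _ U V => by rw [flatU_mul, cls_mul])
    (fun _ U => cls_flatU_stab φ U)

theorem push_mk (φ : R →+* Matrix J J S) {n : ℕ} (U : (Matrix (Fin n) (Fin n) R)ˣ) :
    push φ (mk U) = cls (flatU φ U) := lift_mk _ _ _ U

theorem map_push (f : S →+* T) (φ : R →+* Matrix J J S) (x : K1 R) :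
    map f (push φ x) = push (f.mapMatrix.comp φ) x := by
  have h : (map f).comp (push φ) = push (f.mapMatrix.comp φ) := by
    apply hom_ext
    intro n U
    rw [AddMonoidHom.comp_apply, push_mk, push_mk, map_cls]
    congr 1
  rw [← h]
  rfl

theorem push_congr {J' : Type*} [Fintype J'] [DecidableEq J'] (φ : R →+* Matrix J J S)
    (φ' : R →+* Matrix J' J' S) (P : Matrix J J' S) (Q : Matrix J' J S) (hPQ : P * Q = 1)
    (hQP : Q * P = 1) (h : ∀ r, φ r * P = P * φ' r) (x : K1 R) : push φ x = push φ' x := by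
  have key : push φ = push φ' := by
    apply hom_ext
    intro n U
    rw [push_mk, push_mk]
    let UU : Matrix (Fin n × J) (Fin n × J') S :=
      Matrix.of fun p q => if p.1 = q.1 then P p.2 q.2 else 0
    let VV : Matrix (Fin n × J') (Fin n × J) S :=
      Matrix.of fun p q => if p.1 = q.1 then Q p.2 q.2 else 0
    have hU : ∀ M : Matrix (Fin n × J') (Fin n × J') S, ∀ i c j b, (UU * M) (i, c) (j, b) =
        ∑ d, P c d * M (i, d) (j, b) := by
      intro M i c j b
      simp only [UU, mul_apply, of_apply, Fintype.sum_prod_type, ite_mul, zero_mul]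
      rw [Finset.sum_comm]
      simp
    have hU' : ∀ M : Matrix (Fin n × J) (Fin n × J) S, ∀ i c j b, (M * UU) (i, c) (j, b) =
        ∑ d, M (i, c) (j, d) * P d b := by
      intro M i c j b
      simp only [UU, mul_apply, of_apply, Fintype.sum_prod_type, mul_ite, mul_zero]
      rw [Finset.sum_comm]
      simp
    have hcomm : UU * flatM φ' U.val = flatM φ U.val * UU := by
      ext ⟨i, c⟩ ⟨j, b⟩
      rw [hU, hU']
      have := congrFun (congrFun (h (U.val i j)) c) b
      simp only [mul_apply] at this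
      simpa [flatM] using this.symm
    have hUVU : UU * VV = 1 := by
      ext ⟨i, c⟩ ⟨j, b⟩
      simp only [UU, VV, mul_apply, of_apply, Fintype.sum_prod_type, ite_mul, zero_mul, mul_ite,
        mul_zero]
      rw [Finset.sum_comm]
      have := congrFun (congrFun hPQ c) b
      simp only [mul_apply] at this
      by_cases hij : i = j
      · subst hij
        simp [this, Matrix.one_apply]
      · simp [hij]
    have hVUV : VV * UU = 1 := by
      ext ⟨i, c⟩ ⟨j, b⟩
      simp only [UU, VV, mul_apply, of_apply, Fintype.sum_prod_type, ite_mul, zero_mul, mul_ite,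
        mul_zero]
      rw [Finset.sum_comm]
      have := congrFun (congrFun hQP c) b
      simp only [mul_apply] at this
      by_cases hij : i = j
      · subst hij
        simp [this, Matrix.one_apply]
      · simp [hij]
    apply cls_conj UU VV hUVU hVUV
    change flatM φ U.val = UU * flatM φ' U.val * VV
    rw [hcomm, Matrix.mul_assoc, hUVU, Matrix.mul_one]
  rw [key]

section PushBlk

variable {I : Type*} [Fintype I] [DecidableEq I] {K : I → Type*} [∀ i, Fintype (K i)]
  [∀ i, DecidableEq (K i)]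

/-- Block diagonal invertible matrices. -/
private def pushBd (S : Type v) [Ring S] : (∀ i, (Matrix (K i) (K i) S)ˣ) →*
    (Matrix (Σ i, K i) (Σ i, K i) S)ˣ :=
  (Units.map (Matrix.blockDiagonal'RingHom K S).toMonoidHom).comp
    (MulEquiv.piUnits (M := fun i => Matrix (K i) (K i) S)).symm.toMonoidHom

private theorem pushBd_val (u : ∀ i, (Matrix (K i) (K i) S)ˣ) :
    (pushBd S u : Matrix (Σ i, K i) (Σ i, K i) S) =
      Matrix.blockDiagonal' (fun i => (u i : Matrix (K i) (K i) S)) := rfl

private theorem cls_pushBd_single (i : I) (u : (Matrix (K i) (K i) S)ˣ) :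
    cls (pushBd S (Pi.mulSingle i u)) = cls u := by
  let p : (Σ j, K j) → Prop := fun x => x.1 = i
  let e1 : (Σ j, K j) ≃ {x : Σ j, K j // p x} ⊕ {x : Σ j, K j // ¬ p x} :=
    (Equiv.sumCompl p).symm
  let e2 : {x : Σ j, K j // p x} ≃ K i :=
    { toFun := fun x => cast (congrArg K x.2) x.1.2
      invFun := fun y => ⟨⟨i, y⟩, rfl⟩
      left_inv := by
        rintro ⟨⟨j, y⟩, hj⟩
        have hj' : j = i := hj
        subst hj'
        rfl
      right_inv := fun y => rfl }
  rw [← cls_reindex e1 (pushBd S (Pi.mulSingle i u)), ← cls_reindex e2.symm u]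
  apply cls_stab
  rw [reU_val, reU_val, pushBd_val]
  ext x y
  rcases x with ⟨⟨j, a⟩, hx⟩ | ⟨⟨j, a⟩, hx⟩ <;> rcases y with ⟨⟨k, b⟩, hy⟩ | ⟨⟨k, b⟩, hy⟩
  · have hj : j = i := hx
    subst hj
    have hk : k = j := hy
    subst hk
    simp [e1, e2, Matrix.blockDiagonal'_apply]
  · have hj : j = i := hx
    have hk : k ≠ i := hy
    subst hj
    have hjk : j ≠ k := hk.symm
    simp [e1, Matrix.blockDiagonal'_apply, hjk]
  · have hj : j ≠ i := hx
    have hk : k = i := hy
    subst hk
    simp [e1, Matrix.blockDiagonal'_apply, hj]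
  · have hj : j ≠ i := hx
    have hk : k ≠ i := hy
    by_cases hjk : j = k
    · subst hjk
      simp [e1, Matrix.blockDiagonal'_apply, Pi.mulSingle_eq_of_ne hj, Matrix.one_apply]
    · simp [e1, Matrix.blockDiagonal'_apply, hjk]

private theorem cls_pushBd (u : ∀ i, (Matrix (K i) (K i) S)ˣ) :
    cls (pushBd S u) = ∑ i, cls (u i) := by
  let f : (∀ i, (Matrix (K i) (K i) S)ˣ) →* Multiplicative (K1 S) :=
    { toFun := fun u => Multiplicative.ofAdd (cls (pushBd S u))
      map_one' := by rw [map_one, cls_one]; rfl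
      map_mul' := fun u v => by rw [map_mul, cls_mul]; rfl }
  let g : (∀ i, (Matrix (K i) (K i) S)ˣ) →* Multiplicative (K1 S) :=
    { toFun := fun u => Multiplicative.ofAdd (∑ i, cls (u i))
      map_one' := by
        simp only [Pi.one_apply, cls_one, Finset.sum_const_zero]
        rfl
      map_mul' := fun u v => by
        simp only [Pi.mul_apply, cls_mul, Finset.sum_add_distrib]
        rfl }
  have hfg : f = g := by
    apply MonoidHom.pi_ext
    intro i u
    change Multiplicative.ofAdd (cls (pushBd S (Pi.mulSingle i u))) =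
      Multiplicative.ofAdd (∑ j, cls ((Pi.mulSingle i u : ∀ i, (Matrix (K i) (K i) S)ˣ) j))
    rw [cls_pushBd_single, Finset.sum_eq_single i]
    · rw [Pi.mulSingle_eq_same]
    · intro j _ hj
      rw [Pi.mulSingle_eq_of_ne hj, cls_one]
    · intro h
      exact absurd (Finset.mem_univ _) h
  exact Multiplicative.ofAdd.injective (DFunLike.congr_fun hfg u)

theorem push_blk [Fintype (Σ i, K i)] [DecidableEq (Σ i, K i)]
    (φ : ∀ i, R →+* Matrix (K i) (K i) S)
    (φ' : R →+* Matrix (Σ i, K i) (Σ i, K i) S)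
    (h : ∀ r, φ' r = Matrix.blockDiagonal' (fun i => φ i r)) (x : K1 R) :
    push φ' x = ∑ i, push (φ i) x := by
  have key : push φ' = ∑ i, push (φ i) := by
    apply hom_ext
    intro n U
    rw [AddMonoidHom.finsetSum_apply, push_mk]
    simp only [push_mk]
    have h1 := cls_pushBd (S := S) (K := fun i => Fin n × K i) (fun i => flatU (φ i) U)
    rw [← h1]
    let e : Fin n × (Σ i, K i) ≃ Σ i, Fin n × K i :=
      { toFun := fun x => ⟨x.2.1, (x.1, x.2.2)⟩
        invFun := fun y => (y.2.1, ⟨y.1, y.2.2⟩)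
        left_inv := fun x => rfl
        right_inv := fun x => rfl }
    rw [← cls_reindex e]
    congr 1
    apply Units.ext
    rw [reU_val, pushBd_val]
    ext ⟨i, a, c⟩ ⟨j, b, d⟩
    change φ' (U.val a b) ⟨i, c⟩ ⟨j, d⟩ = _
    rw [h]
    by_cases hij : i = j
    · subst hij
      rw [Matrix.blockDiagonal'_apply_eq, Matrix.blockDiagonal'_apply_eq]
      rfl
    · rw [Matrix.blockDiagonal'_apply_ne _ _ _ hij, Matrix.blockDiagonal'_apply_ne _ _ _ hij]
  rw [key, AddMonoidHom.finsetSum_apply]

end PushBlk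

end K1

variable {F : Type v} [Group F]

end Pool.Agent.H95.WH

end

section

/-!
# Rationally isomorphic lattices act in the same way on `K₁ ⊗ ℚ`

## Paper proofs

`pow_mod`: the image of `U` in the finite monoid of matrices over `(ℤ/n)[F]` is a unit of finite order
`m`; a matrix over `ℤ[F]` that vanishes modulo `n` is `n` times a matrix.
`inter`: let `x = [U]` (`exists_mk`), `U^m = 1 + n Z`. Let `ã = 1 ⊗ a` (`Matrix (Fin k × X) (Fin k × Y)`,
integer entries), `b̃ = 1 ⊗ b`. Then `ã b̃ = n`, `b̃ ã = n`, `flat φ (Z) ã = ã flat ψ (Z)`, so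
`flat φ (U^m) = 1 + n flat φ Z = 1 + (flat φ Z * ã) b̃` and
`flat ψ (U^m) = 1 + n flat ψ Z = 1 + b̃ (ã * flat ψ Z) = 1 + b̃ (flat φ Z * ã)`, so the two have the
same class by Vaserstein's identity `cls_vas`.
-/

set_option autoImplicit false

open Matrix

universe u v w

namespace Pool.Agent.H95.WH

/-- Block diagonal matrices with equal blocks. -/
private def interBlk (ι : Type*) [DecidableEq ι] {S : Type v} [Ring S] {X Y : Type*}
    (P : Matrix X Y S) : Matrix (ι × X) (ι × Y) S :=
  Matrix.of fun p q => if p.1 = q.1 then P p.2 q.2 else 0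

private theorem interBlk_mul (ι : Type*) [Fintype ι] [DecidableEq ι] {S : Type v} [Ring S]
    {X Y W : Type*} [Fintype Y] (P : Matrix X Y S) (M : Matrix (ι × Y) W S) (i : ι) (c : X)
    (w : W) : (interBlk ι P * M) (i, c) w = ∑ d, P c d * M (i, d) w := by
  simp only [interBlk, mul_apply, of_apply, Fintype.sum_prod_type, ite_mul, zero_mul]
  rw [Finset.sum_comm]
  simp

private theorem mul_interBlk (ι : Type*) [Fintype ι] [DecidableEq ι] {S : Type v} [Ring S]
    {X Y W : Type*} [Fintype X] (P : Matrix X Y S) (M : Matrix W (ι × X) S) (j : ι) (b : Y)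
    (w : W) : (M * interBlk ι P) w (j, b) = ∑ d, M w (j, d) * P d b := by
  simp only [interBlk, mul_apply, of_apply, Fintype.sum_prod_type, mul_ite, mul_zero]
  rw [Finset.sum_comm]
  simp

private theorem interBlk_smul_one (ι : Type*) [Fintype ι] [DecidableEq ι] {S : Type v} [Ring S]
    {X Y : Type*} [Fintype X] [DecidableEq X] [Fintype Y] (a : Matrix X Y ℤ) (b : Matrix Y X ℤ)
    (n : ℤ) (hab : a * b = n • (1 : Matrix X X ℤ)) :
    interBlk ι (a.map (Int.castRingHom S)) * interBlk ι (b.map (Int.castRingHom S)) =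
      n • (1 : Matrix (ι × X) (ι × X) S) := by
  have h1 : a.map (Int.castRingHom S) * b.map (Int.castRingHom S) = n • (1 : Matrix X X S) := by
    rw [← Matrix.map_mul, hab]
    ext i j
    rw [Matrix.map_apply, Matrix.smul_apply, Matrix.smul_apply]
    by_cases hij : i = j
    · subst hij
      rw [Matrix.one_apply_eq, Matrix.one_apply_eq]
      simp
    · rw [Matrix.one_apply_ne hij, Matrix.one_apply_ne hij]
      simp
  ext ⟨i, c⟩ ⟨j, d⟩
  rw [interBlk_mul]
  have h2 := congrFun (congrFun h1 c) d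
  rw [Matrix.mul_apply] at h2
  by_cases hij : i = j
  · subst hij
    have e : ∀ t : Y, interBlk ι (b.map (Int.castRingHom S)) (i, t) (i, d) =
        (b.map (Int.castRingHom S)) t d := by
      intro t
      simp [interBlk]
    simp only [e]
    rw [h2, Matrix.smul_apply, Matrix.smul_apply, Matrix.one_apply, Matrix.one_apply]
    simp
  · have e : ∀ t : Y, interBlk ι (b.map (Int.castRingHom S)) (i, t) (j, d) = 0 := by
      intro t
      simp [interBlk, hij]
    simp only [e]
    simp [hij]

private theorem flatM_smul {R : Type u} [Ring R] {S : Type v} [Ring S] {J : Type*} [Fintype J]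
    [DecidableEq J] {ι κ : Type*} (φ : R →+* Matrix J J S) (n : ℤ) (U : Matrix ι κ R) :
    flatM φ (n • U) = n • flatM φ U := by
  ext ⟨i, a⟩ ⟨j, b⟩
  simp only [flatM, of_apply, Matrix.smul_apply, map_zsmul]

private theorem flatM_add {R : Type u} [Ring R] {S : Type v} [Ring S] {J : Type*} [Fintype J]
    [DecidableEq J] {ι κ : Type*} (φ : R →+* Matrix J J S) (U V : Matrix ι κ R) :
    flatM φ (U + V) = flatM φ U + flatM φ V := by
  ext ⟨i, a⟩ ⟨j, b⟩
  simp only [flatM, of_apply, Matrix.add_apply, map_add]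

theorem inter {R : Type u} [Ring R] {S : Type v} [Ring S] {X Y : Type*} [Fintype X]
    [DecidableEq X] [Fintype Y] [DecidableEq Y] (φ : R →+* Matrix X X S) (ψ : R →+* Matrix Y Y S)
    (n : ℤ) (a : Matrix X Y ℤ) (b : Matrix Y X ℤ)
    (hab : a * b = n • (1 : Matrix X X ℤ)) (hba : b * a = n • (1 : Matrix Y Y ℤ))
    (h : ∀ r, φ r * a.map (Int.castRingHom S) = a.map (Int.castRingHom S) * ψ r)
    (hpow : ∀ (k : ℕ) (U : (Matrix (Fin k) (Fin k) R)ˣ),
      ∃ (m : ℕ) (Z : Matrix (Fin k) (Fin k) R), 0 < m ∧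
        ((U ^ m : (Matrix (Fin k) (Fin k) R)ˣ) : Matrix (Fin k) (Fin k) R) = 1 + n • Z)
    (x : K1 R) : ∃ m : ℕ, 0 < m ∧ m • K1.push φ x = m • K1.push ψ x := by
  obtain ⟨k, U, rfl⟩ := K1.exists_mk x
  obtain ⟨m, Z, hm, hZ⟩ := hpow k U
  refine ⟨m, hm, ?_⟩
  have hmk : m • K1.mk U = K1.mk (U ^ m) := by
    rw [← K1.cls_mk, ← K1.cls_mk, K1.cls_pow]
  rw [← map_nsmul, ← map_nsmul, hmk, K1.push_mk, K1.push_mk]
  set A := interBlk (Fin k) (a.map (Int.castRingHom S)) with hA
  set B := interBlk (Fin k) (b.map (Int.castRingHom S)) with hB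
  have hAB : A * B = n • (1 : Matrix (Fin k × X) (Fin k × X) S) :=
    interBlk_smul_one (Fin k) a b n hab
  have hBA : B * A = n • (1 : Matrix (Fin k × Y) (Fin k × Y) S) :=
    interBlk_smul_one (Fin k) b a n hba
  have hcomm : flatM φ Z * A = A * flatM ψ Z := by
    ext ⟨i, c⟩ ⟨j, d⟩
    rw [hA, interBlk_mul, mul_interBlk]
    have := congrFun (congrFun (h (Z i j)) c) d
    simp only [mul_apply] at this
    simpa [flatM] using this
  apply K1.cls_vas (flatM φ Z * A) B
  · change flatM φ (U ^ m : (Matrix (Fin k) (Fin k) R)ˣ).val = _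
    rw [hZ, flatM_add, flatM_one, flatM_smul, Matrix.mul_assoc, hAB, Matrix.mul_smul,
      Matrix.mul_one]
  · change flatM ψ (U ^ m : (Matrix (Fin k) (Fin k) R)ˣ).val = _
    rw [hZ, flatM_add, flatM_one, flatM_smul, hcomm, ← Matrix.mul_assoc, hBA, Matrix.smul_mul,
      Matrix.one_mul]

end Pool.Agent.H95.WH

end
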