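import Pool.Agent.H71.TCZ.M04
import Pool.Agent.H71.TCZ.M05
import Pool.Agent.H71.TCZ.M07

/-! The parts of this file: H71.FJ.Detect, H71.FQ.Defs, H95.WH.ArtKR. -/

section

/-!
# Classes in `K₀` of a finite-dimensional algebra are detected by ranks
-/

set_option autoImplicit false

open Matrix

universe u v w

namespace Pool.Agent.H71.FJ

namespace K0

theorem rkNat_eq_of_rk {D : Type u} [DivisionRing D] {ι κ : Type*} [Fintype ι] [DecidableEq ι]
    [Fintype κ] [DecidableEq κ] {e : Matrix ι ι D} {f : Matrix κ κ D} (he : e * e = e)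
    (hf : f * f = f) (h : rk (cls e he) = rk (cls f hf)) : MatEquiv e f := by
  obtain ⟨r, hr⟩ := exists_matEquiv_one e he
  obtain ⟨s, hs⟩ := exists_matEquiv_one f hf
  rw [rk_cls_of_matEquiv he hr, rk_cls_of_matEquiv hf hs] at h
  simp only [Fintype.card_fin, Nat.cast_inj] at h
  subst h
  exact matEquiv_trans he hf hr (matEquiv_symm hs)

theorem eq_zero_of_semisimple {k : Type v} [Field k] {Λ : Type u} [Ring Λ] [Algebra k Λ]
    [Module.Finite k Λ] [IsSemisimpleRing Λ] (x : K0 Λ)
    (h : ∀ (J : Type) [Fintype J] [DecidableEq J] (ρ : Λ →ₐ[k] Matrix J J k),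
      rk (push (ρ : Λ →+* Matrix J J k) x) = 0) : x = 0 := by
  obtain ⟨a, b, rfl⟩ := exists_sub x
  obtain ⟨n, D, d, _, _, _, hd, ⟨e⟩⟩ :=
    IsSemisimpleRing.exists_algEquiv_pi_matrix_divisionRing_finite k Λ
  -- the projections
  let π : ∀ i, Λ →ₐ[k] Matrix (Fin (d i)) (Fin (d i)) (D i) := fun i =>
    (Pi.evalAlgHom k (fun i => Matrix (Fin (d i)) (Fin (d i)) (D i)) i).comp e.toAlgHom
  have hπ : ∀ i r, π i r = e r i := fun i r => rfl
  have key : ∀ i, MatEquiv (flat (π i : Λ →+* Matrix (Fin (d i)) (Fin (d i)) (D i)) a.mat)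
      (flat (π i : Λ →+* Matrix (Fin (d i)) (Fin (d i)) (D i)) b.mat) := by
    intro i
    apply rkNat_eq_of_rk (flat_idem _ a.idem) (flat_idem _ b.idem)
    rw [← push_mk, ← push_mk, ← sub_eq_zero, ← map_sub, ← map_sub]
    let bs := Module.finBasis k (D i)
    let χ : D i →ₐ[k] Matrix (Fin (Module.finrank k (D i))) (Fin (Module.finrank k (D i))) k :=
      Algebra.leftMulMatrix bs
    let ρ : Λ →ₐ[k] Matrix (Fin (d i) × Fin (Module.finrank k (D i)))
        (Fin (d i) × Fin (Module.finrank k (D i))) k :=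
      { flatComp (χ : D i →+* _) (π i : Λ →+* _) with
        commutes' := by
          intro r
          have h1 : π i (algebraMap k Λ r) = algebraMap k _ r := (π i).commutes r
          ext ⟨p, s⟩ ⟨q, t⟩
          change χ ((π i (algebraMap k Λ r)) p q) s t = _
          rw [h1]
          simp only [Matrix.algebraMap_matrix_apply, Prod.mk.injEq]
          by_cases hpq : p = q
          · subst hpq
            simp [Matrix.algebraMap_matrix_apply]
          · simp [hpq] }
    have h1 := h (Fin (d i) × Fin (Module.finrank k (D i))) ρ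
    have h2 : (ρ : Λ →+* Matrix (Fin (d i) × Fin (Module.finrank k (D i)))
        (Fin (d i) × Fin (Module.finrank k (D i))) k) =
        flatComp (χ : D i →+* _) (π i : Λ →+* _) := rfl
    rw [h2, ← push_push, rk_push] at h1
    have h3 : (Fintype.card (Fin (Module.finrank k (D i))) : ℤ) ≠ 0 := by
      rw [Fintype.card_fin]
      have : 0 < Module.finrank k (D i) := Module.finrank_pos
      exact_mod_cast this.ne'
    exact (mul_eq_zero.1 h1).resolve_right h3
  choose X Y hXY hYX using key
  have hab : MatEquiv a.mat b.mat := by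
    refine ⟨Matrix.of fun s t => e.symm (fun i => Matrix.of fun p q => X i (s, p) (t, q)),
      Matrix.of fun s t => e.symm (fun i => Matrix.of fun p q => Y i (s, p) (t, q)), ?_, ?_⟩
    · ext s t
      apply e.injective
      funext i
      ext p q
      rw [Matrix.mul_apply, map_sum]
      have h1 := congrFun (congrFun (hXY i) (s, p)) (t, q)
      have h2 : flat (π i : Λ →+* Matrix (Fin (d i)) (Fin (d i)) (D i)) a.mat (s, p) (t, q) =
        e (a.mat s t) i p q := rfl
      rw [h2] at h1
      rw [← h1, Matrix.mul_apply, Fintype.sum_prod_type]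
      simp only [of_apply, map_mul, AlgEquiv.apply_symm_apply, Finset.sum_apply, Pi.mul_apply,
        Matrix.sum_apply, Matrix.mul_apply]
    · ext s t
      apply e.injective
      funext i
      ext p q
      rw [Matrix.mul_apply, map_sum]
      have h1 := congrFun (congrFun (hYX i) (s, p)) (t, q)
      have h2 : flat (π i : Λ →+* Matrix (Fin (d i)) (Fin (d i)) (D i)) b.mat (s, p) (t, q) =
        e (b.mat s t) i p q := rfl
      rw [h2] at h1
      rw [← h1, Matrix.mul_apply, Fintype.sum_prod_type]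
      simp only [of_apply, map_mul, AlgEquiv.apply_symm_apply, Finset.sum_apply, Pi.mul_apply,
        Matrix.sum_apply, Matrix.mul_apply]
  rw [mk_eq_of_equiv hab, sub_self]

/-- Classes in `K₀` of a finite-dimensional algebra are detected by the ranks of their images
under all finite-dimensional representations. -/
theorem eq_zero_of_rk_push {k : Type v} [Field k] {Λ : Type u} [Ring Λ] [Algebra k Λ]
    [Module.Finite k Λ] (x : K0 Λ)
    (h : ∀ (J : Type) [Fintype J] [DecidableEq J] (ρ : Λ →ₐ[k] Matrix J J k),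
      rk (push (ρ : Λ →+* Matrix J J k) x) = 0) : x = 0 := by
  have : IsArtinianRing Λ := IsArtinianRing.of_finite k Λ
  let q : Λ →ₐ[k] Λ ⧸ Ring.jacobson Λ := Ideal.Quotient.mkₐ k (Ring.jacobson Λ)
  have hq : Function.Surjective (q : Λ →+* Λ ⧸ Ring.jacobson Λ) := Ideal.Quotient.mk_surjective
  have hnil : NilKer (q : Λ →+* Λ ⧸ Ring.jacobson Λ) := by
    obtain ⟨N, hN⟩ := IsSemiprimaryRing.isNilpotent (R := Λ)
    refine ⟨N, fun j => ((Ring.jacobson Λ) ^ j).toAddSubgroup, ?_, ?_, ?_⟩
    · intro x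
      change x ∈ (Ring.jacobson Λ) ^ 0
      rw [Submodule.pow_zero, Ideal.one_eq_top]
      trivial
    · intro x hx
      change x ∈ (Ring.jacobson Λ) ^ N at hx
      rw [hN] at hx
      simpa using hx
    · intro j x y hx hy
      have hx' : x ∈ Ring.jacobson Λ := Ideal.Quotient.eq_zero_iff_mem.1 hx
      have : x * y ∈ Ring.jacobson Λ * (Ring.jacobson Λ) ^ j := Ideal.mul_mem_mul hx' hy
      rw [← Ideal.IsTwoSided.pow_succ] at this
      exact this
  apply map_injective hq hnil
  rw [map_zero]
  have : Module.Finite k (Λ ⧸ Ring.jacobson Λ) := Module.Finite.of_surjective q.toLinearMap hq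
  apply eq_zero_of_semisimple (k := k)
  intro J _ _ ρ
  rw [push_map]
  exact h J (ρ.comp q)

end K0

end Pool.Agent.H71.FJ

end

section

/-!
# The assembly map on the `K₀`-part of the rational source

For a ring `R`, a group `G` and `n`:

* `HnK0 R G n` is the abelian group generated by the symbols `[F, x, z]` with `F` a finite subgroup of `G`,
  `x ∈ K₀(R[F])` and `z ∈ H_{n+1}(Z_G(F); ℤ)`, modulo additivity in `x` and in `z` and
  `[F', c_g(x), z'] = [F, x, c_{g⁻¹}(z')]` for `g F g⁻¹ ⊆ F'`, `z' ∈ H_{n+1}(Z_G(F'); ℤ)`;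
* `assemblyN R G n : HnK0 R G n → KQ (R[G]) n` sends `[F, [e], z]` to the class of the image of `z` under the
  homomorphism `Z_G(F) → GL_N(R[G])`, `γ ↦ 1 + e (γ - 1)`.
-/

set_option autoImplicit false

open Matrix

universe u v w

namespace Pool.Agent.H71.FQ

open Pool.Agent.H71.FJ (MatEquiv IdemMat K0 K0.mk K0.lift K0.lift_mk K0.hom_ext K0.map)
open Pool.Agent.H95.WH (FamSub conjHom FinSub)

section

variable {G : Type v} [Group G]

theorem centConj_mem (g : G) (F F' : Subgroup G) (h : ∀ x ∈ F, g * x * g⁻¹ ∈ F')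
    (z : Subgroup.centralizer (F' : Set G)) :
    g⁻¹ * z * g ∈ Subgroup.centralizer (F : Set G) := by
  rw [Subgroup.mem_centralizer_iff]
  intro a ha
  have h1 := Subgroup.mem_centralizer_iff.1 z.2 _ (h a ha)
  calc a * (g⁻¹ * z * g) = g⁻¹ * (g * a * g⁻¹ * z) * g := by group
    _ = g⁻¹ * (z * (g * a * g⁻¹)) * g := by rw [h1]
    _ = _ := by group

/-- The homomorphism `Z_G(F') → Z_G(F)`, `z ↦ g⁻¹ z g`, for `g F g⁻¹ ⊆ F'`. -/
def centConj (g : G) (F F' : Subgroup G) (h : ∀ x ∈ F, g * x * g⁻¹ ∈ F') :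
    Subgroup.centralizer (F' : Set G) →* Subgroup.centralizer (F : Set G) where
  toFun z := ⟨g⁻¹ * z * g, centConj_mem g F F' h z⟩
  map_one' := by
    apply Subtype.ext
    change g⁻¹ * 1 * g = 1
    group
  map_mul' x y := by
    apply Subtype.ext
    change g⁻¹ * (x * y : G) * g = g⁻¹ * x * g * (g⁻¹ * y * g)
    group

end

section

variable (R : Type u) [Ring R] (G : Type v) [Group G] (n : ℕ)

/-- The symbols `[F, x, z]`. -/
structure Sym where
  /-- a finite subgroup -/
  F : FamSub G FinSub
  /-- a class in `K₀` of its group ring -/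
  x : K0 (MonoidAlgebra R F.1)
  /-- a homology class of its centralizer -/
  z : HG (Subgroup.centralizer (F.1 : Set G)) n

/-- The symbol `[F, x, z]`. -/
noncomputable def symOf (F : FamSub G FinSub) (x : K0 (MonoidAlgebra R F.1))
    (z : HG (Subgroup.centralizer (F.1 : Set G)) n) : FreeAbelianGroup (Sym R G n) :=
  FreeAbelianGroup.of ⟨F, x, z⟩

/-- The relation of additivity in `x`. -/
noncomputable def symX (F : FamSub G FinSub) (x y : K0 (MonoidAlgebra R F.1))
    (z : HG (Subgroup.centralizer (F.1 : Set G)) n) : FreeAbelianGroup (Sym R G n) :=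
  symOf R G n F (x + y) z - (symOf R G n F x z + symOf R G n F y z)

/-- The relation of additivity in `z`. -/
noncomputable def symZ (F : FamSub G FinSub) (x : K0 (MonoidAlgebra R F.1))
    (z z' : HG (Subgroup.centralizer (F.1 : Set G)) n) : FreeAbelianGroup (Sym R G n) :=
  symOf R G n F x (z + z') - (symOf R G n F x z + symOf R G n F x z')

/-- The relation `[F', c_g(x), z'] = [F, x, c_{g⁻¹}(z')]`. -/
noncomputable def symC (F F' : FamSub G FinSub) (g : G) (h : ∀ x ∈ F.1, g * x * g⁻¹ ∈ F'.1)
    (x : K0 (MonoidAlgebra R F.1)) (z : HG (Subgroup.centralizer (F'.1 : Set G)) n) :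
    FreeAbelianGroup (Sym R G n) :=
  symOf R G n F' (K0.map (MonoidAlgebra.mapDomainRingHom R (conjHom g F.1 F'.1 h)) x) z -
    symOf R G n F x (HG.map n (centConj g F.1 F'.1 h) z)

/-- The relations. -/
noncomputable def SymRel : AddSubgroup (FreeAbelianGroup (Sym R G n)) :=
  AddSubgroup.closure
    ({w | ∃ F x y z, w = symX R G n F x y z} ∪ {w | ∃ F x z z', w = symZ R G n F x z z'} ∪
      {w | ∃ F F' g h x z, w = symC R G n F F' g h x z})

/-- The group generated by the symbols `[F, x, z]`. -/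
def HnK0 : Type (max u v) := FreeAbelianGroup (Sym R G n) ⧸ SymRel R G n

noncomputable instance instHnK0 : AddCommGroup (HnK0 R G n) :=
  QuotientAddGroup.Quotient.addCommGroup (SymRel R G n)

end

section

variable (R : Type u) [Ring R] (n : ℕ) {G : Type v} [Group G]

theorem cent_comm (F : Subgroup G) (z : Subgroup.centralizer (F : Set G)) (a : F) :
    F.subtype a * (Subgroup.centralizer (F : Set G)).subtype z =
      (Subgroup.centralizer (F : Set G)).subtype z * F.subtype a :=
  Subgroup.mem_centralizer_iff.1 z.2 a a.2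

/-- The value of the assembly map on a symbol. -/
noncomputable def symVal (s : Sym R G n) : KQ (MonoidAlgebra R G) n :=
  gasm R n s.F.1.subtype (Subgroup.centralizer (s.F.1 : Set G)).subtype (cent_comm s.F.1) s.x s.z

variable (G)

theorem symRel_le : SymRel R G n ≤ (FreeAbelianGroup.lift (symVal R n (G := G))).ker := by
  rw [SymRel, AddSubgroup.closure_le]
  rintro w ((⟨F, x, y, z, rfl⟩ | ⟨F, x, z, z', rfl⟩) | ⟨F, F', g, h, x, z, rfl⟩)
  · change FreeAbelianGroup.lift (symVal R n) _ = 0
    rw [symX, symOf, symOf, symOf, map_sub, map_add, FreeAbelianGroup.lift_apply_of,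
      FreeAbelianGroup.lift_apply_of, FreeAbelianGroup.lift_apply_of, symVal, symVal, symVal,
      map_add, AddMonoidHom.add_apply, sub_self]
  · change FreeAbelianGroup.lift (symVal R n) _ = 0
    rw [symZ, symOf, symOf, symOf, map_sub, map_add, FreeAbelianGroup.lift_apply_of,
      FreeAbelianGroup.lift_apply_of, FreeAbelianGroup.lift_apply_of, symVal, symVal, symVal,
      map_add, sub_self]
  · change FreeAbelianGroup.lift (symVal R n) _ = 0
    rw [symC, symOf, symOf, map_sub, FreeAbelianGroup.lift_apply_of,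
      FreeAbelianGroup.lift_apply_of, sub_eq_zero]
    change gasm R n F'.1.subtype (Subgroup.centralizer (F'.1 : Set G)).subtype (cent_comm F'.1)
        (K0.map (MonoidAlgebra.mapDomainRingHom R (conjHom g F.1 F'.1 h)) x) z =
      gasm R n F.1.subtype (Subgroup.centralizer (F.1 : Set G)).subtype (cent_comm F.1) x
        (HG.map n (centConj g F.1 F'.1 h) z)
    have h1 : ∀ (γ : Subgroup.centralizer (F'.1 : Set G)) (a : F.1),
        (F'.1.subtype.comp (conjHom g F.1 F'.1 h)) a *
          (Subgroup.centralizer (F'.1 : Set G)).subtype γ =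
        (Subgroup.centralizer (F'.1 : Set G)).subtype γ *
          (F'.1.subtype.comp (conjHom g F.1 F'.1 h)) a := fun γ a =>
      cent_comm F'.1 γ (conjHom g F.1 F'.1 h a)
    have h2 : ∀ (γ : Subgroup.centralizer (F'.1 : Set G)) (a : F.1),
        F.1.subtype a * ((Subgroup.centralizer (F.1 : Set G)).subtype.comp
          (centConj g F.1 F'.1 h)) γ =
        ((Subgroup.centralizer (F.1 : Set G)).subtype.comp (centConj g F.1 F'.1 h)) γ *
          F.1.subtype a := fun γ a => cent_comm F.1 (centConj g F.1 F'.1 h γ) a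
    rw [gasm_comp R n F'.1.subtype (conjHom g F.1 F'.1 h) _ (cent_comm F'.1) h1,
      gasm_map R n F.1.subtype _ (centConj g F.1 F'.1 h) (cent_comm F.1) h2]
    apply gasm_conj R n _ _ _ _ g
    · intro a
      rfl
    · intro γ
      change (γ : G) = g * (g⁻¹ * (γ : G) * g) * g⁻¹
      group

/-- **The assembly map.** -/
noncomputable def assemblyN : HnK0 R G n →+ KQ (MonoidAlgebra R G) n :=
  QuotientAddGroup.lift (SymRel R G n) (FreeAbelianGroup.lift (symVal R n)) (symRel_le R n G)

end

section Rational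

/-- The homomorphism `f` becomes injective after tensoring with `ℚ` over `ℤ`. -/
def RatInj {A : Type u} [AddCommGroup A] {B : Type v} [AddCommGroup B] (f : A →+ B) : Prop :=
  Function.Injective (LinearMap.lTensor ℚ f.toIntLinearMap)

end Rational

end Pool.Agent.H71.FQ

end

section

/-!
# Artin induction for `K₁(R[F]) ⊗ ℚ`

`R` is a commutative ring such that `R/nR` is finite for all `n ≥ 1`.
-/

set_option autoImplicit false

open Matrix
open scoped Classical

universe u v w

namespace Pool.Agent.H95.WH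

open Pool.Agent.H71.FJ (lamR twR incl)
open Pool.Agent.H71.FJ (tw tw_single)

variable (R : Type u) [CommRing R] (F : Type v) [Group F]

/-- The power condition. -/
def PowMod (A : Type w) [Ring A] : Prop :=
  ∀ n : ℕ, n ≠ 0 → ∀ (k : ℕ) (U : (Matrix (Fin k) (Fin k) A)ˣ),
    ∃ (m : ℕ) (Z : Matrix (Fin k) (Fin k) A), 0 < m ∧
      ((U ^ m : (Matrix (Fin k) (Fin k) A)ˣ) : Matrix (Fin k) (Fin k) A) = 1 + (n : ℤ) • Z

theorem twR_inter {X Y : Type v} [Fintype X] [Fintype Y] [DecidableEq X] [DecidableEq Y]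
    [MulAction F X] [MulAction F Y]
    (a : Matrix X Y ℤ) (ha : ∀ (h : F) x y, a (h • x) (h • y) = a x y)
    (r : MonoidAlgebra R F) :
    twR R X r * a.map (Int.castRingHom (MonoidAlgebra R F)) =
      a.map (Int.castRingHom (MonoidAlgebra R F)) * twR R Y r := by
  induction r using MonoidAlgebra.induction_linear with
  | zero => rw [map_zero, map_zero, Matrix.zero_mul, Matrix.mul_zero]
  | add s t hs ht => rw [map_add, map_add, Matrix.add_mul, Matrix.mul_add, hs, ht]
  | single h r =>
    refine Matrix.ext fun x y => ?_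
    rw [Matrix.mul_apply, Matrix.mul_apply]
    have e1 : ∀ z : X, twR R X (MonoidAlgebra.single h r) x z =
        if x = h • z then MonoidAlgebra.single h r else 0 := fun z => tw_single R X h r x z
    have e2 : ∀ z : Y, twR R Y (MonoidAlgebra.single h r) z y =
        if z = h • y then MonoidAlgebra.single h r else 0 := fun z => tw_single R Y h r z y
    rw [Finset.sum_eq_single (h⁻¹ • x), Finset.sum_eq_single (h • y)]
    · rw [e1, e2, if_pos rfl, if_pos (smul_inv_smul h x).symm, Matrix.map_apply, Matrix.map_apply,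
        ← ha h (h⁻¹ • x) y, smul_inv_smul]
      change _ * ((a x (h • y) : ℤ) : MonoidAlgebra R F) =
        ((a x (h • y) : ℤ) : MonoidAlgebra R F) * _
      exact (Int.cast_commute _ _).symm.eq
    · intro z _ hz
      rw [e2, if_neg hz, mul_zero]
    · intro hz
      exact absurd (Finset.mem_univ _) hz
    · intro z _ hz
      rw [e1, if_neg, zero_mul]
      intro e
      exact hz (by rw [e, inv_smul_smul])
    · intro hz
      exact absurd (Finset.mem_univ _) hz

/-- Families indexed by a finite type. -/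
theorem art_enum {K : Type} [Fintype K] (D : K → Subgroup F)
    (y : ∀ i, K1 (MonoidAlgebra R (D i))) (hD : ∀ i, IsCyclic (D i)) (z : K1 (MonoidAlgebra R F))
    (hz : z = ∑ i, K1.map (incl R (D i)) (y i)) :
    ∃ (r : ℕ) (D : Fin r → Subgroup F) (y : ∀ i, K1 (MonoidAlgebra R (D i))),
      (∀ i, IsCyclic (D i)) ∧ z = ∑ i, K1.map (incl R (D i)) (y i) :=
  ⟨Fintype.card K, fun i => D ((Fintype.equivFin K).symm i),
    fun i => y ((Fintype.equivFin K).symm i), fun i => hD _, by
      rw [hz]
      exact (Equiv.sum_comp (Fintype.equivFin K).symm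
        (fun i => K1.map (incl R (D i)) (y i))).symm⟩

theorem inter_tw {X Y : Type v} [Fintype X] [Fintype Y] [DecidableEq X] [DecidableEq Y]
    [MulAction F X] [MulAction F Y]
    (hpow : PowMod (MonoidAlgebra R F)) (n : ℕ) (hn : n ≠ 0) (a : Matrix X Y ℤ) (b : Matrix Y X ℤ)
    (hab : a * b = (n : ℤ) • (1 : Matrix X X ℤ)) (hba : b * a = (n : ℤ) • (1 : Matrix Y Y ℤ))
    (ha : ∀ (h : F) x y, a (h • x) (h • y) = a x y) (x : K1 (MonoidAlgebra R F)) :
    ∃ m : ℕ, 0 < m ∧ m • K1.push (twR R X) x = m • K1.push (twR R Y) x :=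
  inter (R := MonoidAlgebra R F) (S := MonoidAlgebra R F) (twR R X) (twR R Y) (n : ℤ) a b hab hba
    (twR_inter R F a ha) (fun k U => hpow n hn k U) x

/-- Rationally isomorphic permutation lattices act in the same way up to torsion. -/
def InterP : Prop :=
  ∀ {X Y : Type v} [Fintype X] [Fintype Y] [DecidableEq X] [DecidableEq Y]
    [MulAction F X] [MulAction F Y] (n : ℕ) (_ : n ≠ 0) (a : Matrix X Y ℤ) (b : Matrix Y X ℤ)
    (_ : a * b = (n : ℤ) • (1 : Matrix X X ℤ)) (_ : b * a = (n : ℤ) • (1 : Matrix Y Y ℤ))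
    (_ : ∀ (h : F) x y, a (h • x) (h • y) = a x y) (x : K1 (MonoidAlgebra R F)),
    ∃ m : ℕ, 0 < m ∧ m • K1.push (twR R X) x = m • K1.push (twR R Y) x

private theorem artR_div (n : ℕ) (r : MonoidAlgebra R F)
    (h : MonoidAlgebra.mapRingHom F (Ideal.Quotient.mk (Ideal.span {(n : R)})) r = 0) :
    ∃ z : MonoidAlgebra R F, r = (n : ℤ) • z := by
  have h0 : ∀ t : R, ∃ z : R, Ideal.Quotient.mk (Ideal.span {(n : R)}) t = 0 → t = (n : R) * z := by
    intro t
    by_cases ht : Ideal.Quotient.mk (Ideal.span {(n : R)}) t = 0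
    · rw [Ideal.Quotient.eq_zero_iff_mem, Ideal.mem_span_singleton] at ht
      obtain ⟨z, hz⟩ := ht
      exact ⟨z, fun _ => hz⟩
    · exact ⟨0, fun h => absurd h ht⟩
  choose f hf using h0
  let g : R → R := fun t => if t = 0 then 0 else f t
  refine ⟨MonoidAlgebra.ofCoeff (r.coeff.mapRange g (by simp [g])), ?_⟩
  ext x
  have h1 : (MonoidAlgebra.mapRingHom F (Ideal.Quotient.mk (Ideal.span {(n : R)})) r).coeff x = 0 := by
    rw [h]
    rfl
  rw [MonoidAlgebra.coeff_mapRingHom] at h1
  change r.coeff x = (n : ℤ) • (g (r.coeff x))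
  by_cases h2 : r.coeff x = 0
  · simp [h2, g]
  · simp only [g, if_neg h2, natCast_zsmul, nsmul_eq_mul]
    exact hf _ h1

theorem powMod_of_finite [Finite F] (hR : ∀ n : ℕ, n ≠ 0 → Finite (R ⧸ Ideal.span {(n : R)})) :
    PowMod (MonoidAlgebra R F) := by
  intro n hn k U
  have hfin := hR n hn
  let f := MonoidAlgebra.mapRingHom F (Ideal.Quotient.mk (Ideal.span {(n : R)}))
  have h1 : Finite (MonoidAlgebra (R ⧸ Ideal.span {(n : R)}) F) :=
    Finite.of_injective (fun x : MonoidAlgebra (R ⧸ Ideal.span {(n : R)}) F =>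
      (⇑x.coeff : F → R ⧸ Ideal.span {(n : R)}))
      (DFunLike.coe_injective.comp MonoidAlgebra.coeff_injective)
  have h2 : Finite (Matrix (Fin k) (Fin k) (MonoidAlgebra (R ⧸ Ideal.span {(n : R)}) F)) :=
    inferInstanceAs (Finite (Fin k → Fin k → MonoidAlgebra (R ⧸ Ideal.span {(n : R)}) F))
  let u := K1.mapU f U
  have hm : 0 < orderOf u := orderOf_pos u
  have hu : u ^ orderOf u = 1 := pow_orderOf_eq_one u
  have hu2 : K1.mapU f (U ^ orderOf u) = 1 := by
    rw [map_pow]
    exact hu
  have hu3 : ((U ^ orderOf u : (Matrix (Fin k) (Fin k) (MonoidAlgebra R F))ˣ) :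
      Matrix (Fin k) (Fin k) (MonoidAlgebra R F)).map f = 1 := congrArg Units.val hu2
  have hu4 : ∀ i j, ∃ z : MonoidAlgebra R F,
      (((U ^ orderOf u : (Matrix (Fin k) (Fin k) (MonoidAlgebra R F))ˣ) :
      Matrix (Fin k) (Fin k) (MonoidAlgebra R F)) - 1) i j = (n : ℤ) • z := by
    intro i j
    apply artR_div
    change f _ = 0
    have e := congrFun (congrFun hu3 i) j
    rw [Matrix.map_apply] at e
    rw [Matrix.sub_apply, map_sub, e, Matrix.one_apply, Matrix.one_apply]
    split_ifs
    · rw [map_one, sub_self]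
    · rw [map_zero, sub_zero]
  choose Z hZ using hu4
  refine ⟨orderOf u, Matrix.of Z, hm, ?_⟩
  rw [← sub_eq_iff_eq_add']
  refine Matrix.ext fun i j => ?_
  exact hZ i j

end Pool.Agent.H95.WH

end
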