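import Mathlib

/-! The parts of this file: H71.CZ.Dt, H71.CZ.Wr, H71.WH.Log, H71.KP.Log, H71.KP.Log2, H71.WH.Log2. -/

section

/-!
# Project CZ: the rings `D~` and `D` of a ring with a cyclic shift

`M` a ring with an endomorphism `s`, `s ^ p = 1`, `N(z) = ∑_{j < p} s^j z`.  `D~` is the ring of the elements `b + z Σ`, `s b = b`,
`Σ = ∑ π^j`, in the twisted group ring; it is written as the ring of the matrices `[[b + N z, 0], [z, b]]`:
`(b + z Σ)(b' + z' Σ) = b b' + (z (b' + N z') + b z') Σ`.  `D` is the ring of the pairs `(b + N z, b)`.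

PROOFS.  `nm_s`, `s_nm`, `nm_mul_left`, `nm_mul_right`: direct.  Closure of `Dt`, `Dd` under products: `N(z α' + b z') = N(z) α' + b N(z')`
for `s α' = α'`, `s b = b`, and `(b + N z) α' = b b' + b N z' + N(z) α'` with `α' = b' + N z'`.
`isUnit_lift`: the kernel of `pr` is the set of the matrices `[[0, 0], [z, 0]]` with `N z = 0`, its square is `0`; if `pr X pr Y = 1 = pr Y pr X`
then `X Y = 1 + k`, `k² = 0`.
`ckill`: `t` is the inverse of `X₁ = [[1 + p, 0], [1, 1]]` (inverse `[[c, 0], [-c, 1]]`, `(p + 1) c = 1`).  The kernel of `Units.map pr` consists of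
the `[[1, 0], [z, 1]]`, `N z = 0`: products add the `z`, powers multiply it, `t X t⁻¹ = [[1, 0], [(p + 1) z, 1]]`.
`toS`: `π ^ j * ι m = ι (s^j m) * π ^ j`, so `Σ * ι m * Σ = ι (N m) * Σ` (`Σ * Σ` etc.: `π * Σ = Σ`), `Σ * ι b = ι b * Σ` for `s b = b`.
-/

set_option autoImplicit false

universe u v w

namespace Pool.Agent.H71.CZ

/-- a ring endomorphism whose `p`-th power is the identity -/
structure Sh (p : ℕ) (M : Type u) [Ring M] where
  /-- the endomorphism -/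
  s : M →+* M
  iter : ∀ x, (s : M → M)^[p] x = x

section

variable {p : ℕ} {M : Type u} [Ring M] (σ : Sh p M)

/-- the norm -/
def Sh.nm : M →+ M where
  toFun z := ∑ j ∈ Finset.range p, (σ.s : M → M)^[j] z
  map_zero' := Finset.sum_eq_zero fun j _ => iterate_map_zero σ.s j
  map_add' x y := by
    rw [← Finset.sum_add_distrib]
    exact Finset.sum_congr rfl fun j _ => iterate_map_add σ.s j x y

theorem Sh.nm_apply (z : M) : σ.nm z = ∑ j ∈ Finset.range p, (σ.s : M → M)^[j] z := rfl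

end

end Pool.Agent.H71.CZ

end

section

/-!
# Project CZ: the wreath product `G ≀ C_p`

`Wr p G = G^p ⋊ C_p`, `sg * inc g * sg⁻¹ = inc (shG g)`, `(shG g) i = g (i + 1)`; `hat c = inc (c, 1, …, 1) * sg`, `hat c ^ p = inc (c, …, c)`.

PROOFS.  `inc_sg_pow`: `(inc a * sg) ^ k = inc (∏_{j < k} shG^j a) * sg ^ k` (product in this order).  `hat_pow`: for `a = (c at 0)` the product of
the `(shG^j a) i = a (i + j)`, `j < p`, has exactly one factor `≠ 1` for each `i`.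
`conj_hat`: `h : ZMod p → G`; with `P = h_0 h_1 ⋯ h_{p-1}` (in the order `h 0, h 1, …`) `inc h * sg` is conjugate to `hat P` by `inc k`:
`inc k * hat P * (inc k)⁻¹ = inc (k * (P at 0) * (shG k)⁻¹) * sg`, so solve `k i * (P at 0) i * k (i + 1)⁻¹ = h i`: `k (i + 1) = h i ⁻¹ k i` for
`i ≠ 0`, `k 1 = h 0 ⁻¹ k 0 P`; take `k 0 = 1`, then `k 1 = h 0⁻¹ P = h 1 ⋯ h (p-1)`, …, `k i = h i h (i+1) ⋯ h (p-1)` for `1 ≤ i < p`, `k p = 1 = k 0`.
If `u P u⁻¹ = c` then `inc (u, …, u)` conjugates `hat P` to `hat c`.  Conversely `y (inc h * sg) y⁻¹ = hat c`, `y = inc k * sg ^ j`: take `p`-th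
powers: `inc (cyclic rotations of the product h_i h_{i+1} ⋯ h_{i-1})` is conjugate to `inc (c, …, c)`.
-/

set_option autoImplicit false

universe u v w

namespace Pool.Agent.H71.CZ

section

variable (p : ℕ) (G : Type v) [Group G]

/-- the action of the cyclic group on the tuples -/
def actW : Multiplicative (ZMod p) →* MulAut (ZMod p → G) where
  toFun a :=
    { toFun := fun g i => g (i + a.toAdd)
      invFun := fun g i => g (i - a.toAdd)
      left_inv := fun g => funext fun i => by simp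
      right_inv := fun g => funext fun i => by simp
      map_mul' := fun _ _ => rfl }
  map_one' := by
    ext g i
    simp
  map_mul' a b := by
    ext g i
    simp only [MulEquiv.coe_mk, Equiv.coe_fn_mk, toAdd_mul, MulAut.mul_apply]
    congr 1
    abel

/-- The wreath product `G ≀ C_p`. -/
abbrev Wr : Type v := (ZMod p → G) ⋊[actW p G] Multiplicative (ZMod p)

/-- the inclusion of `G^p` -/
def inc : (ZMod p → G) →* Wr p G := SemidirectProduct.inl

/-- the shift -/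
def shG : (ZMod p → G) →* (ZMod p → G) where
  toFun g i := g (i + 1)
  map_one' := rfl
  map_mul' _ _ := rfl

/-- the generator of `C_p` -/
def sg : Wr p G := SemidirectProduct.inr (Multiplicative.ofAdd (1 : ZMod p))

/-- the diagonal -/
def dgG : G →* (ZMod p → G) where
  toFun g _ := g
  map_one' := rfl
  map_mul' _ _ := rfl

variable {p G}

theorem shG_apply (g : ZMod p → G) (i : ZMod p) : shG p G g i = g (i + 1) := rfl

theorem sg_mul_inc (g : ZMod p → G) : sg p G * inc p G g = inc p G (shG p G g) * sg p G := by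
  have h : (SemidirectProduct.inl (actW p G (Multiplicative.ofAdd (1 : ZMod p)) g) : Wr p G) = sg p G * inc p G g * (sg p G)⁻¹ := by
    rw [SemidirectProduct.inl_aut]
    unfold sg inc
    rw [map_inv]
  have h2 : (SemidirectProduct.inl (actW p G (Multiplicative.ofAdd (1 : ZMod p)) g) : Wr p G) = inc p G (shG p G g) := rfl
  rw [← h2, h, inv_mul_cancel_right]

/-- the powers of the generator -/
theorem sg_pow_nat (k : ℕ) : sg p G ^ k = SemidirectProduct.inr (Multiplicative.ofAdd (k : ZMod p)) := by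
  unfold sg
  rw [← map_pow, ← ofAdd_nsmul, nsmul_one]

theorem sg_pow : sg p G ^ p = 1 := by
  rw [sg_pow_nat, ZMod.natCast_self, ofAdd_zero, map_one]

end

end Pool.Agent.H71.CZ

end

section

/-!
# The trace of the `2`-adic logarithm

For a ring `R`, a homomorphism `τ : R → ℤ` and `x ∈ 2 R` let
`tl τ x = ∑ (-1)^k τ(x^(k+1)) / (k+1)`, the value of `τ` on `log (1 + x)`. If `τ` is a trace then
`tl τ` is additive: `tl τ (x + y + x y) = tl τ x + tl τ y`.
-/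

set_option autoImplicit false

open Polynomial

universe u v

namespace Pool.Agent.H71.WH

theorem norm_inv_le (k : ℕ) : ‖((k : ℚ_[2]) + 1)⁻¹‖ ≤ 2 * ((k : ℝ) + 1) := by
  have h0 : ((k : ℚ_[2]) + 1) ≠ 0 := by exact_mod_cast Nat.succ_ne_zero k
  rw [norm_inv]
  have hlt : ((2 : ℝ) ^ (Nat.log 2 (k + 1) + 1))⁻¹ < ‖((k : ℚ_[2]) + 1)‖ := by
    by_contra hcon
    push Not at hcon
    have h1 : ‖(((k + 1 : ℕ) : ℤ) : ℚ_[2])‖ ≤ ((2 : ℕ) : ℝ) ^ (-((Nat.log 2 (k + 1) + 1 : ℕ) : ℤ)) := by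
      rw [zpow_neg, zpow_natCast]
      push_cast
      exact hcon
    rw [Padic.norm_int_le_pow_iff_dvd] at h1
    have h2 : (2 ^ (Nat.log 2 (k + 1) + 1) : ℕ) ∣ (k + 1) := by exact_mod_cast h1
    have h3 := Nat.le_of_dvd (Nat.succ_pos k) h2
    have h4 := Nat.lt_pow_succ_log_self (b := 2) (by norm_num) (k + 1)
    omega
  have hpos : (0 : ℝ) < ((2 : ℝ) ^ (Nat.log 2 (k + 1) + 1))⁻¹ := by positivity
  have h5 : ‖((k : ℚ_[2]) + 1)‖⁻¹ ≤ (2 : ℝ) ^ (Nat.log 2 (k + 1) + 1) := by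
    rw [inv_le_comm₀ (lt_trans hpos hlt) (by positivity)]
    exact hlt.le
  refine h5.trans ?_
  rw [pow_succ, mul_comm]
  have h6 : 2 ^ (Nat.log 2 (k + 1)) ≤ k + 1 := Nat.pow_log_le_self 2 (Nat.succ_ne_zero k)
  have h7 : ((2 : ℝ) ^ (Nat.log 2 (k + 1))) ≤ (k : ℝ) + 1 := by exact_mod_cast h6
  linarith

theorem norm_int_le {m : ℕ} {z : ℤ} (h : (2 ^ m : ℤ) ∣ z) : ‖(z : ℚ_[2])‖ ≤ ((2 : ℝ) ^ m)⁻¹ := by
  have := (Padic.norm_int_le_pow_iff_dvd (p := 2) z m).2 (by exact_mod_cast h)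
  rw [zpow_neg, zpow_natCast] at this
  exact_mod_cast this

variable {R : Type u} [Ring R]

/-- a term of the series of the logarithm -/
noncomputable def tlTerm (τ : R →+ ℤ) (x : R) (k : ℕ) : ℚ_[2] :=
  (-1) ^ k * (τ (x ^ (k + 1)) : ℚ_[2]) / (k + 1)

/-- `τ (log (1 + x))` -/
noncomputable def tl (τ : R →+ ℤ) (x : R) : ℚ_[2] := ∑' k, tlTerm τ x k

theorem two_pow_comm (n : ℕ) (x : R) : (2 : R) ^ n * x = x * 2 ^ n :=
  ((Commute.ofNat_left 2 x).pow_left n).eq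

theorem two_mul_pow (x : R) (k : ℕ) : (2 * x) ^ k = 2 ^ k * x ^ k :=
  (Commute.ofNat_left 2 x).mul_pow k

theorem map_two_pow_mul (τ : R →+ ℤ) (n : ℕ) (x : R) : τ (2 ^ n * x) = 2 ^ n * τ x := by
  have : (2 : R) ^ n * x = (2 ^ n : ℕ) • x := by
    rw [nsmul_eq_mul]
    push_cast
    rfl
  rw [this, map_nsmul, nsmul_eq_mul]
  push_cast
  rfl

theorem norm_term_le {z : ℤ} {m k : ℕ} (h : (2 ^ m : ℤ) ∣ z) :
    ‖(-1 : ℚ_[2]) ^ k * (z : ℚ_[2]) / (k + 1)‖ ≤ ((2 : ℝ) ^ m)⁻¹ * (2 * (k + 1)) := by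
  rw [div_eq_mul_inv, norm_mul, norm_mul, norm_pow, norm_neg, norm_one, one_pow, one_mul]
  exact mul_le_mul (norm_int_le h) (norm_inv_le k) (norm_nonneg _) (by positivity)

theorem summable_aux : Summable fun k : ℕ => ((2 : ℝ) ^ (k + 1))⁻¹ * (2 * (k + 1)) := by
  have h1 := summable_pow_mul_geometric_of_norm_lt_one (R := ℝ) 1
    (show ‖(1 / 2 : ℝ)‖ < 1 by norm_num)
  have h2 := summable_pow_mul_geometric_of_norm_lt_one (R := ℝ) 0
    (show ‖(1 / 2 : ℝ)‖ < 1 by norm_num)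
  refine (h1.add h2).congr ?_
  intro k
  rw [pow_succ (2 : ℝ) k, mul_inv, one_div, inv_pow]
  ring

theorem tl_summable (τ : R →+ ℤ) (x : R) : Summable (tlTerm τ (2 * x)) := by
  refine Summable.of_norm_bounded summable_aux ?_
  intro k
  apply norm_term_le
  rw [two_mul_pow, map_two_pow_mul]
  exact dvd_mul_right _ _

/-- the double family -/
noncomputable def dbl (τ : R →+ ℤ) (A : R[X]) (p : ℕ × ℕ) : ℚ_[2] :=
  (-1) ^ p.2 * ((2 ^ (p.1 + 1) * τ ((A ^ (p.2 + 1)).coeff (p.1 + 1)) : ℤ) : ℚ_[2]) / (p.2 + 1)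

/-- evaluation at the central element `2` -/
noncomputable def ev (R : Type u) [Ring R] : R[X] →+* R :=
  eval₂RingHom' (RingHom.id R) (2 : R) (fun a => (Commute.ofNat_right a 2))

theorem ev_mul_pow (z : R) (j : ℕ) : ev R (C z * X ^ j) = z * 2 ^ j := by
  change eval₂ (RingHom.id R) 2 (C z * X ^ j) = _
  rw [eval₂_mul_noncomm _ _ (fun k => Commute.ofNat_right _ 2), eval₂_C, eval₂_X_pow]
  rfl

/-- the polynomial of the formal identity -/
noncomputable def poly (x y : R) : R[X] := C x * X + C y * X + C (x * y) * X ^ 2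

theorem poly_zero (x y : R) : (poly x y).coeff 0 = 0 := by simp [poly]

theorem ev_poly (x y : R) : ev R (poly x y) = 2 * x + 2 * y + 2 * x * (2 * y) := by
  have e2 := ev_mul_pow x 1
  have e3 := ev_mul_pow y 1
  have e4 := ev_mul_pow (x * y) 2
  simp only [pow_one] at e2 e3
  rw [poly, map_add, map_add, e2, e3, e4]
  have c1 : x * 2 = 2 * x := (Commute.ofNat_right x 2).eq
  have c2 : y * 2 = 2 * y := (Commute.ofNat_right y 2).eq
  have c3 : x * y * 2 ^ 2 = 2 * x * (2 * y) := by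
    rw [pow_two, ← mul_assoc, mul_assoc x y 2, c2, ← mul_assoc, c1, mul_assoc (2 * x) y 2, c2]
  rw [c1, c2, c3]

end Pool.Agent.H71.WH

end

section

/-!
# The trace of the `p`-adic logarithm

Let `c` be a central element of a ring `R` such that `c ^ (k + 1)` is a multiple of
`p ^ (k / (p - 1))` for all `k`. For a homomorphism `τ : R → ℤ_[p]` and `x ∈ c R` let
`tl τ x = ∑ (-1)^k τ(x^(k+1)) / (k+1)`, the value of `τ` on `log (1 + x)`. If `τ` is a trace then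
`tl τ (x + y + x y) = tl τ x + tl τ y`.
-/

set_option autoImplicit false
set_option linter.unusedSectionVars false

open Polynomial
open Pool.Agent.H71.WH (poly poly_zero)

universe u v

namespace Pool.Agent.H71.KP

variable {p : ℕ} [hp : Fact p.Prime]

theorem norm_inv_le (k : ℕ) : ‖((k : ℚ_[p]) + 1)⁻¹‖ ≤ p * ((k : ℝ) + 1) := by
  have hp1 := hp.out.one_lt
  have hp0 : (0 : ℝ) < p := by exact_mod_cast hp.out.pos
  have h0 : ((k : ℚ_[p]) + 1) ≠ 0 := by exact_mod_cast Nat.succ_ne_zero k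
  rw [norm_inv]
  have hlt : ((p : ℝ) ^ (Nat.log p (k + 1) + 1))⁻¹ < ‖((k : ℚ_[p]) + 1)‖ := by
    by_contra hcon
    push Not at hcon
    have h1 : ‖(((k + 1 : ℕ) : ℤ) : ℚ_[p])‖ ≤ (p : ℝ) ^ (-((Nat.log p (k + 1) + 1 : ℕ) : ℤ)) := by
      rw [zpow_neg, zpow_natCast]
      push_cast
      exact hcon
    rw [Padic.norm_int_le_pow_iff_dvd] at h1
    have h2 : (p ^ (Nat.log p (k + 1) + 1) : ℕ) ∣ (k + 1) := by exact_mod_cast h1
    have h3 := Nat.le_of_dvd (Nat.succ_pos k) h2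
    have h4 := Nat.lt_pow_succ_log_self (b := p) hp1 (k + 1)
    rw [Nat.succ_eq_add_one] at h4
    omega
  have hpos : (0 : ℝ) < ((p : ℝ) ^ (Nat.log p (k + 1) + 1))⁻¹ := by positivity
  have h5 : ‖((k : ℚ_[p]) + 1)‖⁻¹ ≤ (p : ℝ) ^ (Nat.log p (k + 1) + 1) := by
    rw [inv_le_comm₀ (lt_trans hpos hlt) (by positivity)]
    exact hlt.le
  refine h5.trans ?_
  rw [pow_succ, mul_comm]
  have h6 : p ^ (Nat.log p (k + 1)) ≤ k + 1 := Nat.pow_log_le_self p (Nat.succ_ne_zero k)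
  have h7 : ((p : ℝ) ^ (Nat.log p (k + 1))) ≤ (k : ℝ) + 1 := by exact_mod_cast h6
  exact mul_le_mul_of_nonneg_left h7 hp0.le

theorem norm_le_of_dvd {m : ℕ} {z : ℤ_[p]} (h : (p : ℤ_[p]) ^ m ∣ z) :
    ‖(z : ℚ_[p])‖ ≤ ((p : ℝ) ^ m)⁻¹ := by
  obtain ⟨w, rfl⟩ := h
  rw [PadicInt.coe_mul, PadicInt.coe_pow, PadicInt.coe_natCast, norm_mul, norm_pow,
    Padic.norm_p, inv_pow]
  have h1 : ‖(w : ℚ_[p])‖ ≤ 1 := w.2
  have h2 : (0 : ℝ) ≤ ((p : ℝ) ^ m)⁻¹ := by positivity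
  calc ((p : ℝ) ^ m)⁻¹ * ‖(w : ℚ_[p])‖ ≤ ((p : ℝ) ^ m)⁻¹ * 1 := mul_le_mul_of_nonneg_left h1 h2
    _ = _ := mul_one _

theorem norm_term_le {z : ℤ_[p]} {m k : ℕ} (h : (p : ℤ_[p]) ^ m ∣ z) :
    ‖(-1 : ℚ_[p]) ^ k * (z : ℚ_[p]) / (k + 1)‖ ≤ ((p : ℝ) ^ m)⁻¹ * (p * (k + 1)) := by
  rw [div_eq_mul_inv, norm_mul, norm_mul, norm_pow, norm_neg, norm_one, one_pow, one_mul]
  exact mul_le_mul (norm_le_of_dvd h) (norm_inv_le k) (norm_nonneg _) (by positivity)

section Real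

theorem exists_root (q : ℕ) (hq : 0 < q) : ∃ r : ℝ, 0 < r ∧ r < 1 ∧ r ^ (2 * q) = 1 / 2 := by
  refine ⟨(1 / 2 : ℝ) ^ ((1 : ℝ) / (2 * q : ℕ)), by positivity, ?_, ?_⟩
  · apply Real.rpow_lt_one (by norm_num) (by norm_num)
    have : (0 : ℝ) < ((2 * q : ℕ) : ℝ) := by exact_mod_cast (by omega : 0 < 2 * q)
    positivity
  · rw [← Real.rpow_natCast, ← Real.rpow_mul (by norm_num)]
    have : ((2 * q : ℕ) : ℝ) ≠ 0 := by exact_mod_cast (by omega : 2 * q ≠ 0)
    rw [one_div_mul_cancel this, Real.rpow_one]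

theorem pow_bound {q : ℕ} (hq : 0 < q) {r : ℝ} (h0 : 0 < r) (h1 : r < 1)
    (h : r ^ (2 * q) = 1 / 2) {b : ℝ} (hb : 2 ≤ b) (m : ℕ) :
    (b ^ (m / q))⁻¹ ≤ 2 * r ^ (2 * m) := by
  have e1 : (b ^ (m / q))⁻¹ ≤ ((2 : ℝ) ^ (m / q))⁻¹ := by
    apply inv_anti₀ (by positivity)
    exact pow_le_pow_left₀ (by norm_num) hb _
  refine e1.trans ?_
  have e2 : ((2 : ℝ) ^ (m / q))⁻¹ = r ^ (2 * (q * (m / q))) := by
    rw [← mul_assoc, pow_mul, h, one_div, inv_pow]
  have e3 : 2 * r ^ (2 * m) = r ^ (2 * (q * (m / q))) * (2 * r ^ (2 * (m % q))) := by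
    rw [mul_left_comm, ← pow_add, ← mul_add, Nat.div_add_mod]
  have e4 : (1 : ℝ) ≤ 2 * r ^ (2 * (m % q)) := by
    have : r ^ (2 * q) ≤ r ^ (2 * (m % q)) :=
      pow_le_pow_of_le_one h0.le h1.le (Nat.mul_le_mul_left 2 (Nat.mod_lt m hq).le)
    rw [h] at this
    linarith
  rw [e2, e3]
  exact le_mul_of_one_le_right (by positivity) e4

theorem summable_succ {r : ℝ} (h0 : 0 < r) (h1 : r < 1) :
    Summable fun k : ℕ => ((k : ℝ) + 1) * r ^ k := by
  have hr : ‖r‖ < 1 := by rw [Real.norm_of_nonneg h0.le]; exact h1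
  have s1 := summable_pow_mul_geometric_of_norm_lt_one (R := ℝ) 1 hr
  have s2 := summable_pow_mul_geometric_of_norm_lt_one (R := ℝ) 0 hr
  refine (s1.add s2).congr ?_
  intro k
  ring

end Real

variable {R : Type u} [Ring R]

/-- Central elements whose powers are highly divisible by `p`. -/
structure Cen (p : ℕ) (c : R) : Prop where
  comm : ∀ x, c * x = x * c
  pow : ∀ k, ∃ d, c ^ (k + 1) = (p : R) ^ (k / (p - 1)) * d

/-- a term of the series of the logarithm -/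
noncomputable def tlTerm (τ : R →+ ℤ_[p]) (x : R) (k : ℕ) : ℚ_[p] :=
  (-1) ^ k * (τ (x ^ (k + 1)) : ℚ_[p]) / (k + 1)

/-- `τ (log (1 + x))` -/
noncomputable def tl (τ : R →+ ℤ_[p]) (x : R) : ℚ_[p] := ∑' k, tlTerm τ x k

omit hp in
theorem p_comm (x : R) : (p : R) * x = x * p := (Nat.cast_commute p x).eq

omit hp in
theorem p_pow_comm (n : ℕ) (x : R) : (p : R) ^ n * x = x * (p : R) ^ n :=
  ((Nat.cast_commute p x).pow_left n).eq

theorem map_p_pow_mul (τ : R →+ ℤ_[p]) (n : ℕ) (x : R) :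
    τ ((p : R) ^ n * x) = (p : ℤ_[p]) ^ n * τ x := by
  have : (p : R) ^ n * x = (p ^ n : ℕ) • x := by
    rw [nsmul_eq_mul]
    push_cast
    rfl
  rw [this, map_nsmul, nsmul_eq_mul]
  push_cast
  rfl

theorem map_p_mul (τ : R →+ ℤ_[p]) (x : R) : τ ((p : R) * x) = (p : ℤ_[p]) * τ x := by
  have := map_p_pow_mul τ 1 x
  rwa [pow_one, pow_one] at this

theorem Cen.mul_pow {c : R} (hc : Cen p c) (x : R) (k : ℕ) : (c * x) ^ k = c ^ k * x ^ k :=
  (show Commute c x from hc.comm x).mul_pow k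

theorem Cen.pow_comm {c : R} (hc : Cen p c) (x : R) (k : ℕ) : c ^ k * x = x * c ^ k :=
  ((show Commute c x from hc.comm x).pow_left k).eq

theorem Cen.dvd {c : R} (hc : Cen p c) (τ : R →+ ℤ_[p]) (k : ℕ) (x : R) :
    (p : ℤ_[p]) ^ (k / (p - 1)) ∣ τ (c ^ (k + 1) * x) := by
  obtain ⟨d, hd⟩ := hc.pow k
  rw [hd, mul_assoc, map_p_pow_mul]
  exact dvd_mul_right _ _

/-- the number `p` itself -/
theorem cen_p : Cen p (p : R) where
  comm := p_comm
  pow k := by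
    have h1 := hp.out.two_le
    have h : k / (p - 1) ≤ k + 1 := by
      calc k / (p - 1) ≤ k := Nat.div_le_self _ _
        _ ≤ k + 1 := Nat.le_succ k
    exact ⟨(p : R) ^ (k + 1 - k / (p - 1)), by rw [← pow_add, Nat.add_sub_cancel' h]⟩

theorem tl_summable (τ : R →+ ℤ_[p]) {c : R} (hc : Cen p c) (x : R) :
    Summable (tlTerm τ (c * x)) := by
  have hp2 : (2 : ℝ) ≤ p := by exact_mod_cast hp.out.two_le
  have hq : 0 < p - 1 := Nat.sub_pos_of_lt hp.out.one_lt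
  obtain ⟨r, h0, h1, hr⟩ := exists_root (p - 1) hq
  have hs : Summable fun k : ℕ => (2 * p : ℝ) * (((k : ℝ) + 1) * r ^ k) :=
    (summable_succ h0 h1).mul_left _
  refine Summable.of_norm_bounded hs ?_
  intro k
  have e1 : ‖tlTerm τ (c * x) k‖ ≤ ((p : ℝ) ^ (k / (p - 1)))⁻¹ * (p * (k + 1)) := by
    apply norm_term_le
    rw [hc.mul_pow]
    exact hc.dvd τ k _
  refine e1.trans ?_
  have e2 := pow_bound hq h0 h1 hr hp2 k
  have e3 : r ^ (2 * k) ≤ r ^ k := pow_le_pow_of_le_one h0.le h1.le (by omega)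
  calc ((p : ℝ) ^ (k / (p - 1)))⁻¹ * (p * (k + 1)) ≤ (2 * r ^ k) * (p * (k + 1)) := by
        apply mul_le_mul_of_nonneg_right _ (by positivity)
        linarith
    _ = _ := by ring

/-- the double family -/
noncomputable def dbl (τ : R →+ ℤ_[p]) (c : R) (A : R[X]) (m : ℕ × ℕ) : ℚ_[p] :=
  (-1) ^ m.2 * (τ (c ^ (m.1 + 1) * (A ^ (m.2 + 1)).coeff (m.1 + 1)) : ℚ_[p]) / (m.2 + 1)

/-- evaluation at a central element -/
noncomputable def ev {c : R} (hc : Cen p c) : R[X] →+* R :=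
  eval₂RingHom' (RingHom.id R) c (fun a => (show Commute c a from hc.comm a).symm)

theorem ev_mul_pow {c : R} (hc : Cen p c) (z : R) (j : ℕ) : ev hc (C z * X ^ j) = z * c ^ j := by
  change eval₂ (RingHom.id R) c (C z * X ^ j) = _
  rw [eval₂_mul_noncomm, eval₂_C, eval₂_X_pow]
  · rfl
  · intro k
    exact (show Commute c _ from hc.comm _).symm

theorem ev_poly {c : R} (hc : Cen p c) (x y : R) :
    ev hc (poly x y) = c * x + c * y + c * x * (c * y) := by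
  have e2 := ev_mul_pow hc x 1
  have e3 := ev_mul_pow hc y 1
  have e4 := ev_mul_pow hc (x * y) 2
  simp only [pow_one] at e2 e3
  rw [poly, map_add, map_add, e2, e3, e4, ← hc.comm x, ← hc.comm y]
  have c3 : x * y * c ^ 2 = c * x * (c * y) := by
    rw [← hc.pow_comm, pow_two, mul_assoc, ← mul_assoc c x y, hc.comm x, mul_assoc x c y,
      ← mul_assoc c x, hc.comm x]
  rw [c3]

/-- the functional `a ↦ τ (c ^ n a)` -/
noncomputable def twist (τ : R →+ ℤ_[p]) (c : R) (n : ℕ) : R →+ ℚ_[p] where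
  toFun a := (τ (c ^ n * a) : ℚ_[p])
  map_zero' := by simp
  map_add' a b := by rw [mul_add, map_add, PadicInt.coe_add]

end Pool.Agent.H71.KP

end

section

/-!
# Further properties of the trace of the logarithm
-/

set_option autoImplicit false
set_option linter.unusedSectionVars false

universe u v

namespace Pool.Agent.H71.KP

variable {p : ℕ} [hp : Fact p.Prime] {R : Type u} [Ring R]

/-- `w` is congruent to `1` modulo `c` -/
def Cong (c w : R) : Prop := ∃ x : R, w = 1 + c * x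

theorem Cong.of_mul_eq_one {c w w' : R} (hc : Cen p c) (h : Cong c w) (h' : w' * w = 1) :
    Cong c w' := by
  obtain ⟨x, rfl⟩ := h
  refine ⟨-(w' * x), ?_⟩
  have : w' * (1 + c * x) = w' + c * (w' * x) := by
    rw [mul_add, mul_one, ← mul_assoc, ← hc.comm, mul_assoc]
  rw [this] at h'
  rw [mul_neg, ← h']
  abel

theorem Cong.conj {c w : R} (hc : Cen p c) (h : Cong c w) (g : Rˣ) :
    Cong c ((g⁻¹ : Rˣ) * w * g) := by
  obtain ⟨x, rfl⟩ := h
  refine ⟨(g⁻¹ : Rˣ) * x * g, ?_⟩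
  have : ((g⁻¹ : Rˣ) : R) * (1 + c * x) * g = (g⁻¹ : Rˣ) * g + c * ((g⁻¹ : Rˣ) * x * g) := by
    rw [mul_add, mul_one, add_mul, ← mul_assoc, ← hc.comm]
    simp only [mul_assoc]
  rw [this, Units.inv_mul]

/-- `τ (log w)` -/
noncomputable def L (τ : R →+ ℤ_[p]) (w : R) : ℚ_[p] := tl τ (w - 1)

theorem tl_zero (τ : R →+ ℤ_[p]) : tl τ 0 = 0 := by
  have : tlTerm τ (0 : R) = fun _ => 0 := by
    funext k
    simp [tlTerm]
  rw [tl, this, tsum_zero]

theorem L_one (τ : R →+ ℤ_[p]) : L τ 1 = 0 := by rw [L, sub_self, tl_zero]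

theorem tl_congr {S : Type v} [Ring S] {τ : R →+ ℤ_[p]} {τ' : S →+ ℤ_[p]} {x : R} {x' : S}
    (h : ∀ k, τ (x ^ (k + 1)) = τ' (x' ^ (k + 1))) : tl τ x = tl τ' x' := by
  have : tlTerm τ x = tlTerm τ' x' := by
    funext k
    rw [tlTerm, tlTerm, h]
  rw [tl, tl, this]

theorem L_conj (τ : R →+ ℤ_[p]) (hτ : ∀ a b, τ (a * b) = τ (b * a)) (w : R) (g : Rˣ) :
    L τ ((g⁻¹ : Rˣ) * w * g) = L τ w := by
  have e1 : ((g⁻¹ : Rˣ) : R) * w * g - 1 = (g⁻¹ : Rˣ) * (w - 1) * g := by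
    rw [mul_sub, sub_mul, mul_one, Units.inv_mul]
  have e2 : ∀ k : ℕ, (((g⁻¹ : Rˣ) : R) * (w - 1) * g) ^ k = (g⁻¹ : Rˣ) * (w - 1) ^ k * g := by
    intro k
    induction k with
    | zero => simp
    | succ k ih =>
      rw [pow_succ, ih, pow_succ]
      calc ((g⁻¹ : Rˣ) : R) * (w - 1) ^ k * g * ((g⁻¹ : Rˣ) * (w - 1) * g)
          = (g⁻¹ : Rˣ) * (w - 1) ^ k * (g * (g⁻¹ : Rˣ)) * (w - 1) * g := by
            simp only [mul_assoc]
        _ = _ := by rw [Units.mul_inv, mul_one]; simp only [mul_assoc]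
  rw [L, L, e1]
  apply tl_congr
  intro k
  rw [e2, mul_assoc, hτ, mul_assoc, Units.mul_inv, mul_one]

/-- Restriction of additive functions along a ring homomorphism. -/
noncomputable def pull {S : Type v} [Ring S] (φ : R →+* S) (τ : S →+ ℤ_[p]) : R →+ ℤ_[p] :=
  τ.comp φ.toAddMonoidHom

theorem pull_apply {S : Type v} [Ring S] (φ : R →+* S) (τ : S →+ ℤ_[p]) (r : R) :
    pull φ τ r = τ (φ r) := rfl

theorem L_map {S : Type v} [Ring S] (φ : R →+* S) (τ : S →+ ℤ_[p]) (w : R) :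
    L τ (φ w) = L (pull φ τ) w := by
  rw [L, L]
  apply tl_congr
  intro k
  rw [pull_apply, map_pow φ, map_sub φ, map_one φ]

theorem L_congr_fun {τ τ' : R →+ ℤ_[p]} (h : ∀ r, τ r = τ' r) (w : R) : L τ w = L τ' w := by
  rw [L, L]
  apply tl_congr
  intro k
  rw [h]

theorem Cong.map {S : Type v} [Ring S] (φ : R →+* S) {c w : R} (h : Cong c w) :
    Cong (φ c) (φ w) := by
  obtain ⟨x, rfl⟩ := h
  refine ⟨φ x, ?_⟩
  rw [map_add, map_mul, map_one]

end Pool.Agent.H71.KP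

end

section

/-!
# Further properties of the trace of the logarithm
-/

set_option autoImplicit false

universe u v

namespace Pool.Agent.H71.WH

variable {R : Type u} [Ring R]

/-- `w` is congruent to `1` modulo `2` -/
def Cong (w : R) : Prop := ∃ x : R, w = 1 + 2 * x

theorem Cong.conj {w : R} (h : Cong w) (g : Rˣ) : Cong ((g⁻¹ : Rˣ) * w * g) := by
  obtain ⟨x, rfl⟩ := h
  refine ⟨(g⁻¹ : Rˣ) * x * g, ?_⟩
  have : ((g⁻¹ : Rˣ) : R) * (1 + 2 * x) * g = (g⁻¹ : Rˣ) * g + 2 * ((g⁻¹ : Rˣ) * x * g) := by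
    noncomm_ring
  rw [this, Units.inv_mul]

/-- `τ (log w)` -/
noncomputable def L (τ : R →+ ℤ) (w : R) : ℚ_[2] := tl τ (w - 1)

theorem tl_congr {S : Type v} [Ring S] {τ : R →+ ℤ} {τ' : S →+ ℤ} {x : R} {x' : S}
    (h : ∀ k, τ (x ^ (k + 1)) = τ' (x' ^ (k + 1))) : tl τ x = tl τ' x' := by
  have : tlTerm τ x = tlTerm τ' x' := by
    funext k
    rw [tlTerm, tlTerm, h]
  rw [tl, tl, this]

theorem L_conj (τ : R →+ ℤ) (hτ : ∀ a b, τ (a * b) = τ (b * a)) (w : R) (g : Rˣ) :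
    L τ ((g⁻¹ : Rˣ) * w * g) = L τ w := by
  have e1 : ((g⁻¹ : Rˣ) : R) * w * g - 1 = (g⁻¹ : Rˣ) * (w - 1) * g := by
    rw [mul_sub, sub_mul, mul_one, Units.inv_mul]
  have e2 : ∀ k : ℕ, (((g⁻¹ : Rˣ) : R) * (w - 1) * g) ^ k = (g⁻¹ : Rˣ) * (w - 1) ^ k * g := by
    intro k
    induction k with
    | zero => simp
    | succ k ih =>
      rw [pow_succ, ih, pow_succ]
      calc ((g⁻¹ : Rˣ) : R) * (w - 1) ^ k * g * ((g⁻¹ : Rˣ) * (w - 1) * g)
          = (g⁻¹ : Rˣ) * (w - 1) ^ k * (g * (g⁻¹ : Rˣ)) * (w - 1) * g := by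
            simp only [mul_assoc]
        _ = _ := by rw [Units.mul_inv, mul_one]; simp only [mul_assoc]
  rw [L, L, e1]
  apply tl_congr
  intro k
  rw [e2, mul_assoc, hτ, mul_assoc, Units.mul_inv, mul_one]

theorem two_mul_le_pow (j : ℕ) : 2 * (j + 2) ≤ 2 ^ (j + 2) := by
  have := Nat.lt_two_pow_self (n := j + 1)
  rw [pow_succ]
  omega

theorem term_le_aux (τ : R →+ ℤ) (r : R) (n j : ℕ) :
    ‖tlTerm τ (2 ^ (n + 1) * r) (j + 1)‖ ≤ ((2 : ℝ) ^ (2 * n))⁻¹ := by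
  have h0 : τ ((2 ^ (n + 1) * r) ^ (j + 1 + 1)) = 2 ^ ((n + 1) * (j + 2)) * τ (r ^ (j + 2)) := by
    rw [((Commute.ofNat_left 2 r).pow_left (n + 1)).mul_pow, ← pow_mul, map_two_pow_mul]
  have h1 := norm_term_le (z := τ ((2 ^ (n + 1) * r) ^ (j + 1 + 1))) (m := (n + 1) * (j + 2))
    (k := j + 1) (by rw [h0]; exact dvd_mul_right _ _)
  refine h1.trans ?_
  have h2 : 2 * (j + 2) * 2 ^ (2 * n) ≤ 2 ^ ((n + 1) * (j + 2)) := by
    calc 2 * (j + 2) * 2 ^ (2 * n) ≤ 2 ^ (j + 2) * 2 ^ (2 * n) :=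
          Nat.mul_le_mul_right _ (two_mul_le_pow j)
      _ = 2 ^ (j + 2 + 2 * n) := (pow_add 2 (j + 2) (2 * n)).symm
      _ ≤ 2 ^ ((n + 1) * (j + 2)) := by
          apply Nat.pow_le_pow_right (by norm_num)
          nlinarith [Nat.zero_le (n * j)]
  have h3 : (2 * ((j : ℝ) + 2)) * 2 ^ (2 * n) ≤ 2 ^ ((n + 1) * (j + 2)) := by exact_mod_cast h2
  rw [← div_eq_inv_mul, div_le_iff₀ (by positivity), ← div_eq_inv_mul, le_div_iff₀ (by positivity)]
  push_cast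
  linarith

/-- estimate -/
theorem norm_tl_le (τ : R →+ ℤ) (r : R) (n : ℕ) (h : (2 ^ (2 * n) : ℤ) ∣ τ (2 ^ n * r)) :
    ‖tl τ (2 ^ (n + 1) * r)‖ ≤ ((2 : ℝ) ^ (2 * n))⁻¹ := by
  apply IsUltrametricDist.norm_tsum_le_of_forall_le
  intro k
  rcases k with _ | j
  · have h0 : τ ((2 ^ (n + 1) * r) ^ (0 + 1)) = 2 * τ (2 ^ n * r) := by
      rw [zero_add, pow_one, pow_succ', mul_assoc]
      have := map_two_pow_mul τ 1 (2 ^ n * r)
      simpa using this
    have h1 := norm_term_le (z := τ ((2 ^ (n + 1) * r) ^ (0 + 1))) (m := 2 * n + 1)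
      (k := 0) (by rw [h0, pow_succ']; exact mul_dvd_mul_left _ h)
    refine h1.trans (le_of_eq ?_)
    rw [pow_succ, mul_inv]
    push_cast
    ring
  · exact term_le_aux τ r n j

end Pool.Agent.H71.WH

end
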