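import Mathlib

/-! The parts of this file: H71.WH.Skew, H71.WH.GR, H71.WH.Mat. -/

section

/-!
# The skew ring and the homomorphism `Lam`

Let `s` be an involutive automorphism of a ring `M` and `κ : M → ℤ` with `κ (a b) = κ (b s(a))`. For
a unit `g = 1 + z + s(z)` of `M` the element `v = 1 + z (1 + σ)` of the skew ring `M * C₂` is a unit
and `v⁻¹ θ(v)` is congruent to `1` modulo `2`, where `θ(σ) = - σ`.
-/

set_option autoImplicit false

open Matrix

universe u v

namespace Pool.Agent.H71.WH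

/-- A ring with an involution and a twisted trace. -/
structure TwTr (M : Type u) [Ring M] where
  /-- the involutive automorphism -/
  s : M →+* M
  inv : ∀ a, s (s a) = a
  /-- the twisted trace -/
  κ : M →+ ℤ
  tw : ∀ a b, κ (a * b) = κ (b * s a)

namespace TwTr

variable {M : Type u} [Ring M] (t : TwTr M)

theorem κ_s (a : M) : t.κ (t.s a) = t.κ a := by
  have := t.tw a 1
  rw [mul_one, one_mul] at this
  exact this.symm

/-- `a + b σ` as a matrix -/
def mkS (a b : M) : Matrix (Fin 2) (Fin 2) M := !![a, b; t.s b, t.s a]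

theorem mkS_mul (a b c d : M) :
    t.mkS a b * t.mkS c d = t.mkS (a * c + b * t.s d) (a * d + b * t.s c) := by
  ext i j
  fin_cases i <;> fin_cases j <;>
    simp [mkS, Matrix.mul_apply, Fin.sum_univ_two, t.inv, add_comm]

theorem mkS_add (a b c d : M) : t.mkS a b + t.mkS c d = t.mkS (a + c) (b + d) := by
  ext i j
  fin_cases i <;> fin_cases j <;> simp [mkS]

theorem mkS_neg (a b : M) : -t.mkS a b = t.mkS (-a) (-b) := by
  ext i j
  fin_cases i <;> fin_cases j <;> simp [mkS]

theorem mkS_one : t.mkS 1 0 = 1 := by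
  ext i j
  fin_cases i <;> fin_cases j <;> simp [mkS]

theorem mkS_zero : t.mkS 0 0 = 0 := by
  ext i j
  fin_cases i <;> fin_cases j <;> simp [mkS]

/-- The skew ring `M * C₂` as a ring of matrices. -/
def skew : Subring (Matrix (Fin 2) (Fin 2) M) where
  carrier := {V | ∃ a b, V = t.mkS a b}
  mul_mem' := by
    rintro _ _ ⟨a, b, rfl⟩ ⟨c, d, rfl⟩
    exact ⟨_, _, t.mkS_mul a b c d⟩
  add_mem' := by
    rintro _ _ ⟨a, b, rfl⟩ ⟨c, d, rfl⟩
    exact ⟨_, _, t.mkS_add a b c d⟩
  neg_mem' := by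
    rintro _ ⟨a, b, rfl⟩
    exact ⟨_, _, t.mkS_neg a b⟩
  one_mem' := ⟨1, 0, t.mkS_one.symm⟩
  zero_mem' := ⟨0, 0, t.mkS_zero.symm⟩

/-- The element `a + b σ`. -/
def el (a b : M) : t.skew := ⟨t.mkS a b, a, b, rfl⟩

theorem exists_el (V : t.skew) : ∃ a b, V = t.el a b := by
  obtain ⟨V, a, b, rfl⟩ := V
  exact ⟨a, b, rfl⟩

theorem el_mul (a b c d : M) :
    t.el a b * t.el c d = t.el (a * c + b * t.s d) (a * d + b * t.s c) :=
  Subtype.ext (t.mkS_mul a b c d)

theorem el_add (a b c d : M) : t.el a b + t.el c d = t.el (a + c) (b + d) :=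
  Subtype.ext (t.mkS_add a b c d)

theorem el_neg (a b : M) : -t.el a b = t.el (-a) (-b) := Subtype.ext (t.mkS_neg a b)

theorem el_one : t.el 1 0 = 1 := Subtype.ext t.mkS_one

theorem el_zero : t.el 0 0 = 0 := Subtype.ext t.mkS_zero

theorem el_sub (a b c d : M) : t.el a b - t.el c d = t.el (a - c) (b - d) := by
  rw [sub_eq_add_neg, el_neg, el_add, ← sub_eq_add_neg, ← sub_eq_add_neg]

/-- the first component -/
def re (V : t.skew) : M := V.1 0 0

/-- the `σ`-component -/
def im (V : t.skew) : M := V.1 0 1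

theorem re_el (a b : M) : t.re (t.el a b) = a := by simp [re, el, mkS]

theorem im_el (a b : M) : t.im (t.el a b) = b := by simp [im, el, mkS]

/-- the trace of the skew ring -/
def τ : t.skew →+ ℤ where
  toFun V := t.κ (t.im V)
  map_zero' := by
    rw [← el_zero, im_el, map_zero]
  map_add' V W := by
    obtain ⟨a, b, rfl⟩ := t.exists_el V
    obtain ⟨c, d, rfl⟩ := t.exists_el W
    rw [el_add, im_el, im_el, im_el, map_add]

theorem τ_el (a b : M) : t.τ (t.el a b) = t.κ b := by
  change t.κ (t.im (t.el a b)) = _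
  rw [im_el]

theorem τ_comm (V W : t.skew) : t.τ (V * W) = t.τ (W * V) := by
  obtain ⟨a, b, rfl⟩ := t.exists_el V
  obtain ⟨c, d, rfl⟩ := t.exists_el W
  rw [el_mul, el_mul, τ_el, τ_el, map_add, map_add, t.tw a d, ← t.tw c b, add_comm]

/-- the automorphism `σ ↦ -σ` -/
def θ : t.skew →+* t.skew where
  toFun V := t.el (t.re V) (-t.im V)
  map_one' := by
    rw [← el_one, re_el, im_el, neg_zero]
  map_zero' := by
    rw [← el_zero, re_el, im_el, neg_zero]
  map_mul' V W := by
    obtain ⟨a, b, rfl⟩ := t.exists_el V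
    obtain ⟨c, d, rfl⟩ := t.exists_el W
    rw [el_mul, re_el, im_el, re_el, im_el, re_el, im_el, el_mul]
    congr 1
    · rw [map_neg]
      noncomm_ring
    · noncomm_ring
  map_add' V W := by
    obtain ⟨a, b, rfl⟩ := t.exists_el V
    obtain ⟨c, d, rfl⟩ := t.exists_el W
    rw [el_add, re_el, im_el, re_el, im_el, re_el, im_el, el_add, neg_add]

theorem θ_el (a b : M) : t.θ (t.el a b) = t.el a (-b) := by
  change t.el (t.re (t.el a b)) (-t.im (t.el a b)) = _
  rw [re_el, im_el]

theorem τ_θ (V : t.skew) : t.τ (t.θ V) = -t.τ V := by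
  obtain ⟨a, b, rfl⟩ := t.exists_el V
  rw [θ_el, τ_el, τ_el, map_neg]

theorem s_self (z : M) : t.s (1 + z + t.s z) = 1 + z + t.s z := by
  rw [map_add, map_add, map_one, t.inv]
  abel

theorem s_inv {g : Mˣ} (h : t.s g = g) : t.s ((g⁻¹ : Mˣ) : M) = (g⁻¹ : Mˣ) := by
  have h1 : t.s ((g⁻¹ : Mˣ) : M) * g = 1 := by
    conv_lhs => rw [← h]
    rw [← map_mul, Units.inv_mul, map_one]
  calc t.s ((g⁻¹ : Mˣ) : M) = t.s ((g⁻¹ : Mˣ) : M) * (g * (g⁻¹ : Mˣ)) := by
        rw [Units.mul_inv, mul_one]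
    _ = (g⁻¹ : Mˣ) := by rw [← mul_assoc, h1, one_mul]

/-- the unit `1 + z (1 + σ)` of the skew ring, for a unit `g = 1 + z + s z` -/
def vU (z : M) (g : Mˣ) (h : (g : M) = 1 + z + t.s z) : t.skewˣ where
  val := t.el (1 + z) z
  inv := t.el (1 - z * (g⁻¹ : Mˣ)) (-(z * (g⁻¹ : Mˣ)))
  val_inv := by
    have hs : t.s ((g⁻¹ : Mˣ) : M) = (g⁻¹ : Mˣ) := t.s_inv (by rw [h]; exact t.s_self z)
    have h1 : (1 + z + t.s z) * ((g⁻¹ : Mˣ) : M) = 1 := by rw [← h, Units.mul_inv]
    rw [el_mul, ← el_one]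
    congr 1
    · rw [map_neg, map_mul, hs]
      calc (1 + z) * (1 - z * ((g⁻¹ : Mˣ) : M)) + z * -(t.s z * ((g⁻¹ : Mˣ) : M))
          = 1 + z - z * ((1 + z + t.s z) * ((g⁻¹ : Mˣ) : M)) := by noncomm_ring
        _ = 1 := by rw [h1]; noncomm_ring
    · rw [map_sub, map_one, map_mul, hs]
      calc (1 + z) * -(z * ((g⁻¹ : Mˣ) : M)) + z * (1 - t.s z * ((g⁻¹ : Mˣ) : M))
          = z - z * ((1 + z + t.s z) * ((g⁻¹ : Mˣ) : M)) := by noncomm_ring
        _ = 0 := by rw [h1]; noncomm_ring
  inv_val := by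
    have hs : t.s ((g⁻¹ : Mˣ) : M) = (g⁻¹ : Mˣ) := t.s_inv (by rw [h]; exact t.s_self z)
    have h1 : ((g⁻¹ : Mˣ) : M) * (1 + z + t.s z) = 1 := by rw [← h, Units.inv_mul]
    rw [el_mul, ← el_one]
    congr 1
    · calc (1 - z * ((g⁻¹ : Mˣ) : M)) * (1 + z) + -(z * ((g⁻¹ : Mˣ) : M)) * t.s z
          = 1 + z - z * (((g⁻¹ : Mˣ) : M) * (1 + z + t.s z)) := by noncomm_ring
        _ = 1 := by rw [h1]; noncomm_ring
    · rw [map_add, map_one]
      calc (1 - z * ((g⁻¹ : Mˣ) : M)) * z + -(z * ((g⁻¹ : Mˣ) : M)) * (1 + t.s z)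
          = z - z * (((g⁻¹ : Mˣ) : M) * (1 + z + t.s z)) := by noncomm_ring
        _ = 0 := by rw [h1]; noncomm_ring

theorem vU_val (z : M) (g : Mˣ) (h : (g : M) = 1 + z + t.s z) :
    (t.vU z g h : t.skew) = t.el (1 + z) z := rfl

theorem vU_mul {z1 z2 : M} {g1 g2 : Mˣ} (h1 : (g1 : M) = 1 + z1 + t.s z1)
    (h2 : (g2 : M) = 1 + z2 + t.s z2)
    (h : ((g1 * g2 : Mˣ) : M) = 1 + (z1 * g2 + z2) + t.s (z1 * g2 + z2)) :
    t.vU z1 g1 h1 * t.vU z2 g2 h2 = t.vU (z1 * g2 + z2) (g1 * g2) h := by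
  apply Units.ext
  rw [Units.val_mul, vU_val, vU_val, vU_val, el_mul, h2]
  congr 1
  · noncomm_ring
  · rw [map_add, map_one]
    noncomm_ring

theorem mul_add_cond {z1 z2 : M} {g1 g2 : Mˣ} (h1 : (g1 : M) = 1 + z1 + t.s z1)
    (h2 : (g2 : M) = 1 + z2 + t.s z2) :
    ((g1 * g2 : Mˣ) : M) = 1 + (z1 * g2 + z2) + t.s (z1 * g2 + z2) := by
  have hs : t.s (g2 : M) = g2 := by rw [h2]; exact t.s_self z2
  rw [map_add, map_mul, hs, Units.val_mul, h1]
  calc (1 + z1 + t.s z1) * (g2 : M) = (g2 : M) + z1 * g2 + t.s z1 * g2 := by noncomm_ring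
    _ = (1 + z2 + t.s z2) + z1 * g2 + t.s z1 * g2 := by rw [← h2]
    _ = _ := by abel

theorem inv_θ (z : M) (g : Mˣ) (h : (g : M) = 1 + z + t.s z) :
    (((t.vU z g h)⁻¹ : t.skewˣ) : t.skew) * t.θ (t.vU z g h) =
      1 + 2 * t.el (z * (g⁻¹ : Mˣ) * t.s z) (-(z * (g⁻¹ : Mˣ) * (1 + t.s z))) := by
  have h1 : ((g⁻¹ : Mˣ) : M) * (1 + z + t.s z) = 1 := by rw [← h, Units.inv_mul]
  have e1 : (((t.vU z g h)⁻¹ : t.skewˣ) : t.skew) =
    t.el (1 - z * (g⁻¹ : Mˣ)) (-(z * (g⁻¹ : Mˣ))) := rfl
  rw [e1, vU_val, θ_el, el_mul, two_mul, el_add, ← el_one, el_add]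
  congr 1
  · rw [map_neg]
    calc (1 - z * ((g⁻¹ : Mˣ) : M)) * (1 + z) + -(z * ((g⁻¹ : Mˣ) : M)) * -t.s z
        = 1 + z - z * (((g⁻¹ : Mˣ) : M) * (1 + z + t.s z)) +
          (z * ((g⁻¹ : Mˣ) : M) * t.s z + z * ((g⁻¹ : Mˣ) : M) * t.s z) := by noncomm_ring
      _ = _ := by rw [h1]; noncomm_ring
  · rw [map_add, map_one]
    calc (1 - z * ((g⁻¹ : Mˣ) : M)) * -z + -(z * ((g⁻¹ : Mˣ) : M)) * (1 + t.s z)
        = z * (((g⁻¹ : Mˣ) : M) * (1 + z + t.s z)) - z + (-(z * ((g⁻¹ : Mˣ) : M) * (1 + t.s z)) +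
          -(z * ((g⁻¹ : Mˣ) : M) * (1 + t.s z))) := by noncomm_ring
      _ = _ := by rw [h1]; noncomm_ring

end TwTr

end Pool.Agent.H71.WH

end

section

/-!
# Integral group rings

The maps `i1, i2, Δ : ℤ[G] → ℤ[G × G]`, the exchange `σ` and the functionals given by functions.
-/

set_option autoImplicit false

open Matrix

universe u v w

namespace Pool.Agent.H71.WH

section Fn

variable {G : Type u} [Group G]

/-- The functional `∑ a_g g ↦ ∑ a_g f(g)` on a group ring. -/
noncomputable def fn (f : G → ℤ) : MonoidAlgebra ℤ G →+ ℤ where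
  toFun a := a.coeff.sum fun g b => b * f g
  map_zero' := by simp
  map_add' x y := by
    classical
    rw [MonoidAlgebra.coeff_add, Finsupp.sum_add_index'] <;> simp [add_mul]

omit [Group G] in
theorem fn_single (f : G → ℤ) (g : G) (b : ℤ) :
    fn f (MonoidAlgebra.single g b) = b * f g := by
  change (MonoidAlgebra.single g b).coeff.sum (fun g b => b * f g) = _
  rw [MonoidAlgebra.coeff_single, Finsupp.sum_single_index (by simp)]

omit [Group G] in
theorem hom_ext {B : Type v} [AddCommGroup B] {φ ψ : MonoidAlgebra ℤ G →+ B}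
    (h : ∀ (g : G) (n : ℤ), φ (MonoidAlgebra.single g n) = ψ (MonoidAlgebra.single g n)) :
    φ = ψ := by
  ext g
  simp only [AddMonoidHom.comp_apply, MonoidAlgebra.singleAddHom_apply]
  exact h g _

/-- the ring homomorphism induced by a group homomorphism -/
noncomputable abbrev gr {H : Type v} [Group H] (φ : G →* H) :
    MonoidAlgebra ℤ G →+* MonoidAlgebra ℤ H := MonoidAlgebra.mapDomainRingHom ℤ φ

theorem gr_single {H : Type v} [Group H] (φ : G →* H) (g : G) (n : ℤ) :
    gr φ (MonoidAlgebra.single g n) = MonoidAlgebra.single (φ g) n := by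
  change MonoidAlgebra.mapDomain φ (MonoidAlgebra.single g n) = _
  rw [MonoidAlgebra.mapDomain_single]

theorem fn_gr {H : Type v} [Group H] (φ : G →* H) (f : H → ℤ) (a : MonoidAlgebra ℤ G) :
    fn f (gr φ a) = fn (fun g => f (φ g)) a := by
  induction a using MonoidAlgebra.induction_linear with
  | zero => simp
  | add x y hx hy => rw [map_add, map_add, map_add, hx, hy]
  | single g n => rw [gr_single, fn_single, fn_single]

end Fn

section Two

variable (G : Type u) [Group G]

/-- `g ↦ (g, 1)` -/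
noncomputable def i1 : MonoidAlgebra ℤ G →+* MonoidAlgebra ℤ (G × G) := gr (MonoidHom.inl G G)

/-- `g ↦ (1, g)` -/
noncomputable def i2 : MonoidAlgebra ℤ G →+* MonoidAlgebra ℤ (G × G) := gr (MonoidHom.inr G G)

/-- `g ↦ (g, g)` -/
noncomputable def Del : MonoidAlgebra ℤ G →+* MonoidAlgebra ℤ (G × G) :=
  gr ((MonoidHom.id G).prod (MonoidHom.id G))

/-- `(g, h) ↦ (h, g)` -/
noncomputable def sw : MonoidAlgebra ℤ (G × G) →+* MonoidAlgebra ℤ (G × G) :=
  gr (MulEquiv.prodComm : G × G ≃* G × G).toMonoidHom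

variable {G}

theorem i1_single (g : G) (n : ℤ) : i1 G (MonoidAlgebra.single g n) =
    MonoidAlgebra.single (g, 1) n := gr_single _ _ _

theorem i2_single (g : G) (n : ℤ) : i2 G (MonoidAlgebra.single g n) =
    MonoidAlgebra.single (1, g) n := gr_single _ _ _

theorem Del_single (g : G) (n : ℤ) : Del G (MonoidAlgebra.single g n) =
    MonoidAlgebra.single (g, g) n := gr_single _ _ _

theorem sw_single (p : G × G) (n : ℤ) : sw G (MonoidAlgebra.single p n) =
    MonoidAlgebra.single p.swap n := gr_single _ _ _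

theorem sw_sw (a : MonoidAlgebra ℤ (G × G)) : sw G (sw G a) = a := by
  induction a using MonoidAlgebra.induction_linear with
  | zero => simp
  | add x y hx hy => rw [map_add, map_add, hx, hy]
  | single g n => rw [sw_single, sw_single, Prod.swap_swap]

theorem sw_i1 (a : MonoidAlgebra ℤ G) : sw G (i1 G a) = i2 G a := by
  induction a using MonoidAlgebra.induction_linear with
  | zero => simp
  | add x y hx hy => rw [map_add, map_add, map_add, hx, hy]
  | single g n => rw [i1_single, sw_single, i2_single]; rfl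

theorem sw_i2 (a : MonoidAlgebra ℤ G) : sw G (i2 G a) = i1 G a := by rw [← sw_i1, sw_sw]

theorem sw_Del (a : MonoidAlgebra ℤ G) : sw G (Del G a) = Del G a := by
  induction a using MonoidAlgebra.induction_linear with
  | zero => simp
  | add x y hx hy => rw [map_add, map_add, hx, hy]
  | single g n => rw [Del_single, sw_single]; rfl

theorem i1_i2_comm (a b : MonoidAlgebra ℤ G) : i1 G a * i2 G b = i2 G b * i1 G a := by
  induction a using MonoidAlgebra.induction_linear with
  | zero => simp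
  | add x y hx hy => rw [map_add, add_mul, mul_add, hx, hy]
  | single g n =>
    induction b using MonoidAlgebra.induction_linear with
    | zero => simp
    | add x y hx hy => rw [map_add, add_mul, mul_add, hx, hy]
    | single h m =>
      rw [i1_single, i2_single, MonoidAlgebra.single_mul_single, MonoidAlgebra.single_mul_single,
        Prod.mk_mul_mk, Prod.mk_mul_mk, mul_one, one_mul, one_mul, mul_one, mul_comm n m]

/-- `a ⊗ a` and `Δ(a)` are congruent modulo norms. -/
theorem exists_norm (a : MonoidAlgebra ℤ G) :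
    ∃ z, i1 G a * i2 G a - Del G a = z + sw G z := by
  induction a using MonoidAlgebra.induction_linear with
  | zero => exact ⟨0, by simp⟩
  | add x y hx hy =>
    obtain ⟨z, hz⟩ := hx
    obtain ⟨w, hw⟩ := hy
    refine ⟨z + w + i1 G x * i2 G y, ?_⟩
    have e1 : sw G (i1 G x * i2 G y) = i1 G y * i2 G x := by
      rw [map_mul, sw_i1, sw_i2, i1_i2_comm]
    rw [map_add (sw G) (z + w), map_add (sw G) z w, e1, map_add (i1 G), map_add (i2 G),
      map_add (Del G)]
    have e2 : (i1 G x + i1 G y) * (i2 G x + i2 G y) - (Del G x + Del G y) =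
      (i1 G x * i2 G x - Del G x) + (i1 G y * i2 G y - Del G y) + i1 G x * i2 G y +
        i1 G y * i2 G x := by noncomm_ring
    rw [e2, hz, hw]
    abel
  | single g n =>
    obtain ⟨m, hm⟩ : ∃ m : ℤ, n * n - n = m + m := by
      obtain ⟨m, hm⟩ := (Int.even_mul_pred_self n)
      exact ⟨m, by rw [← hm]; ring⟩
    refine ⟨MonoidAlgebra.single (g, g) m, ?_⟩
    rw [i1_single, i2_single, Del_single, sw_single, MonoidAlgebra.single_mul_single,
      Prod.mk_mul_mk, mul_one, one_mul, ← MonoidAlgebra.single_sub, hm, Prod.swap_prod_mk,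
      ← MonoidAlgebra.single_add]

/-- the functional `(g, h) ↦ f (g h)` -/
noncomputable def k0 (f : G → ℤ) : MonoidAlgebra ℤ (G × G) →+ ℤ := fn fun p => f (p.1 * p.2)

theorem k0_tw (f : G → ℤ) (hf : ∀ x y, f (x * y) = f (y * x)) (a b : MonoidAlgebra ℤ (G × G)) :
    k0 f (a * b) = k0 f (b * sw G a) := by
  induction a using MonoidAlgebra.induction_linear with
  | zero => simp
  | add x y hx hy => rw [add_mul, map_add, map_add, mul_add, map_add, hx, hy]
  | single p n =>
    induction b using MonoidAlgebra.induction_linear with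
    | zero => simp
    | add x y hx hy => rw [mul_add, map_add, add_mul, map_add, hx, hy]
    | single q m =>
      rw [sw_single, MonoidAlgebra.single_mul_single, MonoidAlgebra.single_mul_single, k0,
        fn_single, fn_single]
      obtain ⟨g, h⟩ := p
      obtain ⟨g', h'⟩ := q
      simp only [Prod.swap_prod_mk, Prod.mk_mul_mk]
      have : f (g * g' * (h * h')) = f (g' * h * (h' * g)) := by
        rw [mul_assoc, hf]
        congr 1
        group
      rw [this, mul_comm n m]

theorem k0_i1 (f : G → ℤ) (a : MonoidAlgebra ℤ G) : k0 f (i1 G a) = fn f a := by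
  rw [k0, i1, fn_gr]
  simp

theorem k0_Del (f : G → ℤ) (a : MonoidAlgebra ℤ G) :
    k0 f (Del G a) = fn (fun g => f (g * g)) a := by
  rw [k0, Del, fn_gr]
  simp

/-- The twisted trace on `ℤ[G × G]`. -/
noncomputable def t0 (f : G → ℤ) (hf : ∀ x y, f (x * y) = f (y * x)) :
    TwTr (MonoidAlgebra ℤ (G × G)) where
  s := sw G
  inv := sw_sw
  κ := k0 f
  tw := k0_tw f hf

end Two

end Pool.Agent.H71.WH

end

section

/-!
# The twisted trace on matrices over `ℤ[G × G]`
-/

set_option autoImplicit false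
set_option linter.unusedSectionVars false

open Matrix

universe u v w

namespace Pool.Agent.H71.WH

section Emb

variable {R : Type u} [Ring R] {ι κ μ : Type*} [Fintype ι] [DecidableEq ι] [Fintype κ]
  [DecidableEq κ] [Fintype μ] [DecidableEq μ]

/-- the matrix of an injective map -/
def vm (R : Type u) [Ring R] {ι κ : Type*} [DecidableEq κ] (ε : ι ↪ κ) : Matrix κ ι R :=
  Matrix.of fun a i => if a = ε i then 1 else 0

theorem vm_mul (ε : ι ↪ κ) : (vm R ε)ᵀ * vm R ε = 1 := by
  ext i k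
  simp only [vm, Matrix.mul_apply, transpose_apply, of_apply]
  rw [Finset.sum_eq_single (ε i)]
  · rw [if_pos rfl, one_mul, Matrix.one_apply]
    simp only [EmbeddingLike.apply_eq_iff_eq]
  · intro b _ hb
    rw [if_neg hb, zero_mul]
  · intro h
    exact absurd (Finset.mem_univ _) h

/-- Extension of matrices by zero along an injective map of the index sets. -/
def emb (ε : ι ↪ κ) : Matrix ι ι R →ₙ+* Matrix κ κ R where
  toFun w := vm R ε * w * (vm R ε)ᵀ
  map_zero' := by rw [Matrix.mul_zero, Matrix.zero_mul]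
  map_add' w w' := by rw [Matrix.mul_add, Matrix.add_mul]
  map_mul' w w' := by
    calc vm R ε * (w * w') * (vm R ε)ᵀ =
        vm R ε * w * (1 : Matrix ι ι R) * w' * (vm R ε)ᵀ := by
          rw [Matrix.mul_one]; simp only [Matrix.mul_assoc]
      _ = _ := by rw [← vm_mul ε]; simp only [Matrix.mul_assoc]

theorem emb_apply (ε : ι ↪ κ) (w : Matrix ι ι R) (i k : ι) : emb ε w (ε i) (ε k) = w i k := by
  change (vm R ε * w * (vm R ε)ᵀ) (ε i) (ε k) = _
  rw [Matrix.mul_apply, Finset.sum_eq_single k]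
  · rw [Matrix.mul_apply, Finset.sum_eq_single i]
    · simp [vm]
    · intro b _ hb
      have : ε i ≠ ε b := fun h => hb (ε.injective h).symm
      simp [vm, this]
    · intro h
      exact absurd (Finset.mem_univ _) h
  · intro b _ hb
    have : ε k ≠ ε b := fun h => hb (ε.injective h).symm
    simp [vm, this]
  · intro h
    exact absurd (Finset.mem_univ _) h

theorem emb_zero_left (ε : ι ↪ κ) (w : Matrix ι ι R) {a : κ} (h : ∀ i, a ≠ ε i) (b : κ) :
    emb ε w a b = 0 := by
  change (vm R ε * w * (vm R ε)ᵀ) a b = _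
  rw [Matrix.mul_apply]
  apply Finset.sum_eq_zero
  intro k _
  rw [Matrix.mul_apply, Finset.sum_eq_zero, zero_mul]
  intro i _
  simp [vm, h i]

theorem emb_zero_right (ε : ι ↪ κ) (w : Matrix ι ι R) (a : κ) {b : κ} (h : ∀ i, b ≠ ε i) :
    emb ε w a b = 0 := by
  change (vm R ε * w * (vm R ε)ᵀ) a b = _
  rw [Matrix.mul_apply]
  apply Finset.sum_eq_zero
  intro k _
  simp [vm, h k]

/-- Matrices of the form `emb ε w` are determined by their entries. -/
theorem eq_emb (ε : ι ↪ κ) (w : Matrix ι ι R) (F : Matrix κ κ R)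
    (h1 : ∀ i k, F (ε i) (ε k) = w i k) (h2 : ∀ a b, (∀ i, a ≠ ε i) → F a b = 0)
    (h3 : ∀ a b, (∀ i, b ≠ ε i) → F a b = 0) : F = emb ε w := by
  ext a b
  by_cases ha : ∃ i, a = ε i
  · obtain ⟨i, rfl⟩ := ha
    by_cases hb : ∃ k, b = ε k
    · obtain ⟨k, rfl⟩ := hb
      rw [h1, emb_apply]
    · push Not at hb
      rw [h3 _ _ hb, emb_zero_right _ _ _ hb]
  · push Not at ha
    rw [h2 _ _ ha, emb_zero_left _ _ ha]

/-- A non-unital homomorphism extended to the units. -/
def unitExt {S : Type v} [Ring S] (J : R →ₙ+* S) : Rˣ →* Sˣ where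
  toFun u :=
    { val := J u + (1 - J 1)
      inv := J (u⁻¹ : Rˣ) + (1 - J 1)
      val_inv := by
        have he : ∀ x : R, J x * (1 - J 1) = 0 := by
          intro x
          rw [mul_sub, mul_one, ← map_mul, mul_one, sub_self]
        have he' : ∀ x : R, (1 - J 1) * J x = 0 := by
          intro x
          rw [sub_mul, one_mul, ← map_mul, one_mul, sub_self]
        rw [add_mul, mul_add, mul_add, ← map_mul, Units.mul_inv, he, he', mul_sub, mul_one,
          he' 1]
        abel
      inv_val := by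
        have he : ∀ x : R, J x * (1 - J 1) = 0 := by
          intro x
          rw [mul_sub, mul_one, ← map_mul, mul_one, sub_self]
        have he' : ∀ x : R, (1 - J 1) * J x = 0 := by
          intro x
          rw [sub_mul, one_mul, ← map_mul, one_mul, sub_self]
        rw [add_mul, mul_add, mul_add, ← map_mul, Units.inv_mul, he, he', mul_sub, mul_one,
          he' 1]
        abel }
  map_one' := by
    apply Units.ext
    change J ((1 : Rˣ) : R) + (1 - J 1) = 1
    rw [Units.val_one]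
    abel
  map_mul' u w := by
    apply Units.ext
    change J ((u * w : Rˣ) : R) + (1 - J 1) = (J u + (1 - J 1)) * (J w + (1 - J 1))
    have he : ∀ x : R, J x * (1 - J 1) = 0 := by
      intro x
      rw [mul_sub, mul_one, ← map_mul, mul_one, sub_self]
    have he' : ∀ x : R, (1 - J 1) * J x = 0 := by
      intro x
      rw [sub_mul, one_mul, ← map_mul, one_mul, sub_self]
    rw [add_mul, mul_add, mul_add, ← map_mul, Units.val_mul, he, he', mul_sub, mul_one,
      he' 1]
    abel

theorem unitExt_val {S : Type v} [Ring S] (J : R →ₙ+* S) (u : Rˣ) :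
    (unitExt J u : S) = J u + (1 - J 1) := rfl

end Emb

section Tw

variable {R : Type u} [Ring R] (t : TwTr R) (ι : Type v) [Fintype ι] [DecidableEq ι]

/-- The involution on matrices. -/
def sMat : Matrix (ι × ι) (ι × ι) R →+* Matrix (ι × ι) (ι × ι) R where
  toFun F := Matrix.of fun P Q => t.s (F P.swap Q.swap)
  map_zero' := by ext P Q; simp
  map_one' := by
    ext P Q
    rw [of_apply, Matrix.one_apply, Matrix.one_apply]
    have : P.swap = Q.swap ↔ P = Q := Prod.swap_injective.eq_iff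
    simp only [this]
    split_ifs <;> simp
  map_add' F F' := by ext P Q; simp
  map_mul' F F' := by
    ext P Q
    simp only [of_apply, Matrix.mul_apply, map_sum, map_mul]
    exact ((Equiv.prodComm ι ι).sum_comp (fun X => t.s (F P.swap X) * t.s (F' X Q.swap))).symm

theorem sMat_apply (F : Matrix (ι × ι) (ι × ι) R) (P Q : ι × ι) :
    sMat t ι F P Q = t.s (F P.swap Q.swap) := rfl

/-- The twisted trace on matrices. -/
def kMat : Matrix (ι × ι) (ι × ι) R →+ ℤ where
  toFun F := ∑ P, t.κ (F P P.swap)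
  map_zero' := by simp
  map_add' F F' := by simp [Finset.sum_add_distrib]

theorem kMat_apply (F : Matrix (ι × ι) (ι × ι) R) : kMat t ι F = ∑ P, t.κ (F P P.swap) := rfl

theorem kMat_tw (F F' : Matrix (ι × ι) (ι × ι) R) :
    kMat t ι (F * F') = kMat t ι (F' * sMat t ι F) := by
  rw [kMat_apply, kMat_apply]
  simp only [Matrix.mul_apply, map_sum, sMat_apply, Prod.swap_swap]
  rw [Finset.sum_comm]
  apply Finset.sum_congr rfl
  intro Q _
  rw [← (Equiv.prodComm ι ι).sum_comp]
  apply Finset.sum_congr rfl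
  intro P _
  rw [t.tw]
  rfl

/-- The structure on matrices. -/
def mat : TwTr (Matrix (ι × ι) (ι × ι) R) where
  s := sMat t ι
  inv F := by
    ext P Q
    rw [sMat_apply, sMat_apply, t.inv, Prod.swap_swap, Prod.swap_swap]
  κ := kMat t ι
  tw := kMat_tw t ι

/-- Matrices fixed by the involution are norms if the entries fixed by the exchange are. -/
theorem exists_half (F : Matrix (ι × ι) (ι × ι) R) (hF : (mat t ι).s F = F)
    (h : ∀ i k, ∃ x, F (i, i) (k, k) = x + t.s x) : ∃ Z, F = Z + (mat t ι).s Z := by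
  classical
  let e := Fintype.equivFin ((ι × ι) × (ι × ι))
  choose x hx using h
  let Z : Matrix (ι × ι) (ι × ι) R := Matrix.of fun P Q =>
    if e (P, Q) < e (P.swap, Q.swap) then F P Q
    else if e (P, Q) = e (P.swap, Q.swap) then x P.1 Q.1 else 0
  refine ⟨Z, ?_⟩
  ext P Q
  have hF' : t.s (F P.swap Q.swap) = F P Q := congrFun (congrFun hF P) Q
  change F P Q = Z P Q + t.s (Z P.swap Q.swap)
  simp only [Z, of_apply, Prod.swap_swap]
  rcases lt_trichotomy (e (P, Q)) (e (P.swap, Q.swap)) with h1 | h1 | h1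
  · rw [if_pos h1, if_neg (not_lt.2 h1.le), if_neg h1.ne', map_zero, add_zero]
  · rw [if_neg (by rw [h1]; exact lt_irrefl _), if_pos h1, if_neg (by rw [h1]; exact lt_irrefl _),
      if_pos h1.symm]
    have h2 := e.injective h1
    have hP : P = P.swap := congrArg Prod.fst h2
    have hQ : Q = Q.swap := congrArg Prod.snd h2
    obtain ⟨i, j⟩ := P
    obtain ⟨k, l⟩ := Q
    simp only [Prod.swap_prod_mk, Prod.mk.injEq] at hP hQ
    obtain ⟨rfl, -⟩ := hP
    obtain ⟨rfl, -⟩ := hQ
    exact hx i k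
  · rw [if_neg (not_lt.2 h1.le), if_neg h1.ne', if_pos h1, zero_add, hF']

end Tw

end Pool.Agent.H71.WH

end
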