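import Pool.Agent.H71.TCZ.M02
import Pool.Agent.H71.TCZ.M12
import Pool.Agent.H71.TCZ.M14
import Pool.Agent.H71.TCZ.M17

/-! The parts of this file: H71.FQ.EvB, H71.WH.Skew3, H71.WH.Skew3_1, H71.DO.Defs. -/

section

/-!
# Project FQ: the path of a periodic word

`P` is the word with the letters `(z_j⁻¹ z_{j+1}, j)`, `j = 0, …, k` (`z_{k+1} = z_0`); its product is `1`. In
`P ^ r * P'`, `P'` the word `P` with the last letter multiplied by `x` from the right, the vertex before each letter
with label `j` is `u * z_0⁻¹ * z_j`.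
-/

set_option autoImplicit false

universe u v w

namespace Pool.Agent.H71.FQ

section

variable {G : Type u} [Group G] {k : ℕ}

/-- the letters `(z_j⁻¹ z_{j+1}, j)` -/
def perL (z : Fin (k + 1) → G) : List (G × ℕ) :=
  List.ofFn fun j : Fin (k + 1) => ((z j)⁻¹ * z (j + 1), (j : ℕ))

/-- the letters except the last one -/
def perI (z : Fin (k + 1) → G) : List (G × ℕ) :=
  List.ofFn fun j : Fin k => ((z j.castSucc)⁻¹ * z j.succ, (j : ℕ))

theorem perL_eq (z : Fin (k + 1) → G) :
    perL z = perI z ++ [((z (Fin.last k))⁻¹ * z 0, k)] := by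
  rw [perL, List.ofFn_succ', List.concat_eq_append, perI]
  congr 1
  · congr 1
    funext j
    rw [Fin.coeSucc_eq_succ, Fin.val_castSucc]
  · rw [Fin.last_add_one, Fin.val_last]

theorem perI_succ (z : Fin (k + 2) → G) :
    perI z = perI (fun j : Fin (k + 1) => z j.castSucc) ++
      [((z (Fin.last k).castSucc)⁻¹ * z (Fin.last (k + 1)), k)] := by
  rw [perI, List.ofFn_succ', List.concat_eq_append, perI]
  congr 1

/-- the word of a list of letters -/
def wdL (L : List (G × ℕ)) : Wd G := (L.map fun a => let1 a.1 a.2).prod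

omit [Group G] in
theorem wdL_nil : wdL ([] : List (G × ℕ)) = 1 := rfl

omit [Group G] in
theorem wdL_append (L M : List (G × ℕ)) : wdL (L ++ M) = wdL L * wdL M := by
  rw [wdL, List.map_append, List.prod_append, wdL, wdL]

omit [Group G] in
theorem wdL_singleton (x : G) (l : ℕ) : wdL [(x, l)] = let1 x l := by
  rw [wdL, List.map_singleton, List.prod_singleton]

theorem prd_perI (z : Fin (k + 1) → G) : prd (wdL (perI z)) = (z 0)⁻¹ * z (Fin.last k) := by
  induction k with
  | zero =>
    rw [show perI z = [] from rfl, wdL_nil, map_one]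
    exact (inv_mul_cancel _).symm
  | succ k ih =>
    rw [perI_succ, wdL_append, map_mul, ih, wdL_singleton, prd_let1]
    change (z 0)⁻¹ * z (Fin.last k).castSucc * _ = _
    group

theorem prd_perL (z : Fin (k + 1) → G) : prd (wdL (perL z)) = 1 := by
  rw [perL_eq, wdL_append, map_mul, prd_perI, wdL_singleton, prd_let1]
  group

theorem occ_perI (z : Fin (k + 1) → G) (y : G) (m : ℕ) :
    occ m (wdL (perI z)) (y * z 0) =
      if h : m < k then [y * z ⟨m, h.trans (Nat.lt_succ_self k)⟩] else [] := by
  induction k with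
  | zero => rw [show perI z = [] from rfl, wdL_nil, dif_neg (Nat.not_lt_zero m), occ_one]
  | succ k ih =>
    rw [perI_succ, wdL_append, occ_mul, wdL_singleton, occ_let1, prd_perI]
    have h0 := ih (fun j : Fin (k + 1) => z j.castSucc)
    change occ m (wdL (perI fun j : Fin (k + 1) => z j.castSucc)) (y * z 0) = _ at h0
    rw [h0]
    change _ ++ (if k = m then [y * z 0 * ((z 0)⁻¹ * z (Fin.last k).castSucc)] else []) = _
    rcases lt_trichotomy m k with h | h | h
    · rw [dif_pos h, dif_pos (h.trans (Nat.lt_succ_self k)), if_neg h.ne', List.append_nil]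
      rfl
    · subst h
      rw [dif_neg (lt_irrefl m), dif_pos (Nat.lt_succ_self m), if_pos rfl, List.nil_append]
      congr 1
      rw [mul_assoc, mul_inv_cancel_left]
      rfl
    · rw [dif_neg h.not_gt, dif_neg (by omega), if_neg h.ne, List.nil_append]

theorem occ_perL (z : Fin (k + 1) → G) (y : G) (j : Fin (k + 1)) :
    occ (j : ℕ) (wdL (perL z)) (y * z 0) = [y * z j] := by
  rw [perL_eq, wdL_append, occ_mul, wdL_singleton, occ_let1, prd_perI, occ_perI]
  by_cases h : (j : ℕ) < k
  · rw [dif_pos h, if_neg h.ne', List.append_nil]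
  · have hj : j = Fin.last k := Fin.ext (by have := j.2; rw [Fin.val_last]; omega)
    rw [dif_neg h, if_pos (by rw [hj, Fin.val_last]), List.nil_append, mul_assoc,
      mul_inv_cancel_left, hj]

theorem prd_rep (r : ℕ) (z : Fin (k + 1) → G) :
    prd (wdL (List.replicate r (perL z)).flatten) = 1 := by
  induction r with
  | zero => rw [List.replicate_zero, List.flatten_nil, wdL_nil, map_one]
  | succ r ih => rw [List.replicate_succ, List.flatten_cons, wdL_append, map_mul, prd_perL, ih, one_mul]

theorem occ_rep (r : ℕ) (z : Fin (k + 1) → G) (y : G) (j : Fin (k + 1)) :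
    occ (j : ℕ) (wdL (List.replicate r (perL z)).flatten) (y * z 0) =
      List.replicate r (y * z j) := by
  induction r with
  | zero => rw [List.replicate_zero, List.flatten_nil, wdL_nil, occ_one, List.replicate_zero]
  | succ r ih =>
    rw [List.replicate_succ, List.flatten_cons, wdL_append, occ_mul, prd_perL, mul_one, ih,
      occ_perL, List.replicate_succ, List.singleton_append]

/-- the list of the letters of `P ^ r * (P without the last letter)` -/
def perT (r : ℕ) (z : Fin (k + 1) → G) : List (G × ℕ) :=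
  (List.replicate r (perL z)).flatten ++ perI z

theorem prd_per (r : ℕ) (z : Fin (k + 1) → G) (x : G) :
    prd (wdL (perT r z) * let1 ((z (Fin.last k))⁻¹ * z 0 * x) k) = x := by
  rw [map_mul, perT, wdL_append, map_mul, prd_rep, one_mul, prd_perI, prd_let1]
  group

theorem occ_per (r : ℕ) (z : Fin (k + 1) → G) (x u : G) (j : Fin (k + 1)) :
    occ (j : ℕ) (wdL (perT r z) * let1 ((z (Fin.last k))⁻¹ * z 0 * x) k) u =
      List.replicate (r + 1) (u * (z 0)⁻¹ * z j) := by
  have e : u = u * (z 0)⁻¹ * z 0 := by group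
  have h1 : occ (j : ℕ) (wdL (perT r z) * let1 ((z (Fin.last k))⁻¹ * z 0 * x) k)
      (u * (z 0)⁻¹ * z 0) = List.replicate (r + 1) (u * (z 0)⁻¹ * z j) := by
    rw [occ_mul, perT, wdL_append, occ_mul, map_mul, prd_rep, one_mul, mul_one, occ_rep, occ_perI,
      occ_let1, prd_perI, List.replicate_succ', List.append_assoc]
    congr 1
    by_cases h : (j : ℕ) < k
    · rw [dif_pos h, if_neg h.ne', List.append_nil]
    · have hj : j = Fin.last k := Fin.ext (by have := j.2; rw [Fin.val_last]; omega)
      rw [dif_neg h, if_pos (by rw [hj, Fin.val_last]), List.nil_append,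
        mul_assoc _ (z 0) ((z 0)⁻¹ * z (Fin.last k)), mul_inv_cancel_left, hj]
  rw [← e] at h1
  exact h1

/-- The value of `wf` on the periodic word. -/
theorem wf_per {B : Type v} [CommRing B] {c : G} {q : ℕ} (hq : 0 < q)
    {Φ : (Fin (k + 1) → Fin q → G) → B} (hΦ : IsInv c Φ) (z : Fin (k + 1) → G) (x u : G)
    (hu : u * x * u⁻¹ = c) (hz : ∀ j, z j * x = x * z j) :
    wf c Φ (fun j => (j : ℕ))
      (wdL (perT (q - 1) z) * let1 ((z (Fin.last k))⁻¹ * z 0 * x) k) = Φ fun j _ => u * z j := by
  have hq1 : q - 1 + 1 = q := by omega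
  have hcnt : ∀ j : Fin (k + 1), cnt (j : ℕ)
      (wdL (perT (q - 1) z) * let1 ((z (Fin.last k))⁻¹ * z 0 * x) k) = q := by
    intro j
    rw [cnt, occ_per, List.length_replicate, hq1]
  rw [wf_eq hΦ _ _ hcnt (u * z 0) (by
    rw [prd_per, ← hu, mul_assoc u, hz 0]
    group)]
  congr 1
  funext j t
  rw [rd, occ_per, List.getD_eq_getElem _ _ (by rw [List.length_replicate, hq1]; exact t.2),
    List.getElem_replicate]
  group

theorem wf_per_zero {B : Type v} [CommRing B] {c : G} {q : ℕ}
    (Φ : (Fin (k + 1) → Fin q → G) → B) (z : Fin (k + 1) → G) (x : G)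
    (hu : ∀ u : G, u * x * u⁻¹ ≠ c) :
    wf c Φ (fun j => (j : ℕ))
      (wdL (perT (q - 1) z) * let1 ((z (Fin.last k))⁻¹ * z 0 * x) k) = 0 := by
  refine wf_of_prd _ _ _ fun y => ?_
  rw [prd_per]
  exact hu y

end

end Pool.Agent.H71.FQ

end

section

/-!
# Naturality and values of `Lam`
-/

set_option autoImplicit false

open Matrix

universe u v

namespace Pool.Agent.H71.WH

theorem nonUnital_pow {R : Type u} {S : Type v} [Ring R] [Ring S] (J : R →ₙ+* S) (x : R) (k : ℕ) :
    J x ^ (k + 1) = J (x ^ (k + 1)) := by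
  induction k with
  | zero => simp
  | succ k ih => rw [pow_succ, ih, pow_succ x (k + 1), map_mul]

theorem tl_nonUnital {R : Type u} {S : Type v} [Ring R] [Ring S] (J : R →ₙ+* S) (τ : R →+ ℤ)
    (τ' : S →+ ℤ) (h : ∀ x, τ' (J x) = τ x) (x : R) : tl τ' (J x) = tl τ x := by
  apply tl_congr
  intro k
  rw [nonUnital_pow, h]

namespace TwTr

end TwTr

end Pool.Agent.H71.WH

end

section

/-!
# Naturality and values of `Lam`
-/

set_option autoImplicit false

open Matrix

universe u v

namespace Pool.Agent.H71.WH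

namespace TwTr

variable {M : Type u} [Ring M] (t : TwTr M) {M' : Type v} [Ring M'] (t' : TwTr M')

/-- the extension of a morphism to the skew rings -/
def skewMap (j : M →ₙ+* M') (hs : ∀ x, j (t.s x) = t'.s (j x)) : t.skew →ₙ+* t'.skew where
  toFun V := t'.el (j (t.re V)) (j (t.im V))
  map_mul' V W := by
    obtain ⟨a, b, rfl⟩ := t.exists_el V
    obtain ⟨c, d, rfl⟩ := t.exists_el W
    rw [el_mul, re_el, im_el, re_el, im_el, re_el, im_el, el_mul]
    simp only [map_add, map_mul, hs]
  map_zero' := by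
    rw [← el_zero, re_el, im_el, map_zero, el_zero]
  map_add' V W := by
    obtain ⟨a, b, rfl⟩ := t.exists_el V
    obtain ⟨c, d, rfl⟩ := t.exists_el W
    rw [el_add, re_el, im_el, re_el, im_el, re_el, im_el, el_add, map_add, map_add]

theorem skewMap_el (j : M →ₙ+* M') (hs : ∀ x, j (t.s x) = t'.s (j x)) (a b : M) :
    t.skewMap t' j hs (t.el a b) = t'.el (j a) (j b) := by
  change t'.el (j (t.re (t.el a b))) (j (t.im (t.el a b))) = _
  rw [re_el, im_el]

end TwTr

end Pool.Agent.H71.WH

end

section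

/-!
# The assembly map in degree one for the family of finite subgroups

For a commutative ring `R` and a group `G`, `Wh R G` is the quotient of `K₁(R[G])` by the classes of
`-1` and of the elements of `G`. For a family `𝓕` of subgroups of `G`, `ColimWh R G 𝓕` is the
colimit of the groups `Wh(R; F)` over the subgroups `F` in `𝓕`, the morphisms `F → F'` being the
restrictions of the conjugations `x ↦ g x g⁻¹` with `g F g⁻¹ ⊆ F'`, and `assembly R G 𝓕` is the
natural map from it to `Wh R G`.
-/

set_option autoImplicit false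

open Matrix

universe u v w

namespace Pool.Agent.H71.DO

open Pool.Agent.H95.WH (K1 K1.mk K1.unit K1.map K1.map_unit K1.map_map K1_map_conj FamSub conjHom)

section Wh

variable (R : Type u) [CommRing R]

/-- The element `g` of the group as a unit of the group ring. -/
noncomputable def grpUnit (G : Type v) [Group G] : G →* (MonoidAlgebra R G)ˣ :=
  (Units.map (MonoidAlgebra.of R G)).comp toUnits.toMonoidHom

/-- The subgroup of `K₁(R[G])` generated by the classes of `-1` and of the elements of `G`. -/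
noncomputable def WhRel (G : Type v) [Group G] : AddSubgroup (K1 (MonoidAlgebra R G)) :=
  AddSubgroup.closure ({K1.unit (-1)} ∪ Set.range fun g : G => K1.unit (grpUnit R G g))

/-- The quotient of `K₁(R[G])` by the classes of `-1` and of the elements of `G`. -/
def Wh (G : Type v) [Group G] : Type (max u v) := K1 (MonoidAlgebra R G) ⧸ WhRel R G

noncomputable instance instWh (G : Type v) [Group G] : AddCommGroup (Wh R G) :=
  QuotientAddGroup.Quotient.addCommGroup (WhRel R G)

variable {G : Type v} [Group G] {H : Type v} [Group H] {L : Type v} [Group L]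

/-- The homomorphism `K₁(R[G]) → K₁(R[H])` induced by a group homomorphism `G → H`. -/
noncomputable def ind (φ : G →* H) : K1 (MonoidAlgebra R G) →+ K1 (MonoidAlgebra R H) :=
  K1.map (MonoidAlgebra.mapDomainRingHom R φ)

theorem ind_grpUnit (φ : G →* H) (g : G) :
    ind R φ (K1.unit (grpUnit R G g)) = K1.unit (grpUnit R H (φ g)) := by
  rw [ind, K1.map_unit]
  congr 1
  apply Units.ext
  change MonoidAlgebra.mapDomain φ (MonoidAlgebra.single g 1) = MonoidAlgebra.single (φ g) 1
  rw [MonoidAlgebra.mapDomain_single]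

theorem ind_neg_one (φ : G →* H) : ind R φ (K1.unit (-1)) = K1.unit (-1) := by
  rw [ind, K1.map_unit]
  congr 1
  apply Units.ext
  change (MonoidAlgebra.mapDomainRingHom R φ) (-1) = -1
  rw [map_neg, map_one]

/-- The homomorphism `Wh(R; G) → Wh(R; H)` induced by a group homomorphism `G → H`. -/
noncomputable def Wh.map (φ : G →* H) : Wh R G →+ Wh R H :=
  QuotientAddGroup.lift (WhRel R G) ((QuotientAddGroup.mk' (WhRel R H)).comp (ind R φ)) (by
    rw [WhRel, AddSubgroup.closure_le]
    rintro z (hz | ⟨g, rfl⟩)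
    · change QuotientAddGroup.mk' (WhRel R H) (ind R φ z) = 0
      rw [Set.mem_singleton_iff] at hz
      rw [hz, ind_neg_one]
      exact (QuotientAddGroup.eq_zero_iff _).2
        (AddSubgroup.subset_closure (Or.inl (Set.mem_singleton _)))
    · change QuotientAddGroup.mk' (WhRel R H) (ind R φ (K1.unit (grpUnit R G g))) = 0
      rw [ind_grpUnit]
      exact (QuotientAddGroup.eq_zero_iff _).2
        (AddSubgroup.subset_closure (Or.inr ⟨φ g, rfl⟩)))

/-- The projection `K₁(R[G]) → Wh(R; G)`. -/
noncomputable def Wh.mk (G : Type v) [Group G] : K1 (MonoidAlgebra R G) →+ Wh R G :=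
  QuotientAddGroup.mk' (WhRel R G)

theorem Wh.map_mk (φ : G →* H) (x : K1 (MonoidAlgebra R G)) :
    Wh.map R φ (Wh.mk R G x) = Wh.mk R H (ind R φ x) := rfl

theorem Wh.mk_surjective : Function.Surjective (Wh.mk R G) := QuotientAddGroup.mk_surjective

end Wh

section Assembly

variable (R : Type u) [CommRing R] (G : Type v) [Group G] (𝓕 : Subgroup G → Prop)

/-- `⨁_F Wh(R; F)` over the subgroups `F` in the family `𝓕`. -/
abbrev SumWh : Type (max u v) := DirectSum (FamSub G 𝓕) (fun F => Wh R F.1)

/-- The inclusion of the summand of `F`. -/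
noncomputable def inc (F : FamSub G 𝓕) : Wh R F.1 →+ SumWh R G 𝓕 :=
  open scoped Classical in DirectSum.of (fun F : FamSub G 𝓕 => Wh R F.1) F

/-- The relation `c_g(x) - x` of the colimit. -/
noncomputable def rel (F F' : FamSub G 𝓕) (g : G) (h : ∀ x ∈ F.1, g * x * g⁻¹ ∈ F'.1)
    (x : Wh R F.1) : SumWh R G 𝓕 :=
  inc R G 𝓕 F' (Wh.map R (conjHom g F.1 F'.1 h) x) - inc R G 𝓕 F x

/-- The relations of the colimit: `c_g(x) = x` for `x ∈ Wh(R; F)`, `g F g⁻¹ ⊆ F'`. -/
noncomputable def colimRel : AddSubgroup (SumWh R G 𝓕) :=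
  AddSubgroup.closure {z | ∃ F F' g h x, z = rel R G 𝓕 F F' g h x}

/-- The colimit of `Wh(R; F)` over the subgroups `F` in the family `𝓕`. -/
def ColimWh : Type (max u v) := SumWh R G 𝓕 ⧸ colimRel R G 𝓕

noncomputable instance instColimWh : AddCommGroup (ColimWh R G 𝓕) :=
  QuotientAddGroup.Quotient.addCommGroup (colimRel R G 𝓕)

/-- The assembly map on the direct sum, given by the inclusions `F → G`. -/
noncomputable def assemblySum : SumWh R G 𝓕 →+ Wh R G :=
  open scoped Classical in
  DirectSum.toAddMonoid fun F : FamSub G 𝓕 => Wh.map R F.1.subtype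

theorem assemblySum_inc (F : FamSub G 𝓕) (x : Wh R F.1) :
    assemblySum R G 𝓕 (inc R G 𝓕 F x) = Wh.map R F.1.subtype x := by
  classical
  rw [assemblySum, inc, DirectSum.toAddMonoid_of]

end Assembly

theorem single_inv' (R : Type u) [CommRing R] {G : Type v} [Group G] (g : G) :
    (MonoidAlgebra.single g (1 : R)) * MonoidAlgebra.single g⁻¹ 1 = 1 := by
  rw [MonoidAlgebra.single_mul_single, mul_inv_cancel, one_mul]
  rfl

theorem single_inv (R : Type u) [CommRing R] {G : Type v} [Group G] (g : G) :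
    (MonoidAlgebra.single g⁻¹ (1 : R)) * MonoidAlgebra.single g 1 = 1 := by
  rw [MonoidAlgebra.single_mul_single, inv_mul_cancel, one_mul]
  rfl

theorem ind_conj (R : Type u) [CommRing R] {G : Type v} [Group G] (g : G) (F F' : Subgroup G)
    (h : ∀ x ∈ F, g * x * g⁻¹ ∈ F') (x : K1 (MonoidAlgebra R F)) :
    ind R F'.subtype (ind R (conjHom g F F' h) x) = ind R F.subtype x := by
  rw [ind, ind, ind, K1.map_map]
  apply K1_map_conj _ _ (MonoidAlgebra.single g 1) (MonoidAlgebra.single g⁻¹ 1)
    (single_inv' R g) (single_inv R g)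
  intro r
  induction r using MonoidAlgebra.induction_linear with
  | zero => simp
  | add a b ha hb => rw [map_add, ha, hb, map_add, mul_add, add_mul]
  | single s t =>
    change MonoidAlgebra.mapDomain F'.subtype (MonoidAlgebra.mapDomain (conjHom g F F' h)
      (MonoidAlgebra.single s t)) = MonoidAlgebra.single g 1 *
        MonoidAlgebra.mapDomain F.subtype (MonoidAlgebra.single s t) *
        MonoidAlgebra.single g⁻¹ 1
    rw [MonoidAlgebra.mapDomain_single, MonoidAlgebra.mapDomain_single,
      MonoidAlgebra.mapDomain_single, MonoidAlgebra.single_mul_single,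
      MonoidAlgebra.single_mul_single, one_mul, mul_one]
    rfl

section Assembly2

variable (R : Type u) [CommRing R] (G : Type v) [Group G] (𝓕 : Subgroup G → Prop)

theorem colimRel_le : colimRel R G 𝓕 ≤ (assemblySum R G 𝓕).ker := by
  rw [colimRel, AddSubgroup.closure_le]
  rintro z ⟨F, F', g, h, x, rfl⟩
  change assemblySum R G 𝓕 _ = 0
  rw [rel, map_sub, assemblySum_inc, assemblySum_inc]
  obtain ⟨x, rfl⟩ := Wh.mk_surjective R x
  rw [Wh.map_mk, Wh.map_mk, Wh.map_mk, ind_conj, sub_self]

/-- The assembly map for the family `𝓕`. -/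
noncomputable def assembly : ColimWh R G 𝓕 →+ Wh R G :=
  QuotientAddGroup.lift (colimRel R G 𝓕) (assemblySum R G 𝓕) (colimRel_le R G 𝓕)

/-- The class in the colimit of an element of `Wh(R; F)`. -/
noncomputable def cl (F : FamSub G 𝓕) : Wh R F.1 →+ ColimWh R G 𝓕 :=
  (QuotientAddGroup.mk' (colimRel R G 𝓕)).comp (inc R G 𝓕 F)

theorem assembly_cl (F : FamSub G 𝓕) (x : Wh R F.1) :
    assembly R G 𝓕 (cl R G 𝓕 F x) = Wh.map R F.1.subtype x := by
  change assemblySum R G 𝓕 (inc R G 𝓕 F x) = _
  rw [assemblySum_inc]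

theorem cl_conj (F F' : FamSub G 𝓕) (g : G) (h : ∀ x ∈ F.1, g * x * g⁻¹ ∈ F'.1)
    (x : Wh R F.1) :
    cl R G 𝓕 F' (Wh.map R (conjHom g F.1 F'.1 h) x) = cl R G 𝓕 F x := by
  have h1 : rel R G 𝓕 F F' g h x ∈ colimRel R G 𝓕 :=
    AddSubgroup.subset_closure ⟨F, F', g, h, x, rfl⟩
  have h2 : QuotientAddGroup.mk' (colimRel R G 𝓕) (rel R G 𝓕 F F' g h x) = 0 :=
    (QuotientAddGroup.eq_zero_iff _).2 h1
  rw [rel, map_sub, sub_eq_zero] at h2
  exact h2

end Assembly2

end Pool.Agent.H71.DO

end
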