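import Mathlib

/-! The parts of this file: H71.FQ.Cx, H71.FQ.HG, H71.FQ.KQ. -/

section

/-!
# Project FQ: chains of tuples

`Cx R X n` is the module of chains with `n + 1` vertices in `X`, `bd` the boundary (the alternating sum of the
omissions of a vertex), `push f` the chain map of a map `f : X → Y`, `vmap A` the map of a vertex map `A` with values
in measures: the tuple `x` goes to the product of the measures `A (x i)`.

PROOFS. `bd_bd`: the usual identity (`Fin.succAbove` twice). `bd_vmap`: the marginals of a product measure. Homotopy: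
`H (n + 1) x = cone over b (x 0) of (vmap A x - vmap B x - μ H n (bd x))`, recursively; `bd (cone y c) + cone y (bd c) = c`
(for `n = 0`: `bd (cone y c) = c - (sum of the coefficients of c) y`).
-/

set_option autoImplicit false

universe u v w

namespace Pool.Agent.H71.FQ

section

variable (R : Type u) [CommRing R] (X : Type v) (n : ℕ)

/-- chains with `n + 1` vertices in `X` -/
abbrev Cx : Type (max u v) := (Fin (n + 1) → X) →₀ R

/-- the boundary: the alternating sum of the omissions of a vertex -/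
noncomputable def bd : Cx R X (n + 1) →ₗ[R] Cx R X n :=
  Finsupp.linearCombination R fun x : Fin (n + 2) → X =>
    ∑ i : Fin (n + 2), (-1 : R) ^ (i : ℕ) • Finsupp.single (fun j => x (i.succAbove j)) (1 : R)

end

section

variable {R : Type u} [CommRing R] {X : Type v} {Y : Type w}

theorem bd_single (n : ℕ) (x : Fin (n + 2) → X) : bd R X n (Finsupp.single x 1) =
    ∑ i : Fin (n + 2), (-1 : R) ^ (i : ℕ) • Finsupp.single (fun j => x (i.succAbove j)) (1 : R) := by
  rw [bd, Finsupp.linearCombination_single, one_smul]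

theorem bd_bd_single (n : ℕ) (x : Fin (n + 3) → X) :
    bd R X n (bd R X (n + 1) (Finsupp.single x 1)) = 0 := by
  rw [bd_single, map_sum]
  have h1 : ∀ i : Fin (n + 3), bd R X n ((-1 : R) ^ (i : ℕ) •
      Finsupp.single (fun j => x (i.succAbove j)) (1 : R)) =
      ∑ j : Fin (n + 2), ((-1 : R) ^ ((i : ℕ) + (j : ℕ))) •
        Finsupp.single (fun k => x (i.succAbove (j.succAbove k))) (1 : R) := by
    intro i
    rw [map_smul, bd_single, Finset.smul_sum]
    refine Finset.sum_congr rfl fun j _ => ?_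
    rw [smul_smul, ← pow_add]
  rw [Finset.sum_congr rfl fun i _ => h1 i, Finset.sum_sigma']
  refine Finset.sum_involution
    (fun p _ => (⟨p.1.succAbove p.2, p.2.predAbove p.1⟩ : (_ : Fin (n + 3)) × Fin (n + 2))) ?_ ?_ ?_ ?_
  · rintro ⟨i, j⟩ -
    have h2 : (fun k => x ((i.succAbove j).succAbove ((j.predAbove i).succAbove k))) =
        fun k => x (i.succAbove (j.succAbove k)) := by
      funext k
      rw [Fin.succAbove_succAbove_succAbove_predAbove]
    dsimp only
    rw [h2, ← add_smul, Fin.neg_one_pow_succAbove_add_predAbove, add_neg_cancel, zero_smul]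
  · rintro ⟨i, j⟩ - - h3
    have h4 : i.succAbove j = i := congrArg Sigma.fst h3
    exact Fin.succAbove_ne i j h4
  · intro a _
    simp
  · rintro ⟨i, j⟩ -
    dsimp only
    rw [Fin.succAbove_succAbove_predAbove, Fin.predAbove_predAbove_succAbove]

/-- linear maps on chains which agree on the tuples agree -/
theorem cx_ext {M : Type*} [AddCommMonoid M] [Module R M] {n : ℕ} {f g : Cx R X n →ₗ[R] M}
    (h : ∀ x, f (Finsupp.single x 1) = g (Finsupp.single x 1)) (c : Cx R X n) : f c = g c := by
  have h1 : f = g := by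
    refine Finsupp.lhom_ext' fun x => LinearMap.ext_ring ?_
    exact h x
  rw [h1]

theorem bd_bd (n : ℕ) (c : Cx R X (n + 2)) : bd R X n (bd R X (n + 1) c) = 0 :=
  cx_ext (f := (bd R X n).comp (bd R X (n + 1))) (g := 0) (bd_bd_single n) c

/-- the chain map of a map of the vertices -/
noncomputable def push (R : Type u) [CommRing R] (f : X → Y) (n : ℕ) : Cx R X n →ₗ[R] Cx R Y n :=
  Finsupp.linearCombination R fun x : Fin (n + 1) → X => Finsupp.single (fun j => f (x j)) (1 : R)

theorem push_single (f : X → Y) (n : ℕ) (x : Fin (n + 1) → X) :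
    push R f n (Finsupp.single x 1) = Finsupp.single (fun j => f (x j)) 1 := by
  rw [push, Finsupp.linearCombination_single, one_smul]

theorem bd_push (f : X → Y) (n : ℕ) (c : Cx R X (n + 1)) :
    bd R Y n (push R f (n + 1) c) = push R f n (bd R X n c) := by
  refine cx_ext (f := (bd R Y n).comp (push R f (n + 1))) (g := (push R f n).comp (bd R X n)) ?_ c
  intro x
  rw [LinearMap.comp_apply, LinearMap.comp_apply, push_single, bd_single, bd_single, map_sum]
  refine Finset.sum_congr rfl fun i _ => ?_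
  rw [map_smul, push_single]

theorem push_push {Z : Type*} (f : X → Y) (g : Y → Z) (n : ℕ) (c : Cx R X n) :
    push R g n (push R f n c) = push R (fun x => g (f x)) n c := by
  refine cx_ext (f := (push R g n).comp (push R f n)) (g := push R (fun x => g (f x)) n) ?_ c
  intro x
  rw [LinearMap.comp_apply, push_single, push_single, push_single]

theorem push_id (n : ℕ) (c : Cx R X n) : push R (fun x : X => x) n c = c := by
  refine cx_ext (f := push R (fun x : X => x) n) (g := LinearMap.id) ?_ c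
  intro x
  rw [push_single, LinearMap.id_apply]

theorem push_apply_eq_mapDomain (f : X → Y) (n : ℕ) (c : Cx R X n) :
    push R f n c = c.mapDomain fun x j => f (x j) := by
  refine cx_ext (f := push R f n) (g := Finsupp.lmapDomain R R fun (x : Fin (n + 1) → X) j => f (x j))
    ?_ c
  intro x
  rw [push_single, Finsupp.lmapDomain_apply, Finsupp.mapDomain_single]

open Classical in
/-- the product of the measures `A (x i)` -/
noncomputable def tens (A : X → Y →₀ R) (n : ℕ) (x : Fin (n + 1) → X) : Cx R Y n :=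
  Finsupp.onFinset (Fintype.piFinset fun i => (A (x i)).support) (fun y => ∏ i, A (x i) (y i))
    (by
      intro y hy
      rw [Fintype.mem_piFinset]
      intro i
      rw [Finsupp.mem_support_iff]
      intro h
      exact hy (Finset.prod_eq_zero (Finset.mem_univ i) h))

theorem tens_apply (A : X → Y →₀ R) (n : ℕ) (x : Fin (n + 1) → X) (y : Fin (n + 1) → Y) :
    tens A n x y = ∏ i, A (x i) (y i) := rfl

/-- the map of a vertex map with values in measures -/
noncomputable def vmap (A : X → Y →₀ R) (n : ℕ) : Cx R X n →ₗ[R] Cx R Y n :=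
  Finsupp.linearCombination R fun x : Fin (n + 1) → X => tens A n x

theorem vmap_single (A : X → Y →₀ R) (n : ℕ) (x : Fin (n + 1) → X) :
    vmap A n (Finsupp.single x 1) = tens A n x := by
  rw [vmap, Finsupp.linearCombination_single, one_smul]

theorem tens_point (f : X → Y) (n : ℕ) (x : Fin (n + 1) → X) :
    tens (fun a => Finsupp.single (f a) (1 : R)) n x = Finsupp.single (fun j => f (x j)) 1 := by
  classical
  ext y
  rw [tens_apply, Finsupp.single_apply]
  by_cases h : (fun j => f (x j)) = y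
  · rw [if_pos h]
    refine Finset.prod_eq_one fun i _ => ?_
    rw [← h, Finsupp.single_eq_same]
  · rw [if_neg h]
    obtain ⟨i, hi⟩ := Function.ne_iff.1 h
    refine Finset.prod_eq_zero (Finset.mem_univ i) ?_
    rw [Finsupp.single_apply, if_neg hi]

theorem tens_smul_point (μ : R) (f : X → Y) (n : ℕ) (x : Fin (n + 1) → X) :
    tens (fun a => Finsupp.single (f a) μ) n x = μ ^ (n + 1) • Finsupp.single (fun j => f (x j)) 1 := by
  classical
  ext y
  rw [tens_apply, Finsupp.smul_apply, Finsupp.single_apply]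
  by_cases h : (fun j => f (x j)) = y
  · rw [if_pos h, Finset.prod_congr rfl (g := fun _ => μ), Finset.prod_const, Finset.card_univ,
      Fintype.card_fin, smul_eq_mul, mul_one]
    intro i _
    rw [← h, Finsupp.single_eq_same]
  · rw [if_neg h, smul_zero]
    obtain ⟨i, hi⟩ := Function.ne_iff.1 h
    refine Finset.prod_eq_zero (Finset.mem_univ i) ?_
    rw [Finsupp.single_apply, if_neg hi]

/-- the sum of the coefficients -/
noncomputable def mass (a : Y →₀ R) : R := a.sum fun _ r => r

/-! ### Products of measures -/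

open Classical in
/-- the product of the measures `a i` -/
noncomputable def tenf {m : ℕ} (a : Fin m → Y →₀ R) : (Fin m → Y) →₀ R :=
  Finsupp.onFinset (Fintype.piFinset fun i => (a i).support) (fun y => ∏ i, a i (y i))
    (by
      intro y hy
      rw [Fintype.mem_piFinset]
      intro i
      rw [Finsupp.mem_support_iff]
      intro h
      exact hy (Finset.prod_eq_zero (Finset.mem_univ i) h))

theorem tenf_apply {m : ℕ} (a : Fin m → Y →₀ R) (y : Fin m → Y) : tenf a y = ∏ i, a i (y i) := rfl

theorem tens_eq_tenf (A : X → Y →₀ R) (n : ℕ) (x : Fin (n + 1) → X) :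
    tens A n x = tenf fun i => A (x i) := by
  ext y
  rw [tens_apply, tenf_apply]

open Classical in
/-- the product of sums -/
theorem tenf_sum {Z : Type*} {m : ℕ} (a : Fin m → Y →₀ R) (g : Fin m → Y → Z →₀ R) :
    tenf (fun i => (a i).sum fun y r => r • g i y) =
      ∑ y ∈ Fintype.piFinset fun i => (a i).support, (∏ i, a i (y i)) • tenf fun i => g i (y i) := by
  ext z
  rw [tenf_apply, Finsupp.finsetSum_apply]
  have h1 : ∀ i, ((a i).sum fun y r => r • g i y) (z i) =
      ∑ y ∈ (a i).support, a i y * g i y (z i) := by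
    intro i
    rw [Finsupp.sum, Finsupp.finsetSum_apply]
    exact Finset.sum_congr rfl fun y _ => by rw [Finsupp.smul_apply, smul_eq_mul]
  rw [Finset.prod_congr rfl fun i _ => h1 i, Finset.prod_univ_sum]
  refine Finset.sum_congr rfl fun y _ => ?_
  rw [Finsupp.smul_apply, tenf_apply, smul_eq_mul, Finset.prod_mul_distrib]

open Classical in
theorem tenf_eq_sum {m : ℕ} (a : Fin m → Y →₀ R) :
    tenf a = ∑ y ∈ Fintype.piFinset fun i => (a i).support,
      (∏ i, a i (y i)) • Finsupp.single y (1 : R) := by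
  have h1 : ∀ y ∈ Fintype.piFinset fun i => (a i).support, y ∉ (tenf a).support →
      (∏ i, a i (y i)) • Finsupp.single y (1 : R) = 0 := by
    intro y _ hy
    rw [Finsupp.notMem_support_iff, tenf_apply] at hy
    rw [hy, zero_smul]
  have h2 : (tenf a).support ⊆ Fintype.piFinset fun i => (a i).support :=
    Finsupp.support_onFinset_subset
  rw [← Finset.sum_subset h2 h1]
  conv_lhs => rw [← Finsupp.sum_single (tenf a)]
  refine Finset.sum_congr rfl fun y _ => ?_
  rw [Finsupp.smul_single, smul_eq_mul, mul_one, tenf_apply]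

/-- the image of a product of measures -/
theorem vmap_tenf {Z : Type*} (B : Y → Z →₀ R) (n : ℕ) (a : Fin (n + 1) → Y →₀ R) :
    vmap B n (tenf a) = tenf fun i => (a i).sum fun y r => r • B y := by
  classical
  rw [tenf_sum a fun _ => B, tenf_eq_sum, map_sum]
  refine Finset.sum_congr rfl fun y _ => ?_
  rw [map_smul, vmap_single, tens_eq_tenf]

/-- the sum of the coefficients of a product of measures -/
theorem total_tenf {m : ℕ} (a : Fin m → Y →₀ R) :
    Finsupp.linearCombination R (fun _ => (1 : R)) (tenf a) = ∏ i, mass (a i) := by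
  classical
  rw [tenf_eq_sum, map_sum]
  have h1 : ∀ i, mass (a i) = ∑ y ∈ (a i).support, a i y := fun i => rfl
  rw [Finset.prod_congr rfl fun i _ => h1 i, Finset.prod_univ_sum]
  refine Finset.sum_congr rfl fun y _ => ?_
  rw [map_smul, Finsupp.linearCombination_single, smul_eq_mul, smul_eq_mul, mul_one, mul_one]

theorem mapDomain_insertNth {m : ℕ} (i : Fin (m + 1)) (b : Y) (c : (Fin m → Y) →₀ R)
    (y : Fin (m + 1) → Y) [Decidable (b = y i)] :
    c.mapDomain (fun z => (i.insertNth b z : Fin (m + 1) → Y)) y =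
      if b = y i then c (fun j => y (i.succAbove j)) else 0 := by
  split_ifs with h
  · have h1 : (i.insertNth b (fun j => y (i.succAbove j)) : Fin (m + 1) → Y) = y := by
      rw [h]
      exact Fin.insertNth_self_removeNth i y
    have h2 : Function.Injective fun z => (i.insertNth b z : Fin (m + 1) → Y) := by
      intro z z' hz
      exact ((Fin.insertNth_inj).1 hz).2
    conv_lhs => rw [← h1]
    exact Finsupp.mapDomain_apply h2 c fun j => y (i.succAbove j)
  · refine Finsupp.mapDomain_of_notMem_range _ _ ?_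
    rintro ⟨z, rfl⟩
    exact h (Fin.insertNth_apply_same (α := fun _ => Y) i b z).symm

theorem tenf_split {m : ℕ} (i : Fin (m + 1)) (a : Fin (m + 1) → Y →₀ R) :
    tenf a = (a i).sum fun b r =>
      r • (tenf fun j => a (i.succAbove j)).mapDomain fun z => (i.insertNth b z : Fin (m + 1) → Y) := by
  classical
  ext y
  rw [tenf_apply, Fin.prod_univ_succAbove _ i, Finsupp.sum, Finsupp.finsetSum_apply]
  have h1 : ∀ b ∈ (a i).support, (a i b • (tenf fun j => a (i.succAbove j)).mapDomain
      fun z => (i.insertNth b z : Fin (m + 1) → Y)) y =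
      if b = y i then a i b * tenf (fun j => a (i.succAbove j)) (fun j => y (i.succAbove j)) else 0 := by
    intro b _
    rw [Finsupp.smul_apply, mapDomain_insertNth, smul_eq_mul]
    split_ifs
    · rfl
    · exact mul_zero _
  rw [Finset.sum_congr rfl h1, Finset.sum_ite_eq', tenf_apply]
  split_ifs with h
  · rfl
  · rw [Finsupp.notMem_support_iff] at h
    rw [h, zero_mul]

/-- the marginals of a product of measures -/
theorem face_tenf {m : ℕ} (i : Fin (m + 1)) (a : Fin (m + 1) → Y →₀ R) :
    (tenf a).mapDomain (fun y j => y (i.succAbove j)) =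
      mass (a i) • tenf fun j => a (i.succAbove j) := by
  rw [tenf_split i a, Finsupp.sum, Finsupp.mapDomain_finsetSum, mass, Finsupp.sum, Finset.sum_smul]
  refine Finset.sum_congr rfl fun b _ => ?_
  rw [Finsupp.mapDomain_smul, ← Finsupp.mapDomain_comp]
  have h1 : ((fun (y : Fin (m + 1) → Y) j => y (i.succAbove j)) ∘
      fun z => (i.insertNth b z : Fin (m + 1) → Y)) = id := by
    funext z j
    exact Fin.insertNth_apply_succAbove (α := fun _ => Y) i b z j
  rw [h1, Finsupp.mapDomain_id]

theorem bd_apply_eq (n : ℕ) (c : Cx R Y (n + 1)) :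
    bd R Y n c = ∑ i : Fin (n + 2), (-1 : R) ^ (i : ℕ) •
      c.mapDomain (fun y j => y (i.succAbove j)) := by
  have h1 := cx_ext (f := bd R Y n) (g := ∑ i : Fin (n + 2), (-1 : R) ^ (i : ℕ) •
    Finsupp.lmapDomain R R fun (y : Fin (n + 2) → Y) j => y (i.succAbove j)) ?_ c
  · rw [h1, LinearMap.sum_apply]
    exact Finset.sum_congr rfl fun i _ => rfl
  · intro x
    rw [bd_single, LinearMap.sum_apply]
    refine Finset.sum_congr rfl fun i _ => ?_
    rw [LinearMap.smul_apply, Finsupp.lmapDomain_apply, Finsupp.mapDomain_single]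

theorem bd_vmap (A : X → Y →₀ R) (μ : R) (hA : ∀ x, mass (A x) = μ) (n : ℕ) (c : Cx R X (n + 1)) :
    bd R Y n (vmap A (n + 1) c) = μ • vmap A n (bd R X n c) := by
  refine cx_ext (f := (bd R Y n).comp (vmap A (n + 1))) (g := μ • (vmap A n).comp (bd R X n)) ?_ c
  intro x
  rw [LinearMap.comp_apply, LinearMap.smul_apply, LinearMap.comp_apply, vmap_single, bd_single,
    map_sum, bd_apply_eq, Finset.smul_sum]
  refine Finset.sum_congr rfl fun i _ => ?_
  rw [map_smul, vmap_single, tens_eq_tenf, tens_eq_tenf, face_tenf, hA, smul_comm]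

theorem push_eq_vmap (f : X → Y) (n : ℕ) (c : Cx R X n) :
    push R f n c = vmap (fun x => Finsupp.single (f x) (1 : R)) n c := by
  refine cx_ext (f := push R f n) (g := vmap (fun x => Finsupp.single (f x) (1 : R)) n) ?_ c
  intro x
  rw [push_single, vmap_single, tens_point]

theorem vmap_vmap {Z : Type*} (A : X → Y →₀ R) (B : Y → Z →₀ R) (n : ℕ) (c : Cx R X n) :
    vmap B n (vmap A n c) = vmap (fun x => (A x).sum fun y r => r • B y) n c := by
  refine cx_ext (f := (vmap B n).comp (vmap A n))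
    (g := vmap (fun x => (A x).sum fun y r => r • B y) n) ?_ c
  intro x
  rw [LinearMap.comp_apply, vmap_single, vmap_single, tens_eq_tenf, tens_eq_tenf, vmap_tenf]

theorem push_vmap {Z : Type*} (A : X → Y →₀ R) (f : Y → Z) (n : ℕ) (c : Cx R X n) :
    push R f n (vmap A n c) = vmap (fun x => (A x).mapDomain f) n c := by
  rw [push_eq_vmap, vmap_vmap]
  congr 2
  funext x
  rw [Finsupp.mapDomain]
  refine Finset.sum_congr rfl fun y _ => ?_
  change (A x y) • Finsupp.single (f y) (1 : R) = Finsupp.single (f y) (A x y)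
  rw [Finsupp.smul_single, smul_eq_mul, mul_one]

/-- the cone over the point `y` -/
noncomputable def cone (R : Type u) [CommRing R] (y : Y) (n : ℕ) : Cx R Y n →ₗ[R] Cx R Y (n + 1) :=
  Finsupp.linearCombination R fun z : Fin (n + 1) → Y =>
    Finsupp.single (Fin.cons y z : Fin (n + 2) → Y) (1 : R)

theorem cone_single (y : Y) (n : ℕ) (z : Fin (n + 1) → Y) :
    cone R y n (Finsupp.single z 1) = Finsupp.single (Fin.cons y z : Fin (n + 2) → Y) 1 := by
  rw [cone, Finsupp.linearCombination_single, one_smul]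

theorem bd_cone (y : Y) (n : ℕ) (c : Cx R Y (n + 1)) :
    bd R Y (n + 1) (cone R y (n + 1) c) = c - cone R y n (bd R Y n c) := by
  refine cx_ext (f := (bd R Y (n + 1)).comp (cone R y (n + 1)))
    (g := LinearMap.id - (cone R y n).comp (bd R Y n)) ?_ c
  intro z
  rw [LinearMap.comp_apply, LinearMap.sub_apply, LinearMap.comp_apply, cone_single, bd_single,
    bd_single, LinearMap.id_apply, Fin.sum_univ_succ, sub_eq_add_neg, map_sum, ← Finset.sum_neg_distrib]
  congr 1
  · rw [Fin.val_zero, pow_zero, one_smul]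
    rfl
  · refine Finset.sum_congr rfl fun i _ => ?_
    rw [map_smul, cone_single, Fin.val_succ, pow_succ, mul_neg_one, neg_smul]
    congr 3
    funext j
    refine Fin.cases ?_ (fun k => ?_) j
    · rw [Fin.succ_succAbove_zero, Fin.cons_zero, Fin.cons_zero]
    · rw [Fin.succ_succAbove_succ, Fin.cons_succ, Fin.cons_succ]

theorem bd_cone_zero (y : Y) (c : Cx R Y 0) :
    bd R Y 0 (cone R y 0 c) = c - Finsupp.linearCombination R (fun _ => (1 : R)) c •
      Finsupp.single (fun _ => y) (1 : R) := by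
  refine cx_ext (f := (bd R Y 0).comp (cone R y 0))
    (g := LinearMap.id - (Finsupp.linearCombination R (fun _ => (1 : R))).smulRight
      (Finsupp.single (fun _ => y) (1 : R))) ?_ c
  intro z
  rw [LinearMap.comp_apply, LinearMap.sub_apply, LinearMap.smulRight_apply, cone_single, bd_single,
    LinearMap.id_apply, Finsupp.linearCombination_single, one_smul, one_smul, Fin.sum_univ_two,
    sub_eq_add_neg]
  congr 1
  · rw [Fin.val_zero, pow_zero, one_smul]
    rfl
  · rw [Fin.val_one, pow_one, neg_smul, one_smul]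
    congr 2
    funext j
    rw [Subsingleton.elim (α := Fin 1) j 0]
    rfl

theorem push_cone (t : Y → Y) (y : Y) (n : ℕ) (c : Cx R Y n) :
    push R t (n + 1) (cone R y n c) = cone R (t y) n (push R t n c) := by
  refine cx_ext (f := (push R t (n + 1)).comp (cone R y n))
    (g := (cone R (t y) n).comp (push R t n)) ?_ c
  intro z
  rw [LinearMap.comp_apply, LinearMap.comp_apply, push_single, cone_single, cone_single, push_single]
  congr 1
  funext j
  refine Fin.cases ?_ (fun k => ?_) j
  · rfl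
  · rfl

/-- the homotopy -/
noncomputable def hom (A B : X → Y →₀ R) (μ : R) (b : X → Y) : ∀ n, Cx R X n →ₗ[R] Cx R Y (n + 1)
  | 0 => Finsupp.linearCombination R fun x : Fin 1 → X =>
      cone R (b (x 0)) 0 (tens A 0 x - tens B 0 x)
  | n + 1 => Finsupp.linearCombination R fun x : Fin (n + 2) → X =>
      cone R (b (x 0)) (n + 1) (tens A (n + 1) x - tens B (n + 1) x -
        μ • hom A B μ b n (bd R X n (Finsupp.single x 1)))

theorem hom_zero_single (A B : X → Y →₀ R) (μ : R) (b : X → Y) (x : Fin 1 → X) :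
    hom A B μ b 0 (Finsupp.single x 1) = cone R (b (x 0)) 0 (tens A 0 x - tens B 0 x) := by
  rw [hom, Finsupp.linearCombination_single, one_smul]

theorem hom_succ_single (A B : X → Y →₀ R) (μ : R) (b : X → Y) (n : ℕ) (x : Fin (n + 2) → X) :
    hom A B μ b (n + 1) (Finsupp.single x 1) = cone R (b (x 0)) (n + 1)
      (tens A (n + 1) x - tens B (n + 1) x - μ • hom A B μ b n (bd R X n (Finsupp.single x 1))) := by
  rw [hom, Finsupp.linearCombination_single, one_smul]

theorem bd_hom_zero (A B : X → Y →₀ R) (μ : R) (hA : ∀ x, mass (A x) = μ)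
    (hB : ∀ x, mass (B x) = μ) (b : X → Y) (c : Cx R X 0) :
    bd R Y 0 (hom A B μ b 0 c) = vmap A 0 c - vmap B 0 c := by
  refine cx_ext (f := (bd R Y 0).comp (hom A B μ b 0)) (g := vmap A 0 - vmap B 0) ?_ c
  intro x
  rw [LinearMap.comp_apply, LinearMap.sub_apply, hom_zero_single, bd_cone_zero, vmap_single,
    vmap_single, map_sub, tens_eq_tenf, tens_eq_tenf, total_tenf, total_tenf,
    Finset.prod_congr rfl fun i _ => hA (x i), Finset.prod_congr rfl fun i _ => hB (x i), sub_self,
    zero_smul, sub_zero]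

theorem bd_hom_succ (A B : X → Y →₀ R) (μ : R) (hA : ∀ x, mass (A x) = μ)
    (hB : ∀ x, mass (B x) = μ) (b : X → Y) : ∀ (n : ℕ) (c : Cx R X (n + 1)),
    bd R Y (n + 1) (hom A B μ b (n + 1) c) + μ • hom A B μ b n (bd R X n c) =
      vmap A (n + 1) c - vmap B (n + 1) c := by
  intro n
  induction n with
  | zero =>
    intro c
    refine cx_ext (f := (bd R Y 1).comp (hom A B μ b 1) + μ • (hom A B μ b 0).comp (bd R X 0))
      (g := vmap A 1 - vmap B 1) ?_ c
    intro x
    have hw : bd R Y 0 (tens A 1 x - tens B 1 x -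
        μ • hom A B μ b 0 (bd R X 0 (Finsupp.single x 1))) = 0 := by
      rw [map_sub, map_sub, map_smul, bd_hom_zero A B μ hA hB, ← vmap_single, ← vmap_single,
        bd_vmap A μ hA, bd_vmap B μ hB, smul_sub, sub_self]
    rw [LinearMap.add_apply, LinearMap.comp_apply, LinearMap.smul_apply, LinearMap.comp_apply,
      LinearMap.sub_apply, hom_succ_single, bd_cone, hw, map_zero, sub_zero, sub_add_cancel,
      vmap_single, vmap_single]
  | succ n ih =>
    intro c
    refine cx_ext (f := (bd R Y (n + 2)).comp (hom A B μ b (n + 2)) +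
      μ • (hom A B μ b (n + 1)).comp (bd R X (n + 1)))
      (g := vmap A (n + 2) - vmap B (n + 2)) ?_ c
    intro x
    have h1 := ih (bd R X (n + 1) (Finsupp.single x 1))
    rw [bd_bd, map_zero, smul_zero, add_zero] at h1
    have hw : bd R Y (n + 1) (tens A (n + 2) x - tens B (n + 2) x -
        μ • hom A B μ b (n + 1) (bd R X (n + 1) (Finsupp.single x 1))) = 0 := by
      rw [map_sub, map_sub, map_smul, h1, ← vmap_single, ← vmap_single,
        bd_vmap A μ hA, bd_vmap B μ hB, smul_sub, sub_self]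
    rw [LinearMap.add_apply, LinearMap.comp_apply, LinearMap.smul_apply, LinearMap.comp_apply,
      LinearMap.sub_apply, hom_succ_single, bd_cone, hw, map_zero, sub_zero, sub_add_cancel,
      vmap_single, vmap_single]

theorem hom_push (A B : X → Y →₀ R) (μ : R) (b : X → Y) (s : X → X) (t : Y → Y)
    (hA : ∀ x, (A x).mapDomain t = A (s x)) (hB : ∀ x, (B x).mapDomain t = B (s x))
    (hb : ∀ x, t (b x) = b (s x)) : ∀ (n : ℕ) (c : Cx R X n),
    hom A B μ b n (push R s n c) = push R t (n + 1) (hom A B μ b n c) := by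
  have hA' : ∀ (n : ℕ) (x : Fin (n + 1) → X),
      tens A n (fun j => s (x j)) = push R t n (tens A n x) := by
    intro n x
    rw [← vmap_single A n x, push_vmap, vmap_single, tens_eq_tenf, tens_eq_tenf]
    congr 1
    funext i
    exact (hA (x i)).symm
  have hB' : ∀ (n : ℕ) (x : Fin (n + 1) → X),
      tens B n (fun j => s (x j)) = push R t n (tens B n x) := by
    intro n x
    rw [← vmap_single B n x, push_vmap, vmap_single, tens_eq_tenf, tens_eq_tenf]
    congr 1
    funext i
    exact (hB (x i)).symm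
  intro n
  induction n with
  | zero =>
    intro c
    refine cx_ext (f := (hom A B μ b 0).comp (push R s 0))
      (g := (push R t 1).comp (hom A B μ b 0)) ?_ c
    intro x
    rw [LinearMap.comp_apply, LinearMap.comp_apply, push_single, hom_zero_single, hom_zero_single,
      push_cone, hA', hB', hb, ← map_sub]
  | succ n ih =>
    intro c
    refine cx_ext (f := (hom A B μ b (n + 1)).comp (push R s (n + 1)))
      (g := (push R t (n + 2)).comp (hom A B μ b (n + 1))) ?_ c
    intro x
    rw [LinearMap.comp_apply, LinearMap.comp_apply, push_single, hom_succ_single, hom_succ_single,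
      push_cone, hA', hB', hb, ← push_single, bd_push, ih, ← map_sub, ← map_smul, ← map_sub]

/-- **The homotopy between two vertex maps with values in measures of the same mass.** -/
theorem exists_homotopy (A B : X → Y →₀ R) (μ : R) (hA : ∀ x, mass (A x) = μ)
    (hB : ∀ x, mass (B x) = μ) (b : X → Y) :
    ∃ H : ∀ n, Cx R X n →ₗ[R] Cx R Y (n + 1),
      (∀ n (c : Cx R X (n + 1)), bd R Y (n + 1) (H (n + 1) c) + μ • H n (bd R X n c) =
        vmap A (n + 1) c - vmap B (n + 1) c) ∧
      ∀ (s : X → X) (t : Y → Y), (∀ x, (A x).mapDomain t = A (s x)) →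
        (∀ x, (B x).mapDomain t = B (s x)) → (∀ x, t (b x) = b (s x)) →
        ∀ n (c : Cx R X n), H n (push R s n c) = push R t (n + 1) (H n c) :=
  ⟨hom A B μ b, bd_hom_succ A B μ hA hB b, fun s t h1 h2 h3 => hom_push A B μ b s t h1 h2 h3⟩

end

end Pool.Agent.H71.FQ

end

section

/-!
# Project FQ: homology of groups

`HG Γ n` is the homology of the group `Γ` in degree `n + 1` with coefficients in `ℤ`: the chains of degree `m` are
the integral combinations of the tuples `(x_0, …, x_m)` in `Γ`, modulo `(g x_0, …, g x_m) = (x_0, …, x_m)`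
(coinvariants of the standard resolution).

PROOFS. `map_conj`: apply `exists_homotopy` to the two vertex maps `x ↦ f x` and `x ↦ f x * c⁻¹` (point masses),
`b = f`; both commute with the left multiplications, and `push (c * ·)` is the identity modulo `coi`. `map_one`: the
constant tuple is a boundary (degree odd: `bd` of the constant tuple one degree higher) or the sum of the coefficients
of a cycle is zero. `ev_vmap`: `exists_homotopy` for `ν` and `μ` times the point masses at `ψ x`, `b = ψ`; the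
functions `c ↦ linearCombination φ (H c)`.
-/

set_option autoImplicit false

universe u v w

namespace Pool.Agent.H71.FQ

section

variable (Γ : Type v) [Group Γ] (n : ℕ)

/-- the relations `(g x_0, …, g x_n) = (x_0, …, x_n)` -/
noncomputable def coi : Submodule ℤ (Cx ℤ Γ n) :=
  Submodule.span ℤ {c | ∃ (g : Γ) (x : Fin (n + 1) → Γ),
    c = Finsupp.single (fun j => g * x j) 1 - Finsupp.single x 1}

/-- the chains of degree `n + 1` which are cycles modulo these relations -/
noncomputable def cyc : Submodule ℤ (Cx ℤ Γ (n + 1)) := (coi Γ n).comap (bd ℤ Γ n)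

/-- the boundaries and the relations in degree `n + 1` -/
noncomputable def bnd : Submodule ℤ (Cx ℤ Γ (n + 1)) :=
  LinearMap.range (bd ℤ Γ (n + 1)) ⊔ coi Γ (n + 1)

/-- The homology group of degree `n + 1` of the group `Γ` with coefficients in `ℤ`. -/
def HG : Type v := cyc Γ n ⧸ (bnd Γ n).comap (cyc Γ n).subtype

noncomputable instance instHG : AddCommGroup (HG Γ n) :=
  Submodule.Quotient.addCommGroup ((bnd Γ n).comap (cyc Γ n).subtype)

/-- `φ`, a function of `n + 2` variables in `Γ`, is a homogeneous cocycle of degree `n + 1`: it is invariant and the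
alternating sum over the omissions of one of `n + 3` variables vanishes. -/
structure IsCoc {M : Type w} [AddCommGroup M] (φ : (Fin (n + 2) → Γ) → M) : Prop where
  inv : ∀ (g : Γ) (x : Fin (n + 2) → Γ), φ (fun j => g * x j) = φ x
  coc : ∀ x : Fin (n + 3) → Γ,
    ∑ i : Fin (n + 3), (-1 : ℤ) ^ (i : ℕ) • φ (fun j => x (i.succAbove j)) = 0

end

section

variable {Γ : Type v} [Group Γ] {Γ' : Type w} [Group Γ'] {n : ℕ} {M : Type u} [AddCommGroup M]

/-- a linear map which sends the relations into a submodule -/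
theorem coi_le_comap {N : Type*} [AddCommGroup N] (L : Cx ℤ Γ n →ₗ[ℤ] N) (S : Submodule ℤ N)
    (h : ∀ (g : Γ) (x : Fin (n + 1) → Γ),
      L (Finsupp.single (fun j => g * x j) 1) - L (Finsupp.single x 1) ∈ S)
    {c : Cx ℤ Γ n} (hc : c ∈ coi Γ n) : L c ∈ S := by
  have h1 : coi Γ n ≤ S.comap L := by
    rw [coi, Submodule.span_le]
    rintro _ ⟨g, x, rfl⟩
    show L (Finsupp.single (fun j => g * x j) 1 - Finsupp.single x 1) ∈ S
    rw [map_sub]
    exact h g x
  exact h1 hc

theorem push_coi (f : Γ →* Γ') {c : Cx ℤ Γ n} (hc : c ∈ coi Γ n) : push ℤ f n c ∈ coi Γ' n := by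
  refine coi_le_comap (push ℤ f n) (coi Γ' n) ?_ hc
  intro g x
  rw [push_single, push_single]
  refine Submodule.subset_span ⟨f g, fun j => f (x j), ?_⟩
  simp only [map_mul]

theorem push_cyc (f : Γ →* Γ') {c : Cx ℤ Γ (n + 1)} (hc : c ∈ cyc Γ n) :
    push ℤ f (n + 1) c ∈ cyc Γ' n := by
  show bd ℤ Γ' n (push ℤ f (n + 1) c) ∈ coi Γ' n
  rw [bd_push]
  exact push_coi f hc

theorem push_bnd (f : Γ →* Γ') {c : Cx ℤ Γ (n + 1)} (hc : c ∈ bnd Γ n) :
    push ℤ f (n + 1) c ∈ bnd Γ' n := by
  obtain ⟨_, ⟨b, rfl⟩, d, hd, rfl⟩ := Submodule.mem_sup.1 hc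
  rw [map_add, ← bd_push]
  exact Submodule.add_mem_sup (LinearMap.mem_range_self _ _) (push_coi f hd)

/-- the left translations are the identity modulo the relations -/
theorem push_lmul_sub_mem (g : Γ) (c : Cx ℤ Γ n) :
    push ℤ (fun y => g * y) n c - c ∈ coi Γ n := by
  induction c using Finsupp.induction_linear with
  | zero => simp
  | add a b ha hb =>
    have h : push ℤ (fun y => g * y) n (a + b) - (a + b) =
        (push ℤ (fun y => g * y) n a - a) + (push ℤ (fun y => g * y) n b - b) := by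
      rw [map_add]
      abel
    rw [h]
    exact Submodule.add_mem _ ha hb
  | single x r =>
    have h : (Finsupp.single x r : Cx ℤ Γ n) = r • Finsupp.single x 1 := by
      rw [Finsupp.smul_single, smul_eq_mul, mul_one]
    rw [h, map_smul, push_single, ← smul_sub]
    exact Submodule.smul_mem _ _ (Submodule.subset_span ⟨g, x, rfl⟩)

/-- the class of a cycle -/
noncomputable def HG.mk (z : cyc Γ n) : HG Γ n :=
  Submodule.Quotient.mk (p := (bnd Γ n).comap (cyc Γ n).subtype) z

theorem HG.mk_surjective (x : HG Γ n) : ∃ z : cyc Γ n, HG.mk z = x :=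
  Submodule.Quotient.mk_surjective _ x

theorem HG.mk_add (z z' : cyc Γ n) : HG.mk (z + z') = HG.mk z + HG.mk z' := rfl

theorem HG.mk_eq_iff {z z' : cyc Γ n} : HG.mk z = HG.mk z' ↔ (z : Cx ℤ Γ (n + 1)) - z' ∈ bnd Γ n :=
  Submodule.Quotient.eq _

variable (n) in
/-- The homomorphism of the homology groups induced by a homomorphism of groups. -/
noncomputable def HG.map (f : Γ →* Γ') : HG Γ n →+ HG Γ' n :=
  (Submodule.mapQ ((bnd Γ n).comap (cyc Γ n).subtype) ((bnd Γ' n).comap (cyc Γ' n).subtype)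
    ((push ℤ f (n + 1)).restrict fun _ hc => push_cyc f hc)
    fun _ hc => push_bnd f hc).toAddMonoidHom

theorem HG.map_mk (f : Γ →* Γ') (z : cyc Γ n) :
    HG.map n f (HG.mk z) = HG.mk ⟨push ℤ f (n + 1) z, push_cyc f z.2⟩ := rfl

theorem HG.map_id (x : HG Γ n) : HG.map n (MonoidHom.id Γ) x = x := by
  obtain ⟨z, rfl⟩ := HG.mk_surjective x
  rw [HG.map_mk]
  congr 1
  exact Subtype.ext (push_id (n + 1) (z : Cx ℤ Γ (n + 1)))

theorem HG.map_map {Γ'' : Type*} [Group Γ''] (f : Γ →* Γ') (g : Γ' →* Γ'') (x : HG Γ n) :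
    HG.map n g (HG.map n f x) = HG.map n (g.comp f) x := by
  obtain ⟨z, rfl⟩ := HG.mk_surjective x
  rw [HG.map_mk, HG.map_mk, HG.map_mk]
  congr 1
  exact Subtype.ext (push_push (R := ℤ) f g (n + 1) (z : Cx ℤ Γ (n + 1)))

/-- a family of maps which is equivariant sends the relations to the relations -/
theorem equi_coi (f : Γ →* Γ') {m k : ℕ} (H : Cx ℤ Γ m →ₗ[ℤ] Cx ℤ Γ' k)
    (hH : ∀ (g : Γ) (c : Cx ℤ Γ m), H (push ℤ (fun y => g * y) m c) =
      push ℤ (fun y => f g * y) k (H c)) {c : Cx ℤ Γ m} (hc : c ∈ coi Γ m) : H c ∈ coi Γ' k := by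
  refine coi_le_comap H (coi Γ' k) ?_ hc
  intro g x
  have h := hH g (Finsupp.single x 1)
  rw [push_single] at h
  rw [h]
  exact push_lmul_sub_mem (f g) _

theorem vmap_point {X : Type*} {Y : Type*} (f : X → Y) (m : ℕ) (c : Cx ℤ X m) :
    vmap (fun a => Finsupp.single (f a) (1 : ℤ)) m c = push ℤ f m c := by
  unfold vmap push
  congr 1
  congr 1
  funext x
  exact tens_point f m x

theorem vmap_smul_point {X : Type*} {Y : Type*} (μ : ℤ) (f : X → Y) (m : ℕ) (c : Cx ℤ X m) :
    vmap (fun a => Finsupp.single (f a) μ) m c = μ ^ (m + 1) • push ℤ f m c := by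
  have h : vmap (fun a => Finsupp.single (f a) μ) m = μ ^ (m + 1) • push ℤ f m := by
    refine Finsupp.lhom_ext' fun x => LinearMap.ext_ring ?_
    simp only [LinearMap.comp_apply, Finsupp.lsingle_apply, LinearMap.smul_apply]
    rw [vmap_single, push_single]
    exact tens_smul_point μ f m x
  rw [h]
  rfl

theorem mass_single' {Y : Type*} (y : Y) (r : ℤ) : mass (Finsupp.single y r) = r := by
  unfold mass
  rw [Finsupp.sum_single_index rfl]

/-- inner automorphisms act trivially -/
theorem HG.map_conj (f g : Γ →* Γ') (c : Γ') (h : ∀ a, g a = c * f a * c⁻¹) (x : HG Γ n) :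
    HG.map n g x = HG.map n f x := by
  obtain ⟨z, rfl⟩ := HG.mk_surjective x
  rw [HG.map_mk, HG.map_mk, HG.mk_eq_iff]
  show push ℤ g (n + 1) z - push ℤ f (n + 1) z ∈ bnd Γ' n
  obtain ⟨H, h1, h2⟩ := exists_homotopy (R := ℤ) (fun x : Γ => Finsupp.single (f x) 1)
    (fun x : Γ => Finsupp.single (f x * c⁻¹) 1) 1 (fun x => mass_single' _ _)
    (fun x => mass_single' _ _) f
  have e1 := h1 n z
  rw [vmap_point, vmap_point, one_smul] at e1
  have e2 : H n (bd ℤ Γ n z) ∈ coi Γ' (n + 1) := by
    refine equi_coi f (H n) ?_ z.2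
    intro a d
    refine h2 (fun y => a * y) (fun y => f a * y) ?_ ?_ ?_ n d
    · intro y
      simp only [Finsupp.mapDomain_single, map_mul]
    · intro y
      simp only [Finsupp.mapDomain_single, map_mul, mul_assoc]
    · intro y
      simp only [map_mul]
  have e3 : push ℤ g (n + 1) z = push ℤ (fun y => c * y) (n + 1)
      (push ℤ (fun y => f y * c⁻¹) (n + 1) (z : Cx ℤ Γ (n + 1))) := by
    rw [push_push]
    congr 1
    congr 1
    funext y
    rw [h, mul_assoc]
  have e4 := push_lmul_sub_mem c (push ℤ (fun y => f y * c⁻¹) (n + 1) (z : Cx ℤ Γ (n + 1)))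
  have e5 : push ℤ g (n + 1) z - push ℤ f (n + 1) z = bd ℤ Γ' (n + 1) (-(H (n + 1) z)) +
      ((push ℤ (fun y => c * y) (n + 1)
        (push ℤ (fun y => f y * c⁻¹) (n + 1) (z : Cx ℤ Γ (n + 1))) -
        push ℤ (fun y => f y * c⁻¹) (n + 1) (z : Cx ℤ Γ (n + 1))) - H n (bd ℤ Γ n z)) := by
    rw [e3, map_neg]
    have e6 : push ℤ f (n + 1) z = bd ℤ Γ' (n + 1) (H (n + 1) z) + H n (bd ℤ Γ n z) +
        push ℤ (fun y => f y * c⁻¹) (n + 1) (z : Cx ℤ Γ (n + 1)) := by
      rw [e1]
      abel
    rw [e6]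
    abel
  rw [e5]
  exact Submodule.add_mem_sup (LinearMap.mem_range_self _ _) (Submodule.sub_mem _ e4 e2)

/-- the sum of the coefficients, as a linear map -/
noncomputable def msl {X : Type*} (m : ℕ) : Cx ℤ X m →ₗ[ℤ] ℤ :=
  Finsupp.linearCombination ℤ fun _ => (1 : ℤ)

theorem msl_single {X : Type*} (m : ℕ) (x : Fin (m + 1) → X) :
    msl m (Finsupp.single x 1) = 1 := by
  rw [msl, Finsupp.linearCombination_single, one_smul]

theorem msl_coi {m : ℕ} {c : Cx ℤ Γ m} (hc : c ∈ coi Γ m) : msl m c = 0 := by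
  have h := coi_le_comap (msl m) (⊥ : Submodule ℤ ℤ) (fun g x => by
    rw [msl_single, msl_single, sub_self]
    exact Submodule.zero_mem _) hc
  exact (Submodule.mem_bot ℤ).1 h

theorem alt_sum (k : ℕ) : ∑ i : Fin k, (-1 : ℤ) ^ (i : ℕ) = if Even k then 0 else 1 := by
  rw [Fin.sum_univ_eq_sum_range (fun i => (-1 : ℤ) ^ i) k]
  exact neg_one_geom_sum

theorem msl_bd {X : Type*} (m : ℕ) (c : Cx ℤ X (m + 1)) :
    msl m (bd ℤ X m c) = (if Even m then 0 else 1) * msl (m + 1) c := by
  have h : (msl m).comp (bd ℤ X m) = (if Even m then (0 : ℤ) else 1) • msl (m + 1) := by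
    refine Finsupp.lhom_ext' fun x => LinearMap.ext_ring ?_
    simp only [LinearMap.comp_apply, Finsupp.lsingle_apply, LinearMap.smul_apply]
    rw [bd_single, map_sum]
    simp only [map_smul, msl_single, smul_eq_mul, mul_one]
    rw [alt_sum]
    simp [Nat.even_add]
  have h2 := LinearMap.congr_fun h c
  rw [LinearMap.comp_apply, LinearMap.smul_apply, smul_eq_mul] at h2
  exact h2

theorem msl_cyc (hn : Odd n) {c : Cx ℤ Γ (n + 1)} (hc : c ∈ cyc Γ n) : msl (n + 1) c = 0 := by
  have h1 : msl n (bd ℤ Γ n c) = 0 := msl_coi hc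
  rw [msl_bd, if_neg (by rw [Nat.not_even_iff_odd]; exact hn), one_mul] at h1
  exact h1

/-- the trivial homomorphism induces zero in positive degree -/
theorem HG.map_one (x : HG Γ n) : HG.map n (1 : Γ →* Γ') x = 0 := by
  obtain ⟨z, rfl⟩ := HG.mk_surjective x
  have h0 : (0 : HG Γ' n) = HG.mk 0 := rfl
  rw [HG.map_mk, h0, HG.mk_eq_iff]
  show push ℤ (1 : Γ →* Γ') (n + 1) z - 0 ∈ bnd Γ' n
  rw [sub_zero]
  have h1 : ∀ c : Cx ℤ Γ (n + 1), push ℤ (1 : Γ →* Γ') (n + 1) c =
      msl (n + 1) c • Finsupp.single (fun _ => (1 : Γ')) 1 := by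
    intro c
    have h : push ℤ (1 : Γ →* Γ') (n + 1) =
        (msl (n + 1)).smulRight (Finsupp.single (fun _ => (1 : Γ')) (1 : ℤ)) := by
      refine Finsupp.lhom_ext' fun x => LinearMap.ext_ring ?_
      simp only [LinearMap.comp_apply, Finsupp.lsingle_apply, LinearMap.smulRight_apply]
      rw [push_single, msl_single, one_smul]
      rfl
    rw [h]
    rfl
  rw [h1]
  rcases Nat.even_or_odd n with he | ho
  · have h2 : bd ℤ Γ' (n + 1) (Finsupp.single (fun _ => (1 : Γ')) 1) =
        Finsupp.single (fun _ => (1 : Γ')) 1 := by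
      rw [bd_single, ← Finset.sum_smul, alt_sum, if_neg, one_smul]
      rw [Nat.not_even_iff_odd]
      exact (he.add_odd (by decide : Odd 3))
    refine Submodule.smul_mem _ _ ?_
    have h3 : (Finsupp.single (fun _ => (1 : Γ')) 1 : Cx ℤ Γ' (n + 1)) ∈
        LinearMap.range (bd ℤ Γ' (n + 1)) := ⟨_, h2⟩
    exact Submodule.mem_sup_left h3
  · rw [msl_cyc ho z.2, zero_smul]
    exact Submodule.zero_mem _

/-- an invariant function vanishes on the relations -/
theorem inv_coi {m : ℕ} {φ : (Fin (m + 1) → Γ) → M}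
    (h : ∀ (g : Γ) (x : Fin (m + 1) → Γ), φ (fun j => g * x j) = φ x) {c : Cx ℤ Γ m}
    (hc : c ∈ coi Γ m) : Finsupp.linearCombination ℤ φ c = 0 := by
  have h1 := coi_le_comap (Finsupp.linearCombination ℤ φ) (⊥ : Submodule ℤ M) (fun g x => by
    rw [Finsupp.linearCombination_single, Finsupp.linearCombination_single, h g x, sub_self]
    exact Submodule.zero_mem _) hc
  exact (Submodule.mem_bot ℤ).1 h1

/-- the value on a boundary is the value of the coboundary -/
theorem lc_bd {X : Type*} {m : ℕ} (φ : (Fin (m + 1) → X) → M) (c : Cx ℤ X (m + 1)) :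
    Finsupp.linearCombination ℤ φ (bd ℤ X m c) = Finsupp.linearCombination ℤ
      (fun x : Fin (m + 2) → X =>
        ∑ i : Fin (m + 2), (-1 : ℤ) ^ (i : ℕ) • φ (fun j => x (i.succAbove j))) c := by
  have h : (Finsupp.linearCombination ℤ φ).comp (bd ℤ X m) = Finsupp.linearCombination ℤ
      (fun x : Fin (m + 2) → X =>
        ∑ i : Fin (m + 2), (-1 : ℤ) ^ (i : ℕ) • φ (fun j => x (i.succAbove j))) := by
    refine Finsupp.lhom_ext' fun x => LinearMap.ext_ring ?_
    simp only [LinearMap.comp_apply, Finsupp.lsingle_apply]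
    rw [bd_single, map_sum, Finsupp.linearCombination_single, one_smul]
    simp only [map_smul, Finsupp.linearCombination_single, one_smul]
  exact LinearMap.congr_fun h c

theorem coc_bnd {φ : (Fin (n + 2) → Γ) → M} (hφ : IsCoc Γ n φ) {c : Cx ℤ Γ (n + 1)}
    (hc : c ∈ bnd Γ n) : Finsupp.linearCombination ℤ φ c = 0 := by
  obtain ⟨_, ⟨b, rfl⟩, d, hd, rfl⟩ := Submodule.mem_sup.1 hc
  rw [map_add, lc_bd, inv_coi hφ.inv hd, add_zero]
  have h : (fun x : Fin (n + 3) → Γ =>
      ∑ i : Fin (n + 3), (-1 : ℤ) ^ (i : ℕ) • φ (fun j => x (i.succAbove j))) =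
      fun _ => (0 : M) := by
    funext x
    exact hφ.coc x
  rw [h]
  simp [Finsupp.linearCombination_apply]

/-- the value of a cocycle on homology -/
noncomputable def HG.ev {φ : (Fin (n + 2) → Γ) → M} (hφ : IsCoc Γ n φ) : HG Γ n →+ M :=
  (Submodule.liftQ ((bnd Γ n).comap (cyc Γ n).subtype)
    ((Finsupp.linearCombination ℤ φ).comp (cyc Γ n).subtype)
    fun _ hc => coc_bnd hφ hc).toAddMonoidHom

theorem HG.ev_mk {φ : (Fin (n + 2) → Γ) → M} (hφ : IsCoc Γ n φ) (z : cyc Γ n) :
    HG.ev hφ (HG.mk z) = Finsupp.linearCombination ℤ φ (z : Cx ℤ Γ (n + 1)) := rfl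

theorem IsCoc.comp {φ : (Fin (n + 2) → Γ') → M} (hφ : IsCoc Γ' n φ) (f : Γ →* Γ') :
    IsCoc Γ n fun x => φ fun j => f (x j) where
  inv g x := by
    simp only [map_mul]
    exact hφ.inv (f g) fun j => f (x j)
  coc x := hφ.coc fun j => f (x j)

theorem lc_push {X : Type*} {Y : Type*} {m : ℕ} (φ : (Fin (m + 1) → Y) → M) (f : X → Y)
    (c : Cx ℤ X m) : Finsupp.linearCombination ℤ φ (push ℤ f m c) =
      Finsupp.linearCombination ℤ (fun x : Fin (m + 1) → X => φ fun j => f (x j)) c := by
  have h : (Finsupp.linearCombination ℤ φ).comp (push ℤ f m) =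
      Finsupp.linearCombination ℤ (fun x : Fin (m + 1) → X => φ fun j => f (x j)) := by
    refine Finsupp.lhom_ext' fun x => LinearMap.ext_ring ?_
    simp only [LinearMap.comp_apply, Finsupp.lsingle_apply]
    rw [push_single, Finsupp.linearCombination_single, Finsupp.linearCombination_single]
  exact LinearMap.congr_fun h c

theorem lc_vmap {X : Type*} {Y : Type*} {m : ℕ} (φ : (Fin (m + 1) → Y) → M) (A : X → Y →₀ ℤ)
    (c : Cx ℤ X m) : Finsupp.linearCombination ℤ φ (vmap A m c) =
      Finsupp.linearCombination ℤ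
        (fun x : Fin (m + 1) → X => Finsupp.linearCombination ℤ φ (tens A m x)) c := by
  have h : (Finsupp.linearCombination ℤ φ).comp (vmap A m) =
      Finsupp.linearCombination ℤ
        (fun x : Fin (m + 1) → X => Finsupp.linearCombination ℤ φ (tens A m x)) := by
    refine Finsupp.lhom_ext' fun x => LinearMap.ext_ring ?_
    simp only [LinearMap.comp_apply, Finsupp.lsingle_apply]
    rw [vmap_single, Finsupp.linearCombination_single, one_smul]
  exact LinearMap.congr_fun h c

theorem HG.ev_map {φ : (Fin (n + 2) → Γ') → M} (hφ : IsCoc Γ' n φ) (f : Γ →* Γ') (x : HG Γ n) :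
    HG.ev hφ (HG.map n f x) = HG.ev (hφ.comp f) x := by
  obtain ⟨z, rfl⟩ := HG.mk_surjective x
  rw [HG.map_mk, HG.ev_mk, HG.ev_mk]
  exact lc_push φ f (z : Cx ℤ Γ (n + 1))

theorem HG.ev_congr {φ φ' : (Fin (n + 2) → Γ) → M} (hφ : IsCoc Γ n φ) (hφ' : IsCoc Γ n φ')
    (h : ∀ x, φ x = φ' x) (x : HG Γ n) : HG.ev hφ x = HG.ev hφ' x := by
  obtain rfl : φ = φ' := funext h
  rfl

theorem HG.ev_comp {M' : Type*} [AddCommGroup M'] {φ : (Fin (n + 2) → Γ) → M} (hφ : IsCoc Γ n φ)
    (f : M →+ M') (hφ' : IsCoc Γ n fun x => f (φ x)) (x : HG Γ n) :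
    HG.ev hφ' x = f (HG.ev hφ x) := by
  obtain ⟨z, rfl⟩ := HG.mk_surjective x
  rw [HG.ev_mk, HG.ev_mk]
  have h : Finsupp.linearCombination ℤ (fun x => f (φ x)) =
      f.toIntLinearMap.comp (Finsupp.linearCombination ℤ φ) := by
    refine Finsupp.lhom_ext' fun x => LinearMap.ext_ring ?_
    simp only [LinearMap.comp_apply, Finsupp.lsingle_apply]
    rw [Finsupp.linearCombination_single, Finsupp.linearCombination_single, one_smul, one_smul]
    rfl
  exact LinearMap.congr_fun h _

/-- the coboundary of an invariant function vanishes on homology -/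
theorem HG.ev_cob (Ψ : (Fin (n + 1) → Γ) → M) (hΨ : ∀ (g : Γ) x, Ψ (fun j => g * x j) = Ψ x)
    (h : IsCoc Γ n fun x => ∑ i : Fin (n + 2), (-1 : ℤ) ^ (i : ℕ) • Ψ (fun j => x (i.succAbove j)))
    (x : HG Γ n) : HG.ev h x = 0 := by
  obtain ⟨z, rfl⟩ := HG.mk_surjective x
  rw [HG.ev_mk, ← lc_bd]
  exact inv_coi hΨ z.2

/-- a constant cocycle vanishes on homology -/
theorem HG.ev_const (m : M) (h : IsCoc Γ n fun _ => m) (x : HG Γ n) : HG.ev h x = 0 := by
  obtain ⟨z, rfl⟩ := HG.mk_surjective x
  rw [HG.ev_mk]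
  have h1 : ∀ c : Cx ℤ Γ (n + 1), Finsupp.linearCombination ℤ (fun _ => m) c =
      msl (n + 1) c • m := by
    intro c
    have h2 : Finsupp.linearCombination ℤ (fun _ : Fin (n + 2) → Γ => m) =
        (msl (n + 1)).smulRight m := by
      refine Finsupp.lhom_ext' fun x => LinearMap.ext_ring ?_
      simp only [LinearMap.comp_apply, Finsupp.lsingle_apply, LinearMap.smulRight_apply]
      rw [Finsupp.linearCombination_single, msl_single]
    rw [h2]
    rfl
  rw [h1]
  rcases Nat.even_or_odd n with he | ho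
  · have h3 := h.coc fun _ => (1 : Γ)
    rw [← Finset.sum_smul, alt_sum, if_neg, one_smul] at h3
    · rw [h3, smul_zero]
    · rw [Nat.not_even_iff_odd]
      exact (he.add_odd (by decide : Odd 3))
  · rw [msl_cyc ho z.2, zero_smul]

/-- **Comparison of a measure valued equivariant vertex map with a homomorphism.** -/
theorem HG.ev_vmap (ψ : Γ →* Γ') (ν : Γ → Γ' →₀ ℤ) (μ : ℤ) (hμ : ∀ x, mass (ν x) = μ)
    (hν : ∀ g x, ν (g * x) = (ν x).mapDomain fun y => ψ g * y) {φ : (Fin (n + 2) → Γ') → M}
    (hφ : IsCoc Γ' n φ)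
    (h : IsCoc Γ n fun x => Finsupp.linearCombination ℤ φ (tens ν (n + 1) x)) (x : HG Γ n) :
    HG.ev h x = μ ^ (n + 2) • HG.ev hφ (HG.map n ψ x) := by
  obtain ⟨z, rfl⟩ := HG.mk_surjective x
  rw [HG.map_mk, HG.ev_mk, HG.ev_mk, ← lc_vmap]
  show Finsupp.linearCombination ℤ φ (vmap ν (n + 1) (z : Cx ℤ Γ (n + 1))) =
    μ ^ (n + 2) • Finsupp.linearCombination ℤ φ (push ℤ ψ (n + 1) (z : Cx ℤ Γ (n + 1)))
  obtain ⟨H, h1, h2⟩ := exists_homotopy (R := ℤ) ν (fun x : Γ => Finsupp.single (ψ x) μ) μ hμ
    (fun x => mass_single' _ _) ψ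
  have e1 := h1 n z
  rw [vmap_smul_point] at e1
  have e2 : H n (bd ℤ Γ n z) ∈ coi Γ' (n + 1) := by
    refine equi_coi ψ (H n) ?_ z.2
    intro a d
    refine h2 (fun y => a * y) (fun y => ψ a * y) ?_ ?_ ?_ n d
    · intro y
      exact (hν a y).symm
    · intro y
      simp only [Finsupp.mapDomain_single, map_mul]
    · intro y
      simp only [map_mul]
  have e3 : vmap ν (n + 1) (z : Cx ℤ Γ (n + 1)) =
      (bd ℤ Γ' (n + 1) (H (n + 1) z) + μ • H n (bd ℤ Γ n z)) +
        μ ^ (n + 2) • push ℤ ψ (n + 1) (z : Cx ℤ Γ (n + 1)) := by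
    rw [e1]
    abel
  have e4 : bd ℤ Γ' (n + 1) (H (n + 1) z) + μ • H n (bd ℤ Γ n z) ∈ bnd Γ' n :=
    Submodule.add_mem_sup (LinearMap.mem_range_self _ _) (Submodule.smul_mem _ _ e2)
  rw [e3, map_add, coc_bnd hφ e4, zero_add, map_smul]

end

end Pool.Agent.H71.FQ

end

section

/-!
# Project FQ: rational algebraic K-groups through the homology of linear groups

`KQ A n` is the sum over `N` of the groups `H_{n+1}(GL_N(A); ℤ)` modulo the relations
`[w] = [pr₁ w] + [pr₂ w]`, `w ∈ H_{n+1}(GL_N(A) × GL_M(A); ℤ)`, where `[w]` is the class of the image of `w` in the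
homology of `GL_{N+M}(A)` under the block sum.
-/

set_option autoImplicit false

open Matrix

universe u v w

namespace Pool.Agent.H71.FQ

/-- The group `GL_N(A)`. -/
abbrev GLm (N : ℕ) (A : Type u) [Ring A] : Type u := (Matrix (Fin N) (Fin N) A)ˣ

section

variable {A : Type u} [Ring A]

/-- The block sum of two matrices. -/
def blkM {N M : ℕ} (X : Matrix (Fin N) (Fin N) A) (Y : Matrix (Fin M) (Fin M) A) :
    Matrix (Fin (N + M)) (Fin (N + M)) A :=
  (fromBlocks X 0 0 Y).submatrix finSumFinEquiv.symm finSumFinEquiv.symm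

theorem blkM_mul {N M : ℕ} (X X' : Matrix (Fin N) (Fin N) A) (Y Y' : Matrix (Fin M) (Fin M) A) :
    blkM X Y * blkM X' Y' = blkM (X * X') (Y * Y') := by
  rw [blkM, blkM, submatrix_mul_equiv, fromBlocks_multiply, blkM]
  simp

theorem blkM_one (N M : ℕ) :
    blkM (1 : Matrix (Fin N) (Fin N) A) (1 : Matrix (Fin M) (Fin M) A) = 1 := by
  rw [blkM, fromBlocks_one, submatrix_one_equiv]

/-- The block sum `GL_N(A) × GL_M(A) → GL_{N+M}(A)`. -/
def blk (N M : ℕ) (A : Type u) [Ring A] : GLm N A × GLm M A →* GLm (N + M) A where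
  toFun w := ⟨blkM w.1.val w.2.val, blkM w.1.inv w.2.inv, by
    rw [blkM_mul, Units.val_inv, Units.val_inv, blkM_one], by
    rw [blkM_mul, Units.inv_val, Units.inv_val, blkM_one]⟩
  map_one' := Units.ext (blkM_one N M)
  map_mul' w w' := Units.ext (blkM_mul w.1.val w'.1.val w.2.val w'.2.val).symm

theorem blk_val {N M : ℕ} (w : GLm N A × GLm M A) : (blk N M A w).val = blkM w.1.val w.2.val := rfl

end

section

variable (A : Type u) [Ring A] (n : ℕ)

/-- The sum of the homology groups of degree `n + 1` of the groups `GL_N(A)`. -/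
def SumH : Type u := DirectSum ℕ fun N => HG (GLm N A) n

noncomputable instance instSumH : AddCommGroup (SumH A n) :=
  DirectSum.instAddCommGroup (β := fun N => HG (GLm N A) n)

/-- The inclusion of a summand. -/
noncomputable def incH (N : ℕ) : HG (GLm N A) n →+ SumH A n :=
  DirectSum.of (fun N => HG (GLm N A) n) N

/-- The relations `[w] = [pr₁ w] + [pr₂ w]`. -/
noncomputable def blkRel : AddSubgroup (SumH A n) :=
  AddSubgroup.closure {y | ∃ (N M : ℕ) (w : HG (GLm N A × GLm M A) n),
    y = incH A n (N + M) (HG.map n (blk N M A) w) -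
      (incH A n N (HG.map n (MonoidHom.fst (GLm N A) (GLm M A)) w) +
        incH A n M (HG.map n (MonoidHom.snd (GLm N A) (GLm M A)) w))}

/-- The group `KQ A n`; its tensor product with `ℚ` is `K_{n+1}(A) ⊗ ℚ`. -/
def KQ : Type u := SumH A n ⧸ blkRel A n

noncomputable instance instKQ : AddCommGroup (KQ A n) :=
  QuotientAddGroup.Quotient.addCommGroup (blkRel A n)

/-- The class in `KQ A n` of a homology class of `GL_N(A)`. -/
noncomputable def KQ.cls (N : ℕ) : HG (GLm N A) n →+ KQ A n :=
  (QuotientAddGroup.mk' (blkRel A n)).comp (incH A n N)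

end

section

variable {A : Type u} [Ring A] {n : ℕ}

theorem KQ.cls_blk {N M : ℕ} (w : HG (GLm N A × GLm M A) n) :
    KQ.cls A n (N + M) (HG.map n (blk N M A) w) =
      KQ.cls A n N (HG.map n (MonoidHom.fst (GLm N A) (GLm M A)) w) +
        KQ.cls A n M (HG.map n (MonoidHom.snd (GLm N A) (GLm M A)) w) := by
  rw [← sub_eq_zero]
  show QuotientAddGroup.mk' (blkRel A n) _ -
    (QuotientAddGroup.mk' (blkRel A n) _ + QuotientAddGroup.mk' (blkRel A n) _) = 0
  rw [← map_add, ← map_sub, QuotientAddGroup.mk'_apply, QuotientAddGroup.eq_zero_iff]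
  exact AddSubgroup.subset_closure ⟨N, M, w, rfl⟩

/-- the universal property of the sum -/
noncomputable def liftS {M : Type v} [AddCommGroup M] (f : ∀ N, HG (GLm N A) n →+ M) :
    SumH A n →+ M := DirectSum.toAddMonoid f

theorem liftS_incH {M : Type v} [AddCommGroup M] (f : ∀ N, HG (GLm N A) n →+ M) (N : ℕ)
    (x : HG (GLm N A) n) : liftS f (incH A n N x) = f N x :=
  DirectSum.toAddMonoid_of f N x

theorem liftS_rel {M : Type v} [AddCommGroup M] (f : ∀ N, HG (GLm N A) n →+ M)
    (h : ∀ (N M' : ℕ) (w : HG (GLm N A × GLm M' A) n),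
      f (N + M') (HG.map n (blk N M' A) w) =
        f N (HG.map n (MonoidHom.fst (GLm N A) (GLm M' A)) w) +
          f M' (HG.map n (MonoidHom.snd (GLm N A) (GLm M' A)) w)) :
    blkRel A n ≤ (liftS f).ker := by
  rw [blkRel, AddSubgroup.closure_le]
  rintro _ ⟨N, M', w, rfl⟩
  show liftS f _ = 0
  rw [map_sub, map_add, liftS_incH, liftS_incH, liftS_incH, h, sub_self]

/-- The universal property. -/
noncomputable def KQ.lift {M : Type v} [AddCommGroup M] (f : ∀ N, HG (GLm N A) n →+ M)
    (h : ∀ (N M' : ℕ) (w : HG (GLm N A × GLm M' A) n),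
      f (N + M') (HG.map n (blk N M' A) w) =
        f N (HG.map n (MonoidHom.fst (GLm N A) (GLm M' A)) w) +
          f M' (HG.map n (MonoidHom.snd (GLm N A) (GLm M' A)) w)) : KQ A n →+ M :=
  QuotientAddGroup.lift (blkRel A n) (DirectSum.toAddMonoid f) (liftS_rel f h)

theorem KQ.lift_cls {M : Type v} [AddCommGroup M] (f : ∀ N, HG (GLm N A) n →+ M)
    (h : ∀ (N M' : ℕ) (w : HG (GLm N A × GLm M' A) n),
      f (N + M') (HG.map n (blk N M' A) w) =
        f N (HG.map n (MonoidHom.fst (GLm N A) (GLm M' A)) w) +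
          f M' (HG.map n (MonoidHom.snd (GLm N A) (GLm M' A)) w)) (N : ℕ)
    (x : HG (GLm N A) n) : KQ.lift f h (KQ.cls A n N x) = f N x :=
  DirectSum.toAddMonoid_of f N x

theorem KQ.hom_ext {M : Type v} [AddCommGroup M] {f g : KQ A n →+ M}
    (h : ∀ N x, f (KQ.cls A n N x) = g (KQ.cls A n N x)) : f = g := by
  refine QuotientAddGroup.addMonoidHom_ext (blkRel A n) ?_
  refine DirectSum.addHom_ext fun N x => ?_
  exact h N x

/-- The homomorphism of the groups of matrices induced by a homomorphism of rings. -/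
def mapGL {A' : Type v} [Ring A'] (f : A →+* A') (N : ℕ) : GLm N A →* GLm N A' :=
  Units.map f.mapMatrix.toMonoidHom

theorem mapGL_val {A' : Type v} [Ring A'] (f : A →+* A') (N : ℕ) (X : GLm N A) :
    (mapGL f N X).val = X.val.map f := rfl

theorem blkM_map {A' : Type v} [Ring A'] (f : A →+* A') {N M : ℕ} (X : Matrix (Fin N) (Fin N) A)
    (Y : Matrix (Fin M) (Fin M) A) : (blkM X Y).map f = blkM (X.map f) (Y.map f) := by
  rw [blkM, blkM, ← submatrix_map, fromBlocks_map, Matrix.map_zero f (map_zero f),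
    Matrix.map_zero f (map_zero f)]

theorem mapGL_comp_blk {A' : Type v} [Ring A'] (f : A →+* A') (N M : ℕ) :
    (mapGL f (N + M)).comp (blk N M A) =
      (blk N M A').comp (((mapGL f N).comp (MonoidHom.fst (GLm N A) (GLm M A))).prod
        ((mapGL f M).comp (MonoidHom.snd (GLm N A) (GLm M A)))) := by
  refine MonoidHom.ext fun w => Units.ext ?_
  exact blkM_map f w.1.val w.2.val

theorem KQ.map_aux {A' : Type v} [Ring A'] (f : A →+* A') (N M : ℕ)
    (w : HG (GLm N A × GLm M A) n) :
    KQ.cls A' n (N + M) (HG.map n (mapGL f (N + M)) (HG.map n (blk N M A) w)) =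
      KQ.cls A' n N (HG.map n (mapGL f N) (HG.map n (MonoidHom.fst (GLm N A) (GLm M A)) w)) +
        KQ.cls A' n M (HG.map n (mapGL f M) (HG.map n (MonoidHom.snd (GLm N A) (GLm M A)) w)) := by
  rw [HG.map_map, HG.map_map, HG.map_map, mapGL_comp_blk, ← HG.map_map, KQ.cls_blk, HG.map_map,
    HG.map_map, MonoidHom.fst_comp_prod, MonoidHom.snd_comp_prod]

/-- Functoriality of `KQ`. -/
noncomputable def KQ.map {A' : Type v} [Ring A'] (f : A →+* A') : KQ A n →+ KQ A' n :=
  KQ.lift (fun N => (KQ.cls A' n N).comp (HG.map n (mapGL f N))) (KQ.map_aux f)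

theorem KQ.map_cls {A' : Type v} [Ring A'] (f : A →+* A') (N : ℕ) (x : HG (GLm N A) n) :
    KQ.map f (KQ.cls A n N x) = KQ.cls A' n N (HG.map n (mapGL f N) x) :=
  KQ.lift_cls _ _ N x

variable {Γ : Type w} [Group Γ]

/-- the class of a pair of representations -/
theorem KQ.cls_pair {N M : ℕ} (f : Γ →* GLm N A) (g : Γ →* GLm M A) (x : HG Γ n) :
    KQ.cls A n (N + M) (HG.map n ((blk N M A).comp (f.prod g)) x) =
      KQ.cls A n N (HG.map n f x) + KQ.cls A n M (HG.map n g x) := by
  rw [← HG.map_map, KQ.cls_blk, HG.map_map, HG.map_map, MonoidHom.fst_comp_prod,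
    MonoidHom.snd_comp_prod]

/-- a matrix over `Fin N ⊕ Fin M` as a matrix over `Fin (N + M)` -/
def toFin {N M : ℕ} (W : (Matrix (Fin N ⊕ Fin M) (Fin N ⊕ Fin M) A)ˣ) : GLm (N + M) A where
  val := W.val.submatrix finSumFinEquiv.symm finSumFinEquiv.symm
  inv := W.inv.submatrix finSumFinEquiv.symm finSumFinEquiv.symm
  val_inv := by rw [submatrix_mul_equiv, Units.val_inv, submatrix_one_equiv]
  inv_val := by rw [submatrix_mul_equiv, Units.inv_val, submatrix_one_equiv]

/-- **Two representations which are conjugate after adding trivial blocks give the same class.** -/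
theorem KQ.cls_congr {N M : ℕ} (f : Γ →* GLm N A) (g : Γ →* GLm M A)
    (W : (Matrix (Fin N ⊕ Fin M) (Fin N ⊕ Fin M) A)ˣ)
    (h : ∀ γ, fromBlocks (f γ).val 0 0 1 * W.val = W.val * fromBlocks 1 0 0 (g γ).val)
    (x : HG Γ n) : KQ.cls A n N (HG.map n f x) = KQ.cls A n M (HG.map n g x) := by
  have h1 := KQ.cls_pair f (1 : Γ →* GLm M A) x
  have h2 := KQ.cls_pair (1 : Γ →* GLm N A) g x
  rw [HG.map_one, map_zero, add_zero] at h1
  rw [HG.map_one, map_zero, zero_add] at h2
  rw [← h1, ← h2]
  congr 1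
  refine HG.map_conj _ _ (toFin W) ?_ x
  intro γ
  rw [eq_mul_inv_iff_mul_eq]
  refine Units.ext ?_
  show blkM (f γ).val (1 : Matrix (Fin M) (Fin M) A) *
      W.val.submatrix finSumFinEquiv.symm finSumFinEquiv.symm =
    W.val.submatrix finSumFinEquiv.symm finSumFinEquiv.symm *
      blkM (1 : Matrix (Fin N) (Fin N) A) (g γ).val
  rw [blkM, blkM, submatrix_mul_equiv, submatrix_mul_equiv, h γ]

/-- additivity on block sums of representations -/
theorem KQ.cls_sum {N M : ℕ} (f : Γ →* GLm N A) (g : Γ →* GLm M A) (h : Γ →* GLm (N + M) A)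
    (hh : ∀ γ, (h γ).val = blkM (f γ).val (g γ).val) (x : HG Γ n) :
    KQ.cls A n (N + M) (HG.map n h x) =
      KQ.cls A n N (HG.map n f x) + KQ.cls A n M (HG.map n g x) := by
  rw [← KQ.cls_pair]
  congr 2
  refine congrArg (HG.map n) ?_
  exact MonoidHom.ext fun γ => Units.ext (hh γ)

end

end Pool.Agent.H71.FQ

end
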