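import Pool.Agent.H71.TCZ.H71.DB.Bass
import Pool.Agent.H71.TCZ.M01

/-! The parts of this file: H16.KN.QC, H71.FQ.Asm. -/

section

/-!
# Project KN: chains of tuples of invertible matrices modulo block sums

`QC A k` : integral combinations of tuples `(N; x_0, …, x_k)` of matrices in `GL_N(A)`, modulo
`(g x_0, …, g x_k) = (x_0, …, x_k)` and `(blk x y) = (x) + (y)`; `qbd` is the boundary.  `ofKQ` maps `KQ A n` to the
homology of degree `n + 1` of this complex.

PROOFS.  `qbd`: lift of `∑ (-1)^i • t (x without x_i)`; `blk` of the faces is the face of `blk`.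
`ofKQ`: `KQ.lift (fun N => ..)`; on `HG (GLm N A) n` the class of a cycle `z` goes to the class of `ch N (n+1) z`
(`ch` sends `coi` to `0` and commutes with the boundaries); the block relation holds for every single tuple.
-/

set_option autoImplicit false

open Matrix

universe u v w

namespace Pool.Agent.H16.KN

open Pool.Agent.H71.FQ

section

variable (A : Type u) [Ring A] (k : ℕ)

/-- the tuples of `k + 1` invertible matrices of the same size -/
abbrev Gen : Type u := Σ N : ℕ, (Fin (k + 1) → GLm N A)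

/-- the relations -/
noncomputable def qrel : AddSubgroup (Gen A k →₀ ℤ) :=
  AddSubgroup.closure
    ({c | ∃ (N : ℕ) (g : GLm N A) (x : Fin (k + 1) → GLm N A),
      c = Finsupp.single (⟨N, fun j => g * x j⟩ : Gen A k) 1 - Finsupp.single (⟨N, x⟩ : Gen A k) 1} ∪
    {c | ∃ (N M : ℕ) (x : Fin (k + 1) → GLm N A) (y : Fin (k + 1) → GLm M A),
      c = Finsupp.single (⟨N + M, fun j => blk N M A (x j, y j)⟩ : Gen A k) 1 -
        (Finsupp.single (⟨N, x⟩ : Gen A k) 1 + Finsupp.single (⟨M, y⟩ : Gen A k) 1)})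

/-- The chains with `k + 1` vertices. -/
def QC : Type u := (Gen A k →₀ ℤ) ⧸ qrel A k

noncomputable instance instQC : AddCommGroup (QC A k) :=
  QuotientAddGroup.Quotient.addCommGroup (qrel A k)

variable {A k}

/-- the class of a tuple -/
noncomputable def QC.t (N : ℕ) (x : Fin (k + 1) → GLm N A) : QC A k :=
  QuotientAddGroup.mk' (qrel A k) (Finsupp.single (⟨N, x⟩ : Gen A k) 1)

theorem QC.t_inv (N : ℕ) (g : GLm N A) (x : Fin (k + 1) → GLm N A) :
    QC.t N (fun j => g * x j) = QC.t N x := by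
  rw [← sub_eq_zero]
  show QuotientAddGroup.mk' (qrel A k) _ - QuotientAddGroup.mk' (qrel A k) _ = 0
  rw [← map_sub, QuotientAddGroup.mk'_apply, QuotientAddGroup.eq_zero_iff]
  exact AddSubgroup.subset_closure (Or.inl ⟨N, g, x, rfl⟩)

theorem QC.t_blk (N M : ℕ) (x : Fin (k + 1) → GLm N A) (y : Fin (k + 1) → GLm M A) :
    QC.t (N + M) (fun j => blk N M A (x j, y j)) = QC.t N x + QC.t M y := by
  rw [← sub_eq_zero]
  show QuotientAddGroup.mk' (qrel A k) _ -
    (QuotientAddGroup.mk' (qrel A k) _ + QuotientAddGroup.mk' (qrel A k) _) = 0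
  rw [← map_add, ← map_sub, QuotientAddGroup.mk'_apply, QuotientAddGroup.eq_zero_iff]
  exact AddSubgroup.subset_closure (Or.inr ⟨N, M, x, y, rfl⟩)

private theorem qc_zsmul {P : QC A k → Prop} (h0 : P 0) (ha : ∀ a b, P a → P b → P (a + b))
    (hn : ∀ a, P a → P (-a)) {a : QC A k} (h : P a) (r : ℤ) : P (r • a) := by
  induction r using Int.induction_on with
  | zero => rwa [zero_smul]
  | succ i ih =>
    rw [add_smul, one_smul]
    exact ha _ _ ih h
  | pred i ih =>
    rw [sub_smul, one_smul, sub_eq_add_neg]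
    exact ha _ _ ih (hn _ h)

private theorem qc_single (s : Gen A k) (r : ℤ) :
    (QuotientAddGroup.mk' (qrel A k) (Finsupp.single s r) : QC A k) = r • QC.t s.1 s.2 := by
  have h : Finsupp.single s r = r • (Finsupp.single s 1 : Gen A k →₀ ℤ) := by
    rw [Finsupp.smul_single, smul_eq_mul, mul_one]
  rw [h]
  exact map_zsmul (QuotientAddGroup.mk' (qrel A k)) r (Finsupp.single s 1)

theorem QC.induction {P : QC A k → Prop} (h0 : P 0) (ht : ∀ N x, P (QC.t N x))
    (ha : ∀ a b, P a → P b → P (a + b)) (hn : ∀ a, P a → P (-a)) (w : QC A k) : P w := by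
  obtain ⟨c, rfl⟩ := QuotientAddGroup.mk'_surjective (qrel A k) w
  induction c using Finsupp.induction_linear with
  | zero =>
    rw [map_zero]
    exact h0
  | add a b iha ihb =>
    rw [map_add]
    exact ha _ _ iha ihb
  | single s r =>
    rw [qc_single]
    exact qc_zsmul h0 ha hn (ht s.1 s.2) r

theorem QC.hom_ext {M : Type*} [AddCommGroup M] {f g : QC A k →+ M}
    (h : ∀ N x, f (QC.t N x) = g (QC.t N x)) : f = g :=
  AddMonoidHom.ext fun w => QC.induction (P := fun w => f w = g w) (by rw [map_zero, map_zero]) h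
    (fun a b ha hb => by rw [map_add, map_add, ha, hb]) (fun a ha => by rw [map_neg, map_neg, ha]) w

private theorem qc_lift_single {M : Type*} [AddCommGroup M] (F : ∀ N, (Fin (k + 1) → GLm N A) → M)
    (s : Gen A k) : (Finsupp.liftAddHom fun s : Gen A k => (zmultiplesHom M) (F s.1 s.2))
      (Finsupp.single s 1) = F s.1 s.2 := by
  rw [Finsupp.liftAddHom_apply_single, zmultiplesHom_apply, one_zsmul]

private theorem qc_rel {M : Type*} [AddCommGroup M] (F : ∀ N, (Fin (k + 1) → GLm N A) → M)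
    (hinv : ∀ N (g : GLm N A) x, F N (fun j => g * x j) = F N x)
    (hblk : ∀ N M' (x : Fin (k + 1) → GLm N A) (y : Fin (k + 1) → GLm M' A),
      F (N + M') (fun j => blk N M' A (x j, y j)) = F N x + F M' y) :
    qrel A k ≤ (Finsupp.liftAddHom fun s : Gen A k => (zmultiplesHom M) (F s.1 s.2)).ker := by
  rw [qrel, AddSubgroup.closure_le]
  rintro _ (⟨N, g, x, rfl⟩ | ⟨N, M', x, y, rfl⟩)
  · show (Finsupp.liftAddHom fun s : Gen A k => (zmultiplesHom M) (F s.1 s.2)) _ = 0
    rw [map_sub, qc_lift_single, qc_lift_single, sub_eq_zero]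
    exact hinv N g x
  · show (Finsupp.liftAddHom fun s : Gen A k => (zmultiplesHom M) (F s.1 s.2)) _ = 0
    rw [map_sub, map_add, qc_lift_single, qc_lift_single, qc_lift_single, sub_eq_zero]
    exact hblk N M' x y

/-- homomorphisms out of `QC A k` -/
noncomputable def QC.lift {M : Type*} [AddCommGroup M] (F : ∀ N, (Fin (k + 1) → GLm N A) → M)
    (hinv : ∀ N (g : GLm N A) x, F N (fun j => g * x j) = F N x)
    (hblk : ∀ N M' (x : Fin (k + 1) → GLm N A) (y : Fin (k + 1) → GLm M' A),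
      F (N + M') (fun j => blk N M' A (x j, y j)) = F N x + F M' y) : QC A k →+ M :=
  QuotientAddGroup.lift (qrel A k)
    (Finsupp.liftAddHom fun s : Gen A k => (zmultiplesHom M) (F s.1 s.2)) (qc_rel F hinv hblk)

theorem QC.lift_t {M : Type*} [AddCommGroup M] (F : ∀ N, (Fin (k + 1) → GLm N A) → M)
    (hinv : ∀ N (g : GLm N A) x, F N (fun j => g * x j) = F N x)
    (hblk : ∀ N M' (x : Fin (k + 1) → GLm N A) (y : Fin (k + 1) → GLm M' A),
      F (N + M') (fun j => blk N M' A (x j, y j)) = F N x + F M' y) (N : ℕ)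
    (x : Fin (k + 1) → GLm N A) : QC.lift F hinv hblk (QC.t N x) = F N x :=
  qc_lift_single F ⟨N, x⟩

private theorem qc_bd_inv (N : ℕ) (g : GLm N A) (x : Fin (k + 2) → GLm N A) :
    (∑ i : Fin (k + 2), (-1 : ℤ) ^ (i : ℕ) • QC.t N fun j => (fun j => g * x j) (i.succAbove j)) =
      ∑ i : Fin (k + 2), (-1 : ℤ) ^ (i : ℕ) • QC.t N fun j => x (i.succAbove j) := by
  refine Finset.sum_congr rfl fun i _ => ?_
  exact congrArg _ (QC.t_inv N g fun j => x (i.succAbove j))

private theorem qc_bd_blk (N M' : ℕ) (x : Fin (k + 2) → GLm N A) (y : Fin (k + 2) → GLm M' A) :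
    (∑ i : Fin (k + 2), (-1 : ℤ) ^ (i : ℕ) •
      QC.t (N + M') fun j => (fun j => blk N M' A (x j, y j)) (i.succAbove j)) =
      (∑ i : Fin (k + 2), (-1 : ℤ) ^ (i : ℕ) • QC.t N fun j => x (i.succAbove j)) +
        ∑ i : Fin (k + 2), (-1 : ℤ) ^ (i : ℕ) • QC.t M' fun j => y (i.succAbove j) := by
  rw [← Finset.sum_add_distrib]
  refine Finset.sum_congr rfl fun i _ => ?_
  rw [← smul_add]
  exact congrArg _ (QC.t_blk N M' (fun j => x (i.succAbove j)) fun j => y (i.succAbove j))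

/-- **The boundary.** -/
noncomputable def qbd : QC A (k + 1) →+ QC A k :=
  QC.lift (fun N x => ∑ i : Fin (k + 2), (-1 : ℤ) ^ (i : ℕ) • QC.t N fun j => x (i.succAbove j))
    qc_bd_inv qc_bd_blk

theorem qbd_t (N : ℕ) (x : Fin (k + 2) → GLm N A) : qbd (QC.t N x) =
    ∑ i : Fin (k + 2), (-1 : ℤ) ^ (i : ℕ) • QC.t N fun j => x (i.succAbove j) :=
  QC.lift_t _ _ _ N x

private theorem qc_map_inv {A' : Type v} [Ring A'] (f : A →+* A') (N : ℕ) (g : GLm N A)
    (x : Fin (k + 1) → GLm N A) : (QC.t N fun j => mapGL f N ((fun j => g * x j) j)) =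
      QC.t N fun j => mapGL f N (x j) := by
  have h : (fun j => mapGL f N ((fun j => g * x j) j)) =
      fun j => mapGL f N g * (fun j => mapGL f N (x j)) j := by
    funext j
    exact map_mul (mapGL f N) g (x j)
  rw [h, QC.t_inv]

private theorem qc_map_blk {A' : Type v} [Ring A'] (f : A →+* A') (N M' : ℕ)
    (x : Fin (k + 1) → GLm N A) (y : Fin (k + 1) → GLm M' A) :
    (QC.t (N + M') fun j => mapGL f (N + M') ((fun j => blk N M' A (x j, y j)) j)) =
      (QC.t N fun j => mapGL f N (x j)) + QC.t M' fun j => mapGL f M' (y j) := by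
  have h : (fun j => mapGL f (N + M') ((fun j => blk N M' A (x j, y j)) j)) =
      fun j => blk N M' A' ((fun j => mapGL f N (x j)) j, (fun j => mapGL f M' (y j)) j) := by
    funext j
    exact DFunLike.congr_fun (mapGL_comp_blk f N M') (x j, y j)
  rw [h, QC.t_blk]

/-- functoriality -/
noncomputable def QC.map {A' : Type v} [Ring A'] (f : A →+* A') : QC A k →+ QC A' k :=
  QC.lift (fun N x => QC.t N fun j => mapGL f N (x j)) (qc_map_inv f) (qc_map_blk f)

theorem QC.map_t {A' : Type v} [Ring A'] (f : A →+* A') (N : ℕ) (x : Fin (k + 1) → GLm N A) :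
    QC.map f (QC.t N x) = QC.t N fun j => mapGL f N (x j) :=
  QC.lift_t _ _ _ N x

/-- chains of `GL_N(A)` -/
noncomputable def ch (N : ℕ) : Cx ℤ (GLm N A) k →+ QC A k :=
  (Finsupp.linearCombination ℤ fun x : Fin (k + 1) → GLm N A => QC.t N x).toAddMonoidHom

theorem ch_single (N : ℕ) (x : Fin (k + 1) → GLm N A) :
    ch N (Finsupp.single x 1) = QC.t N x := by
  show Finsupp.linearCombination ℤ (fun x : Fin (k + 1) → GLm N A => QC.t N x)
    (Finsupp.single x 1) = QC.t N x
  rw [Finsupp.linearCombination_single, one_smul]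

theorem ch_coi (N : ℕ) {c : Cx ℤ (GLm N A) k} (hc : c ∈ coi (GLm N A) k) : ch N c = 0 :=
  inv_coi (φ := fun x : Fin (k + 1) → GLm N A => QC.t N x) (QC.t_inv N) hc

/-- homomorphisms on chains which agree on the tuples agree -/
private theorem qc_ext {X : Type*} {M : Type*} [AddCommGroup M] {m : ℕ} {f g : Cx ℤ X m →+ M}
    (h : ∀ x, f (Finsupp.single x 1) = g (Finsupp.single x 1)) (c : Cx ℤ X m) : f c = g c :=
  cx_ext (f := f.toIntLinearMap) (g := g.toIntLinearMap) h c

theorem ch_bd (N : ℕ) (c : Cx ℤ (GLm N A) (k + 1)) :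
    qbd (ch N c) = ch N (bd ℤ (GLm N A) k c) := by
  refine qc_ext (f := qbd.comp (ch N)) (g := (ch N).comp (bd ℤ (GLm N A) k).toAddMonoidHom) ?_ c
  intro x
  show qbd (ch N (Finsupp.single x 1)) = ch N (bd ℤ (GLm N A) k (Finsupp.single x 1))
  rw [ch_single, qbd_t, bd_single, map_sum]
  refine Finset.sum_congr rfl fun i _ => ?_
  rw [map_zsmul, ch_single]

theorem map_ch {A' : Type v} [Ring A'] (f : A →+* A') (N : ℕ) (c : Cx ℤ (GLm N A) k) :
    QC.map f (ch N c) = ch N (push ℤ (mapGL f N) k c) := by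
  refine qc_ext (f := (QC.map f).comp (ch N))
    (g := (ch N).comp (push ℤ (mapGL f N) k).toAddMonoidHom) ?_ c
  intro x
  show QC.map f (ch N (Finsupp.single x 1)) = ch N (push ℤ (mapGL f N) k (Finsupp.single x 1))
  rw [ch_single, QC.map_t, push_single, ch_single]

end

section

variable (A : Type u) [Ring A] (n : ℕ)

/-- the quotient of the chains of degree `n + 1` by the boundaries -/
def QH : Type u := QC A (n + 1) ⧸ (qbd : QC A (n + 2) →+ QC A (n + 1)).range

noncomputable instance instQH : AddCommGroup (QH A n) :=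
  QuotientAddGroup.Quotient.addCommGroup (qbd : QC A (n + 2) →+ QC A (n + 1)).range

variable {A n}

/-- the class of a chain -/
noncomputable def QH.mk : QC A (n + 1) →+ QH A n :=
  QuotientAddGroup.mk' (qbd : QC A (n + 2) →+ QC A (n + 1)).range

theorem QH.mk_eq_zero {w : QC A (n + 1)} : QH.mk w = 0 ↔ ∃ v, qbd v = w := by
  have h := QuotientAddGroup.eq_zero_iff (N := (qbd : QC A (n + 2) →+ QC A (n + 1)).range) w
  exact h.trans AddMonoidHom.mem_range

private theorem qc_bnd (N : ℕ) {c : Cx ℤ (GLm N A) (n + 1)} (hc : c ∈ bnd (GLm N A) n) :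
    QH.mk (ch N c) = 0 := by
  obtain ⟨_, ⟨b, rfl⟩, d, hd, rfl⟩ := Submodule.mem_sup.1 hc
  rw [map_add, ch_coi N hd, add_zero, QH.mk_eq_zero]
  exact ⟨ch N b, ch_bd N b⟩

/-- the class of a cycle of `GL_N(A)` goes to the class of its image -/
private noncomputable def qc_hom (N : ℕ) : HG (GLm N A) n →+ QH A n :=
  (Submodule.liftQ ((bnd (GLm N A) n).comap (cyc (GLm N A) n).subtype)
    ((QH.mk.comp (ch N)).toIntLinearMap.comp (cyc (GLm N A) n).subtype)
    fun _ hc => qc_bnd N hc).toAddMonoidHom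

private theorem qc_hom_mk (N : ℕ) (z : cyc (GLm N A) n) :
    qc_hom N (HG.mk z) = QH.mk (ch N (z : Cx ℤ (GLm N A) (n + 1))) := rfl

private theorem qc_hom_blk (N M' : ℕ) (w : HG (GLm N A × GLm M' A) n) :
    qc_hom (N + M') (HG.map n (blk N M' A) w) =
      qc_hom N (HG.map n (MonoidHom.fst (GLm N A) (GLm M' A)) w) +
        qc_hom M' (HG.map n (MonoidHom.snd (GLm N A) (GLm M' A)) w) := by
  obtain ⟨z, rfl⟩ := HG.mk_surjective w
  rw [HG.map_mk, HG.map_mk, HG.map_mk, qc_hom_mk, qc_hom_mk, qc_hom_mk, ← map_add]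
  congr 1
  refine qc_ext
    (f := (ch (N + M')).comp (push ℤ (blk N M' A) (n + 1)).toAddMonoidHom)
    (g := (ch N).comp (push ℤ (MonoidHom.fst (GLm N A) (GLm M' A)) (n + 1)).toAddMonoidHom +
      (ch M').comp (push ℤ (MonoidHom.snd (GLm N A) (GLm M' A)) (n + 1)).toAddMonoidHom) ?_
    (z : Cx ℤ (GLm N A × GLm M' A) (n + 1))
  intro x
  show ch (N + M') (push ℤ (blk N M' A) (n + 1) (Finsupp.single x 1)) =
    ch N (push ℤ (MonoidHom.fst (GLm N A) (GLm M' A)) (n + 1) (Finsupp.single x 1)) +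
      ch M' (push ℤ (MonoidHom.snd (GLm N A) (GLm M' A)) (n + 1) (Finsupp.single x 1))
  rw [push_single, push_single, push_single, ch_single, ch_single, ch_single]
  exact QC.t_blk N M' (fun j => (x j).1) fun j => (x j).2

/-- the map on homology -/
noncomputable def ofKQ : KQ A n →+ QH A n :=
  KQ.lift (fun N => qc_hom N) qc_hom_blk

theorem ofKQ_cls (N : ℕ) (z : cyc (GLm N A) n) :
    ofKQ (KQ.cls A n N (HG.mk z)) = QH.mk (ch N (z : Cx ℤ (GLm N A) (n + 1))) :=
  KQ.lift_cls _ _ N (HG.mk z)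

private theorem qc_sum {A' : Type v} [Ring A'] (f : A →+* A') (G : SumH A n →+ QH A' n)
    (h : ∀ N x, ∃ a : QC A (n + 1), G (incH A n N x) = QH.mk (QC.map f a)) (y : SumH A n) :
    ∃ a : QC A (n + 1), G y = QH.mk (QC.map f a) := by
  induction y using DirectSum.induction_on with
  | zero => exact ⟨0, (map_zero G).trans (by rw [map_zero, map_zero])⟩
  | of N x => exact h N x
  | add a b iha ihb =>
    obtain ⟨c, hc⟩ := iha
    obtain ⟨d, hd⟩ := ihb
    exact ⟨c + d, (map_add G a b).trans ((congrArg₂ (fun u v => u + v) hc hd).trans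
      (by rw [map_add, map_add]))⟩

/-- every element of `KQ A n` is represented by a chain, compatibly with ring homomorphisms -/
theorem ofKQ_map {A' : Type v} [Ring A'] (f : A →+* A') (x : KQ A n) :
    ∃ a : QC A (n + 1), ofKQ (KQ.map f x) = QH.mk (QC.map f a) := by
  obtain ⟨y, rfl⟩ := QuotientAddGroup.mk'_surjective (blkRel A n) x
  refine qc_sum f ((ofKQ.comp (KQ.map f)).comp (QuotientAddGroup.mk' (blkRel A n))) ?_ y
  intro N h
  obtain ⟨z, rfl⟩ := HG.mk_surjective h
  refine ⟨ch N (z : Cx ℤ (GLm N A) (n + 1)), ?_⟩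
  rw [map_ch, ← ofKQ_cls N ⟨push ℤ (mapGL f N) (n + 1) z, push_cyc (mapGL f N) z.2⟩,
    ← HG.map_mk, ← KQ.map_cls]
  rfl

end

end Pool.Agent.H16.KN

end

section

/-!
# Project FQ: the product `K₀(B) × H_{n+1}(Γ) → KQ A n`

For a ring homomorphism `φ : B → A` and a homomorphism `κ : Γ → Aˣ` with values commuting with the image of `φ`, an
idempotent matrix `e` over `B` gives the homomorphism `rho : γ ↦ 1 + φ(e) (κ γ - 1)` from `Γ` to `GL_N(A)`.

PROOFS. `rho`: `bmat_mul`, `bmat_one`. `asm` is well defined: for `e = x y`, `f = y x` replace `x`, `y` by `e x f`,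
`f y e`; then the matrix with blocks `1 - e, x; y, 1 - f` (mapped by `φ`) is its own inverse and conjugates
`rho e ⊕ 1` and `1 ⊕ rho f` (`KQ.cls_congr`; the entries of `φ` commute with `κ γ`). Additivity: `KQ.cls_sum`.
-/

set_option autoImplicit false

open Matrix

universe u v w

namespace Pool.Agent.H71.FQ

open Pool.Agent.H71.FJ (MatEquiv IdemMat K0 K0.mk K0.lift K0.lift_mk K0.hom_ext K0.map)
open Pool.Agent.H71.DB (bmat bU bmat_mul bmat_one map_mul_map comm_sub_one)

section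

variable {A : Type u} [Ring A] {B : Type v} [Ring B] {Γ : Type w} [Group Γ] {n : ℕ}

/-- The homomorphism `γ ↦ 1 + φ(e) (κ γ - 1)`. -/
noncomputable def rho (φ : B →+* A) (κ : Γ →* Aˣ) (hκ : ∀ γ b, φ b * (κ γ : A) = κ γ * φ b)
    (a : IdemMat B) : Γ →* GLm a.n A where
  toFun γ := bU φ a.mat a.idem (κ γ) (hκ γ)
  map_one' := by
    apply Units.ext
    change bmat φ a.mat ((κ 1 : Aˣ) : A) = 1
    rw [map_one, Units.val_one, bmat_one]
  map_mul' γ γ' := by
    apply Units.ext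
    change bmat φ a.mat ((κ (γ * γ') : Aˣ) : A) = bmat φ a.mat (κ γ : A) * bmat φ a.mat (κ γ' : A)
    rw [map_mul, Units.val_mul, bmat_mul φ a.mat a.idem _ _ (hκ γ)]

theorem rho_val (φ : B →+* A) (κ : Γ →* Aˣ) (hκ : ∀ γ b, φ b * (κ γ : A) = κ γ * φ b)
    (a : IdemMat B) (γ : Γ) : (rho φ κ hκ a γ).val = 1 + a.mat.map fun b => φ b * ((κ γ : A) - 1) :=
  rfl

private theorem bmat_mul_map (φ : B →+* A) {ι κ : Type*} [Fintype ι] [DecidableEq ι]
    (e : Matrix ι ι B) (X : Matrix ι κ B) (w : A) (hw : ∀ b, φ b * w = w * φ b) :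
    bmat φ e w * X.map φ = X.map φ + (e * X).map fun b => φ b * (w - 1) := by
  have h := map_mul_map φ e X (w - 1) 1 (comm_sub_one hw)
  simp only [mul_one] at h
  change bmat φ e w * X.map (fun b => φ b) = _
  rw [bmat, Matrix.add_mul, Matrix.one_mul, h]

private theorem map_mul_bmat (φ : B →+* A) {ι κ : Type*} [Fintype κ] [DecidableEq κ]
    (f : Matrix κ κ B) (X : Matrix ι κ B) (w : A) :
    X.map φ * bmat φ f w = X.map φ + (X * f).map fun b => φ b * (w - 1) := by
  have h := map_mul_map φ X f 1 (w - 1) (fun b => by rw [mul_one, one_mul])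
  simp only [mul_one, one_mul] at h
  change X.map (fun b => φ b) * bmat φ f w = _
  rw [bmat, Matrix.mul_add, Matrix.mul_one, h]

private theorem map_zero_fun (φ : B →+* A) {ι κ : Type*} (w : A) :
    (0 : Matrix ι κ B).map (fun b => φ b * (w - 1)) = 0 := by
  refine Matrix.ext fun i j => ?_
  simp

/-- The swap matrix of an equivalence of idempotents is its own inverse. -/
private theorem swap_sq {ι κ : Type*} [Fintype ι] [DecidableEq ι] [Fintype κ] [DecidableEq κ]
    {e : Matrix ι ι B} {f : Matrix κ κ B} {x : Matrix ι κ B} {y : Matrix κ ι B}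
    (he : e * e = e) (hf : f * f = f) (h1 : x * y = e) (h2 : y * x = f) (h3 : e * x = x)
    (h4 : x * f = x) (h5 : f * y = y) (h6 : y * e = y) :
    fromBlocks (1 - e) x y (1 - f) * fromBlocks (1 - e) x y (1 - f) = 1 := by
  rw [fromBlocks_multiply, ← fromBlocks_one]
  congr 1
  · rw [sub_mul, mul_sub, mul_sub, one_mul, mul_one, one_mul, he, h1]
    abel
  · rw [Matrix.sub_mul, Matrix.mul_sub, Matrix.one_mul, Matrix.mul_one, h3, h4]
    abel
  · rw [Matrix.sub_mul, Matrix.mul_sub, Matrix.one_mul, Matrix.mul_one, h5, h6]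
    abel
  · rw [sub_mul, mul_sub, mul_sub, one_mul, mul_one, one_mul, hf, h2]
    abel

private theorem rho_equiv (φ : B →+* A) (κ : Γ →* Aˣ) (hκ : ∀ γ b, φ b * (κ γ : A) = κ γ * φ b)
    (a b : IdemMat B) (h : MatEquiv a.mat b.mat) (z : HG Γ n) :
    KQ.cls A n a.n (HG.map n (rho φ κ hκ a) z) = KQ.cls A n b.n (HG.map n (rho φ κ hκ b) z) := by
  obtain ⟨x, y, hxy, hyx⟩ := h
  have he := a.idem
  have hf := b.idem
  set e := a.mat with hedef
  set f := b.mat with hfdef
  -- the corrected matrices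
  have k1 : e * x = x * f := by rw [← hxy, ← hyx, Matrix.mul_assoc]
  have k2 : y * e = f * y := by rw [← hxy, ← hyx, Matrix.mul_assoc]
  have h3 : e * (e * x) = e * x := by rw [← Matrix.mul_assoc, he]
  have h4 : e * x * f = e * x := by rw [k1, Matrix.mul_assoc, hf]
  have h5 : f * (f * y) = f * y := by rw [← Matrix.mul_assoc, hf]
  have h6 : f * y * e = f * y := by rw [← k2, Matrix.mul_assoc, he]
  have h1 : e * x * (f * y) = e := by
    rw [← k2, Matrix.mul_assoc, ← Matrix.mul_assoc x, hxy, he, he]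
  have h2 : f * y * (e * x) = f := by
    rw [k1, Matrix.mul_assoc, ← Matrix.mul_assoc y, hyx, hf, hf]
  have hW := swap_sq he hf h1 h2 h3 h4 h5 h6
  have hW' : (fromBlocks (1 - e) (e * x) (f * y) (1 - f)).map φ *
      (fromBlocks (1 - e) (e * x) (f * y) (1 - f)).map φ = 1 := by
    rw [← Matrix.map_mul, hW, Matrix.map_one _ (map_zero φ) (map_one φ)]
  apply KQ.cls_congr _ _ ⟨_, _, hW', hW'⟩
  intro γ
  change fromBlocks (bmat φ e (κ γ : A)) 0 0 1 *
      (fromBlocks (1 - e) (e * x) (f * y) (1 - f)).map φ =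
    (fromBlocks (1 - e) (e * x) (f * y) (1 - f)).map φ * fromBlocks 1 0 0 (bmat φ f (κ γ : A))
  have e1 : e * (1 - e) = 0 := by rw [mul_sub, mul_one, he, sub_self]
  have e2 : (1 - f) * f = 0 := by rw [sub_mul, one_mul, hf, sub_self]
  rw [fromBlocks_map, fromBlocks_multiply, fromBlocks_multiply, bmat_mul_map φ e _ _ (hκ γ),
    bmat_mul_map φ e _ _ (hκ γ), map_mul_bmat φ f, map_mul_bmat φ f, e1, e2, h3, h4,
    map_zero_fun, map_zero_fun]
  simp

private theorem rho_sum (φ : B →+* A) (κ : Γ →* Aˣ) (hκ : ∀ γ b, φ b * (κ γ : A) = κ γ * φ b)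
    (a b : IdemMat B) (z : HG Γ n) :
    KQ.cls A n (a.sum b).n (HG.map n (rho φ κ hκ (a.sum b)) z) =
      KQ.cls A n a.n (HG.map n (rho φ κ hκ a) z) + KQ.cls A n b.n (HG.map n (rho φ κ hκ b) z) := by
  refine KQ.cls_sum (rho φ κ hκ a) (rho φ κ hκ b) (rho φ κ hκ (a.sum b)) (fun γ => ?_) z
  change bmat φ ((fromBlocks a.mat 0 0 b.mat).submatrix finSumFinEquiv.symm finSumFinEquiv.symm)
      (κ γ : A) = (fromBlocks (bmat φ a.mat (κ γ : A)) 0 0 (bmat φ b.mat (κ γ : A))).submatrix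
        finSumFinEquiv.symm finSumFinEquiv.symm
  have e1 : bmat φ (fromBlocks a.mat 0 0 b.mat) (κ γ : A) =
      fromBlocks (bmat φ a.mat (κ γ : A)) 0 0 (bmat φ b.mat (κ γ : A)) := by
    rw [bmat, bmat, bmat, Matrix.fromBlocks_map, ← Matrix.fromBlocks_one, Matrix.fromBlocks_add,
      map_zero_fun, map_zero_fun, add_zero]
    simp
  rw [← e1, bmat, bmat, ← Matrix.submatrix_map]
  have e2 : (1 : Matrix (Fin a.n ⊕ Fin b.n) (Fin a.n ⊕ Fin b.n) A).submatrix
      finSumFinEquiv.symm finSumFinEquiv.symm = 1 := submatrix_one_equiv _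
  change 1 + _ = (1 : Matrix (Fin a.n ⊕ Fin b.n) (Fin a.n ⊕ Fin b.n) A).submatrix
      finSumFinEquiv.symm finSumFinEquiv.symm + _
  rw [e2]
  rfl

variable (n) in
/-- The product `K₀(B) × H_{n+1}(Γ) → KQ A n`. -/
noncomputable def asm (φ : B →+* A) (κ : Γ →* Aˣ) (hκ : ∀ γ b, φ b * (κ γ : A) = κ γ * φ b) :
    K0 B →+ (HG Γ n →+ KQ A n) :=
  K0.lift (fun a => (KQ.cls A n a.n).comp (HG.map n (rho φ κ hκ a)))
    (fun a b h => by
      apply AddMonoidHom.ext
      intro z
      exact rho_equiv φ κ hκ a b h z)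
    (fun a b => by
      apply AddMonoidHom.ext
      intro z
      exact rho_sum φ κ hκ a b z)

theorem asm_mk (φ : B →+* A) (κ : Γ →* Aˣ) (hκ : ∀ γ b, φ b * (κ γ : A) = κ γ * φ b)
    (a : IdemMat B) (z : HG Γ n) :
    asm n φ κ hκ (K0.mk a) z = KQ.cls A n a.n (HG.map n (rho φ κ hκ a) z) := by
  rw [asm, K0.lift_mk]
  rfl

private theorem asm_congr {φ φ' : B →+* A} {κ κ' : Γ →* Aˣ} (e : φ = φ') (e' : κ = κ')
    (hκ : ∀ γ b, φ b * (κ γ : A) = κ γ * φ b) (hκ' : ∀ γ b, φ' b * (κ' γ : A) = κ' γ * φ' b)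
    (x : K0 B) (z : HG Γ n) : asm n φ κ hκ x z = asm n φ' κ' hκ' x z := by
  subst e
  subst e'
  rfl

theorem asm_comp {C : Type*} [Ring C] (φ : B →+* A) (ψ : C →+* B) (κ : Γ →* Aˣ)
    (hκ : ∀ γ b, φ b * (κ γ : A) = κ γ * φ b)
    (h : ∀ γ c, (φ.comp ψ) c * (κ γ : A) = κ γ * (φ.comp ψ) c) (x : K0 C) (z : HG Γ n) :
    asm n φ κ hκ (K0.map ψ x) z = asm n (φ.comp ψ) κ h x z := by
  suffices H : (asm n φ κ hκ).comp (K0.map ψ) = asm n (φ.comp ψ) κ h from
    DFunLike.congr_fun (DFunLike.congr_fun H x) z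
  apply K0.hom_ext
  intro a
  apply AddMonoidHom.ext
  intro z
  rw [AddMonoidHom.comp_apply, Pool.Agent.H71.FJ.K0.map_mk', asm_mk, asm_mk]
  rfl

theorem asm_map {Γ' : Type*} [Group Γ'] (φ : B →+* A) (κ : Γ →* Aˣ)
    (hκ : ∀ γ b, φ b * (κ γ : A) = κ γ * φ b) (f : Γ' →* Γ)
    (h : ∀ γ b, φ b * ((κ.comp f) γ : A) = (κ.comp f) γ * φ b) (x : K0 B) (z : HG Γ' n) :
    asm n φ κ hκ x (HG.map n f z) = asm n φ (κ.comp f) h x z := by
  suffices H : (asm n φ κ hκ).compr₂ (AddMonoidHom.id _) = (asm n φ κ hκ) by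
    suffices H' : (AddMonoidHom.compHom.flip (HG.map n f)).comp (asm n φ κ hκ) =
        asm n φ (κ.comp f) h from DFunLike.congr_fun (DFunLike.congr_fun H' x) z
    apply K0.hom_ext
    intro a
    apply AddMonoidHom.ext
    intro z
    change asm n φ κ hκ (K0.mk a) (HG.map n f z) = _
    rw [asm_mk, asm_mk, HG.map_map]
    rfl
  rfl

theorem asm_conj (φ φ' : B →+* A) (κ κ' : Γ →* Aˣ) (g : Aˣ)
    (hκ : ∀ γ b, φ b * (κ γ : A) = κ γ * φ b) (hκ' : ∀ γ b, φ' b * (κ' γ : A) = κ' γ * φ' b)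
    (h : ∀ b, φ' b = g * φ b * ((g⁻¹ : Aˣ) : A)) (h' : ∀ γ, κ' γ = g * κ γ * g⁻¹)
    (x : K0 B) (z : HG Γ n) : asm n φ' κ' hκ' x z = asm n φ κ hκ x z := by
  suffices H : asm n φ' κ' hκ' = asm n φ κ hκ from
    DFunLike.congr_fun (DFunLike.congr_fun H x) z
  apply K0.hom_ext
  intro a
  apply AddMonoidHom.ext
  intro z
  rw [asm_mk, asm_mk]
  congr 1
  have hd1 : (Matrix.diagonal fun _ : Fin a.n => (g : A)) *
      (Matrix.diagonal fun _ : Fin a.n => ((g⁻¹ : Aˣ) : A)) = 1 := by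
    rw [Matrix.diagonal_mul_diagonal, ← Matrix.diagonal_one]
    simp
  have hd2 : (Matrix.diagonal fun _ : Fin a.n => ((g⁻¹ : Aˣ) : A)) *
      (Matrix.diagonal fun _ : Fin a.n => (g : A)) = 1 := by
    rw [Matrix.diagonal_mul_diagonal, ← Matrix.diagonal_one]
    simp
  refine HG.map_conj (rho φ κ hκ a) (rho φ' κ' hκ' a) ⟨_, _, hd1, hd2⟩ (fun γ => ?_) z
  apply Units.ext
  rw [Units.val_mul, Units.val_mul]
  change bmat φ' a.mat (κ' γ : A) = (Matrix.diagonal fun _ : Fin a.n => (g : A)) *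
    bmat φ a.mat (κ γ : A) * (Matrix.diagonal fun _ : Fin a.n => ((g⁻¹ : Aˣ) : A))
  refine Matrix.ext fun i j => ?_
  rw [Matrix.mul_diagonal, Matrix.diagonal_mul, bmat, bmat, Matrix.add_apply, Matrix.add_apply,
    Matrix.map_apply, Matrix.map_apply, mul_add, add_mul]
  congr 1
  · by_cases hij : i = j
    · rw [hij, Matrix.one_apply_eq, mul_one, Units.mul_inv]
    · rw [Matrix.one_apply_ne hij, mul_zero, zero_mul]
  · rw [h, h', Units.val_mul, Units.val_mul]
    have e1 : (g : A) * (κ γ : A) * ((g⁻¹ : Aˣ) : A) - 1 =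
        g * ((κ γ : A) - 1) * ((g⁻¹ : Aˣ) : A) := by
      rw [mul_sub, sub_mul, mul_one, Units.mul_inv]
    rw [e1]
    calc (g : A) * φ (a.mat i j) * ((g⁻¹ : Aˣ) : A) * (g * ((κ γ : A) - 1) * ((g⁻¹ : Aˣ) : A))
        = g * φ (a.mat i j) * (((g⁻¹ : Aˣ) : A) * g) * ((κ γ : A) - 1) * ((g⁻¹ : Aˣ) : A) := by
          simp only [mul_assoc]
      _ = _ := by
        rw [Units.inv_mul, mul_one]
        simp only [mul_assoc]

theorem map_asm {C : Type*} [Ring C] (φ : B →+* A) (κ : Γ →* Aˣ)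
    (hκ : ∀ γ b, φ b * (κ γ : A) = κ γ * φ b) (f : A →+* C)
    (h : ∀ γ b, (f.comp φ) b * (((Units.map (f : A →* C)).comp κ) γ : C) =
      ((Units.map (f : A →* C)).comp κ) γ * (f.comp φ) b) (x : K0 B) (z : HG Γ n) :
    KQ.map f (asm n φ κ hκ x z) = asm n (f.comp φ) ((Units.map (f : A →* C)).comp κ) h x z := by
  suffices H : (AddMonoidHom.compHom (KQ.map f)).comp (asm n φ κ hκ) =
      asm n (f.comp φ) ((Units.map (f : A →* C)).comp κ) h from
    DFunLike.congr_fun (DFunLike.congr_fun H x) z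
  apply K0.hom_ext
  intro a
  apply AddMonoidHom.ext
  intro z
  change KQ.map f (asm n φ κ hκ (K0.mk a) z) = _
  rw [asm_mk, asm_mk, KQ.map_cls, HG.map_map]
  congr 2
  apply congrArg (fun F => HG.map n F)
  apply MonoidHom.ext
  intro γ
  apply Units.ext
  refine Matrix.ext fun i j => ?_
  change f (bmat φ a.mat (κ γ : A) i j) = bmat (f.comp φ) a.mat (f (κ γ : A)) i j
  rw [bmat, bmat, Matrix.add_apply, Matrix.add_apply, Matrix.map_apply, Matrix.map_apply, map_add,
    map_mul, map_sub, map_one]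
  congr 1
  by_cases hij : i = j
  · rw [hij, Matrix.one_apply_eq, Matrix.one_apply_eq, map_one]
  · rw [Matrix.one_apply_ne hij, Matrix.one_apply_ne hij, map_zero]

end

section

variable (R : Type u) [Ring R] (n : ℕ) {G : Type v} [Group G] {H : Type*} [Group H]
  {Γ : Type w} [Group Γ]

/-- The elements of `G` as units of `R[G]`. -/
noncomputable def grpHom (G : Type v) [Group G] : G →* (MonoidAlgebra R G)ˣ :=
  (Units.map (MonoidAlgebra.of R G)).comp toUnits.toMonoidHom

theorem grpHom_comm (f : H →* G) (κ : Γ →* G) (h : ∀ γ a, f a * κ γ = κ γ * f a) (γ : Γ)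
    (b : MonoidAlgebra R H) :
    MonoidAlgebra.mapDomainRingHom R f b * (((grpHom R G).comp κ) γ : MonoidAlgebra R G) =
      ((grpHom R G).comp κ) γ * MonoidAlgebra.mapDomainRingHom R f b := by
  change MonoidAlgebra.mapDomainRingHom R f b * MonoidAlgebra.single (κ γ) 1 =
    MonoidAlgebra.single (κ γ) 1 * MonoidAlgebra.mapDomainRingHom R f b
  induction b using MonoidAlgebra.induction_linear with
  | zero => simp
  | add a b ha hb => rw [map_add, add_mul, mul_add, ha, hb]
  | single a r =>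
    change MonoidAlgebra.mapDomain f (MonoidAlgebra.single a r) * MonoidAlgebra.single (κ γ) 1 =
      MonoidAlgebra.single (κ γ) 1 * MonoidAlgebra.mapDomain f (MonoidAlgebra.single a r)
    rw [MonoidAlgebra.mapDomain_single, MonoidAlgebra.single_mul_single,
      MonoidAlgebra.single_mul_single, h, mul_one, one_mul]

/-- The product `K₀(R[H]) × H_{n+1}(Γ) → KQ (R[G]) n` for commuting homomorphisms `f : H → G`, `κ : Γ → G`:
`([e], z)` is sent to the class of the image of `z` under `γ ↦ 1 + f(e) (κ γ - 1)`. -/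
noncomputable def gasm (f : H →* G) (κ : Γ →* G) (h : ∀ γ a, f a * κ γ = κ γ * f a) :
    K0 (MonoidAlgebra R H) →+ (HG Γ n →+ KQ (MonoidAlgebra R G) n) :=
  asm n (MonoidAlgebra.mapDomainRingHom R f) ((grpHom R G).comp κ) (grpHom_comm R f κ h)

theorem gasm_comp {H' : Type*} [Group H'] (f : H →* G) (ψ : H' →* H) (κ : Γ →* G)
    (h : ∀ γ a, f a * κ γ = κ γ * f a) (h' : ∀ γ a, (f.comp ψ) a * κ γ = κ γ * (f.comp ψ) a)
    (x : K0 (MonoidAlgebra R H')) (z : HG Γ n) :
    gasm R n f κ h (K0.map (MonoidAlgebra.mapDomainRingHom R ψ) x) z =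
      gasm R n (f.comp ψ) κ h' x z := by
  have e : (MonoidAlgebra.mapDomainRingHom R f).comp (MonoidAlgebra.mapDomainRingHom R ψ) =
      MonoidAlgebra.mapDomainRingHom R (f.comp ψ) := (MonoidAlgebra.mapDomainRingHom_comp _ _).symm
  have hc : ∀ γ c, ((MonoidAlgebra.mapDomainRingHom R f).comp
      (MonoidAlgebra.mapDomainRingHom R ψ)) c * (((grpHom R G).comp κ) γ : MonoidAlgebra R G) =
      ((grpHom R G).comp κ) γ * ((MonoidAlgebra.mapDomainRingHom R f).comp
        (MonoidAlgebra.mapDomainRingHom R ψ)) c := by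
    rw [e]
    exact grpHom_comm R (f.comp ψ) κ h'
  exact (asm_comp _ _ _ _ hc x z).trans (asm_congr e rfl _ _ x z)

theorem gasm_map {Γ' : Type*} [Group Γ'] (f : H →* G) (κ : Γ →* G) (ψ : Γ' →* Γ)
    (h : ∀ γ a, f a * κ γ = κ γ * f a) (h' : ∀ γ a, f a * (κ.comp ψ) γ = (κ.comp ψ) γ * f a)
    (x : K0 (MonoidAlgebra R H)) (z : HG Γ' n) :
    gasm R n f κ h x (HG.map n ψ z) = gasm R n f (κ.comp ψ) h' x z := by
  exact asm_map _ ((grpHom R G).comp κ) _ ψ (grpHom_comm R f (κ.comp ψ) h') x z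

theorem gasm_conj (f f' : H →* G) (κ κ' : Γ →* G) (g : G) (h : ∀ γ a, f a * κ γ = κ γ * f a)
    (h' : ∀ γ a, f' a * κ' γ = κ' γ * f' a) (hf : ∀ a, f' a = g * f a * g⁻¹)
    (hκ : ∀ γ, κ' γ = g * κ γ * g⁻¹) (x : K0 (MonoidAlgebra R H)) (z : HG Γ n) :
    gasm R n f' κ' h' x z = gasm R n f κ h x z := by
  have ginv : (((grpHom R G g)⁻¹ : (MonoidAlgebra R G)ˣ) : MonoidAlgebra R G) =
      MonoidAlgebra.single g⁻¹ 1 := by
    rw [← map_inv]
    rfl
  refine asm_conj _ _ _ _ (grpHom R G g) _ _ (fun b => ?_) (fun γ => ?_) x z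
  · rw [ginv]
    induction b using MonoidAlgebra.induction_linear with
    | zero => simp
    | add a b ha hb => rw [map_add, ha, hb, map_add, mul_add, add_mul]
    | single a r =>
      change MonoidAlgebra.mapDomain f' (MonoidAlgebra.single a r) = MonoidAlgebra.single g 1 *
        MonoidAlgebra.mapDomain f (MonoidAlgebra.single a r) * MonoidAlgebra.single g⁻¹ 1
      rw [MonoidAlgebra.mapDomain_single, MonoidAlgebra.mapDomain_single,
        MonoidAlgebra.single_mul_single, MonoidAlgebra.single_mul_single, hf, mul_one, one_mul]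
  · rw [MonoidHom.comp_apply, MonoidHom.comp_apply, hκ, map_mul, map_mul, map_inv]

/-- naturality in the coefficients -/
theorem map_gasm {S : Type*} [Ring S] (θ : R →+* S) (f : H →* G) (κ : Γ →* G)
    (h : ∀ γ a, f a * κ γ = κ γ * f a) (x : K0 (MonoidAlgebra R H)) (z : HG Γ n) :
    KQ.map (MonoidAlgebra.mapRingHom G θ) (gasm R n f κ h x z) =
      gasm S n f κ h (K0.map (MonoidAlgebra.mapRingHom H θ) x) z := by
  have e : (Units.map ((MonoidAlgebra.mapRingHom G θ : MonoidAlgebra R G →+* MonoidAlgebra S G) :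
      MonoidAlgebra R G →* MonoidAlgebra S G)).comp ((grpHom R G).comp κ) =
      (grpHom S G).comp κ := by
    apply MonoidHom.ext
    intro γ
    apply Units.ext
    change MonoidAlgebra.mapRingHom G θ (MonoidAlgebra.single (κ γ) 1) =
      MonoidAlgebra.single (κ γ) 1
    rw [MonoidAlgebra.mapRingHom_single, map_one]
  have e2 : (MonoidAlgebra.mapRingHom G θ).comp (MonoidAlgebra.mapDomainRingHom R f) =
      (MonoidAlgebra.mapDomainRingHom S f).comp (MonoidAlgebra.mapRingHom H θ) :=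
    MonoidAlgebra.mapRingHom_comp_mapDomainRingHom _ _
  have hc : ∀ γ b, ((MonoidAlgebra.mapDomainRingHom S f).comp (MonoidAlgebra.mapRingHom H θ)) b *
      (((grpHom S G).comp κ) γ : MonoidAlgebra S G) = ((grpHom S G).comp κ) γ *
        ((MonoidAlgebra.mapDomainRingHom S f).comp (MonoidAlgebra.mapRingHom H θ)) b :=
    fun γ b => grpHom_comm S f κ h γ _
  have hc' : ∀ γ b, ((MonoidAlgebra.mapRingHom G θ).comp (MonoidAlgebra.mapDomainRingHom R f)) b *
      (((Units.map ((MonoidAlgebra.mapRingHom G θ : MonoidAlgebra R G →+* MonoidAlgebra S G) :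
        MonoidAlgebra R G →* MonoidAlgebra S G)).comp ((grpHom R G).comp κ)) γ :
          MonoidAlgebra S G) =
      ((Units.map ((MonoidAlgebra.mapRingHom G θ : MonoidAlgebra R G →+* MonoidAlgebra S G) :
        MonoidAlgebra R G →* MonoidAlgebra S G)).comp ((grpHom R G).comp κ)) γ *
          ((MonoidAlgebra.mapRingHom G θ).comp (MonoidAlgebra.mapDomainRingHom R f)) b := by
    rw [e, e2]
    exact hc
  exact (map_asm _ _ _ _ hc' x z).trans ((asm_congr e2 e _ hc x z).trans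
    (asm_comp _ _ _ _ _ x z).symm)

end

end Pool.Agent.H71.FQ

end
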