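import Pool.Agent.H71.TCZ.M15
import Pool.Agent.H71.TCZ.M16
import Pool.Agent.H71.TCZ.M18

/-! The parts of this file: H71.WH.Gam4, H71.WH.Skew3_3, H71.WH.U1, H71.WH.U2. -/

section

/-!
# The value of `Gam` on matrices congruent to `1` modulo `4`
-/

set_option autoImplicit false
set_option linter.unusedSectionVars false
set_option linter.unusedSimpArgs false

open Matrix

universe u v w

namespace Pool.Agent.H71.WH

theorem L_one_add {R : Type u} [Ring R] (τ : R →+ ℤ) (x : R) : L τ (1 + x) = tl τ x := by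
  rw [L, add_sub_cancel_left]

namespace TwTr

variable {M : Type u} [Ring M] (t : TwTr M)

theorem L_fix {x y : M} (hx : t.s x = x) (hy : t.s y = y) :
    L t.κ ((1 + 2 * x) * (1 + 2 * y)) = L t.κ (1 + 2 * x) + L t.κ (1 + 2 * y) := by
  let S : Subring M := RingHom.eqLocus t.s (RingHom.id M)
  let x' : S := ⟨x, hx⟩
  let y' : S := ⟨y, hy⟩
  have key := L_mul (pull S.subtype t.κ) (by
    intro a b
    have h1 : t.κ ((a : M) * b) = t.κ ((b : M) * a) := by
      rw [t.tw]
      exact congrArg (fun c => t.κ ((b : M) * c)) a.2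
    exact h1) (w := 1 + 2 * x') (w' := 1 + 2 * y') ⟨x', rfl⟩ ⟨y', rfl⟩
  rw [← L_map, ← L_map, ← L_map] at key
  exact key

end TwTr

section

variable {G : Type u} [Group G] (f : G → ℤ) (hf : ∀ x y, f (x * y) = f (y * x))
  {ι : Type v} [Fintype ι] [DecidableEq ι]

/-- the trace followed by the functional of `f` -/
noncomputable def trf (f : G → ℤ) (ι : Type v) [Fintype ι] :
    Matrix ι ι (MonoidAlgebra ℤ G) →+ ℤ :=
  (fn f).comp (Matrix.traceAddMonoidHom ι (MonoidAlgebra ℤ G))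

theorem trf_apply (w : Matrix ι ι (MonoidAlgebra ℤ G)) : trf f ι w = fn f (trace w) := rfl

theorem κ_k1 (w : Matrix ι ι (MonoidAlgebra ℤ G)) : (tG f hf ι).κ (k1 ι w) = trf f ι w := by
  rw [tG_κ, trf_apply, trace, map_sum, Fintype.sum_prod_type]
  apply Finset.sum_congr rfl
  intro i _
  have h1 : ∀ j, k1 ι w (i, j) (i, j).swap = if j = i then i1 G (w i j) else 0 :=
    fun j => k1_apply w (i, j) (j, i)
  simp only [h1]
  rw [Finset.sum_eq_single i]
  · rw [if_pos rfl]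
    exact k0_i1 f _
  · intro j _ hj
    rw [if_neg hj, map_zero]
  · intro h
    exact absurd (Finset.mem_univ _) h

theorem κ_psi (w : Matrix ι ι (MonoidAlgebra ℤ G)) :
    (tG f hf ι).κ (psi ι w) = trf (fun g => f (g * g)) ι w := by
  rw [tG_κ, trf_apply, trace, map_sum, Fintype.sum_prod_type]
  apply Finset.sum_congr rfl
  intro i _
  rw [Finset.sum_eq_single i]
  · rw [psi_eq]
    change k0 f (emb (dg ι) (w.map (Del G)) (dg ι i) (dg ι i)) = _
    rw [emb_apply]
    exact k0_Del f _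
  · intro j _ hj
    rw [psi_eq, emb_zero_left, map_zero]
    intro k hk
    have h1 : i = k := congrArg Prod.fst hk
    have h2 : j = k := congrArg Prod.snd hk
    exact hj (h2.trans h1.symm)
  · intro h
    exact absurd (Finset.mem_univ _) h

theorem psi_four (x : Matrix ι ι (MonoidAlgebra ℤ G)) : psi ι (4 * x) = 4 * psi ι x := by
  have h1 : ∀ {R : Type (max u v)} [Ring R] (y : R), 4 * y = y + y + y + y := by
    intro R _ y
    have : (4 : R) = 1 + 1 + 1 + 1 := by norm_num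
    rw [this]
    noncomm_ring
  rw [h1, h1, map_add, map_add, map_add]

end

end Pool.Agent.H71.WH

end

section

/-!
# Naturality and values of `Lam`
-/

set_option autoImplicit false

open Matrix

universe u v

namespace Pool.Agent.H71.WH

namespace TwTr

variable {M : Type u} [Ring M] (t : TwTr M) {M' : Type v} [Ring M'] (t' : TwTr M')

/-- Naturality of `Lam` with respect to (possibly non-unital) morphisms. -/
theorem Lam_map (j : M →ₙ+* M') (hs : ∀ x, j (t.s x) = t'.s (j x)) (hκ : ∀ x, t'.κ (j x) = t.κ x)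
    {g : Mˣ} {g' : M'ˣ} (hg : t.Adm g) (hg' : (g' : M') = j g + (1 - j 1)) :
    t'.Lam g' = t.Lam g := by
  obtain ⟨z, hz⟩ := hg
  have hz' : (g' : M') = 1 + j z + t'.s (j z) := by
    rw [hg', hz, ← hs, map_add, map_add]
    abel
  have he : ∀ x : M, j x * (1 - j 1) = 0 := by
    intro x
    rw [mul_sub, mul_one, ← map_mul, mul_one, sub_self]
  have he' : ∀ x : M, (1 - j 1) * j x = 0 := by
    intro x
    rw [sub_mul, one_mul, ← map_mul, one_mul, sub_self]
  have hinv : ((g'⁻¹ : M'ˣ) : M') = j (g⁻¹ : Mˣ) + (1 - j 1) := by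
    have h1 : (g' : M') * (j (g⁻¹ : Mˣ) + (1 - j 1)) = 1 := by
      rw [hg', add_mul, mul_add, mul_add, ← map_mul, Units.mul_inv, he, he', mul_sub, mul_one,
        he' 1]
      abel
    calc ((g'⁻¹ : M'ˣ) : M') = (g'⁻¹ : M'ˣ) * ((g' : M') * (j (g⁻¹ : Mˣ) + (1 - j 1))) := by
          rw [h1, mul_one]
      _ = _ := by rw [← mul_assoc, Units.inv_mul, one_mul]
  rw [t'.Lam_eq hz', t.Lam_eq hz, lam, lam, inv_θ, inv_θ, L, L, add_sub_cancel_left,
    add_sub_cancel_left, hinv]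
  congr 1
  have h1 : j z * (j ((g⁻¹ : Mˣ) : M) + (1 - j 1)) = j (z * (g⁻¹ : Mˣ)) := by
    rw [mul_add, he, add_zero, map_mul]
  have h2 : (2 : t'.skew) * t'.el (j z * (j ((g⁻¹ : Mˣ) : M) + (1 - j 1)) * t'.s (j z))
      (-(j z * (j ((g⁻¹ : Mˣ) : M) + (1 - j 1)) * (1 + t'.s (j z)))) =
      t.skewMap t' j hs (2 * t.el (z * (g⁻¹ : Mˣ) * t.s z) (-(z * (g⁻¹ : Mˣ) * (1 + t.s z)))) := by
    rw [two_mul, two_mul, map_add, skewMap_el, h1, ← hs]
    have h3 : t'.el (j (z * (g⁻¹ : Mˣ)) * j (t.s z)) (-(j (z * (g⁻¹ : Mˣ)) * (1 + j (t.s z)))) =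
      t'.el (j (z * (g⁻¹ : Mˣ) * t.s z)) (j (-(z * (g⁻¹ : Mˣ) * (1 + t.s z)))) := by
      congr 1
      · rw [map_mul j (z * ((g⁻¹ : Mˣ) : M))]
      · rw [mul_add, mul_one, mul_add, mul_one, map_neg, map_add, map_mul j (z * ((g⁻¹ : Mˣ) : M))]
    rw [h3]
  rw [h2]
  apply tl_nonUnital
  intro V
  obtain ⟨a, b, rfl⟩ := t.exists_el V
  rw [skewMap_el, τ_el, τ_el, hκ]

/-- Vanishing of `Lam` for `z` in an off-diagonal corner. -/
theorem Lam_corner {p z : M} {g : Mˣ} (hp : p * t.s p = 0) (hp' : t.s p * p = 0)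
    (h1 : p * z = z) (h2 : z * p = z) (h : (g : M) = 1 + z + t.s z) : t.Lam g = 0 := by
  have s1 : t.s p * t.s z = t.s z := by rw [← map_mul, h1]
  have s2 : t.s z * t.s p = t.s z := by rw [← map_mul, h2]
  have c1 : p * t.s z = 0 := by rw [← s1, ← mul_assoc, hp, zero_mul]
  have c2 : t.s z * p = 0 := by rw [← s2, mul_assoc, hp', mul_zero]
  have hc : (g : M) * p = p * g := by
    rw [h]
    have e1 : (1 + z + t.s z) * p = p + z * p + t.s z * p := by noncomm_ring
    have e2 : p * (1 + z + t.s z) = p + p * z + p * t.s z := by noncomm_ring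
    rw [e1, e2, h1, h2, c1, c2]
  have hc' : ((g⁻¹ : Mˣ) : M) * p = p * (g⁻¹ : Mˣ) := by
    have : Commute (g : M) p := hc
    exact (this.units_inv_left).eq
  have e1 : z * ((g⁻¹ : Mˣ) : M) * t.s z = 0 := by
    calc z * ((g⁻¹ : Mˣ) : M) * t.s z = z * p * ((g⁻¹ : Mˣ) : M) * (t.s p * t.s z) := by
          rw [h2, s1]
      _ = z * (p * ((g⁻¹ : Mˣ) : M)) * (t.s p * t.s z) := by rw [mul_assoc z p]
      _ = z * ((g⁻¹ : Mˣ) : M) * (p * t.s p) * t.s z := by rw [← hc']; simp only [mul_assoc]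
      _ = 0 := by rw [hp, mul_zero, zero_mul]
  set b := -(z * ((g⁻¹ : Mˣ) : M) * (1 + t.s z)) with hb
  have e2 : b = -(z * ((g⁻¹ : Mˣ) : M)) := by
    rw [hb, mul_add, mul_one, e1, add_zero]
  have hb1 : p * b = b := by
    rw [e2, mul_neg, ← mul_assoc, h1]
  have hb2 : b * p = b := by
    rw [e2, neg_mul, mul_assoc, hc', ← mul_assoc, h2]
  have hb3 : b * t.s b = 0 := by
    have : t.s b = t.s p * t.s b := by rw [← map_mul, hb1]
    rw [this, ← mul_assoc, ← hb2, mul_assoc b p, hp, mul_zero, zero_mul]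
  have hb4 : t.κ b = 0 := by
    have h3 := t.tw p b
    rw [hb1] at h3
    rw [h3, ← hb2, mul_assoc, hp, mul_zero, map_zero]
  rw [t.Lam_eq h, lam, inv_θ, L, add_sub_cancel_left, e1, ← hb]
  have e3 : (2 : t.skew) * t.el 0 b = t.el 0 (b + b) := by
    rw [two_mul, el_add, add_zero]
  have e4 : t.el 0 (b + b) * t.el 0 (b + b) = 0 := by
    rw [el_mul, ← el_zero]
    congr 1
    · rw [map_add, mul_add, add_mul, hb3]
      simp
    · simp
  have e5 : tl t.τ (t.el 0 (b + b)) = tl t.τ 0 := by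
    apply tl_congr
    intro k
    rcases k with _ | k
    · rw [zero_add, pow_one, pow_one, τ_el, map_add, hb4, map_zero, add_zero]
    · rw [pow_succ, pow_succ, mul_assoc, e4, mul_zero, zero_pow (by omega)]
  rw [e3, e5, tl_zero, mul_zero]

end TwTr

end Pool.Agent.H71.WH

end

section

/-!
# Units of integral group rings congruent to `1` modulo `8`, logarithm of determinants
-/

set_option autoImplicit false
set_option linter.unusedSectionVars false
set_option linter.unusedSimpArgs false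

open Matrix

universe u v w

namespace Pool.Agent.H71.WH

section C8

variable {R : Type u} [Ring R]

/-- `w` is congruent to `1` modulo `8` -/
def C8 (w : R) : Prop := ∃ x : R, w = 1 + 8 * x

theorem C8.cong {w : R} (h : C8 w) : Cong w := by
  obtain ⟨x, rfl⟩ := h
  exact ⟨4 * x, by noncomm_ring⟩

theorem C8.map {S : Type v} [Ring S] (φ : R →+* S) {w : R} (h : C8 w) : C8 (φ w) := by
  obtain ⟨x, rfl⟩ := h
  refine ⟨φ x, ?_⟩
  rw [map_add, map_mul, map_one, map_ofNat]

end C8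

section LogDet

theorem norm_tl_sub_le {R : Type u} [Ring R] (τ : R →+ ℤ) (r : R) (n : ℕ) :
    ‖tl τ (2 ^ (n + 1) * r) - ((2 ^ (n + 1) * τ r : ℤ) : ℚ_[2])‖ ≤ ((2 : ℝ) ^ (2 * n))⁻¹ := by
  have hsum : Summable (tlTerm τ (2 ^ (n + 1) * r)) := by
    have : (2 : R) ^ (n + 1) * r = 2 * (2 ^ n * r) := by rw [pow_succ', mul_assoc]
    rw [this]
    exact tl_summable τ _
  have h2 : tlTerm τ (2 ^ (n + 1) * r) 0 = (((2 ^ (n + 1) * τ r : ℤ)) : ℚ_[2]) := by
    rw [tlTerm, zero_add, pow_one, map_two_pow_mul]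
    simp
  rw [tl, hsum.tsum_eq_zero_add, h2, add_sub_cancel_left]
  exact IsUltrametricDist.norm_tsum_le_of_forall_le (fun j => term_le_aux τ r n j)

variable {B : Type u} [CommRing B] {ι : Type v} [Fintype ι] [DecidableEq ι] (τ : B →+ ℤ)

/-- `τ ∘ tr` -/
def ttr (τ : B →+ ℤ) (ι : Type v) [Fintype ι] : Matrix ι ι B →+ ℤ :=
  τ.comp (Matrix.traceAddMonoidHom ι B)

theorem ttr_apply (W : Matrix ι ι B) : ttr τ ι W = τ (trace W) := rfl

theorem ttr_comm (V W : Matrix ι ι B) : ttr τ ι (V * W) = ttr τ ι (W * V) := by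
  rw [ttr_apply, ttr_apply, trace_mul_comm]

theorem det_two_pow (n : ℕ) (X : Matrix ι ι B) :
    ∃ y : B, det (1 + 2 ^ n * X) = 1 + 2 ^ n * (trace X + 2 ^ n * y) := by
  have h := det_one_add_smul ((2 : B) ^ n) X
  have h1 : (2 : B) ^ n • X = 2 ^ n * X := by
    have : (2 : Matrix ι ι B) ^ n = (2 : B) ^ n • (1 : Matrix ι ι B) := by
      have h2 : (2 : Matrix ι ι B) = (2 : B) • (1 : Matrix ι ι B) := by
        rw [two_smul, one_add_one_eq_two]
      rw [h2, smul_pow, one_pow]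
    rw [this, smul_mul_assoc, one_mul]
  rw [h1] at h
  exact ⟨(det (1 + (Polynomial.X : Polynomial B) • X.map Polynomial.C)).divX.divX.eval (2 ^ n),
    by rw [h]; ring⟩

theorem det_cong {W : Matrix ι ι B} (h : Cong W) : Cong (det W) := by
  obtain ⟨X, rfl⟩ := h
  obtain ⟨y, hy⟩ := det_two_pow 1 X
  rw [pow_one, pow_one] at hy
  exact ⟨_, hy⟩

theorem det_C8 {W : Matrix ι ι B} (h : C8 W) : C8 (det W) := by
  obtain ⟨X, rfl⟩ := h
  obtain ⟨y, hy⟩ := det_two_pow 3 X
  refine ⟨trace X + 2 ^ 3 * y, ?_⟩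
  have e1 : (2 : Matrix ι ι B) ^ 3 = 8 := by norm_num
  have e2 : (2 : B) ^ 3 = 8 := by norm_num
  rw [e1] at hy
  rw [hy, e2]

/-- the defect -/
noncomputable def dd (W : Matrix ι ι B) : ℚ_[2] := L (ttr τ ι) W - L τ (det W)

theorem dd_mul {V W : Matrix ι ι B} (hV : Cong V) (hW : Cong W) :
    dd τ (V * W) = dd τ V + dd τ W := by
  rw [dd, dd, dd, det_mul, L_mul (ttr τ ι) (ttr_comm τ) hV hW,
    L_mul τ (fun a b => by rw [mul_comm]) (det_cong hV) (det_cong hW)]
  ring

theorem dd_pow {W : Matrix ι ι B} (hW : Cong W) (k : ℕ) :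
    Cong (W ^ 2 ^ k) ∧ dd τ (W ^ 2 ^ k) = 2 ^ k * dd τ W := by
  induction k with
  | zero => exact ⟨by rw [pow_zero, pow_one]; exact hW, by simp⟩
  | succ k ih =>
    have e : W ^ 2 ^ (k + 1) = W ^ 2 ^ k * W ^ 2 ^ k := by
      rw [← pow_add, pow_succ]
      congr 1
      ring
    rw [e]
    refine ⟨ih.1.mul ih.1, ?_⟩
    rw [dd_mul τ ih.1 ih.1, ih.2]
    ring

theorem pow_form {R : Type u} [Ring R] (x : R) (k : ℕ) :
    ∃ y : R, (1 + 2 * x) ^ 2 ^ k = 1 + 2 ^ (k + 1) * y := by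
  induction k with
  | zero => exact ⟨x, by simp⟩
  | succ k ih =>
    obtain ⟨y, hy⟩ := ih
    refine ⟨y + 2 ^ k * (y * y), ?_⟩
    have e : (1 + 2 * x) ^ 2 ^ (k + 1) = (1 + 2 * x) ^ 2 ^ k * (1 + 2 * x) ^ 2 ^ k := by
      rw [← pow_add, pow_succ]
      congr 1
      ring
    rw [e, hy]
    have h1 : (1 + 2 ^ (k + 1) * y) * (1 + 2 ^ (k + 1) * y) =
        1 + 2 * (2 ^ (k + 1) * y) + 2 ^ (k + 1) * (y * 2 ^ (k + 1)) * y := by noncomm_ring
    rw [h1, ← two_pow_comm, mul_add, ← mul_assoc 2, ← pow_succ', add_assoc]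
    congr 2
    rw [pow_succ' (2 : R) (k + 1), pow_succ' (2 : R) k]
    simp only [mul_assoc]
    rw [← mul_assoc ((2 : R) ^ k) 2, ← pow_succ, pow_succ', mul_assoc]

theorem norm_sub_max (a b : ℚ_[2]) : ‖a - b‖ ≤ max ‖a‖ ‖b‖ := by
  rw [sub_eq_add_neg, ← norm_neg b]
  exact IsUltrametricDist.norm_add_le_max _ _

end LogDet

end Pool.Agent.H71.WH

end

section

/-!
# Detection of units of integral group rings of finite groups
-/

set_option autoImplicit false
set_option linter.unusedSectionVars false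
set_option linter.unusedSimpArgs false

open Matrix
open scoped Classical

universe u v w

namespace Pool.Agent.H71.WH

section Div

variable {C : Type u} [Group C]

/-- the coefficient at `c` -/
noncomputable def dlt (c g : C) : ℤ := if g = c then 1 else 0

theorem exists_eq_mul (n : ℤ) (x : MonoidAlgebra ℤ C) (h : ∀ c, n ∣ x.coeff c) :
    ∃ y : MonoidAlgebra ℤ C, x = (n : MonoidAlgebra ℤ C) * y := by
  refine ⟨MonoidAlgebra.ofCoeff (x.coeff.mapRange (· / n) (by simp)), ?_⟩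
  rw [← zsmul_eq_mul]
  ext c
  rw [MonoidAlgebra.coeff_smul, Finsupp.smul_apply, MonoidAlgebra.coeff_ofCoeff,
    Finsupp.mapRange_apply, smul_eq_mul]
  exact (Int.mul_ediv_cancel' (h c)).symm

end Div

section Pow

variable {C : Type u} [Group C] [Finite C]

/-- reduction modulo `8` -/
noncomputable abbrev red8 (C : Type u) [Group C] :
    MonoidAlgebra ℤ C →+* MonoidAlgebra (ZMod 8) C :=
  MonoidAlgebra.mapRingHom C (Int.castRingHom (ZMod 8))

theorem finite_red : Finite (MonoidAlgebra (ZMod 8) C) := by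
  apply Finite.of_injective (fun (x : MonoidAlgebra (ZMod 8) C) (c : C) => x.coeff c)
  intro x y h
  ext c
  exact congrFun h c

theorem C8_of_red {w : MonoidAlgebra ℤ C} (h : red8 C w = 1) : C8 w := by
  obtain ⟨y, hy⟩ := exists_eq_mul 8 (w - 1) (fun c => by
    have h1 : red8 C (w - 1) = 0 := by rw [map_sub, map_one, h, sub_self]
    have h2 : (red8 C (w - 1)).coeff c = (((w - 1).coeff c : ℤ) : ZMod 8) := by
      rfl
    rw [h1] at h2
    exact (ZMod.intCast_zmod_eq_zero_iff_dvd _ 8).1 h2.symm)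
  refine ⟨y, ?_⟩
  have h3 : w = 1 + (w - 1) := by abel
  rw [h3, hy]
  norm_cast

/-- an exponent for the units modulo `8` -/
noncomputable def N8 (C : Type u) [Group C] : ℕ := Nat.card (MonoidAlgebra (ZMod 8) C)ˣ

theorem N8_ne_zero : N8 C ≠ 0 := by
  have := finite_red (C := C)
  have : Finite (MonoidAlgebra (ZMod 8) C)ˣ := inferInstance
  exact Nat.card_pos.ne'

theorem C8_pow_N8 (δ : (MonoidAlgebra ℤ C)ˣ) :
    C8 ((δ ^ N8 C : (MonoidAlgebra ℤ C)ˣ) : MonoidAlgebra ℤ C) := by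
  have := finite_red (C := C)
  apply C8_of_red
  have h1 : Units.map (red8 C).toMonoidHom δ ^ N8 C = 1 := pow_card_eq_one'
  rw [← map_pow] at h1
  exact congrArg Units.val h1

end Pow

end Pool.Agent.H71.WH

end
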