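import Pool.Agent.H71.TCZ.M01
import Pool.Agent.H71.TCZ.M14
import Pool.Agent.H71.TCZ.M22

/-! The parts of this file: H16.FU.Pri, H71.CZ.ClsX_1, H71.CZ.ClsDec, H71.WH.Gam2, H71.WH.Gam3. -/

section

/-!
# Project FU: the product of a homology class with a commuting element

`pri u` is the prism operator of the right multiplication by `u` on the chains of a group. For a homomorphism
`f : Γ → Λ` and an element `u` of `Λ` which commutes with its image, `HG.cr f u : H_{n+1}(Γ) → H_{n+2}(Λ)` is the product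
with the class of `u`: `z` is sent to the class of `pri u (f z)`.

PROOFS. `bd_pri`: the usual identity for `P (x_0, …, x_m) = ∑ i, (-1) ^ i (x_0, …, x_i, x_i u, …, x_m u)`.
`cr_cyc`: `bd (pri u y) = y u - y - pri u (bd y)`; for `y = f z` the tuple `(f x_j u)` is `(u f x_j)`, so `y u - y` is in
`coi`, and `pri u` maps `coi` to `coi`. `cr_mul`: `D = pri (u v) - pri u - pri v (· u)` satisfies `bd D + D bd = 0`, is
equivariant under left multiplications and hence is `bd E - E bd` (`exists_null`, recursively `E (n + 1) x =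
cone over x 0 of (D x + E (bd x))`, as in `exists_homotopy`); `pri v ((f z) u) - pri v (f z)` is in `coi`.
-/

set_option autoImplicit false

universe u v w

namespace Pool.Agent.H16.FU

open Pool.Agent.H71.FQ

section

/-- the null homotopy -/
private noncomputable def nul {X : Type v} {Y : Type w} (D : ∀ m, Cx ℤ X m →ₗ[ℤ] Cx ℤ Y (m + 1))
    (b : X → Y) : ∀ m, Cx ℤ X m →ₗ[ℤ] Cx ℤ Y (m + 2)
  | 0 => Finsupp.linearCombination ℤ fun x : Fin 1 → X =>
      cone ℤ (b (x 0)) 1 (D 0 (Finsupp.single x 1))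
  | m + 1 => Finsupp.linearCombination ℤ fun x : Fin (m + 2) → X =>
      cone ℤ (b (x 0)) (m + 2) (D (m + 1) (Finsupp.single x 1) +
        nul D b m (bd ℤ X m (Finsupp.single x 1)))

private theorem nul_zero_single {X : Type v} {Y : Type w}
    (D : ∀ m, Cx ℤ X m →ₗ[ℤ] Cx ℤ Y (m + 1)) (b : X → Y) (x : Fin 1 → X) :
    nul D b 0 (Finsupp.single x 1) = cone ℤ (b (x 0)) 1 (D 0 (Finsupp.single x 1)) := by
  rw [nul, Finsupp.linearCombination_single, one_smul]

private theorem nul_succ_single {X : Type v} {Y : Type w}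
    (D : ∀ m, Cx ℤ X m →ₗ[ℤ] Cx ℤ Y (m + 1)) (b : X → Y) (m : ℕ) (x : Fin (m + 2) → X) :
    nul D b (m + 1) (Finsupp.single x 1) = cone ℤ (b (x 0)) (m + 2)
      (D (m + 1) (Finsupp.single x 1) + nul D b m (bd ℤ X m (Finsupp.single x 1))) := by
  rw [nul, Finsupp.linearCombination_single, one_smul]

/-- A family of maps of degree one which anticommutes with the boundary is null homotopic. -/
theorem exists_null {X : Type v} {Y : Type w} (D : ∀ m, Cx ℤ X m →ₗ[ℤ] Cx ℤ Y (m + 1))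
    (h0 : ∀ c, bd ℤ Y 0 (D 0 c) = 0)
    (h1 : ∀ m (c : Cx ℤ X (m + 1)), bd ℤ Y (m + 1) (D (m + 1) c) + D m (bd ℤ X m c) = 0)
    (b : X → Y) :
    ∃ E : ∀ m, Cx ℤ X m →ₗ[ℤ] Cx ℤ Y (m + 2),
      (∀ c, bd ℤ Y 1 (E 0 c) = D 0 c) ∧
      (∀ m (c : Cx ℤ X (m + 1)), bd ℤ Y (m + 2) (E (m + 1) c) - E m (bd ℤ X m c) = D (m + 1) c) ∧
      ∀ (s : X → X) (t : Y → Y), (∀ m c, D m (push ℤ s m c) = push ℤ t (m + 1) (D m c)) →
        (∀ x, t (b x) = b (s x)) →
        ∀ m (c : Cx ℤ X m), E m (push ℤ s m c) = push ℤ t (m + 2) (E m c) := by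
  have k0 : ∀ c, bd ℤ Y 1 (nul D b 0 c) = D 0 c := by
    intro c
    refine cx_ext (f := (bd ℤ Y 1).comp (nul D b 0)) (g := D 0) ?_ c
    intro x
    rw [LinearMap.comp_apply, nul_zero_single, bd_cone, h0, map_zero, sub_zero]
  have k1 : ∀ m (c : Cx ℤ X (m + 1)),
      bd ℤ Y (m + 2) (nul D b (m + 1) c) - nul D b m (bd ℤ X m c) = D (m + 1) c := by
    intro m
    induction m with
    | zero =>
      intro c
      refine cx_ext (f := (bd ℤ Y 2).comp (nul D b 1) - (nul D b 0).comp (bd ℤ X 0))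
        (g := D 1) ?_ c
      intro x
      have hw : bd ℤ Y 1 (D 1 (Finsupp.single x 1) +
          nul D b 0 (bd ℤ X 0 (Finsupp.single x 1))) = 0 := by
        rw [map_add, k0, h1]
      rw [LinearMap.sub_apply, LinearMap.comp_apply, LinearMap.comp_apply, nul_succ_single,
        bd_cone, hw, map_zero, sub_zero, add_sub_cancel_right]
    | succ m ih =>
      intro c
      refine cx_ext (f := (bd ℤ Y (m + 3)).comp (nul D b (m + 2)) -
        (nul D b (m + 1)).comp (bd ℤ X (m + 1))) (g := D (m + 2)) ?_ c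
      intro x
      have h2 := ih (bd ℤ X (m + 1) (Finsupp.single x 1))
      rw [bd_bd, map_zero, sub_zero] at h2
      have hw : bd ℤ Y (m + 2) (D (m + 2) (Finsupp.single x 1) +
          nul D b (m + 1) (bd ℤ X (m + 1) (Finsupp.single x 1))) = 0 := by
        rw [map_add, h2, h1]
      rw [LinearMap.sub_apply, LinearMap.comp_apply, LinearMap.comp_apply, nul_succ_single,
        bd_cone, hw, map_zero, sub_zero, add_sub_cancel_right]
  refine ⟨nul D b, k0, k1, ?_⟩
  intro s t hD hb m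
  induction m with
  | zero =>
    intro c
    refine cx_ext (f := (nul D b 0).comp (push ℤ s 0)) (g := (push ℤ t 2).comp (nul D b 0)) ?_ c
    intro x
    rw [LinearMap.comp_apply, LinearMap.comp_apply, push_single, nul_zero_single,
      nul_zero_single, push_cone, hb, ← hD, push_single]
  | succ m ih =>
    intro c
    refine cx_ext (f := (nul D b (m + 1)).comp (push ℤ s (m + 1)))
      (g := (push ℤ t (m + 3)).comp (nul D b (m + 1))) ?_ c
    intro x
    rw [LinearMap.comp_apply, LinearMap.comp_apply, push_single, nul_succ_single,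
      nul_succ_single, push_cone, hb, map_add (push ℤ t (m + 2)), ← hD, ← ih, ← bd_push,
      push_single]

variable {Λ : Type v} [Group Λ]

/-- the tuple `(x_0, …, x_i, x_i u, …, x_m u)` -/
def priT (u : Λ) {m : ℕ} (x : Fin (m + 1) → Λ) (i : Fin (m + 1)) : Fin (m + 2) → Λ := fun j =>
  if i.castSucc < j then x (i.predAbove j) * u else x (i.predAbove j)

/-- the prism operator -/
noncomputable def pri (u : Λ) (m : ℕ) : Cx ℤ Λ m →ₗ[ℤ] Cx ℤ Λ (m + 1) :=
  Finsupp.linearCombination ℤ fun x : Fin (m + 1) → Λ =>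
    ∑ i : Fin (m + 1), (-1 : ℤ) ^ (i : ℕ) • Finsupp.single (priT u x i) (1 : ℤ)

theorem pri_single (u : Λ) (m : ℕ) (x : Fin (m + 1) → Λ) : pri u m (Finsupp.single x 1) =
    ∑ i : Fin (m + 1), (-1 : ℤ) ^ (i : ℕ) • Finsupp.single (priT u x i) (1 : ℤ) := by
  rw [pri, Finsupp.linearCombination_single, one_smul]

private theorem priT_cons_zero (u y : Λ) {m : ℕ} (z : Fin (m + 1) → Λ) :
    priT u (Fin.cons y z : Fin (m + 2) → Λ) 0 =
      (Fin.cons y fun j => (Fin.cons y z : Fin (m + 2) → Λ) j * u : Fin (m + 3) → Λ) := by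
  funext j
  refine Fin.cases ?_ (fun k => ?_) j
  · unfold priT
    rw [if_neg (by simp)]
    simp
  · unfold priT
    rw [if_pos (by simp)]
    simp

private theorem priT_cons_succ (u y : Λ) {m : ℕ} (z : Fin (m + 1) → Λ) (i : Fin (m + 1)) :
    priT u (Fin.cons y z : Fin (m + 2) → Λ) i.succ =
      (Fin.cons y (priT u z i) : Fin (m + 3) → Λ) := by
  funext j
  refine Fin.cases ?_ (fun k => ?_) j
  · unfold priT
    rw [if_neg (by simp)]
    simp
  · rw [Fin.cons_succ]
    unfold priT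
    rw [Fin.succ_predAbove_succ, Fin.cons_succ]
    have h : i.succ.castSucc < k.succ ↔ i.castSucc < k := by
      rw [← Fin.succ_castSucc, Fin.succ_lt_succ_iff]
    by_cases h1 : i.castSucc < k
    · rw [if_pos h1, if_pos (h.2 h1)]
    · rw [if_neg h1, if_neg (fun h2 => h1 (h.1 h2))]

private theorem pri_cone (u y : Λ) (m : ℕ) (c : Cx ℤ Λ m) :
    pri u (m + 1) (cone ℤ y m c) =
      cone ℤ y (m + 1) (push ℤ (fun y => y * u) (m + 1) (cone ℤ y m c)) -
        cone ℤ y (m + 1) (pri u m c) := by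
  refine cx_ext (f := (pri u (m + 1)).comp (cone ℤ y m))
    (g := (cone ℤ y (m + 1)).comp ((push ℤ (fun y => y * u) (m + 1)).comp (cone ℤ y m)) -
      (cone ℤ y (m + 1)).comp (pri u m)) ?_ c
  intro z
  simp only [LinearMap.comp_apply, LinearMap.sub_apply]
  rw [cone_single, push_single, cone_single, pri_single, pri_single, Fin.sum_univ_succ, map_sum,
    sub_eq_add_neg, ← Finset.sum_neg_distrib, priT_cons_zero, Fin.val_zero, pow_zero, one_smul]
  congr 1
  refine Finset.sum_congr rfl fun i _ => ?_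
  rw [priT_cons_succ, map_smul, cone_single, Fin.val_succ, pow_succ, mul_neg_one, neg_smul]

theorem bd_pri_zero (u : Λ) (c : Cx ℤ Λ 0) :
    bd ℤ Λ 0 (pri u 0 c) = push ℤ (fun y => y * u) 0 c - c := by
  refine cx_ext (f := (bd ℤ Λ 0).comp (pri u 0))
    (g := push ℤ (fun y => y * u) 0 - LinearMap.id) ?_ c
  intro x
  simp only [LinearMap.comp_apply, LinearMap.sub_apply, LinearMap.id_apply]
  rw [pri_single, push_single, Fin.sum_univ_one, Fin.val_zero, pow_zero, one_smul, bd_single,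
    Fin.sum_univ_two, Fin.val_zero, Fin.val_one, pow_zero, pow_one, one_smul, neg_one_smul,
    ← sub_eq_add_neg]
  have e1 : (fun j => priT u x 0 (Fin.succAbove 0 j)) = fun j => x j * u := by
    funext j
    have hj : j = 0 := Fin.eq_zero j
    subst hj
    unfold priT
    rw [if_pos (by decide)]
    rfl
  have e2 : (fun j => priT u x 0 (Fin.succAbove 1 j)) = x := by
    funext j
    have hj : j = 0 := Fin.eq_zero j
    subst hj
    unfold priT
    rw [if_neg (by decide)]
    rfl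
  rw [e1, e2]

omit [Group Λ] in
private theorem single_eq_cone {m : ℕ} (x : Fin (m + 2) → Λ) :
    (Finsupp.single x 1 : Cx ℤ Λ (m + 1)) =
      cone ℤ (x 0) m (Finsupp.single (Fin.tail x : Fin (m + 1) → Λ) 1) := by
  rw [cone_single, Fin.cons_self_tail]

private theorem bd_pri_cone_zero (u y : Λ) (c : Cx ℤ Λ 0) :
    bd ℤ Λ 1 (pri u 1 (cone ℤ y 0 c)) + pri u 0 (bd ℤ Λ 0 (cone ℤ y 0 c)) =
      push ℤ (fun y => y * u) 1 (cone ℤ y 0 c) - cone ℤ y 0 c := by
  have h1 : pri u 0 (Finsupp.single (fun _ => y) (1 : ℤ)) =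
      cone ℤ y 0 (push ℤ (fun y => y * u) 0 (Finsupp.single (fun _ => y) (1 : ℤ))) := by
    rw [push_single, cone_single, pri_single, Fin.sum_univ_one, Fin.val_zero, pow_zero, one_smul]
    congr 1
    funext j
    refine Fin.cases ?_ (fun k => ?_) j
    · unfold priT
      rw [if_neg (by simp)]
      simp
    · unfold priT
      rw [if_pos (by simp)]
      simp
  rw [pri_cone, map_sub, bd_cone, bd_cone, bd_push, bd_pri_zero, bd_cone_zero]
  simp only [map_sub, map_smul]
  rw [h1]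
  abel

theorem bd_pri (u : Λ) (m : ℕ) (c : Cx ℤ Λ (m + 1)) :
    bd ℤ Λ (m + 1) (pri u (m + 1) c) + pri u m (bd ℤ Λ m c) =
      push ℤ (fun y => y * u) (m + 1) c - c := by
  induction m with
  | zero =>
    refine cx_ext (f := (bd ℤ Λ 1).comp (pri u 1) + (pri u 0).comp (bd ℤ Λ 0))
      (g := push ℤ (fun y => y * u) 1 - LinearMap.id) ?_ c
    intro x
    rw [single_eq_cone]
    exact bd_pri_cone_zero u (x 0) _
  | succ m ih =>
    refine cx_ext (f := (bd ℤ Λ (m + 2)).comp (pri u (m + 2)) +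
      (pri u (m + 1)).comp (bd ℤ Λ (m + 1)))
      (g := push ℤ (fun y => y * u) (m + 2) - LinearMap.id) ?_ c
    intro x
    rw [single_eq_cone]
    set y : Λ := x 0 with hy
    set d : Cx ℤ Λ (m + 1) := Finsupp.single (Fin.tail x : Fin (m + 2) → Λ) 1 with hd
    simp only [LinearMap.comp_apply, LinearMap.sub_apply, LinearMap.add_apply, LinearMap.id_apply]
    rw [pri_cone, map_sub, bd_cone, bd_cone, bd_push, bd_cone, map_sub (pri u (m + 1)), pri_cone,
      map_sub (push ℤ (fun y => y * u) (m + 1))]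
    have e1 : cone ℤ y (m + 1) (bd ℤ Λ (m + 1) (pri u (m + 1) d)) +
        cone ℤ y (m + 1) (pri u m (bd ℤ Λ m d)) =
        cone ℤ y (m + 1) (push ℤ (fun y => y * u) (m + 1) d) - cone ℤ y (m + 1) d := by
      rw [← map_add, ih d, map_sub]
    rw [map_sub (cone ℤ y (m + 1))]
    have e2 : cone ℤ y (m + 1) (bd ℤ Λ (m + 1) (pri u (m + 1) d)) =
        cone ℤ y (m + 1) (push ℤ (fun y => y * u) (m + 1) d) - cone ℤ y (m + 1) d -
          cone ℤ y (m + 1) (pri u m (bd ℤ Λ m d)) := by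
      rw [← e1]
      abel
    rw [e2]
    abel

theorem pri_lmul (u g : Λ) (m : ℕ) (c : Cx ℤ Λ m) :
    pri u m (push ℤ (fun y => g * y) m c) = push ℤ (fun y => g * y) (m + 1) (pri u m c) := by
  refine cx_ext (f := (pri u m).comp (push ℤ (fun y => g * y) m))
    (g := (push ℤ (fun y => g * y) (m + 1)).comp (pri u m)) ?_ c
  intro x
  rw [LinearMap.comp_apply, LinearMap.comp_apply, push_single, pri_single, pri_single, map_sum]
  refine Finset.sum_congr rfl fun i _ => ?_
  rw [map_smul, push_single]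
  congr 2
  funext j
  unfold priT
  split_ifs
  · exact mul_assoc _ _ _
  · rfl

theorem pri_coi (u : Λ) {m : ℕ} {c : Cx ℤ Λ m} (hc : c ∈ coi Λ m) : pri u m c ∈ coi Λ (m + 1) := by
  refine coi_le_comap (pri u m) (coi Λ (m + 1)) ?_ hc
  intro g x
  have h := pri_lmul u g m (Finsupp.single x 1)
  rw [push_single] at h
  rw [h]
  exact push_lmul_sub_mem g _

/-- the right multiplication by `u` on the image of a homomorphism which commutes with `u` -/
private theorem rmul_sub_mem {Γ : Type w} [Group Γ] (f : Γ →* Λ) (u : Λ)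
    (hu : ∀ γ, f γ * u = u * f γ) (m : ℕ) (c : Cx ℤ Γ m) :
    push ℤ (fun y => y * u) m (push ℤ f m c) - push ℤ f m c ∈ coi Λ m := by
  have e1 : push ℤ (fun y => y * u) m (push ℤ f m c) =
      push ℤ (fun y => u * y) m (push ℤ f m c) := by
    rw [push_push, push_push]
    congr 2
    funext x
    exact hu x
  rw [e1]
  exact push_lmul_sub_mem u _

variable {Γ : Type w} [Group Γ] {n : ℕ}

theorem cr_cyc (f : Γ →* Λ) (u : Λ) (hu : ∀ γ, f γ * u = u * f γ) {c : Cx ℤ Γ (n + 1)}
    (hc : c ∈ cyc Γ n) : pri u (n + 1) (push ℤ f (n + 1) c) ∈ cyc Λ (n + 1) := by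
  show bd ℤ Λ (n + 1) (pri u (n + 1) (push ℤ f (n + 1) c)) ∈ coi Λ (n + 1)
  have e1 := bd_pri u n (push ℤ f (n + 1) c)
  have e2 : bd ℤ Λ (n + 1) (pri u (n + 1) (push ℤ f (n + 1) c)) =
      (push ℤ (fun y => y * u) (n + 1) (push ℤ f (n + 1) c) - push ℤ f (n + 1) c) -
        pri u n (bd ℤ Λ n (push ℤ f (n + 1) c)) := by
    rw [← e1]
    abel
  rw [e2]
  exact Submodule.sub_mem _ (rmul_sub_mem f u hu (n + 1) c) (pri_coi u (push_cyc f hc))

theorem cr_bnd (f : Γ →* Λ) (u : Λ) (hu : ∀ γ, f γ * u = u * f γ) {c : Cx ℤ Γ (n + 1)}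
    (hc : c ∈ bnd Γ n) : pri u (n + 1) (push ℤ f (n + 1) c) ∈ bnd Λ (n + 1) := by
  obtain ⟨_, ⟨b, rfl⟩, d, hd, rfl⟩ := Submodule.mem_sup.1 hc
  have e1 := bd_pri u (n + 1) (push ℤ f (n + 2) b)
  have e2 : pri u (n + 1) (push ℤ f (n + 1) (bd ℤ Γ (n + 1) b + d)) =
      bd ℤ Λ (n + 2) (-(pri u (n + 2) (push ℤ f (n + 2) b))) +
        ((push ℤ (fun y => y * u) (n + 2) (push ℤ f (n + 2) b) - push ℤ f (n + 2) b) +
          pri u (n + 1) (push ℤ f (n + 1) d)) := by
    rw [← e1, map_add, map_add, ← bd_push, map_neg]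
    abel
  rw [e2]
  exact Submodule.add_mem_sup (LinearMap.mem_range_self _ _)
    (Submodule.add_mem _ (rmul_sub_mem f u hu (n + 2) b) (pri_coi u (push_coi f hd)))

/-- **The product of a homology class with a commuting element.** -/
noncomputable def HG.cr (f : Γ →* Λ) (u : Λ) (hu : ∀ γ, f γ * u = u * f γ) :
    HG Γ n →+ HG Λ (n + 1) :=
  (Submodule.mapQ ((bnd Γ n).comap (cyc Γ n).subtype)
    ((bnd Λ (n + 1)).comap (cyc Λ (n + 1)).subtype)
    (((pri u (n + 1)).comp (push ℤ f (n + 1))).restrict fun _ hc => cr_cyc f u hu hc)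
    fun _ hc => cr_bnd f u hu hc).toAddMonoidHom

theorem HG.cr_mk (f : Γ →* Λ) (u : Λ) (hu : ∀ γ, f γ * u = u * f γ) (z : cyc Γ n) :
    HG.cr f u hu (HG.mk z) = HG.mk ⟨pri u (n + 1) (push ℤ f (n + 1) z), cr_cyc f u hu z.2⟩ := rfl

theorem HG.cr_mul (f : Γ →* Λ) (u v : Λ) (hu : ∀ γ, f γ * u = u * f γ)
    (hv : ∀ γ, f γ * v = v * f γ) (huv : ∀ γ, f γ * (u * v) = u * v * f γ) (z : HG Γ n) :
    HG.cr f (u * v) huv z = HG.cr f u hu z + HG.cr f v hv z := by
  obtain ⟨z, rfl⟩ := HG.mk_surjective z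
  rw [HG.cr_mk, HG.cr_mk, HG.cr_mk, ← HG.mk_add, HG.mk_eq_iff]
  set y : Cx ℤ Λ (n + 1) := push ℤ f (n + 1) (z : Cx ℤ Γ (n + 1)) with hy
  show pri (u * v) (n + 1) y - (pri u (n + 1) y + pri v (n + 1) y) ∈ bnd Λ (n + 1)
  set D : ∀ m, Cx ℤ Λ m →ₗ[ℤ] Cx ℤ Λ (m + 1) := fun m =>
    pri (u * v) m - pri u m - (pri v m).comp (push ℤ (fun y => y * u) m) with hD
  have hDa : ∀ m (c : Cx ℤ Λ m), D m c =
      pri (u * v) m c - pri u m c - pri v m (push ℤ (fun y => y * u) m c) := fun _ _ => rfl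
  have hpp : ∀ m (c : Cx ℤ Λ m), push ℤ (fun y => y * v) m (push ℤ (fun y => y * u) m c) =
      push ℤ (fun y => y * (u * v)) m c := by
    intro m c
    rw [push_push]
    congr 2
    funext x
    exact mul_assoc _ _ _
  have h0 : ∀ c, bd ℤ Λ 0 (D 0 c) = 0 := by
    intro c
    rw [hDa, map_sub, map_sub, bd_pri_zero, bd_pri_zero, bd_pri_zero, hpp]
    abel
  have h1 : ∀ m (c : Cx ℤ Λ (m + 1)), bd ℤ Λ (m + 1) (D (m + 1) c) + D m (bd ℤ Λ m c) = 0 := by
    intro m c
    have e1 := bd_pri (u * v) m c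
    have e2 := bd_pri u m c
    have e3 := bd_pri v m (push ℤ (fun y => y * u) (m + 1) c)
    rw [hpp, bd_push] at e3
    have e4 : bd ℤ Λ (m + 1) (D (m + 1) c) + D m (bd ℤ Λ m c) =
        (bd ℤ Λ (m + 1) (pri (u * v) (m + 1) c) + pri (u * v) m (bd ℤ Λ m c)) -
        (bd ℤ Λ (m + 1) (pri u (m + 1) c) + pri u m (bd ℤ Λ m c)) -
        (bd ℤ Λ (m + 1) (pri v (m + 1) (push ℤ (fun y => y * u) (m + 1) c)) +
          pri v m (push ℤ (fun y => y * u) m (bd ℤ Λ m c))) := by
      rw [hDa, hDa, map_sub, map_sub]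
      abel
    rw [e4, e1, e2, e3]
    abel
  obtain ⟨E, -, k1, k2⟩ := exists_null D h0 h1 fun x => x
  have hlm : ∀ (g : Λ) m (c : Cx ℤ Λ m), D m (push ℤ (fun y => g * y) m c) =
      push ℤ (fun y => g * y) (m + 1) (D m c) := by
    intro g m c
    have e1 : push ℤ (fun y => y * u) m (push ℤ (fun y => g * y) m c) =
        push ℤ (fun y => g * y) m (push ℤ (fun y => y * u) m c) := by
      rw [push_push, push_push]
      congr 2
      funext x
      exact mul_assoc _ _ _
    rw [hDa, hDa, pri_lmul, pri_lmul, e1, pri_lmul, map_sub, map_sub]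
  have hE : E n (bd ℤ Λ n y) ∈ coi Λ (n + 2) := by
    refine equi_coi (MonoidHom.id Λ) (E n) (fun g c => ?_) (push_cyc f z.2)
    exact k2 (fun y => g * y) (fun y => g * y) (hlm g) (fun _ => rfl) n c
  have hv2 : pri v (n + 1) (push ℤ (fun y => y * u) (n + 1) y - y) ∈ coi Λ (n + 2) := by
    refine pri_coi v ?_
    have e1 : push ℤ (fun y => y * u) (n + 1) y = push ℤ (fun y => u * y) (n + 1) y := by
      rw [hy, push_push, push_push]
      congr 2
      funext x
      exact hu x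
    rw [e1]
    exact push_lmul_sub_mem u y
  have e5 : pri (u * v) (n + 1) y - (pri u (n + 1) y + pri v (n + 1) y) =
      bd ℤ Λ (n + 2) (E (n + 1) y) +
        (pri v (n + 1) (push ℤ (fun y => y * u) (n + 1) y - y) - E n (bd ℤ Λ n y)) := by
    have e6 := k1 n y
    rw [hDa] at e6
    have e7 : bd ℤ Λ (n + 2) (E (n + 1) y) = E n (bd ℤ Λ n y) +
        (pri (u * v) (n + 1) y - pri u (n + 1) y -
          pri v (n + 1) (push ℤ (fun y => y * u) (n + 1) y)) := by
      rw [← e6]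
      abel
    rw [e7, map_sub]
    abel
  rw [e5]
  exact Submodule.add_mem_sup (LinearMap.mem_range_self _ _) (Submodule.sub_mem _ hv2 hE)

theorem HG.cr_one (f : Γ →* Λ) (h : ∀ γ, f γ * 1 = 1 * f γ) (z : HG Γ n) :
    HG.cr f 1 h z = 0 := by
  have h' : ∀ γ, f γ * (1 * 1) = 1 * 1 * f γ := by
    intro γ
    rw [mul_one (1 : Λ)]
    exact h γ
  have e1 := HG.cr_mul f 1 1 h h h' z
  have e2 : ∀ (w : Λ) (_ : w = 1) (hw : ∀ γ, f γ * w = w * f γ),
      HG.cr f w hw z = HG.cr f 1 h z := by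
    intro w hw h2
    subst hw
    rfl
  rw [e2 (1 * 1) (mul_one 1) h'] at e1
  exact left_eq_add.1 e1

theorem HG.cr_comp {Γ' : Type*} [Group Γ'] (f : Γ →* Λ) (g : Γ' →* Γ) (u : Λ)
    (hu : ∀ γ, f γ * u = u * f γ) (h : ∀ γ, (f.comp g) γ * u = u * (f.comp g) γ) (z : HG Γ' n) :
    HG.cr (f.comp g) u h z = HG.cr f u hu (HG.map n g z) := by
  obtain ⟨z, rfl⟩ := HG.mk_surjective z
  rw [HG.map_mk, HG.cr_mk, HG.cr_mk]
  congr 1
  apply Subtype.ext
  exact congrArg (pri u (n + 1)) (push_push (R := ℤ) g f (n + 1) (z : Cx ℤ Γ' (n + 1))).symm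

theorem push_pri {Λ' : Type*} [Group Λ'] (g : Λ →* Λ') (u : Λ) (m : ℕ) (c : Cx ℤ Λ m) :
    push ℤ g (m + 1) (pri u m c) = pri (g u) m (push ℤ g m c) := by
  refine cx_ext (f := (push ℤ g (m + 1)).comp (pri u m)) (g := (pri (g u) m).comp (push ℤ g m)) ?_ c
  intro x
  rw [LinearMap.comp_apply, LinearMap.comp_apply, push_single, pri_single, pri_single, map_sum]
  refine Finset.sum_congr rfl fun i _ => ?_
  rw [map_smul, push_single]
  congr 2
  funext j
  unfold priT
  split_ifs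
  · exact map_mul g _ _
  · rfl

theorem HG.map_cr {Λ' : Type*} [Group Λ'] (f : Γ →* Λ) (g : Λ →* Λ') (u : Λ)
    (hu : ∀ γ, f γ * u = u * f γ) (h : ∀ γ, (g.comp f) γ * g u = g u * (g.comp f) γ) (z : HG Γ n) :
    HG.map (n + 1) g (HG.cr f u hu z) = HG.cr (g.comp f) (g u) h z := by
  obtain ⟨z, rfl⟩ := HG.mk_surjective z
  rw [HG.cr_mk, HG.cr_mk, HG.map_mk]
  congr 1
  apply Subtype.ext
  show push ℤ g (n + 1 + 1) (pri u (n + 1) (push ℤ f (n + 1) (z : Cx ℤ Γ (n + 1)))) =
    pri (g u) (n + 1) (push ℤ (g.comp f) (n + 1) (z : Cx ℤ Γ (n + 1)))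
  rw [push_pri]
  exact congrArg (pri (g u) (n + 1)) (push_push (R := ℤ) f g (n + 1) (z : Cx ℤ Γ (n + 1)))

/-- The product with the generator of the second factor of `Γ × ℤ`. -/
noncomputable def HG.crz (Γ : Type w) [Group Γ] (n : ℕ) :
    HG Γ n →+ HG (Γ × Multiplicative ℤ) (n + 1) :=
  HG.cr (MonoidHom.inl Γ (Multiplicative ℤ)) (1, Multiplicative.ofAdd 1) fun γ => by
    ext <;> simp

/-- the homomorphism `(γ, i) ↦ f γ * u ^ i` -/
def zhom (f : Γ →* Λ) (u : Λ) (hu : ∀ γ, f γ * u = u * f γ) : Γ × Multiplicative ℤ →* Λ where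
  toFun x := f x.1 * u ^ (Multiplicative.toAdd x.2)
  map_one' := by
    show f 1 * u ^ (0 : ℤ) = 1
    rw [map_one, zpow_zero, mul_one]
  map_mul' x y := by
    show f (x.1 * y.1) * u ^ (Multiplicative.toAdd x.2 + Multiplicative.toAdd y.2) =
      f x.1 * u ^ Multiplicative.toAdd x.2 * (f y.1 * u ^ Multiplicative.toAdd y.2)
    have h : f y.1 * u ^ Multiplicative.toAdd x.2 = u ^ Multiplicative.toAdd x.2 * f y.1 :=
      Commute.zpow_right (hu y.1) _
    rw [map_mul, zpow_add, mul_assoc, mul_assoc, ← mul_assoc (f y.1), h, mul_assoc]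

theorem HG.cr_eq_map (f : Γ →* Λ) (u : Λ) (hu : ∀ γ, f γ * u = u * f γ) (z : HG Γ n) :
    HG.cr f u hu z = HG.map (n + 1) (zhom f u hu) (HG.crz Γ n z) := by
  have h1 : (zhom f u hu).comp (MonoidHom.inl Γ (Multiplicative ℤ)) = f := by
    ext γ
    show f γ * u ^ (0 : ℤ) = f γ
    rw [zpow_zero, mul_one]
  have h2 : zhom f u hu (1, Multiplicative.ofAdd 1) = u := by
    show f 1 * u ^ (1 : ℤ) = u
    rw [map_one, zpow_one, one_mul]
  have h3 : ∀ γ, ((zhom f u hu).comp (MonoidHom.inl Γ (Multiplicative ℤ))) γ *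
      zhom f u hu (1, Multiplicative.ofAdd 1) = zhom f u hu (1, Multiplicative.ofAdd 1) *
        ((zhom f u hu).comp (MonoidHom.inl Γ (Multiplicative ℤ))) γ := by
    rw [h1, h2]
    exact hu
  have h4 : ∀ (f' : Γ →* Λ) (w : Λ), f' = f → w = u → ∀ h : ∀ γ, f' γ * w = w * f' γ,
      HG.cr f u hu z = HG.cr f' w h z := by
    intro f' w hf hw h
    subst hf hw
    rfl
  rw [HG.crz, HG.map_cr _ _ _ _ h3]
  exact h4 _ _ h1 h2 h3

end

section

variable {Γ : Type w} [Group Γ] {n : ℕ} {M : Type u} [CommRing M]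

end

end Pool.Agent.H16.FU

end

section

/-!
# Project CZ: classes in `KQ` of representations by matrices with arbitrary finite index sets

PROOFS.  `rxU e` is the reindexing.  `clX_equiv`: `rxU` of the two bijections with `Fin (card X)` differ by a permutation of
`Fin (card X)`, i.e. a conjugation by a permutation matrix: `HG.map_conj`; `card X = card Y` has to be substituted.
`clX_sum`: choose `e : X ≃ Fin N`, `e' : Y ≃ Fin M`; `KQ.cls_sum` for `finSumFinEquiv`, and `clX_equiv`.  `clX_congr`: from `KQ.cls_congr` by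
reindexing, or from `clX_sum`, `clX_one` and `HG.map_conj` directly.
-/

set_option autoImplicit false

open Matrix

universe u v w

namespace Pool.Agent.H71.CZ

open Pool.Agent.H71.FQ

section

variable {A : Type u} [Ring A] {n : ℕ}

variable (A n) in
/-- the class of a homology class of the matrices with index set `X` -/
noncomputable def clX (X : Type) [Fintype X] [DecidableEq X] :
    HG (Matrix X X A)ˣ n →+ KQ A n :=
  (KQ.cls A n (Fintype.card X)).comp (HG.map n (rxU (Fintype.equivFin X)))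

variable {X Y : Type} [Fintype X] [DecidableEq X] [Fintype Y] [DecidableEq Y]

theorem cls_rxU {N M : ℕ} (e : X ≃ Fin N) (e' : X ≃ Fin M) (x : HG (Matrix X X A)ˣ n) :
    KQ.cls A n N (HG.map n (rxU e) x) = KQ.cls A n M (HG.map n (rxU e') x) := by
  obtain rfl : N = M := by
    have h := Fintype.card_congr (e.symm.trans e')
    rwa [Fintype.card_fin, Fintype.card_fin] at h
  congr 1
  refine HG.map_conj _ _ (pmU (A := A) (e.symm.trans e')) ?_ x
  intro U
  rw [eq_mul_inv_iff_mul_eq]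
  refine Units.ext ?_
  show (rxU e U).val * (pmU (A := A) (e.symm.trans e')).val =
    (pmU (A := A) (e.symm.trans e')).val * (rxU e' U).val
  have h : (rxU e U).val = (rxU e' U).val.submatrix (e.symm.trans e') (e.symm.trans e') := by
    ext i j
    rw [submatrix_apply, rxU_apply, rxU_apply, Equiv.trans_apply, Equiv.trans_apply,
      Equiv.symm_apply_apply, Equiv.symm_apply_apply]
  rw [h, mul_pmU, pmU_mul]

theorem clX_eq {N : ℕ} (e : X ≃ Fin N) (x : HG (Matrix X X A)ˣ n) :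
    clX A n X x = KQ.cls A n N (HG.map n (rxU e) x) := cls_rxU (Fintype.equivFin X) e x

theorem clX_equiv (e : X ≃ Y) (x : HG (Matrix X X A)ˣ n) :
    clX A n Y (HG.map n (rxU e) x) = clX A n X x := by
  rw [clX_eq (e.trans (Fintype.equivFin Y)) x]
  show KQ.cls A n _ (HG.map n (rxU (Fintype.equivFin Y)) (HG.map n (rxU e) x)) = _
  rw [HG.map_map]
  rfl

theorem clX_fin (N : ℕ) (x : HG (GLm N A) n) : clX A n (Fin N) x = KQ.cls A n N x := by
  rw [clX_eq (Equiv.refl (Fin N)) x]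
  congr 1
  exact HG.map_id x

/-- conjugation by a matrix -/
theorem clX_conj {Γ : Type w} [Group Γ] (f g : Γ →* (Matrix X X A)ˣ) (W : (Matrix X X A)ˣ)
    (h : ∀ γ, W.val * (f γ).val = (g γ).val * W.val) (x : HG Γ n) :
    clX A n X (HG.map n f x) = clX A n X (HG.map n g x) := by
  congr 1
  refine (HG.map_conj f g W (fun γ => ?_) x).symm
  rw [eq_mul_inv_iff_mul_eq]
  exact Units.ext (h γ).symm

/-- **Block sums.** -/
theorem clX_sum {Γ : Type w} [Group Γ] (f : Γ →* (Matrix X X A)ˣ) (g : Γ →* (Matrix Y Y A)ˣ)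
    (h : Γ →* (Matrix (X ⊕ Y) (X ⊕ Y) A)ˣ)
    (hh : ∀ γ, (h γ).val = fromBlocks (f γ).val 0 0 (g γ).val) (x : HG Γ n) :
    clX A n (X ⊕ Y) (HG.map n h x) = clX A n X (HG.map n f x) + clX A n Y (HG.map n g x) := by
  rw [clX_eq ((Equiv.sumCongr (Fintype.equivFin X) (Fintype.equivFin Y)).trans finSumFinEquiv)
    (HG.map n h x), clX_eq (Fintype.equivFin X) (HG.map n f x),
    clX_eq (Fintype.equivFin Y) (HG.map n g x), HG.map_map, HG.map_map, HG.map_map]
  refine KQ.cls_sum _ _ _ (fun γ => ?_) x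
  show (rxU _ (h γ)).val = blkM (rxU _ (f γ)).val (rxU _ (g γ)).val
  ext i j
  rw [rxU_apply, hh, blkM, submatrix_apply, Equiv.symm_trans_apply, Equiv.symm_trans_apply]
  generalize finSumFinEquiv.symm i = a
  generalize finSumFinEquiv.symm j = b
  rcases a with a | a <;> rcases b with b | b <;> rfl

theorem clX_one {Γ : Type w} [Group Γ] (x : HG Γ n) :
    clX A n X (HG.map n (1 : Γ →* (Matrix X X A)ˣ) x) = 0 := by
  rw [HG.map_one, map_zero]

theorem map_clX {A' : Type v} [Ring A'] (f : A →+* A') (x : HG (Matrix X X A)ˣ n) :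
    KQ.map f (clX A n X x) = clX A' n X (HG.map n (mapX f X) x) := by
  show KQ.map f (KQ.cls A n _ (HG.map n (rxU (Fintype.equivFin X)) x)) =
    KQ.cls A' n _ (HG.map n (rxU (Fintype.equivFin X)) (HG.map n (mapX f X) x))
  rw [KQ.map_cls, HG.map_map, HG.map_map]
  rfl

end

end Pool.Agent.H71.CZ

end

section

/-!
# Project CZ: splitting off a direct summand

PROOF.  `M = [[1 - A B, A], [B, 0]]` satisfies `M * M = 1` (`B A = 1`), and `M (f ⊕ 1) M = (f (1 - A B) + A B) ⊕ g`; `clX_sum`, `clX_conj`,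
`HG.map_one`.
-/

set_option autoImplicit false

open Matrix

universe u v w

namespace Pool.Agent.H71.CZ

open Pool.Agent.H71.FQ

section

variable {A : Type u} [Ring A] {n : ℕ} {X Y : Type} [Fintype X] [DecidableEq X] [Fintype Y]
  [DecidableEq Y]

/-- **Splitting off a direct summand.** -/
theorem clX_split {Γ : Type w} [Group Γ] (f f' : Γ →* (Matrix X X A)ˣ)
    (g : Γ →* (Matrix Y Y A)ˣ) (P : Matrix X Y A) (Q : Matrix Y X A) (hQP : Q * P = 1)
    (h1 : ∀ γ, (f γ).val * P = P * (g γ).val) (h2 : ∀ γ, Q * (f γ).val = (g γ).val * Q)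
    (h3 : ∀ γ, (f' γ).val = (f γ).val * (1 - P * Q) + P * Q) (x : HG Γ n) :
    clX A n X (HG.map n f x) = clX A n Y (HG.map n g x) + clX A n X (HG.map n f' x) := by
  have e1 : P * Q * P = P := by rw [Matrix.mul_assoc, hQP, Matrix.mul_one]
  have e2 : Q * (P * Q) = Q := by rw [← Matrix.mul_assoc, hQP, Matrix.one_mul]
  have e3 : (1 - P * Q) * P = 0 := by rw [Matrix.sub_mul, Matrix.one_mul, e1, sub_self]
  have e4 : Q * (1 - P * Q) = 0 := by rw [Matrix.mul_sub, Matrix.mul_one, e2, sub_self]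
  have e5 : (1 - P * Q) * (1 - P * Q) + P * Q = 1 := by
    rw [Matrix.mul_sub, Matrix.mul_one, ← Matrix.mul_assoc, e3, Matrix.zero_mul, sub_zero,
      sub_add_cancel]
  have hM : fromBlocks (1 - P * Q) P Q 0 * fromBlocks (1 - P * Q) P Q 0 = 1 := by
    rw [fromBlocks_multiply, Matrix.mul_zero, Matrix.zero_mul, Matrix.mul_zero, add_zero, add_zero,
      add_zero, e5, e3, e4, hQP, fromBlocks_one]
  let W : (Matrix (X ⊕ Y) (X ⊕ Y) A)ˣ := ⟨_, _, hM, hM⟩
  have h4 := clX_sum f (1 : Γ →* (Matrix Y Y A)ˣ) (blkX.comp (f.prod 1)) (fun γ => rfl) x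
  have h5 := clX_sum f' g (blkX.comp (f'.prod g)) (fun γ => rfl) x
  rw [clX_one, add_zero] at h4
  rw [← h4, add_comm, ← h5]
  refine clX_conj _ _ W (fun γ => ?_) x
  show fromBlocks (1 - P * Q) P Q 0 * fromBlocks (f γ).val 0 0 1 =
    fromBlocks (f' γ).val 0 0 (g γ).val * fromBlocks (1 - P * Q) P Q 0
  have e6 : (f γ).val * (P * Q) = P * Q * (f γ).val := by
    rw [← Matrix.mul_assoc, h1, Matrix.mul_assoc, ← h2, ← Matrix.mul_assoc]
  have e7 : (f γ).val * (1 - P * Q) = (1 - P * Q) * (f γ).val := by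
    rw [Matrix.mul_sub, Matrix.mul_one, e6, Matrix.sub_mul, Matrix.one_mul]
  have e8 : (f' γ).val * (1 - P * Q) = (1 - P * Q) * (f γ).val := by
    rw [h3, Matrix.add_mul, Matrix.mul_assoc, Matrix.mul_assoc, e4, Matrix.mul_zero, add_zero,
      Matrix.mul_sub (1 - P * Q), Matrix.mul_one, ← Matrix.mul_assoc (1 - P * Q), e3,
      Matrix.zero_mul, sub_zero, e7]
  have e9 : (f' γ).val * P = P := by
    rw [h3, Matrix.add_mul, Matrix.mul_assoc, e3, Matrix.mul_zero, zero_add, e1]
  rw [fromBlocks_multiply, fromBlocks_multiply, e8, e9]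
  simp only [Matrix.mul_zero, Matrix.zero_mul, add_zero, zero_add, Matrix.mul_one, h2]

end

end Pool.Agent.H71.CZ

end

section

/-!
# Naturality and stability of `Gam`
-/

set_option autoImplicit false
set_option linter.unusedSectionVars false

open Matrix

universe u v w

namespace Pool.Agent.H71.WH

theorem emb_map {R S : Type*} [Ring R] [Ring S] {ι κ : Type*} [Fintype ι] [DecidableEq ι]
    [Fintype κ] [DecidableEq κ] (g : R →+* S) (ε : ι ↪ κ) (w : Matrix ι ι R) :
    (emb ε w).map g = emb ε (w.map g) := by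
  apply eq_emb
  · intro i k
    rw [Matrix.map_apply, emb_apply, Matrix.map_apply]
  · intro a b h
    rw [Matrix.map_apply, emb_zero_left _ _ h, map_zero]
  · intro a b h
    rw [Matrix.map_apply, emb_zero_right _ _ _ h, map_zero]

theorem emb_comp {R : Type*} [Ring R] {ι κ μ : Type*} [Fintype ι] [DecidableEq ι]
    [Fintype κ] [DecidableEq κ] [Fintype μ] [DecidableEq μ] (ε : ι ↪ κ) (η : κ ↪ μ)
    (w : Matrix ι ι R) : emb η (emb ε w) = emb (ε.trans η) w := by
  symm
  apply eq_emb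
  · intro i k
    by_cases hi : ∃ a, i = ε a
    · obtain ⟨a, rfl⟩ := hi
      by_cases hk : ∃ b, k = ε b
      · obtain ⟨b, rfl⟩ := hk
        rw [emb_apply]
        exact emb_apply (ε.trans η) w a b
      · push Not at hk
        rw [emb_zero_right _ _ _ hk]
        apply emb_zero_right
        intro c hc
        exact hk c (η.injective hc)
    · push Not at hi
      rw [emb_zero_left _ _ hi]
      apply emb_zero_left
      intro c hc
      exact hi c (η.injective hc)
  · intro a b h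
    exact emb_zero_left _ _ (fun i => h (ε i)) _
  · intro a b h
    exact emb_zero_right _ _ _ (fun i => h (ε i))

section Nat

variable {G : Type u} [Group G] {H : Type w} [Group H] (φ : G →* H)

theorem gr_i1 (a : MonoidAlgebra ℤ G) : gr (φ.prodMap φ) (i1 G a) = i1 H (gr φ a) := by
  induction a using MonoidAlgebra.induction_linear with
  | zero => simp
  | add x y hx hy => rw [map_add (i1 G), map_add (gr φ), map_add (i1 H), map_add (gr _), hx, hy]
  | single g n =>
    rw [i1_single, gr_single, gr_single, i1_single]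
    congr 1
    exact Prod.ext rfl (map_one φ)

theorem gr_Del (a : MonoidAlgebra ℤ G) : gr (φ.prodMap φ) (Del G a) = Del H (gr φ a) := by
  induction a using MonoidAlgebra.induction_linear with
  | zero => simp
  | add x y hx hy => rw [map_add (Del G), map_add (gr φ), map_add (Del H), map_add (gr _), hx, hy]
  | single g n =>
    rw [Del_single, gr_single, gr_single, Del_single]
    rfl

theorem gr_sw (a : MonoidAlgebra ℤ (G × G)) :
    gr (φ.prodMap φ) (sw G a) = sw H (gr (φ.prodMap φ) a) := by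
  induction a using MonoidAlgebra.induction_linear with
  | zero => simp
  | add x y hx hy => rw [map_add (sw G), map_add (gr _), map_add (gr _), map_add (sw H), hx, hy]
  | single g n =>
    rw [sw_single, gr_single, gr_single, sw_single]
    rfl

variable {ι : Type v} [Fintype ι] [DecidableEq ι]

/-- the induced map on `GL` -/
noncomputable def glMap (ι : Type v) [Fintype ι] [DecidableEq ι] :
    (Matrix ι ι (MonoidAlgebra ℤ G))ˣ →* (Matrix ι ι (MonoidAlgebra ℤ H))ˣ :=
  Units.map (gr φ).mapMatrix.toMonoidHom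

theorem glMap_val (u : (Matrix ι ι (MonoidAlgebra ℤ G))ˣ) :
    (glMap φ ι u : Matrix ι ι (MonoidAlgebra ℤ H)) = (gr φ).mapMatrix (u : Matrix ι ι _) := rfl

end Nat

end Pool.Agent.H71.WH

end

section

/-!
# Stability of `Gam`
-/

set_option autoImplicit false
set_option linter.unusedSectionVars false
set_option linter.unusedSimpArgs false

open Matrix

universe u v w

namespace Pool.Agent.H71.WH

theorem grp_aux2 {H : Type u} [Group H] (a b c : H) : a⁻¹ * c = a⁻¹ * b * (b⁻¹ * c) := by group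

namespace TwTr

end TwTr

section Stab

variable {G : Type u} [Group G] (f : G → ℤ) (hf : ∀ x y, f (x * y) = f (y * x))
  {ι κ : Type v} [Fintype ι] [DecidableEq ι] [Fintype κ] [DecidableEq κ] (ε : ι ↪ κ)

/-- Stabilisation `u ↦ u ⊕ 1` along an injective map of the index sets. -/
noncomputable def stab : (Matrix ι ι (MonoidAlgebra ℤ G))ˣ →* (Matrix κ κ (MonoidAlgebra ℤ G))ˣ :=
  unitExt (emb ε)

theorem stab_val (u : (Matrix ι ι (MonoidAlgebra ℤ G))ˣ) :
    (stab ε u : Matrix κ κ (MonoidAlgebra ℤ G)) =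
      emb ε (u : Matrix ι ι (MonoidAlgebra ℤ G)) + (1 - emb ε 1) := rfl

theorem swap_ne_prodMap {P : κ × κ} (h : ∀ i, P ≠ ε.prodMap ε i) (i : ι × ι) :
    P.swap ≠ ε.prodMap ε i := by
  intro h'
  apply h i.swap
  rw [← Prod.swap_swap P, h']
  rfl

end Stab

end Pool.Agent.H71.WH

end
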