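import Pool.Agent.H71.TCZ.M15
import Pool.Agent.H71.TCZ.M16
import Pool.Agent.H71.TCZ.M22

/-! The parts of this file: H71.WH.Gam_1, H71.WH.Gam4_1, H71.WH.Fun, H71.WH.Skew3_2. -/

section

/-!
# The homomorphism `Gam : GL(ℤ[G]) → ℚ₂`
-/

set_option autoImplicit false
set_option linter.unusedSectionVars false

open Matrix

universe u v w

namespace Pool.Agent.H71.WH

section

variable {G : Type u} [Group G] (f : G → ℤ) (hf : ∀ x y, f (x * y) = f (y * x))
  (ι : Type v) [Fintype ι] [DecidableEq ι]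

variable {ι}

theorem gg_adm (u : (Matrix ι ι (MonoidAlgebra ℤ G))ˣ) : (tG f hf ι).Adm (gg u) := by
  obtain ⟨z, hz⟩ := exists_T_sub f hf u
  refine ⟨((PP u)⁻¹ : (MM G ι)ˣ) * z, ?_⟩
  rw [map_mul, TwTr.s_inv _ (s_PP f hf u), add_assoc, ← mul_add, ← hz, mul_sub, Units.inv_mul,
    gg, Units.val_mul]
  abel

/-- The homomorphism `GL(ℤ[G]) → ℚ₂` defined by a class function. -/
noncomputable def Gam (u : (Matrix ι ι (MonoidAlgebra ℤ G))ˣ) : ℚ_[2] := (tG f hf ι).Lam (gg u)

theorem Gam_mul (u w : (Matrix ι ι (MonoidAlgebra ℤ G))ˣ) :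
    Gam f hf (u * w) = Gam f hf u + Gam f hf w := by
  rw [Gam, gg_mul, TwTr.Lam_mul _ (TwTr.Adm.conj _ (gg_adm f hf u) (s_PP f hf w)) (gg_adm f hf w),
    TwTr.Lam_conj _ (gg_adm f hf u) (s_PP f hf w)]
  rfl

theorem Gam_one : Gam f hf (1 : (Matrix ι ι (MonoidAlgebra ℤ G))ˣ) = 0 := by
  have := Gam_mul f hf (1 : (Matrix ι ι (MonoidAlgebra ℤ G))ˣ) 1
  rw [mul_one] at this
  exact (add_eq_left.1 this.symm)

end

end Pool.Agent.H71.WH

end

section

/-!
# The value of `Gam` on matrices congruent to `1` modulo `4`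
-/

set_option autoImplicit false
set_option linter.unusedSectionVars false
set_option linter.unusedSimpArgs false

open Matrix

universe u v w

namespace Pool.Agent.H71.WH

namespace TwTr

end TwTr

section

variable {G : Type u} [Group G] (f : G → ℤ) (hf : ∀ x y, f (x * y) = f (y * x))
  {ι : Type v} [Fintype ι] [DecidableEq ι]

/-- `Gam` vanishes on elements of finite order. -/
theorem Gam_eq_zero_of_pow (u : (Matrix ι ι (MonoidAlgebra ℤ G))ˣ) (n : ℕ) (hn : n ≠ 0)
    (h : Gam f hf (u ^ n) = 0) : Gam f hf u = 0 := by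
  have h1 : ∀ k : ℕ, Gam f hf (u ^ k) = k * Gam f hf u := by
    intro k
    induction k with
    | zero => rw [pow_zero, Gam_one]; simp
    | succ k ih => rw [pow_succ, Gam_mul, ih]; push_cast; ring
  rw [h1] at h
  rcases mul_eq_zero.1 h with h | h
  · exact absurd (by exact_mod_cast h) hn
  · exact h

end

end Pool.Agent.H71.WH

end

section

/-!
# The functionals on the Whitehead group and on the colimit
-/

set_option autoImplicit false
set_option linter.unusedSectionVars false
set_option linter.unusedSimpArgs false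

open Matrix
open scoped Classical

universe u v w

namespace Pool.Agent.H71.WH

theorem blockOne_eq {R : Type u} [Ring R] {n : ℕ} (a : Matrix (Fin n) (Fin n) R) :
    blockOne a = emb (Fin.castAddEmb 1) a + (1 - emb (Fin.castAddEmb 1) 1) := by
  have hc : ∀ (j : Fin 1) (i : Fin n), Fin.natAdd n j ≠ Fin.castAddEmb 1 i := by
    intro j i h
    have := congrArg Fin.val h
    simp at this
    omega
  have hb : ∀ i j, blockOne a i j = (fromBlocks a 0 0 1) (finSumFinEquiv.symm i)
      (finSumFinEquiv.symm j) := fun _ _ => rfl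
  ext i j
  rw [hb, Matrix.add_apply, Matrix.sub_apply]
  refine Fin.addCases (fun i' => ?_) (fun i' => ?_) i
  · refine Fin.addCases (fun j' => ?_) (fun j' => ?_) j
    · rw [finSumFinEquiv_symm_apply_castAdd, finSumFinEquiv_symm_apply_castAdd,
        fromBlocks_apply₁₁]
      have h1 := emb_apply (R := R) (Fin.castAddEmb 1) a i' j'
      have h2 := emb_apply (R := R) (Fin.castAddEmb 1) 1 i' j'
      change emb (Fin.castAddEmb 1) a (Fin.castAdd 1 i') (Fin.castAdd 1 j') = _ at h1
      change emb (Fin.castAddEmb 1) 1 (Fin.castAdd 1 i') (Fin.castAdd 1 j') = _ at h2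
      rw [h1, h2]
      by_cases hij : i' = j'
      · subst hij
        rw [Matrix.one_apply_eq, Matrix.one_apply_eq, sub_self, add_zero]
      · rw [Matrix.one_apply_ne hij, Matrix.one_apply_ne, sub_self, add_zero]
        intro h
        exact hij (Fin.castAdd_injective _ _ h)
    · have h0 : (1 : Matrix (Fin (n + 1)) (Fin (n + 1)) R) (Fin.castAdd 1 i')
          (Fin.natAdd n j') = 0 := Matrix.one_apply_ne (fun h => hc j' i' h.symm)
      rw [finSumFinEquiv_symm_apply_castAdd, finSumFinEquiv_symm_apply_natAdd,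
        fromBlocks_apply₁₂, emb_zero_right _ _ _ (hc j'), emb_zero_right _ _ _ (hc j'), h0]
      simp
  · refine Fin.addCases (fun j' => ?_) (fun j' => ?_) j
    · have h0 : (1 : Matrix (Fin (n + 1)) (Fin (n + 1)) R) (Fin.natAdd n i')
          (Fin.castAdd 1 j') = 0 := Matrix.one_apply_ne (hc i' j')
      rw [finSumFinEquiv_symm_apply_castAdd, finSumFinEquiv_symm_apply_natAdd,
        fromBlocks_apply₂₁, emb_zero_left _ _ (hc i'), emb_zero_left _ _ (hc i'), h0]
      simp
    · rw [finSumFinEquiv_symm_apply_natAdd, finSumFinEquiv_symm_apply_natAdd,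
        fromBlocks_apply₂₂, emb_zero_left _ _ (hc i'), emb_zero_left _ _ (hc i')]
      have : i' = j' := Subsingleton.elim _ _
      subst this
      rw [Matrix.one_apply_eq, Matrix.one_apply_eq]
      simp

section G

variable {G : Type v} [Group G] (f : G → ℤ) (hf : ∀ x y, f (x * y) = f (y * x))

/-- the functional on the free abelian group -/
noncomputable def GamFree : FreeAbelianGroup (InvMat (MonoidAlgebra ℤ G)) →+ ℚ_[2] :=
  FreeAbelianGroup.lift fun a => Gam f hf a.mat

theorem oneByOne_apply (x : (MonoidAlgebra ℤ G)ˣ) (i j : Fin 1) :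
    (oneByOne x : Matrix (Fin 1) (Fin 1) (MonoidAlgebra ℤ G)) i j = x := by
  have : i = j := Subsingleton.elim _ _
  subst this
  exact Matrix.diagonal_apply_eq _ _

theorem TwTr.Lam_one {M : Type u} [Ring M] (t : TwTr M) : t.Lam 1 = 0 := by
  have h1 : t.Adm 1 := ⟨0, by rw [map_zero, add_zero, add_zero, Units.val_one]⟩
  have h2 := t.Lam_mul h1 h1
  rw [mul_one] at h2
  exact (add_eq_left.1 h2.symm)

theorem TT_trivial (u : (Matrix (Fin 1) (Fin 1) (MonoidAlgebra ℤ G))ˣ) (g : G)
    (hu : ∀ i j, (u : Matrix (Fin 1) (Fin 1) (MonoidAlgebra ℤ G)) i j = MonoidAlgebra.single g 1)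
    (P Q : Fin 1 × Fin 1) : (TT u : MM G (Fin 1)) P Q = (PP u : MM G (Fin 1)) P Q := by
  obtain ⟨a, b⟩ := P
  obtain ⟨c, d⟩ := Q
  have hb : b = a := Subsingleton.elim _ _
  have hd : d = c := Subsingleton.elim _ _
  subst hb
  subst hd
  rw [PP_dg, TT_val, k12_apply, hu, i1_single, i2_single, Del_single,
    MonoidAlgebra.single_mul_single, Prod.mk_mul_mk, one_mul, mul_one, one_mul]

theorem Gam_of_eq {ι : Type w} [Fintype ι] [DecidableEq ι]
    (u : (Matrix ι ι (MonoidAlgebra ℤ G))ˣ) (h : TT u = PP u) : Gam f hf u = 0 := by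
  rw [Gam, gg, h, inv_mul_cancel]
  exact TwTr.Lam_one _

theorem Gam_trivial_pos (u : (Matrix (Fin 1) (Fin 1) (MonoidAlgebra ℤ G))ˣ) (g : G)
    (hu : ∀ i j, (u : Matrix (Fin 1) (Fin 1) (MonoidAlgebra ℤ G)) i j = MonoidAlgebra.single g 1) :
    Gam f hf u = 0 := by
  apply Gam_of_eq
  exact Units.ext (Matrix.ext (TT_trivial u g hu))

theorem Gam_trivial (x : (MonoidAlgebra ℤ G)ˣ) (hx : x ∈ trivialUnits G) :
    Gam f hf (oneByOne x) = 0 := by
  obtain ⟨g, e, he, hx⟩ := hx
  apply Gam_eq_zero_of_pow f hf _ 2 two_ne_zero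
  have h1 : oneByOne x ^ 2 = oneByOne (x ^ 2) := (map_pow _ x 2).symm
  rw [h1]
  apply Gam_trivial_pos f hf _ (g * g)
  intro i j
  rw [oneByOne_apply, Units.val_pow_eq_pow_val, hx, pow_two, MonoidAlgebra.single_mul_single]
  rcases he with rfl | rfl <;> simp

end G

end Pool.Agent.H71.WH

end

section

/-!
# Naturality and values of `Lam`
-/

set_option autoImplicit false

open Matrix

universe u v

namespace Pool.Agent.H71.WH

namespace TwTr

variable {M : Type u} [Ring M] (t : TwTr M) {M' : Type v} [Ring M'] (t' : TwTr M')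

/-- The value of `Lam` on units `1 + 4 x` with `s x = x`. -/
theorem Lam_four {x : M} (hx : t.s x = x) {g : Mˣ} (h : (g : M) = 1 + 4 * x) :
    t.Lam g = 1 / 2 * L t.κ (g : M) := by
  have hz : (g : M) = 1 + 2 * x + t.s (2 * x) := by
    rw [h, map_mul, map_ofNat, hx]
    noncomm_ring
  rw [t.Lam_eq hz]
  -- `v = 1 + 2 w`, `θ v = 1 + 2 w'`
  set v := t.vU (2 * x) g hz with hv
  have hv1 : (v : t.skew) = 1 + 2 * t.el x x := by
    rw [hv, vU_val, two_mul (t.el x x), el_add, ← el_one, el_add]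
    congr 1
    · rw [two_mul]
    · rw [two_mul, zero_add]
  have hθ : t.θ v = 1 + 2 * t.el x (-x) := by
    rw [hv1, map_add, map_one, map_mul, map_ofNat, θ_el]
  have hc1 : Cong (v : t.skew) := ⟨_, hv1⟩
  have hc2 : Cong (t.θ v) := ⟨_, hθ⟩
  have hc3 : Cong (((v⁻¹ : t.skewˣ) : t.skew)) := hc1.of_mul_eq_one (Units.inv_mul v)
  have e1 : L t.τ (t.θ v) = -L t.τ (v : t.skew) := by
    rw [L_map]
    have : pull t.θ t.τ = -t.τ := by
      apply AddMonoidHom.ext
      intro V
      rw [pull_apply, τ_θ]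
      rfl
    rw [this, L, tl_neg]
    rfl
  have e2 : t.lam v = L t.τ (v : t.skew) := by
    rw [lam, L_mul t.τ t.τ_comm hc3 hc2, L_inv t.τ t.τ_comm hc1 (Units.inv_mul v), e1]
    ring
  rw [e2, hv1, h, L, L, add_sub_cancel_left, add_sub_cancel_left]
  have hpow : ∀ k : ℕ, (2 * t.el x x) ^ (k + 1) = t.el (2 ^ (2 * k + 1) * x ^ (k + 1))
      (2 ^ (2 * k + 1) * x ^ (k + 1)) := by
    intro k
    induction k with
    | zero =>
      simp only [zero_add, pow_one, mul_zero]
      rw [two_mul (t.el x x), el_add, two_mul x]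
    | succ k ih =>
      rw [pow_succ, ih, two_mul (t.el x x), el_add, el_mul, map_add, hx]
      have hc : x ^ (k + 1) * (x + x) = 2 * x ^ (k + 1 + 1) := by
        rw [mul_add, ← pow_succ, ← two_mul]
      have : 2 ^ (2 * k + 1) * x ^ (k + 1) * (x + x) + 2 ^ (2 * k + 1) * x ^ (k + 1) * (x + x) =
          2 ^ (2 * (k + 1) + 1) * x ^ (k + 1 + 1) := by
        rw [mul_assoc, hc, ← mul_assoc, ← two_mul, ← mul_assoc, ← pow_succ, ← pow_succ']
        rfl
      rw [this]
  rw [tl, tl, ← tsum_mul_left]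
  congr 1
  funext k
  rw [tlTerm, tlTerm, hpow, τ_el, map_two_pow_mul]
  have h4 : (4 * x) ^ (k + 1) = 2 ^ (2 * (k + 1)) * x ^ (k + 1) := by
    rw [(Commute.ofNat_left 4 x).mul_pow, pow_mul]
    norm_num
  rw [h4, map_two_pow_mul]
  push_cast
  rw [show 2 * (k + 1) = 2 * k + 1 + 1 by ring, pow_succ (2 : ℚ_[2]) (2 * k + 1)]
  ring

end TwTr

end Pool.Agent.H71.WH

end
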