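import Pool.Agent.H71.TCZ.H71.CZ.Eta
import Pool.Agent.H71.TCZ.H71.FQ.EvC1
import Pool.Agent.H71.TCZ.M04
import Pool.Agent.H71.TCZ.M19
import Pool.Agent.H71.TCZ.M23
import Pool.Agent.H71.TCZ.M24

/-! The parts of this file: H71.CZ.ThDef, H71.WH.Gam2_1, H71.WH.U1_1, H71.FQ.EvC. -/

section

/-!
# Project CZ: the map `θ` on the homology of `GL_Y(B[G])`

`TV = ℚ ⊗ (KQ(B[G ≀ C_p]) / image of KQ(B[G^p]))`.

PROOFS.  `toTV_eq_zero`: an element of `ℚ ⊗ X` of the form `1 ⊗ x` vanishes iff `x` is torsion (see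
`Pool.Agent.H95.KM.lTensor_injective` and the lemmas around it, or localization at the non-zero integers).
`exists_th`: `ckill_eta`, `exists_descend` for `φ x' = toTV (clX (HG.map jU x'))`, compose with `HG.map eta`.
-/

set_option autoImplicit false

open Matrix

universe u v w

namespace Pool.Agent.H71.CZ

open Pool.Agent.H71.FQ

section

variable (p : ℕ) [hp : Fact p.Prime] (B : Type) [CommRing B] (G : Type v) [Group G] (n : ℕ)

/-- the target of `θ` -/
abbrev TV : Type v :=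
  TensorProduct ℤ ℚ (KQ (MonoidAlgebra B (Wr p G)) n ⧸
    (KQ.map (n := n) (MonoidAlgebra.mapDomainRingHom B (inc p G))).range)

/-- the canonical map -/
noncomputable def toTV : KQ (MonoidAlgebra B (Wr p G)) n →+ TV p B G n :=
  ((TensorProduct.mk ℤ ℚ (KQ (MonoidAlgebra B (Wr p G)) n ⧸
    (KQ.map (n := n) (MonoidAlgebra.mapDomainRingHom B (inc p G))).range)) 1).toAddMonoidHom.comp
    (QuotientAddGroup.mk' _)

variable {p B G n}

theorem toTV_map (y : KQ (MonoidAlgebra B (ZMod p → G)) n) :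
    toTV p B G n (KQ.map (MonoidAlgebra.mapDomainRingHom B (inc p G)) y) = 0 := by
  have h : (QuotientAddGroup.mk' (KQ.map (n := n) (MonoidAlgebra.mapDomainRingHom B (inc p G))).range)
      (KQ.map (MonoidAlgebra.mapDomainRingHom B (inc p G)) y) = 0 :=
    (QuotientAddGroup.eq_zero_iff _).2 ⟨y, rfl⟩
  show (TensorProduct.mk ℤ ℚ _ 1) ((QuotientAddGroup.mk' _)
    (KQ.map (MonoidAlgebra.mapDomainRingHom B (inc p G)) y)) = 0
  rw [h, map_zero]

variable (Y : Type) [Fintype Y] [DecidableEq Y]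

/-- the value on the homology of `D~^×` -/
noncomputable def phD : HG (Dt (shM p B G Y))ˣ n →+ TV p B G n :=
  (toTV p B G n).comp ((clX (MonoidAlgebra B (Wr p G)) n (ZMod p → Y)).comp
    (HG.map n (jU p B G Y)))

end

end Pool.Agent.H71.CZ

end

section

/-!
# Naturality and stability of `Gam`
-/

set_option autoImplicit false
set_option linter.unusedSectionVars false

open Matrix

universe u v w

namespace Pool.Agent.H71.WH

section Nat

variable {G : Type u} [Group G] {H : Type w} [Group H] (φ : G →* H)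

variable {ι : Type v} [Fintype ι] [DecidableEq ι]

/-- the induced map on matrices -/
noncomputable def JJ (ι : Type v) [Fintype ι] [DecidableEq ι] : MM G ι →+* MM H ι :=
  (gr (φ.prodMap φ)).mapMatrix

theorem JJ_apply (F : MM G ι) (P Q : ι × ι) : JJ φ ι F P Q = gr (φ.prodMap φ) (F P Q) := rfl

theorem JJ_k1 (w : Matrix ι ι (MonoidAlgebra ℤ G)) :
    JJ φ ι (k1 ι w) = k1 ι ((gr φ).mapMatrix w) := by
  ext P Q : 1
  rw [JJ_apply, k1_apply, k1_apply]
  split_ifs
  · rw [gr_i1]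
    rfl
  · rw [map_zero]

theorem JJ_s (f : H → ℤ) (hf : ∀ x y, f (x * y) = f (y * x)) (f' : G → ℤ)
    (hf' : ∀ x y, f' (x * y) = f' (y * x)) (F : MM G ι) :
    JJ φ ι ((tG f' hf' ι).s F) = (tG f hf ι).s (JJ φ ι F) := by
  ext P Q : 1
  rw [JJ_apply, tG_s, tG_s, JJ_apply, gr_sw]

theorem JJ_k2 (w : Matrix ι ι (MonoidAlgebra ℤ G)) :
    JJ φ ι (k2 ι w) = k2 ι ((gr φ).mapMatrix w) := by
  rw [← s_k1 (fun _ => 0) (fun _ _ => rfl), ← s_k1 (fun _ => 0) (fun _ _ => rfl),
    JJ_s φ (fun _ => 0) (fun _ _ => rfl), JJ_k1]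

theorem JJ_psi (w : Matrix ι ι (MonoidAlgebra ℤ G)) :
    JJ φ ι (psi ι w) = psi ι ((gr φ).mapMatrix w) := by
  rw [psi_eq, psi_eq]
  change (emb (dg ι) (w.map (Del G))).map (gr (φ.prodMap φ)) = _
  rw [emb_map]
  congr 1
  ext i k : 1
  exact gr_Del φ _

theorem JJ_TT (u : (Matrix ι ι (MonoidAlgebra ℤ G))ˣ) :
    Units.map (JJ φ ι).toMonoidHom (TT u) = TT (glMap φ ι u) := by
  have h : JJ φ ι (TT u : MM G ι) = (TT (glMap φ ι u) : MM H ι) := by
    rw [TT_val, TT_val, map_mul, JJ_k1, JJ_k2, glMap_val]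
  exact Units.ext h

theorem JJ_PP (u : (Matrix ι ι (MonoidAlgebra ℤ G))ˣ) :
    Units.map (JJ φ ι).toMonoidHom (PP u) = PP (glMap φ ι u) := by
  have h : JJ φ ι (PP u : MM G ι) = (PP (glMap φ ι u) : MM H ι) := by
    rw [PP_val, PP_val, map_add, map_sub, map_one, JJ_psi, JJ_psi, glMap_val, map_one]
  exact Units.ext h

theorem JJ_gg (u : (Matrix ι ι (MonoidAlgebra ℤ G))ˣ) :
    Units.map (JJ φ ι).toMonoidHom (gg u) = gg (glMap φ ι u) := by
  rw [gg, gg, map_mul, map_inv, JJ_TT, JJ_PP]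

theorem Gam_map (f : H → ℤ) (hf : ∀ x y, f (x * y) = f (y * x)) (f' : G → ℤ)
    (hf' : ∀ x y, f' (x * y) = f' (y * x)) (h : ∀ x, f (φ x) = f' x)
    (u : (Matrix ι ι (MonoidAlgebra ℤ G))ˣ) : Gam f hf (glMap φ ι u) = Gam f' hf' u := by
  apply TwTr.Lam_map _ _ (JJ φ ι).toNonUnitalRingHom (JJ_s φ f hf f' hf')
  · intro F
    change (tG f hf ι).κ (JJ φ ι F) = _
    rw [tG_κ, tG_κ]
    apply Finset.sum_congr rfl
    intro P _
    rw [JJ_apply, k0, k0, fn_gr]
    congr 2
    funext p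
    change f (φ p.1 * φ p.2) = f' (p.1 * p.2)
    rw [← map_mul, h]
  · exact gg_adm f' hf' u
  · rw [← JJ_gg]
    change JJ φ ι (gg u : MM G ι) = JJ φ ι (gg u : MM G ι) + (1 - JJ φ ι 1)
    rw [map_one, sub_self, add_zero]

end Nat

end Pool.Agent.H71.WH

end

section

/-!
# Units of integral group rings congruent to `1` modulo `8`, logarithm of determinants
-/

set_option autoImplicit false
set_option linter.unusedSectionVars false
set_option linter.unusedSimpArgs false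

open Matrix

universe u v w

namespace Pool.Agent.H71.WH

section C8

end C8

section LogDet

variable {B : Type u} [CommRing B] {ι : Type v} [Fintype ι] [DecidableEq ι] (τ : B →+ ℤ)

theorem norm_dd_le (k : ℕ) (Y : Matrix ι ι B) :
    ‖dd τ (1 + 2 ^ (k + 1) * Y)‖ ≤ ((2 : ℝ) ^ (2 * k))⁻¹ := by
  obtain ⟨y, hy⟩ := det_two_pow (k + 1) Y
  rw [dd, hy, L_one_add, L_one_add]
  have h1 := norm_tl_sub_le (ttr τ ι) Y k
  have h2 := norm_tl_sub_le τ (trace Y + 2 ^ (k + 1) * y) k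
  have h3 : ‖((2 ^ (2 * k) * (4 * τ y) : ℤ) : ℚ_[2])‖ ≤ ((2 : ℝ) ^ (2 * k))⁻¹ :=
    norm_int_le (dvd_mul_right _ _)
  have e : tl (ttr τ ι) (2 ^ (k + 1) * Y) - tl τ (2 ^ (k + 1) * (trace Y + 2 ^ (k + 1) * y)) =
      ((tl (ttr τ ι) (2 ^ (k + 1) * Y) - ((2 ^ (k + 1) * ttr τ ι Y : ℤ) : ℚ_[2])) -
      (tl τ (2 ^ (k + 1) * (trace Y + 2 ^ (k + 1) * y)) -
        ((2 ^ (k + 1) * τ (trace Y + 2 ^ (k + 1) * y) : ℤ) : ℚ_[2]))) -
      ((2 ^ (2 * k) * (4 * τ y) : ℤ) : ℚ_[2]) := by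
    rw [map_add, map_two_pow_mul, ttr_apply]
    push_cast
    ring
  rw [e]
  refine (norm_sub_max _ _).trans (max_le ?_ h3)
  exact (norm_sub_max _ _).trans (max_le h1 h2)

/-- `tr log = log det` -/
theorem dd_eq_zero {W : Matrix ι ι B} (hW : Cong W) : dd τ W = 0 := by
  rw [← norm_eq_zero]
  by_contra hne
  have hpos : 0 < ‖dd τ W‖ := lt_of_le_of_ne (norm_nonneg _) (Ne.symm hne)
  have h1 : ∀ k : ℕ, ‖dd τ W‖ ≤ ((1 : ℝ) / 2) ^ k := by
    intro k
    have h2 := (dd_pow τ hW k).2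
    obtain ⟨X, rfl⟩ := hW
    obtain ⟨Y, hY⟩ := pow_form X k
    have h3 := norm_dd_le τ k Y
    rw [← hY, h2, norm_mul, TwTr.norm_two_pow] at h3
    have hp : (0 : ℝ) < 2 ^ k := by positivity
    have h4 : ((2 : ℝ) ^ k) * (((2 : ℝ) ^ k)⁻¹ * ‖dd τ (1 + 2 * X)‖) ≤
        (2 : ℝ) ^ k * (((2 : ℝ) ^ (2 * k))⁻¹) := mul_le_mul_of_nonneg_left h3 hp.le
    rw [← mul_assoc, mul_inv_cancel₀ hp.ne', one_mul] at h4
    refine h4.trans (le_of_eq ?_)
    have e : (2 : ℝ) ^ (2 * k) = 2 ^ k * 2 ^ k := by rw [two_mul, pow_add]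
    rw [e, mul_inv, one_div, inv_pow]
    field_simp
  obtain ⟨k, hk⟩ := exists_pow_lt_of_lt_one hpos (show (1 : ℝ) / 2 < 1 by norm_num)
  have := h1 k
  linarith

theorem L_det {W : Matrix ι ι B} (hW : Cong W) : L τ (det W) = L (ttr τ ι) W := by
  have := dd_eq_zero τ hW
  rw [dd] at this
  exact (sub_eq_zero.1 this).symm

end LogDet

end Pool.Agent.H71.WH

end

section

/-!
# Project FQ: the value on the symbols, for functions which are invariant under `D`, second half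

PROOFS. `TK_rho`: `TK_eq`; `(rho γ)⁻¹ * rho γ' = rho (γ⁻¹ γ')` has the value `1 + e (γ⁻¹ γ' - 1)`, a lift is `eg`.
`trT_gasm`: `asm_mk`, `trT_cls`, `HG.ev_map`, `HG.ev_sum`, `HG.ev_const`.
-/

set_option autoImplicit false

open Matrix

universe u v w

namespace Pool.Agent.H71.FQ

open Pool.Agent.H71.FJ (MatEquiv IdemMat K0 K0.mk K0.lift K0.lift_mk K0.hom_ext K0.map)
open Pool.Agent.H71.DB (bmat bU bmat_mul bmat_one)

section

variable {K : Type u} [CommRing K] {p m : ℕ} (L : LD K p m) {G : Type v} [Group G] {n : ℕ} {c : G}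

theorem cent_comm' (D : Subgroup G) (γ : Subgroup.centralizer (D : Set G)) (a : D) :
    D.subtype a * (Subgroup.centralizer (D : Set G)).subtype γ =
      (Subgroup.centralizer (D : Set G)).subtype γ * D.subtype a :=
  Subgroup.mem_centralizer_iff.1 γ.2 a a.2

/-- the reduction of the matrices `1 + e (g - 1)` -/
theorem red_eg {ι : Type*} [Fintype ι] [DecidableEq ι] (D : Subgroup G)
    (e : Matrix ι ι (MonoidAlgebra L.B D)) (g : G) :
    L.red (eg D e g) = bmat (MonoidAlgebra.mapDomainRingHom K D.subtype)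
      (e.map (MonoidAlgebra.mapRingHom D L.π)) (MonoidAlgebra.single g 1) := by
  have h1 : ∀ x : MonoidAlgebra L.B D, MonoidAlgebra.mapRingHom G L.π
      (MonoidAlgebra.mapDomainRingHom L.B D.subtype x) =
      MonoidAlgebra.mapDomainRingHom K D.subtype (MonoidAlgebra.mapRingHom D L.π x) := fun x =>
    RingHom.congr_fun (MonoidAlgebra.mapRingHom_comp_mapDomainRingHom L.π D.subtype) x
  refine Matrix.ext fun i j => ?_
  have h2 : MonoidAlgebra.mapRingHom G L.π ((1 : Matrix ι ι (MonoidAlgebra L.B G)) i j) =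
      (1 : Matrix ι ι (MonoidAlgebra K G)) i j := by
    rw [Matrix.one_apply, Matrix.one_apply]
    split_ifs
    · exact map_one _
    · exact map_zero _
  unfold eg bmat LD.red
  rw [Matrix.map_apply, Matrix.add_apply, Matrix.add_apply, Matrix.map_apply, Matrix.map_apply,
    Matrix.map_apply, map_add, map_mul, map_sub, map_one, h1, h2, MonoidAlgebra.mapRingHom_single,
    map_one]

/-- The value of `TK` on the representation given by an idempotent. -/
theorem TK_rho {k : ℕ} {Φ : (Fin (k + 1) → Fin (p ^ m) → G) → L.B} (hΦ : IsInv c Φ)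
    (D : Subgroup G) [Fintype D] (hD : RInv D Φ) (a : IdemMat (MonoidAlgebra L.B D))
    (z : Fin (k + 1) → Subgroup.centralizer (D : Set G)) :
    TK L c Φ (fun j => rho (MonoidAlgebra.mapDomainRingHom K D.subtype)
      ((grpHom K G).comp (Subgroup.centralizer (D : Set G)).subtype)
      (grpHom_comm K D.subtype (Subgroup.centralizer (D : Set G)).subtype (cent_comm' D))
      (a.map (MonoidAlgebra.mapRingHom D L.π)) (z j)) =
      (∑ x : D, (trace a.mat).coeff x * rs c Φ (x : G) (fun j => (z j : G))) +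
        ∑ x : D, (trace (1 - a.mat)).coeff x * rs c Φ (x : G) (fun _ => 1) := by
  refine (TK_eq (ι := Fin a.n) L hΦ _ (fun j => eg D a.mat ((z j : G)⁻¹ * z (j + 1))) ?_).trans
    (TB_eg (pow_pos L.hp.pos m) hΦ D hD a.mat a.idem (fun j => (z j : G)) fun j => (z j).2)
  intro j
  rw [red_eg]
  have h1 : ∀ γ γ' : Subgroup.centralizer (D : Set G), (((rho (MonoidAlgebra.mapDomainRingHom K
      D.subtype) ((grpHom K G).comp (Subgroup.centralizer (D : Set G)).subtype)
      (grpHom_comm K D.subtype (Subgroup.centralizer (D : Set G)).subtype (cent_comm' D))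
      (a.map (MonoidAlgebra.mapRingHom D L.π))) γ)⁻¹ *
      (rho (MonoidAlgebra.mapDomainRingHom K D.subtype)
      ((grpHom K G).comp (Subgroup.centralizer (D : Set G)).subtype)
      (grpHom_comm K D.subtype (Subgroup.centralizer (D : Set G)).subtype (cent_comm' D))
      (a.map (MonoidAlgebra.mapRingHom D L.π))) γ').val =
      1 + (a.map (MonoidAlgebra.mapRingHom D L.π)).mat.map fun b =>
        MonoidAlgebra.mapDomainRingHom K D.subtype b *
          ((grpHom K G ((γ⁻¹ * γ' : Subgroup.centralizer (D : Set G)) : G) :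
            MonoidAlgebra K G) - 1) := by
    intro γ γ'
    rw [← map_inv, ← map_mul, rho_val]
    rfl
  exact (h1 (z j) (z (j + 1))).symm

theorem IsCoc.mul {Γ : Type*} [Group Γ] {S : Type*} [CommRing S] (a : S)
    {φ : (Fin (n + 2) → Γ) → S} (h : IsCoc Γ n φ) : IsCoc Γ n fun x => a * φ x where
  inv g x := by rw [h.inv g x]
  coc x := by
    simp only [← mul_smul_comm]
    rw [← Finset.mul_sum, h.coc x, mul_zero]

/-- **The value on the symbols.** -/
theorem trT_gasm {Φ : (Fin (n + 2) → Fin (p ^ m) → G) → L.B} (hΦ : IsPhi c Φ) (D : Subgroup G)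
    [Fintype D] (hD : RInv D Φ) (a : IdemMat (MonoidAlgebra L.B D))
    (z : HG (Subgroup.centralizer (D : Set G)) n) :
    trT L hΦ (gasm K n D.subtype (Subgroup.centralizer (D : Set G)).subtype (cent_comm' D)
      (K0.map (MonoidAlgebra.mapRingHom D L.π) (K0.mk a)) z) =
      ∑ x : D, (trace a.mat).coeff x * HG.ev (isCoc_rs hΦ D x) z := by
  have hmk : K0.map (MonoidAlgebra.mapRingHom D L.π) (K0.mk a) =
      K0.mk (a.map (MonoidAlgebra.mapRingHom D L.π)) :=
    Pool.Agent.H71.FJ.K0.map_mk' _ a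
  unfold gasm
  rw [hmk, asm_mk, trT_cls, HG.ev_map]
  have h1 : ∀ x : D, IsCoc (Subgroup.centralizer (D : Set G)) n fun z =>
      (trace a.mat).coeff x * rs c Φ (x : G) fun j => (z j : G) := fun x =>
    (isCoc_rs hΦ D x).mul _
  have h2 := IsCoc.sum Finset.univ fun x _ => h1 x
  obtain ⟨C, hC⟩ : ∃ C : L.B, C =
      ∑ x : D, (trace (1 - a.mat)).coeff x * rs c Φ (x : G) (fun _ : Fin (n + 2) => 1) := ⟨_, rfl⟩
  obtain ⟨φ, hφ, hφe⟩ : ∃ (φ : (Fin (n + 2) → Subgroup.centralizer (D : Set G)) → L.B)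
      (h : IsCoc (Subgroup.centralizer (D : Set G)) n φ), HG.ev ((isCoc_TK L (a.map
        (MonoidAlgebra.mapRingHom D L.π)).n hΦ).comp
        (rho (MonoidAlgebra.mapDomainRingHom K D.subtype)
          ((grpHom K G).comp (Subgroup.centralizer (D : Set G)).subtype)
          (grpHom_comm K D.subtype (Subgroup.centralizer (D : Set G)).subtype (cent_comm' D))
          (a.map (MonoidAlgebra.mapRingHom D L.π)))) z = HG.ev h z ∧
        ∀ x, φ x = (∑ y : D, (trace a.mat).coeff y * rs c Φ (y : G) fun j => (x j : G)) + C :=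
    ⟨_, _, rfl, fun x => by
      rw [hC]
      exact TK_rho L hΦ.toIsInv D hD a x⟩
  obtain ⟨e1, e2⟩ := hφe
  have h3 : IsCoc (Subgroup.centralizer (D : Set G)) n fun _ => C := by
    refine ⟨fun _ _ => rfl, fun x => ?_⟩
    have e3 : ∀ x, C = φ x - ∑ y : D, (trace a.mat).coeff y * rs c Φ (y : G) fun j => (x j : G) := by
      intro x
      rw [e2 x]
      ring
    have e4 : ∀ i : Fin (n + 3), (-1 : ℤ) ^ (i : ℕ) • C =
        (-1 : ℤ) ^ (i : ℕ) • φ (fun j => x (i.succAbove j)) -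
        (-1 : ℤ) ^ (i : ℕ) • ∑ y : D, (trace a.mat).coeff y *
          rs c Φ (y : G) fun j => (x (i.succAbove j) : G) := by
      intro i
      rw [← smul_sub, ← e3]
    rw [Finset.sum_congr rfl fun i _ => e4 i, Finset.sum_sub_distrib, hφ.coc x]
    have e5 := h2.coc x
    rw [e5, sub_zero]
  rw [e1, HG.ev_add hφ h2 h3 e2 z, HG.ev_const, add_zero, HG.ev_sum h1 h2]
  exact Finset.sum_congr rfl fun x _ => HG.ev_mul _ (isCoc_rs hΦ D x) (h1 x) z

end

end Pool.Agent.H71.FQ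

end
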