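import Pool.Agent.H71.TCZ.H71.FJ.Artin
import Pool.Agent.H71.TCZ.M08
import Pool.Agent.H71.TCZ.M10

/-! The parts of this file: H71.FJ.Artin2, H71.FJ.Prim2. -/

section

/-!
# Artin type induction theorem for `K₀(k[F])`, `F` finite (conclusion)
-/

set_option autoImplicit false

open Matrix
open scoped Classical

universe u v w

namespace Pool.Agent.H71.FJ

variable {F : Type v} [Group F] [Fintype F]

theorem rank_identity' {k : Type w} [Field k]
    (s : Finset (Subgroup F)) (ν : Subgroup F → ℤ)
    (h1 : ∀ D ∈ s, ∀ h ∈ D, (orderOf h : k) ≠ 0)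
    (h2 : ∀ h : F, (orderOf h : k) ≠ 0 → ∑ D ∈ s.filter (fun D => h ∈ D), ν D = 1)
    (x : K0 (MonoidAlgebra k F)) :
    (Nat.card F : ℤ) * K0.rk (K0.map (aug k F).toRingHom x) =
      ∑ D ∈ s, ν D * Nat.card D * K0.rk (K0.push (permR k (F ⧸ D)) x) := by
  let K := AlgebraicClosure k
  obtain ⟨L⟩ := exists_liftSys K
  have hcast : ∀ n : ℕ, (n : K) ≠ 0 ↔ (n : k) ≠ 0 := by
    intro n
    rw [← map_natCast (algebraMap k K) n, ne_eq, ne_eq,
      map_eq_zero_iff _ (algebraMap k K).injective]
  have key := rank_identity L s ν (fun D hD h hh => (hcast _).2 (h1 D hD h hh))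
    (fun h hh => h2 h ((hcast _).1 hh)) (K0.map (MonoidAlgebra.mapRingHom F (algebraMap k K)) x)
  have e1 : K0.rk (K0.map (aug K F).toRingHom
      (K0.map (MonoidAlgebra.mapRingHom F (algebraMap k K)) x)) =
      K0.rk (K0.map (aug k F).toRingHom x) := by
    rw [K0.map_map, ← K0.rk_map (algebraMap k K) (K0.map (aug k F).toRingHom x), K0.map_map]
    congr 2
    have : (aug K F).toRingHom.comp (MonoidAlgebra.mapRingHom F (algebraMap k K)) =
        (algebraMap k K).comp (aug k F).toRingHom := by
      apply RingHom.ext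
      intro a
      induction a using MonoidAlgebra.induction_linear with
      | zero => simp
      | add a b ha hb => rw [map_add, map_add, ha, hb]
      | single g r =>
        change aug K F (MonoidAlgebra.mapRingHom F (algebraMap k K) (MonoidAlgebra.single g r)) =
          algebraMap k K (aug k F (MonoidAlgebra.single g r))
        rw [MonoidAlgebra.mapRingHom_single, aug_single, aug_single]
    rw [this]
  have e2 : ∀ D : Subgroup F, K0.rk (K0.push (permR K (F ⧸ D))
      (K0.map (MonoidAlgebra.mapRingHom F (algebraMap k K)) x)) =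
      K0.rk (K0.push (permR k (F ⧸ D)) x) := by
    intro D
    rw [K0.push_map, ← K0.rk_map (algebraMap k K) (K0.push (permR k (F ⧸ D)) x), K0.map_push]
    congr 2
    have : (permR K (F ⧸ D)).comp (MonoidAlgebra.mapRingHom F (algebraMap k K)) =
        (algebraMap k K).mapMatrix.comp (permR k (F ⧸ D)) := by
      apply RingHom.ext
      intro a
      induction a using MonoidAlgebra.induction_linear with
      | zero => simp
      | add a b ha hb => rw [map_add, map_add, ha, hb]
      | single g r =>
        ext p q : 1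
        change perm K (F ⧸ D) (MonoidAlgebra.mapRingHom F (algebraMap k K)
          (MonoidAlgebra.single g r)) p q =
          algebraMap k K (perm k (F ⧸ D) (MonoidAlgebra.single g r) p q)
        rw [MonoidAlgebra.mapRingHom_single, perm_single, perm_single]
        split_ifs <;> simp
    rw [this]
  rw [e1] at key
  simp only [e2] at key
  exact key

namespace K0

theorem push_reindex {R : Type u} [Ring R] {S : Type w} [Ring S] {J J' : Type*} [Fintype J]
    [DecidableEq J] [Fintype J'] [DecidableEq J'] (φ : R →+* Matrix J J S)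
    (φ' : R →+* Matrix J' J' S) (σ : J ≃ J') (h : ∀ r a b, φ r a b = φ' r (σ a) (σ b))
    (x : K0 R) : push φ x = push φ' x := by
  have : push φ = push φ' := by
    apply hom_ext
    intro a
    rw [push_mk, push_mk]
    apply cls_congr
    have h1 : flat φ a.mat = (flat φ' a.mat).submatrix ((Equiv.refl _).prodCongr σ)
        ((Equiv.refl _).prodCongr σ) := by
      ext ⟨i, p⟩ ⟨j, q⟩
      exact h _ _ _
    rw [h1]
    exact matEquiv_submatrix _ (flat_idem _ a.idem) _
  rw [this]

end K0

/-- The twist of a representation. -/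
noncomputable def twRep {k : Type w} [Field k] {J : Type*} [Fintype J] [DecidableEq J]
    (ρ : MonoidAlgebra k F →ₐ[k] Matrix J J k) :
    MonoidAlgebra k F →ₐ[k] Matrix J J (MonoidAlgebra k F) :=
  MonoidAlgebra.lift k _ F
    { toFun := fun h => Matrix.of fun a b =>
        MonoidAlgebra.single h (ρ (MonoidAlgebra.single h 1) a b)
      map_one' := by
        ext a b : 1
        rw [of_apply, Matrix.one_apply, ← MonoidAlgebra.one_def, map_one, Matrix.one_apply]
        split_ifs
        · rw [MonoidAlgebra.one_def]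
        · rw [MonoidAlgebra.single_zero]
      map_mul' := by
        intro h h'
        ext a b : 1
        have e1 : MonoidAlgebra.single (h * h') (1 : k) = MonoidAlgebra.single h 1 *
          MonoidAlgebra.single h' 1 := by rw [MonoidAlgebra.single_mul_single, one_mul]
        rw [Matrix.mul_apply, of_apply, e1, map_mul, Matrix.mul_apply]
        simp only [of_apply, MonoidAlgebra.single_mul_single]
        induction (Finset.univ : Finset J) using Finset.induction_on with
        | empty => simp
        | insert i t hi ih =>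
          rw [Finset.sum_insert hi, Finset.sum_insert hi, MonoidAlgebra.single_add, ih] }

omit [Fintype F] in
theorem twRep_single {k : Type w} [Field k] {J : Type*} [Fintype J] [DecidableEq J]
    (ρ : MonoidAlgebra k F →ₐ[k] Matrix J J k) (h : F) (r : k) (a b : J) :
    twRep ρ (MonoidAlgebra.single h r) a b =
      MonoidAlgebra.single h (r * ρ (MonoidAlgebra.single h 1) a b) := by
  rw [twRep, MonoidAlgebra.lift_single]
  change r • MonoidAlgebra.single h (ρ (MonoidAlgebra.single h 1) a b) = _
  rw [MonoidAlgebra.smul_single, smul_eq_mul]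

omit [Fintype F] in
theorem rep_single {k : Type w} [Field k] {J : Type*} [Fintype J] [DecidableEq J]
    (ρ : MonoidAlgebra k F →ₐ[k] Matrix J J k) (h : F) (r : k) (a b : J) :
    ρ (MonoidAlgebra.single h r) a b = r * ρ (MonoidAlgebra.single h 1) a b := by
  have : MonoidAlgebra.single h r = r • MonoidAlgebra.single h (1 : k) := by
    rw [MonoidAlgebra.smul_single, smul_eq_mul, mul_one]
  rw [this, map_smul]
  rfl

theorem artin_aux {k : Type w} [Field k]
    (s : Finset (Subgroup F)) (ν : Subgroup F → ℤ)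
    (h1 : ∀ D ∈ s, ∀ h ∈ D, (orderOf h : k) ≠ 0)
    (h2 : ∀ h : F, (orderOf h : k) ≠ 0 → ∑ D ∈ s.filter (fun D => h ∈ D), ν D = 1)
    (x : K0 (MonoidAlgebra k F)) :
    (Nat.card F : ℤ) • x =
      ∑ D ∈ s, (ν D * Nat.card D) • K0.map (incl k D) (K0.push (lamR k D) x) := by
  rw [← sub_eq_zero]
  apply K0.eq_zero_of_rk_push (k := k)
  intro J _ _ ρ
  rw [map_sub, map_sub, map_zsmul, map_zsmul, map_sum, map_sum]
  simp only [map_zsmul, ind_res]
  have key := rank_identity' s ν h1 h2 (K0.push (twRep ρ).toRingHom x)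
  have e1 : K0.map (aug k F).toRingHom (K0.push (twRep ρ).toRingHom x) =
      K0.push (ρ : MonoidAlgebra k F →+* Matrix J J k) x := by
    rw [K0.map_push]
    have : (aug k F).toRingHom.mapMatrix.comp (twRep ρ).toRingHom =
        (ρ : MonoidAlgebra k F →+* Matrix J J k) := by
      apply RingHom.ext
      intro a
      induction a using MonoidAlgebra.induction_linear with
      | zero => simp
      | add a b ha hb => rw [map_add, map_add, ha, hb]
      | single g r =>
        ext p q : 1
        change aug k F (twRep ρ (MonoidAlgebra.single g r) p q) = ρ (MonoidAlgebra.single g r) p q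
        rw [twRep_single, aug_single]
        exact (rep_single ρ g r p q).symm
    rw [this]
  have e2 : ∀ D : Subgroup F, K0.push (permR k (F ⧸ D)) (K0.push (twRep ρ).toRingHom x) =
      K0.push (ρ : MonoidAlgebra k F →+* Matrix J J k) (K0.push (twR k (F ⧸ D)) x) := by
    intro D
    rw [K0.push_push, K0.push_push]
    refine K0.push_reindex _ _ (Equiv.prodComm _ _) ?_ x
    intro r
    induction r using MonoidAlgebra.induction_linear with
    | zero =>
      intro a b
      rw [map_zero, map_zero]
      rfl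
    | add a b ha hb =>
      intro p q
      rw [map_add, map_add, Matrix.add_apply, Matrix.add_apply, ha, hb]
    | single g r =>
      rintro ⟨a, p⟩ ⟨b, q⟩
      change perm k (F ⧸ D) (twRep ρ (MonoidAlgebra.single g r) a b) p q =
        ρ (tw k (F ⧸ D) (MonoidAlgebra.single g r) p q) a b
      rw [twRep_single, perm_single, tw_single]
      split_ifs
      · rw [← rep_single]
      · rw [map_zero]
        rfl
  rw [e1] at key
  simp only [e2] at key
  simp only [smul_eq_mul]
  rw [key, sub_self]

theorem orderOf_dvd_ne {k : Type w} [Field k] {G : Type v} [Group G] {g h : G}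
    (hg : (orderOf g : k) ≠ 0) (hd : orderOf h ∣ orderOf g) : (orderOf h : k) ≠ 0 := by
  obtain ⟨m, hm⟩ := hd
  intro h0
  apply hg
  rw [hm, Nat.cast_mul, h0, zero_mul]

/-- **Artin induction** for projective modules over `k[F]`, `F` finite: up to the factor `|F|`, every
class is a combination of classes induced from cyclic subgroups of order invertible in `k`. -/
theorem exists_artin (k : Type w) [Field k] (F : Type v) [Group F] [Fintype F] :
    ∃ (s : Finset (Subgroup F)) (c : Subgroup F → ℤ),
      (∀ D ∈ s, IsCyclic D ∧ ∀ h ∈ D, (orderOf h : k) ≠ 0) ∧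
      ∀ x : K0 (MonoidAlgebra k F), (Nat.card F : ℤ) • x =
        ∑ D ∈ s, c D • K0.map (incl k D) (K0.push (lamR k D) x) := by
  let s : Finset (Subgroup F) := Finset.univ.filter
    (fun D => IsCyclic D ∧ ∀ h ∈ D, (orderOf h : k) ≠ 0)
  obtain ⟨ν, hν⟩ := exists_nu s (fun _ => 1)
  refine ⟨s, fun D => ν D * Nat.card D, fun D hD => (Finset.mem_filter.1 hD).2, fun x => ?_⟩
  apply artin_aux s ν
  · intro D hD
    exact (Finset.mem_filter.1 hD).2.2
  · intro h hh
    have hmem : Subgroup.zpowers h ∈ s := by
      rw [Finset.mem_filter]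
      refine ⟨Finset.mem_univ _, inferInstance, ?_⟩
      intro g hg
      exact orderOf_dvd_ne hh (orderOf_dvd_of_mem_zpowers hg)
    rw [← hν _ hmem]
    apply Finset.sum_congr _ (fun _ _ => rfl)
    ext D
    simp only [Finset.mem_filter, Subgroup.zpowers_le]

end Pool.Agent.H71.FJ

end

section

/-!
# Decomposition into primitive classes
-/

set_option autoImplicit false

open Matrix
open scoped Classical

universe t u v w

namespace Pool.Agent.H71.FJ

/-- Elements with a nonzero multiple in `A`. -/
def Sat {M : Type u} [AddCommGroup M] (A : AddSubgroup M) : AddSubgroup M where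
  carrier := {z | ∃ m : ℤ, m ≠ 0 ∧ m • z ∈ A}
  zero_mem' := ⟨1, one_ne_zero, by rw [smul_zero]; exact A.zero_mem⟩
  add_mem' := by
    rintro a b ⟨m, hm, h1⟩ ⟨n, hn, h2⟩
    refine ⟨m * n, mul_ne_zero hm hn, ?_⟩
    rw [smul_add]
    refine A.add_mem ?_ ?_
    · rw [mul_comm, mul_smul]
      exact A.zsmul_mem h1 n
    · rw [mul_smul]
      exact A.zsmul_mem h2 m
  neg_mem' := by
    rintro a ⟨m, hm, h1⟩
    exact ⟨m, hm, by rw [smul_neg]; exact A.neg_mem h1⟩

theorem Sat_of_smul {M : Type u} [AddCommGroup M] {A : AddSubgroup M} {m : ℤ} (hm : m ≠ 0) {z : M}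
    (h : m • z ∈ Sat A) : z ∈ Sat A := by
  obtain ⟨n, hn, h⟩ := h
  exact ⟨n * m, mul_ne_zero hn hm, by rwa [mul_smul]⟩

theorem mem_Sat {M : Type u} [AddCommGroup M] {A : AddSubgroup M} {z : M} (h : z ∈ A) :
    z ∈ Sat A := ⟨1, one_ne_zero, by rwa [one_smul]⟩

section TTw

variable {B : Type u} [CommRing B] {D : Type w} [Group D] [Fintype D]

theorem fixN_comm (E : Subgroup D) (f : D → B) (hf : ∀ x y, f (x * y) = f (y * x)) (x y : D) :
    (fixN E (x * y) : B) * f (x * y) = fixN E (y * x) * f (y * x) := by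
  rw [perm_comm E x y, hf]

theorem T_tw (E : Subgroup D) (f : D → B) (hf : ∀ x y, f (x * y) = f (y * x))
    (x : K0 (MonoidAlgebra B D)) :
    T f hf (K0.push (twR B (D ⧸ E)) x) =
      T (fun h => (fixN E h : B) * f h) (fixN_comm E f hf) x := by
  rw [T, K0.tr_push]
  refine K0.tr_congr _ _ ?_ x
  ext h r
  simp only [AddMonoidHom.comp_apply, MonoidAlgebra.singleAddHom_apply]
  rw [clsFun_single]
  change clsFun f (trace (tw B (D ⧸ E) (MonoidAlgebra.single h r))) = _
  simp only [trace, diag, tw_single]
  rw [← Finset.sum_filter, Finset.sum_const, map_nsmul, clsFun_single, nsmul_eq_mul, fixN]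
  ring

theorem fixN_cyc [IsCyclic D] (E : Subgroup D) (c : D) :
    Nat.card E * fixN E c = if c ∈ E then Nat.card D else 0 := by
  rw [card_mul_fixN]
  have : ∀ y : D, y⁻¹ * c * y = c := by
    intro y
    rw [cyc_comm y⁻¹ c, mul_assoc, inv_mul_cancel, mul_one]
  simp only [this]
  split_ifs
  · rw [Finset.sum_const, Finset.card_univ, smul_eq_mul, mul_one, Nat.card_eq_fintype_card]
  · rw [Finset.sum_const_zero]

end TTw

section

variable {k : Type u} [Field k] {K : Type t} [Field K] (L : LiftSys K) (i : k →+* K)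

theorem LT_tw {D : Type w} [Group D] [Fintype D] [IsCyclic D] (n : ℕ) (E : Subgroup D) (c : D)
    (x : K0 (MonoidAlgebra k D)) :
    LT L n i (dlt (L.B n) c) (dlt_comm _ c) (K0.push (twR k (D ⧸ E)) x) =
      (fixN E c : L.B n) * LT L n i (dlt (L.B n) c) (dlt_comm _ c) x := by
  simp only [LT, AddMonoidHom.comp_apply]
  rw [liftK_tw, T_tw]
  have h1 : ∀ h : D, (fixN E h : L.B n) * dlt (L.B n) c h = (fixN E c : L.B n) * dlt (L.B n) c h := by
    intro h
    by_cases hh : h = c
    · rw [hh]
    · rw [dlt_ne _ hh, mul_zero, mul_zero]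
  rw [T_congr _ (fun x y => by rw [dlt_comm _ c x y]) h1,
    T_mul _ _ (dlt_comm _ c)]

theorem exists_prim (D : Type w) [Group D] [Fintype D] [IsCyclic D] :
    ∃ κ : Subgroup D → ℤ, ∀ x : K0 (MonoidAlgebra k D),
      IsPrim L i ((Nat.card D : ℤ) • x +
        ∑ E ∈ (Finset.univ : Finset (Subgroup D)).erase ⊤,
          (κ E * Nat.card E) • K0.push (twR k (D ⧸ E)) x) := by
  obtain ⟨κ, hκ⟩ := exists_nu ((Finset.univ : Finset (Subgroup D)).erase ⊤) (fun _ => -1)
  refine ⟨κ, fun x n c hc => ?_⟩
  have h0 := hκ (Subgroup.zpowers c) (Finset.mem_erase.2 ⟨hc, Finset.mem_univ _⟩)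
  simp only [Subgroup.zpowers_le] at h0
  rw [map_add, map_zsmul, map_sum]
  simp only [map_zsmul, LT_tw]
  have h1 : ∀ E : Subgroup D, (κ E * (Nat.card E : ℤ)) • ((fixN E c : L.B n) *
      LT L n i (dlt (L.B n) c) (dlt_comm _ c) x) =
      ((if c ∈ E then κ E else 0 : ℤ) * (Nat.card D : ℤ)) •
        LT L n i (dlt (L.B n) c) (dlt_comm _ c) x := by
    intro E
    have h2 := fixN_cyc E c
    have h3 : ((fixN E c : L.B n) * LT L n i (dlt (L.B n) c) (dlt_comm _ c) x) =
      (fixN E c : ℤ) • LT L n i (dlt (L.B n) c) (dlt_comm _ c) x := by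
      rw [zsmul_eq_mul, Int.cast_natCast]
    rw [h3, smul_smul]
    congr 1
    rw [mul_assoc, ← Nat.cast_mul, h2]
    split_ifs <;> simp
  rw [Finset.sum_congr rfl (fun E _ => h1 E), ← Finset.sum_smul, ← Finset.sum_mul,
    ← Finset.sum_filter, h0, ← add_smul]
  simp

/-- The classes in the colimit represented by primitive classes of finite cyclic subgroups of order
invertible in `k`. -/
def PrimSet (G : Type v) [Group G] : Set (ColimK0 k G) :=
  {z | ∃ (D : FinSub G) (_ : IsCyclic D.1), (∀ h : D.1, (orderOf h : k) ≠ 0) ∧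
    ∃ y : K0 (MonoidAlgebra k D.1), IsPrim L i y ∧ z = cl D y}

variable {G : Type v} [Group G]

theorem clh_prim {H : Type v} [Group H] [Finite H] [IsCyclic H]
    (hH : ∀ h : H, (orderOf h : k) ≠ 0) (ι : H →* G) (hι : Function.Injective ι)
    (y : K0 (MonoidAlgebra k H)) (hy : IsPrim L i y) : clh ι y ∈ PrimSet L i G := by
  let e : H ≃* (rangeSub ι).1 := MonoidHom.ofInjective hι
  have he : e.toMonoidHom = toRange ι := rfl
  have hcyc : IsCyclic (rangeSub ι).1 := isCyclic_of_surjective e e.surjective
  refine ⟨rangeSub ι, hcyc, ?_, K0.map (MonoidAlgebra.mapDomainRingHom k (toRange ι)) y, ?_, rfl⟩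
  · intro h
    obtain ⟨a, rfl⟩ := e.surjective h
    rw [MulEquiv.orderOf_eq]
    exact hH a
  · rw [← he]
    exact isPrim_map L i e hy

theorem prim_decomp (N : ℕ) : ∀ (H : Type v) [Group H] [Finite H] [IsCyclic H],
    Nat.card H = N → (∀ h : H, (orderOf h : k) ≠ 0) → ∀ ι : H →* G, Function.Injective ι →
    ∀ x : K0 (MonoidAlgebra k H), clh ι x ∈ Sat (AddSubgroup.closure (PrimSet L i G)) := by
  induction N using Nat.strong_induction_on with
  | _ N ih =>
    intro H _ _ _ hN hH ι hι x
    have : Fintype H := Fintype.ofFinite H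
    obtain ⟨κ, hκ⟩ := exists_prim L i H
    have h1 := clh_prim L i hH ι hι _ (hκ x)
    have h2 : ∀ E ∈ (Finset.univ : Finset (Subgroup H)).erase ⊤,
        clh ι (K0.push (twR k (H ⧸ E)) x) ∈ Sat (AddSubgroup.closure (PrimSet L i G)) := by
      intro E hE
      have hE' : E ≠ ⊤ := (Finset.mem_erase.1 hE).1
      rw [← ind_res, clh_map (ι.comp E.subtype) ι E.subtype 1 (by intro a; simp)]
      refine ih (Nat.card E) ?_ E rfl ?_ _ ?_ _
      · rw [← hN]
        refine lt_of_le_of_ne (Nat.le_of_dvd Nat.card_pos (Subgroup.card_subgroup_dvd_card E)) ?_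
        intro h
        exact hE' (Subgroup.eq_top_of_card_eq E h)
      · intro h
        rw [← Subgroup.orderOf_coe]
        exact hH _
      · exact hι.comp E.subtype_injective
    have hc : ((Nat.card H : ℕ) : ℤ) ≠ 0 := by exact_mod_cast Nat.card_pos.ne'
    refine Sat_of_smul hc ?_
    have h3 : (Nat.card H : ℤ) • clh ι x = clh ι ((Nat.card H : ℤ) • x +
        ∑ E ∈ (Finset.univ : Finset (Subgroup H)).erase ⊤,
          (κ E * Nat.card E) • K0.push (twR k (H ⧸ E)) x) -
        ∑ E ∈ (Finset.univ : Finset (Subgroup H)).erase ⊤,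
          (κ E * Nat.card E) • clh ι (K0.push (twR k (H ⧸ E)) x) := by
      simp only [← clhHom_apply]
      rw [map_add, map_zsmul, map_sum]
      simp only [map_zsmul]
      abel
    rw [h3]
    refine AddSubgroup.sub_mem _ (mem_Sat (AddSubgroup.subset_closure h1)) ?_
    exact AddSubgroup.sum_mem _ fun E hE => AddSubgroup.zsmul_mem _ (h2 E hE) _

/-- Every class has a nonzero multiple which is a sum of primitive classes. -/
theorem mem_sat (z : ColimK0 k G) : z ∈ Sat (AddSubgroup.closure (PrimSet L i G)) := by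
  induction z using colim_induction with
  | h0 => exact AddSubgroup.zero_mem _
  | h2 a b ha hb => exact AddSubgroup.add_mem _ ha hb
  | h1 F x =>
    have := F.2
    have : Fintype F.1 := Fintype.ofFinite F.1
    obtain ⟨s, c, h1, h2⟩ := exists_artin k F.1
    have hc : ((Nat.card F.1 : ℕ) : ℤ) ≠ 0 := by exact_mod_cast Nat.card_pos.ne'
    refine Sat_of_smul hc ?_
    rw [← clh_subtype, ← clhHom_apply, ← map_zsmul, h2, map_sum]
    refine AddSubgroup.sum_mem _ fun D hD => ?_
    rw [map_zsmul]
    refine AddSubgroup.zsmul_mem _ ?_ _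
    rw [clhHom_apply, clh_map (F.1.subtype.comp D.subtype) F.1.subtype D.subtype 1
      (by intro a; simp)]
    obtain ⟨h3, h4⟩ := h1 D hD
    refine prim_decomp L i (Nat.card D) D rfl ?_ _ ?_ _
    · intro h
      rw [← Subgroup.orderOf_coe]
      exact h4 _ h.2
    · exact F.1.subtype_injective.comp D.subtype_injective

end

end Pool.Agent.H71.FJ

end
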