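import Pool.Agent.H71.TCZ.H71.DB.Bass
import Pool.Agent.H71.TCZ.M01
import Pool.Agent.H71.TCZ.M18
import Pool.Agent.H71.TCZ.M33

/-! The parts of this file: H71.FQ.StA, H71.FQ.StB, H71.DB.GBass, H71.DB.Defs, H71.FU0.E1. -/

section

/-!
# Comparison of the definitions: cycles and homology
-/

set_option autoImplicit false

open Matrix

universe u v w

namespace Pool.Agent.H71.FQS

open Pool.Agent.H71.FQ (Cx HG)

section

variable {Γ : Type v} {Γ' : Type w} {n : ℕ}

theorem bd_eq (c : Ch Γ (n + 1)) : bd Γ n c = FQ.bd ℤ Γ n c := by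
  rw [bd, FQ.bd, Finsupp.linearCombination_apply]
  refine Finsupp.sum_congr fun x _ => ?_
  rw [Finset.smul_sum]
  refine Finset.sum_congr rfl fun i _ => ?_
  rw [smul_smul, Finsupp.smul_single, smul_eq_mul, mul_one, mul_comm]

theorem push_eq (f : Γ → Γ') (c : Ch Γ n) : push f c = FQ.push ℤ f n c := by
  rw [push, FQ.push, Finsupp.linearCombination_apply, Finsupp.mapDomain]
  refine Finsupp.sum_congr fun x _ => ?_
  rw [Finsupp.smul_single, smul_eq_mul, mul_one]

variable [Group Γ] [Group Γ']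

theorem mem_coi {c : Ch Γ n} : c ∈ coi Γ n ↔ c ∈ FQ.coi Γ n := by
  rw [coi, FQ.coi, ← Submodule.mem_toAddSubgroup, Submodule.span_int_eq_addSubgroupClosure]

theorem mem_bnd {c : Ch Γ (n + 1)} : c ∈ bnd Γ (n + 1) ↔ c ∈ FQ.bnd Γ n := by
  have h1 : bnd Γ (n + 1) = (FQ.bnd Γ n).toAddSubgroup := by
    apply le_antisymm
    · rw [bnd, AddSubgroup.closure_le]
      rintro x (hx | ⟨b, rfl⟩)
      · exact Submodule.mem_sup_right (mem_coi.1 hx)
      · exact Submodule.mem_sup_left ⟨b, (bd_eq b).symm⟩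
    · intro x hx
      obtain ⟨y, ⟨b, rfl⟩, z, hz, rfl⟩ := Submodule.mem_sup.1 hx
      refine AddSubgroup.add_mem _ (AddSubgroup.subset_closure (Or.inr ⟨b, (bd_eq b).symm⟩))
        (AddSubgroup.subset_closure (Or.inl (mem_coi.2 hz)))
  rw [h1]
  rfl

theorem Cyc.mem (z : Cyc Γ n) : z.ch ∈ FQ.cyc Γ n := by
  change FQ.bd ℤ Γ n z.ch ∈ FQ.coi Γ n
  rw [← bd_eq, ← mem_coi]
  exact z.2

/-- a cycle from a chain -/
def Cyc.of (c : Ch Γ (n + 1)) (h : c ∈ FQ.cyc Γ n) : Cyc Γ n := ⟨c, by
  rw [bd_eq, mem_coi]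
  exact h⟩

theorem Cyc.ch_of (c : Ch Γ (n + 1)) (h : c ∈ FQ.cyc Γ n) : (Cyc.of c h).ch = c := rfl

/-- the homology class of a cycle -/
noncomputable def toHG (z : Cyc Γ n) : HG Γ n := HG.mk ⟨z.ch, z.mem⟩

theorem toHG_surjective (x : HG Γ n) : ∃ z : Cyc Γ n, toHG z = x := by
  obtain ⟨z, rfl⟩ := HG.mk_surjective x
  exact ⟨Cyc.of z.1 z.2, rfl⟩

theorem toHG_add {z z' z'' : Cyc Γ n} (h : z''.ch = z.ch + z'.ch) :
    toHG z'' = toHG z + toHG z' := by
  rw [toHG, toHG, toHG, ← HG.mk_add]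
  congr 1
  exact Subtype.ext h

theorem toHG_eq_iff {z z' : Cyc Γ n} : toHG z = toHG z' ↔ z.ch - z'.ch ∈ bnd Γ (n + 1) := by
  rw [toHG, toHG, HG.mk_eq_iff, mem_bnd]

theorem toHG_bnd {z : Cyc Γ n} (h : z.ch ∈ bnd Γ (n + 1)) : toHG z = 0 := by
  have h0 : toHG (Cyc.of (0 : Ch Γ (n + 1)) (Submodule.zero_mem _)) = 0 := by
    have h1 := toHG_add (z := Cyc.of (0 : Ch Γ (n + 1)) (Submodule.zero_mem _))
      (z' := Cyc.of (0 : Ch Γ (n + 1)) (Submodule.zero_mem _))
      (z'' := Cyc.of (0 : Ch Γ (n + 1)) (Submodule.zero_mem _)) (by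
        rw [Cyc.ch_of, add_zero])
    exact left_eq_add.1 h1
  rw [← h0, toHG_eq_iff, Cyc.ch_of, sub_zero]
  exact h

theorem map_toHG (f : Γ →* Γ') {z : Cyc Γ n} {z' : Cyc Γ' n} (h : z'.ch = push f z.ch) :
    HG.map n f (toHG z) = toHG z' := by
  rw [toHG, HG.map_mk, toHG]
  congr 1
  apply Subtype.ext
  change FQ.push ℤ f (n + 1) z.ch = z'.ch
  rw [h, push_eq]

/-- the image of a cycle under a homomorphism -/
noncomputable def Cyc.map (f : Γ →* Γ') (z : Cyc Γ n) : Cyc Γ' n :=
  Cyc.of (push f z.ch) (by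
    rw [push_eq]
    exact FQ.push_cyc f z.mem)

theorem Cyc.ch_map (f : Γ →* Γ') (z : Cyc Γ n) : (z.map f).ch = push f z.ch := rfl

theorem map_toHG' (f : Γ →* Γ') (z : Cyc Γ n) : HG.map n f (toHG z) = toHG (z.map f) :=
  map_toHG f (z.ch_map f)

/-- homomorphisms on homology from functions on cycles -/
theorem exists_lift {M : Type*} [AddCommGroup M] (f : Cyc Γ n → M)
    (h1 : ∀ z z' z'' : Cyc Γ n, z''.ch = z.ch + z'.ch → f z'' = f z + f z')
    (h2 : ∀ z : Cyc Γ n, z.ch ∈ bnd Γ (n + 1) → f z = 0) :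
    ∃ F : HG Γ n →+ M, ∀ z, F (toHG z) = f z := by
  have h3 : ∀ z z' : Cyc Γ n, toHG z = toHG z' → f z = f z' := by
    intro z z' h
    rw [toHG_eq_iff] at h
    let d : Cyc Γ n := Cyc.of (z.ch - z'.ch) (Submodule.sub_mem _ z.mem z'.mem)
    have h4 := h1 z' d z (by
      rw [Cyc.ch_of]
      abel)
    rw [h4, h2 d h, add_zero]
  choose g hg using toHG_surjective (Γ := Γ) (n := n)
  refine ⟨AddMonoidHom.mk' (fun x => f (g x)) fun x y => ?_, fun z => h3 _ _ (hg _)⟩
  rw [← h1 (g x) (g y) (Cyc.of ((g x).ch + (g y).ch) (Submodule.add_mem _ (g x).mem (g y).mem))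
    rfl]
  apply h3
  rw [hg, toHG_add (z := g x) (z' := g y) rfl, hg, hg]

end

end Pool.Agent.H71.FQS

end

section

/-!
# Comparison of the definitions: the K-groups
-/

set_option autoImplicit false

open Matrix

universe u v w

namespace Pool.Agent.H71.FQS

open Pool.Agent.H71.FQ (Cx HG)

section

variable {A : Type u} [Ring A] {n : ℕ}

theorem KQ.mk_add (N : ℕ) (z z' z'' : Cyc (GLm N A) n) (h : z''.ch = z.ch + z'.ch) :
    KQ.mk N z'' = KQ.mk N z + KQ.mk N z' := by
  refine (QuotientAddGroup.eq_iff_sub_mem).2 ?_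
  exact AddSubgroup.subset_closure (Or.inl (Or.inl ⟨N, z, z', z'', h, rfl⟩))

theorem KQ.mk_bnd (N : ℕ) (z : Cyc (GLm N A) n) (h : z.ch ∈ bnd (GLm N A) (n + 1)) :
    KQ.mk N z = 0 := by
  refine (QuotientAddGroup.eq_zero_iff _).2 ?_
  exact AddSubgroup.subset_closure (Or.inl (Or.inr ⟨N, z, h, rfl⟩))

theorem KQ.mk_blk (N M : ℕ) (w : Cyc (GLm N A × GLm M A) n)
    (β : GLm N A × GLm M A → GLm (N + M) A) (z : Cyc (GLm (N + M) A) n) (a : Cyc (GLm N A) n)
    (b : Cyc (GLm M A) n) (hβ : ∀ u, (β u).val = blkM u.1.val u.2.val)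
    (hz : z.ch = push β w.ch) (ha : a.ch = push Prod.fst w.ch) (hb : b.ch = push Prod.snd w.ch) :
    KQ.mk (N + M) z = KQ.mk N a + KQ.mk M b := by
  refine (QuotientAddGroup.eq_iff_sub_mem).2 ?_
  exact AddSubgroup.subset_closure (Or.inr ⟨N, M, w, β, z, a, b, hβ, hz, ha, hb, rfl⟩)

theorem KQ.hom_ext {M : Type*} [AddCommGroup M] {f g : KQ A n →+ M}
    (h : ∀ N z, f (KQ.mk N z) = g (KQ.mk N z)) : f = g := by
  apply QuotientAddGroup.addMonoidHom_ext
  apply FreeAbelianGroup.lift_ext
  rintro ⟨N, z⟩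
  exact h N z

/-- the homomorphism from the homology of `GL_N(A)` -/
theorem exists_hom (N : ℕ) : ∃ F : HG (GLm N A) n →+ KQ A n, ∀ z, F (toHG z) = KQ.mk N z :=
  exists_lift (KQ.mk N) (KQ.mk_add N) (KQ.mk_bnd N)

variable (A n) in
/-- the homomorphism from the homology of `GL_N(A)` -/
noncomputable def homN (N : ℕ) : HG (GLm N A) n →+ KQ A n := (exists_hom N).choose

theorem homN_toHG (N : ℕ) (z : Cyc (GLm N A) n) : homN A n N (toHG z) = KQ.mk N z :=
  (exists_hom N).choose_spec z

theorem homN_blk (N M : ℕ) (w : HG (GLm N A × GLm M A) n) :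
    homN A n (N + M) (HG.map n (FQ.blk N M A) w) =
      homN A n N (HG.map n (MonoidHom.fst (GLm N A) (GLm M A)) w) +
        homN A n M (HG.map n (MonoidHom.snd (GLm N A) (GLm M A)) w) := by
  obtain ⟨w, rfl⟩ := toHG_surjective w
  have e1 := map_toHG' (FQ.blk N M A) w
  have e2 := map_toHG' (MonoidHom.fst (GLm N A) (GLm M A)) w
  have e3 := map_toHG' (MonoidHom.snd (GLm N A) (GLm M A)) w
  rw [e1, e2, e3, homN_toHG, homN_toHG, homN_toHG]
  exact KQ.mk_blk N M w (FQ.blk N M A) _ _ _ (fun _ => rfl) rfl rfl rfl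

/-- the comparison homomorphism -/
noncomputable def fromK : FQ.KQ A n →+ KQ A n := FQ.KQ.lift (homN A n) homN_blk

theorem fromK_cls (N : ℕ) (z : Cyc (GLm N A) n) :
    fromK (FQ.KQ.cls A n N (toHG z)) = KQ.mk N z := by
  rw [fromK, FQ.KQ.lift_cls, homN_toHG]

/-- its inverse -/
noncomputable def toK : KQ A n →+ FQ.KQ A n :=
  QuotientAddGroup.lift _ (FreeAbelianGroup.lift fun s : KSym A n =>
    FQ.KQ.cls A n s.N (toHG s.z)) (by
      rw [AddSubgroup.closure_le]
      rintro y ((⟨N, z, z', z'', h, rfl⟩ | ⟨N, z, h, rfl⟩) |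
        ⟨N, M, w, β, z, a, b, hβ, hz, ha, hb, rfl⟩)
      · change FreeAbelianGroup.lift _ _ = 0
        rw [map_sub, map_add, FreeAbelianGroup.lift_apply_of, FreeAbelianGroup.lift_apply_of,
          FreeAbelianGroup.lift_apply_of, toHG_add h, map_add, sub_self]
      · change FreeAbelianGroup.lift _ _ = 0
        rw [FreeAbelianGroup.lift_apply_of, toHG_bnd h, map_zero]
      · change FreeAbelianGroup.lift _ _ = 0
        rw [map_sub, map_add, FreeAbelianGroup.lift_apply_of, FreeAbelianGroup.lift_apply_of,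
          FreeAbelianGroup.lift_apply_of, sub_eq_zero]
        have hβ' : β = FQ.blk N M A := funext fun u => Units.ext (hβ u)
        have e1 := map_toHG (FQ.blk N M A) (z := w) (z' := z) (by rw [hz, hβ'])
        have e2 := map_toHG (MonoidHom.fst (GLm N A) (GLm M A)) (z := w) (z' := a) ha
        have e3 := map_toHG (MonoidHom.snd (GLm N A) (GLm M A)) (z := w) (z' := b) hb
        rw [← e1, ← e2, ← e3]
        exact FQ.KQ.cls_blk (toHG w))

theorem toK_mk (N : ℕ) (z : Cyc (GLm N A) n) : toK (KQ.mk N z) = FQ.KQ.cls A n N (toHG z) := by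
  change FreeAbelianGroup.lift _ (FreeAbelianGroup.of _) = _
  rw [FreeAbelianGroup.lift_apply_of]

theorem toK_fromK (x : FQ.KQ A n) : toK (fromK x) = x := by
  have h : (toK (A := A) (n := n)).comp fromK = AddMonoidHom.id _ := by
    apply FQ.KQ.hom_ext
    intro N x
    obtain ⟨z, rfl⟩ := toHG_surjective x
    rw [AddMonoidHom.comp_apply, fromK_cls, toK_mk]
    rfl
  exact DFunLike.congr_fun h x

end

end Pool.Agent.H71.FQS

end

section

/-!
# Elements of `K₁(S[G])` from `K₀(S[H])` and an element of `G` commuting with the image of `H`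

For a homomorphism `f : H → G` and `z ∈ G` commuting with the image of `f` the map
`gbass S f z : K₀(S[H]) → K₁(S[G])` sends the class of an idempotent matrix `e` to the class of the
invertible matrix `1 + f(e) (z - 1)`.
-/

set_option autoImplicit false

open Matrix

universe u v w

namespace Pool.Agent.H71.DB

open Pool.Agent.H71.FJ (MatEquiv IdemMat K0 K0.mk K0.lift K0.lift_mk K0.hom_ext K0.map)
open Pool.Agent.H95.WH (K1 K1.mk K1.map K1.map_mk)
open Pool.Agent.H71.DO (grpUnit)

section GBass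

variable (S : Type u) [CommRing S] {H : Type v} [Group H] {G : Type w} [Group G]

theorem grpUnit_val (z : G) : (grpUnit S G z : MonoidAlgebra S G) = MonoidAlgebra.single z 1 := rfl

theorem comm_grp (f : H →* G) (z : G) (h : ∀ a, f a * z = z * f a) (b : MonoidAlgebra S H) :
    MonoidAlgebra.mapDomainRingHom S f b * (grpUnit S G z : MonoidAlgebra S G) =
      (grpUnit S G z : MonoidAlgebra S G) * MonoidAlgebra.mapDomainRingHom S f b := by
  induction b using MonoidAlgebra.induction_linear with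
  | zero => simp
  | add a b ha hb => rw [map_add, add_mul, mul_add, ha, hb]
  | single a r =>
    change MonoidAlgebra.mapDomain f (MonoidAlgebra.single a r) * MonoidAlgebra.single z 1 =
      MonoidAlgebra.single z 1 * MonoidAlgebra.mapDomain f (MonoidAlgebra.single a r)
    rw [MonoidAlgebra.mapDomain_single, MonoidAlgebra.single_mul_single,
      MonoidAlgebra.single_mul_single, h, mul_one, one_mul]

/-- The homomorphism `K₀(S[H]) → K₁(S[G])` defined by `f : H → G` and an element `z` of `G` which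
commutes with the image of `f`. -/
noncomputable def gbass (f : H →* G) (z : G) (h : ∀ a, f a * z = z * f a) :
    K0 (MonoidAlgebra S H) →+ K1 (MonoidAlgebra S G) :=
  bass (MonoidAlgebra.mapDomainRingHom S f) (grpUnit S G z) (comm_grp S f z h)

theorem gbass_congr (f : H →* G) {z z' : G} (hz : z = z') (h : ∀ a, f a * z = z * f a)
    (h' : ∀ a, f a * z' = z' * f a) : gbass S f z h = gbass S f z' h' := by
  subst hz
  rfl

theorem gbass_mul (f : H →* G) (z z' : G) (h : ∀ a, f a * z = z * f a)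
    (h' : ∀ a, f a * z' = z' * f a) (h'' : ∀ a, f a * (z * z') = z * z' * f a)
    (x : K0 (MonoidAlgebra S H)) :
    gbass S f (z * z') h'' x = gbass S f z h x + gbass S f z' h' x := by
  have e : grpUnit S G (z * z') = grpUnit S G z * grpUnit S G z' := map_mul _ _ _
  rw [gbass, gbass, gbass, ← bass_mul _ _ _ _ _ (fun b => by rw [← e]; exact comm_grp S f _ h'' b)]
  congr 1
  simp only [e]

theorem gbass_one (f : H →* G) (h : ∀ a, f a * 1 = 1 * f a) (x : K0 (MonoidAlgebra S H)) :
    gbass S f 1 h x = 0 := by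
  have e := gbass_mul S f 1 1 h h (fun a => by rw [one_mul]; exact h a) x
  rw [gbass_congr S f (one_mul (1 : G)) _ h] at e
  exact left_eq_add.1 e

theorem pow_comm' {f : H →* G} {z : G} (h : ∀ a, f a * z = z * f a) (n : ℕ) (a : H) :
    f a * z ^ n = z ^ n * f a := ((show Commute (f a) z from h a).pow_right n)

theorem gbass_pow (f : H →* G) (z : G) (h : ∀ a, f a * z = z * f a) (n : ℕ)
    (x : K0 (MonoidAlgebra S H)) :
    gbass S f (z ^ n) (pow_comm' h n) x = n • gbass S f z h x := by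
  induction n with
  | zero =>
    rw [zero_smul, gbass_congr S f (pow_zero z) _ (fun a => by rw [one_mul, mul_one])]
    exact gbass_one S f _ x
  | succ n ih =>
    rw [gbass_congr S f (pow_succ z n) _ (fun a => by rw [← pow_succ]; exact pow_comm' h _ a),
      gbass_mul S f _ _ (pow_comm' h n) h, ih, succ_nsmul]

theorem gbass_comp {H' : Type*} [Group H'] (f : H →* G) (g : H' →* H) (z : G)
    (h : ∀ a, f a * z = z * f a) (x : K0 (MonoidAlgebra S H')) :
    gbass S f z h (K0.map (MonoidAlgebra.mapDomainRingHom S g) x) =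
      gbass S (f.comp g) z (fun a => h (g a)) x := by
  rw [gbass, bass_comp, gbass]
  congr 1
  simp only [← MonoidAlgebra.mapDomainRingHom_comp]

theorem map_gbass {T : Type*} [CommRing T] (θ : S →+* T) (f : H →* G) (z : G)
    (h : ∀ a, f a * z = z * f a) (x : K0 (MonoidAlgebra S H)) :
    K1.map (MonoidAlgebra.mapRingHom G θ) (gbass S f z h x) =
      gbass T f z h (K0.map (MonoidAlgebra.mapRingHom H θ) x) := by
  have e : (Units.map ((MonoidAlgebra.mapRingHom G θ : MonoidAlgebra S G →+* MonoidAlgebra T G) :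
      MonoidAlgebra S G →* MonoidAlgebra T G)) (grpUnit S G z) = grpUnit T G z := by
    apply Units.ext
    change MonoidAlgebra.mapRingHom G θ (MonoidAlgebra.single z 1) = MonoidAlgebra.single z 1
    rw [MonoidAlgebra.mapRingHom_single, map_one]
  have e2 : (MonoidAlgebra.mapRingHom G θ).comp (MonoidAlgebra.mapDomainRingHom S f) =
      (MonoidAlgebra.mapDomainRingHom T f).comp (MonoidAlgebra.mapRingHom H θ) :=
    MonoidAlgebra.mapRingHom_comp_mapDomainRingHom _ _
  rw [gbass, map_bass _ _ _ _ (fun b => by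
    rw [e, e2]; exact comm_grp T f z h _), gbass, bass_comp]
  congr 1
  simp only [e, e2]

theorem gbass_conj (f f' : H →* G) (z z' g : G) (h : ∀ a, f a * z = z * f a)
    (h' : ∀ a, f' a * z' = z' * f' a) (hf : ∀ a, f' a = g * f a * g⁻¹) (hz : z' = g * z * g⁻¹)
    (x : K0 (MonoidAlgebra S H)) : gbass S f' z' h' x = gbass S f z h x := by
  have ginv : (((grpUnit S G g)⁻¹ : (MonoidAlgebra S G)ˣ) : MonoidAlgebra S G) =
      MonoidAlgebra.single g⁻¹ 1 := by
    rw [← map_inv]
    rfl
  apply bass_conj _ _ _ _ (grpUnit S G g)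
  · intro b
    rw [ginv]
    induction b using MonoidAlgebra.induction_linear with
    | zero => simp
    | add a b ha hb => rw [map_add, ha, hb, map_add, mul_add, add_mul]
    | single a r =>
      change MonoidAlgebra.mapDomain f' (MonoidAlgebra.single a r) = MonoidAlgebra.single g 1 *
        MonoidAlgebra.mapDomain f (MonoidAlgebra.single a r) * MonoidAlgebra.single g⁻¹ 1
      rw [MonoidAlgebra.mapDomain_single, MonoidAlgebra.mapDomain_single,
        MonoidAlgebra.single_mul_single, MonoidAlgebra.single_mul_single, hf, mul_one, one_mul]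
  · rw [ginv]
    change MonoidAlgebra.single z' 1 = MonoidAlgebra.single g 1 * MonoidAlgebra.single z 1 *
      MonoidAlgebra.single g⁻¹ 1
    rw [MonoidAlgebra.single_mul_single, MonoidAlgebra.single_mul_single, hz, mul_one, mul_one]

end GBass

end Pool.Agent.H71.DB

end

section

/-!
# The full rational source of the assembly map in degree one

For a commutative ring `R` and a group `G`:

* `ColimK1 R G` is the colimit of `K₁(R[F])` over the finite subgroups `F` of `G`, with respect to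
  the restrictions `F → F'` of the conjugations `x ↦ g x g⁻¹`, `g F g⁻¹ ⊆ F'`;
* `H1K0 R G` is the abelian group generated by the symbols `[F, x, z]` with `F` a finite subgroup of
  `G`, `x ∈ K₀(R[F])` and `z` in the centralizer `Z_G(F)`, modulo additivity in `x` and in `z` and
  `[F', c_g(x), z'] = [F, x, g⁻¹ z' g]` for `g F g⁻¹ ⊆ F'`, `z' ∈ Z_G(F')`; it is the tensor product
  of the functors `F ↦ K₀(R[F])` and `F ↦ H₁(Z_G(F))` over the category of finite subgroups;
* `fullAssembly R G : ColimK1 R G × H1K0 R G → K₁(R[G])` is given by the inclusions `F → G` on the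
  first factor, and sends `[F, [e], z]` to the class of `1 + e (z - 1)`.
-/

set_option autoImplicit false

open Matrix

universe u v w

namespace Pool.Agent.H71.DB

open Pool.Agent.H71.FJ (MatEquiv IdemMat K0 K0.mk K0.lift K0.lift_mk K0.hom_ext K0.map)
open Pool.Agent.H95.WH (K1 K1.mk K1.map K1.map_mk K1.map_map K1_map_conj FamSub conjHom FinSub)

section Groups

/-- `K₁(R[H])` -/
def KG1 (R : Type u) [CommRing R] (H : Type v) [Group H] : Type (max u v) := K1 (MonoidAlgebra R H)

noncomputable instance instKG1 (R : Type u) [CommRing R] (H : Type v) [Group H] :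
    AddCommGroup (KG1 R H) := Pool.Agent.H95.WH.instK1 (MonoidAlgebra R H)

/-- The homomorphism `K₁(R[H]) → K₁(R[H'])` induced by `φ : H → H'`. -/
noncomputable def KG1.map (R : Type u) [CommRing R] {H H' : Type v} [Group H] [Group H']
    (φ : H →* H') : KG1 R H →+ KG1 R H' := K1.map (MonoidAlgebra.mapDomainRingHom R φ)

/-- `K₀(R[H])` -/
def KG0 (R : Type u) [CommRing R] (H : Type v) [Group H] : Type (max u v) := K0 (MonoidAlgebra R H)

noncomputable instance instKG0 (R : Type u) [CommRing R] (H : Type v) [Group H] :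
    AddCommGroup (KG0 R H) := Pool.Agent.H71.FJ.instK0 (MonoidAlgebra R H)

/-- The homomorphism `K₀(R[H]) → K₀(R[H'])` induced by `φ : H → H'`. -/
noncomputable def KG0.map (R : Type u) [CommRing R] {H H' : Type v} [Group H] [Group H']
    (φ : H →* H') : KG0 R H →+ KG0 R H' := K0.map (MonoidAlgebra.mapDomainRingHom R φ)

section Fin

variable (R : Type u) [CommRing R] (G : Type v) [Group G]

/-- `K₁(R[F])` for a finite subgroup `F` of `G`. -/
def FK1 (F : FamSub G FinSub) : Type (max u v) := KG1 R F.1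

noncomputable instance instFK1 (F : FamSub G FinSub) : AddCommGroup (FK1 R G F) := instKG1 R F.1

/-- The homomorphism `K₁(R[F]) → K₁(R[F'])` given by `x ↦ g x g⁻¹` if `g F g⁻¹ ⊆ F'`. -/
noncomputable def FK1.conj (F F' : FamSub G FinSub) (g : G) (h : ∀ x ∈ F.1, g * x * g⁻¹ ∈ F'.1) :
    FK1 R G F →+ FK1 R G F' := KG1.map R (conjHom g F.1 F'.1 h)

/-- The homomorphism `K₁(R[F]) → K₁(R[G])` given by the inclusion `F → G`. -/
noncomputable def FK1.incl (F : FamSub G FinSub) : FK1 R G F →+ KG1 R G := KG1.map R F.1.subtype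

/-- `K₀(R[F])` for a finite subgroup `F` of `G`. -/
def FK0 (F : FamSub G FinSub) : Type (max u v) := KG0 R F.1

noncomputable instance instFK0 (F : FamSub G FinSub) : AddCommGroup (FK0 R G F) := instKG0 R F.1

/-- The homomorphism `K₀(R[F]) → K₀(R[F'])` given by `x ↦ g x g⁻¹` if `g F g⁻¹ ⊆ F'`. -/
noncomputable def FK0.conj (F F' : FamSub G FinSub) (g : G) (h : ∀ x ∈ F.1, g * x * g⁻¹ ∈ F'.1) :
    FK0 R G F →+ FK0 R G F' := KG0.map R (conjHom g F.1 F'.1 h)

/-- The homomorphism `K₀(R[F]) → K₀(R[G])` given by the inclusion `F → G`. -/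
noncomputable def FK0.incl (F : FamSub G FinSub) : FK0 R G F →+ KG0 R G := KG0.map R F.1.subtype

end Fin

end Groups

section Colim

variable (R : Type u) [CommRing R] (G : Type v) [Group G]

/-- `⨁_F K₁(R[F])` over the finite subgroups of `G`. -/
def SumK1 : Type (max u v) := DirectSum (FamSub G FinSub) (fun F => FK1 R G F)

noncomputable instance instSumK1 : AddCommGroup (SumK1 R G) :=
  DirectSum.instAddCommGroup (β := fun F : FamSub G FinSub => FK1 R G F)

/-- The inclusion of the summand of `F`. -/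
noncomputable def inc1 (F : FamSub G FinSub) : FK1 R G F →+ SumK1 R G :=
  open scoped Classical in DirectSum.of (fun F : FamSub G FinSub => FK1 R G F) F

/-- The relation `c_g(x) - x`. -/
noncomputable def rel1 (F F' : FamSub G FinSub) (g : G) (h : ∀ x ∈ F.1, g * x * g⁻¹ ∈ F'.1)
    (x : FK1 R G F) : SumK1 R G :=
  inc1 R G F' (FK1.conj R G F F' g h x) - inc1 R G F x

/-- The relations of the colimit. -/
noncomputable def colimRel1 : AddSubgroup (SumK1 R G) :=
  AddSubgroup.closure {z | ∃ F F' g h x, z = rel1 R G F F' g h x}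

/-- The colimit of `K₁(R[F])` over the finite subgroups of `G`. -/
def ColimK1 : Type (max u v) := SumK1 R G ⧸ colimRel1 R G

noncomputable instance instColimK1 : AddCommGroup (ColimK1 R G) :=
  QuotientAddGroup.Quotient.addCommGroup (colimRel1 R G)

/-- The assembly map on the direct sum, given by the inclusions `F → G`. -/
noncomputable def assemblySum1 : SumK1 R G →+ KG1 R G :=
  open scoped Classical in
  DirectSum.toAddMonoid fun F : FamSub G FinSub => FK1.incl R G F

/-- The homomorphism given on the summands. -/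
noncomputable def sumLift1 {M : Type w} [AddCommGroup M]
    (f : ∀ F : FamSub G FinSub, FK1 R G F →+ M) : SumK1 R G →+ M :=
  open scoped Classical in DirectSum.toAddMonoid f

theorem sumLift1_inc {M : Type w} [AddCommGroup M]
    (f : ∀ F : FamSub G FinSub, FK1 R G F →+ M) (F : FamSub G FinSub)
    (x : FK1 R G F) : sumLift1 R G f (inc1 R G F x) = f F x := by
  classical
  exact DirectSum.toAddMonoid_of (β := fun F : FamSub G FinSub => FK1 R G F) _ F x

theorem sum1_induction {P : SumK1 R G → Prop} (h0 : P 0)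
    (h1 : ∀ (F : FamSub G FinSub) (x : FK1 R G F), P (inc1 R G F x))
    (h2 : ∀ a b, P a → P b → P (a + b)) (y : SumK1 R G) : P y := by
  classical
  exact DirectSum.induction_on (β := fun F : FamSub G FinSub => FK1 R G F) y h0 h1 h2

theorem assemblySum1_inc (F : FamSub G FinSub) (x : FK1 R G F) :
    assemblySum1 R G (inc1 R G F x) = FK1.incl R G F x :=
  sumLift1_inc R G (fun F : FamSub G FinSub => FK1.incl R G F) F x

theorem colimRel1_le : colimRel1 R G ≤ (assemblySum1 R G).ker := by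
  rw [colimRel1, AddSubgroup.closure_le]
  rintro z ⟨F, F', g, h, x, rfl⟩
  change assemblySum1 R G _ = 0
  rw [rel1, map_sub, assemblySum1_inc, assemblySum1_inc]
  exact sub_eq_zero.2 (Pool.Agent.H71.DO.ind_conj R g F.1 F'.1 h x)

/-- The assembly map on the colimit. -/
noncomputable def assembly1 : ColimK1 R G →+ KG1 R G :=
  QuotientAddGroup.lift (colimRel1 R G) (assemblySum1 R G) (colimRel1_le R G)

end Colim

section H1K0

variable (R : Type u) [CommRing R] (G : Type v) [Group G]

/-- The symbols `[F, x, z]`. -/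
structure Sym where
  /-- a finite subgroup -/
  F : FamSub G FinSub
  /-- a class in `K₀` of its group ring -/
  x : FK0 R G F
  /-- an element of its centralizer -/
  z : Subgroup.centralizer (F.1 : Set G)

variable {G}

theorem conjCent_mem (g : G) (F F' : Subgroup G) (h : ∀ x ∈ F, g * x * g⁻¹ ∈ F')
    (z : Subgroup.centralizer (F' : Set G)) :
    g⁻¹ * z * g ∈ Subgroup.centralizer (F : Set G) := by
  rw [Subgroup.mem_centralizer_iff]
  intro a ha
  have h1 := Subgroup.mem_centralizer_iff.1 z.2 _ (h a ha)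
  calc a * (g⁻¹ * z * g) = g⁻¹ * (g * a * g⁻¹ * z) * g := by group
    _ = g⁻¹ * (z * (g * a * g⁻¹)) * g := by rw [h1]
    _ = _ := by group

/-- The element `g⁻¹ z g` of `Z_G(F)` for `z ∈ Z_G(F')`, `g F g⁻¹ ⊆ F'`. -/
def conjCent (g : G) (F F' : Subgroup G) (h : ∀ x ∈ F, g * x * g⁻¹ ∈ F')
    (z : Subgroup.centralizer (F' : Set G)) : Subgroup.centralizer (F : Set G) :=
  ⟨g⁻¹ * z * g, conjCent_mem g F F' h z⟩

variable (G)

/-- The symbol `[F, x, z]`. -/
noncomputable def symOf (F : FamSub G FinSub) (x : FK0 R G F)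
    (z : Subgroup.centralizer (F.1 : Set G)) : FreeAbelianGroup (Sym R G) :=
  FreeAbelianGroup.of ⟨F, x, z⟩

/-- The relation of additivity in `x`. -/
noncomputable def symX (F : FamSub G FinSub) (x y : FK0 R G F)
    (z : Subgroup.centralizer (F.1 : Set G)) : FreeAbelianGroup (Sym R G) :=
  symOf R G F (x + y) z - (symOf R G F x z + symOf R G F y z)

/-- The relation of additivity in `z`. -/
noncomputable def symZ (F : FamSub G FinSub) (x : FK0 R G F)
    (z z' : Subgroup.centralizer (F.1 : Set G)) : FreeAbelianGroup (Sym R G) :=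
  symOf R G F x (z * z') - (symOf R G F x z + symOf R G F x z')

/-- The relation `[F', c_g(x), z'] = [F, x, g⁻¹ z' g]`. -/
noncomputable def symC (F F' : FamSub G FinSub) (g : G) (h : ∀ x ∈ F.1, g * x * g⁻¹ ∈ F'.1)
    (x : FK0 R G F) (z : Subgroup.centralizer (F'.1 : Set G)) :
    FreeAbelianGroup (Sym R G) :=
  symOf R G F' (FK0.conj R G F F' g h x) z - symOf R G F x (conjCent g F.1 F'.1 h z)

/-- The relations: additivity in `x` and in `z` and `[F', c_g(x), z'] = [F, x, g⁻¹ z' g]`. -/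
noncomputable def SymRel : AddSubgroup (FreeAbelianGroup (Sym R G)) :=
  AddSubgroup.closure
    ({w | ∃ F x y z, w = symX R G F x y z} ∪ {w | ∃ F x z z', w = symZ R G F x z z'} ∪
      {w | ∃ F F' g h x z, w = symC R G F F' g h x z})

/-- The group generated by the symbols `[F, x, z]`. -/
def H1K0 : Type (max u v) := FreeAbelianGroup (Sym R G) ⧸ SymRel R G

noncomputable instance instH1K0 : AddCommGroup (H1K0 R G) :=
  QuotientAddGroup.Quotient.addCommGroup (SymRel R G)

variable {G}

theorem cent_comm {F : Subgroup G} (z : Subgroup.centralizer (F : Set G)) (a : F) :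
    F.subtype a * (z : G) = (z : G) * F.subtype a :=
  Subgroup.mem_centralizer_iff.1 z.2 a a.2

/-- The homomorphism `K₀(R[F]) → K₁(R[G])`, `[e] ↦ [1 + e (z - 1)]` for `z ∈ Z_G(F)`. -/
noncomputable def cbass (F : FamSub G FinSub) (z : Subgroup.centralizer (F.1 : Set G)) :
    FK0 R G F →+ KG1 R G :=
  gbass R F.1.subtype (z : G) (cent_comm z)

/-- The value of the assembly map on a symbol, the class of `1 + e (z - 1)` for `x = [e]`. -/
noncomputable def symVal (s : Sym R G) : KG1 R G := cbass R s.F s.z s.x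

variable (G)

theorem symRel_le : SymRel R G ≤ (FreeAbelianGroup.lift (symVal R (G := G))).ker := by
  rw [SymRel, AddSubgroup.closure_le]
  rintro w ((⟨F, x, y, z, rfl⟩ | ⟨F, x, z, z', rfl⟩) | ⟨F, F', g, h, x, z, rfl⟩)
  · change FreeAbelianGroup.lift (symVal R) _ = 0
    rw [symX, symOf, symOf, symOf, map_sub, map_add, FreeAbelianGroup.lift_apply_of,
      FreeAbelianGroup.lift_apply_of, FreeAbelianGroup.lift_apply_of, symVal, symVal, symVal,
      map_add, sub_self]
  · change FreeAbelianGroup.lift (symVal R) _ = 0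
    rw [symZ, symOf, symOf, symOf, map_sub, map_add, FreeAbelianGroup.lift_apply_of,
      FreeAbelianGroup.lift_apply_of, FreeAbelianGroup.lift_apply_of, sub_eq_zero]
    exact gbass_mul R F.1.subtype (z : G) (z' : G) (cent_comm z) (cent_comm z')
      (cent_comm (z * z')) x
  · change FreeAbelianGroup.lift (symVal R) _ = 0
    rw [symC, symOf, symOf, map_sub, FreeAbelianGroup.lift_apply_of,
      FreeAbelianGroup.lift_apply_of, sub_eq_zero]
    change gbass R F'.1.subtype (z : G) (cent_comm z) (K0.map _ x) =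
      gbass R F.1.subtype (g⁻¹ * z * g) (cent_comm (conjCent g F.1 F'.1 h z)) x
    rw [gbass_comp]
    apply gbass_conj R _ _ _ _ g
    · intro a
      rfl
    · group

/-- The assembly map on the symbols. -/
noncomputable def assemblyH : H1K0 R G →+ KG1 R G :=
  QuotientAddGroup.lift (SymRel R G) (FreeAbelianGroup.lift (symVal R)) (symRel_le R G)

/-- The rational source of the assembly map in degree one. -/
abbrev Source : Type (max u v) := ColimK1 R G × H1K0 R G

/-- The assembly map in degree one on the full rational source. -/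
noncomputable def fullAssembly : Source R G →+ KG1 R G :=
  (assembly1 R G).coprod (assemblyH R G)

end H1K0

section Rational

/-- The homomorphism `f` becomes injective after tensoring with `ℚ` over `ℤ`. -/
def RatInj {A : Type u} [AddCommGroup A] {B : Type v} [AddCommGroup B] (f : A →+ B) : Prop :=
  Function.Injective (LinearMap.lTensor ℚ f.toIntLinearMap)

/-- Every element of `Z` which is killed by all homomorphisms `Z → ℤ_p` has finite order in the
abelianization of `Z`. -/
def PadicSep (p : ℕ) [Fact p.Prime] (Z : Type v) [Group Z] : Prop :=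
  ∀ z : Z, (∀ f : Z →* Multiplicative ℤ_[p], f z = 1) → ∃ m : ℕ, m ≠ 0 ∧ z ^ m ∈ commutator Z

end Rational

end Pool.Agent.H71.DB

end

section

/-!
# Project FU, degree one: first homology and `K₁`

`e1 g` is the class of the cycle `(1, g)`. `kq1 : K₁(A) → KQ A 0`, `[U] ↦ [N, e1 U]`, and `kap : KQ A 0 → K₁(A)` with
`kap (kq1 x) = x`.
-/

set_option autoImplicit false

open Matrix

universe u v w

namespace Pool.Agent.H71.FU0

open Pool.Agent.H71.FQ
open Pool.Agent.H95.WH (K1 K1.mk K1.lift K1.lift_mk K1.hom_ext K1.mk_mul K1.mk_stab K1.map K1.map_mk stab reU)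

section

variable {Γ : Type v} [Group Γ] {Γ' : Type w} [Group Γ']

theorem cyc0 (c : Cx ℤ Γ (0 + 1)) : c ∈ cyc Γ 0 := by
  change bd ℤ Γ 0 c ∈ coi Γ 0
  induction c using Finsupp.induction_linear with
  | zero =>
    rw [map_zero]
    exact Submodule.zero_mem _
  | add a b ha hb =>
    rw [map_add]
    exact Submodule.add_mem _ ha hb
  | single x r =>
    have h : (Finsupp.single x r : Cx ℤ Γ (0 + 1)) = r • Finsupp.single x 1 := by
      rw [Finsupp.smul_single, smul_eq_mul, mul_one]
    rw [h, map_smul]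
    refine Submodule.smul_mem _ _ ?_
    rw [bd_single, Fin.sum_univ_two]
    refine Submodule.subset_span ⟨x 1 * (x 0)⁻¹, fun _ => x 0, ?_⟩
    have h0 : (fun j : Fin (0 + 1) => x ((0 : Fin 2).succAbove j)) = fun _ => x 1 * (x 0)⁻¹ * x 0 := by
      funext j
      have hj : j = 0 := Fin.ext (by omega)
      rw [hj, inv_mul_cancel_right]
      rfl
    have h1 : (fun j : Fin (0 + 1) => x ((1 : Fin 2).succAbove j)) = fun _ => x 0 := by
      funext j
      have hj : j = 0 := Fin.ext (by omega)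
      rw [hj]
      rfl
    rw [h0, h1]
    simp only [Fin.val_zero, Fin.val_one, pow_zero, pow_one, one_smul, neg_smul]
    rw [sub_eq_add_neg]

/-- the class of the cycle `(1, g)` -/
noncomputable def e1 (g : Γ) : HG Γ 0 :=
  HG.mk ⟨Finsupp.single (![1, g] : Fin (0 + 2) → Γ) 1, cyc0 _⟩

theorem mk_single (x : Fin (0 + 2) → Γ) :
    HG.mk ⟨Finsupp.single x 1, cyc0 _⟩ = e1 ((x 0)⁻¹ * x 1) := by
  rw [e1, HG.mk_eq_iff]
  refine Submodule.mem_sup_right (Submodule.subset_span ⟨x 0, ![1, (x 0)⁻¹ * x 1], ?_⟩)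
  change (Finsupp.single x 1 : Cx ℤ Γ (0 + 1)) - Finsupp.single ![1, (x 0)⁻¹ * x 1] 1 = _
  congr 2
  funext j
  refine Fin.cases ?_ (fun k => ?_) j
  · simp
  · rw [Subsingleton.elim k 0]
    simp

theorem e1_mul (g h : Γ) : e1 (g * h) = e1 g + e1 h := by
  have h1 : e1 h = HG.mk ⟨Finsupp.single (![g, g * h] : Fin (0 + 2) → Γ) 1, cyc0 _⟩ := by
    rw [mk_single]
    congr 1
    simp
  rw [h1, e1, e1, ← HG.mk_add, HG.mk_eq_iff]
  refine Submodule.mem_sup_left ⟨-(Finsupp.single (![1, g, g * h] : Fin (0 + 3) → Γ) 1), ?_⟩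
  rw [map_neg]
  have h2 := bd_single (R := ℤ) (X := Γ) (0 + 1) (![1, g, g * h] : Fin (0 + 3) → Γ)
  have h3 : bd ℤ Γ (0 + 1) (Finsupp.single (![1, g, g * h] : Fin (0 + 3) → Γ) 1) =
      Finsupp.single (![g, g * h] : Fin (0 + 2) → Γ) 1 - Finsupp.single (![1, g * h] : Fin (0 + 2) → Γ) 1 +
        Finsupp.single (![1, g] : Fin (0 + 2) → Γ) 1 := by
    rw [h2]
    change ∑ i : Fin 3, _ = _
    rw [Fin.sum_univ_three]
    have k0 : (fun j : Fin (0 + 2) => (![1, g, g * h] : Fin (0 + 3) → Γ) ((0 : Fin 3).succAbove j)) =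
        ![g, g * h] := by
      funext j
      fin_cases j <;> rfl
    have k1 : (fun j : Fin (0 + 2) => (![1, g, g * h] : Fin (0 + 3) → Γ) ((1 : Fin 3).succAbove j)) =
        ![1, g * h] := by
      funext j
      fin_cases j <;> rfl
    have k2 : (fun j : Fin (0 + 2) => (![1, g, g * h] : Fin (0 + 3) → Γ) ((2 : Fin 3).succAbove j)) =
        ![1, g] := by
      funext j
      fin_cases j <;> rfl
    have e0 : (-1 : ℤ) ^ ((0 : Fin 3) : ℕ) = 1 := by decide
    have e1' : (-1 : ℤ) ^ ((1 : Fin 3) : ℕ) = -1 := by decide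
    have e2 : (-1 : ℤ) ^ ((2 : Fin 3) : ℕ) = 1 := by decide
    rw [e0, e1', e2, one_smul, one_smul, neg_smul, one_smul, ← sub_eq_add_neg]
    exact congrArg₂ (· + ·) (congrArg₂ (· - ·) (congrArg (fun y => Finsupp.single y (1 : ℤ)) k0)
      (congrArg (fun y => Finsupp.single y (1 : ℤ)) k1)) (congrArg (fun y => Finsupp.single y (1 : ℤ)) k2)
  rw [h3]
  change _ = Finsupp.single (![1, g * h] : Fin (0 + 2) → Γ) (1 : ℤ) -
    (Finsupp.single (![1, g] : Fin (0 + 2) → Γ) (1 : ℤ) +
      Finsupp.single (![g, g * h] : Fin (0 + 2) → Γ) (1 : ℤ))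
  abel

theorem hg0_induction {P : HG Γ 0 → Prop} (h0 : P 0) (h1 : ∀ g, P (e1 g))
    (h2 : ∀ a b, P a → P b → P (a + b)) (h3 : ∀ a, P a → P (-a)) (x : HG Γ 0) : P x := by
  obtain ⟨⟨c, hc⟩, rfl⟩ := HG.mk_surjective x
  induction c using Finsupp.induction_linear with
  | zero =>
    have e : (HG.mk ⟨(0 : Cx ℤ Γ (0 + 1)), hc⟩ : HG Γ 0) = 0 := by
      have h := HG.mk_add (⟨(0 : Cx ℤ Γ (0 + 1)), hc⟩ : cyc Γ 0) 0
      rfl
    rw [e]
    exact h0
  | add a b ha hb =>
    have e : (HG.mk ⟨a + b, hc⟩ : HG Γ 0) = HG.mk ⟨a, cyc0 a⟩ + HG.mk ⟨b, cyc0 b⟩ := rfl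
    rw [e]
    exact h2 _ _ (ha _) (hb _)
  | single x r =>
    have e : ∀ r : ℤ, (HG.mk ⟨Finsupp.single x r, cyc0 _⟩ : HG Γ 0) = r • e1 ((x 0)⁻¹ * x 1) := by
      intro r
      rw [← mk_single]
      have h : (Finsupp.single x r : Cx ℤ Γ (0 + 1)) = r • Finsupp.single x 1 := by
        rw [Finsupp.smul_single, smul_eq_mul, mul_one]
      have h' : (⟨Finsupp.single x r, cyc0 _⟩ : cyc Γ 0) = r • ⟨Finsupp.single x 1, cyc0 _⟩ :=
        Subtype.ext h
      rw [h']
      rfl
    rw [e r]
    have hn : ∀ n : ℕ, P (n • e1 ((x 0)⁻¹ * x 1)) := by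
      intro n
      induction n with
      | zero =>
        rw [zero_smul]
        exact h0
      | succ n ih =>
        rw [succ_nsmul]
        exact h2 _ _ ih (h1 _)
    obtain ⟨n, rfl | rfl⟩ := r.eq_nat_or_neg
    · rw [natCast_zsmul]
      exact hn n
    · rw [neg_smul, natCast_zsmul]
      exact h3 _ (hn n)

theorem hg0_ext {M : Type*} [AddCommGroup M] {f g : HG Γ 0 →+ M} (h : ∀ a, f (e1 a) = g (e1 a)) :
    f = g := by
  ext x
  induction x using hg0_induction with
  | h0 => rw [map_zero, map_zero]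
  | h1 a => exact h a
  | h2 a b ha hb => rw [map_add, map_add, ha, hb]
  | h3 a ha => rw [map_neg, map_neg, ha]

theorem map_e1 (f : Γ →* Γ') (g : Γ) : HG.map 0 f (e1 g) = e1 (f g) := by
  rw [e1, HG.map_mk]
  have h : (⟨push ℤ f (0 + 1) (Finsupp.single (![1, g] : Fin (0 + 2) → Γ) 1), cyc0 _⟩ :
      cyc Γ' 0) = ⟨Finsupp.single (fun j => f ((![1, g] : Fin (0 + 2) → Γ) j)) 1, cyc0 _⟩ :=
    Subtype.ext (push_single f (0 + 1) _)
  refine (congrArg HG.mk h).trans ?_
  rw [mk_single]
  congr 1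
  simp

/-- the homomorphism of the first homology given by a homomorphism of groups -/
noncomputable def ev1 {M : Type*} [AddCommGroup M] (χ : Γ →* Multiplicative M) : HG Γ 0 →+ M :=
  HG.ev (φ := fun x : Fin (0 + 2) → Γ => Multiplicative.toAdd (χ ((x 0)⁻¹ * x 1)))
    ⟨fun g x => by
      congr 2
      group, fun x => by
      change ∑ i : Fin 3, _ = _
      rw [Fin.sum_univ_three]
      have e0 : (-1 : ℤ) ^ ((0 : Fin 3) : ℕ) = 1 := by decide
      have e1' : (-1 : ℤ) ^ ((1 : Fin 3) : ℕ) = -1 := by decide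
      have e2 : (-1 : ℤ) ^ ((2 : Fin 3) : ℕ) = 1 := by decide
      rw [e0, e1', e2, one_smul, one_smul, neg_smul, one_smul]
      change Multiplicative.toAdd (χ ((x 1)⁻¹ * x 2)) + -Multiplicative.toAdd (χ ((x 0)⁻¹ * x 2)) +
        Multiplicative.toAdd (χ ((x 0)⁻¹ * x 1)) = 0
      have h : (x 0)⁻¹ * x 2 = ((x 0)⁻¹ * x 1) * ((x 1)⁻¹ * x 2) := by group
      rw [h, map_mul χ ((x 0)⁻¹ * x 1) ((x 1)⁻¹ * x 2), toAdd_mul]
      abel⟩

theorem ev1_e1 {M : Type*} [AddCommGroup M] (χ : Γ →* Multiplicative M) (g : Γ) :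
    ev1 χ (e1 g) = Multiplicative.toAdd (χ g) := by
  rw [ev1, e1, HG.ev_mk, Finsupp.linearCombination_single, one_smul]
  simp

end

section

variable {A : Type u} [Ring A] {A' : Type v} [Ring A']

theorem cls_e1_stab {N : ℕ} (U : GLm N A) :
    KQ.cls A 0 (N + 1) (e1 (stab U)) = KQ.cls A 0 N (e1 U) := by
  have h := KQ.cls_pair (MonoidHom.id (GLm N A)) (1 : GLm N A →* GLm 1 A) (e1 U)
  rw [HG.map_one, map_zero, add_zero, map_e1, map_e1] at h
  refine Eq.trans ?_ h
  congr 2

/-- The homomorphism `K₁(A) → KQ A 0`. -/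
noncomputable def kq1 : K1 A →+ KQ A 0 :=
  K1.lift (fun N U => KQ.cls A 0 N (e1 U))
    (fun N U V => by rw [e1_mul, map_add])
    (fun N U => cls_e1_stab U)

theorem kq1_mk {N : ℕ} (U : GLm N A) : kq1 (K1.mk U) = KQ.cls A 0 N (e1 U) := K1.lift_mk _ _ _ _

theorem map_kq1 (f : A →+* A') (x : K1 A) : KQ.map f (kq1 x) = kq1 (K1.map f x) := by
  have h : (KQ.map (n := 0) f).comp kq1 = kq1.comp (K1.map f) := by
    apply K1.hom_ext
    intro N U
    rw [AddMonoidHom.comp_apply, AddMonoidHom.comp_apply, kq1_mk, KQ.map_cls, map_e1, K1.map_mk,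
      kq1_mk]
    rfl
  exact DFunLike.congr_fun h x

/-- the homomorphism `GL_N(A) → K₁(A)` -/
noncomputable def mkHom (N : ℕ) : GLm N A →* Multiplicative (K1 A) where
  toFun U := Multiplicative.ofAdd (K1.mk U)
  map_one' := by
    have h : K1.mk ((1 : GLm N A) * 1) = K1.mk (1 : GLm N A) + K1.mk (1 : GLm N A) :=
      K1.mk_mul _ _
    rw [mul_one] at h
    exact congrArg Multiplicative.ofAdd (left_eq_add.1 h)
  map_mul' U V := congrArg Multiplicative.ofAdd (K1.mk_mul U V)

theorem mk_blk {N M : ℕ} (U : GLm N A) (V : GLm M A) :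
    K1.mk (blk N M A (U, V)) = K1.mk U + K1.mk V := by
  let W : (Matrix (Fin N ⊕ Fin M) (Fin N ⊕ Fin M) A)ˣ :=
    { val := fromBlocks U.val 0 0 V.val
      inv := fromBlocks U.inv 0 0 V.inv
      val_inv := by rw [fromBlocks_multiply]; simp [← fromBlocks_one]
      inv_val := by rw [fromBlocks_multiply]; simp [← fromBlocks_one] }
  have h1 := Pool.Agent.H95.WH.K1.cls_upper U V 0 W rfl
  rw [← Pool.Agent.H95.WH.K1.cls_mk, ← Pool.Agent.H95.WH.K1.cls_mk, ← Pool.Agent.H95.WH.K1.cls_mk,
    ← h1, ← Pool.Agent.H95.WH.K1.cls_reindex finSumFinEquiv W]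
  congr 1

/-- The homomorphism `KQ A 0 → K₁(A)`. -/
noncomputable def kap : KQ A 0 →+ K1 A :=
  KQ.lift (fun N => ev1 (mkHom N)) (by
    intro N M w
    have h : (ev1 (mkHom (N + M))).comp (HG.map 0 (blk N M A)) =
        (ev1 (mkHom N)).comp (HG.map 0 (MonoidHom.fst (GLm N A) (GLm M A))) +
          (ev1 (mkHom M)).comp (HG.map 0 (MonoidHom.snd (GLm N A) (GLm M A))) := by
      apply hg0_ext
      rintro ⟨U, V⟩
      rw [AddMonoidHom.add_apply, AddMonoidHom.comp_apply, AddMonoidHom.comp_apply,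
        AddMonoidHom.comp_apply, map_e1, map_e1, map_e1, ev1_e1, ev1_e1, ev1_e1]
      exact mk_blk U V
    exact DFunLike.congr_fun h w)

theorem kap_cls {N : ℕ} (U : GLm N A) : kap (KQ.cls A 0 N (e1 U)) = K1.mk U := by
  rw [kap, KQ.lift_cls, ev1_e1]
  rfl

theorem kap_kq1 (x : K1 A) : kap (kq1 x) = x := by
  have h : kap.comp kq1 = AddMonoidHom.id (K1 A) := by
    apply K1.hom_ext
    intro N U
    rw [AddMonoidHom.comp_apply, kq1_mk, kap_cls, AddMonoidHom.id_apply]
  exact DFunLike.congr_fun h x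

end

end Pool.Agent.H71.FU0

end
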