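import Mathlib

/-! The parts of this file: H95.WH.Defs, H95.WH.K1B. -/

section

/-!
# `K₁` of rings, Whitehead groups and the assembly map for Whitehead groups

`K1 R` is the group `K₁(R) = GL(R)ᵃᵇ = colim_n GL_n(R)ᵃᵇ`: it is generated by symbols `[U]`, `U` an
invertible `n × n` matrix over `R`, `n ≥ 0`, with the relations `[U V] = [U] + [V]` (matrices of
the same size) and `[diag(U, 1)] = [U]`.

`Wh G` is the Whitehead group of `G`, the quotient of `K₁(ℤ[G])` by the classes of the `1 × 1`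
matrices `(-1)` and `(g)`, `g ∈ G`.

For a family `𝓕` of subgroups of `G`, `ColimWh G 𝓕` is the colimit of the groups `Wh(F)`
over the subgroups `F` in `𝓕`, the morphisms `F → F'` being the restrictions of the conjugations
`x ↦ g x g⁻¹` with `g F g⁻¹ ⊆ F'`, and `assembly G 𝓕` is the natural map from it to `Wh(G)`.
-/

set_option autoImplicit false

open Matrix

universe u v w

namespace Pool.Agent.H95.WH

section K1

variable {R : Type u} [Ring R] {S : Type v} [Ring S] {T : Type w} [Ring T]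

/-- The matrix `diag(U, 1)`. -/
def stabMat {n : ℕ} (U : Matrix (Fin n) (Fin n) R) : Matrix (Fin (n + 1)) (Fin (n + 1)) R :=
  Matrix.reindex finSumFinEquiv finSumFinEquiv
    (Matrix.fromBlocks U 0 0 (1 : Matrix (Fin 1) (Fin 1) R))

theorem stabMat_mul {n : ℕ} (U V : Matrix (Fin n) (Fin n) R) :
    stabMat (U * V) = stabMat U * stabMat V := by
  rw [stabMat, stabMat, stabMat, Matrix.reindex_apply, Matrix.reindex_apply, Matrix.reindex_apply,
    Matrix.submatrix_mul_equiv, Matrix.fromBlocks_multiply]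
  simp

theorem stabMat_one {n : ℕ} : stabMat (1 : Matrix (Fin n) (Fin n) R) = 1 := by
  rw [stabMat, Matrix.fromBlocks_one, Matrix.reindex_apply, Matrix.submatrix_one_equiv]

/-- The invertible matrix `diag(U, 1)`. -/
def stab {n : ℕ} (U : (Matrix (Fin n) (Fin n) R)ˣ) :
    (Matrix (Fin (n + 1)) (Fin (n + 1)) R)ˣ where
  val := stabMat U.val
  inv := stabMat U.inv
  val_inv := by rw [← stabMat_mul, U.val_inv, stabMat_one]
  inv_val := by rw [← stabMat_mul, U.inv_val, stabMat_one]

/-- The invertible matrices over `R` of all sizes. -/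
abbrev GLAll (R : Type u) [Ring R] : Type u := Σ n : ℕ, (Matrix (Fin n) (Fin n) R)ˣ

/-- The relations of `K₁(R)`. -/
def K1Rel (R : Type u) [Ring R] : AddSubgroup (FreeAbelianGroup (GLAll R)) :=
  AddSubgroup.closure
    ({z | ∃ (n : ℕ) (U V : (Matrix (Fin n) (Fin n) R)ˣ),
      z = FreeAbelianGroup.of ⟨n, U * V⟩ - FreeAbelianGroup.of ⟨n, U⟩ -
        FreeAbelianGroup.of ⟨n, V⟩} ∪
    {z | ∃ (n : ℕ) (U : (Matrix (Fin n) (Fin n) R)ˣ),
      z = FreeAbelianGroup.of ⟨n + 1, stab U⟩ - FreeAbelianGroup.of ⟨n, U⟩})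

/-- The group `K₁(R)`. -/
def K1 (R : Type u) [Ring R] : Type u := FreeAbelianGroup (GLAll R) ⧸ K1Rel R

noncomputable instance instK1 (R : Type u) [Ring R] : AddCommGroup (K1 R) :=
  QuotientAddGroup.Quotient.addCommGroup (K1Rel R)

namespace K1

/-- The class of an invertible matrix. -/
def mk {n : ℕ} (U : (Matrix (Fin n) (Fin n) R)ˣ) : K1 R :=
  QuotientAddGroup.mk' (K1Rel R) (FreeAbelianGroup.of ⟨n, U⟩)

theorem mk_mul {n : ℕ} (U V : (Matrix (Fin n) (Fin n) R)ˣ) : mk (U * V) = mk U + mk V := by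
  have h : (FreeAbelianGroup.of (⟨n, U * V⟩ : GLAll R) - FreeAbelianGroup.of ⟨n, U⟩ -
      FreeAbelianGroup.of ⟨n, V⟩) ∈ K1Rel R :=
    AddSubgroup.subset_closure (Or.inl ⟨n, U, V, rfl⟩)
  have h2 : QuotientAddGroup.mk' (K1Rel R) (FreeAbelianGroup.of (⟨n, U * V⟩ : GLAll R) -
      FreeAbelianGroup.of ⟨n, U⟩ - FreeAbelianGroup.of ⟨n, V⟩) = 0 :=
    (QuotientAddGroup.eq_zero_iff _).2 h
  rw [map_sub, map_sub, sub_sub, sub_eq_zero] at h2
  exact h2

theorem mk_stab {n : ℕ} (U : (Matrix (Fin n) (Fin n) R)ˣ) : mk (stab U) = mk U := by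
  have h : (FreeAbelianGroup.of (⟨n + 1, stab U⟩ : GLAll R) - FreeAbelianGroup.of ⟨n, U⟩) ∈
      K1Rel R := AddSubgroup.subset_closure (Or.inr ⟨n, U, rfl⟩)
  have h2 : QuotientAddGroup.mk' (K1Rel R) (FreeAbelianGroup.of (⟨n + 1, stab U⟩ : GLAll R) -
      FreeAbelianGroup.of ⟨n, U⟩) = 0 := (QuotientAddGroup.eq_zero_iff _).2 h
  rw [map_sub, sub_eq_zero] at h2
  exact h2

theorem hom_ext {M : Type*} [AddCommGroup M] {f g : K1 R →+ M}
    (h : ∀ (n : ℕ) (U : (Matrix (Fin n) (Fin n) R)ˣ), f (mk U) = g (mk U)) : f = g := by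
  apply QuotientAddGroup.addMonoidHom_ext
  apply FreeAbelianGroup.lift_ext
  rintro ⟨n, U⟩
  exact h n U

/-- Homomorphisms out of `K₁(R)`. -/
noncomputable def lift {M : Type*} [AddCommGroup M]
    (F : ∀ n : ℕ, (Matrix (Fin n) (Fin n) R)ˣ → M)
    (hmul : ∀ (n : ℕ) (U V : (Matrix (Fin n) (Fin n) R)ˣ), F n (U * V) = F n U + F n V)
    (hstab : ∀ (n : ℕ) (U : (Matrix (Fin n) (Fin n) R)ˣ), F (n + 1) (stab U) = F n U) :
    K1 R →+ M :=
  QuotientAddGroup.lift (K1Rel R) (FreeAbelianGroup.lift fun x : GLAll R => F x.1 x.2) (by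
    rw [K1Rel, AddSubgroup.closure_le]
    rintro z (⟨n, U, V, rfl⟩ | ⟨n, U, rfl⟩)
    · change FreeAbelianGroup.lift _ _ = 0
      rw [map_sub, map_sub, FreeAbelianGroup.lift_apply_of, FreeAbelianGroup.lift_apply_of,
        FreeAbelianGroup.lift_apply_of, hmul]
      abel
    · change FreeAbelianGroup.lift _ _ = 0
      rw [map_sub, FreeAbelianGroup.lift_apply_of, FreeAbelianGroup.lift_apply_of, hstab, sub_self])

theorem lift_mk {M : Type*} [AddCommGroup M]
    (F : ∀ n : ℕ, (Matrix (Fin n) (Fin n) R)ˣ → M)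
    (hmul : ∀ (n : ℕ) (U V : (Matrix (Fin n) (Fin n) R)ˣ), F n (U * V) = F n U + F n V)
    (hstab : ∀ (n : ℕ) (U : (Matrix (Fin n) (Fin n) R)ˣ), F (n + 1) (stab U) = F n U)
    {n : ℕ} (U : (Matrix (Fin n) (Fin n) R)ˣ) : lift F hmul hstab (mk U) = F n U := by
  change FreeAbelianGroup.lift _ _ = _
  rw [FreeAbelianGroup.lift_apply_of]

/-- The image of an invertible matrix under a ring homomorphism. -/
def mapU {ι : Type*} [Fintype ι] [DecidableEq ι] (f : R →+* S) : (Matrix ι ι R)ˣ →* (Matrix ι ι S)ˣ :=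
  Units.map (f.mapMatrix : Matrix ι ι R →+* Matrix ι ι S).toMonoidHom

theorem stab_mapU {n : ℕ} (f : R →+* S) (U : (Matrix (Fin n) (Fin n) R)ˣ) :
    mapU f (stab U) = stab (mapU f U) := by
  apply Units.ext
  change (stabMat U.val).map f = stabMat (U.val.map f)
  rw [stabMat, stabMat, Matrix.reindex_apply, Matrix.reindex_apply, ← Matrix.submatrix_map,
    Matrix.fromBlocks_map]
  congr 2
  · ext i j; simp
  · ext i j; simp
  · ext i j; simp [Matrix.one_apply]

/-- The homomorphism `K₁(R) → K₁(S)` induced by a ring homomorphism `R → S`. -/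
noncomputable def map (f : R →+* S) : K1 R →+ K1 S :=
  lift (fun _ U => mk (mapU f U)) (fun n U V => by rw [map_mul, mk_mul])
    (fun n U => by rw [stab_mapU, mk_stab])

theorem map_mk (f : R →+* S) {n : ℕ} (U : (Matrix (Fin n) (Fin n) R)ˣ) :
    map f (mk U) = mk (mapU f U) := lift_mk _ _ _ U

theorem map_comp (g : S →+* T) (f : R →+* S) : map (g.comp f) = (map g).comp (map f) := by
  apply hom_ext
  intro n U
  rw [AddMonoidHom.comp_apply, map_mk, map_mk, map_mk]
  rfl

theorem map_map (g : S →+* T) (f : R →+* S) (x : K1 R) : map g (map f x) = map (g.comp f) x := by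
  rw [map_comp]
  rfl

/-- The class of the `1 × 1` matrix of a unit. -/
def unit (r : Rˣ) : K1 R := mk (Units.map (Matrix.scalar (Fin 1)).toMonoidHom r)

theorem unit_mul (r s : Rˣ) : unit (r * s) = unit r + unit s := by
  rw [unit, map_mul, mk_mul]
  rfl

theorem map_unit (f : R →+* S) (r : Rˣ) :
    map f (unit r) = unit (Units.map f.toMonoidHom r) := by
  rw [unit, map_mk, unit]
  congr 1
  apply Units.ext
  change ((Matrix.scalar (Fin 1)) (r : R)).map f = (Matrix.scalar (Fin 1)) (f (r : R))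
  ext i j
  simp [Matrix.scalar_apply, Matrix.diagonal_apply, apply_ite f]

end K1

end K1

section Wh

/-- The element `g` of the group as a unit of the group ring. -/
noncomputable def grpUnit (G : Type v) [Group G] : G →* (MonoidAlgebra ℤ G)ˣ :=
  (Units.map (MonoidAlgebra.of ℤ G)).comp toUnits.toMonoidHom

/-- The subgroup of `K₁(ℤ[G])` generated by the classes of `-1` and of the elements of `G`. -/
noncomputable def WhRel (G : Type v) [Group G] : AddSubgroup (K1 (MonoidAlgebra ℤ G)) :=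
  AddSubgroup.closure ({K1.unit (-1)} ∪ Set.range fun g : G => K1.unit (grpUnit G g))

/-- The Whitehead group of `G`. -/
def Wh (G : Type v) [Group G] : Type v := K1 (MonoidAlgebra ℤ G) ⧸ WhRel G

noncomputable instance instWh (G : Type v) [Group G] : AddCommGroup (Wh G) :=
  QuotientAddGroup.Quotient.addCommGroup (WhRel G)

variable {G : Type v} [Group G] {H : Type v} [Group H] {L : Type v} [Group L]

/-- The homomorphism `K₁(ℤ[G]) → K₁(ℤ[H])` induced by a group homomorphism `G → H`. -/
noncomputable def ind (φ : G →* H) : K1 (MonoidAlgebra ℤ G) →+ K1 (MonoidAlgebra ℤ H) :=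
  K1.map (MonoidAlgebra.mapDomainRingHom ℤ φ)

theorem ind_grpUnit (φ : G →* H) (g : G) :
    ind φ (K1.unit (grpUnit G g)) = K1.unit (grpUnit H (φ g)) := by
  rw [ind, K1.map_unit]
  congr 1
  apply Units.ext
  change MonoidAlgebra.mapDomain φ (MonoidAlgebra.single g 1) = MonoidAlgebra.single (φ g) 1
  rw [MonoidAlgebra.mapDomain_single]

theorem ind_neg_one (φ : G →* H) : ind φ (K1.unit (-1)) = K1.unit (-1) := by
  rw [ind, K1.map_unit]
  congr 1
  apply Units.ext
  change (MonoidAlgebra.mapDomainRingHom ℤ φ) (-1) = -1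
  rw [map_neg, map_one]

/-- The homomorphism `Wh(G) → Wh(H)` induced by a group homomorphism `G → H`. -/
noncomputable def Wh.map (φ : G →* H) : Wh G →+ Wh H :=
  QuotientAddGroup.lift (WhRel G) ((QuotientAddGroup.mk' (WhRel H)).comp (ind φ)) (by
    rw [WhRel, AddSubgroup.closure_le]
    rintro z (hz | ⟨g, rfl⟩)
    · change QuotientAddGroup.mk' (WhRel H) (ind φ z) = 0
      rw [Set.mem_singleton_iff] at hz
      rw [hz, ind_neg_one]
      exact (QuotientAddGroup.eq_zero_iff _).2
        (AddSubgroup.subset_closure (Or.inl (Set.mem_singleton _)))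
    · change QuotientAddGroup.mk' (WhRel H) (ind φ (K1.unit (grpUnit G g))) = 0
      rw [ind_grpUnit]
      exact (QuotientAddGroup.eq_zero_iff _).2
        (AddSubgroup.subset_closure (Or.inr ⟨φ g, rfl⟩)))

/-- The projection `K₁(ℤ[G]) → Wh(G)`. -/
noncomputable def Wh.mk (G : Type v) [Group G] : K1 (MonoidAlgebra ℤ G) →+ Wh G :=
  QuotientAddGroup.mk' (WhRel G)

theorem Wh.map_mk (φ : G →* H) (x : K1 (MonoidAlgebra ℤ G)) :
    Wh.map φ (Wh.mk G x) = Wh.mk H (ind φ x) := rfl

theorem Wh.mk_surjective : Function.Surjective (Wh.mk G) := QuotientAddGroup.mk_surjective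

end Wh

section Assembly

/-- The subgroups in a family. -/
abbrev FamSub (G : Type v) [Group G] (𝓕 : Subgroup G → Prop) : Type v := {F : Subgroup G // 𝓕 F}

/-- The homomorphism `F → F'`, `x ↦ g x g⁻¹`, for subgroups with `g F g⁻¹ ⊆ F'`. -/
def conjHom {G : Type v} [Group G] (g : G) (F F' : Subgroup G)
    (h : ∀ x ∈ F, g * x * g⁻¹ ∈ F') : F →* F' where
  toFun x := ⟨g * x * g⁻¹, h x x.2⟩
  map_one' := by ext; simp
  map_mul' x y := by ext; simp [mul_assoc]

variable (G : Type v) [Group G] (𝓕 : Subgroup G → Prop)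

/-- `⨁_F Wh(F)` over the subgroups `F` in the family `𝓕`. -/
abbrev SumWh : Type v := DirectSum (FamSub G 𝓕) (fun F => Wh F.1)

/-- The inclusion of the summand of `F`. -/
noncomputable def inc (F : FamSub G 𝓕) : Wh F.1 →+ SumWh G 𝓕 :=
  open scoped Classical in DirectSum.of (fun F : FamSub G 𝓕 => Wh F.1) F

/-- The relation `c_g(x) - x` of the colimit. -/
noncomputable def rel (F F' : FamSub G 𝓕) (g : G) (h : ∀ x ∈ F.1, g * x * g⁻¹ ∈ F'.1)
    (x : Wh F.1) : SumWh G 𝓕 :=
  inc G 𝓕 F' (Wh.map (conjHom g F.1 F'.1 h) x) - inc G 𝓕 F x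

/-- The relations of the colimit: `c_g(x) = x` for `x ∈ Wh(F)`, `g F g⁻¹ ⊆ F'`. -/
noncomputable def colimRel : AddSubgroup (SumWh G 𝓕) :=
  AddSubgroup.closure {z | ∃ F F' g h x, z = rel G 𝓕 F F' g h x}

/-- The colimit of `Wh(F)` over the subgroups `F` in the family `𝓕`. -/
def ColimWh : Type v := SumWh G 𝓕 ⧸ colimRel G 𝓕

noncomputable instance instColimWh : AddCommGroup (ColimWh G 𝓕) :=
  QuotientAddGroup.Quotient.addCommGroup (colimRel G 𝓕)

/-- The assembly map on the direct sum, given by the inclusions `F → G`. -/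
noncomputable def assemblySum : SumWh G 𝓕 →+ Wh G :=
  open scoped Classical in
  DirectSum.toAddMonoid fun F : FamSub G 𝓕 => Wh.map F.1.subtype

theorem assemblySum_inc (F : FamSub G 𝓕) (x : Wh F.1) :
    assemblySum G 𝓕 (inc G 𝓕 F x) = Wh.map F.1.subtype x := by
  classical
  rw [assemblySum, inc, DirectSum.toAddMonoid_of]

end Assembly

/-- Ring homomorphisms that are conjugate by a unit induce the same map on `K₁`. -/
theorem K1_map_conj {R : Type u} [Ring R] {S : Type v} [Ring S] (f f' : R →+* S) (a b : S)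
    (hab : a * b = 1) (hba : b * a = 1) (h : ∀ r, f' r = a * f r * b) (x : K1 R) :
    K1.map f' x = K1.map f x := by
  suffices H : K1.map f' = K1.map f from congrArg (fun f : K1 R →+ K1 S => f x) H
  apply K1.hom_ext
  intro n U
  rw [K1.map_mk, K1.map_mk]
  let A : Sˣ := ⟨a, b, hab, hba⟩
  let P : (Matrix (Fin n) (Fin n) S)ˣ := Units.map (Matrix.scalar (Fin n)).toMonoidHom A
  have h1 : K1.mapU f' U = P * K1.mapU f U * P⁻¹ := by
    apply Units.ext
    change U.val.map f' = (Matrix.scalar (Fin n)) a * U.val.map f * (Matrix.scalar (Fin n)) b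
    refine Matrix.ext fun i j => ?_
    rw [Matrix.scalar_apply, Matrix.scalar_apply, Matrix.mul_diagonal, Matrix.diagonal_mul]
    exact h _
  have h2 : K1.mk P + K1.mk P⁻¹ = 0 := by
    rw [← K1.mk_mul, mul_inv_cancel]
    have h3 : (K1.mk (1 : (Matrix (Fin n) (Fin n) S)ˣ)) =
        K1.mk (1 : (Matrix (Fin n) (Fin n) S)ˣ) + K1.mk (1 : (Matrix (Fin n) (Fin n) S)ˣ) := by
      rw [← K1.mk_mul, one_mul]
    exact left_eq_add.1 h3
  rw [h1, K1.mk_mul, K1.mk_mul, add_right_comm, h2, zero_add]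

theorem single_inv' {G : Type v} [Group G] (g : G) :
    (MonoidAlgebra.single g (1 : ℤ)) * MonoidAlgebra.single g⁻¹ 1 = 1 := by
  rw [MonoidAlgebra.single_mul_single, mul_inv_cancel, one_mul]
  rfl

theorem single_inv {G : Type v} [Group G] (g : G) :
    (MonoidAlgebra.single g⁻¹ (1 : ℤ)) * MonoidAlgebra.single g 1 = 1 := by
  rw [MonoidAlgebra.single_mul_single, inv_mul_cancel, one_mul]
  rfl

theorem ind_conj {G : Type v} [Group G] (g : G) (F F' : Subgroup G)
    (h : ∀ x ∈ F, g * x * g⁻¹ ∈ F') (x : K1 (MonoidAlgebra ℤ F)) :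
    ind F'.subtype (ind (conjHom g F F' h) x) = ind F.subtype x := by
  rw [ind, ind, ind, K1.map_map]
  apply K1_map_conj _ _ (MonoidAlgebra.single g 1) (MonoidAlgebra.single g⁻¹ 1)
    (single_inv' g) (single_inv g)
  intro r
  induction r using MonoidAlgebra.induction_linear with
  | zero => simp
  | add a b ha hb => rw [map_add, ha, hb, map_add, mul_add, add_mul]
  | single s t =>
    change MonoidAlgebra.mapDomain F'.subtype (MonoidAlgebra.mapDomain (conjHom g F F' h)
      (MonoidAlgebra.single s t)) = MonoidAlgebra.single g 1 *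
        MonoidAlgebra.mapDomain F.subtype (MonoidAlgebra.single s t) *
        MonoidAlgebra.single g⁻¹ 1
    rw [MonoidAlgebra.mapDomain_single, MonoidAlgebra.mapDomain_single,
      MonoidAlgebra.mapDomain_single, MonoidAlgebra.single_mul_single,
      MonoidAlgebra.single_mul_single, one_mul, mul_one]
    rfl

section Assembly2

variable (G : Type v) [Group G] (𝓕 : Subgroup G → Prop)

theorem colimRel_le : colimRel G 𝓕 ≤ (assemblySum G 𝓕).ker := by
  rw [colimRel, AddSubgroup.closure_le]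
  rintro z ⟨F, F', g, h, x, rfl⟩
  change assemblySum G 𝓕 _ = 0
  rw [rel, map_sub, assemblySum_inc, assemblySum_inc]
  obtain ⟨x, rfl⟩ := Wh.mk_surjective x
  rw [Wh.map_mk, Wh.map_mk, Wh.map_mk, ind_conj, sub_self]

/-- The assembly map for the family `𝓕`. -/
noncomputable def assembly : ColimWh G 𝓕 →+ Wh G :=
  QuotientAddGroup.lift (colimRel G 𝓕) (assemblySum G 𝓕) (colimRel_le G 𝓕)

/-- The class in the colimit of an element of `Wh(F)`. -/
noncomputable def cl (F : FamSub G 𝓕) : Wh F.1 →+ ColimWh G 𝓕 :=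
  (QuotientAddGroup.mk' (colimRel G 𝓕)).comp (inc G 𝓕 F)

theorem assembly_cl (F : FamSub G 𝓕) (x : Wh F.1) :
    assembly G 𝓕 (cl G 𝓕 F x) = Wh.map F.1.subtype x := by
  change assemblySum G 𝓕 (inc G 𝓕 F x) = _
  rw [assemblySum_inc]

theorem cl_conj (F F' : FamSub G 𝓕) (g : G) (h : ∀ x ∈ F.1, g * x * g⁻¹ ∈ F'.1) (x : Wh F.1) :
    cl G 𝓕 F' (Wh.map (conjHom g F.1 F'.1 h) x) = cl G 𝓕 F x := by
  have h1 : rel G 𝓕 F F' g h x ∈ colimRel G 𝓕 :=
    AddSubgroup.subset_closure ⟨F, F', g, h, x, rfl⟩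
  have h2 : QuotientAddGroup.mk' (colimRel G 𝓕) (rel G 𝓕 F F' g h x) = 0 :=
    (QuotientAddGroup.eq_zero_iff _).2 h1
  rw [rel, map_sub, sub_eq_zero] at h2
  exact h2

end Assembly2

/-- The finite subgroups. -/
def FinSub {G : Type v} [Group G] (F : Subgroup G) : Prop := Finite F

end Pool.Agent.H95.WH

end

section

/-!
# Basic facts on `K₁`

`K1.cls U` is the class of an invertible matrix `U` indexed by any finite type.

## Paper proofs

`cls_reindex`: two enumerations of the index type differ by a permutation `σ` of `Fin n`; the two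
matrices are conjugate by a permutation matrix `P`, and `mk (P U P⁻¹) = mk U` by `mk_mul`.
`cls_stab`: `cls (fromBlocks U 0 0 1) = cls U` by induction on the number of elements of the second
index type (`mk_stab`, `cls_reindex`).
`cls_unip`: `fromBlocks 1 X 0 1` has class `0`: after adding a third block `κ` (`cls_stab`) it is the
commutator of `e₁₃(X)` and `e₃₂(1)`.
`cls_upper`: `fromBlocks U B 0 W = fromBlocks U 0 0 1 * fromBlocks 1 0 0 W * fromBlocks 1 (U⁻¹ B) 0 1`
and `fromBlocks 1 0 0 W` is a reindexing of `fromBlocks W 0 0 1`. `cls_lower` likewise (or by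
reindexing along `Sum.swap`).
`cls_vas` (Vaserstein): `fromBlocks (1+ab) a 0 1 * fromBlocks 1 0 (-b) 1 = fromBlocks 1 a (-b) 1
= fromBlocks 1 0 (-b) 1 * fromBlocks 1 a 0 (1+ba)`.
`cls_conj`: `U = 1 + P ((U' - 1) Q)`, `U' = 1 + ((U' - 1) Q) P` and `cls_vas` (here `U = P U' Q`,
`P Q = 1`, `Q P = 1`).
`exists_mk`: the set of the elements `mk U` is closed under addition (blocks) and negation
(inverses), contains `0`, and generates.
-/

set_option autoImplicit false

open Matrix

universe u v

namespace Pool.Agent.H95.WH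

variable {R : Type u} [Ring R] {S : Type v} [Ring S]
  {ι κ : Type*} [Fintype ι] [DecidableEq ι] [Fintype κ] [DecidableEq κ]

/-- Reindexing of invertible matrices. -/
def reU (e : ι ≃ κ) : (Matrix ι ι R)ˣ →* (Matrix κ κ R)ˣ where
  toFun U :=
    { val := U.val.submatrix e.symm e.symm
      inv := U.inv.submatrix e.symm e.symm
      val_inv := by rw [Matrix.submatrix_mul_equiv, U.val_inv, Matrix.submatrix_one_equiv]
      inv_val := by rw [Matrix.submatrix_mul_equiv, U.inv_val, Matrix.submatrix_one_equiv] }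
  map_one' := by
    apply Units.ext
    exact Matrix.submatrix_one_equiv e.symm
  map_mul' U V := by
    apply Units.ext
    exact (Matrix.submatrix_mul_equiv _ _ _ _ _).symm

theorem reU_val (e : ι ≃ κ) (U : (Matrix ι ι R)ˣ) :
    (reU e U : Matrix κ κ R) = (U : Matrix ι ι R).submatrix e.symm e.symm := rfl

/-- The block diagonal matrix `diag(U, W)`. -/
private def diagU (U : (Matrix ι ι R)ˣ) (W : (Matrix κ κ R)ˣ) :
    (Matrix (ι ⊕ κ) (ι ⊕ κ) R)ˣ where
  val := Matrix.fromBlocks U.val 0 0 W.val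
  inv := Matrix.fromBlocks U.inv 0 0 W.inv
  val_inv := by
    rw [Matrix.fromBlocks_multiply]
    simp only [add_zero, zero_add, Matrix.mul_zero, Matrix.zero_mul,
      U.val_inv, W.val_inv, Matrix.fromBlocks_one]
  inv_val := by
    rw [Matrix.fromBlocks_multiply]
    simp only [add_zero, zero_add, Matrix.mul_zero, Matrix.zero_mul,
      U.inv_val, W.inv_val, Matrix.fromBlocks_one]

private theorem diagU_val (U : (Matrix ι ι R)ˣ) (W : (Matrix κ κ R)ˣ) :
    (diagU U W).val = Matrix.fromBlocks U.val 0 0 W.val := rfl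

private theorem diagU_mul (U U' : (Matrix ι ι R)ˣ) (W W' : (Matrix κ κ R)ˣ) :
    diagU (U * U') (W * W') = diagU U W * diagU U' W' := by
  apply Units.ext
  rw [Units.val_mul, diagU_val, diagU_val, diagU_val, Matrix.fromBlocks_multiply]
  simp only [Units.val_mul, Matrix.mul_zero, Matrix.zero_mul, add_zero, zero_add]

/-- The unipotent matrix `(1 X; 0 1)`. -/
private def unipU (X : Matrix ι κ R) : (Matrix (ι ⊕ κ) (ι ⊕ κ) R)ˣ where
  val := Matrix.fromBlocks 1 X 0 1
  inv := Matrix.fromBlocks 1 (-X) 0 1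
  val_inv := by
    rw [Matrix.fromBlocks_multiply]
    simp only [Matrix.mul_zero, Matrix.zero_mul, Matrix.mul_one, Matrix.one_mul, add_zero,
      zero_add, neg_add_cancel, Matrix.fromBlocks_one]
  inv_val := by
    rw [Matrix.fromBlocks_multiply]
    simp only [Matrix.mul_zero, Matrix.zero_mul, Matrix.mul_one, Matrix.one_mul, add_zero,
      zero_add, add_neg_cancel, Matrix.fromBlocks_one]

private theorem unipU_val (X : Matrix ι κ R) :
    (unipU X).val = Matrix.fromBlocks 1 X 0 1 := rfl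

/-- The unipotent matrix `(1 0; X 1)`. -/
private def unilU (X : Matrix κ ι R) : (Matrix (ι ⊕ κ) (ι ⊕ κ) R)ˣ where
  val := Matrix.fromBlocks 1 0 X 1
  inv := Matrix.fromBlocks 1 0 (-X) 1
  val_inv := by
    rw [Matrix.fromBlocks_multiply]
    simp only [Matrix.mul_zero, Matrix.zero_mul, Matrix.mul_one, Matrix.one_mul, add_zero,
      zero_add, add_neg_cancel, Matrix.fromBlocks_one]
  inv_val := by
    rw [Matrix.fromBlocks_multiply]
    simp only [Matrix.mul_zero, Matrix.zero_mul, Matrix.mul_one, Matrix.one_mul, add_zero,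
      zero_add, neg_add_cancel, Matrix.fromBlocks_one]

private theorem unilU_val (X : Matrix κ ι R) :
    (unilU X).val = Matrix.fromBlocks 1 0 X 1 := rfl

/-- A permutation matrix. -/
private def permU {n : ℕ} (σ : Fin n ≃ Fin n) : (Matrix (Fin n) (Fin n) R)ˣ where
  val := (1 : Matrix (Fin n) (Fin n) R).submatrix σ.symm id
  inv := (1 : Matrix (Fin n) (Fin n) R).submatrix id σ.symm
  val_inv := by
    rw [← Matrix.submatrix_mul _ _ _ id _ Function.bijective_id, Matrix.one_mul,
      Matrix.submatrix_one_equiv]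
  inv_val := by
    rw [← Matrix.submatrix_mul _ _ _ _ _ σ.symm.bijective, Matrix.one_mul,
      Matrix.submatrix_id_id]

private theorem mk_perm {n : ℕ} (σ : Fin n ≃ Fin n) (U : (Matrix (Fin n) (Fin n) R)ˣ) :
    K1.mk (reU σ U) = K1.mk U := by
  have h1 : reU σ U = permU σ * U * (permU σ)⁻¹ := by
    apply Units.ext
    change U.val.submatrix σ.symm σ.symm =
      (1 : Matrix (Fin n) (Fin n) R).submatrix σ.symm id * U.val *
        (1 : Matrix (Fin n) (Fin n) R).submatrix id σ.symm
    have h2 : (1 : Matrix (Fin n) (Fin n) R).submatrix σ.symm id * U.val =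
        U.val.submatrix σ.symm id := by
      have h3 := Matrix.submatrix_mul (1 : Matrix (Fin n) (Fin n) R) U.val σ.symm id id
        Function.bijective_id
      rw [Matrix.one_mul, Matrix.submatrix_id_id] at h3
      exact h3.symm
    have h4 : U.val.submatrix σ.symm id * (1 : Matrix (Fin n) (Fin n) R).submatrix id σ.symm =
        U.val.submatrix σ.symm σ.symm := by
      have h3 := Matrix.submatrix_mul U.val (1 : Matrix (Fin n) (Fin n) R) σ.symm id σ.symm
        Function.bijective_id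
      rw [Matrix.mul_one] at h3
      exact h3.symm
    rw [h2, h4]
  have h2 : K1.mk (permU σ : (Matrix (Fin n) (Fin n) R)ˣ) +
      K1.mk (permU σ : (Matrix (Fin n) (Fin n) R)ˣ)⁻¹ = 0 := by
    rw [← K1.mk_mul, mul_inv_cancel]
    have h3 : (K1.mk (1 : (Matrix (Fin n) (Fin n) R)ˣ)) =
        K1.mk (1 : (Matrix (Fin n) (Fin n) R)ˣ) + K1.mk (1 : (Matrix (Fin n) (Fin n) R)ˣ) := by
      rw [← K1.mk_mul, one_mul]
    exact left_eq_add.1 h3
  rw [h1, K1.mk_mul, K1.mk_mul, add_right_comm, h2, zero_add]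

private theorem mk_equiv {m n : ℕ} (e : Fin m ≃ Fin n) (U : (Matrix (Fin m) (Fin m) R)ˣ) :
    K1.mk (reU e U) = K1.mk U := by
  obtain rfl : m = n := by simpa using Fintype.card_congr e
  exact mk_perm e U

private theorem reU_trans {μ : Type*} [Fintype μ] [DecidableEq μ] (e : ι ≃ κ) (f : κ ≃ μ)
    (U : (Matrix ι ι R)ˣ) : reU (e.trans f) U = reU f (reU e U) := by
  apply Units.ext
  rfl

private theorem reU_trans_symm_aux (e : ι ≃ κ) (U : (Matrix κ κ R)ˣ) :
    reU e (reU e.symm U) = U := by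
  apply Units.ext
  rw [reU_val, reU_val]
  ext i j
  simp

private theorem reU_diagU {ι' κ' : Type*} [Fintype ι'] [DecidableEq ι'] [Fintype κ']
    [DecidableEq κ'] (e : ι ≃ ι') (f : κ ≃ κ') (U : (Matrix ι ι R)ˣ) (W : (Matrix κ κ R)ˣ) :
    reU (Equiv.sumCongr e f) (diagU U W) = diagU (reU e U) (reU f W) := by
  apply Units.ext
  rw [reU_val, diagU_val, diagU_val]
  ext i j
  rcases i with i | i <;> rcases j with j | j <;> rfl

private theorem reU_assoc {μ : Type*} [Fintype μ] [DecidableEq μ] (U : (Matrix ι ι R)ˣ)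
    (V : (Matrix κ κ R)ˣ) (W : (Matrix μ μ R)ˣ) :
    reU (Equiv.sumAssoc ι κ μ) (diagU (diagU U V) W) = diagU U (diagU V W) := by
  apply Units.ext
  rw [reU_val, diagU_val, diagU_val]
  ext i j
  rcases i with i | i | i <;> rcases j with j | j | j <;> rfl

private theorem reU_comm (U : (Matrix ι ι R)ˣ) (V : (Matrix κ κ R)ˣ) :
    reU (Equiv.sumComm ι κ) (diagU U V) = diagU V U := by
  apply Units.ext
  rw [reU_val, diagU_val, diagU_val]
  ext i j
  rcases i with i | i <;> rcases j with j | j <;> rfl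

private theorem diagU_one_one : diagU (1 : (Matrix ι ι R)ˣ) (1 : (Matrix κ κ R)ˣ) = 1 := by
  apply Units.ext
  exact Matrix.fromBlocks_one

namespace K1

/-- The class of an invertible matrix. -/
noncomputable def cls (U : (Matrix ι ι R)ˣ) : K1 R := mk (reU (Fintype.equivFin ι) U)

theorem cls_mk {n : ℕ} (U : (Matrix (Fin n) (Fin n) R)ˣ) : cls U = mk U := by
  rw [cls]
  exact mk_equiv _ U

theorem cls_mul (U V : (Matrix ι ι R)ˣ) : cls (U * V) = cls U + cls V := by
  rw [cls, map_mul, mk_mul]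
  rfl

theorem cls_one : cls (1 : (Matrix ι ι R)ˣ) = 0 := by
  have h := cls_mul (1 : (Matrix ι ι R)ˣ) 1
  rw [one_mul] at h
  exact left_eq_add.1 h

theorem cls_inv (U : (Matrix ι ι R)ˣ) : cls U⁻¹ = - cls U := by
  have h := cls_mul U⁻¹ U
  rw [inv_mul_cancel, cls_one] at h
  exact eq_neg_of_add_eq_zero_left h.symm

theorem cls_pow (U : (Matrix ι ι R)ˣ) (m : ℕ) : cls (U ^ m) = m • cls U := by
  induction m with
  | zero => rw [pow_zero, cls_one, zero_smul]
  | succ m ih => rw [pow_succ, cls_mul, ih, succ_nsmul]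

theorem cls_reindex (e : ι ≃ κ) (U : (Matrix ι ι R)ˣ) : cls (reU e U) = cls U := by
  have h : (Fintype.equivFin ι).trans (((Fintype.equivFin ι).symm.trans e).trans
      (Fintype.equivFin κ)) = e.trans (Fintype.equivFin κ) := by
    apply Equiv.ext
    intro i
    simp
  rw [cls, cls, ← mk_equiv (((Fintype.equivFin ι).symm.trans e).trans (Fintype.equivFin κ))
    (reU (Fintype.equivFin ι) U), ← reU_trans, ← reU_trans, h]

private theorem cls_diagU_fin_one (U : (Matrix ι ι R)ˣ) :
    cls (diagU U (1 : (Matrix (Fin 1) (Fin 1) R)ˣ)) = cls U := by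
  have h1 : cls U = mk (stab (reU (Fintype.equivFin ι) U)) := by
    rw [mk_stab, cls]
  have h2 : stab (reU (Fintype.equivFin ι) U) =
      reU ((Equiv.sumCongr (Fintype.equivFin ι) (Equiv.refl (Fin 1))).trans finSumFinEquiv)
        (diagU U (1 : (Matrix (Fin 1) (Fin 1) R)ˣ)) := by
    rw [reU_trans, reU_diagU]
    apply Units.ext
    rfl
  rw [h1, h2, ← cls_mk, cls_reindex]

private theorem cls_diagU_fin (U : (Matrix ι ι R)ˣ) (k : ℕ) :
    cls (diagU U (1 : (Matrix (Fin k) (Fin k) R)ˣ)) = cls U := by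
  induction k with
  | zero =>
    have h : diagU U (1 : (Matrix (Fin 0) (Fin 0) R)ˣ) =
        reU (Equiv.sumEmpty ι (Fin 0)).symm U := by
      apply Units.ext
      rw [reU_val, diagU_val]
      ext i j
      rcases i with i | i
      · rcases j with j | j
        · rfl
        · exact j.elim0
      · exact i.elim0
    rw [h, cls_reindex]
  | succ k ih =>
    have h : diagU U (1 : (Matrix (Fin (k + 1)) (Fin (k + 1)) R)ˣ) =
        reU ((Equiv.sumAssoc ι (Fin k) (Fin 1)).trans
          (Equiv.sumCongr (Equiv.refl ι) finSumFinEquiv))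
          (diagU (diagU U (1 : (Matrix (Fin k) (Fin k) R)ˣ))
            (1 : (Matrix (Fin 1) (Fin 1) R)ˣ)) := by
      rw [reU_trans, reU_assoc, diagU_one_one, reU_diagU, map_one]
      rfl
    rw [h, cls_reindex, cls_diagU_fin_one, ih]

private theorem cls_diagU_one (U : (Matrix ι ι R)ˣ) :
    cls (diagU U (1 : (Matrix κ κ R)ˣ)) = cls U := by
  have h : reU (Equiv.sumCongr (Equiv.refl ι) (Fintype.equivFin κ))
      (diagU U (1 : (Matrix κ κ R)ˣ)) =
      diagU U (1 : (Matrix (Fin (Fintype.card κ)) (Fin (Fintype.card κ)) R)ˣ) := by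
    rw [reU_diagU, map_one]
    rfl
  rw [← cls_reindex (Equiv.sumCongr (Equiv.refl ι) (Fintype.equivFin κ)), h, cls_diagU_fin]

private theorem cls_diagU (U : (Matrix ι ι R)ˣ) (W : (Matrix κ κ R)ˣ) :
    cls (diagU U W) = cls U + cls W := by
  have h : diagU U W = diagU U 1 * diagU 1 W := by
    rw [← diagU_mul, mul_one, one_mul]
  rw [h, cls_mul, cls_diagU_one, ← reU_comm W 1, cls_reindex, cls_diagU_one]

private theorem cls_com {μ : Type*} [Fintype μ] [DecidableEq μ] (C : Matrix μ κ R)
    (D : Matrix κ μ R) (hDC : D * C = 0) (W : (Matrix μ μ R)ˣ) (hW : W.val = 1 + C * D) :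
    cls W = 0 := by
  have h : diagU W (1 : (Matrix κ κ R)ˣ) =
      unipU C * unilU D * (unipU C)⁻¹ * (unilU D)⁻¹ := by
    rw [eq_mul_inv_iff_mul_eq, eq_mul_inv_iff_mul_eq]
    apply Units.ext
    rw [Units.val_mul, Units.val_mul, Units.val_mul, diagU_val, unilU_val, unipU_val,
      Matrix.fromBlocks_multiply, Matrix.fromBlocks_multiply, Matrix.fromBlocks_multiply, hW]
    simp only [Units.val_one, Matrix.mul_zero, Matrix.zero_mul, Matrix.mul_one, Matrix.one_mul,
      add_zero, zero_add, Matrix.add_mul, Matrix.mul_assoc, hDC]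
  rw [← cls_diagU_one (κ := κ) W, h, cls_mul, cls_mul, cls_mul, cls_inv, cls_inv]
  abel

theorem cls_stab (U : (Matrix ι ι R)ˣ) (V : (Matrix (ι ⊕ κ) (ι ⊕ κ) R)ˣ)
    (hV : V.val = Matrix.fromBlocks U.val 0 0 1) : cls V = cls U := by
  have h : V = diagU U (1 : (Matrix κ κ R)ˣ) := Units.ext hV
  rw [h, cls_diagU_one]

theorem cls_unip (X : Matrix ι κ R) (V : (Matrix (ι ⊕ κ) (ι ⊕ κ) R)ˣ)
    (hV : V.val = Matrix.fromBlocks 1 X 0 1) : cls V = 0 := by
  refine cls_com (Matrix.fromRows X (0 : Matrix κ κ R)) (Matrix.fromCols (0 : Matrix κ ι R) 1)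
    ?_ V ?_
  · rw [Matrix.fromCols_mul_fromRows, Matrix.zero_mul, Matrix.mul_zero, add_zero]
  · rw [hV, Matrix.fromRows_mul_fromCols, ← Matrix.fromBlocks_one, Matrix.fromBlocks_add]
    simp only [Matrix.mul_zero, Matrix.mul_one, add_zero, zero_add]

theorem cls_upper (U : (Matrix ι ι R)ˣ) (W : (Matrix κ κ R)ˣ) (B : Matrix ι κ R)
    (V : (Matrix (ι ⊕ κ) (ι ⊕ κ) R)ˣ) (hV : V.val = Matrix.fromBlocks U.val B 0 W.val) :
    cls V = cls U + cls W := by
  have h : V = diagU U W * unipU ((U⁻¹).val * B) := by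
    apply Units.ext
    rw [Units.val_mul, hV, diagU_val, unipU_val, Matrix.fromBlocks_multiply]
    simp only [Matrix.mul_zero, Matrix.zero_mul, Matrix.mul_one, add_zero, zero_add]
    rw [← Matrix.mul_assoc, Units.mul_inv, Matrix.one_mul]
  rw [h, cls_mul, cls_diagU, cls_unip _ _ (unipU_val _), add_zero]

theorem cls_lower (U : (Matrix ι ι R)ˣ) (W : (Matrix κ κ R)ˣ) (B : Matrix κ ι R)
    (V : (Matrix (ι ⊕ κ) (ι ⊕ κ) R)ˣ) (hV : V.val = Matrix.fromBlocks U.val 0 B W.val) :
    cls V = cls U + cls W := by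
  rw [← cls_reindex (Equiv.sumComm ι κ) V, add_comm]
  refine cls_upper W U B _ ?_
  rw [reU_val, hV]
  ext i j
  rcases i with i | i <;> rcases j with j | j <;> rfl

/-- Vaserstein's identity. -/
theorem cls_vas (a : Matrix ι κ R) (b : Matrix κ ι R) (U : (Matrix ι ι R)ˣ)
    (V : (Matrix κ κ R)ˣ) (hU : U.val = 1 + a * b) (hV : V.val = 1 + b * a) :
    cls U = cls V := by
  have h1 : diagU U (1 : (Matrix κ κ R)ˣ) * unipU ((U⁻¹).val * a) * unilU (-b) =
      unilU (-b) * (diagU (1 : (Matrix ι ι R)ˣ) V * unipU a) := by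
    apply Units.ext
    simp only [Units.val_mul, diagU_val, unipU_val, unilU_val, Matrix.fromBlocks_multiply,
      Units.val_one, Matrix.mul_zero, Matrix.zero_mul, Matrix.mul_one, Matrix.one_mul, add_zero,
      zero_add, hV, Matrix.mul_neg, Matrix.neg_mul]
    rw [← Matrix.mul_assoc U.val, Units.mul_inv, Matrix.one_mul, hU, add_neg_cancel_right,
      ← add_assoc, neg_add_cancel_comm]
  have h2 := congrArg cls h1
  have h3 : cls (unipU ((U⁻¹).val * a)) = 0 := cls_unip _ _ (unipU_val _)
  have h4 : cls (unipU a) = 0 := cls_unip _ _ (unipU_val _)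
  have h5 : cls (unilU (-b)) = 0 := by
    have h6 := cls_lower (1 : (Matrix ι ι R)ˣ) (1 : (Matrix κ κ R)ˣ) (-b) (unilU (-b))
      (unilU_val _)
    rw [h6, cls_one, cls_one, add_zero]
  rw [cls_mul, cls_mul, cls_mul, cls_mul, cls_diagU, cls_diagU, cls_one, cls_one, h3, h4, h5] at h2
  simpa using h2

theorem cls_conj (P : Matrix ι κ R) (Q : Matrix κ ι R) (hPQ : P * Q = 1) (hQP : Q * P = 1)
    (U : (Matrix ι ι R)ˣ) (V : (Matrix κ κ R)ˣ) (h : U.val = P * V.val * Q) :
    cls U = cls V := by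
  refine cls_vas P ((V.val - 1) * Q) U V ?_ ?_
  · rw [h, Matrix.sub_mul, Matrix.mul_sub, Matrix.one_mul, hPQ, ← Matrix.mul_assoc]
    abel
  · rw [Matrix.mul_assoc, hQP, Matrix.mul_one]
    abel

theorem map_cls (f : R →+* S) (U : (Matrix ι ι R)ˣ) : map f (cls U) = cls (mapU f U) := by
  rw [cls, map_mk, cls]
  rfl

/-- The elementary matrix `1 + x E_{ij}`, `i ≠ j`, has class zero. -/
theorem cls_transvection {i j : ι} (hij : i ≠ j) (x : R) (U : (Matrix ι ι R)ˣ)
    (hU : U.val = 1 + Matrix.single i j x) : cls U = 0 := by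
  refine cls_com (κ := Fin 1) (Matrix.single i 0 x) (Matrix.single 0 j 1) ?_ U ?_
  · exact Matrix.single_mul_single_of_ne _ _ _ _ hij.symm _
  · rw [Matrix.single_mul_single_same, mul_one, hU]

/-- The class of a diagonal matrix. -/
theorem cls_diagonal (d : ι → Rˣ) (U : (Matrix ι ι R)ˣ)
    (hU : U.val = Matrix.diagonal fun i => (d i : R)) : cls U = ∑ i, unit (d i) := by
  have key : ∀ (n : ℕ) (d : Fin n → Rˣ) (U : (Matrix (Fin n) (Fin n) R)ˣ)
      (_ : U.val = Matrix.diagonal fun i => (d i : R)), cls U = ∑ i, unit (d i) := by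
    intro n
    induction n with
    | zero =>
      intro d U _
      have h : U = 1 := Units.ext (Subsingleton.elim _ _)
      rw [h, cls_one, Finset.univ_eq_empty, Finset.sum_empty]
    | succ n ih =>
      intro d U hU
      let U1 : (Matrix (Fin n) (Fin n) R)ˣ :=
        { val := Matrix.diagonal fun i => (d i.castSucc : R)
          inv := Matrix.diagonal fun i => ((d i.castSucc)⁻¹ : Rˣ)
          val_inv := by
            rw [Matrix.diagonal_mul_diagonal, ← Matrix.diagonal_one]
            congr 1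
            funext i
            exact Units.mul_inv _
          inv_val := by
            rw [Matrix.diagonal_mul_diagonal, ← Matrix.diagonal_one]
            congr 1
            funext i
            exact Units.inv_mul _ }
      let W : (Matrix (Fin 1) (Fin 1) R)ˣ :=
        Units.map (Matrix.scalar (Fin 1)).toMonoidHom (d (Fin.last n))
      have h1 : reU (finSumFinEquiv (m := n) (n := 1)) (diagU U1 W) = U := by
        rw [← reU_trans_symm_aux (finSumFinEquiv (m := n) (n := 1)) U]
        congr 1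
        apply Units.ext
        rw [diagU_val, reU_val, hU]
        ext i j
        rcases i with i | i
        · rcases j with j | j
          · change Matrix.diagonal (fun i => (d i.castSucc : R)) i j =
              Matrix.diagonal (fun i => (d i : R)) i.castSucc j.castSucc
            rw [Matrix.diagonal_apply, Matrix.diagonal_apply]
            simp only [Fin.castSucc_inj]
          · change (0 : R) = Matrix.diagonal (fun i => (d i : R)) i.castSucc (Fin.natAdd n j)
            rw [Matrix.diagonal_apply_ne]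
            intro h
            have := congrArg Fin.val h
            simp at this
            omega
        · rcases j with j | j
          · change (0 : R) = Matrix.diagonal (fun i => (d i : R)) (Fin.natAdd n i) j.castSucc
            rw [Matrix.diagonal_apply_ne]
            intro h
            have := congrArg Fin.val h
            simp at this
            omega
          · change Matrix.diagonal (fun _ => (d (Fin.last n) : R)) i j =
              Matrix.diagonal (fun i => (d i : R)) (Fin.natAdd n i) (Fin.natAdd n j)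
            obtain rfl : i = 0 := Subsingleton.elim _ _
            obtain rfl : j = 0 := Subsingleton.elim _ _
            rw [Matrix.diagonal_apply_eq, Matrix.diagonal_apply_eq]
            rfl
      rw [← h1, cls_reindex, cls_diagU, Fin.sum_univ_castSucc, ih _ U1 rfl, cls_mk]
      rfl
  rw [← cls_reindex (Fintype.equivFin ι) U,
    key _ (fun i => d ((Fintype.equivFin ι).symm i)) _ ?_]
  · exact Equiv.sum_comp (Fintype.equivFin ι).symm fun i => unit (d i)
  · rw [reU_val, hU]
    ext i j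
    rw [Matrix.submatrix_apply, Matrix.diagonal_apply, Matrix.diagonal_apply]
    simp only [EmbeddingLike.apply_eq_iff_eq]

theorem exists_mk (x : K1 R) : ∃ (n : ℕ) (U : (Matrix (Fin n) (Fin n) R)ˣ), x = mk U := by
  obtain ⟨y, rfl⟩ := QuotientAddGroup.mk'_surjective (K1Rel R) x
  induction y using FreeAbelianGroup.induction_on with
  | zero =>
    refine ⟨0, 1, ?_⟩
    rw [← cls_mk, cls_one, map_zero]
    rfl
  | of z => exact ⟨z.1, z.2, rfl⟩
  | neg z ih =>
    obtain ⟨n, U, hU⟩ := ih
    refine ⟨n, U⁻¹, ?_⟩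
    rw [← cls_mk, cls_inv, cls_mk, ← hU, map_neg]
    rfl
  | add y z ihy ihz =>
    obtain ⟨n, U, hU⟩ := ihy
    obtain ⟨m, V, hV⟩ := ihz
    refine ⟨_, reU (Fintype.equivFin _) (diagU U V), ?_⟩
    change _ = cls (diagU U V)
    rw [cls_diagU, cls_mk, cls_mk, ← hU, ← hV, map_add]
    rfl

end K1

end Pool.Agent.H95.WH

end
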