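import Pool.Agent.H71.TCZ.M01
import Pool.Agent.H71.TCZ.M02
import Pool.Agent.H71.TCZ.M06
import Pool.Agent.H71.TCZ.M17
import Pool.Agent.H71.TCZ.M22

/-! The parts of this file: H71.FQ.NuE, H71.FQ.Nu_1, H39.KL.Tau, H71.DB.Coc. -/

section

/-!
# Project FQ: invariant measures on a group, `exists_nu`

A set `X` with an action of a group `Z` and a permutation `σ` commuting with it: the vertex maps
`X → Z →₀ ℤ` of constant mass `D`, `Z`-equivariant and `σ`-invariant.

PROOF. `FQ.exists_mset` gives finite sets `M x` with the same equivariance whose cardinality divides `D`;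
`ν x` is `D / card (M x)` times the sum of the point masses.
-/

set_option autoImplicit false

universe u v w

namespace Pool.Agent.H71.FQ

open Finset

theorem mass_sum_single {Z : Type*} (M : Finset Z) (r : ℤ) :
    mass (∑ z ∈ M, Finsupp.single z r) = M.card * r := by
  classical
  rw [mass]
  induction M using Finset.induction_on with
  | empty => simp
  | insert a s ha ih =>
      rw [sum_insert ha, Finsupp.sum_add_index' (by simp) (by simp), ih, Finsupp.sum_single_index rfl,
        card_insert_of_notMem ha]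
      push_cast
      ring

theorem exists_nu {X Z : Type*} [Group Z] [MulAction Z X] (σ : Equiv.Perm X)
    (hσ : ∀ (z : Z) (x : X), σ (z • x) = z • σ x) (D : ℕ) (hD : 0 < D)
    (hfin : ∀ x : X, {z : Z | ∃ j : ℤ, z • x = (σ ^ j) x}.Finite)
    (hcard : ∀ x : X, Nat.card {z : Z | ∃ j : ℤ, z • x = (σ ^ j) x} ∣ D) :
    ∃ ν : X → Z →₀ ℤ, (∀ x, mass (ν x) = D) ∧
      (∀ (z : Z) (x : X), ν (z • x) = (ν x).mapDomain fun y => z * y) ∧ ∀ x, ν (σ x) = ν x := by
  obtain ⟨M, h1, h2, h3, h4⟩ := _root_.FQ.exists_mset (Z := Z) (X := X) hσ (D := D) hfin hcard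
  refine ⟨fun x => ∑ z ∈ M x, Finsupp.single z ((D / (M x).card : ℕ) : ℤ), ?_, ?_, ?_⟩
  · intro x
    rw [mass_sum_single, ← Nat.cast_mul, Nat.mul_div_cancel' (h3 x)]
  · intro z x
    simp only [h1, card_map, sum_map]
    rw [Finsupp.mapDomain_finset_sum]
    refine sum_congr rfl fun y _ => ?_
    rw [Finsupp.mapDomain_single]
    rfl
  · intro x
    simp only [h2]

end Pool.Agent.H71.FQ

end

section

/-!
# Project FQ: invariant measures on a group

A set `X` with an action of a group `Z` and a permutation `σ` commuting with it. `exists_nu`: the vertex maps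
`X → Z →₀ ℤ` of constant mass `D`, `Z`-equivariant and `σ`-invariant.

PROOF of `exists_nu`. Choose a representative `ρ` of each orbit of `Z × ⟨σ⟩`; for `x = z₀ σ ^ j ρ` let `ν x` be
`D / card S` times the sum of the point masses at the `z₀ s`, `s ∈ S = {z : ∃ j, z ρ = σ ^ j ρ}` (a subgroup).

PROOF of `card_stab`. `sig c ^ q = c`, the action of the centralizer on tuples is free, hence `z ^ q = c ^ j` for
`z x = sig ^ j x`; `{(z, j)}` embeds in `ℤ` by `j`, contains `(1, q * orderOf c)`, hence is generated by some `(z₁, d)`,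
the set `{z}` is the cyclic subgroup generated by `z₁`, whose order divides `q * orderOf c`, and its `p`-part divides
`p ^ r`.
-/

set_option autoImplicit false

universe u v w

namespace Pool.Agent.H71.FQ

section

variable {G : Type u} [Group G]

theorem sig_lmul {q : ℕ} (c g : G) (h : g * c = c * g) (v : Fin q → G) :
    sig q c (lmul g v) = lmul g (sig q c v) := by
  funext t
  show sig q c (lmul g v) t = g * sig q c v t
  unfold sig
  by_cases ht : (t : ℕ) + 1 < q
  · rw [dif_pos ht, dif_pos ht]
    rfl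
  · rw [dif_neg ht, dif_neg ht, ← mul_assoc, h, mul_assoc]
    rfl

/-- the iterates of the shift -/
theorem sig_iterate_le {q : ℕ} (c : G) (v : Fin q → G) (k : ℕ) (hk : k ≤ q) (t : Fin q) :
    ((sig q c)^[k] v) t = if h : (t : ℕ) + k < q then v ⟨(t : ℕ) + k, h⟩ else
      c * v ⟨(t : ℕ) + k - q, by have := t.2; omega⟩ := by
  induction k generalizing t with
  | zero =>
    rw [Function.iterate_zero, id, dif_pos (show (t : ℕ) + 0 < q from t.2)]
    rfl
  | succ k ih =>
    have hk' : k ≤ q := by omega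
    rw [Function.iterate_succ_apply']
    show sig q c ((sig q c)^[k] v) t = _
    unfold sig
    by_cases ht : (t : ℕ) + 1 < q
    · rw [dif_pos ht]
      have h1 := ih hk' ⟨(t : ℕ) + 1, ht⟩
      unfold sig at h1
      rw [h1]
      by_cases h2 : (t : ℕ) + (k + 1) < q
      · have h3 : ((⟨(t : ℕ) + 1, ht⟩ : Fin q) : ℕ) + k < q := by
          show (t : ℕ) + 1 + k < q
          omega
        rw [dif_pos h3, dif_pos h2]
        congr 1
        ext
        show (t : ℕ) + 1 + k = (t : ℕ) + (k + 1)
        omega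
      · have h3 : ¬ ((⟨(t : ℕ) + 1, ht⟩ : Fin q) : ℕ) + k < q := by
          show ¬ (t : ℕ) + 1 + k < q
          omega
        rw [dif_neg h3, dif_neg h2]
        congr 2
        ext
        show (t : ℕ) + 1 + k - q = (t : ℕ) + (k + 1) - q
        omega
    · rw [dif_neg ht]
      have h1 := ih hk' ⟨0, t.pos⟩
      unfold sig at h1
      rw [h1]
      have ht2 := t.2
      have h3 : ((⟨0, t.pos⟩ : Fin q) : ℕ) + k < q := by
        show 0 + k < q
        omega
      have h2 : ¬ (t : ℕ) + (k + 1) < q := by omega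
      rw [dif_pos h3, dif_neg h2]
      congr 2
      ext
      show 0 + k = (t : ℕ) + (k + 1) - q
      omega

/-- the `q`-th power of the shift is the multiplication by `c` -/
theorem sig_iterate (q : ℕ) (c : G) (v : Fin q → G) : (sig q c)^[q] v = lmul c v := by
  funext t
  rw [sig_iterate_le c v q le_rfl t, dif_neg (by omega)]
  show c * v _ = c * v t
  congr 2
  ext
  show (t : ℕ) + q - q = t
  omega

theorem sig_bijective (q : ℕ) (c : G) : Function.Bijective (sig q c) := by
  rcases Nat.eq_zero_or_pos q with hq | hq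
  · subst hq
    exact ⟨fun a b _ => Subsingleton.elim a b, fun b => ⟨b, Subsingleton.elim _ _⟩⟩
  · obtain ⟨k, rfl⟩ : ∃ k, q = k + 1 := ⟨q - 1, by omega⟩
    have hb : Function.Bijective ((sig (k + 1) c)^[k + 1]) := by
      have h1 : (sig (k + 1) c)^[k + 1] = lmul c := funext fun v => sig_iterate (k + 1) c v
      rw [h1]
      refine ⟨fun a b hab => ?_, fun b => ⟨lmul c⁻¹ b, ?_⟩⟩
      · funext t
        exact mul_left_cancel (congrFun hab t)
      · funext t
        exact mul_inv_cancel_left c (b t)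
    constructor
    · have h2 := hb.1
      rw [Function.iterate_succ] at h2
      exact Function.Injective.of_comp h2
    · have h2 := hb.2
      rw [Function.iterate_succ'] at h2
      exact Function.Surjective.of_comp h2

/-- The elements which act on a point as a power of `σ` form a cyclic group. -/
theorem stab_zpowers {X Z : Type*} [Group Z] [MulAction Z X] (σ : Equiv.Perm X)
    (hσ : ∀ (z : Z) (x : X), σ (z • x) = z • σ x) (x : X) (hfree : ∀ z : Z, z • x = x → z = 1) :
    ∃ (z₁ : Z) (d : ℤ), z₁ • x = (σ ^ d) x ∧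
      {z : Z | ∃ j : ℤ, z • x = (σ ^ j) x} = Subgroup.zpowers z₁ := by
  have hcomm : ∀ z : Z, Commute (MulAction.toPermHom Z X z) σ := by
    intro z
    ext y
    exact (hσ z y).symm
  have hz : ∀ (z : Z) (j : ℤ) (y : X), (σ ^ j) (z • y) = z • (σ ^ j) y := by
    intro z j y
    have h1 := ((hcomm z).zpow_right j).eq
    exact (congrArg (fun f : Equiv.Perm X => f y) h1).symm
  let J : AddSubgroup ℤ :=
    { carrier := {j | ∃ z : Z, z • x = (σ ^ j) x}
      zero_mem' := ⟨1, by simp⟩
      add_mem' := by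
        rintro i j ⟨z, h1⟩ ⟨z', h2⟩
        refine ⟨z * z', ?_⟩
        rw [mul_smul, h2, ← hz, h1, ← Equiv.Perm.mul_apply, ← zpow_add, add_comm]
      neg_mem' := by
        rintro j ⟨z, h1⟩
        refine ⟨z⁻¹, ?_⟩
        rw [inv_smul_eq_iff, ← hz, h1, ← Equiv.Perm.mul_apply, ← zpow_add, neg_add_cancel, zpow_zero]
        rfl }
  obtain ⟨d, hd⟩ := Int.subgroup_cyclic J
  have hdJ : d ∈ J := by
    rw [hd]
    exact AddSubgroup.subset_closure rfl
  obtain ⟨z₁, h1⟩ := hdJ
  have hpow : ∀ k : ℤ, (z₁ ^ k) • x = (σ ^ (k * d)) x := by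
    intro k
    have h2 : (MulAction.toPermHom Z X z₁ * (σ ^ d)⁻¹) x = x := by
      rw [Equiv.Perm.mul_apply]
      show z₁ • ((σ ^ d)⁻¹ x) = x
      rw [← zpow_neg, ← hz, h1, ← Equiv.Perm.mul_apply, ← zpow_add, neg_add_cancel, zpow_zero]
      rfl
    have h3 := Equiv.Perm.zpow_apply_eq_self_of_apply_eq_self h2 k
    rw [((hcomm z₁).zpow_right d).inv_right.mul_zpow, Equiv.Perm.mul_apply, ← map_zpow] at h3
    have h4 : (z₁ ^ k) • ((((σ ^ d)⁻¹) ^ k) x) = x := h3
    rw [← zpow_neg, ← zpow_mul, ← hz] at h4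
    have h5 := congrArg (σ ^ (k * d)) h4
    rw [← Equiv.Perm.mul_apply, ← zpow_add, show k * d + -d * k = 0 by ring, zpow_zero] at h5
    exact h5
  refine ⟨z₁, d, h1, ?_⟩
  ext z
  constructor
  · rintro ⟨j, hj⟩
    have hjJ : j ∈ J := ⟨z, hj⟩
    rw [hd, AddSubgroup.mem_closure_singleton] at hjJ
    obtain ⟨k, rfl⟩ := hjJ
    refine ⟨k, ?_⟩
    show z₁ ^ k = z
    have h2 : (z⁻¹ * z₁ ^ k) • x = x := by
      rw [mul_smul, hpow k, inv_smul_eq_iff, hj, smul_eq_mul]
    have h3 := hfree _ h2
    rw [inv_mul_eq_one] at h3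
    exact h3.symm
  · rintro ⟨k, rfl⟩
    exact ⟨k * d, hpow k⟩

/-- **The measures for tuples.** -/
theorem exists_nu_tuple {p : ℕ} (hp : p.Prime) (r : ℕ)
    (hG : ∀ g : G, (∃ j : ℕ, g ^ p ^ j = 1) → g ^ p ^ r = 1) (m : ℕ) (c : G)
    (hc : IsOfFinOrder c) :
    ∃ ν : (Fin (p ^ m) → G) → Subgroup.centralizer {c} →₀ ℤ,
      (∀ v, mass (ν v) = ((orderOf c * p ^ r : ℕ) : ℤ)) ∧
      (∀ (z : Subgroup.centralizer {c}) (v : Fin (p ^ m) → G),
        ν (lmul (z : G) v) = (ν v).mapDomain fun y => z * y) ∧
      ∀ v, ν (sig (p ^ m) c v) = ν v := by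
  have hq : 0 < p ^ m := Nat.pow_pos hp.pos
  let σ : Equiv.Perm (Fin (p ^ m) → G) := Equiv.ofBijective (sig (p ^ m) c) (sig_bijective _ c)
  have hσa : ∀ v, σ v = sig (p ^ m) c v := fun v => rfl
  have hsmul : ∀ (z : Subgroup.centralizer {c}) (v : Fin (p ^ m) → G), z • v = lmul (z : G) v := fun z v => rfl
  have hσ : ∀ (z : Subgroup.centralizer {c}) (v : Fin (p ^ m) → G), σ (z • v) = z • σ v := by
    intro z v
    rw [hsmul, hsmul, hσa, hσa]
    exact sig_lmul c z (Subgroup.mem_centralizer_singleton_iff.1 z.2) v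
  have hσq : ∀ v, (σ ^ (p ^ m)) v = lmul c v := by
    intro v
    rw [← Equiv.Perm.iterate_eq_pow]
    exact sig_iterate _ c v
  have hfree : ∀ (v : Fin (p ^ m) → G) (z : Subgroup.centralizer {c}), z • v = v → z = 1 := by
    intro v z h
    have h1 : (z : G) * v ⟨0, hq⟩ = v ⟨0, hq⟩ := congrFun h ⟨0, hq⟩
    exact Subtype.ext (mul_eq_right.1 h1)
  -- the generator of the stabiliser has order dividing `orderOf c * p ^ r`
  have key : ∀ v : Fin (p ^ m) → G, ∃ z₁ : Subgroup.centralizer {c},
      {z : Subgroup.centralizer {c} | ∃ j : ℤ, z • v = (σ ^ j) v} = Subgroup.zpowers z₁ ∧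
        z₁ ^ (orderOf c * p ^ r) = 1 := by
    intro v
    obtain ⟨z₁, d, h1, h2⟩ := stab_zpowers σ hσ v (hfree v)
    refine ⟨z₁, h2, ?_⟩
    have hcomm : Commute (MulAction.toPermHom (Subgroup.centralizer {c}) (Fin (p ^ m) → G) z₁) σ := by
      ext1 y
      exact (hσ z₁ y).symm
    -- `z₁ ^ q = c ^ d`
    have h3 : ((z₁ : G)) ^ (p ^ m) = c ^ d := by
      have h4 : (MulAction.toPermHom (Subgroup.centralizer {c}) (Fin (p ^ m) → G) z₁ * (σ ^ d)⁻¹) v = v := by
        have h5 := congrArg (fun f : Equiv.Perm (Fin (p ^ m) → G) => f ((σ ^ d)⁻¹ v)) (hcomm.zpow_right d).eq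
        have h6 : (MulAction.toPermHom (Subgroup.centralizer {c}) (Fin (p ^ m) → G) z₁) ((σ ^ d) ((σ ^ d)⁻¹ v)) =
            (σ ^ d) ((MulAction.toPermHom (Subgroup.centralizer {c}) (Fin (p ^ m) → G) z₁) ((σ ^ d)⁻¹ v)) := h5
        have h6' : (σ ^ d) ((σ ^ d)⁻¹ v) = v := (σ ^ d).apply_symm_apply v
        rw [h6'] at h6
        have h7 : (MulAction.toPermHom (Subgroup.centralizer {c}) (Fin (p ^ m) → G) z₁) v = (σ ^ d) v := h1
        rw [h7] at h6
        exact ((σ ^ d).injective h6).symm
      have h8 := Equiv.Perm.pow_apply_eq_self_of_apply_eq_self h4 (p ^ m)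
      rw [(hcomm.zpow_right d).inv_right.mul_pow, Equiv.Perm.mul_apply, ← map_pow] at h8
      have h9 : ((σ ^ d)⁻¹) ^ (p ^ m) = ((σ ^ (p ^ m)) ^ d)⁻¹ := by
        rw [inv_pow, ← zpow_natCast, ← zpow_mul, ← zpow_natCast, ← zpow_mul, mul_comm]
      have h10 : ∀ (k : ℤ) (w : Fin (p ^ m) → G), ((σ ^ (p ^ m)) ^ k) w = lmul (c ^ k) w := by
        have h11 : σ ^ (p ^ m) = MulAction.toPermHom G (Fin (p ^ m) → G) c := by
          ext1 w
          exact hσq w
        intro k w
        rw [h11, ← map_zpow]
        rfl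
      rw [h9, ← zpow_neg, h10] at h8
      have h12 : (z₁ ^ (p ^ m)) • (lmul (c ^ (-d)) v) = v := h8
      have h13 : ((z₁ ^ (p ^ m) : Subgroup.centralizer {c}) : G) * (c ^ (-d) * v ⟨0, hq⟩) = v ⟨0, hq⟩ :=
        congrFun h12 ⟨0, hq⟩
      rw [← mul_assoc, mul_eq_right, zpow_neg, mul_inv_eq_one, Subgroup.coe_pow] at h13
      exact h13
    have h4 : ((z₁ : G) ^ orderOf c) ^ p ^ m = 1 := by
      rw [← pow_mul, mul_comm, pow_mul, h3, ← zpow_natCast, ← zpow_mul, mul_comm, zpow_mul, zpow_natCast,
        pow_orderOf_eq_one, one_zpow]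
    have h5 := hG _ ⟨m, h4⟩
    apply Subtype.ext
    rw [Subgroup.coe_pow, Subgroup.coe_one, pow_mul]
    exact h5
  have hD : 0 < orderOf c * p ^ r := Nat.mul_pos hc.orderOf_pos (Nat.pow_pos hp.pos)
  have hfin : ∀ v : Fin (p ^ m) → G, {z : Subgroup.centralizer {c} | ∃ j : ℤ, z • v = (σ ^ j) v}.Finite := by
    intro v
    obtain ⟨z₁, h1, h2⟩ := key v
    rw [h1]
    have h3 : IsOfFinOrder z₁ := isOfFinOrder_iff_pow_eq_one.2 ⟨_, hD, h2⟩
    exact h3.finite_zpowers
  have hcard : ∀ v : Fin (p ^ m) → G,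
      Nat.card {z : Subgroup.centralizer {c} | ∃ j : ℤ, z • v = (σ ^ j) v} ∣ orderOf c * p ^ r := by
    intro v
    obtain ⟨z₁, h1, h2⟩ := key v
    rw [h1]
    have h3 : Nat.card (Subgroup.zpowers z₁ : Set (Subgroup.centralizer {c})) = orderOf z₁ := Nat.card_zpowers z₁
    rw [h3]
    exact orderOf_dvd_of_pow_eq_one h2
  obtain ⟨ν, hν1, hν2, hν3⟩ := exists_nu (Z := Subgroup.centralizer {c}) σ hσ (orderOf c * p ^ r) hD hfin hcard
  exact ⟨ν, hν1, hν2, hν3⟩

end

end Pool.Agent.H71.FQ

end

section

/-!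
# Project KL: the position of a tuple in its rotation orbit

`c` of finite order divisible by `p`, the `p`-power torsion of `G` of exponent `p ^ r`, `q = p ^ m`.  `IsTau p m r c τ`:
`τ` is a function on the tuples `Fin q → G` with values in `ZMod q`, invariant under the left multiplications by the
centralizer of `c`, and the rotation `sig q c` adds `p ^ r`.

PROOF of `exists_tau`.  Let `Z` be the centralizer of `c` (acting by `lmul`) and `σ = sig q c`, a bijection commuting with
it, `σ^[q] = lmul c`.  Choose a representative `ρ` of each orbit of `Z × ⟨σ⟩` (e.g. of the quotient by the setoid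
`∃ z ∈ Z, ∃ j : ℕ, w = lmul z (σ^[j] v)`; `j : ℕ` is enough because `σ^[q]` is `lmul c`), and put `τ v = p ^ r * j` if
`v = lmul z (σ^[j] ρ)`.  Well defined: if `lmul z (σ^[j] ρ) = lmul z' (σ^[j'] ρ)` with `j ≤ j'` then
`σ^[j' - j] ρ = lmul z'' ρ`, `z'' ∈ Z` (`σ` injective, commutes with `lmul`), and `stab_dvd` gives
`p ^ m ∣ p ^ r * (j' - j)`.

PROOF of `stab_dvd`.  Let `σ^[k] v = lmul z v` and suppose `p ^ m ∤ p ^ r * k`; so `r ≤ m` fails or the `p`-adic valuation
`a` of `k` is `< m - r`; anyway `k = p ^ a * k'`, `p ∤ k'`, `a + r < m`.  Iterating, `σ^[k j] v = lmul (z ^ j) v`.  Choose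
`j` with `k j ≡ p ^ a (mod q)` (`k'` is a unit mod `q`); `σ^[q] = lmul c` is central: so `σ^[p ^ a] v = lmul w v` with
`w ∈ Z`, `w = z ^ j * c ^ (-t)`.  Iterating `p ^ (m - a)` times: `lmul c v = lmul (w ^ p ^ (m - a)) v`, so
`c = w ^ p ^ (m - a)`.  Then `w` has finite order divisible by `p ^ (m - a + 1)` (`p ∣ orderOf c`), so `G` contains an
element of order `p ^ (m - a + 1)`, hence `m - a + 1 ≤ r` by `hG`: contradiction to `a + r < m`.
-/

set_option autoImplicit false

universe u

namespace Pool.Agent.H39.KL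

open Pool.Agent.H71.FQ

section

variable {G : Type u} [Group G]

/-- the position in the rotation orbit, times `p ^ r` -/
structure IsTau (p m r : ℕ) (c : G) (τ : (Fin (p ^ m) → G) → ZMod (p ^ m)) : Prop where
  inv : ∀ z : G, z * c = c * z → ∀ v, τ (lmul z v) = τ v
  rot : ∀ v, τ (sig (p ^ m) c v) = τ v + (p : ZMod (p ^ m)) ^ r

private theorem lmul_lmul {q : ℕ} (g h : G) (v : Fin q → G) : lmul g (lmul h v) = lmul (g * h) v :=
  funext fun t => (mul_assoc g h (v t)).symm

private theorem lmul_one {q : ℕ} (v : Fin q → G) : lmul (1 : G) v = v :=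
  funext fun t => one_mul (v t)

private theorem lmul_inj {q : ℕ} (hq : 0 < q) {g h : G} {v : Fin q → G} (e : lmul g v = lmul h v) : g = h :=
  mul_right_cancel (show g * v ⟨0, hq⟩ = h * v ⟨0, hq⟩ from congrFun e ⟨0, hq⟩)

private theorem iter_lmul {q : ℕ} {c g : G} (h : g * c = c * g) (n : ℕ) (v : Fin q → G) :
    (sig q c)^[n] (lmul g v) = lmul g ((sig q c)^[n] v) := by
  induction n with
  | zero => rfl
  | succ n ih => rw [Function.iterate_succ_apply', ih, sig_lmul c g h, Function.iterate_succ_apply']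

private theorem pow_comm_of {c g : G} (h : g * c = c * g) (j : ℕ) : g ^ j * c = c * g ^ j :=
  (Commute.pow_left (show Commute g c from h) j).eq

private theorem iter_pow {q : ℕ} {c g : G} (h : g * c = c * g) {n : ℕ} {v : Fin q → G}
    (e : (sig q c)^[n] v = lmul g v) (j : ℕ) : (sig q c)^[n * j] v = lmul (g ^ j) v := by
  induction j with
  | zero => rw [pow_zero, lmul_one]; rfl
  | succ j ih =>
    rw [show n * (j + 1) = n + n * j by ring, Function.iterate_add_apply, ih, iter_lmul (pow_comm_of h j), e,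
      lmul_lmul, pow_succ]

private theorem iter_q {q : ℕ} (c : G) (v : Fin q → G) (t : ℕ) : (sig q c)^[q * t] v = lmul (c ^ t) v :=
  iter_pow rfl (sig_iterate q c v) t

/-- the orbits of the centralizer and the rotation -/
private def orb {q : ℕ} (hq : 0 < q) (c : G) : Setoid (Fin q → G) where
  r w v := ∃ z : G, z * c = c * z ∧ ∃ j : ℕ, w = lmul z ((sig q c)^[j] v)
  iseqv := by
    refine ⟨fun v => ⟨1, by simp, 0, (lmul_one v).symm⟩, ?_, ?_⟩
    · rintro w v ⟨z, hz, j, rfl⟩
      have hz' : (z * c ^ j) * c = c * (z * c ^ j) :=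
        (Commute.mul_left (show Commute z c from hz) ((Commute.refl c).pow_left j)).eq
      refine ⟨(z * c ^ j)⁻¹, (Commute.inv_left (show Commute (z * c ^ j) c from hz')).eq, q * j - j, ?_⟩
      rw [iter_lmul hz, ← Function.iterate_add_apply,
        Nat.sub_add_cancel (Nat.le_mul_of_pos_left j hq), iter_q, lmul_lmul z, lmul_lmul, inv_mul_cancel, lmul_one]
    · rintro u w v ⟨z, hz, j, rfl⟩ ⟨z', hz', j', rfl⟩
      refine ⟨z * z', (Commute.mul_left (show Commute z c from hz) (show Commute z' c from hz')).eq, j + j', ?_⟩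
      rw [iter_lmul hz', lmul_lmul, ← Function.iterate_add_apply]

/-- transport to a subgroup: `f : C → G` a homomorphism, `u f(d) u⁻¹ = c` -/
theorem IsTau.comp {p m r : ℕ} {c : G} {τ : (Fin (p ^ m) → G) → ZMod (p ^ m)} (hτ : IsTau p m r c τ)
    {C : Type*} [Group C] (f : C →* G) (u : G) (d : C) (hu : u * f d * u⁻¹ = c) :
    IsTau p m r d fun v => τ fun b => u * f (v b) := by
  constructor
  · intro z hz v
    have h1 : (u * f z * u⁻¹) * c = c * (u * f z * u⁻¹) := by
      have h2 : f z * f d = f d * f z := by rw [← map_mul, hz, map_mul]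
      rw [← hu]
      calc u * f z * u⁻¹ * (u * f d * u⁻¹) = u * (f z * f d) * u⁻¹ := by group
        _ = u * (f d * f z) * u⁻¹ := by rw [h2]
        _ = u * f d * u⁻¹ * (u * f z * u⁻¹) := by group
    have h3 := hτ.inv _ h1 fun b => u * f (v b)
    rw [← h3]
    congr 1
    funext b
    show u * f (z * v b) = u * f z * u⁻¹ * (u * f (v b))
    rw [map_mul]
    group
  · intro v
    have h3 := hτ.rot fun b => u * f (v b)
    show τ (fun b => u * f (sig (p ^ m) d v b)) = _
    rw [← h3]
    congr 1
    funext b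
    unfold sig
    by_cases hb : (b : ℕ) + 1 < p ^ m
    · rw [dif_pos hb, dif_pos hb]
    · rw [dif_neg hb, dif_neg hb, map_mul, ← hu]
      group

end

end Pool.Agent.H39.KL

end

section

/-!
# Conjugation cocycles and the Dennis trace

A cocycle is a function `L : G → G → S` with `L (f' f) y = L f' (f y f⁻¹) + L f y` and `L y y = 0`.
It defines the bilinear form `φ(∑ a_g g, ∑ b_h h) = ∑ a_g b_h L h (g h)` on `S[G]`, which satisfies
`φ(a b, c) + φ(c a, b) = φ(a, b c)`, and the homomorphism `U ↦ φ(U⁻¹, U)` on `K₁(S[G])`.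
-/

set_option autoImplicit false

open Matrix

universe u v w

namespace Pool.Agent.H71.DB

open Pool.Agent.H71.FJ (clsFun clsFun_single clsFun_add clsFun_comm)
open Pool.Agent.H95.WH (K1 K1.mk K1.unit K1.map K1.lift K1.lift_mk K1.map_mk stab stabMat)

/-- Conjugation cocycles. -/
structure Coc (G : Type v) [Group G] (S : Type u) [CommRing S] where
  /-- the function -/
  L : G → G → S
  mul : ∀ f f' y, L (f' * f) y = L f' (f * y * f⁻¹) + L f y
  self : ∀ y, L y y = 0

section

variable {G : Type v} [Group G] {S : Type u} [CommRing S]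

theorem Coc.one (l : Coc G S) (y : G) : l.L 1 y = 0 := by
  have h := l.mul 1 1 y
  rw [one_mul, one_mul, inv_one, mul_one] at h
  exact left_eq_add.1 h

/-- bilinear forms on a group ring -/
noncomputable def pairF (f : G → G → S) (a b : MonoidAlgebra S G) : S :=
  clsFun (fun h => clsFun (fun g => f g h) a) b

theorem pairF_single (f : G → G → S) (g h : G) (r s : S) :
    pairF f (MonoidAlgebra.single g r) (MonoidAlgebra.single h s) = s * (r * f g h) := by
  rw [pairF, clsFun_single, clsFun_single]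

theorem pairF_add_right (f : G → G → S) (a b b' : MonoidAlgebra S G) :
    pairF f a (b + b') = pairF f a b + pairF f a b' := by
  rw [pairF, map_add]
  rfl

theorem pairF_add_left (f : G → G → S) (a a' b : MonoidAlgebra S G) :
    pairF f (a + a') b = pairF f a b + pairF f a' b := by
  rw [pairF, pairF, pairF, ← clsFun_add]
  simp only [map_add]

theorem pairF_zero_right (f : G → G → S) (a : MonoidAlgebra S G) : pairF f a 0 = 0 := by
  rw [pairF, map_zero]

theorem pairF_zero_left (f : G → G → S) (b : MonoidAlgebra S G) : pairF f 0 b = 0 := by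
  have h := pairF_add_left f 0 0 b
  rw [add_zero] at h
  exact left_eq_add.1 h

/-- The bilinear form as a biadditive map. -/
noncomputable def pairH (f : G → G → S) : MonoidAlgebra S G →+ MonoidAlgebra S G →+ S where
  toFun a :=
    { toFun := fun b => pairF f a b
      map_zero' := pairF_zero_right f a
      map_add' := pairF_add_right f a }
  map_zero' := by
    ext1
    apply AddMonoidHom.ext
    intro b
    exact pairF_zero_left f _
  map_add' a a' := by
    apply AddMonoidHom.ext
    intro b
    exact pairF_add_left f a a' b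

/-- The bilinear form of a cocycle. -/
noncomputable def Coc.phi (l : Coc G S) : MonoidAlgebra S G →+ MonoidAlgebra S G →+ S :=
  pairH fun g h => l.L h (g * h)

theorem Coc.phi_single (l : Coc G S) (g h : G) (r s : S) :
    l.phi (MonoidAlgebra.single g r) (MonoidAlgebra.single h s) = s * (r * l.L h (g * h)) :=
  pairF_single _ g h r s

theorem Coc.phi_cocycle (l : Coc G S) (a b c : MonoidAlgebra S G) :
    l.phi (a * b) c + l.phi (c * a) b = l.phi a (b * c) := by
  induction a using MonoidAlgebra.induction_linear with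
  | zero => simp
  | add a a' ha ha' =>
    rw [add_mul, mul_add, map_add, map_add, map_add, AddMonoidHom.add_apply,
      AddMonoidHom.add_apply, AddMonoidHom.add_apply, ← ha, ← ha']
    ring
  | single g r =>
    induction b using MonoidAlgebra.induction_linear with
    | zero => simp
    | add b b' hb hb' =>
      rw [add_mul, mul_add, map_add, map_add, map_add, AddMonoidHom.add_apply, ← hb, ← hb']
      ring
    | single h s =>
      induction c using MonoidAlgebra.induction_linear with
      | zero => simp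
      | add c c' hc hc' =>
        rw [add_mul, mul_add, map_add, map_add, map_add, AddMonoidHom.add_apply, ← hc, ← hc']
        ring
      | single k t =>
        rw [MonoidAlgebra.single_mul_single, MonoidAlgebra.single_mul_single,
          MonoidAlgebra.single_mul_single, l.phi_single, l.phi_single, l.phi_single, l.mul k h]
        have e1 : k * (g * (h * k)) * k⁻¹ = k * g * h := by group
        rw [e1, ← mul_assoc g h k]
        ring

theorem Coc.phi_one_right (l : Coc G S) (a : MonoidAlgebra S G) : l.phi a 1 = 0 := by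
  induction a using MonoidAlgebra.induction_linear with
  | zero => simp
  | add a a' ha ha' => rw [map_add, AddMonoidHom.add_apply, ha, ha', add_zero]
  | single g r => rw [MonoidAlgebra.one_def, l.phi_single, l.one, mul_zero, mul_zero]

theorem Coc.phi_one_left (l : Coc G S) (b : MonoidAlgebra S G) : l.phi 1 b = 0 := by
  induction b using MonoidAlgebra.induction_linear with
  | zero => simp
  | add a a' ha ha' => rw [map_add, ha, ha', add_zero]
  | single g r => rw [MonoidAlgebra.one_def, l.phi_single, one_mul, one_mul, l.self, mul_zero]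

variable {ι κ μ : Type*} [Fintype ι] [Fintype κ] [Fintype μ]

/-- The form on matrices. -/
noncomputable def Coc.Phi (l : Coc G S) (A : Matrix ι κ (MonoidAlgebra S G))
    (B : Matrix κ ι (MonoidAlgebra S G)) : S := ∑ i, ∑ j, l.phi (A i j) (B j i)

theorem Coc.Phi_add_left (l : Coc G S) (A A' : Matrix ι κ (MonoidAlgebra S G))
    (B : Matrix κ ι (MonoidAlgebra S G)) : l.Phi (A + A') B = l.Phi A B + l.Phi A' B := by
  simp only [Coc.Phi, Matrix.add_apply, map_add, AddMonoidHom.add_apply, Finset.sum_add_distrib]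

theorem Coc.Phi_add_right (l : Coc G S) (A : Matrix ι κ (MonoidAlgebra S G))
    (B B' : Matrix κ ι (MonoidAlgebra S G)) : l.Phi A (B + B') = l.Phi A B + l.Phi A B' := by
  simp only [Coc.Phi, Matrix.add_apply, map_add, Finset.sum_add_distrib]

theorem Coc.Phi_zero_left (l : Coc G S) (B : Matrix κ ι (MonoidAlgebra S G)) :
    l.Phi (0 : Matrix ι κ (MonoidAlgebra S G)) B = 0 := by
  simp [Coc.Phi]

theorem Coc.Phi_cocycle (l : Coc G S) (A : Matrix ι κ (MonoidAlgebra S G))
    (B : Matrix κ μ (MonoidAlgebra S G)) (C : Matrix μ ι (MonoidAlgebra S G)) :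
    l.Phi (A * B) C + l.Phi (C * A) B = l.Phi A (B * C) := by
  have h1 : l.Phi (A * B) C = ∑ i, ∑ k, ∑ m, l.phi (A i k * B k m) (C m i) := by
    rw [Coc.Phi]
    refine Finset.sum_congr rfl fun i _ => ?_
    rw [Finset.sum_comm]
    refine Finset.sum_congr rfl fun m _ => ?_
    rw [Matrix.mul_apply, map_sum, AddMonoidHom.finsetSum_apply]
  have h2 : l.Phi (C * A) B = ∑ i, ∑ k, ∑ m, l.phi (C m i * A i k) (B k m) := by
    rw [Coc.Phi]
    have e : ∀ m, ∑ k, l.phi ((C * A) m k) (B k m) =
        ∑ i, ∑ k, l.phi (C m i * A i k) (B k m) := by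
      intro m
      rw [Finset.sum_comm]
      refine Finset.sum_congr rfl fun k _ => ?_
      rw [Matrix.mul_apply, map_sum, AddMonoidHom.finsetSum_apply]
    rw [Finset.sum_congr rfl fun m _ => e m, Finset.sum_comm]
    refine Finset.sum_congr rfl fun i _ => ?_
    rw [Finset.sum_comm]
  have h3 : l.Phi A (B * C) = ∑ i, ∑ k, ∑ m, l.phi (A i k) (B k m * C m i) := by
    rw [Coc.Phi]
    refine Finset.sum_congr rfl fun i _ => Finset.sum_congr rfl fun k _ => ?_
    rw [Matrix.mul_apply, map_sum]
  rw [h1, h2, h3, ← Finset.sum_add_distrib]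
  refine Finset.sum_congr rfl fun i _ => ?_
  rw [← Finset.sum_add_distrib]
  refine Finset.sum_congr rfl fun k _ => ?_
  rw [← Finset.sum_add_distrib]
  exact Finset.sum_congr rfl fun m _ => l.phi_cocycle _ _ _

variable [DecidableEq ι]

theorem Coc.Phi_one_left (l : Coc G S) (B : Matrix ι ι (MonoidAlgebra S G)) :
    l.Phi 1 B = 0 := by
  rw [Coc.Phi]
  refine Finset.sum_eq_zero fun i _ => Finset.sum_eq_zero fun j _ => ?_
  by_cases h : i = j
  · rw [h, Matrix.one_apply_eq, l.phi_one_left]
  · rw [Matrix.one_apply_ne h, map_zero, AddMonoidHom.zero_apply]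

theorem Coc.Phi_one_right (l : Coc G S) (B : Matrix ι ι (MonoidAlgebra S G)) :
    l.Phi B 1 = 0 := by
  rw [Coc.Phi]
  refine Finset.sum_eq_zero fun i _ => Finset.sum_eq_zero fun j _ => ?_
  by_cases h : j = i
  · rw [h, Matrix.one_apply_eq, l.phi_one_right]
  · rw [Matrix.one_apply_ne h, map_zero]

/-- The trace of an invertible matrix. -/
noncomputable def Coc.den (l : Coc G S) (U : (Matrix ι ι (MonoidAlgebra S G))ˣ) : S :=
  l.Phi U.inv U.val

theorem Coc.den_mul (l : Coc G S) (U V : (Matrix ι ι (MonoidAlgebra S G))ˣ) :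
    l.den (U * V) = l.den U + l.den V := by
  have h := l.Phi_cocycle (V.inv * U.inv) U.val V.val
  have e1 : V.inv * U.inv * U.val = V.inv := by rw [Matrix.mul_assoc, U.inv_val, Matrix.mul_one]
  have e2 : V.val * (V.inv * U.inv) = U.inv := by
    rw [← Matrix.mul_assoc, V.val_inv, Matrix.one_mul]
  rw [e1, e2] at h
  change l.Phi (V.inv * U.inv) (U.val * V.val) = _
  rw [← h, add_comm]
  rfl

theorem Coc.den_stab (l : Coc G S) {n : ℕ} (U : (Matrix (Fin n) (Fin n) (MonoidAlgebra S G))ˣ) :
    l.den (stab U) = l.den U := by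
  have key : ∀ A B : Matrix (Fin n) (Fin n) (MonoidAlgebra S G),
      l.Phi (stabMat A) (stabMat B) = l.Phi A B := by
    intro A B
    have h1 : l.Phi (stabMat A) (stabMat B) = l.Phi
        (Matrix.fromBlocks A 0 0 (1 : Matrix (Fin 1) (Fin 1) (MonoidAlgebra S G)))
        (Matrix.fromBlocks B 0 0 (1 : Matrix (Fin 1) (Fin 1) (MonoidAlgebra S G))) := by
      rw [Coc.Phi, Coc.Phi, ← finSumFinEquiv.sum_comp]
      refine Finset.sum_congr rfl fun i _ => ?_
      rw [← finSumFinEquiv.sum_comp]
      refine Finset.sum_congr rfl fun j _ => ?_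
      simp [stabMat, Matrix.reindex_apply]
    rw [h1, Coc.Phi, Coc.Phi, Fintype.sum_sum_type]
    simp only [Fintype.sum_sum_type, Matrix.fromBlocks_apply₁₁, Matrix.fromBlocks_apply₁₂,
      Matrix.fromBlocks_apply₂₁, Matrix.fromBlocks_apply₂₂, Matrix.zero_apply, map_zero,
      AddMonoidHom.zero_apply, Finset.sum_const_zero, add_zero, zero_add]
    have h2 : ∑ i : Fin 1, ∑ j : Fin 1, l.phi ((1 : Matrix (Fin 1) (Fin 1) (MonoidAlgebra S G)) i j)
        ((1 : Matrix (Fin 1) (Fin 1) (MonoidAlgebra S G)) j i) = 0 := by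
      have := l.Phi_one_left (1 : Matrix (Fin 1) (Fin 1) (MonoidAlgebra S G))
      exact this
    rw [h2, add_zero]
  exact key _ _

/-- The Dennis trace homomorphism on `K₁(S[G])`. -/
noncomputable def Coc.dt (l : Coc G S) : K1 (MonoidAlgebra S G) →+ S :=
  K1.lift (fun _ U => l.den U) (fun _ U V => l.den_mul U V) (fun _ U => l.den_stab U)

theorem Coc.dt_mk (l : Coc G S) {n : ℕ} (U : (Matrix (Fin n) (Fin n) (MonoidAlgebra S G))ˣ) :
    l.dt (K1.mk U) = l.den U := K1.lift_mk _ _ _ U

end

section Nat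

variable {G : Type v} [Group G] {H : Type w} [Group H] {S : Type u} [CommRing S]

/-- Restriction of a cocycle along a homomorphism. -/
def Coc.comap (l : Coc G S) (f : H →* G) : Coc H S where
  L a y := l.L (f a) (f y)
  mul a a' y := by
    rw [map_mul, l.mul]
    simp only [map_mul, map_inv]
  self y := l.self _

/-- Change of coefficients. -/
def Coc.mapS {T : Type*} [CommRing T] (l : Coc G S) (θ : S →+* T) : Coc G T where
  L a y := θ (l.L a y)
  mul a a' y := by rw [l.mul, map_add]
  self y := by rw [l.self, map_zero]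

theorem Coc.phi_comap (l : Coc G S) (f : H →* G) (a b : MonoidAlgebra S H) :
    l.phi (MonoidAlgebra.mapDomainRingHom S f a) (MonoidAlgebra.mapDomainRingHom S f b) =
      (l.comap f).phi a b := by
  induction a using MonoidAlgebra.induction_linear with
  | zero => simp
  | add a a' ha ha' =>
    rw [map_add, map_add, map_add, AddMonoidHom.add_apply, AddMonoidHom.add_apply, ha, ha']
  | single g r =>
    induction b using MonoidAlgebra.induction_linear with
    | zero => simp
    | add b b' hb hb' => rw [map_add, map_add, map_add, hb, hb']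
    | single h s =>
      change l.phi (MonoidAlgebra.mapDomain f (MonoidAlgebra.single g r))
        (MonoidAlgebra.mapDomain f (MonoidAlgebra.single h s)) = _
      rw [MonoidAlgebra.mapDomain_single, MonoidAlgebra.mapDomain_single, l.phi_single,
        Coc.phi_single]
      change _ = s * (r * l.L (f h) (f (g * h)))
      rw [map_mul]

theorem Coc.phi_mapS {T : Type*} [CommRing T] (l : Coc G S) (θ : S →+* T)
    (a b : MonoidAlgebra S G) :
    (l.mapS θ).phi (MonoidAlgebra.mapRingHom G θ a) (MonoidAlgebra.mapRingHom G θ b) =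
      θ (l.phi a b) := by
  induction a using MonoidAlgebra.induction_linear with
  | zero => simp
  | add a a' ha ha' =>
    rw [map_add, map_add, map_add, AddMonoidHom.add_apply, AddMonoidHom.add_apply, ha, ha',
      map_add]
  | single g r =>
    induction b using MonoidAlgebra.induction_linear with
    | zero => simp
    | add b b' hb hb' => rw [map_add, map_add, map_add, map_add, hb, hb']
    | single h s =>
      rw [MonoidAlgebra.mapRingHom_single, MonoidAlgebra.mapRingHom_single, l.phi_single,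
        Coc.phi_single, map_mul, map_mul]
      rfl

variable {ι κ : Type*} [Fintype ι] [Fintype κ]

theorem Coc.Phi_comap (l : Coc G S) (f : H →* G) (A : Matrix ι κ (MonoidAlgebra S H))
    (B : Matrix κ ι (MonoidAlgebra S H)) :
    l.Phi (A.map (MonoidAlgebra.mapDomainRingHom S f))
      (B.map (MonoidAlgebra.mapDomainRingHom S f)) = (l.comap f).Phi A B := by
  simp only [Coc.Phi, Matrix.map_apply, l.phi_comap]

theorem Coc.Phi_mapS {T : Type*} [CommRing T] (l : Coc G S) (θ : S →+* T)
    (A : Matrix ι κ (MonoidAlgebra S G)) (B : Matrix κ ι (MonoidAlgebra S G)) :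
    (l.mapS θ).Phi (A.map (MonoidAlgebra.mapRingHom G θ)) (B.map (MonoidAlgebra.mapRingHom G θ)) =
      θ (l.Phi A B) := by
  simp only [Coc.Phi, Matrix.map_apply, l.phi_mapS, map_sum]

/-- the function `∑_f L f y` -/
noncomputable def Coc.psi [Fintype H] (l : Coc H S) (y : H) : S := ∑ f : H, l.L f y

theorem Coc.psi_mul [Fintype H] (l : Coc H S) (g h : H) :
    l.psi (g * h) = l.psi (h * g) + (Fintype.card H : S) * l.L h (g * h) := by
  have e : ∀ f : H, l.L (f * h) (g * h) = l.L f (h * g) + l.L h (g * h) := by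
    intro f
    rw [l.mul]
    congr 2
    group
  calc l.psi (g * h) = ∑ f : H, l.L (f * h) (g * h) :=
        (Equiv.sum_comp (Equiv.mulRight h) (fun f => l.L f (g * h))).symm
    _ = ∑ f : H, (l.L f (h * g) + l.L h (g * h)) := Finset.sum_congr rfl fun f _ => e f
    _ = _ := by
      rw [Finset.sum_add_distrib, Finset.sum_const, Finset.card_univ, nsmul_eq_mul]
      rfl

theorem Coc.card_phi [Fintype H] (l : Coc H S) (a b : MonoidAlgebra S H) :
    (Fintype.card H : S) * l.phi a b = clsFun l.psi (a * b) - clsFun l.psi (b * a) := by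
  induction a using MonoidAlgebra.induction_linear with
  | zero => simp
  | add a a' ha ha' =>
    rw [map_add, AddMonoidHom.add_apply, mul_add, ha, ha', add_mul, mul_add, map_add, map_add]
    ring
  | single g r =>
    induction b using MonoidAlgebra.induction_linear with
    | zero => simp
    | add b b' hb hb' =>
      rw [map_add, mul_add, hb, hb', add_mul, mul_add, map_add, map_add]
      ring
    | single h s =>
      rw [l.phi_single, MonoidAlgebra.single_mul_single, MonoidAlgebra.single_mul_single,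
        clsFun_single, clsFun_single, l.psi_mul g h]
      ring

theorem Coc.card_Phi [Fintype H] (l : Coc H S) (A : Matrix ι κ (MonoidAlgebra S H))
    (B : Matrix κ ι (MonoidAlgebra S H)) :
    (Fintype.card H : S) * l.Phi A B =
      clsFun l.psi (trace (A * B)) - clsFun l.psi (trace (B * A)) := by
  simp only [Coc.Phi, Matrix.trace, Matrix.diag, Matrix.mul_apply, Finset.mul_sum, l.card_phi,
    map_sum, Finset.sum_sub_distrib]
  congr 1
  rw [Finset.sum_comm]

theorem Coc.card_den [Fintype H] [DecidableEq ι] (l : Coc H S)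
    (U : (Matrix ι ι (MonoidAlgebra S H))ˣ) : (Fintype.card H : S) * l.den U = 0 := by
  rw [Coc.den, l.card_Phi, U.inv_val, U.val_inv, sub_self]

end Nat

end Pool.Agent.H71.DB

end
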