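import Pool.Agent.H71.TCZ.M01

/-! The parts of this file: H71.CZ.KRes, H71.CZ.KConj, H71.FQ.Uct, H71.FQ.LocH. -/

section

/-!
# Project CZ: chains of a group modulo the action of a subgroup

`ι : H → E` injective (for the last theorems).  `coiH ι n` is the submodule of the chains of `E` generated by the
differences `(ι h x_0, …, ι h x_n) - (x_0, …, x_n)`; `bnH ι n` is the sum of the boundaries and of `coiH ι n`.

PROOF of `exists_res`.  Choose `p : E → H` with `p (ι h * x) = h * p x` (one representative in each coset `ι H x`; `ι` is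
injective).  `exists_homotopy` for the vertex maps `x ↦ x` and `x ↦ ι (p x)` (point masses, `b x = x`) gives `𝓗` with
`bd 𝓗 x + 𝓗 bd x = x - push ι (push p x)` which commutes with the left translations by `ι h`, so `𝓗 (coiH) ⊆ coiH`.  Take
`y = push p x`; it is a cycle since `push p` maps `coiH ι n` to `coi H n`.
-/

set_option autoImplicit false

universe u v w

namespace Pool.Agent.H71.CZ

open Pool.Agent.H71.FQ

section

variable {E : Type v} [Group E] {H : Type w} [Group H]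

/-- the relations `(ι h x_0, …, ι h x_n) = (x_0, …, x_n)` -/
noncomputable def coiH (ι : H →* E) (n : ℕ) : Submodule ℤ (Cx ℤ E n) :=
  Submodule.span ℤ {c | ∃ (h : H) (x : Fin (n + 1) → E),
    c = Finsupp.single (fun j => ι h * x j) 1 - Finsupp.single x 1}

/-- the boundaries and the relations `coiH` -/
noncomputable def bnH (ι : H →* E) (n : ℕ) : Submodule ℤ (Cx ℤ E n) :=
  LinearMap.range (bd ℤ E n) ⊔ coiH ι n

/-- a linear map which sends the relations into a submodule -/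
theorem coiH_le_comap {ι : H →* E} {n : ℕ} {N : Type*} [AddCommGroup N] (L : Cx ℤ E n →ₗ[ℤ] N)
    (S : Submodule ℤ N)
    (h : ∀ (g : H) (x : Fin (n + 1) → E),
      L (Finsupp.single (fun j => ι g * x j) 1) - L (Finsupp.single x 1) ∈ S)
    {c : Cx ℤ E n} (hc : c ∈ coiH ι n) : L c ∈ S := by
  have h1 : coiH ι n ≤ S.comap L := by
    rw [coiH, Submodule.span_le]
    rintro _ ⟨g, x, rfl⟩
    show L (Finsupp.single (fun j => ι g * x j) 1 - Finsupp.single x 1) ∈ S
    rw [map_sub]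
    exact h g x
  exact h1 hc

/-- the left translations are the identity modulo the relations -/
theorem push_lmul_sub_memH (ι : H →* E) (n : ℕ) (h : H) (c : Cx ℤ E n) :
    push ℤ (fun y => ι h * y) n c - c ∈ coiH ι n := by
  induction c using Finsupp.induction_linear with
  | zero => simp
  | add a b ha hb =>
    have h : push ℤ (fun y => ι h * y) n (a + b) - (a + b) =
        (push ℤ (fun y => ι h * y) n a - a) + (push ℤ (fun y => ι h * y) n b - b) := by
      rw [map_add]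
      abel
    rw [h]
    exact Submodule.add_mem _ ha hb
  | single x r =>
    have h1 : (Finsupp.single x r : Cx ℤ E n) = r • Finsupp.single x 1 := by
      rw [Finsupp.smul_single, smul_eq_mul, mul_one]
    rw [h1, map_smul, push_single, ← smul_sub]
    exact Submodule.smul_mem _ _ (Submodule.subset_span ⟨h, x, rfl⟩)

theorem coiH_le_coi (ι : H →* E) (n : ℕ) : coiH ι n ≤ coi E n := by
  rw [coiH, Submodule.span_le]
  rintro _ ⟨h, x, rfl⟩
  exact Submodule.subset_span ⟨ι h, x, rfl⟩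

theorem bd_coiH (ι : H →* E) (n : ℕ) {c : Cx ℤ E (n + 1)} (hc : c ∈ coiH ι (n + 1)) :
    bd ℤ E n c ∈ coiH ι n := by
  refine coiH_le_comap (bd ℤ E n) (coiH ι n) ?_ hc
  intro g x
  rw [← push_single (R := ℤ) (fun y => ι g * y) (n + 1) x, bd_push]
  exact push_lmul_sub_memH ι n g _

/-- the chain map of a vertex map that is compatible with the translations -/
theorem push_coiH {E' : Type*} [Group E'] {H' : Type*} [Group H'] {ι : H →* E} {ι' : H' →* E'}
    (f : E → E') (α : H → H') (hf : ∀ (h : H) (x : E), f (ι h * x) = ι' (α h) * f x) (n : ℕ)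
    {c : Cx ℤ E n} (hc : c ∈ coiH ι n) : push ℤ f n c ∈ coiH ι' n := by
  refine coiH_le_comap (push ℤ f n) (coiH ι' n) ?_ hc
  intro g x
  rw [push_single, push_single]
  refine Submodule.subset_span ⟨α g, fun j => f (x j), ?_⟩
  simp only [hf]

/-- the chains of `H` -/
theorem push_coi_coiH (ι : H →* E) (n : ℕ) {c : Cx ℤ H n} (hc : c ∈ coi H n) :
    push ℤ ι n c ∈ coiH ι n := by
  refine coi_le_comap (push ℤ ι n) (coiH ι n) ?_ hc
  intro g x
  rw [push_single, push_single]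
  refine Submodule.subset_span ⟨g, fun j => ι (x j), ?_⟩
  simp only [map_mul]

/-- an equivariant family of linear maps sends the relations to the relations -/
theorem equi_coiH {E' : Type*} [Group E'] {H' : Type*} [Group H'] {ι : H →* E} {ι' : H' →* E'}
    {m k : ℕ} (𝓗 : Cx ℤ E m →ₗ[ℤ] Cx ℤ E' k) (α : H → H')
    (h : ∀ (g : H) (c : Cx ℤ E m), 𝓗 (push ℤ (fun y => ι g * y) m c) =
      push ℤ (fun y => ι' (α g) * y) k (𝓗 c)) {c : Cx ℤ E m} (hc : c ∈ coiH ι m) :
    𝓗 c ∈ coiH ι' k := by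
  refine coiH_le_comap 𝓗 (coiH ι' k) ?_ hc
  intro g x
  rw [← push_single (R := ℤ) (fun y => ι g * y) m x, h]
  exact push_lmul_sub_memH ι' k (α g) _

/-- an equivariant projection to `H` -/
theorem exists_equi (ι : H →* E) (hι : Function.Injective ι) :
    ∃ q : E → H, ∀ (h : H) (x : E), q (ι h * x) = h * q x := by
  let r : Setoid E := QuotientGroup.rightRel ι.range
  have hrel : ∀ x : E, ∃ h : H, x = ι h * (Quotient.mk r x).out := by
    intro x
    have h1 : r ((Quotient.mk r x).out) x := Quotient.exact (Quotient.out_eq _)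
    have h2 : x * ((Quotient.mk r x).out)⁻¹ ∈ ι.range := QuotientGroup.rightRel_apply.1 h1
    obtain ⟨h, hh⟩ := h2
    exact ⟨h, by rw [hh]; group⟩
  choose q hq using hrel
  refine ⟨q, fun h x => hι ?_⟩
  have h3 : Quotient.mk r (ι h * x) = Quotient.mk r x := by
    refine Quotient.sound ?_
    refine QuotientGroup.rightRel_apply.2 ?_
    rw [mul_inv_rev, ← mul_assoc, mul_inv_cancel, one_mul]
    exact ι.range.inv_mem ⟨h, rfl⟩
  have h4 := hq (ι h * x)
  rw [h3] at h4
  have h5 := hq x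
  rw [map_mul]
  have h6 : ι (q (ι h * x)) * (Quotient.mk r x).out = ι h * ι (q x) * (Quotient.mk r x).out := by
    rw [← h4, mul_assoc, ← h5]
  exact mul_right_cancel h6

/-- the chains of `H` under an equivariant projection -/
theorem push_coiH_coi (ι : H →* E) (q : E → H) (hq : ∀ (h : H) (x : E), q (ι h * x) = h * q x)
    (n : ℕ) {c : Cx ℤ E n} (hc : c ∈ coiH ι n) : push ℤ q n c ∈ coi H n := by
  refine coiH_le_comap (push ℤ q n) (coi H n) ?_ hc
  intro g x
  rw [push_single, push_single]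
  refine Submodule.subset_span ⟨g, fun j => q (x j), ?_⟩
  simp only [hq]

/-- the homotopy between the identity and the projection to `H` -/
theorem exists_homH (ι : H →* E) (q : E → H) (hq : ∀ (h : H) (x : E), q (ι h * x) = h * q x) :
    ∃ 𝓗 : ∀ n, Cx ℤ E n →ₗ[ℤ] Cx ℤ E (n + 1),
      (∀ n (c : Cx ℤ E (n + 1)), bd ℤ E (n + 1) (𝓗 (n + 1) c) + 𝓗 n (bd ℤ E n c) =
        c - push ℤ ι (n + 1) (push ℤ q (n + 1) c)) ∧
      ∀ (n : ℕ) {c : Cx ℤ E n}, c ∈ coiH ι n → 𝓗 n c ∈ coiH ι (n + 1) := by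
  obtain ⟨𝓗, h1, h2⟩ := exists_homotopy (fun x : E => Finsupp.single x (1 : ℤ))
    (fun x => Finsupp.single (ι (q x)) 1) 1 (fun x => mass_single' _ _)
    (fun x => mass_single' _ _) (fun x => x)
  refine ⟨𝓗, fun n c => ?_, fun n c hc => ?_⟩
  · have h3 := h1 n c
    rwa [one_smul, ← push_eq_vmap, ← push_eq_vmap, push_id, ← push_push] at h3
  · refine equi_coiH (ι := ι) (ι' := ι) (𝓗 n) (fun h => h) ?_ hc
    intro g c
    refine h2 _ _ (fun x => ?_) (fun x => ?_) (fun x => rfl) n c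
    · exact Finsupp.mapDomain_single
    · rw [Finsupp.mapDomain_single, hq, map_mul]

/-- **The homology of `H` computed with the chains of `E`.** -/
theorem exists_res (ι : H →* E) (hι : Function.Injective ι) (n : ℕ) (x : Cx ℤ E (n + 1))
    (hx : bd ℤ E n x ∈ coiH ι n) :
    ∃ y : cyc H n, x - push ℤ ι (n + 1) (y : Cx ℤ H (n + 1)) ∈ bnH ι (n + 1) := by
  obtain ⟨q, hq⟩ := exists_equi ι hι
  obtain ⟨𝓗, h1, h2⟩ := exists_homH ι q hq
  have h3 : bd ℤ H n (push ℤ q (n + 1) x) ∈ coi H n := by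
    rw [bd_push]
    exact push_coiH_coi ι q hq n hx
  refine ⟨⟨push ℤ q (n + 1) x, h3⟩, ?_⟩
  rw [← h1 n x]
  exact Submodule.add_mem_sup (LinearMap.mem_range_self _ _) (h2 n hx)

end

end Pool.Agent.H71.CZ

end

section

/-!
# Project CZ: left translation by an element which normalises `H`

`t * ι h * t⁻¹ = ι (α h)`; the left translation by `t` acts on the homology of `H`, computed with the chains of `E`, as `α`.
-/

set_option autoImplicit false

universe u v w

namespace Pool.Agent.H71.CZ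

open Pool.Agent.H71.FQ

section

variable {E : Type v} [Group E] {H : Type w} [Group H]

theorem push_bnd_bnH (ι : H →* E) (n : ℕ) {c : Cx ℤ H (n + 1)} (hc : c ∈ bnd H n) :
    push ℤ ι (n + 1) c ∈ bnH ι (n + 1) := by
  obtain ⟨_, ⟨b, rfl⟩, d, hd, rfl⟩ := Submodule.mem_sup.1 hc
  rw [map_add, ← bd_push]
  exact Submodule.add_mem_sup (LinearMap.mem_range_self _ _) (push_coi_coiH ι (n + 1) hd)

theorem push_lmul_bnH (ι : H →* E) (t : E) (α : H →* H) (ht : ∀ h, t * ι h * t⁻¹ = ι (α h))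
    (n : ℕ) {c : Cx ℤ E n} (hc : c ∈ bnH ι n) : push ℤ (fun y => t * y) n c ∈ bnH ι n := by
  obtain ⟨_, ⟨b, rfl⟩, d, hd, rfl⟩ := Submodule.mem_sup.1 hc
  rw [map_add, ← bd_push]
  refine Submodule.add_mem_sup (LinearMap.mem_range_self _ _)
    (push_coiH (fun y => t * y) α (fun h x => ?_) n hd)
  rw [← ht]
  group

/-- **The left translation by `t`.** -/
theorem lmul_sub (ι : H →* E) (hι : Function.Injective ι) (t : E) (α : H →* H)
    (ht : ∀ h, t * ι h * t⁻¹ = ι (α h)) (n : ℕ) (μ : ℤ) (hα : ∀ z : HG H n, HG.map n α z = μ • z)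
    (x : Cx ℤ E (n + 1)) (hx : bd ℤ E n x ∈ coiH ι n) :
    push ℤ (fun y => t * y) (n + 1) x - μ • x ∈ bnH ι (n + 1) := by
  obtain ⟨y, hy⟩ := exists_res ι hι n x hx
  -- the homotopy between `h ↦ t * ι h` and `h ↦ ι (α h)`
  obtain ⟨𝓗, h1, h2⟩ := exists_homotopy (R := ℤ) (fun h : H => Finsupp.single (t * ι h) 1)
    (fun h : H => Finsupp.single (ι (α h)) 1) 1 (fun x => mass_single' _ _)
    (fun x => mass_single' _ _) (fun h => t * ι h)
  have e1 := h1 n y
  rw [vmap_point, vmap_point, one_smul] at e1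
  have e2 : 𝓗 n (bd ℤ H n y) ∈ coiH ι (n + 1) := by
    have h3 : (bd ℤ H n (y : Cx ℤ H (n + 1))) ∈ coiH (MonoidHom.id H) n := by
      have h4 := push_coi_coiH (MonoidHom.id H) n y.2
      rwa [show push ℤ (MonoidHom.id H) n (bd ℤ H n (y : Cx ℤ H (n + 1))) =
        bd ℤ H n (y : Cx ℤ H (n + 1)) from push_id n _] at h4
    refine equi_coiH (ι := MonoidHom.id H) (ι' := ι) (𝓗 n) α (fun g c => ?_) h3
    refine h2 (fun y => g * y) (fun y => ι (α g) * y) ?_ ?_ ?_ n c
    · intro a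
      simp only [Finsupp.mapDomain_single]
      congr 1
      rw [← ht, map_mul]
      group
    · intro a
      simp only [Finsupp.mapDomain_single, map_mul]
    · intro a
      rw [← ht, map_mul]
      group
  have e3 : push ℤ (fun h => t * ι h) (n + 1) (y : Cx ℤ H (n + 1)) -
      push ℤ (fun h => ι (α h)) (n + 1) (y : Cx ℤ H (n + 1)) ∈ bnH ι (n + 1) := by
    rw [← e1]
    exact Submodule.add_mem_sup (LinearMap.mem_range_self _ _) e2
  -- the action of `α`
  have e4 : push ℤ α (n + 1) (y : Cx ℤ H (n + 1)) - μ • (y : Cx ℤ H (n + 1)) ∈ bnd H n := by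
    have h3 := hα (HG.mk y)
    rw [HG.map_mk] at h3
    have h4 : μ • HG.mk y = HG.mk (μ • y) := rfl
    rw [h4, HG.mk_eq_iff] at h3
    exact h3
  have e5 := push_bnd_bnH ι n e4
  rw [map_sub, map_smul, push_push] at e5
  have e6 := push_lmul_bnH ι t α ht (n + 1) hy
  rw [map_sub, push_push] at e6
  have e7 : push ℤ (fun y => t * y) (n + 1) x - μ • x =
      (push ℤ (fun y => t * y) (n + 1) x - push ℤ (fun h => t * ι h) (n + 1) (y : Cx ℤ H (n + 1))) +
      (push ℤ (fun h => t * ι h) (n + 1) (y : Cx ℤ H (n + 1)) -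
        push ℤ (fun h => ι (α h)) (n + 1) (y : Cx ℤ H (n + 1))) +
      (push ℤ (fun h => ι (α h)) (n + 1) (y : Cx ℤ H (n + 1)) -
        μ • push ℤ ι (n + 1) (y : Cx ℤ H (n + 1))) -
      μ • (x - push ℤ ι (n + 1) (y : Cx ℤ H (n + 1))) := by
    rw [smul_sub]
    abel
  rw [e7]
  exact Submodule.sub_mem _ (Submodule.add_mem _ (Submodule.add_mem _ e6 e3) e5)
    (Submodule.smul_mem _ _ hy)

end

end Pool.Agent.H71.CZ

end

section

/-!
# Project FQ: homomorphisms from homology to the `p`-adic integers come from cocycles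

PROOF. Let `C` be the quotient of the chains of degree `n + 1` by `coi` and `Z` the image of the cycles. `C / Z` embeds
in the chains of degree `n` modulo `coi`, which is a free abelian group (basis: the tuples `(1, x_1, …)`), hence it is
torsion free. A homomorphism `f : Z → ℤ_p` extends to every subgroup `Z + E`, `E` finitely generated, since
`(Z + E) / Z` is finitely generated and torsion free, hence free. By compactness of the product of copies of `ℤ_p`
(closed conditions: additivity on the finitely generated pieces, agreement with `f` on `Z`) it extends to `C`.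
-/

set_option autoImplicit false

universe u v w

namespace Pool.Agent.H71.FQ

/-- extension on finitely generated pieces -/
theorem exists_extension_aux (p : ℕ) [Fact p.Prime] {C : Type v} [AddCommGroup C]
    (Z : AddSubgroup C) (h : ∀ (m : ℤ) (x : C), m ≠ 0 → m • x ∈ Z → x ∈ Z) (f : Z →+ ℤ_[p])
    (S : Finset C) : ∃ g : C → ℤ_[p], (∀ x ∈ S, ∀ y ∈ S, g (x + y) = g x + g y) ∧
      ∀ z : Z, g z = f z := by
  classical
  let Z' : Submodule ℤ C := AddSubgroup.toIntSubmodule Z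
  let E : Submodule ℤ (C ⧸ Z') := Submodule.span ℤ (Z'.mkQ '' (S : Set C))
  have hfin : Module.Finite ℤ E :=
    Module.Finite.span_of_finite ℤ (S.finite_toSet.image _)
  have htf : Module.IsTorsionFree ℤ E := by
    constructor
    intro m hm
    have hm0 : m ≠ 0 := hm.ne_zero
    intro x y hxy
    have h1 : m • (x - y) = 0 := by
      rw [smul_sub, sub_eq_zero]
      exact hxy
    have h2 : (x - y : E) = 0 := by
      apply Subtype.ext
      obtain ⟨c, hc⟩ := Z'.mkQ_surjective ((x - y : E) : C ⧸ Z')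
      have h3 : Z'.mkQ (m • c) = 0 := by
        rw [map_smul, hc]
        exact congrArg Subtype.val h1
      rw [Submodule.mkQ_apply, Submodule.Quotient.mk_eq_zero] at h3
      rw [← hc, Submodule.mkQ_apply]
      exact (Submodule.Quotient.mk_eq_zero Z').2 (h m c hm0 h3)
    exact sub_eq_zero.1 h2
  have hfree : Module.Free ℤ E := Module.free_of_finite_type_torsion_free'
  obtain ⟨s, hs⟩ := Module.projective_lifting_property Z'.mkQ E.subtype Z'.mkQ_surjective
  have hs' : ∀ e : E, Z'.mkQ (s e) = e := fun e => LinearMap.congr_fun hs e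
  have hmem : ∀ (x : C) (hx : Z'.mkQ x ∈ E), x - s ⟨Z'.mkQ x, hx⟩ ∈ Z := by
    intro x hx
    have h1 : Z'.mkQ (x - s ⟨Z'.mkQ x, hx⟩) = 0 := by
      rw [map_sub, hs', sub_self]
    rw [Submodule.mkQ_apply, Submodule.Quotient.mk_eq_zero] at h1
    exact h1
  let g : C → ℤ_[p] := fun x =>
    if hx : Z'.mkQ x ∈ E then f ⟨x - s ⟨Z'.mkQ x, hx⟩, hmem x hx⟩ else 0
  have hg : ∀ (x : C) (hx : Z'.mkQ x ∈ E), g x = f ⟨x - s ⟨Z'.mkQ x, hx⟩, hmem x hx⟩ :=
    fun x hx => dif_pos hx
  refine ⟨g, ?_, ?_⟩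
  · intro x hx y hy
    have hx' : Z'.mkQ x ∈ E := Submodule.subset_span ⟨x, hx, rfl⟩
    have hy' : Z'.mkQ y ∈ E := Submodule.subset_span ⟨y, hy, rfl⟩
    have hxy : Z'.mkQ (x + y) ∈ E := by
      rw [map_add]
      exact E.add_mem hx' hy'
    rw [hg _ hx', hg _ hy', hg _ hxy, ← map_add]
    congr 1
    apply Subtype.ext
    have h1 : (⟨Z'.mkQ (x + y), hxy⟩ : E) = ⟨Z'.mkQ x, hx'⟩ + ⟨Z'.mkQ y, hy'⟩ :=
      Subtype.ext (map_add _ _ _)
    show x + y - s ⟨Z'.mkQ (x + y), hxy⟩ = (x - s ⟨Z'.mkQ x, hx'⟩) + (y - s ⟨Z'.mkQ y, hy'⟩)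
    rw [h1, map_add]
    abel
  · intro z
    have h0 : Z'.mkQ (z : C) = 0 := by
      rw [Submodule.mkQ_apply, Submodule.Quotient.mk_eq_zero]
      exact z.2
    have hz : Z'.mkQ (z : C) ∈ E := by
      rw [h0]
      exact E.zero_mem
    rw [hg _ hz]
    congr 1
    apply Subtype.ext
    have h1 : (⟨Z'.mkQ (z : C), hz⟩ : E) = 0 := Subtype.ext h0
    show (z : C) - s ⟨Z'.mkQ (z : C), hz⟩ = z
    rw [h1, map_zero, sub_zero]

/-- extension of homomorphisms with values in `ℤ_p` from a subgroup with torsion free quotient -/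
theorem exists_extension (p : ℕ) [Fact p.Prime] {C : Type v} [AddCommGroup C] (Z : AddSubgroup C)
    (h : ∀ (m : ℤ) (x : C), m ≠ 0 → m • x ∈ Z → x ∈ Z) (f : Z →+ ℤ_[p]) :
    ∃ F : C →+ ℤ_[p], ∀ z : Z, F z = f z := by
  classical
  let t : C × C → Set (C → ℤ_[p]) := fun q =>
    {g | g (q.1 + q.2) = g q.1 + g q.2} ∩ {g | ∀ z : Z, g z = f z}
  have hcl : ∀ q, IsClosed (t q) := by
    intro q
    refine IsClosed.inter ?_ ?_
    · exact isClosed_eq (by fun_prop) (by fun_prop)
    · have h1 : {g : C → ℤ_[p] | ∀ z : Z, g z = f z} = ⋂ z : Z, {g | g z = f z} := by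
        ext g
        simp
      rw [h1]
      exact isClosed_iInter fun z => isClosed_eq (continuous_apply _) continuous_const
  have hne : ∀ s : Finset (C × C), (⋂ q ∈ s, t q).Nonempty := by
    intro s
    obtain ⟨g, hg1, hg2⟩ := exists_extension_aux p Z h f (s.image Prod.fst ∪ s.image Prod.snd)
    refine ⟨g, ?_⟩
    simp only [Set.mem_iInter]
    intro q hq
    refine ⟨hg1 _ ?_ _ ?_, hg2⟩
    · exact Finset.mem_union_left _ (Finset.mem_image_of_mem _ hq)
    · exact Finset.mem_union_right _ (Finset.mem_image_of_mem _ hq)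
  obtain ⟨g, hg⟩ := CompactSpace.iInter_nonempty hcl hne
  rw [Set.mem_iInter] at hg
  exact ⟨AddMonoidHom.mk' g fun x y => (hg (x, y)).1, fun z => (hg (0, 0)).2 z⟩

/-- the normal form of a chain modulo the relations: move the first entry to `1` -/
noncomputable def nrm (Γ : Type v) [Group Γ] (n : ℕ) : Cx ℤ Γ n →ₗ[ℤ] Cx ℤ Γ n :=
  Finsupp.linearCombination ℤ fun x : Fin (n + 1) → Γ =>
    Finsupp.single (fun j => (x 0)⁻¹ * x j) (1 : ℤ)

theorem nrm_single {Γ : Type v} [Group Γ] {n : ℕ} (x : Fin (n + 1) → Γ) :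
    nrm Γ n (Finsupp.single x 1) = Finsupp.single (fun j => (x 0)⁻¹ * x j) 1 := by
  rw [nrm, Finsupp.linearCombination_single, one_smul]

theorem nrm_coi {Γ : Type v} [Group Γ] {n : ℕ} {c : Cx ℤ Γ n} (hc : c ∈ coi Γ n) :
    nrm Γ n c = 0 := by
  have h := coi_le_comap (nrm Γ n) (⊥ : Submodule ℤ (Cx ℤ Γ n)) (fun g x => by
    rw [nrm_single, nrm_single]
    have e : (fun j => (g * x 0)⁻¹ * (g * x j)) = fun j => (x 0)⁻¹ * x j := by
      funext j
      group
    rw [e, sub_self]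
    exact Submodule.zero_mem _) hc
  exact (Submodule.mem_bot ℤ).1 h

theorem sub_nrm_mem {Γ : Type v} [Group Γ] {n : ℕ} (c : Cx ℤ Γ n) : c - nrm Γ n c ∈ coi Γ n := by
  induction c using Finsupp.induction_linear with
  | zero => simp
  | add a b ha hb =>
    have h : (a + b) - nrm Γ n (a + b) = (a - nrm Γ n a) + (b - nrm Γ n b) := by
      rw [map_add]
      abel
    rw [h]
    exact Submodule.add_mem _ ha hb
  | single x r =>
    have h : (Finsupp.single x r : Cx ℤ Γ n) = r • Finsupp.single x 1 := by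
      rw [Finsupp.smul_single, smul_eq_mul, mul_one]
    rw [h, map_smul, nrm_single, ← smul_sub]
    refine Submodule.smul_mem _ _ ?_
    have h1 : (Finsupp.single (fun j => (x 0)⁻¹ * x j) 1 - Finsupp.single x 1 : Cx ℤ Γ n) ∈
        coi Γ n := Submodule.subset_span ⟨(x 0)⁻¹, x, rfl⟩
    have h2 := Submodule.neg_mem _ h1
    rwa [neg_sub] at h2

/-- the chains modulo `coi` are torsion free -/
theorem coi_torsionFree {Γ : Type v} [Group Γ] {n : ℕ} (m : ℤ) (hm : m ≠ 0) (c : Cx ℤ Γ n)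
    (h : m • c ∈ coi Γ n) : c ∈ coi Γ n := by
  have h1 := nrm_coi h
  rw [map_smul] at h1
  have h2 : nrm Γ n c = 0 := (smul_eq_zero.1 h1).resolve_left hm
  have h3 := sub_nrm_mem c
  rwa [h2, sub_zero] at h3

theorem lc_addHom {Γ : Type v} {n : ℕ} {M : Type w} [AddCommGroup M] (F : Cx ℤ Γ n →+ M)
    (c : Cx ℤ Γ n) :
    Finsupp.linearCombination ℤ (fun x : Fin (n + 1) → Γ => F (Finsupp.single x 1)) c = F c := by
  have h : Finsupp.linearCombination ℤ (fun x : Fin (n + 1) → Γ => F (Finsupp.single x 1)) =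
      F.toIntLinearMap := by
    refine Finsupp.lhom_ext' fun x => LinearMap.ext_ring ?_
    simp only [LinearMap.comp_apply, Finsupp.lsingle_apply]
    rw [Finsupp.linearCombination_single, one_smul]
    rfl
  exact LinearMap.congr_fun h c

theorem coi_le_cyc {Γ : Type v} [Group Γ] {n : ℕ} {c : Cx ℤ Γ (n + 1)}
    (hc : c ∈ coi Γ (n + 1)) : c ∈ cyc Γ n := by
  show bd ℤ Γ n c ∈ coi Γ n
  refine coi_le_comap (bd ℤ Γ n) (coi Γ n) ?_ hc
  intro g x
  rw [bd_single, bd_single, ← Finset.sum_sub_distrib]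
  refine Submodule.sum_mem _ fun i _ => ?_
  rw [← smul_sub]
  exact Submodule.smul_mem _ _ (Submodule.subset_span ⟨g, fun j => x (i.succAbove j), rfl⟩)

theorem bnd_le_cyc {Γ : Type v} [Group Γ] {n : ℕ} {c : Cx ℤ Γ (n + 1)}
    (hc : c ∈ bnd Γ n) : c ∈ cyc Γ n := by
  obtain ⟨_, ⟨b, rfl⟩, d, hd, rfl⟩ := Submodule.mem_sup.1 hc
  refine Submodule.add_mem _ ?_ (coi_le_cyc hd)
  show bd ℤ Γ n (bd ℤ Γ (n + 1) b) ∈ coi Γ n
  rw [bd_bd]
  exact Submodule.zero_mem _

theorem exists_cocycle (p : ℕ) [Fact p.Prime] {Γ : Type v} [Group Γ] {n : ℕ}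
    (f : HG Γ n →+ ℤ_[p]) :
    ∃ (φ : (Fin (n + 2) → Γ) → ℤ_[p]) (hφ : IsCoc Γ n φ), ∀ x, HG.ev hφ x = f x := by
  let f0 : (cyc Γ n).toAddSubgroup →+ ℤ_[p] :=
    f.comp (AddMonoidHom.mk' (fun z : cyc Γ n => HG.mk z) HG.mk_add)
  have hf0 : ∀ z : cyc Γ n, f0 z = f (HG.mk z) := fun z => rfl
  obtain ⟨F, hF⟩ := exists_extension p (cyc Γ n).toAddSubgroup (by
    intro m x hm hx
    show bd ℤ Γ n x ∈ coi Γ n
    have h1 : bd ℤ Γ n (m • x) ∈ coi Γ n := hx
    rw [map_smul] at h1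
    exact coi_torsionFree m hm _ h1) f0
  have hF' : ∀ (c : Cx ℤ Γ (n + 1)) (hc : c ∈ cyc Γ n), F c = f (HG.mk ⟨c, hc⟩) :=
    fun c hc => hF ⟨c, hc⟩
  have hF0 : ∀ c : Cx ℤ Γ (n + 1), c ∈ bnd Γ n → F c = 0 := by
    intro c hc
    rw [hF' c (bnd_le_cyc hc)]
    have h0 : (0 : HG Γ n) = HG.mk 0 := rfl
    have h1 : HG.mk ⟨c, bnd_le_cyc hc⟩ = (0 : HG Γ n) := by
      rw [h0, HG.mk_eq_iff]
      show c - 0 ∈ bnd Γ n
      rw [sub_zero]
      exact hc
    rw [h1, map_zero]
  have hcoc : IsCoc Γ n fun x => F (Finsupp.single x 1) := by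
    constructor
    · intro g x
      rw [← sub_eq_zero, ← map_sub]
      exact hF0 _ (Submodule.mem_sup_right (Submodule.subset_span ⟨g, x, rfl⟩))
    · intro x
      have h1 := hF0 (bd ℤ Γ (n + 1) (Finsupp.single x 1))
        (Submodule.mem_sup_left (LinearMap.mem_range_self _ _))
      rw [bd_single, map_sum] at h1
      simp only [map_zsmul] at h1
      exact h1
  refine ⟨_, hcoc, ?_⟩
  intro x
  obtain ⟨z, rfl⟩ := HG.mk_surjective x
  rw [HG.ev_mk, lc_addHom]
  exact hF' z z.2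

end Pool.Agent.H71.FQ

end

section

/-!
# Project FQ: homology classes and relations come from subgroups containing finite sets

PROOFS. The normal form `nrm` commutes with `push f` and `push f` is injective for injective `f`; a chain lies in
`coi` if and only if its normal form vanishes.
-/

set_option autoImplicit false

universe u v w w'

namespace Pool.Agent.H71.FQ

section

variable {X : Type u} {Y : Type v}

theorem push_inj {f : X → Y} (hf : Function.Injective f) (m : ℕ) :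
    Function.Injective (push ℤ f m) := by
  intro a b hab
  rw [push_apply_eq_mapDomain, push_apply_eq_mapDomain] at hab
  exact Finsupp.mapDomain_injective hf.comp_left hab

/-- the vertices of a chain -/
theorem exists_push {m : ℕ} (c : Cx ℤ Y m) : ∃ S : Finset Y, ∀ {X : Type w} (f : X → Y),
    Function.Injective f → (∀ s ∈ S, s ∈ Set.range f) → ∃ c' : Cx ℤ X m, push ℤ f m c' = c := by
  classical
  refine ⟨c.support.biUnion fun x => Finset.univ.image x, ?_⟩
  intro X f hf hS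
  refine ⟨Finsupp.comapDomain (fun x j => f (x j)) c (hf.comp_left.injOn), ?_⟩
  rw [push_apply_eq_mapDomain]
  refine Finsupp.mapDomain_comapDomain _ hf.comp_left c ?_
  intro x hx
  have h1 : ∀ j, x j ∈ Set.range f := fun j =>
    hS _ (Finset.mem_biUnion.2 ⟨x, hx, Finset.mem_image_of_mem _ (Finset.mem_univ _)⟩)
  choose y hy using h1
  exact ⟨y, funext hy⟩

end

section

variable {Γ : Type v} [Group Γ] {Γ' : Type w} [Group Γ'] {n : ℕ}

theorem nrm_push (f : Γ' →* Γ) (c : Cx ℤ Γ' n) :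
    nrm Γ n (push ℤ f n c) = push ℤ f n (nrm Γ' n c) := by
  have h : (nrm Γ n).comp (push ℤ f n) = (push ℤ f n).comp (nrm Γ' n) := by
    refine Finsupp.lhom_ext' fun x => LinearMap.ext_ring ?_
    simp only [LinearMap.comp_apply, Finsupp.lsingle_apply]
    rw [push_single, nrm_single, nrm_single, push_single]
    congr 1
    funext j
    rw [map_mul, map_inv]
  exact LinearMap.congr_fun h c

theorem mem_coi_iff (c : Cx ℤ Γ n) : c ∈ coi Γ n ↔ nrm Γ n c = 0 := by
  constructor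
  · exact nrm_coi
  · intro h
    have h1 := sub_nrm_mem c
    rwa [h, sub_zero] at h1

theorem coi_of_push {f : Γ' →* Γ} (hf : Function.Injective f) {c : Cx ℤ Γ' n}
    (hc : push ℤ f n c ∈ coi Γ n) : c ∈ coi Γ' n := by
  rw [mem_coi_iff] at hc ⊢
  rw [nrm_push] at hc
  exact push_inj hf n (hc.trans (map_zero _).symm)

/-- every homology class comes from all groups `Γ' ⊆ Γ` which contain a finite set -/
theorem HG.exists_lift' (x : HG Γ n) :
    ∃ S : Finset Γ, ∀ {Γ' : Type w} [Group Γ'] (f : Γ' →* Γ), Function.Injective f →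
      (∀ s ∈ S, s ∈ Set.range f) → ∃ y : HG Γ' n, HG.map n f y = x := by
  obtain ⟨z, rfl⟩ := HG.mk_surjective x
  obtain ⟨S, hS⟩ := exists_push.{v, w} (z : Cx ℤ Γ (n + 1))
  refine ⟨S, ?_⟩
  intro Γ' _ f hf h
  obtain ⟨c, hc⟩ := hS f hf h
  have hcyc : c ∈ cyc Γ' n := by
    show bd ℤ Γ' n c ∈ coi Γ' n
    apply coi_of_push hf
    rw [← bd_push, hc]
    exact z.2
  refine ⟨HG.mk ⟨c, hcyc⟩, ?_⟩
  rw [HG.map_mk]
  congr 1
  exact Subtype.ext hc

/-- every homology class comes from all subgroups which contain a finite set -/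
theorem HG.exists_lift (x : HG Γ n) :
    ∃ S : Finset Γ, ∀ Γ' : Subgroup Γ, (∀ s ∈ S, s ∈ Γ') →
      ∃ y : HG Γ' n, HG.map n Γ'.subtype y = x := by
  obtain ⟨S, hS⟩ := HG.exists_lift'.{v, v} x
  exact ⟨S, fun Γ' h => hS Γ'.subtype Γ'.subtype_injective fun s hs => ⟨⟨s, h s hs⟩, rfl⟩⟩

theorem HG.mk_eq_zero {z : cyc Γ n} : HG.mk z = 0 ↔ (z : Cx ℤ Γ (n + 1)) ∈ bnd Γ n := by
  have h0 : (0 : HG Γ n) = HG.mk 0 := rfl
  rw [h0, HG.mk_eq_iff]
  change (z : Cx ℤ Γ (n + 1)) - 0 ∈ bnd Γ n ↔ _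
  rw [sub_zero]

/-- a homology class which dies in `Γ` dies in all groups `Γ'' ⊆ Γ` which contain a finite set -/
theorem HG.exists_zero (f : Γ' →* Γ) (x : HG Γ' n) (hx : HG.map n f x = 0) :
    ∃ S : Finset Γ, ∀ {Γ'' : Type w'} [Group Γ''] (g : Γ'' →* Γ) (k : Γ' →* Γ''),
      Function.Injective g → g.comp k = f → (∀ s ∈ S, s ∈ Set.range g) →
        HG.map n k x = 0 := by
  obtain ⟨z, rfl⟩ := HG.mk_surjective x
  rw [HG.map_mk, HG.mk_eq_zero] at hx
  obtain ⟨_, ⟨b, rfl⟩, d, hd, hbd⟩ := Submodule.mem_sup.1 hx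
  obtain ⟨S, hS⟩ := exists_push.{v, w'} b
  refine ⟨S, ?_⟩
  intro Γ'' _ g k hg hgk h
  obtain ⟨b', hb'⟩ := hS g hg h
  rw [HG.map_mk, HG.mk_eq_zero]
  have e1 : push ℤ k (n + 1) (z : Cx ℤ Γ' (n + 1)) - bd ℤ Γ'' (n + 1) b' ∈ coi Γ'' (n + 1) := by
    apply coi_of_push hg
    rw [map_sub, ← bd_push, hb', push_push]
    have e2 : (fun x => g (k x)) = f := by
      rw [← hgk]
      rfl
    rw [e2]
    have e3 : push ℤ f (n + 1) (z : Cx ℤ Γ' (n + 1)) - bd ℤ Γ (n + 1) b = d := by
      have e5 : bd ℤ Γ (n + 1) b + d = push ℤ f (n + 1) (z : Cx ℤ Γ' (n + 1)) := hbd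
      rw [← e5]
      abel
    rw [e3]
    exact hd
  have e4 : push ℤ k (n + 1) (z : Cx ℤ Γ' (n + 1)) = bd ℤ Γ'' (n + 1) b' +
      (push ℤ k (n + 1) (z : Cx ℤ Γ' (n + 1)) - bd ℤ Γ'' (n + 1) b') := by
    abel
  show push ℤ k (n + 1) (z : Cx ℤ Γ' (n + 1)) ∈ bnd Γ'' n
  rw [e4]
  exact Submodule.add_mem_sup (LinearMap.mem_range_self _ _) e1

end

end Pool.Agent.H71.FQ

end
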