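import Pool.Agent.H71.TCZ.M23
import Pool.Agent.H71.TCZ.M31
import Pool.Agent.H71.TCZ.M58

/-! The parts of this file: H71.CZ.Wang, H71.CZ.PowA, H39.KL.Mono. -/

section

/-!
# Project CZ: the homology of `A × ℤ`

`Γ = A × Multiplicative ℤ`, `T = (1, ofAdd 1)`, `ι = MonoidHom.inl A (Multiplicative ℤ)`.

PROOFS.  `coi_sub`: for `g = (a, T ^ i)` the generator `g x - x` is `(a T^i x - T^i x) + (T^i x - x)`, the first part is in
`coiH ι`, the second is `(T - 1) y` with `y` the sum of `x, T x, .., T^(i-1) x` (or minus the sum of `T^(-1) x, ..`).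
`lmul_inj`: the projection `nA` of the chains `(x_0, …, x_n) ↦ ((1, d_0), (a_0⁻¹ a_1, d_1), …)` (`x_i = (a_i, d_i)`) kills
`coiH ι`, `c - nA c ∈ coiH ι`, and it commutes with the translation by `T`.  So `nA c` is a finitely supported function on the
tuples which is invariant under the translation by `T`, which has infinite orbits: `nA c = 0` and `c ∈ coiH ι`.
`exists_wang`: `x` a cycle of degree `n + 2`, `bd x ∈ coi Γ (n + 1)`.  By `coi_sub` `bd x = (T b - b) + r`, `r ∈ coiH ι (n + 1)`, `b` a
chain of degree `n + 1`.  `0 = bd bd x`, so `T (bd b) - bd b ∈ coiH ι n` and `bd b ∈ coiH ι n` by `lmul_inj`.  By `exists_res`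
`b = push ι b' + bd c + r'`, `b' ∈ cyc A n`.  Put `x' = x - (T c - c) - pri T (push ι b')`: by `bd_pri` (and since `T` is central:
`y * T = T * y`) `bd x' ∈ coiH ι`.  By `exists_res` for `x'` there is `a ∈ cyc A (n + 1)` with `x' - push ι a ∈ bnH ι ≤ bnd`.
Hence `[x] = map ι [a] + crz [b']` (`HG.crz` is `HG.cr ι T`, `HG.cr_mk`).
`exists_wang_zero`: the same in degree one, `b` a chain of degree `0`, `b = push ι b' + bd c + r'` with `b'` any chain of degree
`0` of `A` by `exists_res_zero`; `pri T` of a single vertex `ι a` is the tuple `(ι a, ι a * T)`, equal to `(1, T)` modulo `coi Γ`.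
-/

set_option autoImplicit false

universe u v w

namespace Pool.Agent.H71.CZ

open Pool.Agent.H71.FQ Pool.Agent.H16.FU

section

variable {A : Type v} [Group A]

/-- the generator of the second factor -/
def tz (A : Type v) [Group A] : A × Multiplicative ℤ := (1, Multiplicative.ofAdd 1)

private theorem push_tz_coiH {n : ℕ} {c : Cx ℤ (A × Multiplicative ℤ) n}
    (hc : c ∈ coiH (MonoidHom.inl A (Multiplicative ℤ)) n) :
    push ℤ (fun x => tz A * x) n c ∈ coiH (MonoidHom.inl A (Multiplicative ℤ)) n := by
  refine push_coiH (ι := MonoidHom.inl A (Multiplicative ℤ))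
    (ι' := MonoidHom.inl A (Multiplicative ℤ)) (fun x => tz A * x) (fun h => h) ?_ n hc
  intro h x
  ext <;> simp [tz, mul_comm]

private theorem mul_tz (x : A × Multiplicative ℤ) : x * tz A = tz A * x := by
  ext <;> simp [tz, mul_comm]

private theorem push_mul_tz (n : ℕ) (c : Cx ℤ (A × Multiplicative ℤ) n) :
    push ℤ (fun x => x * tz A) n c = push ℤ (fun x => tz A * x) n c := by
  congr 2
  funext x
  exact mul_tz x

/-- the translations by the powers of the generator -/
private theorem zpow_sub (n : ℕ) (c : Cx ℤ (A × Multiplicative ℤ) n) (i : ℤ) :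
    push ℤ (fun x => ((1, Multiplicative.ofAdd i) : A × Multiplicative ℤ) * x) n c - c ∈
      LinearMap.range (push ℤ (fun x => tz A * x) n - LinearMap.id) := by
  have hstep : ∀ j : ℤ,
      push ℤ (fun x => ((1, Multiplicative.ofAdd (j + 1)) : A × Multiplicative ℤ) * x) n c =
      push ℤ (fun x => tz A * x) n
        (push ℤ (fun x => ((1, Multiplicative.ofAdd j) : A × Multiplicative ℤ) * x) n c) := by
    intro j
    rw [push_push]
    congr 2
    funext x
    rw [← mul_assoc]
    congr 1
    ext
    · simp [tz]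
    · show Multiplicative.ofAdd (j + 1) = Multiplicative.ofAdd 1 * Multiplicative.ofAdd j
      rw [← ofAdd_add, add_comm]
  have hmem : ∀ j : ℤ,
      push ℤ (fun x => ((1, Multiplicative.ofAdd (j + 1)) : A × Multiplicative ℤ) * x) n c -
        push ℤ (fun x => ((1, Multiplicative.ofAdd j) : A × Multiplicative ℤ) * x) n c ∈
      LinearMap.range (push ℤ (fun x => tz A * x) n - LinearMap.id) := by
    intro j
    rw [hstep j]
    exact ⟨_, rfl⟩
  induction i with
  | zero =>
    have h : push ℤ (fun x => ((1, Multiplicative.ofAdd 0) : A × Multiplicative ℤ) * x) n c =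
        c := by
      have h1 : (fun x : A × Multiplicative ℤ => ((1, Multiplicative.ofAdd 0) :
          A × Multiplicative ℤ) * x) = fun x => x := by
        funext x
        exact one_mul x
      rw [h1]
      exact push_id n c
    rw [h, sub_self]
    exact Submodule.zero_mem _
  | succ i ih =>
    have h := Submodule.add_mem _ (hmem i) ih
    rw [sub_add_sub_cancel] at h
    exact h
  | pred i ih =>
    have h := Submodule.sub_mem _ ih (hmem (-(i : ℤ) - 1))
    rw [sub_add_cancel, sub_sub_sub_cancel_left] at h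
    exact h

theorem coi_sub (n : ℕ) {c : Cx ℤ (A × Multiplicative ℤ) n}
    (hc : c ∈ coi (A × Multiplicative ℤ) n) :
    ∃ y : Cx ℤ (A × Multiplicative ℤ) n,
      c - (push ℤ (fun x => tz A * x) n y - y) ∈ coiH (MonoidHom.inl A (Multiplicative ℤ)) n := by
  have h1 := coi_le_comap (LinearMap.id : Cx ℤ (A × Multiplicative ℤ) n →ₗ[ℤ] _)
    (LinearMap.range (push ℤ (fun x => tz A * x) n - LinearMap.id) ⊔
      coiH (MonoidHom.inl A (Multiplicative ℤ)) n) ?_ hc
  · obtain ⟨_, ⟨y, rfl⟩, r, hr, h⟩ := Submodule.mem_sup.1 h1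
    refine ⟨y, ?_⟩
    have h2 : c - (push ℤ (fun x => tz A * x) n y - y) = r := by
      rw [LinearMap.id_apply] at h
      rw [← h, LinearMap.sub_apply, LinearMap.id_apply]
      abel
    rw [h2]
    exact hr
  · intro g x
    rw [LinearMap.id_apply, LinearMap.id_apply]
    obtain ⟨a, b⟩ := g
    have e1 := zpow_sub n (Finsupp.single x 1 : Cx ℤ (A × Multiplicative ℤ) n)
      (Multiplicative.toAdd b)
    have e2 := push_lmul_sub_memH (MonoidHom.inl A (Multiplicative ℤ)) n a
      (push ℤ (fun x => ((1, Multiplicative.ofAdd (Multiplicative.toAdd b)) :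
        A × Multiplicative ℤ) * x) n (Finsupp.single x 1))
    have e3 : (Finsupp.single (fun j => (a, b) * x j) 1 - Finsupp.single x 1 :
        Cx ℤ (A × Multiplicative ℤ) n) =
        (push ℤ (fun x => ((1, Multiplicative.ofAdd (Multiplicative.toAdd b)) :
          A × Multiplicative ℤ) * x) n (Finsupp.single x 1) - Finsupp.single x 1) +
        (push ℤ (fun y => MonoidHom.inl A (Multiplicative ℤ) a * y) n
          (push ℤ (fun x => ((1, Multiplicative.ofAdd (Multiplicative.toAdd b)) :
            A × Multiplicative ℤ) * x) n (Finsupp.single x 1)) -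
          push ℤ (fun x => ((1, Multiplicative.ofAdd (Multiplicative.toAdd b)) :
            A × Multiplicative ℤ) * x) n (Finsupp.single x 1)) := by
      have e4 : push ℤ (fun y => MonoidHom.inl A (Multiplicative ℤ) a * y) n
          (push ℤ (fun x => ((1, Multiplicative.ofAdd (Multiplicative.toAdd b)) :
            A × Multiplicative ℤ) * x) n (Finsupp.single x 1)) =
          Finsupp.single (fun j => (a, b) * x j) 1 := by
        rw [push_single, push_single]
        congr 1
        funext j
        rw [← mul_assoc]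
        congr 1
        ext <;> simp
      rw [e4]
      abel
    rw [e3]
    exact Submodule.add_mem_sup e1 e2

/-- the representatives of the tuples modulo the translations by the first factor -/
private noncomputable def nA (A : Type v) [Group A] (n : ℕ) :
    Cx ℤ (A × Multiplicative ℤ) n →ₗ[ℤ] Cx ℤ (A × Multiplicative ℤ) n :=
  Finsupp.linearCombination ℤ fun x : Fin (n + 1) → A × Multiplicative ℤ =>
    Finsupp.single (fun j => MonoidHom.inl A (Multiplicative ℤ) (x 0).1⁻¹ * x j) (1 : ℤ)

private theorem nA_single (n : ℕ) (x : Fin (n + 1) → A × Multiplicative ℤ) :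
    nA A n (Finsupp.single x 1) =
      Finsupp.single (fun j => MonoidHom.inl A (Multiplicative ℤ) (x 0).1⁻¹ * x j) (1 : ℤ) := by
  rw [nA, Finsupp.linearCombination_single, one_smul]

private theorem nA_coiH (n : ℕ) {c : Cx ℤ (A × Multiplicative ℤ) n}
    (hc : c ∈ coiH (MonoidHom.inl A (Multiplicative ℤ)) n) : nA A n c = 0 := by
  have h1 := coiH_le_comap (nA A n) (⊥ : Submodule ℤ (Cx ℤ (A × Multiplicative ℤ) n)) (fun g x => by
    rw [nA_single, nA_single, Submodule.mem_bot, sub_eq_zero]
    congr 1
    funext j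
    rw [← mul_assoc]
    congr 1
    ext <;> simp) hc
  exact (Submodule.mem_bot ℤ).1 h1

private theorem sub_nA (n : ℕ) (c : Cx ℤ (A × Multiplicative ℤ) n) :
    c - nA A n c ∈ coiH (MonoidHom.inl A (Multiplicative ℤ)) n := by
  have h := cx_ext (f := (coiH (MonoidHom.inl A (Multiplicative ℤ)) n).mkQ)
    (g := (coiH (MonoidHom.inl A (Multiplicative ℤ)) n).mkQ.comp (nA A n)) (fun x => by
      rw [LinearMap.comp_apply, nA_single]
      refine ((Submodule.Quotient.eq _).2 ?_).symm
      exact Submodule.subset_span ⟨(x 0).1⁻¹, x, rfl⟩) c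
  exact (Submodule.Quotient.eq _).1 h

private theorem nA_tz (n : ℕ) (c : Cx ℤ (A × Multiplicative ℤ) n) :
    nA A n (push ℤ (fun x => tz A * x) n c) = push ℤ (fun x => tz A * x) n (nA A n c) := by
  refine cx_ext (f := (nA A n).comp (push ℤ (fun x => tz A * x) n))
    (g := (push ℤ (fun x => tz A * x) n).comp (nA A n)) ?_ c
  intro x
  rw [LinearMap.comp_apply, LinearMap.comp_apply, push_single, nA_single, nA_single, push_single]
  congr 1
  funext j
  ext <;> simp [tz]

/-- there are no finite orbits -/
private theorem tz_inv (n : ℕ) {d : Cx ℤ (A × Multiplicative ℤ) n}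
    (hd : push ℤ (fun x => tz A * x) n d = d) : d = 0 := by
  by_contra h0
  have hne : d.support.Nonempty := Finsupp.support_nonempty_iff.2 h0
  obtain ⟨x, hx, hmax⟩ := d.support.exists_max_image
    (fun x => (Multiplicative.toAdd (x 0).2 : ℤ)) hne
  have hinj : Function.Injective
      fun (x : Fin (n + 1) → A × Multiplicative ℤ) (j : Fin (n + 1)) => tz A * x j := by
    intro x y hxy
    funext j
    exact mul_left_cancel (congrFun hxy j)
  have h1 : d (fun j => tz A * x j) = d x := by
    conv_lhs => rw [← hd, push_apply_eq_mapDomain]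
    exact Finsupp.mapDomain_apply hinj d x
  have h2 : (fun j => tz A * x j) ∈ d.support := by
    rw [Finsupp.mem_support_iff, h1]
    exact Finsupp.mem_support_iff.1 hx
  have h3 := hmax _ h2
  have h4 : (Multiplicative.toAdd (tz A * x 0).2 : ℤ) = 1 + Multiplicative.toAdd (x 0).2 := rfl
  have h5 : (Multiplicative.toAdd (tz A * x 0).2 : ℤ) ≤ Multiplicative.toAdd (x 0).2 := h3
  rw [h4] at h5
  omega

theorem lmul_inj (n : ℕ) {c : Cx ℤ (A × Multiplicative ℤ) n}
    (hc : push ℤ (fun x => tz A * x) n c - c ∈ coiH (MonoidHom.inl A (Multiplicative ℤ)) n) :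
    c ∈ coiH (MonoidHom.inl A (Multiplicative ℤ)) n := by
  have h1 := nA_coiH n hc
  rw [map_sub, nA_tz, sub_eq_zero] at h1
  have h2 := tz_inv n h1
  have h3 := sub_nA n c
  rw [h2, sub_zero] at h3
  exact h3

private theorem inl_inj : Function.Injective (MonoidHom.inl A (Multiplicative ℤ)) := by
  intro a b h
  exact congrArg Prod.fst h

private theorem bnH_le (n : ℕ) :
    bnH (MonoidHom.inl A (Multiplicative ℤ)) (n + 1) ≤ bnd (A × Multiplicative ℤ) n :=
  sup_le_sup_left (coiH_le_coi _ _) _

/-- **The homology of `A × ℤ` in degrees `≥ 2`.** -/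
theorem exists_wang (n : ℕ) (z : HG (A × Multiplicative ℤ) (n + 1)) :
    ∃ (a : HG A (n + 1)) (b : HG A n),
      z = HG.map (n + 1) (MonoidHom.inl A (Multiplicative ℤ)) a + HG.crz A n b := by
  obtain ⟨x, rfl⟩ := HG.mk_surjective z
  obtain ⟨b, hb⟩ := coi_sub (n + 1) x.2
  have hbb : bd ℤ (A × Multiplicative ℤ) n b ∈ coiH (MonoidHom.inl A (Multiplicative ℤ)) n := by
    refine lmul_inj n ?_
    have h1 := bd_coiH (MonoidHom.inl A (Multiplicative ℤ)) n hb
    rw [map_sub, map_sub, bd_bd, zero_sub, bd_push] at h1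
    have h2 := Submodule.neg_mem _ h1
    rw [neg_neg] at h2
    exact h2
  obtain ⟨b', hb'⟩ := exists_res (MonoidHom.inl A (Multiplicative ℤ)) inl_inj n b hbb
  obtain ⟨_, ⟨c, rfl⟩, r', hr', h3⟩ := Submodule.mem_sup.1 hb'
  set y : Cx ℤ (A × Multiplicative ℤ) (n + 1) :=
    push ℤ (MonoidHom.inl A (Multiplicative ℤ)) (n + 1) (b' : Cx ℤ A (n + 1)) with hy
  set x' : Cx ℤ (A × Multiplicative ℤ) (n + 2) :=
    (x : Cx ℤ (A × Multiplicative ℤ) (n + 2)) - (push ℤ (fun x => tz A * x) (n + 2) c - c) -
      pri (tz A) (n + 1) y with hx'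
  have hbx : bd ℤ (A × Multiplicative ℤ) (n + 1) x' ∈
      coiH (MonoidHom.inl A (Multiplicative ℤ)) (n + 1) := by
    have e1 := bd_pri (tz A) n y
    rw [push_mul_tz] at e1
    have e2 : b = bd ℤ (A × Multiplicative ℤ) (n + 1) c + r' + y := by
      rw [h3]
      abel
    have e3 : pri (tz A) n (bd ℤ (A × Multiplicative ℤ) n y) ∈
        coiH (MonoidHom.inl A (Multiplicative ℤ)) (n + 1) := by
      refine equi_coiH (ι := MonoidHom.inl A (Multiplicative ℤ))
        (ι' := MonoidHom.inl A (Multiplicative ℤ)) (pri (tz A) n) (fun h => h)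
        (fun g c => pri_lmul (tz A) (MonoidHom.inl A (Multiplicative ℤ) g) n c) ?_
      rw [hy, bd_push]
      exact push_coi_coiH _ n b'.2
    have e4 : bd ℤ (A × Multiplicative ℤ) (n + 1) x' =
        (bd ℤ (A × Multiplicative ℤ) (n + 1) (x : Cx ℤ (A × Multiplicative ℤ) (n + 2)) -
          (push ℤ (fun x => tz A * x) (n + 1) b - b)) +
        ((push ℤ (fun x => tz A * x) (n + 1) r' - r') +
          pri (tz A) n (bd ℤ (A × Multiplicative ℤ) n y)) := by
      have e5 : bd ℤ (A × Multiplicative ℤ) (n + 1) (pri (tz A) (n + 1) y) =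
          (push ℤ (fun x => tz A * x) (n + 1) y - y) -
            pri (tz A) n (bd ℤ (A × Multiplicative ℤ) n y) := by
        rw [← e1]
        abel
      rw [hx', map_sub, map_sub, map_sub, e5, bd_push]
      conv_rhs => rw [e2]
      rw [map_add, map_add]
      abel
    rw [e4]
    exact Submodule.add_mem _ hb
      (Submodule.add_mem _ (Submodule.sub_mem _ (push_tz_coiH hr') hr') e3)
  obtain ⟨a, ha⟩ := exists_res (MonoidHom.inl A (Multiplicative ℤ)) inl_inj (n + 1) x' hbx
  refine ⟨HG.mk a, HG.mk b', ?_⟩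
  rw [HG.crz, HG.cr_mk, HG.map_mk, ← HG.mk_add, HG.mk_eq_iff]
  show (x : Cx ℤ (A × Multiplicative ℤ) (n + 2)) -
    (push ℤ (MonoidHom.inl A (Multiplicative ℤ)) (n + 2) (a : Cx ℤ A (n + 2)) +
      pri (tz A) (n + 1) y) ∈ bnd (A × Multiplicative ℤ) (n + 1)
  have h5 : (x : Cx ℤ (A × Multiplicative ℤ) (n + 2)) -
      (push ℤ (MonoidHom.inl A (Multiplicative ℤ)) (n + 2) (a : Cx ℤ A (n + 2)) +
        pri (tz A) (n + 1) y) =
      (x' - push ℤ (MonoidHom.inl A (Multiplicative ℤ)) (n + 2) (a : Cx ℤ A (n + 2))) +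
        (push ℤ (fun x => tz A * x) (n + 2) c - c) := by
    rw [hx']
    abel
  rw [h5]
  exact Submodule.add_mem _ (bnH_le (n + 1) ha)
    (Submodule.mem_sup_right (push_lmul_sub_mem (tz A) c))

end

end Pool.Agent.H71.CZ

end

section

/-!
# Project CZ: the power map on the homology of a torsion free abelian group

PROOFS.  `pow_one`: `HG A 0` is generated by the classes of the tuples `(1, g)`, and `[(1, g h)] = [(1, g)] + [(1, h)]` (boundary of
`(1, g, g h)` and left translation), so `[(1, g ^ m)] = m [(1, g)]`.  (For a general cycle of degree `1`: every chain is modulo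
`coi` a combination of the `(1, g)`, each of which is a cycle.)
`pow_subsingleton`: `HG A n = 0` if `A` is trivial: `HG.map` of the identity is `HG.map` of the trivial homomorphism, `HG.map_one`.
`pow_prod`: `n = 0` is `pow_one`; for `n + 1` use `exists_wang`: `HG.map (pow m) (HG.map inl a) = HG.map inl (HG.map (pow m) a)`
(`HG.map_map`), and `HG.map (pow m) (HG.crz a) = HG.cr (inl ∘ pow m) (T ^ m) a = m • HG.cr (inl ∘ pow m) T a` (`HG.map_cr`, `HG.cr_mul`,
induction on `m`, `HG.cr_one`) `= m • HG.crz (HG.map (pow m) a)` (`HG.cr_comp`) `= m * m ^ (n + 1) • HG.crz a`.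
`pow_equiv`: transport along an isomorphism.
`pow_torsionFree`: by `HG.exists_lift` (or directly: the support of a cycle and of the chains which show that it is one is
finite) `z` comes from a finitely generated subgroup `A'`; `A'` is a finitely generated torsion free abelian group, so
isomorphic to `Multiplicative (Fin r → ℤ)` (`Module.Free` of finitely generated torsion free modules over `ℤ`,
`Module.finBasis`), and `Multiplicative (Fin (r + 1) → ℤ) ≃* Multiplicative (Fin r → ℤ) × Multiplicative ℤ`; induction on `r`.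
-/

set_option autoImplicit false

universe u v w

namespace Pool.Agent.H71.CZ

open Pool.Agent.H71.FQ Pool.Agent.H16.FU

/-- the power maps act on the homology of degree `n + 1` as `m ^ (n + 1)` -/
def PowH (A : Type v) [CommGroup A] : Prop :=
  ∀ (m n : ℕ) (z : HG A n), HG.map n (powMonoidHom m) z = ((m : ℤ) ^ (n + 1)) • z

section

variable {A : Type v} [CommGroup A]

private theorem tri (g h : A) :
    (Finsupp.single ![1, g * h] 1 - (Finsupp.single ![1, g] 1 + Finsupp.single ![1, h] 1) :
      Cx ℤ A 1) ∈ bnd A 0 := by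
  have e : bd ℤ A 1 (Finsupp.single ![1, g, g * h] 1) =
      Finsupp.single (fun j => g * (![1, h] : Fin 2 → A) j) 1 - Finsupp.single ![1, g * h] 1 +
        Finsupp.single ![1, g] 1 := by
    rw [bd_single, Fin.sum_univ_three]
    have e0 : (fun j => (![1, g, g * h] : Fin 3 → A) (Fin.succAbove 0 j)) =
        fun j => g * (![1, h] : Fin 2 → A) j := by
      funext j
      fin_cases j <;> simp
    have e1 : (fun j => (![1, g, g * h] : Fin 3 → A) (Fin.succAbove 1 j)) = ![1, g * h] := by
      funext j
      fin_cases j <;> rfl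
    have e2 : (fun j => (![1, g, g * h] : Fin 3 → A) (Fin.succAbove 2 j)) = ![1, g] := by
      funext j
      fin_cases j <;> rfl
    rw [e0, e1, e2]
    simp only [Fin.val_zero, Fin.val_one, Fin.val_two, pow_zero, pow_one, one_smul, neg_one_smul,
      even_two, Even.neg_pow, one_pow]
    abel
  have h1 : (Finsupp.single (fun j => g * (![1, h] : Fin 2 → A) j) 1 -
      Finsupp.single ![1, h] 1 : Cx ℤ A 1) ∈ bnd A 0 :=
    (le_sup_right : coi _ _ ≤ bnd _ _) (Submodule.subset_span ⟨g, _, rfl⟩)
  have h2 : bd ℤ A 1 (Finsupp.single ![1, g, g * h] 1) ∈ bnd A 0 :=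
    (le_sup_left : _ ≤ bnd _ _) (LinearMap.mem_range_self _ _)
  have h3 := Submodule.sub_mem _ h1 h2
  rw [e] at h3
  have h4 : ∀ u v w t : Cx ℤ A 1, (u - v) - (u - w + t) = w - (t + v) := by
    intro u v w t
    abel
  rwa [h4] at h3

private theorem tri_pow (g : A) (m : ℕ) :
    (Finsupp.single ![1, g ^ m] 1 - (m : ℤ) • Finsupp.single ![1, g] 1 : Cx ℤ A 1) ∈ bnd A 0 := by
  induction m with
  | zero =>
    have h := tri (1 : A) 1
    rw [mul_one] at h
    have h4 : ∀ u : Cx ℤ A 1, u - (u + u) = -u := by
      intro u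
      abel
    rw [h4, Submodule.neg_mem_iff] at h
    rw [pow_zero, Nat.cast_zero, zero_smul, sub_zero]
    exact h
  | succ m ih =>
    have h := tri (g ^ m) g
    have h2 := Submodule.add_mem _ h ih
    rw [pow_succ, Nat.cast_add, Nat.cast_one, add_smul, one_smul]
    have h4 : ∀ u v w t : Cx ℤ A 1, (u - (v + w)) + (v - t) = u - (t + w) := by
      intro u v w t
      abel
    rwa [h4] at h2

private theorem single_two (x : Fin 2 → A) :
    (Finsupp.single x 1 - Finsupp.single ![1, (x 0)⁻¹ * x 1] 1 : Cx ℤ A 1) ∈ bnd A 0 := by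
  refine (le_sup_right : coi _ _ ≤ bnd _ _) (Submodule.subset_span ⟨x 0, ![1, (x 0)⁻¹ * x 1], ?_⟩)
  have e : (fun j => x 0 * (![1, (x 0)⁻¹ * x 1] : Fin 2 → A) j) = x := by
    funext j
    fin_cases j <;> simp
  rw [e]

private theorem push_pow_sub (m : ℕ) (c : Cx ℤ A 1) :
    push ℤ (powMonoidHom m : A →* A) 1 c - (m : ℤ) • c ∈ bnd A 0 := by
  induction c using Finsupp.induction_linear with
  | zero => simp
  | add a b ha hb =>
    have h := Submodule.add_mem _ ha hb
    rw [map_add, smul_add]
    rwa [sub_add_sub_comm] at h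
  | single x r =>
    have h : (Finsupp.single x r : Cx ℤ A 1) = r • Finsupp.single x 1 := by
      rw [Finsupp.smul_single, smul_eq_mul, mul_one]
    rw [h, map_smul, smul_comm, ← smul_sub]
    refine Submodule.smul_mem _ _ ?_
    rw [push_single]
    have h1 := single_two fun j => (powMonoidHom m : A →* A) (x j)
    have h2 := tri_pow ((x 0)⁻¹ * x 1) m
    have h3 := Submodule.smul_mem _ (m : ℤ) (single_two x)
    have e : ((powMonoidHom m : A →* A) (x 0))⁻¹ * (powMonoidHom m : A →* A) (x 1) =
        ((x 0)⁻¹ * x 1) ^ m := by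
      rw [← map_inv, ← map_mul]
      rfl
    rw [e] at h1
    rw [smul_sub] at h3
    have h4 := Submodule.sub_mem _ (Submodule.add_mem _ h1 h2) h3
    have h5 : ∀ u v w t : Cx ℤ A 1, (u - v) + (v - w) - (t - w) = u - t := by
      intro u v w t
      abel
    rwa [h5] at h4

theorem pow_one_deg (m : ℕ) (z : HG A 0) : HG.map 0 (powMonoidHom m) z = (m : ℤ) • z := by
  obtain ⟨z, rfl⟩ := HG.mk_surjective z
  have h : (m : ℤ) • HG.mk z = HG.mk ((m : ℤ) • z) := rfl
  rw [h, HG.map_mk, HG.mk_eq_iff]
  exact push_pow_sub m (z : Cx ℤ A 1)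

theorem pow_subsingleton [Subsingleton A] : PowH A := by
  intro m n z
  have h : z = 0 := by
    have h1 := HG.map_id z
    have h2 : MonoidHom.id A = 1 := by
      ext a
      exact Subsingleton.elim _ _
    rw [h2, HG.map_one] at h1
    exact h1.symm
  rw [h, map_zero, smul_zero]

private theorem cr_pow {Γ Λ : Type*} [Group Γ] [Group Λ] {n : ℕ} (f : Γ →* Λ) (u : Λ)
    (hu : ∀ γ, f γ * u = u * f γ) (m : ℕ) (h : ∀ γ, f γ * u ^ m = u ^ m * f γ) (z : HG Γ n) :
    HG.cr f (u ^ m) h z = (m : ℤ) • HG.cr f u hu z := by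
  have e2 : ∀ (w w' : Λ) (_ : w = w') (hw : ∀ γ, f γ * w = w * f γ)
      (hw' : ∀ γ, f γ * w' = w' * f γ), HG.cr f w hw z = HG.cr f w' hw' z := by
    intro w w' hww hw hw'
    subst hww
    rfl
  induction m with
  | zero =>
    rw [e2 (u ^ 0) 1 (pow_zero u) h (fun γ => by rw [mul_one, one_mul]), HG.cr_one,
      Nat.cast_zero, zero_smul]
  | succ m ih =>
    have h1 : ∀ γ, f γ * u ^ m = u ^ m * f γ := fun γ => Commute.pow_right (hu γ) m
    have h2 : ∀ γ, f γ * (u ^ m * u) = u ^ m * u * f γ := by
      intro γ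
      rw [← pow_succ]
      exact h γ
    rw [e2 (u ^ (m + 1)) (u ^ m * u) (pow_succ u m) h h2, HG.cr_mul f (u ^ m) u h1 hu h2, ih h1,
      Nat.cast_add, Nat.cast_one, add_smul, one_smul]

theorem pow_prod (h : PowH A) : PowH (A × Multiplicative ℤ) := by
  intro m n z
  cases n with
  | zero =>
    rw [pow_one_deg, zero_add, pow_one]
  | succ n =>
    obtain ⟨a, b, rfl⟩ := exists_wang n z
    have e : (powMonoidHom m : A × Multiplicative ℤ →* A × Multiplicative ℤ).comp
        (MonoidHom.inl A (Multiplicative ℤ)) =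
        (MonoidHom.inl A (Multiplicative ℤ)).comp (powMonoidHom m) := by
      ext a
      · rfl
      · exact one_pow (M := Multiplicative ℤ) m
    have e1 : HG.map (n + 1) (powMonoidHom m)
        (HG.map (n + 1) (MonoidHom.inl A (Multiplicative ℤ)) a) =
        ((m : ℤ) ^ (n + 1 + 1)) • HG.map (n + 1) (MonoidHom.inl A (Multiplicative ℤ)) a := by
      rw [HG.map_map, e, ← HG.map_map, h, map_zsmul]
    have hT : ∀ γ, MonoidHom.inl A (Multiplicative ℤ) γ * (1, Multiplicative.ofAdd 1) =
        (1, Multiplicative.ofAdd 1) * MonoidHom.inl A (Multiplicative ℤ) γ := fun γ => by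
      ext <;> simp
    have hTm : ∀ γ, MonoidHom.inl A (Multiplicative ℤ) γ * (1, Multiplicative.ofAdd 1) ^ m =
        (1, Multiplicative.ofAdd 1) ^ m * MonoidHom.inl A (Multiplicative ℤ) γ := fun γ =>
      Commute.pow_right (hT γ) m
    have h3 : ∀ γ, ((MonoidHom.inl A (Multiplicative ℤ)).comp (powMonoidHom m)) γ *
        (1, Multiplicative.ofAdd 1) ^ m =
        (1, Multiplicative.ofAdd 1) ^ m *
          ((MonoidHom.inl A (Multiplicative ℤ)).comp (powMonoidHom m)) γ := fun γ => hTm _
    have e2 : HG.map (n + 1) (powMonoidHom m) (HG.crz A n b) =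
        HG.cr ((MonoidHom.inl A (Multiplicative ℤ)).comp (powMonoidHom m))
          ((1, Multiplicative.ofAdd 1) ^ m) h3 b := by
      have h4 : ∀ γ, ((powMonoidHom m : A × Multiplicative ℤ →* A × Multiplicative ℤ).comp
          (MonoidHom.inl A (Multiplicative ℤ))) γ *
          (powMonoidHom m : A × Multiplicative ℤ →* A × Multiplicative ℤ)
            (1, Multiplicative.ofAdd 1) =
          (powMonoidHom m : A × Multiplicative ℤ →* A × Multiplicative ℤ)
            (1, Multiplicative.ofAdd 1) *
          ((powMonoidHom m : A × Multiplicative ℤ →* A × Multiplicative ℤ).comp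
            (MonoidHom.inl A (Multiplicative ℤ))) γ := by
        rw [e]
        exact h3
      rw [HG.crz, HG.map_cr _ _ _ _ h4]
      have h5 : ∀ (f' : A →* A × Multiplicative ℤ)
          (_ : f' = (MonoidHom.inl A (Multiplicative ℤ)).comp (powMonoidHom m))
          (h : ∀ γ, f' γ * (1, Multiplicative.ofAdd 1) ^ m =
            (1, Multiplicative.ofAdd 1) ^ m * f' γ),
          HG.cr f' ((1, Multiplicative.ofAdd 1) ^ m) h b =
            HG.cr ((MonoidHom.inl A (Multiplicative ℤ)).comp (powMonoidHom m))
              ((1, Multiplicative.ofAdd 1) ^ m) h3 b := by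
        intro f' hf h
        subst hf
        rfl
      exact h5 _ e h4
    rw [map_add, smul_add, e1, e2, HG.cr_comp _ _ _ hTm h3, h, cr_pow _ _ hT, map_zsmul, smul_smul,
      ← pow_succ']
    rfl

theorem pow_equiv {A' : Type w} [CommGroup A'] (e : A ≃* A') (h : PowH A) : PowH A' := by
  intro m n z
  have h1 : z = HG.map n e.toMonoidHom (HG.map n e.symm.toMonoidHom z) := by
    rw [HG.map_map]
    have h2 : e.toMonoidHom.comp e.symm.toMonoidHom = MonoidHom.id A' := by
      ext a
      exact e.apply_symm_apply a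
    rw [h2, HG.map_id]
  have h3 : (powMonoidHom m : A' →* A').comp e.toMonoidHom =
      e.toMonoidHom.comp (powMonoidHom m) := by
    ext a
    exact (map_pow e a m).symm
  rw [h1, HG.map_map, h3, ← HG.map_map, h, map_zsmul]

/-- splitting off one coordinate -/
private def eqv (r : ℕ) : Multiplicative (Fin r → ℤ) × Multiplicative ℤ ≃*
    Multiplicative (Fin (r + 1) → ℤ) where
  toFun p := Multiplicative.ofAdd
    (Fin.cons (Multiplicative.toAdd p.2) (Multiplicative.toAdd p.1) : Fin (r + 1) → ℤ)
  invFun x := (Multiplicative.ofAdd (Fin.tail (Multiplicative.toAdd x)),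
    Multiplicative.ofAdd (Multiplicative.toAdd x 0))
  left_inv _ := rfl
  right_inv x := by
    show Multiplicative.ofAdd (Fin.cons (Multiplicative.toAdd x 0)
      (Fin.tail (Multiplicative.toAdd x)) : Fin (r + 1) → ℤ) = x
    rw [Fin.cons_self_tail]
    rfl
  map_mul' p q := by
    apply Multiplicative.toAdd.injective
    funext j
    refine Fin.cases ?_ (fun k => ?_) j
    · rfl
    · rfl

theorem pow_fin (r : ℕ) : PowH (Multiplicative (Fin r → ℤ)) := by
  induction r with
  | zero =>
    have : Subsingleton (Multiplicative (Fin 0 → ℤ)) :=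
      inferInstanceAs (Subsingleton (Fin 0 → ℤ))
    exact pow_subsingleton
  | succ r ih => exact pow_equiv (eqv r) (pow_prod ih)

/-- **The power maps of a torsion free abelian group.** -/
theorem pow_torsionFree (h : ∀ (a : A) (m : ℕ), m ≠ 0 → a ^ m = 1 → a = 1) : PowH A := by
  intro m n z
  obtain ⟨S, hS⟩ := HG.exists_lift z
  set A' : Subgroup A := Subgroup.closure (S : Set A) with hA'
  obtain ⟨y, rfl⟩ := hS A' fun s hs => Subgroup.subset_closure hs
  have hP : PowH A' := by
    have : Group.FG A' := (Group.fg_iff_subgroup_fg A').2 ⟨S, rfl⟩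
    have : AddGroup.FG (Additive A') := inferInstance
    have : Module.Finite ℤ (Additive A') := Module.Finite.iff_addGroup_fg.2 inferInstance
    have hA : IsAddTorsionFree (Additive A') := by
      refine ⟨fun k hk a b hab => ?_⟩
      have h1 : (Additive.toMul a) ^ k = (Additive.toMul b) ^ k := hab
      have h2 : (((Additive.toMul a : A') : A) / ((Additive.toMul b : A') : A)) ^ k = 1 := by
        rw [div_pow, div_eq_one]
        exact congrArg Subtype.val h1
      exact Additive.toMul.injective (Subtype.ext (div_eq_one.1 (h _ k hk h2)))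
    have : Module.IsTorsionFree ℤ (Additive A') := inferInstance
    have : Module.Free ℤ (Additive A') := inferInstance
    have e1 : Additive A' ≃ₗ[ℤ] (Fin (Module.finrank ℤ (Additive A')) → ℤ) :=
      (Module.finBasis ℤ (Additive A')).equivFun
    have e2 : Multiplicative (Fin (Module.finrank ℤ (Additive A')) → ℤ) ≃* A' :=
      (AddEquiv.toMultiplicative e1.toAddEquiv.symm).trans (MulEquiv.refl _)
    exact pow_equiv e2 (pow_fin _)
  have e : (powMonoidHom m : A →* A).comp A'.subtype = A'.subtype.comp (powMonoidHom m) := by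
    ext a
    rfl
  rw [HG.map_map, e, ← HG.map_map, hP, map_zsmul]

end

end Pool.Agent.H71.CZ

end

section

/-!
# Project KL: the trace cochains on monomial multiples of matrices over a commutative subgroup

`C` a finite commutative group, `f : C → G`, `A_t` invertible matrices over `B[C]` and `y_t` elements of `G` which
commute with `f(C)`.  For `x_t = f(A_t) y_t` the value is the sum over `d : C` of the value on `A` of the cochain
`(x_t) ↦ φ (u f(x_t) y_t)`, `u f(d) u⁻¹ = c` (zero if `f d` is not conjugate to `c`).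

PROOF of `TT_mono`: the letter `x_t⁻¹ x_{t+1}` is `f(A_t⁻¹ A_{t+1}) * y_t⁻¹ y_{t+1}`, so its coefficient at `g` is the sum over
the `α : C` with `f α * (y_t⁻¹ * y_{t+1}) = g` of the coefficient of `A_t⁻¹ A_{t+1}` at `α`.  Expand the left side by `TM_eq`
(`S` a finite set containing all `f α * (y_t⁻¹ * y_{t+1})`), expand the product of the sums (`Finset.prod_univ_sum` for lists of
matrices; or show first that the value is `∑ α : Fin K → C, tr (∏ cof (lts A t) (α t)) * wv c φ (fun t => f (α t) *
((y t)⁻¹ * y (t + 1)))`).  The product of the word is `f (∏ α)` (the `y`s telescope, cyclically, and commute with `f C`).  If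
`f d`, `d = ∏ α`, is conjugate to `c` by `u`, then `u * y 0` also conjugates it to `c`, and the vertices for `u * y 0` are
`u * f (α 0 ⋯ α (t - 1)) * y t`.  On the right side `TM_eq` with `S = univ`: the word `α` occurs exactly for `d = ∏ α`
(`C` is commutative).
-/

set_option autoImplicit false

open Matrix

universe u v w

namespace Pool.Agent.H39.KL

open Pool.Agent.H71.FQ Pool.Agent.H16.KN

section

variable {G : Type u} [Group G] {B : Type v} [CommRing B] {K : ℕ} [NeZero K]

open Classical in
/-- the transported cochain -/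
noncomputable def mph {C : Type w} [Group C] (f : C →* G) (c : G) (y : Fin K → G)
    (φ : (Fin K → G) → B) (d : C) (x : Fin K → C) : B :=
  if h : ∃ u : G, u * f d * u⁻¹ = c then φ (fun t => h.choose * f (x t) * y t) else 0

theorem mph_eq {C : Type w} [Group C] {f : C →* G} {c : G} {y : Fin K → G}
    (hy : ∀ (a : C) t, f a * y t = y t * f a) {φ : (Fin K → G) → B} (hφ : CI c φ) (d : C)
    (x : Fin K → C) (u : G) (hu : u * f d * u⁻¹ = c) :
    mph f c y φ d x = φ (fun t => u * f (x t) * y t) := by
  have _ := hy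
  have h : ∃ u : G, u * f d * u⁻¹ = c := ⟨u, hu⟩
  rw [mph, dif_pos h]
  generalize hw : h.choose = w
  have hw' : w * f d * w⁻¹ = c := by rw [← hw]; exact h.choose_spec
  have e : (fun t => w * f (x t) * y t) = fun t => (w * u⁻¹) * (u * f (x t) * y t) := by
    funext t
    group
  rw [e]
  refine hφ _ ?_ _
  calc w * u⁻¹ * c = w * u⁻¹ * (u * f d * u⁻¹) := by rw [hu]
    _ = (w * f d * w⁻¹) * (w * u⁻¹) := by group
    _ = c * (w * u⁻¹) := by rw [hw']

theorem CI_mph {C : Type w} [Group C] (hC : ∀ a b : C, a * b = b * a) {f : C →* G} {c : G}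
    {y : Fin K → G} {φ : (Fin K → G) → B} (hφ : CI c φ) (d : C) : CI d (mph f c y φ d) := by
  intro g _ x
  by_cases h : ∃ u : G, u * f d * u⁻¹ = c
  · rw [mph, mph, dif_pos h, dif_pos h]
    generalize hw : h.choose = w
    have hw' : w * f d * w⁻¹ = c := by rw [← hw]; exact h.choose_spec
    have e : (fun t => w * f (g * x t) * y t) =
        fun t => (w * f g * w⁻¹) * (w * f (x t) * y t) := by
      funext t
      rw [map_mul]
      group
    rw [e]
    refine hφ _ ?_ _
    calc w * f g * w⁻¹ * c = w * f g * w⁻¹ * (w * f d * w⁻¹) := by rw [hw']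
      _ = w * (f g * f d) * w⁻¹ := by group
      _ = w * (f d * f g) * w⁻¹ := by rw [← map_mul, hC, map_mul]
      _ = (w * f d * w⁻¹) * (w * f g * w⁻¹) := by group
      _ = c * (w * f g * w⁻¹) := by rw [hw']
  · rw [mph, mph, dif_neg h, dif_neg h]

/-- the coefficients of a monomial multiple -/
private theorem cof_mono {C : Type w} [Group C] [Fintype C] [DecidableEq G] (f : C →* G) {N : ℕ}
    (M : Matrix (Fin N) (Fin N) (MonoidAlgebra B C)) (z g : G) :
    cof (M.map (MonoidAlgebra.mapDomainRingHom B f) *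
      diagonal fun _ => MonoidAlgebra.single z (1 : B)) g =
      ∑ α : C, if f α * z = g then cof M α else 0 := by
  classical
  ext i j
  rw [cof, Matrix.map_apply, Matrix.mul_diagonal, Matrix.map_apply, Matrix.sum_apply]
  have h1 : ∀ a : MonoidAlgebra B C,
      ((MonoidAlgebra.mapDomainRingHom B f a) * MonoidAlgebra.single z (1 : B)).coeff g =
        ∑ α : C, if f α * z = g then a.coeff α else 0 := by
    intro a
    induction a using MonoidAlgebra.induction_linear with
    | zero => simp
    | add a b ha hb =>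
      rw [map_add, add_mul, MonoidAlgebra.coeff_add, Finsupp.add_apply, ha, hb,
        ← Finset.sum_add_distrib]
      refine Finset.sum_congr rfl fun α _ => ?_
      split_ifs
      · rw [MonoidAlgebra.coeff_add, Finsupp.add_apply]
      · rw [add_zero]
    | single β r =>
      rw [Finset.sum_eq_single β]
      · rw [MonoidAlgebra.mapDomainRingHom_apply, MonoidAlgebra.mapDomain_single,
          MonoidAlgebra.single_mul_single, mul_one, MonoidAlgebra.coeff_single,
          MonoidAlgebra.coeff_single, Finsupp.single_eq_same, Finsupp.single_apply]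
      · intro α _ hα
        rw [MonoidAlgebra.coeff_single, Finsupp.single_eq_of_ne hα]
        split_ifs <;> rfl
      · intro h
        exact absurd (Finset.mem_univ _) h
  rw [h1]
  refine Finset.sum_congr rfl fun α _ => ?_
  split_ifs
  · rfl
  · rfl

/-- multiples of the entries commute with an element which commutes with the subgroup -/
private theorem comm_mono {C : Type w} [Group C] (f : C →* G) (z : G)
    (hz : ∀ a : C, f a * z = z * f a) (a : MonoidAlgebra B C) :
    MonoidAlgebra.mapDomainRingHom B f a * MonoidAlgebra.single z (1 : B) =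
      MonoidAlgebra.single z (1 : B) * MonoidAlgebra.mapDomainRingHom B f a := by
  induction a using MonoidAlgebra.induction_linear with
  | zero => simp
  | add a b ha hb => rw [map_add, add_mul, mul_add, ha, hb]
  | single β r =>
    rw [MonoidAlgebra.mapDomainRingHom_apply, MonoidAlgebra.mapDomain_single,
      MonoidAlgebra.single_mul_single, MonoidAlgebra.single_mul_single, mul_one, one_mul, hz]

/-- the scalar matrix of an element -/
private noncomputable def dg (B : Type v) [CommRing B] {N : ℕ} (z : G) :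
    GLm N (MonoidAlgebra B G) :=
  ⟨diagonal fun _ => MonoidAlgebra.single z 1, diagonal fun _ => MonoidAlgebra.single z⁻¹ 1, by
    rw [diagonal_mul_diagonal, ← diagonal_one]
    congr 1
    funext i
    rw [MonoidAlgebra.single_mul_single, mul_inv_cancel, mul_one, MonoidAlgebra.one_def], by
    rw [diagonal_mul_diagonal, ← diagonal_one]
    congr 1
    funext i
    rw [MonoidAlgebra.single_mul_single, inv_mul_cancel, mul_one, MonoidAlgebra.one_def]⟩

/-- the letters of the tuple -/
private theorem lts_mono {C : Type w} [Group C] (f : C →* G) (y : Fin K → G)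
    (hy : ∀ (a : C) t, f a * y t = y t * f a) {N : ℕ} (A : Fin K → GLm N (MonoidAlgebra B C))
    (x : Fin K → GLm N (MonoidAlgebra B G))
    (hx : ∀ t, (x t).val = (A t).val.map (MonoidAlgebra.mapDomainRingHom B f) *
      diagonal fun _ => MonoidAlgebra.single (y t) 1) (j : Fin K) :
    lts x j = (lts A j).map (MonoidAlgebra.mapDomainRingHom B f) *
      diagonal fun _ => MonoidAlgebra.single ((y j)⁻¹ * y (j + 1)) 1 := by
  have h1 : ∀ t, x t = mapGL (MonoidAlgebra.mapDomainRingHom B f) N (A t) * dg B (y t) := by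
    intro t
    apply Units.ext
    rw [Units.val_mul, mapGL_val]
    exact hx t
  have h2 : ∀ (M : GLm N (MonoidAlgebra B C)) (t : Fin K),
      mapGL (MonoidAlgebra.mapDomainRingHom B f) N M * dg B (y t) =
        dg B (y t) * mapGL (MonoidAlgebra.mapDomainRingHom B f) N M := by
    intro M t
    apply Units.ext
    rw [Units.val_mul, Units.val_mul, mapGL_val]
    ext1 i k
    change (M.val.map (MonoidAlgebra.mapDomainRingHom B f) *
      diagonal (fun _ => MonoidAlgebra.single (y t) (1 : B)) :
        Matrix (Fin N) (Fin N) (MonoidAlgebra B G)) i k =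
      (diagonal (fun _ => MonoidAlgebra.single (y t) (1 : B)) *
        M.val.map (MonoidAlgebra.mapDomainRingHom B f) :
        Matrix (Fin N) (Fin N) (MonoidAlgebra B G)) i k
    rw [Matrix.mul_diagonal, Matrix.diagonal_mul, Matrix.map_apply]
    exact comm_mono f (y t) (fun a => hy a t) _
  have h3 : (x j)⁻¹ * x (j + 1) =
      mapGL (MonoidAlgebra.mapDomainRingHom B f) N ((A j)⁻¹ * A (j + 1)) *
        ((dg B (y j))⁻¹ * dg B (y (j + 1))) := by
    rw [h1, h1, _root_.mul_inv_rev, map_mul, map_inv]
    have h4 : (dg B (y j))⁻¹ * ((mapGL (MonoidAlgebra.mapDomainRingHom B f) N) (A j))⁻¹ =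
        ((mapGL (MonoidAlgebra.mapDomainRingHom B f) N) (A j))⁻¹ * (dg B (y j))⁻¹ := by
      rw [← _root_.mul_inv_rev, ← _root_.mul_inv_rev, h2]
    have h5 : (dg B (y j))⁻¹ * ((mapGL (MonoidAlgebra.mapDomainRingHom B f) N) (A (j + 1))) =
        ((mapGL (MonoidAlgebra.mapDomainRingHom B f) N) (A (j + 1))) * (dg B (y j))⁻¹ := by
      rw [inv_mul_eq_iff_eq_mul, ← mul_assoc, ← h2, mul_inv_cancel_right]
    rw [h4]
    simp only [mul_assoc]
    rw [← mul_assoc (dg B (y j))⁻¹ _ (dg B (y (j + 1))), h5]
    simp only [mul_assoc]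
  unfold lts
  rw [h3, Units.val_mul, mapGL_val]
  congr 1
  change (diagonal (fun _ => MonoidAlgebra.single (y j)⁻¹ (1 : B)) : Matrix (Fin N) (Fin N) _) *
    (diagonal (fun _ => MonoidAlgebra.single (y (j + 1)) (1 : B))) = _
  rw [diagonal_mul_diagonal]
  congr 1
  funext i
  rw [MonoidAlgebra.single_mul_single, mul_one]

private theorem prod_ite {R : Type*} [Semiring R] {n : ℕ} (p : Fin n → Prop) [DecidablePred p]
    [Decidable (∀ j, p j)] (a : Fin n → R) :
    (List.ofFn fun j => if p j then a j else 0).prod =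
      if ∀ j, p j then (List.ofFn a).prod else 0 := by
  split_ifs with h
  · congr 2
    funext j
    rw [if_pos (h j)]
  · push Not at h
    obtain ⟨j, hj⟩ := h
    apply List.prod_eq_zero
    rw [List.mem_ofFn]
    exact ⟨j, if_neg hj⟩

/-- expansion over the words in `C` -/
private theorem TM_mono {C : Type w} [Group C] [Fintype C] (f : C →* G) {c : G}
    {φ : (Fin K → G) → B} (hφ : CI c φ) {N : ℕ}
    (M : Fin K → Matrix (Fin N) (Fin N) (MonoidAlgebra B C)) (z : Fin K → G) :
    TM c φ (fun j => (M j).map (MonoidAlgebra.mapDomainRingHom B f) *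
      diagonal fun _ => MonoidAlgebra.single (z j) 1) =
      ∑ α : Fin K → C, ((List.ofFn fun j => cof (M j) (α j)).prod).trace *
        wv c φ (fun j => f (α j) * z j) := by
  classical
  have hmem : ∀ (j : Fin K) (α : C), f α * z j ∈
      Finset.univ.image (fun p : Fin K × C => f p.2 * z p.1) := fun j α =>
    Finset.mem_image.2 ⟨(j, α), Finset.mem_univ _, rfl⟩
  rw [TM_eq hφ _ (Finset.univ.image (fun p : Fin K × C => f p.2 * z p.1)) ?_]
  · have h1 : ∀ g : Fin K → (Finset.univ.image (fun p : Fin K × C => f p.2 * z p.1)),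
        ((List.ofFn fun j => cof ((M j).map (MonoidAlgebra.mapDomainRingHom B f) *
          diagonal fun _ => MonoidAlgebra.single (z j) 1) (g j : G)).prod).trace *
            wv c φ (fun j => (g j : G)) =
          ∑ α : Fin K → C, if ∀ j, f (α j) * z j = (g j : G) then
            ((List.ofFn fun j => cof (M j) (α j)).prod).trace *
              wv c φ (fun j => f (α j) * z j) else 0 := by
      intro g
      have h2 : (fun j => cof ((M j).map (MonoidAlgebra.mapDomainRingHom B f) *
          diagonal fun _ => MonoidAlgebra.single (z j) 1) (g j : G)) =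
          fun j => ∑ α : C, if f α * z j = (g j : G) then cof (M j) α else 0 := by
        funext j
        exact cof_mono f (M j) (z j) (g j : G)
      rw [h2]
      have h3 := MultilinearMap.map_sum (MultilinearMap.mkPiAlgebraFin ℕ K
        (Matrix (Fin N) (Fin N) B))
        (fun (j : Fin K) (α : C) => if f α * z j = (g j : G) then cof (M j) α else 0)
      simp only [MultilinearMap.mkPiAlgebraFin_apply] at h3
      rw [h3, Matrix.trace_sum, Finset.sum_mul]
      refine Finset.sum_congr rfl fun α _ => ?_
      rw [prod_ite]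
      split_ifs with h
      · congr 2
        funext j
        exact (h j).symm
      · rw [Matrix.trace_zero, zero_mul]
    rw [Finset.sum_congr rfl fun g _ => h1 g, Finset.sum_comm]
    refine Finset.sum_congr rfl fun α _ => ?_
    rw [Finset.sum_eq_single (fun j => ⟨f (α j) * z j, hmem j (α j)⟩)]
    · rw [if_pos fun j => rfl]
    · intro g _ hg
      rw [if_neg]
      intro h
      apply hg
      funext j
      exact Subtype.ext (h j).symm
    · intro h
      exact absurd (Finset.mem_univ _) h
  · intro j x hx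
    rw [cof_mono] at hx
    obtain ⟨α, -, hα⟩ := Finset.exists_ne_zero_of_sum_ne_zero hx
    by_cases h : f α * z j = x
    · rw [← h]
      exact hmem j α
    · rw [if_neg h] at hα
      exact absurd rfl hα

/-- the partial products of the letters -/
private theorem prod_take {C : Type w} [Group C] (f : C →* G) (y : Fin K → G)
    (hy : ∀ (a : C) t, f a * y t = y t * f a) (α : Fin K → C) (t : ℕ) (ht : t ≤ K) :
    ((List.ofFn fun j => f (α j) * ((y j)⁻¹ * y (j + 1))).take t).prod =
      f (((List.ofFn α).take t).prod) * ((y 0)⁻¹ * y (Fin.ofNat K t)) := by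
  induction t with
  | zero =>
    have h0 : (Fin.ofNat K 0 : Fin K) = 0 := rfl
    rw [List.take_zero, List.take_zero, List.prod_nil, List.prod_nil, map_one, one_mul, h0,
      inv_mul_cancel]
  | succ t ih =>
    have ht' : t < K := ht
    rw [List.take_succ_eq_append_getElem (by rw [List.length_ofFn]; exact ht'),
      List.take_succ_eq_append_getElem (by rw [List.length_ofFn]; exact ht'), List.prod_append,
      List.prod_append, List.prod_singleton, List.prod_singleton, List.getElem_ofFn,
      List.getElem_ofFn, ih ht'.le, map_mul]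
    have h1 : (Fin.ofNat K t : Fin K) = ⟨t, ht'⟩ := Fin.ext (Nat.mod_eq_of_lt ht')
    have h2 : (Fin.ofNat K (t + 1) : Fin K) = ⟨t, ht'⟩ + 1 := by
      apply Fin.ext
      rw [Fin.val_add]
      change (t + 1) % K = (t + 1 % K) % K
      rw [Nat.add_mod_mod]
    rw [h1, h2]
    have h3 : ∀ a : C, (y 0)⁻¹ * f a = f a * (y 0)⁻¹ := fun a => by
      rw [inv_mul_eq_iff_eq_mul, ← mul_assoc, ← hy, mul_inv_cancel_right]
    calc f (((List.ofFn α).take t).prod) * ((y 0)⁻¹ * y ⟨t, ht'⟩) *
          (f (α ⟨t, ht'⟩) * ((y ⟨t, ht'⟩)⁻¹ * y (⟨t, ht'⟩ + 1)))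
        = f (((List.ofFn α).take t).prod) * ((y 0)⁻¹ * (y ⟨t, ht'⟩ * f (α ⟨t, ht'⟩)) *
          ((y ⟨t, ht'⟩)⁻¹ * y (⟨t, ht'⟩ + 1))) := by group
      _ = f (((List.ofFn α).take t).prod) * (((y 0)⁻¹ * f (α ⟨t, ht'⟩)) * y (⟨t, ht'⟩ + 1)) := by
        rw [← hy]
        group
      _ = _ := by
        rw [h3]
        group

/-- the values on the words -/
private theorem wv_mono {C : Type w} [Group C] (f : C →* G) {c : G} (y : Fin K → G)
    (hy : ∀ (a : C) t, f a * y t = y t * f a) {φ : (Fin K → G) → B} (hφ : CI c φ)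
    (α : Fin K → C) :
    wv c φ (fun j => f (α j) * ((y j)⁻¹ * y (j + 1))) =
      mph f c y φ (List.ofFn α).prod (vtx 1 α) := by
  have h0 : (Fin.ofNat K K : Fin K) = 0 := Fin.ext (by
    change K % K = 0 % K
    rw [Nat.mod_self, Nat.zero_mod])
  have h1 : (List.ofFn fun j => f (α j) * ((y j)⁻¹ * y (j + 1))).prod = f (List.ofFn α).prod := by
    have h2 := prod_take f y hy α K le_rfl
    rw [List.take_of_length_le (by rw [List.length_ofFn]),
      List.take_of_length_le (by rw [List.length_ofFn]), h0, inv_mul_cancel, mul_one] at h2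
    exact h2
  by_cases h : ∃ u : G, u * f (List.ofFn α).prod * u⁻¹ = c
  · obtain ⟨u, hu⟩ := h
    rw [mph_eq hy hφ _ _ u hu, wv_eq hφ _ (u * y 0)]
    · congr 1
      funext t
      unfold vtx
      rw [prod_take f y hy α t t.2.le, one_mul]
      have h3 : (Fin.ofNat K (t : ℕ) : Fin K) = t := Fin.ext (Nat.mod_eq_of_lt t.2)
      rw [h3]
      calc u * y 0 * (f ((List.ofFn α).take t).prod * ((y 0)⁻¹ * y t))
          = u * (y 0 * f ((List.ofFn α).take t).prod) * ((y 0)⁻¹ * y t) := by group
        _ = u * (f ((List.ofFn α).take t).prod * y 0) * ((y 0)⁻¹ * y t) := by rw [hy]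
        _ = _ := by group
    · rw [h1]
      calc u * y 0 * f (List.ofFn α).prod * (u * y 0)⁻¹
          = u * (y 0 * f (List.ofFn α).prod) * (u * y 0)⁻¹ := by group
        _ = u * (f (List.ofFn α).prod * y 0) * (u * y 0)⁻¹ := by rw [hy]
        _ = u * f (List.ofFn α).prod * u⁻¹ := by group
        _ = c := hu
  · rw [wv_zero c φ _ fun u hu => h ⟨u, by rw [h1] at hu; exact hu⟩, mph, dif_neg h]

/-- **Monomial multiples of matrices over a commutative subgroup.** -/
theorem TT_mono {C : Type w} [Group C] [Fintype C] (hC : ∀ a b : C, a * b = b * a) (f : C →* G)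
    {c : G} (y : Fin K → G) (hy : ∀ (a : C) t, f a * y t = y t * f a) {φ : (Fin K → G) → B}
    (hφ : CI c φ) {N : ℕ} (A : Fin K → GLm N (MonoidAlgebra B C))
    (x : Fin K → GLm N (MonoidAlgebra B G))
    (hx : ∀ t, (x t).val = (A t).val.map (MonoidAlgebra.mapDomainRingHom B f) *
      diagonal fun _ => MonoidAlgebra.single (y t) 1) :
    TT c φ x = ∑ d : C, TT d (mph f c y φ d) A := by
  classical
  unfold TT
  have h1 : lts x = fun j => (lts A j).map (MonoidAlgebra.mapDomainRingHom B f) *
      diagonal fun _ => MonoidAlgebra.single ((y j)⁻¹ * y (j + 1)) 1 := by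
    funext j
    exact lts_mono f y hy A x hx j
  rw [h1, TM_mono f hφ]
  have h2 : ∀ d : C, TM d (mph f c y φ d) (lts A) =
      ∑ α : Fin K → C, ((List.ofFn fun j => cof (lts A j) (α j)).prod).trace *
        wv d (mph f c y φ d) α := by
    intro d
    rw [TM_eq (CI_mph hC hφ d) (lts A) Finset.univ fun _ _ _ => Finset.mem_univ _]
    refine Fintype.sum_equiv (Equiv.piCongrRight fun _ : Fin K =>
      Equiv.subtypeUnivEquiv fun a : C => Finset.mem_univ a) _ _ fun g => ?_
    rfl
  rw [Finset.sum_congr rfl fun d _ => h2 d, Finset.sum_comm]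
  refine Finset.sum_congr rfl fun α _ => ?_
  rw [← Finset.mul_sum, wv_mono f y hy hφ α, Finset.sum_eq_single (List.ofFn α).prod]
  · rw [wv_eq (CI_mph hC hφ _) α 1 (by rw [one_mul, inv_one, mul_one])]
  · intro d _ hd
    apply wv_zero
    intro u hu
    apply hd
    rw [← hu, hC u, mul_assoc, mul_inv_cancel, mul_one]
  · intro h
    exact absurd (Finset.mem_univ _) h

end

end Pool.Agent.H39.KL

end
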