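import Pool.Agent.H71.TCZ.M32
import Pool.Agent.H71.TCZ.M37
import Pool.Agent.H71.TCZ.M50
import Pool.Agent.H71.TCZ.M72
import Pool.Agent.H71.TCZ.M73

/-! The parts of this file: H71.CZ.CKill_1, H71.CZ.Desc, H71.CZ.ThDef_1, H39.KL.Coch1. -/

section

/-!
# Project CZ: center kills

**Lemma CK.**  `π : E → Q` surjective with an abelian torsion free kernel, `t ∈ E` central modulo the kernel and
`t a t⁻¹ = a ^ m` for `a` in the kernel, `m ≥ 2`: then `π` induces rational isomorphisms of the homology groups.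

PROOFS.  `hmu`: `lmul_sub` with `α = ` the `m`-th power map of the kernel (a commutative group by `comm`), `pow_torsionFree`;
`μ n = m ^ (n + 1)`.  Take `h` from `exists_h`.  Modulo `coi E` the map `lt t` is the identity (`push_lmul_sub_mem`), so
`Pn t μ n k c - (∏_{i < k} (1 - μ i)) • c ∈ coi E n` (induction on `k`; `lt t` preserves `coi E n`: `push_coi` does not apply
directly, `t * (g x) = (t g t⁻¹) (t x)`).
`ck_inj`: `z` a cycle with `push π z = bd c + d`, `d ∈ coi Q`.  Lift `c`, `d` to `c'`, `d' ∈ coi E` (`exists_push`,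
`exists_coi_lift`), `y = z - bd c' - d'`: `push π y = 0`, `bd y ∈ coi E n`.  The identity for `y`: `h n (bd y) ∈ coi E` by equivariance
(`equi_coi` with the identity), so `(∏_{i ≤ n} (1 - μ i)) • y ∈ bnd E n`, and the same for `z`; `1 - m ^ (i + 1) ≠ 0`.
`ck_surj`: `z` a cycle of `Q` of degree `n + 1`; lift it to `z'`; `push π (bd z') = bd z ∈ coi Q n`, `= push π e`, `e ∈ coi E n`;
`y = bd z' - e` has `push π y = 0`, `bd y = - bd e ∈ coi E` (if `n ≥ 1`).  If `n = 0`: `y ∈ coiH ι 0 ≤ coi E 0` (`mem_coiH_zero`), `z'` is a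
cycle, `λ = 1`.  If `n = n' + 1`: the identity gives `λ • y - bd (h n y) ∈ coi E n` with `λ = ∏_{i < n} (1 - μ i)`, so
`λ • z' - h n y` is a cycle, and it is mapped to `λ • z`.
-/

set_option autoImplicit false

universe u v w

namespace Pool.Agent.H71.CZ

open Pool.Agent.H71.FQ

section

variable {E : Type v} [Group E] {Q : Type w} [Group Q]

theorem CKill.hmu {π : E →* Q} {t : E} {m : ℕ} (h : CKill π t m) (n : ℕ) (x : Cx ℤ E (n + 1))
    (hx : bd ℤ E n x ∈ coiH π.ker.subtype n) :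
    push ℤ (fun y => t * y) (n + 1) x - ((m : ℤ) ^ (n + 1)) • x ∈
      bnH π.ker.subtype (n + 1) := by
  let _ : CommGroup π.ker := { (inferInstance : Group π.ker) with
    mul_comm := fun a b => Subtype.ext (h.comm a a.2 b b.2) }
  refine lmul_sub π.ker.subtype Subtype.coe_injective t (powMonoidHom m) ?_ n ((m : ℤ) ^ (n + 1)) ?_
    x hx
  · intro a
    exact h.conj a a.2
  · intro z
    refine pow_torsionFree (A := π.ker) ?_ m n z
    intro a k hk ha
    exact Subtype.ext (h.tf a a.2 k hk (congrArg Subtype.val ha))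

/-- modulo the relations the left translation is the identity -/
theorem ck_Pn_sub_mem (t : E) (μ : ℕ → ℤ) (n k : ℕ) (c : Cx ℤ E n) :
    Pn t μ n k c - (∏ i ∈ Finset.range k, (1 - μ i)) • c ∈ coi E n := by
  induction k with
  | zero =>
    rw [Finset.prod_range_zero, one_smul]
    show c - c ∈ coi E n
    rw [sub_self]
    exact Submodule.zero_mem _
  | succ k ih =>
    have h1 : Pn t μ n (k + 1) c = push ℤ (fun y => t * y) n (Pn t μ n k c) - μ k • Pn t μ n k c :=
      rfl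
    have h2 := push_lmul_sub_mem t (Pn t μ n k c)
    have h3 : Pn t μ n (k + 1) c - (∏ i ∈ Finset.range (k + 1), (1 - μ i)) • c =
        (push ℤ (fun y => t * y) n (Pn t μ n k c) - Pn t μ n k c) +
          (1 - μ k) • (Pn t μ n k c - (∏ i ∈ Finset.range k, (1 - μ i)) • c) := by
      rw [h1, Finset.prod_range_succ, mul_comm, mul_smul]
      module
    rw [h3]
    exact Submodule.add_mem _ h2 (Submodule.smul_mem _ _ ih)

theorem ck_bd_coi (n : ℕ) {c : Cx ℤ E (n + 1)} (hc : c ∈ coi E (n + 1)) : bd ℤ E n c ∈ coi E n :=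
  equi_coi (MonoidHom.id E) (bd ℤ E n) (fun g c => bd_push (fun y => g * y) n c) hc

/-- the identity of `exists_h` modulo all the relations -/
theorem CKill.exists_ident {π : E →* Q} {t : E} {m : ℕ} (h : CKill π t m) (n : ℕ)
    (y : Cx ℤ E (n + 1)) (hy : push ℤ π (n + 1) y = 0) (hb : bd ℤ E n y ∈ coi E n) :
    ∃ w : Cx ℤ E (n + 2), push ℤ π (n + 2) w = 0 ∧
      (∏ i ∈ Finset.range (n + 1), (1 - (m : ℤ) ^ (i + 1))) • y - bd ℤ E (n + 1) w ∈
        coi E (n + 1) := by
  obtain ⟨H, h1, h2, -, h4⟩ := exists_h π h.surj t h.cent (fun n => (m : ℤ) ^ (n + 1)) h.hmu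
  refine ⟨H (n + 1) y, h2 (n + 1) y, ?_⟩
  have e1 := coiH_le_coi π.ker.subtype (n + 1) (h4 n y hy)
  have e2 : H n (bd ℤ E n y) ∈ coi E (n + 1) := equi_coi (MonoidHom.id E) (H n) (h1 n) hb
  have e3 : lt t (n + 1) (H n (bd ℤ E n y)) - H n (bd ℤ E n y) ∈ coi E (n + 1) :=
    push_lmul_sub_mem t (H n (bd ℤ E n y))
  have e4 := ck_Pn_sub_mem t (fun n => (m : ℤ) ^ (n + 1)) (n + 1) (n + 1) y
  have e5 : (∏ i ∈ Finset.range (n + 1), (1 - (m : ℤ) ^ (i + 1))) • y - bd ℤ E (n + 1) (H (n + 1) y) =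
      (lt t (n + 1) (H n (bd ℤ E n y)) - H n (bd ℤ E n y)) +
        (1 - (m : ℤ) ^ (n + 1)) • H n (bd ℤ E n y) -
        (bd ℤ E (n + 1) (H (n + 1) y) +
            (lt t (n + 1) (H n (bd ℤ E n y)) - ((m : ℤ) ^ (n + 1)) • H n (bd ℤ E n y)) -
          Pn t (fun n => (m : ℤ) ^ (n + 1)) (n + 1) (n + 1) y) -
        (Pn t (fun n => (m : ℤ) ^ (n + 1)) (n + 1) (n + 1) y -
          (∏ i ∈ Finset.range (n + 1), (1 - (m : ℤ) ^ (i + 1))) • y) := by
    rw [sub_smul, one_smul]
    abel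
  rw [e5]
  exact Submodule.sub_mem _ (Submodule.sub_mem _ (Submodule.add_mem _ e3
    (Submodule.smul_mem _ _ e2)) e1) e4

/-- the class of a cycle as a homomorphism -/
noncomputable def ckMk (Γ : Type v) [Group Γ] (n : ℕ) : cyc Γ n →+ HG Γ n :=
  AddMonoidHom.mk' HG.mk HG.mk_add

/-- **Lemma CK, injectivity.** -/
theorem ck_inj {π : E →* Q} {t : E} {m : ℕ} (h : CKill π t m) {n : ℕ} (z : HG E n)
    (hz : HG.map n π z = 0) : ∃ k : ℤ, k ≠ 0 ∧ k • z = 0 := by
  obtain ⟨z, rfl⟩ := HG.mk_surjective z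
  have h0 : (0 : HG Q n) = HG.mk 0 := rfl
  rw [HG.map_mk, h0, HG.mk_eq_iff] at hz
  have hz' : push ℤ π (n + 1) (z : Cx ℤ E (n + 1)) ∈ bnd Q n := by
    have := hz
    simpa using this
  obtain ⟨_, ⟨c, rfl⟩, d, hd, h1⟩ := Submodule.mem_sup.1 hz'
  obtain ⟨c', hc'⟩ := exists_push π h.surj (n + 2) c
  obtain ⟨d', hd', hd2⟩ := exists_coi_lift π h.surj (n + 1) hd
  have hy : push ℤ π (n + 1) ((z : Cx ℤ E (n + 1)) - bd ℤ E (n + 1) c' - d') = 0 := by
    rw [map_sub, map_sub, ← bd_push, hc', hd2, ← h1]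
    abel
  have hb : bd ℤ E n ((z : Cx ℤ E (n + 1)) - bd ℤ E (n + 1) c' - d') ∈ coi E n := by
    rw [map_sub, map_sub, bd_bd, sub_zero]
    exact Submodule.sub_mem _ z.2 (ck_bd_coi n hd')
  obtain ⟨w, -, hw⟩ := h.exists_ident n _ hy hb
  refine ⟨_, ck_prod_ne_zero h.two (n + 1), ?_⟩
  generalize (∏ i ∈ Finset.range (n + 1), (1 - (m : ℤ) ^ (i + 1))) = l at hw ⊢
  have h2 : l • HG.mk z = HG.mk (l • z) := (map_zsmul (ckMk E n) l z).symm
  have h3 : (0 : HG E n) = HG.mk 0 := rfl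
  rw [h2, h3, HG.mk_eq_iff]
  have h4 : ((l • z : cyc E n) : Cx ℤ E (n + 1)) - ((0 : cyc E n) : Cx ℤ E (n + 1)) =
      bd ℤ E (n + 1) (w + l • c') +
        ((l • ((z : Cx ℤ E (n + 1)) - bd ℤ E (n + 1) c' - d') - bd ℤ E (n + 1) w) + l • d') := by
    rw [map_add, map_smul, smul_sub, smul_sub]
    show l • (z : Cx ℤ E (n + 1)) - 0 = _
    abel
  rw [h4]
  exact Submodule.add_mem_sup (LinearMap.mem_range_self _ _)
    (Submodule.add_mem _ hw (Submodule.smul_mem _ _ hd'))

/-- **Lemma CK, surjectivity.** -/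
theorem ck_surj {π : E →* Q} {t : E} {m : ℕ} (h : CKill π t m) {n : ℕ} (z : HG Q n) :
    ∃ (k : ℤ) (z' : HG E n), k ≠ 0 ∧ HG.map n π z' = k • z := by
  obtain ⟨z, rfl⟩ := HG.mk_surjective z
  obtain ⟨z', hz'⟩ := exists_push π h.surj (n + 1) (z : Cx ℤ Q (n + 1))
  have hz2 : bd ℤ Q n (z : Cx ℤ Q (n + 1)) ∈ coi Q n := z.2
  obtain ⟨e, he, he2⟩ := exists_coi_lift π h.surj n hz2
  have hy : push ℤ π n (bd ℤ E n z' - e) = 0 := by
    rw [map_sub, ← bd_push, hz', he2, sub_self]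
  cases n with
  | zero =>
    have h1 := coiH_le_coi π.ker.subtype 0 (mem_coiH_zero π h.surj hy)
    have h2 : bd ℤ E 0 z' ∈ coi E 0 := by
      have h3 := Submodule.add_mem _ h1 he
      rwa [sub_add_cancel] at h3
    refine ⟨1, HG.mk ⟨z', h2⟩, one_ne_zero, ?_⟩
    rw [HG.map_mk, one_smul]
    congr 1
    exact Subtype.ext hz'
  | succ n =>
    have hb : bd ℤ E n (bd ℤ E (n + 1) z' - e) ∈ coi E n := by
      rw [map_sub, bd_bd, zero_sub]
      exact Submodule.neg_mem _ (ck_bd_coi n he)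
    obtain ⟨w, hw0, hw⟩ := h.exists_ident n _ hy hb
    have hl := ck_prod_ne_zero h.two (n + 1)
    generalize (∏ i ∈ Finset.range (n + 1), (1 - (m : ℤ) ^ (i + 1))) = l at hw hl
    have h2 : bd ℤ E (n + 1) (l • z' - w) ∈ coi E (n + 1) := by
      have h3 : bd ℤ E (n + 1) (l • z' - w) =
          (l • (bd ℤ E (n + 1) z' - e) - bd ℤ E (n + 1) w) + l • e := by
        rw [map_sub, map_smul, smul_sub]
        abel
      rw [h3]
      exact Submodule.add_mem _ hw (Submodule.smul_mem _ _ he)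
    refine ⟨l, HG.mk ⟨l • z' - w, h2⟩, hl, ?_⟩
    have h4 : l • HG.mk z = HG.mk (l • z) := (map_zsmul (ckMk Q (n + 1)) l z).symm
    rw [HG.map_mk, h4]
    congr 1
    refine Subtype.ext ?_
    show push ℤ π (n + 2) (l • z' - w) = l • (z : Cx ℤ Q (n + 2))
    rw [map_sub, map_smul, hz', hw0, sub_zero]

end

end Pool.Agent.H71.CZ

end

section

/-!
# Project CZ: rational functionals descend along an extension of Lemma CK

PROOF.  For `z : HG Q n` choose `k ≠ 0`, `z'` with `HG.map n π z' = k • z` (`ck_surj`), `ψ z = (1 / k) • φ z'`.  Independent of the choice and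
additive by `ck_inj` (`φ` kills torsion, `V` is a vector space over `ℚ`).
-/

set_option autoImplicit false

universe u v w

namespace Pool.Agent.H71.CZ

open Pool.Agent.H71.FQ

section

variable {E : Type v} [Group E] {Q : Type w} [Group Q]

private theorem zsmul_eq_cast {V : Type*} [AddCommGroup V] [Module ℚ V] (k : ℤ) (x : V) :
    k • x = (k : ℚ) • x := (Int.cast_smul_eq_zsmul ℚ k x).symm

private theorem eq_of_zsmul_eq {V : Type*} [AddCommGroup V] [Module ℚ V] {k : ℤ} (hk : k ≠ 0)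
    {x y : V} (h : k • x = k • y) : x = y := by
  rw [zsmul_eq_cast, zsmul_eq_cast] at h
  have h0 : (k : ℚ) ≠ 0 := Int.cast_ne_zero.2 hk
  have h1 : (k : ℚ)⁻¹ • ((k : ℚ) • x) = (k : ℚ)⁻¹ • ((k : ℚ) • y) := by rw [h]
  rwa [smul_smul, smul_smul, inv_mul_cancel₀ h0, one_smul, one_smul] at h1

theorem exists_descend {π : E →* Q} {t : E} {m : ℕ} (h : CKill π t m) (n : ℕ) {V : Type u}
    [AddCommGroup V] [Module ℚ V] (φ : HG E n →+ V) :
    ∃ ψ : HG Q n →+ V, ∀ x, ψ (HG.map n π x) = φ x := by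
  have hs : ∀ z : HG Q n, ∃ (k : ℤ) (z' : HG E n), k ≠ 0 ∧ HG.map n π z' = k • z :=
    fun z => ck_surj h z
  choose k z' hk hz' using hs
  -- the value does not depend on the choice
  have hkey : ∀ (l : ℤ) (a : HG E n) (z : HG Q n), HG.map n π a = l • z →
      k z • φ a = l • φ (z' z) := by
    intro l a z ha
    have h1 : HG.map n π (k z • a - l • z' z) = 0 := by
      rw [map_sub, map_zsmul, map_zsmul, ha, hz', smul_smul, smul_smul, mul_comm, sub_self]
    obtain ⟨j, hj, hj'⟩ := ck_inj h _ h1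
    have h2 := congrArg φ hj'
    rw [map_zsmul, map_zero, map_sub, map_zsmul, map_zsmul] at h2
    have h3 : j • (k z • φ a - l • φ (z' z)) = j • (0 : V) := by
      rw [h2, smul_zero]
    exact sub_eq_zero.1 (eq_of_zsmul_eq hj h3)
  let ψ₀ : HG Q n → V := fun z => (k z : ℚ)⁻¹ • φ (z' z)
  have hψ₀ : ∀ z, k z • ψ₀ z = φ (z' z) := by
    intro z
    show k z • ((k z : ℚ)⁻¹ • φ (z' z)) = φ (z' z)
    rw [zsmul_eq_cast, smul_smul, mul_inv_cancel₀ (Int.cast_ne_zero.2 (hk z)), one_smul]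
  have hval : ∀ (l : ℤ) (a : HG E n) (z : HG Q n), HG.map n π a = l • z → φ a = l • ψ₀ z := by
    intro l a z ha
    refine eq_of_zsmul_eq (hk z) ?_
    rw [hkey l a z ha, ← hψ₀ z, smul_comm]
  refine ⟨{ toFun := ψ₀, map_zero' := ?_, map_add' := ?_ }, ?_⟩
  · have h1 := hval 1 0 0 (by rw [map_zero, smul_zero])
    rw [map_zero, one_smul] at h1
    exact h1.symm
  · intro x y
    have h1 : HG.map n π (k y • z' x + k x • z' y) = (k x * k y) • (x + y) := by
      rw [map_add, map_zsmul, map_zsmul, hz', hz', smul_smul, smul_smul, smul_add, mul_comm (k y)]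
    have h2 := hval _ _ _ h1
    rw [map_add, map_zsmul, map_zsmul, ← hψ₀ x, ← hψ₀ y, smul_smul, smul_smul,
      mul_comm (k y), ← smul_add] at h2
    exact (eq_of_zsmul_eq (mul_ne_zero (hk x) (hk y)) h2).symm
  · intro x
    have h1 := hval 1 x (HG.map n π x) (by rw [one_smul])
    rw [one_smul] at h1
    exact h1.symm

/-- uniqueness -/
theorem descend_unique {π : E →* Q} {t : E} {m : ℕ} (h : CKill π t m) {n : ℕ} {V : Type u}
    [AddCommGroup V] [Module ℚ V] (ψ ψ' : HG Q n →+ V)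
    (hψ : ∀ x, ψ (HG.map n π x) = ψ' (HG.map n π x)) : ψ = ψ' := by
  ext z
  obtain ⟨k, z', hk, hz⟩ := ck_surj h z
  refine eq_of_zsmul_eq hk ?_
  rw [← map_zsmul, ← map_zsmul, ← hz]
  exact hψ z'

end

end Pool.Agent.H71.CZ

end

section

/-!
# Project CZ: the map `θ` on the homology of `GL_Y(B[G])`

`TV = ℚ ⊗ (KQ(B[G ≀ C_p]) / image of KQ(B[G^p]))`.

PROOFS.  `toTV_eq_zero`: an element of `ℚ ⊗ X` of the form `1 ⊗ x` vanishes iff `x` is torsion (see
`Pool.Agent.H95.KM.lTensor_injective` and the lemmas around it, or localization at the non-zero integers).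
`exists_th`: `ckill_eta`, `exists_descend` for `φ x' = toTV (clX (HG.map jU x'))`, compose with `HG.map eta`.
-/

set_option autoImplicit false

open Matrix

universe u v w

namespace Pool.Agent.H71.CZ

open Pool.Agent.H71.FQ

/-- `1 ⊗ x = 0` in `ℚ ⊗ A` only for torsion elements `x` -/
theorem exists_zsmul_eq_zero {A : Type v} [AddCommGroup A] {x : A}
    (h : TensorProduct.mk ℤ ℚ A 1 x = 0) : ∃ k : ℤ, k ≠ 0 ∧ k • x = 0 := by
  have h1 : IsLocalizedModule (nonZeroDivisors ℤ) (TensorProduct.mk ℤ ℚ A 1) :=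
    (isLocalizedModule_iff_isBaseChange (nonZeroDivisors ℤ) ℚ _).2 (TensorProduct.isBaseChange ℤ A ℚ)
  obtain ⟨c, hc⟩ := (IsLocalizedModule.eq_zero_iff (nonZeroDivisors ℤ) (TensorProduct.mk ℤ ℚ A 1)).1 h
  exact ⟨c, nonZeroDivisors.coe_ne_zero c, hc⟩

section

variable (p : ℕ) [hp : Fact p.Prime] (B : Type) [CommRing B] (G : Type v) [Group G] (n : ℕ)

variable {p B G n}

theorem toTV_eq_zero {x : KQ (MonoidAlgebra B (Wr p G)) n} (h : toTV p B G n x = 0) :
    ∃ (k : ℤ) (y : KQ (MonoidAlgebra B (ZMod p → G)) n), k ≠ 0 ∧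
      k • x = KQ.map (MonoidAlgebra.mapDomainRingHom B (inc p G)) y := by
  obtain ⟨k, hk, hkx⟩ := exists_zsmul_eq_zero h
  rw [← map_zsmul] at hkx
  obtain ⟨y, hy⟩ := (QuotientAddGroup.eq_zero_iff _).1 hkx
  exact ⟨k, y, hk, hy.symm⟩

variable (Y : Type) [Fintype Y] [DecidableEq Y]

theorem exists_th (hB : GoodB p B) :
    ∃ ψ : HG (Dd (shM p B G Y))ˣ n →+ TV p B G n,
      ∀ x, ψ (HG.map n (prU (shM p B G Y)) x) = phD Y x := by
  obtain ⟨t, ht⟩ := ckill_eta (G := G) (Y := Y) hB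
  exact exists_descend ht n (phD Y)

/-- the functional on the homology of `D^×` -/
noncomputable def psD (hB : GoodB p B) : HG (Dd (shM p B G Y))ˣ n →+ TV p B G n :=
  (exists_th Y hB).choose

theorem psD_map (hB : GoodB p B) (x : HG (Dt (shM p B G Y))ˣ n) :
    psD Y hB (HG.map n (prU (shM p B G Y)) x) = phD Y x := (exists_th Y hB).choose_spec x

/-- **The map `θ`.** -/
noncomputable def th (hB : GoodB p B) :
    HG (Matrix Y Y (MonoidAlgebra B G))ˣ n →+ TV p B G n :=
  (psD Y hB).comp (HG.map n (eta hB))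

theorem th_apply (hB : GoodB p B) (x : HG (Matrix Y Y (MonoidAlgebra B G))ˣ n) :
    th Y hB x = psD Y hB (HG.map n (eta hB) x) := rfl

end

end Pool.Agent.H71.CZ

end

section

/-!
# Project KL: the cochains of the rotation

`tl τ a b` is the representative in `{0, …, M - 1}` of `τ b - τ a`, `τ` with values in `ZMod M`; `M * ep τ a b c` is its
coboundary.

PROOFS.  `tl_add`: `ZMod.val_add`, `Nat.div_add_mod`.  `dl_pL_tl`: split off the last two indices of the sum
(`Fin.sum_univ_castSucc`), as for `dl_pL` of `KN/Coch.lean`, and `tl_add`.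
`TR_dvd_exp`: `QC.induction`; for a tuple `TR_dvd` (`KN/Rot.lean`) with `a = m - r`, `S` from `exists_supp`; `hroot`: if
`u h ^ (p ^ r) u⁻¹ = c` then `h` has finite order divisible by `p ^ (r + 1)` (`p ∣ orderOf c = orderOf (h ^ p ^ r)`), so `G`
contains an element of order `p ^ (r + 1)`, which contradicts `hG`.
`bd_dvd`: `TR_bd`, `dl_pL` (`KN/Coch.lean`), `dl_pL_tl`, `hψ`: `dl (pL (pL ψ (tl τ)) (lmin ..)) = ± p ^ m • pL (pLL ψ (ep τ)) lmin`,
and `TR_dvd_exp` for the last cochain, for the element `(c, 1)` of `G × Multiplicative ℤ` (`orderOf (c, 1) = orderOf c`; an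
element of `G × Multiplicative ℤ` of `p`-power order has second component `1`).  The invariance of `lmin` under `sig`:
the degrees of `sig q (c, 1) v` are a cyclic permutation of those of `v`.
-/

set_option autoImplicit false

open Matrix

universe u v w

namespace Pool.Agent.H39.KL

open Pool.Agent.H71.FQ Pool.Agent.H16.KN

section

variable {X : Type u} {B : Type v} [CommRing B] {k M : ℕ}

/-- the representative of `τ b - τ a` -/
def tl (B : Type v) [CommRing B] (τ : X → ZMod M) (a b : X) : B := ((τ b - τ a).val : B)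

/-- the carry -/
def ep (B : Type v) [CommRing B] (τ : X → ZMod M) (a b c : X) : B :=
  ((((τ b - τ a).val + (τ c - τ b).val) / M : ℕ) : B)

theorem tl_add [NeZero M] (τ : X → ZMod M) (a b c : X) :
    tl B τ a b + tl B τ b c = tl B τ a c + (M : B) * ep B τ a b c := by
  unfold tl ep
  have h : (τ c - τ a).val = ((τ b - τ a).val + (τ c - τ b).val) % M := by
    rw [← ZMod.val_add]
    congr 1
    ring
  rw [h, ← Nat.cast_add, ← Nat.cast_mul, ← Nat.cast_add, Nat.mod_add_div]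

private theorem sa_last {n : ℕ} (i : Fin (n + 1)) :
    i.castSucc.succAbove (Fin.last n) = Fin.last (n + 1) := by
  rw [Fin.succAbove_of_le_castSucc _ _ (Fin.castSucc_le_castSucc_iff.2 (Fin.le_last i)),
    Fin.succ_last]

private theorem dl_pL_gen (ψ : (Fin (k + 1) → X) → B) (l : X → X → B) (v : Fin (k + 3) → X) :
    dl (pL ψ l) v = pL (dl ψ) l v + (-1) ^ (k + 1) * (ψ (fun j => v j.castSucc.castSucc) *
      (l (v (Fin.last k).castSucc.castSucc) (v (Fin.last (k + 2))) -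
        l (v (Fin.last k).castSucc.castSucc) (v (Fin.last (k + 1)).castSucc) -
        l (v (Fin.last (k + 1)).castSucc) (v (Fin.last (k + 2))))) := by
  have hL : dl (pL ψ l) v = (∑ i : Fin (k + 1), (-1 : B) ^ (i : ℕ) *
      (ψ (fun j => v ((i.castSucc.succAbove j).castSucc)) *
        l (v (Fin.last (k + 1)).castSucc) (v (Fin.last (k + 2))))) +
      (-1 : B) ^ (k + 1) * (ψ (fun j => v j.castSucc.castSucc) *
        l (v (Fin.last k).castSucc.castSucc) (v (Fin.last (k + 2)))) +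
      (-1 : B) ^ (k + 2) * (ψ (fun j => v j.castSucc.castSucc) *
        l (v (Fin.last k).castSucc.castSucc) (v (Fin.last (k + 1)).castSucc)) := by
    unfold dl
    rw [Fin.sum_univ_castSucc, Fin.sum_univ_castSucc]
    congr 1
    · congr 1
      · refine Finset.sum_congr rfl fun i _ => ?_
        rw [zsmul_eq_mul]
        unfold pL
        have e1 : ∀ j : Fin (k + 1), (i.castSucc.castSucc).succAbove j.castSucc =
            (i.castSucc.succAbove j).castSucc := fun j => by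
          rw [Fin.castSucc_succAbove_castSucc]
        have e2 : (i.castSucc.castSucc).succAbove (Fin.last k).castSucc =
            (Fin.last (k + 1)).castSucc := by
          rw [Fin.castSucc_succAbove_castSucc, sa_last]
        have e3 : (i.castSucc.castSucc).succAbove (Fin.last (k + 1)) = Fin.last (k + 2) := by
          rw [sa_last]
        simp only [e1, e3, Fin.val_castSucc]
        rw [sa_last i]
        push_cast
        rfl
      · rw [zsmul_eq_mul]
        unfold pL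
        have e1 : ∀ j : Fin (k + 1), ((Fin.last (k + 1)).castSucc).succAbove j.castSucc =
            j.castSucc.castSucc := fun j => by
          rw [Fin.castSucc_succAbove_castSucc, Fin.succAbove_last]
        have e3 : ((Fin.last (k + 1)).castSucc).succAbove (Fin.last (k + 1)) = Fin.last (k + 2) := by
          rw [sa_last]
        simp only [e1, e3, Fin.val_castSucc, Fin.val_last]
        push_cast
        rfl
    · rw [zsmul_eq_mul]
      unfold pL
      simp only [Fin.succAbove_last, Fin.val_last]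
      push_cast
      rfl
  have hR : dl ψ (fun j => v j.castSucc) = (∑ i : Fin (k + 1), (-1 : B) ^ (i : ℕ) *
      ψ (fun j => v ((i.castSucc.succAbove j).castSucc))) +
      (-1 : B) ^ (k + 1) * ψ (fun j => v j.castSucc.castSucc) := by
    unfold dl
    rw [Fin.sum_univ_castSucc]
    congr 1
    · refine Finset.sum_congr rfl fun i _ => ?_
      rw [zsmul_eq_mul, Fin.val_castSucc]
      push_cast
      rfl
    · rw [zsmul_eq_mul]
      simp only [Fin.succAbove_last, Fin.val_last]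
      push_cast
      rfl
  have hR' : pL (dl ψ) l v = dl ψ (fun j => v j.castSucc) *
      l (v (Fin.last (k + 1)).castSucc) (v (Fin.last (k + 2))) := rfl
  rw [hL, hR', hR, add_mul, Finset.sum_mul]
  have hs : ∑ i : Fin (k + 1), (-1 : B) ^ (i : ℕ) *
      (ψ (fun j => v ((i.castSucc.succAbove j).castSucc)) *
        l (v (Fin.last (k + 1)).castSucc) (v (Fin.last (k + 2)))) =
      ∑ i : Fin (k + 1), (-1 : B) ^ (i : ℕ) *
      ψ (fun j => v ((i.castSucc.succAbove j).castSucc)) *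
        l (v (Fin.last (k + 1)).castSucc) (v (Fin.last (k + 2))) :=
    Finset.sum_congr rfl fun i _ => by ring
  rw [hs]
  ring

/-- the product of `ψ` with a function of the last three variables -/
def pLL (ψ : (Fin (k + 1) → X) → B) (e : X → X → X → B) (v : Fin (k + 3) → X) : B :=
  ψ (fun j => v j.castSucc.castSucc) *
    e (v (Fin.last k).castSucc.castSucc) (v (Fin.last (k + 1)).castSucc) (v (Fin.last (k + 2)))

theorem dl_pL_tl [NeZero M] (τ : X → ZMod M) (ψ : (Fin (k + 1) → X) → B) (v : Fin (k + 3) → X) :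
    dl (pL ψ (tl B τ)) v = pL (dl ψ) (tl B τ) v + (-1) ^ k * ((M : B) * pLL ψ (ep B τ) v) := by
  rw [dl_pL_gen]
  unfold pLL
  have h := tl_add (B := B) τ (v (Fin.last k).castSucc.castSucc) (v (Fin.last (k + 1)).castSucc)
    (v (Fin.last (k + 2)))
  have h' : tl B τ (v (Fin.last k).castSucc.castSucc) (v (Fin.last (k + 2))) =
      tl B τ (v (Fin.last k).castSucc.castSucc) (v (Fin.last (k + 1)).castSucc) +
      tl B τ (v (Fin.last (k + 1)).castSucc) (v (Fin.last (k + 2))) -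
      (M : B) * ep B τ (v (Fin.last k).castSucc.castSucc) (v (Fin.last (k + 1)).castSucc)
        (v (Fin.last (k + 2))) := by
    rw [h]
    ring
  rw [h']
  ring

end

section

variable {G : Type u} [Group G] {B : Type v} [CommRing B] {k : ℕ}

private theorem no_root {p r : ℕ} (hp : p.Prime)
    (hG : ∀ g : G, (∃ j : ℕ, g ^ p ^ j = 1) → g ^ p ^ r = 1) {c : G} (hc : IsOfFinOrder c)
    (hpc : p ∣ orderOf c) {u h : G} (hu : u * h ^ p ^ r * u⁻¹ = c) : False := by
  have hpr : 0 < p ^ r := pow_pos hp.pos r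
  have hg : (u * h * u⁻¹) ^ p ^ r = c := by rw [conj_pow, hu]
  have hgf : IsOfFinOrder (u * h * u⁻¹) :=
    (isOfFinOrder_pow.1 (hg ▸ hc)).resolve_right hpr.ne'
  set g := u * h * u⁻¹ with hgdef
  have hn : 0 < orderOf g := hgf.orderOf_pos
  have ho : orderOf c = orderOf g / Nat.gcd (orderOf g) (p ^ r) := by
    rw [← hg, orderOf_pow' g hpr.ne']
  have hd : p ^ (r + 1) ∣ orderOf g := by
    obtain ⟨j, hj, hje⟩ := (Nat.dvd_prime_pow hp).1 (Nat.gcd_dvd_right (orderOf g) (p ^ r))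
    have h1 : p ^ (j + 1) ∣ orderOf g := by
      rw [ho, hje] at hpc
      have h2 : p ^ j ∣ orderOf g := hje ▸ Nat.gcd_dvd_left (orderOf g) (p ^ r)
      have h3 := Nat.mul_dvd_mul_left (p ^ j) hpc
      rw [Nat.mul_div_cancel' h2] at h3
      rwa [pow_succ]
    rcases Nat.lt_or_ge j r with hlt | hge
    · exfalso
      have h4 : p ^ (j + 1) ∣ Nat.gcd (orderOf g) (p ^ r) :=
        Nat.dvd_gcd h1 (pow_dvd_pow p hlt)
      rw [hje] at h4
      have h5 := (Nat.pow_dvd_pow_iff_le_right hp.one_lt).1 h4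
      omega
    · have : j = r := le_antisymm hj hge
      rwa [this] at h1
  obtain ⟨t, ht⟩ := hd
  have ht0 : t ≠ 0 := by
    rintro rfl
    rw [ht, mul_zero] at hn
    exact lt_irrefl _ hn
  have h6 : (g ^ t) ^ p ^ r = 1 := by
    apply hG
    refine ⟨r + 1, ?_⟩
    rw [← pow_mul, mul_comm, ← ht, pow_orderOf_eq_one]
  rw [← pow_mul] at h6
  have h7 := Nat.le_of_dvd (Nat.mul_pos (Nat.pos_of_ne_zero ht0) hpr) (orderOf_dvd_of_pow_eq_one h6)
  rw [ht, pow_succ, mul_comm t, mul_assoc] at h7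
  have h8 := Nat.le_of_mul_le_mul_left h7 hpr
  have h9 : 2 * t ≤ p * t := Nat.mul_le_mul_right t hp.two_le
  omega

/-- **Divisibility for bounded torsion.** -/
theorem TR_dvd_exp {p : ℕ} [Fact p.Prime] (m r : ℕ) (hrm : r ≤ m)
    (hG : ∀ g : G, (∃ j : ℕ, g ^ p ^ j = 1) → g ^ p ^ r = 1) {c : G} (hc : IsOfFinOrder c)
    (hpc : p ∣ orderOf c) {Φ : (Fin (k + 1) → Fin (p ^ m) → G) → B} (hΦ : CIq c (p ^ m) Φ)
    (hr : RIq c (p ^ m) Φ) (w : QC (MonoidAlgebra B G) k) :
    (p : B) ^ (m - r + 1) ∣ TR (p ^ m) c Φ w := by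
  induction w using QC.induction with
  | h0 => rw [map_zero]; exact dvd_zero _
  | ha a b h1 h2 => rw [map_add]; exact dvd_add h1 h2
  | hn a h1 => rw [map_neg]; exact (dvd_neg).2 h1
  | ht N x =>
    obtain ⟨S, hS⟩ := exists_supp (lts x)
    refine TR_dvd m (m - r) (Nat.sub_le m r) hΦ hr x S hS ?_
    intro l _ _ u hu
    exact no_root (Fact.out : p.Prime) hG hc hpc (Nat.sub_sub_self hrm ▸ hu)

/-- the cochain of the functional on the group ring of `G` -/
def phiG {q : ℕ} (ψ : (Fin (k + 1) → Fin q → G) → B) (τ : (Fin q → G) → ZMod q) :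
    (Fin (k + 2) → Fin q → G) → B := pL ψ (tl B τ)

private theorem tau_mul {p m r : ℕ} {c : G} {τ : (Fin (p ^ m) → G) → ZMod (p ^ m)}
    (hτ : IsTau p m r c τ) {g : G} (hg : g * c = c * g) (v : Fin (p ^ m) → G) :
    τ (fun b => g * v b) = τ v := hτ.inv g hg v

theorem CIq_phiG {p m r : ℕ} [Fact p.Prime] {c : G} {ψ : (Fin (k + 1) → Fin (p ^ m) → G) → B}
    (h1 : CIq c (p ^ m) ψ) {τ : (Fin (p ^ m) → G) → ZMod (p ^ m)} (hτ : IsTau p m r c τ) :
    CIq c (p ^ m) (phiG ψ τ) := by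
  intro g hg v
  have e1 := h1 g hg fun j => v j.castSucc
  have e2 := tau_mul hτ hg (v (Fin.last k).castSucc)
  have e3 := tau_mul hτ hg (v (Fin.last (k + 1)))
  show ψ (fun j b => g * v j.castSucc b) *
      ((τ (fun b => g * v (Fin.last (k + 1)) b) -
        τ (fun b => g * v (Fin.last k).castSucc b)).val : B) = _
  rw [e1, e2, e3]
  rfl

/-- the cochain of the boundary values on `G` -/
private def psG {q : ℕ} (ψ : (Fin (k + 1) → Fin q → G) → B) (τ : (Fin q → G) → ZMod q) :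
    (Fin (k + 3) → Fin q → G) → B := pLL ψ (ep B τ)

private theorem CIq_psG {p m r : ℕ} {c : G} {ψ : (Fin (k + 1) → Fin (p ^ m) → G) → B}
    (h1 : CIq c (p ^ m) ψ) {τ : (Fin (p ^ m) → G) → ZMod (p ^ m)} (hτ : IsTau p m r c τ) :
    CIq c (p ^ m) (psG ψ τ) := by
  intro g hg v
  have e1 := h1 g hg fun j => v j.castSucc.castSucc
  have e2 := tau_mul hτ hg (v (Fin.last k).castSucc.castSucc)
  have e3 := tau_mul hτ hg (v (Fin.last (k + 1)).castSucc)
  have e4 := tau_mul hτ hg (v (Fin.last (k + 2)))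
  unfold psG pLL ep
  rw [e1, e2, e3, e4]

private theorem RIq_psG {p m r : ℕ} {c : G} {ψ : (Fin (k + 1) → Fin (p ^ m) → G) → B}
    (h2 : RIq c (p ^ m) ψ) {τ : (Fin (p ^ m) → G) → ZMod (p ^ m)} (hτ : IsTau p m r c τ) :
    RIq c (p ^ m) (psG ψ τ) := by
  intro v
  have e1 := h2 fun j => v j.castSucc.castSucc
  unfold psG pLL ep
  rw [e1, hτ.rot, hτ.rot, hτ.rot, add_sub_add_right_eq_sub, add_sub_add_right_eq_sub]

private theorem dl_zero_pL {X : Type*} {M : ℕ} [NeZero M] (τ : X → ZMod M)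
    (ψ : (Fin (k + 1) → X) → B) (h3 : ∀ v, dl ψ v = 0) (v : Fin (k + 3) → X) :
    dl (pL ψ (tl B τ)) v = (-1) ^ k * (M : B) * pLL ψ (ep B τ) v := by
  rw [dl_pL_tl]
  unfold pL
  rw [h3]
  ring

/-- the same on the group ring of `G` -/
theorem bd_dvdG {p : ℕ} [Fact p.Prime] (m r : ℕ) (hrm : r ≤ m)
    (hG : ∀ g : G, (∃ j : ℕ, g ^ p ^ j = 1) → g ^ p ^ r = 1) {c : G} (hc : IsOfFinOrder c)
    (hpc : p ∣ orderOf c) {ψ : (Fin (k + 1) → Fin (p ^ m) → G) → B} (h1 : CIq c (p ^ m) ψ)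
    (h2 : RIq c (p ^ m) ψ) (h3 : ∀ v, dl ψ v = 0) {τ : (Fin (p ^ m) → G) → ZMod (p ^ m)}
    (hτ : IsTau p m r c τ) (w : QC (MonoidAlgebra B G) (k + 2)) :
    (p : B) ^ (m + (m - r + 1)) ∣ TR (p ^ m) c (phiG ψ τ) (qbd w) := by
  rw [TR_bd (p ^ m) (CIq_phiG h1 hτ)]
  have h4 : dl (phiG ψ τ) = fun v => (-1) ^ k * ((p ^ m : ℕ) : B) * psG ψ τ v :=
    funext fun v => dl_zero_pL τ ψ h3 v
  rw [h4, TR_smul, pow_add, Nat.cast_pow]
  exact mul_dvd_mul (Dvd.intro_left _ rfl)
    (TR_dvd_exp m r hrm hG hc hpc (CIq_psG h1 hτ) (RIq_psG h2 hτ) w)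

end

end Pool.Agent.H39.KL

end
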