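import Pool.Agent.H71.TCZ.M52
import Pool.Agent.H71.TCZ.M74

/-! The parts of this file: H39.KL.LamA, H39.CZ.LamN. -/

section

/-!
# Project KL: the functional on `(1, U)`: additivity and the value for matrices over nilpotent extensions

`lamQ p m d τ U` is the value of the functional of the group `C` (cochain `phiG 1 τ`) on the tuple `(1, U)`, `U` an
invertible matrix over `B[C]`.

PROOFS.  `lamQ_dvd`: `TR_dvd_exp`.
`lamQ_mul`: `bd_dvdG` (`k = 0`, `ψ = 1`) for `w = QC.t N ![1, U, U * V]`: `qbd w = t ![U, U V] - t ![1, U V] + t ![1, U]` and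
`t ![U, U V] = t ![1, V]` (`QC.t_inv`).
`lamQ_map`: `TR_t`, `TT_map` (`tl` of the natural numbers is compatible with ring homomorphisms).
-/

set_option autoImplicit false

open Matrix

universe u v w

namespace Pool.Agent.H39.KL

open Pool.Agent.H71.FQ Pool.Agent.H16.KN

/-- the value of the functional on `(1, U)` -/
noncomputable def lamQ {B : Type v} [CommRing B] (p m : ℕ) [Fact p.Prime] {C : Type w} [Group C]
    (d : C) (τ : (Fin (p ^ m) → C) → ZMod (p ^ m)) {N : ℕ} (U : GLm N (MonoidAlgebra B C)) : B :=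
  TR (p ^ m) d (phiG (k := 0) (fun _ => (1 : B)) τ) (QC.t N ![1, U])

section

variable {C : Type u} [Group C] {B : Type v} [CommRing B] {p m r : ℕ} [Fact p.Prime]

private theorem one_CIq (q : ℕ) (d : C) :
    CIq d q (fun _ : Fin (0 + 1) → Fin q → C => (1 : B)) := fun _ _ _ => rfl

private theorem one_RIq (q : ℕ) (d : C) :
    RIq d q (fun _ : Fin (0 + 1) → Fin q → C => (1 : B)) := fun _ => rfl

private theorem phi_RIq {d : C} {τ : (Fin (p ^ m) → C) → ZMod (p ^ m)}
    (hτ : IsTau p m r d τ) :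
    RIq d (p ^ m) (phiG (k := 0) (fun _ => (1 : B)) τ) := by
  intro v
  show (1 : B) * ((τ (sig (p ^ m) d (v (Fin.last (0 + 1)))) -
      τ (sig (p ^ m) d (v (Fin.last 0).castSucc))).val : B) =
    (1 : B) * ((τ (v (Fin.last (0 + 1))) - τ (v (Fin.last 0).castSucc)).val : B)
  rw [hτ.rot, hτ.rot, add_sub_add_right_eq_sub]

theorem lamQ_dvd (hrm : r ≤ m) (hG : ∀ g : C, (∃ j : ℕ, g ^ p ^ j = 1) → g ^ p ^ r = 1) {d : C}
    (hd : IsOfFinOrder d) (hpd : p ∣ orderOf d) {τ : (Fin (p ^ m) → C) → ZMod (p ^ m)}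
    (hτ : IsTau p m r d τ) {N : ℕ} (U : GLm N (MonoidAlgebra B C)) :
    (p : B) ^ (m - r + 1) ∣ lamQ p m d τ U :=
  TR_dvd_exp m r hrm hG hd hpd (CIq_phiG (one_CIq _ d) hτ) (phi_RIq hτ) _

theorem lamQ_mul (hrm : r ≤ m) (hG : ∀ g : C, (∃ j : ℕ, g ^ p ^ j = 1) → g ^ p ^ r = 1) {d : C}
    (hd : IsOfFinOrder d) (hpd : p ∣ orderOf d) {τ : (Fin (p ^ m) → C) → ZMod (p ^ m)}
    (hτ : IsTau p m r d τ) {N : ℕ} (U V : GLm N (MonoidAlgebra B C)) :
    (p : B) ^ (m + (m - r + 1)) ∣ lamQ p m d τ (U * V) - (lamQ p m d τ U + lamQ p m d τ V) := by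
  have h3 : ∀ v : Fin (0 + 2) → Fin (p ^ m) → C,
      dl (fun _ : Fin (0 + 1) → Fin (p ^ m) → C => (1 : B)) v = 0 := by
    intro v
    unfold dl
    rw [Fin.sum_univ_two]
    simp
  have h := bd_dvdG (k := 0) m r hrm hG hd hpd (one_CIq (B := B) _ d) (one_RIq _ d) h3 hτ
    (QC.t N ![1, U, U * V])
  have e : TR (p ^ m) d (phiG (k := 0) (fun _ => (1 : B)) τ) (qbd (QC.t N ![1, U, U * V])) =
      lamQ p m d τ V - lamQ p m d τ (U * V) + lamQ p m d τ U := by
    have e0 : (fun j => (![1, U, U * V] : Fin (0 + 1 + 2) → GLm N (MonoidAlgebra B C))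
        ((0 : Fin (0 + 1 + 2)).succAbove j)) = fun j => U * (![1, V] : Fin (0 + 1 + 1) → _) j := by
      funext j
      fin_cases j
      · show U = U * 1
        rw [mul_one]
      · rfl
    have e1 : (fun j => (![1, U, U * V] : Fin (0 + 1 + 2) → GLm N (MonoidAlgebra B C))
        ((1 : Fin (0 + 1 + 2)).succAbove j)) = (![1, U * V] : Fin (0 + 1 + 1) → _) := by
      funext j
      fin_cases j <;> rfl
    have e2 : (fun j => (![1, U, U * V] : Fin (0 + 1 + 2) → GLm N (MonoidAlgebra B C))
        ((2 : Fin (0 + 1 + 2)).succAbove j)) = (![1, U] : Fin (0 + 1 + 1) → _) := by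
      funext j
      fin_cases j <;> rfl
    rw [qbd_t, Fin.sum_univ_three, e0, e1, e2, QC.t_inv, map_add, map_add, map_zsmul, map_zsmul,
      map_zsmul]
    unfold lamQ
    simp
    ring
  rw [e] at h
  have h' := (dvd_neg (α := B)).2 h
  have e' : -(lamQ p m d τ V - lamQ p m d τ (U * V) + lamQ p m d τ U) =
      lamQ p m d τ (U * V) - (lamQ p m d τ U + lamQ p m d τ V) := by ring
  rwa [e'] at h'

theorem lamQ_pow (hrm : r ≤ m) (hG : ∀ g : C, (∃ j : ℕ, g ^ p ^ j = 1) → g ^ p ^ r = 1) {d : C}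
    (hd : IsOfFinOrder d) (hpd : p ∣ orderOf d) {τ : (Fin (p ^ m) → C) → ZMod (p ^ m)}
    (hτ : IsTau p m r d τ) {N : ℕ} (U : GLm N (MonoidAlgebra B C)) (l : ℕ) :
    (p : B) ^ (m + (m - r + 1)) ∣ lamQ p m d τ (U ^ l) - l * lamQ p m d τ U := by
  induction l with
  | zero =>
    have h := (dvd_neg (α := B)).2 (lamQ_mul (B := B) hrm hG hd hpd hτ (N := N) 1 1)
    have e : -(lamQ p m d τ ((1 : GLm N (MonoidAlgebra B C)) * 1) -
        (lamQ p m d τ (1 : GLm N (MonoidAlgebra B C)) +
          lamQ p m d τ (1 : GLm N (MonoidAlgebra B C)))) =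
        lamQ p m d τ (U ^ 0) - ((0 : ℕ) : B) * lamQ p m d τ U := by
      rw [mul_one, pow_zero, Nat.cast_zero]
      ring
    rwa [e] at h
  | succ l ih =>
    have h := dvd_add (lamQ_mul hrm hG hd hpd hτ (U ^ l) U) ih
    have e : lamQ p m d τ (U ^ l * U) - (lamQ p m d τ (U ^ l) + lamQ p m d τ U) +
        (lamQ p m d τ (U ^ l) - l * lamQ p m d τ U) =
        lamQ p m d τ (U ^ (l + 1)) - ((l + 1 : ℕ) : B) * lamQ p m d τ U := by
      rw [pow_succ, Nat.cast_succ]
      ring
    rwa [e] at h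

theorem lamQ_map {B' : Type w} [CommRing B'] (f : B →+* B') {d : C}
    {τ : (Fin (p ^ m) → C) → ZMod (p ^ m)} (hτ : IsTau p m r d τ) {N : ℕ}
    (U : GLm N (MonoidAlgebra B C)) :
    lamQ p m d τ (mapGL (MonoidAlgebra.mapRingHom C f) N U) = f (lamQ p m d τ U) := by
  unfold lamQ
  rw [TR_t, TR_t]
  have hCI : CI d (flat (p ^ m) (phiG (k := 0) (fun _ => (1 : B)) τ)) :=
    fun g hg _ => CIq_phiG (one_CIq (B := B) _ d) hτ g hg _
  rw [← TT_map f hCI]
  congr 1
  · funext y
    show (1 : B') * (((τ _ - τ _).val : ℕ) : B') = f ((1 : B) * (((τ _ - τ _).val : ℕ) : B))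
    rw [map_mul, map_one, map_natCast]
  · funext j
    show (![1, mapGL (MonoidAlgebra.mapRingHom C f) N U] : Fin (0 + 1 + 1) → _)
      (finProdFinEquiv.symm j).2 = mapGL (MonoidAlgebra.mapRingHom C f) N
        ((![1, U] : Fin (0 + 1 + 1) → _) (finProdFinEquiv.symm j).2)
    generalize (finProdFinEquiv.symm j).2 = i
    fin_cases i
    · exact (map_one _).symm
    · rfl

end

end Pool.Agent.H39.KL

end

section

/-!
# Project CZ: the functional on `(1, U)` for finite groups

As `H39/KL/LamE.lean`, `LamC.lean` without commutativity: the coefficient at `d` is replaced by the sum `trs` of the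
coefficients at the conjugates of `d`.
-/

set_option autoImplicit false

open Matrix

universe u v w

namespace Pool.Agent.H39.CZ

open Pool.Agent.H71.FQ Pool.Agent.H16.KN Pool.Agent.H39.KL

section

/-- the product of factors `c_t + ε X_t` -/
private theorem prod_eps {B : Type v} [CommRing B] {R : Type w} [Ring R] [Algebra B R] {ε : B}
    (hε : ε ^ 2 = 0) {n : ℕ} (c : Fin n → B) (X : Fin n → R) :
    (List.ofFn fun t => c t • (1 : R) + ε • X t).prod =
      (∏ t, c t) • (1 : R) + ε • ∑ t, (∏ s, if s = t then 1 else c s) • X t := by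
  induction n with
  | zero => simp
  | succ n ih =>
    rw [List.ofFn_succ, List.prod_cons, ih (fun t => c t.succ) (fun t => X t.succ),
      Fin.prod_univ_succ, Fin.sum_univ_succ]
    have h0 : (∏ s : Fin (n + 1), if s = 0 then 1 else c s) = ∏ s : Fin n, c s.succ := by
      rw [Fin.prod_univ_succ, if_pos rfl, one_mul]
      refine Finset.prod_congr rfl fun s _ => ?_
      rw [if_neg (Fin.succ_ne_zero s)]
    have h1 : ∀ t : Fin n, (∏ s : Fin (n + 1), if s = t.succ then 1 else c s) =
        c 0 * ∏ s : Fin n, if s = t then 1 else c s.succ := by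
      intro t
      rw [Fin.prod_univ_succ, if_neg (Fin.succ_ne_zero t).symm]
      congr 1
      refine Finset.prod_congr rfl fun s _ => ?_
      simp only [Fin.succ_inj]
    rw [h0]
    have h2 : (∑ t : Fin n, (∏ s : Fin (n + 1), if s = t.succ then 1 else c s) • X t.succ) =
        c 0 • ∑ t : Fin n, (∏ s : Fin n, if s = t then 1 else c s.succ) • X t.succ := by
      rw [Finset.smul_sum]
      refine Finset.sum_congr rfl fun t _ => ?_
      rw [h1 t, mul_smul]
    rw [h2]
    set S := ∑ t : Fin n, (∏ s : Fin n, if s = t then 1 else c s.succ) • X t.succ with hS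
    set P := ∏ s : Fin n, c s.succ with hP
    have he : ε * ε = 0 := by rw [← sq]; exact hε
    rw [add_mul, mul_add, mul_add, smul_mul_smul_comm, smul_mul_smul_comm, smul_mul_smul_comm,
      smul_mul_smul_comm, he, zero_smul, one_mul, one_mul, mul_one]
    module

variable {C : Type u} [Group C] {B : Type v} [CommRing B]

private theorem TM_eq' {K : ℕ} [Fintype C] {c : C} {φ : (Fin K → C) → B} (hφ : CI c φ) {N : ℕ}
    (b : Fin K → Matrix (Fin N) (Fin N) (MonoidAlgebra B C)) :
    TM c φ b = ∑ g : Fin K → C,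
      ((List.ofFn fun j => cof (b j) (g j)).prod).trace * wv c φ g := by
  rw [TM_eq hφ b Finset.univ fun _ _ _ => Finset.mem_univ _]
  exact Fintype.sum_equiv (Equiv.arrowCongr (Equiv.refl _)
    (Equiv.subtypeUnivEquiv fun x => Finset.mem_univ x)) _ _ fun g => rfl

open Classical in
private theorem cof_one_add {N : ℕ} (A : Matrix (Fin N) (Fin N) (MonoidAlgebra B C)) (ε : B)
    (a : C) : cof (1 + ε • A) a = (if a = 1 then (1 : B) else 0) •
      (1 : Matrix (Fin N) (Fin N) B) + ε • cof A a := by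
  ext i j
  show ((1 : Matrix (Fin N) (Fin N) (MonoidAlgebra B C)) i j + ε • A i j).coeff a = _
  rw [MonoidAlgebra.coeff_add, Finsupp.add_apply, Matrix.add_apply, Matrix.smul_apply,
    Matrix.smul_apply]
  congr 1
  by_cases hij : i = j
  · subst hij
    rw [Matrix.one_apply_eq, Matrix.one_apply_eq, MonoidAlgebra.one_def,
      MonoidAlgebra.coeff_single]
    by_cases ha : a = 1
    · rw [if_pos ha, ha, Finsupp.single_eq_same, smul_eq_mul, mul_one]
    · rw [if_neg ha, Finsupp.single_eq_of_ne ha, zero_smul]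
  · rw [Matrix.one_apply_ne hij, Matrix.one_apply_ne hij, smul_zero]
    rfl

private theorem take_update {K : ℕ} (t : Fin K) (a : C) (s : ℕ) (hs : s ≤ K) :
    ((List.ofFn (Function.update (fun _ : Fin K => (1 : C)) t a)).take s).prod =
      if s ≤ (t : ℕ) then 1 else a := by
  induction s with
  | zero => rw [List.take_zero, List.prod_nil, if_pos (Nat.zero_le _)]
  | succ s ih =>
    have hl : s < (List.ofFn (Function.update (fun _ : Fin K => (1 : C)) t a)).length := by
      rw [List.length_ofFn]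
      omega
    rw [List.take_succ_eq_append_getElem hl, List.prod_append, List.prod_singleton,
      List.getElem_ofFn, ih (by omega)]
    rcases lt_trichotomy s (t : ℕ) with h | h | h
    · rw [if_pos h.le, if_pos (by omega), one_mul,
        Function.update_of_ne (fun h1 => h.ne (congrArg Fin.val h1))]
    · rw [if_pos h.le, if_neg (by omega), one_mul,
        show (⟨s, by omega⟩ : Fin K) = t from Fin.ext h, Function.update_self]
    · rw [if_neg (by omega), if_neg (by omega),
        Function.update_of_ne (fun h1 => h.ne' (congrArg Fin.val h1)), mul_one]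

/-- words with one letter -/
private theorem TM_epsN {K : ℕ} [Fintype C] {d : C} (hd : d ≠ 1)
    {φ : (Fin K → C) → B} (hφ : CI d φ) {N : ℕ} {ε : B} (hε : ε ^ 2 = 0)
    (A : Fin K → Matrix (Fin N) (Fin N) (MonoidAlgebra B C)) :
    TM d φ (fun t => 1 + ε • A t) = ∑ t, ∑ x : C, ε * (cof (A t) x).trace *
      wv d φ (Function.update (fun _ => (1 : C)) t x) := by
  classical
  rw [TM_eq' hφ]
  have h1 : ∀ g : Fin K → C, ((List.ofFn fun j => cof (1 + ε • A j) (g j)).prod).trace * wv d φ g =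
      ∑ t, (∏ s, if s = t then 1 else if g s = 1 then (1 : B) else 0) *
        (ε * (cof (A t) (g t)).trace) * wv d φ g := by
    intro g
    have h2 : (List.ofFn fun j => cof (1 + ε • A j) (g j)) = List.ofFn fun j =>
        (if g j = 1 then (1 : B) else 0) • (1 : Matrix (Fin N) (Fin N) B) + ε • cof (A j) (g j) := by
      congr 1
      funext j
      exact cof_one_add (A j) ε (g j)
    rw [h2, prod_eps hε, Matrix.trace_add, Matrix.trace_smul, Matrix.trace_smul,
      Matrix.trace_sum, add_mul]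
    have h3 : (∏ t, if g t = 1 then (1 : B) else 0) • (1 : Matrix (Fin N) (Fin N) B).trace *
        wv d φ g = 0 := by
      by_cases hg : ∀ t, g t = 1
      · have h4 : g = fun _ => 1 := funext hg
        rw [wv_zero d φ g, mul_zero]
        intro u h5
        apply hd
        rw [← h5, h4]
        have h6 : (List.ofFn fun _ : Fin K => (1 : C)).prod = 1 := by
          refine List.prod_eq_one fun x hx => ?_
          rw [List.mem_ofFn] at hx
          obtain ⟨i, rfl⟩ := hx
          rfl
        rw [h6, mul_one, mul_inv_cancel]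
      · push Not at hg
        obtain ⟨t, ht⟩ := hg
        rw [Finset.prod_eq_zero (Finset.mem_univ t) (if_neg ht), zero_smul, zero_mul]
    rw [h3, zero_add, smul_eq_mul, Finset.mul_sum, Finset.sum_mul]
    refine Finset.sum_congr rfl fun t _ => ?_
    rw [Matrix.trace_smul, smul_eq_mul]
    ring
  rw [Finset.sum_congr rfl fun g _ => h1 g, Finset.sum_comm]
  refine Finset.sum_congr rfl fun t _ => ?_
  have hinj : Set.InjOn (fun x : C => Function.update (fun _ : Fin K => (1 : C)) t x)
      (Finset.univ : Finset C) := by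
    intro x _ y _ hxy
    have := congrFun hxy t
    simpa using this
  have himg := Finset.sum_image (f := fun g : Fin K → C =>
    (∏ s, if s = t then 1 else if g s = 1 then (1 : B) else 0) *
        (ε * (cof (A t) (g t)).trace) * wv d φ g) hinj
  rw [← Finset.sum_subset (Finset.subset_univ (Finset.univ.image fun x : C =>
    Function.update (fun _ : Fin K => (1 : C)) t x)), himg]
  · refine Finset.sum_congr rfl fun x _ => ?_
    rw [Function.update_self]
    have h2 : (∏ s, if s = t then 1 else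
        if Function.update (fun _ => (1 : C)) t x s = 1 then (1 : B) else 0) = 1 := by
      refine Finset.prod_eq_one fun s _ => ?_
      by_cases hs : s = t
      · rw [if_pos hs]
      · rw [if_neg hs, Function.update_of_ne hs, if_pos rfl]
    rw [h2, one_mul]
  · intro g _ hg
    have hs : ∃ s, s ≠ t ∧ g s ≠ 1 := by
      by_contra hcon
      push Not at hcon
      apply hg
      rw [Finset.mem_image]
      refine ⟨g t, Finset.mem_univ _, ?_⟩
      funext s
      by_cases hst : s = t
      · rw [hst, Function.update_self]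
      · rw [Function.update_of_ne hst, hcon s hst]
    obtain ⟨s, hst, hs⟩ := hs
    rw [Finset.prod_eq_zero (Finset.mem_univ s) (by rw [if_neg hst, if_neg hs]), zero_mul,
      zero_mul]

/-- the value on a word with one letter -/
private theorem wv_update {K : ℕ} {d : C} {φ : (Fin K → C) → B} (hφ : CI d φ) (t : Fin K)
    (x u : C) (hu : u * x * u⁻¹ = d) :
    wv d φ (Function.update (fun _ => (1 : C)) t x) = φ (fun s => if s ≤ t then u else d * u) := by
  have hprod : (List.ofFn (Function.update (fun _ : Fin K => (1 : C)) t x)).prod = x := by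
    have h2 := take_update t x K le_rfl
    rw [List.take_of_length_le (by rw [List.length_ofFn]), if_neg (not_le.2 t.2)] at h2
    exact h2
  rw [wv_eq hφ _ u (by rw [hprod, hu])]
  congr 1
  funext s
  unfold vtx
  rw [take_update t x s s.2.le]
  by_cases h : s ≤ t
  · rw [if_pos h, if_pos (show (s : ℕ) ≤ t from h), mul_one]
  · rw [if_neg h, if_neg (show ¬ (s : ℕ) ≤ t from h), ← hu]
    group

private theorem lts_rep {k : ℕ} (q : ℕ) [NeZero q] {N : ℕ}
    (x : Fin (k + 1) → GLm N (MonoidAlgebra B C))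
    (t : Fin (q * (k + 1))) : lts (rep q x) t = lts x (finProdFinEquiv.symm t).2 := by
  have h : (finProdFinEquiv.symm (t + 1)).2 = (finProdFinEquiv.symm t).2 + 1 := by
    apply Fin.ext
    show ((t + 1 : Fin (q * (k + 1))) : ℕ) % (k + 1) = _
    rw [Fin.val_add, Fin.val_add, Fin.val_one', Fin.val_one', Nat.add_mod_mod, Nat.add_mod_mod,
      Nat.mod_mul_left_mod]
    show ((t : ℕ) + 1) % (k + 1) = ((t : ℕ) % (k + 1) + 1) % (k + 1)
    rw [Nat.mod_add_mod]
  unfold lts rep
  rw [h]

variable {p m r : ℕ} [Fact p.Prime]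

open Classical in
/-- the sum of the traces of the coefficients at the conjugates of `d` -/
noncomputable def trs [Fintype C] (d : C) {N : ℕ} (A : Matrix (Fin N) (Fin N) (MonoidAlgebra B C)) :
    B := ∑ x : C, if IsConj d x then (cof A x).trace else 0

theorem lamQ_epsN [Fintype C] (hrm : r < m) {d : C}
    (hpd : p ∣ orderOf d) {τ : (Fin (p ^ m) → C) → ZMod (p ^ m)} (hτ : IsTau p m r d τ) (ε : B)
    (hε : ε ^ 2 = 0) {N : ℕ} (A : Matrix (Fin N) (Fin N) (MonoidAlgebra B C))
    (U : GLm N (MonoidAlgebra B C)) (hU : U.val = 1 + ε • A) :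
    lamQ p m d τ U = (p : B) ^ (m + r) * (ε * trs d A) := by
  classical
  have hp : p.Prime := Fact.out
  have hd : d ≠ 1 := by
    rintro rfl
    rw [orderOf_one] at hpd
    exact hp.one_lt.ne' (Nat.dvd_one.1 hpd)
  have hUinv : (U⁻¹).val = 1 + ε • (-A) := by
    have h1 : U.val * (1 + ε • (-A)) = 1 := by
      rw [hU, add_mul, one_mul, mul_add, mul_one, smul_mul_smul_comm, ← sq, hε, zero_smul,
        add_zero, smul_neg]
      abel
    rw [← Units.inv_eq_val_inv]
    calc U.inv = U.inv * (U.val * (1 + ε • (-A))) := by rw [h1, mul_one]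
      _ = 1 + ε • (-A) := by rw [← mul_assoc, U.inv_val, one_mul]
  have hΦ : CIq d (p ^ m) (phiG (k := 0) (fun _ => (1 : B)) τ) :=
    CIq_phiG (fun _ _ _ => rfl) hτ
  unfold lamQ
  rw [TR_t]
  unfold TT
  have hl : lts (rep (p ^ m) ![1, U]) = fun t => 1 + ε •
      (if (finProdFinEquiv.symm t).2 = 0 then A else -A) := by
    funext t
    rw [lts_rep]
    generalize (finProdFinEquiv.symm t).2 = j
    fin_cases j
    · show ((1 : GLm N (MonoidAlgebra B C))⁻¹ * U).val = 1 + ε • A
      rw [inv_one, one_mul, hU]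
    · show (U⁻¹ * (1 : GLm N (MonoidAlgebra B C))).val = 1 + ε • (-A)
      rw [mul_one, hUinv]
  have hφ : CI d (flat (p ^ m) (phiG (k := 0) (fun _ => (1 : B)) τ)) :=
    fun g hg y => hΦ g hg _
  rw [hl, TM_epsN hd hφ hε, Finset.sum_comm]
  unfold trs
  rw [Finset.mul_sum, Finset.mul_sum]
  refine Finset.sum_congr rfl fun x _ => ?_
  by_cases hx : IsConj d x
  swap
  · rw [if_neg hx, mul_zero, mul_zero]
    refine Finset.sum_eq_zero fun t _ => ?_
    have hprod : (List.ofFn (Function.update (fun _ : Fin (p ^ m * (0 + 1 + 1)) => (1 : C))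
        t x)).prod = x := by
      have h2 := take_update t x _ le_rfl
      rw [List.take_of_length_le (by rw [List.length_ofFn]), if_neg (not_le.2 t.2)] at h2
      exact h2
    rw [wv_zero, mul_zero]
    intro u hu
    rw [hprod] at hu
    exact hx (isConj_iff.2 ⟨u, hu⟩).symm
  rw [if_pos hx]
  obtain ⟨u, hu⟩ := isConj_iff.1 hx.symm
  rw [← finProdFinEquiv.sum_comp, Fintype.sum_prod_type]
  have hval : ∀ (b : Fin (p ^ m)) (j : Fin (0 + 1 + 1)),
      ((finProdFinEquiv (b, j) : Fin (p ^ m * (0 + 1 + 1))) : ℕ) = j + 2 * b := fun b j =>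
    finProdFinEquiv_apply_val _
  have hq1 : ((p : ZMod (p ^ m)) ^ r).val = p ^ r := by
    rw [← Nat.cast_pow, ZMod.val_natCast, Nat.mod_eq_of_lt (Nat.pow_lt_pow_right hp.one_lt hrm)]
  have key : ∀ b : Fin (p ^ m), (∑ j : Fin (0 + 1 + 1), ε *
      (cof (if (finProdFinEquiv.symm (finProdFinEquiv (b, j))).2 = 0 then A else -A) x).trace *
        wv d (flat (p ^ m) (phiG (k := 0) (fun _ => (1 : B)) τ))
          (Function.update (fun _ => (1 : C)) (finProdFinEquiv (b, j)) x)) =
      (p : B) ^ r * (ε * (cof A x).trace) := by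
    intro b
    rw [Fin.sum_univ_two, wv_update hφ _ x u hu, wv_update hφ _ x u hu]
    simp only [Equiv.symm_apply_apply, Fin.isValue, if_true]
    have h0 : flat (p ^ m) (phiG (k := 0) (fun _ => (1 : B)) τ)
        (fun s => if s ≤ finProdFinEquiv (b, (0 : Fin (0 + 1 + 1))) then u else d * u) =
        (p : B) ^ r := by
      show (1 : B) * tl B τ
        (fun b' => if finProdFinEquiv (b', (0 : Fin (0 + 1 + 1))) ≤ finProdFinEquiv (b, 0)
          then u else d * u)
        (fun b' => if finProdFinEquiv (b', (1 : Fin (0 + 1 + 1))) ≤ finProdFinEquiv (b, 0)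
          then u else d * u) = (p : B) ^ r
      have hs : (fun b' : Fin (p ^ m) => if finProdFinEquiv (b', (1 : Fin (0 + 1 + 1))) ≤
          finProdFinEquiv (b, 0) then u else d * u) = sig (p ^ m) d
          (fun b' => if finProdFinEquiv (b', (0 : Fin (0 + 1 + 1))) ≤ finProdFinEquiv (b, 0)
            then u else d * u) := by
        funext b'
        have hb := b.2
        have hb' := b'.2
        unfold sig
        simp only [Fin.le_def, hval]
        by_cases h : (b' : ℕ) + 1 < p ^ m
        · rw [dif_pos h]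
          by_cases h2 : (b' : ℕ) < b
          · rw [if_pos, if_pos]
            · show (0 : ℕ) + 2 * ((b' : ℕ) + 1) ≤ 0 + 2 * b
              omega
            · show 1 + 2 * (b' : ℕ) ≤ 0 + 2 * b
              omega
          · rw [if_neg, if_neg]
            · show ¬ ((0 : ℕ) + 2 * ((b' : ℕ) + 1) ≤ 0 + 2 * b)
              omega
            · show ¬ (1 + 2 * (b' : ℕ) ≤ 0 + 2 * b)
              omega
        · rw [dif_neg h, if_neg, if_pos]
          · show (0 : ℕ) + 2 * 0 ≤ 0 + 2 * b
            omega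
          · show ¬ (1 + 2 * (b' : ℕ) ≤ 0 + 2 * b)
            omega
      rw [hs, one_mul]
      unfold tl
      rw [hτ.rot, add_sub_cancel_left, hq1, Nat.cast_pow]
    have h1 : flat (p ^ m) (phiG (k := 0) (fun _ => (1 : B)) τ)
        (fun s => if s ≤ finProdFinEquiv (b, (1 : Fin (0 + 1 + 1))) then u else d * u) = 0 := by
      show (1 : B) * tl B τ
        (fun b' => if finProdFinEquiv (b', (0 : Fin (0 + 1 + 1))) ≤ finProdFinEquiv (b, 1)
          then u else d * u)
        (fun b' => if finProdFinEquiv (b', (1 : Fin (0 + 1 + 1))) ≤ finProdFinEquiv (b, 1)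
          then u else d * u) = 0
      have hs : (fun b' : Fin (p ^ m) => if finProdFinEquiv (b', (1 : Fin (0 + 1 + 1))) ≤
          finProdFinEquiv (b, 1) then u else d * u) =
          (fun b' => if finProdFinEquiv (b', (0 : Fin (0 + 1 + 1))) ≤ finProdFinEquiv (b, 1)
            then u else d * u) := by
        funext b'
        simp only [Fin.le_def, hval]
        by_cases h2 : (b' : ℕ) ≤ b
        · rw [if_pos, if_pos]
          · show (0 : ℕ) + 2 * (b' : ℕ) ≤ 1 + 2 * b
            omega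
          · show 1 + 2 * (b' : ℕ) ≤ 1 + 2 * b
            omega
        · rw [if_neg, if_neg]
          · show ¬ ((0 : ℕ) + 2 * (b' : ℕ) ≤ 1 + 2 * b)
            omega
          · show ¬ (1 + 2 * (b' : ℕ) ≤ 1 + 2 * b)
            omega
      rw [hs, one_mul]
      unfold tl
      rw [sub_self, ZMod.val_zero, Nat.cast_zero]
    rw [h0, h1]
    ring
  rw [Finset.sum_congr rfl fun b _ => key b, Finset.sum_const, Finset.card_univ,
    Fintype.card_fin, nsmul_eq_mul, Nat.cast_pow, pow_add]
  ring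

private theorem val_mapGL {B' : Type w} [CommRing B'] (f : B →+* B') {N : ℕ} (s : B)
    (A : Matrix (Fin N) (Fin N) (MonoidAlgebra B C)) (U : GLm N (MonoidAlgebra B C))
    (hU : U.val = 1 + s • A) :
    (mapGL (MonoidAlgebra.mapRingHom C f) N U).val =
      1 + f s • A.map (MonoidAlgebra.mapRingHom C f) := by
  classical
  rw [mapGL_val, hU]
  ext i j : 1
  rw [Matrix.map_apply, Matrix.add_apply, Matrix.add_apply, map_add, Matrix.smul_apply,
    Matrix.smul_apply, Matrix.map_apply]
  congr 1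
  · by_cases hij : i = j
    · subst hij
      rw [Matrix.one_apply_eq, Matrix.one_apply_eq, map_one]
    · rw [Matrix.one_apply_ne hij, Matrix.one_apply_ne hij, map_zero]
  · apply MonoidAlgebra.coeff_injective
    ext x
    rw [MonoidAlgebra.coeff_mapRingHom, MonoidAlgebra.coeff_smul, MonoidAlgebra.coeff_smul,
      Finsupp.smul_apply, Finsupp.smul_apply, MonoidAlgebra.coeff_mapRingHom, smul_eq_mul,
      smul_eq_mul, map_mul]

private theorem trace_cof_map {B' : Type w} [CommRing B'] (f : B →+* B') {N : ℕ}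
    (A : Matrix (Fin N) (Fin N) (MonoidAlgebra B C)) (d : C) :
    (cof (A.map (MonoidAlgebra.mapRingHom C f)) d).trace = f (cof A d).trace := by
  unfold Matrix.trace
  rw [map_sum]
  refine Finset.sum_congr rfl fun i _ => ?_
  show (MonoidAlgebra.mapRingHom C f (A i i)).coeff d = f ((A i i).coeff d)
  rw [MonoidAlgebra.coeff_mapRingHom]

theorem trs_map [Fintype C] {B' : Type w} [CommRing B'] (f : B →+* B') {N : ℕ}
    (A : Matrix (Fin N) (Fin N) (MonoidAlgebra B C)) (d : C) :
    trs d (A.map (MonoidAlgebra.mapRingHom C f)) = f (trs d A) := by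
  classical
  unfold trs
  rw [map_sum]
  refine Finset.sum_congr rfl fun x _ => ?_
  rw [apply_ite f, map_zero, trace_cof_map]

private theorem exists_unit {N : ℕ} (s : B) {n : ℕ} (hs : s ^ n = 0)
    (A : Matrix (Fin N) (Fin N) (MonoidAlgebra B C)) :
    ∃ V : GLm N (MonoidAlgebra B C), V.val = 1 + s • A := by
  have h1 : IsNilpotent (s • A) := ⟨n, by rw [smul_pow, hs, zero_smul]⟩
  exact ⟨h1.isUnit_one_add.unit, rfl⟩

private theorem poly_split (g : Polynomial B) : ∃ (h : Polynomial B) (a b : B),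
    g = (h * Polynomial.X + Polynomial.C b) * Polynomial.X + Polynomial.C a :=
  ⟨g.divX.divX, g.coeff 0, g.divX.coeff 0, by
    rw [Polynomial.divX_mul_X_add, Polynomial.divX_mul_X_add]⟩

theorem lamQ_leadN [Fintype C] (hrm : r < m)
    (hG : ∀ g : C, (∃ j : ℕ, g ^ p ^ j = 1) → g ^ p ^ r = 1) {d : C} (hpd : p ∣ orderOf d)
    {τ : (Fin (p ^ m) → C) → ZMod (p ^ m)} (hτ : IsTau p m r d τ) {N k : ℕ} (hk : 0 < k)
    (A : Matrix (Fin N) (Fin N) (MonoidAlgebra B C)) (U : GLm N (MonoidAlgebra B C))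
    (hU : U.val = 1 + ((p : B) ^ k) • A) :
    (p : B) ^ (2 * k + (m - r + 1)) ∣
      lamQ p m d τ U - (p : B) ^ (m + r) * ((p : B) ^ k * trs d A) := by
  have hd : IsOfFinOrder d := isOfFinOrder_of_finite d
  obtain ⟨e, he⟩ : ∃ e, e = m - r + 1 := ⟨_, rfl⟩
  obtain ⟨J, hJ⟩ : ∃ J, J = 2 * k + e + 2 := ⟨_, rfl⟩
  rw [← he]
  let R := Polynomial B ⧸ Ideal.span {(Polynomial.X : Polynomial B) ^ J}
  let q : Polynomial B →+* R := Ideal.Quotient.mk _
  let ξ : R := q Polynomial.X
  have hξ : ξ ^ J = 0 := by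
    show q Polynomial.X ^ J = 0
    rw [← map_pow]
    exact Ideal.Quotient.eq_zero_iff_mem.2 (Ideal.subset_span rfl)
  let ι : B →+* R := q.comp Polynomial.C
  let AR : Matrix (Fin N) (Fin N) (MonoidAlgebra R C) := A.map (MonoidAlgebra.mapRingHom C ι)
  obtain ⟨V, hV⟩ : ∃ V : GLm N (MonoidAlgebra R C), V.val = 1 + ξ • AR := exists_unit ξ hξ AR
  obtain ⟨μ, hμ⟩ := lamQ_dvd (B := R) hrm.le hG hd hpd hτ V
  obtain ⟨g, hg⟩ : ∃ g, q g = μ := Ideal.Quotient.mk_surjective μ
  rw [← he] at hμ
  obtain ⟨h, a, b, hgab⟩ := poly_split g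
  have key : ∀ (S : Type v) [CommRing S] (f : B →+* S) (s : S), s ^ J = 0 →
      ∀ W : GLm N (MonoidAlgebra S C), W.val = 1 + s • A.map (MonoidAlgebra.mapRingHom C f) →
      lamQ p m d τ W = (p : S) ^ e * ((Polynomial.eval₂ f s h * s + f b) * s + f a) := by
    intro S _ f s hs W hW
    have hker : ∀ x ∈ Ideal.span {(Polynomial.X : Polynomial B) ^ J},
        Polynomial.eval₂RingHom f s x = 0 := by
      intro x hx
      obtain ⟨y, rfl⟩ := Ideal.mem_span_singleton'.1 hx
      rw [map_mul, map_pow, Polynomial.coe_eval₂RingHom, Polynomial.eval₂_X, hs, mul_zero]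
    let ψ : R →+* S := Ideal.Quotient.lift _ (Polynomial.eval₂RingHom f s) hker
    have hψq : ∀ x, ψ (q x) = Polynomial.eval₂ f s x := fun x => Ideal.Quotient.lift_mk _ _ _
    have hψξ : ψ ξ = s := (hψq _).trans (Polynomial.eval₂_X _ _)
    have hψι : ψ.comp ι = f := RingHom.ext fun x => (hψq _).trans (Polynomial.eval₂_C _ _)
    have hVW : mapGL (MonoidAlgebra.mapRingHom C ψ) N V = W := by
      apply Units.ext
      rw [val_mapGL ψ ξ AR V hV, hψξ, hW]
      congr 2
      ext i j y
      show (MonoidAlgebra.mapRingHom C ψ (MonoidAlgebra.mapRingHom C ι (A i j))).coeff y =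
        (MonoidAlgebra.mapRingHom C f (A i j)).coeff y
      rw [MonoidAlgebra.coeff_mapRingHom, MonoidAlgebra.coeff_mapRingHom,
        MonoidAlgebra.coeff_mapRingHom, ← hψι]
      rfl
    rw [← hVW, lamQ_map ψ hτ V, hμ, ← hg, map_mul, map_pow, map_natCast, hψq, hgab]
    simp only [Polynomial.eval₂_add, Polynomial.eval₂_mul, Polynomial.eval₂_X,
      Polynomial.eval₂_C]
  -- the dual numbers
  have hdual : (p : B) ^ e * a = 0 ∧ (p : B) ^ e * b = (p : B) ^ (m + r) * trs d A := by
    let f : B →+* DualNumber B := TrivSqZeroExt.inlHom B B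
    have hε : (DualNumber.eps : DualNumber B) ^ 2 = 0 := by
      rw [sq]
      exact DualNumber.eps_mul_eps
    have hεJ : (DualNumber.eps : DualNumber B) ^ J = 0 := by
      rw [hJ, pow_add, hε, mul_zero]
    obtain ⟨W, hW⟩ : ∃ W : GLm N (MonoidAlgebra (DualNumber B) C),
        W.val = 1 + (DualNumber.eps : DualNumber B) • A.map (MonoidAlgebra.mapRingHom C f) :=
      exists_unit _ hε _
    have h1 := key (DualNumber B) f DualNumber.eps hεJ W hW
    have h2 := lamQ_epsN (B := DualNumber B) hrm hpd hτ DualNumber.eps hε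
      (A.map (MonoidAlgebra.mapRingHom C f)) W hW
    rw [h2, trs_map] at h1
    have h3 : (Polynomial.eval₂ f (DualNumber.eps : DualNumber B) h * DualNumber.eps + f b) *
        DualNumber.eps + f a = f b * DualNumber.eps + f a := by
      rw [add_mul, mul_assoc, DualNumber.eps_mul_eps, mul_zero, zero_add]
    rw [h3] at h1
    have hp1 : (p : DualNumber B) = f (p : B) := (map_natCast f p).symm
    rw [hp1, ← map_pow, ← map_pow] at h1
    constructor
    · have h4 := congrArg TrivSqZeroExt.fst h1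
      simpa [f] using h4.symm
    · have h4 := congrArg TrivSqZeroExt.snd h1
      simpa [f] using h4.symm
  obtain ⟨h0, h1⟩ := hdual
  -- the quotient
  let I : Ideal B := Ideal.span {(p : B) ^ (k * J)}
  have hs : (Ideal.Quotient.mk I ((p : B) ^ k)) ^ J = 0 := by
    rw [← map_pow, ← pow_mul]
    exact Ideal.Quotient.eq_zero_iff_mem.2 (Ideal.subset_span rfl)
  have h2 := key (B ⧸ I) (Ideal.Quotient.mk I) (Ideal.Quotient.mk I ((p : B) ^ k)) hs
    (mapGL (MonoidAlgebra.mapRingHom C (Ideal.Quotient.mk I)) N U)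
    (val_mapGL (Ideal.Quotient.mk I) _ A U hU)
  rw [lamQ_map (Ideal.Quotient.mk I) hτ U] at h2
  have h3 : Polynomial.eval₂ (Ideal.Quotient.mk I) (Ideal.Quotient.mk I ((p : B) ^ k)) h =
      Ideal.Quotient.mk I (h.eval ((p : B) ^ k)) := by
    rw [Polynomial.eval₂_at_apply]
  have h4 : ((p : ℕ) : B ⧸ I) = Ideal.Quotient.mk I (p : B) := (map_natCast _ p).symm
  rw [h3, h4, ← map_pow, ← map_mul, ← map_add, ← map_mul, ← map_add, ← map_mul,
    Ideal.Quotient.mk_eq_mk_iff_sub_mem, Ideal.mem_span_singleton] at h2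
  have h5 : (p : B) ^ (2 * k + e) ∣ (p : B) ^ (k * J) := by
    refine pow_dvd_pow _ ?_
    calc 2 * k + e ≤ 1 * J := by omega
      _ ≤ k * J := Nat.mul_le_mul_right _ hk
  obtain ⟨x, hx⟩ := h5.trans h2
  refine ⟨x + h.eval ((p : B) ^ k), ?_⟩
  have e1 : (p : B) ^ (2 * k + e) = (p : B) ^ e * ((p : B) ^ k * (p : B) ^ k) := by
    rw [← pow_add, ← pow_add]
    congr 1
    omega
  rw [e1] at hx ⊢
  linear_combination hx + h0 + (p : B) ^ k * h1

/-- **The functional and the logarithm.** -/
theorem lamQ_logN [Fintype C] (hrm : r < m)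
    (hG : ∀ g : C, (∃ j : ℕ, g ^ p ^ j = 1) → g ^ p ^ r = 1) {d : C} (hpd : p ∣ orderOf d)
    {τ : (Fin (p ^ m) → C) → ZMod (p ^ m)} (hτ : IsTau p m r d τ) {N : ℕ}
    (A : Matrix (Fin N) (Fin N) (MonoidAlgebra B C)) (U : GLm N (MonoidAlgebra B C))
    (hU : U.val = 1 + ((p : B) ^ 2) • A) (l : ℕ) :
    ∃ x y : B, (p : B) ^ l * lamQ p m d τ U =
      (p : B) ^ (m + r) * trs d ((U ^ p ^ l : GLm N (MonoidAlgebra B C)).val - 1) +
        (p : B) ^ (2 * l + (m - r + 1)) * x + (p : B) ^ (m + (m - r + 1)) * y := by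
  have hd : IsOfFinOrder d := isOfFinOrder_of_finite d
  classical
  have hns : ∀ (n : ℕ) (M : Matrix (Fin N) (Fin N) (MonoidAlgebra B C)),
      (p ^ n : ℕ) • M = ((p : B) ^ n) • M := by
    intro n M
    rw [← Nat.cast_pow, Nat.cast_smul_eq_nsmul]
  obtain ⟨A', hA'⟩ := pow_congr_one (p := p) (le_refl 2) l U.val A (by rw [hU, hns])
  have hUl : (U ^ p ^ l : GLm N (MonoidAlgebra B C)).val = 1 + ((p : B) ^ (2 + l)) • A' := by
    rw [Units.val_pow_eq_pow_val, hA', hns]
  obtain ⟨x, hx⟩ := lamQ_leadN hrm hG hpd hτ (by omega : 0 < 2 + l) A' _ hUl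
  obtain ⟨y, hy⟩ := lamQ_pow hrm.le hG hd hpd hτ U (p ^ l)
  have htr : trs d ((U ^ p ^ l : GLm N (MonoidAlgebra B C)).val - 1) =
      (p : B) ^ (2 + l) * trs d A' := by
    rw [hUl, add_sub_cancel_left]
    unfold trs
    rw [Finset.mul_sum]
    refine Finset.sum_congr rfl fun x _ => ?_
    rw [mul_ite, mul_zero]
    congr 1
    unfold Matrix.trace
    rw [Finset.mul_sum]
    rfl
  refine ⟨(p : B) ^ 4 * x, -y, ?_⟩
  rw [htr]
  rw [Nat.cast_pow] at hy
  have e1 : (p : B) ^ (2 * (2 + l) + (m - r + 1)) =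
      (p : B) ^ (2 * l + (m - r + 1)) * (p : B) ^ 4 := by
    rw [← pow_add]
    congr 1
    omega
  rw [e1] at hx
  linear_combination hx - hy

end

end Pool.Agent.H39.CZ

end
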