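import Pool.Agent.H71.TCZ.H71.WH.Formal
import Pool.Agent.H71.TCZ.M12

/-! The parts of this file: H71.WH.Log_1, H71.WH.Log2_2. -/

section

/-!
# The trace of the `2`-adic logarithm

For a ring `R`, a homomorphism `τ : R → ℤ` and `x ∈ 2 R` let
`tl τ x = ∑ (-1)^k τ(x^(k+1)) / (k+1)`, the value of `τ` on `log (1 + x)`. If `τ` is a trace then
`tl τ` is additive: `tl τ (x + y + x y) = tl τ x + tl τ y`.
-/

set_option autoImplicit false

open Polynomial

universe u v

namespace Pool.Agent.H71.WH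

variable {R : Type u} [Ring R]

theorem dbl_zero (τ : R →+ ℤ) {A : R[X]} (h : A.coeff 0 = 0) (m k : ℕ) (hk : m < k) :
    dbl τ A (m, k) = 0 := by
  have : (A ^ (k + 1)).coeff (m + 1) = 0 := van_pow (n := k) h (m + 1) (by omega)
  simp [dbl, this]

theorem summable_dbl (τ : R →+ ℤ) {A : R[X]} (h : A.coeff 0 = 0) : Summable (dbl τ A) := by
  have h1 : Summable fun k : ℕ => ((k : ℝ) + 1) * (3 / 4) ^ k := by
    have h1 := summable_pow_mul_geometric_of_norm_lt_one (R := ℝ) 1
      (show ‖(3 / 4 : ℝ)‖ < 1 by norm_num)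
    have h2 := summable_pow_mul_geometric_of_norm_lt_one (R := ℝ) 0
      (show ‖(3 / 4 : ℝ)‖ < 1 by norm_num)
    refine (h1.add h2).congr ?_
    intro k
    ring
  have h2 : Summable fun k : ℕ => ((3 : ℝ) / 4) ^ k :=
    summable_geometric_of_lt_one (by norm_num) (by norm_num)
  have h3 := h1.mul_of_nonneg h2 (fun k => by positivity) (fun k => by positivity)
  refine Summable.of_norm_bounded h3 ?_
  rintro ⟨m, k⟩
  by_cases hk : m < k
  · rw [dbl_zero τ h m k hk, norm_zero]
    positivity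
  · push Not at hk
    have hle := norm_term_le (z := 2 ^ (m + 1) * τ ((A ^ (k + 1)).coeff (m + 1))) (m := m + 1)
      (k := k) (dvd_mul_right _ _)
    refine hle.trans ?_
    have e1 : ((2 : ℝ) ^ (m + 1))⁻¹ * (2 * (k + 1)) = (1 / 2) ^ m * (k + 1) := by
      rw [pow_succ, mul_inv, one_div, inv_pow]
      ring
    rw [e1]
    have e2 : ((1 : ℝ) / 2) ^ m ≤ (3 / 4) ^ m * (3 / 4) ^ m := by
      rw [← mul_pow]
      exact pow_le_pow_left₀ (by norm_num) (by norm_num) m
    have e3 : ((3 : ℝ) / 4) ^ m ≤ (3 / 4) ^ k :=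
      pow_le_pow_of_le_one (by norm_num) (by norm_num) hk
    have e4 : ((k : ℝ) + 1) ≤ (m : ℝ) + 1 := by
      have : (k : ℝ) ≤ m := by exact_mod_cast hk
      linarith
    calc ((1 : ℝ) / 2) ^ m * (k + 1) ≤ ((3 / 4) ^ m * (3 / 4) ^ k) * (m + 1) := by
          apply mul_le_mul (e2.trans _) e4 (by positivity) (by positivity)
          exact mul_le_mul_of_nonneg_left e3 (by positivity)
      _ = ((m : ℝ) + 1) * (3 / 4) ^ m * (3 / 4) ^ k := by ring

theorem inner_sum (τ : R →+ ℤ) (x y : R) (k : ℕ) : ∑' m, dbl τ (poly x y) (m, k) =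
    tlTerm τ (2 * x + 2 * y + 2 * x * (2 * y)) k := by
  rw [tlTerm, ← ev_poly, ← map_pow]
  have e1 : ev R (poly x y ^ (k + 1)) =
      ∑ i ∈ Finset.range ((poly x y ^ (k + 1)).natDegree + 1),
        (poly x y ^ (k + 1)).coeff i * 2 ^ i := eval₂_eq_sum_range (RingHom.id R) 2
  rw [Finset.sum_range_succ'] at e1
  have e2 : (poly x y ^ (k + 1)).coeff 0 = 0 := van_pow (n := k) (poly_zero x y) 0 (Nat.zero_le _)
  rw [e2, zero_mul, add_zero] at e1
  rw [e1, map_sum]
  have e3 : ∀ i, τ ((poly x y ^ (k + 1)).coeff (i + 1) * 2 ^ (i + 1)) =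
      2 ^ (i + 1) * τ ((poly x y ^ (k + 1)).coeff (i + 1)) := by
    intro i
    rw [← two_pow_comm, map_two_pow_mul]
  simp only [e3]
  rw [tsum_eq_sum (s := Finset.range (poly x y ^ (k + 1)).natDegree)]
  · push_cast
    rw [Finset.mul_sum, Finset.sum_div]
    apply Finset.sum_congr rfl
    intro i _
    simp only [dbl]
    push_cast
    rfl
  · intro m hm
    have : (poly x y ^ (k + 1)).coeff (m + 1) = 0 := by
      apply coeff_eq_zero_of_natDegree_lt
      have : ¬ m < (poly x y ^ (k + 1)).natDegree := fun h => hm (Finset.mem_range.2 h)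
      omega
    simp [dbl, this]

theorem outer_sum (τ : R →+ ℤ) (hτ : ∀ a b, τ (a * b) = τ (b * a)) (x y : R) (m : ℕ) :
    ∑' k, dbl τ (poly x y) (m, k) = tlTerm τ (2 * x) m + tlTerm τ (2 * y) m := by
  rw [tsum_eq_sum (s := Finset.range (m + 1))]
  · have h := congrArg (fun q : ℚ => (q : ℚ_[2])) (formal_identity τ hτ x y m)
    push_cast at h
    have e1 : ∑ k ∈ Finset.range (m + 1), dbl τ (poly x y) (m, k) = 2 ^ (m + 1) *
        ∑ j ∈ Finset.range (m + 1), (-1 : ℚ_[2]) ^ j *
          (τ (((C x * X + C y * X + C (x * y) * X ^ 2) ^ (j + 1)).coeff (m + 1)) : ℚ_[2]) /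
            (j + 1) := by
      rw [Finset.mul_sum]
      apply Finset.sum_congr rfl
      intro k _
      simp only [dbl, poly]
      push_cast
      ring
    rw [e1, h, tlTerm, tlTerm, two_mul_pow, two_mul_pow, map_two_pow_mul, map_two_pow_mul]
    push_cast
    ring
  · intro k hk
    apply dbl_zero τ (poly_zero x y)
    have : ¬ k < m + 1 := fun h => hk (Finset.mem_range.2 h)
    omega

theorem tl_mul' (τ : R →+ ℤ) (hτ : ∀ a b, τ (a * b) = τ (b * a)) (x y : R) :
    tl τ (2 * x + 2 * y + 2 * x * (2 * y)) = tl τ (2 * x) + tl τ (2 * y) := by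
  have hs := summable_dbl τ (poly_zero x y)
  have hcomm : ∑' (k) (m), dbl τ (poly x y) (m, k) = ∑' (m) (k), dbl τ (poly x y) (m, k) :=
    hs.tsum_comm' (f := fun m k => dbl τ (poly x y) (m, k))
      (fun b => hs.comp_injective (Prod.mk_right_injective b))
      (fun c => hs.comp_injective (Prod.mk_left_injective c))
  simp only [inner_sum, outer_sum τ hτ] at hcomm
  rw [tl, tl, tl, hcomm, (tl_summable τ x).tsum_add (tl_summable τ y)]

end Pool.Agent.H71.WH

end

section

/-!
# Further properties of the trace of the logarithm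
-/

set_option autoImplicit false

universe u v

namespace Pool.Agent.H71.WH

variable {R : Type u} [Ring R]

theorem L_mul (τ : R →+ ℤ) (hτ : ∀ a b, τ (a * b) = τ (b * a)) {w w' : R} (h : Cong w)
    (h' : Cong w') : L τ (w * w') = L τ w + L τ w' := by
  obtain ⟨x, rfl⟩ := h
  obtain ⟨y, rfl⟩ := h'
  have e1 : (1 + 2 * x) * (1 + 2 * y) - 1 = 2 * x + 2 * y + 2 * x * (2 * y) := by noncomm_ring
  rw [L, L, L, e1, add_sub_cancel_left, add_sub_cancel_left, tl_mul' τ hτ]

end Pool.Agent.H71.WH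

end
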