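import Pool.Agent.H71.TCZ.H71.KP.Skew
import Pool.Agent.H71.TCZ.M13

/-! The parts of this file: H71.KP.Formal, H71.KP.Log_1, H71.KP.Log2_2, H71.KP.Log2_1, H71.KP.Skew_1. -/

section

/-!
# The formal identity behind the additivity of the trace of the logarithm (field valued traces)
-/

set_option autoImplicit false

open Polynomial
open Pool.Agent.H71.WH (Van geo van_pow van_geo_mul van_mul_geo derivative_pow_nc)

universe u v

namespace Pool.Agent.H71.KP

variable {R : Type u} [Ring R] {A : Type v} [Field A]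

theorem coeff_trace (τ : R →+ A) (hτ : ∀ a b, τ (a * b) = τ (b * a)) (P Q : R[X]) (n : ℕ) :
    τ ((P * Q).coeff n) = τ ((Q * P).coeff n) := by
  rw [coeff_mul, coeff_mul, map_sum, map_sum,
    ← Finset.Nat.sum_antidiagonal_swap (f := fun p => τ (Q.coeff p.1 * P.coeff p.2))]
  apply Finset.sum_congr rfl
  intro p _
  exact hτ _ _

theorem trace_derivative_pow (τ : R →+ A) (hτ : ∀ a b, τ (a * b) = τ (b * a)) (B : R[X])
    (k n : ℕ) : τ ((derivative (B ^ (k + 1))).coeff n) =
      (k + 1) * τ ((B ^ k * derivative B).coeff n) := by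
  rw [derivative_pow_nc, finsetSum_coeff, map_sum]
  have : ∀ i ∈ Finset.range (k + 1), τ ((B ^ i * derivative B * B ^ (k - i)).coeff n) =
      τ ((B ^ k * derivative B).coeff n) := by
    intro i hi
    have hik : i ≤ k := Nat.lt_succ_iff.1 (Finset.mem_range.1 hi)
    rw [coeff_trace τ hτ, ← mul_assoc, ← pow_add]
    congr 4
    omega
  rw [Finset.sum_congr rfl this, Finset.sum_const, Finset.card_range, nsmul_eq_mul]
  push_cast
  ring

theorem formal_aux (τ : R →+ A) (hτ : ∀ a b, τ (a * b) = τ (b * a)) (x y : R) (n : ℕ) :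
    ∑ j ∈ Finset.range (n + 1), (-1) ^ j *
      τ (((C x * X + C y * X + C (x * y) * X ^ 2) ^ j *
        derivative (C x * X + C y * X + C (x * y) * X ^ 2)).coeff n) =
    (-1) ^ n * (τ (x ^ (n + 1)) + τ (y ^ (n + 1))) := by
  set B : R[X] := C x * X + C y * X + C (x * y) * X ^ 2 with hA
  set P : R[X] := C x * X with hP
  set Q : R[X] := C y * X with hQ
  have hX : ∀ p : R[X], X * p = p * X := fun p => X_mul
  have hPQ : 1 + B = (1 + P) * (1 + Q) := by
    rw [hA, hP, hQ, mul_add, add_mul, add_mul, one_mul, one_mul, mul_one]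
    have : C x * X * (C y * X) = C (x * y) * X ^ 2 := by
      rw [mul_assoc, ← mul_assoc X (C y) X, hX (C y), C_mul, pow_two]
      simp only [mul_assoc]
    rw [this]
    abel
  have hDA : derivative B = C x * (1 + Q) + (1 + P) * C y := by
    rw [hA, hQ, hP, derivative_add, derivative_add, derivative_C_mul, derivative_C_mul,
      derivative_C_mul, derivative_X, derivative_X_pow, mul_add, add_mul, mul_one, one_mul]
    have h1 : C x * X * C y = C (x * y) * X := by
      rw [mul_assoc, hX (C y), C_mul, mul_assoc]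
    have h2 : C x * (C y * X) = C (x * y) * X := by rw [C_mul, mul_assoc]
    rw [h1, h2]
    simp only [Nat.cast_ofNat, Nat.add_one_sub_one, pow_one, mul_one]
    have h3 : C (x * y) * (C (2 : R) * X) = C (x * y) * X + C (x * y) * X := by
      rw [← mul_assoc, ← C_mul, mul_two, C_add, add_mul]
    rw [h3]
    abel
  have hP0 : P.coeff 0 = 0 := by simp [hP]
  have hQ0 : Q.coeff 0 = 0 := by simp [hQ]
  have hA0 : B.coeff 0 = 0 := by simp [hA, hP0, hQ0]
  have hsum : ∑ j ∈ Finset.range (n + 1), (-1) ^ j * τ ((B ^ j * derivative B).coeff n) =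
      τ ((geo n B * derivative B).coeff n) := by
    rw [geo, Finset.sum_mul, finsetSum_coeff, map_sum]
    apply Finset.sum_congr rfl
    intro j _
    rcases Nat.even_or_odd j with hj | hj
    · rw [hj.neg_one_pow, hj.neg_one_pow, one_mul, one_mul]
    · rw [hj.neg_one_pow, hj.neg_one_pow, neg_one_mul, neg_one_mul, neg_mul, coeff_neg, map_neg]
  rw [hsum]
  -- `geo n B` agrees with `geo n Q * geo n P` up to degree `n`
  have hW : Van n (geo n B - geo n Q * geo n P) := by
    have e1 : Van n ((geo n B * (1 + B) - 1) * (geo n Q * geo n P)) :=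
      (van_geo_mul n hA0).mul_right _
    have e2 : Van n (geo n B * ((1 + P) * ((1 + Q) * geo n Q - 1) * geo n P +
        ((1 + P) * geo n P - 1))) :=
      ((((van_mul_geo n hQ0).mul_left _).mul_right _).add (van_mul_geo n hP0)).mul_left _
    have e3 := e1.sub e2
    have e4 : (geo n B * (1 + B) - 1) * (geo n Q * geo n P) -
        geo n B * ((1 + P) * ((1 + Q) * geo n Q - 1) * geo n P + ((1 + P) * geo n P - 1)) =
        geo n B - geo n Q * geo n P := by
      rw [hPQ]
      noncomm_ring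
    rwa [e4] at e3
  have h1 : τ ((geo n B * derivative B).coeff n) =
      τ ((geo n Q * geo n P * derivative B).coeff n) := by
    have := (hW.mul_right (derivative B)) n le_rfl
    rw [sub_mul, coeff_sub, sub_eq_zero] at this
    rw [this]
  have h2 : τ ((geo n Q * geo n P * derivative B).coeff n) =
      τ ((geo n P * C x).coeff n) + τ ((geo n Q * C y).coeff n) := by
    rw [hDA, mul_add, coeff_add, map_add]
    congr 1
    · rw [← mul_assoc, mul_assoc (geo n Q) (geo n P) (C x), mul_assoc (geo n Q),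
        coeff_trace τ hτ, mul_assoc]
      have := ((van_mul_geo n hQ0).mul_left (geo n P * C x)) n le_rfl
      rw [mul_sub, mul_one, coeff_sub, sub_eq_zero] at this
      rw [this]
    · have := ((van_geo_mul n hP0).mul_left (geo n Q)).mul_right (C y) n le_rfl
      rw [mul_sub, mul_one, sub_mul, coeff_sub, sub_eq_zero] at this
      rw [← this]
      simp only [mul_assoc]
  have h3 : ∀ z : R, (geo n (C z * X) * C z).coeff n = (-1) ^ n * z ^ (n + 1) := by
    intro z
    have hz : ∀ j : ℕ, (C z * X) ^ j = C (z ^ j) * X ^ j := by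
      intro j
      rw [(Polynomial.commute_X (C z)).symm.mul_pow, C_pow]
    have : geo n (C z * X) * C z = ∑ j ∈ Finset.range (n + 1),
        C ((-1) ^ j * z ^ (j + 1)) * X ^ j := by
      rw [geo, Finset.sum_mul]
      apply Finset.sum_congr rfl
      intro j _
      have hC : (C ((-1 : R) ^ j) : R[X]) = (-1) ^ j := by rw [C_pow, C_neg, C_1]
      rw [hz, mul_assoc, mul_assoc, X_pow_mul_C, pow_succ, C_mul, C_mul, hC]
      simp only [mul_assoc]
    rw [this, finsetSum_coeff, Finset.sum_eq_single n]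
    · rw [coeff_C_mul, coeff_X_pow, if_pos rfl, mul_one]
    · intro j _ hj
      rw [coeff_C_mul, coeff_X_pow, if_neg (Ne.symm hj), mul_zero]
    · intro h
      exact absurd (Finset.mem_range.2 (Nat.lt_succ_self n)) h
  have h4 : ∀ z : R, τ ((-1) ^ n * z ^ (n + 1)) = (-1) ^ n * τ (z ^ (n + 1)) := by
    intro z
    rcases Nat.even_or_odd n with hj | hj
    · rw [hj.neg_one_pow, hj.neg_one_pow, one_mul, one_mul]
    · rw [hj.neg_one_pow, hj.neg_one_pow, neg_one_mul, neg_one_mul, map_neg]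
  rw [h1, h2, hP, hQ, h3, h3, h4, h4, mul_add]

/-- the formal identity -/
theorem formal_identity [CharZero A] (τ : R →+ A) (hτ : ∀ a b, τ (a * b) = τ (b * a)) (x y : R)
    (n : ℕ) :
    ∑ j ∈ Finset.range (n + 1), (-1 : A) ^ j *
      τ (((C x * X + C y * X + C (x * y) * X ^ 2) ^ (j + 1)).coeff (n + 1)) / (j + 1) =
    (-1) ^ n * (τ (x ^ (n + 1)) + τ (y ^ (n + 1))) / (n + 1) := by
  have h := formal_aux τ hτ x y n
  have hn : ((n : A) + 1) ≠ 0 := by exact_mod_cast Nat.succ_ne_zero n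
  rw [eq_div_iff hn, Finset.sum_mul]
  rw [← h]
  apply Finset.sum_congr rfl
  intro j _
  have h1 := trace_derivative_pow τ hτ (C x * X + C y * X + C (x * y) * X ^ 2) j n
  rw [coeff_derivative] at h1
  have h2 : ∀ z : R, τ (z * ((n : R) + 1)) = (n + 1) * τ z := by
    intro z
    have : z * ((n : R) + 1) = (n + 1) • z := by
      rw [nsmul_eq_mul, Nat.cast_add, Nat.cast_one]
      exact (((Nat.cast_commute n z).add_left (Commute.one_left z)).eq).symm
    rw [this, map_nsmul, nsmul_eq_mul]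
    push_cast
    ring
  rw [h2] at h1
  have hj : ((j : A) + 1) ≠ 0 := by exact_mod_cast Nat.succ_ne_zero j
  rw [div_mul_eq_mul_div, div_eq_iff hj, mul_assoc, mul_comm _ ((n : A) + 1), h1]
  ring

end Pool.Agent.H71.KP

end

section

/-!
# The trace of the `p`-adic logarithm

Let `c` be a central element of a ring `R` such that `c ^ (k + 1)` is a multiple of
`p ^ (k / (p - 1))` for all `k`. For a homomorphism `τ : R → ℤ_[p]` and `x ∈ c R` let
`tl τ x = ∑ (-1)^k τ(x^(k+1)) / (k+1)`, the value of `τ` on `log (1 + x)`. If `τ` is a trace then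
`tl τ (x + y + x y) = tl τ x + tl τ y`.
-/

set_option autoImplicit false
set_option linter.unusedSectionVars false

open Polynomial
open Pool.Agent.H71.WH (Van van_pow poly poly_zero)

universe u v

namespace Pool.Agent.H71.KP

variable {p : ℕ} [hp : Fact p.Prime]

section Real

end Real

variable {R : Type u} [Ring R]

theorem dbl_zero (τ : R →+ ℤ_[p]) (c : R) {A : R[X]} (h : A.coeff 0 = 0) (m k : ℕ) (hk : m < k) :
    dbl τ c A (m, k) = 0 := by
  have : (A ^ (k + 1)).coeff (m + 1) = 0 := van_pow (n := k) h (m + 1) (by omega)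
  simp [dbl, this]

theorem summable_dbl (τ : R →+ ℤ_[p]) {c : R} (hc : Cen p c) {A : R[X]} (h : A.coeff 0 = 0) :
    Summable (dbl τ c A) := by
  have hp2 : (2 : ℝ) ≤ p := by exact_mod_cast hp.out.two_le
  have hq : 0 < p - 1 := Nat.sub_pos_of_lt hp.out.one_lt
  obtain ⟨r, h0, h1, hr⟩ := exists_root (p - 1) hq
  have h2 : Summable fun k : ℕ => r ^ k := summable_geometric_of_lt_one h0.le h1
  have h3 := ((summable_succ h0 h1).mul_left (2 * p : ℝ)).mul_of_nonneg h2
    (fun k => by positivity) (fun k => by positivity)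
  refine Summable.of_norm_bounded h3 ?_
  rintro ⟨m, k⟩
  by_cases hk : m < k
  · rw [dbl_zero τ c h m k hk, norm_zero]
    positivity
  · push Not at hk
    have hle := norm_term_le (z := τ (c ^ (m + 1) * (A ^ (k + 1)).coeff (m + 1)))
      (m := m / (p - 1)) (k := k) (hc.dvd τ m _)
    refine hle.trans ?_
    have e2 := pow_bound hq h0 h1 hr hp2 m
    have e3 : r ^ m ≤ r ^ k := pow_le_pow_of_le_one h0.le h1.le hk
    have e4 : ((k : ℝ) + 1) ≤ (m : ℝ) + 1 := by
      have : (k : ℝ) ≤ m := by exact_mod_cast hk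
      linarith
    have e5 : r ^ (2 * m) ≤ r ^ m * r ^ k := by
      rw [two_mul, pow_add]
      exact mul_le_mul_of_nonneg_left e3 (by positivity)
    calc ((p : ℝ) ^ (m / (p - 1)))⁻¹ * (p * (k + 1))
        ≤ (2 * (r ^ m * r ^ k)) * (p * (m + 1)) := by
          apply mul_le_mul _ _ (by positivity) (by positivity)
          · exact e2.trans (mul_le_mul_of_nonneg_left e5 (by norm_num))
          · exact mul_le_mul_of_nonneg_left e4 (by positivity)
      _ = 2 * p * (((m : ℝ) + 1) * r ^ m) * r ^ k := by ring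

theorem inner_sum (τ : R →+ ℤ_[p]) {c : R} (hc : Cen p c) (x y : R) (k : ℕ) :
    ∑' m, dbl τ c (poly x y) (m, k) = tlTerm τ (c * x + c * y + c * x * (c * y)) k := by
  rw [tlTerm, ← ev_poly hc, ← map_pow]
  have e1 : ev hc (poly x y ^ (k + 1)) =
      ∑ i ∈ Finset.range ((poly x y ^ (k + 1)).natDegree + 1),
        (poly x y ^ (k + 1)).coeff i * c ^ i := eval₂_eq_sum_range (RingHom.id R) c
  rw [Finset.sum_range_succ'] at e1
  have e2 : (poly x y ^ (k + 1)).coeff 0 = 0 := van_pow (n := k) (poly_zero x y) 0 (Nat.zero_le _)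
  rw [e2, zero_mul, add_zero] at e1
  rw [e1, map_sum]
  rw [tsum_eq_sum (s := Finset.range (poly x y ^ (k + 1)).natDegree)]
  · rw [PadicInt.coe_sum, Finset.mul_sum, Finset.sum_div]
    apply Finset.sum_congr rfl
    intro i _
    simp only [dbl]
    rw [hc.pow_comm]
  · intro m hm
    have : (poly x y ^ (k + 1)).coeff (m + 1) = 0 := by
      apply coeff_eq_zero_of_natDegree_lt
      have : ¬ m < (poly x y ^ (k + 1)).natDegree := fun h => hm (Finset.mem_range.2 h)
      omega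
    simp [dbl, this]

theorem outer_sum (τ : R →+ ℤ_[p]) (hτ : ∀ a b, τ (a * b) = τ (b * a)) {c : R} (hc : Cen p c)
    (x y : R) (m : ℕ) :
    ∑' k, dbl τ c (poly x y) (m, k) = tlTerm τ (c * x) m + tlTerm τ (c * y) m := by
  rw [tsum_eq_sum (s := Finset.range (m + 1))]
  · have h := formal_identity (twist τ c (m + 1)) (by
      intro a b
      change ((τ (c ^ (m + 1) * (a * b)) : ℤ_[p]) : ℚ_[p]) = (τ (c ^ (m + 1) * (b * a)) : ℚ_[p])
      rw [← mul_assoc, hτ, ← mul_assoc, ← hc.pow_comm, mul_assoc]) x y m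
    have e1 : ∑ k ∈ Finset.range (m + 1), dbl τ c (poly x y) (m, k) =
        ∑ j ∈ Finset.range (m + 1), (-1 : ℚ_[p]) ^ j *
          twist τ c (m + 1) (((C x * X + C y * X + C (x * y) * X ^ 2) ^ (j + 1)).coeff (m + 1)) /
            (j + 1) := rfl
    rw [e1, h, tlTerm, tlTerm, hc.mul_pow, hc.mul_pow]
    change (-1) ^ m * ((τ (c ^ (m + 1) * x ^ (m + 1)) : ℚ_[p]) +
      (τ (c ^ (m + 1) * y ^ (m + 1)) : ℚ_[p])) / (m + 1) = _
    ring
  · intro k hk
    apply dbl_zero τ c (poly_zero x y)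
    have : ¬ k < m + 1 := fun h => hk (Finset.mem_range.2 h)
    omega

theorem tl_mul' (τ : R →+ ℤ_[p]) (hτ : ∀ a b, τ (a * b) = τ (b * a)) {c : R} (hc : Cen p c)
    (x y : R) : tl τ (c * x + c * y + c * x * (c * y)) = tl τ (c * x) + tl τ (c * y) := by
  have hs := summable_dbl τ hc (poly_zero x y)
  have hcomm : ∑' (k) (m), dbl τ c (poly x y) (m, k) = ∑' (m) (k), dbl τ c (poly x y) (m, k) :=
    hs.tsum_comm' (f := fun m k => dbl τ c (poly x y) (m, k))
      (fun b => hs.comp_injective (Prod.mk_right_injective b))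
      (fun c => hs.comp_injective (Prod.mk_left_injective c))
  simp only [inner_sum τ hc, outer_sum τ hτ hc] at hcomm
  rw [tl, tl, tl, hcomm, (tl_summable τ hc x).tsum_add (tl_summable τ hc y)]

end Pool.Agent.H71.KP

end

section

/-!
# Further properties of the trace of the logarithm
-/

set_option autoImplicit false
set_option linter.unusedSectionVars false

universe u v

namespace Pool.Agent.H71.KP

variable {p : ℕ} [hp : Fact p.Prime] {R : Type u} [Ring R]

theorem L_mul (τ : R →+ ℤ_[p]) (hτ : ∀ a b, τ (a * b) = τ (b * a)) {c : R} (hc : Cen p c)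
    {w w' : R} (h : Cong c w) (h' : Cong c w') : L τ (w * w') = L τ w + L τ w' := by
  obtain ⟨x, rfl⟩ := h
  obtain ⟨y, rfl⟩ := h'
  have e1 : (1 + c * x) * (1 + c * y) - 1 = c * x + c * y + c * x * (c * y) := by noncomm_ring
  rw [L, L, L, e1, add_sub_cancel_left, add_sub_cancel_left, tl_mul' τ hτ hc]

theorem L_inv (τ : R →+ ℤ_[p]) (hτ : ∀ a b, τ (a * b) = τ (b * a)) {c : R} (hc : Cen p c)
    {w w' : R} (h : Cong c w) (h1 : w' * w = 1) : L τ w' = -L τ w := by
  have := L_mul τ hτ hc (h.of_mul_eq_one hc h1) h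
  rw [h1, L_one] at this
  exact (neg_eq_of_add_eq_zero_left this.symm).symm

end Pool.Agent.H71.KP

end

section

/-!
# Further properties of the trace of the logarithm
-/

set_option autoImplicit false
set_option linter.unusedSectionVars false

universe u v

namespace Pool.Agent.H71.KP

variable {p : ℕ} [hp : Fact p.Prime] {R : Type u} [Ring R]

theorem Cong.one (c : R) : Cong c (1 : R) := ⟨0, by simp⟩

theorem Cong.mul {c w w' : R} (h : Cong c w) (h' : Cong c w') : Cong c (w * w') := by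
  obtain ⟨x, rfl⟩ := h
  obtain ⟨y, rfl⟩ := h'
  refine ⟨x + y + x * (c * y), ?_⟩
  noncomm_ring

theorem L_one_add (τ : R →+ ℤ_[p]) (x : R) : L τ (1 + x) = tl τ x := by
  rw [L, add_sub_cancel_left]

theorem tl_mul_fun (τ τ' : R →+ ℤ_[p]) (x : R) (n : ℤ_[p]) (h : ∀ r, τ' r = n * τ r) :
    tl τ' x = n * tl τ x := by
  have : tlTerm τ' x = fun k => (n : ℚ_[p]) * tlTerm τ x k := by
    funext k
    simp only [tlTerm, h, PadicInt.coe_mul]
    ring
  rw [tl, tl, this, tsum_mul_left]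

theorem nonUnital_pow {S : Type v} [Ring S] (J : R →ₙ+* S) (x : R) (k : ℕ) :
    J x ^ (k + 1) = J (x ^ (k + 1)) := by
  induction k with
  | zero => simp
  | succ k ih => rw [pow_succ, ih, pow_succ x (k + 1), map_mul]

theorem tl_nonUnital {S : Type v} [Ring S] (J : R →ₙ+* S) (τ : R →+ ℤ_[p])
    (τ' : S →+ ℤ_[p]) (h : ∀ x, τ' (J x) = τ x) (x : R) : tl τ' (J x) = tl τ x := by
  apply tl_congr
  intro k
  rw [nonUnital_pow, h]

/-- additivity for elements of a subring on which the functional is a trace -/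
theorem L_mul_sub (τ : R →+ ℤ_[p]) (S : Subring R) (hS : ∀ a ∈ S, ∀ b ∈ S, τ (a * b) = τ (b * a))
    {x y : R} (hx : x ∈ S) (hy : y ∈ S) :
    L τ ((1 + (p : R) * x) * (1 + (p : R) * y)) =
      L τ (1 + (p : R) * x) + L τ (1 + (p : R) * y) := by
  have key := L_mul (pull S.subtype τ) (fun a b => hS _ a.2 _ b.2) (cen_p (p := p) (R := S))
    (w := 1 + (p : S) * ⟨x, hx⟩) (w' := 1 + (p : S) * ⟨y, hy⟩) ⟨_, rfl⟩ ⟨_, rfl⟩
  rw [← L_map, ← L_map, ← L_map] at key
  simpa using key

theorem succ_le_pow (j : ℕ) : j + 2 ≤ p ^ (j + 1) := by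
  have h1 := Nat.lt_two_pow_self (n := j + 1)
  have h2 : 2 ^ (j + 1) ≤ p ^ (j + 1) := Nat.pow_le_pow_left hp.out.two_le _
  omega

theorem term_le_aux (τ : R →+ ℤ_[p]) (r : R) (n j : ℕ) :
    ‖tlTerm τ ((p : R) ^ (n + 1) * r) (j + 1)‖ ≤ ((p : ℝ) ^ (2 * n))⁻¹ := by
  have hp0 : (0 : ℝ) < p := by exact_mod_cast hp.out.pos
  have h0 : τ (((p : R) ^ (n + 1) * r) ^ (j + 1 + 1)) =
      (p : ℤ_[p]) ^ ((n + 1) * (j + 2)) * τ (r ^ (j + 2)) := by
    rw [((Nat.cast_commute p r).pow_left (n + 1)).mul_pow, ← pow_mul, map_p_pow_mul]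
  have h1 := norm_term_le (z := τ (((p : R) ^ (n + 1) * r) ^ (j + 1 + 1)))
    (m := (n + 1) * (j + 2)) (k := j + 1) (by rw [h0]; exact dvd_mul_right _ _)
  refine h1.trans ?_
  have h2 : p * (j + 2) * p ^ (2 * n) ≤ p ^ ((n + 1) * (j + 2)) := by
    calc p * (j + 2) * p ^ (2 * n) ≤ p * p ^ (j + 1) * p ^ (2 * n) :=
          Nat.mul_le_mul_right _ (Nat.mul_le_mul_left _ (succ_le_pow j))
      _ = p ^ (j + 2 + 2 * n) := by rw [← pow_succ', ← pow_add]
      _ ≤ p ^ ((n + 1) * (j + 2)) := by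
          apply Nat.pow_le_pow_right hp.out.pos
          nlinarith [Nat.zero_le (n * j)]
  have h3 : (p * ((j : ℝ) + 2)) * p ^ (2 * n) ≤ (p : ℝ) ^ ((n + 1) * (j + 2)) := by
    exact_mod_cast h2
  rw [← div_eq_inv_mul, div_le_iff₀ (by positivity), ← div_eq_inv_mul, le_div_iff₀ (by positivity)]
  push_cast
  linarith

theorem tlTerm_zero (τ : R →+ ℤ_[p]) (r : R) (n : ℕ) :
    tlTerm τ ((p : R) ^ n * r) 0 = ((p ^ n * τ r : ℤ_[p]) : ℚ_[p]) := by
  rw [tlTerm, zero_add, pow_one, map_p_pow_mul]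
  simp

theorem tl_summable_pow (τ : R →+ ℤ_[p]) (r : R) (n : ℕ) :
    Summable (tlTerm τ ((p : R) ^ (n + 1) * r)) := by
  have : (p : R) ^ (n + 1) * r = (p : R) * ((p : R) ^ n * r) := by rw [pow_succ', mul_assoc]
  rw [this]
  exact tl_summable τ cen_p _

theorem norm_tl_sub_le (τ : R →+ ℤ_[p]) (r : R) (n : ℕ) :
    ‖tl τ ((p : R) ^ (n + 1) * r) - ((p ^ (n + 1) * τ r : ℤ_[p]) : ℚ_[p])‖ ≤
      ((p : ℝ) ^ (2 * n))⁻¹ := by
  rw [tl, (tl_summable_pow τ r n).tsum_eq_zero_add, tlTerm_zero, add_sub_cancel_left]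
  exact IsUltrametricDist.norm_tsum_le_of_forall_le (fun j => term_le_aux τ r n j)

theorem dvd_of_norm_le {z : ℤ_[p]} {m : ℕ} (h : ‖(z : ℚ_[p])‖ ≤ ((p : ℝ) ^ m)⁻¹) :
    (p : ℤ_[p]) ^ m ∣ z := by
  have h1 : ‖z‖ ≤ (p : ℝ) ^ (-(m : ℤ)) := by
    rw [zpow_neg, zpow_natCast]
    exact h
  rw [PadicInt.norm_le_pow_iff_mem_span_pow, Ideal.mem_span_singleton] at h1
  exact h1

theorem tl_ne_zero (τ : R →+ ℤ_[p]) (r : R) (a : ℕ) (ha : 3 ≤ a) (h : ¬ (p : ℤ_[p]) ∣ τ r) :
    tl τ ((p : R) ^ a * r) ≠ 0 := by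
  obtain ⟨n, rfl⟩ : ∃ n, a = n + 1 := ⟨a - 1, by omega⟩
  intro h0
  have h1 := norm_tl_sub_le τ r n
  rw [h0, zero_sub, norm_neg] at h1
  have h3 := dvd_of_norm_le h1
  have h4 : (p : ℤ_[p]) ^ (n + 1 + 1) ∣ p ^ (n + 1) * τ r :=
    dvd_trans (pow_dvd_pow _ (by omega)) h3
  rw [pow_succ] at h4
  have hp0 : (p : ℤ_[p]) ≠ 0 := by exact_mod_cast hp.out.ne_zero
  exact h ((mul_dvd_mul_iff_left (pow_ne_zero _ hp0)).1 h4)

end Pool.Agent.H71.KP

end

section

/-!
# The skew ring and the homomorphism `lam`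

Let `C_p` act on a ring `M` and let `κ : M → ℤ_[p]` satisfy `κ (a b) = κ (b α(a))`, `α` the action of
the generator. The skew ring `M * C_p` is realised as a ring of matrices. The homomorphism
`θ(σ) = σ s` to the group ring `(M * C_p)[C_p]` gives the homomorphism
`lam (v) = τ₁ (log (v⁻¹ θ(v)))` on the units of `M * C_p`.
-/

set_option autoImplicit false
set_option linter.unusedSectionVars false

open Matrix

universe u v

namespace Pool.Agent.H71.KP

section Central

variable {p : ℕ} [hp : Fact p.Prime] {R : Type u} [Ring R]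

/-- `s - 1` for a central `s` with `s ^ p = 1` -/
theorem cen_sub_one {s : R} (hs : ∀ x, s * x = x * s) (h : s ^ p = 1) : Cen p (s - 1) := by
  have hcomm : ∀ x, (s - 1) * x = x * (s - 1) := by
    intro x
    rw [sub_mul, mul_sub, hs, one_mul, mul_one]
  refine ⟨hcomm, ?_⟩
  obtain ⟨r, hr⟩ := Commute.exists_add_pow_prime_eq hp.out
    (show Commute (s - 1) 1 from Commute.one_right _)
  rw [sub_add_cancel, h, one_pow, mul_one] at hr
  set c := s - 1 with hc
  have h1 : c ^ p = (p : R) * (c * (-r)) := by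
    have : c ^ p + (p : R) * c * r = 0 := by
      have e : c ^ p + 1 + (p : R) * c * r = 1 + (c ^ p + (p : R) * c * r) := by abel
      rw [e] at hr
      exact (add_eq_left.1 hr.symm)
    rw [mul_neg, mul_neg, ← mul_assoc]
    exact eq_neg_of_add_eq_zero_left this
  have hq : 0 < p - 1 := Nat.sub_pos_of_lt hp.out.one_lt
  have h2 : ∀ q : ℕ, ∃ w, c ^ (q * (p - 1) + 1) = (p : R) ^ q * (c * w) := by
    intro q
    induction q with
    | zero => exact ⟨1, by simp⟩
    | succ q ih =>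
      obtain ⟨w, hw⟩ := ih
      refine ⟨-r * w, ?_⟩
      have e1 : (q + 1) * (p - 1) + 1 = (p - 1) + (q * (p - 1) + 1) := by ring
      rw [e1, pow_add, hw, ← mul_assoc, ← p_pow_comm, mul_assoc, ← mul_assoc (c ^ (p - 1)),
        ← pow_succ]
      have e2 : p - 1 + 1 = p := by omega
      rw [e2, h1, pow_succ]
      simp only [mul_assoc]
  intro k
  obtain ⟨w, hw⟩ := h2 (k / (p - 1))
  refine ⟨c * w * c ^ (k % (p - 1)), ?_⟩
  have e1 : k + 1 = (k / (p - 1)) * (p - 1) + 1 + k % (p - 1) := by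
    have := Nat.div_add_mod k (p - 1)
    rw [mul_comm] at this
    omega
  conv_lhs => rw [e1]
  rw [pow_add, hw, mul_assoc]

end Central

namespace TwTr

variable {p : ℕ} [hp : Fact p.Prime] {M : Type u} [Ring M] (t : TwTr p M)

section Sk

end Sk

theorem cen_c : Cen p t.c := cen_sub_one t.s_comm t.s_pow_p

theorem cong_θ (v : t.Sˣ) : Cong t.c (((Units.map t.ι.toMonoidHom v)⁻¹ : t.Bˣ) * t.θ v) := by
  refine ⟨((Units.map t.ι.toMonoidHom v)⁻¹ : t.Bˣ) * t.quo v, ?_⟩
  have h1 : t.θ v = t.ι v + t.c * t.quo v := by rw [← θ_sub_ι]; abel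
  have h2 : (((Units.map t.ι.toMonoidHom v)⁻¹ : t.Bˣ) : t.B) * t.ι v = 1 :=
    Units.inv_mul (Units.map t.ι.toMonoidHom v)
  rw [h1, mul_add, h2, ← mul_assoc, ← t.cen_c.comm, mul_assoc]

/-- the homomorphism on the units of the skew ring -/
noncomputable def lam (v : t.Sˣ) : ℚ_[p] :=
  L t.τ₁ (((Units.map t.ι.toMonoidHom v)⁻¹ : t.Bˣ) * t.θ v)

theorem lam_mul (v w : t.Sˣ) : t.lam (v * w) = t.lam v + t.lam w := by
  set V := Units.map t.ι.toMonoidHom v
  set W := Units.map t.ι.toMonoidHom w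
  have h1 : (((Units.map t.ι.toMonoidHom (v * w))⁻¹ : t.Bˣ) : t.B) * t.θ (v * w : t.Sˣ) =
      ((W⁻¹ : t.Bˣ) * (((V⁻¹ : t.Bˣ) : t.B) * t.θ v) * W) *
        (((W⁻¹ : t.Bˣ) : t.B) * t.θ w) := by
    rw [map_mul, _root_.mul_inv_rev, Units.val_mul, Units.val_mul, map_mul]
    calc ((W⁻¹ : t.Bˣ) : t.B) * (V⁻¹ : t.Bˣ) * (t.θ v * t.θ w)
        = (W⁻¹ : t.Bˣ) * ((V⁻¹ : t.Bˣ) * t.θ v) * 1 * t.θ w := by
          rw [mul_one]; simp only [mul_assoc]
      _ = (W⁻¹ : t.Bˣ) * ((V⁻¹ : t.Bˣ) * t.θ v) * (W * (W⁻¹ : t.Bˣ)) * t.θ w := by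
          rw [Units.mul_inv]
      _ = _ := by simp only [mul_assoc]
  rw [lam, h1, L_mul t.τ₁ t.τ₁_comm t.cen_c ((t.cong_θ v).conj t.cen_c W) (t.cong_θ w),
    L_conj t.τ₁ t.τ₁_comm]
  rfl

theorem lam_one : t.lam 1 = 0 := by
  have := t.lam_mul 1 1
  rw [mul_one] at this
  exact (add_eq_left.1 this.symm)

theorem lam_conj (v w : t.Sˣ) : t.lam (w⁻¹ * v * w) = t.lam v := by
  have h1 : t.lam w⁻¹ + t.lam w = 0 := by rw [← lam_mul, inv_mul_cancel, lam_one]
  rw [lam_mul, lam_mul]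
  linear_combination h1

/-- For units congruent to `1` modulo `p` the homomorphism `lam` is the logarithm. -/
theorem lam_eq {v : t.Sˣ} (h : Cong (p : t.S) (v : t.S)) : t.lam v = L t.τ (v : t.S) := by
  have h1 : Cong (p : t.B) (t.ι v) := by
    have := h.map t.ι
    rwa [map_natCast] at this
  have h2 : Cong (p : t.B) (t.θ v) := by
    have := h.map t.θ
    rwa [map_natCast] at this
  have h3 : (((Units.map t.ι.toMonoidHom v)⁻¹ : t.Bˣ) : t.B) * t.ι v = 1 :=
    Units.inv_mul (Units.map t.ι.toMonoidHom v)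
  have h4 : L t.τ₁ (t.ι v) = 0 := by
    rw [L_map]
    have : ∀ r, pull t.ι t.τ₁ r = (0 : t.S →+ ℤ_[p]) r := fun r => t.τ₁_ι r
    rw [L_congr_fun this, L]
    have h5 : tlTerm (0 : t.S →+ ℤ_[p]) ((v : t.S) - 1) = fun _ => 0 := by
      funext k
      simp [tlTerm]
    rw [tl, h5, tsum_zero]
  rw [lam, L_mul t.τ₁ t.τ₁_comm cen_p (h1.of_mul_eq_one cen_p h3) h2,
    L_inv t.τ₁ t.τ₁_comm cen_p h1 h3, h4, neg_zero, zero_add, L_map]
  exact L_congr_fun (fun r => t.τ₁_θ r) _

end TwTr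

end Pool.Agent.H71.KP

end
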