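import Pool.Agent.H71.TCZ.M07
import Pool.Agent.H71.TCZ.M19
import Pool.Agent.H71.TCZ.M20

/-! The parts of this file: H71.KP.LogDet, H71.WH.U2_1, H95.WH.PushR. -/

section

/-!
# The logarithm of the determinant
-/

set_option autoImplicit false
set_option linter.unusedSectionVars false

open Matrix

universe u v

namespace Pool.Agent.H71.KP

variable {p : ℕ} [hp : Fact p.Prime]

section

variable {B : Type u} [CommRing B] {ι : Type v} [Fintype ι] [DecidableEq ι] (τ : B →+ ℤ_[p])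

/-- `τ ∘ tr` -/
noncomputable def ttr (τ : B →+ ℤ_[p]) (ι : Type v) [Fintype ι] : Matrix ι ι B →+ ℤ_[p] :=
  τ.comp (Matrix.traceAddMonoidHom ι B)

theorem ttr_apply (W : Matrix ι ι B) : ttr τ ι W = τ (trace W) := rfl

theorem ttr_comm (V W : Matrix ι ι B) : ttr τ ι (V * W) = ttr τ ι (W * V) := by
  rw [ttr_apply, ttr_apply, trace_mul_comm]

omit hp in
theorem natCast_mul_eq_smul (n : ℕ) (X : Matrix ι ι B) : (n : Matrix ι ι B) * X = (n : B) • X := by
  rw [← nsmul_eq_mul, Nat.cast_smul_eq_nsmul]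

omit hp in
theorem det_one_add_nat (n : ℕ) (X : Matrix ι ι B) :
    ∃ y : B, det (1 + (n : Matrix ι ι B) * X) = 1 + (n : B) * (trace X + (n : B) * y) := by
  have h := det_one_add_smul (n : B) X
  rw [natCast_mul_eq_smul]
  exact ⟨(det (1 + (Polynomial.X : Polynomial B) • X.map Polynomial.C)).divX.divX.eval (n : B),
    by rw [h]; ring⟩

omit hp in
theorem det_cong_nat (n : ℕ) {W : Matrix ι ι B} (h : Cong (n : Matrix ι ι B) W) :
    Cong (n : B) (det W) := by
  obtain ⟨X, rfl⟩ := h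
  obtain ⟨y, hy⟩ := det_one_add_nat n X
  exact ⟨_, hy⟩

/-- the defect -/
noncomputable def dd (W : Matrix ι ι B) : ℚ_[p] := L (ttr τ ι) W - L τ (det W)

theorem dd_mul {V W : Matrix ι ι B} (hV : Cong (p : Matrix ι ι B) V)
    (hW : Cong (p : Matrix ι ι B) W) : dd τ (V * W) = dd τ V + dd τ W := by
  rw [dd, dd, dd, det_mul, L_mul (ttr τ ι) (ttr_comm τ) cen_p hV hW,
    L_mul τ (fun a b => by rw [mul_comm]) cen_p (det_cong_nat p hV) (det_cong_nat p hW)]
  ring

theorem dd_one : dd τ (1 : Matrix ι ι B) = 0 := by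
  rw [dd, det_one, L_one, L_one, sub_zero]

theorem dd_pow {W : Matrix ι ι B} (hW : Cong (p : Matrix ι ι B) W) (k : ℕ) :
    Cong (p : Matrix ι ι B) (W ^ k) ∧ dd τ (W ^ k) = k * dd τ W := by
  induction k with
  | zero => exact ⟨by rw [pow_zero]; exact Cong.one _, by simp [dd_one]⟩
  | succ k ih =>
    rw [pow_succ]
    refine ⟨ih.1.mul hW, ?_⟩
    rw [dd_mul τ ih.1 hW, ih.2]
    push_cast
    ring

end

theorem pow_form {R : Type u} [Ring R] (x : R) (k : ℕ) :
    ∃ y : R, (1 + (p : R) * x) ^ p ^ k = 1 + (p : R) ^ (k + 1) * y := by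
  induction k with
  | zero => exact ⟨x, by simp⟩
  | succ k ih =>
    obtain ⟨y, hy⟩ := ih
    obtain ⟨r, hr⟩ := Commute.exists_add_pow_prime_eq hp.out
      (show Commute (1 : R) ((p : R) ^ (k + 1) * y) from Commute.one_left _)
    have e1 : ((p : R) ^ (k + 1) * y) ^ p = (p : R) ^ (k + 1 + 1) *
        ((p : R) ^ ((k + 1) * p - (k + 1 + 1)) * y ^ p) := by
      have h2 := hp.out.two_le
      have h3 : k + 1 + 1 ≤ (k + 1) * p := by nlinarith
      rw [((Nat.cast_commute p y).pow_left (k + 1)).mul_pow, ← pow_mul, ← mul_assoc, ← pow_add,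
        Nat.add_sub_cancel' h3]
    refine ⟨(p : R) ^ ((k + 1) * p - (k + 1 + 1)) * y ^ p + y * r, ?_⟩
    rw [pow_succ, pow_mul, hy, hr, one_pow, e1, mul_one, mul_add, pow_succ' (p : R) (k + 1),
      add_assoc]
    simp only [mul_assoc]

section

variable {B : Type u} [CommRing B] {ι : Type v} [Fintype ι] [DecidableEq ι] (τ : B →+ ℤ_[p])

theorem norm_sub_max (a b : ℚ_[p]) : ‖a - b‖ ≤ max ‖a‖ ‖b‖ := by
  rw [sub_eq_add_neg, ← norm_neg b]
  exact IsUltrametricDist.norm_add_le_max _ _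

theorem norm_dd_le (k : ℕ) (Y : Matrix ι ι B) :
    ‖dd τ (1 + (p : Matrix ι ι B) ^ (k + 1) * Y)‖ ≤ ((p : ℝ) ^ (2 * k))⁻¹ := by
  obtain ⟨y, hy⟩ := det_one_add_nat (p ^ (k + 1)) Y
  rw [Nat.cast_pow, Nat.cast_pow] at hy
  rw [dd, hy, L_one_add, L_one_add]
  have h1 := norm_tl_sub_le (ttr τ ι) Y k
  have h2 := norm_tl_sub_le τ (trace Y + (p : B) ^ (k + 1) * y) k
  have h3 : ‖((p ^ (2 * k) * (p ^ 2 * τ y) : ℤ_[p]) : ℚ_[p])‖ ≤ ((p : ℝ) ^ (2 * k))⁻¹ :=
    norm_le_of_dvd (dvd_mul_right _ _)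
  have e : tl (ttr τ ι) ((p : Matrix ι ι B) ^ (k + 1) * Y) -
      tl τ ((p : B) ^ (k + 1) * (trace Y + (p : B) ^ (k + 1) * y)) =
      ((tl (ttr τ ι) ((p : Matrix ι ι B) ^ (k + 1) * Y) -
        ((p ^ (k + 1) * ttr τ ι Y : ℤ_[p]) : ℚ_[p])) -
      (tl τ ((p : B) ^ (k + 1) * (trace Y + (p : B) ^ (k + 1) * y)) -
        ((p ^ (k + 1) * τ (trace Y + (p : B) ^ (k + 1) * y) : ℤ_[p]) : ℚ_[p]))) -
      ((p ^ (2 * k) * (p ^ 2 * τ y) : ℤ_[p]) : ℚ_[p]) := by
    rw [map_add, map_p_pow_mul, ttr_apply]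
    push_cast
    ring
  rw [e]
  refine (norm_sub_max _ _).trans (max_le ?_ h3)
  exact (norm_sub_max _ _).trans (max_le h1 h2)

theorem norm_p_pow (k : ℕ) : ‖(p : ℚ_[p]) ^ k‖ = ((p : ℝ) ^ k)⁻¹ := by
  rw [norm_pow, Padic.norm_p, inv_pow]

/-- `tr log = log det` -/
theorem dd_eq_zero {W : Matrix ι ι B} (hW : Cong (p : Matrix ι ι B) W) : dd τ W = 0 := by
  have hp2 : (2 : ℝ) ≤ p := by exact_mod_cast hp.out.two_le
  have hp0 : (0 : ℝ) < p := by linarith
  rw [← norm_eq_zero]
  by_contra hne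
  have hpos : 0 < ‖dd τ W‖ := lt_of_le_of_ne (norm_nonneg _) (Ne.symm hne)
  have h1 : ∀ k : ℕ, ‖dd τ W‖ ≤ ((1 : ℝ) / 2) ^ k := by
    intro k
    have h2 := (dd_pow τ hW (p ^ k)).2
    obtain ⟨X, rfl⟩ := hW
    obtain ⟨Y, hY⟩ := pow_form (p := p) X k
    have h3 := norm_dd_le τ k Y
    rw [← hY, h2, norm_mul, Nat.cast_pow, norm_p_pow] at h3
    have hp' : (0 : ℝ) < (p : ℝ) ^ k := by positivity
    have h4 : ((p : ℝ) ^ k) * (((p : ℝ) ^ k)⁻¹ * ‖dd τ (1 + (p : Matrix ι ι B) * X)‖) ≤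
        (p : ℝ) ^ k * (((p : ℝ) ^ (2 * k))⁻¹) := mul_le_mul_of_nonneg_left h3 hp'.le
    rw [← mul_assoc, mul_inv_cancel₀ hp'.ne', one_mul] at h4
    refine h4.trans ?_
    have e : (p : ℝ) ^ (2 * k) = p ^ k * p ^ k := by rw [two_mul, pow_add]
    rw [e, mul_inv, ← mul_assoc, mul_inv_cancel₀ hp'.ne', one_mul, one_div, inv_pow]
    exact inv_anti₀ (by positivity) (pow_le_pow_left₀ (by norm_num) hp2 k)
  obtain ⟨k, hk⟩ := exists_pow_lt_of_lt_one hpos (show (1 : ℝ) / 2 < 1 by norm_num)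
  have := h1 k
  linarith

theorem L_det {W : Matrix ι ι B} (hW : Cong (p : Matrix ι ι B) W) :
    L τ (det W) = L (ttr τ ι) W := by
  have := dd_eq_zero τ hW
  rw [dd] at this
  exact (sub_eq_zero.1 this).symm

end

end Pool.Agent.H71.KP

end

section

/-!
# Detection of units of integral group rings of finite groups
-/

set_option autoImplicit false
set_option linter.unusedSectionVars false
set_option linter.unusedSimpArgs false

open Matrix
open scoped Classical

universe u v w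

namespace Pool.Agent.H71.WH

section Div

variable {C : Type u} [Group C]

theorem fn_dlt (c : C) (x : MonoidAlgebra ℤ C) : fn (dlt c) x = x.coeff c := by
  induction x using MonoidAlgebra.induction_linear with
  | zero => simp
  | add x y hx hy => rw [map_add, hx, hy, MonoidAlgebra.coeff_add, Finsupp.add_apply]
  | single g n =>
    rw [fn_single, MonoidAlgebra.coeff_single, Finsupp.single_apply, dlt]
    split_ifs <;> simp

/-- extraction of the power of two -/
theorem exists_two_pow {x : MonoidAlgebra ℤ C} (hx : x ≠ 0) :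
    ∃ (m : ℕ) (r : MonoidAlgebra ℤ C) (c : C), x = 2 ^ m * r ∧ ¬ (2 : ℤ) ∣ fn (dlt c) r := by
  obtain ⟨c0, hc0⟩ : ∃ c, x.coeff c ≠ 0 := by
    by_contra hcon
    push Not at hcon
    apply hx
    ext c
    rw [hcon c]
    simp
  have hbd : ∃ m : ℕ, ¬ ∃ y : MonoidAlgebra ℤ C, x = 2 ^ m * y := by
    refine ⟨(x.coeff c0).natAbs, ?_⟩
    rintro ⟨y, hy⟩
    have h1 : x.coeff c0 = 2 ^ (x.coeff c0).natAbs * y.coeff c0 := by
      have h0 := congrArg (fn (dlt c0)) hy
      rw [map_two_pow_mul, fn_dlt, fn_dlt] at h0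
      exact h0
    have h2 : (2 : ℕ) ^ (x.coeff c0).natAbs ∣ (x.coeff c0).natAbs := by
      have := congrArg Int.natAbs h1
      rw [Int.natAbs_mul, Int.natAbs_pow] at this
      exact ⟨_, this⟩
    have h3 := Nat.le_of_dvd (Int.natAbs_pos.2 hc0) h2
    have h4 := Nat.lt_two_pow_self (n := (x.coeff c0).natAbs)
    omega
  have h0 : Nat.find hbd ≠ 0 := by
    intro h
    have := Nat.find_spec hbd
    rw [h] at this
    exact this ⟨x, by rw [pow_zero, one_mul]⟩
  obtain ⟨m, hm⟩ := Nat.exists_eq_succ_of_ne_zero h0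
  have h1 : ∃ y : MonoidAlgebra ℤ C, x = 2 ^ m * y := by
    by_contra hcon
    have := Nat.find_min' hbd hcon
    omega
  obtain ⟨r, hr⟩ := h1
  have h2 : ¬ ∃ y : MonoidAlgebra ℤ C, x = 2 ^ (m + 1) * y := by
    have := Nat.find_spec hbd
    rwa [hm] at this
  by_contra hcon
  push Not at hcon
  obtain ⟨y, hy⟩ := exists_eq_mul 2 r (fun c => by
    rw [← fn_dlt]
    exact hcon m r c hr)
  apply h2
  refine ⟨y, ?_⟩
  rw [hr, hy, pow_succ, mul_assoc]
  norm_cast

/-- A unit congruent to `1` modulo `8` with vanishing logarithm is `1`. -/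
theorem eq_one_of_L {w : MonoidAlgebra ℤ C} (hw : C8 w) (h : ∀ c, L (fn (dlt c)) w = 0) :
    w = 1 := by
  obtain ⟨x, rfl⟩ := hw
  by_cases hx : x = 0
  · rw [hx, mul_zero, add_zero]
  exfalso
  obtain ⟨m, r, c, hr, hc⟩ := exists_two_pow hx
  have h1 := h c
  rw [L_one_add, hr] at h1
  have h2 : (8 : MonoidAlgebra ℤ C) * (2 ^ m * r) = 2 ^ (m + 3) * r := by
    rw [← mul_assoc, pow_add, ← two_pow_comm]
    norm_num
  rw [h2] at h1
  exact tl_ne_zero _ r (m + 3) (by omega) hc h1

end Div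

section Pow

end Pow

end Pool.Agent.H71.WH

end

section

/-!
# The permutation representations and `K₁` of group rings over commutative rings
-/

set_option autoImplicit false

open Matrix
open scoped Classical

universe u v w

namespace Pool.Agent.H95.WH

open Pool.Agent.H71.FJ (lamR twR incl)
open Pool.Agent.H71.FJ (tw lam tw_single lam_single out_mem_iff)

variable {F : Type v} [Group F] (R : Type u) [CommRing R]

theorem push_tw_sigmaR {I : Type} [Fintype I] (D : I → Subgroup F) [∀ i, Fintype (F ⧸ D i)]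
    [Fintype (Σ i, F ⧸ D i)] [DecidableEq (Σ i, F ⧸ D i)] (x : K1 (MonoidAlgebra R F)) :
    K1.push (twR R (Σ i, F ⧸ D i)) x = ∑ i, K1.push (twR R (F ⧸ D i)) x := by
  apply K1.push_blk
  intro r
  induction r using MonoidAlgebra.induction_linear with
  | zero =>
    simp only [map_zero]
    exact (Matrix.blockDiagonal'_zero).symm
  | add a b ha hb =>
    simp only [map_add]
    rw [ha, hb]
    exact (Matrix.blockDiagonal'_add _ _).symm
  | single h r =>
    ext ⟨i, x⟩ ⟨j, y⟩ : 1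
    change tw R (Σ i, F ⧸ D i) (MonoidAlgebra.single h r) ⟨i, x⟩ ⟨j, y⟩ = _
    rw [tw_single]
    by_cases hij : i = j
    · subst hij
      rw [Matrix.blockDiagonal'_apply_eq]
      change _ = tw R (F ⧸ D i) (MonoidAlgebra.single h r) x y
      rw [tw_single]
      by_cases hxy : x = h • y
      · rw [if_pos hxy, if_pos]
        rw [hxy]
        rfl
      · rw [if_neg hxy, if_neg]
        intro e
        apply hxy
        have e2 : (⟨i, x⟩ : Σ i, F ⧸ D i) = ⟨i, h • y⟩ := e
        exact eq_of_heq (Sigma.mk.inj e2).2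
    · rw [Matrix.blockDiagonal'_apply_ne _ _ _ hij, if_neg]
      intro e
      exact hij (congrArg Sigma.fst e)

theorem push_tw_topR [Fintype (F ⧸ (⊤ : Subgroup F))] (x : K1 (MonoidAlgebra R F)) :
    K1.push (twR R (F ⧸ (⊤ : Subgroup F))) x = x := by
  have key : (K1.push (twR R (F ⧸ (⊤ : Subgroup F))) :
      K1 (MonoidAlgebra R F) →+ K1 (MonoidAlgebra R F)) = AddMonoidHom.id _ := by
    apply K1.hom_ext
    intro n U
    rw [K1.push_mk, AddMonoidHom.id_apply, ← K1.cls_mk]
    have hsub : Subsingleton (F ⧸ (⊤ : Subgroup F)) := QuotientGroup.subsingleton_quotient_top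
    let u0 : F ⧸ (⊤ : Subgroup F) := ((1 : F) : F ⧸ (⊤ : Subgroup F))
    let e : Fin n × (F ⧸ (⊤ : Subgroup F)) ≃ Fin n :=
      { toFun := Prod.fst
        invFun := fun i => (i, u0)
        left_inv := fun x => Prod.ext rfl (Subsingleton.elim _ _)
        right_inv := fun i => rfl }
    have hval : ∀ (r : MonoidAlgebra R F) (x y : F ⧸ (⊤ : Subgroup F)),
        twR R (F ⧸ (⊤ : Subgroup F)) r x y = r := by
      intro r x y
      induction r using MonoidAlgebra.induction_linear with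
      | zero => rw [map_zero]; rfl
      | add a b ha hb => rw [map_add, Matrix.add_apply, ha, hb]
      | single h r =>
        change tw R (F ⧸ (⊤ : Subgroup F)) (MonoidAlgebra.single h r) x y = _
        rw [tw_single, if_pos (Subsingleton.elim _ _)]
    rw [← K1.cls_reindex e]
    congr 1
    apply Units.ext
    rw [reU_val]
    refine Matrix.ext fun i j => ?_
    exact hval _ _ _
  rw [key]
  rfl

theorem ind_res1R (D : Subgroup F) [Fintype (F ⧸ D)] (x : K1 (MonoidAlgebra R F)) :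
    K1.map (incl R D) (K1.push (lamR R D) x) = K1.push (twR R (F ⧸ D)) x := by
  rw [K1.map_push]
  symm
  refine K1.push_congr _ _ (diagonal fun x : F ⧸ D => MonoidAlgebra.single x.out (1 : R))
    (diagonal fun x : F ⧸ D => MonoidAlgebra.single x.out⁻¹ (1 : R)) ?_ ?_ ?_ x
  · rw [diagonal_mul_diagonal]
    simp only [MonoidAlgebra.single_mul_single, mul_inv_cancel, one_mul, ← MonoidAlgebra.one_def]
    exact diagonal_one
  · rw [diagonal_mul_diagonal]
    simp only [MonoidAlgebra.single_mul_single, inv_mul_cancel, one_mul, ← MonoidAlgebra.one_def]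
    exact diagonal_one
  · intro r
    induction r using MonoidAlgebra.induction_linear with
    | zero => simp
    | add a b ha hb => rw [map_add, map_add, Matrix.mul_add, Matrix.add_mul, ha, hb]
    | single h r =>
      ext x y : 1
      rw [Matrix.diagonal_mul, Matrix.mul_diagonal]
      change tw R (F ⧸ D) (MonoidAlgebra.single h r) x y * _ =
        _ * (incl R D) (lam R D (MonoidAlgebra.single h r) x y)
      rw [lam_single, tw_single]
      by_cases hh : x.out⁻¹ * h * y.out ∈ D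
      · rw [dif_pos hh, if_pos ((out_mem_iff D h x y).1 hh)]
        simp only [incl, MonoidAlgebra.mapDomainRingHom_apply, MonoidAlgebra.mapDomain_single,
          MonoidAlgebra.single_mul_single, Subgroup.coe_subtype, one_mul, mul_one]
        congr 1
        group
      · rw [dif_neg hh, if_neg (fun h' => hh ((out_mem_iff D h x y).2 h')), map_zero, mul_zero,
          zero_mul]

end Pool.Agent.H95.WH

end
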