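import Mathlib

/-! The parts of this file: H71.FJ.Defs, H71.FJ.K0. -/

section

/-!
# `K₀` of rings and the degree zero assembly map for finite subgroups

`K0 R` is the abelian group generated by the idempotent matrices over `R`, modulo `[e] = [f]` if
`e = x y`, `f = y x` for some (rectangular) matrices `x, y`, and `[e ⊕ f] = [e] + [f]`.

`ColimK0 R G` is the colimit of `K₀(R[F])` over the finite subgroups `F` of `G`, the morphisms
`F → F'` being the restrictions of the conjugations `x ↦ g x g⁻¹` with `g F g⁻¹ ⊆ F'`, and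
`assembly R G` is the natural map from it to `K₀(R[G])`.
-/

set_option autoImplicit false

open Matrix

universe u v w

namespace Pool.Agent.H71.FJ

/-- Equivalence of idempotent matrices, possibly of different sizes: `e = x y`, `f = y x`. -/
def MatEquiv {R : Type u} [Ring R] {ι κ : Type*} [Fintype ι] [Fintype κ]
    (e : Matrix ι ι R) (f : Matrix κ κ R) : Prop :=
  ∃ (x : Matrix ι κ R) (y : Matrix κ ι R), x * y = e ∧ y * x = f

/-- An idempotent square matrix over `R`. -/
structure IdemMat (R : Type u) [Ring R] where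
  /-- the size -/
  n : ℕ
  /-- the matrix -/
  mat : Matrix (Fin n) (Fin n) R
  idem : mat * mat = mat

theorem IdemMat.sum_idem {R : Type u} [Ring R] (a b : IdemMat R) :
    (fromBlocks a.mat 0 0 b.mat).submatrix finSumFinEquiv.symm finSumFinEquiv.symm *
      (fromBlocks a.mat 0 0 b.mat).submatrix finSumFinEquiv.symm finSumFinEquiv.symm =
      (fromBlocks a.mat 0 0 b.mat).submatrix finSumFinEquiv.symm finSumFinEquiv.symm := by
  rw [submatrix_mul_equiv, fromBlocks_multiply]
  simp [a.idem, b.idem]

/-- The block sum `a ⊕ b`. -/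
def IdemMat.sum {R : Type u} [Ring R] (a b : IdemMat R) : IdemMat R where
  n := a.n + b.n
  mat := (fromBlocks a.mat 0 0 b.mat).submatrix finSumFinEquiv.symm finSumFinEquiv.symm
  idem := IdemMat.sum_idem a b

theorem IdemMat.map_idem {R : Type u} [Ring R] {S : Type v} [Ring S] (f : R →+* S)
    (a : IdemMat R) : a.mat.map f * a.mat.map f = a.mat.map f := by
  rw [← Matrix.map_mul, a.idem]

/-- The image of an idempotent matrix under a ring homomorphism. -/
def IdemMat.map {R : Type u} [Ring R] {S : Type v} [Ring S] (f : R →+* S) (a : IdemMat R) :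
    IdemMat S where
  n := a.n
  mat := a.mat.map f
  idem := IdemMat.map_idem f a

/-- The relations of `K₀`. -/
def K0Rel (R : Type u) [Ring R] : AddSubgroup (FreeAbelianGroup (IdemMat R)) :=
  AddSubgroup.closure
    ({z | ∃ a b : IdemMat R, MatEquiv a.mat b.mat ∧
        z = FreeAbelianGroup.of a - FreeAbelianGroup.of b} ∪
      {z | ∃ a b : IdemMat R,
        z = FreeAbelianGroup.of (a.sum b) - (FreeAbelianGroup.of a + FreeAbelianGroup.of b)})

/-- The group `K₀(R)`. -/
def K0 (R : Type u) [Ring R] : Type u := FreeAbelianGroup (IdemMat R) ⧸ K0Rel R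

instance instK0 (R : Type u) [Ring R] : AddCommGroup (K0 R) :=
  QuotientAddGroup.Quotient.addCommGroup (K0Rel R)

namespace K0

variable {R : Type u} [Ring R] {S : Type v} [Ring S]

/-- The class of an idempotent matrix. -/
def mk (a : IdemMat R) : K0 R := QuotientAddGroup.mk (FreeAbelianGroup.of a)

theorem mk_eq_of_equiv {a b : IdemMat R} (h : MatEquiv a.mat b.mat) : mk a = mk b := by
  refine (QuotientAddGroup.eq_iff_sub_mem).2 ?_
  exact AddSubgroup.subset_closure (Or.inl ⟨a, b, h, rfl⟩)

theorem hom_ext {M : Type*} [AddCommGroup M] {f g : K0 R →+ M} (h : ∀ a, f (mk a) = g (mk a)) :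
    f = g := by
  apply QuotientAddGroup.addMonoidHom_ext
  apply FreeAbelianGroup.lift_ext
  exact h

theorem matEquiv_map {ι κ : Type*} [Fintype ι] [Fintype κ] (f : R →+* S) {e : Matrix ι ι R}
    {g : Matrix κ κ R} (h : MatEquiv e g) : MatEquiv (e.map f) (g.map f) := by
  obtain ⟨x, y, h1, h2⟩ := h
  exact ⟨x.map f, y.map f, by rw [← Matrix.map_mul, h1], by rw [← Matrix.map_mul, h2]⟩

theorem map_sum' (f : R →+* S) (a b : IdemMat R) : (a.sum b).map f = (a.map f).sum (b.map f) := by
  have h1 : (a.sum b).mat.map f = ((a.map f).sum (b.map f)).mat := by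
    change ((fromBlocks a.mat 0 0 b.mat).submatrix finSumFinEquiv.symm
      finSumFinEquiv.symm).map f = (fromBlocks (a.mat.map f) 0 0 (b.mat.map f)).submatrix
        finSumFinEquiv.symm finSumFinEquiv.symm
    rw [← Matrix.submatrix_map, Matrix.fromBlocks_map]
    simp only [Matrix.map_zero _ (map_zero f)]
  unfold IdemMat.map
  simp only [h1]
  rfl

theorem map_le (f : R →+* S) :
    K0Rel R ≤ (K0Rel S).comap (FreeAbelianGroup.map (IdemMat.map f)) := by
  rw [K0Rel, AddSubgroup.closure_le]
  rintro z (⟨a, b, hab, rfl⟩ | ⟨a, b, rfl⟩)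
  · refine AddSubgroup.subset_closure (Or.inl ⟨a.map f, b.map f, matEquiv_map f hab, ?_⟩)
    rw [map_sub, FreeAbelianGroup.map_of_apply, FreeAbelianGroup.map_of_apply]
  · refine AddSubgroup.subset_closure (Or.inr ⟨a.map f, b.map f, ?_⟩)
    rw [map_sub, map_add, FreeAbelianGroup.map_of_apply, FreeAbelianGroup.map_of_apply,
      FreeAbelianGroup.map_of_apply, map_sum']

/-- The homomorphism `K₀(R) → K₀(S)` induced by a ring homomorphism `R → S`. -/
def map (f : R →+* S) : K0 R →+ K0 S :=
  QuotientAddGroup.map (K0Rel R) (K0Rel S) (FreeAbelianGroup.map (IdemMat.map f)) (map_le f)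

theorem map_mk' (f : R →+* S) (a : IdemMat R) : map f (mk a) = mk (a.map f) := by
  change (QuotientAddGroup.mk (FreeAbelianGroup.map (IdemMat.map f) (FreeAbelianGroup.of a)) :
    K0 S) = _
  rw [FreeAbelianGroup.map_of_apply]
  rfl

end K0

/-- The finite subgroups of `G`. -/
abbrev FinSub (G : Type v) [Group G] : Type v := {F : Subgroup G // Finite F}

theorem conj_mul {G : Type v} [Group G] (g : G) (F F' : Subgroup G)
    (h : ∀ x ∈ F, g * x * g⁻¹ ∈ F') (x y : F) :
    (⟨g * ↑(x * y) * g⁻¹, h _ (x * y).2⟩ : F') =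
      ⟨g * x * g⁻¹, h x x.2⟩ * ⟨g * y * g⁻¹, h y y.2⟩ := by
  apply Subtype.ext
  simp only [Subgroup.coe_mul]
  group

/-- Conjugation by `g` as a homomorphism `F → F'` if `g F g⁻¹ ⊆ F'`. -/
def conjHom {G : Type v} [Group G] (g : G) (F F' : Subgroup G)
    (h : ∀ x ∈ F, g * x * g⁻¹ ∈ F') : F →* F' :=
  MonoidHom.mk' (fun x => ⟨g * x * g⁻¹, h x x.2⟩) (conj_mul g F F' h)

/-- The homomorphism `K₀(R[F]) → K₀(R[F'])` induced by a group homomorphism `F → F'`. -/
noncomputable def ind (R : Type u) [Ring R] {F F' : Type v} [Group F] [Group F'] (φ : F →* F') :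
    K0 (MonoidAlgebra R F) →+ K0 (MonoidAlgebra R F') :=
  K0.map (MonoidAlgebra.mapDomainRingHom R φ)

/-- `K₀(R[F])` for a finite subgroup `F` of `G`. -/
abbrev FinK0 (R : Type u) [Ring R] (G : Type v) [Group G] (F : FinSub G) : Type (max u v) :=
  K0 (MonoidAlgebra R F.1)

/-- `⨁_F K₀(R[F])` over all finite subgroups `F` of `G`. -/
abbrev SumK0 (R : Type u) [Ring R] (G : Type v) [Group G] : Type (max u v) :=
  DirectSum (FinSub G) (FinK0 R G)

/-- The inclusion of the summand of `F`. -/
noncomputable def inc (R : Type u) [Ring R] (G : Type v) [Group G] (F : FinSub G) :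
    FinK0 R G F →+ SumK0 R G :=
  open scoped Classical in DirectSum.of (FinK0 R G) F

/-- The relation `c_g(x) - x` of the colimit. -/
noncomputable def rel (R : Type u) [Ring R] (G : Type v) [Group G] (F F' : FinSub G) (g : G)
    (h : ∀ x ∈ F.1, g * x * g⁻¹ ∈ F'.1) (x : FinK0 R G F) : SumK0 R G :=
  inc R G F' (ind R (conjHom g F.1 F'.1 h) x) - inc R G F x

/-- The relations of the colimit: `c_g(x) = x` for `x ∈ K₀(R[F])`, `g F g⁻¹ ⊆ F'`. -/
noncomputable def colimRel (R : Type u) [Ring R] (G : Type v) [Group G] :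
    AddSubgroup (SumK0 R G) :=
  AddSubgroup.closure {z | ∃ F F' g h x, z = rel R G F F' g h x}

/-- The colimit of `K₀(R[F])` over the finite subgroups `F` of `G`. -/
def ColimK0 (R : Type u) [Ring R] (G : Type v) [Group G] : Type (max u v) :=
  SumK0 R G ⧸ colimRel R G

noncomputable instance instColimK0 (R : Type u) [Ring R] (G : Type v) [Group G] :
    AddCommGroup (ColimK0 R G) := QuotientAddGroup.Quotient.addCommGroup (colimRel R G)

/-- The assembly map on the direct sum, given by the inclusions `F → G`. -/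
noncomputable def assemblySum (R : Type u) [Ring R] (G : Type v) [Group G] :
    SumK0 R G →+ K0 (MonoidAlgebra R G) :=
  open scoped Classical in
  DirectSum.toAddMonoid fun F : FinSub G => ind R F.1.subtype

theorem single_inv (R : Type u) [Ring R] {G : Type v} [Group G] (g : G) :
    (MonoidAlgebra.single g⁻¹ 1 : MonoidAlgebra R G) * MonoidAlgebra.single g 1 = 1 := by
  rw [MonoidAlgebra.single_mul_single, inv_mul_cancel, one_mul, MonoidAlgebra.one_def]

theorem ind_conj (R : Type u) [Ring R] {G : Type v} [Group G] (g : G) (F F' : Subgroup G)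
    (h : ∀ x ∈ F, g * x * g⁻¹ ∈ F') (x : K0 (MonoidAlgebra R F)) :
    ind R F'.subtype (ind R (conjHom g F F' h) x) = ind R F.subtype x := by
  suffices H : (ind R F'.subtype).comp (ind R (conjHom g F F' h)) = ind R F.subtype from
    congrArg (fun f : K0 (MonoidAlgebra R F) →+ K0 (MonoidAlgebra R G) => f x) H
  apply K0.hom_ext
  intro a
  change K0.map _ (K0.map _ (K0.mk a)) = K0.map _ (K0.mk a)
  rw [K0.map_mk', K0.map_mk', K0.map_mk']
  apply K0.mk_eq_of_equiv
  change MatEquiv ((a.mat.map (MonoidAlgebra.mapDomainRingHom R (conjHom g F F' h))).map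
    (MonoidAlgebra.mapDomainRingHom R F'.subtype))
    (a.mat.map (MonoidAlgebra.mapDomainRingHom R F.subtype))
  set e := a.mat.map (MonoidAlgebra.mapDomainRingHom R F.subtype) with he
  have hee : e * e = e := by rw [he, ← Matrix.map_mul, a.idem]
  have key : ∀ r : MonoidAlgebra R F, MonoidAlgebra.mapDomainRingHom R F'.subtype
      (MonoidAlgebra.mapDomainRingHom R (conjHom g F F' h) r) =
      MonoidAlgebra.single g 1 * MonoidAlgebra.mapDomainRingHom R F.subtype r *
        MonoidAlgebra.single g⁻¹ 1 := by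
    intro r
    induction r using MonoidAlgebra.induction_linear with
    | zero => simp
    | add a b ha hb => rw [map_add, map_add, ha, hb, map_add, mul_add, add_mul]
    | single s t =>
      change MonoidAlgebra.mapDomain F'.subtype (MonoidAlgebra.mapDomain (conjHom g F F' h)
        (MonoidAlgebra.single s t)) = MonoidAlgebra.single g 1 *
          MonoidAlgebra.mapDomain F.subtype (MonoidAlgebra.single s t) *
          MonoidAlgebra.single g⁻¹ 1
      rw [MonoidAlgebra.mapDomain_single, MonoidAlgebra.mapDomain_single,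
        MonoidAlgebra.mapDomain_single, MonoidAlgebra.single_mul_single,
        MonoidAlgebra.single_mul_single, one_mul, mul_one]
      rfl
  have h1 : (a.mat.map (MonoidAlgebra.mapDomainRingHom R (conjHom g F F' h))).map
      (MonoidAlgebra.mapDomainRingHom R F'.subtype) =
      (diagonal fun _ => MonoidAlgebra.single g 1) * e *
        (diagonal fun _ => MonoidAlgebra.single g⁻¹ 1) := by
    refine Matrix.ext fun i j => ?_
    rw [Matrix.mul_diagonal, Matrix.diagonal_mul]
    exact key _
  have h2 : (diagonal fun _ : Fin a.n => (MonoidAlgebra.single g⁻¹ 1 : MonoidAlgebra R G)) *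
      (diagonal fun _ => MonoidAlgebra.single g 1) = 1 := by
    rw [diagonal_mul_diagonal]
    simp only [single_inv]
    exact diagonal_one
  refine ⟨(diagonal fun _ => MonoidAlgebra.single g 1) * e,
    e * (diagonal fun _ => MonoidAlgebra.single g⁻¹ 1), ?_, ?_⟩
  · rw [h1, Matrix.mul_assoc, ← Matrix.mul_assoc e, hee, ← Matrix.mul_assoc]
  · rw [Matrix.mul_assoc, ← Matrix.mul_assoc (diagonal fun _ => MonoidAlgebra.single g⁻¹ 1), h2,
      Matrix.one_mul, hee]

theorem colimRel_le (R : Type u) [Ring R] (G : Type v) [Group G] :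
    colimRel R G ≤ (assemblySum R G).ker := by
  rw [colimRel, AddSubgroup.closure_le]
  rintro z ⟨F, F', g, h, x, rfl⟩
  classical
  change DirectSum.toAddMonoid _ _ = 0
  rw [rel, map_sub, inc, inc, DirectSum.toAddMonoid_of, DirectSum.toAddMonoid_of]
  exact sub_eq_zero.2 (ind_conj R g F.1 F'.1 h x)

/-- The assembly map in degree zero. -/
noncomputable def assembly (R : Type u) [Ring R] (G : Type v) [Group G] :
    ColimK0 R G →+ K0 (MonoidAlgebra R G) :=
  QuotientAddGroup.lift (colimRel R G) (assemblySum R G) (colimRel_le R G)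

end Pool.Agent.H71.FJ

end

section

/-!
# The group `K₀` of a ring through idempotent matrices

`K0 R` is the abelian group generated by the idempotent matrices over `R`, modulo `[e] = [f]` if
`e = x y`, `f = y x` for some (rectangular) matrices `x, y`, and `[e ⊕ f] = [e] + [f]`.
-/

set_option autoImplicit false

open Matrix

universe u v w

namespace Pool.Agent.H71.FJ

namespace K0

variable {R : Type u} [Ring R] {S : Type v} [Ring S] {T : Type w} [Ring T]

theorem mk_sum (a b : IdemMat R) : mk (a.sum b) = mk a + mk b := by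
  change (QuotientAddGroup.mk (FreeAbelianGroup.of (a.sum b)) : K0 R) =
    QuotientAddGroup.mk (FreeAbelianGroup.of a + FreeAbelianGroup.of b)
  refine (QuotientAddGroup.eq_iff_sub_mem).2 ?_
  exact AddSubgroup.subset_closure (Or.inr ⟨a, b, rfl⟩)

/-- The universal property. -/
noncomputable def lift {M : Type*} [AddCommGroup M] (F : IdemMat R → M)
    (h1 : ∀ a b : IdemMat R, MatEquiv a.mat b.mat → F a = F b)
    (h2 : ∀ a b : IdemMat R, F (a.sum b) = F a + F b) : K0 R →+ M :=
  QuotientAddGroup.lift (K0Rel R) (FreeAbelianGroup.lift F) (by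
    rw [K0Rel, AddSubgroup.closure_le]
    rintro z (⟨a, b, hab, rfl⟩ | ⟨a, b, rfl⟩)
    · change FreeAbelianGroup.lift F _ = 0
      rw [map_sub, FreeAbelianGroup.lift_apply_of, FreeAbelianGroup.lift_apply_of, h1 a b hab,
        sub_self]
    · change FreeAbelianGroup.lift F _ = 0
      rw [map_sub, map_add, FreeAbelianGroup.lift_apply_of, FreeAbelianGroup.lift_apply_of,
        FreeAbelianGroup.lift_apply_of, h2 a b, sub_self])

theorem lift_mk {M : Type*} [AddCommGroup M] (F : IdemMat R → M)
    (h1 : ∀ a b : IdemMat R, MatEquiv a.mat b.mat → F a = F b)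
    (h2 : ∀ a b : IdemMat R, F (a.sum b) = F a + F b) (a : IdemMat R) :
    lift F h1 h2 (mk a) = F a := by
  change FreeAbelianGroup.lift F (FreeAbelianGroup.of a) = F a
  rw [FreeAbelianGroup.lift_apply_of]

/-- Reindexing an idempotent matrix to `Fin n`. -/
noncomputable def toFin {ι : Type*} [Fintype ι] [DecidableEq ι] (e : Matrix ι ι R) (he : e * e = e) :
    IdemMat R where
  n := Fintype.card ι
  mat := e.submatrix (Fintype.equivFin ι).symm (Fintype.equivFin ι).symm
  idem := by rw [submatrix_mul_equiv, he]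

/-- The class of an idempotent matrix indexed by any finite type. -/
noncomputable def cls {ι : Type*} [Fintype ι] [DecidableEq ι] (e : Matrix ι ι R) (he : e * e = e) : K0 R :=
  mk (toFin e he)

theorem matEquiv_refl {ι : Type*} [Fintype ι] {e : Matrix ι ι R} (he : e * e = e) :
    MatEquiv e e := ⟨e, e, he, he⟩

theorem matEquiv_symm {ι κ : Type*} [Fintype ι] [Fintype κ] {e : Matrix ι ι R} {f : Matrix κ κ R}
    (h : MatEquiv e f) : MatEquiv f e := by
  obtain ⟨x, y, h1, h2⟩ := h
  exact ⟨y, x, h2, h1⟩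

theorem matEquiv_trans {ι κ l : Type*} [Fintype ι] [Fintype κ] [Fintype l] {e : Matrix ι ι R}
    {f : Matrix κ κ R} {g : Matrix l l R} (he : e * e = e) (hg : g * g = g)
    (h : MatEquiv e f) (h' : MatEquiv f g) : MatEquiv e g := by
  obtain ⟨x, y, h1, h2⟩ := h
  obtain ⟨z, w, h3, h4⟩ := h'
  refine ⟨x * z, w * y, ?_, ?_⟩
  · calc x * z * (w * y) = x * (z * w) * y := by simp only [Matrix.mul_assoc]
      _ = (x * y) * (x * y) := by rw [h3, ← h2]; simp only [Matrix.mul_assoc]
      _ = e := by rw [h1, he]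
  · calc w * y * (x * z) = w * (y * x) * z := by simp only [Matrix.mul_assoc]
      _ = (w * z) * (w * z) := by rw [h2, ← h3]; simp only [Matrix.mul_assoc]
      _ = g := by rw [h4, hg]

theorem matEquiv_submatrix {ι κ : Type*} [Fintype ι] [Fintype κ] [DecidableEq ι] [DecidableEq κ]
    (e : Matrix ι ι R) (he : e * e = e) (σ : κ ≃ ι) : MatEquiv (e.submatrix σ σ) e := by
  refine ⟨e.submatrix σ id, e.submatrix id σ, ?_, ?_⟩
  · have := submatrix_mul_equiv e e (⇑σ) (Equiv.refl ι) (⇑σ)
    rw [he] at this
    exact this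
  · rw [submatrix_mul_equiv, he, submatrix_id_id]

theorem toFin_equiv {ι : Type*} [Fintype ι] [DecidableEq ι] (e : Matrix ι ι R) (he : e * e = e) :
    MatEquiv (toFin e he).mat e := matEquiv_submatrix e he _

theorem cls_congr {ι κ : Type*} [Fintype ι] [DecidableEq ι] [Fintype κ] [DecidableEq κ]
    {e : Matrix ι ι R} {f : Matrix κ κ R} (he : e * e = e) (hf : f * f = f) (h : MatEquiv e f) :
    cls e he = cls f hf :=
  mk_eq_of_equiv (matEquiv_trans (toFin e he).idem (toFin f hf).idem (toFin_equiv e he)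
    (matEquiv_trans he (toFin f hf).idem h (matEquiv_symm (toFin_equiv f hf))))

theorem mk_eq_cls (a : IdemMat R) : mk a = cls a.mat a.idem :=
  mk_eq_of_equiv (matEquiv_symm (toFin_equiv a.mat a.idem))

theorem fromBlocks_idem {ι κ : Type*} [Fintype ι] [Fintype κ] {e : Matrix ι ι R}
    {f : Matrix κ κ R} (he : e * e = e) (hf : f * f = f) :
    fromBlocks e 0 0 f * fromBlocks e 0 0 f = fromBlocks e 0 0 f := by
  rw [fromBlocks_multiply]
  simp [he, hf]

theorem matEquiv_fromBlocks {ι κ ι' κ' : Type*} [Fintype ι] [Fintype κ] [Fintype ι'] [Fintype κ']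
    {e : Matrix ι ι R} {f : Matrix κ κ R} {e' : Matrix ι' ι' R} {f' : Matrix κ' κ' R}
    (h : MatEquiv e e') (h' : MatEquiv f f') :
    MatEquiv (fromBlocks e 0 0 f) (fromBlocks e' 0 0 f') := by
  obtain ⟨x, y, h1, h2⟩ := h
  obtain ⟨z, w, h3, h4⟩ := h'
  refine ⟨fromBlocks x 0 0 z, fromBlocks y 0 0 w, ?_, ?_⟩
  · rw [fromBlocks_multiply]
    simp [h1, h3]
  · rw [fromBlocks_multiply]
    simp [h2, h4]

theorem cls_fromBlocks {ι κ : Type*} [Fintype ι] [DecidableEq ι] [Fintype κ] [DecidableEq κ]
    {e : Matrix ι ι R} {f : Matrix κ κ R} (he : e * e = e) (hf : f * f = f) :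
    cls (fromBlocks e 0 0 f) (fromBlocks_idem he hf) = cls e he + cls f hf := by
  rw [cls, cls, cls, ← mk_sum]
  apply mk_eq_of_equiv
  refine matEquiv_trans (toFin _ _).idem (IdemMat.sum _ _).idem (toFin_equiv _ _) ?_
  refine matEquiv_trans (fromBlocks_idem he hf) (IdemMat.sum _ _).idem
    (matEquiv_fromBlocks (matEquiv_symm (toFin_equiv e he)) (matEquiv_symm (toFin_equiv f hf))) ?_
  exact matEquiv_symm (matEquiv_submatrix _
    (fromBlocks_idem (toFin e he).idem (toFin f hf).idem) finSumFinEquiv.symm)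

/-- The quotient map. -/
def ofFree (R : Type u) [Ring R] : FreeAbelianGroup (IdemMat R) →+ K0 R :=
  QuotientAddGroup.mk' (K0Rel R)

theorem ofFree_of (a : IdemMat R) : ofFree R (FreeAbelianGroup.of a) = mk a := rfl

theorem exists_sub (x : K0 R) : ∃ a b : IdemMat R, x = mk a - mk b := by
  obtain ⟨z, hz⟩ : ∃ z, ofFree R z = x := QuotientAddGroup.mk_surjective x
  subst hz
  induction z using FreeAbelianGroup.induction_on with
  | zero =>
    exact ⟨⟨0, 0, by simp⟩, ⟨0, 0, by simp⟩, by rw [map_zero, sub_self]⟩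
  | of a =>
    refine ⟨a.sum a, a, ?_⟩
    rw [mk_sum, ofFree_of]
    abel
  | neg a h =>
    obtain ⟨b, c, hbc⟩ := h
    exact ⟨c, b, by rw [map_neg, hbc, neg_sub]⟩
  | add x y hx hy =>
    obtain ⟨a, b, hab⟩ := hx
    obtain ⟨c, d, hcd⟩ := hy
    refine ⟨a.sum c, b.sum d, ?_⟩
    rw [map_add, hab, hcd, mk_sum, mk_sum]
    abel

/-- Flattening of a matrix over `R` along a homomorphism `R → Mat_J(S)`. -/
def flat {J ι κ : Type*} [Fintype J] [DecidableEq J] (φ : R →+* Matrix J J S)
    (e : Matrix ι κ R) : Matrix (ι × J) (κ × J) S :=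
  Matrix.of fun p q => φ (e p.1 q.1) p.2 q.2

theorem flat_mul {J ι κ l : Type*} [Fintype J] [DecidableEq J] [Fintype κ]
    (φ : R →+* Matrix J J S) (x : Matrix ι κ R) (y : Matrix κ l R) :
    flat φ (x * y) = flat φ x * flat φ y := by
  ext ⟨i, a⟩ ⟨j, b⟩
  simp only [flat, of_apply, mul_apply, map_sum, map_mul, Fintype.sum_prod_type, Matrix.sum_apply]

theorem flat_idem {J ι : Type*} [Fintype J] [DecidableEq J] [Fintype ι]
    (φ : R →+* Matrix J J S) {e : Matrix ι ι R} (he : e * e = e) :
    flat φ e * flat φ e = flat φ e := by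
  rw [← flat_mul, he]

theorem matEquiv_flat {J ι κ : Type*} [Fintype J] [DecidableEq J] [Fintype ι] [Fintype κ]
    (φ : R →+* Matrix J J S) {e : Matrix ι ι R} {f : Matrix κ κ R} (h : MatEquiv e f) :
    MatEquiv (flat φ e) (flat φ f) := by
  obtain ⟨x, y, h1, h2⟩ := h
  exact ⟨flat φ x, flat φ y, by rw [← flat_mul, h1], by rw [← flat_mul, h2]⟩

theorem matEquiv_flat_fromBlocks {J ι κ : Type*} [Fintype J] [DecidableEq J] [Fintype ι]
    [Fintype κ] [DecidableEq ι] [DecidableEq κ] (φ : R →+* Matrix J J S) {e : Matrix ι ι R}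
    {f : Matrix κ κ R} (he : e * e = e) (hf : f * f = f) :
    MatEquiv (flat φ (fromBlocks e 0 0 f)) (fromBlocks (flat φ e) 0 0 (flat φ f)) := by
  have h : flat φ (fromBlocks e 0 0 f) =
      (fromBlocks (flat φ e) 0 0 (flat φ f)).submatrix (Equiv.sumProdDistrib ι κ J)
        (Equiv.sumProdDistrib ι κ J) := by
    ext ⟨i, a⟩ ⟨j, b⟩
    rcases i with i | i <;> rcases j with j | j <;> simp [flat]
  rw [h]
  exact matEquiv_submatrix _ (fromBlocks_idem (flat_idem φ he) (flat_idem φ hf)) _

/-- The homomorphism `K₀(R) → K₀(S)` induced by a ring homomorphism `R → Mat_J(S)`. -/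
noncomputable def push {J : Type*} [Fintype J] [DecidableEq J] (φ : R →+* Matrix J J S) :
    K0 R →+ K0 S :=
  lift (fun a => cls (flat φ a.mat) (flat_idem φ a.idem))
    (fun _ _ h => cls_congr _ _ (matEquiv_flat φ h))
    (fun a b => by
      rw [← cls_fromBlocks]
      apply cls_congr
      refine matEquiv_trans (flat_idem φ (a.sum b).idem)
        (fromBlocks_idem (flat_idem φ a.idem) (flat_idem φ b.idem))
        (matEquiv_flat φ (matEquiv_submatrix _ (fromBlocks_idem a.idem b.idem) _)) ?_
      exact matEquiv_flat_fromBlocks φ a.idem b.idem)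

theorem push_mk {J : Type*} [Fintype J] [DecidableEq J] (φ : R →+* Matrix J J S) (a : IdemMat R) :
    push φ (mk a) = cls (flat φ a.mat) (flat_idem φ a.idem) := lift_mk _ _ _ a

theorem push_cls {J ι : Type*} [Fintype J] [DecidableEq J] [Fintype ι] [DecidableEq ι]
    (φ : R →+* Matrix J J S) (e : Matrix ι ι R) (he : e * e = e) :
    push φ (cls e he) = cls (flat φ e) (flat_idem φ he) := by
  rw [cls, push_mk]
  exact cls_congr _ _ (matEquiv_flat φ (toFin_equiv e he))

theorem map_idem {ι : Type*} [Fintype ι] (f : R →+* S) {e : Matrix ι ι R} (he : e * e = e) :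
    e.map f * e.map f = e.map f := by
  rw [← Matrix.map_mul, he]

theorem map_mk (f : R →+* S) (a : IdemMat R) :
    map f (mk a) = cls (a.mat.map f) (map_idem f a.idem) := by
  rw [map_mk', mk_eq_cls]
  rfl

theorem map_cls {ι : Type*} [Fintype ι] [DecidableEq ι] (f : R →+* S) (e : Matrix ι ι R)
    (he : e * e = e) : map f (cls e he) = cls (e.map f) (map_idem f he) := by
  rw [cls, map_mk]
  exact cls_congr _ _ (matEquiv_map f (toFin_equiv e he))

theorem map_id : map (RingHom.id R) = AddMonoidHom.id (K0 R) := by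
  apply hom_ext
  intro a
  rw [map_mk, AddMonoidHom.id_apply, mk_eq_cls]
  congr 1

theorem map_comp (g : S →+* T) (f : R →+* S) : map (g.comp f) = (map g).comp (map f) := by
  apply hom_ext
  intro a
  rw [AddMonoidHom.comp_apply, map_mk, map_mk, map_cls]
  congr 1

theorem map_map (g : S →+* T) (f : R →+* S) (x : K0 R) : map g (map f x) = map (g.comp f) x := by
  rw [map_comp]
  rfl

/-- Composition of `push` and `map`. -/
theorem push_map {J : Type*} [Fintype J] [DecidableEq J] (φ : S →+* Matrix J J T) (f : R →+* S)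
    (x : K0 R) : push φ (map f x) = push (φ.comp f) x := by
  have : (push φ).comp (map f) = push (φ.comp f) := by
    apply hom_ext
    intro a
    rw [AddMonoidHom.comp_apply, map_mk, push_cls, push_mk]
    congr 1
  rw [← this]
  rfl

theorem map_push {J : Type*} [Fintype J] [DecidableEq J] (f : S →+* T) (φ : R →+* Matrix J J S)
    (x : K0 R) : map f (push φ x) = push (f.mapMatrix.comp φ) x := by
  have : (map f).comp (push φ) = push (f.mapMatrix.comp φ) := by
    apply hom_ext
    intro a
    rw [AddMonoidHom.comp_apply, push_mk, map_cls, push_mk]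
    congr 1
  rw [← this]
  rfl

/-- the composite of `R → Mat_J(S)` and `S → Mat_L(T)` -/
def flatComp {J L : Type*} [Fintype J] [DecidableEq J] [Fintype L] [DecidableEq L]
    (χ : S →+* Matrix L L T) (φ : R →+* Matrix J J S) : R →+* Matrix (J × L) (J × L) T where
  toFun r := flat χ (φ r)
  map_one' := by
    rw [map_one]
    ext ⟨i, a⟩ ⟨j, b⟩
    simp only [flat, of_apply, Matrix.one_apply, Prod.mk.injEq]
    by_cases h : i = j
    · simp [h, Matrix.one_apply]
    · simp [h]
  map_mul' x y := by rw [map_mul, flat_mul]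
  map_zero' := by
    rw [map_zero]
    ext ⟨i, a⟩ ⟨j, b⟩
    simp [flat]
  map_add' x y := by
    rw [map_add]
    ext ⟨i, a⟩ ⟨j, b⟩
    simp [flat]

theorem push_push {J L : Type*} [Fintype J] [DecidableEq J] [Fintype L] [DecidableEq L]
    (χ : S →+* Matrix L L T) (φ : R →+* Matrix J J S) (x : K0 R) :
    push χ (push φ x) = push (flatComp χ φ) x := by
  have : (push χ).comp (push φ) = push (flatComp χ φ) := by
    apply hom_ext
    intro a
    rw [AddMonoidHom.comp_apply, push_mk, push_cls, push_mk]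
    apply cls_congr
    have h : flat χ (flat φ a.mat) = (flat (flatComp χ φ) a.mat).submatrix
        (Equiv.prodAssoc (Fin a.n) J L) (Equiv.prodAssoc (Fin a.n) J L) := by
      ext ⟨⟨i, a⟩, c⟩ ⟨⟨j, b⟩, d⟩
      rfl
    rw [h]
    exact matEquiv_submatrix _ (flat_idem _ a.idem) _
  rw [← this]
  rfl

/-- conjugate homomorphisms induce the same map -/
theorem push_congr {J J' : Type*} [Fintype J] [DecidableEq J] [Fintype J'] [DecidableEq J']
    (φ : R →+* Matrix J J S) (φ' : R →+* Matrix J' J' S) (U : Matrix J J' S) (V : Matrix J' J S)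
    (hUV : U * V = 1) (hVU : V * U = 1) (h : ∀ r, U * φ' r = φ r * U) (x : K0 R) :
    push φ x = push φ' x := by
  have : push φ = push φ' := by
    apply hom_ext
    intro a
    rw [push_mk, push_mk]
    apply cls_congr
    -- block diagonal extensions of `U`, `V`
    let UU : Matrix (Fin a.n × J) (Fin a.n × J') S :=
      Matrix.of fun p q => if p.1 = q.1 then U p.2 q.2 else 0
    let VV : Matrix (Fin a.n × J') (Fin a.n × J) S :=
      Matrix.of fun p q => if p.1 = q.1 then V p.2 q.2 else 0
    have hU : ∀ M : Matrix (Fin a.n × J') (Fin a.n × J') S, ∀ i c j b, (UU * M) (i, c) (j, b) =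
        ∑ d, U c d * M (i, d) (j, b) := by
      intro M i c j b
      simp only [UU, mul_apply, of_apply, Fintype.sum_prod_type, ite_mul, zero_mul]
      rw [Finset.sum_comm]
      simp
    have hU' : ∀ M : Matrix (Fin a.n × J) (Fin a.n × J) S, ∀ i c j b, (M * UU) (i, c) (j, b) =
        ∑ d, M (i, c) (j, d) * U d b := by
      intro M i c j b
      simp only [UU, mul_apply, of_apply, Fintype.sum_prod_type, mul_ite, mul_zero]
      rw [Finset.sum_comm]
      simp
    have hcomm : UU * flat φ' a.mat = flat φ a.mat * UU := by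
      ext ⟨i, c⟩ ⟨j, b⟩
      rw [hU, hU']
      have := congrFun (congrFun (h (a.mat i j)) c) b
      simp only [mul_apply] at this
      simpa [flat] using this
    have hUVU : UU * VV = 1 := by
      ext ⟨i, c⟩ ⟨j, b⟩
      simp only [UU, VV, mul_apply, of_apply, Fintype.sum_prod_type, ite_mul, zero_mul, mul_ite,
        mul_zero]
      rw [Finset.sum_comm]
      have := congrFun (congrFun hUV c) b
      simp only [mul_apply] at this
      by_cases hij : i = j
      · subst hij
        simp [this, Matrix.one_apply]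
      · simp [hij]
    have hVUV : VV * UU = 1 := by
      ext ⟨i, c⟩ ⟨j, b⟩
      simp only [UU, VV, mul_apply, of_apply, Fintype.sum_prod_type, ite_mul, zero_mul, mul_ite,
        mul_zero]
      rw [Finset.sum_comm]
      have := congrFun (congrFun hVU c) b
      simp only [mul_apply] at this
      by_cases hij : i = j
      · subst hij
        simp [this, Matrix.one_apply]
      · simp [hij]
    refine ⟨flat φ a.mat * UU, VV, ?_, ?_⟩
    · rw [Matrix.mul_assoc, hUVU, Matrix.mul_one]
    · rw [← hcomm, ← Matrix.mul_assoc, hVUV, Matrix.one_mul]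
  rw [this]

/-- The homomorphism out of `K₀(R)` given by a trace function on `R`. -/
noncomputable def tr {M : Type*} [AddCommGroup M] (τ : R →+ M) (hτ : ∀ x y, τ (x * y) = τ (y * x)) :
    K0 R →+ M :=
  lift (fun a => τ (trace a.mat))
    (fun a b h => by
      obtain ⟨x, y, h1, h2⟩ := h
      rw [← h1, ← h2]
      simp only [trace, diag, mul_apply, map_sum]
      rw [Finset.sum_comm]
      simp only [hτ])
    (fun a b => by
      rw [← map_add]
      congr 1
      have : trace (IdemMat.sum a b).mat = trace (fromBlocks a.mat 0 0 b.mat) := by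
        simp only [trace, diag, IdemMat.sum, submatrix_apply]
        exact finSumFinEquiv.symm.sum_comp (fun i => fromBlocks a.mat 0 0 b.mat i i)
      rw [this]
      simp only [trace, diag, Fintype.sum_sum_type, fromBlocks_apply₁₁, fromBlocks_apply₂₂])

theorem tr_mk {M : Type*} [AddCommGroup M] (τ : R →+ M) (hτ : ∀ x y, τ (x * y) = τ (y * x))
    (a : IdemMat R) : tr τ hτ (mk a) = τ (trace a.mat) := lift_mk _ _ _ a

theorem tr_cls {ι : Type*} [Fintype ι] [DecidableEq ι] {M : Type*} [AddCommGroup M] (τ : R →+ M)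
    (hτ : ∀ x y, τ (x * y) = τ (y * x)) (e : Matrix ι ι R) (he : e * e = e) :
    tr τ hτ (cls e he) = τ (trace e) := by
  rw [cls, tr_mk]
  congr 1
  simp only [trace, diag, toFin, submatrix_apply]
  exact (Fintype.equivFin ι).symm.sum_comp (fun i => e i i)

theorem tr_map {M : Type*} [AddCommGroup M] (τ : S →+ M) (hτ : ∀ x y, τ (x * y) = τ (y * x))
    (f : R →+* S) (x : K0 R) : tr τ hτ (map f x) =
      tr (τ.comp f.toAddMonoidHom) (fun a b => by
        simp only [AddMonoidHom.comp_apply, RingHom.toAddMonoidHom_eq_coe, AddMonoidHom.coe_coe,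
          map_mul]
        exact hτ _ _) x := by
  have : (tr τ hτ).comp (map f) = tr (τ.comp f.toAddMonoidHom) (fun a b => by
        simp only [AddMonoidHom.comp_apply, RingHom.toAddMonoidHom_eq_coe, AddMonoidHom.coe_coe,
          map_mul]
        exact hτ _ _) := by
    apply hom_ext
    intro a
    rw [AddMonoidHom.comp_apply, map_mk, tr_cls, tr_mk]
    simp [trace]
  rw [← this]
  rfl

theorem trace_push_aux {J : Type*} [Fintype J] [DecidableEq J] {M : Type*} [AddCommGroup M]
    (τ : S →+ M) (hτ : ∀ x y, τ (x * y) = τ (y * x)) (φ : R →+* Matrix J J S) (a b : R) :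
    (τ.comp ((traceAddMonoidHom J S).comp φ.toAddMonoidHom)) (a * b) =
      (τ.comp ((traceAddMonoidHom J S).comp φ.toAddMonoidHom)) (b * a) := by
  simp only [AddMonoidHom.comp_apply, RingHom.toAddMonoidHom_eq_coe, AddMonoidHom.coe_coe,
    map_mul, traceAddMonoidHom_apply]
  simp only [trace, diag, mul_apply, map_sum]
  rw [Finset.sum_comm]
  simp only [hτ]

theorem tr_push {J : Type*} [Fintype J] [DecidableEq J] {M : Type*} [AddCommGroup M]
    (τ : S →+ M) (hτ : ∀ x y, τ (x * y) = τ (y * x)) (φ : R →+* Matrix J J S) (x : K0 R) :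
    tr τ hτ (push φ x) = tr (τ.comp ((traceAddMonoidHom J S).comp φ.toAddMonoidHom))
      (trace_push_aux τ hτ φ) x := by
  have : (tr τ hτ).comp (push φ) = tr (τ.comp ((traceAddMonoidHom J S).comp φ.toAddMonoidHom))
      (trace_push_aux τ hτ φ) := by
    apply hom_ext
    intro a
    rw [AddMonoidHom.comp_apply, push_mk, tr_cls, tr_mk]
    simp only [AddMonoidHom.comp_apply, RingHom.toAddMonoidHom_eq_coe, AddMonoidHom.coe_coe,
      traceAddMonoidHom_apply]
    congr 1
    simp only [trace, diag, flat, of_apply, Fintype.sum_prod_type, map_sum, Matrix.sum_apply]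
    rw [Finset.sum_comm]
  rw [← this]
  rfl

theorem tr_congr {M : Type*} [AddCommGroup M] {τ τ' : R →+ M}
    (hτ : ∀ x y, τ (x * y) = τ (y * x)) (hτ' : ∀ x y, τ' (x * y) = τ' (y * x)) (h : τ = τ')
    (x : K0 R) : tr τ hτ x = tr τ' hτ' x := by
  subst h
  rfl

end K0

end Pool.Agent.H71.FJ

end
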