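import Pool.Agent.H71.TCZ.M02
import Pool.Agent.H71.TCZ.M03
import Pool.Agent.H71.TCZ.M22
import Pool.Agent.H71.TCZ.M33

/-! The parts of this file: H71.FQ.St1, H71.KP.Defs, H71.KP.Ring, H71.KP.Res, H95.KM.Stab, H95.WH.FinQ, H95.WH.Men, H95.WH.Red, H95.WH.Main, H8.KL.ClsT, H8.KL.Prim, H95.WH.Semi. -/

section

/-!
# The assembly map on the `K₁`-part of the rational source: definitions

`HnK1 R G n` is generated by the symbols `[F, U, z]`, `F` a finite subgroup of `G`, `U` an invertible matrix over `R[F]`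
and `z` a cycle of degree `n + 1` of the centralizer `Z_G(F)`, modulo the relations of `K₁(R[F])` in `U`, the relations
of `H_{n+1}(Z_G(F); ℤ)` in `z` and `[F', c_g(U), z'] = [F, U, c_{g⁻¹}(z')]` for `g F g⁻¹ ⊆ F'`.

The assembly map sends `[F, U, z]` to `[N, z']` where `N` is the size of `U` and `z'` is the product of the image of `z`
under the scalar matrices `Z_G(F) → GL_N(R[G])` with the commuting element `U` of `GL_N(R[G])` (the prism `pri`).
-/

set_option autoImplicit false

open Matrix

universe u v w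

namespace Pool.Agent.H71.FQS

section

/-- the prism: the tuple `(x_0, …, x_m)` is sent to the alternating sum of the `(x_0, …, x_i, x_i u, …, x_m u)` -/
noncomputable def pri {Λ : Type v} [Group Λ] {m : ℕ} (u : Λ) (c : Ch Λ m) : Ch Λ (m + 1) :=
  c.sum fun x a => ∑ i : Fin (m + 1), Finsupp.single
    (fun j : Fin (m + 2) => if i.castSucc < j then x (i.predAbove j) * u else x (i.predAbove j))
    ((-1) ^ (i : ℕ) * a)

variable (R : Type u) [Ring R] (G : Type v) [Group G] (n : ℕ)

/-- the symbols `[F, U, z]` -/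
structure HSym1 where
  /-- a finite subgroup -/
  F : Subgroup G
  fin : Finite F
  /-- the size of the matrix -/
  N : ℕ
  /-- an invertible matrix over the group ring of `F` -/
  U : GLm N (RF R F)
  /-- a cycle of the centralizer of `F` -/
  z : Cyc (Cent F) n

/-- the relations `[F, U V, z] = [F, U, z] + [F, V, z]` and `[F, U ⊕ 1, z] = [F, U, z]` -/
def relU : Set (FreeAbelianGroup (HSym1 R G n)) :=
  {y | ∃ (F : Subgroup G) (hF : Finite F) (N : ℕ) (U V : GLm N (RF R F)) (z : Cyc (Cent F) n),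
      y = FreeAbelianGroup.of ⟨F, hF, N, U * V, z⟩ -
        (FreeAbelianGroup.of ⟨F, hF, N, U, z⟩ + FreeAbelianGroup.of ⟨F, hF, N, V, z⟩)} ∪
    {y | ∃ (F : Subgroup G) (hF : Finite F) (N : ℕ) (U : GLm N (RF R F))
      (V : GLm (N + 1) (RF R F)) (z : Cyc (Cent F) n),
      V.val = blkM U.val (1 : Matrix (Fin 1) (Fin 1) (RF R F)) ∧
      y = FreeAbelianGroup.of ⟨F, hF, N + 1, V, z⟩ - FreeAbelianGroup.of ⟨F, hF, N, U, z⟩}

/-- additivity in `z` and boundaries -/
def relZ1 : Set (FreeAbelianGroup (HSym1 R G n)) :=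
  {y | ∃ (F : Subgroup G) (hF : Finite F) (N : ℕ) (U : GLm N (RF R F))
      (z z' z'' : Cyc (Cent F) n), z''.ch = z.ch + z'.ch ∧
      y = FreeAbelianGroup.of ⟨F, hF, N, U, z''⟩ -
        (FreeAbelianGroup.of ⟨F, hF, N, U, z⟩ + FreeAbelianGroup.of ⟨F, hF, N, U, z'⟩)} ∪
    {y | ∃ (F : Subgroup G) (hF : Finite F) (N : ℕ) (U : GLm N (RF R F))
      (z : Cyc (Cent F) n), z.ch ∈ bnd (Cent F) (n + 1) ∧
      y = FreeAbelianGroup.of ⟨F, hF, N, U, z⟩}

/-- the relation `[F', c_g(U), z'] = [F, U, c_{g⁻¹}(z')]` for `g F g⁻¹ ⊆ F'` -/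
def relC1 : Set (FreeAbelianGroup (HSym1 R G n)) :=
  {y | ∃ (F F' : Subgroup G) (hF : Finite F) (hF' : Finite F') (g : G) (N : ℕ)
      (U : GLm N (RF R F)) (U' : GLm N (RF R F')) (z : Cyc (Cent F) n) (z' : Cyc (Cent F') n)
      (c : F → F') (κ : Cent F' → Cent F),
      (∀ a, (c a : G) = g * a * g⁻¹) ∧ (∀ γ, (κ γ).val = g⁻¹ * γ.val * g) ∧
      (∀ i j, U'.val i j = MonoidAlgebra.mapDomain c (U.val i j)) ∧ z.ch = push κ z'.ch ∧
      y = FreeAbelianGroup.of ⟨F', hF', N, U', z'⟩ - FreeAbelianGroup.of ⟨F, hF, N, U, z⟩}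

/-- The group generated by the symbols `[F, U, z]`. -/
def HnK1 : Type (max u v) :=
  FreeAbelianGroup (HSym1 R G n) ⧸ AddSubgroup.closure (relU R G n ∪ relZ1 R G n ∪ relC1 R G n)

instance instHnK1 : AddCommGroup (HnK1 R G n) := QuotientAddGroup.Quotient.addCommGroup _

variable {R G n}

/-- the class of `[F, U, z]` -/
def HnK1.mk (s : HSym1 R G n) : HnK1 R G n := QuotientAddGroup.mk (FreeAbelianGroup.of s)

/-- `α` is the assembly map on the `K₁`-part: `α [F, U, z] = [N, z']`, where `z'` is the prism over the image of `z` under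
the scalar matrices, with the matrix `U`. -/
def IsAssembly1 (α : HnK1 R G n → KQ (MonoidAlgebra R G) (n + 1)) : Prop :=
  ∀ (s : HSym1 R G n) (σ : Cent s.F → GLm s.N (MonoidAlgebra R G))
    (u : GLm s.N (MonoidAlgebra R G)) (z' : Cyc (GLm s.N (MonoidAlgebra R G)) (n + 1)),
    (∀ γ, (σ γ).val = Matrix.diagonal fun _ => MonoidAlgebra.single γ.val 1) →
    (∀ i j, u.val i j = MonoidAlgebra.mapDomain (fun a : s.F => (a : G)) (s.U.val i j)) →
    z'.ch = pri u (push σ s.z.ch) → α (HnK1.mk s) = KQ.mk s.N z'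

end

end Pool.Agent.H71.FQS

end

section

/-!
# The assembly map for units of group rings of finite cyclic subgroups

For a commutative ring `R` let `ColimU R G` be the colimit of the groups of units `R[C]ˣ` over the
finite cyclic subgroups `C` of `G`, the morphisms `C → C'` being the restrictions of the conjugations
`x ↦ g x g⁻¹` with `g C g⁻¹ ⊆ C'`. Let `Wh R G` be the quotient of `K₁(R[G])` by the classes of the
units `± g`, and `assembly R G : ColimU R G → Wh R G` the natural map.
-/

set_option autoImplicit false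

open Matrix

universe u v w t

namespace Pool.Agent.H71.KP

open Pool.Agent.H71.WH (InvMat K1 K1.mk K1.unit K1Rel genK1 oneByOne addOne CycSub conjHom K1.mk_mul K1.unit_mul)

/-- The units `± g` of `R[G]`. -/
def trivialUnits (R : Type u) [CommRing R] (G : Type v) [Group G] : Set (MonoidAlgebra R G)ˣ :=
  {x | ∃ (g : G) (e : R), (e = 1 ∨ e = -1) ∧ (x : MonoidAlgebra R G) = MonoidAlgebra.single g e}

/-- The subgroup of `K₁(R[G])` generated by the classes of the units `± g`. -/
noncomputable def trivialK1 (R : Type u) [CommRing R] (G : Type v) [Group G] :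
    AddSubgroup (K1 (MonoidAlgebra R G)) :=
  AddSubgroup.closure (K1.unit '' trivialUnits R G)

/-- The quotient of `K₁(R[G])` by the classes of the units `± g`. -/
def Wh (R : Type u) [CommRing R] (G : Type v) [Group G] : Type (max u v) :=
  K1 (MonoidAlgebra R G) ⧸ trivialK1 R G

noncomputable instance instWh (R : Type u) [CommRing R] (G : Type v) [Group G] :
    AddCommGroup (Wh R G) :=
  QuotientAddGroup.Quotient.addCommGroup (trivialK1 R G)

/-- The homomorphism `R[F]ˣ → R[F']ˣ` induced by a group homomorphism `F → F'`. -/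
noncomputable def unitsMap {R : Type u} [CommRing R] {F : Type v} {F' : Type w} [Group F]
    [Group F'] (φ : F →* F') : (MonoidAlgebra R F)ˣ →* (MonoidAlgebra R F')ˣ :=
  Units.map (MonoidAlgebra.mapDomainRingHom R φ).toMonoidHom

/-- A finite cyclic subgroup `C` and a unit of `R[C]`. -/
structure CycUnit (R : Type u) [CommRing R] (G : Type v) [Group G] where
  /-- the subgroup -/
  C : CycSub G
  /-- the unit -/
  x : (MonoidAlgebra R C.1)ˣ

/-- The generator of a pair. -/
def gen {R : Type u} [CommRing R] {G : Type v} [Group G] (C : CycSub G)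
    (x : (MonoidAlgebra R C.1)ˣ) : FreeAbelianGroup (CycUnit R G) := FreeAbelianGroup.of ⟨C, x⟩

/-- The relation `[C, x y] - ([C, x] + [C, y])`. -/
noncomputable def mulRel {R : Type u} [CommRing R] {G : Type v} [Group G] (C : CycSub G)
    (x y : (MonoidAlgebra R C.1)ˣ) : FreeAbelianGroup (CycUnit R G) :=
  gen C (x * y) - (gen C x + gen C y)

/-- The relation `[C', g x g⁻¹] - [C, x]`. -/
noncomputable def conjRel {R : Type u} [CommRing R] {G : Type v} [Group G] (C C' : CycSub G)
    (g : G) (h : ∀ a ∈ C.1, g * a * g⁻¹ ∈ C'.1) (x : (MonoidAlgebra R C.1)ˣ) :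
    FreeAbelianGroup (CycUnit R G) := gen C' (unitsMap (conjHom g C.1 C'.1 h) x) - gen C x

/-- The relations of the colimit: `[C, x y] = [C, x] + [C, y]` and `[C', g x g⁻¹] = [C, x]`. -/
def colimRel (R : Type u) [CommRing R] (G : Type v) [Group G] :
    AddSubgroup (FreeAbelianGroup (CycUnit R G)) :=
  AddSubgroup.closure
    ({z | ∃ C x y, z = mulRel C x y} ∪ {z | ∃ C C' g h x, z = conjRel C C' g h x})

/-- The colimit of `R[C]ˣ` over the finite cyclic subgroups `C` of `G`. -/
def ColimU (R : Type u) [CommRing R] (G : Type v) [Group G] : Type (max u v) :=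
  FreeAbelianGroup (CycUnit R G) ⧸ colimRel R G

instance instColimU (R : Type u) [CommRing R] (G : Type v) [Group G] :
    AddCommGroup (ColimU R G) := QuotientAddGroup.Quotient.addCommGroup (colimRel R G)

/-- The class in `Wh R G` of a unit of `R[G]`. -/
noncomputable def Wh.unit {R : Type u} [CommRing R] {G : Type v} [Group G]
    (x : (MonoidAlgebra R G)ˣ) : Wh R G := QuotientAddGroup.mk (K1.unit x)

/-- The class in `Wh R G` of a unit of `R[C]`. -/
noncomputable def incWh {R : Type u} [CommRing R] {G : Type v} [Group G] (C : CycSub G)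
    (x : (MonoidAlgebra R C.1)ˣ) : Wh R G := Wh.unit (unitsMap C.1.subtype x)

/-- The class in `Wh R G` of a pair. -/
noncomputable def toWh {R : Type u} [CommRing R] {G : Type v} [Group G] (a : CycUnit R G) :
    Wh R G := incWh a.C a.x

/-- The map on the free abelian group. -/
noncomputable def assemblyFree (R : Type u) [CommRing R] (G : Type v) [Group G] :
    FreeAbelianGroup (CycUnit R G) →+ Wh R G := FreeAbelianGroup.lift toWh

theorem Wh.unit_mul {R : Type u} [CommRing R] {G : Type v} [Group G]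
    (x y : (MonoidAlgebra R G)ˣ) : Wh.unit (x * y) = Wh.unit x + Wh.unit y := by
  rw [Wh.unit, K1.unit_mul]
  rfl

theorem incWh_mul {R : Type u} [CommRing R] {G : Type v} [Group G] (C : CycSub G)
    (x y : (MonoidAlgebra R C.1)ˣ) : incWh C (x * y) = incWh C x + incWh C y := by
  rw [incWh, map_mul, Wh.unit_mul]
  rfl

/-- The unit `g` of `R[G]`. -/
noncomputable def gUnit {R : Type u} [CommRing R] {G : Type v} [Group G] (g : G) :
    (MonoidAlgebra R G)ˣ := Units.map (MonoidAlgebra.of R G) (toUnits g)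

theorem unitsMap_conj {R : Type u} [CommRing R] {G : Type v} [Group G] (g : G)
    (F F' : Subgroup G) (h : ∀ x ∈ F, g * x * g⁻¹ ∈ F') (x : (MonoidAlgebra R F)ˣ) :
    unitsMap F'.subtype (unitsMap (conjHom g F F' h) x) =
      gUnit g * unitsMap F.subtype x * gUnit g⁻¹ := by
  have key : ∀ r : MonoidAlgebra R F, MonoidAlgebra.mapDomainRingHom R F'.subtype
      (MonoidAlgebra.mapDomainRingHom R (conjHom g F F' h) r) =
      MonoidAlgebra.single g 1 * MonoidAlgebra.mapDomainRingHom R F.subtype r *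
        MonoidAlgebra.single g⁻¹ 1 := by
    intro r
    induction r using MonoidAlgebra.induction_linear with
    | zero => simp
    | add a b ha hb => rw [map_add, map_add, ha, hb, map_add, mul_add, add_mul]
    | single s t =>
      change MonoidAlgebra.mapDomain F'.subtype (MonoidAlgebra.mapDomain (conjHom g F F' h)
        (MonoidAlgebra.single s t)) = MonoidAlgebra.single g 1 *
          MonoidAlgebra.mapDomain F.subtype (MonoidAlgebra.single s t) *
          MonoidAlgebra.single g⁻¹ 1
      rw [MonoidAlgebra.mapDomain_single, MonoidAlgebra.mapDomain_single,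
        MonoidAlgebra.mapDomain_single, MonoidAlgebra.single_mul_single,
        MonoidAlgebra.single_mul_single, one_mul, mul_one]
      rfl
  exact Units.ext (key x)

theorem incWh_conj {R : Type u} [CommRing R] {G : Type v} [Group G] (C C' : CycSub G) (g : G)
    (h : ∀ a ∈ C.1, g * a * g⁻¹ ∈ C'.1) (x : (MonoidAlgebra R C.1)ˣ) :
    incWh C' (unitsMap (conjHom g C.1 C'.1 h) x) = incWh C x := by
  have h2 : gUnit g * gUnit g⁻¹ = (1 : (MonoidAlgebra R G)ˣ) := by
    rw [gUnit, gUnit, ← map_mul, ← map_mul, mul_inv_cancel, map_one, map_one]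
  have h3 : Wh.unit (gUnit g : (MonoidAlgebra R G)ˣ) + Wh.unit (gUnit g⁻¹) = 0 := by
    have h4 := Wh.unit_mul (1 : (MonoidAlgebra R G)ˣ) 1
    rw [mul_one] at h4
    rw [← Wh.unit_mul, h2]
    exact (add_eq_left.1 h4.symm)
  rw [incWh, unitsMap_conj, Wh.unit_mul, Wh.unit_mul, add_right_comm, h3, zero_add]
  rfl

theorem colimRel_le (R : Type u) [CommRing R] (G : Type v) [Group G] :
    colimRel R G ≤ (assemblyFree R G).ker := by
  rw [colimRel, AddSubgroup.closure_le]
  rintro z (⟨C, x, y, rfl⟩ | ⟨C, C', g, h, x, rfl⟩)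
  · change assemblyFree R G (gen C (x * y) - (gen C x + gen C y)) = 0
    rw [assemblyFree, map_sub, map_add, gen, gen, gen, FreeAbelianGroup.lift_apply_of,
      FreeAbelianGroup.lift_apply_of, FreeAbelianGroup.lift_apply_of]
    exact sub_eq_zero.2 (incWh_mul C x y)
  · change assemblyFree R G (gen C' (unitsMap (conjHom g C.1 C'.1 h) x) - gen C x) = 0
    rw [assemblyFree, map_sub, gen, gen, FreeAbelianGroup.lift_apply_of,
      FreeAbelianGroup.lift_apply_of]
    exact sub_eq_zero.2 (incWh_conj C C' g h x)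

/-- The assembly map for units of finite cyclic subgroups. -/
noncomputable def assembly (R : Type u) [CommRing R] (G : Type v) [Group G] :
    ColimU R G →+ Wh R G :=
  QuotientAddGroup.lift (colimRel R G) (assemblyFree R G) (colimRel_le R G)

end Pool.Agent.H71.KP

end

section

/-!
# Change of rings for the colimit and the Whitehead groups
-/

set_option autoImplicit false
set_option linter.unusedSectionVars false

open Matrix

universe u v w t

namespace Pool.Agent.H71.KP

open Pool.Agent.H71.WH (K1 K1.mk K1.unit CycSub conjHom)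

theorem cyc_comm {D : Type w} [Group D] [IsCyclic D] (a b : D) : a * b = b * a := by
  obtain ⟨g, hg⟩ := IsCyclic.exists_generator (α := D)
  obtain ⟨m, rfl⟩ := Subgroup.mem_zpowers_iff.1 (hg a)
  obtain ⟨n, rfl⟩ := Subgroup.mem_zpowers_iff.1 (hg b)
  rw [← _root_.zpow_add, ← _root_.zpow_add, add_comm]

section Cl

variable {R : Type u} [CommRing R] {G : Type v} [Group G]

/-- the quotient map -/
def toColim (R : Type u) [CommRing R] (G : Type v) [Group G] :
    FreeAbelianGroup (CycUnit R G) →+ ColimU R G :=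
  QuotientAddGroup.mk' (colimRel R G)

/-- the class of a unit -/
def cl (C : CycSub G) (x : (MonoidAlgebra R C.1)ˣ) : ColimU R G :=
  toColim R G (gen C x)

theorem cl_mul (C : CycSub G) (x y : (MonoidAlgebra R C.1)ˣ) :
    cl C (x * y) = cl C x + cl C y := by
  rw [cl, cl, cl, ← sub_eq_zero, ← map_add, ← map_sub]
  exact (QuotientAddGroup.eq_zero_iff _).2 (AddSubgroup.subset_closure (Or.inl ⟨C, x, y, rfl⟩))

theorem cl_conj (C C' : CycSub G) (g : G) (h : ∀ a ∈ C.1, g * a * g⁻¹ ∈ C'.1)
    (x : (MonoidAlgebra R C.1)ˣ) : cl C' (unitsMap (conjHom g C.1 C'.1 h) x) = cl C x := by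
  rw [cl, cl, ← sub_eq_zero, ← map_sub]
  exact (QuotientAddGroup.eq_zero_iff _).2
    (AddSubgroup.subset_closure (Or.inr ⟨C, C', g, h, x, rfl⟩))

/-- the class as a homomorphism -/
noncomputable def clM (C : CycSub G) : (MonoidAlgebra R C.1)ˣ →* Multiplicative (ColimU R G) :=
  MonoidHom.mk' (fun x => Multiplicative.ofAdd (cl C x)) (cl_mul C)

theorem cl_one (C : CycSub G) : cl C (1 : (MonoidAlgebra R C.1)ˣ) = 0 := map_one (clM C)

theorem cl_pow (C : CycSub G) (x : (MonoidAlgebra R C.1)ˣ) (n : ℕ) :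
    cl C (x ^ n) = n • cl C x := map_pow (clM C) x n

theorem cl_inv (C : CycSub G) (x : (MonoidAlgebra R C.1)ˣ) :
    cl C x⁻¹ = -cl C x := map_inv (clM C) x

theorem cl_list (C : CycSub G) (l : List (MonoidAlgebra R C.1)ˣ) :
    cl C l.prod = (l.map (cl C)).sum := by
  induction l with
  | nil => exact cl_one C
  | cons a l ih => rw [List.prod_cons, cl_mul, ih, List.map_cons, List.sum_cons]

theorem assembly_cl (C : CycSub G) (x : (MonoidAlgebra R C.1)ˣ) :
    assembly R G (cl C x) = incWh C x := FreeAbelianGroup.lift_apply_of _ _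

theorem colim_induction {P : ColimU R G → Prop} (h0 : P 0)
    (h1 : ∀ (C : CycSub G) (x : (MonoidAlgebra R C.1)ˣ), P (cl C x))
    (h2 : ∀ a b, P a → P b → P (a + b)) (z : ColimU R G) : P z := by
  obtain ⟨y, rfl⟩ : ∃ y, toColim R G y = z := QuotientAddGroup.mk_surjective z
  induction y using FreeAbelianGroup.induction_on with
  | zero => rw [map_zero]; exact h0
  | of x => exact h1 x.C x.x
  | neg x _ =>
    rw [map_neg]
    change P (-cl x.C x.x)
    rw [← cl_inv]
    exact h1 _ _
  | add x y hx hy => rw [map_add]; exact h2 _ _ hx hy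

end Cl

section Lift

variable {R : Type u} [CommRing R] {G : Type v} [Group G] {A : Type w} [AddCommGroup A]

/-- Homomorphisms from the colimit. -/
theorem exists_lift (e : ∀ C : CycSub G, (MonoidAlgebra R C.1)ˣ → A)
    (hm : ∀ C x y, e C (x * y) = e C x + e C y)
    (hc : ∀ (C C' : CycSub G) (g : G) (h : ∀ a ∈ C.1, g * a * g⁻¹ ∈ C'.1) x,
      e C' (unitsMap (conjHom g C.1 C'.1 h) x) = e C x) :
    ∃ F : ColimU R G →+ A, ∀ C x, F (cl C x) = e C x := by
  let E : FreeAbelianGroup (CycUnit R G) →+ A := FreeAbelianGroup.lift fun a => e a.C a.x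
  have hE : colimRel R G ≤ E.ker := by
    rw [colimRel, AddSubgroup.closure_le]
    rintro z (⟨C, x, y, rfl⟩ | ⟨C, C', g, h, x, rfl⟩)
    · change E (gen C (x * y) - (gen C x + gen C y)) = 0
      rw [map_sub, map_add, gen, gen, gen, FreeAbelianGroup.lift_apply_of,
        FreeAbelianGroup.lift_apply_of, FreeAbelianGroup.lift_apply_of]
      exact sub_eq_zero.2 (hm C x y)
    · change E (gen C' (unitsMap (conjHom g C.1 C'.1 h) x) - gen C x) = 0
      rw [map_sub, gen, gen, FreeAbelianGroup.lift_apply_of, FreeAbelianGroup.lift_apply_of]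
      exact sub_eq_zero.2 (hc C C' g h x)
  exact ⟨QuotientAddGroup.lift (colimRel R G) E hE,
    fun C x => FreeAbelianGroup.lift_apply_of _ _⟩

end Lift

section Ring

variable {R : Type u} [CommRing R] {S : Type t} [CommRing S] (φ : R →+* S)

/-- change of rings for units of group rings -/
noncomputable def uMap (H : Type v) [Group H] : (MonoidAlgebra R H)ˣ →* (MonoidAlgebra S H)ˣ :=
  Units.map (MonoidAlgebra.mapRingHom H φ).toMonoidHom

theorem uMap_val (H : Type v) [Group H] (x : (MonoidAlgebra R H)ˣ) :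
    (uMap φ H x : MonoidAlgebra S H) = MonoidAlgebra.mapRingHom H φ (x : MonoidAlgebra R H) := rfl

theorem uMap_unitsMap {F : Type v} {F' : Type w} [Group F] [Group F'] (ψ : F →* F')
    (x : (MonoidAlgebra R F)ˣ) : uMap φ F' (unitsMap ψ x) = unitsMap ψ (uMap φ F x) := by
  apply Units.ext
  exact congrArg (fun g : MonoidAlgebra R F →+* MonoidAlgebra S F' => g x)
    (MonoidAlgebra.mapRingHom_comp_mapDomainRingHom φ ψ)

variable (G : Type v) [Group G]

theorem exists_ringMap : ∃ F : ColimU R G →+ ColimU S G,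
    ∀ C x, F (cl C x) = cl C (uMap φ C.1 x) := by
  refine exists_lift (fun C x => cl C (uMap φ C.1 x)) ?_ ?_
  · intro C x y
    rw [map_mul, cl_mul]
  · intro C C' g h x
    rw [uMap_unitsMap, cl_conj]

/-- change of rings for the colimit -/
noncomputable def colimMap : ColimU R G →+ ColimU S G := (exists_ringMap φ G).choose

theorem colimMap_cl (C : CycSub G) (x : (MonoidAlgebra R C.1)ˣ) :
    colimMap φ G (cl C x) = cl C (uMap φ C.1 x) := (exists_ringMap φ G).choose_spec C x

end Ring

end Pool.Agent.H71.KP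

end

section

/-!
# Restriction of units to subgroups
-/

set_option autoImplicit false
set_option linter.unusedSectionVars false
set_option linter.unusedSimpArgs false

open Matrix
open scoped Classical

universe u v w t

namespace Pool.Agent.H71.KP

theorem out_mem_iff {F : Type v} [Group F] (D : Subgroup F) (h : F) (x y : F ⧸ D) :
    x.out⁻¹ * h * y.out ∈ D ↔ x = h • y := by
  have h1 : h • y = ((h * y.out : F) : F ⧸ D) := by
    conv_lhs => rw [← QuotientGroup.out_eq' y]
    rfl
  rw [h1]
  conv_rhs => rw [← QuotientGroup.out_eq' x]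
  rw [QuotientGroup.eq, mul_assoc]

section Lam

variable (R : Type u) [CommRing R] {F : Type v} [Group F]

/-- The monomial matrix over `R[D]` of left multiplication by `h` on the free right `R[D]`-module
`R[F]`. -/
noncomputable def resMat (D : Subgroup F) (h : F) :
    Matrix (F ⧸ D) (F ⧸ D) (MonoidAlgebra R D) :=
  Matrix.of fun x y => if hh : x.out⁻¹ * h * y.out ∈ D then
    MonoidAlgebra.single (⟨x.out⁻¹ * h * y.out, hh⟩ : D) 1 else 0

/-- The restriction homomorphism `R[F] → Mat_{F/D}(R[D])`. -/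
noncomputable def resA (D : Subgroup F) [Fintype (F ⧸ D)] :
    MonoidAlgebra R F →ₐ[R] Matrix (F ⧸ D) (F ⧸ D) (MonoidAlgebra R D) :=
  MonoidAlgebra.lift R _ F
    { toFun := resMat R D
      map_one' := by
        refine Matrix.ext fun x y => ?_
        rw [resMat, of_apply, Matrix.one_apply]
        by_cases hxy : x = y
        · subst hxy
          have : x.out⁻¹ * 1 * x.out ∈ D := by simp
          rw [dif_pos this, if_pos rfl, MonoidAlgebra.one_def]
          refine congrArg (fun g : D => MonoidAlgebra.single g (1 : R)) (Subtype.ext ?_)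
          simp
        · rw [dif_neg, if_neg hxy]
          rw [out_mem_iff, one_smul]
          exact hxy
      map_mul' := by
        intro h h'
        refine Matrix.ext fun x z => ?_
        rw [Matrix.mul_apply, Finset.sum_eq_single (h' • z)]
        · simp only [resMat, of_apply]
          have h1 : (h' • z).out⁻¹ * h' * z.out ∈ D := (out_mem_iff D h' _ z).2 rfl
          rw [dif_pos h1]
          by_cases h2 : x.out⁻¹ * h * (h' • z).out ∈ D
          · have h3 : x.out⁻¹ * (h * h') * z.out ∈ D := by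
              have := D.mul_mem h2 h1
              have e : x.out⁻¹ * h * (h' • z).out * ((h' • z).out⁻¹ * h' * z.out) =
                x.out⁻¹ * (h * h') * z.out := by group
              rwa [e] at this
            rw [dif_pos h2, dif_pos h3, MonoidAlgebra.single_mul_single, one_mul]
            refine congrArg (fun g : D => MonoidAlgebra.single g (1 : R)) (Subtype.ext ?_)
            simp only [Subgroup.coe_mul]
            group
          · have h3 : ¬ x.out⁻¹ * (h * h') * z.out ∈ D := by
              intro h3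
              apply h2
              rw [out_mem_iff] at h3 ⊢
              rw [h3, mul_smul]
            rw [dif_neg h2, dif_neg h3, zero_mul]
        · intro y _ hy
          simp only [resMat, of_apply]
          have : ¬ y.out⁻¹ * h' * z.out ∈ D := by
            rw [out_mem_iff]
            exact hy
          rw [dif_neg this, mul_zero]
        · intro h1
          exact absurd (Finset.mem_univ _) h1 }

theorem resA_single (D : Subgroup F) [Fintype (F ⧸ D)] (h : F) (r : R) (x y : F ⧸ D) :
    resA R D (MonoidAlgebra.single h r) x y = if hh : x.out⁻¹ * h * y.out ∈ D then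
      MonoidAlgebra.single (⟨x.out⁻¹ * h * y.out, hh⟩ : D) r else 0 := by
  rw [resA, MonoidAlgebra.lift_single]
  change r • (resMat R D h) x y = _
  rw [resMat, of_apply]
  split_ifs
  · rw [MonoidAlgebra.smul_single, smul_eq_mul, mul_one]
  · rw [smul_zero]

/-- the restriction as a ring homomorphism -/
noncomputable def resR (D : Subgroup F) [Fintype (F ⧸ D)] :
    MonoidAlgebra R F →+* Matrix (F ⧸ D) (F ⧸ D) (MonoidAlgebra R D) := (resA R D).toRingHom

theorem resR_map {S : Type t} [CommRing S] (φ : R →+* S) (D : Subgroup F) [Fintype (F ⧸ D)]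
    (x : MonoidAlgebra R F) : resR S D (MonoidAlgebra.mapRingHom F φ x) =
      (resR R D x).map (MonoidAlgebra.mapRingHom D φ) := by
  induction x using MonoidAlgebra.induction_linear with
  | zero =>
    rw [map_zero, map_zero, map_zero]
    exact (Matrix.map_zero _ (map_zero _)).symm
  | add x y hx hy =>
    rw [map_add, map_add, map_add, hx, hy, Matrix.map_add _ (map_add _)]
  | single h r =>
    refine Matrix.ext fun a b => ?_
    rw [MonoidAlgebra.mapRingHom_single, Matrix.map_apply]
    change resA S D (MonoidAlgebra.single h (φ r)) a b =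
      MonoidAlgebra.mapRingHom D φ (resA R D (MonoidAlgebra.single h r) a b)
    rw [resA_single, resA_single]
    split_ifs
    · rw [MonoidAlgebra.mapRingHom_single]
    · rw [map_zero]

end Lam

section Comm

variable {R : Type u} [CommRing R] {H : Type w} [CommGroup H]

/-- The restriction of units, given by the determinant. -/
noncomputable def resU (E : Subgroup H) [Fintype (H ⧸ E)] :
    (MonoidAlgebra R H)ˣ →* (MonoidAlgebra R E)ˣ :=
  (Units.map (detMonoidHom : Matrix (H ⧸ E) (H ⧸ E) (MonoidAlgebra R E) →* MonoidAlgebra R E)).comp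
    (Units.map (resR R E).toMonoidHom)

theorem resU_val (E : Subgroup H) [Fintype (H ⧸ E)] (x : (MonoidAlgebra R H)ˣ) :
    (resU E x : MonoidAlgebra R E) = det (resR R E (x : MonoidAlgebra R H)) := rfl

theorem uMap_resU {S : Type t} [CommRing S] (φ : R →+* S) (E : Subgroup H) [Fintype (H ⧸ E)]
    (x : (MonoidAlgebra R H)ˣ) : uMap φ E (resU E x) = resU E (uMap φ H x) := by
  apply Units.ext
  rw [uMap_val, resU_val, resU_val, uMap_val, resR_map, RingHom.map_det]
  rfl

/-- the product of the restriction and the induction -/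
noncomputable def ir (E : Subgroup H) [Fintype (H ⧸ E)] (x : (MonoidAlgebra R H)ˣ) :
    (MonoidAlgebra R H)ˣ := unitsMap E.subtype (resU E x)

end Comm

end Pool.Agent.H71.KP

end

section

/-!
# Project KM, module Stab: equality in `K₀` is stable equivalence

`K0 R`, `K0.cls`, `MatEquiv`, `K0.lift`, `K0.cls_fromBlocks`, ... are in
`Pool/Agent/H71/FJ/Defs.lean`, `Pool/Agent/H71/FJ/K0.lean`, `Pool/Agent/H71/FJ/Rank.lean`.

PROOF of `exists_stab`.  Let `Mo` be the quotient of `IdemMat R` by `a ≈ b :↔ MatEquiv a.mat b.mat`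
(an equivalence relation: `K0.matEquiv_refl/symm/trans`).  Block sum makes it a commutative
additive monoid (`K0.matEquiv_fromBlocks`, `K0.matEquiv_submatrix`, `finSumFinEquiv`,
`Equiv.sumComm`, `Equiv.sumAssoc`; zero is the `0 × 0` matrix).  Let `Gr` be its Grothendieck group
(`AddLocalization (⊤ : AddSubmonoid Mo)` or `Algebra.GrothendieckAddGroup Mo`, or any direct
construction).  `K0.lift` gives `K0 R →+ Gr` with `K0.mk a ↦ [a]`.  So if `K0.cls E = K0.cls F`
then `[toFin E] = [toFin F]` in `Gr`, so there is an idempotent matrix `c` (size `k`) with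
`E ⊕ c ≈ F ⊕ c`.  Adding `1 - c` on both sides and using `c ⊕ (1 - c) ≈ 1_k`
(take `x = fromRows c (1 - c)`, `y = fromCols c (1 - c)`: `y * x = c + (1 - c) = 1`,
`x * y = fromBlocks c 0 0 (1 - c)`) gives `E ⊕ 1_k ≈ F ⊕ 1_k`.  Alternatively avoid the
Grothendieck group: define on pairs of idempotent matrices `(a, b) ~ (a', b')` iff
`∃ k, a ⊕ b' ⊕ 1_k ≈ a' ⊕ b ⊕ 1_k`.

PROOF of `exists_sub_one`.  `K0.exists_sub` gives `x = mk a - mk b`; add `[1 - b.mat]` to both:
`x = ([a] + [1 - b]) - ([b] + [1 - b]) = [a ⊕ (1 - b)] - [1_{b.n}]`, and reindex `a ⊕ (1 - b)` to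
`Fin (a.n + b.n)` (`K0.matEquiv_submatrix`).
-/

set_option autoImplicit false

open Matrix
open scoped LaurentPolynomial

universe u v w

namespace Pool.Agent.H95.KM

open Pool.Agent.H71.FJ

variable {R : Type u} [Ring R]

theorem one_idem {R : Type u} [Ring R] {n : Type*} [Fintype n] [DecidableEq n] :
    (1 : Matrix n n R) * 1 = 1 := one_mul 1

theorem sub_idem {n : Type*} [Fintype n] [DecidableEq n] {e : Matrix n n R} (he : e * e = e) :
    (1 - e) * (1 - e) = 1 - e := by
  rw [sub_mul, one_mul, mul_sub, mul_one, he, sub_self, sub_zero]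

/-! ### Block sums up to equivalence -/

private theorem stab_sum_equiv (a b : IdemMat R) :
    MatEquiv (a.sum b).mat (fromBlocks a.mat 0 0 b.mat) :=
  K0.matEquiv_submatrix _ (K0.fromBlocks_idem a.idem b.idem) finSumFinEquiv.symm

private theorem stab_comm {m n : Type*} [Fintype m] [DecidableEq m] [Fintype n] [DecidableEq n]
    (E : Matrix m m R) (F : Matrix n n R) (hE : E * E = E) (hF : F * F = F) :
    MatEquiv (fromBlocks E 0 0 F) (fromBlocks F 0 0 E) := by
  have h : fromBlocks E 0 0 F =
      (fromBlocks F 0 0 E).submatrix (Equiv.sumComm m n) (Equiv.sumComm m n) := by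
    ext i j
    rcases i with i | i <;> rcases j with j | j <;> rfl
  rw [h]
  exact K0.matEquiv_submatrix _ (K0.fromBlocks_idem hF hE) _

private theorem stab_assoc {l m n : Type*} [Fintype l] [DecidableEq l] [Fintype m] [DecidableEq m]
    [Fintype n] [DecidableEq n] (D : Matrix l l R) (E : Matrix m m R) (F : Matrix n n R)
    (hD : D * D = D) (hE : E * E = E) (hF : F * F = F) :
    MatEquiv (fromBlocks (fromBlocks D 0 0 E) 0 0 F) (fromBlocks D 0 0 (fromBlocks E 0 0 F)) := by
  have h : fromBlocks (fromBlocks D 0 0 E) 0 0 F =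
      (fromBlocks D 0 0 (fromBlocks E 0 0 F)).submatrix (Equiv.sumAssoc l m n)
        (Equiv.sumAssoc l m n) := by
    ext i j
    rcases i with (i | i) | i <;> rcases j with (j | j) | j <;> rfl
  rw [h]
  exact K0.matEquiv_submatrix _ (K0.fromBlocks_idem hD (K0.fromBlocks_idem hE hF)) _

private theorem stab_zero {l m : Type*} [Fintype l] [DecidableEq l] [IsEmpty l] [Fintype m]
    [DecidableEq m] (D : Matrix l l R) (E : Matrix m m R) (hE : E * E = E) :
    MatEquiv (fromBlocks D 0 0 E) E := by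
  have h : fromBlocks D 0 0 E = E.submatrix (Equiv.emptySum l m) (Equiv.emptySum l m) := by
    ext i j
    rcases i with i | i
    · exact (IsEmpty.false i).elim
    · rcases j with j | j
      · exact (IsEmpty.false j).elim
      · rfl
  rw [h]
  exact K0.matEquiv_submatrix _ hE _

private theorem stab_compl {n : Type*} [Fintype n] [DecidableEq n] (e : Matrix n n R)
    (he : e * e = e) : MatEquiv (fromBlocks e 0 0 (1 - e)) (1 : Matrix n n R) := by
  refine ⟨fromRows e (1 - e), fromCols e (1 - e), ?_, ?_⟩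
  · rw [fromRows_mul_fromCols, sub_idem he, he, mul_sub, sub_mul, mul_one, one_mul, he, sub_self]
  · rw [fromCols_mul_fromRows, sub_idem he, he, add_sub_cancel]

/-! ### The monoid of equivalence classes of idempotent matrices -/

/-- Equivalence of idempotent matrices. -/
private def stabSetoid (R : Type u) [Ring R] : Setoid (IdemMat R) where
  r a b := MatEquiv a.mat b.mat
  iseqv :=
    { refl := fun a => K0.matEquiv_refl a.idem
      symm := fun h => K0.matEquiv_symm h
      trans := fun {a _ c} h h' => K0.matEquiv_trans a.idem c.idem h h' }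

/-- The monoid of equivalence classes of idempotent matrices. -/
private def StabMon (R : Type u) [Ring R] : Type u := Quotient (stabSetoid R)

private theorem stab_sum_congr (a a' b b' : IdemMat R) (h : MatEquiv a.mat a'.mat)
    (h' : MatEquiv b.mat b'.mat) : MatEquiv (a.sum b).mat (a'.sum b').mat :=
  K0.matEquiv_trans (a.sum b).idem (a'.sum b').idem (stab_sum_equiv a b)
    (K0.matEquiv_trans (K0.fromBlocks_idem a.idem b.idem) (a'.sum b').idem
      (K0.matEquiv_fromBlocks h h') (K0.matEquiv_symm (stab_sum_equiv a' b')))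

/-- The class of an idempotent matrix. -/
private def stabMk (a : IdemMat R) : StabMon R := Quotient.mk (stabSetoid R) a

private instance stabAdd (R : Type u) [Ring R] : Add (StabMon R) :=
  ⟨Quotient.map₂ IdemMat.sum fun a a' h b b' h' => stab_sum_congr a a' b b' h h'⟩

private instance stabZero (R : Type u) [Ring R] : Zero (StabMon R) :=
  ⟨stabMk ⟨0, 0, by simp⟩⟩

private theorem stabMk_add (a b : IdemMat R) : stabMk (a.sum b) = stabMk a + stabMk b := rfl

private theorem stabMk_eq {a b : IdemMat R} (h : MatEquiv a.mat b.mat) : stabMk a = stabMk b :=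
  Quotient.sound h

private instance stabMonInst (R : Type u) [Ring R] : AddCommMonoid (StabMon R) where
  add_assoc a b c := by
    induction a using Quotient.inductionOn with
    | _ a =>
    induction b using Quotient.inductionOn with
    | _ b =>
    induction c using Quotient.inductionOn with
    | _ c =>
    apply Quotient.sound
    change MatEquiv ((a.sum b).sum c).mat (a.sum (b.sum c)).mat
    refine K0.matEquiv_trans ((a.sum b).sum c).idem (a.sum (b.sum c)).idem
      (stab_sum_equiv (a.sum b) c) ?_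
    refine K0.matEquiv_trans (K0.fromBlocks_idem (a.sum b).idem c.idem) (a.sum (b.sum c)).idem
      (K0.matEquiv_fromBlocks (stab_sum_equiv a b) (K0.matEquiv_refl c.idem)) ?_
    refine K0.matEquiv_trans (K0.fromBlocks_idem (K0.fromBlocks_idem a.idem b.idem) c.idem)
      (a.sum (b.sum c)).idem (stab_assoc a.mat b.mat c.mat a.idem b.idem c.idem) ?_
    refine K0.matEquiv_symm (K0.matEquiv_trans (a.sum (b.sum c)).idem
      (K0.fromBlocks_idem a.idem (K0.fromBlocks_idem b.idem c.idem))
      (stab_sum_equiv a (b.sum c)) ?_)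
    exact K0.matEquiv_fromBlocks (K0.matEquiv_refl a.idem) (stab_sum_equiv b c)
  zero_add a := by
    induction a using Quotient.inductionOn with
    | _ a =>
    apply Quotient.sound
    exact K0.matEquiv_trans (IdemMat.sum _ a).idem a.idem (stab_sum_equiv _ a)
      (stab_zero _ a.mat a.idem)
  add_zero a := by
    induction a using Quotient.inductionOn with
    | _ a =>
    apply Quotient.sound
    refine K0.matEquiv_trans (IdemMat.sum a _).idem a.idem (stab_sum_equiv a _) ?_
    exact K0.matEquiv_trans (K0.fromBlocks_idem a.idem (by simp)) a.idem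
      (stab_comm a.mat _ a.idem (by simp)) (stab_zero _ a.mat a.idem)
  add_comm a b := by
    induction a using Quotient.inductionOn with
    | _ a =>
    induction b using Quotient.inductionOn with
    | _ b =>
    apply Quotient.sound
    exact K0.matEquiv_trans (a.sum b).idem (b.sum a).idem (stab_sum_equiv a b)
      (K0.matEquiv_trans (K0.fromBlocks_idem a.idem b.idem) (b.sum a).idem
        (stab_comm a.mat b.mat a.idem b.idem) (K0.matEquiv_symm (stab_sum_equiv b a)))
  nsmul := nsmulRec

/-- The map to the Grothendieck group of the monoid of equivalence classes. -/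
private noncomputable def stabHom (R : Type u) [Ring R] :
    K0 R →+ Algebra.GrothendieckAddGroup (StabMon R) :=
  K0.lift (fun a => Algebra.GrothendieckAddGroup.of (stabMk a))
    (fun _ _ h => by rw [stabMk_eq h])
    (fun a b => by rw [stabMk_add, map_add])

private theorem stab_exists_sum {a b : IdemMat R} (h : K0.mk a = K0.mk b) :
    ∃ c : IdemMat R, MatEquiv (c.sum a).mat (c.sum b).mat := by
  have h1 : stabHom R (K0.mk a) = stabHom R (K0.mk b) := by rw [h]
  rw [stabHom, K0.lift_mk, K0.lift_mk] at h1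
  obtain ⟨⟨c, _⟩, hc⟩ := (AddLocalization.addMonoidOf (⊤ : AddSubmonoid (StabMon R))).eq_iff_exists.1
    h1
  obtain ⟨c', rfl⟩ := Quotient.exists_rep c
  exact ⟨c', Quotient.exact hc⟩

/-- Equality of classes in `K₀` means stable equivalence. -/
theorem exists_stab {m n : Type} [Fintype m] [DecidableEq m] [Fintype n] [DecidableEq n]
    (E : Matrix m m R) (F : Matrix n n R) (hE : E * E = E) (hF : F * F = F)
    (h : K0.cls E hE = K0.cls F hF) :
    ∃ k : ℕ, MatEquiv (fromBlocks E 0 0 (1 : Matrix (Fin k) (Fin k) R))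
      (fromBlocks F 0 0 (1 : Matrix (Fin k) (Fin k) R)) := by
  obtain ⟨c, hc⟩ := stab_exists_sum h
  have hc1 : MatEquiv (fromBlocks c.mat 0 0 E) (fromBlocks c.mat 0 0 F) := by
    refine K0.matEquiv_trans (K0.fromBlocks_idem c.idem hE) (K0.fromBlocks_idem c.idem hF)
      (K0.matEquiv_fromBlocks (K0.matEquiv_refl c.idem)
        (K0.matEquiv_symm (K0.toFin_equiv E hE))) ?_
    refine K0.matEquiv_trans (K0.fromBlocks_idem c.idem (K0.toFin E hE).idem)
      (K0.fromBlocks_idem c.idem hF) (K0.matEquiv_symm (stab_sum_equiv c (K0.toFin E hE))) ?_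
    refine K0.matEquiv_trans (c.sum (K0.toFin E hE)).idem (K0.fromBlocks_idem c.idem hF) hc ?_
    refine K0.matEquiv_trans (c.sum (K0.toFin F hF)).idem (K0.fromBlocks_idem c.idem hF)
      (stab_sum_equiv c (K0.toFin F hF)) ?_
    exact K0.matEquiv_fromBlocks (K0.matEquiv_refl c.idem) (K0.toFin_equiv F hF)
  have key : ∀ {l : Type} [Fintype l] [DecidableEq l] (G : Matrix l l R), G * G = G →
      MatEquiv (fromBlocks G 0 0 (1 : Matrix (Fin c.n) (Fin c.n) R))
        (fromBlocks (fromBlocks c.mat 0 0 G) 0 0 (1 - c.mat)) := by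
    intro l _ _ G hG
    have h1 : (fromBlocks (fromBlocks c.mat 0 0 G) 0 0 (1 - c.mat)) *
        (fromBlocks (fromBlocks c.mat 0 0 G) 0 0 (1 - c.mat)) =
        (fromBlocks (fromBlocks c.mat 0 0 G) 0 0 (1 - c.mat)) :=
      K0.fromBlocks_idem (K0.fromBlocks_idem c.idem hG) (sub_idem c.idem)
    refine K0.matEquiv_trans (K0.fromBlocks_idem hG one_idem) h1
      (K0.matEquiv_fromBlocks (K0.matEquiv_refl hG)
        (K0.matEquiv_symm (stab_compl c.mat c.idem))) ?_
    refine K0.matEquiv_trans
      (K0.fromBlocks_idem hG (K0.fromBlocks_idem c.idem (sub_idem c.idem))) h1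
      (K0.matEquiv_symm (stab_assoc G c.mat (1 - c.mat) hG c.idem (sub_idem c.idem))) ?_
    exact K0.matEquiv_fromBlocks (stab_comm G c.mat hG c.idem)
      (K0.matEquiv_refl (sub_idem c.idem))
  refine ⟨c.n, K0.matEquiv_trans (K0.fromBlocks_idem hE one_idem) (K0.fromBlocks_idem hF one_idem)
    (key E hE) (K0.matEquiv_trans
      (K0.fromBlocks_idem (K0.fromBlocks_idem c.idem hE) (sub_idem c.idem))
      (K0.fromBlocks_idem hF one_idem)
      (K0.matEquiv_fromBlocks hc1 (K0.matEquiv_refl (sub_idem c.idem)))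
      (K0.matEquiv_symm (key F hF)))⟩

end Pool.Agent.H95.KM

end

section

/-!
# Finite quotients and unimodular rows

## Paper proofs

`sr_fin` (stable range one of a finite commutative ring): some power `e = x^m`, `m ≥ 1`, is
idempotent (`B` is finite); put `t = 1 - e`. If `P` is a maximal ideal containing `x + t y`: if
`x ∉ P` then `e = x^m` is an idempotent not in `P`, so `t = 1 - e ∈ P` (`e (1 - e) = 0`) and `x ∈ P`,
contradiction; if `x ∈ P` then `e ∈ P`, `t ∉ P`, so `y ∈ P` and `1 = u x + v y ∈ P`, contradiction. So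
`x + t y` is a unit.
`sr_row`: put `y = ∑ vᵢ xᵢ` over `i ≥ 1` and apply `sr_fin` to `x 0`, `y`.
`fin_quot`: the norm `n(a)` (determinant of the multiplication by `a` on the free `ℤ`-module `A`) is
multiplicative and `n(1 + q z) ≡ 1` modulo `q`, so `n(a) n(a') ≡ 1` modulo `q ≥ 2` and `n(a) ≠ 0`. By
Cayley-Hamilton `n(a) ∈ a A`. So `A / a A` is a quotient of `A / n(a) A`, which is finite.
-/

set_option autoImplicit false

namespace Pool.Agent.H95.WH

private theorem finq_pow {B : Type*} [CommRing B] [Finite B] (x : B) :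
    ∃ m : ℕ, 0 < m ∧ x ^ m * x ^ m = x ^ m := by
  obtain ⟨i, j, hij, h⟩ := Finite.exists_ne_map_eq_of_infinite (fun n : ℕ => x ^ n)
  wlog hlt : i < j generalizing i j
  · exact this j i hij.symm h.symm (lt_of_le_of_ne (not_lt.1 hlt) hij.symm)
  obtain ⟨p, rfl⟩ := Nat.exists_eq_add_of_lt hlt
  have h : x ^ i = x ^ (i + p + 1) := h
  have h1 : ∀ k : ℕ, x ^ (i + k + (p + 1)) = x ^ (i + k) := by
    intro k
    have e : i + k + (p + 1) = (i + p + 1) + k := by omega
    rw [e, pow_add, ← h, ← pow_add]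
  have h2 : ∀ (c k : ℕ), x ^ (i + k + c * (p + 1)) = x ^ (i + k) := by
    intro c
    induction c with
    | zero => intro k; simp
    | succ c ih =>
      intro k
      have e : i + k + (c + 1) * (p + 1) = i + (k + c * (p + 1)) + (p + 1) := by ring
      rw [e, h1, ← ih k]
      congr 1
      omega
  refine ⟨(i + 1) * (p + 1), by positivity, ?_⟩
  rw [← pow_add]
  have e : (i + 1) * (p + 1) = i + (i * p + p + 1) := by ring
  have h3 := h2 (i + 1) (i * p + p + 1)
  rw [← e] at h3
  exact h3

theorem sr_fin {B : Type*} [CommRing B] [Finite B] (x y u v : B) (h : u * x + v * y = 1) :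
    ∃ t : B, IsUnit (x + t * y) := by
  obtain ⟨m, hm, he⟩ := finq_pow x
  refine ⟨1 - x ^ m, ?_⟩
  by_contra hu
  obtain ⟨P, hP, hmem⟩ := exists_max_ideal_of_mem_nonunits hu
  have hPp : P.IsPrime := hP.isPrime
  by_cases hx : x ∈ P
  · have hxm : x ^ m ∈ P := P.pow_mem_of_mem hx m hm
    have h1 : (1 - x ^ m) * y ∈ P := (Ideal.add_mem_iff_right P hx).1 hmem
    rcases hPp.mem_or_mem h1 with h2 | h2
    · apply hP.ne_top
      rw [Ideal.eq_top_iff_one]
      have := P.add_mem h2 hxm
      rwa [sub_add_cancel] at this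
    · apply hP.ne_top
      rw [Ideal.eq_top_iff_one, ← h]
      exact P.add_mem (P.mul_mem_left _ hx) (P.mul_mem_left _ h2)
  · have hxm : x ^ m ∉ P := fun h1 => hx (hPp.mem_of_pow_mem _ h1)
    have h1 : x ^ m * (1 - x ^ m) ∈ P := by
      rw [mul_sub, mul_one, he, sub_self]
      exact P.zero_mem
    have h2 : (1 - x ^ m) ∈ P := (hPp.mem_or_mem h1).resolve_left hxm
    have h3 : (1 - x ^ m) * y ∈ P := P.mul_mem_right _ h2
    exact hx ((Ideal.add_mem_iff_left P h3).1 hmem)

theorem sr_row {B : Type*} [CommRing B] [Finite B] {n : ℕ} (x v : Fin (n + 1) → B)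
    (h : ∑ i, v i * x i = 1) : ∃ t : Fin n → B, IsUnit (x 0 + ∑ i, t i * x i.succ) := by
  rw [Fin.sum_univ_succ] at h
  obtain ⟨t, ht⟩ := sr_fin (x 0) (∑ i : Fin n, v i.succ * x i.succ) (v 0) 1
    (by rw [one_mul]; exact h)
  refine ⟨fun i => t * v i.succ, ?_⟩
  have e : (∑ i : Fin n, t * v i.succ * x i.succ) = t * ∑ i : Fin n, v i.succ * x i.succ := by
    rw [Finset.mul_sum]
    exact Finset.sum_congr rfl fun i _ => mul_assoc _ _ _
  rw [e]
  exact ht

private theorem finq_aux {A : Type*} [CommRing A] [Module.Free ℤ A] [Module.Finite ℤ A] (a : A)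
    (ha : ∀ x : A, a * x = 0 → x = 0) : Finite (A ⧸ Ideal.span {a}) := by
  let f : A →ₗ[ℤ] A := LinearMap.mulLeft ℤ a
  have hf : Function.Injective f := by
    rw [injective_iff_map_eq_zero]
    intro x hx
    exact ha x hx
  have hr : LinearMap.range f = (Ideal.span {a}).restrictScalars ℤ := by
    ext x
    rw [LinearMap.mem_range, Submodule.restrictScalars_mem, Ideal.mem_span_singleton']
    constructor
    · rintro ⟨y, hy⟩
      exact ⟨y, by rw [mul_comm]; exact hy⟩
    · rintro ⟨y, hy⟩
      exact ⟨y, by rw [← hy, mul_comm]; rfl⟩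
  have h1 : Module.finrank ℤ (LinearMap.range f) = Module.finrank ℤ A :=
    (LinearEquiv.ofInjective f hf).finrank_eq.symm
  rw [hr] at h1
  have h2 := Submodule.finiteQuotientOfFreeOfRankEq ((Ideal.span {a}).restrictScalars ℤ) h1
  exact Finite.of_equiv _ (Submodule.Quotient.restrictScalarsEquiv ℤ (Ideal.span {a})).toEquiv

theorem fin_quot {A : Type*} [CommRing A] [Module.Free ℤ A] [Module.Finite ℤ A] (q : ℕ)
    (hq : 2 ≤ q) (a a' z : A) (h : a * a' = 1 + (q : A) * z) : Finite (A ⧸ Ideal.span {a}) := by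
  apply finq_aux
  intro x hx
  have h1 : x = (q : A) * (-z * x) := by
    have : (a * a') * x = 0 := by rw [mul_comm a a', mul_assoc, hx, mul_zero]
    rw [h] at this
    linear_combination this
  have h2 : ∀ k : ℕ, ∃ y : A, x = ((q : A) ^ k) * y := by
    intro k
    induction k with
    | zero => exact ⟨x, by simp⟩
    | succ k ih =>
      obtain ⟨y, hy⟩ := ih
      refine ⟨-z * y, ?_⟩
      calc x = (q : A) * (-z * x) := h1
        _ = (q : A) * (-z * ((q : A) ^ k * y)) := by rw [← hy]
        _ = (q : A) ^ (k + 1) * (-z * y) := by ring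
  let b := Module.Free.chooseBasis ℤ A
  apply b.repr.injective
  rw [map_zero]
  ext i
  rw [Finsupp.zero_apply]
  by_contra hne
  obtain ⟨y, hy⟩ := h2 (b.repr x i).natAbs
  have h3 : b.repr x i = (q : ℤ) ^ (b.repr x i).natAbs * b.repr y i := by
    conv_lhs => rw [hy]
    have e : ((q : A) ^ (b.repr x i).natAbs) * y = ((q : ℤ) ^ (b.repr x i).natAbs) • y := by
      rw [zsmul_eq_mul]
      push_cast
      rfl
    rw [e, map_smul, Finsupp.smul_apply, smul_eq_mul]
  have h4 : ((q : ℤ) ^ (b.repr x i).natAbs) ∣ b.repr x i := ⟨_, h3⟩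
  have h5 := Int.natAbs_dvd_natAbs.2 h4
  rw [Int.natAbs_pow, Int.natAbs_natCast] at h5
  have h6 := Nat.le_of_dvd (Int.natAbs_pos.2 hne) h5
  have h7 : (b.repr x i).natAbs < q ^ (b.repr x i).natAbs := Nat.lt_pow_self hq
  omega

theorem fin_quot_nat {A : Type*} [CommRing A] [Module.Free ℤ A] [Module.Finite ℤ A] (q : ℕ)
    (hq : q ≠ 0) : Finite (A ⧸ Ideal.span {(q : A)}) := by
  apply finq_aux
  intro x hx
  let b := Module.Free.chooseBasis ℤ A
  apply b.repr.injective
  rw [map_zero]
  ext i
  rw [Finsupp.zero_apply]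
  have e : ((q : A)) * x = (q : ℤ) • x := by
    rw [zsmul_eq_mul]
    push_cast
    rfl
  rw [e] at hx
  have h1 : b.repr ((q : ℤ) • x) i = 0 := by rw [hx, map_zero, Finsupp.zero_apply]
  rw [map_smul, Finsupp.smul_apply, smul_eq_mul] at h1
  rcases mul_eq_zero.1 h1 with h2 | h2
  · exact absurd (by exact_mod_cast h2) hq
  · exact h2

end Pool.Agent.H95.WH

end

section

/-!
# Mennicke symbols

For a commutative ring `A` and `a d - b c = 1` let `sl2 a b c d` be the matrix `!![a, b; c, d]`.
Main result `men_torsion`: if `a ∣ b^m - 1` then `m • [sl2 a b c d] = 0` in `K₁(A)`.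

## Paper proofs

(E) Elementary matrices have class zero (`cls_transvection`); products of matrices have the sum of
the classes. In particular the class of `w = !![0, 1; -1, 0] = e₁₂(1) e₂₁(-1) e₁₂(1)` is zero.
`men_row`: two matrices in `SL₂` with the same first row differ by a left factor `!![1, 0; x, 1]`.
`men_mul`: in `SL₃(A)` compute
`(sl2 a b₁ c₁ d₁ ⊕ 1) * (1 ⊕ (sl2 a b₂ c₂ d₂ * w)) = !![a, -b₁ b₂, b₁ a; c₁, -d₁ b₂, d₁ a; 0, -d₂, c₂]`.
Subtract `b₁` times column 1 from column 3 (using `a d₁ - b₁ c₁ = 1`):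
`!![a, -b₁ b₂, 0; c₁, -d₁ b₂, 1; 0, -d₂, c₂]`. Subtract `c₂` times row 2 from row 3:
`!![a, -b₁ b₂, 0; c₁, -d₁ b₂, 1; -c₁ c₂, -d₂ + c₂ d₁ b₂, 0]`. Subtract `c₁` times column 3 from
column 1 and add `d₁ b₂` times column 3 to column 2:
`!![a, -b₁ b₂, 0; 0, 0, 1; -c₁ c₂, -d₂ + c₂ d₁ b₂, 0]`. This is
`(1 ⊕ w) * !![a, -b₁ b₂, 0; c₁ c₂, d₂ - c₂ d₁ b₂, 0; 0, 0, 1]` (`w` as above). Hence the claim; the classes of
`X ⊕ 1` and `1 ⊕ X` are the class of `X` (`cls_stab`, `cls_reindex`).
`men_neg`: `men_mul` with `b₂ = 1`, `c₂ = -1`, `d₂ = 0` (`!![a, 1; -1, 0] = !![1, -a; 0, 1] * w⁻¹..` is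
a product of elementary matrices, class `0`), then `men_row`.
`men_pow`: induction on `m`: if `β` has first row `(a, b^m)` and class `m • [α]`, `men_mul` for `β`, `α`
gives a matrix with first row `(a, -b^{m+1})`; use `men_neg` and `men_row`. (`m = 0`: first row `(a, 1)`.)
`men_torsion`: `b^m = 1 + t a`; the matrix with first row `(a, b^m)` times `!![1, -t; 0, 1]` has first
row `(a, 1)`, so its class is `0`. Such a matrix exists: from `a d - b c = 1` the ideal `(a, b^m)` is
the unit ideal (`IsCoprime.pow_right`).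
-/

set_option autoImplicit false

open Matrix

universe u

namespace Pool.Agent.H95.WH

variable {A : Type u} [CommRing A]

/-- The matrix `!![a, b; c, d]` of determinant one. -/
def sl2 (a b c d : A) (h : a * d - b * c = 1) : (Matrix (Fin 2) (Fin 2) A)ˣ where
  val := !![a, b; c, d]
  inv := !![d, -b; -c, a]
  val_inv := by
    ext i j
    fin_cases i <;> fin_cases j <;> simp [Matrix.mul_apply, Fin.sum_univ_two] <;>
      first | ring1 | linear_combination h
  inv_val := by
    ext i j
    fin_cases i <;> fin_cases j <;> simp [Matrix.mul_apply, Fin.sum_univ_two] <;>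
      first | ring1 | linear_combination h

/-- The elementary matrix as a unit. -/
private def tvU {n : ℕ} (i j : Fin n) (hij : i ≠ j) (x : A) : (Matrix (Fin n) (Fin n) A)ˣ where
  val := transvection i j x
  inv := transvection i j (-x)
  val_inv := by rw [transvection_mul_transvection_same i j hij, add_neg_cancel, transvection_zero]
  inv_val := by rw [transvection_mul_transvection_same i j hij, neg_add_cancel, transvection_zero]

private theorem mk_tvU {n : ℕ} (i j : Fin n) (hij : i ≠ j) (x : A) :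
    K1.mk (tvU i j hij x) = 0 := by
  rw [← K1.cls_mk]
  exact K1.cls_transvection hij x _ rfl

private theorem tv10 (x : A) : (transvection 1 0 x : Matrix (Fin 2) (Fin 2) A) = !![1, 0; x, 1] := by
  ext i j
  fin_cases i <;> fin_cases j <;> simp [transvection, Matrix.single_apply]

private theorem tv01 (x : A) : (transvection 0 1 x : Matrix (Fin 2) (Fin 2) A) = !![1, x; 0, 1] := by
  ext i j
  fin_cases i <;> fin_cases j <;> simp [transvection, Matrix.single_apply]

private theorem tv02 (x : A) :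
    (transvection 0 2 x : Matrix (Fin 3) (Fin 3) A) = !![1, 0, x; 0, 1, 0; 0, 0, 1] := by
  ext i j
  fin_cases i <;> fin_cases j <;> simp [transvection, Matrix.single_apply]

private theorem tv20 (x : A) :
    (transvection 2 0 x : Matrix (Fin 3) (Fin 3) A) = !![1, 0, 0; 0, 1, 0; x, 0, 1] := by
  ext i j
  fin_cases i <;> fin_cases j <;> simp [transvection, Matrix.single_apply]

private theorem tv21 (x : A) :
    (transvection 2 1 x : Matrix (Fin 3) (Fin 3) A) = !![1, 0, 0; 0, 1, 0; 0, x, 1] := by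
  ext i j
  fin_cases i <;> fin_cases j <;> simp [transvection, Matrix.single_apply]

private theorem stab_val (a b c d : A) (h : a * d - b * c = 1) :
    (stab (sl2 a b c d h)).val = !![a, b, 0; c, d, 0; 0, 0, 1] := by
  ext i j
  fin_cases i <;> fin_cases j <;> rfl

theorem men_row (a b c d c' d' : A) (h : a * d - b * c = 1) (h' : a * d' - b * c' = 1) :
    K1.mk (sl2 a b c d h) = K1.mk (sl2 a b c' d' h') := by
  have e : sl2 a b c' d' h' = tvU 1 0 (by decide) (c' * d - d' * c) * sl2 a b c d h := by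
    apply Units.ext
    change !![a, b; c', d'] = transvection 1 0 (c' * d - d' * c) * !![a, b; c, d]
    rw [tv10, Matrix.mul_fin_two]
    ext i j
    fin_cases i <;> fin_cases j <;> simp
    · linear_combination (-c') * h + c * h'
    · linear_combination (-d') * h + d * h'
  rw [e, K1.mk_mul, mk_tvU, zero_add]

/-- the matrix `!![0, 1; -1, 0]` -/
private def wU : (Matrix (Fin 2) (Fin 2) A)ˣ := sl2 0 1 (-1) 0 (by ring)

private theorem mk_wU : K1.mk (wU : (Matrix (Fin 2) (Fin 2) A)ˣ) = 0 := by
  have e : (wU : (Matrix (Fin 2) (Fin 2) A)ˣ) =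
      tvU 0 1 (by decide) 1 * tvU 1 0 (by decide) (-1) * tvU 0 1 (by decide) 1 := by
    apply Units.ext
    change !![0, 1; -1, 0] = transvection 0 1 1 * transvection 1 0 (-1) * transvection 0 1 1
    rw [tv01, tv10, Matrix.mul_fin_two, Matrix.mul_fin_two]
    ext i j
    fin_cases i <;> fin_cases j <;> simp
  rw [e, K1.mk_mul, K1.mk_mul]
  simp only [mk_tvU, add_zero]

/-- the cyclic permutation matrix -/
private def cycU : (Matrix (Fin 3) (Fin 3) A)ˣ where
  val := !![0, 0, 1; 1, 0, 0; 0, 1, 0]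
  inv := !![0, 1, 0; 0, 0, 1; 1, 0, 0]
  val_inv := by
    rw [Matrix.mul_fin_three]
    ext i j
    fin_cases i <;> fin_cases j <;> simp
  inv_val := by
    rw [Matrix.mul_fin_three]
    ext i j
    fin_cases i <;> fin_cases j <;> simp

/-- the matrix `1 ⊕ !![a, b; c, d]` -/
private def shU (a b c d : A) (h : a * d - b * c = 1) : (Matrix (Fin 3) (Fin 3) A)ˣ :=
  cycU * stab (sl2 a b c d h) * cycU⁻¹

private theorem shU_val (a b c d : A) (h : a * d - b * c = 1) :
    (shU a b c d h).val = !![1, 0, 0; 0, a, b; 0, c, d] := by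
  change cycU.val * (stab (sl2 a b c d h)).val * (cycU⁻¹).val = _
  rw [stab_val]
  change !![0, 0, 1; 1, 0, 0; 0, 1, 0] * !![a, b, 0; c, d, 0; 0, 0, 1] *
    !![0, 1, 0; 0, 0, 1; 1, 0, 0] = _
  rw [Matrix.mul_fin_three, Matrix.mul_fin_three]
  ext i j
  fin_cases i <;> fin_cases j <;> simp

private theorem mk_inv {n : ℕ} (U : (Matrix (Fin n) (Fin n) A)ˣ) : K1.mk U⁻¹ = - K1.mk U := by
  rw [← K1.cls_mk, ← K1.cls_mk, K1.cls_inv]

private theorem mk_shU (a b c d : A) (h : a * d - b * c = 1) :
    K1.mk (shU a b c d h) = K1.mk (sl2 a b c d h) := by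
  rw [shU, K1.mk_mul, K1.mk_mul, K1.mk_stab, mk_inv]
  abel

theorem men_mul (a b₁ c₁ d₁ b₂ c₂ d₂ : A) (h₁ : a * d₁ - b₁ * c₁ = 1) (h₂ : a * d₂ - b₂ * c₂ = 1)
    (h₃ : a * (d₂ - c₂ * d₁ * b₂) - (-(b₁ * b₂)) * (c₁ * c₂) = 1) :
    K1.mk (sl2 a (-(b₁ * b₂)) (c₁ * c₂) (d₂ - c₂ * d₁ * b₂) h₃) =
      K1.mk (sl2 a b₁ c₁ d₁ h₁) + K1.mk (sl2 a b₂ c₂ d₂ h₂) := by
  have hw : (0 : A) * 0 - 1 * (-1) = 1 := by ring
  have hprod : (-b₂) * c₂ - a * (-d₂) = 1 := by linear_combination h₂
  have e1 : tvU 2 1 (by decide) (-c₂) * (stab (sl2 a b₁ c₁ d₁ h₁) * shU (-b₂) a (-d₂) c₂ hprod) *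
      tvU 0 2 (by decide) (-b₁) * tvU 2 0 (by decide) (-c₁) * tvU 2 1 (by decide) (d₁ * b₂) =
      shU 0 1 (-1) 0 hw * stab (sl2 a (-(b₁ * b₂)) (c₁ * c₂) (d₂ - c₂ * d₁ * b₂) h₃) := by
    apply Units.ext
    change transvection 2 1 (-c₂) * ((stab (sl2 a b₁ c₁ d₁ h₁)).val *
      (shU (-b₂) a (-d₂) c₂ hprod).val) * transvection 0 2 (-b₁) * transvection 2 0 (-c₁) *
      transvection 2 1 (d₁ * b₂) = (shU 0 1 (-1) 0 hw).val *
        (stab (sl2 a (-(b₁ * b₂)) (c₁ * c₂) (d₂ - c₂ * d₁ * b₂) h₃)).val
    rw [stab_val, stab_val, shU_val, shU_val, tv21, tv02, tv20, tv21]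
    rw [Matrix.mul_fin_three, Matrix.mul_fin_three, Matrix.mul_fin_three, Matrix.mul_fin_three,
      Matrix.mul_fin_three, Matrix.mul_fin_three]
    ext i j
    fin_cases i <;> fin_cases j <;> simp
    · ring
    · ring
    · ring
    · linear_combination (-c₁) * h₁
    · linear_combination (d₁ * b₂) * h₁
    · linear_combination h₁
    · linear_combination (c₁ * c₂) * h₁
    · linear_combination (-(c₂ * d₁ * b₂)) * h₁
    · linear_combination (-c₂) * h₁
  have e2 : sl2 (-b₂) a (-d₂) c₂ hprod = sl2 a b₂ c₂ d₂ h₂ * wU := by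
    apply Units.ext
    change !![-b₂, a; -d₂, c₂] = !![a, b₂; c₂, d₂] * !![0, 1; -1, 0]
    rw [Matrix.mul_fin_two]
    ext i j
    fin_cases i <;> fin_cases j <;> simp
  have e3 : K1.mk (sl2 (-b₂) a (-d₂) c₂ hprod) = K1.mk (sl2 a b₂ c₂ d₂ h₂) := by
    rw [e2, K1.mk_mul, mk_wU, add_zero]
  have e4 : K1.mk (sl2 (0 : A) 1 (-1) 0 hw) = 0 := mk_wU
  have e5 := congrArg K1.mk e1
  rw [K1.mk_mul, K1.mk_mul, K1.mk_mul, K1.mk_mul, K1.mk_mul, K1.mk_mul, K1.mk_stab, K1.mk_stab,
    mk_shU, mk_shU, mk_tvU, mk_tvU, mk_tvU, mk_tvU, e3, e4] at e5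
  simpa using e5.symm

theorem men_neg (a b c d : A) (h : a * d - b * c = 1) (h' : a * d - (-b) * (-c) = 1) :
    K1.mk (sl2 a (-b) (-c) d h') = K1.mk (sl2 a b c d h) := by
  have h2 : a * 0 - 1 * (-1) = (1 : A) := by ring
  have h3 : a * (0 - (-1) * d * 1) - (-(b * 1)) * (c * (-1)) = 1 := by linear_combination h'
  have e := men_mul a b c d 1 (-1) 0 h h2 h3
  have e0 : K1.mk (sl2 a 1 (-1) 0 h2) = 0 := by
    have e1 : sl2 a 1 (-1) 0 h2 = tvU 0 1 (by decide) (-a) * wU := by
      apply Units.ext
      change !![a, 1; -1, 0] = transvection 0 1 (-a) * !![0, 1; -1, 0]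
      rw [tv01, Matrix.mul_fin_two]
      ext i j
      fin_cases i <;> fin_cases j <;> simp
    rw [e1, K1.mk_mul, mk_tvU, mk_wU, add_zero]
  rw [e0, add_zero] at e
  rw [← e]
  congr 1
  apply Units.ext
  change !![a, -b; -c, d] = !![a, -(b * 1); c * (-1), 0 - (-1) * d * 1]
  ext i j
  fin_cases i <;> fin_cases j <;> simp

theorem men_pow (a b c d : A) (h : a * d - b * c = 1) (m : ℕ) (c' d' : A)
    (h' : a * d' - b ^ m * c' = 1) :
    K1.mk (sl2 a (b ^ m) c' d' h') = m • K1.mk (sl2 a b c d h) := by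
  induction m generalizing c' d' with
  | zero =>
    rw [zero_smul]
    have h2 : a * 0 - 1 * (-1) = (1 : A) := by ring
    have h2' : a * 0 - b ^ 0 * (-1) = (1 : A) := by ring
    rw [men_row a (b ^ 0) c' d' (-1) 0 h' h2']
    have e1 : sl2 a (b ^ 0) (-1) 0 h2' = tvU 0 1 (by decide) (-a) * wU := by
      apply Units.ext
      change !![a, b ^ 0; -1, 0] = transvection 0 1 (-a) * !![0, 1; -1, 0]
      rw [tv01, Matrix.mul_fin_two]
      ext i j
      fin_cases i <;> fin_cases j <;> simp
    rw [e1, K1.mk_mul, mk_tvU, mk_wU, add_zero]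
  | succ m ih =>
    -- a matrix with first row `(a, b^m)`
    have hco : IsCoprime a (b ^ m) := by
      have : IsCoprime a b := ⟨d, -c, by linear_combination h⟩
      exact this.pow_right
    obtain ⟨x, y, hxy⟩ := hco
    have h1 : a * x - b ^ m * (-y) = 1 := by linear_combination hxy
    have e1 := ih (-y) x h1
    have h3 : a * (d - c * x * b) - (-(b ^ m * b)) * ((-y) * c) = 1 := by
      linear_combination h - b * c * hxy
    have e2 := men_mul a (b ^ m) (-y) x b c d h1 h h3
    have h4 : a * (d - c * x * b) - (b ^ m * b) * (-((-y) * c)) = 1 := by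
      linear_combination h3
    have h5 : a * (d - c * x * b) - (-(b ^ m * b)) * (-(-((-y) * c))) = 1 := by
      linear_combination h3
    have e3 := men_neg a (b ^ m * b) (-((-y) * c)) (d - c * x * b) h4 h5
    have e4 : K1.mk (sl2 a (-(b ^ m * b)) (-(-((-y) * c))) (d - c * x * b) h5) =
        K1.mk (sl2 a (-(b ^ m * b)) ((-y) * c) (d - c * x * b) h3) :=
      men_row _ _ _ _ _ _ _ _
    have h6 : a * (d - c * x * b) - (b ^ (m + 1)) * (-((-y) * c)) = 1 := by
      rw [pow_succ]; exact h4
    have e5 : K1.mk (sl2 a (b ^ (m + 1)) (-((-y) * c)) (d - c * x * b) h6) =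
        K1.mk (sl2 a (b ^ m * b) (-((-y) * c)) (d - c * x * b) h4) := by
      congr 1
      apply Units.ext
      change !![a, b ^ (m + 1); -((-y) * c), d - c * x * b] =
        !![a, b ^ m * b; -((-y) * c), d - c * x * b]
      rw [pow_succ]
    rw [men_row a (b ^ (m + 1)) c' d' (-((-y) * c)) (d - c * x * b) h' h6, e5, ← e3, e4, e2, e1,
      succ_nsmul]

theorem men_torsion (a b c d : A) (h : a * d - b * c = 1) (m : ℕ) (hm : a ∣ b ^ m - 1) :
    m • K1.mk (sl2 a b c d h) = 0 := by
  obtain ⟨t, ht⟩ := hm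
  have hco : IsCoprime a (b ^ m) := by
    have : IsCoprime a b := ⟨d, -c, by linear_combination h⟩
    exact this.pow_right
  obtain ⟨x, y, hxy⟩ := hco
  have h1 : a * x - b ^ m * (-y) = 1 := by linear_combination hxy
  rw [← men_pow a b c d h m (-y) x h1]
  have hb : b ^ m = 1 + a * t := by linear_combination ht
  -- multiply by `!![1, -t; 0, 1]`
  have h2 : a * (x + t * y) - 1 * (-y) = 1 := by
    linear_combination hxy - y * hb
  have e1 : sl2 a 1 (-y) (x + t * y) h2 =
      sl2 a (b ^ m) (-y) x h1 * tvU 0 1 (by decide) (-t) := by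
    apply Units.ext
    change !![a, 1; -y, x + t * y] = !![a, b ^ m; -y, x] * transvection 0 1 (-t)
    rw [tv01, Matrix.mul_fin_two, hb]
    ext i j
    fin_cases i <;> fin_cases j <;> simp <;> ring
  have e2 := congrArg K1.mk e1
  rw [K1.mk_mul, mk_tvU, add_zero] at e2
  rw [← e2]
  have h3 : a * 0 - 1 * (-1) = (1 : A) := by ring
  rw [men_row a 1 (-y) (x + t * y) (-1) 0 h2 h3]
  have e3 : sl2 a 1 (-1) 0 h3 = tvU 0 1 (by decide) (-a) * wU := by
    apply Units.ext
    change !![a, 1; -1, 0] = transvection 0 1 (-a) * !![0, 1; -1, 0]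
    rw [tv01, Matrix.mul_fin_two]
    ext i j
    fin_cases i <;> fin_cases j <;> simp
  rw [e3, K1.mk_mul, mk_tvU, mk_wU, add_zero]

end Pool.Agent.H95.WH

end

section

/-!
# `SK₁` is a torsion group

Let `A` be a commutative ring that is free and finitely generated as a `ℤ`-module (for example
`ℤ[C]`, `C` finite commutative). Then for every invertible matrix `U` over `A` there is an `m > 0`
with `m • [U] = m • [det U]` in `K₁(A)`.

## Paper proof

Induction on the size `n`. `n = 0`: `U = 1`. `n = 1`: `U` is the matrix of `det U`. Elementary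
operations (multiplication by transvections on either side) change neither the class nor the
determinant. Let `n ≥ 2` and let `(a₁, …, aₙ)` be the first row of `U`. It is unimodular
(`∑ aᵢ (U⁻¹)ᵢ₁ = 1`). Apply `sr_row` to its image in the finite ring `A/3A` (`fin_quot_nat`): after adding
multiples of the other columns to the first one, `a₁` is a unit modulo `3`, i.e. `a₁ a' = 1 + 3 z`. So
`A/a₁A` is finite (`fin_quot`).

`n = 2`: `U = diag(1, δ) * U'` with `δ = det U`, `U' ∈ SL₂(A)` with the same first row `(a₁, a₂)`; `a₂` is a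
unit modulo `a₁` so `a₁ ∣ a₂^m - 1` for some `m ≥ 1`, and `m • [U'] = 0` by `men_torsion`. So
`m • [U] = m • [δ]`.

`n ≥ 3`: the image of `(a₂, …, aₙ)` in the finite ring `A/a₁A` is unimodular; by `sr_row` we may add
multiples of the columns `3, …, n` to column `2` and achieve that `a₂` is a unit modulo `a₁`, i.e.
`x a₁ + y a₂ = 1`. Add `(1 - a₃) x` times column 1 and `(1 - a₃) y` times column 2 to column 3: now
`a₃ = 1`. Subtract multiples of column 3 from the other columns: the first row is `(0, 0, 1, 0, …, 0)`.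
Add column 3 to column 1 and subtract column 1 from column 3: the first row is `(1, 0, …, 0)`.
Now `U` is, up to reindexing `Fin n ≃ Fin 1 ⊕ Fin (n-1)`, the block matrix `fromBlocks 1 0 B V` and
`[U] = [V]` (`K1.cls_lower`), `det U = det V`. Apply the induction hypothesis to `V`.
-/

set_option autoImplicit false

open Matrix

universe u

namespace Pool.Agent.H95.WH

variable {A : Type u} [CommRing A]

/-- The determinant of an invertible matrix as a unit. -/
noncomputable def detU {ι : Type*} [Fintype ι] [DecidableEq ι] : (Matrix ι ι A)ˣ →* Aˣ :=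
  Units.map (Matrix.detMonoidHom : Matrix ι ι A →* A)

theorem detU_val {ι : Type*} [Fintype ι] [DecidableEq ι] (U : (Matrix ι ι A)ˣ) :
    (detU U : A) = (U : Matrix ι ι A).det := rfl

theorem red_unip {ι : Type*} [Fintype ι] [DecidableEq ι] (p : ι → Prop) [DecidablePred p]
    (M : Matrix ι ι A) (hM : ∀ i j, ¬ (p i ∧ ¬ p j) → M i j = 0) :
    ∃ E : (Matrix ι ι A)ˣ, E.val = 1 + M ∧ K1.cls E = 0 ∧ detU E = 1 := by
  let e : {i // p i} ⊕ {i // ¬ p i} ≃ ι := Equiv.sumCompl p
  let X : Matrix {i // p i} {i // ¬ p i} A := Matrix.of fun i j => M i.1 j.1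
  let F : (Matrix ({i // p i} ⊕ {i // ¬ p i}) ({i // p i} ⊕ {i // ¬ p i}) A)ˣ :=
    { val := Matrix.fromBlocks 1 X 0 1
      inv := Matrix.fromBlocks 1 (-X) 0 1
      val_inv := by
        rw [Matrix.fromBlocks_multiply]
        simp
      inv_val := by
        rw [Matrix.fromBlocks_multiply]
        simp }
  have hF : F.val = (1 + M).submatrix e e := by
    refine Matrix.ext fun i j => ?_
    rcases i with i | i <;> rcases j with j | j
    · have h0 : M i.1 j.1 = 0 := hM _ _ (fun h => h.2 j.2)
      change (1 : Matrix _ _ A) i j = (1 + M) i.1 j.1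
      rw [Matrix.add_apply, h0, add_zero, Matrix.one_apply, Matrix.one_apply]
      simp only [Subtype.ext_iff]
    · change M i.1 j.1 = (1 + M) i.1 j.1
      rw [Matrix.add_apply, Matrix.one_apply_ne, zero_add]
      intro h
      exact j.2 (h ▸ i.2)
    · have h0 : M i.1 j.1 = 0 := hM _ _ (fun h => i.2 h.1)
      change (0 : A) = (1 + M) i.1 j.1
      rw [Matrix.add_apply, h0, add_zero, Matrix.one_apply_ne]
      intro h
      exact i.2 (h ▸ j.2)
    · have h0 : M i.1 j.1 = 0 := hM _ _ (fun h => i.2 h.1)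
      change (1 : Matrix _ _ A) i j = (1 + M) i.1 j.1
      rw [Matrix.add_apply, h0, add_zero, Matrix.one_apply, Matrix.one_apply]
      simp only [Subtype.ext_iff]
  refine ⟨reU e F, ?_, ?_, ?_⟩
  · rw [reU_val, hF, Matrix.submatrix_submatrix]
    simp
  · rw [K1.cls_reindex]
    exact K1.cls_unip X F rfl
  · apply Units.ext
    rw [detU_val, reU_val, Matrix.det_submatrix_equiv_self]
    change (Matrix.fromBlocks 1 X 0 1).det = 1
    rw [Matrix.det_fromBlocks_zero₂₁, Matrix.det_one, Matrix.det_one, one_mul]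

/-- Column operations. -/
theorem red_op {ι : Type*} [Fintype ι] [DecidableEq ι] (U : (Matrix ι ι A)ˣ) (p : ι → Prop)
    [DecidablePred p] (M : ι → ι → A) (hM : ∀ i j, ¬ (p i ∧ ¬ p j) → M i j = 0) :
    ∃ V : (Matrix ι ι A)ˣ, K1.cls V = K1.cls U ∧ detU V = detU U ∧
      ∀ i j, V.val i j = U.val i j + ∑ k, U.val i k * M k j := by
  obtain ⟨E, h1, h2, h3⟩ := red_unip p (Matrix.of M) hM
  refine ⟨U * E, ?_, ?_, ?_⟩
  · rw [K1.cls_mul, h2, add_zero]
  · rw [map_mul, h3, mul_one]
  · intro i j
    rw [Units.val_mul, h1, mul_add, mul_one, Matrix.add_apply, Matrix.mul_apply]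
    rfl

theorem red_row {ι : Type*} [Fintype ι] [DecidableEq ι] (U : (Matrix ι ι A)ˣ) (i : ι) :
    ∑ j, U.inv j i * U.val i j = 1 := by
  have h := congrFun (congrFun U.val_inv i) i
  rw [Matrix.mul_apply, Matrix.one_apply_eq] at h
  rw [← h]
  exact Finset.sum_congr rfl fun j _ => mul_comm _ _

theorem red_fin1 [Module.Free ℤ A] [Module.Finite ℤ A] {n : ℕ}
    (U : (Matrix (Fin (n + 1)) (Fin (n + 1)) A)ˣ) :
    ∃ V : (Matrix (Fin (n + 1)) (Fin (n + 1)) A)ˣ, K1.cls V = K1.cls U ∧ detU V = detU U ∧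
      Finite (A ⧸ Ideal.span {V.val 0 0}) := by
  have := fin_quot_nat (A := A) 3 (by norm_num)
  let π := Ideal.Quotient.mk (Ideal.span {((3 : ℕ) : A)})
  obtain ⟨t, ht⟩ := sr_row (fun j => π (U.val 0 j)) (fun j => π (U.inv j 0)) (by
    rw [← map_one π, ← red_row U 0, map_sum]
    exact Finset.sum_congr rfl fun j _ => (map_mul π _ _).symm)
  choose s hs using fun i => Ideal.Quotient.mk_surjective (t i)
  obtain ⟨V, hV1, hV2, hV3⟩ := red_op U (fun j => j ≠ 0)
    (fun i j => if j = 0 then (Fin.cases 0 s i : A) else 0) (by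
      intro i j h
      by_cases hj : j = 0
      · have hi : i = 0 := by
          by_contra hi
          exact h ⟨hi, fun h' => h' hj⟩
        simp [hi]
      · simp [hj])
  refine ⟨V, hV1, hV2, ?_⟩
  have h1 : V.val 0 0 = U.val 0 0 + ∑ i, s i * U.val 0 i.succ := by
    rw [hV3, Fin.sum_univ_succ]
    simp [mul_comm]
  have h2 : IsUnit (π (V.val 0 0)) := by
    rw [h1, map_add, map_sum]
    convert ht using 4 with i
    rw [map_mul, ← hs]
  obtain ⟨b, hb⟩ := h2.exists_right_inv
  obtain ⟨b, rfl⟩ := Ideal.Quotient.mk_surjective b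
  rw [← map_mul, ← map_one π, Ideal.Quotient.eq, Ideal.mem_span_singleton] at hb
  obtain ⟨z, hz⟩ := hb
  exact fin_quot 3 (by norm_num) (V.val 0 0) b z (by rw [← hz]; ring)

/-- The corner. -/
theorem red_corner {n : ℕ} (U : (Matrix (Fin (n + 1)) (Fin (n + 1)) A)ˣ) (h0 : U.val 0 0 = 1)
    (h1 : ∀ j : Fin n, U.val 0 j.succ = 0) :
    ∃ V : (Matrix (Fin n) (Fin n) A)ˣ, K1.mk U = K1.mk V ∧ detU U = detU V := by
  let W : Matrix (Fin n) (Fin n) A := U.val.submatrix Fin.succ Fin.succ
  have hdet : U.val.det = W.det := by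
    rw [Matrix.det_succ_row_zero, Fin.sum_univ_succ]
    simp [h0, h1, W]
  have hW : IsUnit W := by
    rw [Matrix.isUnit_iff_isUnit_det, ← hdet, ← Matrix.isUnit_iff_isUnit_det]
    exact U.isUnit
  obtain ⟨V, hV⟩ := hW
  let e : Fin 1 ⊕ Fin n ≃ Fin (n + 1) :=
    { toFun := Sum.elim (fun _ => 0) Fin.succ
      invFun := Fin.cases (Sum.inl 0) Sum.inr
      left_inv := by
        rintro (i | i)
        · simp [Subsingleton.elim i 0]
        · simp
      right_inv := by
        intro i
        refine Fin.cases ?_ (fun i => ?_) i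
        · simp
        · simp }
  refine ⟨V, ?_, ?_⟩
  · rw [← K1.cls_mk, ← K1.cls_mk, ← K1.cls_reindex e.symm U]
    have h := K1.cls_lower (1 : (Matrix (Fin 1) (Fin 1) A)ˣ) V
      (Matrix.of fun (i : Fin n) (_ : Fin 1) => U.val i.succ 0) (reU e.symm U) (by
        rw [reU_val]
        refine Matrix.ext fun i j => ?_
        rcases i with i | i <;> rcases j with j | j
        · change U.val 0 0 = (1 : Matrix (Fin 1) (Fin 1) A) i j
          rw [h0, Subsingleton.elim i j, Matrix.one_apply_eq]
        · change U.val 0 j.succ = 0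
          exact h1 j
        · rfl
        · change U.val i.succ j.succ = V.val i j
          rw [hV]
          rfl)
    rw [h, K1.cls_one, zero_add]
  · apply Units.ext
    rw [detU_val, detU_val, hV, hdet]

/-- Reduction when one entry of the first row is one. -/
theorem red_one {n : ℕ} (U : (Matrix (Fin (n + 1)) (Fin (n + 1)) A)ˣ) (j : Fin (n + 1))
    (hj : j ≠ 0) (h : U.val 0 j = 1) :
    ∃ V : (Matrix (Fin n) (Fin n) A)ˣ, K1.mk U = K1.mk V ∧ detU U = detU V := by
  obtain ⟨V, hV1, hV2, hV3⟩ := red_op U (fun i => i = j)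
    (fun i k => if i = j ∧ k = 0 then 1 - U.val 0 0 else 0) (by
      intro i k h'
      rw [if_neg]
      rintro ⟨rfl, rfl⟩
      exact h' ⟨rfl, hj.symm⟩)
  have hV0 : V.val 0 0 = 1 := by
    rw [hV3, Finset.sum_eq_single j]
    · simp [h]
    · intro k _ hk
      simp [hk]
    · intro hk
      exact absurd (Finset.mem_univ _) hk
  obtain ⟨W, hW1, hW2, hW3⟩ := red_op V (fun i => i = 0)
    (fun i k => if i = 0 ∧ k ≠ 0 then - V.val 0 k else 0) (by
      intro i k h'
      rw [if_neg]
      exact h')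
  have hWk : ∀ k, W.val 0 k = V.val 0 k + (if k ≠ 0 then - V.val 0 k else 0) := by
    intro k
    rw [hW3, Finset.sum_eq_single 0]
    · rw [hV0]
      simp
    · intro i _ hi
      simp [hi]
    · intro hk
      exact absurd (Finset.mem_univ _) hk
  obtain ⟨Z, hZ1, hZ2⟩ := red_corner W (by rw [hWk]; simp [hV0])
    (fun k => by rw [hWk]; simp [Fin.succ_ne_zero])
  refine ⟨Z, ?_, ?_⟩
  · rw [← hZ1, ← K1.cls_mk, ← K1.cls_mk, hW1, hV1]
  · rw [← hZ2, hW2, hV2]

/-- The case of `SL₂`, `a` with finite quotient. -/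
theorem red_two [Module.Free ℤ A] [Module.Finite ℤ A] (U : (Matrix (Fin 2) (Fin 2) A)ˣ) :
    ∃ m : ℕ, 0 < m ∧ m • K1.mk U = m • K1.unit (detU U) := by
  obtain ⟨V, hV1, hV2, hV3⟩ := red_fin1 U
  rw [← K1.cls_mk, ← hV1, ← hV2]
  clear hV1 hV2 U
  let δ := detU V
  have hδ : V.val 0 0 * V.val 1 1 - V.val 0 1 * V.val 1 0 = δ := by
    rw [← Matrix.det_fin_two]
    rfl
  have hδ' : (δ : A) * ((δ⁻¹ : Aˣ) : A) = 1 := Units.mul_inv δ
  have hS : V.val 0 0 * ((δ⁻¹ : Aˣ) * V.val 1 1) - V.val 0 1 * ((δ⁻¹ : Aˣ) * V.val 1 0) = 1 := by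
    rw [← hδ', ← hδ]
    ring
  let D : (Matrix (Fin 2) (Fin 2) A)ˣ :=
    { val := Matrix.diagonal fun i => ((![1, δ] i : Aˣ) : A)
      inv := Matrix.diagonal fun i => (((![1, δ] i)⁻¹ : Aˣ) : A)
      val_inv := by
        rw [Matrix.diagonal_mul_diagonal]
        simp
      inv_val := by
        rw [Matrix.diagonal_mul_diagonal]
        simp }
  have hD : K1.cls D = K1.unit δ := by
    rw [K1.cls_diagonal ![1, δ] D rfl, Fin.sum_univ_two]
    have h1 : K1.unit (1 : Aˣ) = 0 := by
      have h := K1.unit_mul (1 : Aˣ) 1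
      rw [one_mul] at h
      exact left_eq_add.1 h
    change K1.unit 1 + K1.unit δ = _
    rw [h1, zero_add]
  have hVD : V = D * sl2 _ _ _ _ hS := by
    apply Units.ext
    rw [Units.val_mul]
    change V.val = Matrix.diagonal _ * !![_, _; _, _]
    refine Matrix.ext fun i j => ?_
    rw [Matrix.diagonal_mul]
    fin_cases i <;> fin_cases j
    · simp
    · simp
    · simp
    · simp
  have hb : ∃ m : ℕ, 0 < m ∧ V.val 0 0 ∣ V.val 0 1 ^ m - 1 := by
    let π := Ideal.Quotient.mk (Ideal.span {V.val 0 0})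
    have hu : π (V.val 0 1) * π (-((δ⁻¹ : Aˣ) * V.val 1 0)) = 1 := by
      rw [← map_mul, ← map_one π, Ideal.Quotient.eq, Ideal.mem_span_singleton]
      exact ⟨-((δ⁻¹ : Aˣ) * V.val 1 1), by linear_combination hS⟩
    let u : (A ⧸ Ideal.span {V.val 0 0})ˣ := Units.mkOfMulEqOne _ _ hu
    refine ⟨Nat.card (A ⧸ Ideal.span {V.val 0 0})ˣ, Nat.card_pos, ?_⟩
    have h1 : u ^ Nat.card (A ⧸ Ideal.span {V.val 0 0})ˣ = 1 := pow_card_eq_one'
    have h2 := congrArg Units.val h1
    rw [Units.val_pow_eq_pow_val, Units.val_one] at h2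
    change π (V.val 0 1) ^ _ = 1 at h2
    rw [← map_pow, ← map_one π, Ideal.Quotient.eq, Ideal.mem_span_singleton] at h2
    exact h2
  obtain ⟨m, hm, hdvd⟩ := hb
  refine ⟨m, hm, ?_⟩
  have h3 := men_torsion _ _ _ _ hS m hdvd
  have h4 : K1.cls V = K1.unit δ + K1.mk (sl2 _ _ _ _ hS) := by
    rw [← hD, ← K1.cls_mk, ← K1.cls_mul, ← hVD]
  rw [h4, smul_add, h3, add_zero]

/-- Reduction of the size. -/
theorem red_succ [Module.Free ℤ A] [Module.Finite ℤ A] {n : ℕ}
    (U : (Matrix (Fin (n + 3)) (Fin (n + 3)) A)ˣ) :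
    ∃ V : (Matrix (Fin (n + 2)) (Fin (n + 2)) A)ˣ, K1.mk U = K1.mk V ∧ detU U = detU V := by
  obtain ⟨V, hV1, hV2, hV3⟩ := red_fin1 U
  let π := Ideal.Quotient.mk (Ideal.span {V.val 0 0})
  have hπ : π (V.val 0 0) = 0 :=
    Ideal.Quotient.eq_zero_iff_mem.2 (Ideal.mem_span_singleton_self _)
  obtain ⟨t, ht⟩ := sr_row (fun j : Fin (n + 2) => π (V.val 0 j.succ))
    (fun j => π (V.inv j.succ 0)) (by
    have h := red_row V 0
    rw [Fin.sum_univ_succ] at h
    rw [← map_one π, ← h, map_add, map_mul, hπ, mul_zero, zero_add, map_sum]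
    exact Finset.sum_congr rfl fun j _ => (map_mul π _ _).symm)
  choose s hs using fun i => Ideal.Quotient.mk_surjective (t i)
  obtain ⟨W, hW1, hW2, hW3⟩ := red_op V (fun j => j ≠ 1)
    (fun i j => if j = 1 then (Fin.cases 0 (Fin.cases 0 s) i : A) else 0) (by
      intro i j h
      by_cases hj : j = 1
      · have hi : i = 1 := by
          by_contra hi
          exact h ⟨hi, fun h' => h' hj⟩
        rw [if_pos hj, hi]
        rfl
      · rw [if_neg hj])
  have h0 : W.val 0 0 = V.val 0 0 := by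
    rw [hW3]
    simp
  have h1 : W.val 0 1 = V.val 0 1 + ∑ i, s i * V.val 0 i.succ.succ := by
    have e1 : ∑ i, s i * V.val 0 i.succ.succ =
        V.val 0 0 * 0 + (V.val 0 (Fin.succ 0) * 0 + ∑ i, V.val 0 i.succ.succ * s i) := by
      rw [mul_zero, mul_zero, zero_add, zero_add]
      exact Finset.sum_congr rfl fun i _ => mul_comm _ _
    rw [hW3, Fin.sum_univ_succ, Fin.sum_univ_succ, e1]
    rfl
  have h2 : IsUnit (π (W.val 0 1)) := by
    have e : π (W.val 0 1) =
        π (V.val 0 (Fin.succ 0)) + ∑ i, t i * π (V.val 0 i.succ.succ) := by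
      rw [h1, map_add, map_sum]
      refine congrArg₂ (· + ·) rfl (Finset.sum_congr rfl fun i _ => ?_)
      rw [map_mul, ← hs]
    rw [e]
    exact ht
  obtain ⟨b, hb⟩ := h2.exists_right_inv
  obtain ⟨b, rfl⟩ := Ideal.Quotient.mk_surjective b
  rw [← map_mul, ← map_one π, Ideal.Quotient.eq, Ideal.mem_span_singleton] at hb
  obtain ⟨z, hz⟩ := hb
  rw [← h0] at hz
  obtain ⟨c, hc⟩ : ∃ c : Fin (n + 3), c = (0 : Fin (n + 1)).succ.succ := ⟨_, rfl⟩
  have hc0 : c ≠ 0 := by rw [hc]; exact Fin.succ_ne_zero _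
  have hc1 : c ≠ 1 := by
    rw [hc]
    exact (Fin.succ_injective _).ne (Fin.succ_ne_zero _)
  obtain ⟨Z, hZ1, hZ2, hZ3⟩ := red_op W (fun j => j ≠ c)
    (fun i j => if j = c then (if i = 0 then (1 - W.val 0 c) * (-z) else
      if i = 1 then (1 - W.val 0 c) * b else 0) else 0) (by
      intro i j h
      by_cases hj : j = c
      · have hi : i = c := by
          by_contra hi
          exact h ⟨hi, fun h' => h' hj⟩
        rw [if_pos hj, hi, if_neg hc0, if_neg hc1]
      · rw [if_neg hj])
  have h4 : Z.val 0 c = 1 := by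
    rw [hZ3, Fin.sum_univ_succ, Fin.sum_univ_succ, Finset.sum_eq_zero]
    · have e1 : ((0 : Fin (n + 2)).succ : Fin (n + 3)) = 1 := rfl
      rw [e1, if_pos rfl, if_pos rfl, if_pos rfl, if_neg, if_pos rfl]
      · linear_combination (1 - W.val 0 c) * hz
      · intro h
        have := congrArg Fin.val h
        simp at this
    · intro i _
      have e1 : (i.succ.succ : Fin (n + 3)) ≠ 0 := Fin.succ_ne_zero _
      have e2 : (i.succ.succ : Fin (n + 3)) ≠ 1 :=
        (Fin.succ_injective _).ne (Fin.succ_ne_zero _)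
      rw [if_neg e1, if_neg e2]
      simp
  obtain ⟨Y, hY1, hY2⟩ := red_one Z c hc0 h4
  refine ⟨Y, ?_, ?_⟩
  · rw [← hY1, ← K1.cls_mk, ← K1.cls_mk, hZ1, hW1, hV1]
  · rw [← hY2, hZ2, hW2, hV2]

theorem det_torsion [Module.Free ℤ A] [Module.Finite ℤ A] {n : ℕ}
    (U : (Matrix (Fin n) (Fin n) A)ˣ) :
    ∃ m : ℕ, 0 < m ∧ m • K1.mk U = m • K1.unit (detU U) := by
  have hu1 : K1.unit (1 : Aˣ) = 0 := by
    have h := K1.unit_mul (1 : Aˣ) 1
    rw [one_mul] at h
    exact left_eq_add.1 h
  match n, U with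
  | 0, U =>
    refine ⟨1, one_pos, ?_⟩
    have h1 : U = 1 := Units.ext (Subsingleton.elim _ _)
    rw [h1, map_one, hu1, ← K1.cls_mk, K1.cls_one]
  | 1, U =>
    refine ⟨1, one_pos, ?_⟩
    rw [K1.unit]
    congr 2
    apply Units.ext
    refine Matrix.ext fun i j => ?_
    change U.val i j = (Matrix.scalar (Fin 1)) U.val.det i j
    rw [Matrix.det_fin_one, Matrix.scalar_apply, Subsingleton.elim i 0, Subsingleton.elim j 0,
      Matrix.diagonal_apply_eq]
  | 2, U => exact red_two U
  | (n + 3), U =>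
    obtain ⟨V, hV1, hV2⟩ := red_succ U
    rw [hV1, hV2]
    exact det_torsion V

end Pool.Agent.H95.WH

end

section

/-!
# Rational injectivity of the assembly map for Whitehead groups
-/

set_option autoImplicit false

open Matrix
open scoped TensorProduct

universe u v w

namespace Pool.Agent.H95.WH

section Units

variable {C : Type v} [Group C]

/-- Up to torsion every element of `K₁(ℤ[C])`, `C` finite commutative, is the class of a unit. -/
theorem exists_unit [Finite C] (hC : ∀ a b : C, a * b = b * a) (x : K1 (MonoidAlgebra ℤ C)) :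
    ∃ (m : ℕ) (u : (MonoidAlgebra ℤ C)ˣ), 0 < m ∧ m • x = K1.unit u := by
  let _ : CommGroup C := { (inferInstance : Group C) with mul_comm := hC }
  obtain ⟨n, U, rfl⟩ := K1.exists_mk x
  obtain ⟨m, hm, h⟩ := det_torsion (A := MonoidAlgebra ℤ C) U
  refine ⟨m, detU U ^ m, hm, ?_⟩
  rw [h]
  clear h
  induction m with
  | zero => exact absurd hm (lt_irrefl 0)
  | succ m ih =>
    rcases Nat.eq_zero_or_pos m with h0 | h0
    · subst h0
      rw [zero_add, one_smul, pow_one]
    · rw [succ_nsmul, pow_succ, K1.unit_mul, ih h0]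

end Units

section Represent

variable (G : Type v) [Group G] (𝓕 : Subgroup G → Prop)

end Represent

section Reduce

variable {G : Type v} [Group G]

theorem unit_pow {R : Type u} [Ring R] (u : Rˣ) (k : ℕ) : K1.unit (u ^ k) = k • K1.unit u := by
  induction k with
  | zero =>
    rw [pow_zero, zero_smul]
    have h := K1.unit_mul (1 : Rˣ) 1
    rw [one_mul] at h
    exact left_eq_add.1 h
  | succ k ih => rw [pow_succ, K1.unit_mul, ih, succ_nsmul]

end Reduce

section Final

variable (p : ℕ) [Fact p.Prime] {G : Type v} [Group G]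

variable {p}

variable (p)

/-- The homomorphism from the units. -/
noncomputable def uH (R : Type v) [Ring R] : Additive Rˣ →+ K1 R where
  toFun u := K1.unit u.toMul
  map_zero' := by
    have h := K1.unit_mul (1 : Rˣ) 1
    rw [one_mul] at h
    exact left_eq_add.1 h
  map_add' u v := K1.unit_mul _ _

theorem conjHom_injective (g : G) (C C' : Subgroup G) (h : ∀ x ∈ C, g * x * g⁻¹ ∈ C') :
    Function.Injective (conjHom g C C' h) := by
  intro a b hab
  have h1 : g * (a : G) * g⁻¹ = g * (b : G) * g⁻¹ := congrArg (fun z : C' => (z : G)) hab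
  exact Subtype.ext (mul_left_cancel (mul_right_cancel h1))

end Final

end Pool.Agent.H95.WH

end

section

/-!
# Project KL, module ClsT: the symbols of one conjugacy class of cyclic subgroups

`cls_tor` : let `t j` be primitive symbols with the relations
`∑ j, ∑ d ∈ C j, f (trc c (C j) d (z j)) TU p (u j) d = 0` for all `c` of finite order divisible by `p` and all
`p`-integral functionals `f` on `H_{k+1}(Z_G(c))`.  Let `C₀` be finite cyclic of order divisible by `p` with
`H_{k+1}(Z_G(C₀))` `p`-separated.  Then the sum of the `t j` with `C j` conjugate to `C₀` is torsion.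
-/

set_option autoImplicit false

open Matrix

universe u v w

namespace Pool.Agent.H8.KL

open Pool.Agent.H95.WH (K1 K1.mk K1.map K1.unit K1.map_unit K1.unit_mul FamSub conjHom FinSub uH conjHom_injective)

section CI

variable {G : Type v} [Group G]

/-- homomorphisms given by conjugation -/
def CI (C₀ C : Subgroup G) (φ : C₀ →* C) : Prop := ∃ x : G, ∀ y : C₀, (φ y : G) = x * y * x⁻¹

/-- conjugate subgroups -/
def Cj (C C' : Subgroup G) : Prop :=
  ∃ g : G, (∀ y ∈ C, g * y * g⁻¹ ∈ C') ∧ ∀ y ∈ C', g⁻¹ * y * g⁻¹⁻¹ ∈ C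

theorem Cj.card_eq {C C' : Subgroup G} [Finite C] [Finite C'] (h : Cj C C') :
    Nat.card C = Nat.card C' := by
  obtain ⟨g, h1, h2⟩ := h
  exact le_antisymm (Nat.card_le_card_of_injective _ (conjHom_injective g C C' h1))
    (Nat.card_le_card_of_injective _ (conjHom_injective g⁻¹ C' C h2))

/-- the inverse of a conjugation of finite subgroups of the same order -/
theorem inv_mem_of_card {C₀ C : Subgroup G} [Finite C₀] [Finite C]
    (hcard : Nat.card C = Nat.card C₀) {x : G} (h : ∀ y ∈ C₀, x * y * x⁻¹ ∈ C) :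
    ∀ y ∈ C, x⁻¹ * y * x⁻¹⁻¹ ∈ C₀ := by
  intro y hy
  have hinj := conjHom_injective x C₀ C h
  have hbij : Function.Bijective (conjHom x C₀ C h) :=
    (Nat.bijective_iff_injective_and_card _).2 ⟨hinj, hcard.symm⟩
  obtain ⟨y', hy'⟩ := hbij.2 ⟨y, hy⟩
  have h1 : x * (y' : G) * x⁻¹ = y := congrArg (fun a : C => (a : G)) hy'
  rw [← h1]
  have h2 : x⁻¹ * (x * (y' : G) * x⁻¹) * x⁻¹⁻¹ = y' := by group
  rw [h2]
  exact y'.2

instance finite_hom (C₀ C : Subgroup G) [Finite C₀] [Finite C] : Finite (C₀ →* C) :=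
  Finite.of_injective (fun φ : C₀ →* C => (φ : C₀ → C)) DFunLike.coe_injective

theorem card_CI {C₀ C : Subgroup G} (h : Cj C C₀) :
    Nat.card {φ : C₀ →* C // CI C₀ C φ} = Nat.card {φ : C₀ →* C₀ // CI C₀ C₀ φ} := by
  obtain ⟨g, h1, h2⟩ := h
  refine Nat.card_congr
    { toFun := fun φ => ⟨(conjHom g C C₀ h1).comp φ.1, ?_⟩
      invFun := fun φ => ⟨(conjHom g⁻¹ C₀ C h2).comp φ.1, ?_⟩
      left_inv := ?_
      right_inv := ?_ }
  · obtain ⟨x, hx⟩ := φ.2
    refine ⟨g * x, fun y => ?_⟩
    change g * (φ.1 y : G) * g⁻¹ = _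
    rw [hx]
    group
  · obtain ⟨x, hx⟩ := φ.2
    refine ⟨g⁻¹ * x, fun y => ?_⟩
    change g⁻¹ * (φ.1 y : G) * g⁻¹⁻¹ = _
    rw [hx]
    group
  · intro φ
    apply Subtype.ext
    ext y
    change g⁻¹ * (g * (φ.1 y : G) * g⁻¹) * g⁻¹⁻¹ = _
    group
  · intro φ
    apply Subtype.ext
    ext y
    change g * (g⁻¹ * (φ.1 y : G) * g⁻¹⁻¹) * g⁻¹ = _
    group

theorem orderOf_conj' (x y : G) : orderOf (x * y * x⁻¹) = orderOf y :=
  (MulAut.conj x).orderOf_eq y

theorem zpowers_eq_of_card {C : Subgroup G} [Finite C] {e : G} (he : e ∈ C)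
    (ho : orderOf e = Nat.card C) : Subgroup.zpowers e = C := by
  have h1 : Subgroup.zpowers e ≤ C := Subgroup.zpowers_le.2 he
  refine Subgroup.eq_of_le_of_card_ge h1 ?_
  rw [Nat.card_zpowers, ho]

end CI

section Cls

variable {G : Type v} [Group G] {k : ℕ}

/-- the homomorphism `Z_G(e) → Z_G(C₀)` for `C₀` generated by `e` -/
def kap (C₀ : Subgroup G) (e : G) (he : Subgroup.zpowers e = C₀) :
    Subgroup.centralizer ({e} : Set G) →* Subgroup.centralizer (C₀ : Set G) where
  toFun γ := ⟨γ, by
    rw [Subgroup.mem_centralizer_iff]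
    intro a ha
    rw [SetLike.mem_coe, ← he] at ha
    obtain ⟨i, rfl⟩ := Subgroup.mem_zpowers_iff.1 ha
    have h1 := Subgroup.mem_centralizer_iff.1 γ.2 e rfl
    exact ((show Commute e (γ : G) from h1).zpow_left i).eq⟩
  map_one' := rfl
  map_mul' _ _ := rfl

end Cls

end Pool.Agent.H8.KL

end

section

/-!
# Project KL, module Prim: decomposition of the symbols into primitive symbols

`Prim C v` : the logarithms of the unit `v` of `ℤ[C]` vanish at the elements that do not generate `C`.
`iK h` : the map `K₁(ℤ[D]) → K₁(ℤ[C])` for `D ≤ C`.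

* `low` : `m [u] = [w] + ∑ [v_a]`, `v_a` units of `ℤ[D a]`, `D a < C`, `w` primitive;
* `mem_closure_prim` : a multiple of every element of `HnK1 ℤ G k` is a sum of symbols `[C, v, z]` with `C` finite
  cyclic and `v` primitive (`Tr`, `Tr.val`).
-/

set_option autoImplicit false

open Matrix

universe u v w

namespace Pool.Agent.H8.KL

open Pool.Agent.H95.WH (K1 K1.mk K1.map K1.unit K1.map_unit K1.unit_mul FamSub conjHom FinSub uH unit_pow exists_unit ind)

section K

variable {G : Type v} [Group G]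

theorem unit_inv' {R : Type u} [Ring R] (u : Rˣ) : K1.unit u⁻¹ = - K1.unit u :=
  map_neg (uH R) (Additive.ofMul u)

end K

section Tr

variable {G : Type v} [Group G] {k : ℕ}

end Tr

end Pool.Agent.H8.KL

end

section

/-!
# `K₁` of semilocal commutative rings

If `A` is a commutative ring with finitely many maximal ideals (for example a finite dimensional commutative
algebra over a field) then the class in `K₁(A)` of an invertible matrix is the class of its determinant.

## Paper proofs

`sr_semi`: for every maximal ideal `M` put `s_M = 0` if `x ∉ M` and `s_M = 1` if `x ∈ M` (then `y ∉ M`, since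
`u x + v y = 1`). The maximal ideals are pairwise coprime and finite in number, so by the Chinese remainder theorem
(`Ideal.exists_forall_sub_mem_ideal` or `Ideal.quotientInfRingEquivPiQuotient`) there is a `t` with
`t - s_M ∈ M` for all `M`. Then `x + t y` lies in no maximal ideal, so it is a unit
(`exists_max_ideal_of_mem_nonunits`).

`det_semi`: induction on the size `n`. `n = 0`: `U = 1`. `n = 1`: `U` is the scalar matrix of its determinant. Size
`n + 2`: as in the proof of `sr_row` (`FinQ.lean`) the row `(U 0 j)_j` is unimodular (`red_row`), so there are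
`t_i` with `U 0 0 + ∑ t_i U 0 (i + 1)` a unit `w`. `red_op` (column operations: the class and the determinant do not
change) gives the matrix with entry `(0, 0)` equal to `w`; another `red_op` (subtract multiples of column `0` from
the others) makes the rest of the row `0` zero. So we have a matrix `V` with first row `(w, 0, …, 0)`. Put
`W = V * diag(w⁻¹, 1, …, 1)`; its first row is `(1, 0, …, 0)` and `red_corner` and the induction hypothesis give
`[W] = [det W]`. Finally `[diag(w, 1, …, 1)] = [w] = K1.unit w` (`K1.cls_reindex`, `K1.cls_stab`), and `det` is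
multiplicative. (Alternatively: for `n ≥ 1` first make the entry `(0, 1)` equal to `1` by adding multiples of
column `0`, and use `red_one`: [U] = [V] with `V` of smaller size and the same determinant.)
-/

set_option autoImplicit false

open Matrix

universe u

namespace Pool.Agent.H95.WH

variable {A : Type u} [CommRing A]

theorem sr_semi [Finite (MaximalSpectrum A)] (x y u v : A) (h : u * x + v * y = 1) :
    ∃ t : A, IsUnit (x + t * y) := by
  classical
  obtain ⟨t, ht⟩ := Ideal.exists_forall_sub_mem_ideal (ι := MaximalSpectrum A)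
    (I := fun M => M.asIdeal) (fun M N hMN => MaximalSpectrum.isCoprime_of_ne hMN)
    (fun M => if x ∈ M.asIdeal then 1 else 0)
  refine ⟨t, ?_⟩
  by_contra hu
  obtain ⟨P, hP, hmem⟩ := exists_max_ideal_of_mem_nonunits hu
  have h1 : t - (if x ∈ P then 1 else 0) ∈ P := ht ⟨P, hP⟩
  by_cases hx : x ∈ P
  · rw [if_pos hx] at h1
    have h2 : t * y ∈ P := (Ideal.add_mem_iff_right P hx).1 hmem
    have h3 : y ∈ P := by
      have h4 : y = t * y - (t - 1) * y := by ring
      rw [h4]
      exact P.sub_mem h2 (P.mul_mem_right _ h1)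
    apply hP.ne_top
    rw [Ideal.eq_top_iff_one, ← h]
    exact P.add_mem (P.mul_mem_left _ hx) (P.mul_mem_left _ h3)
  · rw [if_neg hx, sub_zero] at h1
    exact hx ((Ideal.add_mem_iff_left P (P.mul_mem_right _ h1)).1 hmem)

private theorem semi_row [Finite (MaximalSpectrum A)] {n : ℕ} (x v : Fin (n + 1) → A)
    (h : ∑ i, v i * x i = 1) : ∃ t : Fin n → A, IsUnit (x 0 + ∑ i, t i * x i.succ) := by
  rw [Fin.sum_univ_succ] at h
  obtain ⟨t, ht⟩ := sr_semi (x 0) (∑ i : Fin n, v i.succ * x i.succ) (v 0) 1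
    (by rw [one_mul]; exact h)
  refine ⟨fun i => t * v i.succ, ?_⟩
  have e : (∑ i : Fin n, t * v i.succ * x i.succ) = t * ∑ i : Fin n, v i.succ * x i.succ := by
    rw [Finset.mul_sum]
    exact Finset.sum_congr rfl fun i _ => mul_assoc _ _ _
  rw [e]
  exact ht

private theorem semi_step [Finite (MaximalSpectrum A)] {n : ℕ}
    (U : (Matrix (Fin (n + 2)) (Fin (n + 2)) A)ˣ) :
    ∃ V : (Matrix (Fin (n + 1)) (Fin (n + 1)) A)ˣ, K1.mk U = K1.mk V ∧ detU U = detU V := by
  obtain ⟨t, ht⟩ := semi_row (fun j => U.val 0 j) (fun j => U.inv j 0) (red_row U 0)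
  obtain ⟨V, hV1, hV2, hV3⟩ := red_op U (fun j => j ≠ 0)
    (fun i j => if j = 0 then (Fin.cases 0 t i : A) else 0) (by
      intro i j h
      by_cases hj : j = 0
      · have hi : i = 0 := by
          by_contra hi
          exact h ⟨hi, fun h' => h' hj⟩
        simp [hi]
      · simp [hj])
  have h1 : V.val 0 0 = U.val 0 0 + ∑ i, t i * U.val 0 i.succ := by
    rw [hV3, Fin.sum_univ_succ]
    simp [mul_comm]
  rw [← h1] at ht
  obtain ⟨w, hw⟩ := ht
  have h10 : (1 : Fin (n + 2)) ≠ 0 := by
    intro h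
    have := congrArg Fin.val h
    simp at this
  obtain ⟨W, hW1, hW2, hW3⟩ := red_op V (fun i => i = 0)
    (fun i k => if i = 0 ∧ k = 1 then ((w⁻¹ : Aˣ) : A) * (1 - V.val 0 1) else 0) (by
      intro i k h'
      rw [if_neg]
      rintro ⟨hi, hk⟩
      exact h' ⟨hi, by rw [hk]; exact h10⟩)
  have hW : W.val 0 1 = 1 := by
    rw [hW3, Finset.sum_eq_single 0]
    · rw [if_pos ⟨rfl, rfl⟩, ← mul_assoc, ← hw, Units.mul_inv]
      ring
    · intro i _ hi
      rw [if_neg (fun h => hi h.1), mul_zero]
    · intro hk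
      exact absurd (Finset.mem_univ _) hk
  obtain ⟨Z, hZ1, hZ2⟩ := red_one W 1 h10 hW
  refine ⟨Z, ?_, ?_⟩
  · rw [← hZ1, ← K1.cls_mk, ← K1.cls_mk, hW1, hV1]
  · rw [← hZ2, hW2, hV2]

theorem det_semi [Finite (MaximalSpectrum A)] {n : ℕ} (U : (Matrix (Fin n) (Fin n) A)ˣ) :
    K1.mk U = K1.unit (detU U) := by
  have hu1 : K1.unit (1 : Aˣ) = 0 := by
    have h := K1.unit_mul (1 : Aˣ) 1
    rw [one_mul] at h
    exact left_eq_add.1 h
  match n, U with
  | 0, U =>
    have h1 : U = 1 := Units.ext (Subsingleton.elim _ _)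
    rw [h1, map_one, hu1, ← K1.cls_mk, K1.cls_one]
  | 1, U =>
    rw [K1.unit]
    congr 1
    apply Units.ext
    refine Matrix.ext fun i j => ?_
    change U.val i j = (Matrix.scalar (Fin 1)) U.val.det i j
    rw [Matrix.det_fin_one, Matrix.scalar_apply, Subsingleton.elim i 0, Subsingleton.elim j 0,
      Matrix.diagonal_apply_eq]
  | (n + 2), U =>
    obtain ⟨V, hV1, hV2⟩ := semi_step U
    rw [hV1, hV2]
    exact det_semi V

end Pool.Agent.H95.WH

end
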