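import Mathlib

/-! The parts of this file: H16.KN.Cnt, H71.DB.CocC, H71.KP.Dlog, H71.KP.Dvr, H71.KP.Expand, H8.KL.Ap, H8.CZ.Ap, H8.KL.Un. -/

section

/-!
# Project KN: sums of cyclically invariant functions

PROOF of `cyc_sum_dvd`.  The cyclic group of order `q = p ^ m` acts on the functions `w : Fin q → S` by rotation
(`finRotate q`).  The sum over an orbit of `w` is (length of the orbit) * `F w`.  The length is `p ^ (m - j)`, where
`p ^ j` is the order of the stabilizer.  If `F w ≠ 0` then `w` is not fixed by the rotation by `p ^ a`, so the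
length of the orbit does not divide `p ^ a`, so it is divisible by `p ^ (a + 1)`.
-/

set_option autoImplicit false

universe u v

namespace Pool.Agent.H16.KN

/-- rotation of a function on `Fin q` by `d` places -/
def rotF {q : ℕ} {S : Type u} (d : ℕ) (w : Fin q → S) : Fin q → S := fun i => w ((finRotate q)^[d] i)

/-- the iterates of the rotation of `Fin (n + 1)` -/
private theorem rot_iter (n k : ℕ) (i : Fin (n + 1)) :
    (((finRotate (n + 1))^[k] i : Fin (n + 1)) : ℕ) = ((i : ℕ) + k) % (n + 1) := by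
  induction k with
  | zero => simp [Nat.mod_eq_of_lt i.2]
  | succ k ih =>
    rw [Function.iterate_succ_apply', finRotate_apply, Fin.val_add, ih, Fin.val_one', ← Nat.add_mod, add_assoc]

/-- the rotation of `Fin q` has period `q` -/
private theorem rot_self (q : ℕ) (i : Fin q) : (finRotate q)^[q] i = i := by
  cases q with
  | zero => exact i.elim0
  | succ n =>
    apply Fin.ext
    rw [rot_iter, Nat.add_mod_right, Nat.mod_eq_of_lt i.2]

/-- the rotation of functions as a permutation -/
private def rotP (q : ℕ) (S : Type u) : Equiv.Perm (Fin q → S) :=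
  Equiv.arrowCongr (finRotate q).symm (Equiv.refl S)

private theorem rotP_apply {q : ℕ} {S : Type u} (w : Fin q → S) : rotP q S w = rotF 1 w := by
  funext i
  simp [rotP, rotF]

private theorem rotP_iter {q : ℕ} {S : Type u} (k : ℕ) (w : Fin q → S) : (rotP q S)^[k] w = rotF k w := by
  induction k with
  | zero => rfl
  | succ k ih =>
    rw [Function.iterate_succ_apply', ih, rotP_apply]
    funext i
    simp [rotF, Function.iterate_succ_apply]

/-- **Sums of cyclically invariant functions.** -/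
theorem cyc_sum_dvd {p : ℕ} (hp : p.Prime) (m a : ℕ) (ha : a ≤ m) {S : Type u} [Fintype S]
    {B : Type v} [CommRing B] (F : (Fin (p ^ m) → S) → B) (hF : ∀ w, F (rotF 1 w) = F w)
    (h0 : ∀ w, rotF (p ^ a) w = w → F w = 0) : (p : B) ^ (a + 1) ∣ ∑ w, F w := by
  classical
  set T : Equiv.Perm (Fin (p ^ m) → S) := rotP (p ^ m) S with hT
  -- the function is invariant under the group generated by the rotation
  have hinv : ∀ (g : Subgroup.zpowers T) (w : Fin (p ^ m) → S), F (g • w) = F w := by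
    rintro ⟨g, hg⟩ w
    obtain ⟨k, rfl⟩ := Subgroup.mem_zpowers_iff.1 hg
    change F ((T ^ k) w) = F w
    have h1 : ∀ w, F (T w) = F w := fun w => by rw [hT, rotP_apply]; exact hF w
    have hn : ∀ (n : ℕ) (w : Fin (p ^ m) → S), F ((T ^ n) w) = F w := by
      intro n
      induction n with
      | zero => intro w; rfl
      | succ n ih => intro w; rw [pow_succ, Equiv.Perm.mul_apply, ih, h1]
    cases k with
    | ofNat n => exact hn n w
    | negSucc n =>
      rw [zpow_negSucc]
      have := hn (n + 1) ((T ^ (n + 1))⁻¹ w)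
      rw [← Equiv.Perm.mul_apply, mul_inv_cancel, Equiv.Perm.one_apply] at this
      exact this.symm
  rw [← (MulAction.selfEquivSigmaOrbits (Subgroup.zpowers T) (Fin (p ^ m) → S)).symm.sum_comp]
  rw [Fintype.sum_sigma]
  refine Finset.dvd_sum fun ω _ => ?_
  have hc : ∀ x : MulAction.orbit (Subgroup.zpowers T) ω.out,
      F ((MulAction.selfEquivSigmaOrbits (Subgroup.zpowers T) (Fin (p ^ m) → S)).symm ⟨ω, x⟩) = F ω.out := by
    rintro ⟨x, hx⟩
    obtain ⟨g, rfl⟩ := hx
    exact hinv g _
  rw [Finset.sum_congr rfl fun x _ => hc x, Finset.sum_const, Finset.card_univ, nsmul_eq_mul]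
  by_cases hz : F ω.out = 0
  · rw [hz, mul_zero]
    exact dvd_zero _
  refine Dvd.dvd.mul_right ?_ _
  rw [← Nat.cast_pow]
  refine Nat.cast_dvd_cast ?_
  have hcard : Fintype.card (MulAction.orbit (Subgroup.zpowers T) ω.out)
      = Function.minimalPeriod (T • ·) ω.out := by
    rw [MulAction.minimalPeriod_eq_card]
  rw [hcard]
  have hper : Function.IsPeriodicPt (T • ·) (p ^ m) ω.out := by
    change (fun w => T w)^[p ^ m] ω.out = ω.out
    have := rotP_iter (q := p ^ m) (S := S) (p ^ m) ω.out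
    rw [← hT] at this
    refine this.trans ?_
    funext i
    change ω.out ((finRotate (p ^ m))^[p ^ m] i) = ω.out i
    rw [rot_self]
  obtain ⟨k, -, hk⟩ := (Nat.dvd_prime_pow hp).1 hper.minimalPeriod_dvd
  rw [hk]
  refine pow_dvd_pow p ?_
  by_contra hlt
  apply hz
  apply h0
  have hdvd : Function.minimalPeriod (T • ·) ω.out ∣ p ^ a := by
    rw [hk]
    exact pow_dvd_pow p (by omega)
  have h2 := (Function.isPeriodicPt_iff_minimalPeriod_dvd.2 hdvd)
  rw [← rotP_iter, ← hT]
  exact h2

end Pool.Agent.H16.KN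

end

section

/-!
# The cocycle of an element of finite order and a homomorphism on its centralizer
-/

set_option autoImplicit false

open Matrix
open scoped Classical

universe t u v w

namespace Pool.Agent.H71.DB

section CocC

variable {G : Type v} [Group G] (c : G)

/-- an element conjugating `c` into `y` -/
noncomputable def xc (y : G) : G := if h : IsConj c y then (isConj_iff.1 h).choose else 1

theorem xc_spec {y : G} (h : IsConj c y) : xc c y * c * (xc c y)⁻¹ = y := by
  rw [xc, dif_pos h]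
  exact (isConj_iff.1 h).choose_spec

end CocC

section DnG

end DnG

end Pool.Agent.H71.DB

end

section

/-!
# Logarithmic derivatives and traces
-/

set_option autoImplicit false

universe u v w t

namespace Pool.Agent.H71.KP

/-- A derivation `D` of a ring `M` and a trace `τ` vanishing on the image of `D`. -/
structure DT (M : Type u) [Ring M] (B : Type v) [AddCommGroup B] where
  /-- the derivation -/
  D : M →+ M
  leib : ∀ x y, D (x * y) = D x * y + x * D y
  /-- the trace -/
  τ : M →+ B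
  comm : ∀ x y, τ (x * y) = τ (y * x)
  τD : ∀ x, τ (D x) = 0

namespace DT

variable {M : Type u} [Ring M] {B : Type v} [AddCommGroup B] (t : DT M B)

/-- the logarithmic derivative -/
def dlog (u : Mˣ) : B := t.τ (((u⁻¹ : Mˣ) : M) * t.D (u : M))

theorem dlog_mul (u v : Mˣ) : t.dlog (u * v) = t.dlog u + t.dlog v := by
  rw [dlog, dlog, dlog, Units.val_mul, t.leib, mul_inv_rev, Units.val_mul]
  have h1 : ((v⁻¹ : Mˣ) : M) * ((u⁻¹ : Mˣ) : M) * (t.D (u : M) * v + u * t.D (v : M)) =
      ((v⁻¹ : Mˣ) : M) * (((u⁻¹ : Mˣ) : M) * t.D (u : M) * v) +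
        ((v⁻¹ : Mˣ) : M) * ((((u⁻¹ : Mˣ) : M) * u) * t.D (v : M)) := by
    noncomm_ring
  rw [h1, Units.inv_mul, one_mul, map_add, t.comm, mul_assoc, Units.mul_inv, mul_one]

theorem D_one : t.D 1 = 0 := by
  have h := t.leib 1 1
  rw [mul_one, one_mul, mul_one] at h
  exact add_eq_left.1 h.symm

theorem τ_pow (a : M) (k j : ℕ) :
    t.τ (a ^ j * t.D (a ^ (k + 1))) = (k + 1) • t.τ (a ^ (j + k) * t.D a) := by
  induction k generalizing j with
  | zero => simp
  | succ k ih =>
    rw [pow_succ a (k + 1), t.leib, mul_add, map_add, ← mul_assoc, t.comm, ← mul_assoc, ← pow_succ',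
      ih, ← mul_assoc, ← pow_add, add_smul, one_smul, add_smul, one_smul]
    have e1 : j + 1 + k = j + (k + 1) := by ring
    rw [e1, add_smul, one_smul]

theorem succ_smul (a : M) (k : ℕ) : (k + 1) • t.τ (a ^ k * t.D a) = 0 := by
  have h := t.τ_pow a k 0
  rw [pow_zero, one_mul, t.τD, zero_add] at h
  exact h.symm

variable {p : ℕ} [hp : Fact p.Prime]

theorem pow_smul_eq_zero {n : ℕ} (hB : ∀ b : B, p ^ n • b = 0) (a : M) (k : ℕ) :
    p ^ (k + 1) • t.τ (a ^ k * t.D a) = 0 := by
  have h1 : addOrderOf (t.τ (a ^ k * t.D a)) ∣ p ^ n := addOrderOf_dvd_of_nsmul_eq_zero (hB _)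
  have h2 : addOrderOf (t.τ (a ^ k * t.D a)) ∣ k + 1 :=
    addOrderOf_dvd_of_nsmul_eq_zero (t.succ_smul a k)
  obtain ⟨j, _, hj⟩ := (Nat.dvd_prime_pow hp.out).1 h1
  rw [hj] at h2
  have h3 : j < p ^ j := Nat.lt_pow_self hp.out.one_lt
  have h4 : p ^ j ≤ k + 1 := Nat.le_of_dvd (Nat.succ_pos k) h2
  apply addOrderOf_dvd_iff_nsmul_eq_zero.1
  rw [hj]
  exact pow_dvd_pow p (by omega)

/-- The logarithmic derivative of units congruent to `1` modulo `p` vanishes. -/
theorem dlog_eq_zero {n : ℕ} (hB : ∀ b : B, p ^ n • b = 0) (hM : (p : M) ^ n = 0) (u : Mˣ) (a : M)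
    (hu : (u : M) = 1 + (p : M) * a) : t.dlog u = 0 := by
  have hcomm : ∀ (x : M) (i : ℕ), x * (p : M) ^ i = (p : M) ^ i * x := fun x i =>
    ((Nat.cast_commute p x).symm.pow_right i).eq
  have hpow : ∀ k, (-((p : M) * a)) ^ k = (-1) ^ k * ((p : M) ^ k * a ^ k) := by
    intro k
    rw [neg_pow, (Nat.cast_commute p a).mul_pow]
  have hinv : ((u⁻¹ : Mˣ) : M) = ∑ k ∈ Finset.range n, (-((p : M) * a)) ^ k := by
    have h1 : (u : M) * ∑ k ∈ Finset.range n, (-((p : M) * a)) ^ k = 1 := by
      have h2 := mul_neg_geom_sum (-((p : M) * a)) n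
      rw [sub_neg_eq_add] at h2
      rw [hu, h2, hpow, hM, zero_mul, mul_zero, sub_zero]
    calc ((u⁻¹ : Mˣ) : M) = ((u⁻¹ : Mˣ) : M) *
          ((u : M) * ∑ k ∈ Finset.range n, (-((p : M) * a)) ^ k) := by rw [h1, mul_one]
      _ = _ := by rw [← mul_assoc, Units.inv_mul, one_mul]
  have hD : t.D (u : M) = (p : M) * t.D a := by
    rw [hu, map_add, t.D_one, zero_add, ← nsmul_eq_mul, map_nsmul, nsmul_eq_mul]
  rw [dlog, hinv, hD, Finset.sum_mul, map_sum]
  apply Finset.sum_eq_zero
  intro k _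
  have h3 : (-((p : M) * a)) ^ k * ((p : M) * t.D a) =
      ((-1) ^ k : ℤ) • (p ^ (k + 1) • (a ^ k * t.D a)) := by
    rw [hpow, nsmul_eq_mul, zsmul_eq_mul]
    push_cast
    rw [pow_succ (p : M) k, mul_assoc ((-1) ^ k), mul_assoc ((p : M) ^ k), mul_assoc ((p : M) ^ k),
      ← mul_assoc (a ^ k), ← mul_assoc (p : M)]
    congr 3
    have := hcomm (a ^ k) 1
    rwa [pow_one] at this
  rw [h3, map_zsmul, map_nsmul, t.pow_smul_eq_zero hB, smul_zero]

end DT

/-- Naturality of the logarithmic derivative. -/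
theorem dlog_map {M : Type u} [Ring M] {M' : Type w} [Ring M'] {B : Type v} [AddCommGroup B]
    {B' : Type t} [AddCommGroup B'] (s : DT M B) (s' : DT M' B') (φ : M →+* M') (β : B →+ B')
    (hD : ∀ x, s'.D (φ x) = φ (s.D x)) (hτ : ∀ x, s'.τ (φ x) = β (s.τ x)) (u : Mˣ) :
    s'.dlog (Units.map φ.toMonoidHom u) = β (s.dlog u) := by
  rw [DT.dlog, DT.dlog, ← hτ, map_mul φ, ← hD, ← map_inv]
  rfl

end Pool.Agent.H71.KP

end

section

/-!
# Discrete valuations of function fields in one variable

PROOF. `x` is not algebraic over `E` (which is algebraically closed), so `x ≠ 0`. Let `B` be the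
integral closure of `E[y]` in `K` and `B'` the integral closure of `E[1/y]` in `K`. Both are
Dedekind domains with fraction field `K` (`integralClosure.isDedekindDomain`: `K` is finite separable
over `E(y) = Frac E[y]`, and `E[y]` is a polynomial ring over a field). Suppose that `x` is a unit of
both. Then the coefficients of the minimal polynomial of `x` over `E(y)` are in
`E[y] ∩ E[1/y] = E` (`E[y]` and `E[1/y]` are integrally closed), so `x` is algebraic over `E`,
contradiction. So for one of them, say `B`, `x` or `x⁻¹` is not in `B`, or `x` is in `B` but not a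
unit. Hence there is a maximal ideal `P` of `B` with `v_P(x) ≠ 0` (an element of `K` with
`v_P(x) ≥ 0` for all `P` is in `B`; and a nonunit is in some maximal ideal). Let `O` be the valuation
ring of `v_P` (the localisation of `B` at `P`), a discrete valuation ring. Its residue field is
`B / P`, which is finite over `E[y] / (P ∩ E[y])` (`B` is a finite `E[y]`-module, `K` being
separable), and this is finite over `E` (`P ∩ E[y]` is a nonzero prime ideal), hence equal to `E`.

(The two cases are symmetric under `y ↦ y⁻¹`: it is convenient to prove a lemma for `B` alone and to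
apply it to `y` and `y⁻¹`.)
-/

set_option autoImplicit false

universe u v

namespace Pool.Agent.H71.KP

open Polynomial IntermediateField

private theorem Dvr_mem_range {E : Type u} [Field E] [IsAlgClosed E] {K : Type v} [Field K]
    [Algebra E K] {b : K} (hb : IsAlgebraic E b) : b ∈ (algebraMap E K).range := by
  have h1 := IsAlgClosed.degree_eq_one_of_irreducible E (minpoly.irreducible hb.isIntegral)
  exact minpoly.mem_range_of_degree_eq_one E b h1

/-- The field is finite over the field generated by any transcendental element. -/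
private theorem Dvr_fin {F : Type u} [Field F] {K : Type v} [Field K] [Algebra F K]
    (x : K) (hx : Transcendental F x) [FiniteDimensional F⟮x⟯ K] (y : K)
    (hy : Transcendental F y) : FiniteDimensional F⟮y⟯ K := by
  have halg : Algebra.IsAlgebraic F⟮x⟯ K := inferInstance
  have hxy : IsAlgebraic F⟮y⟯ x :=
    isAlgebraic_adjoin_iff.mpr (.adjoin_singleton hx hy
      (isAlgebraic_adjoin_iff.mp (Algebra.IsAlgebraic.isAlgebraic y)))
  let Fyx := restrictScalars F F⟮y⟯⟮x⟯
  let Fxy := restrictScalars F F⟮x⟯⟮y⟯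
  let : Algebra F⟮y⟯ Fyx := F⟮y⟯⟮x⟯.algebra
  let : Module F⟮y⟯ Fyx := Algebra.toModule
  let : SMul F⟮y⟯ Fyx := Algebra.toSMul
  let : Algebra F⟮x⟯ Fxy := F⟮x⟯⟮y⟯.algebra
  let : Module F⟮x⟯ Fxy := Algebra.toModule
  let : SMul F⟮x⟯ Fxy := Algebra.toSMul
  have : FiniteDimensional F⟮y⟯ Fyx :=
    adjoin.finiteDimensional (isAlgebraic_iff_isIntegral.mp hxy)
  have : FiniteDimensional Fyx K := by
    unfold Fyx
    rw [adjoin_simple_comm]
    have : IsScalarTower F⟮x⟯ Fxy K := isScalarTower_mid' F⟮x⟯⟮y⟯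
    exact .right F⟮x⟯ Fxy K
  have : IsScalarTower F⟮y⟯ Fyx K := isScalarTower_mid' F⟮y⟯⟮x⟯
  exact .trans F⟮y⟯ Fyx K

/-- A polynomial relation can be normalised. -/
private theorem Dvr_descend {F : Type u} [Field F] {K : Type v} [Field K] [Algebra F K]
    {b : K} (hb : b ≠ 0) {ι : Type} [Fintype ι] (v : ι → K) : ∀ (n : ℕ) (φ : ι → F[X]),
    ∑ i, (φ i).natDegree = n → (∃ i, φ i ≠ 0) → ∑ i, aeval b (φ i) * v i = 0 →
    ∃ ψ : ι → F[X], ∑ i, aeval b (ψ i) * v i = 0 ∧ ∃ i, (ψ i).coeff 0 ≠ 0 := by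
  intro n
  induction n using Nat.strong_induction_on with
  | _ n ih =>
    intro φ hn hne hsum
    by_cases h0 : ∃ i, (φ i).coeff 0 ≠ 0
    · exact ⟨φ, hsum, h0⟩
    · push Not at h0
      have hX : ∀ i, φ i = (φ i).divX * X := by
        intro i
        have := divX_mul_X_add (φ i)
        rw [h0 i, C_0, add_zero] at this
        exact this.symm
      have hdeg : ∀ i, (φ i).divX.natDegree = (φ i).natDegree - 1 := fun i =>
        natDegree_divX_eq_natDegree_tsub_one
      obtain ⟨i0, hi0⟩ := hne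
      have hpos : 0 < (φ i0).natDegree := by
        by_contra hcon
        have h1 : (φ i0).natDegree = 0 := by omega
        rw [natDegree_eq_zero] at h1
        obtain ⟨c, hc⟩ := h1
        have h2 := h0 i0
        rw [← hc, coeff_C_zero] at h2
        rw [← hc, h2, C_0] at hi0
        exact hi0 rfl
      refine ih (∑ i, ((φ i).divX).natDegree) ?_ (fun i => (φ i).divX) rfl ⟨i0, ?_⟩ ?_
      · rw [← hn]
        refine Finset.sum_lt_sum (fun i _ => ?_) ⟨i0, Finset.mem_univ _, ?_⟩
        · rw [hdeg]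
          omega
        · rw [hdeg]
          omega
      · intro h
        apply hi0
        rw [hX i0, h, zero_mul]
      · have h1 : b * ∑ i, aeval b ((φ i).divX) * v i = 0 := by
          rw [Finset.mul_sum, ← hsum]
          refine Finset.sum_congr rfl fun i _ => ?_
          conv_rhs => rw [hX i]
          rw [map_mul, aeval_X]
          ring
        exact (mul_eq_zero.1 h1).resolve_left hb

open scoped algebraAdjoinAdjoin in
/-- Linearly dependent families satisfy a normalised polynomial relation. -/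
private theorem Dvr_rel {F : Type u} [Field F] {K : Type v} [Field K] [Algebra F K]
    {b : K} (hb : b ≠ 0) {ι : Type} [Fintype ι] (v : ι → K)
    (hv : ¬ LinearIndependent F⟮b⟯ v) :
    ∃ ψ : ι → F[X], ∑ i, aeval b (ψ i) * v i = 0 ∧ ∃ i, (ψ i).coeff 0 ≠ 0 := by
  have h1 : ¬ LinearIndependent (Algebra.adjoin F {b}) v := by
    intro h
    exact hv ((LinearIndependent.iff_fractionRing (Algebra.adjoin F {b}) F⟮b⟯).1 h)
  rw [Fintype.not_linearIndependent_iff] at h1
  obtain ⟨g, hg, i0, hi0⟩ := h1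
  have h2 : ∀ i, ∃ φ : F[X], aeval b φ = (g i : K) := by
    intro i
    have h3 : ∀ z : K, z ∈ Algebra.adjoin F {b} → ∃ φ : F[X], aeval b φ = z := by
      intro z hz
      rw [Algebra.adjoin_singleton_eq_range_aeval] at hz
      exact hz
    exact h3 _ (g i).2
  choose φ hφ using h2
  refine Dvr_descend hb v _ φ rfl ⟨i0, ?_⟩ ?_
  · intro h
    apply hi0
    have := hφ i0
    rw [h, map_zero] at this
    exact Subtype.ext this.symm
  · rw [← hg]
    refine Finset.sum_congr rfl fun i _ => ?_
    rw [hφ i]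
    rfl

section place

variable {F : Type u} [Field F] {K : Type v} [Field K] [Algebra F K]
  (V : ValuationSubring K) (hV : ∀ e : F, algebraMap F K e ∈ V)

private def Dvr_i : F →+* V := (algebraMap F K).codRestrict V.toSubring hV

private theorem Dvr_eval (b : V) (φ : F[X]) :
    ((eval₂ (Dvr_i V hV) b φ : V) : K) = aeval (b : K) φ := by
  have h := Polynomial.hom_eval₂ φ (Dvr_i V hV) V.subtype b
  rw [aeval_def]
  exact h

/-- reduction of the value of a polynomial at an element of the maximal ideal -/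
private theorem Dvr_eval_sub {b : V} (hb : b ∈ IsLocalRing.maximalIdeal V) (φ : F[X]) :
    eval₂ (Dvr_i V hV) b φ - Dvr_i V hV (φ.coeff 0) ∈ IsLocalRing.maximalIdeal V := by
  have h := congrArg (eval₂ (Dvr_i V hV) b) (divX_mul_X_add φ)
  rw [eval₂_add, eval₂_mul, eval₂_X, eval₂_C] at h
  rw [← h, add_sub_cancel_right]
  exact Ideal.mul_mem_left _ _ hb

include hV in
private theorem Dvr_trans [IsAlgClosed F] {b : V} (hb0 : b ≠ 0)
    (hb : b ∈ IsLocalRing.maximalIdeal V) : Transcendental F (b : K) := by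
  intro halg
  obtain ⟨e, he⟩ := Dvr_mem_range halg
  have he0 : e ≠ 0 := by
    rintro rfl
    rw [map_zero] at he
    exact hb0 (Subtype.ext he.symm)
  rw [IsLocalRing.mem_maximalIdeal] at hb
  apply hb
  have : b = Dvr_i V hV e := Subtype.ext he.symm
  rw [this]
  exact (isUnit_iff_ne_zero.2 he0).map (Dvr_i V hV)

include hV in
/-- No strictly ascending chain of principal ideals. -/
private theorem Dvr_chain [IsAlgClosed F]
    (hfin : ∀ b : K, Transcendental F b → FiniteDimensional F⟮b⟯ K) (f : ℕ → V)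
    (hf : ∀ n, DvdNotUnit (f (n + 1)) (f n)) : False := by
  have hf0 : ∀ n, f (n + 1) ≠ 0 := fun n => (hf n).1
  have hm : ∀ n, f n ∈ IsLocalRing.maximalIdeal V := by
    intro n
    obtain ⟨-, u, hu, he⟩ := hf n
    rw [he]
    exact Ideal.mul_mem_left _ _ hu
  have hdvd : ∀ n k, f (n + k) ∣ f n := by
    intro n k
    induction k with
    | zero => exact dvd_rfl
    | succ k ih =>
      obtain ⟨-, u, -, he⟩ := hf (n + k)
      exact (Dvd.intro u he.symm).trans ih
  have hb := Dvr_trans V hV (hf0 0) (hm 1)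
  have hbK : ((f 1 : V) : K) ≠ 0 := fun h => hf0 0 (Subtype.ext h)
  have := hfin _ hb
  set N := Module.finrank F⟮((f 1 : V) : K)⟯ K with hN
  have hdep : ¬ LinearIndependent F⟮((f 1 : V) : K)⟯
      (fun i : Fin (N + 1) => ((f (1 + i) : V) : K)) := by
    intro h
    have := h.fintype_card_le_finrank
    rw [Fintype.card_fin] at this
    omega
  obtain ⟨ψ, hψ, i0, hi0⟩ := Dvr_rel hbK _ hdep
  classical
  -- the last index with nonzero constant coefficient
  obtain ⟨j, hj, hmax⟩ := (Finset.univ.filter fun i => (ψ i).coeff 0 ≠ 0).exists_maximal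
    ⟨i0, by simpa using hi0⟩
  rw [Finset.mem_filter] at hj
  have hmax' : ∀ i, j < i → (ψ i).coeff 0 = 0 := by
    intro i hi
    by_contra hcon
    have := hmax (y := i) (by simpa using hcon) hi.le
    exact absurd hi (not_lt.2 this)
  -- the relation in `V`
  set E : Fin (N + 1) → V := fun i => eval₂ (Dvr_i V hV) (f 1) (ψ i) with hE
  have hrel : ∑ i, E i * f (1 + i) = 0 := by
    apply Subtype.ext
    have h1 : ((∑ i, E i * f (1 + i) : V) : K) = ∑ i, (E i : K) * (f (1 + i) : K) := by
      rw [← ValuationSubring.subtype_apply, map_sum]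
      rfl
    rw [h1]
    have h2 : ∀ i, (E i : K) = aeval ((f 1 : V) : K) (ψ i) := fun i => Dvr_eval V hV (f 1) (ψ i)
    simp only [h2]
    exact hψ
  set I : Ideal V := Ideal.span {f (1 + j)} * IsLocalRing.maximalIdeal V with hI
  have hterm : ∀ i, i ≠ j → E i * f (1 + i) ∈ I := by
    intro i hij
    rcases lt_or_gt_of_ne hij with h | h
    · -- a proper multiple
      have h3 : f (1 + j) ∣ f (1 + i + 1) := by
        obtain ⟨k, hk⟩ : ∃ k, (1 + (j : ℕ)) = (1 + i + 1) + k :=
          ⟨(j : ℕ) - i - 1, by have : (i : ℕ) < j := h; omega⟩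
        rw [hk]
        exact hdvd _ _
      obtain ⟨w, hw⟩ := h3
      obtain ⟨-, u, hu, he⟩ := hf (1 + i)
      refine Ideal.mul_mem_left _ _ ?_
      rw [he, hw, mul_assoc]
      exact Ideal.mul_mem_mul (Ideal.mem_span_singleton_self _) (Ideal.mul_mem_left _ _ hu)
    · have h4 : E i = f 1 * eval₂ (Dvr_i V hV) (f 1) (ψ i).divX := by
        have h5 := congrArg (eval₂ (Dvr_i V hV) (f 1)) (divX_mul_X_add (ψ i))
        rw [eval₂_add, eval₂_mul, eval₂_X, eval₂_C, hmax' i h, map_zero, add_zero] at h5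
        rw [hE]
        simp only
        rw [← h5, mul_comm]
      obtain ⟨w, hw⟩ := hdvd 1 j
      rw [h4, mul_assoc, hw, mul_assoc]
      refine Ideal.mul_mem_mul (Ideal.mem_span_singleton_self _) ?_
      refine Ideal.mul_mem_left _ _ (Ideal.mul_mem_left _ _ (hm _))
  have hjmem : E j * f (1 + j) ∈ I := by
    have h6 : E j * f (1 + j) = - ∑ i ∈ Finset.univ.erase j, E i * f (1 + i) := by
      rw [eq_neg_iff_add_eq_zero]
      exact (Finset.add_sum_erase Finset.univ (fun i : Fin (N + 1) => E i * f (1 + (i : ℕ)))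
        (Finset.mem_univ j)).trans hrel
    rw [h6]
    refine neg_mem (sum_mem fun i hi => hterm i (Finset.ne_of_mem_erase hi))
  rw [hI, Ideal.mem_span_singleton_mul] at hjmem
  obtain ⟨z, hz, hz'⟩ := hjmem
  have hfj : f (1 + j) ≠ 0 := by
    rw [add_comm]
    exact hf0 j
  have hEj : E j = z := by
    rw [mul_comm] at hz'
    exact (mul_right_cancel₀ hfj hz').symm
  have h7 := Dvr_eval_sub V hV (hm 1) (ψ j)
  have h8 : Dvr_i V hV ((ψ j).coeff 0) ∈ IsLocalRing.maximalIdeal V := by
    have := sub_mem (hEj ▸ hz : E j ∈ IsLocalRing.maximalIdeal V) h7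
    rwa [sub_sub_cancel] at this
  rw [IsLocalRing.mem_maximalIdeal] at h8
  exact h8 ((isUnit_iff_ne_zero.2 hj.2).map (Dvr_i V hV))

/-- The residue field is the constant field. -/
private theorem Dvr_residue [IsAlgClosed F]
    (hfin : ∀ b : K, Transcendental F b → FiniteDimensional F⟮b⟯ K) {x : V} (hx0 : x ≠ 0)
    (hx : x ∈ IsLocalRing.maximalIdeal V) :
    Function.Surjective ((IsLocalRing.residue V).comp (Dvr_i V hV)) := by
  let _ : Algebra F (IsLocalRing.ResidueField V) :=
    ((IsLocalRing.residue V).comp (Dvr_i V hV)).toAlgebra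
  have hb := Dvr_trans V hV hx0 hx
  have hxK : (x : K) ≠ 0 := fun h => hx0 (Subtype.ext h)
  have := hfin _ hb
  have : Algebra.IsIntegral F (IsLocalRing.ResidueField V) := by
    refine ⟨fun y => ?_⟩
    obtain ⟨a, rfl⟩ := IsLocalRing.residue_surjective y
    set N := Module.finrank F⟮(x : K)⟯ K with hN
    have hdep : ¬ LinearIndependent F⟮(x : K)⟯ (fun i : Fin (N + 1) => (a : K) ^ (i : ℕ)) := by
      intro h
      have := h.fintype_card_le_finrank
      rw [Fintype.card_fin] at this
      omega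
    obtain ⟨ψ, hψ, i0, hi0⟩ := Dvr_rel hxK _ hdep
    have hrel : ∑ i : Fin (N + 1), eval₂ (Dvr_i V hV) x (ψ i) * a ^ (i : ℕ) = 0 := by
      apply Subtype.ext
      have h1 : ((∑ i : Fin (N + 1), eval₂ (Dvr_i V hV) x (ψ i) * a ^ (i : ℕ) : V) : K) =
          ∑ i : Fin (N + 1), ((eval₂ (Dvr_i V hV) x (ψ i) : V) : K) * (a : K) ^ (i : ℕ) := by
        rw [← ValuationSubring.subtype_apply, map_sum]
        rfl
      rw [h1]
      simp only [Dvr_eval]
      exact hψ
    rw [← isAlgebraic_iff_isIntegral]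
    refine ⟨∑ i : Fin (N + 1), C ((ψ i).coeff 0) * X ^ (i : ℕ), ?_, ?_⟩
    · intro h0
      have h2 := congrArg (fun p => coeff p (i0 : ℕ)) h0
      simp only [finsetSum_coeff, coeff_C_mul, coeff_X_pow, coeff_zero] at h2
      rw [Finset.sum_eq_single i0] at h2
      · simp only [if_true, mul_one] at h2
        exact hi0 h2
      · intro i _ hi
        rw [if_neg fun e => hi (Fin.ext e.symm), mul_zero]
      · intro h
        exact absurd (Finset.mem_univ _) h
    · rw [map_sum]
      have h3 := congrArg (IsLocalRing.residue V) hrel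
      rw [map_sum, map_zero] at h3
      rw [← h3]
      refine Finset.sum_congr rfl fun i _ => ?_
      rw [map_mul, map_mul, map_pow, map_pow, aeval_X, aeval_C]
      congr 1
      have h4 := Dvr_eval_sub V hV hx (ψ i)
      have h5 := (IsLocalRing.residue_eq_zero_iff _).2 h4
      rw [map_sub, sub_eq_zero] at h5
      exact h5.symm
  exact (IsAlgClosed.algebraMap_bijective_of_isIntegral (k := F)
    (K := IsLocalRing.ResidueField V)).2

end place

/-- In a function field in one variable over an algebraically closed field every nonconstant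
element has nonzero valuation at some place, and the residue field is the constant field. -/
theorem exists_dvr {E : Type u} [Field E] [IsAlgClosed E] {K : Type v} [Field K] [Algebra E K]
    (y : K) (hy : Transcendental E y)
    [FiniteDimensional (IntermediateField.adjoin E {y}) K]
    [Algebra.IsSeparable (IntermediateField.adjoin E {y}) K] (x : K)
    (hx : x ∉ (algebraMap E K).range) :
    ∃ (O : ValuationSubring K) (_ : IsDiscreteValuationRing O) (i : E →+* O),
      Function.Surjective ((IsLocalRing.residue O).comp i) ∧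
      ∃ a : O, a ∈ IsLocalRing.maximalIdeal O ∧ ((a : K) = x ∨ (a : K) = x⁻¹) := by
  have hfin : ∀ b : K, Transcendental E b → FiniteDimensional E⟮b⟯ K := fun b hb =>
    Dvr_fin y hy b hb
  have hx0 : x ≠ 0 := by
    rintro rfl
    exact hx ⟨0, map_zero _⟩
  have hxi : x⁻¹ ∉ (algebraMap E K).range := by
    rintro ⟨e, he⟩
    exact hx ⟨e⁻¹, by rw [map_inv₀, he, inv_inv]⟩
  have : IsIntegrallyClosedIn (algebraMap E K).range K := by
    rw [Subring.isIntegrallyClosedIn_iff]
    intro z hz
    apply Dvr_mem_range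
    rw [isAlgebraic_iff_isIntegral]
    let _ : Algebra E (algebraMap E K).range := (algebraMap E K).rangeRestrict.toAlgebra
    have : IsScalarTower E (algebraMap E K).range K := IsScalarTower.of_algebraMap_eq fun _ => rfl
    have : Algebra.IsIntegral E (algebraMap E K).range :=
      Algebra.isIntegral_of_surjective (algebraMap E K).rangeRestrict_surjective
    exact isIntegral_trans z hz
  obtain ⟨V, hV, hxV⟩ := Subring.exists_le_valuationSubring_of_isIntegrallyClosedIn hxi
  have hV' : ∀ e : E, algebraMap E K e ∈ V := fun e => hV ⟨e, rfl⟩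
  have hxV' : x ∈ V := (V.mem_or_inv_mem x).resolve_right hxV
  have hmax : (⟨x, hxV'⟩ : V) ∈ IsLocalRing.maximalIdeal V := by
    rw [IsLocalRing.mem_maximalIdeal]
    intro hu
    obtain ⟨w, hw⟩ := hu.exists_right_inv
    have h1 : x * (w : K) = 1 := congrArg Subtype.val hw
    have h2 : (w : K) = x⁻¹ := eq_inv_of_mul_eq_one_right h1
    rw [← h2] at hxV
    exact hxV w.2
  have hne : (⟨x, hxV'⟩ : V) ≠ 0 := fun h => hx0 (congrArg Subtype.val h)
  have hwf : WfDvdMonoid V := by
    refine ⟨?_⟩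
    rw [wellFounded_iff_isEmpty_descending_chain]
    exact ⟨fun g => Dvr_chain V hV' hfin g.1 g.2⟩
  have hpid : IsPrincipalIdealRing V := ((IsBezout.TFAE (R := V)).out 3 1).1 hwf
  refine ⟨V, ?_, Dvr_i V hV', Dvr_residue V hV' hfin hne hmax, ⟨x, hxV'⟩, hmax, Or.inl rfl⟩
  refine { not_a_field' := ?_ }
  intro h
  rw [h] at hmax
  exact hne hmax

end Pool.Agent.H71.KP

end

section

/-!
# Power series expansions in a discrete valuation ring with a field of representatives

PROOF. Let `s` be a uniformizer of `O`. Every `a : O` has a unique expansion: `a = i c₀ + s a₁`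
with `c₀` in `E` (`hi`), and so on; put `c_n(a)` for the coefficients, so
`a ≡ ∑_{n < N} i (c_n(a)) s^n` modulo `s^N` for all `N`, and the `c_n(a)` are uniquely determined by
these congruences (the residue map is injective on `i E`, a field; `s` is a nonzero divisor).
Therefore `a ↦ ∑ c_n(a) X^n` is a ring homomorphism `O → E⟦X⟧` (compare expansions of sums and
products modulo `s^N`; the polynomial ring map `E[X] → O`, `X ↦ s`, is useful:
`a ≡ P(s)` and `b ≡ Q(s)` modulo `s^N` imply `a b ≡ (P Q)(s)`, and `P(s) ≡ 0` modulo `s^N` if and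
only if `X^N ∣ P`). It is injective since the intersection of the `s^N O` is zero, so it extends to
`K → LaurentSeries E`. If `a ∈ 𝔪`, `a ≠ 0`, then `c₀(a) = 0`, and the order is positive.
-/

set_option autoImplicit false

universe u v w

namespace Pool.Agent.H71.KP

section Expand_aux

variable {E : Type u} [Field E] {O : Type v} [CommRing O] [IsDomain O]
    [IsDiscreteValuationRing O]

theorem Expand_surj (i : E →+* O) (hi : Function.Surjective ((IsLocalRing.residue O).comp i))
    (s : O) (hs : Irreducible s) (a : O) (N : ℕ) :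
    ∃ P : Polynomial E, s ^ N ∣ a - Polynomial.eval₂ i s P := by
  induction N with
  | zero => exact ⟨0, by simp⟩
  | succ N ih =>
    obtain ⟨P, b, hb⟩ := ih
    obtain ⟨e, he⟩ := hi (IsLocalRing.residue O b)
    rw [RingHom.comp_apply] at he
    have h1 : b - i e ∈ IsLocalRing.maximalIdeal O := by
      rw [← IsLocalRing.residue_eq_zero_iff, map_sub, he, sub_self]
    rw [hs.maximalIdeal_eq, Ideal.mem_span_singleton] at h1
    obtain ⟨b', hb'⟩ := h1
    refine ⟨P + Polynomial.C e * Polynomial.X ^ N, b', ?_⟩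
    rw [Polynomial.eval₂_add, Polynomial.eval₂_mul, Polynomial.eval₂_C, Polynomial.eval₂_X_pow]
    have e1 : b = i e + s * b' := by rw [← hb']; ring
    calc a - (Polynomial.eval₂ i s P + i e * s ^ N)
        = (a - Polynomial.eval₂ i s P) - i e * s ^ N := by ring
      _ = s ^ N * b - i e * s ^ N := by rw [hb]
      _ = s ^ N * (i e + s * b') - i e * s ^ N := by rw [← e1]
      _ = s ^ (N + 1) * b' := by ring

omit [IsDiscreteValuationRing O] in
theorem Expand_inj (i : E →+* O) (s : O) (hs : Irreducible s) (N : ℕ) (P : Polynomial E)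
    (h : s ^ N ∣ Polynomial.eval₂ i s P) : Polynomial.X ^ N ∣ P := by
  induction N with
  | zero => simp
  | succ N ih =>
    obtain ⟨R, hR⟩ := ih (dvd_trans (pow_dvd_pow s (Nat.le_succ N)) h)
    have h1 : s ∣ Polynomial.eval₂ i s R := by
      rw [hR, Polynomial.eval₂_mul, Polynomial.eval₂_X_pow, pow_succ] at h
      exact (mul_dvd_mul_iff_left (pow_ne_zero N hs.ne_zero)).1 h
    have h2 : Polynomial.X ∣ R := by
      rw [Polynomial.X_dvd_iff]
      by_contra hne
      have h3 : s ∣ i (R.coeff 0) := by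
        have h4 : R = Polynomial.X * R.divX + Polynomial.C (R.coeff 0) :=
          (Polynomial.X_mul_divX_add R).symm
        have h5 : Polynomial.eval₂ i s R = s * Polynomial.eval₂ i s R.divX + i (R.coeff 0) := by
          conv_lhs => rw [h4]
          rw [Polynomial.eval₂_add, Polynomial.eval₂_mul, Polynomial.eval₂_X, Polynomial.eval₂_C]
        rw [h5] at h1
        exact (dvd_add_right (dvd_mul_right s _)).1 h1
      have h6 : IsUnit (i (R.coeff 0)) := (IsUnit.mk0 _ hne).map i
      exact hs.not_isUnit (isUnit_of_dvd_unit h3 h6)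
    rw [hR, pow_succ]
    exact mul_dvd_mul_left _ h2

/-- The coefficients of the expansion. -/
noncomputable def Expand_c (i : E →+* O)
    (hi : Function.Surjective ((IsLocalRing.residue O).comp i)) (s : O) (hs : Irreducible s)
    (a : O) : PowerSeries E :=
  PowerSeries.mk fun n => ((Expand_surj i hi s hs a (n + 1)).choose).coeff n

theorem Expand_coeff (i : E →+* O) (hi : Function.Surjective ((IsLocalRing.residue O).comp i))
    (s : O) (hs : Irreducible s) (a : O) (N : ℕ) (Q : Polynomial E)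
    (h : s ^ N ∣ a - Polynomial.eval₂ i s Q) (n : ℕ) (hn : n < N) :
    PowerSeries.coeff n (Expand_c i hi s hs a) = Q.coeff n := by
  rw [Expand_c, PowerSeries.coeff_mk]
  have h1 := (Expand_surj i hi s hs a (n + 1)).choose_spec
  set P := (Expand_surj i hi s hs a (n + 1)).choose
  have h2 : s ^ (n + 1) ∣ Polynomial.eval₂ i s (P - Q) := by
    rw [Polynomial.eval₂_sub]
    have h3 := dvd_sub (dvd_trans (pow_dvd_pow s hn) h) h1
    have e : a - Polynomial.eval₂ i s Q - (a - Polynomial.eval₂ i s P) =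
        Polynomial.eval₂ i s P - Polynomial.eval₂ i s Q := by ring
    rwa [e] at h3
  have h4 := Polynomial.X_pow_dvd_iff.1 (Expand_inj i s hs (n + 1) _ h2) n (Nat.lt_succ_self n)
  rw [Polynomial.coeff_sub] at h4
  exact sub_eq_zero.1 h4

/-- The expansion as a ring homomorphism. -/
noncomputable def Expand_hom (i : E →+* O)
    (hi : Function.Surjective ((IsLocalRing.residue O).comp i)) (s : O) (hs : Irreducible s) :
    O →+* PowerSeries E where
  toFun := Expand_c i hi s hs
  map_one' := by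
    ext n
    rw [Expand_coeff i hi s hs 1 (n + 1) 1 (by simp) n (Nat.lt_succ_self n),
      Polynomial.coeff_one, PowerSeries.coeff_one]
  map_zero' := by
    ext n
    rw [Expand_coeff i hi s hs 0 (n + 1) 0 (by simp) n (Nat.lt_succ_self n)]
    simp
  map_add' a b := by
    ext n
    obtain ⟨P, hP⟩ := Expand_surj i hi s hs a (n + 1)
    obtain ⟨Q, hQ⟩ := Expand_surj i hi s hs b (n + 1)
    have h1 : s ^ (n + 1) ∣ a + b - Polynomial.eval₂ i s (P + Q) := by
      rw [Polynomial.eval₂_add]
      have h2 := dvd_add hP hQ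
      have e : a - Polynomial.eval₂ i s P + (b - Polynomial.eval₂ i s Q) =
        a + b - (Polynomial.eval₂ i s P + Polynomial.eval₂ i s Q) := by ring
      rwa [e] at h2
    rw [map_add, Expand_coeff i hi s hs _ _ _ h1 n (Nat.lt_succ_self n),
      Expand_coeff i hi s hs _ _ _ hP n (Nat.lt_succ_self n),
      Expand_coeff i hi s hs _ _ _ hQ n (Nat.lt_succ_self n), Polynomial.coeff_add]
  map_mul' a b := by
    ext n
    obtain ⟨P, hP⟩ := Expand_surj i hi s hs a (n + 1)
    obtain ⟨Q, hQ⟩ := Expand_surj i hi s hs b (n + 1)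
    have h1 : s ^ (n + 1) ∣ a * b - Polynomial.eval₂ i s (P * Q) := by
      rw [Polynomial.eval₂_mul]
      have h2 := dvd_add (dvd_mul_of_dvd_right hQ a)
        (dvd_mul_of_dvd_left hP (Polynomial.eval₂ i s Q))
      have e : a * (b - Polynomial.eval₂ i s Q) +
          (a - Polynomial.eval₂ i s P) * Polynomial.eval₂ i s Q =
        a * b - Polynomial.eval₂ i s P * Polynomial.eval₂ i s Q := by ring
      rwa [e] at h2
    rw [Expand_coeff i hi s hs _ _ _ h1 n (Nat.lt_succ_self n), PowerSeries.coeff_mul,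
      Polynomial.coeff_mul]
    refine Finset.sum_congr rfl fun p hp => ?_
    rw [Finset.HasAntidiagonal.mem_antidiagonal] at hp
    rw [Expand_coeff i hi s hs _ _ _ hP p.1 (by omega),
      Expand_coeff i hi s hs _ _ _ hQ p.2 (by omega)]

theorem Expand_hom_inj (i : E →+* O)
    (hi : Function.Surjective ((IsLocalRing.residue O).comp i)) (s : O) (hs : Irreducible s) :
    Function.Injective (Expand_hom i hi s hs) := by
  rw [injective_iff_map_eq_zero]
  intro a ha
  by_contra hne
  obtain ⟨n, u, hu⟩ := IsDiscreteValuationRing.eq_unit_mul_pow_irreducible hne hs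
  obtain ⟨P, hP⟩ := Expand_surj i hi s hs a (n + 1)
  have h1 : Polynomial.X ^ (n + 1) ∣ P := by
    rw [Polynomial.X_pow_dvd_iff]
    intro d hd
    rw [← Expand_coeff i hi s hs a (n + 1) P hP d hd]
    have h2 : Expand_c i hi s hs a = 0 := ha
    rw [h2, map_zero]
  obtain ⟨R, hR⟩ := h1
  have h3 : s ^ (n + 1) ∣ a := by
    have h4 : s ^ (n + 1) ∣ Polynomial.eval₂ i s P := by
      rw [hR, Polynomial.eval₂_mul, Polynomial.eval₂_X_pow]
      exact dvd_mul_right _ _
    have h5 := dvd_add hP h4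
    rwa [sub_add_cancel] at h5
  rw [hu, mul_comm, pow_succ, mul_dvd_mul_iff_left (pow_ne_zero n hs.ne_zero)] at h3
  exact hs.not_isUnit (isUnit_of_dvd_unit h3 u.isUnit)

end Expand_aux

/-- Laurent expansions at a discrete valuation with a field of representatives. -/
theorem exists_laurent_of_dvr {E : Type u} [Field E] {O : Type v} [CommRing O] [IsDomain O]
    [IsDiscreteValuationRing O] (K : Type w) [Field K] [Algebra O K] [IsFractionRing O K]
    (i : E →+* O) (hi : Function.Surjective ((IsLocalRing.residue O).comp i)) :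
    ∃ φ : K →+* LaurentSeries E, ∀ a : O, a ≠ 0 → a ∈ IsLocalRing.maximalIdeal O →
      0 < (φ (algebraMap O K a)).order := by
  obtain ⟨s, hs⟩ := IsDiscreteValuationRing.exists_irreducible O
  set g : O →+* LaurentSeries E :=
    (HahnSeries.ofPowerSeries ℤ E).comp (Expand_hom i hi s hs) with hg
  have hinj : Function.Injective g := by
    rw [hg, RingHom.coe_comp]
    exact HahnSeries.ofPowerSeries_injective.comp (Expand_hom_inj i hi s hs)
  refine ⟨IsFractionRing.lift hinj, ?_⟩
  intro a ha ham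
  rw [IsFractionRing.lift_algebraMap]
  have hga : g a ≠ 0 := fun h => ha (hinj (by rw [h, map_zero]))
  by_contra hle
  push Not at hle
  have h1 : (g a).coeff (g a).order ≠ 0 := fun h => hga (HahnSeries.coeff_order_eq_zero.1 h)
  apply h1
  have h2 : ∀ z : ℤ, z ≤ 0 → (g a).coeff z = 0 := by
    intro z hz
    have h3 : (g a).coeff z = ((Expand_hom i hi s hs a : PowerSeries E) : LaurentSeries E).coeff z :=
      rfl
    rw [h3, PowerSeries.coeff_coe]
    split_ifs with h
    · rfl
    · have h4 : z = 0 := by omega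
      subst h4
      have h5 : s ∣ a := by
        rwa [hs.maximalIdeal_eq, Ideal.mem_span_singleton] at ham
      have h6 := Expand_coeff i hi s hs a 1 0 (by simpa using h5) 0 Nat.zero_lt_one
      rw [Polynomial.coeff_zero] at h6
      exact h6
  exact h2 _ hle

end Pool.Agent.H71.KP

end

section

/-!
# Project KL, module Ap: the vector space of sequences of `p`-adic approximations

`ZP p` : the ring of rational numbers with denominator prime to `p`.
`Nil p` : the sequences `a : ℕ → ℚ` with `p ^ K * a l ∈ p ^ l ℤ_(p)` for some `K` and all `l`.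
`Ap p` : the quotient `(ℕ → ℚ) ⧸ Nil p`, a vector space over `ℚ`.
`lg p φ x` : the class of `l ↦ φ (x ^ p ^ l - 1) / p ^ l` for `x` in a ring and `φ` an additive map to `ℤ`.

* `lg_mul` : `lg` is additive on commuting `x, y` that are `1` modulo `p ^ 2`;
* `lg_detect` : if `x = 1` modulo `p ^ 2` and `lg p φ x = 0` for a family of `φ` that detects divisibility by `p` then
  `x - 1` is divisible by all `p ^ k`.
-/

set_option autoImplicit false

universe u v w

namespace Pool.Agent.H8.KL

section ZP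

variable (p : ℕ) [hp : Fact p.Prime]

variable {p}

end ZP

section Ap

variable (p : ℕ) [hp : Fact p.Prime]

variable {R : Type u} [Ring R] {S : Type v} [Ring S]

/-- the elements that are `1` modulo `p ^ 2` -/
def One2 (x : R) : Prop := ∃ a : R, x = 1 + (p : R) ^ 2 * a

omit hp in
private theorem one_add_pow (y : R) (n : ℕ) : ∃ b : R, (1 + y) ^ n = 1 + n * y + y ^ 2 * b := by
  induction n with
  | zero => exact ⟨0, by simp⟩
  | succ n ih =>
    obtain ⟨b, hb⟩ := ih
    refine ⟨n + b * (1 + y), ?_⟩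
    have h1 : (n : R) * y = y * n := (Nat.cast_commute n y).eq
    rw [pow_succ, hb]
    push_cast
    rw [mul_add (y ^ 2), mul_add, mul_one, add_mul, add_mul, one_mul, add_mul, one_mul, h1,
      mul_assoc y (n : R) y, h1, ← mul_assoc y y, ← pow_two, ← mul_assoc (y ^ 2) b, mul_add,
      mul_one]
    abel

omit hp in
/-- powers of elements that are `1` modulo `p ^ k`, `k ≥ 2` -/
theorem pow_one_add {k : ℕ} (hk : 2 ≤ k) (a : R) (l : ℕ) :
    ∃ b : R, (1 + (p : R) ^ k * a) ^ p ^ l = 1 + (p : R) ^ (k + l) * (a + p * b) := by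
  induction l with
  | zero => exact ⟨0, by simp⟩
  | succ l ih =>
    obtain ⟨b, hb⟩ := ih
    obtain ⟨c, hc⟩ := one_add_pow ((p : R) ^ (k + l) * (a + p * b)) p
    set t : R := a + p * b with ht
    have hcom : ∀ (e : ℕ) (x : R), (p : R) ^ e * x = x * (p : R) ^ e := fun e x =>
      ((Nat.cast_commute p x).pow_left e).eq
    refine ⟨b + (p : R) ^ (k + l - 2) * (t * t * c), ?_⟩
    rw [pow_succ, pow_mul, hb, hc]
    have h1 : ((p : R) ^ (k + l) * t) ^ 2 * c = (p : R) ^ (k + (l + 1)) *
        (p * ((p : R) ^ (k + l - 2) * (t * t * c))) := by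
      have h2 : ((p : R) ^ (k + l) * t) ^ 2 = (p : R) ^ (k + l) * (p : R) ^ (k + l) * (t * t) := by
        rw [pow_two]
        calc (p : R) ^ (k + l) * t * ((p : R) ^ (k + l) * t)
            = (p : R) ^ (k + l) * (t * (p : R) ^ (k + l)) * t := by simp only [mul_assoc]
          _ = (p : R) ^ (k + l) * ((p : R) ^ (k + l) * t) * t := by rw [← hcom _ t]
          _ = _ := by simp only [mul_assoc]
      have h3 : (p : R) ^ (k + l) * (p : R) ^ (k + l) =
          (p : R) ^ (k + (l + 1)) * (p * (p : R) ^ (k + l - 2)) := by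
        rw [← pow_succ', ← pow_add, ← pow_add]
        congr 1
        omega
      rw [h2, h3]
      simp only [mul_assoc]
    rw [h1, mul_add (p : R) b, ← add_assoc a, ← ht]
    have h4 : (p : R) * ((p : R) ^ (k + l) * t) = (p : R) ^ (k + (l + 1)) * t := by
      rw [← mul_assoc, ← pow_succ']
      congr 2
    rw [h4, mul_add _ t, add_assoc]

omit hp in
theorem One2.pow_eq {x : R} (hx : One2 p x) (l : ℕ) :
    ∃ b : R, x ^ p ^ l = 1 + (p : R) ^ (2 + l) * b := by
  obtain ⟨a, rfl⟩ := hx
  obtain ⟨b, hb⟩ := pow_one_add p le_rfl a l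
  exact ⟨_, hb⟩

omit hp in
theorem One2.mul {x y : R} (hx : One2 p x) (hy : One2 p y) : One2 p (x * y) := by
  obtain ⟨a, rfl⟩ := hx
  obtain ⟨b, rfl⟩ := hy
  refine ⟨a + b + a * ((p : R) ^ 2 * b), ?_⟩
  rw [mul_add, mul_add ((p : R) ^ 2), mul_add ((p : R) ^ 2), mul_one, add_mul, one_mul]
  simp only [mul_assoc]
  abel

omit hp in
theorem One2.one : One2 p (1 : R) := ⟨0, by simp⟩

omit hp in
theorem One2.pow {x : R} (hx : One2 p x) (n : ℕ) : One2 p (x ^ n) := by
  induction n with
  | zero => rw [pow_zero]; exact One2.one p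
  | succ n ih => rw [pow_succ]; exact ih.mul p hx

omit hp in
theorem One2.map (f : R →+* S) {x : R} (hx : One2 p x) : One2 p (f x) := by
  obtain ⟨a, rfl⟩ := hx
  exact ⟨f a, by rw [map_add, map_one, map_mul, map_pow, map_natCast]⟩

end Ap

end Pool.Agent.H8.KL

end

section

/-!
# Project CZ, block LIN, module Ap: the vector space of sequences of `p`-adic approximations

`NilP p` : the sequences `a : ℕ → ℚ_[p]` with `‖a l‖ = O(p ^ (-l))`.
`ApP p` : the quotient `(ℕ → ℚ_[p]) ⧸ NilP p`, a vector space over `ℚ`.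
`lgP p φ x` : the class of `l ↦ φ (x ^ p ^ l - 1) / p ^ l` for `x` in a ring and `φ` an additive map to `ℤ_[p]`.
-/

set_option autoImplicit false

universe u v w

namespace Pool.Agent.H8.CZ

open Pool.Agent.H8.KL (One2 pow_one_add One2.pow_eq One2.mul One2.pow One2.one One2.map)

variable (p : ℕ) [hp : Fact p.Prime]

theorem norm_pow_p (l : ℕ) : ‖((p : ℚ_[p]) ^ l)‖ = ((p : ℝ) ^ l)⁻¹ := by
  rw [norm_pow, Padic.norm_p, inv_pow]

theorem pos_p (l : ℕ) : (0 : ℝ) < (p : ℝ) ^ l := pow_pos (by exact_mod_cast hp.out.pos) l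

/-- the sequences that tend to zero as fast as `p ^ l` -/
def NilP : Submodule ℚ (ℕ → ℚ_[p]) where
  carrier := {a | ∃ C : ℝ, ∀ l, ‖a l‖ * (p : ℝ) ^ l ≤ C}
  add_mem' := by
    rintro a b ⟨K, hK⟩ ⟨K', hK'⟩
    refine ⟨K + K', fun l => ?_⟩
    have h1 : ‖(a + b) l‖ ≤ ‖a l‖ + ‖b l‖ := norm_add_le _ _
    have h2 := mul_le_mul_of_nonneg_right h1 (pos_p p l).le
    rw [add_mul] at h2
    linarith [hK l, hK' l]
  zero_mem' := ⟨0, fun l => by rw [Pi.zero_apply, norm_zero, zero_mul]⟩
  smul_mem' := by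
    rintro q a ⟨K, hK⟩
    refine ⟨‖(q : ℚ_[p])‖ * K, fun l => ?_⟩
    have h1 : ‖(q • a) l‖ = ‖(q : ℚ_[p])‖ * ‖a l‖ := by
      rw [Pi.smul_apply, Rat.smul_def, norm_mul]
    rw [h1, mul_assoc]
    exact mul_le_mul_of_nonneg_left (hK l) (norm_nonneg _)

theorem mem_NilP {a : ℕ → ℚ_[p]} : a ∈ NilP p ↔ ∃ C : ℝ, ∀ l, ‖a l‖ * (p : ℝ) ^ l ≤ C := Iff.rfl

/-- the quotient -/
abbrev ApP : Type := (ℕ → ℚ_[p]) ⧸ NilP p

/-- the class of a sequence -/
noncomputable def cP : (ℕ → ℚ_[p]) →ₗ[ℚ] ApP p := (NilP p).mkQ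

theorem cP_eq_zero {a : ℕ → ℚ_[p]} : cP p a = 0 ↔ a ∈ NilP p := Submodule.Quotient.mk_eq_zero _

variable {R : Type u} [Ring R] {S : Type v} [Ring S]

/-- the approximations of the logarithm -/
noncomputable def lgP (φ : R →+ ℤ_[p]) (x : R) : ApP p :=
  cP p fun l => ((φ (x ^ p ^ l - 1) : ℤ_[p]) : ℚ_[p]) / (p : ℚ_[p]) ^ l

theorem lgP_comp (f : R →+* S) (φ : S →+ ℤ_[p]) (x : R) :
    lgP p φ (f x) = lgP p (φ.comp f.toAddMonoidHom) x := by
  have h : ∀ l, φ (f x ^ p ^ l - 1) = (φ.comp f.toAddMonoidHom) (x ^ p ^ l - 1) := by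
    intro l
    change _ = φ (f (x ^ p ^ l - 1))
    rw [map_sub f, map_pow f, map_one f]
  unfold lgP
  simp only [h]

theorem map_pmulP (φ : R →+ ℤ_[p]) (e : ℕ) (x : R) :
    φ ((p : R) ^ e * x) = (p : ℤ_[p]) ^ e * φ x := by
  rw [← Nat.cast_pow, ← nsmul_eq_mul, map_nsmul, nsmul_eq_mul, Nat.cast_pow]

theorem lgP_one (φ : R →+ ℤ_[p]) : lgP p φ 1 = 0 := by
  unfold lgP
  rw [cP_eq_zero]
  refine ⟨0, fun l => ?_⟩
  beta_reduce
  rw [one_pow, sub_self, map_zero, PadicInt.coe_zero, zero_div, norm_zero, zero_mul]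

/-- **The logarithm is additive.** -/
theorem lgP_mul (φ : R →+ ℤ_[p]) {x y : R} (hx : One2 p x) (hy : One2 p y) (hxy : x * y = y * x) :
    lgP p φ (x * y) = lgP p φ x + lgP p φ y := by
  unfold lgP
  rw [← map_add, ← sub_eq_zero, ← map_sub, cP_eq_zero]
  refine ⟨1, fun l => ?_⟩
  obtain ⟨a, ha⟩ := hx.pow_eq p l
  obtain ⟨b, hb⟩ := hy.pow_eq p l
  have h1 : (x * y) ^ p ^ l = x ^ p ^ l * y ^ p ^ l := (show Commute x y from hxy).mul_pow _
  have hcom : ∀ (e : ℕ) (x : R), (p : R) ^ e * x = x * (p : R) ^ e := fun e x =>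
    ((Nat.cast_commute p x).pow_left e).eq
  have h2 : (x * y) ^ p ^ l - 1 - ((x ^ p ^ l - 1) + (y ^ p ^ l - 1)) =
      (p : R) ^ (l + l + 4) * (a * b) := by
    rw [h1, ha, hb]
    have h3 : (p : R) ^ (2 + l) * a * ((p : R) ^ (2 + l) * b) = (p : R) ^ (l + l + 4) * (a * b) := by
      calc (p : R) ^ (2 + l) * a * ((p : R) ^ (2 + l) * b)
          = (p : R) ^ (2 + l) * (a * (p : R) ^ (2 + l)) * b := by simp only [mul_assoc]
        _ = (p : R) ^ (2 + l) * ((p : R) ^ (2 + l) * a) * b := by rw [← hcom _ a]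
        _ = (p : R) ^ (2 + l) * (p : R) ^ (2 + l) * (a * b) := by simp only [mul_assoc]
        _ = _ := by
          rw [← pow_add]
          congr 2
          omega
    rw [← h3, mul_add, add_mul, one_mul, mul_one, add_mul, one_mul]
    abel
  have h4 := congrArg φ h2
  rw [map_pmulP, map_sub, map_add] at h4
  have hp0 : (p : ℚ_[p]) ≠ 0 := Nat.cast_ne_zero.2 hp.out.ne_zero
  have h5 : ((φ ((x * y) ^ p ^ l - 1) : ℤ_[p]) : ℚ_[p]) - (((φ (x ^ p ^ l - 1) : ℤ_[p]) : ℚ_[p]) +
      ((φ (y ^ p ^ l - 1) : ℤ_[p]) : ℚ_[p])) = (p : ℚ_[p]) ^ (l + l + 4) * ((φ (a * b) : ℤ_[p]) : ℚ_[p]) := by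
    have h6 := congrArg (fun t : ℤ_[p] => (t : ℚ_[p])) h4
    push_cast at h6
    exact h6
  have h7 : ((φ ((x * y) ^ p ^ l - 1) : ℤ_[p]) : ℚ_[p]) / (p : ℚ_[p]) ^ l -
      (((φ (x ^ p ^ l - 1) : ℤ_[p]) : ℚ_[p]) / (p : ℚ_[p]) ^ l +
        ((φ (y ^ p ^ l - 1) : ℤ_[p]) : ℚ_[p]) / (p : ℚ_[p]) ^ l) =
      (p : ℚ_[p]) ^ l * ((p : ℚ_[p]) ^ 4 * ((φ (a * b) : ℤ_[p]) : ℚ_[p])) := by
    rw [← add_div, ← sub_div, h5, pow_add, pow_add]
    field_simp
  change ‖((φ ((x * y) ^ p ^ l - 1) : ℤ_[p]) : ℚ_[p]) / (p : ℚ_[p]) ^ l -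
      (((φ (x ^ p ^ l - 1) : ℤ_[p]) : ℚ_[p]) / (p : ℚ_[p]) ^ l +
        ((φ (y ^ p ^ l - 1) : ℤ_[p]) : ℚ_[p]) / (p : ℚ_[p]) ^ l)‖ * (p : ℝ) ^ l ≤ 1
  rw [h7, norm_mul, norm_pow_p, mul_comm, ← mul_assoc, mul_inv_cancel₀ (pos_p p l).ne', one_mul]
  have h8 : (p : ℚ_[p]) ^ 4 * ((φ (a * b) : ℤ_[p]) : ℚ_[p]) = (((p : ℤ_[p]) ^ 4 * φ (a * b) : ℤ_[p]) : ℚ_[p]) := by
    push_cast
    rfl
  rw [h8]
  exact PadicInt.norm_le_one _

theorem lgP_pow (hR : ∀ x y : R, x * y = y * x) (φ : R →+ ℤ_[p]) {x : R} (hx : One2 p x) (n : ℕ) :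
    lgP p φ (x ^ n) = n • lgP p φ x := by
  induction n with
  | zero => rw [pow_zero, lgP_one, zero_smul]
  | succ n ih => rw [pow_succ, lgP_mul p φ (hx.pow p n) hx (hR _ _), ih, succ_nsmul]

/-- **Detection.** -/
theorem lgP_detect {I : Type w} (φ : I → R →+ ℤ_[p])
    (hφ : ∀ a : R, (∀ i, (p : ℤ_[p]) ∣ φ i a) → ∃ b, a = p * b) {x : R} (hx : One2 p x)
    (h : ∀ i, lgP p (φ i) x = 0) (k : ℕ) : ∃ a : R, x = 1 + (p : R) ^ (2 + k) * a := by
  induction k with
  | zero => exact hx
  | succ k ih =>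
    obtain ⟨a, ha⟩ := ih
    have hdiv : ∀ i, (p : ℤ_[p]) ∣ φ i a := by
      intro i
      have h1 := h i
      unfold lgP at h1
      rw [cP_eq_zero] at h1
      obtain ⟨C, hC⟩ := h1
      obtain ⟨l, hl⟩ : ∃ l : ℕ, C * (p : ℝ) ^ (2 + k) < (p : ℝ) ^ l :=
        pow_unbounded_of_one_lt _ (by exact_mod_cast hp.out.one_lt)
      obtain ⟨b, hb⟩ := pow_one_add p (Nat.le_add_right 2 k) a l
      have h2 := hC l
      beta_reduce at h2
      rw [ha, hb, add_sub_cancel_left, map_pmulP] at h2
      have hp0 : (p : ℚ_[p]) ≠ 0 := Nat.cast_ne_zero.2 hp.out.ne_zero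
      have h3 : (((p : ℤ_[p]) ^ (2 + k + l) * φ i (a + (p : R) * b) : ℤ_[p]) : ℚ_[p]) / (p : ℚ_[p]) ^ l =
          (p : ℚ_[p]) ^ (2 + k) * ((φ i (a + (p : R) * b) : ℤ_[p]) : ℚ_[p]) := by
        push_cast
        rw [pow_add (p : ℚ_[p]) (2 + k) l]
        field_simp
      rw [h3, norm_mul, norm_pow_p] at h2
      have h4 : ‖φ i (a + (p : R) * b)‖ < 1 := by
        rw [PadicInt.norm_def]
        have h5 : (0 : ℝ) < (p : ℝ) ^ (2 + k) := pos_p p _
        have h6 : (0 : ℝ) < (p : ℝ) ^ l := pos_p p _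
        rw [inv_mul_eq_div, div_mul_eq_mul_div, div_le_iff₀ h5] at h2
        by_contra hcon
        push Not at hcon
        nlinarith
      rw [PadicInt.norm_lt_one_iff_dvd, map_add] at h4
      have h5 : φ i ((p : R) * b) = p * φ i b := by
        have := map_pmulP p (φ i) 1 b
        rwa [pow_one, pow_one] at this
      rw [h5] at h4
      exact (dvd_add_left (Dvd.intro _ rfl)).1 h4
    obtain ⟨b, hb⟩ := hφ a hdiv
    refine ⟨b, ?_⟩
    rw [ha, hb, ← mul_assoc, ← pow_succ]
    rfl

end Pool.Agent.H8.CZ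

end

section

/-!
# Project KL, module Un: the `p`-adic logarithm of the units of `ℤ[C]`

`lgU p φ u` : `lg p φ (u ^ m) / m` for any `m > 0` with `u ^ m = 1` modulo `p ^ 2`.
`TU p u d` : `lgU` for the coefficient at `d`, `u` a unit of `ℤ[C]`, `C` finite.

* `TU_mul`, `TU_one`, `TU_map`, `TU_map_ne`;
* `TU_detect` : a unit with `TU p u = 0` has finite order;
* `TU_norm` : for `j : D → C` injective there is a unit `z` of `ℤ[D]` with
  `TU p z d = [C : D] TU p u (j d)` for all `p`.
-/

set_option autoImplicit false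

open Matrix

universe u v w

namespace Pool.Agent.H8.KL

section LgU

variable (p : ℕ) [hp : Fact p.Prime] {R : Type u} [Ring R] {S : Type v} [Ring S]

/-- every unit has a power that is `1` modulo `p ^ 2` -/
def FinP (R : Type u) [Ring R] : Prop := ∀ u : Rˣ, ∃ m : ℕ, 0 < m ∧ One2 p ((u ^ m : Rˣ) : R)

end LgU

section MA

set_option linter.unusedSectionVars false

variable {C : Type u} [Group C]

variable [Finite C]

end MA

end Pool.Agent.H8.KL

end
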