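import Pool.Agent.H71.TCZ.H71.KP.Skew

/-! The parts of this file: H71.KP.Skew2, H71.KP.Ten, H71.KP.GL. -/

section

/-!
# The homomorphism `Lam`
-/

set_option autoImplicit false
set_option linter.unusedSectionVars false

open Matrix

universe u v

namespace Pool.Agent.H71.KP

namespace TwTr

variable {p : ℕ} [hp : Fact p.Prime] {M : Type u} [Ring M] (t : TwTr p M)

/-- the norm (trace) of an element -/
def tr : M →+ M where
  toFun z := ∑ i, t.act i z
  map_zero' := by simp
  map_add' a b := by simp [Finset.sum_add_distrib]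

theorem tr_apply (z : M) : t.tr z = ∑ i, t.act i z := rfl

theorem act_tr (j : ZMod p) (z : M) : t.act j (t.tr z) = t.tr z := by
  rw [tr_apply, map_sum, ← Equiv.sum_comp (Equiv.addLeft j) (fun i => t.act i z)]
  apply Finset.sum_congr rfl
  intro i _
  rw [Equiv.coe_addLeft, t.act_add]

/-- elements fixed by the action -/
def Fix (x : M) : Prop := ∀ i, t.act i x = x

theorem Fix.one : t.Fix 1 := fun _ => map_one _

theorem Fix.mul {x y : M} (hx : t.Fix x) (hy : t.Fix y) : t.Fix (x * y) := fun i => by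
  rw [map_mul, hx i, hy i]

theorem Fix.add {x y : M} (hx : t.Fix x) (hy : t.Fix y) : t.Fix (x + y) := fun i => by
  rw [map_add, hx i, hy i]

theorem Fix.sub {x y : M} (hx : t.Fix x) (hy : t.Fix y) : t.Fix (x - y) := fun i => by
  rw [map_sub, hx i, hy i]

theorem Fix.natCast (n : ℕ) : t.Fix (n : M) := fun _ => map_natCast _ n

theorem Fix.inv {g : Mˣ} (h : t.Fix (g : M)) : t.Fix ((g⁻¹ : Mˣ) : M) := by
  intro i
  have h1 : t.act i ((g⁻¹ : Mˣ) : M) * g = 1 := by
    conv_lhs => rw [← h i]
    rw [← map_mul, Units.inv_mul, map_one]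
  calc t.act i ((g⁻¹ : Mˣ) : M) = t.act i ((g⁻¹ : Mˣ) : M) * (g * (g⁻¹ : Mˣ)) := by
        rw [Units.mul_inv, mul_one]
    _ = (g⁻¹ : Mˣ) := by rw [← mul_assoc, h1, one_mul]

theorem tr_mul_fix (z : M) {w : M} (hw : t.Fix w) : t.tr (z * w) = t.tr z * w := by
  rw [tr_apply, tr_apply, Finset.sum_mul]
  apply Finset.sum_congr rfl
  intro i _
  rw [map_mul, hw i]

theorem tr_fix_mul (z : M) {w : M} (hw : t.Fix w) : t.tr (w * z) = w * t.tr z := by
  rw [tr_apply, tr_apply, Finset.mul_sum]
  apply Finset.sum_congr rfl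
  intro i _
  rw [map_mul, hw i]

theorem tr_fix {x : M} (hx : t.Fix x) : t.tr x = (p : M) * x := by
  rw [tr_apply, Finset.sum_congr rfl (fun i _ => hx i), Finset.sum_const, Finset.card_univ,
    ZMod.card, nsmul_eq_mul]

theorem κ_tr (z : M) : t.κ (t.tr z) = p * t.κ z := by
  rw [tr_apply, map_sum, Finset.sum_congr rfl (fun i _ => t.κ_act i z), Finset.sum_const,
    Finset.card_univ, ZMod.card, nsmul_eq_mul]

/-- the element `z N` of the skew ring -/
def Zm : M →+ t.S where
  toFun z := ⟨Matrix.of fun i _ => t.act i z, by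
    intro a b l
    change t.act (a + l) z = t.act l (t.act a z)
    rw [← t.act_add, add_comm]⟩
  map_zero' := by
    apply Subtype.ext
    ext i j
    change t.act i 0 = 0
    rw [map_zero]
  map_add' a b := by
    apply Subtype.ext
    ext i j
    change t.act i (a + b) = t.act i a + t.act i b
    rw [map_add]

theorem Zm_apply (z : M) (i j : ZMod p) : (t.Zm z).1 i j = t.act i z := rfl

theorem Zm_mul (z w : M) : t.Zm z * t.Zm w = t.Zm (z * t.tr w) := by
  apply Subtype.ext
  ext i j
  change ((t.Zm z).1 * (t.Zm w).1) i j = _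
  rw [Matrix.mul_apply, Zm_apply, map_mul, t.act_tr, tr_apply, Finset.mul_sum]
  rfl

/-- the diagonal embedding -/
def em : M →+* t.S where
  toFun w := ⟨Matrix.diagonal fun i => t.act i w, by
    intro a b l
    by_cases h : a = b
    · subst h
      rw [Matrix.diagonal_apply_eq, Matrix.diagonal_apply_eq]
      change _ = t.act l _
      rw [← t.act_add, add_comm]
    · have h' : a + l ≠ b + l := fun h' => h (add_right_cancel h')
      rw [Matrix.diagonal_apply_ne _ h', Matrix.diagonal_apply_ne _ h, map_zero]⟩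
  map_one' := by
    apply Subtype.ext
    change (Matrix.diagonal fun i => t.act i 1) = 1
    simp
  map_zero' := by
    apply Subtype.ext
    change (Matrix.diagonal fun i => t.act i 0) = 0
    simp
  map_add' a b := by
    apply Subtype.ext
    change (Matrix.diagonal fun i => t.act i (a + b)) =
      (Matrix.diagonal fun i => t.act i a) + (Matrix.diagonal fun i => t.act i b)
    simp
  map_mul' a b := by
    apply Subtype.ext
    change (Matrix.diagonal fun i => t.act i (a * b)) =
      (Matrix.diagonal fun i => t.act i a) * (Matrix.diagonal fun i => t.act i b)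
    simp

theorem em_mul_Zm (w z : M) : t.em w * t.Zm z = t.Zm (w * z) := by
  apply Subtype.ext
  ext i j
  change ((Matrix.diagonal fun i => t.act i w) * (t.Zm z).1) i j = _
  rw [Matrix.diagonal_mul, Zm_apply, Zm_apply, map_mul]

theorem Zm_mul_em (z : M) {w : M} (hw : t.Fix w) : t.Zm z * t.em w = t.Zm (z * w) := by
  apply Subtype.ext
  ext i j
  change ((t.Zm z).1 * (Matrix.diagonal fun i => t.act i w)) i j = _
  rw [Matrix.mul_diagonal, Zm_apply, Zm_apply, map_mul, hw i, hw j]

theorem fix_of_cond {z : M} {g : Mˣ} (h : (g : M) = 1 + t.tr z) : t.Fix (g : M) := by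
  intro i
  rw [h, map_add, map_one, t.act_tr]

/-- the unit `1 + z N` of the skew ring, for a unit `g = 1 + tr z` -/
def vU (z : M) (g : Mˣ) (h : (g : M) = 1 + t.tr z) : t.Sˣ where
  val := 1 + t.Zm z
  inv := 1 - t.Zm (z * (g⁻¹ : Mˣ))
  val_inv := by
    have hs : t.Fix ((g⁻¹ : Mˣ) : M) := (t.fix_of_cond h).inv
    have h1 : (1 + t.tr z) * ((g⁻¹ : Mˣ) : M) = 1 := by rw [← h, Units.mul_inv]
    have h2 : t.tr z * ((g⁻¹ : Mˣ) : M) = 1 - (g⁻¹ : Mˣ) := by
      rw [add_mul, one_mul] at h1
      exact eq_sub_of_add_eq' h1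
    rw [add_mul, one_mul, mul_sub, mul_one, Zm_mul, t.tr_mul_fix _ hs, h2, mul_sub, mul_one,
      map_sub]
    abel
  inv_val := by
    have hs : t.Fix ((g⁻¹ : Mˣ) : M) := (t.fix_of_cond h).inv
    have h1 : ((g⁻¹ : Mˣ) : M) * (1 + t.tr z) = 1 := by rw [← h, Units.inv_mul]
    have h2 : ((g⁻¹ : Mˣ) : M) * t.tr z = 1 - (g⁻¹ : Mˣ) := by
      rw [mul_add, mul_one] at h1
      exact eq_sub_of_add_eq' h1
    rw [sub_mul, one_mul, mul_add, mul_one, Zm_mul, mul_assoc, h2, mul_sub, mul_one,
      map_sub]
    abel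

theorem vU_val (z : M) (g : Mˣ) (h : (g : M) = 1 + t.tr z) :
    (t.vU z g h : t.S) = 1 + t.Zm z := rfl

theorem mul_add_cond {z1 z2 : M} {g1 g2 : Mˣ} (h1 : (g1 : M) = 1 + t.tr z1)
    (h2 : (g2 : M) = 1 + t.tr z2) :
    ((g1 * g2 : Mˣ) : M) = 1 + t.tr (z1 * g2 + z2) := by
  rw [map_add, t.tr_mul_fix _ (t.fix_of_cond h2), Units.val_mul, h1, add_mul, one_mul]
  conv_lhs => arg 1; rw [h2]
  abel

theorem vU_mul {z1 z2 : M} {g1 g2 : Mˣ} (h1 : (g1 : M) = 1 + t.tr z1)
    (h2 : (g2 : M) = 1 + t.tr z2)
    (h : ((g1 * g2 : Mˣ) : M) = 1 + t.tr (z1 * g2 + z2)) :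
    t.vU z1 g1 h1 * t.vU z2 g2 h2 = t.vU (z1 * g2 + z2) (g1 * g2) h := by
  apply Units.ext
  rw [Units.val_mul, vU_val, vU_val, vU_val, add_mul, one_mul, mul_add, mul_one, Zm_mul]
  conv_rhs => rw [h2, mul_add, mul_one, map_add, map_add]
  abel

theorem cond_one {y : M} (hy : t.tr y = 0) : ((1 : Mˣ) : M) = 1 + t.tr y := by
  rw [hy, add_zero, Units.val_one]

theorem κ_eq_zero {y : M} (hy : t.tr y = 0) : t.κ y = 0 := by
  have h1 := t.κ_tr y
  rw [hy, map_zero] at h1
  have hp0 : (p : ℤ_[p]) ≠ 0 := by exact_mod_cast hp.out.ne_zero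
  exact (mul_eq_zero.1 h1.symm).resolve_left hp0

theorem τ_Zm (z : M) : t.τ (t.Zm z) = t.κ z := by
  change t.κ ((t.Zm z).1 0 1) = _
  rw [Zm_apply, t.act_zero]

/-- units of the form `1 + tr z` -/
def Adm (g : Mˣ) : Prop := ∃ z, (g : M) = 1 + t.tr z

theorem conj_cond {z : M} {g w : Mˣ} (hz : (g : M) = 1 + t.tr z) (hw : t.Fix (w : M)) :
    ((w⁻¹ * g * w : Mˣ) : M) = 1 + t.tr ((w⁻¹ : Mˣ) * z * w) := by
  rw [t.tr_mul_fix _ hw, t.tr_fix_mul _ hw.inv, Units.val_mul, Units.val_mul, hz, mul_add, mul_one,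
    add_mul, Units.inv_mul]

theorem Adm.conj {g w : Mˣ} (h : t.Adm g) (hw : t.Fix (w : M)) : t.Adm (w⁻¹ * g * w) := by
  obtain ⟨z, hz⟩ := h
  exact ⟨_, t.conj_cond hz hw⟩

end TwTr

end Pool.Agent.H71.KP

end

section

/-!
# The `p`-th tensor power of an algebra with a trace
-/

set_option autoImplicit false
set_option linter.unusedSectionVars false

open scoped TensorProduct

universe u v

namespace Pool.Agent.H71.KP

variable (p : ℕ) [hp : Fact p.Prime] (A : Type u) [Ring A] [Algebra ℤ_[p] A]

/-- the `p`-th tensor power -/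
abbrev TP : Type u := PiTensorProduct ℤ_[p] (fun _ : ZMod p => A)

variable {A}

/-- pure tensors -/
noncomputable abbrev tp (m : ZMod p → A) : TP p A := PiTensorProduct.tprod ℤ_[p] m

theorem tp_mul (m n : ZMod p → A) : tp p m * tp p n = tp p (fun i => m i * n i) :=
  PiTensorProduct.tprod_mul_tprod m n

/-- the cyclic shift -/
noncomputable def sh (i : ZMod p) : TP p A →ₐ[ℤ_[p]] TP p A :=
  PiTensorProduct.liftAlgHom
    ((PiTensorProduct.tprod ℤ_[p] (s := fun _ : ZMod p => A)).domDomCongr (Equiv.addRight i))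
    rfl (by
      intro x y
      change tp p (fun j => x (j + i) * y (j + i)) =
        tp p (fun j => x (j + i)) * tp p (fun j => y (j + i))
      rw [tp_mul])

theorem sh_tp (i : ZMod p) (m : ZMod p → A) : sh p i (tp p m) = tp p (fun j => m (j + i)) := by
  change PiTensorProduct.lift _ (PiTensorProduct.tprod ℤ_[p] m) = _
  rw [PiTensorProduct.lift.tprod]
  rfl

variable {p} in
theorem tp_induction {P : TP p A → Prop} (h1 : ∀ (r : ℤ_[p]) (m : ZMod p → A), P (r • tp p m))
    (h2 : ∀ x y, P x → P y → P (x + y)) (x : TP p A) : P x :=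
  PiTensorProduct.induction_on x h1 h2

theorem sh_zero (x : TP p A) : sh p 0 x = x := by
  induction x using tp_induction with
  | h1 r m =>
    rw [map_smul, sh_tp]
    simp
  | h2 x y hx hy => rw [map_add, hx, hy]

theorem sh_add (i j : ZMod p) (x : TP p A) : sh p (i + j) x = sh p i (sh p j x) := by
  induction x using tp_induction with
  | h1 r m =>
    rw [map_smul, map_smul, map_smul, sh_tp, sh_tp, sh_tp]
    simp only [add_assoc]
  | h2 x y hx hy => rw [map_add, map_add, map_add, hx, hy]

/-- the bijection of `Fin p` and `ZMod p` -/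
def fz : Fin p ≃ ZMod p where
  toFun i := ((i.val : ℕ) : ZMod p)
  invFun j := ⟨j.val, ZMod.val_lt j⟩
  left_inv i := Fin.ext (by
    change ((i.val : ℕ) : ZMod p).val = i.val
    rw [ZMod.val_natCast, Nat.mod_eq_of_lt i.2])
  right_inv j := ZMod.natCast_zmod_val j

/-- ordered products -/
def oprod (f : ℕ → A) (n : ℕ) : A := (List.ofFn (fun i : Fin n => f i.val)).prod

theorem oprod_zero (f : ℕ → A) : oprod f 0 = 1 := by simp [oprod]

theorem oprod_succ (f : ℕ → A) (n : ℕ) : oprod f (n + 1) = oprod f n * f n := by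
  rw [oprod, List.ofFn_succ_last, List.prod_append, List.prod_singleton, oprod]
  rfl

theorem oprod_pred (f : ℕ → A) {n : ℕ} (hn : 0 < n) :
    oprod f n = oprod f (n - 1) * f (n - 1) := by
  obtain ⟨q, rfl⟩ : ∃ q, n = q + 1 := ⟨n - 1, by omega⟩
  exact oprod_succ f q

theorem oprod_shift (a b : ℕ → A) (n : ℕ) :
    oprod (fun i => a i * b i) n * a n = a 0 * oprod (fun i => b i * a (i + 1)) n := by
  induction n with
  | zero => rw [oprod_zero, oprod_zero, one_mul, mul_one]
  | succ n ih =>
    rw [oprod_succ, oprod_succ, ← mul_assoc, ih]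
    simp only [mul_assoc]

theorem oprod_const (a : A) (n : ℕ) : oprod (fun _ => a) n = a ^ n := by
  induction n with
  | zero => rw [oprod_zero, pow_zero]
  | succ n ih => rw [oprod_succ, ih, pow_succ]

/-- the functional `a₀ ⊗ ... ⊗ a_{p-1} ↦ τ (a₀ ... a_{p-1})` -/
noncomputable def kap (τ : A →ₗ[ℤ_[p]] ℤ_[p]) : TP p A →ₗ[ℤ_[p]] ℤ_[p] :=
  PiTensorProduct.lift (τ.compMultilinearMap
    ((MultilinearMap.mkPiAlgebraFin ℤ_[p] p A).domDomCongr (fz p)))

theorem kap_tp (τ : A →ₗ[ℤ_[p]] ℤ_[p]) (m : ZMod p → A) :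
    kap p τ (tp p m) = τ (oprod (fun n => m n) p) := by
  rw [kap, PiTensorProduct.lift.tprod]
  rfl

theorem kap_tw (τ : A →ₗ[ℤ_[p]] ℤ_[p]) (hτ : ∀ a b, τ (a * b) = τ (b * a)) (x y : TP p A) :
    kap p τ (x * y) = kap p τ (y * sh p 1 x) := by
  induction x using tp_induction with
  | h1 r m =>
    induction y using tp_induction with
    | h1 s n =>
      rw [map_smul, smul_mul_assoc, smul_mul_assoc, mul_smul_comm, mul_smul_comm, map_smul,
        map_smul, map_smul, map_smul, sh_tp, tp_mul, tp_mul, kap_tp, kap_tp,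
        smul_comm r s]
      congr 2
      have e1 := oprod_shift (fun i => m (i : ZMod p)) (fun i => n (i : ZMod p)) (p - 1)
      have e2 : oprod (fun i => m (i : ZMod p) * n (i : ZMod p)) p =
          m 0 * (oprod (fun i => n (i : ZMod p) * m ((i + 1 : ℕ) : ZMod p)) (p - 1) *
            n ((p - 1 : ℕ) : ZMod p)) := by
        rw [oprod_pred _ hp.out.pos, ← mul_assoc, e1]
        simp only [Nat.cast_zero, mul_assoc]
      have e3 : oprod (fun i => n (i : ZMod p) * m ((i : ZMod p) + 1)) p =
          oprod (fun i => n (i : ZMod p) * m ((i + 1 : ℕ) : ZMod p)) (p - 1) *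
            n ((p - 1 : ℕ) : ZMod p) * m 0 := by
        rw [oprod_pred _ hp.out.pos]
        have : (((p - 1 : ℕ) : ZMod p) + 1) = 0 := by
          have h : ((p - 1 + 1 : ℕ) : ZMod p) = 0 := by
            rw [Nat.sub_add_cancel hp.out.pos]; exact ZMod.natCast_self p
          rwa [Nat.cast_succ] at h
        rw [this, mul_assoc]
        simp only [Nat.cast_succ]
      rw [e2, e3, hτ]
    | h2 y y' hy hy' => rw [mul_add, map_add, hy, hy', add_mul, map_add]
  | h2 x x' hx hx' => rw [add_mul, map_add, hx, hx', map_add, mul_add, map_add]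

/-- The structure on the tensor power. -/
noncomputable def tG (τ : A →ₗ[ℤ_[p]] ℤ_[p]) (hτ : ∀ a b, τ (a * b) = τ (b * a)) :
    TwTr p (TP p A) where
  act i := (sh p i).toRingHom
  act_zero := sh_zero p
  act_add := sh_add p
  κ := (kap p τ).toAddMonoidHom
  tw := kap_tw p τ hτ

theorem tG_act (τ : A →ₗ[ℤ_[p]] ℤ_[p]) (hτ : ∀ a b, τ (a * b) = τ (b * a)) (i : ZMod p)
    (x : TP p A) : (tG p τ hτ).act i x = sh p i x := rfl

/-- `a ↦ a ⊗ ... ⊗ a` -/
noncomputable def TT (a : A) : TP p A := tp p (fun _ => a)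

theorem TT_mul (a b : A) : TT p (a * b) = TT p a * TT p b := (tp_mul p _ _).symm

theorem TT_one : TT p (1 : A) = 1 := rfl

theorem sh_TT (i : ZMod p) (a : A) : sh p i (TT p a) = TT p a := sh_tp p i _

theorem TT_smul (r : ℤ_[p]) (a : A) : TT p (r • a) = r ^ p • TT p a := by
  have h := (PiTensorProduct.tprod ℤ_[p] (s := fun _ : ZMod p => A)).map_smul_univ
    (fun _ => r) (fun _ => a)
  rw [Finset.prod_const, Finset.card_univ, ZMod.card] at h
  exact h

/-- `TT` on units -/
noncomputable def TU : Aˣ →* (TP p A)ˣ where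
  toFun u :=
    { val := TT p (u : A)
      inv := TT p ((u⁻¹ : Aˣ) : A)
      val_inv := by rw [← TT_mul, Units.mul_inv, TT_one]
      inv_val := by rw [← TT_mul, Units.inv_mul, TT_one] }
  map_one' := Units.ext (TT_one p)
  map_mul' u w := Units.ext (TT_mul p _ _)

theorem TU_val (u : Aˣ) : (TU p u : TP p A) = TT p (u : A) := rfl

end Pool.Agent.H71.KP

end

section

/-!
# The integral logarithm of matrices over `ℤ_[p][G]`
-/

set_option autoImplicit false
set_option linter.unusedSectionVars false

open scoped TensorProduct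

universe u v w

namespace Pool.Agent.H71.KP

variable (p : ℕ) [hp : Fact p.Prime]

section Fn

variable {G : Type u} [Group G]

variable {p}

/-- The functional `∑ a_g g ↦ ∑ a_g f(g)` on a group ring. -/
noncomputable def fn (f : G → ℤ_[p]) : MonoidAlgebra ℤ_[p] G →ₗ[ℤ_[p]] ℤ_[p] where
  toFun a := a.coeff.sum fun g b => b * f g
  map_add' x y := by
    classical
    rw [MonoidAlgebra.coeff_add, Finsupp.sum_add_index'] <;> simp [add_mul]
  map_smul' r x := by
    classical
    rw [MonoidAlgebra.coeff_smul, Finsupp.sum_smul_index' (by simp), RingHom.id_apply,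
      smul_eq_mul, Finsupp.mul_sum]
    apply Finsupp.sum_congr
    intro g _
    rw [smul_eq_mul, mul_assoc]

omit [Group G] in
theorem fn_single (f : G → ℤ_[p]) (g : G) (b : ℤ_[p]) :
    fn f (MonoidAlgebra.single g b) = b * f g := by
  change (MonoidAlgebra.single g b).coeff.sum (fun g b => b * f g) = _
  rw [MonoidAlgebra.coeff_single, Finsupp.sum_single_index (by simp)]

theorem fn_comm (f : G → ℤ_[p]) (hf : ∀ x y, f (x * y) = f (y * x))
    (x y : MonoidAlgebra ℤ_[p] G) : fn f (x * y) = fn f (y * x) := by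
  induction x using MonoidAlgebra.induction_linear with
  | zero => rw [zero_mul, mul_zero]
  | add x x' hx hx' => rw [add_mul, mul_add, map_add, map_add, hx, hx']
  | single g b =>
    induction y using MonoidAlgebra.induction_linear with
    | zero => rw [zero_mul, mul_zero]
    | add y y' hy hy' => rw [add_mul, mul_add, map_add, map_add, hy, hy']
    | single h c =>
      rw [MonoidAlgebra.single_mul_single, MonoidAlgebra.single_mul_single, fn_single,
        fn_single, hf, mul_comm b c]

end Fn

section Mat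

variable (G : Type u) [Group G] (n : ℕ)

/-- matrices over the group ring -/
abbrev MG : Type u := Matrix (Fin n) (Fin n) (MonoidAlgebra ℤ_[p] G)

variable {G n}

/-- basis elements -/
noncomputable def EE (i k : Fin n) (g : G) : MG p G n :=
  Matrix.single i k (MonoidAlgebra.single g 1)

theorem EE_mul (i k l m : Fin n) (g h : G) :
    EE p i k g * EE p l m h = if k = l then EE p i m (g * h) else 0 := by
  split_ifs with hk
  · subst hk
    rw [EE, EE, Matrix.single_mul_single_same, MonoidAlgebra.single_mul_single, one_mul]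
    rfl
  · rw [EE, EE, Matrix.single_mul_single_of_ne _ _ _ _ hk]

/-- the diagonal tensors -/
noncomputable def DD (i k : Fin n) (g : G) : TP p (MG p G n) := TT p (EE p i k g)

theorem TT_zero {A : Type u} [Ring A] [Algebra ℤ_[p] A] : TT p (0 : A) = 0 :=
  (PiTensorProduct.tprod ℤ_[p] (s := fun _ : ZMod p => A)).map_coord_zero 0 rfl

theorem DD_mul (i k l m : Fin n) (g h : G) :
    DD p i k g * DD p l m h = if k = l then DD p i m (g * h) else 0 := by
  rw [DD, DD, ← TT_mul, EE_mul]
  split_ifs
  · rfl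
  · exact TT_zero p

/-- the components of `Psi` -/
noncomputable def psiE (i k : Fin n) : MonoidAlgebra ℤ_[p] G →+ TP p (MG p G n) where
  toFun a := a.coeff.sum fun g r => r • DD p i k g
  map_zero' := by simp
  map_add' x y := by
    classical
    rw [MonoidAlgebra.coeff_add, Finsupp.sum_add_index'] <;> simp [add_smul]

theorem psiE_single (i k : Fin n) (g : G) (r : ℤ_[p]) :
    psiE p i k (MonoidAlgebra.single g r) = r • DD p i k g := by
  change (MonoidAlgebra.single g r).coeff.sum (fun g r => r • DD p i k g) = _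
  rw [MonoidAlgebra.coeff_single, Finsupp.sum_single_index (by simp)]

theorem psiE_mul (i k l m : Fin n) (a b : MonoidAlgebra ℤ_[p] G) :
    psiE p i k a * psiE p l m b = if k = l then psiE p i m (a * b) else 0 := by
  induction a using MonoidAlgebra.induction_linear with
  | zero => simp
  | add x y hx hy =>
    rw [map_add, add_mul, hx, hy]
    split_ifs
    · rw [add_mul, map_add]
    · rw [add_zero]
  | single g r =>
    induction b using MonoidAlgebra.induction_linear with
    | zero => simp
    | add x y hx hy =>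
      rw [map_add, mul_add, hx, hy]
      split_ifs
      · rw [mul_add, map_add]
      · rw [add_zero]
    | single h s =>
      rw [psiE_single, psiE_single, smul_mul_smul_comm, DD_mul]
      split_ifs
      · rw [MonoidAlgebra.single_mul_single, psiE_single]
      · rw [smul_zero]

/-- the map `Psi` -/
noncomputable def Psi (G : Type u) [Group G] (n : ℕ) : MG p G n →ₙ+* TP p (MG p G n) where
  toFun w := ∑ i, ∑ k, psiE p i k (w i k)
  map_zero' := by simp
  map_add' w w' := by simp [Finset.sum_add_distrib]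
  map_mul' w w' := by
    have h1 : ∀ i k, psiE p i k (w i k) * ∑ l, ∑ m, psiE p l m (w' l m) =
        ∑ m, psiE p i m (w i k * w' k m) := by
      intro i k
      rw [Finset.mul_sum, Finset.sum_eq_single k]
      · rw [Finset.mul_sum]
        apply Finset.sum_congr rfl
        intro m _
        rw [psiE_mul, if_pos rfl]
      · intro l _ hl
        rw [Finset.mul_sum]
        apply Finset.sum_eq_zero
        intro m _
        rw [psiE_mul, if_neg (Ne.symm hl)]
      · intro h
        exact absurd (Finset.mem_univ _) h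
    rw [Finset.sum_mul]
    apply Finset.sum_congr rfl
    intro i _
    rw [Finset.sum_mul]
    simp only [h1, Matrix.mul_apply, map_sum]
    exact Finset.sum_comm

theorem Psi_apply (w : MG p G n) : Psi p G n w = ∑ i, ∑ k, psiE p i k (w i k) := rfl

theorem Psi_single (i k : Fin n) (x : MonoidAlgebra ℤ_[p] G) :
    Psi p G n (Matrix.single i k x) = psiE p i k x := by
  rw [Psi_apply, Finset.sum_eq_single i]
  · rw [Finset.sum_eq_single k]
    · rw [Matrix.single_apply_same]
    · intro l _ hl
      rw [Matrix.single_apply_of_ne _ _ _ _ _ (by simp [Ne.symm hl]), map_zero]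
    · intro h
      exact absurd (Finset.mem_univ _) h
  · intro l _ hl
    apply Finset.sum_eq_zero
    intro m _
    rw [Matrix.single_apply_of_ne _ _ _ _ _ (by simp [Ne.symm hl]), map_zero]
  · intro h
    exact absurd (Finset.mem_univ _) h

/-- induction on matrices over the group ring -/
theorem MG_induction {P : MG p G n → Prop} (h0 : P 0) (ha : ∀ x y, P x → P y → P (x + y))
    (h1 : ∀ (r : ℤ_[p]) (i k : Fin n) (g : G), P (r • EE p i k g)) (w : MG p G n) : P w := by
  induction w using Matrix.induction_on' with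
  | h_zero => exact h0
  | h_add x y hx hy => exact ha x y hx hy
  | h_std_basis i k x =>
    induction x using MonoidAlgebra.induction_linear with
    | zero => rwa [Matrix.single_zero]
    | add x y hx hy =>
      rw [Matrix.single_add]
      exact ha _ _ hx hy
    | single g r =>
      have := h1 r i k g
      rwa [EE, Matrix.smul_single, MonoidAlgebra.smul_single, smul_eq_mul, mul_one] at this

theorem Psi_smul_EE (r : ℤ_[p]) (i k : Fin n) (g : G) :
    Psi p G n (r • EE p i k g) = r • DD p i k g := by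
  rw [EE, Matrix.smul_single, MonoidAlgebra.smul_single, smul_eq_mul, mul_one, Psi_single,
    psiE_single]

/-- the trace followed by the functional of `f` -/
noncomputable def trf (f : G → ℤ_[p]) (n : ℕ) : MG p G n →ₗ[ℤ_[p]] ℤ_[p] :=
  (fn f).comp (Matrix.traceLinearMap (Fin n) ℤ_[p] (MonoidAlgebra ℤ_[p] G))

theorem trf_apply (f : G → ℤ_[p]) (w : MG p G n) : trf p f n w = ∑ i, fn f (w i i) := by
  change fn f (Matrix.trace w) = _
  rw [Matrix.trace, map_sum]
  rfl

theorem trf_comm (f : G → ℤ_[p]) (hf : ∀ x y, f (x * y) = f (y * x)) (a b : MG p G n) :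
    trf p f n (a * b) = trf p f n (b * a) := by
  rw [trf_apply, trf_apply]
  simp only [Matrix.mul_apply, map_sum]
  rw [Finset.sum_comm]
  apply Finset.sum_congr rfl
  intro i _
  apply Finset.sum_congr rfl
  intro k _
  rw [fn_comm f hf]

theorem trf_EE (f : G → ℤ_[p]) (i k : Fin n) (g : G) :
    trf p f n (EE p i k g) = if i = k then f g else 0 := by
  rw [trf_apply, EE]
  split_ifs with h
  · subst h
    rw [Finset.sum_eq_single i]
    · rw [Matrix.single_apply_same, fn_single, one_mul]
    · intro l _ hl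
      rw [Matrix.single_apply_of_ne _ _ _ _ _ (by simp [Ne.symm hl]), map_zero]
    · intro h
      exact absurd (Finset.mem_univ _) h
  · apply Finset.sum_eq_zero
    intro l _
    rw [Matrix.single_apply_of_ne, map_zero]
    rintro ⟨rfl, h2⟩
    exact h h2.symm

theorem EE_pow (i k : Fin n) (g : G) (m : ℕ) :
    EE p i k g ^ (m + 1) = if i = k ∨ m = 0 then EE p i k (g ^ (m + 1)) else 0 := by
  induction m with
  | zero => simp
  | succ m ih =>
    rw [pow_succ, ih]
    by_cases h : i = k
    · subst h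
      rw [if_pos (Or.inl rfl), if_pos (Or.inl rfl), EE_mul, if_pos rfl, ← pow_succ]
    · have h2 : ¬ (i = k ∨ m + 1 = 0) := by simp [h]
      rw [if_neg h2]
      split_ifs
      · rw [EE_mul, if_neg (Ne.symm h)]
      · rw [zero_mul]

variable (f : G → ℤ_[p]) (hf : ∀ x y, f (x * y) = f (y * x))

/-- `trf` as an additive map -/
noncomputable def trA (f : G → ℤ_[p]) (n : ℕ) : MG p G n →+ ℤ_[p] := (trf p f n).toAddMonoidHom

end Mat

section Nat

variable {G : Type u} [Group G] {H : Type v} [Group H] (φ : G →* H) (n : ℕ)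

/-- the induced map on matrices -/
noncomputable def glA : MG p G n →ₐ[ℤ_[p]] MG p H n :=
  (MonoidAlgebra.mapDomainAlgHom ℤ_[p] ℤ_[p] φ).mapMatrix

theorem glA_EE (r : ℤ_[p]) (i k : Fin n) (g : G) :
    glA p φ n (r • EE p i k g) = r • EE p i k (φ g) := by
  rw [map_smul]
  congr 1
  refine Matrix.ext fun a b => ?_
  change MonoidAlgebra.mapDomain φ ((EE p i k g) a b) = (EE p i k (φ g)) a b
  rw [EE, EE, Matrix.single_apply, Matrix.single_apply]
  split_ifs
  · rw [MonoidAlgebra.mapDomain_single]
  · simp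

end Nat

end Pool.Agent.H71.KP

end
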