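import Pool.Agent.H71.TCZ.H16.FU.Asm1
import Pool.Agent.H71.TCZ.M08
import Pool.Agent.H71.TCZ.M10
import Pool.Agent.H71.TCZ.M21
import Pool.Agent.H71.TCZ.M34
import Pool.Agent.H71.TCZ.M37
import Pool.Agent.H71.TCZ.M44
import Pool.Agent.H71.TCZ.M48
import Pool.Agent.H71.TCZ.M49

/-! The parts of this file: H71.KP.ResP, H71.KP.Ring_1, H39.KL.ValA, H71.FU0.Defs0. -/

section

/-!
# The logarithm of the restriction
-/

set_option autoImplicit false
set_option linter.unusedSectionVars false
set_option linter.unusedSimpArgs false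

open Matrix
open scoped Classical

universe u v w t

namespace Pool.Agent.H71.KP

variable {p : ℕ} [hp : Fact p.Prime] {H : Type w} [CommGroup H] [Finite H]

theorem tr_resR (E : Subgroup H) [Fintype (H ⧸ E)] (c : E) (x : MonoidAlgebra ℤ_[p] H) :
    fn (dlt p c) (trace (resR ℤ_[p] E x)) = (Nat.card (H ⧸ E) : ℤ_[p]) * fn (dlt p (c : H)) x := by
  induction x using MonoidAlgebra.induction_linear with
  | zero => simp
  | add x y hx hy => rw [map_add, trace_add, map_add, hx, hy, map_add, mul_add]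
  | single h n =>
    rw [fn_single, trace, map_sum]
    have h1 : ∀ q : H ⧸ E, fn (dlt p c) ((resR ℤ_[p] E (MonoidAlgebra.single h n)).diag q) =
        n * dlt p (c : H) h := by
      intro q
      change fn (dlt p c) (resA ℤ_[p] E (MonoidAlgebra.single h n) q q) = _
      rw [resA_single]
      have h2 : q.out⁻¹ * h * q.out = h := by
        rw [mul_comm, ← mul_assoc, mul_inv_cancel, one_mul]
      by_cases hh : q.out⁻¹ * h * q.out ∈ E
      · rw [dif_pos hh, fn_single]
        congr 1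
        unfold dlt
        congr 1
        rw [Subtype.ext_iff]
        change (q.out⁻¹ * h * q.out = (c : H)) = (h = (c : H))
        rw [h2]
      · rw [dif_neg hh, map_zero, dlt, if_neg, mul_zero]
        intro h3
        apply hh
        rw [h2, h3]
        exact c.2
    simp only [h1]
    rw [Finset.sum_const, Finset.card_univ, Nat.card_eq_fintype_card, nsmul_eq_mul]

theorem det_C3 {B : Type u} [CommRing B] {ι : Type v} [Fintype ι] [DecidableEq ι]
    {W : Matrix ι ι B} (h : C3 p W) : C3 p (det W) := det_cong_nat (p ^ 3) h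

theorem LU_resU (E : Subgroup H) [Fintype (H ⧸ E)] (c : E) (x : (MonoidAlgebra ℤ_[p] H)ˣ) :
    LU (dlt p c) (resU E x) = (Nat.card (H ⧸ E) : ℚ_[p]) * LU (dlt p (c : H)) x := by
  have h1 : ((resU E x ^ NP p H : (MonoidAlgebra ℤ_[p] E)ˣ) : MonoidAlgebra ℤ_[p] E) =
      det (resR ℤ_[p] E ((x ^ NP p H : (MonoidAlgebra ℤ_[p] H)ˣ) : MonoidAlgebra ℤ_[p] H)) := by
    rw [← map_pow, resU_val]
  have h2 : C3 p (resR ℤ_[p] E ((x ^ NP p H : (MonoidAlgebra ℤ_[p] H)ˣ) :
      MonoidAlgebra ℤ_[p] H)) := (C3_pow_NP x).map _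
  have h3 : LU (dlt p c) (resU E x) = (NP p H : ℚ_[p])⁻¹ *
      L (fnA (dlt p c)) ((resU E x ^ NP p H : (MonoidAlgebra ℤ_[p] E)ˣ) :
        MonoidAlgebra ℤ_[p] E) :=
    LU_eq (dlt p c) (fun a b => by rw [mul_comm]) _ (NP p H) NP_ne_zero (by
      rw [h1]
      exact det_C3 h2)
  rw [h3, h1, LU]
  have h4 := L_det (fnA (dlt p c)) h2.cong
  have h5 : L (fnA (dlt p c)) (det (resR ℤ_[p] E ((x ^ NP p H : (MonoidAlgebra ℤ_[p] H)ˣ) :
      MonoidAlgebra ℤ_[p] H))) = (Nat.card (H ⧸ E) : ℚ_[p]) *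
      L (fnA (dlt p (c : H))) ((x ^ NP p H : (MonoidAlgebra ℤ_[p] H)ˣ) :
        MonoidAlgebra ℤ_[p] H) := by
    refine h4.trans ?_
    rw [L_map, L, L]
    have h6 := tl_mul_fun (fnA (dlt p (c : H)))
      (pull (resR ℤ_[p] E) (ttr (fnA (dlt p c)) (H ⧸ E)))
      (((x ^ NP p H : (MonoidAlgebra ℤ_[p] H)ˣ) : MonoidAlgebra ℤ_[p] H) - 1)
      (Nat.card (H ⧸ E) : ℤ_[p]) (by
        intro r
        rw [pull_apply, ttr_apply]
        exact tr_resR E c r)
    rw [h6]
    norm_cast
  rw [h5]
  ring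

end Pool.Agent.H71.KP

end

section

/-!
# Change of rings for the colimit and the Whitehead groups
-/

set_option autoImplicit false
set_option linter.unusedSectionVars false

open Matrix

universe u v w t

namespace Pool.Agent.H71.KP

open Pool.Agent.H71.WH (K1 K1.mk K1.unit CycSub conjHom)

section Cl

end Cl

section Lift

end Lift

section Ring

variable {R : Type u} [CommRing R] {S : Type t} [CommRing S] (φ : R →+* S)

variable (G : Type v) [Group G]

theorem K1map_trivial :
    trivialK1 R G ≤ (trivialK1 S G).comap (K1map (MonoidAlgebra.mapRingHom G φ)) := by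
  rw [trivialK1, AddSubgroup.closure_le]
  rintro z ⟨x, ⟨g, e, he, hx⟩, rfl⟩
  refine AddSubgroup.subset_closure ⟨uMap φ G x, ⟨g, φ e, ?_, ?_⟩, ?_⟩
  · rcases he with rfl | rfl
    · exact Or.inl (map_one φ)
    · exact Or.inr (by rw [map_neg, map_one])
  · rw [uMap_val, hx, MonoidAlgebra.mapRingHom_single]
  · exact (K1map_unit _ x).symm

/-- change of rings for `Wh` -/
noncomputable def whMap : Wh R G →+ Wh S G :=
  QuotientAddGroup.map (trivialK1 R G) (trivialK1 S G) (K1map (MonoidAlgebra.mapRingHom G φ))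
    (K1map_trivial φ G)

theorem whMap_unit (x : (MonoidAlgebra R G)ˣ) : whMap φ G (Wh.unit x) = Wh.unit (uMap φ G x) := by
  change (QuotientAddGroup.mk (K1map (MonoidAlgebra.mapRingHom G φ) (K1.unit x)) : Wh S G) = _
  rw [K1map_unit]
  rfl

theorem whMap_incWh (C : CycSub G) (x : (MonoidAlgebra R C.1)ˣ) :
    whMap φ G (incWh C x) = incWh C (uMap φ C.1 x) := by
  rw [incWh, whMap_unit, uMap_unitsMap]
  rfl

theorem whMap_assembly (z : ColimU R G) :
    whMap φ G (assembly R G z) = assembly S G (colimMap φ G z) := by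
  induction z using colim_induction with
  | h0 => rw [map_zero, map_zero, map_zero, map_zero]
  | h1 C x => rw [assembly_cl, whMap_incWh, colimMap_cl, assembly_cl]
  | h2 a b ha hb => rw [map_add, map_add, ha, hb, map_add, map_add]

end Ring

end Pool.Agent.H71.KP

end

section

/-!
# Project KL: the value of the functional on the products `U × z`, formula for chains

PROOF of `val_chain`.  Both sides are additive in `z`, so let `z = (y_0, …, y_k)` be a tuple.  The prism `pri U` is the sum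
over `i ≤ k` of `(-1) ^ i` times the tuple `x^(i) = (y_0, …, y_i, y_i U, …, y_k U)` (`pri_single`, `priT`; `U` stands for the
matrix over the group ring of `G`, the `y_j` for the scalar matrices, which commute with it, `scal_comm`).  `TR_t`; the
repeated tuple `rep q x^(i)` has the form of `TT_mono` with `f = D.subtype`, `A = rep q (1, …, 1, U, …, U)` and the elements
`y = rep q (y_0, …, y_i, y_i, …, y_k)` of `G`, so the value is `∑ d, TT d (mph ..) A`.  If `d` is not conjugate to `c` then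
`mph .. = 0`.  Otherwise `mph_eq` with `u = uc c d`, and `TT_dup` (`s (b, j) = (b, 0)` if `j ≤ i`, `(b, 1)` if `j > i`) gives
`TR q d Ψ_i (QC.t N ![1, U])` with `Ψ_i (δ, δ') = phiG ψ τ v`, `v_j b = u * δ b * y_j` for `j ≤ i`, `v_j b = u * δ' b * y_{j-1}` for
`j > i`.  Since `u * δ b * y = (u * y * u⁻¹) * (u * δ b)` and `u * y * u⁻¹` commutes with `c = u * d * u⁻¹`, `IsTau.inv` gives
`τ v_j = tauC τ c d δ` for `j ≤ i` and `= tauC τ c d δ'` for `j > i`.  So for `i < k` the factor `tl B τ v_k v_{k+1}` is `0`, and for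
`i = k` it is `tl B (tauC τ c d) δ δ'`, the other factor is `psC ψ c d δ y`.
-/

set_option autoImplicit false

open Matrix

universe u v w

namespace Pool.Agent.H39.KL

open Pool.Agent.H71.FQ Pool.Agent.H16.KN Pool.Agent.H16.FU

section

variable {G : Type u} [Group G]

/-- an element which conjugates `d` to `c` -/
noncomputable def uc (c : G) {D : Subgroup G} (d : D) : G :=
  (Pool.Agent.H71.DB.xc c (d : G))⁻¹

theorem uc_spec (c : G) {D : Subgroup G} (d : D) (h : IsConj c (d : G)) :
    uc c d * d * (uc c d)⁻¹ = c := by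
  have h1 := Pool.Agent.H71.DB.xc_spec c h
  unfold uc
  calc (Pool.Agent.H71.DB.xc c (d : G))⁻¹ * (d : G) * ((Pool.Agent.H71.DB.xc c (d : G))⁻¹)⁻¹ =
      (Pool.Agent.H71.DB.xc c (d : G))⁻¹ * (Pool.Agent.H71.DB.xc c (d : G) * c *
        (Pool.Agent.H71.DB.xc c (d : G))⁻¹) * ((Pool.Agent.H71.DB.xc c (d : G))⁻¹)⁻¹ := by rw [h1]
    _ = c := by group

/-- the transport of `τ` -/
noncomputable def tauC {q : ℕ} (τ : (Fin q → G) → ZMod q) (c : G) {D : Subgroup G} (d : D)
    (δ : Fin q → D) : ZMod q := τ fun b => uc c d * δ b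

theorem isTau_tauC {p m r : ℕ} {c : G} {τ : (Fin (p ^ m) → G) → ZMod (p ^ m)}
    (hτ : IsTau p m r c τ) {D : Subgroup G} (d : D) (h : IsConj c (d : G)) :
    IsTau p m r d (tauC τ c d) := IsTau.comp hτ D.subtype (uc c d) d (uc_spec c d h)

variable {B : Type v} [CommRing B] {k : ℕ}

/-- the transport of `ψ` -/
noncomputable def psC {q : ℕ} (ψ : (Fin (k + 1) → Fin q → G) → B) (c : G) {D : Subgroup G} (d : D)
    (δ : Fin q → D) (y : Fin (k + 1) → Subgroup.centralizer (D : Set G)) : B :=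
  ψ fun j b => uc c d * δ b * y j

/-- the chain of the product `U × z` -/
noncomputable def prUz (B : Type v) [CommRing B] {G : Type u} [Group G] (D : Subgroup G) {N : ℕ}
    (U : GLm N (MonoidAlgebra B D)) {k : ℕ} (z : Cx ℤ (Subgroup.centralizer (D : Set G)) k) :
    Cx ℤ (GLm N (MonoidAlgebra B G)) (k + 1) :=
  pri (mapGL (MonoidAlgebra.mapDomainRingHom B D.subtype) N U) k
    (push ℤ (scal N ((grpHom B G).comp (Subgroup.centralizer (D : Set G)).subtype)) k z)

/-- the block degeneracy -/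
def sI (q : ℕ) (i : Fin (k + 1)) (t : Fin (q * (k + 1 + 1))) : Fin (q * (1 + 1)) :=
  finProdFinEquiv ((finProdFinEquiv.symm t).1,
    if i.castSucc < (finProdFinEquiv.symm t).2 then 1 else 0)

theorem sI_mono (q : ℕ) (i : Fin (k + 1)) : Monotone (sI q i) := by
  intro s t hst
  obtain ⟨⟨b, j⟩, rfl⟩ := finProdFinEquiv.surjective s
  obtain ⟨⟨b', j'⟩, rfl⟩ := finProdFinEquiv.surjective t
  rw [sI, sI, Equiv.symm_apply_apply, Equiv.symm_apply_apply]
  simp only [Fin.le_def, finProdFinEquiv_apply_val] at hst ⊢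
  have h1 : (j : ℕ) < k + 1 + 1 := j.2
  have h2 : (j' : ℕ) < k + 1 + 1 := j'.2
  have h3 : ((if i.castSucc < j then (1 : Fin (1 + 1)) else 0 : Fin (1 + 1)) : ℕ) < 1 + 1 :=
    (if i.castSucc < j then (1 : Fin (1 + 1)) else 0 : Fin (1 + 1)).2
  rcases lt_trichotomy (b : ℕ) (b' : ℕ) with h | h | h
  · have h4 : (1 + 1) * ((b : ℕ) + 1) ≤ (1 + 1) * (b' : ℕ) := Nat.mul_le_mul_left _ h
    omega
  · rw [h] at hst ⊢
    have h6 : j ≤ j' := by
      rw [Fin.le_def]
      omega
    by_cases h7 : i.castSucc < j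
    · rw [if_pos h7, if_pos (lt_of_lt_of_le h7 h6)]
    · rw [if_neg h7]
      show 0 + _ ≤ _
      omega
  · exfalso
    have h4 : (k + 1 + 1) * ((b' : ℕ) + 1) ≤ (k + 1 + 1) * (b : ℕ) := Nat.mul_le_mul_left _ h
    have h5 : (k + 1 + 1) * ((b' : ℕ) + 1) = (k + 1 + 1) * (b' : ℕ) + (k + 1 + 1) := by ring
    omega

theorem sI_surj (q : ℕ) (i : Fin (k + 1)) : Function.Surjective (sI q i) := by
  intro t
  obtain ⟨⟨b, e⟩, rfl⟩ := finProdFinEquiv.surjective t
  have he : e = 0 ∨ e = 1 := by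
    rcases e with ⟨e, he⟩
    rcases Nat.lt_succ_iff_lt_or_eq.1 he with h | h
    · left
      ext
      show e = 0
      omega
    · right
      ext
      exact h
  rcases he with rfl | rfl
  · refine ⟨finProdFinEquiv (b, 0), ?_⟩
    rw [sI, Equiv.symm_apply_apply]
    show finProdFinEquiv (b, if i.castSucc < 0 then (1 : Fin (1 + 1)) else 0) = _
    rw [if_neg (Fin.not_lt_zero _)]
  · refine ⟨finProdFinEquiv (b, Fin.last (k + 1)), ?_⟩
    rw [sI, Equiv.symm_apply_apply]
    show finProdFinEquiv (b, if i.castSucc < Fin.last (k + 1) then (1 : Fin (1 + 1)) else 0) = _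
    rw [if_pos (Fin.castSucc_lt_last i)]

theorem TT_zero {K : ℕ} [NeZero K] {H : Type*} [Group H] (c : H) {φ : (Fin K → H) → B} (h : ∀ v, φ v = 0)
    {N : ℕ} (x : Fin K → GLm N (MonoidAlgebra B H)) : TT c φ x = 0 := by
  have e : φ = fun v => (0 : B) * φ v := by
    funext v
    rw [h v, mul_zero]
  unfold TT
  rw [e, TM_smul, zero_mul]

omit [CommRing B] in
theorem CI_flat' {c : G} {q : ℕ} {Φ : (Fin (k + 1) → Fin q → G) → B} (hΦ : CIq c q Φ) :
    CI c (flat q Φ) := fun g hg _ => hΦ g hg _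

/-- the values of `τ` -/
theorem tau_val {p m r : ℕ} {D : Subgroup G} {c : G}
    {τ : (Fin (p ^ m) → G) → ZMod (p ^ m)} (hτ : IsTau p m r c τ) (d : D) (hd : IsConj c (d : G))
    (y : Subgroup.centralizer (D : Set G)) (w : Fin (p ^ m) → D) :
    τ (fun b => uc c d * w b * y) = tauC τ c d w := by
  have h1 : ((uc c d * y * (uc c d)⁻¹) * c : G) = c * (uc c d * y * (uc c d)⁻¹) := by
    have h2 : (d : G) * y = y * d := Subgroup.mem_centralizer_iff.1 y.2 d d.2
    have h3 := uc_spec c d hd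
    generalize uc c d = u at h3 ⊢
    rw [← h3]
    calc u * y * u⁻¹ * (u * d * u⁻¹) = u * (y * d) * u⁻¹ := by group
      _ = u * (d * y) * u⁻¹ := by rw [h2]
      _ = u * d * u⁻¹ * (u * y * u⁻¹) := by group
  have h3 := hτ.inv _ h1 fun b => uc c d * w b
  show _ = τ fun b => uc c d * w b
  rw [← h3]
  congr 1
  funext b
  have h2 : (w b : G) * y = y * w b := Subgroup.mem_centralizer_iff.1 y.2 (w b) (w b).2
  show uc c d * w b * y = uc c d * y * (uc c d)⁻¹ * (uc c d * w b)
  calc uc c d * w b * y = uc c d * (w b * y) := by group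
    _ = uc c d * (y * w b) := by rw [h2]
    _ = uc c d * y * (uc c d)⁻¹ * (uc c d * w b) := by group

end

end Pool.Agent.H39.KL

end

section

/-!
# Project FU, degree one: the colimit of the groups `K₁(R[F])`, the joint assembly map in degree one

`H0K1 R G` is the colimit of the groups `K₁(R[F])` over the finite subgroups `F` of `G`, `assembly10 R G` the map to
`KQ (R[G]) 0`, `assembly00 R G` the joint assembly map in degree one. The reductions of `FU1` in degree one.
-/

set_option autoImplicit false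

open Matrix
open scoped TensorProduct

universe u u' v w

namespace Pool.Agent.H71.FU0

open Pool.Agent.H71.FQ
open Pool.Agent.H71.FJ (K0 K0.map K0.flat K0.push K0.push_congr K0.map_push K0.push_map K0.nilLift_map NilKer)
open Pool.Agent.H95.WH (K1 K1.mk K1.lift K1.lift_mk K1.hom_ext K1.map K1.map_mk K1.map_map FamSub conjHom FinSub K1_map_conj)

section

variable (R : Type u) [Ring R] (G : Type v) [Group G]

/-- the symbols `[F, x]` -/
abbrev Sy10 : Type (max u v) := Σ F : FamSub G FinSub, K1 (MonoidAlgebra R F.1)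

/-- the relations -/
noncomputable def Rel10 : AddSubgroup (FreeAbelianGroup (Sy10 R G)) :=
  AddSubgroup.closure
    ({w | ∃ (F : FamSub G FinSub) (x y : K1 (MonoidAlgebra R F.1)),
        w = FreeAbelianGroup.of (⟨F, x + y⟩ : Sy10 R G) -
          (FreeAbelianGroup.of ⟨F, x⟩ + FreeAbelianGroup.of ⟨F, y⟩)} ∪
      {w | ∃ (F F' : FamSub G FinSub) (g : G) (h : ∀ x ∈ F.1, g * x * g⁻¹ ∈ F'.1)
        (x : K1 (MonoidAlgebra R F.1)),
        w = FreeAbelianGroup.of (⟨F', K1.map (MonoidAlgebra.mapDomainRingHom R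
          (conjHom g F.1 F'.1 h)) x⟩ : Sy10 R G) - FreeAbelianGroup.of ⟨F, x⟩})

/-- the colimit of the groups `K₁(R[F])` -/
def H0K1 : Type (max u v) := FreeAbelianGroup (Sy10 R G) ⧸ Rel10 R G

noncomputable instance instH0K1 : AddCommGroup (H0K1 R G) :=
  QuotientAddGroup.Quotient.addCommGroup (Rel10 R G)

end

section

variable {R : Type u} [Ring R] {S : Type u'} [Ring S] {G : Type v} [Group G]

theorem of_eq_add (F : FamSub G FinSub) (x y : K1 (MonoidAlgebra R F.1)) :
    (QuotientAddGroup.mk (FreeAbelianGroup.of (⟨F, x + y⟩ : Sy10 R G)) : H0K1 R G) =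
      QuotientAddGroup.mk (FreeAbelianGroup.of (⟨F, x⟩ : Sy10 R G)) +
        QuotientAddGroup.mk (FreeAbelianGroup.of (⟨F, y⟩ : Sy10 R G)) := by
  have h : FreeAbelianGroup.of (⟨F, x + y⟩ : Sy10 R G) -
      (FreeAbelianGroup.of (⟨F, x⟩ : Sy10 R G) + FreeAbelianGroup.of (⟨F, y⟩ : Sy10 R G)) ∈
        Rel10 R G := AddSubgroup.subset_closure (Or.inl ⟨F, x, y, rfl⟩)
  exact (QuotientAddGroup.eq_iff_sub_mem (N := Rel10 R G)).2 h

/-- the class of `[F, x]` -/
noncomputable def cl (F : FamSub G FinSub) : K1 (MonoidAlgebra R F.1) →+ H0K1 R G :=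
  AddMonoidHom.mk' (fun x => (QuotientAddGroup.mk (FreeAbelianGroup.of (⟨F, x⟩ : Sy10 R G)) :
    H0K1 R G)) (of_eq_add F)

theorem cl_conj (F F' : FamSub G FinSub) (g : G) (h : ∀ x ∈ F.1, g * x * g⁻¹ ∈ F'.1)
    (x : K1 (MonoidAlgebra R F.1)) :
    cl F' (K1.map (MonoidAlgebra.mapDomainRingHom R (conjHom g F.1 F'.1 h)) x) = cl F x := by
  have h : FreeAbelianGroup.of (⟨F', K1.map (MonoidAlgebra.mapDomainRingHom R
          (conjHom g F.1 F'.1 h)) x⟩ : Sy10 R G) - FreeAbelianGroup.of (⟨F, x⟩ : Sy10 R G) ∈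
        Rel10 R G := AddSubgroup.subset_closure (Or.inr ⟨F, F', g, h, x, rfl⟩)
  exact (QuotientAddGroup.eq_iff_sub_mem (N := Rel10 R G)).2 h

theorem h0k1_induction {P : H0K1 R G → Prop} (h0 : P 0)
    (h1 : ∀ (F : FamSub G FinSub) (x : K1 (MonoidAlgebra R F.1)), P (cl F x))
    (h2 : ∀ a b, P a → P b → P (a + b)) (h3 : ∀ a, P a → P (-a)) (w : H0K1 R G) : P w := by
  obtain ⟨y, rfl⟩ : ∃ y, (QuotientAddGroup.mk y : H0K1 R G) = w := QuotientAddGroup.mk_surjective w
  induction y using FreeAbelianGroup.induction_on with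
  | zero => exact h0
  | of s => exact h1 s.1 s.2
  | neg s _ => exact h3 _ (h1 s.1 s.2)
  | add x y hx hy => exact h2 _ _ hx hy

theorem h0k1_ext {M : Type*} [AddCommGroup M] {f g : H0K1 R G →+ M}
    (h : ∀ (F : FamSub G FinSub) (x : K1 (MonoidAlgebra R F.1)), f (cl F x) = g (cl F x)) :
    f = g := by
  ext x
  induction x using h0k1_induction with
  | h0 => rw [map_zero, map_zero]
  | h1 F x => exact h F x
  | h2 a b ha hb => rw [map_add, map_add, ha, hb]
  | h3 a ha => rw [map_neg, map_neg, ha]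

/-- homomorphisms out of the colimit -/
noncomputable def lift10 {M : Type*} [AddCommGroup M]
    (f : ∀ F : FamSub G FinSub, K1 (MonoidAlgebra R F.1) →+ M)
    (hf : ∀ (F F' : FamSub G FinSub) (g : G) (h : ∀ x ∈ F.1, g * x * g⁻¹ ∈ F'.1)
      (x : K1 (MonoidAlgebra R F.1)),
      f F' (K1.map (MonoidAlgebra.mapDomainRingHom R (conjHom g F.1 F'.1 h)) x) = f F x) :
    H0K1 R G →+ M :=
  QuotientAddGroup.lift (Rel10 R G) (FreeAbelianGroup.lift fun s : Sy10 R G => f s.1 s.2) (by
    rw [Rel10, AddSubgroup.closure_le]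
    rintro w (⟨F, x, y, rfl⟩ | ⟨F, F', g, h, x, rfl⟩)
    · change FreeAbelianGroup.lift _ _ = 0
      rw [map_sub, map_add, FreeAbelianGroup.lift_apply_of, FreeAbelianGroup.lift_apply_of,
        FreeAbelianGroup.lift_apply_of, map_add, sub_self]
    · change FreeAbelianGroup.lift _ _ = 0
      rw [map_sub, FreeAbelianGroup.lift_apply_of, FreeAbelianGroup.lift_apply_of, sub_eq_zero]
      exact hf F F' g h x)

theorem lift10_cl {M : Type*} [AddCommGroup M]
    (f : ∀ F : FamSub G FinSub, K1 (MonoidAlgebra R F.1) →+ M)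
    (hf : ∀ (F F' : FamSub G FinSub) (g : G) (h : ∀ x ∈ F.1, g * x * g⁻¹ ∈ F'.1)
      (x : K1 (MonoidAlgebra R F.1)),
      f F' (K1.map (MonoidAlgebra.mapDomainRingHom R (conjHom g F.1 F'.1 h)) x) = f F x)
    (F : FamSub G FinSub) (x : K1 (MonoidAlgebra R F.1)) : lift10 f hf (cl F x) = f F x :=
  FreeAbelianGroup.lift_apply_of (fun s : Sy10 R G => f s.1 s.2) ⟨F, x⟩

end

section

variable (R : Type u) [Ring R] (G : Type v) [Group G]

/-- conjugations act trivially on `K₁(R[G])` -/
theorem map_conj_eq {H : Type*} [Group H] (f f' : H →* G) (g : G) (h : ∀ a, f' a = g * f a * g⁻¹)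
    (x : K1 (MonoidAlgebra R H)) :
    K1.map (MonoidAlgebra.mapDomainRingHom R f') x =
      K1.map (MonoidAlgebra.mapDomainRingHom R f) x := by
  refine K1_map_conj _ _ (MonoidAlgebra.single g 1) (MonoidAlgebra.single g⁻¹ 1) ?_ ?_ ?_ x
  · rw [MonoidAlgebra.single_mul_single, mul_inv_cancel, mul_one]
    rfl
  · rw [MonoidAlgebra.single_mul_single, inv_mul_cancel, mul_one]
    rfl
  · intro a
    induction a using MonoidAlgebra.induction_linear with
    | zero => rw [map_zero, map_zero, mul_zero, zero_mul]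
    | add a b ha hb => rw [map_add, map_add, mul_add, add_mul, ha, hb]
    | single m r =>
      change MonoidAlgebra.mapDomain f' (MonoidAlgebra.single m r) =
        MonoidAlgebra.single g 1 * MonoidAlgebra.mapDomain f (MonoidAlgebra.single m r) *
          MonoidAlgebra.single g⁻¹ 1
      rw [MonoidAlgebra.mapDomain_single, MonoidAlgebra.mapDomain_single,
        MonoidAlgebra.single_mul_single, MonoidAlgebra.single_mul_single, h, one_mul, mul_one]

/-- the assembly map on the `K₁`-part in degree one -/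
noncomputable def assembly10 : H0K1 R G →+ KQ (MonoidAlgebra R G) 0 :=
  lift10 (fun F => kq1.comp (K1.map (MonoidAlgebra.mapDomainRingHom R F.1.subtype))) (by
    intro F F' g h x
    rw [AddMonoidHom.comp_apply, AddMonoidHom.comp_apply, K1.map_map,
      ← MonoidAlgebra.mapDomainRingHom_comp]
    congr 1
    exact map_conj_eq R G _ _ g (fun a => rfl) x)

/-- **the joint assembly map in degree one** -/
noncomputable def assembly00 : HnK0 R G 0 × H0K1 R G →+ KQ (MonoidAlgebra R G) 0 :=
  (assemblyN R 0 G).coprod (assembly10 R G)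

end

section

variable {R : Type u} [Ring R] {S : Type u'} [Ring S] {G : Type v} [Group G]

theorem assembly10_cl (F : FamSub G FinSub) (x : K1 (MonoidAlgebra R F.1)) :
    assembly10 R G (cl F x) =
      kq1 (K1.map (MonoidAlgebra.mapDomainRingHom R F.1.subtype) x) := lift10_cl _ _ F x

theorem assembly00_apply (w : HnK0 R G 0 × H0K1 R G) :
    assembly00 R G w = assemblyN R 0 G w.1 + assembly10 R G w.2 := rfl

end

section

end

section

end

end Pool.Agent.H71.FU0

end
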