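import Pool.Agent.H71.TCZ.M52
import Pool.Agent.H71.TCZ.M56
import Pool.Agent.H71.TCZ.M74

/-! The parts of this file: H71.CZ.ThE, H39.KL.ValB. -/

section

/-!
# Project CZ: the map `θ` and reindexing

PROOF.  `e : Y ≃ Y'` induces `rM : MM p B G Y →+* MM p B G Y'` (`reindexRingEquiv` of `Equiv.arrowCongr (Equiv.refl _) e`) which commutes with `sM`
and with the norms, hence homomorphisms `rDt : (Dt Y)ˣ →* (Dt Y')ˣ`, `rDd : (Dd Y)ˣ →* (Dd Y')ˣ` with `prU ∘ rDt = rDd ∘ prU`,
`eta ∘ rxU e = rDd ∘ eta` (`tpM`, `beM` commute with reindexing), `jU ∘ rDt = rxU (arrow e) ∘ jU` (`jR_apply`).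
`psD Y' ∘ HG.map rDd = psD Y`: after `HG.map prU` both sides are `phD Y` (`psD_map`, `clX_equiv`), `descend_unique` with `ckill_eta`.
-/

set_option autoImplicit false

open Matrix

universe u v w

namespace Pool.Agent.H71.CZ

open Pool.Agent.H71.FQ

section

variable {p : ℕ} {M : Type u} [Ring M] {M' : Type v} [Ring M'] {σ : Sh p M} {σ' : Sh p M'}

private theorem nm_hom (r : M →+* M') (hr : ∀ x, r (σ.s x) = σ'.s (r x)) (z : M) : r (σ.nm z) = σ'.nm (r z) := by
  have h : ∀ (j : ℕ) (x : M), r ((σ.s : M → M)^[j] x) = (σ'.s : M' → M')^[j] (r x) := by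
    intro j
    induction j with
    | zero => intro x; rfl
    | succ j ih =>
      intro x
      rw [Function.iterate_succ_apply, Function.iterate_succ_apply, ih, hr]
  rw [Sh.nm_apply, Sh.nm_apply, map_sum]
  exact Finset.sum_congr rfl fun j _ => h j z

/-- the induced homomorphism of the rings `D~` -/
private def hDt (r : M →+* M') (hr : ∀ x, r (σ.s x) = σ'.s (r x)) : Dt σ →+* Dt σ' :=
  r.mapMatrix.restrict (Dt σ) (Dt σ') (by
    rintro X ⟨h1, h2, h3⟩
    refine ⟨?_, ?_, ?_⟩
    · show r (X 0 1) = 0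
      rw [h1, map_zero]
    · show σ'.s (r (X 1 1)) = r (X 1 1)
      rw [← hr, h2]
    · show r (X 0 0) = r (X 1 1) + σ'.nm (r (X 1 0))
      rw [h3, map_add, nm_hom r hr])

/-- the induced homomorphism of the rings `D` -/
private def hDd (r : M →+* M') (hr : ∀ x, r (σ.s x) = σ'.s (r x)) : Dd σ →+* Dd σ' :=
  (r.prodMap r).restrict (Dd σ) (Dd σ') (by
    rintro x ⟨h1, h2, z, h3⟩
    refine ⟨?_, ?_, r z, ?_⟩
    · show σ'.s (r x.1) = r x.1
      rw [← hr, h1]
    · show σ'.s (r x.2) = r x.2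
      rw [← hr, h2]
    · show r x.1 = r x.2 + σ'.nm (r z)
      rw [h3, map_add, nm_hom r hr])

end

section

variable {p : ℕ} [hp : Fact p.Prime] {B : Type} [CommRing B] {G : Type v} [Group G] {n : ℕ}
  {Y Y' : Type} [Fintype Y] [DecidableEq Y] [Fintype Y'] [DecidableEq Y']

/-- the bijection of the index sets -/
private def eE (p : ℕ) (e : Y ≃ Y') : (ZMod p → Y) ≃ (ZMod p → Y') where
  toFun v i := e (v i)
  invFun v i := e.symm (v i)
  left_inv v := funext fun i => e.symm_apply_apply (v i)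
  right_inv v := funext fun i => e.apply_symm_apply (v i)

variable (p B G) in
/-- reindexing -/
private noncomputable def rM (e : Y ≃ Y') : MM p B G Y →+* MM p B G Y' :=
  (Matrix.reindexRingEquiv (MonoidAlgebra B (ZMod p → G)) (eE p e)).toRingHom

private theorem rM_apply (e : Y ≃ Y') (m : MM p B G Y) (v w : ZMod p → Y') :
    rM p B G e m v w = m (fun i => e.symm (v i)) fun i => e.symm (w i) := rfl

private theorem rM_s (e : Y ≃ Y') (m : MM p B G Y) :
    rM p B G e ((shM p B G Y).s m) = (shM p B G Y').s (rM p B G e m) := rfl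

private theorem rM_tp (e : Y ≃ Y') (U : Matrix Y Y (MonoidAlgebra B G)) :
    rM p B G e (tpM U) = tpM (U.submatrix e.symm e.symm) := rfl

private theorem rM_dg (e : Y ≃ Y') (U : Matrix Y Y (MonoidAlgebra B G)) :
    rM p B G e (dgM U) = dgM (U.submatrix e.symm e.symm) := by
  funext v w
  have h : ∀ v : ZMod p → Y', (∀ i, e.symm (v i) = e.symm (v 0)) ↔ ∀ i, v i = v 0 := fun v =>
    forall_congr' fun i => e.symm.apply_eq_iff_eq
  rw [rM_apply]
  unfold dgM
  simp only [h, Matrix.submatrix_apply]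

private theorem rM_be (e : Y ≃ Y') (U : Matrix Y Y (MonoidAlgebra B G)) :
    rM p B G e (beM U) = beM (U.submatrix e.symm e.symm) := by
  have h1 : (1 : Matrix Y Y (MonoidAlgebra B G)).submatrix e.symm e.symm = (1 : Matrix Y' Y' (MonoidAlgebra B G)) :=
    Matrix.submatrix_one_equiv e.symm
  rw [beM_apply, beM_apply, map_add, map_sub, map_one, rM_dg, rM_dg, h1]

variable (p B G) in
private noncomputable def rDt (e : Y ≃ Y') : (Dt (shM p B G Y))ˣ →* (Dt (shM p B G Y'))ˣ :=
  Units.map (hDt (rM p B G e) (rM_s e)).toMonoidHom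

variable (p B G) in
private noncomputable def rDd (e : Y ≃ Y') : (Dd (shM p B G Y))ˣ →* (Dd (shM p B G Y'))ˣ :=
  Units.map (hDd (rM p B G e) (rM_s e)).toMonoidHom

private theorem pr_rDt (e : Y ≃ Y') :
    (prU (shM p B G Y')).comp (rDt p B G e) = (rDd p B G e).comp (prU (shM p B G Y)) := rfl

private theorem eta_rx (hB : GoodB p B) (e : Y ≃ Y') :
    (eta hB).comp (rxU (A := MonoidAlgebra B G) e) = (rDd p B G e).comp (eta hB) := by
  refine MonoidHom.ext fun U => Units.ext (Subtype.ext (Prod.ext ?_ ?_))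
  · exact (rM_tp e U.val).symm
  · exact (rM_be e U.val).symm

private theorem j_rDt (e : Y ≃ Y') :
    (jU p B G Y').comp (rDt p B G e) = (rxU (A := MonoidAlgebra B (Wr p G)) (eE p e)).comp (jU p B G Y) := by
  refine MonoidHom.ext fun X => Units.ext ?_
  ext1 v w
  show jR p B G Y' (hDt (rM p B G e) (rM_s e) X.val) v w = jR p B G Y X.val (fun i => e.symm (v i)) fun i => e.symm (w i)
  rw [jR_apply, jR_apply]
  rfl

theorem th_equiv (hB : GoodB p B) (e : Y ≃ Y') (x : HG (Matrix Y Y (MonoidAlgebra B G))ˣ n) :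
    th Y' hB (HG.map n (rxU (A := MonoidAlgebra B G) e) x) = th Y hB x := by
  have hph : ∀ x, phD Y' (HG.map n (rDt p B G e) x) = phD Y x := by
    intro x
    show toTV p B G n (clX (MonoidAlgebra B (Wr p G)) n (ZMod p → Y') (HG.map n (jU p B G Y') (HG.map n (rDt p B G e) x))) =
      toTV p B G n (clX (MonoidAlgebra B (Wr p G)) n (ZMod p → Y) (HG.map n (jU p B G Y) x))
    rw [HG.map_map, j_rDt, ← HG.map_map, clX_equiv]
  obtain ⟨t, ht⟩ := ckill_eta (G := G) (Y := Y) hB
  have hps : (psD Y' hB).comp (HG.map n (rDd p B G e)) = psD Y hB := by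
    refine descend_unique ht _ _ fun x => ?_
    rw [AddMonoidHom.comp_apply, HG.map_map, ← pr_rDt, ← HG.map_map, psD_map, psD_map, hph]
  rw [th_apply, th_apply, HG.map_map, eta_rx, ← HG.map_map, ← hps]
  rfl

end

end Pool.Agent.H71.CZ

end

section

/-!
# Project KL: the value of the functional on the products `U × z`

PROOF of `lc_psC`.  By `hrel` `ψ v = μ ^ (n + 2) * φ (π (v_j 0)) + μ * dl β v`.  For `v j b = u * δ b * y j`, `u = uc c d`, the function
`y ↦ dl β v` is the coboundary of the function `y ↦ β (fun j b => u * δ b * y j)` of `n + 1` variables, which is invariant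
(`u * δ b * (g * y) = (u * g * u⁻¹) * (u * δ b * y)` for `g ∈ Z_G(D)`, and `u * g * u⁻¹` commutes with `c`), so its sum over the cycle
`z` vanishes (`HG.ev_cob`).  With `hπ`: `π (u * δ 0 * y_j) = ζ_j * g`, `ζ_j = u * y_j * u⁻¹` in the centralizer of `c`,
`g = π (u * δ 0)`; `φ (ζ_j g) = φ (g⁻¹ ζ_j g)` by invariance, and the sum over `z` is `HG.ev hφ` of the image of `z` under
`y ↦ g⁻¹ (u y u⁻¹) g`, which is the image under `y ↦ u y u⁻¹` by `HG.map_conj`; this is `trc n c D d (HG.mk z)` (`trc_eq` with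
`x = u⁻¹`).  (`HG.ev_map`, `IsCoc.comp`, `HG.ev_mk`, `lc_push`.)
PROOF of `val_unit`: `val_chain`, `lc_psC`, `TR_smul`; for `d` not conjugate to `c` `trc_of_not`.
-/

set_option autoImplicit false

open Matrix

universe u v w

namespace Pool.Agent.H39.KL

open Pool.Agent.H71.FQ Pool.Agent.H16.KN Pool.Agent.H16.FU

section

variable {G : Type u} [Group G] {B : Type v} [CommRing B] {n : ℕ}

theorem lc_psC {p m : ℕ} [Fact p.Prime] (D : Subgroup G) {c : G}
    {π : G → Subgroup.centralizer ({c} : Set G)}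
    (hπ : ∀ (z : Subgroup.centralizer ({c} : Set G)) (g : G), π (z * g) = z * π g)
    {φ : (Fin (n + 2) → Subgroup.centralizer ({c} : Set G)) → B}
    (hφ : IsCoc (Subgroup.centralizer ({c} : Set G)) n φ) {μ : ℕ}
    {ψ : (Fin (n + 2) → Fin (p ^ m) → G) → B} {β : (Fin (n + 1) → Fin (p ^ m) → G) → B}
    (h2 : CIq c (p ^ m) β)
    (hrel : ∀ (h0 : 0 < p ^ m) v,
      (μ : B) ^ (n + 2) * φ (fun j => π (v j ⟨0, h0⟩)) = ψ v - (μ : B) * dl β v)
    (d : D) (hd : IsConj c (d : G)) (δ : Fin (p ^ m) → D)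
    (z : cyc (Subgroup.centralizer (D : Set G)) n) :
    Finsupp.linearCombination ℤ (psC ψ c d δ)
        (z : Cx ℤ (Subgroup.centralizer (D : Set G)) (n + 1)) =
      (μ : B) ^ (n + 2) * HG.ev hφ (trc n c D d (HG.mk z)) := by
  have h0 : 0 < p ^ m := pow_pos (Fact.out : p.Prime).pos m
  have hu := uc_spec c d hd
  have hcomm : ∀ (g : Subgroup.centralizer (D : Set G)) (x : D), (x : G) * g = g * x :=
    fun g x => Subgroup.mem_centralizer_iff.1 g.2 _ x.2
  -- the conjugates of the elements of the centralizer of `D`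
  have hcj : ∀ g : Subgroup.centralizer (D : Set G),
      (uc c d * g * (uc c d)⁻¹) * c = c * (uc c d * g * (uc c d)⁻¹) := by
    intro g
    have h := hcomm g d
    calc (uc c d * g * (uc c d)⁻¹) * c
        = (uc c d * g * (uc c d)⁻¹) * (uc c d * d * (uc c d)⁻¹) := by rw [hu]
      _ = uc c d * (g * d) * (uc c d)⁻¹ := by group
      _ = uc c d * (d * g) * (uc c d)⁻¹ := by rw [h]
      _ = (uc c d * d * (uc c d)⁻¹) * (uc c d * g * (uc c d)⁻¹) := by group
      _ = _ := by rw [hu]
  have hmem : ∀ g : Subgroup.centralizer (D : Set G),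
      uc c d * g * (uc c d)⁻¹ ∈ Subgroup.centralizer ({c} : Set G) := by
    intro g
    rw [Subgroup.mem_centralizer_iff]
    intro a ha
    rw [Set.mem_singleton_iff] at ha
    subst ha
    exact (hcj g).symm
  have hshift : ∀ (g : Subgroup.centralizer (D : Set G)) (x : D) (y : G),
      uc c d * x * (g * y) = (uc c d * g * (uc c d)⁻¹) * (uc c d * x * y) := by
    intro g x y
    calc uc c d * x * (g * y) = uc c d * (x * g) * y := by group
      _ = uc c d * (g * x) * y := by rw [hcomm g x]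
      _ = _ := by group
  -- the coboundary part
  have hcob : Finsupp.linearCombination ℤ
      (fun y : Fin (n + 2) → Subgroup.centralizer (D : Set G) =>
        dl β fun j b => uc c d * δ b * y j) (z : Cx ℤ (Subgroup.centralizer (D : Set G)) (n + 1)) =
      0 := by
    have h := lc_bd (fun y : Fin (n + 1) → Subgroup.centralizer (D : Set G) =>
      β fun j b => uc c d * δ b * y j) (z : Cx ℤ (Subgroup.centralizer (D : Set G)) (n + 1))
    rw [inv_coi (fun g y => ?_) z.2] at h
    · exact h.symm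
    · have e := h2 _ (hcj g) fun j b => uc c d * δ b * (y j : G)
      rw [← e]
      congr 1
      funext j b
      exact hshift g (δ b) (y j)
  -- the homomorphism
  have hm : (uc c d)⁻¹ * c * ((uc c d)⁻¹)⁻¹ = (d : G) := by
    conv_lhs => rw [← hu]
    rw [hu]
    nth_rewrite 2 [← hu]
    group
  have hm' : (uc c d)⁻¹ * c * ((uc c d)⁻¹)⁻¹ ∈ D := by
    rw [hm]
    exact d.2
  let g0 : Subgroup.centralizer ({c} : Set G) := π (uc c d * δ ⟨0, h0⟩)
  let f : Subgroup.centralizer (D : Set G) →* Subgroup.centralizer ({c} : Set G) :=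
    (MulAut.conj g0⁻¹).toMonoidHom.comp (cnj c (uc c d)⁻¹ D hm')
  have hval : ∀ y : Fin (n + 2) → Subgroup.centralizer (D : Set G),
      φ (fun j => π (uc c d * δ ⟨0, h0⟩ * y j)) = φ fun j => f (y j) := by
    intro y
    have e := hφ.inv g0 fun j => f (y j)
    rw [← e]
    congr 1
    funext j
    have e1 : uc c d * δ ⟨0, h0⟩ * (y j : G) =
        (⟨uc c d * (y j : G) * (uc c d)⁻¹, hmem (y j)⟩ : Subgroup.centralizer ({c} : Set G)) *
          (uc c d * δ ⟨0, h0⟩) := by
      have e2 := hshift (y j) (δ ⟨0, h0⟩) 1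
      rw [mul_one, mul_one] at e2
      exact e2
    have e3 : (cnj c (uc c d)⁻¹ D hm') (y j) =
        (⟨uc c d * (y j : G) * (uc c d)⁻¹, hmem (y j)⟩ : Subgroup.centralizer ({c} : Set G)) := by
      apply Subtype.ext
      rw [cnj_coe, inv_inv]
    rw [e1, hπ, ← e3]
    show (cnj c (uc c d)⁻¹ D hm') (y j) * g0 =
      g0 * (g0⁻¹ * (cnj c (uc c d)⁻¹ D hm') (y j) * (g0⁻¹)⁻¹)
    generalize (cnj c (uc c d)⁻¹ D hm') (y j) = x
    group
  have hsum : ∀ y : Fin (n + 2) → Subgroup.centralizer (D : Set G), psC ψ c d δ y =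
      (μ : B) ^ (n + 2) * φ (fun j => f (y j)) +
        (μ : B) * dl β fun j b => uc c d * δ b * y j := by
    intro y
    have e := hrel h0 fun j b => uc c d * δ b * y j
    rw [← hval y, e]
    unfold psC
    ring
  have hlin : ∀ (a b : B) (F H : (Fin (n + 2) → Subgroup.centralizer (D : Set G)) → B)
      (x : Cx ℤ (Subgroup.centralizer (D : Set G)) (n + 1)),
      Finsupp.linearCombination ℤ (fun y => a * F y + b * H y) x =
        a * Finsupp.linearCombination ℤ F x + b * Finsupp.linearCombination ℤ H x := by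
    intro a b F H x
    have e : Finsupp.linearCombination ℤ (fun y => a * F y + b * H y) =
        (AddMonoidHom.mulLeft a).toIntLinearMap.comp (Finsupp.linearCombination ℤ F) +
          (AddMonoidHom.mulLeft b).toIntLinearMap.comp (Finsupp.linearCombination ℤ H) := by
      refine Finsupp.lhom_ext' fun y => LinearMap.ext_ring ?_
      simp only [LinearMap.comp_apply, Finsupp.lsingle_apply, LinearMap.add_apply]
      rw [Finsupp.linearCombination_single, Finsupp.linearCombination_single,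
        Finsupp.linearCombination_single, one_smul, one_smul, one_smul]
      rfl
    exact LinearMap.congr_fun e x
  rw [show psC ψ c d δ = fun y => (μ : B) ^ (n + 2) * φ (fun j => f (y j)) +
        (μ : B) * dl β fun j b => uc c d * δ b * y j from funext hsum, hlin, hcob, mul_zero,
    add_zero]
  congr 1
  rw [trc_eq (uc c d)⁻¹ hm hm', ← HG.map_conj (cnj c (uc c d)⁻¹ D hm') f g0⁻¹ (fun a => rfl),
    HG.ev_map, HG.ev_mk]

end

end Pool.Agent.H39.KL

end
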