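import Pool.Agent.H71.TCZ.M12

/-! The parts of this file: H71.CZ.CKill, H71.CZ.Dt_1. -/

section

/-!
# Project CZ: center kills

**Lemma CK.**  `π : E → Q` surjective with an abelian torsion free kernel, `t ∈ E` central modulo the kernel and
`t a t⁻¹ = a ^ m` for `a` in the kernel, `m ≥ 2`: then `π` induces rational isomorphisms of the homology groups.

PROOFS.  `hmu`: `lmul_sub` with `α = ` the `m`-th power map of the kernel (a commutative group by `comm`), `pow_torsionFree`;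
`μ n = m ^ (n + 1)`.  Take `h` from `exists_h`.  Modulo `coi E` the map `lt t` is the identity (`push_lmul_sub_mem`), so
`Pn t μ n k c - (∏_{i < k} (1 - μ i)) • c ∈ coi E n` (induction on `k`; `lt t` preserves `coi E n`: `push_coi` does not apply
directly, `t * (g x) = (t g t⁻¹) (t x)`).
`ck_inj`: `z` a cycle with `push π z = bd c + d`, `d ∈ coi Q`.  Lift `c`, `d` to `c'`, `d' ∈ coi E` (`exists_push`,
`exists_coi_lift`), `y = z - bd c' - d'`: `push π y = 0`, `bd y ∈ coi E n`.  The identity for `y`: `h n (bd y) ∈ coi E` by equivariance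
(`equi_coi` with the identity), so `(∏_{i ≤ n} (1 - μ i)) • y ∈ bnd E n`, and the same for `z`; `1 - m ^ (i + 1) ≠ 0`.
`ck_surj`: `z` a cycle of `Q` of degree `n + 1`; lift it to `z'`; `push π (bd z') = bd z ∈ coi Q n`, `= push π e`, `e ∈ coi E n`;
`y = bd z' - e` has `push π y = 0`, `bd y = - bd e ∈ coi E` (if `n ≥ 1`).  If `n = 0`: `y ∈ coiH ι 0 ≤ coi E 0` (`mem_coiH_zero`), `z'` is a
cycle, `λ = 1`.  If `n = n' + 1`: the identity gives `λ • y - bd (h n y) ∈ coi E n` with `λ = ∏_{i < n} (1 - μ i)`, so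
`λ • z' - h n y` is a cycle, and it is mapped to `λ • z`.
-/

set_option autoImplicit false

universe u v w

namespace Pool.Agent.H71.CZ

/-- the hypotheses of Lemma CK -/
structure CKill {E : Type v} [Group E] {Q : Type w} [Group Q] (π : E →* Q) (t : E) (m : ℕ) :
    Prop where
  surj : Function.Surjective π
  cent : ∀ g, π t * π g = π g * π t
  comm : ∀ a ∈ π.ker, ∀ b ∈ π.ker, a * b = b * a
  tf : ∀ a ∈ π.ker, ∀ k : ℕ, k ≠ 0 → a ^ k = 1 → a = 1
  conj : ∀ a ∈ π.ker, t * a * t⁻¹ = a ^ m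
  two : 2 ≤ m

section

variable {E : Type v} [Group E] {Q : Type w} [Group Q]

theorem ck_prod_ne_zero {m : ℕ} (hm : 2 ≤ m) (k : ℕ) :
    (∏ i ∈ Finset.range k, (1 - (m : ℤ) ^ (i + 1))) ≠ 0 := by
  rw [Finset.prod_ne_zero_iff]
  intro i _ h
  have h1 : (1 : ℤ) < (m : ℤ) ^ (i + 1) := one_lt_pow₀ (by exact_mod_cast hm) (Nat.succ_ne_zero i)
  omega

/-- the product of two extensions and a third group -/
theorem CKill.prod {E' : Type*} [Group E'] {Q' : Type*} [Group Q'] {π : E →* Q} {π' : E' →* Q'}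
    {t : E} {t' : E'} {m : ℕ} (h : CKill π t m) (h' : CKill π' t' m) (P : Type*) [Group P] :
    CKill ((π.prodMap π').prodMap (MonoidHom.id P)) ((t, t'), (1 : P)) m := by
  have hk : ∀ a : (E × E') × P, a ∈ ((π.prodMap π').prodMap (MonoidHom.id P)).ker ↔
      a.1.1 ∈ π.ker ∧ a.1.2 ∈ π'.ker ∧ a.2 = 1 := by
    rintro ⟨⟨a, b⟩, c⟩
    simp [MonoidHom.mem_ker, Prod.ext_iff, and_assoc]
  refine ⟨?_, ?_, ?_, ?_, ?_, h.two⟩
  · rintro ⟨⟨a, b⟩, c⟩
    obtain ⟨x, rfl⟩ := h.surj a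
    obtain ⟨y, rfl⟩ := h'.surj b
    exact ⟨((x, y), c), rfl⟩
  · rintro ⟨⟨a, b⟩, c⟩
    refine Prod.ext (Prod.ext ?_ ?_) ?_
    · exact h.cent a
    · exact h'.cent b
    · show (1 : P) * c = c * 1
      rw [one_mul, mul_one]
  · rintro ⟨⟨a, b⟩, c⟩ ha ⟨⟨a', b'⟩, c'⟩ ha'
    obtain ⟨h1, h2, h3⟩ := (hk _).1 ha
    obtain ⟨h1', h2', h3'⟩ := (hk _).1 ha'
    refine Prod.ext (Prod.ext ?_ ?_) ?_
    · exact h.comm a h1 a' h1'
    · exact h'.comm b h2 b' h2'
    · show c * c' = c' * c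
      rw [show c = 1 from h3, show c' = 1 from h3']
  · rintro ⟨⟨a, b⟩, c⟩ ha k hk0 hp
    obtain ⟨h1, h2, h3⟩ := (hk _).1 ha
    refine Prod.ext (Prod.ext ?_ ?_) h3
    · exact h.tf a h1 k hk0 (congrArg (fun x : (E × E') × P => x.1.1) hp)
    · exact h'.tf b h2 k hk0 (congrArg (fun x : (E × E') × P => x.1.2) hp)
  · rintro ⟨⟨a, b⟩, c⟩ ha
    obtain ⟨h1, h2, h3⟩ := (hk _).1 ha
    refine Prod.ext (Prod.ext ?_ ?_) ?_
    · exact h.conj a h1
    · exact h'.conj b h2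
    · show (1 : P) * c * 1⁻¹ = c ^ m
      rw [show c = 1 from h3, inv_one, mul_one, mul_one, one_pow]

end

end Pool.Agent.H71.CZ

end

section

/-!
# Project CZ: the rings `D~` and `D` of a ring with a cyclic shift

`M` a ring with an endomorphism `s`, `s ^ p = 1`, `N(z) = ∑_{j < p} s^j z`.  `D~` is the ring of the elements `b + z Σ`, `s b = b`,
`Σ = ∑ π^j`, in the twisted group ring; it is written as the ring of the matrices `[[b + N z, 0], [z, b]]`: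
`(b + z Σ)(b' + z' Σ) = b b' + (z (b' + N z') + b z') Σ`.  `D` is the ring of the pairs `(b + N z, b)`.

PROOFS.  `nm_s`, `s_nm`, `nm_mul_left`, `nm_mul_right`: direct.  Closure of `Dt`, `Dd` under products: `N(z α' + b z') = N(z) α' + b N(z')`
for `s α' = α'`, `s b = b`, and `(b + N z) α' = b b' + b N z' + N(z) α'` with `α' = b' + N z'`.
`isUnit_lift`: the kernel of `pr` is the set of the matrices `[[0, 0], [z, 0]]` with `N z = 0`, its square is `0`; if `pr X pr Y = 1 = pr Y pr X`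
then `X Y = 1 + k`, `k² = 0`.
`ckill`: `t` is the inverse of `X₁ = [[1 + p, 0], [1, 1]]` (inverse `[[c, 0], [-c, 1]]`, `(p + 1) c = 1`).  The kernel of `Units.map pr` consists of
the `[[1, 0], [z, 1]]`, `N z = 0`: products add the `z`, powers multiply it, `t X t⁻¹ = [[1, 0], [(p + 1) z, 1]]`.
`toS`: `π ^ j * ι m = ι (s^j m) * π ^ j`, so `Σ * ι m * Σ = ι (N m) * Σ` (`Σ * Σ` etc.: `π * Σ = Σ`), `Σ * ι b = ι b * Σ` for `s b = b`.
-/

set_option autoImplicit false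

universe u v w

namespace Pool.Agent.H71.CZ

section

variable {p : ℕ} {M : Type u} [Ring M] (σ : Sh p M)

private theorem Sh.sum_shift (z : M) : ∑ j ∈ Finset.range p, (σ.s : M → M)^[j + 1] z = σ.nm z := by
  have h1 := Finset.sum_range_succ (fun j => (σ.s : M → M)^[j] z) p
  have h2 := Finset.sum_range_succ' (fun j => (σ.s : M → M)^[j] z) p
  rw [h1, σ.iter, Function.iterate_zero, id_eq] at h2
  rw [Sh.nm_apply]
  exact (add_right_cancel h2).symm

theorem Sh.s_nm (z : M) : σ.s (σ.nm z) = σ.nm z := by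
  rw [← Sh.sum_shift σ z, Sh.sum_shift σ z, Sh.nm_apply, map_sum, ← Sh.nm_apply, ← Sh.sum_shift σ z]
  refine Finset.sum_congr rfl fun j _ => ?_
  rw [Function.iterate_succ_apply']

private theorem Sh.iter_fix {b : M} (hb : σ.s b = b) (j : ℕ) : (σ.s : M → M)^[j] b = b :=
  Function.iterate_fixed hb j

theorem Sh.nm_mul_left {b : M} (hb : σ.s b = b) (z : M) : σ.nm (b * z) = b * σ.nm z := by
  rw [Sh.nm_apply, Sh.nm_apply, Finset.mul_sum]
  refine Finset.sum_congr rfl fun j _ => ?_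
  rw [iterate_map_mul, Sh.iter_fix σ hb]

theorem Sh.nm_mul_right {b : M} (hb : σ.s b = b) (z : M) : σ.nm (z * b) = σ.nm z * b := by
  rw [Sh.nm_apply, Sh.nm_apply, Finset.sum_mul]
  refine Finset.sum_congr rfl fun j _ => ?_
  rw [iterate_map_mul, Sh.iter_fix σ hb]

private theorem Sh.nm_one : σ.nm 1 = (p : M) := by
  rw [Sh.nm_apply]
  simp only [iterate_map_one, Finset.sum_const, Finset.card_range, nsmul_eq_mul, mul_one]

/-- The ring `D~`: the matrices `[[b + N z, 0], [z, b]]` with `s b = b`. -/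
def Dt : Subring (Matrix (Fin 2) (Fin 2) M) where
  carrier := {X | X 0 1 = 0 ∧ σ.s (X 1 1) = X 1 1 ∧ X 0 0 = X 1 1 + σ.nm (X 1 0)}
  mul_mem' := by
    rintro X Y ⟨hX1, hX2, hX3⟩ ⟨hY1, hY2, hY3⟩
    have hY0 : σ.s (Y 0 0) = Y 0 0 := by rw [hY3, map_add, hY2, Sh.s_nm]
    refine ⟨?_, ?_, ?_⟩
    · rw [Matrix.mul_apply, Fin.sum_univ_two, hX1, hY1, mul_zero, zero_mul, add_zero]
    · rw [Matrix.mul_apply, Fin.sum_univ_two, hY1, mul_zero, zero_add, map_mul, hX2, hY2]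
    · rw [Matrix.mul_apply, Fin.sum_univ_two, hX1, zero_mul, add_zero, Matrix.mul_apply, Fin.sum_univ_two, hY1,
        mul_zero, zero_add, Matrix.mul_apply, Fin.sum_univ_two, map_add, Sh.nm_mul_right σ hY0, Sh.nm_mul_left σ hX2]
      rw [hX3, add_mul]
      nth_rewrite 1 [hY3]
      rw [mul_add]
      abel
  one_mem' := by
    refine ⟨?_, ?_, ?_⟩
    · simp
    · simp
    · simp
  add_mem' := by
    rintro X Y ⟨hX1, hX2, hX3⟩ ⟨hY1, hY2, hY3⟩
    refine ⟨?_, ?_, ?_⟩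
    · rw [Matrix.add_apply, hX1, hY1, add_zero]
    · rw [Matrix.add_apply, map_add, hX2, hY2]
    · rw [Matrix.add_apply, Matrix.add_apply, Matrix.add_apply, map_add, hX3, hY3]
      abel
  zero_mem' := by
    refine ⟨?_, ?_, ?_⟩
    · simp
    · simp
    · simp
  neg_mem' := by
    rintro X ⟨hX1, hX2, hX3⟩
    refine ⟨?_, ?_, ?_⟩
    · rw [Matrix.neg_apply, hX1, neg_zero]
    · rw [Matrix.neg_apply, map_neg, hX2]
    · rw [Matrix.neg_apply, Matrix.neg_apply, Matrix.neg_apply, map_neg, hX3, neg_add]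

/-- The ring `D` of the pairs of invariant elements whose difference is a norm. -/
def Dd : Subring (M × M) where
  carrier := {x | σ.s x.1 = x.1 ∧ σ.s x.2 = x.2 ∧ ∃ z, x.1 = x.2 + σ.nm z}
  mul_mem' := by
    rintro x y ⟨hx1, hx2, z, hz⟩ ⟨hy1, hy2, w, hw⟩
    refine ⟨?_, ?_, x.2 * w + z * y.1, ?_⟩
    · rw [Prod.fst_mul, map_mul, hx1, hy1]
    · rw [Prod.snd_mul, map_mul, hx2, hy2]
    · rw [Prod.fst_mul, Prod.snd_mul, map_add, Sh.nm_mul_left σ hx2, Sh.nm_mul_right σ hy1, hz, add_mul]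
      nth_rewrite 1 [hw]
      rw [mul_add]
      abel
  one_mem' := by
    refine ⟨?_, ?_, 0, ?_⟩
    · simp
    · simp
    · simp
  add_mem' := by
    rintro x y ⟨hx1, hx2, z, hz⟩ ⟨hy1, hy2, w, hw⟩
    refine ⟨?_, ?_, z + w, ?_⟩
    · rw [Prod.fst_add, map_add, hx1, hy1]
    · rw [Prod.snd_add, map_add, hx2, hy2]
    · rw [Prod.fst_add, Prod.snd_add, map_add, hz, hw]
      abel
  zero_mem' := by
    refine ⟨?_, ?_, 0, ?_⟩
    · simp
    · simp
    · simp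
  neg_mem' := by
    rintro x ⟨hx1, hx2, z, hz⟩
    refine ⟨?_, ?_, -z, ?_⟩
    · rw [Prod.fst_neg, map_neg, hx1]
    · rw [Prod.snd_neg, map_neg, hx2]
    · rw [Prod.fst_neg, Prod.snd_neg, map_neg, hz, neg_add]

private theorem dt_mul_00 (X Y : Dt σ) : (X * Y).1 0 0 = X.1 0 0 * Y.1 0 0 := by
  have h : (X * Y).1 0 0 = (X.1 * Y.1) 0 0 := rfl
  rw [h, Matrix.mul_apply, Fin.sum_univ_two, X.2.1, zero_mul, add_zero]

private theorem dt_mul_11 (X Y : Dt σ) : (X * Y).1 1 1 = X.1 1 1 * Y.1 1 1 := by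
  have h : (X * Y).1 1 1 = (X.1 * Y.1) 1 1 := rfl
  rw [h, Matrix.mul_apply, Fin.sum_univ_two, Y.2.1, mul_zero, zero_add]

private theorem dt_mul_10 (X Y : Dt σ) : (X * Y).1 1 0 = X.1 1 0 * Y.1 0 0 + X.1 1 1 * Y.1 1 0 := by
  have h : (X * Y).1 1 0 = (X.1 * Y.1) 1 0 := rfl
  rw [h, Matrix.mul_apply, Fin.sum_univ_two]

private theorem dt_00 (X : Dt σ) : X.1 0 0 = X.1 1 1 + σ.nm (X.1 1 0) := X.2.2.2

private theorem dt_s (X : Dt σ) : σ.s (X.1 1 1) = X.1 1 1 := X.2.2.1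

/-- the homomorphism `D~ → D` -/
def prD : Dt σ →+* Dd σ where
  toFun X := ⟨(X.1 0 0, X.1 1 1), by
    refine ⟨?_, dt_s σ X, X.1 1 0, dt_00 σ X⟩
    show σ.s (X.1 0 0) = X.1 0 0
    rw [dt_00, map_add, dt_s, Sh.s_nm]⟩
  map_one' := by
    refine Subtype.ext (Prod.ext ?_ ?_)
    · show (1 : Matrix (Fin 2) (Fin 2) M) 0 0 = 1
      simp
    · show (1 : Matrix (Fin 2) (Fin 2) M) 1 1 = 1
      simp
  map_mul' X Y := by
    refine Subtype.ext (Prod.ext ?_ ?_)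
    · exact dt_mul_00 σ X Y
    · exact dt_mul_11 σ X Y
  map_zero' := rfl
  map_add' X Y := rfl

theorem prD_fst (X : Dt σ) : (prD σ X).1.1 = X.1 0 0 := rfl

theorem prD_snd (X : Dt σ) : (prD σ X).1.2 = X.1 1 1 := rfl

/-- the element `b + z Σ` -/
def mkD (b z : M) (hb : σ.s b = b) : Dt σ :=
  ⟨!![b + σ.nm z, 0; z, b], by
    refine ⟨?_, ?_, ?_⟩
    · simp
    · simpa using hb
    · simp⟩

/-- two elements with the same `b`, `z` are equal -/
theorem dt_ext {X Y : Dt σ} (h1 : X.1 1 1 = Y.1 1 1) (h2 : X.1 1 0 = Y.1 1 0) : X = Y := by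
  refine Subtype.ext (Matrix.ext fun i j => ?_)
  fin_cases i <;> fin_cases j
  · show X.1 0 0 = Y.1 0 0
    rw [dt_00, dt_00, h1, h2]
  · show X.1 0 1 = Y.1 0 1
    rw [X.2.1, Y.2.1]
  · exact h2
  · exact h1

private theorem mkD_11 {b z : M} (hb : σ.s b = b) : (mkD σ b z hb).1 1 1 = b := rfl

private theorem mkD_10 {b z : M} (hb : σ.s b = b) : (mkD σ b z hb).1 1 0 = z := rfl

private theorem mkD_00 {b z : M} (hb : σ.s b = b) : (mkD σ b z hb).1 0 0 = b + σ.nm z := rfl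

theorem mkD_mul {b z b' z' : M} (hb : σ.s b = b) (hb' : σ.s b' = b') :
    mkD σ b z hb * mkD σ b' z' hb' = mkD σ (b * b') (z * (b' + σ.nm z') + b * z')
      (by rw [map_mul, hb, hb']) := by
  refine dt_ext σ ?_ ?_
  · rw [dt_mul_11, mkD_11, mkD_11, mkD_11]
  · rw [dt_mul_10, mkD_10, mkD_10, mkD_10, mkD_11, mkD_00]

theorem mkD_one : mkD σ 1 0 (map_one _) = 1 := by
  refine dt_ext σ ?_ ?_
  · rw [mkD_11]
    show (1 : M) = (1 : Matrix (Fin 2) (Fin 2) M) 1 1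
    simp
  · rw [mkD_10]
    show (0 : M) = (1 : Matrix (Fin 2) (Fin 2) M) 1 0
    simp

theorem prD_mkD {b z : M} (hb : σ.s b = b) : (prD σ (mkD σ b z hb)).1 = (b + σ.nm z, b) := rfl

/-- the homomorphism of the groups of units -/
def prU : (Dt σ)ˣ →* (Dd σ)ˣ := Units.map (prD σ).toMonoidHom

private theorem prD_surj (x : Dd σ) : ∃ X : Dt σ, prD σ X = x := by
  obtain ⟨⟨a, b⟩, h1, h2, z, h3⟩ := x
  refine ⟨mkD σ b z h2, Subtype.ext ?_⟩
  rw [prD_mkD]
  exact Prod.ext h3.symm rfl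

/-- the elements of the kernel -/
private theorem ker_form {X : Dt σ} (h : prD σ X = 1) : X.1 1 1 = 1 ∧ σ.nm (X.1 1 0) = 0 := by
  have h1 : X.1 0 0 = 1 := by
    rw [← prD_fst, h]
    rfl
  have h2 : X.1 1 1 = 1 := by
    rw [← prD_snd, h]
    rfl
  refine ⟨h2, ?_⟩
  have h3 := dt_00 σ X
  rw [h1, h2] at h3
  exact (left_eq_add.1 h3)

private theorem ker_eq_mk {X : Dt σ} (h : prD σ X = 1) : X = mkD σ 1 (X.1 1 0) (map_one _) :=
  dt_ext σ (by rw [mkD_11, (ker_form σ h).1]) (by rw [mkD_10])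

private theorem mk_mul_mk {z w : M} (hw : σ.nm w = 0) :
    mkD σ 1 z (map_one _) * mkD σ 1 w (map_one _) = mkD σ 1 (z + w) (map_one _) := by
  rw [mkD_mul]
  refine dt_ext σ ?_ ?_
  · rw [mkD_11, mkD_11, one_mul]
  · rw [mkD_10, mkD_10, hw, add_zero, mul_one, one_mul]

private theorem ker_unit {X : Dt σ} (h : prD σ X = 1) : IsUnit X := by
  have h0 := (ker_form σ h).2
  have h0' : σ.nm (-(X.1 1 0)) = 0 := by rw [map_neg, h0, neg_zero]
  have h1 : X * mkD σ 1 (-(X.1 1 0)) (map_one _) = 1 := by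
    conv_lhs => rw [ker_eq_mk σ h]
    rw [mkD_10, mk_mul_mk σ h0', add_neg_cancel, mkD_one]
  have h2 : mkD σ 1 (-(X.1 1 0)) (map_one _) * X = 1 := by
    conv_lhs => rw [ker_eq_mk σ h]
    rw [mkD_10, mk_mul_mk σ h0, neg_add_cancel, mkD_one]
  exact ⟨⟨X, _, h1, h2⟩, rfl⟩

/-- elements above units are units -/
theorem isUnit_lift (X : Dt σ) (h : IsUnit (prD σ X)) : IsUnit X := by
  obtain ⟨u, hu⟩ := h
  obtain ⟨Y, hY⟩ := prD_surj σ ((u⁻¹ : (Dd σ)ˣ) : Dd σ)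
  have h1 : prD σ (X * Y) = 1 := by rw [map_mul, ← hu, hY, Units.mul_inv]
  have h2 : prD σ (Y * X) = 1 := by rw [map_mul, ← hu, hY, Units.inv_mul]
  obtain ⟨a, ha⟩ := ker_unit σ h1
  obtain ⟨b, hb⟩ := ker_unit σ h2
  rw [isUnit_iff_exists_and_exists]
  refine ⟨⟨Y * ((a⁻¹ : (Dt σ)ˣ) : Dt σ), ?_⟩, ⟨((b⁻¹ : (Dt σ)ˣ) : Dt σ) * Y, ?_⟩⟩
  · rw [← mul_assoc, ← ha, Units.mul_inv]
  · rw [mul_assoc, ← hb, Units.inv_mul]

/-- the central element -/
theorem exists_tD {c : M} (hc : ((p + 1 : ℕ) : M) * c = 1) :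
    ∃ t : (Dt σ)ˣ, ((t⁻¹ : (Dt σ)ˣ) : Dt σ) = mkD σ 1 1 (map_one _) := by
  have hc' : c * ((p + 1 : ℕ) : M) = 1 := by rw [← (Nat.cast_commute (p + 1) c).eq, hc]
  have hs : σ.s c = c := by
    have h1 : ((p + 1 : ℕ) : M) * σ.s c = 1 := by
      have h2 := congrArg σ.s hc
      rwa [map_mul, map_natCast, map_one] at h2
    calc σ.s c = (c * ((p + 1 : ℕ) : M)) * σ.s c := by rw [hc', one_mul]
      _ = c * (((p + 1 : ℕ) : M) * σ.s c) := mul_assoc _ _ _
      _ = c := by rw [h1, mul_one]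
  have hn : σ.nm c = (p : M) * c := by
    have h1 := Sh.nm_mul_right σ hs (1 : M)
    rwa [one_mul, Sh.nm_one] at h1
  have hc1 : c + (p : M) * c = 1 := by
    rw [Nat.cast_add, Nat.cast_one, add_mul, one_mul] at hc
    rw [add_comm, hc]
  have h1 : mkD σ 1 (-c) (map_one _) * mkD σ 1 1 (map_one _) = 1 := by
    rw [mkD_mul, ← mkD_one]
    refine dt_ext σ ?_ ?_
    · rw [mkD_11, mkD_11, one_mul]
    · rw [mkD_10, mkD_10, Sh.nm_one, mul_one, neg_mul]
      rw [Nat.cast_add, Nat.cast_one, add_comm] at hc'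
      rw [hc', neg_add_cancel]
  have h2 : mkD σ 1 1 (map_one _) * mkD σ 1 (-c) (map_one _) = 1 := by
    rw [mkD_mul, ← mkD_one]
    refine dt_ext σ ?_ ?_
    · rw [mkD_11, mkD_11, one_mul]
    · rw [mkD_10, mkD_10, map_neg, hn, one_mul, one_mul]
      have h3 : (1 : M) + -((p : M) * c) + -c = 1 - (c + (p : M) * c) := by abel
      rw [h3, hc1, sub_self]
  exact ⟨⟨_, _, h1, h2⟩, rfl⟩

/-- **The extension `D~ → D` satisfies the hypotheses of Lemma CK.** -/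
theorem ckill_prU (hp : 1 ≤ p) (htf : ∀ (x : M) (k : ℕ), k ≠ 0 → (k : M) * x = 0 → x = 0) {c : M}
    (hc : ((p + 1 : ℕ) : M) * c = 1) {t : (Dt σ)ˣ}
    (ht : ((t⁻¹ : (Dt σ)ˣ) : Dt σ) = mkD σ 1 1 (map_one _)) :
    CKill (prU σ) t (p + 1) := by
  have hker : ∀ a ∈ (prU σ).ker, prD σ (a : Dt σ) = 1 := by
    intro a ha
    have h1 := MonoidHom.mem_ker.1 ha
    exact congrArg (fun u : (Dd σ)ˣ => (u : Dd σ)) h1
  have hpow : ∀ (z : M) (hz : σ.nm z = 0) (k : ℕ), (mkD σ 1 z (map_one _)) ^ k = mkD σ 1 ((k : M) * z) (map_one _) := by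
    intro z hz k
    induction k with
    | zero =>
      rw [pow_zero, ← mkD_one]
      refine dt_ext σ ?_ ?_
      · rw [mkD_11, mkD_11]
      · rw [mkD_10, mkD_10, Nat.cast_zero, zero_mul]
    | succ k ih =>
      rw [pow_succ, ih, mk_mul_mk σ hz]
      refine dt_ext σ ?_ ?_
      · rw [mkD_11, mkD_11]
      · rw [mkD_10, mkD_10, Nat.cast_add, Nat.cast_one, add_mul, one_mul]
  refine ⟨?_, ?_, ?_, ?_, ?_, by omega⟩
  · intro u
    obtain ⟨X, hX⟩ := prD_surj σ (u : Dd σ)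
    have hXu : IsUnit X := isUnit_lift σ X (by rw [hX]; exact u.isUnit)
    refine ⟨hXu.unit, Units.ext ?_⟩
    exact hX
  · intro g
    have h1 : Commute (prU σ t⁻¹) (prU σ g) := by
      refine Units.ext ?_
      show prD σ ((t⁻¹ : (Dt σ)ˣ) : Dt σ) * prD σ (g : Dt σ) = prD σ (g : Dt σ) * prD σ ((t⁻¹ : (Dt σ)ˣ) : Dt σ)
      rw [ht]
      refine Subtype.ext (Prod.ext ?_ ?_)
      · show ((1 : M) + σ.nm 1) * (g : Dt σ).1 0 0 = (g : Dt σ).1 0 0 * ((1 : M) + σ.nm 1)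
        rw [Sh.nm_one, add_mul, mul_add, one_mul, mul_one, (Nat.cast_commute p _).eq]
      · show (1 : M) * (g : Dt σ).1 1 1 = (g : Dt σ).1 1 1 * 1
        rw [one_mul, mul_one]
    rw [map_inv] at h1
    exact (Commute.inv_left_iff.1 h1).eq
  · intro a ha b hb
    have h1 := hker a ha
    have h2 := hker b hb
    refine Units.ext ?_
    show (a : Dt σ) * (b : Dt σ) = (b : Dt σ) * (a : Dt σ)
    rw [ker_eq_mk σ h1, ker_eq_mk σ h2, mk_mul_mk σ (ker_form σ h2).2, mk_mul_mk σ (ker_form σ h1).2]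
    refine dt_ext σ ?_ ?_
    · rw [mkD_11, mkD_11]
    · rw [mkD_10, mkD_10, add_comm]
  · intro a ha k hk hak
    have h1 := hker a ha
    have h2 : (a : Dt σ) ^ k = 1 := by
      rw [← Units.val_pow_eq_pow_val, hak, Units.val_one]
    rw [ker_eq_mk σ h1, hpow _ (ker_form σ h1).2] at h2
    have h3 : ((k : M) * ((a : Dt σ).1 1 0)) = 0 := by
      have h4 := congrArg (fun X : Dt σ => X.1 1 0) (h2.trans (mkD_one σ).symm)
      exact h4
    have h5 := htf _ k hk h3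
    refine Units.ext ?_
    rw [Units.val_one, ker_eq_mk σ h1, h5, mkD_one]
  · intro a ha
    have h1 := hker a ha
    have h0 := (ker_form σ h1).2
    have h2 : a * t⁻¹ = t⁻¹ * a ^ (p + 1) := by
      refine Units.ext ?_
      rw [Units.val_mul, Units.val_mul, Units.val_pow_eq_pow_val, ht, ker_eq_mk σ h1, hpow _ h0, mkD_mul, mkD_mul]
      refine dt_ext σ ?_ ?_
      · rw [mkD_11, mkD_11]
      · have h3 : σ.nm (((p + 1 : ℕ) : M) * ((a : Dt σ).1 1 0)) = 0 := by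
          rw [Sh.nm_mul_left σ (map_natCast _ _), h0, mul_zero]
        rw [mkD_10, mkD_10, Sh.nm_one, h3, add_zero, mul_one, one_mul]
        rw [(Nat.cast_commute (p + 1) ((a : Dt σ).1 1 0)).eq, Nat.cast_add, Nat.cast_one, add_comm (1 : M) (p : M), add_comm]
    calc t * a * t⁻¹ = t * (a * t⁻¹) := mul_assoc _ _ _
      _ = t * (t⁻¹ * a ^ (p + 1)) := by rw [h2]
      _ = a ^ (p + 1) := by rw [mul_inv_cancel_left]

variable {S : Type v} [Ring S] (ι : M →+* S) (π : S)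

private theorem pow_comm' {ι : M →+* S} {π : S} (hπ : ∀ m, π * ι m = ι (σ.s m) * π) (j : ℕ) (m : M) :
    π ^ j * ι m = ι ((σ.s : M → M)^[j] m) * π ^ j := by
  induction j generalizing m with
  | zero => rw [pow_zero, one_mul, mul_one, Function.iterate_zero, id_eq]
  | succ j ih => rw [pow_succ, mul_assoc, hπ, ← mul_assoc, ih, Function.iterate_succ_apply, mul_assoc]

private theorem pi_sum {π : S} (h1 : π ^ p = 1) :
    π * ∑ j ∈ Finset.range p, π ^ j = ∑ j ∈ Finset.range p, π ^ j := by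
  have e1 := Finset.sum_range_succ (fun j => π ^ j) p
  have e2 := Finset.sum_range_succ' (fun j => π ^ j) p
  rw [e1, h1, pow_zero] at e2
  rw [Finset.mul_sum]
  rw [Finset.sum_congr rfl fun j _ => (pow_succ' π j).symm]
  exact (add_right_cancel e2).symm

private theorem pow_sum {π : S} (h1 : π ^ p = 1) (i : ℕ) :
    π ^ i * ∑ j ∈ Finset.range p, π ^ j = ∑ j ∈ Finset.range p, π ^ j := by
  induction i with
  | zero => rw [pow_zero, one_mul]
  | succ i ih => rw [pow_succ, mul_assoc, pi_sum h1, ih]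

private theorem sum_iota_sum {ι : M →+* S} {π : S} (hπ : ∀ m, π * ι m = ι (σ.s m) * π) (h1 : π ^ p = 1) (m : M) :
    (∑ j ∈ Finset.range p, π ^ j) * ι m * (∑ j ∈ Finset.range p, π ^ j) = ι (σ.nm m) * ∑ j ∈ Finset.range p, π ^ j := by
  rw [Finset.sum_mul, Finset.sum_mul, Sh.nm_apply, map_sum, Finset.sum_mul]
  refine Finset.sum_congr rfl fun j _ => ?_
  rw [pow_comm' σ hπ, mul_assoc, pow_sum h1]

private theorem sum_iota_fix {ι : M →+* S} {π : S} (hπ : ∀ m, π * ι m = ι (σ.s m) * π) {b : M} (hb : σ.s b = b) :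
    (∑ j ∈ Finset.range p, π ^ j) * ι b = ι b * ∑ j ∈ Finset.range p, π ^ j := by
  rw [Finset.sum_mul, Finset.mul_sum]
  refine Finset.sum_congr rfl fun j _ => ?_
  rw [pow_comm' σ hπ, Sh.iter_fix σ hb]

/-- the homomorphism to a ring which contains `M` and `π` -/
def toS (hπ : ∀ m, π * ι m = ι (σ.s m) * π) (h1 : π ^ p = 1) : Dt σ →+* S where
  toFun X := ι (X.1 1 1) + ι (X.1 1 0) * ∑ j ∈ Finset.range p, π ^ j
  map_one' := by
    have h2 : (1 : Dt σ).1 1 1 = 1 := by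
      show (1 : Matrix (Fin 2) (Fin 2) M) 1 1 = 1
      simp
    have h3 : (1 : Dt σ).1 1 0 = 0 := by
      show (1 : Matrix (Fin 2) (Fin 2) M) 1 0 = 0
      simp
    rw [h2, h3, map_one, map_zero, zero_mul, add_zero]
  map_mul' X Y := by
    set T0 : S := ∑ j ∈ Finset.range p, π ^ j with hT0
    have e1 : T0 * ι (Y.1 1 1) = ι (Y.1 1 1) * T0 := sum_iota_fix σ hπ (dt_s σ Y)
    have e2 : T0 * ι (Y.1 1 0) * T0 = ι (σ.nm (Y.1 1 0)) * T0 := sum_iota_sum σ hπ h1 _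
    rw [dt_mul_11, dt_mul_10, dt_00 σ Y]
    simp only [map_mul, map_add, add_mul, mul_add]
    have e3 : ι (X.1 1 0) * T0 * ι (Y.1 1 1) = ι (X.1 1 0) * ι (Y.1 1 1) * T0 := by
      rw [mul_assoc, e1, mul_assoc]
    have e4 : ι (X.1 1 0) * T0 * (ι (Y.1 1 0) * T0) = ι (X.1 1 0) * ι (σ.nm (Y.1 1 0)) * T0 := by
      rw [mul_assoc, ← mul_assoc T0, e2, mul_assoc]
    rw [e3, e4, ← mul_assoc (ι (X.1 1 1))]
    abel
  map_zero' := by
    show ι ((0 : Matrix (Fin 2) (Fin 2) M) 1 1) + ι ((0 : Matrix (Fin 2) (Fin 2) M) 1 0) * _ = 0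
    rw [Matrix.zero_apply, Matrix.zero_apply, map_zero, zero_mul, add_zero]
  map_add' X Y := by
    show ι (X.1 1 1 + Y.1 1 1) + ι (X.1 1 0 + Y.1 1 0) * _ = _
    rw [map_add, map_add, add_mul]
    abel

theorem toS_apply (hπ : ∀ m, π * ι m = ι (σ.s m) * π) (h1 : π ^ p = 1) (X : Dt σ) :
    toS σ ι π hπ h1 X = ι (X.1 1 1) + ι (X.1 1 0) * ∑ j ∈ Finset.range p, π ^ j := rfl

end

end Pool.Agent.H71.CZ

end
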