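import Pool.Agent.H71.TCZ.M01
import Pool.Agent.H71.TCZ.M02
import Pool.Agent.H71.TCZ.M03
import Pool.Agent.H71.TCZ.M17
import Pool.Agent.H71.TCZ.M28
import Pool.Agent.H71.TCZ.M29
import Pool.Agent.H71.TCZ.M42

/-! The parts of this file: H71.CZ.BlkB, H16.KN.LinDN, H39.KL.LamC, H95.KM.Defs, H95.WH.TriC. -/

section

/-!
# Project CZ: block sums, the homomorphisms `Φ` and `Ψ`

`Φ((X, X'), (U, V)) = b + z Σ` with `b = cL b_X + cR b_X' + Em`, `z = cL z_X + cR z_X' + eM * (T - 1)`, `T = tpM (bX U V)`;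
`Ψ(((a, b), (a', b')), (U, V)) = (cL a + cR a' + Em * T, cL b + cR b' + Em)`.

PROOFS.  `N(eM * (T - 1)) = N(eM) * (T - 1) = Em * T - Em` (`Sh.nm_mul_right`, `nm_eM`, `s_tpM`); `N(cL z) = cL (N z)` (`sM_cL`), so
`b + N z = cL a_X + cR a_X' + Em * T`.  Multiplicativity of `Φ` (`dt_ext`): `z_X a_Y + b_X z_Y` on the mixed part is
`eM (T - 1) Em T' + Em eM (T' - 1) = eM (T T' - 1)` (`eM_tpM`, `Em_tpM`, `eM_Em`, `Em_eM`); the products of different blocks vanish
(`PL_PR`, `PL_Em`, `PL_eM`, ...: `cL_mul_cR` etc. below).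
-/

set_option autoImplicit false

open Matrix

universe u v w

namespace Pool.Agent.H71.CZ

section

variable {p : ℕ} [hp : Fact p.Prime] {Y Y' : Type} [Fintype Y] [DecidableEq Y] [Fintype Y']
  [DecidableEq Y'] {B : Type} [CommRing B] {G : Type v} [Group G]

theorem cL_mul (m m' : MM p B G Y) : cL (Y' := Y') m * cL m' = cL (m * m') := by
  unfold cL
  have h : PL p Y Y' (MonoidAlgebra B (ZMod p → G)) * m * (PL p Y Y' (MonoidAlgebra B (ZMod p → G)))ᵀ *
      (PL p Y Y' (MonoidAlgebra B (ZMod p → G)) * m' * (PL p Y Y' (MonoidAlgebra B (ZMod p → G)))ᵀ) =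
      PL p Y Y' (MonoidAlgebra B (ZMod p → G)) * (m * (((PL p Y Y' (MonoidAlgebra B (ZMod p → G)))ᵀ *
        PL p Y Y' (MonoidAlgebra B (ZMod p → G))) * m')) * (PL p Y Y' (MonoidAlgebra B (ZMod p → G)))ᵀ := by
    simp only [Matrix.mul_assoc]
  rw [h, PL_PL, Matrix.one_mul]

theorem cR_mul (m m' : MM p B G Y') : cR (Y := Y) m * cR m' = cR (m * m') := by
  unfold cR
  have h : PR p Y Y' (MonoidAlgebra B (ZMod p → G)) * m * (PR p Y Y' (MonoidAlgebra B (ZMod p → G)))ᵀ *
      (PR p Y Y' (MonoidAlgebra B (ZMod p → G)) * m' * (PR p Y Y' (MonoidAlgebra B (ZMod p → G)))ᵀ) =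
      PR p Y Y' (MonoidAlgebra B (ZMod p → G)) * (m * (((PR p Y Y' (MonoidAlgebra B (ZMod p → G)))ᵀ *
        PR p Y Y' (MonoidAlgebra B (ZMod p → G))) * m')) * (PR p Y Y' (MonoidAlgebra B (ZMod p → G)))ᵀ := by
    simp only [Matrix.mul_assoc]
  rw [h, PR_PR, Matrix.one_mul]

theorem cL_mul_cR (m : MM p B G Y) (m' : MM p B G Y') : cL (Y' := Y') m * cR m' = 0 := by
  unfold cL cR
  have h : PL p Y Y' (MonoidAlgebra B (ZMod p → G)) * m * (PL p Y Y' (MonoidAlgebra B (ZMod p → G)))ᵀ *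
      (PR p Y Y' (MonoidAlgebra B (ZMod p → G)) * m' * (PR p Y Y' (MonoidAlgebra B (ZMod p → G)))ᵀ) =
      PL p Y Y' (MonoidAlgebra B (ZMod p → G)) * (m * (((PL p Y Y' (MonoidAlgebra B (ZMod p → G)))ᵀ *
        PR p Y Y' (MonoidAlgebra B (ZMod p → G))) * m')) * (PR p Y Y' (MonoidAlgebra B (ZMod p → G)))ᵀ := by
    simp only [Matrix.mul_assoc]
  rw [h, PL_PR, Matrix.zero_mul, Matrix.mul_zero, Matrix.mul_zero, Matrix.zero_mul]

theorem cR_mul_cL (m : MM p B G Y) (m' : MM p B G Y') : cR (Y := Y) m' * cL m = 0 := by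
  unfold cL cR
  have h : PR p Y Y' (MonoidAlgebra B (ZMod p → G)) * m' * (PR p Y Y' (MonoidAlgebra B (ZMod p → G)))ᵀ *
      (PL p Y Y' (MonoidAlgebra B (ZMod p → G)) * m * (PL p Y Y' (MonoidAlgebra B (ZMod p → G)))ᵀ) =
      PR p Y Y' (MonoidAlgebra B (ZMod p → G)) * (m' * (((PR p Y Y' (MonoidAlgebra B (ZMod p → G)))ᵀ *
        PL p Y Y' (MonoidAlgebra B (ZMod p → G))) * m)) * (PL p Y Y' (MonoidAlgebra B (ZMod p → G)))ᵀ := by
    simp only [Matrix.mul_assoc]
  rw [h, PR_PL, Matrix.zero_mul, Matrix.mul_zero, Matrix.mul_zero, Matrix.zero_mul]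

theorem cL_Em (m : MM p B G Y) : cL (Y' := Y') m * Em p Y Y' _ = 0 := by
  unfold cL
  rw [Matrix.mul_assoc, PL_Em, Matrix.mul_zero]

theorem Em_cL (m : MM p B G Y) : Em p Y Y' _ * cL (Y' := Y') m = 0 := by
  unfold cL
  rw [← Matrix.mul_assoc, ← Matrix.mul_assoc, Em_PL, Matrix.zero_mul, Matrix.zero_mul]

theorem cR_Em (m : MM p B G Y') : cR (Y := Y) m * Em p Y Y' _ = 0 := by
  unfold cR
  rw [Matrix.mul_assoc, PR_Em, Matrix.mul_zero]

theorem Em_cR (m : MM p B G Y') : Em p Y Y' _ * cR (Y := Y) m = 0 := by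
  unfold cR
  rw [← Matrix.mul_assoc, ← Matrix.mul_assoc, Em_PR, Matrix.zero_mul, Matrix.zero_mul]

theorem cL_eM (m : MM p B G Y) : cL (Y' := Y') m * eM p Y Y' _ = 0 := by
  unfold cL
  rw [Matrix.mul_assoc, PL_eM, Matrix.mul_zero]

theorem eM_cL (m : MM p B G Y) : eM p Y Y' _ * cL (Y' := Y') m = 0 := by
  unfold cL
  rw [← Matrix.mul_assoc, ← Matrix.mul_assoc, eM_PL, Matrix.zero_mul, Matrix.zero_mul]

theorem cR_eM (m : MM p B G Y') : cR (Y := Y) m * eM p Y Y' _ = 0 := by
  unfold cR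
  rw [Matrix.mul_assoc, PR_eM, Matrix.mul_zero]

theorem eM_cR (m : MM p B G Y') : eM p Y Y' _ * cR (Y := Y) m = 0 := by
  unfold cR
  rw [← Matrix.mul_assoc, ← Matrix.mul_assoc, eM_PR, Matrix.zero_mul, Matrix.zero_mul]

theorem cL_one_add (Y Y' : Type) [Fintype Y] [DecidableEq Y] [Fintype Y'] [DecidableEq Y'] :
    cL (Y' := Y') (1 : MM p B G Y) + cR (1 : MM p B G Y') + Em p Y Y' _ = 1 := by
  have h := beM_blk (p := p) (1 : Matrix Y Y (MonoidAlgebra B G)) (1 : Matrix Y' Y' (MonoidAlgebra B G))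
  rw [map_one, map_one, show bX (1 : Matrix Y Y (MonoidAlgebra B G)) (1 : Matrix Y' Y' (MonoidAlgebra B G)) = 1 from fromBlocks_one, map_one] at h
  exact h.symm

theorem iter_cL (m : MM p B G Y) (j : ℕ) :
    ((shM p B G (Y ⊕ Y')).s : MM p B G (Y ⊕ Y') → MM p B G (Y ⊕ Y'))^[j] (cL m) =
      cL (((shM p B G Y).s : MM p B G Y → MM p B G Y)^[j] m) := by
  induction j with
  | zero => rfl
  | succ j ih =>
    rw [Function.iterate_succ_apply', Function.iterate_succ_apply', ih]
    exact sM_cL _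

theorem iter_cR (m : MM p B G Y') (j : ℕ) :
    ((shM p B G (Y ⊕ Y')).s : MM p B G (Y ⊕ Y') → MM p B G (Y ⊕ Y'))^[j] (cR m) =
      cR (((shM p B G Y').s : MM p B G Y' → MM p B G Y')^[j] m) := by
  induction j with
  | zero => rfl
  | succ j ih =>
    rw [Function.iterate_succ_apply', Function.iterate_succ_apply', ih]
    exact sM_cR _

theorem nm_cL (m : MM p B G Y) :
    (shM p B G (Y ⊕ Y')).nm (cL m) = cL ((shM p B G Y).nm m) := by
  rw [Sh.nm_apply, Sh.nm_apply]
  have h := map_sum (AddMonoidHom.mk' (fun m : MM p B G Y => (cL m : MM p B G (Y ⊕ Y'))) cL_add)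
    (fun j => ((shM p B G Y).s : MM p B G Y → MM p B G Y)^[j] m) (Finset.range p)
  refine Eq.trans ?_ h.symm
  exact Finset.sum_congr rfl fun j _ => iter_cL m j

theorem nm_cR (m : MM p B G Y') :
    (shM p B G (Y ⊕ Y')).nm (cR m) = cR ((shM p B G Y').nm m) := by
  rw [Sh.nm_apply, Sh.nm_apply]
  have h := map_sum (AddMonoidHom.mk' (fun m : MM p B G Y' => (cR m : MM p B G (Y ⊕ Y'))) cR_add)
    (fun j => ((shM p B G Y').s : MM p B G Y' → MM p B G Y')^[j] m) (Finset.range p)
  refine Eq.trans ?_ h.symm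
  exact Finset.sum_congr rfl fun j _ => iter_cR m j

theorem nm_mix (U : (Matrix Y Y (MonoidAlgebra B G))ˣ)
    (V : (Matrix Y' Y' (MonoidAlgebra B G))ˣ) :
    (shM p B G (Y ⊕ Y')).nm (eM p Y Y' _ * (tpM (bX U.val V.val) - 1)) =
      Em p Y Y' _ * tpM (bX U.val V.val) - Em p Y Y' _ := by
  have hs : (shM p B G (Y ⊕ Y')).s (tpM (bX U.val V.val) - 1) = tpM (bX U.val V.val) - 1 := by
    rw [map_sub, map_one]
    congr 1
    exact s_tpM _
  rw [Sh.nm_mul_right _ hs, nm_eM, mul_sub, mul_one]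

section mix

variable (T T' : MM p B G (Y ⊕ Y')) (hT : eM p Y Y' _ * T = T * eM p Y Y' _) (hT' : Em p Y Y' _ * T = T * Em p Y Y' _)

include hT in
theorem mixZ_cL (m : MM p B G Y) : eM p Y Y' _ * (T - 1) * cL m = 0 := by
  rw [mul_sub, mul_one, hT, sub_mul, mul_assoc, eM_cL, mul_zero, sub_zero]

include hT in
theorem mixZ_cR (m : MM p B G Y') : eM p Y Y' _ * (T - 1) * cR m = 0 := by
  rw [mul_sub, mul_one, hT, sub_mul, mul_assoc, eM_cR, mul_zero, sub_zero]

theorem cL_mixZ (m : MM p B G Y) : cL m * (eM p Y Y' _ * (T - 1)) = 0 := by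
  rw [← mul_assoc, cL_eM, zero_mul]

theorem cR_mixZ (m : MM p B G Y') : cR m * (eM p Y Y' _ * (T - 1)) = 0 := by
  rw [← mul_assoc, cR_eM, zero_mul]

theorem cL_EmT (m : MM p B G Y) : cL m * (Em p Y Y' _ * T) = 0 := by
  rw [← mul_assoc, cL_Em, zero_mul]

theorem cR_EmT (m : MM p B G Y') : cR m * (Em p Y Y' _ * T) = 0 := by
  rw [← mul_assoc, cR_Em, zero_mul]

include hT' in
theorem mixZ_EmT : eM p Y Y' _ * (T - 1) * (Em p Y Y' _ * T') = eM p Y Y' _ * (T * T') - eM p Y Y' _ * T' := by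
  have h1 : (T - 1) * Em p Y Y' _ = Em p Y Y' _ * (T - 1) := by
    rw [sub_mul, one_mul, mul_sub, mul_one, hT']
  rw [mul_assoc, ← mul_assoc (T - 1), h1, ← mul_assoc, ← mul_assoc, eM_Em, mul_sub, mul_one, sub_mul, mul_assoc]

theorem Em_mixZ : Em p Y Y' _ * (eM p Y Y' _ * (T - 1)) = eM p Y Y' _ * T - eM p Y Y' _ := by
  rw [← mul_assoc, Em_eM, mul_sub, mul_one]

end mix

variable (p B G Y Y') in
/-- the source of `Φ` -/
abbrev GP : Type v := ((Dt (shM p B G Y))ˣ × (Dt (shM p B G Y'))ˣ) ×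
  ((Matrix Y Y (MonoidAlgebra B G))ˣ × (Matrix Y' Y' (MonoidAlgebra B G))ˣ)

/-- the part `b` of `Φ` -/
noncomputable def phB (γ : GP p Y Y' B G) : MM p B G (Y ⊕ Y') :=
  cL (γ.1.1.val.1 1 1) + cR (γ.1.2.val.1 1 1) + Em p Y Y' _

/-- the part `z` of `Φ` -/
noncomputable def phZ (γ : GP p Y Y' B G) : MM p B G (Y ⊕ Y') :=
  cL (γ.1.1.val.1 1 0) + cR (γ.1.2.val.1 1 0) +
    eM p Y Y' _ * (tpM (bX γ.2.1.val γ.2.2.val) - 1)

theorem s_phB (γ : GP p Y Y' B G) : (shM p B G (Y ⊕ Y')).s (phB γ) = phB γ := by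
  unfold phB
  rw [map_add, map_add]
  have h1 : (shM p B G (Y ⊕ Y')).s (cL (γ.1.1.val.1 1 1)) = cL (γ.1.1.val.1 1 1) := by
    refine (sM_cL _).trans ?_
    congr 1
    exact γ.1.1.val.2.2.1
  have h2 : (shM p B G (Y ⊕ Y')).s (cR (γ.1.2.val.1 1 1)) = cR (γ.1.2.val.1 1 1) := by
    refine (sM_cR _).trans ?_
    congr 1
    exact γ.1.2.val.2.2.1
  have h3 : (shM p B G (Y ⊕ Y')).s (Em p Y Y' _) = Em p Y Y' _ := sM_Em
  rw [h1, h2, h3]

/-- the part `b + N z` of `Φ` -/
noncomputable def phA (γ : GP p Y Y' B G) : MM p B G (Y ⊕ Y') :=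
  cL (γ.1.1.val.1 0 0) + cR (γ.1.2.val.1 0 0) + Em p Y Y' _ * tpM (bX γ.2.1.val γ.2.2.val)

theorem phB_add_nm (γ : GP p Y Y' B G) : phB γ + (shM p B G (Y ⊕ Y')).nm (phZ γ) = phA γ := by
  unfold phB phZ phA
  rw [map_add, map_add, nm_cL, nm_cR, nm_mix, γ.1.1.val.2.2.2, γ.1.2.val.2.2.2, cL_add, cR_add]
  abel

theorem bX_mul (U U' : Matrix Y Y (MonoidAlgebra B G)) (V V' : Matrix Y' Y' (MonoidAlgebra B G)) :
    bX (U * U') (V * V') = bX U V * bX U' V' := by
  unfold bX
  rw [fromBlocks_multiply]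
  simp

theorem bX_one : bX (1 : Matrix Y Y (MonoidAlgebra B G)) (1 : Matrix Y' Y' (MonoidAlgebra B G)) = 1 := fromBlocks_one

theorem cL_zero : (cL (0 : MM p B G Y) : MM p B G (Y ⊕ Y')) = 0 := by
  unfold cL
  rw [Matrix.mul_zero, Matrix.zero_mul]

theorem cR_zero : (cR (0 : MM p B G Y') : MM p B G (Y ⊕ Y')) = 0 := by
  unfold cR
  rw [Matrix.mul_zero, Matrix.zero_mul]

theorem dt_mul11 {M : Type*} [Ring M] {σ : Sh p M} (X Y : Dt σ) : (X * Y).1 1 1 = X.1 1 1 * Y.1 1 1 := by
  have h : (X * Y).1 1 1 = (X.1 * Y.1) 1 1 := rfl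
  rw [h, Matrix.mul_apply, Fin.sum_univ_two, Y.2.1, mul_zero, zero_add]

theorem dt_mul10 {M : Type*} [Ring M] {σ : Sh p M} (X Y : Dt σ) : (X * Y).1 1 0 = X.1 1 0 * Y.1 0 0 + X.1 1 1 * Y.1 1 0 := by
  have h : (X * Y).1 1 0 = (X.1 * Y.1) 1 0 := rfl
  rw [h, Matrix.mul_apply, Fin.sum_univ_two]

theorem dt_one11 {M : Type*} [Ring M] {σ : Sh p M} : (1 : Dt σ).1 1 1 = 1 := by
  show (1 : Matrix (Fin 2) (Fin 2) M) 1 1 = 1
  simp

theorem dt_one10 {M : Type*} [Ring M] {σ : Sh p M} : (1 : Dt σ).1 1 0 = 0 := by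
  show (1 : Matrix (Fin 2) (Fin 2) M) 1 0 = 0
  simp

theorem phB_mul (γ γ' : GP p Y Y' B G) : phB (γ * γ') = phB γ * phB γ' := by
  have h1 : phB (γ * γ') = cL ((γ.1.1.val * γ'.1.1.val).1 1 1) + cR ((γ.1.2.val * γ'.1.2.val).1 1 1) + Em p Y Y' _ := rfl
  rw [h1, dt_mul11, dt_mul11]
  unfold phB
  simp only [mul_add, add_mul, cL_mul, cR_mul, cL_mul_cR, cR_mul_cL, cL_Em, cR_Em, Em_cL, Em_cR, Em_mul_Em, add_zero, zero_add]

theorem phZ_mul (γ γ' : GP p Y Y' B G) : phZ (γ * γ') = phZ γ * phA γ' + phB γ * phZ γ' := by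
  have h1 : phZ (γ * γ') = cL ((γ.1.1.val * γ'.1.1.val).1 1 0) + cR ((γ.1.2.val * γ'.1.2.val).1 1 0) +
      eM p Y Y' _ * (tpM (bX (γ.2.1.val * γ'.2.1.val) (γ.2.2.val * γ'.2.2.val)) - 1) := rfl
  rw [h1, dt_mul10, dt_mul10, bX_mul, tpM_mul]
  unfold phZ phA phB
  obtain ⟨T, hT⟩ : ∃ T : MM p B G (Y ⊕ Y'), T = tpM (bX γ.2.1.val γ.2.2.val) := ⟨_, rfl⟩
  obtain ⟨T', hT'⟩ : ∃ T' : MM p B G (Y ⊕ Y'), T' = tpM (bX γ'.2.1.val γ'.2.2.val) := ⟨_, rfl⟩
  have he : eM p Y Y' _ * T = T * eM p Y Y' _ := by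
    rw [hT]
    exact eM_tpM _ _
  have hE : Em p Y Y' _ * T = T * Em p Y Y' _ := by
    rw [hT]
    exact Em_tpM _ _
  rw [← hT, ← hT', cL_add, cR_add]
  simp only [mul_add (cL _), mul_add (cR _), mul_add (eM p Y Y' _ * (T - 1)), mul_add (Em p Y Y' _), mul_add (cL _ + cR _ + _), add_mul,
    cL_mul, cR_mul, cL_mul_cR, cR_mul_cL, Em_cL, Em_cR, cL_EmT, cR_EmT, cL_mixZ, cR_mixZ, mixZ_cL T he, mixZ_cR T he,
    mixZ_EmT T T' hE, Em_mixZ, add_zero, zero_add]
  rw [mul_sub, mul_one]
  abel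

variable (p B G Y Y') in
/-- the homomorphism `Φ` -/
noncomputable def PhH : GP p Y Y' B G →* (Dt (shM p B G (Y ⊕ Y')))ˣ :=
  MonoidHom.toHomUnits
    { toFun := fun γ => mkD (shM p B G (Y ⊕ Y')) (phB γ) (phZ γ) (s_phB γ)
      map_one' := by
        refine dt_ext _ ?_ ?_
        · rw [dt_one11]
          show cL ((1 : Dt (shM p B G Y)).1 1 1) + cR ((1 : Dt (shM p B G Y')).1 1 1) + Em p Y Y' _ = 1
          rw [dt_one11, dt_one11, cL_one_add]
        · rw [dt_one10]
          show cL ((1 : Dt (shM p B G Y)).1 1 0) + cR ((1 : Dt (shM p B G Y')).1 1 0) +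
            eM p Y Y' _ * (tpM (bX (1 : Matrix Y Y (MonoidAlgebra B G)) (1 : Matrix Y' Y' (MonoidAlgebra B G))) - 1) = 0
          rw [dt_one10, dt_one10, cL_zero, cR_zero, bX_one, tpM_one, sub_self, mul_zero, add_zero, add_zero]
      map_mul' := fun γ γ' => by
        rw [mkD_mul]
        refine dt_ext _ ?_ ?_
        · show phB (γ * γ') = phB γ * phB γ'
          exact phB_mul γ γ'
        · show phZ (γ * γ') = phZ γ * (phB γ' + (shM p B G (Y ⊕ Y')).nm (phZ γ')) + phB γ * phZ γ'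
          rw [phB_add_nm]
          exact phZ_mul γ γ' }

theorem PhH_11 (γ : GP p Y Y' B G) : (PhH p Y Y' B G γ).val.1 1 1 = phB γ := rfl

theorem PhH_10 (γ : GP p Y Y' B G) : (PhH p Y Y' B G γ).val.1 1 0 = phZ γ := rfl

end

end Pool.Agent.H71.CZ

end

section

/-!
# Project KN, module LinDN: functionals on the symbols, definitions

`FunN` : rational functionals on the symbols `[D, Θ(n), z]`, `z ∈ H_{k+1}(Z_G(D); ℤ)`.
`cnj c x D h` : the homomorphism `Z_G(D) → Z_G(c)`, `z ↦ x⁻¹ z x`, for `x c x⁻¹ ∈ D`.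
`trc k c D d` : the homomorphism `H_{k+1}(Z_G(D)) → H_{k+1}(Z_G(c))` induced by it for `x c x⁻¹ = d`, zero if `d` is
not conjugate to `c`.
-/

set_option autoImplicit false

open NumberField

universe u v w

namespace Pool.Agent.H16.KN

open Pool.Agent.H71.DB (xc)
open Pool.Agent.H71.FQ (HG HG.map)

section cnj

variable {G : Type v} [Group G]

theorem cnj_mem (c x : G) (D : Subgroup G) (h : x * c * x⁻¹ ∈ D)
    (z : Subgroup.centralizer (D : Set G)) :
    x⁻¹ * z * x ∈ Subgroup.centralizer ({c} : Set G) := by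
  rw [Subgroup.mem_centralizer_iff]
  intro a ha
  rw [Set.mem_singleton_iff] at ha
  subst ha
  have h1 := Subgroup.mem_centralizer_iff.1 z.2 _ h
  calc a * (x⁻¹ * z * x) = x⁻¹ * (x * a * x⁻¹ * z) * x := by group
    _ = x⁻¹ * (z * (x * a * x⁻¹)) * x := by rw [h1]
    _ = _ := by group

/-- The homomorphism `Z_G(D) → Z_G(c)`, `z ↦ x⁻¹ z x`, for `x c x⁻¹ ∈ D`. -/
def cnj (c x : G) (D : Subgroup G) (h : x * c * x⁻¹ ∈ D) :
    Subgroup.centralizer (D : Set G) →* Subgroup.centralizer ({c} : Set G) where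
  toFun z := ⟨x⁻¹ * z * x, cnj_mem c x D h z⟩
  map_one' := by
    apply Subtype.ext
    change x⁻¹ * 1 * x = 1
    group
  map_mul' a b := by
    apply Subtype.ext
    change x⁻¹ * (a * b : G) * x = x⁻¹ * a * x * (x⁻¹ * b * x)
    group

@[simp] theorem cnj_coe (c x : G) (D : Subgroup G) (h : x * c * x⁻¹ ∈ D)
    (z : Subgroup.centralizer (D : Set G)) : (cnj c x D h z : G) = x⁻¹ * z * x := rfl

/-- the induced map in homology depends on `x c x⁻¹` only -/
theorem map_cnj_eq (k : ℕ) (c x y : G) (D : Subgroup G) (h : x * c * x⁻¹ ∈ D)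
    (h' : y * c * y⁻¹ ∈ D) (hxy : x * c * x⁻¹ = y * c * y⁻¹)
    (z : HG (Subgroup.centralizer (D : Set G)) k) :
    HG.map k (cnj c x D h) z = HG.map k (cnj c y D h') z := by
  have h1 : x⁻¹ * y ∈ Subgroup.centralizer ({c} : Set G) := by
    rw [Subgroup.mem_centralizer_iff]
    intro a ha
    rw [Set.mem_singleton_iff] at ha
    subst ha
    calc a * (x⁻¹ * y) = x⁻¹ * (x * a * x⁻¹) * y := by group
      _ = x⁻¹ * (y * a * y⁻¹) * y := by rw [hxy]
      _ = _ := by group
  refine Pool.Agent.H71.FQ.HG.map_conj (cnj c y D h') (cnj c x D h) ⟨x⁻¹ * y, h1⟩ ?_ z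
  intro a
  apply Subtype.ext
  change x⁻¹ * (a : G) * x = x⁻¹ * y * (y⁻¹ * (a : G) * y) * (x⁻¹ * y)⁻¹
  group

theorem cnj_mem_of_isConj {c : G} {D : Subgroup G} (d : D) (h : IsConj c (d : G)) :
    xc c (d : G) * c * (xc c (d : G))⁻¹ ∈ D := by
  rw [Pool.Agent.H71.DB.xc_spec c h]
  exact d.2

open Classical in
/-- The transport `H_{k+1}(Z_G(D)) → H_{k+1}(Z_G(c))` along `x c x⁻¹ = d`; zero if there is no such `x`. -/
noncomputable def trc (k : ℕ) (c : G) (D : Subgroup G) (d : D) :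
    HG (Subgroup.centralizer (D : Set G)) k →+ HG (Subgroup.centralizer ({c} : Set G)) k :=
  if h : IsConj c (d : G) then HG.map k (cnj c (xc c (d : G)) D (cnj_mem_of_isConj d h)) else 0

theorem trc_of_not {k : ℕ} {c : G} {D : Subgroup G} {d : D} (h : ¬ IsConj c (d : G)) :
    trc k c D d = 0 := by
  unfold trc
  rw [dif_neg h]

theorem trc_eq {k : ℕ} {c : G} {D : Subgroup G} {d : D} (x : G) (hx : x * c * x⁻¹ = d)
    (hm : x * c * x⁻¹ ∈ D) (z : HG (Subgroup.centralizer (D : Set G)) k) :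
    trc k c D d z = HG.map k (cnj c x D hm) z := by
  have h : IsConj c (d : G) := isConj_iff.2 ⟨x, hx⟩
  unfold trc
  rw [dif_pos h]
  refine map_cnj_eq k c _ x D _ hm ?_ z
  rw [Pool.Agent.H71.DB.xc_spec c h, hx]

end cnj

end Pool.Agent.H16.KN

end

section

/-!
# Project KL: the functional on matrices congruent to one

PROOF of `lamQ_lead`.  Let `A` with `U = 1 + p ^ k A`.  Let `J` be a natural number with `k * J ≥ 2 * k + m + 1` and `J ≥ 2`
(`k ≥ 1`), `R = B[X] / (X ^ J)` (`Polynomial B ⧸ Ideal.span {X ^ J}`), `ξ` the class of `X`.  `1 + ξ A` is invertible over `R[C]`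
(`ξ A` is nilpotent: entries of matrices over a commutative ring, `IsNilpotent.isUnit_one_add` in the ring of matrices); let
`V` be it, `λ = lamQ p m d τ V : R`, `λ = ∑ λ_s ξ ^ s`.
(1) `(p : R) ^ (m - r + 1) ∣ λ` by `lamQ_dvd`; so `p ^ (m - r + 1) ∣ λ_s` for all `s < J` (a representative of the quotient is
`p ^ (m - r + 1) g + X ^ J h`; compare coefficients).
(2) `λ_0 = 0`, `λ_1 = p ^ (m + r) * tr (A_d)`: map to the dual numbers and `lamQ_eps`, `lamQ_map`.
(3) the homomorphism `R → B ⧸ (p ^ (k J))`, `ξ ↦ p ^ k`, maps `V` to the image of `U`, so by `lamQ_map` for both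
`lamQ U = ∑_{s ≥ 1} λ_s p ^ (k s)` modulo `p ^ (k J)`: this is `p ^ k λ_1` modulo `p ^ (2 k + m - r + 1)`.
PROOF of `lamQ_log`.  `U ^ (p ^ l) ≡ 1` mod `p ^ (k + l)` (`k ≥ 2`, induction on `l`; commuting with `1`), `lamQ_lead` for it with
`k + l`, and `lamQ_pow`.
-/

set_option autoImplicit false

open Matrix

universe u v w

namespace Pool.Agent.H39.KL

open Pool.Agent.H71.FQ

section

variable {C : Type u} [Group C] {B : Type v} [CommRing B] {p m r : ℕ} [Fact p.Prime]

private theorem val_mapGL {B' : Type w} [CommRing B'] (f : B →+* B') {N : ℕ} (s : B)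
    (A : Matrix (Fin N) (Fin N) (MonoidAlgebra B C)) (U : GLm N (MonoidAlgebra B C))
    (hU : U.val = 1 + s • A) :
    (mapGL (MonoidAlgebra.mapRingHom C f) N U).val =
      1 + f s • A.map (MonoidAlgebra.mapRingHom C f) := by
  classical
  rw [mapGL_val, hU]
  ext i j : 1
  rw [Matrix.map_apply, Matrix.add_apply, Matrix.add_apply, map_add, Matrix.smul_apply,
    Matrix.smul_apply, Matrix.map_apply]
  congr 1
  · by_cases hij : i = j
    · subst hij
      rw [Matrix.one_apply_eq, Matrix.one_apply_eq, map_one]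
    · rw [Matrix.one_apply_ne hij, Matrix.one_apply_ne hij, map_zero]
  · apply MonoidAlgebra.coeff_injective
    ext x
    rw [MonoidAlgebra.coeff_mapRingHom, MonoidAlgebra.coeff_smul, MonoidAlgebra.coeff_smul,
      Finsupp.smul_apply, Finsupp.smul_apply, MonoidAlgebra.coeff_mapRingHom, smul_eq_mul,
      smul_eq_mul, map_mul]

private theorem trace_cof_map {B' : Type w} [CommRing B'] (f : B →+* B') {N : ℕ}
    (A : Matrix (Fin N) (Fin N) (MonoidAlgebra B C)) (d : C) :
    (cof (A.map (MonoidAlgebra.mapRingHom C f)) d).trace = f (cof A d).trace := by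
  unfold Matrix.trace
  rw [map_sum]
  refine Finset.sum_congr rfl fun i _ => ?_
  show (MonoidAlgebra.mapRingHom C f (A i i)).coeff d = f ((A i i).coeff d)
  rw [MonoidAlgebra.coeff_mapRingHom]

private theorem exists_unit {N : ℕ} (s : B) {n : ℕ} (hs : s ^ n = 0)
    (A : Matrix (Fin N) (Fin N) (MonoidAlgebra B C)) :
    ∃ V : GLm N (MonoidAlgebra B C), V.val = 1 + s • A := by
  have h1 : IsNilpotent (s • A) := ⟨n, by rw [smul_pow, hs, zero_smul]⟩
  exact ⟨h1.isUnit_one_add.unit, rfl⟩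

private theorem poly_split (g : Polynomial B) : ∃ (h : Polynomial B) (a b : B),
    g = (h * Polynomial.X + Polynomial.C b) * Polynomial.X + Polynomial.C a :=
  ⟨g.divX.divX, g.coeff 0, g.divX.coeff 0, by
    rw [Polynomial.divX_mul_X_add, Polynomial.divX_mul_X_add]⟩

private theorem one_add_pow {S : Type w} [Ring S] (x : S) (n : ℕ) :
    ∃ y : S, (1 + x) ^ n = 1 + n • x + x ^ 2 * y := by
  induction n with
  | zero => exact ⟨0, by simp⟩
  | succ n ih =>
    obtain ⟨y, hy⟩ := ih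
    refine ⟨n • 1 + y + y * x, ?_⟩
    rw [pow_succ, hy, add_smul, one_smul]
    noncomm_ring

private theorem pow_step {S : Type w} [Ring S] {k : ℕ} (hk : 2 ≤ k) (U A : S)
    (hU : U = 1 + (p ^ k : ℕ) • A) : ∃ A' : S, U ^ p = 1 + (p ^ (k + 1) : ℕ) • A' := by
  obtain ⟨y, hy⟩ := one_add_pow ((p ^ k : ℕ) • A) p
  refine ⟨A + (p ^ (k - 1)) • (A ^ 2 * y), ?_⟩
  rw [hU, hy, smul_pow, smul_add, add_assoc]
  congr 2
  · rw [smul_smul, pow_succ, mul_comm]
  · rw [smul_mul_assoc, smul_smul, ← pow_mul, ← pow_add]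
    congr 2
    omega

theorem pow_congr_one {S : Type w} [Ring S] {k : ℕ} (hk : 2 ≤ k) (l : ℕ) (U A : S)
    (hU : U = 1 + (p ^ k : ℕ) • A) : ∃ A' : S, U ^ p ^ l = 1 + (p ^ (k + l) : ℕ) • A' := by
  induction l with
  | zero => exact ⟨A, by rw [pow_zero, pow_one, add_zero, hU]⟩
  | succ l ih =>
    obtain ⟨A', hA'⟩ := ih
    obtain ⟨A'', hA''⟩ := pow_step (p := p) (by omega : 2 ≤ k + l) _ A' hA'
    exact ⟨A'', by rw [pow_succ, pow_mul, hA'', add_assoc]⟩

end

end Pool.Agent.H39.KL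

end

section

/-!
# `K₋₁` of rings and the assembly map in degree `-1`

`Km1 R` is the group `K₋₁(R)`, i.e. the cokernel of `K₀(R[t]) ⊕ K₀(R[t⁻¹]) → K₀(R[t, t⁻¹])`.

For a family `𝓕` of subgroups of `G`, `ColimKm1 R G 𝓕` is the colimit of the groups `K₋₁(R[F])`
over the subgroups `F` in `𝓕`, the morphisms `F → F'` being the restrictions of the conjugations
`x ↦ g x g⁻¹` with `g F g⁻¹ ⊆ F'`, and `assembly R G 𝓕` is the natural map from it to `K₋₁(R[G])`.
-/

set_option autoImplicit false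

open Matrix
open scoped LaurentPolynomial

universe u v w

namespace Pool.Agent.H95.KM

open Pool.Agent.H71.FJ (K0 MatEquiv IdemMat conjHom)

section Laurent

variable (R : Type u) [Ring R] {S : Type v} [Ring S] {T : Type w} [Ring T]

/-- The inclusion of `R[t]` into `R[t, t⁻¹]`. -/
noncomputable def posHom : Polynomial R →+* R[T;T⁻¹] := Polynomial.toLaurent

/-- The homomorphism `R[X] → R[t, t⁻¹]`, `X ↦ t⁻¹`, with image `R[t⁻¹]`. -/
noncomputable def negHom : Polynomial R →+* R[T;T⁻¹] :=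
  (AddMonoidAlgebra.mapDomainRingHom R (negAddMonoidHom : ℤ →+ ℤ)).comp Polynomial.toLaurent

variable {R}

/-- The homomorphism `R[t, t⁻¹] → S[t, t⁻¹]` induced by `f : R → S`. -/
noncomputable def lau (f : R →+* S) : R[T;T⁻¹] →+* S[T;T⁻¹] := AddMonoidAlgebra.mapRingHom ℤ f

theorem lau_single (f : R →+* S) (k : ℤ) (r : R) :
    lau f (AddMonoidAlgebra.single k r) = AddMonoidAlgebra.single k (f r) :=
  AddMonoidAlgebra.mapRingHom_single f k r

theorem posHom_monomial (k : ℕ) (r : R) :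
    posHom R (Polynomial.monomial k r) = AddMonoidAlgebra.single (k : ℤ) r := by
  rw [← Polynomial.C_mul_X_pow_eq_monomial]
  change Polynomial.toLaurent (Polynomial.C r * Polynomial.X ^ k) = _
  rw [Polynomial.toLaurent_C_mul_X_pow, LaurentPolynomial.single_eq_C_mul_T]

theorem negHom_monomial (k : ℕ) (r : R) :
    negHom R (Polynomial.monomial k r) = AddMonoidAlgebra.single (-(k : ℤ)) r := by
  change AddMonoidAlgebra.mapDomainRingHom R (negAddMonoidHom : ℤ →+ ℤ)
    (posHom R (Polynomial.monomial k r)) = _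
  rw [posHom_monomial]
  change AddMonoidAlgebra.mapDomain _ (AddMonoidAlgebra.single (k : ℤ) r) = _
  rw [AddMonoidAlgebra.mapDomain_single]
  rfl

theorem lau_posHom (f : R →+* S) :
    (lau f).comp (posHom R) = (posHom S).comp (Polynomial.mapRingHom f) := by
  apply RingHom.ext
  intro p
  induction p using Polynomial.induction_on' with
  | add p q hp hq => rw [map_add, hp, hq, map_add]
  | monomial k r =>
    rw [RingHom.comp_apply, RingHom.comp_apply, posHom_monomial, lau_single,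
      Polynomial.coe_mapRingHom, Polynomial.map_monomial, posHom_monomial]

theorem lau_negHom (f : R →+* S) :
    (lau f).comp (negHom R) = (negHom S).comp (Polynomial.mapRingHom f) := by
  apply RingHom.ext
  intro p
  induction p using Polynomial.induction_on' with
  | add p q hp hq => rw [map_add, hp, hq, map_add]
  | monomial k r =>
    rw [RingHom.comp_apply, RingHom.comp_apply, negHom_monomial, lau_single,
      Polynomial.coe_mapRingHom, Polynomial.map_monomial, negHom_monomial]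

theorem lau_comp (g : S →+* T) (f : R →+* S) : lau (g.comp f) = (lau g).comp (lau f) := by
  apply RingHom.ext
  intro x
  induction x using AddMonoidAlgebra.induction_linear with
  | zero => simp
  | add x y hx hy => rw [map_add, hx, hy, map_add]
  | single k r => rw [RingHom.comp_apply, lau_single, lau_single, lau_single]; rfl

end Laurent

/-- The subgroup of `K₀(R[t, t⁻¹])` generated by the images of `K₀(R[t])` and `K₀(R[t⁻¹])`. -/
noncomputable def Km1Rel (R : Type u) [Ring R] : AddSubgroup (K0 R[T;T⁻¹]) :=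
  (K0.map (posHom R)).range ⊔ (K0.map (negHom R)).range

/-- The group `K₋₁(R)`. -/
def Km1 (R : Type u) [Ring R] : Type u := K0 R[T;T⁻¹] ⧸ Km1Rel R

noncomputable instance instKm1 (R : Type u) [Ring R] : AddCommGroup (Km1 R) :=
  QuotientAddGroup.Quotient.addCommGroup (Km1Rel R)

namespace Km1

variable {R : Type u} [Ring R] {S : Type v} [Ring S] {T : Type w} [Ring T]

/-- The class in `K₋₁(R)` of an element of `K₀(R[t, t⁻¹])`. -/
noncomputable def mk : K0 R[T;T⁻¹] →+ Km1 R := QuotientAddGroup.mk' (Km1Rel R)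

theorem mk_surjective : Function.Surjective (mk : K0 R[T;T⁻¹] →+ Km1 R) :=
  QuotientAddGroup.mk_surjective

theorem mk_eq_zero {x : K0 R[T;T⁻¹]} : mk x = 0 ↔ x ∈ Km1Rel R :=
  QuotientAddGroup.eq_zero_iff x

theorem mk_pos (x : K0 (Polynomial R)) : mk (K0.map (posHom R) x) = 0 :=
  mk_eq_zero.2 (AddSubgroup.mem_sup_left ⟨x, rfl⟩)

theorem mk_neg (x : K0 (Polynomial R)) : mk (K0.map (negHom R) x) = 0 :=
  mk_eq_zero.2 (AddSubgroup.mem_sup_right ⟨x, rfl⟩)

theorem hom_ext {M : Type*} [AddCommGroup M] {f g : Km1 R →+ M}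
    (h : ∀ x, f (mk x) = g (mk x)) : f = g := by
  apply QuotientAddGroup.addMonoidHom_ext
  ext x
  exact h x

/-- Homomorphisms out of `K₋₁(R)`. -/
noncomputable def lift {M : Type*} [AddCommGroup M] (F : K0 R[T;T⁻¹] →+ M)
    (h1 : ∀ x, F (K0.map (posHom R) x) = 0) (h2 : ∀ x, F (K0.map (negHom R) x) = 0) :
    Km1 R →+ M :=
  QuotientAddGroup.lift (Km1Rel R) F (by
    rw [Km1Rel, sup_le_iff]
    constructor
    · rintro _ ⟨x, rfl⟩
      exact h1 x
    · rintro _ ⟨x, rfl⟩
      exact h2 x)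

/-- The homomorphism `K₋₁(R) → K₋₁(S)` induced by a ring homomorphism `R → S`. -/
noncomputable def map (f : R →+* S) : Km1 R →+ Km1 S :=
  lift (mk.comp (K0.map (lau f)))
    (fun x => by
      rw [AddMonoidHom.comp_apply, K0.map_map, lau_posHom, ← K0.map_map, mk_pos])
    (fun x => by
      rw [AddMonoidHom.comp_apply, K0.map_map, lau_negHom, ← K0.map_map, mk_neg])

theorem map_mk (f : R →+* S) (x : K0 R[T;T⁻¹]) : map f (mk x) = mk (K0.map (lau f) x) := rfl

theorem map_comp (g : S →+* T) (f : R →+* S) : map (g.comp f) = (map g).comp (map f) := by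
  apply hom_ext
  intro x
  rw [AddMonoidHom.comp_apply, map_mk, map_mk, map_mk, lau_comp, K0.map_map]

theorem map_map (g : S →+* T) (f : R →+* S) (x : Km1 R) : map g (map f x) = map (g.comp f) x := by
  rw [map_comp]
  rfl

end Km1

/-- The subgroups in a family. -/
abbrev FamSub (G : Type v) [Group G] (𝓕 : Subgroup G → Prop) : Type v := {F : Subgroup G // 𝓕 F}

/-- The homomorphism `K₋₁(R[F]) → K₋₁(R[F'])` induced by a group homomorphism `F → F'`. -/
noncomputable def ind (R : Type u) [Ring R] {F F' : Type*} [Group F] [Group F'] (φ : F →* F') :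
    Km1 (MonoidAlgebra R F) →+ Km1 (MonoidAlgebra R F') :=
  Km1.map (MonoidAlgebra.mapDomainRingHom R φ)

/-- `⨁_F K₋₁(R[F])` over the subgroups `F` in the family `𝓕`. -/
abbrev SumKm1 (R : Type u) [Ring R] (G : Type v) [Group G] (𝓕 : Subgroup G → Prop) :
    Type (max u v) :=
  DirectSum (FamSub G 𝓕) (fun F => Km1 (MonoidAlgebra R F.1))

/-- The inclusion of the summand of `F`. -/
noncomputable def inc (R : Type u) [Ring R] (G : Type v) [Group G] (𝓕 : Subgroup G → Prop)
    (F : FamSub G 𝓕) : Km1 (MonoidAlgebra R F.1) →+ SumKm1 R G 𝓕 :=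
  open scoped Classical in DirectSum.of (fun F : FamSub G 𝓕 => Km1 (MonoidAlgebra R F.1)) F

/-- The relation `c_g(x) - x` of the colimit. -/
noncomputable def rel (R : Type u) [Ring R] (G : Type v) [Group G] (𝓕 : Subgroup G → Prop)
    (F F' : FamSub G 𝓕) (g : G) (h : ∀ x ∈ F.1, g * x * g⁻¹ ∈ F'.1)
    (x : Km1 (MonoidAlgebra R F.1)) : SumKm1 R G 𝓕 :=
  inc R G 𝓕 F' (ind R (conjHom g F.1 F'.1 h) x) - inc R G 𝓕 F x

/-- The relations of the colimit: `c_g(x) = x` for `x ∈ K₋₁(R[F])`, `g F g⁻¹ ⊆ F'`. -/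
noncomputable def colimRel (R : Type u) [Ring R] (G : Type v) [Group G]
    (𝓕 : Subgroup G → Prop) : AddSubgroup (SumKm1 R G 𝓕) :=
  AddSubgroup.closure {z | ∃ F F' g h x, z = rel R G 𝓕 F F' g h x}

/-- The colimit of `K₋₁(R[F])` over the subgroups `F` in the family `𝓕`. -/
def ColimKm1 (R : Type u) [Ring R] (G : Type v) [Group G] (𝓕 : Subgroup G → Prop) :
    Type (max u v) :=
  SumKm1 R G 𝓕 ⧸ colimRel R G 𝓕

noncomputable instance instColimKm1 (R : Type u) [Ring R] (G : Type v) [Group G]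
    (𝓕 : Subgroup G → Prop) : AddCommGroup (ColimKm1 R G 𝓕) :=
  QuotientAddGroup.Quotient.addCommGroup (colimRel R G 𝓕)

/-- The assembly map on the direct sum, given by the inclusions `F → G`. -/
noncomputable def assemblySum (R : Type u) [Ring R] (G : Type v) [Group G]
    (𝓕 : Subgroup G → Prop) : SumKm1 R G 𝓕 →+ Km1 (MonoidAlgebra R G) :=
  open scoped Classical in
  DirectSum.toAddMonoid fun F : FamSub G 𝓕 => ind R F.1.subtype

theorem assemblySum_inc (R : Type u) [Ring R] (G : Type v) [Group G]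
    (𝓕 : Subgroup G → Prop) (F : FamSub G 𝓕) (x : Km1 (MonoidAlgebra R F.1)) :
    assemblySum R G 𝓕 (inc R G 𝓕 F x) = ind R F.1.subtype x := by
  classical
  rw [assemblySum, inc, DirectSum.toAddMonoid_of]

/-- Ring homomorphisms that are conjugate by a unit induce the same map on `K₀`. -/
theorem K0_map_conj {R : Type u} [Ring R] {S : Type v} [Ring S] (f f' : R →+* S) (a b : S)
    (hba : b * a = 1) (h : ∀ r, f' r = a * f r * b) (x : K0 R) :
    K0.map f' x = K0.map f x := by
  suffices H : K0.map f' = K0.map f from congrArg (fun f : K0 R →+ K0 S => f x) H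
  apply K0.hom_ext
  intro c
  rw [K0.map_mk', K0.map_mk']
  apply K0.mk_eq_of_equiv
  change MatEquiv (c.mat.map f') (c.mat.map f)
  set e := c.mat.map f with he
  have hee : e * e = e := by rw [he, ← Matrix.map_mul, c.idem]
  have h1 : c.mat.map f' = (diagonal fun _ => a) * e * (diagonal fun _ => b) := by
    refine Matrix.ext fun i j => ?_
    rw [Matrix.mul_diagonal, Matrix.diagonal_mul]
    exact h _
  have h2 : (diagonal fun _ : Fin c.n => b) * (diagonal fun _ => a) = 1 := by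
    rw [diagonal_mul_diagonal]
    simp only [hba]
    exact diagonal_one
  refine ⟨(diagonal fun _ => a) * e, e * (diagonal fun _ => b), ?_, ?_⟩
  · rw [h1, Matrix.mul_assoc, ← Matrix.mul_assoc e, hee, ← Matrix.mul_assoc]
  · rw [Matrix.mul_assoc, ← Matrix.mul_assoc (diagonal fun _ => b), h2, Matrix.one_mul, hee]

theorem Km1_map_conj {R : Type u} [Ring R] {S : Type v} [Ring S] (f f' : R →+* S) (a b : S)
    (hba : b * a = 1) (h : ∀ r, f' r = a * f r * b) (x : Km1 R) :
    Km1.map f' x = Km1.map f x := by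
  obtain ⟨y, rfl⟩ := Km1.mk_surjective x
  rw [Km1.map_mk, Km1.map_mk]
  congr 1
  apply K0_map_conj (lau f) (lau f') (AddMonoidAlgebra.single 0 a) (AddMonoidAlgebra.single 0 b)
  · rw [AddMonoidAlgebra.single_mul_single, hba]
    rfl
  · intro r
    induction r using AddMonoidAlgebra.induction_linear with
    | zero => simp
    | add p q hp hq => rw [map_add, map_add, hp, hq, mul_add, add_mul]
    | single k s =>
      rw [lau_single, lau_single, AddMonoidAlgebra.single_mul_single,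
        AddMonoidAlgebra.single_mul_single, zero_add, add_zero, h]

theorem ind_conj (R : Type u) [Ring R] {G : Type v} [Group G] (g : G) (F F' : Subgroup G)
    (h : ∀ x ∈ F, g * x * g⁻¹ ∈ F') (x : Km1 (MonoidAlgebra R F)) :
    ind R F'.subtype (ind R (conjHom g F F' h) x) = ind R F.subtype x := by
  rw [ind, ind, ind, Km1.map_map]
  apply Km1_map_conj _ _ (MonoidAlgebra.single g 1) (MonoidAlgebra.single g⁻¹ 1)
  · exact Pool.Agent.H71.FJ.single_inv R g
  · intro r
    induction r using MonoidAlgebra.induction_linear with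
    | zero => simp
    | add a b ha hb => rw [map_add, ha, hb, map_add, mul_add, add_mul]
    | single s t =>
      change MonoidAlgebra.mapDomain F'.subtype (MonoidAlgebra.mapDomain (conjHom g F F' h)
        (MonoidAlgebra.single s t)) = MonoidAlgebra.single g 1 *
          MonoidAlgebra.mapDomain F.subtype (MonoidAlgebra.single s t) *
          MonoidAlgebra.single g⁻¹ 1
      rw [MonoidAlgebra.mapDomain_single, MonoidAlgebra.mapDomain_single,
        MonoidAlgebra.mapDomain_single, MonoidAlgebra.single_mul_single,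
        MonoidAlgebra.single_mul_single, one_mul, mul_one]
      rfl

theorem colimRel_le (R : Type u) [Ring R] (G : Type v) [Group G] (𝓕 : Subgroup G → Prop) :
    colimRel R G 𝓕 ≤ (assemblySum R G 𝓕).ker := by
  rw [colimRel, AddSubgroup.closure_le]
  rintro z ⟨F, F', g, h, x, rfl⟩
  change assemblySum R G 𝓕 _ = 0
  rw [rel, map_sub, assemblySum_inc, assemblySum_inc]
  exact sub_eq_zero.2 (ind_conj R g F.1 F'.1 h x)

/-- The assembly map in degree `-1` for the family `𝓕`. -/
noncomputable def assembly (R : Type u) [Ring R] (G : Type v) [Group G]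
    (𝓕 : Subgroup G → Prop) : ColimKm1 R G 𝓕 →+ Km1 (MonoidAlgebra R G) :=
  QuotientAddGroup.lift (colimRel R G 𝓕) (assemblySum R G 𝓕) (colimRel_le R G 𝓕)

/-- The class in the colimit of an element of `K₋₁(R[F])`. -/
noncomputable def cl (R : Type u) [Ring R] (G : Type v) [Group G]
    (𝓕 : Subgroup G → Prop) (F : FamSub G 𝓕) :
    Km1 (MonoidAlgebra R F.1) →+ ColimKm1 R G 𝓕 :=
  (QuotientAddGroup.mk' (colimRel R G 𝓕)).comp (inc R G 𝓕 F)

theorem cl_conj (R : Type u) [Ring R] (G : Type v) [Group G]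
    (𝓕 : Subgroup G → Prop) (F F' : FamSub G 𝓕) (g : G) (h : ∀ x ∈ F.1, g * x * g⁻¹ ∈ F'.1)
    (x : Km1 (MonoidAlgebra R F.1)) :
    cl R G 𝓕 F' (ind R (conjHom g F.1 F'.1 h) x) = cl R G 𝓕 F x := by
  refine (QuotientAddGroup.eq_iff_sub_mem).2 ?_
  exact AddSubgroup.subset_closure ⟨F, F', g, h, x, rfl⟩

end Pool.Agent.H95.KM

end

section

/-!
# Block triangular invertible matrices

Two invertible matrices over a (non commutative) ring, one block upper triangular and one block lower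
triangular with respect to a function `v`, with the same diagonal blocks, have the same class in `K₁`.

## Paper proof

It is enough to prove: (*) if `U` is invertible, `U` and `U⁻¹` block upper triangular with respect to `v`
(`U i j = 0` for `v j < v i`), then the matrix `D` with `D i j = U i j` for `v i = v j` and `0` otherwise is
invertible, with inverse the corresponding part of `U⁻¹`, and `cls U = cls D`. The lower triangular case is (*)
for `v' i = N - v i`, `N` a bound of `v`.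

`D` is invertible: for `v i = v j`, `(U U⁻¹) i j = ∑_k U i k U⁻¹ k j` and the terms with `v k ≠ v i` vanish
(`U i k = 0` for `v k < v i`, `U⁻¹ k j = 0` for `v k > v j`).

`E = D⁻¹ U` is unipotent: `E i j = 0` for `v j < v i`, and `E i j = δ i j` for `v i = v j`, and the same holds for
`E⁻¹`. Claim: `cls E = 0`, by induction on the cardinality of the index type (any finite type; statement for all
unipotent `E` with unipotent inverse). If the index type is empty, `E = 1`. Otherwise choose `i₀` with `v i₀`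
maximal. The row `i₀` of `E` is `δ`, so after the reindexing `ι ≃ {i // i ≠ i₀} ⊕ {i // i = i₀}` (or
`Equiv.sumCompl`) `E = fromBlocks E' C 0 1`, and the inverse has the same shape. `E'` is invertible and unipotent,
and `cls E = cls E'` by a lemma of `K1B` on block triangular matrices (`cls_stab`, `cls_upper`, `cls_lower`, ...)
or directly: `fromBlocks E' C 0 1 = fromBlocks 1 C 0 1 * fromBlocks E' 0 0 1`.
-/

set_option autoImplicit false

open Matrix

universe u

namespace Pool.Agent.H95.WH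

variable {R : Type u} [Ring R]

/-- The block diagonal part of a matrix. -/
private def dpart {ι : Type*} (v : ι → ℕ) (M : Matrix ι ι R) : Matrix ι ι R :=
  Matrix.of fun i j => if v i = v j then M i j else 0

private theorem dpart_apply {ι : Type*} (v : ι → ℕ) (M : Matrix ι ι R) (i j : ι) :
    dpart v M i j = if v i = v j then M i j else 0 := rfl

private theorem dpart_mul {ι : Type*} [Fintype ι] (v : ι → ℕ) (M N : Matrix ι ι R)
    (hM : ∀ i j, v j < v i → M i j = 0) (hN : ∀ i j, v j < v i → N i j = 0) :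
    dpart v (M * N) = dpart v M * dpart v N := by
  ext i j
  rw [dpart_apply, Matrix.mul_apply, Matrix.mul_apply]
  by_cases hij : v i = v j
  · rw [if_pos hij]
    refine Finset.sum_congr rfl fun k _ => ?_
    rw [dpart_apply, dpart_apply]
    rcases lt_trichotomy (v k) (v i) with h | h | h
    · rw [if_neg (ne_of_gt h), hM i k h, zero_mul, zero_mul]
    · rw [if_pos h.symm, if_pos (h.trans hij)]
    · rw [if_neg (ne_of_lt h), zero_mul, hN k j (hij ▸ h), mul_zero]
  · rw [if_neg hij]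
    symm
    refine Finset.sum_eq_zero fun k _ => ?_
    rw [dpart_apply, dpart_apply]
    by_cases h : v i = v k
    · have h2 : ¬ v k = v j := fun h2 => hij (h.trans h2)
      rw [if_neg h2, mul_zero]
    · rw [if_neg h, zero_mul]

private theorem dpart_one {ι : Type*} [DecidableEq ι] (v : ι → ℕ) :
    dpart v (1 : Matrix ι ι R) = 1 := by
  ext i j
  rw [dpart_apply]
  by_cases h : i = j
  · subst h
    rw [if_pos rfl]
  · rw [Matrix.one_apply_ne h, ite_self]

private theorem dpart_dpart {ι : Type*} (v : ι → ℕ) (M : Matrix ι ι R) :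
    dpart v (dpart v M) = dpart v M := by
  ext i j
  rw [dpart_apply, dpart_apply]
  by_cases h : v i = v j
  · rw [if_pos h]
  · rw [if_neg h, if_neg h]

private theorem dpart_up {ι : Type*} (v : ι → ℕ) (M : Matrix ι ι R) (i j : ι) (h : v j < v i) :
    dpart v M i j = 0 := by
  rw [dpart_apply, if_neg (ne_of_gt h)]

private theorem mul_up {ι : Type*} [Fintype ι] (v : ι → ℕ) (M N : Matrix ι ι R)
    (hM : ∀ i j, v j < v i → M i j = 0) (hN : ∀ i j, v j < v i → N i j = 0)
    (i j : ι) (h : v j < v i) : (M * N) i j = 0 := by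
  rw [Matrix.mul_apply]
  refine Finset.sum_eq_zero fun k _ => ?_
  rcases lt_or_ge (v k) (v i) with h1 | h1
  · rw [hM i k h1, zero_mul]
  · rw [hN k j (lt_of_lt_of_le h h1), mul_zero]

/-- The block diagonal part of an invertible block triangular matrix, invertible. -/
private def dU {ι : Type*} [Fintype ι] [DecidableEq ι] (v : ι → ℕ) (U : (Matrix ι ι R)ˣ)
    (hU : ∀ i j, v j < v i → U.val i j = 0) (hUi : ∀ i j, v j < v i → U.inv i j = 0) :
    (Matrix ι ι R)ˣ where
  val := dpart v U.val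
  inv := dpart v U.inv
  val_inv := by rw [← dpart_mul v _ _ hU hUi, U.val_inv, dpart_one]
  inv_val := by rw [← dpart_mul v _ _ hUi hU, U.inv_val, dpart_one]

private theorem cls_unipotent (n : ℕ) : ∀ (ι : Type*) [Fintype ι] [DecidableEq ι]
    (_ : Fintype.card ι = n) (v : ι → ℕ) (E : (Matrix ι ι R)ˣ)
    (_ : ∀ i j, v j < v i → E.val i j = 0) (_ : ∀ i j, v j < v i → E.inv i j = 0)
    (_ : ∀ i j, v i = v j → E.val i j = (1 : Matrix ι ι R) i j)
    (_ : ∀ i j, v i = v j → E.inv i j = (1 : Matrix ι ι R) i j), K1.cls E = 0 := by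
  induction n with
  | zero =>
    intro ι _ _ hc v E _ _ _ _
    have : IsEmpty ι := Fintype.card_eq_zero_iff.1 hc
    have h : E = 1 := Units.ext (Subsingleton.elim _ _)
    rw [h, K1.cls_one]
  | succ n ih =>
    intro ι _ _ hc v E h1 h2 h3 h4
    have hne : Nonempty ι := Fintype.card_pos_iff.1 (by rw [hc]; exact Nat.succ_pos n)
    obtain ⟨i₀, hi₀⟩ : ∃ i₀ : ι, ∀ j, v j ≤ v i₀ := Finite.exists_max v
    have hrow : ∀ j, j ≠ i₀ → E.val i₀ j = 0 := by
      intro j hj
      rcases lt_or_eq_of_le (hi₀ j) with h | h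
      · exact h1 _ _ h
      · rw [h3 _ _ h.symm, Matrix.one_apply_ne hj.symm]
    have hrowi : ∀ j, j ≠ i₀ → E.inv i₀ j = 0 := by
      intro j hj
      rcases lt_or_eq_of_le (hi₀ j) with h | h
      · exact h2 _ _ h
      · rw [h4 _ _ h.symm, Matrix.one_apply_ne hj.symm]
    let e : ι ≃ {i : ι // i ≠ i₀} ⊕ {i : ι // ¬ i ≠ i₀} := (Equiv.sumCompl fun i => i ≠ i₀).symm
    have hA : (reU e E).val = Matrix.fromBlocks
        (E.val.submatrix (fun i : {i : ι // i ≠ i₀} => i.1) (fun i : {i : ι // i ≠ i₀} => i.1))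
        (E.val.submatrix (fun i : {i : ι // i ≠ i₀} => i.1) (fun i : {i : ι // ¬ i ≠ i₀} => i.1))
        0 1 := by
      rw [reU_val]
      ext i j
      rcases i with i | i
      · rcases j with j | j <;> rfl
      · have hi : i.1 = i₀ := not_not.1 i.2
        rcases j with j | j
        · change E.val i.1 j.1 = 0
          rw [hi]
          exact hrow _ j.2
        · change E.val i.1 j.1 = (1 : Matrix {i : ι // ¬ i ≠ i₀} {i : ι // ¬ i ≠ i₀} R) i j
          have hj : j.1 = i₀ := not_not.1 j.2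
          have hij : i = j := Subtype.ext (hi.trans hj.symm)
          subst hij
          rw [Matrix.one_apply_eq, h3 _ _ rfl, Matrix.one_apply_eq]
    have hB : (reU e E).inv = Matrix.fromBlocks
        (E.inv.submatrix (fun i : {i : ι // i ≠ i₀} => i.1) (fun i : {i : ι // i ≠ i₀} => i.1))
        (E.inv.submatrix (fun i : {i : ι // i ≠ i₀} => i.1) (fun i : {i : ι // ¬ i ≠ i₀} => i.1))
        0 1 := by
      change E.inv.submatrix e.symm e.symm = _
      ext i j
      rcases i with i | i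
      · rcases j with j | j <;> rfl
      · have hi : i.1 = i₀ := not_not.1 i.2
        rcases j with j | j
        · change E.inv i.1 j.1 = 0
          rw [hi]
          exact hrowi _ j.2
        · change E.inv i.1 j.1 = (1 : Matrix {i : ι // ¬ i ≠ i₀} {i : ι // ¬ i ≠ i₀} R) i j
          have hj : j.1 = i₀ := not_not.1 j.2
          have hij : i = j := Subtype.ext (hi.trans hj.symm)
          subst hij
          rw [Matrix.one_apply_eq, h4 _ _ rfl, Matrix.one_apply_eq]
    have hAB := (reU e E).val_inv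
    have hBA := (reU e E).inv_val
    rw [hA, hB, Matrix.fromBlocks_multiply, ← Matrix.fromBlocks_one, Matrix.fromBlocks_inj] at hAB
    rw [hA, hB, Matrix.fromBlocks_multiply, ← Matrix.fromBlocks_one, Matrix.fromBlocks_inj] at hBA
    have hAB1 := hAB.1
    have hBA1 := hBA.1
    rw [Matrix.mul_zero, add_zero] at hAB1 hBA1
    let E' : (Matrix {i : ι // i ≠ i₀} {i : ι // i ≠ i₀} R)ˣ :=
      { val := E.val.submatrix (fun i => i.1) (fun i => i.1)
        inv := E.inv.submatrix (fun i => i.1) (fun i => i.1)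
        val_inv := hAB1
        inv_val := hBA1 }
    have hcard : Fintype.card {i : ι // i ≠ i₀} = n := by
      have h := Fintype.card_subtype_compl (fun i : ι => i = i₀)
      rw [Fintype.card_subtype_eq, hc] at h
      exact h
    have hE' : K1.cls E' = 0 := by
      refine ih {i : ι // i ≠ i₀} hcard (fun i => v i.1) E' ?_ ?_ ?_ ?_
      · intro i j h
        exact h1 i.1 j.1 h
      · intro i j h
        exact h2 i.1 j.1 h
      · intro i j h
        change E.val i.1 j.1 = _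
        rw [h3 i.1 j.1 h]
        by_cases hij : i = j
        · subst hij
          rw [Matrix.one_apply_eq, Matrix.one_apply_eq]
        · rw [Matrix.one_apply_ne hij, Matrix.one_apply_ne (fun h => hij (Subtype.ext h))]
      · intro i j h
        change E.inv i.1 j.1 = _
        rw [h4 i.1 j.1 h]
        by_cases hij : i = j
        · subst hij
          rw [Matrix.one_apply_eq, Matrix.one_apply_eq]
        · rw [Matrix.one_apply_ne hij, Matrix.one_apply_ne (fun h => hij (Subtype.ext h))]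
    rw [← K1.cls_reindex e E, K1.cls_upper E' 1 _ (reU e E) hA, hE', K1.cls_one, add_zero]

private theorem cls_dU {ι : Type*} [Fintype ι] [DecidableEq ι] (v : ι → ℕ) (U : (Matrix ι ι R)ˣ)
    (hU : ∀ i j, v j < v i → U.val i j = 0) (hUi : ∀ i j, v j < v i → U.inv i j = 0) :
    K1.cls U = K1.cls (dU v U hU hUi) := by
  have hDi : (dU v U hU hUi)⁻¹.val = dpart v U.inv := rfl
  have hD : (dU v U hU hUi).val = dpart v U.val := rfl
  have h : K1.cls ((dU v U hU hUi)⁻¹ * U) = 0 := by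
    have e1 : ((dU v U hU hUi)⁻¹ * U).val = dpart v U.inv * U.val := rfl
    have e2 : ((dU v U hU hUi)⁻¹ * U).inv = U.inv * dpart v U.val := rfl
    refine cls_unipotent (Fintype.card ι) ι rfl v _ ?_ ?_ ?_ ?_
    · intro i j hij
      rw [e1]
      exact mul_up v _ _ (dpart_up v _) hU i j hij
    · intro i j hij
      rw [e2]
      exact mul_up v _ _ hUi (dpart_up v _) i j hij
    · intro i j hij
      have h5 := dpart_mul v (dpart v U.inv) U.val (dpart_up v _) hU
      rw [dpart_dpart, ← dpart_mul v _ _ hUi hU, U.inv_val, dpart_one] at h5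
      have h6 := congrFun (congrFun h5 i) j
      rw [dpart_apply, if_pos hij] at h6
      rw [e1, h6]
    · intro i j hij
      have h5 := dpart_mul v U.inv (dpart v U.val) hUi (dpart_up v _)
      rw [dpart_dpart, ← dpart_mul v _ _ hUi hU, U.inv_val, dpart_one] at h5
      have h6 := congrFun (congrFun h5 i) j
      rw [dpart_apply, if_pos hij] at h6
      rw [e2, h6]
  rw [K1.cls_mul, K1.cls_inv] at h
  exact (neg_add_eq_zero.1 h).symm

theorem cls_tri {ι : Type*} [Fintype ι] [DecidableEq ι] (v : ι → ℕ) (U V : (Matrix ι ι R)ˣ)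
    (hU : ∀ i j, v j < v i → U.val i j = 0) (hUi : ∀ i j, v j < v i → U.inv i j = 0)
    (hV : ∀ i j, v i < v j → V.val i j = 0) (hVi : ∀ i j, v i < v j → V.inv i j = 0)
    (hUV : ∀ i j, v i = v j → U.val i j = V.val i j) : K1.cls U = K1.cls V := by
  obtain ⟨N, hN⟩ : ∃ N, ∀ i, v i ≤ N := by
    refine ⟨∑ i, v i, fun i => ?_⟩
    exact Finset.single_le_sum (fun _ _ => Nat.zero_le _) (Finset.mem_univ i)
  have hlt : ∀ i j, N - v j < N - v i → v i < v j := by
    intro i j h
    have := hN i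
    have := hN j
    omega
  have hV' : ∀ i j, N - v j < N - v i → V.val i j = 0 := fun i j h => hV i j (hlt i j h)
  have hVi' : ∀ i j, N - v j < N - v i → V.inv i j = 0 := fun i j h => hVi i j (hlt i j h)
  rw [cls_dU v U hU hUi, cls_dU (fun i => N - v i) V hV' hVi']
  congr 1
  apply Units.ext
  ext i j
  change dpart v U.val i j = dpart (fun i => N - v i) V.val i j
  rw [dpart_apply, dpart_apply]
  have h1 := hN i
  have h2 := hN j
  by_cases h : v i = v j
  · rw [if_pos h, if_pos (by rw [h]), hUV i j h]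
  · rw [if_neg h, if_neg (fun h3 => h (by omega))]

end Pool.Agent.H95.WH

end
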