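import Pool.Agent.H71.TCZ.H71.CZ.Eta
import Pool.Agent.H71.TCZ.M01

/-! The parts of this file: H71.CZ.BlkC0, H71.CZ.BlkC. -/

section

/-!
# Project CZ: block sums, the matrices over `B[G ≀ C_p]`

PROOFS.  `iS (cL m) = PL * iS m * PLᵀ` over `S = B[G ≀ C_p]` (`PL`, `PR`, `Em`, `eM` have entries `0`, `1` and are preserved by ring homomorphisms);
`PL_PL`, `PL_PR`, ...; `piS_PL`: entrywise, `piS v w = sg` if `w = v (· - 1)`.
-/

set_option autoImplicit false

open Matrix

universe u v w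

namespace Pool.Agent.H71.CZ

section

variable {p : ℕ} [hp : Fact p.Prime] {Y Y' : Type} [Fintype Y] [DecidableEq Y] [Fintype Y']
  [DecidableEq Y']

omit [Fintype Y] [Fintype Y'] in
theorem PL_map {R : Type u} {R' : Type v} [Ring R] [Ring R'] (φ : R →+* R') : (PL p Y Y' R).map φ = PL p Y Y' R' := by
  ext1 v w
  rw [Matrix.map_apply]
  unfold PL
  split_ifs
  · exact map_one φ
  · exact map_zero φ

omit [Fintype Y] [Fintype Y'] in
theorem PR_map {R : Type u} {R' : Type v} [Ring R] [Ring R'] (φ : R →+* R') : (PR p Y Y' R).map φ = PR p Y Y' R' := by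
  ext1 v w
  rw [Matrix.map_apply]
  unfold PR
  split_ifs
  · exact map_one φ
  · exact map_zero φ

end

section

variable {p : ℕ} [hp : Fact p.Prime] {Y Y' : Type} [Fintype Y] [DecidableEq Y] [Fintype Y']
  [DecidableEq Y'] {B : Type} [CommRing B] {G : Type v} [Group G]

theorem iS_cL (m : MM p B G Y) : iS p B G (Y ⊕ Y') (cL m) =
    PL p Y Y' (MonoidAlgebra B (Wr p G)) * iS p B G Y m * (PL p Y Y' (MonoidAlgebra B (Wr p G)))ᵀ := by
  show (cL m).map (MonoidAlgebra.mapDomainRingHom B (inc p G)) = _ * m.map (MonoidAlgebra.mapDomainRingHom B (inc p G)) * _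
  unfold cL
  rw [Matrix.map_mul, Matrix.map_mul, PL_map, Matrix.transpose_map, PL_map]

theorem iS_cR (m : MM p B G Y') : iS p B G (Y ⊕ Y') (cR m) =
    PR p Y Y' (MonoidAlgebra B (Wr p G)) * iS p B G Y' m * (PR p Y Y' (MonoidAlgebra B (Wr p G)))ᵀ := by
  show (cR m).map (MonoidAlgebra.mapDomainRingHom B (inc p G)) = _ * m.map (MonoidAlgebra.mapDomainRingHom B (inc p G)) * _
  unfold cR
  rw [Matrix.map_mul, Matrix.map_mul, PR_map, Matrix.transpose_map, PR_map]

theorem iS_cR_PL (m : MM p B G Y') :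
    iS p B G (Y ⊕ Y') (cR m) * PL p Y Y' (MonoidAlgebra B (Wr p G)) = 0 := by
  rw [iS_cR, Matrix.mul_assoc, PR_PL, Matrix.mul_zero]

theorem PL_iS_cR (m : MM p B G Y') :
    (PL p Y Y' (MonoidAlgebra B (Wr p G)))ᵀ * iS p B G (Y ⊕ Y') (cR m) = 0 := by
  rw [iS_cR, Matrix.mul_assoc, ← Matrix.mul_assoc, PL_PR, Matrix.zero_mul]

theorem iS_cL_PR (m : MM p B G Y) :
    iS p B G (Y ⊕ Y') (cL m) * PR p Y Y' (MonoidAlgebra B (Wr p G)) = 0 := by
  rw [iS_cL, Matrix.mul_assoc, PL_PR, Matrix.mul_zero]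

theorem PR_iS_cL (m : MM p B G Y) :
    (PR p Y Y' (MonoidAlgebra B (Wr p G)))ᵀ * iS p B G (Y ⊕ Y') (cL m) = 0 := by
  rw [iS_cL, Matrix.mul_assoc, ← Matrix.mul_assoc, PR_PL, Matrix.zero_mul]

theorem iS_Em : iS p B G (Y ⊕ Y') (Em p Y Y' _) = Em p Y Y' _ := by
  show (Em p Y Y' _).map (MonoidAlgebra.mapDomainRingHom B (inc p G)) = _
  have h : ∀ X : MM p B G (Y ⊕ Y'), X.map (MonoidAlgebra.mapDomainRingHom B (inc p G)) = iS p B G (Y ⊕ Y') X := fun _ => rfl
  unfold Em
  rw [h, map_sub, map_sub, map_one, ← h, ← h, Matrix.map_mul, Matrix.map_mul, Matrix.transpose_map, Matrix.transpose_map, PL_map, PR_map]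

theorem iS_eM : iS p B G (Y ⊕ Y') (eM p Y Y' _) = eM p Y Y' _ := by
  classical
  show (eM p Y Y' _).map (MonoidAlgebra.mapDomainRingHom B (inc p G)) = _
  ext1 v w
  rw [Matrix.map_apply]
  unfold eM
  by_cases h : v = w
  · rw [h, Matrix.diagonal_apply_eq, Matrix.diagonal_apply_eq]
    split_ifs
    · exact map_one _
    · exact map_zero _
  · rw [Matrix.diagonal_apply_ne _ h, Matrix.diagonal_apply_ne _ h, map_zero]

theorem piS_apply (Z : Type) [Fintype Z] [DecidableEq Z] (v w : ZMod p → Z) :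
    piS p B G Z v w = if w = (fun i => v (i - 1)) then MonoidAlgebra.single (sg p G) 1 else 0 := rfl

theorem piS_mulE {Z : Type} [Fintype Z] [DecidableEq Z] {κ : Type*} (A : Matrix (ZMod p → Z) κ (MonoidAlgebra B (Wr p G))) (v : ZMod p → Z) (w : κ) :
    (piS p B G Z * A) v w = MonoidAlgebra.single (sg p G) 1 * A (fun i => v (i - 1)) w := by
  rw [Matrix.mul_apply, Finset.sum_eq_single (fun i => v (i - 1))]
  · rw [piS_apply, if_pos rfl]
  · intro u _ hu
    rw [piS_apply, if_neg hu, zero_mul]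
  · intro h
    exact absurd (Finset.mem_univ _) h

theorem piS_PL : piS p B G (Y ⊕ Y') * PL p Y Y' (MonoidAlgebra B (Wr p G)) =
    PL p Y Y' (MonoidAlgebra B (Wr p G)) * piS p B G Y := by
  ext1 v w
  rw [piS_mulE (PL p Y Y' (MonoidAlgebra B (Wr p G))) v w]
  by_cases hv : ty v = fun _ => true
  · obtain ⟨x, rfl⟩ := exists_inl hv
    rw [PL_mul_inl, piS_apply]
    have h1 : PL p Y Y' (MonoidAlgebra B (Wr p G)) (fun i => Sum.inl (x (i - 1))) w = if (fun i => x (i - 1)) = w then 1 else 0 :=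
      PL_inl (fun i => x (i - 1)) w
    rw [h1]
    by_cases h2 : (fun i => x (i - 1)) = w
    · rw [if_pos h2, if_pos h2.symm, mul_one]
    · rw [if_neg h2, if_neg (Ne.symm h2), mul_zero]
  · rw [PL_mul_zero _ hv, PL_zero (fun h => hv (ty_shift_const h)), mul_zero]

theorem piS_PR : piS p B G (Y ⊕ Y') * PR p Y Y' (MonoidAlgebra B (Wr p G)) =
    PR p Y Y' (MonoidAlgebra B (Wr p G)) * piS p B G Y' := by
  ext1 v w
  rw [piS_mulE (PR p Y Y' (MonoidAlgebra B (Wr p G))) v w]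
  by_cases hv : ty v = fun _ => false
  · obtain ⟨x, rfl⟩ := exists_inr hv
    rw [PR_mul_inr, piS_apply]
    have h1 : PR p Y Y' (MonoidAlgebra B (Wr p G)) (fun i => Sum.inr (x (i - 1))) w = if (fun i => x (i - 1)) = w then 1 else 0 :=
      PR_inr (fun i => x (i - 1)) w
    rw [h1]
    by_cases h2 : (fun i => x (i - 1)) = w
    · rw [if_pos h2, if_pos h2.symm, mul_one]
    · rw [if_neg h2, if_neg (Ne.symm h2), mul_zero]
  · rw [PR_mul_zero _ hv, PR_zero (fun h => hv (ty_shift_const h)), mul_zero]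

theorem PL_piS : (PL p Y Y' (MonoidAlgebra B (Wr p G)))ᵀ * piS p B G (Y ⊕ Y') =
    piS p B G Y * (PL p Y Y' (MonoidAlgebra B (Wr p G)))ᵀ := by
  ext1 x w
  rw [piS_mulE ((PL p Y Y' (MonoidAlgebra B (Wr p G)))ᵀ) x w, Matrix.transpose_apply, Matrix.mul_apply,
    Finset.sum_eq_single (fun i => (Sum.inl (x i) : Y ⊕ Y'))]
  · rw [Matrix.transpose_apply, PL_inl, if_pos rfl, one_mul, piS_apply]
    unfold PL
    split_ifs
    · rw [mul_one]
    · rw [mul_zero]
  · intro v _ hv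
    rw [Matrix.transpose_apply]
    unfold PL
    rw [if_neg hv, zero_mul]
  · intro h
    exact absurd (Finset.mem_univ _) h

theorem PR_piS : (PR p Y Y' (MonoidAlgebra B (Wr p G)))ᵀ * piS p B G (Y ⊕ Y') =
    piS p B G Y' * (PR p Y Y' (MonoidAlgebra B (Wr p G)))ᵀ := by
  ext1 x w
  rw [piS_mulE ((PR p Y Y' (MonoidAlgebra B (Wr p G)))ᵀ) x w, Matrix.transpose_apply, Matrix.mul_apply,
    Finset.sum_eq_single (fun i => (Sum.inr (x i) : Y ⊕ Y'))]
  · rw [Matrix.transpose_apply, PR_inr, if_pos rfl, one_mul, piS_apply]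
    unfold PR
    split_ifs
    · rw [mul_one]
    · rw [mul_zero]
  · intro v _ hv
    rw [Matrix.transpose_apply]
    unfold PR
    rw [if_neg hv, zero_mul]
  · intro h
    exact absurd (Finset.mem_univ _) h

end

end Pool.Agent.H71.CZ

end

section

/-!
# Project CZ: block sums, the value of `Φ` in `KQ (B[G ≀ C_p])`

PROOF of `phD_blk` (`Γ = GP`, `f = jU ∘ PhH`, `S = B[G ≀ C_p]`, `Σ = ∑ π^j`, `T = iS (tpM (bX U V))`,
`e = iS eM`).
`clX_split` three times.
1. `P = PL`, `Q = PLᵀ` (over `S`), `g = jU ∘ fst ∘ fst`: `iS (cL m) PL = PL iS m`, `iS (cR m) PL = 0`, `iS Em PL = 0`, `iS eM PL = 0`, `π PL = PL π`.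
2. `P = PR`, `Q = PRᵀ`, `g = jU ∘ snd ∘ fst`, `f` replaced by `f' = f (1 - PL PLᵀ) + PL PLᵀ`, which is `f` at `((1, X'), (U, V))`.
3. What remains is `f'' = 1 + e (T - 1) Σ` (`mixH`).  Index set `Z = {v // Ch p (ty v)}`, `τ` the inclusion matrix, `P = τ`, `Q = τᵀ Σ`:
`Q P = 1` and `P Q = e Σ` (`e π^j e = 0` for `0 < j < p`, `ch_unique`), `g γ = τᵀ T τ` is the image of a homomorphism to `GL_Z(B[G^p])`
(`mixG`), the class is in the image of `KQ (B[G^p])`, `toTV_map`; `f''' = 1` (`clX_triv`).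
-/

set_option autoImplicit false

open Matrix

universe u v w

namespace Pool.Agent.H71.CZ

open Pool.Agent.H71.FQ

section

variable {p : ℕ} [hp : Fact p.Prime] {Y Y' : Type} [Fintype Y] [DecidableEq Y] [Fintype Y']
  [DecidableEq Y'] {B : Type} [CommRing B] {G : Type v} [Group G] {n : ℕ}

variable (p B G Y) in
/-- the matrix `Σ` -/
noncomputable def sgX : Matrix (ZMod p → Y) (ZMod p → Y) (MonoidAlgebra B (Wr p G)) :=
  ∑ j ∈ Finset.range p, piS p B G Y ^ j

/-- the chosen mixed indices -/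
abbrev ZX (p : ℕ) [Fact p.Prime] (Y Y' : Type) : Type := {v : ZMod p → Y ⊕ Y' // Ch p (ty v)}

open Classical in
noncomputable instance : Fintype (ZX p Y Y') := by
  haveI : Fintype (ZMod p → Y ⊕ Y') := inferInstance
  exact Subtype.fintype _

open Classical in
noncomputable instance : DecidableEq (ZX p Y Y') := inferInstance

variable (p Y Y') in
/-- the inclusion of the chosen mixed indices -/
def tauM (R : Type*) [Ring R] : Matrix (ZMod p → Y ⊕ Y') (ZX p Y Y') R := fun v z =>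
  if v = z.1 then 1 else 0

theorem mul_tauM {R : Type*} [Ring R] {κ : Type*} (A : Matrix κ (ZMod p → Y ⊕ Y') R) (v : κ) (z : ZX p Y Y') :
    (A * tauM p Y Y' R) v z = A v z.1 := by
  rw [Matrix.mul_apply, Finset.sum_eq_single z.1]
  · unfold tauM
    rw [if_pos rfl, mul_one]
  · intro u _ hu
    unfold tauM
    rw [if_neg hu, mul_zero]
  · intro h
    exact absurd (Finset.mem_univ _) h

theorem tauM_mul {R : Type*} [Ring R] {κ : Type*} (A : Matrix (ZMod p → Y ⊕ Y') κ R) (z : ZX p Y Y') (v : κ) :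
    ((tauM p Y Y' R)ᵀ * A) z v = A z.1 v := by
  rw [Matrix.mul_apply, Finset.sum_eq_single z.1]
  · rw [Matrix.transpose_apply]
    unfold tauM
    rw [if_pos rfl, one_mul]
  · intro u _ hu
    rw [Matrix.transpose_apply]
    unfold tauM
    rw [if_neg hu, zero_mul]
  · intro h
    exact absurd (Finset.mem_univ _) h

theorem tau_sub {R : Type*} [Ring R] (A : Matrix (ZMod p → Y ⊕ Y') (ZMod p → Y ⊕ Y') R) :
    (tauM p Y Y' R)ᵀ * A * tauM p Y Y' R = A.submatrix Subtype.val Subtype.val := by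
  ext1 z z'
  rw [mul_tauM, tauM_mul, Matrix.submatrix_apply]

theorem tau_tau {R : Type*} [Ring R] : tauM p Y Y' R * (tauM p Y Y' R)ᵀ = eM p Y Y' R := by
  classical
  ext1 v w
  unfold eM
  by_cases hv : Ch p (ty v)
  · rw [Matrix.mul_apply, Finset.sum_eq_single (⟨v, hv⟩ : ZX p Y Y')]
    · rw [Matrix.transpose_apply]
      unfold tauM
      rw [if_pos rfl, one_mul]
      by_cases h : v = w
      · subst h
        rw [if_pos rfl, Matrix.diagonal_apply_eq, if_pos hv]
      · rw [if_neg (Ne.symm h), Matrix.diagonal_apply_ne _ h]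
    · intro z _ hz
      unfold tauM
      rw [if_neg (fun h => hz (Subtype.ext h.symm)), zero_mul]
    · intro h
      exact absurd (Finset.mem_univ _) h
  · rw [Matrix.mul_apply, Finset.sum_eq_zero]
    · by_cases h : v = w
      · rw [← h, Matrix.diagonal_apply_eq, if_neg hv]
      · rw [Matrix.diagonal_apply_ne _ h]
    · intro z _
      unfold tauM
      rw [if_neg (fun h => hv (by rw [h]; exact z.2)), zero_mul]

theorem tau_one {R : Type*} [Ring R] : (tauM p Y Y' R)ᵀ * tauM p Y Y' R = 1 := by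
  ext1 z z'
  rw [mul_tauM, Matrix.transpose_apply]
  unfold tauM
  by_cases h : z = z'
  · rw [h, if_pos rfl, Matrix.one_apply_eq]
  · rw [if_neg (fun h1 => h (Subtype.ext h1.symm)), Matrix.one_apply_ne h]

theorem tau_sg_tau : (tauM p Y Y' (MonoidAlgebra B (Wr p G)))ᵀ * sgX p (Y ⊕ Y') B G *
    tauM p Y Y' (MonoidAlgebra B (Wr p G)) = 1 := by
  rw [tau_sub]
  ext1 z z'
  rw [Matrix.submatrix_apply]
  unfold sgX
  rw [Matrix.sum_apply, Finset.sum_eq_single 0]
  · rw [piS_pow_apply, Nat.cast_zero, pow_zero]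
    simp only [sub_zero]
    by_cases h : z = z'
    · rw [h, if_pos rfl, Matrix.one_apply_eq, MonoidAlgebra.one_def]
    · rw [if_neg (fun h1 => h (Subtype.ext h1.symm)), Matrix.one_apply_ne h]
  · intro j hj hj0
    rw [piS_pow_apply, if_neg]
    intro h
    have h1 : ∃ i, ty z.1 i ≠ ty z.1 0 := by
      by_contra hc
      push Not at hc
      have h2 : ty z.1 = fun _ => ty z.1 0 := funext hc
      exact ch_const (p := p) (ty z.1 0) (h2 ▸ z.2)
    obtain ⟨k, -, hk⟩ := ch_unique (p := p) (ty z.1) h1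
    have h3 : (0 : ℕ) = k := hk 0 ⟨hp.out.pos, by
      have h4 : (fun i => ty z.1 (i - ((0 : ℕ) : ZMod p))) = ty z.1 := by
        funext i
        rw [Nat.cast_zero, sub_zero]
      rw [h4]
      exact z.2⟩
    have h5 : j = k := hk j ⟨Finset.mem_range.1 hj, by
      have h6 : (fun i => ty z.1 (i - (j : ZMod p))) = ty z'.1 := by
        rw [h]
        rfl
      rw [h6]
      exact z'.2⟩
    exact hj0 (h5.trans h3.symm)
  · intro h
    exact absurd (Finset.mem_range.2 hp.out.pos) h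

theorem tau_eM {R : Type*} [Ring R] : (tauM p Y Y' R)ᵀ * eM p Y Y' R = (tauM p Y Y' R)ᵀ := by
  rw [← tau_tau, ← Matrix.mul_assoc, tau_one, Matrix.one_mul]

theorem eM_tau {R : Type*} [Ring R] : eM p Y Y' R * tauM p Y Y' R = tauM p Y Y' R := by
  rw [← tau_tau, Matrix.mul_assoc, tau_one, Matrix.mul_one]

theorem eM_sg_eM : eM p Y Y' (MonoidAlgebra B (Wr p G)) * sgX p (Y ⊕ Y') B G * eM p Y Y' (MonoidAlgebra B (Wr p G)) =
    eM p Y Y' (MonoidAlgebra B (Wr p G)) := by
  have h : tauM p Y Y' (MonoidAlgebra B (Wr p G)) * (tauM p Y Y' (MonoidAlgebra B (Wr p G)))ᵀ * sgX p (Y ⊕ Y') B G *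
      (tauM p Y Y' (MonoidAlgebra B (Wr p G)) * (tauM p Y Y' (MonoidAlgebra B (Wr p G)))ᵀ) =
      tauM p Y Y' (MonoidAlgebra B (Wr p G)) * ((tauM p Y Y' (MonoidAlgebra B (Wr p G)))ᵀ * sgX p (Y ⊕ Y') B G *
        tauM p Y Y' (MonoidAlgebra B (Wr p G))) * (tauM p Y Y' (MonoidAlgebra B (Wr p G)))ᵀ := by
    simp only [Matrix.mul_assoc]
  rw [tau_sg_tau, Matrix.mul_one, tau_tau] at h
  exact h

/-- the product of two mixed parts -/
theorem mix_ring {A : Type*} [Ring A] (e s t t' : A) (het : e * t = t * e) (hes : e * s * e = e) :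
    (1 + e * (t - 1) * s) * (1 + e * (t' - 1) * s) = 1 + e * (t * t' - 1) * s := by
  have h1 : e * (t - 1) = (t - 1) * e := by rw [mul_sub, mul_one, sub_mul, one_mul, het]
  have h2 : e * (t - 1) * s * (e * (t' - 1) * s) = e * ((t - 1) * (t' - 1)) * s := by
    calc e * (t - 1) * s * (e * (t' - 1) * s) = (t - 1) * (e * s * e) * (t' - 1) * s := by
          rw [h1]
          noncomm_ring
      _ = (t - 1) * e * (t' - 1) * s := by rw [hes]
      _ = e * ((t - 1) * (t' - 1)) * s := by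
          rw [← h1]
          noncomm_ring
  calc (1 + e * (t - 1) * s) * (1 + e * (t' - 1) * s) =
        1 + e * (t - 1) * s + e * (t' - 1) * s + e * (t - 1) * s * (e * (t' - 1) * s) := by noncomm_ring
    _ = 1 + e * (t * t' - 1) * s := by
        rw [h2]
        noncomm_ring

theorem jU_val (X : (Dt (shM p B G Y))ˣ) : (jU p B G Y X).val = iS p B G Y (X.val.1 1 1) + iS p B G Y (X.val.1 1 0) * sgX p Y B G := rfl

section aux

variable {R : Type*} [Ring R] {X Z : Type} [Fintype X] [DecidableEq X] [Fintype Z] [DecidableEq Z] {P : Matrix X Z R} {Q : Matrix Z X R}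
  {s : Matrix X X R} {s' b z : Matrix Z Z R} {b₂ z₂ : Matrix X X R}

theorem split_aux1 (hQP : Q * P = 1) (hP : s * P = P * s') (hb : b₂ * P = 0) (hz : z₂ * P = 0) :
    (P * b * Q + b₂ + (P * z * Q + z₂) * s) * P = P * (b + z * s') := by
  have e1 : P * b * Q * P = P * b := by rw [Matrix.mul_assoc, hQP, Matrix.mul_one]
  have e2 : P * z * Q * P = P * z := by rw [Matrix.mul_assoc, hQP, Matrix.mul_one]
  have e3 : (P * z * Q + z₂) * s * P = P * z * s' := by
    rw [Matrix.mul_assoc, hP, ← Matrix.mul_assoc, Matrix.add_mul, e2, hz, add_zero]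
  rw [Matrix.add_mul, Matrix.add_mul, e1, hb, e3, add_zero, Matrix.mul_add, ← Matrix.mul_assoc]

theorem split_aux2 (hQP : Q * P = 1) (hQ : Q * s = s' * Q) (hb : Q * b₂ = 0) (hz : Q * z₂ = 0) :
    Q * (P * b * Q + b₂ + (P * z * Q + z₂) * s) = (b + z * s') * Q := by
  have e1 : Q * (P * b * Q) = b * Q := by rw [← Matrix.mul_assoc, ← Matrix.mul_assoc, hQP, Matrix.one_mul]
  have e2 : Q * (P * z * Q) = z * Q := by rw [← Matrix.mul_assoc, ← Matrix.mul_assoc, hQP, Matrix.one_mul]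
  have e3 : Q * ((P * z * Q + z₂) * s) = z * s' * Q := by
    rw [← Matrix.mul_assoc, Matrix.mul_add, e2, hz, add_zero, Matrix.mul_assoc, hQ, ← Matrix.mul_assoc]
  rw [Matrix.mul_add, Matrix.mul_add, e1, hb, e3, add_zero, Matrix.add_mul]

theorem split_aux3 (hQP : Q * P = 1) (hP : s * P = P * s') (hQ : Q * s = s' * Q) (hb : b₂ * P = 0) (hz : z₂ * P = 0) :
    P * Q + b₂ + z₂ * s = (P * b * Q + b₂ + (P * z * Q + z₂) * s) * (1 - P * Q) + P * Q := by
  have e1 := split_aux1 (b := b) (z := z) hQP hP hb hz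
  have e2 : P * z * Q * s = P * (z * s') * Q := by
    rw [Matrix.mul_assoc, hQ, ← Matrix.mul_assoc, Matrix.mul_assoc P]
  rw [Matrix.mul_sub, Matrix.mul_one, ← Matrix.mul_assoc, e1, Matrix.mul_add P, Matrix.add_mul _ _ Q, Matrix.add_mul (P * z * Q), e2]
  abel

end aux

end

end Pool.Agent.H71.CZ

end
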