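import Pool.Agent.H71.TCZ.H71.CZ.Eta
import Pool.Agent.H71.TCZ.H71.DB.Lift
import Pool.Agent.H71.TCZ.M48
import Pool.Agent.H71.TCZ.M52

/-! The parts of this file: H71.CZ.BlkB_1, H71.DB.Form, H71.DB.CocC_1. -/

section

/-!
# Project CZ: block sums, the homomorphisms `Φ` and `Ψ`

`Φ((X, X'), (U, V)) = b + z Σ` with `b = cL b_X + cR b_X' + Em`, `z = cL z_X + cR z_X' + eM * (T - 1)`, `T = tpM (bX U V)`;
`Ψ(((a, b), (a', b')), (U, V)) = (cL a + cR a' + Em * T, cL b + cR b' + Em)`.

PROOFS.  `N(eM * (T - 1)) = N(eM) * (T - 1) = Em * T - Em` (`Sh.nm_mul_right`, `nm_eM`, `s_tpM`); `N(cL z) = cL (N z)` (`sM_cL`), so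
`b + N z = cL a_X + cR a_X' + Em * T`.  Multiplicativity of `Φ` (`dt_ext`): `z_X a_Y + b_X z_Y` on the mixed part is
`eM (T - 1) Em T' + Em eM (T' - 1) = eM (T T' - 1)` (`eM_tpM`, `Em_tpM`, `eM_Em`, `Em_eM`); the products of different blocks vanish
(`PL_PR`, `PL_Em`, `PL_eM`, ...: `cL_mul_cR` etc. below).
-/

set_option autoImplicit false

open Matrix

universe u v w

namespace Pool.Agent.H71.CZ

section

variable {p : ℕ} [hp : Fact p.Prime] {Y Y' : Type} [Fintype Y] [DecidableEq Y] [Fintype Y']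
  [DecidableEq Y'] {B : Type} [CommRing B] {G : Type v} [Group G]

section mix

variable (T T' : MM p B G (Y ⊕ Y')) (hT : eM p Y Y' _ * T = T * eM p Y Y' _) (hT' : Em p Y Y' _ * T = T * Em p Y Y' _)

include hT' in
theorem EmT_cL (m : MM p B G Y) : Em p Y Y' _ * T * cL m = 0 := by
  rw [hT', mul_assoc, Em_cL, mul_zero]

include hT' in
theorem EmT_cR (m : MM p B G Y') : Em p Y Y' _ * T * cR m = 0 := by
  rw [hT', mul_assoc, Em_cR, mul_zero]

include hT' in
theorem EmT_EmT : Em p Y Y' _ * T * (Em p Y Y' _ * T') = Em p Y Y' _ * (T * T') := by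
  rw [mul_assoc, ← mul_assoc T, ← hT', ← mul_assoc, ← mul_assoc, ← mul_assoc, Em_mul_Em]

end mix

variable (p B G Y Y') in
/-- the source of `Ψ` -/
abbrev GQ : Type v := ((Dd (shM p B G Y))ˣ × (Dd (shM p B G Y'))ˣ) ×
  ((Matrix Y Y (MonoidAlgebra B G))ˣ × (Matrix Y' Y' (MonoidAlgebra B G))ˣ)

theorem psH_mem (x : Dd (shM p B G Y)) (x' : Dd (shM p B G Y')) (U : (Matrix Y Y (MonoidAlgebra B G))ˣ)
    (V : (Matrix Y' Y' (MonoidAlgebra B G))ˣ) :
    ((cL x.1.1 + cR x'.1.1 + Em p Y Y' _ * tpM (bX U.val V.val), cL x.1.2 + cR x'.1.2 + Em p Y Y' _) :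
      MM p B G (Y ⊕ Y') × MM p B G (Y ⊕ Y')) ∈ Dd (shM p B G (Y ⊕ Y')) := by
  obtain ⟨hx1, hx2, z, hz⟩ := x.2
  obtain ⟨hy1, hy2, z', hz'⟩ := x'.2
  have hL : ∀ m : MM p B G Y, (shM p B G Y).s m = m → (shM p B G (Y ⊕ Y')).s (cL m) = cL m := fun m hm => by
    refine (sM_cL _).trans ?_
    congr 1
  have hR : ∀ m : MM p B G Y', (shM p B G Y').s m = m → (shM p B G (Y ⊕ Y')).s (cR m) = cR m := fun m hm => by
    refine (sM_cR _).trans ?_
    congr 1
  have hE : (shM p B G (Y ⊕ Y')).s (Em p Y Y' _) = Em p Y Y' _ := sM_Em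
  have hT : (shM p B G (Y ⊕ Y')).s (tpM (bX U.val V.val)) = tpM (bX U.val V.val) := s_tpM _
  refine ⟨?_, ?_, cL z + cR z' + eM p Y Y' _ * (tpM (bX U.val V.val) - 1), ?_⟩
  · show (shM p B G (Y ⊕ Y')).s (cL x.1.1 + cR x'.1.1 + Em p Y Y' _ * tpM (bX U.val V.val)) = _
    rw [map_add, map_add, map_mul, hL _ hx1, hR _ hy1, hE, hT]
  · show (shM p B G (Y ⊕ Y')).s (cL x.1.2 + cR x'.1.2 + Em p Y Y' _) = _
    rw [map_add, map_add, hL _ hx2, hR _ hy2, hE]
  · show cL x.1.1 + cR x'.1.1 + Em p Y Y' _ * tpM (bX U.val V.val) = cL x.1.2 + cR x'.1.2 + Em p Y Y' _ + _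
    rw [map_add, map_add, nm_cL, nm_cR, nm_mix, hz, hz', cL_add, cR_add]
    abel

variable (p B G Y Y') in
/-- the homomorphism `Ψ` -/
noncomputable def PsH : GQ p Y Y' B G →* (Dd (shM p B G (Y ⊕ Y')))ˣ :=
  MonoidHom.toHomUnits
    { toFun := fun γ => ⟨(cL γ.1.1.val.1.1 + cR γ.1.2.val.1.1 +
          Em p Y Y' _ * tpM (bX γ.2.1.val γ.2.2.val),
          cL γ.1.1.val.1.2 + cR γ.1.2.val.1.2 + Em p Y Y' _), psH_mem _ _ _ _⟩
      map_one' := by
        refine Subtype.ext (Prod.ext ?_ ?_)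
        · show cL (1 : MM p B G Y) + cR (1 : MM p B G Y') +
            Em p Y Y' _ * tpM (bX (1 : Matrix Y Y (MonoidAlgebra B G)) (1 : Matrix Y' Y' (MonoidAlgebra B G))) = 1
          rw [bX_one, tpM_one, mul_one, cL_one_add]
        · exact cL_one_add Y Y'
      map_mul' := fun γ γ' => by
        have hE := Em_tpM (p := p) γ.2.1.val γ.2.2.val
        refine Subtype.ext (Prod.ext ?_ ?_)
        · show cL (γ.1.1.val.1.1 * γ'.1.1.val.1.1) + cR (γ.1.2.val.1.1 * γ'.1.2.val.1.1) +
            Em p Y Y' _ * tpM (bX (γ.2.1.val * γ'.2.1.val) (γ.2.2.val * γ'.2.2.val)) =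
            (cL γ.1.1.val.1.1 + cR γ.1.2.val.1.1 + Em p Y Y' _ * tpM (bX γ.2.1.val γ.2.2.val)) *
              (cL γ'.1.1.val.1.1 + cR γ'.1.2.val.1.1 + Em p Y Y' _ * tpM (bX γ'.2.1.val γ'.2.2.val))
          rw [bX_mul, tpM_mul]
          simp only [mul_add (cL _ + cR _ + _), add_mul, cL_mul, cR_mul, cL_mul_cR, cR_mul_cL, cL_EmT, cR_EmT,
            EmT_cL _ hE, EmT_cR _ hE, EmT_EmT _ _ hE, add_zero, zero_add]
        · show cL (γ.1.1.val.1.2 * γ'.1.1.val.1.2) + cR (γ.1.2.val.1.2 * γ'.1.2.val.1.2) + Em p Y Y' _ =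
            (cL γ.1.1.val.1.2 + cR γ.1.2.val.1.2 + Em p Y Y' _) * (cL γ'.1.1.val.1.2 + cR γ'.1.2.val.1.2 + Em p Y Y' _)
          simp only [mul_add, add_mul, cL_mul, cR_mul, cL_mul_cR, cR_mul_cL, cL_Em, cR_Em, Em_cL, Em_cR, Em_mul_Em, add_zero, zero_add] }

variable (p B G Y Y') in
/-- the surjective homomorphism between the sources -/
noncomputable def piPQ : GP p Y Y' B G →* GQ p Y Y' B G :=
  ((prU (shM p B G Y)).prodMap (prU (shM p B G Y'))).prodMap (MonoidHom.id _)

/-- **Compatibility.** -/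
theorem prU_PhH (γ : GP p Y Y' B G) :
    prU (shM p B G (Y ⊕ Y')) (PhH p Y Y' B G γ) = PsH p Y Y' B G (piPQ p Y Y' B G γ) := by
  refine Units.ext (Subtype.ext (Prod.ext ?_ ?_))
  · show phB γ + (shM p B G (Y ⊕ Y')).nm (phZ γ) = phA γ
    exact phB_add_nm γ
  · rfl

/-- **The restriction to `GL_Y × GL_Y'`.** -/
theorem PsH_eta (hB : GoodB p B) (U : (Matrix Y Y (MonoidAlgebra B G))ˣ)
    (V : (Matrix Y' Y' (MonoidAlgebra B G))ˣ) :
    PsH p Y Y' B G ((eta hB U, eta hB V), (U, V)) = eta hB (blkX (U, V)) := by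
  refine Units.ext (Subtype.ext (Prod.ext ?_ ?_))
  · exact (tpM_blk (p := p) U.val V.val).symm
  · exact (beM_blk (p := p) U.val V.val).symm

end

end Pool.Agent.H71.CZ

end

section

/-!
# The Dennis trace of the elements of `K₁` coming from `K₀` of a finite group and a central element
-/

set_option autoImplicit false

open Matrix

universe u v w

namespace Pool.Agent.H71.DB

open Pool.Agent.H71.FJ (MatEquiv IdemMat K0 K0.mk K0.lift K0.lift_mk K0.hom_ext K0.map clsFun clsFun_single T K0.tr_mk)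
open Pool.Agent.H95.WH (K1 K1.mk K1.map K1.map_mk)
open Pool.Agent.H71.DO (grpUnit)

section Formula

variable {S : Type u} [CommRing S] {H : Type v} [Group H] {G : Type w} [Group G]

/-- `L z` is invariant on the image of `f`. -/
theorem Coc.L_comm (l : Coc G S) (f : H →* G) (z : G) (h : ∀ a, f a * z = z * f a) (a b : H) :
    l.L z (f (a * b)) = l.L z (f (b * a)) := by
  have h1 := l.mul (f b) z (f (a * b))
  have h2 := l.mul z (f b) (f (a * b))
  have e1 : f b * f (a * b) * (f b)⁻¹ = f (b * a) := by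
    rw [map_mul, map_mul]
    group
  have e2 : z * f (a * b) * z⁻¹ = f (a * b) := by rw [← h, mul_inv_cancel_right]
  rw [e1] at h1
  rw [e2, h, h1] at h2
  rw [add_comm (l.L (f b) _)] at h2
  exact (add_right_cancel h2).symm

theorem infinite_mul {x z : G} (hx : IsOfFinOrder x) (hz : ¬ IsOfFinOrder z)
    (hc : Commute x z) : orderOf (x * z) = 0 := by
  rw [orderOf_eq_zero_iff]
  intro h
  apply hz
  have h1 : IsOfFinOrder (x⁻¹ * (x * z)) :=
    ((Commute.refl x).inv_left.mul_right hc.inv_left).isOfFinOrder_mul hx.inv h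
  rwa [inv_mul_cancel_left] at h1

theorem Coc.phi_bass (l : Coc G S) (hs : ∀ f y, orderOf y = 0 → l.L f y = 0) [Finite H]
    (f : H →* G) (z : G) (h : ∀ a, f a * z = z * f a) (hz : ¬ IsOfFinOrder z)
    (a b : MonoidAlgebra S H) :
    l.phi (MonoidAlgebra.mapDomainRingHom S f a *
        (((grpUnit S G z)⁻¹ : (MonoidAlgebra S G)ˣ) - 1 : MonoidAlgebra S G))
      (MonoidAlgebra.mapDomainRingHom S f b * ((grpUnit S G z : MonoidAlgebra S G) - 1)) =
      2 * (l.comap f).phi a b + clsFun (fun x => l.L z (f x)) (a * b) := by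
  have ginv : (((grpUnit S G z)⁻¹ : (MonoidAlgebra S G)ˣ) : MonoidAlgebra S G) =
      MonoidAlgebra.single z⁻¹ 1 := by
    rw [← map_inv]
    rfl
  rw [ginv, grpUnit_val]
  induction a using MonoidAlgebra.induction_linear with
  | zero => simp
  | add a a' ha ha' =>
    rw [map_add, add_mul, map_add, AddMonoidHom.add_apply, ha, ha', map_add,
      AddMonoidHom.add_apply, add_mul, map_add]
    ring
  | single g r =>
    induction b using MonoidAlgebra.induction_linear with
    | zero => simp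
    | add b b' hb hb' =>
      rw [map_add, add_mul, map_add, hb, hb', map_add, mul_add (MonoidAlgebra.single g r), map_add]
      ring
    | single k s =>
      change l.phi (MonoidAlgebra.mapDomain f (MonoidAlgebra.single g r) *
        (MonoidAlgebra.single z⁻¹ 1 - 1)) (MonoidAlgebra.mapDomain f (MonoidAlgebra.single k s) *
        (MonoidAlgebra.single z 1 - 1)) = _
      rw [MonoidAlgebra.mapDomain_single, MonoidAlgebra.mapDomain_single, mul_sub, mul_sub,
        mul_one, mul_one, MonoidAlgebra.single_mul_single, MonoidAlgebra.single_mul_single,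
        mul_one, mul_one]
      simp only [map_sub, AddMonoidHom.sub_apply]
      rw [l.phi_single, l.phi_single, l.phi_single, l.phi_single, Coc.phi_single,
        MonoidAlgebra.single_mul_single, clsFun_single]
      have hk := h k
      have e1 : f g * z⁻¹ * (f k * z) = f (g * k) := by
        rw [hk, map_mul]
        group
      have e2 : f g * z⁻¹ * f k = f (g * k) * z⁻¹ := by
        have e3 : z⁻¹ * f k = f k * z⁻¹ := ((show Commute (f k) z from hk).inv_right).symm
        rw [mul_assoc, e3, map_mul, mul_assoc]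
      have e3 : f g * (f k * z) = f (g * k) * z := by rw [map_mul, mul_assoc]
      have e4 : f g * f k = f (g * k) := (map_mul _ _ _).symm
      have hfin : IsOfFinOrder (f (g * k)) := f.isOfFinOrder (isOfFinOrder_of_finite (g * k))
      have hc : Commute (f (g * k)) z := h _
      rw [e1, e2, e3, e4, hs _ (f (g * k) * z⁻¹) (infinite_mul hfin (by
          rw [isOfFinOrder_inv_iff]; exact hz) hc.inv_right),
        hs _ (f (g * k) * z) (infinite_mul hfin hz hc), l.mul z (f k)]
      have e5 : z * f (g * k) * z⁻¹ = f (g * k) := by rw [← h, mul_inv_cancel_right]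
      rw [e5]
      change _ = 2 * (s * (r * l.L (f k) (f (g * k)))) + r * s * l.L z (f (g * k))
      ring

/-- The trace of `[1 + e (z - 1)]`. -/
theorem Coc.dt_gbass (l : Coc G S) (hs : ∀ f y, orderOf y = 0 → l.L f y = 0) [Fintype H]
    (f : H →* G) (z : G) (h : ∀ a, f a * z = z * f a) (hz : ¬ IsOfFinOrder z)
    (x : K0 (MonoidAlgebra S H)) :
    (Fintype.card H : S) * (l.dt (gbass S f z h x) -
      T (fun a => l.L z (f a)) (l.L_comm f z h) x) = 0 := by
  suffices H1 : (AddMonoidHom.mulLeft (Fintype.card H : S)).comp (l.dt.comp (gbass S f z h) -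
      T (fun a => l.L z (f a)) (l.L_comm f z h)) = 0 from DFunLike.congr_fun H1 x
  apply K0.hom_ext
  intro a
  change (Fintype.card H : S) * (l.dt (gbass S f z h (K0.mk a)) -
      T (fun a => l.L z (f a)) (l.L_comm f z h) (K0.mk a)) = 0
  rw [gbass, bass_mk, Coc.dt_mk, T, K0.tr_mk, Coc.den]
  change (Fintype.card H : S) * (l.Phi (bmat _ a.mat _) (bmat _ a.mat _) - _) = 0
  have h1 : l.Phi (bmat (MonoidAlgebra.mapDomainRingHom S f) a.mat
        (((grpUnit S G z)⁻¹ : (MonoidAlgebra S G)ˣ) : MonoidAlgebra S G))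
      (bmat (MonoidAlgebra.mapDomainRingHom S f) a.mat (grpUnit S G z : MonoidAlgebra S G)) =
      2 * (l.comap f).Phi a.mat a.mat + clsFun (fun a => l.L z (f a)) (trace a.mat) := by
    have h2 : clsFun (fun a => l.L z (f a)) (trace a.mat) =
        ∑ i, ∑ j, clsFun (fun a => l.L z (f a)) (a.mat i j * a.mat j i) := by
      conv_lhs => rw [← a.idem]
      simp only [Matrix.trace, Matrix.diag, Matrix.mul_apply, map_sum]
    rw [bmat, bmat, Coc.Phi_add_left, Coc.Phi_one_left, zero_add, Coc.Phi_add_right,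
      Coc.Phi_one_right, zero_add, h2, Coc.Phi, Coc.Phi, Finset.mul_sum,
      ← Finset.sum_add_distrib]
    refine Finset.sum_congr rfl fun i _ => ?_
    rw [Finset.mul_sum, ← Finset.sum_add_distrib]
    refine Finset.sum_congr rfl fun j _ => ?_
    rw [Matrix.map_apply, Matrix.map_apply]
    exact l.phi_bass hs f z h hz _ _
  rw [h1, add_sub_cancel_right]
  have h3 := (l.comap f).card_Phi a.mat a.mat
  rw [sub_self] at h3
  rw [mul_left_comm, h3, mul_zero]

end Formula

end Pool.Agent.H71.DB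

end

section

/-!
# The cocycle of an element of finite order and a homomorphism on its centralizer
-/

set_option autoImplicit false

open Matrix
open scoped Classical

universe t u v w

namespace Pool.Agent.H71.DB

open Pool.Agent.H71.FJ (IdemMat K0 K0.mk K0.map K0.map_map LT liftK map_liftK T T_zero T_congr)
open Pool.Agent.H95.WH (K1 K1.mk K1.map K1.map_mk K1.map_map)
open Pool.Agent.H71.DO (grpUnit)

section CocC

variable {G : Type v} [Group G] (c : G)

variable {Λ : Type u} [CommRing Λ] (lam : Subgroup.centralizer ({c} : Set G) →* Multiplicative Λ)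

/-- the homomorphism `lam` as a function on `G` -/
noncomputable def lf (g : G) : Λ :=
  if h : g ∈ Subgroup.centralizer ({c} : Set G) then Multiplicative.toAdd (lam ⟨g, h⟩) else 0

theorem lf_mul {g g' : G} (h : g ∈ Subgroup.centralizer ({c} : Set G))
    (h' : g' ∈ Subgroup.centralizer ({c} : Set G)) :
    lf c lam (g * g') = lf c lam g + lf c lam g' := by
  rw [lf, lf, lf, dif_pos h, dif_pos h', dif_pos (Subgroup.mul_mem _ h h'), ← toAdd_mul,
    ← map_mul]
  rfl

theorem lf_one : lf c lam 1 = 0 := by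
  have h := lf_mul c lam (Subgroup.one_mem _) (Subgroup.one_mem _)
  rw [one_mul] at h
  exact left_eq_add.1 h

theorem lf_pow {g : G} (h : g ∈ Subgroup.centralizer ({c} : Set G)) (n : ℕ) :
    lf c lam (g ^ n) = (n : Λ) * lf c lam g := by
  induction n with
  | zero => rw [pow_zero, lf_one, Nat.cast_zero, zero_mul]
  | succ n ih =>
    rw [pow_succ, lf_mul c lam (Subgroup.pow_mem _ h n) h, ih]
    push_cast
    ring

theorem lf_inv {g : G} (h : g ∈ Subgroup.centralizer ({c} : Set G)) :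
    lf c lam g⁻¹ = -lf c lam g := by
  have h1 := lf_mul c lam h (Subgroup.inv_mem _ h)
  rw [mul_inv_cancel, lf_one] at h1
  exact eq_neg_of_add_eq_zero_right h1.symm

theorem lf_conj {g w : G} (h : g ∈ Subgroup.centralizer ({c} : Set G))
    (hw : w ∈ Subgroup.centralizer ({c} : Set G)) :
    lf c lam (w * g * w⁻¹) = lf c lam g := by
  rw [lf_mul c lam (Subgroup.mul_mem _ hw h) (Subgroup.inv_mem _ hw), lf_mul c lam hw h,
    lf_inv c lam hw]
  ring

theorem mem_cent_iff {g : G} :
    g ∈ Subgroup.centralizer ({c} : Set G) ↔ g * c * g⁻¹ = c := by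
  rw [Subgroup.mem_centralizer_singleton_iff, mul_inv_eq_iff_eq_mul]

theorem xc_mem {f y : G} (h : IsConj c y) :
    (xc c (f * y * f⁻¹))⁻¹ * f * xc c y ∈ Subgroup.centralizer ({c} : Set G) := by
  rw [mem_cent_iff]
  have h1 := xc_spec c h
  have h2 := xc_spec c (h.trans (isConj_iff.2 ⟨f, rfl⟩) : IsConj c (f * y * f⁻¹))
  calc (xc c (f * y * f⁻¹))⁻¹ * f * xc c y * c * ((xc c (f * y * f⁻¹))⁻¹ * f * xc c y)⁻¹
      = (xc c (f * y * f⁻¹))⁻¹ * (f * (xc c y * c * (xc c y)⁻¹) * f⁻¹) * xc c (f * y * f⁻¹) := by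
        group
    _ = (xc c (f * y * f⁻¹))⁻¹ * (xc c (f * y * f⁻¹) * c * (xc c (f * y * f⁻¹))⁻¹) *
          xc c (f * y * f⁻¹) := by rw [h1, h2]
    _ = c := by group

variable (tf : ∀ (m : ℤ) (x : Λ), m ≠ 0 → (m : Λ) * x = 0 → x = 0) (hc : IsOfFinOrder c)

/-- The cocycle of `c` and `lam`. -/
noncomputable def cocC : Coc G Λ where
  L f y := if IsConj c y then lf c lam ((xc c (f * y * f⁻¹))⁻¹ * f * xc c y) else 0
  mul f f' y := by
    have hfy : IsConj y (f * y * f⁻¹) := isConj_iff.2 ⟨f, rfl⟩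
    by_cases h : IsConj c y
    · rw [if_pos h, if_pos h, if_pos (h.trans hfy)]
      have h1 := xc_mem c (f := f) h
      have h2 := xc_mem c (f := f') (h.trans hfy)
      rw [← lf_mul c lam h2 h1]
      congr 1
      have e : f' * f * y * (f' * f)⁻¹ = f' * (f * y * f⁻¹) * f'⁻¹ := by group
      rw [e]
      group
    · rw [if_neg h, if_neg h, if_neg (fun h' => h (h'.trans hfy.symm)), add_zero]
  self y := by
    by_cases h : IsConj c y
    · rw [if_pos h]
      have e1 : y * y * y⁻¹ = y := mul_inv_cancel_right y y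
      rw [e1]
      have e2 : (xc c y)⁻¹ * y * xc c y = c := by
        conv_lhs => rw [← xc_spec c h]
        rw [xc_spec c h]
        nth_rewrite 2 [← xc_spec c h]
        group
      rw [e2]
      have hcc : c ∈ Subgroup.centralizer ({c} : Set G) := by
        rw [mem_cent_iff]
        group
      have h3 := lf_pow c lam hcc (orderOf c)
      rw [pow_orderOf_eq_one, lf_one] at h3
      refine tf (orderOf c : ℕ) _ (by exact_mod_cast hc.orderOf_pos.ne') ?_
      rw [Int.cast_natCast]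
      exact h3.symm
    · rw [if_neg h]

theorem cocC_supp (f y : G) (h : orderOf y = 0) : (cocC c lam tf hc).L f y = 0 := by
  change (if IsConj c y then _ else 0) = _
  rw [if_neg]
  intro h1
  obtain ⟨g, hg⟩ := isConj_iff.1 h1
  rw [orderOf_eq_zero_iff] at h
  apply h
  rw [← hg]
  exact (MulAut.conj g).toMonoidHom.isOfFinOrder hc

theorem cocC_eval {g y z : G} (hg : g * y * g⁻¹ = c) (hz : y * z = z * y) :
    (cocC c lam tf hc).L z y = lf c lam (g * z * g⁻¹) := by
  have hconj : IsConj c y := (isConj_iff.2 ⟨g, hg⟩ : IsConj y c).symm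
  change (if IsConj c y then _ else 0) = _
  rw [if_pos hconj]
  have e1 : z * y * z⁻¹ = y := by rw [← hz, mul_inv_cancel_right]
  have h1 := xc_mem c (f := z) hconj
  rw [e1] at h1 ⊢
  have h2 : g * xc c y ∈ Subgroup.centralizer ({c} : Set G) := by
    rw [mem_cent_iff]
    calc g * xc c y * c * (g * xc c y)⁻¹ = g * (xc c y * c * (xc c y)⁻¹) * g⁻¹ := by group
      _ = c := by rw [xc_spec c hconj, hg]
  rw [← lf_conj c lam h1 h2]
  congr 1
  group

theorem cocC_not_conj {y z : G} (h : ¬ IsConj c y) : (cocC c lam tf hc).L z y = 0 :=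
  if_neg h

end CocC

section DnG

variable {k : Type u} [Field k] {K : Type t} [Field K] (L : BLift K) (i : k →+* K)
  {G : Type v} [Group G] {H : Type w} [Group H]

theorem Coc.L_pow {S : Type u} [CommRing S] (l : Coc G S) {y z : G} (h : y * z = z * y) (n : ℕ) :
    l.L (z ^ n) y = (n : S) * l.L z y := by
  induction n with
  | zero => rw [pow_zero, l.one, Nat.cast_zero, zero_mul]
  | succ n ih =>
    have e : z * y * z⁻¹ = y := by rw [← h, mul_inv_cancel_right]
    rw [pow_succ, l.mul, e, ih]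
    push_cast
    ring

theorem T_eq_zero {S : Type u} [CommRing S] (f : H → S) (hf : ∀ x y, f (x * y) = f (y * x))
    (h : ∀ a, f a = 0) (x : K0 (MonoidAlgebra S H)) : T f hf x = 0 := by
  rw [T_congr hf (g := fun _ => (0 : S)) (fun _ _ => rfl) h]
  exact T_zero x _

/-- The value of the lifted Dennis trace on the elements from `K₀`, up to a multiple which does not
depend on `n` and the cocycle. -/
theorem dn_gbass [Fintype H] (f : H →* G) (z : G) (h : ∀ a, f a * z = z * f a) :
    ∃ M : ℤ, M ≠ 0 ∧ ∀ (l : Coc G L.Lam), (∀ f y, orderOf y = 0 → l.L f y = 0) →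
      ∀ (n : ℕ) (x : K0 (MonoidAlgebra k H)),
      (M : L.sys.B n) * (l.dn L n (K1.map (MonoidAlgebra.mapRingHom G i) (gbass k f z h x)) -
        LT L.sys n i (fun a => L.th n (l.L z (f a)))
          ((l.mapS (L.th n)).L_comm f z h) x) = 0 := by
  have key : ∀ (l : Coc G L.Lam) (n : ℕ) (x : K0 (MonoidAlgebra k H)),
      l.dn L n (K1.map (MonoidAlgebra.mapRingHom G i) (gbass k f z h x)) =
        (l.mapS (L.th n)).dt (gbass (L.sys.B n) f z h (liftK L.sys n i H x)) := by
    intro l n x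
    rw [map_gbass, ← map_liftK L.sys n i H x, ← map_gbass, l.dn_map L n]
  by_cases hz : IsOfFinOrder z
  · refine ⟨(orderOf z : ℕ), by exact_mod_cast hz.orderOf_pos.ne', fun l hl n x => ?_⟩
    rw [key, mul_sub, Int.cast_natCast]
    have h1 : ((orderOf z : ℕ) : L.sys.B n) *
        (l.mapS (L.th n)).dt (gbass (L.sys.B n) f z h (liftK L.sys n i H x)) = 0 := by
      rw [← nsmul_eq_mul, ← map_nsmul, ← gbass_pow,
        gbass_congr _ f (pow_orderOf_eq_one z) _ (fun a => by rw [one_mul, mul_one]), gbass_one,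
        map_zero]
    have h2 : ∀ a, L.th n (l.L z (f a)) = 0 := by
      intro a
      have h3 := l.L_pow (h a) (orderOf z)
      rw [pow_orderOf_eq_one, l.one] at h3
      have h4 : l.L z (f a) = 0 := by
        refine L.tf (orderOf z : ℕ) _ (by exact_mod_cast hz.orderOf_pos.ne') ?_
        rw [Int.cast_natCast]
        exact h3.symm
      rw [h4, map_zero]
    have h5 : LT L.sys n i (fun a => L.th n (l.L z (f a)))
        ((l.mapS (L.th n)).L_comm f z h) x = 0 :=
      T_eq_zero _ ((l.mapS (L.th n)).L_comm f z h) h2 _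
    rw [h1, h5, mul_zero, sub_zero]
  · refine ⟨(Fintype.card H : ℕ), by exact_mod_cast Fintype.card_ne_zero, fun l hl n x => ?_⟩
    rw [key, Int.cast_natCast]
    exact (l.mapS (L.th n)).dt_gbass (fun f y hy => by
      change L.th n (l.L f y) = 0
      rw [hl f y hy, map_zero]) f z h hz _

/-- The lifted Dennis trace kills the image of `K₁` of a finite group, up to its order. -/
theorem dn_finite [Fintype H] (f : H →* G) (l : Coc G L.Lam) (n : ℕ)
    (x : K1 (MonoidAlgebra k H)) :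
    ((Fintype.card H : ℤ) : L.sys.B n) * l.dn L n (K1.map (MonoidAlgebra.mapRingHom G i)
      (K1.map (MonoidAlgebra.mapDomainRingHom k f) x)) = 0 := by
  obtain ⟨m, U, rfl⟩ := Pool.Agent.H95.WH.K1.exists_mk x
  obtain ⟨V, hV⟩ := exists_lift_GL L n
    (Pool.Agent.H95.WH.K1.mapU (MonoidAlgebra.mapRingHom H i) U)
  have h1 : K1.map (MonoidAlgebra.mapRingHom H i) (K1.mk U) =
      K1.map (MonoidAlgebra.mapRingHom H (L.sys.π n)) (K1.mk V) := by
    rw [K1.map_mk, K1.map_mk]
    congr 1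
    exact Units.ext hV.symm
  have h2 : K1.map (MonoidAlgebra.mapRingHom G i)
      (K1.map (MonoidAlgebra.mapDomainRingHom k f) (K1.mk U)) =
      K1.map (MonoidAlgebra.mapRingHom G (L.sys.π n))
        (K1.map (MonoidAlgebra.mapDomainRingHom (L.sys.B n) f) (K1.mk V)) := by
    rw [K1.map_map, K1.map_map, MonoidAlgebra.mapRingHom_comp_mapDomainRingHom,
      MonoidAlgebra.mapRingHom_comp_mapDomainRingHom, ← K1.map_map, ← K1.map_map, h1]
  rw [h2, l.dn_map L n, K1.map_mk, Coc.dt_mk]
  have h3 : (l.mapS (L.th n)).den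
      (Pool.Agent.H95.WH.K1.mapU (MonoidAlgebra.mapDomainRingHom (L.sys.B n) f) V) =
      ((l.mapS (L.th n)).comap f).den V := (l.mapS (L.th n)).Phi_comap f V.inv V.val
  rw [h3, Int.cast_natCast]
  exact Coc.card_den _ V

end DnG

end Pool.Agent.H71.DB

end
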