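import Pool.Agent.H71.TCZ.M05
import Pool.Agent.H71.TCZ.M06

/-! The parts of this file: H71.FJ.Coeff, H71.FJ.Cyc_1. -/

section

/-!
# Coefficient rings for lifting idempotents to characteristic zero
-/

set_option autoImplicit false

open Matrix

universe u v w

namespace Pool.Agent.H71.FJ

/-- A family of commutative rings with nilpotent surjections onto the field `K` that together
detect integers. -/
structure LiftSys (K : Type u) [Field K] where
  /-- the rings -/
  B : ℕ → Type u
  inst : ∀ n, CommRing (B n)
  /-- the projections -/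
  π : ∀ n, B n →+* K
  surj : ∀ n, Function.Surjective (π n)
  nil : ∀ n, NilKer (π n)
  int : ∀ m : ℤ, (∀ n, (m : B n) = 0) → m = 0

instance {K : Type u} [Field K] (L : LiftSys K) (n : ℕ) : CommRing (L.B n) := L.inst n

/-- In characteristic zero nothing has to be lifted. -/
noncomputable def liftSysZero (K : Type u) [Field K] [CharZero K] : LiftSys K where
  B _ := K
  inst _ := inferInstance
  π _ := RingHom.id K
  surj _ := Function.surjective_id
  nil _ := by
    refine ⟨1, fun j => if j = 0 then ⊤ else ⊥, ?_, ?_, ?_⟩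
    · intro x
      simp
    · intro x hx
      simpa using hx
    · intro j x y hx hy
      have : x = 0 := hx
      rw [this, zero_mul]
      exact AddSubgroup.zero_mem _
  int m h := by exact_mod_cast h 0

section CharP

variable (p : ℕ) [hp : Fact p.Prime] (K : Type u) [Field K] [CharP K p] [PerfectRing K p]

theorem witt_int (m : ℤ) (h : ∀ n : ℕ, ((p : WittVector p K) ^ (n + 1)) ∣ (m : WittVector p K)) :
    m = 0 := by
  have hp0 : (p : WittVector p K) ≠ 0 := WittVector.p_nonzero p K
  induction hN : m.natAbs using Nat.strong_induction_on generalizing m with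
  | _ N ih =>
    by_contra hm
    have h1 := h 0
    rw [zero_add, pow_one] at h1
    have h2 : WittVector.constantCoeff (m : WittVector p K) = 0 := by
      obtain ⟨c, hc⟩ := h1
      rw [hc, map_mul, map_natCast, CharP.cast_eq_zero, zero_mul]
    rw [map_intCast] at h2
    have h3 : (p : ℤ) ∣ m := (CharP.intCast_eq_zero_iff K p m).1 h2
    obtain ⟨m', rfl⟩ := h3
    have hm' : m' = 0 := by
      refine ih m'.natAbs ?_ m' ?_ rfl
      · rw [← hN, Int.natAbs_mul, Int.natAbs_natCast]
        have h4 : 0 < m'.natAbs := by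
          rw [Int.natAbs_pos]
          rintro rfl
          simp at hm
        have h5 := hp.out.two_le
        nlinarith
      · intro n
        obtain ⟨c, hc⟩ := h (n + 1)
        refine ⟨c, ?_⟩
        apply mul_left_cancel₀ hp0
        rw [Int.cast_mul, Int.cast_natCast] at hc
        rw [hc]
        ring
    rw [hm', mul_zero] at hm
    exact hm rfl

/-- In characteristic `p` we use the Witt vectors modulo powers of `p`. -/
noncomputable def liftSysP : LiftSys K where
  B n := WittVector p K ⧸ Ideal.span {(p : WittVector p K) ^ (n + 1)}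
  inst n := inferInstance
  π n := Ideal.Quotient.lift _ (WittVector.constantCoeff : WittVector p K →+* K) (by
    intro a ha
    obtain ⟨c, rfl⟩ := Ideal.mem_span_singleton'.1 ha
    rw [map_mul, map_pow, map_natCast, CharP.cast_eq_zero, zero_pow (Nat.succ_ne_zero n), mul_zero])
  surj n := by
    intro x
    refine ⟨Ideal.Quotient.mk _ (WittVector.teichmuller p x), ?_⟩
    rw [Ideal.Quotient.lift_mk]
    exact WittVector.teichmuller_coeff_zero p x
  nil n := by
    refine ⟨n + 1, fun j => (Ideal.span
      {((p : WittVector p K ⧸ Ideal.span {(p : WittVector p K) ^ (n + 1)})) ^ j}).toAddSubgroup,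
      ?_, ?_, ?_⟩
    · intro x
      change x ∈ Ideal.span _
      rw [pow_zero, Ideal.span_singleton_one]
      trivial
    · intro x hx
      change x ∈ Ideal.span _ at hx
      obtain ⟨c, rfl⟩ := Ideal.mem_span_singleton'.1 hx
      have : (p : WittVector p K ⧸ Ideal.span {(p : WittVector p K) ^ (n + 1)}) ^ (n + 1) = 0 := by
        rw [← map_natCast (Ideal.Quotient.mk (Ideal.span {(p : WittVector p K) ^ (n + 1)})) p,
          ← map_pow]
        exact Ideal.Quotient.eq_zero_iff_mem.2 (Ideal.mem_span_singleton_self _)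
      rw [this, mul_zero]
    · intro j x y hx hy
      change y ∈ Ideal.span _ at hy
      change x * y ∈ Ideal.span _
      obtain ⟨d, rfl⟩ := Ideal.mem_span_singleton'.1 hy
      obtain ⟨w, rfl⟩ := Ideal.Quotient.mk_surjective x
      rw [Ideal.Quotient.lift_mk] at hx
      have hw : w ∈ RingHom.ker (WittVector.constantCoeff : WittVector p K →+* K) := hx
      rw [WittVector.ker_constantCoeff] at hw
      obtain ⟨c, rfl⟩ := Ideal.mem_span_singleton'.1 hw
      refine Ideal.mem_span_singleton'.2 ⟨Ideal.Quotient.mk _ c * d, ?_⟩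
      rw [map_mul, map_natCast]
      ring
  int m h := by
    apply witt_int p K m
    intro n
    have h1 := h n
    rw [← map_intCast (Ideal.Quotient.mk (Ideal.span {(p : WittVector p K) ^ (n + 1)})) m] at h1
    exact Ideal.mem_span_singleton.1 (Ideal.Quotient.eq_zero_iff_mem.1 h1)

end CharP

theorem exists_liftSys (K : Type u) [Field K] [IsAlgClosed K] : Nonempty (LiftSys K) := by
  obtain ⟨p, hp⟩ := CharP.exists K
  rcases CharP.char_is_prime_or_zero K p with h | h
  · have : Fact p.Prime := ⟨h⟩
    have : PerfectRing K p := PerfectField.toPerfectRing p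
    exact ⟨liftSysP p K⟩
  · subst h
    have : CharZero K := CharP.charP_to_charZero K
    exact ⟨liftSysZero K⟩

end Pool.Agent.H71.FJ

end

section

/-!
# Trace functionals on group rings; vanishing of traces at `p`-singular elements (abelian case)
-/

set_option autoImplicit false

open Matrix

universe u v w

namespace Pool.Agent.H71.FJ

section ClsFun

end ClsFun

section Abelian

variable {B : Type u} [CommRing B] {K : Type v} [Field K] {C : Type w} [CommGroup C]

/-- a differing pair of commuting group elements whose `q`-th powers agree, `q` a power of `p` -/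
theorem single_sub_nilpotent (p : ℕ) [Fact p.Prime] [CharP K p] {φ : B →+* K} (hn : NilKer φ)
    {c d : C} {a : ℕ} (h : c ^ p ^ a = d ^ p ^ a) :
    IsNilpotent (MonoidAlgebra.single c (1 : B) - MonoidAlgebra.single d 1) := by
  have := charP_monoidAlgebra (K := K) (C := C) p
  have h1 : MonoidAlgebra.mapRingHom C φ
      ((MonoidAlgebra.single c (1 : B) - MonoidAlgebra.single d 1) ^ p ^ a) = 0 := by
    rw [map_pow, map_sub, MonoidAlgebra.mapRingHom_single, MonoidAlgebra.mapRingHom_single,
      map_one, sub_pow_char_pow, MonoidAlgebra.single_pow, MonoidAlgebra.single_pow, h, sub_self]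
  have h2 := (hn.monoidAlgebra C).isNilpotent h1
  exact IsNilpotent.of_pow h2

theorem abelian_nilKer {φ : B →+* K} (hn : NilKer φ) (p : ℕ) [Fact p.Prime] [CharP K p]
    [Finite C] (ψ : C →* C) (a : ℕ) (hψ : ∀ c, c ^ p ^ a = (ψ c) ^ p ^ a) :
    NilKer (MonoidAlgebra.mapDomainRingHom B ψ) := by
  set J : Ideal (MonoidAlgebra B C) := Ideal.span (Set.range fun c : C =>
    MonoidAlgebra.single c (1 : B) - MonoidAlgebra.single (ψ c) 1) with hJ
  have hfg : J.FG := by
    have hfin : (Set.range fun c : C =>
      MonoidAlgebra.single c (1 : B) - MonoidAlgebra.single (ψ c) 1).Finite := Set.finite_range _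
    exact ⟨hfin.toFinset, by rw [hfin.coe_toFinset]⟩
  have hnil : IsNilpotent J := by
    rw [hfg.isNilpotent_iff_le_nilradical, hJ, Ideal.span_le]
    rintro _ ⟨c, rfl⟩
    exact single_sub_nilpotent (K := K) p hn (hψ c)
  have hmem : ∀ x : MonoidAlgebra B C, x - MonoidAlgebra.mapDomainRingHom B ψ x ∈ J := by
    intro x
    induction x using MonoidAlgebra.induction_linear with
    | zero => simp
    | add x y hx hy =>
      rw [map_add]
      have : x + y - (MonoidAlgebra.mapDomainRingHom B ψ x + MonoidAlgebra.mapDomainRingHom B ψ y) =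
        (x - MonoidAlgebra.mapDomainRingHom B ψ x) + (y - MonoidAlgebra.mapDomainRingHom B ψ y) := by
        ring
      rw [this]
      exact J.add_mem hx hy
    | single c b =>
      have : MonoidAlgebra.single c b - MonoidAlgebra.mapDomainRingHom B ψ
          (MonoidAlgebra.single c b) = MonoidAlgebra.single 1 b *
          (MonoidAlgebra.single c (1 : B) - MonoidAlgebra.single (ψ c) 1) := by
        rw [mul_sub, MonoidAlgebra.single_mul_single, MonoidAlgebra.single_mul_single]
        simp
      rw [this]
      exact J.mul_mem_left _ (Ideal.subset_span ⟨c, rfl⟩)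
  obtain ⟨N, hN⟩ := hnil
  refine ⟨N, fun j => (J ^ j).toAddSubgroup, ?_, ?_, ?_⟩
  · intro x
    change x ∈ J ^ 0
    simp
  · intro x hx
    change x ∈ J ^ N at hx
    rw [hN] at hx
    simpa using hx
  · intro j x y hx hy
    change y ∈ J ^ j at hy
    change x * y ∈ J ^ (j + 1)
    have hxJ : x ∈ J := by
      have := hmem x
      rwa [hx, sub_zero] at this
    rw [pow_succ']
    exact Ideal.mul_mem_mul hxJ hy

/-- If the order of `c` vanishes in the field `K`, `c` an element of the finite abelian group `C`,
and `B → K` has nilpotent kernel, then the coefficient at `c` of the trace of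
an idempotent matrix over `B[C]` vanishes. -/
theorem abelian_vanish [Finite C] {φ : B →+* K} (hn : NilKer φ) (c : C)
    (hc : (orderOf c : K) = 0) (y : K0 (MonoidAlgebra B C))
    (hf : ∀ x y : C, dlt B c (x * y) = dlt B c (y * x)) :
    T (dlt B c) hf y = 0 := by
  obtain ⟨p, hp⟩ := CharP.exists K
  have hpos : 0 < orderOf c := orderOf_pos c
  have hp0 : p ≠ 0 := by
    rintro rfl
    have : CharZero K := CharP.charP_to_charZero K
    exact hpos.ne' (by exact_mod_cast hc)
  have : Fact p.Prime := ⟨(CharP.char_is_prime_or_zero K p).resolve_right hp0⟩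
  have hprime : p.Prime := Fact.out
  have hpc : p ∣ orderOf c := (CharP.cast_eq_zero_iff K p _).1 hc
  obtain ⟨a, m, hm, hN⟩ := Nat.exists_eq_pow_mul_and_not_dvd (Nat.card_pos (α := C)).ne' p
    hprime.one_lt.ne'
  have hcop : Nat.Coprime (p ^ a) m :=
    Nat.Coprime.pow_left a ((Nat.Prime.coprime_iff_not_dvd hprime).2 hm)
  obtain ⟨s, hs1, hs2⟩ := Nat.chineseRemainder hcop 0 1
  have hpow : ∀ g : C, g ^ (Nat.card C) = 1 := fun g => pow_card_eq_one'
  have hmod : ∀ (g : C) {i j : ℕ}, i ≡ j [MOD Nat.card C] → g ^ i = g ^ j := by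
    intro g i j hij
    rw [pow_eq_pow_iff_modEq]
    exact hij.of_dvd (orderOf_dvd_natCard g)
  let ψ : C →* C := powMonoidHom s
  have hψψ : ψ.comp ψ = ψ := by
    ext g
    simp only [ψ, MonoidHom.comp_apply, powMonoidHom_apply]
    rw [← pow_mul]
    apply hmod
    rw [hN]
    refine (Nat.modEq_and_modEq_iff_modEq_mul hcop).1 ⟨?_, ?_⟩
    · calc s * s ≡ 0 * 0 [MOD p ^ a] := hs1.mul hs1
        _ = 0 := rfl
        _ ≡ s [MOD p ^ a] := hs1.symm
    · calc s * s ≡ 1 * s [MOD m] := hs2.mul_right s
        _ = s := one_mul s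
  have hψa : ∀ g, g ^ p ^ a = (ψ g) ^ p ^ a := by
    intro g
    simp only [ψ, powMonoidHom_apply]
    rw [← pow_mul]
    apply hmod
    rw [hN]
    refine (Nat.modEq_and_modEq_iff_modEq_mul hcop).1 ⟨?_, ?_⟩
    · calc p ^ a ≡ 0 [MOD p ^ a] := (Nat.modEq_zero_iff_dvd.2 dvd_rfl)
        _ ≡ s * p ^ a [MOD p ^ a] := (Nat.modEq_zero_iff_dvd.2 (Dvd.intro_left s rfl)).symm
    · calc p ^ a = 1 * p ^ a := (one_mul _).symm
        _ ≡ s * p ^ a [MOD m] := (hs2.symm).mul_right _
  have hnk := abelian_nilKer (K := K) hn p ψ a hψa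
  let θ := MonoidAlgebra.mapDomainRingHom B ψ
  have hq : K0.map θ.rangeRestrict (K0.map θ y) = K0.map θ.rangeRestrict y := by
    rw [K0.map_map]
    have heq : θ.rangeRestrict.comp θ = θ.rangeRestrict := by
      refine RingHom.ext fun x => Subtype.ext ?_
      change θ (θ x) = θ x
      have : (θ.comp θ) x = θ x := by
        rw [← MonoidAlgebra.mapDomainRingHom_comp, hψψ]
      exact this
    rw [heq]
  have hnk' : NilKer θ.rangeRestrict := hnk.mono (fun x hx => by
    have := congrArg Subtype.val hx
    exact this)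
  have hθ : K0.map θ y = y := K0.map_injective θ.rangeRestrict_surjective hnk' hq
  rw [← hθ, T_mapDomain]
  have hzero : ∀ g, dlt B c (ψ g) = 0 := by
    intro g
    apply dlt_ne
    intro hg
    have h1 : orderOf c ∣ m := by
      apply orderOf_dvd_of_pow_eq_one
      rw [← hg]
      simp only [ψ, powMonoidHom_apply]
      rw [← pow_mul]
      have h2 : s * m ≡ 0 [MOD Nat.card C] := by
        rw [hN]
        refine (Nat.modEq_and_modEq_iff_modEq_mul hcop).1 ⟨?_, ?_⟩
        · calc s * m ≡ 0 * m [MOD p ^ a] := hs1.mul_right m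
            _ = 0 := zero_mul m
        · exact (Nat.modEq_zero_iff_dvd.2 (Dvd.intro_left s rfl))
      have := hmod g h2
      rwa [pow_zero] at this
    exact hm (hpc.trans h1)
  rw [T_congr _ (fun _ _ => rfl) hzero]
  exact T_zero _ _

end Abelian

end Pool.Agent.H71.FJ

end
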