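import Pool.Agent.H71.TCZ.M13
import Pool.Agent.H71.TCZ.M14

/-! The parts of this file: H71.WH.Log2_1, H71.WH.Gam. -/

section

/-!
# Further properties of the trace of the logarithm
-/

set_option autoImplicit false

universe u v

namespace Pool.Agent.H71.WH

variable {R : Type u} [Ring R]

theorem Cong.one : Cong (1 : R) := ⟨0, by simp⟩

theorem Cong.mul {w w' : R} (h : Cong w) (h' : Cong w') : Cong (w * w') := by
  obtain ⟨x, rfl⟩ := h
  obtain ⟨y, rfl⟩ := h'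
  refine ⟨x + y + x * (2 * y), ?_⟩
  noncomm_ring

theorem Cong.of_mul_eq_one {w w' : R} (h : Cong w) (h' : w' * w = 1) : Cong w' := by
  obtain ⟨x, rfl⟩ := h
  refine ⟨-(w' * x), ?_⟩
  have : w' * (1 + 2 * x) = w' + 2 * (w' * x) := by noncomm_ring
  rw [this] at h'
  rw [mul_neg, ← h']
  abel

theorem tl_zero (τ : R →+ ℤ) : tl τ 0 = 0 := by
  have : tlTerm τ (0 : R) = fun _ => 0 := by
    funext k
    simp [tlTerm]
  rw [tl, this, tsum_zero]

theorem L_one (τ : R →+ ℤ) : L τ 1 = 0 := by rw [L, sub_self, tl_zero]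

theorem L_inv (τ : R →+ ℤ) (hτ : ∀ a b, τ (a * b) = τ (b * a)) {w w' : R} (h : Cong w)
    (h1 : w' * w = 1) : L τ w' = -L τ w := by
  have := L_mul τ hτ (h.of_mul_eq_one h1) h
  rw [h1, L_one] at this
  exact (neg_eq_of_add_eq_zero_left this.symm).symm

theorem tl_neg (τ : R →+ ℤ) (x : R) : tl (-τ) x = -tl τ x := by
  have : tlTerm (-τ) x = fun k => -tlTerm τ x k := by
    funext k
    simp only [tlTerm, AddMonoidHom.neg_apply, Int.cast_neg]
    ring
  rw [tl, tl, this, tsum_neg]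

theorem tl_zsmul (τ τ' : R →+ ℤ) (x : R) (n : ℤ) (h : ∀ r, τ' r = n * τ r) :
    tl τ' x = n * tl τ x := by
  have : tlTerm τ' x = fun k => (n : ℚ_[2]) * tlTerm τ x k := by
    funext k
    simp only [tlTerm, h, Int.cast_mul]
    ring
  rw [tl, tl, this, tsum_mul_left]

/-- Restriction of additive functions along a ring homomorphism. -/
def pull {S : Type v} [Ring S] (φ : R →+* S) (τ : S →+ ℤ) : R →+ ℤ :=
  τ.comp φ.toAddMonoidHom

theorem pull_apply {S : Type v} [Ring S] (φ : R →+* S) (τ : S →+ ℤ) (r : R) :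
    pull φ τ r = τ (φ r) := rfl

theorem L_map {S : Type v} [Ring S] (φ : R →+* S) (τ : S →+ ℤ) (w : R) :
    L τ (φ w) = L (pull φ τ) w := by
  rw [L, L]
  apply tl_congr
  intro k
  rw [pull_apply, map_pow φ, map_sub φ, map_one φ]

theorem Cong.map {S : Type v} [Ring S] (φ : R →+* S) {w : R} (h : Cong w) : Cong (φ w) := by
  obtain ⟨x, rfl⟩ := h
  refine ⟨φ x, ?_⟩
  rw [map_add, map_mul, map_one, map_ofNat]

/-- additivity for commuting elements and arbitrary functionals -/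
theorem L_mul_of_commute (τ : R →+ ℤ) {x y : R} (h : Commute x y) :
    L τ ((1 + 2 * x) * (1 + 2 * y)) = L τ (1 + 2 * x) + L τ (1 + 2 * y) := by
  let S : Subring R := Subring.closure {x, y}
  have hS : ∀ a ∈ S, ∀ b ∈ S, a * b = b * a := by
    intro a ha b hb
    have hcl : ∀ p ∈ ({x, y} : Set R), ∀ q ∈ ({x, y} : Set R), p * q = q * p := by
      rintro p (rfl | rfl) q (rfl | rfl)
      · rfl
      · exact h
      · exact h.symm
      · rfl
    let _ := Subring.closureCommRingOfComm hcl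
    have := mul_comm (⟨a, ha⟩ : Subring.closure {x, y}) ⟨b, hb⟩
    exact congrArg Subtype.val this
  let x' : S := ⟨x, Subring.subset_closure (by simp)⟩
  let y' : S := ⟨y, Subring.subset_closure (by simp)⟩
  have key := L_mul (pull S.subtype τ) (by
    intro a b
    rw [pull_apply, pull_apply]
    exact congrArg τ (hS _ a.2 _ b.2)) (w := 1 + 2 * x') (w' := 1 + 2 * y') ⟨x', rfl⟩ ⟨y', rfl⟩
  rw [← L_map, ← L_map, ← L_map] at key
  exact key

theorem tl_ne_zero (τ : R →+ ℤ) (r : R) (a : ℕ) (ha : 3 ≤ a) (h : ¬ (2 : ℤ) ∣ τ r) :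
    tl τ (2 ^ a * r) ≠ 0 := by
  obtain ⟨n, rfl⟩ : ∃ n, a = n + 1 := ⟨a - 1, by omega⟩
  have hsum : Summable (tlTerm τ (2 ^ (n + 1) * r)) := by
    have : (2 : R) ^ (n + 1) * r = 2 * (2 ^ n * r) := by rw [pow_succ', mul_assoc]
    rw [this]
    exact tl_summable τ _
  intro h0
  rw [tl, hsum.tsum_eq_zero_add] at h0
  have h1 : ‖∑' b, tlTerm τ (2 ^ (n + 1) * r) (b + 1)‖ ≤ ((2 : ℝ) ^ (2 * n))⁻¹ :=
    IsUltrametricDist.norm_tsum_le_of_forall_le (fun j => term_le_aux τ r n j)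
  rw [← norm_neg, ← eq_neg_of_add_eq_zero_left h0] at h1
  have h2 : tlTerm τ (2 ^ (n + 1) * r) 0 = (((2 ^ (n + 1) * τ r : ℤ)) : ℚ_[2]) := by
    rw [tlTerm, zero_add, pow_one, map_two_pow_mul]
    simp
  rw [h2] at h1
  have h3 : ‖((2 ^ (n + 1) * τ r : ℤ) : ℚ_[2])‖ ≤ ((2 : ℕ) : ℝ) ^ (-((2 * n : ℕ) : ℤ)) := by
    rw [zpow_neg, zpow_natCast]
    exact_mod_cast h1
  rw [Padic.norm_int_le_pow_iff_dvd] at h3
  have h4 : (2 ^ (n + 1 + 1) : ℤ) ∣ 2 ^ (n + 1) * τ r := by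
    refine dvd_trans ?_ h3
    exact_mod_cast pow_dvd_pow 2 (by omega : n + 1 + 1 ≤ 2 * n)
  rw [pow_succ] at h4
  exact h ((mul_dvd_mul_iff_left (by positivity)).1 h4)

end Pool.Agent.H71.WH

end

section

/-!
# The homomorphism `Gam : GL(ℤ[G]) → ℚ₂`
-/

set_option autoImplicit false
set_option linter.unusedSectionVars false

open Matrix

universe u v w

namespace Pool.Agent.H71.WH

theorem mul_aux {R : Type u} [Ring R] (a b c d : R) (h : c * b = b * c) :
    a * b * (c * d) = a * c * (b * d) := by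
  rw [mul_assoc, ← mul_assoc b c, ← h]
  simp only [mul_assoc]

theorem grp_aux {H : Type u} [Group H] (a b c d : H) :
    (a * b)⁻¹ * (c * d) = (b⁻¹ * (a⁻¹ * c) * b) * (b⁻¹ * d) := by group

section

variable {G : Type u} [Group G] (f : G → ℤ) (hf : ∀ x y, f (x * y) = f (y * x))
  (ι : Type v) [Fintype ι] [DecidableEq ι]

/-- matrices over `ℤ[G × G]` -/
abbrev MM (G : Type u) [Group G] (ι : Type v) : Type (max u v) :=
  Matrix (ι × ι) (ι × ι) (MonoidAlgebra ℤ (G × G))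

/-- the twisted trace on matrices over `ℤ[G × G]` -/
noncomputable def tG : TwTr (MM G ι) := mat (t0 f hf) ι

theorem tG_s (F : MM G ι) (P Q : ι × ι) : (tG f hf ι).s F P Q = sw G (F P.swap Q.swap) := rfl

theorem tG_κ (F : MM G ι) : (tG f hf ι).κ F = ∑ P, k0 f (F P P.swap) := rfl

/-- `u ⊗ 1` -/
noncomputable def k1 : Matrix ι ι (MonoidAlgebra ℤ G) →+* MM G ι :=
  (blockDiagonalRingHom ι ι (MonoidAlgebra ℤ (G × G))).comp
    (RingHom.pi fun _ => (i1 G).mapMatrix)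

/-- `1 ⊗ u` -/
noncomputable def k2 : Matrix ι ι (MonoidAlgebra ℤ G) →+* MM G ι :=
  (tG (fun _ : G => 0) (fun _ _ => rfl) ι).s.comp (k1 ι)

variable {ι}

theorem k1_apply (w : Matrix ι ι (MonoidAlgebra ℤ G)) (P Q : ι × ι) :
    k1 ι w P Q = if P.2 = Q.2 then i1 G (w P.1 Q.1) else 0 :=
  blockDiagonal_apply _ P Q

theorem k2_apply (w : Matrix ι ι (MonoidAlgebra ℤ G)) (P Q : ι × ι) :
    k2 ι w P Q = if P.1 = Q.1 then i2 G (w P.2 Q.2) else 0 := by
  change sw G (k1 ι w P.swap Q.swap) = _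
  rw [k1_apply]
  simp only [Prod.fst_swap, Prod.snd_swap]
  split_ifs
  · rw [sw_i1]
  · rw [map_zero]

theorem s_k1 (w : Matrix ι ι (MonoidAlgebra ℤ G)) : (tG f hf ι).s (k1 ι w) = k2 ι w := rfl

theorem s_k2 (w : Matrix ι ι (MonoidAlgebra ℤ G)) : (tG f hf ι).s (k2 ι w) = k1 ι w := by
  rw [← s_k1 f hf, (tG f hf ι).inv]

theorem k12_apply (w w' : Matrix ι ι (MonoidAlgebra ℤ G)) (P Q : ι × ι) :
    (k1 ι w * k2 ι w') P Q = i1 G (w P.1 Q.1) * i2 G (w' P.2 Q.2) := by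
  rw [Matrix.mul_apply, Finset.sum_eq_single (Q.1, P.2)]
  · rw [k1_apply, k2_apply, if_pos rfl, if_pos rfl]
  · rintro ⟨a, b⟩ _ hX
    rw [k1_apply, k2_apply]
    by_cases h1 : P.2 = b
    · by_cases h2 : a = Q.1
      · exact absurd (by rw [h2, ← h1]) hX
      · rw [if_neg h2, mul_zero]
    · rw [if_neg h1, zero_mul]
  · intro h
    exact absurd (Finset.mem_univ _) h

theorem k21 (w w' : Matrix ι ι (MonoidAlgebra ℤ G)) :
    k2 ι w' * k1 ι w = k1 ι w * k2 ι w' := by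
  ext P Q : 1
  rw [k12_apply, Matrix.mul_apply, Finset.sum_eq_single (P.1, Q.2)]
  · rw [k1_apply, k2_apply, if_pos rfl, if_pos rfl, i1_i2_comm]
  · rintro ⟨a, b⟩ _ hX
    rw [k1_apply, k2_apply]
    by_cases h1 : P.1 = a
    · by_cases h2 : b = Q.2
      · exact absurd (by rw [h2, ← h1]) hX
      · rw [if_neg h2, mul_zero]
    · rw [if_neg h1, zero_mul]
  · intro h
    exact absurd (Finset.mem_univ _) h

/-- the diagonal -/
def dg (ι : Type v) : ι ↪ ι × ι := ⟨fun i => (i, i), fun _ _ h => congrArg Prod.fst h⟩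

variable (ι) in
/-- the map induced by the diagonal of `G` -/
noncomputable def psi : Matrix ι ι (MonoidAlgebra ℤ G) →ₙ+* MM G ι :=
  (emb (dg ι)).comp ((Del G).mapMatrix : Matrix ι ι (MonoidAlgebra ℤ G) →+* _).toNonUnitalRingHom

theorem psi_eq (w : Matrix ι ι (MonoidAlgebra ℤ G)) : psi ι w = emb (dg ι) (w.map (Del G)) := rfl

theorem swap_ne_dg {P : ι × ι} (h : ∀ i, P ≠ dg ι i) (i : ι) : P.swap ≠ dg ι i := by
  intro h'
  apply h i
  rw [← Prod.swap_swap P, h']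
  rfl

theorem s_psi (w : Matrix ι ι (MonoidAlgebra ℤ G)) : (tG f hf ι).s (psi ι w) = psi ι w := by
  rw [psi_eq]
  apply eq_emb
  · intro i k
    rw [tG_s]
    change sw G (emb (dg ι) (w.map (Del G)) (dg ι i) (dg ι k)) = _
    rw [emb_apply, Matrix.map_apply, sw_Del]
  · intro P Q hP
    rw [tG_s, emb_zero_left _ _ (swap_ne_dg hP), map_zero]
  · intro P Q hQ
    rw [tG_s, emb_zero_right _ _ _ (swap_ne_dg hQ), map_zero]

/-- `u ⊗ u` -/
noncomputable def TT (u : (Matrix ι ι (MonoidAlgebra ℤ G))ˣ) : (MM G ι)ˣ :=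
  Units.map (k1 (G := G) ι).toMonoidHom u * Units.map (k2 (G := G) ι).toMonoidHom u

/-- the diagonal image -/
noncomputable def PP : (Matrix ι ι (MonoidAlgebra ℤ G))ˣ →* (MM G ι)ˣ := unitExt (psi ι)

theorem TT_val (u : (Matrix ι ι (MonoidAlgebra ℤ G))ˣ) :
    (TT u : MM G ι) = k1 ι u * k2 ι u := rfl

theorem PP_val (u : (Matrix ι ι (MonoidAlgebra ℤ G))ˣ) :
    (PP u : MM G ι) = psi ι u + (1 - psi ι 1) := rfl

/-- the quotient -/
noncomputable def gg (u : (Matrix ι ι (MonoidAlgebra ℤ G))ˣ) : (MM G ι)ˣ := (PP u)⁻¹ * TT u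

theorem TT_mul (u w : (Matrix ι ι (MonoidAlgebra ℤ G))ˣ) : TT (u * w) = TT u * TT w := by
  have e1 : (TT (u * w) : MM G ι) = k1 ι u * k1 ι w * (k2 ι u * k2 ι w) := by
    rw [TT_val, Units.val_mul, map_mul, map_mul]
  have e2 : ((TT u * TT w : (MM G ι)ˣ) : MM G ι) = k1 ι u * k2 ι u * (k1 ι w * k2 ι w) := by
    rw [Units.val_mul, TT_val, TT_val]
  apply Units.ext
  rw [e1, e2]
  exact mul_aux _ _ _ _ (k21 _ _)

theorem gg_mul (u w : (Matrix ι ι (MonoidAlgebra ℤ G))ˣ) :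
    gg (u * w) = ((PP w)⁻¹ * gg u * PP w) * gg w := by
  rw [gg, gg, gg, map_mul, TT_mul]
  exact grp_aux _ _ _ _

theorem s_PP (u : (Matrix ι ι (MonoidAlgebra ℤ G))ˣ) : (tG f hf ι).s (PP u) = (PP u : MM G ι) := by
  rw [PP_val, map_add, map_sub, map_one, s_psi, s_psi]

theorem s_TT (u : (Matrix ι ι (MonoidAlgebra ℤ G))ˣ) : (tG f hf ι).s (TT u) = (TT u : MM G ι) := by
  rw [TT_val, map_mul, s_k1, s_k2, k21]

theorem PP_dg (u : (Matrix ι ι (MonoidAlgebra ℤ G))ˣ) (i k : ι) :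
    (PP u : MM G ι) (i, i) (k, k) = Del G ((u : Matrix ι ι _) i k) := by
  have h1 : ∀ w : Matrix ι ι (MonoidAlgebra ℤ G), psi ι w (i, i) (k, k) = Del G (w i k) :=
    fun w => emb_apply (dg ι) _ i k
  rw [PP_val, Matrix.add_apply, Matrix.sub_apply, h1, h1]
  by_cases hik : i = k
  · subst hik
    rw [Matrix.one_apply_eq, Matrix.one_apply_eq, map_one, sub_self, add_zero]
  · rw [Matrix.one_apply_ne hik, Matrix.one_apply_ne (fun h => hik (congrArg Prod.fst h)),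
      map_zero, sub_self, add_zero]

theorem exists_T_sub (u : (Matrix ι ι (MonoidAlgebra ℤ G))ˣ) :
    ∃ z : MM G ι, (TT u : MM G ι) - PP u = z + (tG f hf ι).s z := by
  apply exists_half
  · change (tG f hf ι).s _ = _
    rw [map_sub, s_PP, s_TT]
  · intro i k
    rw [Matrix.sub_apply, PP_dg, TT_val, k12_apply]
    exact exists_norm _

end

end Pool.Agent.H71.WH

end
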