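import Pool.Agent.H71.TCZ.H16.FU.Asm1
import Pool.Agent.H71.TCZ.M08
import Pool.Agent.H71.TCZ.M21
import Pool.Agent.H71.TCZ.M25

/-! The parts of this file: H71.WH.Prim2, H71.WH.Main, H16.FU.Defs1. -/

section

/-!
# Decomposition into primitive classes
-/

set_option autoImplicit false
set_option linter.unusedSectionVars false
set_option linter.unusedSimpArgs false

open Matrix
open scoped Classical

universe u v w

namespace Pool.Agent.H71.WH

theorem unitsMap_comp {A : Type u} {B : Type v} {C : Type w} [Group A] [Group B] [Group C]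
    (φ : A →* B) (ψ : B →* C) (x : (MonoidAlgebra ℤ A)ˣ) :
    unitsMap ψ (unitsMap φ x) = unitsMap (ψ.comp φ) x := by
  have h : ((MonoidAlgebra.mapDomainRingHom ℤ ψ).comp (MonoidAlgebra.mapDomainRingHom ℤ φ))
      (x : MonoidAlgebra ℤ A) = MonoidAlgebra.mapDomainRingHom ℤ (ψ.comp φ)
      (x : MonoidAlgebra ℤ A) := by
    rw [MonoidAlgebra.mapDomainRingHom_comp]
  exact Units.ext h

section

variable {G : Type v} [Group G]

/-- the range of a homomorphism from a finite cyclic group -/
def rangeSub {H : Type w} [Group H] [Finite H] [IsCyclic H] (ι : H →* G) : CycSub G :=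
  ⟨ι.range, Set.finite_range ι, isCyclic_of_surjective ι.rangeRestrict ι.rangeRestrict_surjective⟩

/-- `ι` as a homomorphism onto its range -/
def toRange {H : Type w} [Group H] [Finite H] [IsCyclic H] (ι : H →* G) : H →* (rangeSub ι).1 :=
  ι.rangeRestrict

/-- The class of a unit of `ℤ[H]` for a homomorphism from a finite cyclic group `H` to `G`. -/
noncomputable def clh {H : Type w} [Group H] [Finite H] [IsCyclic H] (ι : H →* G)
    (x : (MonoidAlgebra ℤ H)ˣ) : ColimU G := cl (rangeSub ι) (unitsMap (toRange ι) x)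

theorem clh_map {H : Type w} {H' : Type u} [Group H] [Finite H] [IsCyclic H] [Group H']
    [Finite H'] [IsCyclic H'] (ι : H →* G) (ι' : H' →* G) (φ : H →* H')
    (h : ∀ a, ι' (φ a) = ι a) (x : (MonoidAlgebra ℤ H)ˣ) :
    clh ι' (unitsMap φ x) = clh ι x := by
  have hr : ∀ y ∈ (rangeSub ι).1, (1 : G) * y * 1⁻¹ ∈ (rangeSub ι').1 := by
    rintro y ⟨a, rfl⟩
    refine ⟨φ a, ?_⟩
    rw [h, one_mul, inv_one, mul_one]
  have h1 := cl_conj (rangeSub ι) (rangeSub ι') 1 hr (unitsMap (toRange ι) x)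
  refine Eq.trans ?_ h1
  have h2 : (toRange ι').comp φ =
      (conjHom 1 (rangeSub ι).1 (rangeSub ι').1 hr).comp (toRange ι) := by
    apply MonoidHom.ext
    intro a
    apply Subtype.ext
    change ι' (φ a) = 1 * ι a * 1⁻¹
    rw [h, one_mul, inv_one, mul_one]
  rw [clh, unitsMap_comp, unitsMap_comp, h2]

theorem clh_subtype (C : CycSub G) [Finite C.1] [IsCyclic C.1] (x : (MonoidAlgebra ℤ C.1)ˣ) :
    clh C.1.subtype x = cl C x := by
  have hr : ∀ y ∈ C.1, (1 : G) * y * 1⁻¹ ∈ (rangeSub C.1.subtype).1 := by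
    intro y hy
    refine ⟨⟨y, hy⟩, ?_⟩
    rw [one_mul, inv_one, mul_one]
    rfl
  have h2 : toRange C.1.subtype = conjHom 1 C.1 (rangeSub C.1.subtype).1 hr := by
    apply MonoidHom.ext
    intro a
    apply Subtype.ext
    change (a : G) = 1 * (a : G) * 1⁻¹
    rw [one_mul, inv_one, mul_one]
  have h3 := cl_conj C (rangeSub C.1.subtype) 1 hr x
  rw [← h2] at h3
  exact h3

theorem isPrim_map {D : Type u} {D' : Type w} [Group D] [Finite D] [Group D'] [Finite D']
    [IsCyclic D'] (φ : D ≃* D') {y : (MonoidAlgebra ℤ D)ˣ} (hy : IsPrim y) :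
    IsPrim (unitsMap φ.toMonoidHom y) := by
  intro c hc
  have h1 : LU (dlt c) (unitsMap φ.toMonoidHom y) = LU (fun a : D => dlt c (φ.toMonoidHom a)) y :=
    LU_map φ.toMonoidHom (dlt c) (fun a b => by rw [cyc_comm]) y
  have h2 : (fun a : D => dlt c (φ.toMonoidHom a)) = dlt (φ.symm c) := by
    funext a
    unfold dlt
    congr 1
    have : (φ.toMonoidHom a = c) = (a = φ.symm c) := by
      rw [eq_iff_iff]
      constructor
      · rintro rfl
        exact (φ.symm_apply_apply a).symm
      · rintro rfl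
        exact φ.apply_symm_apply c
    rw [this]
  rw [h1, h2]
  apply hy
  intro htop
  apply hc
  rw [eq_top_iff]
  intro d _
  have h2 : φ.symm d ∈ Subgroup.zpowers (φ.symm c) := by rw [htop]; trivial
  obtain ⟨m, hm⟩ := Subgroup.mem_zpowers_iff.1 h2
  refine Subgroup.mem_zpowers_iff.2 ⟨m, ?_⟩
  apply φ.symm.injective
  rw [map_zpow, hm]

/-- The classes in the colimit represented by primitive units. -/
def PrimSet (G : Type v) [Group G] : Set (ColimU G) :=
  {z | ∃ (D : CycSub G) (y : (MonoidAlgebra ℤ D.1)ˣ), IsPrim y ∧ z = cl D y}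

end

end Pool.Agent.H71.WH

end

section

/-!
# Rational injectivity of the assembly map to the Whitehead group
-/

set_option autoImplicit false
set_option linter.unusedSectionVars false
set_option linter.unusedSimpArgs false

open Matrix
open scoped Classical

universe u v w

namespace Pool.Agent.H71.WH

section Aux

variable {H : Type w} [Group H] [Finite H]

/-- Units with vanishing logarithm have finite order. -/
theorem detect {x : (MonoidAlgebra ℤ H)ˣ}
    (h : ∀ c, LU (dlt c) x = 0) : x ^ N8 H = 1 := by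
  apply Units.ext
  rw [Units.val_one]
  apply eq_one_of_L (C8_pow_N8 x)
  intro c
  have h1 := h c
  rw [LU] at h1
  rcases mul_eq_zero.1 h1 with h2 | h2
  · exact absurd (inv_eq_zero.1 h2) (by exact_mod_cast N8_ne_zero (C := H))
  · exact h2

theorem LU_one (hc : ∀ a b : H, a * b = b * a) (f : H → ℤ) :
    LU f (1 : (MonoidAlgebra ℤ H)ˣ) = 0 := by
  have := LU_mul hc f 1 1
  rw [mul_one] at this
  exact add_eq_left.1 this.symm

theorem LU_inv (hc : ∀ a b : H, a * b = b * a) (f : H → ℤ) (x : (MonoidAlgebra ℤ H)ˣ) :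
    LU f x⁻¹ = -LU f x := by
  have h := LU_mul hc f x⁻¹ x
  rw [inv_mul_cancel, LU_one hc] at h
  exact eq_neg_of_add_eq_zero_left h.symm

theorem LU_list (hc : ∀ a b : H, a * b = b * a) (f : H → ℤ) (l : List (MonoidAlgebra ℤ H)ˣ) :
    LU f l.prod = (l.map (LU f)).sum := by
  induction l with
  | nil => exact LU_one hc f
  | cons a l ih => rw [List.prod_cons, LU_mul hc, ih, List.map_cons, List.sum_cons]

end Aux

variable {G : Type v} [Group G]

theorem isPrim_one {D : Type w} [Group D] [Finite D] [IsCyclic D] :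
    IsPrim (1 : (MonoidAlgebra ℤ D)ˣ) := fun c _ => LU_one cyc_comm (dlt c)

theorem isPrim_mul {D : Type w} [Group D] [Finite D] [IsCyclic D] {x y : (MonoidAlgebra ℤ D)ˣ}
    (hx : IsPrim x) (hy : IsPrim y) : IsPrim (x * y) := by
  intro c hc
  rw [LU_mul cyc_comm, hx c hc, hy c hc, add_zero]

theorem isPrim_inv {D : Type w} [Group D] [Finite D] [IsCyclic D] {x : (MonoidAlgebra ℤ D)ˣ}
    (hx : IsPrim x) : IsPrim x⁻¹ := by
  intro c hc
  rw [LU_inv cyc_comm, hx c hc, neg_zero]

theorem primSet_neg {z : ColimU G} (hz : z ∈ PrimSet G) : -z ∈ PrimSet G := by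
  obtain ⟨D, y, hy, rfl⟩ := hz
  have := D.2.1
  have := D.2.2
  exact ⟨D, y⁻¹, isPrim_inv hy, (cl_inv D y).symm⟩

/-- the indicator function of the conjugacy class of `c` -/
noncomputable def cf (c h : G) : ℤ := if IsConj c h then 1 else 0

theorem cf_comm (c x y : G) : cf c (x * y) = cf c (y * x) := by
  have h : IsConj (x * y) (y * x) := isConj_iff.2 ⟨x⁻¹, by group⟩
  unfold cf
  by_cases h1 : IsConj c (x * y)
  · rw [if_pos h1, if_pos (h1.trans h)]
  · rw [if_neg h1, if_neg (fun h2 => h1 (h2.trans h.symm))]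

/-- the class function of `c` -/
noncomputable def cF (c : G) : CF G := ⟨cf c, cf_comm c⟩

theorem LUc_cF (c : G) (D : CycSub G) [Fintype D.1] (y : (MonoidAlgebra ℤ D.1)ˣ) :
    LUc (cF c) (cl D y) =
      ∑ d ∈ Finset.univ.filter (fun d : D.1 => IsConj c (d : G)), LU (dlt d) y := by
  rw [LUc_cl, LU_sum, Finset.sum_filter]
  apply Finset.sum_congr rfl
  intro d _
  change ((cf c (d : G) : ℤ) : ℚ_[2]) * _ = _
  unfold cf
  split_ifs
  · rw [Int.cast_one, one_mul]
  · rw [Int.cast_zero, zero_mul]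

/-- A class from a cyclic subgroup `D₀`. -/
def Over (D₀ : CycSub G) (z : ColimU G) : Prop :=
  ∃ y : (MonoidAlgebra ℤ D₀.1)ˣ, IsPrim y ∧ z = cl D₀ y

theorem over_of_conj (D₀ D : CycSub G) (c : D₀.1) (d : D.1)
    (hc : Subgroup.zpowers c = ⊤) (hd : Subgroup.zpowers d = ⊤) (h : IsConj (c : G) (d : G))
    (y : (MonoidAlgebra ℤ D.1)ˣ) (hy : IsPrim y) : Over D₀ (cl D y) := by
  obtain ⟨g, hg⟩ := isConj_iff.1 h
  have hg' : g⁻¹ * (d : G) * g⁻¹⁻¹ = c := by rw [← hg]; group
  have h1 : ∀ x ∈ D₀.1, g * x * g⁻¹ ∈ D.1 := by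
    intro x hx
    have : (⟨x, hx⟩ : D₀.1) ∈ Subgroup.zpowers c := by rw [hc]; trivial
    obtain ⟨m, hm⟩ := Subgroup.mem_zpowers_iff.1 this
    have hm' : (c : G) ^ m = x := by
      rw [← Subgroup.coe_zpow, hm]
    rw [← hm', ← conj_zpow, hg]
    exact D.1.zpow_mem d.2 m
  have h2 : ∀ x ∈ D.1, g⁻¹ * x * g⁻¹⁻¹ ∈ D₀.1 := by
    intro x hx
    have : (⟨x, hx⟩ : D.1) ∈ Subgroup.zpowers d := by rw [hd]; trivial
    obtain ⟨m, hm⟩ := Subgroup.mem_zpowers_iff.1 this
    have hm' : (d : G) ^ m = x := by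
      rw [← Subgroup.coe_zpow, hm]
    rw [← hm', ← conj_zpow, hg']
    exact D₀.1.zpow_mem c.2 m
  let e : D.1 ≃* D₀.1 :=
    { toFun := conjHom g⁻¹ D.1 D₀.1 h2
      invFun := conjHom g D₀.1 D.1 h1
      left_inv := by
        intro x
        apply Subtype.ext
        change g * (g⁻¹ * (x : G) * g⁻¹⁻¹) * g⁻¹ = x
        group
      right_inv := by
        intro x
        apply Subtype.ext
        change g⁻¹ * (g * (x : G) * g⁻¹) * g⁻¹⁻¹ = x
        group
      map_mul' := map_mul _ }
  have := D.2.1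
  have := D₀.2.1
  have := D₀.2.2
  refine ⟨unitsMap e.toMonoidHom y, isPrim_map e hy, ?_⟩
  exact (cl_conj D D₀ g⁻¹ h2 y).symm

theorem LUc_cF_not_over (D₀ D : CycSub G) (c : D₀.1) (hc : Subgroup.zpowers c = ⊤)
    (y : (MonoidAlgebra ℤ D.1)ˣ) (hy : IsPrim y) (h : ¬ Over D₀ (cl D y)) :
    LUc (cF (c : G)) (cl D y) = 0 := by
  have := D.2.1
  have : Fintype D.1 := Fintype.ofFinite D.1
  rw [LUc_cF]
  apply Finset.sum_eq_zero
  intro d hd
  apply hy
  intro hd'
  exact h (over_of_conj D₀ D c d hc hd' (Finset.mem_filter.1 hd).2 y hy)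

theorem split_list (D₀ : CycSub G) (l : List (ColimU G)) (hl : ∀ z ∈ l, z ∈ PrimSet G) :
    ∃ y : (MonoidAlgebra ℤ D₀.1)ˣ, IsPrim y ∧ ∃ l' : List (ColimU G),
      (∀ z ∈ l', z ∈ PrimSet G ∧ ¬ Over D₀ z) ∧ l'.length ≤ l.length ∧
        l.sum = cl D₀ y + l'.sum := by
  have := D₀.2.1
  have := D₀.2.2
  induction l with
  | nil => exact ⟨1, isPrim_one, [], by simp, le_rfl, by rw [cl_one, zero_add]⟩
  | cons z l ih =>
    obtain ⟨y, hy, l', h1, h2, h3⟩ := ih (fun z hz => hl z (List.mem_cons_of_mem _ hz))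
    by_cases hz : Over D₀ z
    · obtain ⟨y', hy', rfl⟩ := hz
      refine ⟨y' * y, isPrim_mul hy' hy, l', h1, h2.trans (by simp), ?_⟩
      rw [List.sum_cons, h3, cl_mul, add_assoc]
    · refine ⟨y, hy, z :: l', ?_, by simpa using h2, ?_⟩
      · intro z' hz'
        rcases List.mem_cons.1 hz' with rfl | hz'
        · exact ⟨hl _ List.mem_cons_self, hz⟩
        · exact h1 _ hz'
      · rw [List.sum_cons, List.sum_cons, h3]
        abel

theorem mulAut_finite (D : Type w) [Group D] [Finite D] : Finite (MulAut D) :=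
  Finite.of_injective (fun f : MulAut D => (f : D → D)) (fun _ _ h => MulEquiv.ext (congrFun h))

theorem LU_aut {D : Type w} [Group D] [Finite D] [IsCyclic D] (w : MulAut D) (c : D)
    (y : (MonoidAlgebra ℤ D)ˣ) :
    LU (dlt c) (unitsMap w.toMonoidHom y) = LU (dlt (w.symm c)) y := by
  have h1 : LU (dlt c) (unitsMap w.toMonoidHom y) = LU (fun a : D => dlt c (w.toMonoidHom a)) y :=
    LU_map w.toMonoidHom (dlt c) (fun a b => by rw [cyc_comm]) y
  have h2 : (fun a : D => dlt c (w.toMonoidHom a)) = dlt (w.symm c) := by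
    funext a
    unfold dlt
    congr 1
    have : (w.toMonoidHom a = c) = (a = w.symm c) := by
      rw [eq_iff_iff]
      constructor
      · rintro rfl
        exact (w.symm_apply_apply a).symm
      · rintro rfl
        exact w.apply_symm_apply c
    rw [this]
  rw [h1, h2]

/-- Automorphisms of `D₀` induced by conjugations of `G`. -/
def IsInd (D₀ : Subgroup G) (w : MulAut D₀) : Prop := ∃ g : G, ∀ d : D₀, (w d : G) = g * d * g⁻¹

theorem zpowers_aut {D : Type w} [Group D] (w : MulAut D) (c : D) (h : Subgroup.zpowers c ≠ ⊤) :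
    Subgroup.zpowers (w c) ≠ ⊤ := by
  intro h'
  apply h
  rw [eq_top_iff]
  intro d _
  have h2 : w d ∈ Subgroup.zpowers (w c) := by rw [h']; trivial
  obtain ⟨m, hm⟩ := Subgroup.mem_zpowers_iff.1 h2
  refine Subgroup.mem_zpowers_iff.2 ⟨m, ?_⟩
  apply w.injective
  rw [map_zpow, hm]

theorem sum_ind {M : Type*} [AddCommMonoid M] (D₀ : Subgroup G) [Fintype D₀] [Fintype (MulAut D₀)]
    (c : D₀) (hc : Subgroup.zpowers c = ⊤) (f : D₀ → M) :
    ∑ w ∈ Finset.univ.filter (fun w : MulAut D₀ => IsInd D₀ w), f (w.symm c) =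
      ∑ d ∈ Finset.univ.filter (fun d : D₀ => IsConj (c : G) (d : G)), f d := by
  apply Finset.sum_bij (fun w _ => w.symm c)
  · intro w hw
    obtain ⟨g, hg⟩ := (Finset.mem_filter.1 hw).2
    rw [Finset.mem_filter]
    refine ⟨Finset.mem_univ _, ?_⟩
    have := hg (w.symm c)
    rw [w.apply_symm_apply] at this
    rw [isConj_comm]
    exact isConj_iff.2 ⟨g, this.symm⟩
  · intro w1 _ w2 _ h
    have h' : w1.symm = w2.symm := by
      apply MulEquiv.ext
      intro d
      have : d ∈ Subgroup.zpowers c := by rw [hc]; trivial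
      obtain ⟨m, rfl⟩ := Subgroup.mem_zpowers_iff.1 this
      rw [map_zpow, map_zpow]
      exact congrArg (· ^ m) h
    have h2 := congrArg MulEquiv.symm h'
    rwa [MulEquiv.symm_symm, MulEquiv.symm_symm] at h2
  · intro d hd
    obtain ⟨g, hg⟩ := isConj_iff.1 (Finset.mem_filter.1 hd).2
    have h1 : ∀ x ∈ D₀, g * x * g⁻¹ ∈ D₀ := by
      intro x hx
      have : (⟨x, hx⟩ : D₀) ∈ Subgroup.zpowers c := by rw [hc]; trivial
      obtain ⟨m, hm⟩ := Subgroup.mem_zpowers_iff.1 this
      have hm' : (c : G) ^ m = x := by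
        rw [← Subgroup.coe_zpow, hm]
      rw [← hm', ← conj_zpow, hg]
      exact D₀.zpow_mem d.2 m
    have hinj : Function.Injective (conjHom g D₀ D₀ h1) := by
      intro a b hab
      have := congrArg (fun x : D₀ => (x : G)) hab
      change g * (a : G) * g⁻¹ = g * (b : G) * g⁻¹ at this
      exact Subtype.ext (mul_left_cancel (mul_right_cancel this))
    let e : MulAut D₀ := MulEquiv.ofBijective (conjHom g D₀ D₀ h1)
      (Finite.injective_iff_bijective.1 hinj)
    have he : ∀ x : D₀, ((e x : D₀) : G) = g * x * g⁻¹ := fun x => rfl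
    refine ⟨e.symm, ?_, ?_⟩
    · rw [Finset.mem_filter]
      refine ⟨Finset.mem_univ _, g⁻¹, fun x => ?_⟩
      have := he (e.symm x)
      rw [e.apply_symm_apply] at this
      rw [this]
      group
    · rw [MulEquiv.symm_symm]
      apply Subtype.ext
      rw [he, hg]
  · intro w _
    rfl

/-- If the functionals of the conjugacy classes of the generators vanish on a primitive class of a
cyclic subgroup, then its class in the colimit is torsion. -/
theorem torsion_of_vanish (D₀ : CycSub G) (y : (MonoidAlgebra ℤ D₀.1)ˣ) (hy : IsPrim y)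
    (h : ∀ c : D₀.1, Subgroup.zpowers c = ⊤ → LUc (cF (c : G)) (cl D₀ y) = 0) :
    ∃ m : ℤ, m ≠ 0 ∧ m • cl D₀ y = 0 := by
  have := D₀.2.1
  have := D₀.2.2
  have : Fintype D₀.1 := Fintype.ofFinite D₀.1
  have := mulAut_finite D₀.1
  have : Fintype (MulAut D₀.1) := Fintype.ofFinite _
  let W := Finset.univ.filter (fun w : MulAut D₀.1 => IsInd D₀.1 w)
  let F : MulAut D₀.1 → (MonoidAlgebra ℤ D₀.1)ˣ := fun w => unitsMap w.toMonoidHom y
  have h0 : (W.toList.map F).prod ^ N8 D₀.1 = 1 := by
    apply detect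
    intro c
    rw [LU_list cyc_comm, List.map_map, Finset.sum_map_toList]
    have e1 : ∀ w : MulAut D₀.1, (LU (dlt c) ∘ F) w = LU (dlt (w.symm c)) y :=
      fun w => LU_aut w c y
    rw [Finset.sum_congr rfl (fun w _ => e1 w)]
    by_cases hc : Subgroup.zpowers c = ⊤
    · have e2 := h c hc
      rw [LUc_cF] at e2
      rw [← e2]
      exact sum_ind D₀.1 c hc (fun d => LU (dlt d) y)
    · apply Finset.sum_eq_zero
      intro w _
      exact hy _ (zpowers_aut w.symm c hc)
  have h1 : ∀ w ∈ W, (cl D₀ ∘ F) w = cl D₀ y := by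
    intro w hw
    obtain ⟨g, hg⟩ := (Finset.mem_filter.1 hw).2
    have hr : ∀ x ∈ D₀.1, g * x * g⁻¹ ∈ D₀.1 := by
      intro x hx
      rw [← hg ⟨x, hx⟩]
      exact (w ⟨x, hx⟩).2
    have e1 : w.toMonoidHom = conjHom g D₀.1 D₀.1 hr := by
      apply MonoidHom.ext
      intro a
      exact Subtype.ext (hg a)
    change cl D₀ (unitsMap w.toMonoidHom y) = cl D₀ y
    rw [e1]
    exact cl_conj D₀ D₀ g hr y
  have h2 : N8 D₀.1 • (W.card • cl D₀ y) = 0 := by
    have e1 := congrArg (cl D₀) h0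
    rw [cl_pow, cl_one, cl_list, List.map_map, Finset.sum_map_toList,
      Finset.sum_congr rfl h1, Finset.sum_const] at e1
    exact e1
  refine ⟨(N8 D₀.1 * W.card : ℕ), ?_, ?_⟩
  · have : (1 : MulAut D₀.1) ∈ W := by
      rw [Finset.mem_filter]
      exact ⟨Finset.mem_univ _, 1, fun d => by simp⟩
    have h3 := (Finset.card_pos.2 ⟨_, this⟩).ne'
    have h4 : N8 D₀.1 * W.card ≠ 0 := Nat.mul_ne_zero N8_ne_zero h3
    exact_mod_cast h4
  · rw [natCast_zsmul, mul_smul, h2]

/-- A sum of primitive classes with vanishing functionals is torsion. -/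
theorem torsion_list (N : ℕ) : ∀ l : List (ColimU G), l.length = N →
    (∀ z ∈ l, z ∈ PrimSet G) → (∀ f : CF G, LUc f l.sum = 0) →
    ∃ m : ℤ, m ≠ 0 ∧ m • l.sum = 0 := by
  induction N using Nat.strong_induction_on with
  | _ N ih =>
    intro l hN hl h
    rcases l with _ | ⟨z, l⟩
    · exact ⟨1, one_ne_zero, by simp⟩
    obtain ⟨D₀, y₀, hy₀, rfl⟩ := hl z List.mem_cons_self
    have := D₀.2.1
    have := D₀.2.2
    obtain ⟨y₁, hy₁, l', h1, h2, h3⟩ := split_list D₀ l
      (fun z hz => hl z (List.mem_cons_of_mem _ hz))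
    have e1 : (cl D₀ y₀ :: l).sum = cl D₀ (y₀ * y₁) + l'.sum := by
      rw [List.sum_cons, h3, cl_mul, add_assoc]
    have hy : IsPrim (y₀ * y₁) := isPrim_mul hy₀ hy₁
    rw [e1] at h ⊢
    have hvan : ∀ c : D₀.1, Subgroup.zpowers c = ⊤ → LUc (cF (c : G)) l'.sum = 0 := by
      intro c hc
      rw [map_list_sum]
      apply List.sum_eq_zero
      intro x hx
      obtain ⟨z, hz, rfl⟩ := List.mem_map.1 hx
      obtain ⟨⟨D, y, hy, rfl⟩, hz2⟩ := h1 z hz
      exact LUc_cF_not_over D₀ D c hc y hy hz2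
    obtain ⟨m, hm, hm'⟩ := torsion_of_vanish D₀ (y₀ * y₁) hy (by
      intro c hc
      have e2 := h (cF (c : G))
      rw [map_add, hvan c hc, add_zero] at e2
      exact e2)
    have h4 : ∀ f : CF G, LUc f l'.sum = 0 := by
      intro f
      have e2 := h f
      have e3 : LUc f (cl D₀ (y₀ * y₁)) = 0 := by
        have e4 := congrArg (LUc f) hm'
        rw [map_zsmul, map_zero, zsmul_eq_mul] at e4
        rcases mul_eq_zero.1 e4 with e5 | e5
        · exact absurd (by exact_mod_cast e5) hm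
        · exact e5
      rw [map_add, e3, zero_add] at e2
      exact e2
    obtain ⟨m', hm'', hm'''⟩ := ih l'.length (by rw [← hN, List.length_cons]; omega) l' rfl
      (fun z hz => (h1 z hz).1) h4
    refine ⟨m * m', mul_ne_zero hm hm'', ?_⟩
    rw [smul_add, mul_smul m m' l'.sum, hm''', smul_zero, add_zero, mul_comm, mul_smul, hm',
      smul_zero]

/-- Elements of the subgroup generated by the primitive classes are sums of primitive classes. -/
theorem exists_list {z : ColimU G} (hz : z ∈ AddSubgroup.closure (PrimSet G)) :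
    ∃ l : List (ColimU G), (∀ z ∈ l, z ∈ PrimSet G) ∧ l.sum = z := by
  induction hz using AddSubgroup.closure_induction with
  | mem x hx => exact ⟨[x], by simpa using hx, by simp⟩
  | zero => exact ⟨[], by simp, rfl⟩
  | add x y _ _ hx hy =>
    obtain ⟨l, h1, rfl⟩ := hx
    obtain ⟨l', h1', rfl⟩ := hy
    refine ⟨l ++ l', ?_, List.sum_append⟩
    intro z hz
    rcases List.mem_append.1 hz with h | h
    · exact h1 z h
    · exact h1' z h
  | neg x _ hx =>
    obtain ⟨l, h1, rfl⟩ := hx
    refine ⟨l.map (- ·), ?_, ?_⟩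
    · intro z hz
      obtain ⟨y, hy, rfl⟩ := List.mem_map.1 hz
      exact primSet_neg (h1 y hy)
    · have hneg : ∀ l : List (ColimU G), (l.map (- ·)).sum = - l.sum := by
        intro l
        induction l with
        | nil => simp
        | cons a l ih => rw [List.map_cons, List.sum_cons, List.sum_cons, ih, neg_add]
      exact hneg l

end Pool.Agent.H71.WH

end

section

/-!
# The assembly map on the `K₁`-part of the rational source

For a ring `R`, a group `G` and `n`:

* `HnK1 R G n` is the abelian group generated by the symbols `[F, x, z]` with `F` a finite subgroup of `G`,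
  `x ∈ K₁(R[F])` and `z ∈ H_{n+1}(Z_G(F); ℤ)`, modulo additivity in `x` and in `z` and
  `[F', c_g(x), z'] = [F, x, c_{g⁻¹}(z')]` for `g F g⁻¹ ⊆ F'`, `z' ∈ H_{n+1}(Z_G(F'); ℤ)`;
* `assembly1 R G n : HnK1 R G n → KQ (R[G]) (n + 1)` sends `[F, [U], z]` to the class of the product of the image of
  `z` under the scalar matrices `γ ∈ Z_G(F)` with the class of the commuting matrix `U` (`HG.cr`);
* `assembly01 R G n : HnK0 R G (n + 1) × HnK1 R G n → KQ (R[G]) (n + 1)`, the sum of the two assembly maps.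
-/

set_option autoImplicit false

open Matrix

universe u v w

namespace Pool.Agent.H16.FU

open Pool.Agent.H71.FQ
open Pool.Agent.H95.WH (K1 K1.mk K1.map FamSub conjHom FinSub)

section

variable (R : Type u) [Ring R] (G : Type v) [Group G] (n : ℕ)

/-- The symbols `[F, x, z]`. -/
structure Sym1 where
  /-- a finite subgroup -/
  F : FamSub G FinSub
  /-- a class in `K₁` of its group ring -/
  x : K1 (MonoidAlgebra R F.1)
  /-- a homology class of its centralizer -/
  z : HG (Subgroup.centralizer (F.1 : Set G)) n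

/-- The symbol `[F, x, z]`. -/
noncomputable def symOf1 (F : FamSub G FinSub) (x : K1 (MonoidAlgebra R F.1))
    (z : HG (Subgroup.centralizer (F.1 : Set G)) n) : FreeAbelianGroup (Sym1 R G n) :=
  FreeAbelianGroup.of ⟨F, x, z⟩

/-- The relation of additivity in `x`. -/
noncomputable def symX1 (F : FamSub G FinSub) (x y : K1 (MonoidAlgebra R F.1))
    (z : HG (Subgroup.centralizer (F.1 : Set G)) n) : FreeAbelianGroup (Sym1 R G n) :=
  symOf1 R G n F (x + y) z - (symOf1 R G n F x z + symOf1 R G n F y z)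

/-- The relation of additivity in `z`. -/
noncomputable def symZ1 (F : FamSub G FinSub) (x : K1 (MonoidAlgebra R F.1))
    (z z' : HG (Subgroup.centralizer (F.1 : Set G)) n) : FreeAbelianGroup (Sym1 R G n) :=
  symOf1 R G n F x (z + z') - (symOf1 R G n F x z + symOf1 R G n F x z')

/-- The relation `[F', c_g(x), z'] = [F, x, c_{g⁻¹}(z')]`. -/
noncomputable def symC1 (F F' : FamSub G FinSub) (g : G) (h : ∀ x ∈ F.1, g * x * g⁻¹ ∈ F'.1)
    (x : K1 (MonoidAlgebra R F.1)) (z : HG (Subgroup.centralizer (F'.1 : Set G)) n) :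
    FreeAbelianGroup (Sym1 R G n) :=
  symOf1 R G n F' (K1.map (MonoidAlgebra.mapDomainRingHom R (conjHom g F.1 F'.1 h)) x) z -
    symOf1 R G n F x (HG.map n (centConj g F.1 F'.1 h) z)

/-- The relations. -/
noncomputable def SymRel1 : AddSubgroup (FreeAbelianGroup (Sym1 R G n)) :=
  AddSubgroup.closure
    ({w | ∃ F x y z, w = symX1 R G n F x y z} ∪ {w | ∃ F x z z', w = symZ1 R G n F x z z'} ∪
      {w | ∃ F F' g h x z, w = symC1 R G n F F' g h x z})

/-- The group generated by the symbols `[F, x, z]`. -/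
def HnK1 : Type (max u v) := FreeAbelianGroup (Sym1 R G n) ⧸ SymRel1 R G n

noncomputable instance instHnK1 : AddCommGroup (HnK1 R G n) :=
  QuotientAddGroup.Quotient.addCommGroup (SymRel1 R G n)

end

section

variable (R : Type u) [Ring R] (n : ℕ) {G : Type v} [Group G]

/-- The value of the assembly map on a symbol. -/
noncomputable def symVal1 (s : Sym1 R G n) : KQ (MonoidAlgebra R G) (n + 1) :=
  gasm1 R n s.F.1.subtype (Subgroup.centralizer (s.F.1 : Set G)).subtype (cent_comm s.F.1) s.x s.z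

variable (G)

theorem symRel1_le : SymRel1 R G n ≤ (FreeAbelianGroup.lift (symVal1 R n (G := G))).ker := by
  rw [SymRel1, AddSubgroup.closure_le]
  rintro w ((⟨F, x, y, z, rfl⟩ | ⟨F, x, z, z', rfl⟩) | ⟨F, F', g, h, x, z, rfl⟩)
  · change FreeAbelianGroup.lift (symVal1 R n) _ = 0
    rw [symX1, symOf1, symOf1, symOf1, map_sub, map_add, FreeAbelianGroup.lift_apply_of,
      FreeAbelianGroup.lift_apply_of, FreeAbelianGroup.lift_apply_of, symVal1, symVal1, symVal1,
      map_add, AddMonoidHom.add_apply, sub_self]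
  · change FreeAbelianGroup.lift (symVal1 R n) _ = 0
    rw [symZ1, symOf1, symOf1, symOf1, map_sub, map_add, FreeAbelianGroup.lift_apply_of,
      FreeAbelianGroup.lift_apply_of, FreeAbelianGroup.lift_apply_of, symVal1, symVal1, symVal1,
      map_add, sub_self]
  · change FreeAbelianGroup.lift (symVal1 R n) _ = 0
    rw [symC1, symOf1, symOf1, map_sub, FreeAbelianGroup.lift_apply_of,
      FreeAbelianGroup.lift_apply_of, sub_eq_zero]
    change gasm1 R n F'.1.subtype (Subgroup.centralizer (F'.1 : Set G)).subtype (cent_comm F'.1)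
        (K1.map (MonoidAlgebra.mapDomainRingHom R (conjHom g F.1 F'.1 h)) x) z =
      gasm1 R n F.1.subtype (Subgroup.centralizer (F.1 : Set G)).subtype (cent_comm F.1) x
        (HG.map n (centConj g F.1 F'.1 h) z)
    have h1 : ∀ (γ : Subgroup.centralizer (F'.1 : Set G)) (a : F.1),
        (F'.1.subtype.comp (conjHom g F.1 F'.1 h)) a *
          (Subgroup.centralizer (F'.1 : Set G)).subtype γ =
        (Subgroup.centralizer (F'.1 : Set G)).subtype γ *
          (F'.1.subtype.comp (conjHom g F.1 F'.1 h)) a := fun γ a =>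
      cent_comm F'.1 γ (conjHom g F.1 F'.1 h a)
    have h2 : ∀ (γ : Subgroup.centralizer (F'.1 : Set G)) (a : F.1),
        F.1.subtype a * ((Subgroup.centralizer (F.1 : Set G)).subtype.comp
          (centConj g F.1 F'.1 h)) γ =
        ((Subgroup.centralizer (F.1 : Set G)).subtype.comp (centConj g F.1 F'.1 h)) γ *
          F.1.subtype a := fun γ a => cent_comm F.1 (centConj g F.1 F'.1 h γ) a
    rw [gasm1_comp R n F'.1.subtype (conjHom g F.1 F'.1 h) _ (cent_comm F'.1) h1,
      gasm1_map R n F.1.subtype _ (centConj g F.1 F'.1 h) (cent_comm F.1) h2]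
    apply gasm1_conj R n _ _ _ _ g
    · intro a
      rfl
    · intro γ
      change (γ : G) = g * (g⁻¹ * (γ : G) * g) * g⁻¹
      group

/-- **The assembly map** on the `K₁`-part. -/
noncomputable def assembly1 : HnK1 R G n →+ KQ (MonoidAlgebra R G) (n + 1) :=
  QuotientAddGroup.lift (SymRel1 R G n) (FreeAbelianGroup.lift (symVal1 R n)) (symRel1_le R n G)

/-- **The assembly map** on the sum of the `K₀`-part and the `K₁`-part. -/
noncomputable def assembly01 :
    HnK0 R G (n + 1) × HnK1 R G n →+ KQ (MonoidAlgebra R G) (n + 1) :=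
  (assemblyN R (n + 1) G).coprod (assembly1 R n G)

end

section Sym

variable {k : Type u} [Ring k] {G : Type v} [Group G] {n : ℕ}

/-- The projection. -/
noncomputable def toH1 (k : Type u) [Ring k] (G : Type v) [Group G] (n : ℕ) :
    FreeAbelianGroup (Sym1 k G n) →+ HnK1 k G n := QuotientAddGroup.mk' (SymRel1 k G n)

/-- The symbol `[F, x, z]`. -/
noncomputable def sy1 (F : FamSub G FinSub) (x : K1 (MonoidAlgebra k F.1))
    (z : HG (Subgroup.centralizer (F.1 : Set G)) n) : HnK1 k G n :=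
  QuotientAddGroup.mk (FreeAbelianGroup.of ⟨F, x, z⟩)

theorem toH1_eq_zero {w : FreeAbelianGroup (Sym1 k G n)} (h : w ∈ SymRel1 k G n) :
    toH1 k G n w = 0 := (QuotientAddGroup.eq_zero_iff _).2 h

theorem sy1_add (F : FamSub G FinSub) (x y : K1 (MonoidAlgebra k F.1))
    (z : HG (Subgroup.centralizer (F.1 : Set G)) n) :
    sy1 F (x + y) z = sy1 F x z + sy1 F y z := by
  have h : toH1 k G n (symX1 k G n F x y z) = 0 :=
    toH1_eq_zero (AddSubgroup.subset_closure (Or.inl (Or.inl ⟨F, x, y, z, rfl⟩)))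
  rw [symX1, map_sub, map_add, sub_eq_zero] at h
  exact h

theorem sy1_addz (F : FamSub G FinSub) (x : K1 (MonoidAlgebra k F.1))
    (z z' : HG (Subgroup.centralizer (F.1 : Set G)) n) :
    sy1 F x (z + z') = sy1 F x z + sy1 F x z' := by
  have h : toH1 k G n (symZ1 k G n F x z z') = 0 :=
    toH1_eq_zero (AddSubgroup.subset_closure (Or.inl (Or.inr ⟨F, x, z, z', rfl⟩)))
  rw [symZ1, map_sub, map_add, sub_eq_zero] at h
  exact h

theorem sy1_conj (F F' : FamSub G FinSub) (g : G) (h : ∀ x ∈ F.1, g * x * g⁻¹ ∈ F'.1)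
    (x : K1 (MonoidAlgebra k F.1)) (z : HG (Subgroup.centralizer (F'.1 : Set G)) n) :
    sy1 F' (K1.map (MonoidAlgebra.mapDomainRingHom k (conjHom g F.1 F'.1 h)) x) z =
      sy1 F x (HG.map n (centConj g F.1 F'.1 h) z) := by
  have h' : toH1 k G n (symC1 k G n F F' g h x z) = 0 :=
    toH1_eq_zero (AddSubgroup.subset_closure (Or.inr ⟨F, F', g, h, x, z, rfl⟩))
  rw [symC1, map_sub, sub_eq_zero] at h'
  exact h'

theorem asm1_sy1 (F : FamSub G FinSub) (x : K1 (MonoidAlgebra k F.1))
    (z : HG (Subgroup.centralizer (F.1 : Set G)) n) :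
    assembly1 k n G (sy1 F x z) = gasm1 k n F.1.subtype
      (Subgroup.centralizer (F.1 : Set G)).subtype (cent_comm F.1) x z := by
  have h : FreeAbelianGroup.lift (symVal1 k n) (symOf1 k G n F x z) = symVal1 k n ⟨F, x, z⟩ :=
    FreeAbelianGroup.lift_apply_of _ _
  exact h

/-- the symbol as a biadditive map -/
noncomputable def syB1 (F : FamSub G FinSub) : K1 (MonoidAlgebra k F.1) →+
    HG (Subgroup.centralizer (F.1 : Set G)) n →+ HnK1 k G n :=
  AddMonoidHom.mk' (fun x => AddMonoidHom.mk' (fun z => sy1 F x z) (fun z z' => sy1_addz F x z z'))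
    (by
      intro x y
      ext z
      exact sy1_add F x y z)

theorem syB1_apply (F : FamSub G FinSub) (x : K1 (MonoidAlgebra k F.1))
    (z : HG (Subgroup.centralizer (F.1 : Set G)) n) : syB1 F x z = sy1 F x z := rfl

theorem hnk1_induction {P : HnK1 k G n → Prop} (h0 : P 0)
    (h1 : ∀ (F : FamSub G FinSub) (x : K1 (MonoidAlgebra k F.1))
      (z : HG (Subgroup.centralizer (F.1 : Set G)) n), P (sy1 F x z))
    (h2 : ∀ a b, P a → P b → P (a + b)) (h3 : ∀ a, P a → P (-a)) (w : HnK1 k G n) : P w := by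
  obtain ⟨y, rfl⟩ : ∃ y, toH1 k G n y = w := QuotientAddGroup.mk_surjective w
  induction y using FreeAbelianGroup.induction_on with
  | zero => rw [map_zero]; exact h0
  | of s => exact h1 s.F s.x s.z
  | neg s _ =>
    rw [map_neg]
    exact h3 _ (h1 s.F s.x s.z)
  | add x y hx hy => rw [map_add]; exact h2 _ _ hx hy

/-- homomorphisms out of `HnK1` -/
noncomputable def lift1 {M : Type w} [AddCommGroup M]
    (f : ∀ F : FamSub G FinSub, K1 (MonoidAlgebra k F.1) →+
      HG (Subgroup.centralizer (F.1 : Set G)) n →+ M)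
    (hf : ∀ (F F' : FamSub G FinSub) (g : G) (h : ∀ x ∈ F.1, g * x * g⁻¹ ∈ F'.1)
      (x : K1 (MonoidAlgebra k F.1)) (z : HG (Subgroup.centralizer (F'.1 : Set G)) n),
      f F' (K1.map (MonoidAlgebra.mapDomainRingHom k (conjHom g F.1 F'.1 h)) x) z =
        f F x (HG.map n (centConj g F.1 F'.1 h) z)) : HnK1 k G n →+ M :=
  QuotientAddGroup.lift (SymRel1 k G n) (FreeAbelianGroup.lift fun s : Sym1 k G n => f s.F s.x s.z)
    (by
      rw [SymRel1, AddSubgroup.closure_le]
      rintro w ((⟨F, x, y, z, rfl⟩ | ⟨F, x, z, z', rfl⟩) | ⟨F, F', g, h, x, z, rfl⟩)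
      · change FreeAbelianGroup.lift _ _ = 0
        rw [symX1, symOf1, symOf1, symOf1, map_sub, map_add, FreeAbelianGroup.lift_apply_of,
          FreeAbelianGroup.lift_apply_of, FreeAbelianGroup.lift_apply_of,
          map_add, AddMonoidHom.add_apply, sub_self]
      · change FreeAbelianGroup.lift _ _ = 0
        rw [symZ1, symOf1, symOf1, symOf1, map_sub, map_add, FreeAbelianGroup.lift_apply_of,
          FreeAbelianGroup.lift_apply_of, FreeAbelianGroup.lift_apply_of, map_add, sub_self]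
      · change FreeAbelianGroup.lift _ _ = 0
        rw [symC1, symOf1, symOf1, map_sub, FreeAbelianGroup.lift_apply_of,
          FreeAbelianGroup.lift_apply_of, sub_eq_zero]
        exact hf F F' g h x z)

theorem lift1_sy1 {M : Type w} [AddCommGroup M]
    (f : ∀ F : FamSub G FinSub, K1 (MonoidAlgebra k F.1) →+
      HG (Subgroup.centralizer (F.1 : Set G)) n →+ M)
    (hf : ∀ (F F' : FamSub G FinSub) (g : G) (h : ∀ x ∈ F.1, g * x * g⁻¹ ∈ F'.1)
      (x : K1 (MonoidAlgebra k F.1)) (z : HG (Subgroup.centralizer (F'.1 : Set G)) n),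
      f F' (K1.map (MonoidAlgebra.mapDomainRingHom k (conjHom g F.1 F'.1 h)) x) z =
        f F x (HG.map n (centConj g F.1 F'.1 h) z)) (F : FamSub G FinSub)
    (x : K1 (MonoidAlgebra k F.1)) (z : HG (Subgroup.centralizer (F.1 : Set G)) n) :
    lift1 f hf (sy1 F x z) = f F x z := by
  change FreeAbelianGroup.lift _ _ = _
  rw [FreeAbelianGroup.lift_apply_of]

end Sym

end Pool.Agent.H16.FU

end
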