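import Pool.Agent.H71.TCZ.M25
import Pool.Agent.H71.TCZ.M32
import Pool.Agent.H71.TCZ.M34

/-! The parts of this file: H71.WH.Res, H71.WH.Prim_1, H71.KP.Sys. -/

section

/-!
# Restriction of units to subgroups
-/

set_option autoImplicit false
set_option linter.unusedSectionVars false
set_option linter.unusedSimpArgs false

open Matrix
open scoped Classical

universe u v w

namespace Pool.Agent.H71.WH

section Lam

variable {F : Type v} [Group F]

theorem out_mem_iff (D : Subgroup F) (h : F) (x y : F ⧸ D) :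
    x.out⁻¹ * h * y.out ∈ D ↔ x = h • y := by
  have h1 : h • y = ((h * y.out : F) : F ⧸ D) := by
    conv_lhs => rw [← QuotientGroup.out_eq' y]
    rfl
  rw [h1]
  conv_rhs => rw [← QuotientGroup.out_eq' x]
  rw [QuotientGroup.eq, mul_assoc]

/-- The monomial matrix over `ℤ[D]` of left multiplication by `h` on the free right `ℤ[D]`-module
`ℤ[F]`. -/
noncomputable def resMat (D : Subgroup F) (h : F) :
    Matrix (F ⧸ D) (F ⧸ D) (MonoidAlgebra ℤ D) :=
  Matrix.of fun x y => if hh : x.out⁻¹ * h * y.out ∈ D then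
    MonoidAlgebra.single (⟨x.out⁻¹ * h * y.out, hh⟩ : D) 1 else 0

/-- The restriction homomorphism `ℤ[F] → Mat_{F/D}(ℤ[D])`. -/
noncomputable def resA (D : Subgroup F) [Fintype (F ⧸ D)] :
    MonoidAlgebra ℤ F →ₐ[ℤ] Matrix (F ⧸ D) (F ⧸ D) (MonoidAlgebra ℤ D) :=
  MonoidAlgebra.lift ℤ _ F
    { toFun := resMat D
      map_one' := by
        ext x y : 1
        rw [resMat, of_apply, Matrix.one_apply]
        by_cases hxy : x = y
        · subst hxy
          have : x.out⁻¹ * 1 * x.out ∈ D := by simp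
          rw [dif_pos this, if_pos rfl, MonoidAlgebra.one_def]
          refine congrArg (fun g : D => MonoidAlgebra.single g (1 : ℤ)) (Subtype.ext ?_)
          simp
        · rw [dif_neg, if_neg hxy]
          rw [out_mem_iff, one_smul]
          exact hxy
      map_mul' := by
        intro h h'
        ext x z : 1
        rw [Matrix.mul_apply, Finset.sum_eq_single (h' • z)]
        · simp only [resMat, of_apply]
          have h1 : (h' • z).out⁻¹ * h' * z.out ∈ D := (out_mem_iff D h' _ z).2 rfl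
          rw [dif_pos h1]
          by_cases h2 : x.out⁻¹ * h * (h' • z).out ∈ D
          · have h3 : x.out⁻¹ * (h * h') * z.out ∈ D := by
              have := D.mul_mem h2 h1
              have e : x.out⁻¹ * h * (h' • z).out * ((h' • z).out⁻¹ * h' * z.out) =
                x.out⁻¹ * (h * h') * z.out := by group
              rwa [e] at this
            rw [dif_pos h2, dif_pos h3, MonoidAlgebra.single_mul_single, one_mul]
            refine congrArg (fun g : D => MonoidAlgebra.single g (1 : ℤ)) (Subtype.ext ?_)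
            simp only [Subgroup.coe_mul]
            group
          · have h3 : ¬ x.out⁻¹ * (h * h') * z.out ∈ D := by
              intro h3
              apply h2
              rw [out_mem_iff] at h3 ⊢
              rw [h3, mul_smul]
            rw [dif_neg h2, dif_neg h3, zero_mul]
        · intro y _ hy
          simp only [resMat, of_apply]
          have : ¬ y.out⁻¹ * h' * z.out ∈ D := by
            rw [out_mem_iff]
            exact hy
          rw [dif_neg this, mul_zero]
        · intro h1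
          exact absurd (Finset.mem_univ _) h1 }

theorem resA_single (D : Subgroup F) [Fintype (F ⧸ D)] (h : F) (r : ℤ) (x y : F ⧸ D) :
    resA D (MonoidAlgebra.single h r) x y = if hh : x.out⁻¹ * h * y.out ∈ D then
      MonoidAlgebra.single (⟨x.out⁻¹ * h * y.out, hh⟩ : D) r else 0 := by
  rw [resA, MonoidAlgebra.lift_single]
  change r • (resMat D h) x y = _
  rw [resMat, of_apply]
  split_ifs
  · rw [MonoidAlgebra.smul_single, smul_eq_mul, mul_one]
  · rw [smul_zero]

/-- the restriction as a ring homomorphism -/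
noncomputable def resR (D : Subgroup F) [Fintype (F ⧸ D)] :
    MonoidAlgebra ℤ F →+* Matrix (F ⧸ D) (F ⧸ D) (MonoidAlgebra ℤ D) := (resA D).toRingHom

end Lam

section Comm

variable {H : Type w} [CommGroup H] [Finite H]

theorem tr_resR (E : Subgroup H) [Fintype (H ⧸ E)] (c : E) (x : MonoidAlgebra ℤ H) :
    fn (dlt c) (trace (resR E x)) = (Nat.card (H ⧸ E) : ℤ) * fn (dlt (c : H)) x := by
  induction x using MonoidAlgebra.induction_linear with
  | zero => simp
  | add x y hx hy => rw [map_add, trace_add, map_add, hx, hy, map_add, mul_add]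
  | single h n =>
    rw [fn_single, trace, map_sum]
    have h1 : ∀ q : H ⧸ E, fn (dlt c) ((resR E (MonoidAlgebra.single h n)).diag q) =
        n * dlt (c : H) h := by
      intro q
      change fn (dlt c) (resA E (MonoidAlgebra.single h n) q q) = _
      rw [resA_single]
      have h2 : q.out⁻¹ * h * q.out = h := by
        rw [mul_comm, ← mul_assoc, mul_inv_cancel, one_mul]
      by_cases hh : q.out⁻¹ * h * q.out ∈ E
      · rw [dif_pos hh, fn_single]
        congr 1
        unfold dlt
        congr 1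
        rw [Subtype.ext_iff]
        change (q.out⁻¹ * h * q.out = (c : H)) = (h = (c : H))
        rw [h2]
      · rw [dif_neg hh, map_zero, dlt, if_neg, mul_zero]
        intro h3
        apply hh
        rw [h2, h3]
        exact c.2
    simp only [h1]
    rw [Finset.sum_const, Finset.card_univ, Nat.card_eq_fintype_card, nsmul_eq_mul]

/-- The restriction of units, given by the determinant. -/
noncomputable def resU (E : Subgroup H) [Fintype (H ⧸ E)] :
    (MonoidAlgebra ℤ H)ˣ →* (MonoidAlgebra ℤ E)ˣ :=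
  (Units.map (detMonoidHom : Matrix (H ⧸ E) (H ⧸ E) (MonoidAlgebra ℤ E) →* MonoidAlgebra ℤ E)).comp
    (Units.map (resR E).toMonoidHom)

theorem resU_val (E : Subgroup H) [Fintype (H ⧸ E)] (x : (MonoidAlgebra ℤ H)ˣ) :
    (resU E x : MonoidAlgebra ℤ E) = det (resR E (x : MonoidAlgebra ℤ H)) := rfl

theorem LU_resU (E : Subgroup H) [Fintype (H ⧸ E)] (c : E) (x : (MonoidAlgebra ℤ H)ˣ) :
    LU (dlt c) (resU E x) = (Nat.card (H ⧸ E) : ℚ_[2]) * LU (dlt (c : H)) x := by
  have h1 : ((resU E x ^ N8 H : (MonoidAlgebra ℤ E)ˣ) : MonoidAlgebra ℤ E) =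
      det (resR E ((x ^ N8 H : (MonoidAlgebra ℤ H)ˣ) : MonoidAlgebra ℤ H)) := by
    rw [← map_pow, resU_val]
  have h2 : C8 (resR E ((x ^ N8 H : (MonoidAlgebra ℤ H)ˣ) : MonoidAlgebra ℤ H)) :=
    (C8_pow_N8 x).map _
  have h3 : LU (dlt c) (resU E x) = (N8 H : ℚ_[2])⁻¹ *
      L (fn (dlt c)) ((resU E x ^ N8 H : (MonoidAlgebra ℤ E)ˣ) : MonoidAlgebra ℤ E) :=
    LU_eq (dlt c) (fun a b => by rw [mul_comm]) _ (N8 H) N8_ne_zero (by
      rw [h1]
      exact det_C8 h2)
  rw [h3, h1, LU]
  have h4 := L_det (fn (dlt c)) h2.cong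
  have h5 : L (fn (dlt c)) (det (resR E ((x ^ N8 H : (MonoidAlgebra ℤ H)ˣ) :
      MonoidAlgebra ℤ H))) = (Nat.card (H ⧸ E) : ℚ_[2]) *
      L (fn (dlt (c : H))) ((x ^ N8 H : (MonoidAlgebra ℤ H)ˣ) : MonoidAlgebra ℤ H) := by
    refine h4.trans ?_
    rw [L_map, L, L]
    have h6 := tl_zsmul (fn (dlt (c : H))) (pull (resR E) (ttr (fn (dlt c)) (H ⧸ E)))
      (((x ^ N8 H : (MonoidAlgebra ℤ H)ˣ) : MonoidAlgebra ℤ H) - 1) (Nat.card (H ⧸ E)) (by
        intro r
        rw [pull_apply, ttr_apply]
        exact tr_resR E c r)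
    rw [h6]
    norm_cast
  rw [h5]
  ring

end Comm

end Pool.Agent.H71.WH

end

section

/-!
# Primitive units and the decomposition into primitive classes
-/

set_option autoImplicit false
set_option linter.unusedSectionVars false
set_option linter.unusedSimpArgs false

open Matrix
open scoped Classical

universe u v w

namespace Pool.Agent.H71.WH

section Hom

variable {H : Type w} [CommGroup H] [Finite H]

/-- the product of the restriction and the induction -/
noncomputable def ir (E : Subgroup H) [Fintype (H ⧸ E)] (x : (MonoidAlgebra ℤ H)ˣ) :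
    (MonoidAlgebra ℤ H)ˣ := unitsMap E.subtype (resU E x)

theorem LU_ir (E : Subgroup H) [Fintype (H ⧸ E)] (x : (MonoidAlgebra ℤ H)ˣ) (c : H) :
    LU (dlt c) (ir E x) = if c ∈ E then (Nat.card (H ⧸ E) : ℚ_[2]) * LU (dlt c) x else 0 := by
  have h1 : LU (dlt c) (ir E x) = LU (fun e : E => dlt c (e : H)) (resU E x) :=
    LU_map E.subtype (dlt c) (fun a b => by rw [mul_comm]) (resU E x)
  rw [h1]
  split_ifs with hc
  · have h2 : (fun e : E => dlt c (e : H)) = dlt (⟨c, hc⟩ : E) := by
      funext e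
      unfold dlt
      congr 1
      rw [Subtype.ext_iff]
    rw [h2, LU_resU]
  · apply LU_zero_fun
    intro e
    rw [dlt, if_neg]
    intro h
    exact hc (h ▸ e.2)

end Hom

theorem exists_prim (D : Type w) [CommGroup D] [Fintype D] :
    ∃ κ : Subgroup D → ℤ, ∀ x : (MonoidAlgebra ℤ D)ˣ,
      IsPrim (x ^ (Nat.card D : ℤ) *
        ∏ E ∈ (Finset.univ : Finset (Subgroup D)).erase ⊤, ir E x ^ (κ E * (Nat.card E : ℤ))) := by
  obtain ⟨κ, hκ⟩ := exists_nu ((Finset.univ : Finset (Subgroup D)).erase ⊤) (fun _ => -1)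
  refine ⟨κ, fun x c hc => ?_⟩
  have h0 := hκ (Subgroup.zpowers c) (Finset.mem_erase.2 ⟨hc, Finset.mem_univ _⟩)
  simp only [Subgroup.zpowers_le] at h0
  rw [LU_mul mul_comm, LU_prod, LU_zpow]
  simp only [LU_zpow, LU_ir]
  have h1 : ∀ E : Subgroup D, ((κ E * (Nat.card E : ℤ) : ℤ) : ℚ_[2]) *
      (if c ∈ E then (Nat.card (D ⧸ E) : ℚ_[2]) * LU (dlt c) x else 0) =
      ((if c ∈ E then κ E else 0 : ℤ) : ℚ_[2]) * ((Nat.card D : ℚ_[2]) * LU (dlt c) x) := by
    intro E
    split_ifs
    · have h2 : (Nat.card D : ℚ_[2]) = (Nat.card (D ⧸ E) : ℚ_[2]) * (Nat.card E : ℚ_[2]) := by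
        rw [← Nat.cast_mul, ← Subgroup.card_eq_card_quotient_mul_card_subgroup]
      rw [h2]
      push_cast
      ring
    · push_cast
      ring
  rw [Finset.sum_congr rfl (fun E _ => h1 E), ← Finset.sum_mul, ← Int.cast_sum,
    ← Finset.sum_filter, h0]
  push_cast
  ring

end Pool.Agent.H71.WH

end

section

/-!
# Systems of logarithms and the decomposition into primitive classes
-/

set_option autoImplicit false
set_option linter.unusedSectionVars false
set_option linter.unusedSimpArgs false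

open Matrix
open scoped Classical

universe u v w t

namespace Pool.Agent.H71.KP

open Pool.Agent.H71.WH (exists_nu Sat Sat_of_smul mem_Sat CycSub conjHom)

/-- A system of logarithms for the units of the group rings of finite cyclic groups of good
order. -/
structure LogSys (R : Type u) [CommRing R] (A : Type w) [AddCommGroup A] where
  /-- the good orders -/
  good : ℕ → Prop
  good_dvd : ∀ {m n : ℕ}, m ∣ n → good n → good m
  /-- the coefficient at an element of the logarithm of a unit -/
  ell : ∀ (H : Type v) [Group H] [Finite H] [IsCyclic H], H → (MonoidAlgebra R H)ˣ → A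
  ell_mul : ∀ (H : Type v) [Group H] [Finite H] [IsCyclic H] (c : H) (x y : (MonoidAlgebra R H)ˣ),
    good (Nat.card H) → ell H c (x * y) = ell H c x + ell H c y
  ell_map : ∀ (H H' : Type v) [Group H] [Finite H] [IsCyclic H] [Group H'] [Finite H']
    [IsCyclic H'] (φ : H →* H') (_ : Function.Injective φ) (c : H) (x : (MonoidAlgebra R H)ˣ),
    good (Nat.card H') → ell H' (φ c) (unitsMap φ x) = ell H c x
  ell_map_zero : ∀ (H H' : Type v) [Group H] [Finite H] [IsCyclic H] [Group H'] [Finite H']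
    [IsCyclic H'] (φ : H →* H') (_ : Function.Injective φ) (c' : H') (_ : ∀ c, φ c ≠ c')
    (x : (MonoidAlgebra R H)ˣ), good (Nat.card H') → ell H' c' (unitsMap φ x) = 0
  ell_res : ∀ (H : Type v) [CommGroup H] [Finite H] [IsCyclic H] (E : Subgroup H)
    [Fintype (H ⧸ E)] (c : E) (x : (MonoidAlgebra R H)ˣ), good (Nat.card H) →
    ell E c (resU E x) = (Nat.card (H ⧸ E) : ℤ) • ell H (c : H) x
  detect : ∀ (H : Type v) [Group H] [Finite H] [IsCyclic H] (x : (MonoidAlgebra R H)ˣ),
    good (Nat.card H) → (∀ c, ell H c x = 0) → ∃ m : ℕ, m ≠ 0 ∧ x ^ m = 1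

theorem unitsMap_comp {R : Type t} [CommRing R] {A : Type u} {B : Type v} {C : Type w} [Group A]
    [Group B] [Group C] (φ : A →* B) (ψ : B →* C) (x : (MonoidAlgebra R A)ˣ) :
    unitsMap ψ (unitsMap φ x) = unitsMap (ψ.comp φ) x := by
  have h : ((MonoidAlgebra.mapDomainRingHom R ψ).comp (MonoidAlgebra.mapDomainRingHom R φ))
      (x : MonoidAlgebra R A) = MonoidAlgebra.mapDomainRingHom R (ψ.comp φ)
      (x : MonoidAlgebra R A) := by
    rw [MonoidAlgebra.mapDomainRingHom_comp]
  exact Units.ext h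

namespace LogSys

variable {R : Type u} [CommRing R] {A : Type w} [AddCommGroup A] (S : LogSys.{u, v, w} R A)

section H

variable {H : Type v} [Group H] [Finite H] [IsCyclic H]

/-- the logarithm as a homomorphism -/
noncomputable def ellM (c : H) (hg : S.good (Nat.card H)) :
    (MonoidAlgebra R H)ˣ →* Multiplicative A :=
  MonoidHom.mk' (fun x => Multiplicative.ofAdd (S.ell H c x)) (fun x y => S.ell_mul H c x y hg)

theorem ell_one (c : H) (hg : S.good (Nat.card H)) : S.ell H c 1 = 0 := map_one (S.ellM c hg)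

theorem ell_inv (c : H) (hg : S.good (Nat.card H)) (x : (MonoidAlgebra R H)ˣ) :
    S.ell H c x⁻¹ = -S.ell H c x := map_inv (S.ellM c hg) x

theorem ell_zpow (c : H) (hg : S.good (Nat.card H)) (x : (MonoidAlgebra R H)ˣ) (n : ℤ) :
    S.ell H c (x ^ n) = n • S.ell H c x := map_zpow (S.ellM c hg) x n

theorem ell_list (c : H) (hg : S.good (Nat.card H)) (l : List (MonoidAlgebra R H)ˣ) :
    S.ell H c l.prod = (l.map (S.ell H c)).sum := by
  induction l with
  | nil => exact S.ell_one c hg
  | cons a l ih => rw [List.prod_cons, S.ell_mul H c _ _ hg, ih, List.map_cons, List.sum_cons]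

end H

section C

variable {H : Type v} [CommGroup H] [Finite H] [IsCyclic H]

theorem ell_prod (c : H) (hg : S.good (Nat.card H)) {ι : Type*} (s : Finset ι)
    (x : ι → (MonoidAlgebra R H)ˣ) :
    S.ell H c (∏ i ∈ s, x i) = ∑ i ∈ s, S.ell H c (x i) := by
  induction s using Finset.induction_on with
  | empty =>
    rw [Finset.prod_empty, Finset.sum_empty]
    exact S.ell_one c hg
  | insert a s ha ih =>
    rw [Finset.prod_insert ha, Finset.sum_insert ha, S.ell_mul H c _ _ hg, ih]

theorem ell_ir (E : Subgroup H) [Fintype (H ⧸ E)] (x : (MonoidAlgebra R H)ˣ) (c : H)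
    (hg : S.good (Nat.card H)) :
    S.ell H c (ir E x) = if c ∈ E then (Nat.card (H ⧸ E) : ℤ) • S.ell H c x else 0 := by
  split_ifs with hc
  · have h1 := S.ell_map E H E.subtype E.subtype_injective ⟨c, hc⟩ (resU E x) hg
    exact h1.trans (S.ell_res H E ⟨c, hc⟩ x hg)
  · exact S.ell_map_zero E H E.subtype E.subtype_injective c
      (fun e he => hc (he ▸ e.2)) (resU E x) hg

end C

/-- Units whose logarithm is supported at the generators of the cyclic group. -/
def IsPrim {D : Type v} [Group D] [Finite D] [IsCyclic D] (y : (MonoidAlgebra R D)ˣ) : Prop :=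
  ∀ c : D, Subgroup.zpowers c ≠ ⊤ → S.ell D c y = 0

theorem exists_prim (D : Type v) [CommGroup D] [Fintype D] [IsCyclic D]
    (hg : S.good (Nat.card D)) :
    ∃ κ : Subgroup D → ℤ, ∀ x : (MonoidAlgebra R D)ˣ,
      S.IsPrim (x ^ (Nat.card D : ℤ) *
        ∏ E ∈ (Finset.univ : Finset (Subgroup D)).erase ⊤, ir E x ^ (κ E * (Nat.card E : ℤ))) := by
  obtain ⟨κ, hκ⟩ := exists_nu ((Finset.univ : Finset (Subgroup D)).erase ⊤) (fun _ => -1)
  refine ⟨κ, fun x c hc => ?_⟩
  have h0 := hκ (Subgroup.zpowers c) (Finset.mem_erase.2 ⟨hc, Finset.mem_univ _⟩)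
  simp only [Subgroup.zpowers_le] at h0
  rw [S.ell_mul D c _ _ hg, S.ell_prod c hg, S.ell_zpow c hg]
  have h1 : ∀ E : Subgroup D, S.ell D c (ir E x ^ (κ E * (Nat.card E : ℤ))) =
      (if c ∈ E then κ E else 0 : ℤ) • ((Nat.card D : ℤ) • S.ell D c x) := by
    intro E
    rw [S.ell_zpow c hg, S.ell_ir E x c hg]
    split_ifs
    · have h2 : (Nat.card D : ℤ) = (Nat.card (D ⧸ E) : ℤ) * (Nat.card E : ℤ) := by
        rw [← Nat.cast_mul, ← Subgroup.card_eq_card_quotient_mul_card_subgroup]
      rw [h2, smul_smul, smul_smul]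
      congr 1
      ring
    · rw [smul_zero, zero_smul]
  rw [Finset.sum_congr rfl (fun E _ => h1 E), ← Finset.sum_smul, ← Finset.sum_filter, h0,
    neg_one_smul, add_neg_cancel]

end LogSys

section Clh

variable {R : Type u} [CommRing R] {G : Type v} [Group G]

/-- the range of a homomorphism from a finite cyclic group -/
def rangeSub {H : Type w} [Group H] [Finite H] [IsCyclic H] (ι : H →* G) : CycSub G :=
  ⟨ι.range, Set.finite_range ι, isCyclic_of_surjective ι.rangeRestrict ι.rangeRestrict_surjective⟩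

/-- `ι` as a homomorphism onto its range -/
def toRange {H : Type w} [Group H] [Finite H] [IsCyclic H] (ι : H →* G) : H →* (rangeSub ι).1 :=
  ι.rangeRestrict

/-- The class of a unit of `R[H]` for a homomorphism from a finite cyclic group `H` to `G`. -/
noncomputable def clh {H : Type w} [Group H] [Finite H] [IsCyclic H] (ι : H →* G)
    (x : (MonoidAlgebra R H)ˣ) : ColimU R G := cl (rangeSub ι) (unitsMap (toRange ι) x)

/-- `clh` as a homomorphism -/
noncomputable def clhM {H : Type w} [Group H] [Finite H] [IsCyclic H] (ι : H →* G) :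
    (MonoidAlgebra R H)ˣ →* Multiplicative (ColimU R G) :=
  (clM (rangeSub ι)).comp (unitsMap (toRange ι))

theorem clh_mul {H : Type w} [Group H] [Finite H] [IsCyclic H] (ι : H →* G)
    (x y : (MonoidAlgebra R H)ˣ) : clh ι (x * y) = clh ι x + clh ι y := map_mul (clhM ι) x y

theorem clh_zpow {H : Type w} [Group H] [Finite H] [IsCyclic H] (ι : H →* G)
    (x : (MonoidAlgebra R H)ˣ) (n : ℤ) : clh ι (x ^ n) = n • clh ι x := map_zpow (clhM ι) x n

theorem clh_prod {H : Type w} [CommGroup H] [Finite H] [IsCyclic H] (ι : H →* G)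
    {κ : Type*} (s : Finset κ) (x : κ → (MonoidAlgebra R H)ˣ) :
    clh ι (∏ i ∈ s, x i) = ∑ i ∈ s, clh ι (x i) := by
  induction s using Finset.induction_on with
  | empty =>
    rw [Finset.prod_empty, Finset.sum_empty]
    exact map_one (clhM ι)
  | insert a s ha ih => rw [Finset.prod_insert ha, Finset.sum_insert ha, clh_mul, ih]

theorem clh_map {H : Type w} {H' : Type t} [Group H] [Finite H] [IsCyclic H] [Group H']
    [Finite H'] [IsCyclic H'] (ι : H →* G) (ι' : H' →* G) (φ : H →* H')
    (h : ∀ a, ι' (φ a) = ι a) (x : (MonoidAlgebra R H)ˣ) :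
    clh ι' (unitsMap φ x) = clh ι x := by
  have hr : ∀ y ∈ (rangeSub ι).1, (1 : G) * y * 1⁻¹ ∈ (rangeSub ι').1 := by
    rintro y ⟨a, rfl⟩
    refine ⟨φ a, ?_⟩
    rw [h, one_mul, inv_one, mul_one]
  have h1 := cl_conj (rangeSub ι) (rangeSub ι') 1 hr (unitsMap (toRange ι) x)
  refine Eq.trans ?_ h1
  have h2 : (toRange ι').comp φ =
      (conjHom 1 (rangeSub ι).1 (rangeSub ι').1 hr).comp (toRange ι) := by
    apply MonoidHom.ext
    intro a
    apply Subtype.ext
    change ι' (φ a) = 1 * ι a * 1⁻¹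
    rw [h, one_mul, inv_one, mul_one]
  rw [clh, unitsMap_comp, unitsMap_comp, h2]

theorem clh_subtype (C : CycSub G) [Finite C.1] [IsCyclic C.1] (x : (MonoidAlgebra R C.1)ˣ) :
    clh C.1.subtype x = cl C x := by
  have hr : ∀ y ∈ C.1, (1 : G) * y * 1⁻¹ ∈ (rangeSub C.1.subtype).1 := by
    intro y hy
    refine ⟨⟨y, hy⟩, ?_⟩
    rw [one_mul, inv_one, mul_one]
    rfl
  have h2 : toRange C.1.subtype = conjHom 1 C.1 (rangeSub C.1.subtype).1 hr := by
    apply MonoidHom.ext
    intro a
    apply Subtype.ext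
    change (a : G) = 1 * (a : G) * 1⁻¹
    rw [one_mul, inv_one, mul_one]
  have h3 := cl_conj C (rangeSub C.1.subtype) 1 hr x
  rw [← h2] at h3
  exact h3

end Clh

namespace LogSys

variable {R : Type u} [CommRing R] {A : Type w} [AddCommGroup A] (S : LogSys.{u, v, w} R A)
  {G : Type v} [Group G]

theorem isPrim_map {D D' : Type v} [Group D] [Finite D] [IsCyclic D] [Group D'] [Finite D']
    [IsCyclic D'] (φ : D ≃* D') (hg : S.good (Nat.card D')) {y : (MonoidAlgebra R D)ˣ}
    (hy : S.IsPrim y) : S.IsPrim (unitsMap φ.toMonoidHom y) := by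
  intro c hc
  have h1 := S.ell_map D D' φ.toMonoidHom φ.injective (φ.symm c) y hg
  have h0 : φ.toMonoidHom (φ.symm c) = c := φ.apply_symm_apply c
  rw [h0] at h1
  rw [h1]
  apply hy
  intro htop
  apply hc
  rw [eq_top_iff]
  intro d _
  have h2 : φ.symm d ∈ Subgroup.zpowers (φ.symm c) := by rw [htop]; trivial
  obtain ⟨m, hm⟩ := Subgroup.mem_zpowers_iff.1 h2
  refine Subgroup.mem_zpowers_iff.2 ⟨m, ?_⟩
  apply φ.symm.injective
  rw [map_zpow, hm]

/-- The classes in the colimit represented by primitive units. -/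
def PrimSet (G : Type v) [Group G] : Set (ColimU R G) :=
  {z | ∃ (D : CycSub G) (_ : Finite D.1) (_ : IsCyclic D.1) (y : (MonoidAlgebra R D.1)ˣ),
    S.good (Nat.card D.1) ∧ S.IsPrim y ∧ z = cl D y}

theorem clh_prim {H : Type v} [Group H] [Finite H] [IsCyclic H] (ι : H →* G)
    (hι : Function.Injective ι) (hg : S.good (Nat.card H)) (y : (MonoidAlgebra R H)ˣ)
    (hy : S.IsPrim y) : clh ι y ∈ S.PrimSet G := by
  let e : H ≃* (rangeSub ι).1 := MonoidHom.ofInjective hι
  have he : e.toMonoidHom = toRange ι := rfl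
  have i1 := (rangeSub ι).2.1
  have i2 := (rangeSub ι).2.2
  have hc : Nat.card (rangeSub ι).1 = Nat.card H := (Nat.card_congr e.toEquiv).symm
  refine ⟨rangeSub ι, i1, i2, unitsMap (toRange ι) y, by rwa [hc], ?_, rfl⟩
  rw [← he]
  exact S.isPrim_map e (by rwa [hc]) hy

theorem prim_decomp (N : ℕ) : ∀ (H : Type v) [CommGroup H] [Finite H] [IsCyclic H],
    Nat.card H = N → S.good (Nat.card H) → ∀ ι : H →* G, Function.Injective ι →
    ∀ x : (MonoidAlgebra R H)ˣ, clh ι x ∈ Sat (AddSubgroup.closure (S.PrimSet G)) := by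
  induction N using Nat.strong_induction_on with
  | _ N ih =>
    intro H _ _ _ hN hg ι hι x
    have : Fintype H := Fintype.ofFinite H
    obtain ⟨κ, hκ⟩ := S.exists_prim H hg
    have h1 := S.clh_prim ι hι hg _ (hκ x)
    have h2 : ∀ E ∈ (Finset.univ : Finset (Subgroup H)).erase ⊤,
        clh ι (ir E x) ∈ Sat (AddSubgroup.closure (S.PrimSet G)) := by
      intro E hE
      have hE' : E ≠ ⊤ := (Finset.mem_erase.1 hE).1
      rw [ir, clh_map (ι.comp E.subtype) ι E.subtype (fun a => rfl)]
      refine ih (Nat.card E) ?_ E rfl (S.good_dvd (Subgroup.card_subgroup_dvd_card E) hg) _ ?_ _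
      · rw [← hN]
        refine lt_of_le_of_ne (Nat.le_of_dvd Nat.card_pos (Subgroup.card_subgroup_dvd_card E)) ?_
        intro h
        exact hE' (Subgroup.eq_top_of_card_eq E h)
      · exact hι.comp E.subtype_injective
    have hc : ((Nat.card H : ℕ) : ℤ) ≠ 0 := by exact_mod_cast Nat.card_pos.ne'
    refine Sat_of_smul hc ?_
    have h3 : (Nat.card H : ℤ) • clh ι x = clh ι (x ^ (Nat.card H : ℤ) *
        ∏ E ∈ (Finset.univ : Finset (Subgroup H)).erase ⊤, ir E x ^ (κ E * (Nat.card E : ℤ))) -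
        ∑ E ∈ (Finset.univ : Finset (Subgroup H)).erase ⊤,
          (κ E * (Nat.card E : ℤ)) • clh ι (ir E x) := by
      rw [clh_mul, clh_prod, clh_zpow]
      simp only [clh_zpow]
      abel
    rw [h3]
    refine AddSubgroup.sub_mem _ (mem_Sat (AddSubgroup.subset_closure h1)) ?_
    exact AddSubgroup.sum_mem _ fun E hE => AddSubgroup.zsmul_mem _ (h2 E hE) _

/-- Every class has a nonzero multiple which is a sum of primitive classes. -/
theorem mem_sat (C : CycSub G) (hg : S.good (Nat.card C.1)) (x : (MonoidAlgebra R C.1)ˣ) :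
    cl C x ∈ Sat (AddSubgroup.closure (S.PrimSet G)) := by
  have := C.2.1
  have := C.2.2
  let e : ULift.{v} (Multiplicative (ZMod (Nat.card C.1))) ≃* C.1 :=
    MulEquiv.ulift.trans (zmodCyclicMulEquiv C.2.2)
  have hfin : Finite (ULift.{v} (Multiplicative (ZMod (Nat.card C.1)))) :=
    Finite.of_equiv _ e.toEquiv.symm
  have hcyc : IsCyclic (ULift.{v} (Multiplicative (ZMod (Nat.card C.1)))) :=
    isCyclic_of_surjective e.symm e.symm.surjective
  rw [← clh_subtype, ← clh_map C.1.subtype (C.1.subtype.comp e.toMonoidHom) e.symm.toMonoidHom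
    (by
      intro a
      change C.1.subtype (e (e.symm a)) = _
      rw [e.apply_symm_apply])]
  refine S.prim_decomp _ _ rfl ?_ _ (C.1.subtype_injective.comp e.injective) _
  rw [Nat.card_congr e.toEquiv]
  exact hg

end LogSys

end Pool.Agent.H71.KP

end
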