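import Pool.Agent.H71.TCZ.H71.FQ.Sy
import Pool.Agent.H71.TCZ.M26
import Pool.Agent.H71.TCZ.M35

/-! The parts of this file: H71.KP.Sys2, H16.FU.Coef, H71.FQ.Fun. -/

section

/-!
# Sums of primitive classes with vanishing logarithms are torsion
-/

set_option autoImplicit false
set_option linter.unusedSectionVars false
set_option linter.unusedSimpArgs false

open Matrix
open scoped Classical

universe u v w t

namespace Pool.Agent.H71.KP

open Pool.Agent.H71.WH (exists_nu Sat Sat_of_smul mem_Sat CycSub conjHom mulAut_finite IsInd zpowers_aut sum_ind)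

namespace LogSys

variable {R : Type u} [CommRing R] {A : Type w} [AddCommGroup A] (S : LogSys.{u, v, w} R A)
  {G : Type v} [Group G]

section D

variable {D : Type v} [Group D] [Finite D] [IsCyclic D] (hg : S.good (Nat.card D))

theorem isPrim_one (hg : S.good (Nat.card D)) : S.IsPrim (1 : (MonoidAlgebra R D)ˣ) :=
  fun c _ => S.ell_one c hg

theorem isPrim_mul (hg : S.good (Nat.card D)) {x y : (MonoidAlgebra R D)ˣ}
    (hx : S.IsPrim x) (hy : S.IsPrim y) : S.IsPrim (x * y) := by
  intro c hc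
  rw [S.ell_mul D c x y hg, hx c hc, hy c hc, add_zero]

theorem isPrim_inv (hg : S.good (Nat.card D)) {x : (MonoidAlgebra R D)ˣ}
    (hx : S.IsPrim x) : S.IsPrim x⁻¹ := by
  intro c hc
  rw [S.ell_inv c hg, hx c hc, neg_zero]

theorem ell_aut (hg : S.good (Nat.card D)) (w : MulAut D) (c : D) (y : (MonoidAlgebra R D)ˣ) :
    S.ell D c (unitsMap w.toMonoidHom y) = S.ell D (w.symm c) y := by
  have h1 := S.ell_map D D w.toMonoidHom w.injective (w.symm c) y hg
  have h0 : w.toMonoidHom (w.symm c) = c := w.apply_symm_apply c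
  rwa [h0] at h1

end D

theorem primSet_neg {z : ColimU R G} (hz : z ∈ S.PrimSet G) : -z ∈ S.PrimSet G := by
  obtain ⟨D, i1, i2, y, hg, hy, rfl⟩ := hz
  exact ⟨D, i1, i2, y⁻¹, hg, S.isPrim_inv hg hy, (cl_inv D y).symm⟩

/-- The coefficient at the conjugacy class of `c`. -/
noncomputable def val (c : G) (D : Subgroup G) [Finite D] [IsCyclic D]
    (y : (MonoidAlgebra R D)ˣ) : A :=
  letI := Fintype.ofFinite D
  ∑ d ∈ Finset.univ.filter (fun d : D => IsConj c (d : G)), S.ell D d y

/-- A class from a cyclic subgroup `D₀`. -/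
def Over (D₀ : CycSub G) (z : ColimU R G) : Prop :=
  ∃ (_ : Finite D₀.1) (_ : IsCyclic D₀.1) (y : (MonoidAlgebra R D₀.1)ˣ),
    S.IsPrim y ∧ z = cl D₀ y

theorem over_of_conj (D₀ D : CycSub G) [Finite D₀.1] [IsCyclic D₀.1] [Finite D.1] [IsCyclic D.1]
    (hg : S.good (Nat.card D₀.1)) (c : D₀.1) (d : D.1)
    (hc : Subgroup.zpowers c = ⊤) (hd : Subgroup.zpowers d = ⊤) (h : IsConj (c : G) (d : G))
    (y : (MonoidAlgebra R D.1)ˣ) (hy : S.IsPrim y) : S.Over D₀ (cl D y) := by
  obtain ⟨g, hg'⟩ := isConj_iff.1 h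
  have hg'' : g⁻¹ * (d : G) * g⁻¹⁻¹ = c := by rw [← hg']; group
  have h1 : ∀ x ∈ D₀.1, g * x * g⁻¹ ∈ D.1 := by
    intro x hx
    have : (⟨x, hx⟩ : D₀.1) ∈ Subgroup.zpowers c := by rw [hc]; trivial
    obtain ⟨m, hm⟩ := Subgroup.mem_zpowers_iff.1 this
    have hm' : (c : G) ^ m = x := by
      rw [← Subgroup.coe_zpow, hm]
    rw [← hm', ← conj_zpow, hg']
    exact D.1.zpow_mem d.2 m
  have h2 : ∀ x ∈ D.1, g⁻¹ * x * g⁻¹⁻¹ ∈ D₀.1 := by
    intro x hx
    have : (⟨x, hx⟩ : D.1) ∈ Subgroup.zpowers d := by rw [hd]; trivial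
    obtain ⟨m, hm⟩ := Subgroup.mem_zpowers_iff.1 this
    have hm' : (d : G) ^ m = x := by
      rw [← Subgroup.coe_zpow, hm]
    rw [← hm', ← conj_zpow, hg'']
    exact D₀.1.zpow_mem c.2 m
  let e : D.1 ≃* D₀.1 :=
    { toFun := conjHom g⁻¹ D.1 D₀.1 h2
      invFun := conjHom g D₀.1 D.1 h1
      left_inv := by
        intro x
        apply Subtype.ext
        change g * (g⁻¹ * (x : G) * g⁻¹⁻¹) * g⁻¹ = x
        group
      right_inv := by
        intro x
        apply Subtype.ext
        change g⁻¹ * (g * (x : G) * g⁻¹) * g⁻¹⁻¹ = x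
        group
      map_mul' := map_mul _ }
  refine ⟨inferInstance, inferInstance, unitsMap e.toMonoidHom y, S.isPrim_map e hg hy, ?_⟩
  exact (cl_conj D D₀ g⁻¹ h2 y).symm

theorem val_not_over (D₀ D : CycSub G) [Finite D₀.1] [IsCyclic D₀.1] [Finite D.1] [IsCyclic D.1]
    (hg : S.good (Nat.card D₀.1)) (c : D₀.1) (hc : Subgroup.zpowers c = ⊤)
    (y : (MonoidAlgebra R D.1)ˣ) (hy : S.IsPrim y) (h : ¬ S.Over D₀ (cl D y)) :
    S.val (c : G) D.1 y = 0 := by
  rw [val]
  apply Finset.sum_eq_zero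
  intro d hd
  apply hy
  intro hd'
  exact h (S.over_of_conj D₀ D hg c d hc hd' (Finset.mem_filter.1 hd).2 y hy)

theorem split_list (D₀ : CycSub G) [Finite D₀.1] [IsCyclic D₀.1] (hg : S.good (Nat.card D₀.1))
    (l : List (ColimU R G)) (hl : ∀ z ∈ l, z ∈ S.PrimSet G) :
    ∃ y : (MonoidAlgebra R D₀.1)ˣ, S.IsPrim y ∧ ∃ l' : List (ColimU R G),
      (∀ z ∈ l', z ∈ S.PrimSet G ∧ ¬ S.Over D₀ z) ∧ l'.length ≤ l.length ∧
        l.sum = cl D₀ y + l'.sum := by
  induction l with
  | nil => exact ⟨1, S.isPrim_one hg, [], by simp, le_rfl, by rw [cl_one]; simp⟩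
  | cons z l ih =>
    obtain ⟨y, hy, l', h1, h2, h3⟩ := ih (fun z hz => hl z (List.mem_cons_of_mem _ hz))
    by_cases hz : S.Over D₀ z
    · obtain ⟨_, _, y', hy', rfl⟩ := hz
      refine ⟨y' * y, S.isPrim_mul hg hy' hy, l', h1, h2.trans (by simp), ?_⟩
      rw [List.sum_cons, h3, cl_mul, add_assoc]
    · refine ⟨y, hy, z :: l', ?_, by simpa using h2, ?_⟩
      · intro z' hz'
        rcases List.mem_cons.1 hz' with rfl | hz'
        · exact ⟨hl _ List.mem_cons_self, hz⟩
        · exact h1 _ hz'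
      · rw [List.sum_cons, List.sum_cons, h3]
        abel

/-- If the coefficients at the conjugacy classes of the generators vanish on a primitive class of a
cyclic subgroup, then its class in the colimit is torsion. -/
theorem torsion_of_vanish (D₀ : CycSub G) [Finite D₀.1] [IsCyclic D₀.1]
    (hg : S.good (Nat.card D₀.1)) (y : (MonoidAlgebra R D₀.1)ˣ) (hy : S.IsPrim y)
    (h : ∀ c : D₀.1, Subgroup.zpowers c = ⊤ → S.val (c : G) D₀.1 y = 0) :
    ∃ m : ℤ, m ≠ 0 ∧ m • cl D₀ y = 0 := by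
  have : Fintype D₀.1 := Fintype.ofFinite D₀.1
  have := mulAut_finite D₀.1
  have : Fintype (MulAut D₀.1) := Fintype.ofFinite _
  let W := Finset.univ.filter (fun w : MulAut D₀.1 => IsInd D₀.1 w)
  let F : MulAut D₀.1 → (MonoidAlgebra R D₀.1)ˣ := fun w => unitsMap w.toMonoidHom y
  obtain ⟨m, hm, h0⟩ := S.detect D₀.1 (W.toList.map F).prod hg (by
    intro c
    rw [S.ell_list c hg, List.map_map, Finset.sum_map_toList]
    have e1 : ∀ w : MulAut D₀.1, (S.ell D₀.1 c ∘ F) w = S.ell D₀.1 (w.symm c) y :=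
      fun w => S.ell_aut hg w c y
    rw [Finset.sum_congr rfl (fun w _ => e1 w)]
    by_cases hc : Subgroup.zpowers c = ⊤
    · have e2 := h c hc
      rw [LogSys.val] at e2
      rw [← e2]
      refine (sum_ind D₀.1 c hc (fun d => S.ell D₀.1 d y)).trans ?_
      exact Finset.sum_congr (by ext; simp) (fun _ _ => rfl)
    · apply Finset.sum_eq_zero
      intro w _
      exact hy _ (zpowers_aut w.symm c hc))
  have h1 : ∀ w ∈ W, (cl D₀ ∘ F) w = cl D₀ y := by
    intro w hw
    obtain ⟨g, hg⟩ := (Finset.mem_filter.1 hw).2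
    have hr : ∀ x ∈ D₀.1, g * x * g⁻¹ ∈ D₀.1 := by
      intro x hx
      rw [← hg ⟨x, hx⟩]
      exact (w ⟨x, hx⟩).2
    have e1 : w.toMonoidHom = conjHom g D₀.1 D₀.1 hr := by
      apply MonoidHom.ext
      intro a
      exact Subtype.ext (hg a)
    change cl D₀ (unitsMap w.toMonoidHom y) = cl D₀ y
    rw [e1]
    exact cl_conj D₀ D₀ g hr y
  have h2 : m • (W.card • cl D₀ y) = 0 := by
    have e1 := congrArg (cl D₀) h0
    rw [cl_pow, cl_one, cl_list, List.map_map, Finset.sum_map_toList,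
      Finset.sum_congr rfl h1, Finset.sum_const] at e1
    exact e1
  refine ⟨(m * W.card : ℕ), ?_, ?_⟩
  · have : (1 : MulAut D₀.1) ∈ W := by
      rw [Finset.mem_filter]
      exact ⟨Finset.mem_univ _, 1, fun d => by simp⟩
    have h3 := (Finset.card_pos.2 ⟨_, this⟩).ne'
    have h4 : m * W.card ≠ 0 := Nat.mul_ne_zero hm h3
    exact_mod_cast h4
  · rw [natCast_zsmul, mul_smul, h2]

section V

variable (V : G → ColimU R G →+ A) (hV : ∀ (c : G) (D : CycSub G) (_ : Finite D.1)
  (_ : IsCyclic D.1) (y : (MonoidAlgebra R D.1)ˣ), S.good (Nat.card D.1) →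
  V c (cl D y) = S.val c D.1 y)

theorem val_congr (D : Subgroup G) [Finite D] [IsCyclic D] {c c' : G} (h : IsConj c c')
    (y : (MonoidAlgebra R D)ˣ) : S.val c D y = S.val c' D y := by
  rw [LogSys.val, LogSys.val]
  refine Finset.sum_congr ?_ (fun _ _ => rfl)
  ext d
  rw [Finset.mem_filter, Finset.mem_filter]
  exact ⟨fun h1 => ⟨h1.1, h.symm.trans h1.2⟩, fun h1 => ⟨h1.1, h.trans h1.2⟩⟩

theorem val_eq_zero (D : Subgroup G) [Finite D] [IsCyclic D] (y : (MonoidAlgebra R D)ˣ)
    (hy : S.IsPrim y) (h : ∀ c : D, Subgroup.zpowers c = ⊤ → S.val (c : G) D y = 0) (c : G) :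
    S.val c D y = 0 := by
  by_cases hc : ∃ d : D, Subgroup.zpowers d = ⊤ ∧ IsConj c (d : G)
  · obtain ⟨d, hd, h1⟩ := hc
    rw [S.val_congr D h1, h d hd]
  · push Not at hc
    rw [LogSys.val]
    apply Finset.sum_eq_zero
    intro d hd
    exact hy d fun hd' => hc d hd' (Finset.mem_filter.1 hd).2

include hV in
/-- A sum of primitive classes with vanishing functionals is torsion. -/
theorem torsion_list (N : ℕ) : ∀ l : List (ColimU R G), l.length = N →
    (∀ z ∈ l, z ∈ S.PrimSet G) → (∀ c : G, V c l.sum = 0) →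
    ∃ m : ℤ, m ≠ 0 ∧ m • l.sum = 0 := by
  induction N using Nat.strong_induction_on with
  | _ N ih =>
    intro l hN hl h
    rcases l with _ | ⟨z, l⟩
    · exact ⟨1, one_ne_zero, by simp⟩
    obtain ⟨D₀, i1, i2, y₀, hg, hy₀, rfl⟩ := hl z List.mem_cons_self
    obtain ⟨y₁, hy₁, l', h1, h2, h3⟩ := S.split_list D₀ hg l
      (fun z hz => hl z (List.mem_cons_of_mem _ hz))
    have e1 : (cl D₀ y₀ :: l).sum = cl D₀ (y₀ * y₁) + l'.sum := by
      rw [List.sum_cons, h3, cl_mul, add_assoc]
    have hy : S.IsPrim (y₀ * y₁) := S.isPrim_mul hg hy₀ hy₁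
    rw [e1] at h ⊢
    have hvan : ∀ c : D₀.1, Subgroup.zpowers c = ⊤ → V (c : G) l'.sum = 0 := by
      intro c hc
      rw [map_list_sum]
      apply List.sum_eq_zero
      intro x hx
      obtain ⟨z, hz, rfl⟩ := List.mem_map.1 hx
      obtain ⟨⟨D, j1, j2, y, hgD, hy, rfl⟩, hz2⟩ := h1 z hz
      rw [hV (c : G) D j1 j2 y hgD]
      exact S.val_not_over D₀ D hg c hc y hy hz2
    have hval : ∀ c : D₀.1, Subgroup.zpowers c = ⊤ → S.val (c : G) D₀.1 (y₀ * y₁) = 0 := by
      intro c hc
      have e2 := h (c : G)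
      rw [map_add, hvan c hc, add_zero, hV (c : G) D₀ i1 i2 _ hg] at e2
      exact e2
    obtain ⟨m, hm, hm'⟩ := S.torsion_of_vanish D₀ hg (y₀ * y₁) hy hval
    have h4 : ∀ c : G, V c l'.sum = 0 := by
      intro c
      have e2 := h c
      rw [map_add, hV c D₀ i1 i2 _ hg, S.val_eq_zero D₀.1 _ hy hval c, zero_add] at e2
      exact e2
    obtain ⟨m', hm1, hm2⟩ := ih l'.length (by rw [← hN, List.length_cons]; omega) l' rfl
      (fun z hz => (h1 z hz).1) h4
    refine ⟨m * m', mul_ne_zero hm hm1, ?_⟩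
    rw [smul_add, mul_smul m m' l'.sum, hm2, smul_zero, add_zero, mul_comm, mul_smul, hm',
      smul_zero]

/-- Elements of the subgroup generated by the primitive classes are sums of primitive classes. -/
theorem exists_list {z : ColimU R G} (hz : z ∈ AddSubgroup.closure (S.PrimSet G)) :
    ∃ l : List (ColimU R G), (∀ z ∈ l, z ∈ S.PrimSet G) ∧ l.sum = z := by
  induction hz using AddSubgroup.closure_induction with
  | mem x hx => exact ⟨[x], by simpa using hx, by simp⟩
  | zero => exact ⟨[], by simp, rfl⟩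
  | add x y _ _ hx hy =>
    obtain ⟨l, h1, rfl⟩ := hx
    obtain ⟨l', h1', rfl⟩ := hy
    refine ⟨l ++ l', ?_, List.sum_append⟩
    intro z hz
    rcases List.mem_append.1 hz with h | h
    · exact h1 z h
    · exact h1' z h
  | neg x _ hx =>
    obtain ⟨l, h1, rfl⟩ := hx
    refine ⟨l.map (- ·), ?_, ?_⟩
    · intro z hz
      obtain ⟨y, hy, rfl⟩ := List.mem_map.1 hz
      exact S.primSet_neg (h1 y hy)
    · have hneg : ∀ l : List (ColimU R G), (l.map (- ·)).sum = - l.sum := by
        intro l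
        induction l with
        | nil => simp
        | cons a l ih => rw [List.map_cons, List.sum_cons, List.sum_cons, ih, neg_add]
      exact hneg l

/-- The classes of units of good cyclic subgroups. -/
def GoodSet (G : Type v) [Group G] : Set (ColimU R G) :=
  {z | ∃ (D : CycSub G) (y : (MonoidAlgebra R D.1)ˣ), S.good (Nat.card D.1) ∧ z = cl D y}

include hV in
/-- Classes with vanishing functionals are torsion. -/
theorem torsion_of_V (z : ColimU R G)
    (hz : z ∈ Sat (AddSubgroup.closure (S.GoodSet G))) (M : ℤ) (hM : M ≠ 0)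
    (h : ∀ c, V c (M • z) = 0) : ∃ m : ℤ, m ≠ 0 ∧ m • z = 0 := by
  have h0 : AddSubgroup.closure (S.GoodSet G) ≤ Sat (AddSubgroup.closure (S.PrimSet G)) := by
    rw [AddSubgroup.closure_le]
    rintro z ⟨D, y, hg, rfl⟩
    exact S.mem_sat D hg y
  obtain ⟨m₀, hm₀, hz⟩ := hz
  obtain ⟨m, hm, hz⟩ := h0 hz
  obtain ⟨l, h1, hl'⟩ := S.exists_list (AddSubgroup.zsmul_mem _ hz M)
  have e1 : M • m • m₀ • z = (m * m₀) • (M • z) := by
    rw [smul_smul, smul_smul, smul_smul]
    congr 1
    ring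
  obtain ⟨m', hm', h2⟩ := S.torsion_list V hV l.length l rfl h1 (by
    intro c
    rw [hl', e1, map_zsmul, h c, smul_zero])
  exact ⟨m' * (M * (m * m₀)), mul_ne_zero hm' (mul_ne_zero hM (mul_ne_zero hm hm₀)),
    by rw [mul_smul, mul_smul, mul_smul, ← hl', h2]⟩

end V

end LogSys

end Pool.Agent.H71.KP

end

section

/-!
# Project FU: change of coefficients

* `hn1 θ : HnK1 k G n →+ HnK1 k' G n` for a ring homomorphism `θ : k → k'` (`map_assembly1`);
* `hn1_torsion`: for a finite extension of fields the kernel of `hn1` is torsion (transfer);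
* `hn01 j u : HnK0 F G n →+ HnK1 k G n` for a homomorphism of commutative rings `j : F → k` and a unit `u` of `k`:
  `[D, [e], z] ↦ [D, [1 + e (u - 1)], z]` (`bass`).

PROOFS. `hn1_torsion`: the regular representation `ρ : k' → Mat_d(k)` gives `k'[F] → Mat_d(k[F])` and, by `K1.push`, a
homomorphism `HnK1 k' G n → HnK1 k G n` (compatible with conjugations: `K1.map_push`, `K1.push` of a composition); its
composition with `hn1` is `K1.push` of the scalar matrices, i.e. multiplication by `d` (`K1.push_sigma` or directly).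
-/

set_option autoImplicit false

open Matrix

universe t u v w

namespace Pool.Agent.H16.FU

open Pool.Agent.H71.FQ
open Pool.Agent.H71.FJ (MatEquiv IdemMat K0 K0.mk K0.lift K0.lift_mk K0.hom_ext K0.map K0.map_map Sat)
open Pool.Agent.H71.DB (bmat bU bmat_mul bmat_one bass bass_mk bass_mul bass_comp map_bass)
open Pool.Agent.H95.WH (K1 K1.mk K1.lift K1.lift_mk K1.hom_ext K1.map K1.map_mk K1.map_map K1.map_unit stab FamSub conjHom FinSub)

section Hn1

variable {k : Type u} [Ring k] {k' : Type w} [Ring k'] (θ : k →+* k') {G : Type v} [Group G]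
  {n : ℕ}

/-- **Change of coefficients.** -/
noncomputable def hn1 : HnK1 k G n →+ HnK1 k' G n :=
  lift1 (fun F => (syB1 F).comp (K1.map (MonoidAlgebra.mapRingHom F.1 θ))) (by
    intro F F' g h x z
    rw [AddMonoidHom.comp_apply, AddMonoidHom.comp_apply, syB1_apply, syB1_apply, K1.map_map,
      MonoidAlgebra.mapRingHom_comp_mapDomainRingHom, ← K1.map_map, sy1_conj])

theorem hn1_sy1 (F : FamSub G FinSub) (x : K1 (MonoidAlgebra k F.1))
    (z : HG (Subgroup.centralizer (F.1 : Set G)) n) :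
    hn1 θ (sy1 F x z) = sy1 F (K1.map (MonoidAlgebra.mapRingHom F.1 θ) x) z :=
  lift1_sy1 _ _ F x z

theorem map_assembly1 (w : HnK1 k G n) :
    KQ.map (MonoidAlgebra.mapRingHom G θ) (assembly1 k n G w) = assembly1 k' n G (hn1 θ w) := by
  induction w using hnk1_induction with
  | h0 => rw [map_zero, map_zero, map_zero, map_zero]
  | h1 F x z =>
    rw [asm1_sy1, map_gasm1, hn1_sy1, asm1_sy1]
  | h2 a b ha hb => rw [map_add, map_add, map_add, map_add, ha, hb]
  | h3 a ha => rw [map_neg, map_neg, map_neg, map_neg, ha]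

theorem hn1_comp {k'' : Type t} [Ring k''] (θ' : k' →+* k'') (w : HnK1 k G n) :
    hn1 θ' (hn1 θ w) = hn1 (θ'.comp θ) w := by
  induction w using hnk1_induction with
  | h0 => rw [map_zero, map_zero, map_zero]
  | h1 F x z =>
    rw [hn1_sy1, hn1_sy1, hn1_sy1, K1.map_map, MonoidAlgebra.mapRingHom_comp]
  | h2 a b ha hb => rw [map_add, map_add, map_add, ha, hb]
  | h3 a ha => rw [map_neg, map_neg, map_neg, ha]

end Hn1

section Transfer

variable (k : Type u) [Field k] (k' : Type w) [Field k'] [Algebra k k'] [FiniteDimensional k k']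

variable {G : Type v} [Group G] {n : ℕ}

end Transfer

section Hn01

variable {F : Type t} [CommRing F] {k : Type u} [CommRing k] {k' : Type w} [CommRing k']
  {G : Type v} [Group G] {n : ℕ}

/-- homomorphisms out of `HnK0` -/
noncomputable def lift0 {M : Type*} [AddCommGroup M]
    (f : ∀ D : FamSub G FinSub, K0 (MonoidAlgebra F D.1) →+
      HG (Subgroup.centralizer (D.1 : Set G)) n →+ M)
    (hf : ∀ (D D' : FamSub G FinSub) (g : G) (h : ∀ x ∈ D.1, g * x * g⁻¹ ∈ D'.1)
      (x : K0 (MonoidAlgebra F D.1)) (z : HG (Subgroup.centralizer (D'.1 : Set G)) n),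
      f D' (K0.map (MonoidAlgebra.mapDomainRingHom F (conjHom g D.1 D'.1 h)) x) z =
        f D x (HG.map n (centConj g D.1 D'.1 h) z)) : HnK0 F G n →+ M :=
  QuotientAddGroup.lift (SymRel F G n) (FreeAbelianGroup.lift fun s : Sym F G n => f s.F s.x s.z)
    (by
      rw [SymRel, AddSubgroup.closure_le]
      rintro w ((⟨F, x, y, z, rfl⟩ | ⟨F, x, z, z', rfl⟩) | ⟨F, F', g, h, x, z, rfl⟩)
      · change FreeAbelianGroup.lift _ _ = 0
        rw [symX, symOf, symOf, symOf, map_sub, map_add, FreeAbelianGroup.lift_apply_of,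
          FreeAbelianGroup.lift_apply_of, FreeAbelianGroup.lift_apply_of,
          map_add, AddMonoidHom.add_apply, sub_self]
      · change FreeAbelianGroup.lift _ _ = 0
        rw [symZ, symOf, symOf, symOf, map_sub, map_add, FreeAbelianGroup.lift_apply_of,
          FreeAbelianGroup.lift_apply_of, FreeAbelianGroup.lift_apply_of, map_add, sub_self]
      · change FreeAbelianGroup.lift _ _ = 0
        rw [symC, symOf, symOf, map_sub, FreeAbelianGroup.lift_apply_of,
          FreeAbelianGroup.lift_apply_of, sub_eq_zero]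
        exact hf F F' g h x z)

theorem lift0_sy {M : Type*} [AddCommGroup M]
    (f : ∀ D : FamSub G FinSub, K0 (MonoidAlgebra F D.1) →+
      HG (Subgroup.centralizer (D.1 : Set G)) n →+ M)
    (hf : ∀ (D D' : FamSub G FinSub) (g : G) (h : ∀ x ∈ D.1, g * x * g⁻¹ ∈ D'.1)
      (x : K0 (MonoidAlgebra F D.1)) (z : HG (Subgroup.centralizer (D'.1 : Set G)) n),
      f D' (K0.map (MonoidAlgebra.mapDomainRingHom F (conjHom g D.1 D'.1 h)) x) z =
        f D x (HG.map n (centConj g D.1 D'.1 h) z)) (D : FamSub G FinSub)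
    (x : K0 (MonoidAlgebra F D.1)) (z : HG (Subgroup.centralizer (D.1 : Set G)) n) :
    lift0 f hf (sy D x z) = f D x z := by
  change FreeAbelianGroup.lift _ _ = _
  rw [FreeAbelianGroup.lift_apply_of]

end Hn01

end Pool.Agent.H16.FU

end

section

/-!
# Project FQ: change of the coefficient ring

`NatK0 R S G`: a family of homomorphisms `K₀(R[F]) → K₀(S[F])`, `F` a finite subgroup of `G`, compatible with the
conjugations. It induces a homomorphism of the sources (`NatK0.src`). `ratInj_of_family`: if `c x = ∑ σ_i (τ_i x)` for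
families `τ_i : R → S_i`, `σ_i : S_i → R`, and the `τ_i` are compatible with homomorphisms of the targets, then the
rational injectivity of the assembly maps of the `S_i` implies the rational injectivity of that of `R`.
`ratInj_of_nilKer`: surjections with nilpotent kernel.
-/

set_option autoImplicit false

open Matrix

universe u u' v w

namespace Pool.Agent.H71.FQ

open Pool.Agent.H71.FJ (IdemMat K0 K0.mk K0.map K0.map_map K0.nilLift K0.map_nilLift K0.nilLift_map K0.map_injective NilKer)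
open Pool.Agent.H95.WH (FamSub conjHom FinSub)

section RatInj

variable {A : Type u} [AddCommGroup A] {B : Type v} [AddCommGroup B] {C : Type w} [AddCommGroup C]

theorem ratInj_iff {f : A →+ B} :
    RatInj f ↔ ∀ (z : A) (M : ℤ), M ≠ 0 → M • f z = 0 → ∃ m : ℤ, m ≠ 0 ∧ m • z = 0 := by
  constructor
  · intro h z M hM hz
    have h1 : TensorProduct.mk ℤ ℚ B 1 (f z) = 0 :=
      (IsLocalizedModule.eq_zero_iff (nonZeroDivisors ℤ)
        (TensorProduct.mk ℤ ℚ B 1)).2 ⟨⟨M, mem_nonZeroDivisors_of_ne_zero hM⟩, hz⟩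
    have h2 : LinearMap.lTensor ℚ f.toIntLinearMap (TensorProduct.mk ℤ ℚ A 1 z) =
        LinearMap.lTensor ℚ f.toIntLinearMap 0 := by
      rw [map_zero]
      exact h1
    have h3 : TensorProduct.mk ℤ ℚ A 1 z = 0 := h h2
    obtain ⟨m, hm⟩ := (IsLocalizedModule.eq_zero_iff (nonZeroDivisors ℤ)
      (TensorProduct.mk ℤ ℚ A 1)).1 h3
    exact ⟨m, nonZeroDivisors.coe_ne_zero m, hm⟩
  · intro h
    unfold RatInj
    rw [injective_iff_map_eq_zero]
    intro y hy
    obtain ⟨⟨z, m⟩, hz⟩ := IsLocalizedModule.surj (nonZeroDivisors ℤ)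
      (TensorProduct.mk ℤ ℚ A 1) y
    have h1 : TensorProduct.mk ℤ ℚ B 1 (f z) = 0 := by
      have h2 : LinearMap.lTensor ℚ f.toIntLinearMap (TensorProduct.mk ℤ ℚ A 1 z) = 0 := by
        have h3 := congrArg (LinearMap.lTensor ℚ f.toIntLinearMap) hz
        rw [Submonoid.smul_def, map_smul, hy, smul_zero] at h3
        exact h3.symm
      exact h2
    obtain ⟨M, hM⟩ := (IsLocalizedModule.eq_zero_iff (nonZeroDivisors ℤ)
      (TensorProduct.mk ℤ ℚ B 1)).1 h1
    obtain ⟨m', hm', h4⟩ := h z M (nonZeroDivisors.coe_ne_zero M) hM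
    have h5 : TensorProduct.mk ℤ ℚ A 1 z = 0 :=
      (IsLocalizedModule.eq_zero_iff (nonZeroDivisors ℤ)
        (TensorProduct.mk ℤ ℚ A 1)).2 ⟨⟨m', mem_nonZeroDivisors_of_ne_zero hm'⟩, h4⟩
    have h6 : m • y = m • 0 := by rw [hz, h5, smul_zero]
    exact IsLocalizedModule.smul_injective (TensorProduct.mk ℤ ℚ A 1) m h6

end RatInj

section Nat

/-- A natural family of homomorphisms `K₀(R[F]) → K₀(S[F])`. -/
structure NatK0 (R : Type u) [Ring R] (S : Type u') [Ring S] (G : Type v) [Group G] where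
  /-- the homomorphisms -/
  app : ∀ F : FamSub G FinSub, K0 (MonoidAlgebra R F.1) →+ K0 (MonoidAlgebra S F.1)
  nat : ∀ (F F' : FamSub G FinSub) (g : G) (h : ∀ x ∈ F.1, g * x * g⁻¹ ∈ F'.1)
    (x : K0 (MonoidAlgebra R F.1)),
    app F' (K0.map (MonoidAlgebra.mapDomainRingHom R (conjHom g F.1 F'.1 h)) x) =
      K0.map (MonoidAlgebra.mapDomainRingHom S (conjHom g F.1 F'.1 h)) (app F x)

variable {R : Type u} [Ring R] {S : Type u'} [Ring S] {G : Type v} [Group G]

/-- The homomorphism of the sources. -/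
noncomputable def NatK0.src (τ : NatK0 R S G) (n : ℕ) : HnK0 R G n →+ HnK0 S G n :=
  QuotientAddGroup.lift (SymRel R G n)
    (FreeAbelianGroup.lift fun s : Sym R G n => (sy s.F (τ.app s.F s.x) s.z : HnK0 S G n)) (by
      rw [SymRel, AddSubgroup.closure_le]
      rintro w ((⟨F, x, y, z, rfl⟩ | ⟨F, x, z, z', rfl⟩) | ⟨F, F', g, h, x, z, rfl⟩)
      · change FreeAbelianGroup.lift _ _ = 0
        rw [symX, symOf, symOf, symOf, map_sub, map_add, FreeAbelianGroup.lift_apply_of,
          FreeAbelianGroup.lift_apply_of, FreeAbelianGroup.lift_apply_of, map_add, sy_add, sub_self]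
      · change FreeAbelianGroup.lift _ _ = 0
        rw [symZ, symOf, symOf, symOf, map_sub, map_add, FreeAbelianGroup.lift_apply_of,
          FreeAbelianGroup.lift_apply_of, FreeAbelianGroup.lift_apply_of, sy_addz, sub_self]
      · change FreeAbelianGroup.lift _ _ = 0
        rw [symC, symOf, symOf, map_sub, FreeAbelianGroup.lift_apply_of,
          FreeAbelianGroup.lift_apply_of, τ.nat, sy_conj, sub_self])

theorem NatK0.src_sy (τ : NatK0 R S G) {n : ℕ} (F : FamSub G FinSub)
    (x : K0 (MonoidAlgebra R F.1)) (z : HG (Subgroup.centralizer (F.1 : Set G)) n) :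
    τ.src n (sy F x z) = sy F (τ.app F x) z := by
  have h : FreeAbelianGroup.lift (fun s : Sym R G n => (sy s.F (τ.app s.F s.x) s.z : HnK0 S G n))
      (FreeAbelianGroup.of ⟨F, x, z⟩) = sy F (τ.app F x) z := FreeAbelianGroup.lift_apply_of _ _
  exact h

/-- two homomorphisms which agree on the symbols are equal -/
theorem hnk0_ext {n : ℕ} {M : Type w} [AddCommGroup M] {f g : HnK0 R G n →+ M}
    (h : ∀ (F : FamSub G FinSub) (x : K0 (MonoidAlgebra R F.1))
      (z : HG (Subgroup.centralizer (F.1 : Set G)) n), f (sy F x z) = g (sy F x z)) : f = g := by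
  ext y
  induction y using hnk0_induction with
  | h0 => rw [map_zero, map_zero]
  | h1 F x z => exact h F x z
  | h2 a b ha hb => rw [map_add, map_add, ha, hb]
  | h3 a ha => rw [map_neg, map_neg, ha]

/-- two ring homomorphisms of monoid rings -/
theorem mapRing_mapDomain {M N : Type*} [Monoid M] [Monoid N] (φ : R →+* S) (f : M →* N) :
    (MonoidAlgebra.mapRingHom N φ).comp (MonoidAlgebra.mapDomainRingHom R f) =
      (MonoidAlgebra.mapDomainRingHom S f).comp (MonoidAlgebra.mapRingHom M φ) := by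
  apply MonoidAlgebra.ringHom_ext
  · intro r
    simp
  · intro m
    simp

variable (G) in
/-- The family of a homomorphism of rings. -/
noncomputable def NatK0.ofHom (φ : R →+* S) : NatK0 R S G where
  app F := K0.map (MonoidAlgebra.mapRingHom F.1 φ)
  nat F F' g h x := by
    rw [K0.map_map, K0.map_map, mapRing_mapDomain]

theorem NatK0.ofHom_asm (φ : R →+* S) {n : ℕ} (F : FamSub G FinSub)
    (x : K0 (MonoidAlgebra R F.1)) (z : HG (Subgroup.centralizer (F.1 : Set G)) n) :
    KQ.map (MonoidAlgebra.mapRingHom G φ) (assemblyN R n G (sy F x z)) =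
      assemblyN S n G (sy F ((NatK0.ofHom G φ).app F x) z) := by
  rw [asmN_sy, asmN_sy, map_gasm]
  rfl

end Nat

end Pool.Agent.H71.FQ

end
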