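import Pool.Agent.H71.TCZ.M19
import Pool.Agent.H71.TCZ.M23
import Pool.Agent.H71.TCZ.M24

/-! The parts of this file: H71.WH.Gam4_2, H71.WH.Gam3_1. -/

section

/-!
# The value of `Gam` on matrices congruent to `1` modulo `4`
-/

set_option autoImplicit false
set_option linter.unusedSectionVars false
set_option linter.unusedSimpArgs false

open Matrix

universe u v w

namespace Pool.Agent.H71.WH

namespace TwTr

end TwTr

section

variable {G : Type u} [Group G] (f : G → ℤ) (hf : ∀ x y, f (x * y) = f (y * x))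
  {ι : Type v} [Fintype ι] [DecidableEq ι]

theorem tl_psi (y : Matrix ι ι (MonoidAlgebra ℤ G)) :
    tl (tG f hf ι).κ (psi ι y) = tl (trf (fun g => f (g * g)) ι) y := by
  apply tl_nonUnital
  exact κ_psi f hf

/-- The value of `Gam` on matrices congruent to `1` modulo `4`. -/
theorem Gam_four (u : (Matrix ι ι (MonoidAlgebra ℤ G))ˣ) (x : Matrix ι ι (MonoidAlgebra ℤ G))
    (hx : (u : Matrix ι ι (MonoidAlgebra ℤ G)) = 1 + 4 * x) :
    Gam f hf u = L (trf f ι) (u : Matrix ι ι (MonoidAlgebra ℤ G)) -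
      1 / 2 * L (trf (fun g => f (g * g)) ι) (u : Matrix ι ι (MonoidAlgebra ℤ G)) := by
  set t := tG f hf ι with ht
  have hP : (PP u : MM G ι) = 1 + 4 * psi ι x := by
    rw [PP_val, hx, map_add, psi_four]
    abel
  have hk1 : k1 ι (u : Matrix ι ι (MonoidAlgebra ℤ G)) = 1 + 4 * k1 ι x := by
    rw [hx, map_add, map_one, map_mul, map_ofNat]
  have hk2 : k2 ι (u : Matrix ι ι (MonoidAlgebra ℤ G)) = 1 + 4 * k2 ι x := by
    rw [hx, map_add, map_one, map_mul, map_ofNat]
  have hT : (TT u : MM G ι) = 1 + 4 * (k1 ι x + k2 ι x + 4 * (k1 ι x * k2 ι x)) := by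
    rw [TT_val, hk1, hk2]
    noncomm_ring
  set Y := k1 ι x + k2 ι x + 4 * (k1 ι x * k2 ι x) with hY
  have s1 : t.s (k1 ι x) = k2 ι x := s_k1 f hf x
  have s2 : t.s (k2 ι x) = k1 ι x := s_k2 f hf x
  have s3 : t.s (psi ι x) = psi ι x := s_psi f hf x
  have sY : t.s Y = Y := by
    rw [hY, map_add, map_add, map_mul, map_mul, s1, s2, map_ofNat, k21, add_comm (k2 ι x)]
  set Q := (((PP u)⁻¹ : (MM G ι)ˣ) : MM G ι) with hQ
  have sQ : t.s Q = Q := t.s_inv (s_PP f hf u)
  have hQ1 : Q * (1 + 4 * psi ι x) = 1 := by rw [← hP, hQ, Units.inv_mul]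
  have hQ2 : Q = 1 + 2 * (-(2 * (Q * psi ι x))) := by
    have : Q * (1 + 4 * psi ι x) = Q + 4 * (Q * psi ι x) := by noncomm_ring
    rw [this] at hQ1
    calc Q = 1 - 4 * (Q * psi ι x) := by rw [← hQ1]; abel
      _ = _ := by noncomm_ring
  have sQp : t.s (-(2 * (Q * psi ι x))) = -(2 * (Q * psi ι x)) := by
    rw [map_neg, map_mul, map_mul, map_ofNat, sQ, s3]
  have hg : (gg u : MM G ι) = 1 + 4 * (Q * (Y - psi ι x)) := by
    have e1 : (gg u : MM G ι) = Q * (1 + 4 * Y) := by rw [gg, Units.val_mul, hT]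
    have e2 : Q * (1 + 4 * Y) = Q * (1 + 4 * psi ι x) + 4 * (Q * (Y - psi ι x)) := by
      noncomm_ring
    rw [e1, e2, hQ1]
  have h1 := t.Lam_four (x := Q * (Y - psi ι x)) (by rw [map_mul, map_sub, sQ, sY, s3]) hg
  have hT2 : (TT u : MM G ι) = 1 + 2 * (2 * Y) := by
    rw [hT]
    noncomm_ring
  have hP2 : (PP u : MM G ι) = 1 + 2 * (2 * psi ι x) := by
    rw [hP]
    noncomm_ring
  have s2Y : t.s (2 * Y) = 2 * Y := by rw [map_mul, map_ofNat, sY]
  have s2p : t.s (2 * psi ι x) = 2 * psi ι x := by rw [map_mul, map_ofNat, s3]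
  have h2 : L t.κ (gg u : MM G ι) = L t.κ Q + L t.κ (TT u : MM G ι) := by
    have e1 : (gg u : MM G ι) = Q * TT u := by rw [gg, Units.val_mul]
    rw [e1, hT2, hQ2]
    exact t.L_fix sQp s2Y
  have h3 : L t.κ Q + L t.κ (PP u : MM G ι) = 0 := by
    have e1 : Q * (PP u : MM G ι) = 1 := by rw [hQ, Units.inv_mul]
    have e2 := t.L_fix sQp s2p
    rw [← hQ2, ← hP2, e1, L_one] at e2
    exact e2.symm
  have h4 : L t.κ (TT u : MM G ι) = L (trf f ι) (u : Matrix ι ι (MonoidAlgebra ℤ G)) +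
      L (trf f ι) (u : Matrix ι ι (MonoidAlgebra ℤ G)) := by
    have e1 : k1 ι (u : Matrix ι ι (MonoidAlgebra ℤ G)) = 1 + 2 * (2 * k1 ι x) := by
      rw [hk1]
      noncomm_ring
    have e2 : k2 ι (u : Matrix ι ι (MonoidAlgebra ℤ G)) = 1 + 2 * (2 * k2 ι x) := by
      rw [hk2]
      noncomm_ring
    have e3 : Commute (2 * k1 ι x) (2 * k2 ι x) := by
      have : Commute (k1 ι x) (k2 ι x) := (k21 x x).symm
      exact ((Commute.ofNat_left 2 _).mul_left ((Commute.ofNat_right (k1 ι x) 2).mul_right this))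
    have e4 := L_mul_of_commute t.κ e3
    rw [← e1, ← e2, ← TT_val] at e4
    have e5 : L t.κ (k1 ι (u : Matrix ι ι (MonoidAlgebra ℤ G))) =
        L (trf f ι) (u : Matrix ι ι (MonoidAlgebra ℤ G)) := by
      rw [L_map]
      congr 1
      exact AddMonoidHom.ext fun w => κ_k1 f hf w
    have e6 : L t.κ (k2 ι (u : Matrix ι ι (MonoidAlgebra ℤ G))) =
        L t.κ (k1 ι (u : Matrix ι ι (MonoidAlgebra ℤ G))) := by
      have : k2 ι (u : Matrix ι ι (MonoidAlgebra ℤ G)) =
        t.s (k1 ι (u : Matrix ι ι (MonoidAlgebra ℤ G))) := rfl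
      rw [this, L_map]
      congr 1
      exact AddMonoidHom.ext fun w => t.κ_s w
    rw [e4, e6, e5]
  have h5 : L t.κ (PP u : MM G ι) = L (trf (fun g => f (g * g)) ι)
      (u : Matrix ι ι (MonoidAlgebra ℤ G)) := by
    rw [hP, hx, L_one_add, L_one_add, ← tl_psi f hf, psi_four]
  have h6 : Gam f hf u = 1 / 2 * L t.κ (gg u : MM G ι) := h1
  rw [h6, h2, h4, eq_neg_of_add_eq_zero_left h3, h5]
  ring

end

end Pool.Agent.H71.WH

end

section

/-!
# Stability of `Gam`
-/

set_option autoImplicit false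
set_option linter.unusedSectionVars false
set_option linter.unusedSimpArgs false

open Matrix

universe u v w

namespace Pool.Agent.H71.WH

namespace TwTr

variable {M : Type u} [Ring M] (t : TwTr M)

theorem corner {U e : M} (he : e * e = e) (h1 : e * U = U) (h2 : U * e = U)
    (c1 : t.s e * e = e * t.s e) (c2 : t.s e * U = U * t.s e) (c3 : t.s U * U = U * t.s U)
    (G1 G2 : Mˣ) (hG1 : (G1 : M) = U * t.s U + (1 - e * t.s e))
    (hG2 : (G2 : M) = (U + (1 - e)) * (t.s U + (1 - t.s e))) :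
    t.Adm (G1⁻¹ * G2) ∧ t.Lam (G1⁻¹ * G2) = 0 := by
  have c4 : t.s U * e = e * t.s U := by
    have := congrArg t.s c2
    rw [map_mul, map_mul, t.inv] at this
    exact this.symm
  have hE : t.s e * t.s e = t.s e := by rw [← map_mul, he]
  have h1' : t.s e * t.s U = t.s U := by rw [← map_mul, h1]
  have h2' : t.s U * t.s e = t.s U := by rw [← map_mul, h2]
  have a1 : ∀ x, e * (e * x) = e * x := fun x => by rw [← mul_assoc, he]
  have a2 : ∀ x, e * (U * x) = U * x := fun x => by rw [← mul_assoc, h1]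
  have a3 : ∀ x, U * (e * x) = U * x := fun x => by rw [← mul_assoc, h2]
  have a4 : ∀ x, t.s e * (e * x) = e * (t.s e * x) := fun x => by
    rw [← mul_assoc, c1, mul_assoc]
  have a5 : ∀ x, t.s e * (U * x) = U * (t.s e * x) := fun x => by
    rw [← mul_assoc, c2, mul_assoc]
  have a6 : ∀ x, t.s U * (U * x) = U * (t.s U * x) := fun x => by
    rw [← mul_assoc, c3, mul_assoc]
  have a7 : ∀ x, t.s U * (e * x) = e * (t.s U * x) := fun x => by
    rw [← mul_assoc, c4, mul_assoc]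
  have a8 : ∀ x, t.s e * (t.s e * x) = t.s e * x := fun x => by rw [← mul_assoc, hE]
  have a9 : ∀ x, t.s e * (t.s U * x) = t.s U * x := fun x => by rw [← mul_assoc, h1']
  have a10 : ∀ x, t.s U * (t.s e * x) = t.s U * x := fun x => by rw [← mul_assoc, h2']
  set p := e * (1 - t.s e) with hp
  set z := p * (U - 1) with hz
  have hsp : t.s p = t.s e * (1 - e) := by rw [hp, map_mul, map_sub, map_one, t.inv]
  have hsz : t.s z = t.s e * (1 - e) * (t.s U - 1) := by
    rw [hz, map_mul, hsp, map_sub, map_one]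
  have hW : (G1 : M) * (1 + z + t.s z) = G2 := by
    rw [hG1, hG2, hsz, hz, hp]
    simp only [mul_add, add_mul, mul_sub, sub_mul, mul_one, one_mul, mul_assoc, he, h1, h2, c1, c2,
      c3, c4, hE, h1', h2', a1, a2, a3, a4, a5, a6, a7, a8, a9, a10]
    abel
  have hW' : ((G1⁻¹ * G2 : Mˣ) : M) = 1 + z + t.s z := by
    rw [Units.val_mul, ← hW, ← mul_assoc, Units.inv_mul, one_mul]
  refine ⟨⟨z, hW'⟩, ?_⟩
  refine t.Lam_corner (p := p) ?_ ?_ ?_ ?_ hW'
  · rw [hsp, hp]
    simp only [mul_sub, sub_mul, mul_one, one_mul, mul_assoc, he, c1, hE, a1, a4, a8]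
    abel
  · rw [hsp, hp]
    simp only [mul_sub, sub_mul, mul_one, one_mul, mul_assoc, he, c1, hE, a1, a4, a8]
    abel
  · rw [hz, hp]
    simp only [mul_sub, sub_mul, mul_one, one_mul, mul_assoc, he, h1, h2, c1, c2, hE,
      a1, a2, a3, a4, a5, a8]
    abel
  · rw [hz, hp]
    simp only [mul_sub, sub_mul, mul_one, one_mul, mul_assoc, he, h1, h2, c1, c2, hE,
      a1, a2, a3, a4, a5, a8]
    abel

end TwTr

section Stab

variable {G : Type u} [Group G] (f : G → ℤ) (hf : ∀ x y, f (x * y) = f (y * x))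
  {ι κ : Type v} [Fintype ι] [DecidableEq ι] [Fintype κ] [DecidableEq κ] (ε : ι ↪ κ)

/-- the embedding of the corner -/
noncomputable def jj (G : Type u) [Group G] (ε : ι ↪ κ) : MM G ι →ₙ+* MM G κ := emb (ε.prodMap ε)

theorem jj_apply (F : MM G ι) (P Q : ι × ι) : jj G ε F (ε P.1, ε P.2) (ε Q.1, ε Q.2) = F P Q :=
  emb_apply (ε.prodMap ε) F P Q

theorem jj_psi (w : Matrix ι ι (MonoidAlgebra ℤ G)) : psi κ (emb ε w) = jj G ε (psi ι w) := by
  rw [psi_eq, psi_eq, jj, emb_map, emb_comp, emb_comp]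
  rfl

theorem jj_k12 (w w' : Matrix ι ι (MonoidAlgebra ℤ G)) :
    k1 κ (emb ε w) * k2 κ (emb ε w') = jj G ε (k1 ι w * k2 ι w') := by
  apply eq_emb
  · intro P Q
    rw [k12_apply, k12_apply]
    change i1 G (emb ε w (ε P.1) (ε Q.1)) * i2 G (emb ε w' (ε P.2) (ε Q.2)) = _
    rw [emb_apply, emb_apply]
  · intro P Q hP
    rw [k12_apply]
    by_cases h1 : ∃ i, P.1 = ε i
    · obtain ⟨i, hi⟩ := h1
      have h2 : ∀ j, P.2 ≠ ε j := fun j hj => hP (i, j) (Prod.ext hi hj)
      rw [emb_zero_left _ w' h2, map_zero, mul_zero]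
    · push Not at h1
      rw [emb_zero_left _ w h1, map_zero, zero_mul]
  · intro P Q hQ
    rw [k12_apply]
    by_cases h1 : ∃ i, Q.1 = ε i
    · obtain ⟨i, hi⟩ := h1
      have h2 : ∀ j, Q.2 ≠ ε j := fun j hj => hQ (i, j) (Prod.ext hi hj)
      rw [emb_zero_right _ w' _ h2, map_zero, mul_zero]
    · push Not at h1
      rw [emb_zero_right _ w _ h1, map_zero, zero_mul]

theorem jj_s (F : MM G ι) : jj G ε ((tG f hf ι).s F) = (tG f hf κ).s (jj G ε F) := by
  symm
  apply eq_emb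
  · intro P Q
    rw [tG_s, tG_s]
    congr 1
    exact jj_apply ε F P.swap Q.swap
  · intro P Q hP
    rw [tG_s, jj, emb_zero_left _ _ (swap_ne_prodMap ε hP), map_zero]
  · intro P Q hQ
    rw [tG_s, jj, emb_zero_right _ _ _ (swap_ne_prodMap ε hQ), map_zero]

theorem jj_κ (F : MM G ι) : (tG f hf κ).κ (jj G ε F) = (tG f hf ι).κ F := by
  rw [tG_κ, tG_κ]
  symm
  apply Finset.sum_of_injOn (ε.prodMap ε)
  · exact (ε.prodMap ε).injective.injOn
  · intro P _
    exact Finset.mem_coe.2 (Finset.mem_univ _)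
  · intro P _ hP
    have h1 : ∀ i, P ≠ ε.prodMap ε i := by
      intro i hi
      exact hP ⟨i, Finset.mem_coe.2 (Finset.mem_univ _), hi.symm⟩
    rw [jj, emb_zero_left _ _ h1, map_zero]
  · intro P _
    congr 1
    exact (jj_apply ε F P P.swap).symm

theorem jj_PP (u : (Matrix ι ι (MonoidAlgebra ℤ G))ˣ) :
    PP (stab ε u) = unitExt (jj G ε) (PP u) := by
  have h : (PP (stab ε u) : MM G κ) = (unitExt (jj G ε) (PP u) : MM G κ) := by
    rw [PP_val, unitExt_val, PP_val, stab_val]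
    simp only [map_add, map_sub, jj_psi]
    abel
  exact Units.ext h

theorem Gam_stab (u : (Matrix ι ι (MonoidAlgebra ℤ G))ˣ) : Gam f hf (stab ε u) = Gam f hf u := by
  set t := tG f hf κ with ht
  set U := k1 κ (emb ε (u : Matrix ι ι (MonoidAlgebra ℤ G))) with hU
  set e := k1 κ (emb ε (1 : Matrix ι ι (MonoidAlgebra ℤ G))) with he
  have hsU : t.s U = k2 κ (emb ε (u : Matrix ι ι (MonoidAlgebra ℤ G))) := rfl
  have hse : t.s e = k2 κ (emb ε (1 : Matrix ι ι (MonoidAlgebra ℤ G))) := rfl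
  have hc := t.corner (U := U) (e := e)
    (by rw [he, ← map_mul, ← map_mul, mul_one])
    (by rw [he, hU, ← map_mul, ← map_mul, one_mul])
    (by rw [he, hU, ← map_mul, ← map_mul, mul_one])
    (by rw [hse, he, k21]) (by rw [hse, hU, k21]) (by rw [hsU, hU, k21])
    (unitExt (jj G ε) (TT u)) (TT (stab ε u))
    (by
      rw [unitExt_val, hsU, hse, hU, he, jj_k12, jj_k12, TT_val]
      rw [map_one (k1 ι), map_one (k2 ι), mul_one])
    (by
      rw [hsU, hse, hU, he, TT_val, stab_val]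
      simp only [map_add, map_sub, map_one])
  have h1 : gg (stab ε u) = unitExt (jj G ε) (gg u) *
      ((unitExt (jj G ε) (TT u))⁻¹ * TT (stab ε u)) := by
    rw [gg, gg, jj_PP, map_mul, map_inv]
    exact grp_aux2 _ _ _
  obtain ⟨z, hz⟩ := gg_adm f hf u
  have h2 : t.Adm (unitExt (jj G ε) (gg u)) := by
    refine ⟨jj G ε z, ?_⟩
    rw [unitExt_val, hz, ht, ← jj_s, map_add, map_add]
    abel
  rw [Gam, h1, t.Lam_mul h2 hc.1, hc.2, add_zero]
  exact TwTr.Lam_map _ _ (jj G ε) (jj_s f hf ε) (jj_κ f hf ε) (gg_adm f hf u) (unitExt_val _ _)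

end Stab

end Pool.Agent.H71.WH

end
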