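import Pool.Agent.H71.TCZ.M25
import Pool.Agent.H71.TCZ.M32
import Pool.Agent.H71.TCZ.M39

/-! The parts of this file: H71.WH.Fun_1, H71.WH.U3_1, H71.WH.Fun_2, H71.KP.ResK, H71.KP.ResK_7. -/

section

/-!
# The functionals on the Whitehead group and on the colimit
-/

set_option autoImplicit false
set_option linter.unusedSectionVars false
set_option linter.unusedSimpArgs false

open Matrix
open scoped Classical

universe u v w

namespace Pool.Agent.H71.WH

section G

variable {G : Type v} [Group G] (f : G → ℤ) (hf : ∀ x y, f (x * y) = f (y * x))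

theorem addOne_eq {n : ℕ} (x : (Matrix (Fin n) (Fin n) (MonoidAlgebra ℤ G))ˣ) :
    addOne x = stab (Fin.castAddEmb 1) x := Units.ext (blockOne_eq _)

theorem Gam_addOne {n : ℕ} (x : (Matrix (Fin n) (Fin n) (MonoidAlgebra ℤ G))ˣ) :
    Gam f hf (addOne x) = Gam f hf x := by
  rw [addOne_eq, Gam_stab]

theorem GamFree_le : K1Rel (MonoidAlgebra ℤ G) ≤ (GamFree f hf).ker := by
  rw [K1Rel, AddSubgroup.closure_le]
  rintro z (⟨n, x, y, rfl⟩ | ⟨n, x, rfl⟩)
  · change GamFree f hf (genK1 (x * y) - (genK1 x + genK1 y)) = 0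
    rw [GamFree, map_sub, map_add, genK1, genK1, genK1, FreeAbelianGroup.lift_apply_of,
      FreeAbelianGroup.lift_apply_of, FreeAbelianGroup.lift_apply_of]
    exact sub_eq_zero.2 (Gam_mul f hf x y)
  · change GamFree f hf (genK1 (addOne x) - genK1 x) = 0
    rw [GamFree, map_sub, genK1, genK1, FreeAbelianGroup.lift_apply_of,
      FreeAbelianGroup.lift_apply_of]
    exact sub_eq_zero.2 (Gam_addOne f hf x)

/-- the functional on `K₁` -/
noncomputable def GamK1 : K1 (MonoidAlgebra ℤ G) →+ ℚ_[2] :=
  QuotientAddGroup.lift (K1Rel _) (GamFree f hf) (GamFree_le f hf)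

theorem GamK1_mk {n : ℕ} (x : (Matrix (Fin n) (Fin n) (MonoidAlgebra ℤ G))ˣ) :
    GamK1 f hf (K1.mk x) = Gam f hf x := by
  change GamFree f hf (genK1 x) = _
  rw [GamFree, genK1, FreeAbelianGroup.lift_apply_of]

theorem GamK1_le : trivialK1 G ≤ (GamK1 f hf).ker := by
  rw [trivialK1, AddSubgroup.closure_le]
  rintro z ⟨x, hx, rfl⟩
  change GamK1 f hf (K1.mk _) = 0
  rw [GamK1_mk]
  exact Gam_trivial f hf x hx

/-- the functional on the Whitehead group -/
noncomputable def GamWh : Wh G →+ ℚ_[2] :=
  QuotientAddGroup.lift (trivialK1 G) (GamK1 f hf) (GamK1_le f hf)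

end G

end Pool.Agent.H71.WH

end

section

/-!
# The logarithmic functionals on units
-/

set_option autoImplicit false
set_option linter.unusedSectionVars false
set_option linter.unusedSimpArgs false

open Matrix
open scoped Classical

universe u v w

namespace Pool.Agent.H71.WH

section LU

end LU

section GamLU

variable {H : Type u} [Group H] [Finite H]

theorem Gam_sc (f : H → ℤ) (hf : ∀ x y, f (x * y) = f (y * x)) (δ : (MonoidAlgebra ℤ H)ˣ) :
    Gam f hf (sc δ) = LU f δ - 1 / 2 * LU (fun g => f (g * g)) δ := by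
  obtain ⟨x, hx⟩ := C8_pow_N8 δ
  have h1 : ((sc δ ^ N8 H : (Matrix (Fin 1) (Fin 1) (MonoidAlgebra ℤ H))ˣ) :
      Matrix (Fin 1) (Fin 1) (MonoidAlgebra ℤ H)) =
      Matrix.scalar (Fin 1) ((δ ^ N8 H : (MonoidAlgebra ℤ H)ˣ) : MonoidAlgebra ℤ H) := by
    rw [sc, ← map_pow]
    rfl
  have h2 : ((sc δ ^ N8 H : (Matrix (Fin 1) (Fin 1) (MonoidAlgebra ℤ H))ˣ) :
      Matrix (Fin 1) (Fin 1) (MonoidAlgebra ℤ H)) = 1 + 4 * (2 * Matrix.scalar (Fin 1) x) := by
    rw [h1, hx, map_add, map_one, map_mul, map_ofNat, ← mul_assoc]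
    norm_num
  have h3 := Gam_four f hf _ _ h2
  rw [Gam_pow, h1, L_scalar, L_scalar] at h3
  have hN : (N8 H : ℚ_[2]) ≠ 0 := by exact_mod_cast N8_ne_zero (C := H)
  rw [LU, LU]
  field_simp
  linear_combination 2 * h3

end GamLU

end Pool.Agent.H71.WH

end

section

/-!
# The functionals on the Whitehead group and on the colimit
-/

set_option autoImplicit false
set_option linter.unusedSectionVars false
set_option linter.unusedSimpArgs false

open Matrix
open scoped Classical

universe u v w

namespace Pool.Agent.H71.WH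

section G

variable {G : Type v} [Group G] (f : G → ℤ) (hf : ∀ x y, f (x * y) = f (y * x))

theorem GamWh_incWh (C : CycSub G) (x : (MonoidAlgebra ℤ C.1)ˣ) :
    GamWh f hf (incWh C x) = LU (fun a : C.1 => f a) x -
      1 / 2 * LU (fun a : C.1 => f (a * a)) x := by
  have := C.2.1
  have hf' : ∀ a b : C.1, f ((a * b : C.1) : G) = f ((b * a : C.1) : G) :=
    fun a b => hf a b
  have h1 : GamWh f hf (incWh C x) = Gam f hf (oneByOne (unitsMap C.1.subtype x)) :=
    GamK1_mk f hf _
  have h2 : oneByOne (unitsMap C.1.subtype x) = glMap C.1.subtype (Fin 1) (sc x) := by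
    have h3 : (oneByOne (unitsMap C.1.subtype x) :
        Matrix (Fin 1) (Fin 1) (MonoidAlgebra ℤ G)) =
        (glMap C.1.subtype (Fin 1) (sc x) : Matrix (Fin 1) (Fin 1) (MonoidAlgebra ℤ G)) := by
      ext i j : 1
      rw [oneByOne_apply, glMap_val]
      change _ = gr C.1.subtype ((oneByOne x :
        Matrix (Fin 1) (Fin 1) (MonoidAlgebra ℤ C.1)) i j)
      rw [oneByOne_apply]
      rfl
    exact Units.ext h3
  rw [h1, h2, Gam_map C.1.subtype f hf (fun a : C.1 => f a) hf' (fun a => rfl), Gam_sc]
  rfl

end G

end Pool.Agent.H71.WH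

end

section

/-!
# The residue functionals on `Wh` in positive characteristic
-/

set_option autoImplicit false
set_option linter.unusedSectionVars false
set_option linter.unusedSimpArgs false

open Matrix

universe u v w t

namespace Pool.Agent.H71.KP

open Pool.Agent.H71.WH (InvMat K1 K1.mk K1.unit K1Rel genK1 addOne oneByOne CycSub conjHom K1.mk_mul K1.unit_mul)

/-- Residue data for a commutative ring `k`: a lift `A` of `k` with a derivation `θ`, constants `B`
and a residue `A → B` vanishing on `θ`. -/
structure ResDat (p : ℕ) (k : Type u) [CommRing k] where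
  /-- the lift -/
  A : Type u
  instA : CommRing A
  /-- the constants -/
  B : Type u
  instB : CommRing B
  /-- the reduction -/
  π : A →+* k
  surj : Function.Surjective π
  ker : ∀ a, π a = 0 → ∃ b, a = (p : A) * b
  /-- the exponent -/
  n : ℕ
  nilA : (p : A) ^ n = 0
  nilB : ∀ b : B, p ^ n • b = 0
  /-- the derivation -/
  θ : A →+ A
  leib : ∀ a b, θ (a * b) = θ a * b + a * θ b
  /-- the inclusion of the constants -/
  ι : B →+* A
  θι : ∀ b, θ (ι b) = 0
  /-- the residue -/
  res : A →+ B
  res_θ : ∀ a, res (θ a) = 0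
  res_ι : ∀ b a, res (ι b * a) = b * res a

namespace ResDat

variable {p : ℕ} [hp : Fact p.Prime] {k : Type u} [CommRing k] (d : ResDat p k)

instance : CommRing d.A := d.instA

section Grp

end Grp

section Lam

end Lam

section Map

end Map

end ResDat

end Pool.Agent.H71.KP

end

section

/-!
# The residue functionals on `Wh` in positive characteristic
-/

set_option autoImplicit false
set_option linter.unusedSectionVars false
set_option linter.unusedSimpArgs false

open Matrix

universe u v w t

namespace Pool.Agent.H71.KP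

open Pool.Agent.H71.WH (InvMat K1 K1.mk K1.unit K1Rel genK1 addOne oneByOne CycSub conjHom K1.mk_mul K1.unit_mul)

namespace ResDat

variable {p : ℕ} [hp : Fact p.Prime] {k : Type u} [CommRing k] (d : ResDat p k)

instance : CommRing d.B := d.instB

section Grp

variable {G : Type v} [Group G]

/-- the coefficientwise derivation -/
noncomputable def gD (G : Type v) [Group G] : MonoidAlgebra d.A G →+ MonoidAlgebra d.A G where
  toFun x := MonoidAlgebra.map d.θ x
  map_zero' := MonoidAlgebra.map_zero _
  map_add' := MonoidAlgebra.map_add _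

theorem gD_single (g : G) (a : d.A) :
    d.gD G (MonoidAlgebra.single g a) = MonoidAlgebra.single g (d.θ a) :=
  MonoidAlgebra.map_single _ _ _

/-- the residue of the value of a class function -/
noncomputable def gf (f : G → d.B) : MonoidAlgebra d.A G →+ d.B where
  toFun x := x.coeff.sum fun g a => f g * d.res a
  map_zero' := by simp
  map_add' x y := by
    classical
    rw [MonoidAlgebra.coeff_add, Finsupp.sum_add_index'] <;> simp [mul_add]

theorem gf_single (f : G → d.B) (g : G) (a : d.A) :
    d.gf f (MonoidAlgebra.single g a) = f g * d.res a := by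
  change (MonoidAlgebra.single g a).coeff.sum (fun g a => f g * d.res a) = _
  rw [MonoidAlgebra.coeff_single, Finsupp.sum_single_index (by simp)]

end Grp

section Lam

end Lam

section Map

end Map

end ResDat

end Pool.Agent.H71.KP

end
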