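import Mathlib

/-! The parts of this file: H16.KN.LinSN, H71.FQ.Loc, H71.KP.AlgInd, H71.KP.FinGen, H71.KP.Schur, H71.KP.Cassels, H95.WH.SmN. -/

section

/-!
# Project KN, module LinSN: `p`-integral homomorphisms determine all homomorphisms (additive form)

The additive version of `Pool/Agent/H8/KZ/LinS.lean`.
-/

set_option autoImplicit false

universe u v w

namespace Pool.Agent.H16.KN

/-- every element killed by all homomorphisms with values in the rational numbers with denominator prime to `p`
has finite order -/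
def PSepA (p : ℕ) (X : Type v) [AddCommGroup X] : Prop :=
  ∀ x : X, (∀ f : X →+ ℚ, (∀ y, ¬ p ∣ (f y).den) → f x = 0) → ∃ r : ℕ, r ≠ 0 ∧ r • x = 0

private theorem linS_rat {p : ℕ} {X : Type v} [AddCommGroup X] (hX : PSepA p X) {L : Type} [Field L]
    [CharZero L] {K : Type*} [Fintype K] (q : K → ℚ) (a : K → X)
    (h0 : ∀ lam : X →+ ℚ, (∀ y, ¬ p ∣ (lam y).den) → ∑ k, q k * lam (a k) = 0) (h : X →+ L) :
    ∑ k, (q k : L) * h (a k) = 0 := by
  classical
  set M : ℕ := ∏ k, (q k).den with hM
  have hM0 : M ≠ 0 := Finset.prod_ne_zero_iff.2 fun k _ => (q k).den_nz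
  have hdiv : ∀ k, (q k).den ∣ M := fun k => Finset.dvd_prod_of_mem _ (Finset.mem_univ k)
  have hm : ∀ k, ∃ m : ℤ, (m : ℚ) = M * q k := by
    intro k
    obtain ⟨c, hc⟩ := hdiv k
    refine ⟨c * (q k).num, ?_⟩
    have h1 : ((q k).den : ℚ) * q k = (q k).num := by
      rw [mul_comm]
      exact Rat.mul_den_eq_num (q k)
    rw [hc]
    push_cast
    rw [← h1]
    ring
  choose m hm using hm
  have hker : ∀ f : X →+ ℚ, (∀ y, ¬ p ∣ (f y).den) → f (∑ k, m k • a k) = 0 := by
    intro f hf
    rw [map_sum]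
    have h2 : ∀ k, f (m k • a k) = (M : ℚ) * (q k * f (a k)) := by
      intro k
      rw [map_zsmul, zsmul_eq_mul, hm k]
      ring
    rw [Finset.sum_congr rfl fun k _ => h2 k, ← Finset.mul_sum, h0 f hf, mul_zero]
  obtain ⟨r, hr, hxr⟩ := hX _ hker
  have h4 : r • h (∑ k, m k • a k) = 0 := by
    rw [← map_nsmul, hxr, map_zero]
  have h5 : h (∑ k, m k • a k) = 0 := by
    rw [nsmul_eq_mul] at h4
    rcases mul_eq_zero.1 h4 with h | h
    · exact absurd (Nat.cast_eq_zero.1 h) hr
    · exact h
  rw [map_sum] at h5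
  have h6 : ∀ k, h (m k • a k) = (M : L) * ((q k : L) * h (a k)) := by
    intro k
    have h7 : ((m k : ℚ) : L) = ((M * q k : ℚ) : L) := by rw [hm k]
    push_cast at h7
    rw [map_zsmul, zsmul_eq_mul, h7]
    ring
  rw [Finset.sum_congr rfl fun k _ => h6 k, ← Finset.mul_sum] at h5
  rcases mul_eq_zero.1 h5 with h | h
  · exact absurd (Nat.cast_eq_zero.1 h) hM0
  · exact h

theorem sep_homA {p : ℕ} {X : Type v} [AddCommGroup X] (hX : PSepA p X) {L : Type} [Field L]
    [CharZero L] {K : Type*} [Fintype K] (w : K → L) (a : K → X)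
    (h0 : ∀ lam : X →+ ℚ, (∀ y, ¬ p ∣ (lam y).den) → ∑ k, w k * ((lam (a k) : ℚ) : L) = 0)
    (h : X →+ L) : ∑ k, w k * h (a k) = 0 := by
  classical
  let b := Module.Basis.ofVectorSpace ℚ L
  have hq : ∀ β, ∑ k, ((b.repr (w k) β : ℚ) : L) * h (a k) = 0 := by
    intro β
    refine linS_rat hX (fun k => b.repr (w k) β) a (fun lam hlam => ?_) h
    have h1 := congrArg (fun z => b.repr z β) (h0 lam hlam)
    simp only [map_zero, Finsupp.coe_zero, Pi.zero_apply] at h1
    rw [← h1, map_sum, Finsupp.finsetSum_apply]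
    refine Finset.sum_congr rfl fun k _ => ?_
    have h2 : w k * ((lam (a k) : ℚ) : L) = (lam (a k) : ℚ) • w k := by
      rw [Algebra.smul_def, mul_comm]
      rfl
    rw [h2, map_smul, Finsupp.smul_apply, smul_eq_mul, mul_comm]
  set s : Finset (Module.Basis.ofVectorSpaceIndex ℚ L) :=
    Finset.univ.biUnion (fun k : K => (b.repr (w k)).support) with hs
  have hw : ∀ k, w k = ∑ β ∈ s, ((b.repr (w k) β : ℚ) : L) * b β := by
    intro k
    conv_lhs => rw [← b.linearCombination_repr (w k), Finsupp.linearCombination_apply]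
    rw [Finsupp.sum_of_support_subset (s := s)]
    · refine Finset.sum_congr rfl fun β _ => ?_
      rw [Algebra.smul_def]
      rfl
    · exact Finset.subset_biUnion_of_mem (fun k : K => (b.repr (w k)).support)
        (Finset.mem_univ k)
    · intro β _
      exact zero_smul _ _
  calc ∑ k, w k * h (a k)
      = ∑ k, ∑ β ∈ s, b β * (((b.repr (w k) β : ℚ) : L) * h (a k)) := by
        refine Finset.sum_congr rfl fun k _ => ?_
        conv_lhs => rw [hw k]
        rw [Finset.sum_mul]
        refine Finset.sum_congr rfl fun β _ => ?_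
        ring
    _ = ∑ β ∈ s, b β * ∑ k, (((b.repr (w k) β : ℚ) : L) * h (a k)) := by
        rw [Finset.sum_comm]
        refine Finset.sum_congr rfl fun β _ => ?_
        rw [Finset.mul_sum]
    _ = 0 := by
        refine Finset.sum_eq_zero fun β _ => ?_
        rw [hq β, mul_zero]

end Pool.Agent.H16.KN

end

section

/-!
# Project FQ: rational injectivity of the assembly map is a local property

If every finite subset of `G` lies in a subgroup `G'` for which the assembly map of `R[G']` is rationally injective,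
then the assembly map of `R[G]` is rationally injective.
-/

set_option autoImplicit false

open Matrix

universe u v w

namespace Pool.Agent.H71.FQ

theorem mapDomainRingHom_injective (R : Type u) [Ring R] {G : Type v} [Group G] {G' : Type w}
    [Group G'] (f : G →* G') (hf : Function.Injective f) :
    Function.Injective (MonoidAlgebra.mapDomainRingHom R f) :=
  fun _ _ h => MonoidAlgebra.mapDomain_injective hf h

theorem mem_range_mapDomainRingHom (R : Type u) [Ring R] {G : Type v} [Group G]
    (G' : Subgroup G) (a : MonoidAlgebra R G) (h : ∀ g ∈ a.coeff.support, g ∈ G') :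
    a ∈ Set.range (MonoidAlgebra.mapDomainRingHom R G'.subtype) := by
  refine ⟨MonoidAlgebra.comapDomain G'.subtype G'.subtype_injective a, ?_⟩
  exact MonoidAlgebra.mapDomain_comapDomain (f := G'.subtype)
    (fun g hg => ⟨⟨g, h g hg⟩, rfl⟩) G'.subtype_injective

end Pool.Agent.H71.FQ

end

section

/-!
# Algebraically independent `p`-adic integers with prescribed residues

PROOF. By induction on `r` (split off the last index, `Fin.snoc`). Suppose that `t₁, …, t_r` are
chosen. The subring `ℤ[t₁, …, t_r]` of `ℤ_[p]` is countable, so the set of elements of `ℤ_[p]` which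
are algebraic over it is countable (`Algebraic.countable` / cardinality lemmas for algebraic
elements), while `a_{r+1} + p ℤ_[p]` is uncountable (it is a translate of the image of `ℤ_[p]` under
the injective map `x ↦ p x`, and `ℤ_[p]` is uncountable, e.g. `ℕ → Fin 2` injects into `ℤ_[p]`, or
`ℤ_[p]` is a complete metric space without isolated points / Mathlib may know the cardinality).
Take `t_{r+1}` in it, transcendental over `ℤ[t₁, …, t_r]`, and use the lemmas on
`AlgebraicIndependent` (`AlgebraicIndependent` is by definition the injectivity of `MvPolynomial.aeval`;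
see `algebraicIndependent_option`, `AlgebraicIndependent.option_iff`, `Transcendental`).
-/

set_option autoImplicit false

namespace Pool.Agent.H71.KP

/-- A residue class modulo `p` is not contained in a countable set. -/
theorem AlgInd_exists_notMem (p : ℕ) [Fact p.Prime] (C : Set ℤ_[p]) (hC : C.Countable)
    (a : ℤ_[p]) : ∃ x : ℤ_[p], x ∉ C ∧ (p : ℤ_[p]) ∣ x - a := by
  have h1 : ((fun x : ℤ_[p] => (x : ℚ_[p])) '' C).Countable := hC.image _
  have h2 : Dense ((fun x : ℤ_[p] => (x : ℚ_[p])) '' C)ᶜ := h1.dense_compl ℚ_[p]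
  obtain ⟨y, hyC, hy⟩ := Metric.dense_iff.mp h2 (a : ℚ_[p]) 1 one_pos
  have hy1 : ‖y - (a : ℚ_[p])‖ < 1 := by
    have := hyC; rwa [Metric.mem_ball, dist_eq_norm] at this
  have hz : ‖y - (a : ℚ_[p])‖ ≤ 1 := hy1.le
  set z : ℤ_[p] := ⟨y - (a : ℚ_[p]), hz⟩ with hzdef
  refine ⟨z + a, ?_, ?_⟩
  · intro hmem
    apply hy
    refine ⟨z + a, hmem, ?_⟩
    show ((z + a : ℤ_[p]) : ℚ_[p]) = y
    rw [PadicInt.coe_add, hzdef]
    simp
  · rw [add_sub_cancel_right, ← PadicInt.norm_lt_one_iff_dvd]
    exact hy1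

theorem AlgInd_aux (p : ℕ) [Fact p.Prime] : ∀ (r : ℕ) (a : Fin r → ℤ_[p]),
    ∃ t : Fin r → ℤ_[p], (∀ i, (p : ℤ_[p]) ∣ t i - a i) ∧ AlgebraicIndependent ℤ t := by
  intro r
  induction r with
  | zero =>
    intro a
    refine ⟨a, fun i => i.elim0, ?_⟩
    rw [algebraicIndependent_empty_type_iff]
    exact Int.cast_injective
  | succ r ih =>
    intro a
    obtain ⟨t, ht, hind⟩ := ih (fun i => a i.castSucc)
    have hcount : Countable (Algebra.adjoin ℤ (Set.range t)) := by
      rw [Algebra.adjoin_range_eq_range_aeval]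
      have : Countable (MvPolynomial (Fin r) ℤ) := by
        have h := MvPolynomial.cardinalMk_le_max (σ := Fin r) (R := ℤ)
        rw [← Cardinal.mk_le_aleph0_iff]
        refine h.trans ?_
        simp
      exact (Set.countable_range _).to_subtype
    have hC : {x : ℤ_[p] | IsAlgebraic (Algebra.adjoin ℤ (Set.range t)) x}.Countable :=
      Algebraic.countable _ _
    obtain ⟨x, hx, hxa⟩ := AlgInd_exists_notMem p _ hC (a (Fin.last r))
    have hopt := (hind.option_iff_transcendental x).mpr hx
    refine ⟨fun i => (finSuccEquivLast i).elim x t, ?_, ?_⟩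
    · intro i
      induction i using Fin.lastCases with
      | last => simpa using hxa
      | cast i => simpa using ht i
    · exact hopt.comp finSuccEquivLast finSuccEquivLast.injective

/-- There are algebraically independent `p`-adic integers congruent to given ones modulo `p`. -/
theorem exists_algInd (p : ℕ) [Fact p.Prime] (r : ℕ) (a : Fin r → ℤ_[p]) :
    ∃ t : Fin r → ℤ_[p], (∀ i, (p : ℤ_[p]) ∣ t i - a i) ∧
      Function.Injective (MvPolynomial.aeval t : MvPolynomial (Fin r) ℤ →ₐ[ℤ] ℤ_[p]) := by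
  obtain ⟨t, ht, hi⟩ := AlgInd_aux p r a
  exact ⟨t, ht, hi⟩

end Pool.Agent.H71.KP

end

section

/-!
# Finitely generated domains of characteristic zero

PROOF. Let `K` be the fraction field of `R`, a finitely generated field extension of `ℚ`, let
`a₁, …, a_m` generate the ring `R`, and choose a transcendence basis `x₁, …, x_r` of `K` over `ℚ`
among the `a_i` (or by `exists_isTranscendenceBasis`...; it may be chosen inside `R`). Then
`A = MvPolynomial (Fin r) ℤ` embeds in `R` (`X i ↦ x_i`); `K` is a finite separable extension of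
`Q = Frac A` (characteristic zero), so it has a primitive element `θ`, which we may multiply by a
nonzero element of `A` so that it is integral over `A`. As `A` is integrally closed (it is a unique
factorisation domain) the minimal polynomial `F` of `θ` over `A` is monic and is also the minimal
polynomial over `Q` (`minpoly.isIntegrallyClosed_eq_field_fractions'`). It is separable over `Q`, so
`A₀ F + B₀ F' = 1` in `Q[X]`; clearing denominators gives `A`, `B`, `D`. Every `a_j` is of the form
`P_j(θ) / h_j` with `P_j` in `A[X]` and `h_j ≠ 0` in `A`; let `h` be the product of the `h_j`.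

Let now `ψ : A → T` be injective, `ψ h` a unit, `y` a root of `F^ψ`. Let `L = Frac T`. Then `ψ`
extends to `Q → L` and, as `F` is the minimal polynomial of `θ` over `Q`, to a field homomorphism
`K = Q(θ) → L`, `θ ↦ y`. It maps `a_j` to `P_j(y) / ψ(h_j)`, which is in (the image of) `T`, since
`ψ (h_j)` divides the unit `ψ h`. So it maps `R` to `T`, injectively.
-/

set_option autoImplicit false

universe u

open Polynomial

namespace Pool.Agent.H71.KP

/-- The presentation over an integrally closed domain over which `R` is algebraic. -/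
theorem FinGen_core {A' R : Type*} [CommRing A'] [IsDomain A'] [IsIntegrallyClosed A']
    [CharZero A'] [CommRing R] [IsDomain R] [Algebra A' R] [FaithfulSMul A' R]
    [Algebra.IsAlgebraic A' R] (s : Finset R) (hs : Algebra.adjoin ℤ (s : Set R) = ⊤) :
    ∃ (h D : A') (F A B : A'[X]),
      h ≠ 0 ∧ D ≠ 0 ∧ F.Monic ∧ 0 < F.natDegree ∧ A * F + B * derivative F = C D ∧
      ∀ (T : Type) [CommRing T] [IsDomain T] (ψ : A' →+* T) (y : T),
        Function.Injective ψ → IsUnit (ψ h) → eval₂ ψ y F = 0 →
          ∃ f : R →+* T, Function.Injective f := by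
  classical
  let Q := FractionRing A'
  let K := FractionRing R
  let _ : Algebra Q K := FractionRing.liftAlgebra A' K
  have : IsScalarTower A' Q K := FractionRing.isScalarTower_liftAlgebra A' K
  have : Algebra.IsAlgebraic A' K := (IsFractionRing.isAlgebraic_iff' A' R K).1 inferInstance
  have : Algebra.IsAlgebraic Q K :=
    (IsFractionRing.comap_isAlgebraic_iff (A := A') (K := Q) (C := K)).1 inferInstance
  have : Algebra.FiniteType ℤ R := ⟨⟨s, hs⟩⟩
  have : Algebra.EssFiniteType ℤ K := Algebra.EssFiniteType.comp ℤ R K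
  have : Algebra.EssFiniteType Q K := Algebra.EssFiniteType.of_comp ℤ Q K
  have : Module.Finite Q K := Algebra.finite_of_essFiniteType_of_isAlgebraic
  obtain ⟨θ, hθ⟩ := Field.exists_primitive_element Q K
  obtain ⟨c, hc0, hc⟩ := (Algebra.IsAlgebraic.isAlgebraic (R := A') θ).exists_integral_multiple
  have hinjQ : Function.Injective (algebraMap A' Q) := IsFractionRing.injective A' Q
  have hθ' : IntermediateField.adjoin Q {c • θ} = ⊤ := by
    rw [eq_top_iff, ← hθ, IntermediateField.adjoin_simple_le_iff]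
    have h1 : θ = ((algebraMap A' Q c)⁻¹ : Q) • (c • θ) := by
      rw [← algebraMap_smul Q c θ, smul_smul, inv_mul_cancel₀, one_smul]
      intro h0
      exact hc0 (hinjQ (by rw [h0, map_zero]))
    have h2 : ((algebraMap A' Q c)⁻¹ : Q) • (c • θ) ∈ IntermediateField.adjoin Q {c • θ} :=
      IntermediateField.smul_mem (IntermediateField.adjoin Q {c • θ})
        (IntermediateField.mem_adjoin_simple_self Q (c • θ))
    rw [← h1] at h2
    exact h2
  set θ' : K := c • θ with hθdef
  have hadj : Algebra.adjoin Q {θ'} = ⊤ :=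
    Algebra.adjoin_eq_top_of_primitive_element (Algebra.IsAlgebraic.isAlgebraic θ') hθ'
  set F : A'[X] := minpoly A' θ' with hFdef
  have hF : minpoly Q θ' = F.map (algebraMap A' Q) :=
    minpoly.isIntegrallyClosed_eq_field_fractions' Q hc
  obtain ⟨a, b, hab⟩ : IsCoprime (minpoly Q θ') (derivative (minpoly Q θ')) :=
    Algebra.IsSeparable.isSeparable Q θ'
  obtain ⟨d₁, hd₁, hA0⟩ := IsLocalization.integerNormalization_spec (nonZeroDivisors A') a
  obtain ⟨d₂, hd₂, hB0⟩ := IsLocalization.integerNormalization_spec (nonZeroDivisors A') b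
  have hgen : ∀ z : R, ∃ (P : A'[X]) (h₀ : A'), h₀ ≠ 0 ∧
      aeval θ' P = h₀ • algebraMap R K z := by
    intro z
    have h1 : algebraMap R K z ∈ Algebra.adjoin Q {θ'} := by rw [hadj]; trivial
    rw [Algebra.adjoin_singleton_eq_range_aeval] at h1
    obtain ⟨P, hP⟩ := h1
    obtain ⟨d, hd, hP0⟩ := IsLocalization.integerNormalization_spec (nonZeroDivisors A') P
    refine ⟨IsLocalization.integerNormalization (nonZeroDivisors A') P, d,
      nonZeroDivisors.ne_zero hd, ?_⟩
    have hP' : aeval θ' P = algebraMap R K z := hP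
    rw [← aeval_map_algebraMap Q, hP0, ← algebraMap_smul Q d P, map_smul,
      algebraMap_smul, hP']
  choose P h₀ hh₀ hP using hgen
  refine ⟨(∏ z ∈ s, h₀ z), d₁ * d₂, F,
    C d₂ * IsLocalization.integerNormalization (nonZeroDivisors A') a,
    C d₁ * IsLocalization.integerNormalization (nonZeroDivisors A') b, Finset.prod_ne_zero_iff.2 fun z _ => hh₀ z,
    mul_ne_zero (nonZeroDivisors.ne_zero hd₁) (nonZeroDivisors.ne_zero hd₂),
    minpoly.monic hc, minpoly.natDegree_pos hc, ?_, ?_⟩
  · apply Polynomial.map_injective (algebraMap A' Q) hinjQ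
    simp only [Polynomial.map_add, Polynomial.map_mul, Polynomial.map_C, hA0, hB0,
      ← Polynomial.derivative_map, ← hF]
    rw [← algebraMap_smul Q d₁ a, ← algebraMap_smul Q d₂ b, smul_eq_C_mul, smul_eq_C_mul,
      map_mul, C_mul]
    linear_combination (C (algebraMap A' Q d₁) * C (algebraMap A' Q d₂)) * hab
  · intro T _ _ ψ y hψ hu hy
    let L := FractionRing T
    have hinjL : Function.Injective (algebraMap T L) := IsFractionRing.injective T L
    have hg0 : Function.Injective ((algebraMap T L).comp ψ) := hinjL.comp hψ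
    let ψ' : Q →+* L := IsFractionRing.lift hg0
    let _ : Algebra Q L := ψ'.toAlgebra
    have hψ' : ∀ x : A', ψ' (algebraMap A' Q x) = algebraMap T L (ψ x) := fun x =>
      IsFractionRing.lift_algebraMap hg0 x
    have hcomp : ψ'.comp (algebraMap A' Q) = (algebraMap T L).comp ψ := RingHom.ext hψ'
    let pb : PowerBasis Q K :=
      PowerBasis.ofAdjoinEqTop (Algebra.IsIntegral.isIntegral (R := Q) θ') hadj
    have hpb : pb.gen = θ' := rfl
    have hroot : aeval (algebraMap T L y) (minpoly Q pb.gen) = 0 := by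
      rw [hpb, hF, aeval_def, eval₂_map]
      show eval₂ (ψ'.comp (algebraMap A' Q)) _ _ = 0
      rw [hcomp, ← Polynomial.hom_eval₂, hy, map_zero]
    let φ : K →ₐ[Q] L := pb.lift (algebraMap T L y) hroot
    have hφθ : φ θ' = algebraMap T L y := pb.lift_gen _ hroot
    have hφA : ∀ x : A', φ (algebraMap A' K x) = algebraMap T L (ψ x) := by
      intro x
      rw [IsScalarTower.algebraMap_apply A' Q K, AlgHom.commutes]
      exact hψ' x
    have hφP : ∀ p : A'[X], φ (aeval θ' p) = algebraMap T L (eval₂ ψ y p) := by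
      intro p
      rw [aeval_def, ← RingHom.coe_coe φ, Polynomial.hom_eval₂, Polynomial.hom_eval₂]
      congr 1
      exact RingHom.ext hφA
    let G : R →+* L := (φ : K →+* L).comp (algebraMap R K)
    have hGs : ∀ z ∈ s, G z ∈ (algebraMap T L).range := by
      intro z hz
      have h1 : φ (aeval θ' (P z)) = φ (h₀ z • algebraMap R K z) := by rw [hP]
      rw [hφP, Algebra.smul_def, map_mul, hφA] at h1
      have h2 : IsUnit (ψ (h₀ z)) := by
        rw [map_prod] at hu
        exact isUnit_of_dvd_unit (Finset.dvd_prod_of_mem (fun z => ψ (h₀ z)) hz) hu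
      obtain ⟨v, hv⟩ := h2
      refine ⟨↑v⁻¹ * eval₂ ψ y (P z), ?_⟩
      rw [map_mul, h1, ← mul_assoc, ← map_mul, ← hv, Units.inv_mul, map_one, one_mul]
      rfl
    have hG : ∀ z, G z ∈ (algebraMap T L).range := by
      intro z
      have hz : z ∈ Algebra.adjoin ℤ (s : Set R) := by rw [hs]; trivial
      induction hz using Algebra.adjoin_induction with
      | mem x hx => exact hGs x hx
      | algebraMap n =>
        refine ⟨(n : T), ?_⟩
        simp
      | add x y _ _ hx hy =>
        rw [map_add]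
        exact add_mem hx hy
      | mul x y _ _ hx hy =>
        rw [map_mul]
        exact mul_mem hx hy
    have hGinj : Function.Injective G :=
      (φ : K →+* L).injective.comp (IsFractionRing.injective R K)
    let e : T ≃+* (algebraMap T L).range := RingEquiv.ofBijective (algebraMap T L).rangeRestrict
      ⟨fun x y hxy => hinjL (congrArg Subtype.val hxy), (algebraMap T L).rangeRestrict_surjective⟩
    refine ⟨(e.symm : _ →+* T).comp (G.codRestrict _ hG), ?_⟩
    refine e.symm.injective.comp fun x y hxy => hGinj ?_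
    exact congrArg Subtype.val hxy

/-- A generic presentation of a finitely generated domain of characteristic zero. -/
theorem exists_presentation (R : Type u) [CommRing R] [IsDomain R] [CharZero R]
    [Algebra.FiniteType ℤ R] :
    ∃ (r : ℕ) (h D : MvPolynomial (Fin r) ℤ) (F A B : (MvPolynomial (Fin r) ℤ)[X]),
      h ≠ 0 ∧ D ≠ 0 ∧ F.Monic ∧ 0 < F.natDegree ∧ A * F + B * derivative F = C D ∧
      ∀ (T : Type) [CommRing T] [IsDomain T] (ψ : MvPolynomial (Fin r) ℤ →+* T) (y : T),
        Function.Injective ψ → IsUnit (ψ h) → eval₂ ψ y F = 0 →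
          ∃ f : R →+* T, Function.Injective f := by
  classical
  obtain ⟨s, hs⟩ := (inferInstance : Algebra.FiniteType ℤ R).out
  have : Algebra.IsAlgebraic (Algebra.adjoin ℤ (s : Set R)) R := by
    rw [hs]
    exact ⟨fun x => isAlgebraic_algebraMap (⟨x, trivial⟩ : (⊤ : Subalgebra ℤ R))⟩
  obtain ⟨t, hts, ht⟩ := exists_isTranscendenceBasis_subset (R := ℤ) (A := R) (s : Set R)
  have : Finite t := Set.Finite.subset s.finite_toSet hts
  let e : Fin (Nat.card t) ≃ t := (Finite.equivFin t).symm
  set x : Fin (Nat.card t) → R := fun i => (e i : R) with hx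
  have hxb : IsTranscendenceBasis ℤ x := (isTranscendenceBasis_equiv e).2 ht
  let _ : Algebra (MvPolynomial (Fin (Nat.card t)) ℤ) R := (MvPolynomial.aeval x).toAlgebra
  have hinj : Function.Injective (MvPolynomial.aeval x : MvPolynomial _ ℤ →ₐ[ℤ] R) := hxb.1
  have : FaithfulSMul (MvPolynomial (Fin (Nat.card t)) ℤ) R :=
    (faithfulSMul_iff_algebraMap_injective _ _).2 hinj
  have : Algebra.IsAlgebraic (MvPolynomial (Fin (Nat.card t)) ℤ) R := by
    have h1 := hxb.isAlgebraic
    exact Algebra.IsAlgebraic.of_ringHom_of_comp_eq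
      (S := Algebra.adjoin ℤ (Set.range x)) (B := R)
      (f := hxb.1.aevalEquiv) (g := RingHom.id R) hxb.1.aevalEquiv.surjective
      Function.injective_id (RingHom.ext fun p => hxb.1.algebraMap_aevalEquiv p)
  exact ⟨Nat.card t, FinGen_core s hs⟩

end Pool.Agent.H71.KP

end

section

/-!
# Primes modulo which a polynomial has a root (Schur)

PROOF. Let `f` be nonconstant in `ℤ[X]`. If `f.eval 0 = 0` take `a = 0` and any prime `p > N`.
Otherwise put `c = f.eval 0 ≠ 0`. Then `f.eval (c * M * t) = c * (1 + M * g(t))` for every integer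
`M` and a polynomial `g` (all terms of positive degree of `f (c M t)` are divisible by `c M`),
e.g. via `Polynomial.sub_dvd_eval_sub`. Take `M = N !` and an integer `t` such that
`f.eval (c * M * t) ≠ c, -c` (finitely many `t` are excluded, as `f` is nonconstant). Then
`1 + M g(t) ≠ 1, -1`, so (it is also nonzero or any prime works) it has a prime divisor `p`; `p`
does not divide `M = N !`, hence `p > N`, and `p ∣ f.eval (c * M * t)`.
-/

set_option autoImplicit false

open Polynomial

namespace Pool.Agent.H71.KP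

/-- For every nonconstant integral polynomial there are arbitrarily large primes modulo which it
has a root. -/
theorem exists_prime_root (f : ℤ[X]) (hf : 0 < f.natDegree) (N : ℕ) :
    ∃ p : ℕ, p.Prime ∧ N < p ∧ ∃ a : ℤ, (p : ℤ) ∣ f.eval a := by
  by_cases hc : f.eval 0 = 0
  · obtain ⟨p, hp, hprime⟩ := Nat.exists_infinite_primes (N + 1)
    refine ⟨p, hprime, by omega, 0, ?_⟩
    rw [hc]
    exact dvd_zero _
  set c := f.eval 0 with hcdef
  -- a good argument
  have hfin : ∀ e : ℤ, {x : ℤ | f.eval x = e}.Finite := by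
    intro e
    have hne : f - C e ≠ 0 := by
      intro h0
      have h1 : f = C e := sub_eq_zero.1 h0
      rw [h1, natDegree_C] at hf
      exact absurd hf (lt_irrefl _)
    refine Set.Finite.subset (f - C e).roots.toFinset.finite_toSet ?_
    intro x hx
    have hx' : f.eval x = e := hx
    simp only [Finset.mem_coe, Multiset.mem_toFinset, mem_roots hne, IsRoot.def, eval_sub, eval_C,
      hx', sub_self]
  have hM : ((N.factorial : ℕ) : ℤ) ≠ 0 := by exact_mod_cast N.factorial_ne_zero
  have hinj : Function.Injective fun t : ℤ => c * N.factorial * t := by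
    intro t t' h
    exact mul_left_cancel₀ (mul_ne_zero hc hM) h
  have hbad : ({t : ℤ | f.eval (c * N.factorial * t) = c} ∪
      {t : ℤ | f.eval (c * N.factorial * t) = -c}).Finite :=
    ((hfin c).preimage hinj.injOn).union ((hfin (-c)).preimage hinj.injOn)
  obtain ⟨t, ht⟩ := hbad.infinite_compl.nonempty
  have ht1 : f.eval (c * N.factorial * t) ≠ c := fun h => ht (Or.inl h)
  have ht2 : f.eval (c * N.factorial * t) ≠ -c := fun h => ht (Or.inr h)
  obtain ⟨k, hk⟩ := sub_dvd_eval_sub (c * N.factorial * t) 0 f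
  rw [sub_zero, ← hcdef] at hk
  have hval : f.eval (c * N.factorial * t) = c * (1 + N.factorial * (t * k)) := by
    linear_combination hk
  have hne : (1 + (N.factorial : ℤ) * (t * k)).natAbs ≠ 1 := by
    intro h
    rcases Int.natAbs_eq_iff.1 h with h | h
    · apply ht1
      rw [hval, h]
      simp
    · apply ht2
      rw [hval, h]
      simp
  obtain ⟨p, hp, hpd⟩ := Nat.exists_prime_and_dvd hne
  have hpd' : (p : ℤ) ∣ 1 + (N.factorial : ℤ) * (t * k) := Int.natCast_dvd.2 hpd
  refine ⟨p, hp, ?_, c * N.factorial * t, ?_⟩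
  · by_contra hle
    rw [not_lt] at hle
    have h1 : (p : ℤ) ∣ (N.factorial : ℤ) := by
      exact_mod_cast (hp.dvd_factorial).2 hle
    have h2 : (p : ℤ) ∣ 1 := (Int.dvd_iff_dvd_of_dvd_add hpd').2 (h1.mul_right _)
    have h3 : p ∣ 1 := by exact_mod_cast h2
    exact hp.one_lt.ne' (Nat.dvd_one.1 h3)
  · rw [hval]
    exact hpd'.mul_left c

end Pool.Agent.H71.KP

end

section

/-!
# Embedding of finitely generated domains of characteristic zero in the `p`-adic integers (Cassels)

PROOF. Take `r, h, D, F, A, B` from `exists_presentation`. As `h * D ≠ 0` there is a point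
`a : Fin r → ℤ` with `(h * D)(a) ≠ 0` (`MvPolynomial.funext` or `MvPolynomial.exists_eval_ne_zero...`).
Let `N` be the absolute value of `(h * D)(a)`. The polynomial `F_a = F.map (MvPolynomial.eval a)` in
`ℤ[X]` is monic of positive degree, so by `exists_prime_root` there are a prime `p > N` and an
integer `b` with `p ∣ F_a.eval b`. By `exists_algInd` there is `t : Fin r → ℤ_[p]`, `t ≡ a` modulo
`p`, with `ψ = MvPolynomial.aeval t` injective. Then `ψ h ≡ h(a)` is not divisible by `p`, hence a
unit of `ℤ_[p]`, and in the same way `ψ D` is a unit. For `F_t = F.map ψ` we have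
`F_t.eval b ≡ F_a.eval b ≡ 0` modulo `p`, and `F_t.derivative.eval b` is a unit by
`A F + B F' = C D`. By Hensel's lemma (`hensels_lemma`, with coefficients in `ℤ_[p]`, or the
Henselian local ring instance) `F_t` has a root `y` in `ℤ_[p]`. Now apply the last property of
`exists_presentation`.
-/

set_option autoImplicit false

universe u

open Polynomial

namespace Pool.Agent.H71.KP

/-- **Cassels embedding theorem.** Every finitely generated domain of characteristic zero embeds in
`ℤ_[p]` for some prime `p`. -/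
theorem exists_padic_embedding (R : Type u) [CommRing R] [IsDomain R] [CharZero R]
    [Algebra.FiniteType ℤ R] :
    ∃ (p : ℕ) (_ : Fact p.Prime) (f : R →+* ℤ_[p]), Function.Injective f := by
  obtain ⟨r, h, D, F, A, B, hh, hD, hmon, hdeg, hAB, hlast⟩ := exists_presentation R
  have hhD : h * D ≠ 0 := mul_ne_zero hh hD
  obtain ⟨a, ha⟩ : ∃ a : Fin r → ℤ, MvPolynomial.eval a (h * D) ≠ 0 := by
    by_contra hcon
    push Not at hcon
    exact hhD (MvPolynomial.funext fun x => by rw [hcon x, map_zero])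
  set N := (MvPolynomial.eval a (h * D)).natAbs with hN
  set Fa : ℤ[X] := F.map (MvPolynomial.eval a) with hFa
  have hFadeg : 0 < Fa.natDegree := by
    rw [hFa, hmon.natDegree_map]
    exact hdeg
  obtain ⟨p, hp, hNp, b, hb⟩ := exists_prime_root Fa hFadeg N
  have hpf : Fact p.Prime := ⟨hp⟩
  obtain ⟨t, ht, hinj⟩ := exists_algInd p r (fun i => (a i : ℤ_[p]))
  set ψ : MvPolynomial (Fin r) ℤ →+* ℤ_[p] :=
    (MvPolynomial.aeval t : MvPolynomial (Fin r) ℤ →ₐ[ℤ] ℤ_[p]).toRingHom with hψ
  set I : Ideal ℤ_[p] := Ideal.span {(p : ℤ_[p])} with hI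
  set mk : ℤ_[p] →+* ℤ_[p] ⧸ I := Ideal.Quotient.mk I with hmk
  have hcomp : mk.comp ψ = (mk.comp (Int.castRingHom ℤ_[p])).comp (MvPolynomial.eval a) := by
    refine MvPolynomial.ringHom_ext (fun n => ?_) (fun i => ?_)
    · simp [hψ]
    · have e1 : ψ (MvPolynomial.X i) = t i := by simp [hψ]
      have e2 : MvPolynomial.eval a (MvPolynomial.X i) = a i := MvPolynomial.eval_X i
      rw [RingHom.comp_apply, RingHom.comp_apply, RingHom.comp_apply, e1, e2]
      change Ideal.Quotient.mk I (t i) = Ideal.Quotient.mk I ((a i : ℤ) : ℤ_[p])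
      rw [Ideal.Quotient.eq, hI, Ideal.mem_span_singleton]
      exact ht i
  have hdvd : ∀ x : ℤ_[p], mk x = 0 ↔ (p : ℤ_[p]) ∣ x := by
    intro x
    rw [hmk, Ideal.Quotient.eq_zero_iff_mem, hI, Ideal.mem_span_singleton]
  have hunit : ∀ x : ℤ_[p], ¬ (p : ℤ_[p]) ∣ x → ‖x‖ = 1 := by
    intro x hx
    rcases (PadicInt.norm_le_one x).lt_or_eq with h1 | h1
    · exact absurd ((PadicInt.norm_lt_one_iff_dvd x).1 h1) hx
    · exact h1
  have hint : ∀ k : ℤ, (p : ℤ_[p]) ∣ (k : ℤ_[p]) ↔ (p : ℤ) ∣ k := by
    intro k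
    rw [← PadicInt.norm_lt_one_iff_dvd, PadicInt.norm_int_lt_one_iff_dvd]
  have hprod : ¬ (p : ℤ) ∣ MvPolynomial.eval a (h * D) := by
    intro hd
    have h1 := Int.natAbs_dvd_natAbs.2 hd
    rw [Int.natAbs_natCast] at h1
    have h2 := Nat.le_of_dvd (Int.natAbs_pos.2 ha) h1
    omega
  have hψP : ∀ P : MvPolynomial (Fin r) ℤ, ¬ (p : ℤ) ∣ MvPolynomial.eval a P →
      ¬ (p : ℤ_[p]) ∣ ψ P := by
    intro P hP hd
    apply hP
    rw [← hint, ← hdvd]
    rw [← hdvd] at hd
    have h1 : mk (ψ P) = mk ((MvPolynomial.eval a P : ℤ) : ℤ_[p]) := RingHom.congr_fun hcomp P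
    rw [← h1]
    exact hd
  have hψh : ¬ (p : ℤ_[p]) ∣ ψ h := hψP h fun hd => hprod (by
    rw [map_mul]
    exact dvd_mul_of_dvd_left hd _)
  have hψD : ¬ (p : ℤ_[p]) ∣ ψ D := hψP D fun hd => hprod (by
    rw [map_mul]
    exact dvd_mul_of_dvd_right hd _)
  set Ft : ℤ_[p][X] := F.map ψ with hFt
  have hroot : (p : ℤ_[p]) ∣ Ft.eval (b : ℤ_[p]) := by
    have e1 : mk (Ft.eval (b : ℤ_[p])) = mk ((Fa.eval b : ℤ) : ℤ_[p]) := by
      have e2 : mk ((Fa.eval b : ℤ) : ℤ_[p]) =
          (mk.comp (Int.castRingHom ℤ_[p])) (eval₂ (MvPolynomial.eval a) b F) := by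
        rw [hFa, eval_map]
        rfl
      rw [e2, hom_eval₂, ← hcomp, hFt, eval_map, hom_eval₂]
      rfl
    rw [← hdvd, e1, hdvd, hint]
    exact hb
  have hder : ¬ (p : ℤ_[p]) ∣ (derivative Ft).eval (b : ℤ_[p]) := by
    intro hd
    apply hψD
    have h1 := congrArg (fun G => eval (b : ℤ_[p]) (G.map ψ)) hAB
    simp only [Polynomial.map_add, Polynomial.map_mul, eval_add, eval_mul, map_C, eval_C] at h1
    rw [← h1]
    refine dvd_add (dvd_mul_of_dvd_right hroot _) (dvd_mul_of_dvd_right ?_ _)
    rw [← derivative_map]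
    exact hd
  obtain ⟨y, hy, _⟩ := hensels_lemma (F := Ft) (a := (b : ℤ_[p])) (by
    simp only [coe_aeval_eq_eval]
    rw [hunit _ hder, one_pow]
    exact (PadicInt.norm_lt_one_iff_dvd _).2 hroot)
  have hy2 : eval₂ ψ y F = 0 := by
    rw [← eval_map]
    simpa [coe_aeval_eq_eval] using hy
  obtain ⟨f, hf⟩ := hlast ℤ_[p] ψ y hinj (PadicInt.isUnit_iff.2 (hunit _ hψh)) hy2
  exact ⟨p, hpf, f, hf⟩

end Pool.Agent.H71.KP

end

section

/-!
# Rationally isomorphic lattices modulo a prime

Let `a : Matrix X Y ℤ`, `b : Matrix Y X ℤ`, `a b = n`, `b a = n`, `n ≠ 0`, and let `A h`, `B h` be matrices with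
`A h * a = a * B h` for all `h`. Then in suitable `ℤ`-bases `A h` and `B h` are, modulo `p`, block upper and
block lower triangular with respect to a function `v`, with conjugate diagonal blocks.

## Paper proof

Smith normal form of `a` (`Submodule.exists_smith_normal_form_of_rank_eq` for the range of `a.mulVecLin` in
`X → ℤ`, which has full rank since `a b = n`; `a.mulVecLin` is injective since `b a = n`): there are invertible
integral matrices `P` (`X × X`, inverse `P'`), `Q` (`Y × X`, inverse `Q'`) and integers `d i ≠ 0`, `i : X`, with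
`P' a Q = diagonal d`. (Basis `β i` of `X → ℤ`, basis `γ i` of the range with `γ i = d i • β i`: `P` has the columns
`β i`; the columns of `Q` are the preimages of the `γ i` in `Y → ℤ`, a basis since `a.mulVecLin` is injective.)

Put `A' h = P' A h P`, `B' h = Q' B h Q`. From `A h a = a B h`: `A' h (diagonal d) = (diagonal d) B' h`, i.e.
`A' h i j * d j = d i * B' h i j`. Let `v i` be the exponent of `p` in `d i` (`padicValInt` or `multiplicity`),
`d i = p ^ v i * u i`, `p ∤ u i`, and choose `u' i` with `u i u' i ≡ 1 mod p`.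
- `v j < v i`: `A' h i j * u j = p ^ (v i - v j) * u i * B' h i j`, so `p ∣ A' h i j`.
- `v i < v j`: `A' h i j * p ^ (v j - v i) * u j = u i * B' h i j`, so `p ∣ B' h i j`.
- `v i = v j`: `A' h i j * u j = u i * B' h i j`; multiply by `u' j`.
-/

set_option autoImplicit false

open Matrix

universe u v w

namespace Pool.Agent.H95.WH

theorem exists_smn {X Y : Type v} [Fintype X] [Fintype Y] [DecidableEq X] [DecidableEq Y]
    (n : ℕ) (hn : n ≠ 0) (a : Matrix X Y ℤ) (b : Matrix Y X ℤ)
    (hab : a * b = (n : ℤ) • (1 : Matrix X X ℤ)) (hba : b * a = (n : ℤ) • (1 : Matrix Y Y ℤ)) :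
    ∃ (P P' : Matrix X X ℤ) (Q : Matrix Y X ℤ) (Q' : Matrix X Y ℤ) (d : X → ℤ),
      P * P' = 1 ∧ P' * P = 1 ∧ Q * Q' = 1 ∧ Q' * Q = 1 ∧ a * Q = P * diagonal d ∧
        ∀ i, d i ≠ 0 := by
  have hn' : (n : ℤ) ≠ 0 := by exact_mod_cast hn
  have hainj : Function.Injective a.mulVecLin := by
    rw [← LinearMap.ker_eq_bot, LinearMap.ker_eq_bot']
    intro y hy
    have h1 : b *ᵥ (a *ᵥ y) = 0 := by
      have : a *ᵥ y = 0 := hy
      rw [this, mulVec_zero]
    rw [mulVec_mulVec, hba, smul_mulVec, one_mulVec] at h1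
    exact (smul_eq_zero.1 h1).resolve_left hn'
  have hbinj : Function.Injective b.mulVecLin := by
    rw [← LinearMap.ker_eq_bot, LinearMap.ker_eq_bot']
    intro y hy
    have h1 : a *ᵥ (b *ᵥ y) = 0 := by
      have : b *ᵥ y = 0 := hy
      rw [this, mulVec_zero]
    rw [mulVec_mulVec, hab, smul_mulVec, one_mulVec] at h1
    exact (smul_eq_zero.1 h1).resolve_left hn'
  have hfr : Module.finrank ℤ (Y → ℤ) = Module.finrank ℤ (X → ℤ) :=
    le_antisymm (LinearMap.finrank_le_finrank_of_injective hainj)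
      (LinearMap.finrank_le_finrank_of_injective hbinj)
  have hfr' : Module.finrank ℤ (LinearMap.range a.mulVecLin) = Module.finrank ℤ (X → ℤ) := by
    rw [← hfr]
    exact (LinearEquiv.ofInjective a.mulVecLin hainj).finrank_eq.symm
  obtain ⟨β, d, γ, hγ⟩ := Submodule.exists_smith_normal_form_of_rank_eq (Pi.basisFun ℤ X) hfr'
  let c : Module.Basis X ℤ (Y → ℤ) := γ.map (LinearEquiv.ofInjective a.mulVecLin hainj).symm
  have hc : ∀ i, a *ᵥ (c i) = d i • β i := by
    intro i
    rw [← hγ i]
    have h1 : LinearEquiv.ofInjective a.mulVecLin hainj (c i) = γ i := by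
      rw [Module.Basis.map_apply, LinearEquiv.apply_symm_apply]
    rw [← h1]
    rfl
  refine ⟨(Pi.basisFun ℤ X).toMatrix β, β.toMatrix (Pi.basisFun ℤ X),
    (Pi.basisFun ℤ Y).toMatrix c, c.toMatrix (Pi.basisFun ℤ Y), d,
    Module.Basis.toMatrix_mul_toMatrix_flip _ _, Module.Basis.toMatrix_mul_toMatrix_flip _ _,
    Module.Basis.toMatrix_mul_toMatrix_flip _ _, Module.Basis.toMatrix_mul_toMatrix_flip _ _, ?_, ?_⟩
  · ext x i
    have h1 := congrFun (hc i) x
    rw [mul_diagonal]
    have h2 : (a * (Pi.basisFun ℤ Y).toMatrix c) x i = (a *ᵥ (c i)) x := rfl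
    rw [h2, h1]
    have h3 : ((Pi.basisFun ℤ X).toMatrix β) x i = β i x := rfl
    rw [h3, Pi.smul_apply, smul_eq_mul, mul_comm]
  · intro i hi
    apply γ.ne_zero i
    apply Subtype.ext
    rw [hγ i, hi, zero_smul]
    rfl

private theorem exists_val (p : ℕ) [Fact p.Prime] (d : ℤ) (hd : d ≠ 0) :
    ∃ (v : ℕ) (u u' : ℤ), d = (p : ℤ) ^ v * u ∧ ¬ (p : ℤ) ∣ u ∧ (p : ℤ) ∣ u * u' - 1 := by
  have hp : Prime (p : ℤ) := Nat.prime_iff_prime_int.1 (Fact.out : p.Prime)
  have hfin : FiniteMultiplicity (p : ℤ) d := by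
    rw [Int.finiteMultiplicity_iff]
    refine ⟨?_, hd⟩
    rw [Int.natAbs_natCast]
    exact (Fact.out : p.Prime).ne_one
  obtain ⟨u, h1, h2⟩ := hfin.exists_eq_pow_mul_and_not_dvd
  have hcop : IsCoprime (p : ℤ) u := (hp.irreducible.coprime_iff_not_dvd).2 h2
  obtain ⟨x, y, hxy⟩ := hcop
  refine ⟨_, u, y, h1, h2, -x, ?_⟩
  linear_combination hxy

theorem exists_modp (p : ℕ) [Fact p.Prime] {X Y : Type v} [Fintype X] [Fintype Y]
    [DecidableEq X] [DecidableEq Y] (n : ℕ) (hn : n ≠ 0) (a : Matrix X Y ℤ) (b : Matrix Y X ℤ)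
    (hab : a * b = (n : ℤ) • (1 : Matrix X X ℤ)) (hba : b * a = (n : ℤ) • (1 : Matrix Y Y ℤ))
    {H : Type w} (A : H → Matrix X X ℤ) (B : H → Matrix Y Y ℤ) (hAB : ∀ h, A h * a = a * B h) :
    ∃ (v : X → ℕ) (P P' : Matrix X X ℤ) (Q : Matrix Y X ℤ) (Q' : Matrix X Y ℤ) (u u' : X → ℤ),
      P * P' = 1 ∧ P' * P = 1 ∧ Q * Q' = 1 ∧ Q' * Q = 1 ∧ (∀ i, (p : ℤ) ∣ u i * u' i - 1) ∧
      (∀ h i j, v j < v i → (p : ℤ) ∣ (P' * A h * P) i j) ∧
      (∀ h i j, v i < v j → (p : ℤ) ∣ (Q' * B h * Q) i j) ∧
      (∀ h i j, v i = v j →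
        (p : ℤ) ∣ (P' * A h * P) i j - u i * (Q' * B h * Q) i j * u' j) := by
  have hp : Prime (p : ℤ) := Nat.prime_iff_prime_int.1 (Fact.out : p.Prime)
  have hp0 : (p : ℤ) ≠ 0 := hp.ne_zero
  obtain ⟨P, P', Q, Q', d, h1, h2, h3, h4, h5, hd⟩ := exists_smn n hn a b hab hba
  choose v u u' hv hu hu' using fun i => exists_val p (d i) (hd i)
  refine ⟨v, P, P', Q, Q', u, u', h1, h2, h3, h4, hu', ?_⟩
  have hPa : P' * a = diagonal d * Q' := by
    have h6 : P' * (a * Q) * Q' = P' * a := by
      rw [Matrix.mul_assoc, Matrix.mul_assoc, h3, Matrix.mul_one]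
    rw [← h6, h5, ← Matrix.mul_assoc P' P, h2, Matrix.one_mul]
  have key : ∀ h i j, (P' * A h * P) i j * d j = d i * (Q' * B h * Q) i j := by
    intro h i j
    have h7 : P' * A h * P * diagonal d = diagonal d * (Q' * B h * Q) := by
      calc P' * A h * P * diagonal d = P' * A h * (P * diagonal d) := Matrix.mul_assoc _ _ _
        _ = P' * (A h * a) * Q := by
            rw [← h5, ← Matrix.mul_assoc, Matrix.mul_assoc P' (A h) a]
        _ = P' * a * B h * Q := by rw [hAB, ← Matrix.mul_assoc P' a]
        _ = diagonal d * (Q' * B h * Q) := by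
            rw [hPa, Matrix.mul_assoc, Matrix.mul_assoc, Matrix.mul_assoc]
    have h8 := congrFun (congrFun h7 i) j
    rwa [mul_diagonal, diagonal_mul] at h8
  refine ⟨fun h i j hij => ?_, fun h i j hij => ?_, fun h i j hij => ?_⟩
  · obtain ⟨e, he⟩ := Nat.exists_eq_add_of_lt hij
    have h9 := key h i j
    rw [hv i, hv j, he, pow_add, pow_add, pow_one] at h9
    have h10 : (P' * A h * P) i j * u j = (p : ℤ) * ((p : ℤ) ^ e * u i * (Q' * B h * Q) i j) := by
      apply mul_left_cancel₀ (pow_ne_zero (v j) hp0)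
      linear_combination h9
    exact (hp.dvd_or_dvd (Dvd.intro _ h10.symm)).resolve_right (hu j)
  · obtain ⟨e, he⟩ := Nat.exists_eq_add_of_lt hij
    have h9 := key h i j
    rw [hv i, hv j, he, pow_add, pow_add, pow_one] at h9
    have h10 : u i * (Q' * B h * Q) i j = (p : ℤ) * ((p : ℤ) ^ e * u j * (P' * A h * P) i j) := by
      apply mul_left_cancel₀ (pow_ne_zero (v i) hp0)
      linear_combination -h9
    exact (hp.dvd_or_dvd (Dvd.intro _ h10.symm)).resolve_left (hu i)
  · have h9 := key h i j
    rw [hv i, hv j, hij] at h9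
    have h10 : (P' * A h * P) i j * u j = u i * (Q' * B h * Q) i j := by
      apply mul_left_cancel₀ (pow_ne_zero (v j) hp0)
      linear_combination h9
    obtain ⟨w, hw⟩ := hu' j
    refine ⟨-((P' * A h * P) i j * w), ?_⟩
    rw [← h10]
    linear_combination -(P' * A h * P) i j * hw

end Pool.Agent.H95.WH

end
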