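import Pool.Agent.H71.TCZ.M34
import Pool.Agent.H71.TCZ.M38
import Pool.Agent.H71.TCZ.M40
import Pool.Agent.H71.TCZ.M41
import Pool.Agent.H71.TCZ.M44

/-! The parts of this file: H71.KP.Desc, H71.KP.MainP, H8.KL.ElimS. -/

section

/-!
# Descent of relations to finitely generated subrings
-/

set_option autoImplicit false
set_option linter.unusedSectionVars false

open Matrix Filter

universe u v w t

namespace Pool.Agent.H71.KP

open Pool.Agent.H71.WH (InvMat K1 K1.mk K1.unit K1Rel genK1 addOne oneByOne CycSub conjHom)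

section FreeAb

/-- `FreeAbelianGroup.map` is injective for injective maps. -/
theorem freeMap_injective {α : Type u} {β : Type v} {f : α → β} (hf : Function.Injective f) :
    Function.Injective (FreeAbelianGroup.map f) := by
  classical
  rcases isEmpty_or_nonempty α with hα | hα
  · intro x y _
    have h0 : ∀ z : FreeAbelianGroup α, z = 0 := by
      intro z
      induction z using FreeAbelianGroup.induction_on with
      | zero => rfl
      | of x => exact isEmptyElim x
      | neg x _ => exact isEmptyElim x
      | add x y hx hy => rw [hx, hy, add_zero]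
    rw [h0 x, h0 y]
  · obtain ⟨g, hg⟩ := hf.hasLeftInverse
    intro x y h
    have h1 : ∀ z : FreeAbelianGroup α, FreeAbelianGroup.map g (FreeAbelianGroup.map f z) = z := by
      intro z
      induction z using FreeAbelianGroup.induction_on with
      | zero => rw [map_zero, map_zero]
      | of x => rw [FreeAbelianGroup.map_of_apply, FreeAbelianGroup.map_of_apply, hg]
      | neg x hx => rw [map_neg, map_neg, hx]
      | add x y hx hy => rw [map_add, map_add, hx, hy]
    rw [← h1 x, h, h1 y]

end FreeAb

section Unit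

/-- Units lift along injective ring homomorphisms if they and their inverses are in the range. -/
theorem exists_unit_lift {A : Type u} {B : Type v} [Ring A] [Ring B] (φ : A →+* B)
    (hφ : Function.Injective φ) (y : Bˣ) (h1 : (y : B) ∈ φ.range)
    (h2 : ((y⁻¹ : Bˣ) : B) ∈ φ.range) : ∃ x : Aˣ, Units.map φ.toMonoidHom x = y := by
  obtain ⟨a, ha⟩ := h1
  obtain ⟨b, hb⟩ := h2
  refine ⟨⟨a, b, ?_, ?_⟩, ?_⟩
  · apply hφ
    rw [map_mul, ha, hb, map_one, Units.mul_inv]
  · apply hφ
    rw [map_mul, ha, hb, map_one, Units.inv_mul]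
  · apply Units.ext
    exact ha

end Unit

section Sub

variable {R : Type u} [CommRing R]

/-- the subring generated by a finite set -/
def sub (s : Finset R) : Subring R := Subring.closure (s : Set R)

/-- the inclusion -/
def incl (s : Finset R) : sub s →+* R := (sub s).subtype

theorem incl_injective (s : Finset R) : Function.Injective (incl s) := Subtype.val_injective

theorem eventually_mem (r : R) : ∀ᶠ s : Finset R in atTop, r ∈ (incl s).range := by
  classical
  filter_upwards [eventually_ge_atTop {r}] with s hs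
  exact ⟨⟨r, Subring.subset_closure (Finset.mem_coe.2 (hs (Finset.mem_singleton_self r)))⟩, rfl⟩

theorem eventually_ga {H : Type v} [Group H] (x : MonoidAlgebra R H) :
    ∀ᶠ s : Finset R in atTop, x ∈ (MonoidAlgebra.mapRingHom H (incl s)).range := by
  induction x using MonoidAlgebra.induction_linear with
  | zero => exact Eventually.of_forall fun s => (MonoidAlgebra.mapRingHom H (incl s)).range.zero_mem
  | add x y hx hy =>
    filter_upwards [hx, hy] with s h1 h2
    exact (MonoidAlgebra.mapRingHom H (incl s)).range.add_mem h1 h2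
  | single g r =>
    filter_upwards [eventually_mem r] with s hs
    obtain ⟨r', hr⟩ := hs
    exact ⟨MonoidAlgebra.single g r', by rw [MonoidAlgebra.mapRingHom_single, hr]⟩

theorem mapRingHom_injective {R' : Type w} [CommRing R'] {φ : R' →+* R}
    (hφ : Function.Injective φ) (H : Type v) [Group H] :
    Function.Injective (MonoidAlgebra.mapRingHom H φ) := by
  intro x y h
  ext a
  apply hφ
  have h1 := congrArg (fun z : MonoidAlgebra R H => z.coeff a) h
  simpa only [MonoidAlgebra.coeff_mapRingHom] using h1

theorem eventually_uMap {H : Type v} [Group H] (x : (MonoidAlgebra R H)ˣ) :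
    ∀ᶠ s : Finset R in atTop, ∃ x', uMap (incl s) H x' = x := by
  filter_upwards [eventually_ga (x : MonoidAlgebra R H),
    eventually_ga ((x⁻¹ : (MonoidAlgebra R H)ˣ) : MonoidAlgebra R H)] with s h1 h2
  exact exists_unit_lift _ (mapRingHom_injective (incl_injective s) H) x h1 h2

theorem eventually_mat {H : Type v} [Group H] {n : ℕ}
    (x : Matrix (Fin n) (Fin n) (MonoidAlgebra R H)) :
    ∀ᶠ s : Finset R in atTop,
      x ∈ (RingHom.mapMatrix (m := Fin n) (MonoidAlgebra.mapRingHom H (incl s))).range := by
  have h : ∀ᶠ s : Finset R in atTop, ∀ i j,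
      x i j ∈ (MonoidAlgebra.mapRingHom H (incl s)).range :=
    eventually_all.2 fun i => eventually_all.2 fun j => eventually_ga (x i j)
  filter_upwards [h] with s hs
  choose y hy using hs
  exact ⟨Matrix.of y, Matrix.ext fun i j => hy i j⟩

theorem mapMatrix_injective {A : Type u} {B : Type v} [Ring A] [Ring B] {φ : A →+* B}
    (hφ : Function.Injective φ) (n : ℕ) :
    Function.Injective (RingHom.mapMatrix (m := Fin n) φ) := by
  intro x y h
  refine Matrix.ext fun i j => hφ ?_
  exact congrFun (congrFun h i) j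

theorem eventually_mapGL {H : Type v} [Group H] {n : ℕ}
    (x : (Matrix (Fin n) (Fin n) (MonoidAlgebra R H))ˣ) :
    ∀ᶠ s : Finset R in atTop, ∃ x', mapGL (MonoidAlgebra.mapRingHom H (incl s)) n x' = x := by
  filter_upwards [eventually_mat (x : Matrix (Fin n) (Fin n) (MonoidAlgebra R H)),
    eventually_mat ((x⁻¹ : (Matrix (Fin n) (Fin n) (MonoidAlgebra R H))ˣ) :
      Matrix (Fin n) (Fin n) (MonoidAlgebra R H))] with s h1 h2
  exact exists_unit_lift _ (mapMatrix_injective (mapRingHom_injective (incl_injective s) H) n)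
    x h1 h2

end Sub

section Rel

/-- the map on invertible matrices -/
def invMap {A : Type u} {B : Type v} [Ring A] [Ring B] (φ : A →+* B) (a : InvMat A) : InvMat B :=
  ⟨a.n, mapGL φ a.n a.mat⟩

theorem mapGL_injective {A : Type u} {B : Type v} [Ring A] [Ring B] {φ : A →+* B}
    (hφ : Function.Injective φ) (n : ℕ) : Function.Injective (mapGL φ n) := by
  intro x y h
  apply Units.ext
  exact mapMatrix_injective hφ n (congrArg Units.val h)

theorem invMap_injective {A : Type u} {B : Type v} [Ring A] [Ring B] {φ : A →+* B}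
    (hφ : Function.Injective φ) : Function.Injective (invMap φ) := by
  rintro ⟨n, x⟩ ⟨m, y⟩ h
  rw [invMap, invMap] at h
  obtain ⟨h1, h2⟩ := InvMat.mk.inj h
  subst h1
  congr 1
  exact mapGL_injective hφ _ (eq_of_heq h2)

variable (R : Type u) [CommRing R] (G : Type v) [Group G]

/-- the relations of `Wh R G` on the free abelian group -/
def WRel : AddSubgroup (FreeAbelianGroup (InvMat (MonoidAlgebra R G))) :=
  AddSubgroup.closure
    (({z | ∃ (n : ℕ) (x y : (Matrix (Fin n) (Fin n) (MonoidAlgebra R G))ˣ),
        z = genK1 (x * y) - (genK1 x + genK1 y)} ∪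
      {z | ∃ (n : ℕ) (x : (Matrix (Fin n) (Fin n) (MonoidAlgebra R G))ˣ),
        z = genK1 (addOne x) - genK1 x}) ∪
      {z | ∃ x ∈ trivialUnits R G, z = genK1 (oneByOne x)})

/-- the projection to `K₁` -/
noncomputable def toK1 (A : Type u) [Ring A] : FreeAbelianGroup (InvMat A) →+ K1 A :=
  QuotientAddGroup.mk' (K1Rel A)

theorem toK1_ker (A : Type u) [Ring A] : (toK1 A).ker = K1Rel A := QuotientAddGroup.ker_mk' _

/-- the projection -/
noncomputable def toWhF :
    FreeAbelianGroup (InvMat (MonoidAlgebra R G)) →+ Wh R G :=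
  (QuotientAddGroup.mk' (trivialK1 R G)).comp (toK1 (MonoidAlgebra R G))

theorem toWhF_eq_zero (y : FreeAbelianGroup (InvMat (MonoidAlgebra R G))) :
    toWhF R G y = 0 ↔ y ∈ WRel R G := by
  have h1 : toWhF R G y = 0 ↔ toK1 (MonoidAlgebra R G) y ∈ trivialK1 R G :=
    QuotientAddGroup.eq_zero_iff _
  have h2 : trivialK1 R G = (AddSubgroup.closure
      {z | ∃ x ∈ trivialUnits R G, z = genK1 (oneByOne x)}).map
      (toK1 (MonoidAlgebra R G)) := by
    rw [AddMonoidHom.map_closure, trivialK1]
    congr 1
    ext z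
    constructor
    · rintro ⟨x, hx, rfl⟩
      exact ⟨_, ⟨x, hx, rfl⟩, rfl⟩
    · rintro ⟨_, ⟨x, hx, rfl⟩, rfl⟩
      exact ⟨x, hx, rfl⟩
  rw [h1, h2, ← AddSubgroup.mem_comap, AddSubgroup.comap_map_eq, toK1_ker, K1Rel,
    WRel, sup_comm, ← AddSubgroup.closure_union]

end Rel

section Desc

variable {R : Type u} [CommRing R] {G : Type v} [Group G]

/-- the map on the free abelian groups -/
noncomputable def mapF {R : Type u} [CommRing R] (G : Type v) [Group G] (s : Finset R) :
    FreeAbelianGroup (InvMat (MonoidAlgebra (sub s) G)) →+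
      FreeAbelianGroup (InvMat (MonoidAlgebra R G)) :=
  FreeAbelianGroup.map (invMap (MonoidAlgebra.mapRingHom G (incl s)))

theorem mapF_injective (s : Finset R) : Function.Injective (mapF G s) :=
  freeMap_injective (invMap_injective (mapRingHom_injective (incl_injective s) G))

theorem mapF_gen (s : Finset R) {n : ℕ} (x : (Matrix (Fin n) (Fin n) (MonoidAlgebra (sub s) G))ˣ) :
    mapF G s (genK1 x) = genK1 (mapGL (MonoidAlgebra.mapRingHom G (incl s)) n x) :=
  FreeAbelianGroup.map_of_apply _

theorem eventually_rel {y : FreeAbelianGroup (InvMat (MonoidAlgebra R G))} (hy : y ∈ WRel R G) :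
    ∀ᶠ s : Finset R in atTop, ∃ y' ∈ WRel (sub s) G, mapF G s y' = y := by
  classical
  induction hy using AddSubgroup.closure_induction with
  | zero => exact Eventually.of_forall fun s => ⟨0, AddSubgroup.zero_mem _, map_zero _⟩
  | add a b _ _ ha hb =>
    filter_upwards [ha, hb] with s h1 h2
    obtain ⟨a', ha1, rfl⟩ := h1
    obtain ⟨b', hb1, rfl⟩ := h2
    exact ⟨a' + b', AddSubgroup.add_mem _ ha1 hb1, map_add _ _ _⟩
  | neg a _ ha =>
    filter_upwards [ha] with s h1
    obtain ⟨a', ha1, rfl⟩ := h1
    exact ⟨-a', AddSubgroup.neg_mem _ ha1, map_neg _ _⟩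
  | mem z hz =>
    rcases hz with (⟨n, x, y, rfl⟩ | ⟨n, x, rfl⟩) | ⟨x, ⟨g, e, he, hx⟩, rfl⟩
    · filter_upwards [eventually_mapGL x, eventually_mapGL y] with s h1 h2
      obtain ⟨x', rfl⟩ := h1
      obtain ⟨y', rfl⟩ := h2
      refine ⟨genK1 (x' * y') - (genK1 x' + genK1 y'),
        AddSubgroup.subset_closure (Or.inl (Or.inl ⟨n, x', y', rfl⟩)), ?_⟩
      rw [map_sub, map_add, mapF_gen, mapF_gen, mapF_gen, map_mul]
    · filter_upwards [eventually_mapGL x] with s h1
      obtain ⟨x', rfl⟩ := h1
      refine ⟨genK1 (addOne x') - genK1 x',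
        AddSubgroup.subset_closure (Or.inl (Or.inr ⟨n, x', rfl⟩)), ?_⟩
      rw [map_sub, mapF_gen, mapF_gen, mapGL_addOne]
    · filter_upwards [eventually_uMap x] with s h1
      obtain ⟨x', rfl⟩ := h1
      have hx' : x' ∈ trivialUnits (sub s) G := by
        rcases he with rfl | rfl
        · refine ⟨g, 1, Or.inl rfl, ?_⟩
          apply mapRingHom_injective (incl_injective s) G
          rw [MonoidAlgebra.mapRingHom_single, map_one]
          exact hx
        · refine ⟨g, -1, Or.inr rfl, ?_⟩
          apply mapRingHom_injective (incl_injective s) G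
          rw [MonoidAlgebra.mapRingHom_single, map_neg, map_one]
          exact hx
      refine ⟨genK1 (oneByOne x'), AddSubgroup.subset_closure (Or.inr ⟨x', hx', rfl⟩), ?_⟩
      rw [mapF_gen, mapGL_oneByOne]
      rfl

/-- the assembly map on free abelian groups -/
noncomputable def asmF (R : Type u) [CommRing R] (G : Type v) [Group G] :
    FreeAbelianGroup (CycUnit R G) →+ FreeAbelianGroup (InvMat (MonoidAlgebra R G)) :=
  FreeAbelianGroup.lift fun a => genK1 (oneByOne (unitsMap a.C.1.subtype a.x))

theorem toWhF_asmF (z : FreeAbelianGroup (CycUnit R G)) :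
    toWhF R G (asmF R G z) = assembly R G (toColim R G z) := by
  induction z using FreeAbelianGroup.induction_on with
  | zero => rw [map_zero, map_zero, map_zero, map_zero]
  | of x =>
    rw [asmF, FreeAbelianGroup.lift_apply_of]
    exact (assembly_cl x.C x.x).symm
  | neg x hx => rw [map_neg, map_neg, hx, map_neg, map_neg]
  | add x y hx hy => rw [map_add, map_add, hx, hy, map_add, map_add]

theorem eventually_free (z : FreeAbelianGroup (CycUnit R G)) :
    ∀ᶠ s : Finset R in atTop, ∃ z' : FreeAbelianGroup (CycUnit (sub s) G),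
      colimMap (incl s) G (toColim (sub s) G z') = toColim R G z ∧
        mapF G s (asmF (sub s) G z') = asmF R G z := by
  have hof : ∀ x : CycUnit R G, ∀ᶠ s : Finset R in atTop,
      ∃ z' : FreeAbelianGroup (CycUnit (sub s) G),
        colimMap (incl s) G (toColim (sub s) G z') = toColim R G (FreeAbelianGroup.of x) ∧
        mapF G s (asmF (sub s) G z') = asmF R G (FreeAbelianGroup.of x) := by
    rintro ⟨C, x⟩
    filter_upwards [eventually_uMap x] with s h1
    obtain ⟨x', rfl⟩ := h1
    refine ⟨gen C x', ?_, ?_⟩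
    · exact colimMap_cl (incl s) G C x'
    · rw [asmF, gen, FreeAbelianGroup.lift_apply_of, asmF, FreeAbelianGroup.lift_apply_of,
        mapF_gen, mapGL_oneByOne]
      change genK1 (oneByOne (uMap (incl s) G (unitsMap C.1.subtype x'))) = _
      rw [uMap_unitsMap]
  induction z using FreeAbelianGroup.induction_on with
  | zero => exact Eventually.of_forall fun s => ⟨0, by simp, by simp⟩
  | of x => exact hof x
  | neg x _ =>
    filter_upwards [hof x] with s h1
    obtain ⟨z', h2, h3⟩ := h1
    refine ⟨-z', ?_, ?_⟩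
    · rw [map_neg, map_neg, h2, map_neg]
    · rw [map_neg, map_neg, h3, map_neg]
  | add x y hx hy =>
    filter_upwards [hx, hy] with s h1 h2
    obtain ⟨a, ha1, ha2⟩ := h1
    obtain ⟨b, hb1, hb2⟩ := h2
    refine ⟨a + b, ?_, ?_⟩
    · rw [map_add, map_add, ha1, hb1, map_add]
    · rw [map_add, map_add, ha2, hb2, map_add]

/-- **Descent.** Elements of the kernel of the assembly map come from finitely generated
subrings. -/
theorem eventually_kernel (z : ColimU R G) (M : ℤ) (h : M • assembly R G z = 0) :
    ∀ᶠ s : Finset R in atTop, ∃ z' : ColimU (sub s) G,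
      colimMap (incl s) G z' = z ∧ M • assembly (sub s) G z' = 0 := by
  obtain ⟨y, rfl⟩ : ∃ y, toColim R G y = z := QuotientAddGroup.mk_surjective z
  have h1 : M • asmF R G y ∈ WRel R G := by
    rw [← toWhF_eq_zero, map_zsmul, toWhF_asmF, h]
  filter_upwards [eventually_free y, eventually_rel h1] with s h2 h3
  obtain ⟨z', hz1, hz2⟩ := h2
  obtain ⟨y', hy1, hy2⟩ := h3
  refine ⟨toColim (sub s) G z', hz1, ?_⟩
  have h4 : y' = M • asmF (sub s) G z' := by
    apply mapF_injective s
    rw [hy2, map_zsmul, hz2]
  rw [← toWhF_asmF, ← map_zsmul, ← h4]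
  exact (toWhF_eq_zero _ _ y').2 hy1

end Desc

end Pool.Agent.H71.KP

end

section

/-!
# The kernel of the assembly map is torsion for domains of characteristic `p`
-/

set_option autoImplicit false
set_option linter.unusedSectionVars false
set_option linter.unusedSimpArgs false

open Matrix HahnSeries Filter
open scoped Classical

universe u v w t

namespace Pool.Agent.H71.KP

open Pool.Agent.H71.WH (CycSub conjHom)

variable {p : ℕ} [hp : Fact p.Prime] {R : Type u} [CommRing R]

theorem charP_ga [CharP R p] (H : Type v) [Group H] : CharP (MonoidAlgebra R H) p := by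
  have hinj : Function.Injective (MonoidAlgebra.singleOneRingHom : R →+* MonoidAlgebra R H) := by
    intro a b h
    have h1 := congrArg (fun z : MonoidAlgebra R H => z.coeff 1) h
    simpa using h1
  exact charP_of_injective_ringHom hinj p

theorem pow_mem_range [CharP R p] {H : Type v} [Group H] (hc : ∀ a b : H, a * b = b * a)
    (S : Subgroup H) (a : ℕ) (hS : ∀ h : H, h ^ p ^ a ∈ S) (x : MonoidAlgebra R H) :
    x ^ p ^ a ∈ (MonoidAlgebra.mapDomainRingHom R S.subtype).range := by
  have := charP_ga (p := p) (R := R) H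
  have hcomm : ∀ x y : MonoidAlgebra R H, Commute x y := by
    intro x y
    induction x using MonoidAlgebra.induction_linear with
    | zero => exact Commute.zero_left _
    | add x x' hx hx' => exact hx.add_left hx'
    | single g b =>
      induction y using MonoidAlgebra.induction_linear with
      | zero => exact Commute.zero_right _
      | add y y' hy hy' => exact hy.add_right hy'
      | single h c =>
        rw [Commute, SemiconjBy, MonoidAlgebra.single_mul_single, MonoidAlgebra.single_mul_single,
          hc, mul_comm b c]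
  induction x using MonoidAlgebra.induction_linear with
  | zero =>
    rw [zero_pow (pow_ne_zero _ hp.out.ne_zero)]
    exact Subring.zero_mem _
  | add x y hx hy =>
    rw [add_pow_char_pow_of_commute p a (hcomm x y)]
    exact Subring.add_mem _ hx hy
  | single h r =>
    rw [MonoidAlgebra.single_pow]
    refine ⟨MonoidAlgebra.single ⟨h ^ p ^ a, hS h⟩ (r ^ p ^ a), ?_⟩
    change MonoidAlgebra.mapDomain S.subtype _ = _
    rw [MonoidAlgebra.mapDomain_single]
    rfl

theorem mapDomainRingHom_injective {H : Type v} {H' : Type w} [Group H] [Group H'] (ψ : H →* H')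
    (hψ : Function.Injective ψ) : Function.Injective (MonoidAlgebra.mapDomainRingHom R ψ) :=
  MonoidAlgebra.mapDomain_injective hψ

theorem unit_pow_mem [CharP R p] {H : Type v} [Group H] (hc : ∀ a b : H, a * b = b * a)
    (S : Subgroup H) (a : ℕ) (hS : ∀ h : H, h ^ p ^ a ∈ S) (x : (MonoidAlgebra R H)ˣ) :
    ∃ y : (MonoidAlgebra R S)ˣ, unitsMap S.subtype y = x ^ p ^ a := by
  refine exists_unit_lift _ (mapDomainRingHom_injective S.subtype S.subtype_injective) _ ?_ ?_
  · rw [Units.val_pow_eq_pow_val]
    exact pow_mem_range hc S a hS _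
  · rw [← inv_pow, Units.val_pow_eq_pow_val]
    exact pow_mem_range hc S a hS _

/-- the subgroup of order prime to `p` -/
theorem exists_coprime_part (H : Type v) [Group H] [Finite H] [IsCyclic H] :
    ∃ (S : Subgroup H) (a : ℕ), (∀ h : H, h ^ p ^ a ∈ S) ∧ ¬ p ∣ Nat.card S := by
  obtain ⟨g, hg⟩ := IsCyclic.exists_generator (α := H)
  obtain ⟨a, m, hm, hcard⟩ := Nat.exists_eq_pow_mul_and_not_dvd (Nat.card_pos (α := H)).ne' p
    hp.out.ne_one
  refine ⟨Subgroup.zpowers (g ^ p ^ a), a, ?_, ?_⟩
  · intro h
    obtain ⟨k, rfl⟩ := Subgroup.mem_zpowers_iff.1 (hg h)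
    refine Subgroup.mem_zpowers_iff.2 ⟨k, ?_⟩
    rw [← _root_.zpow_natCast, ← _root_.zpow_natCast, ← _root_.zpow_mul, ← _root_.zpow_mul,
      mul_comm]
  · rw [Nat.card_zpowers, orderOf_pow, orderOf_eq_card_of_forall_mem_zpowers hg, hcard,
      Nat.gcd_eq_right (Dvd.intro _ rfl), Nat.mul_div_cancel_left _ (pow_pos hp.out.pos _)]
    exact hm

variable [IsDomain R] [CharP R p] [Algebra.FiniteType ℤ R] {G : Type v} [Group G]

/-- the indicator function of the conjugacy class of `c` -/
noncomputable def ResDat.cfd {k : Type u} [CommRing k] (d : ResDat p k) (c h : G) : d.B :=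
  if IsConj c h then 1 else 0

omit [IsDomain R] [CharP R p] [Algebra.FiniteType ℤ R] in
theorem ResDat.cfd_comm {k : Type u} [CommRing k] (d : ResDat p k) (c x y : G) :
    d.cfd c (x * y) = d.cfd c (y * x) := by
  have h : IsConj (x * y) (y * x) := isConj_iff.2 ⟨x⁻¹, by group⟩
  unfold ResDat.cfd
  by_cases h1 : IsConj c (x * y)
  · rw [if_pos h1, if_pos (h1.trans h)]
  · rw [if_neg h1, if_neg (fun h2 => h1 (h2.trans h.symm))]

end Pool.Agent.H71.KP

end

section

/-!
# Project KL, module ElimS: elimination with `p`-integral functionals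

`elim_sep` : `β : X → H → E` biadditive, `T : X → V` additive, `V` a vector space over `ℚ`, with torsion kernel, and `H`
`p`-separated.  If `∑ j, f (h j) T (x j) = 0` for all `p`-integral `f : H → ℚ` then `∑ j, β (x j) (h j)` is torsion.
-/

set_option autoImplicit false

universe u v w t

namespace Pool.Agent.H8.KL

open Pool.Agent.H71.DB (elim' exists_common_denom)
open Pool.Agent.H16.KN (PSepA sep_homA)

theorem elim_sep {p : ℕ} {X : Type u} [AddCommGroup X] {H : Type v} [AddCommGroup H] {E : Type w}
    [AddCommGroup E] {V : Type t} [AddCommGroup V] [Module ℚ V] (β : X →+ H →+ E) (T : X →+ V)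
    (hT : ∀ x, T x = 0 → ∃ m : ℤ, m ≠ 0 ∧ m • x = 0) (hsep : PSepA p H) {ι : Type*} [Fintype ι]
    (x : ι → X) (h : ι → H)
    (h0 : ∀ f : H →+ ℚ, (∀ y, ¬ p ∣ (f y).den) → ∑ j, f (h j) • T (x j) = 0) :
    ∃ m : ℤ, m ≠ 0 ∧ m • ∑ j, β (x j) (h j) = 0 := by
  classical
  refine elim' β x h fun μ m a hm ha => ?_
  apply hT
  -- the relation for `μ`
  have h1 : ∑ j, μ (h j) • T (x j) = 0 := by
    let b := Module.Basis.ofVectorSpace ℚ V
    apply b.repr.injective
    ext i
    have h2 := sep_homA (L := ℚ) hsep (fun j => b.repr (T (x j)) i) h (fun lam hlam => by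
      have h3 := congrArg (fun v => b.repr v i) (h0 lam hlam)
      simp only [map_sum, map_smul, map_zero, Finsupp.coe_zero, Pi.zero_apply,
        Finsupp.finsetSum_apply, Finsupp.smul_apply, smul_eq_mul] at h3
      rw [← h3]
      refine Finset.sum_congr rfl fun j _ => ?_
      rw [Rat.cast_id, mul_comm]) μ
    simp only [map_sum, map_smul, map_zero, Finsupp.coe_zero, Pi.zero_apply,
      Finsupp.finsetSum_apply, Finsupp.smul_apply, smul_eq_mul]
    rw [← h2]
    refine Finset.sum_congr rfl fun j _ => ?_
    rw [mul_comm]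
  have h3 := congrArg (fun v => (m : ℚ) • v) h1
  simp only [Finset.smul_sum, smul_smul, smul_zero] at h3
  rw [map_sum, ← h3]
  refine Finset.sum_congr rfl fun j _ => ?_
  rw [map_zsmul, ha j, Int.cast_smul_eq_zsmul]

end Pool.Agent.H8.KL

end
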