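import Pool.Agent.H71.TCZ.M15
import Pool.Agent.H71.TCZ.M20
import Pool.Agent.H71.TCZ.M43

/-! The parts of this file: H71.KP.Orb, H71.KP.Skew2_1, H71.KP.Gam. -/

section

/-!
# The diagonal power is additive modulo norms; its logarithm
-/

set_option autoImplicit false
set_option linter.unusedSectionVars false

open scoped TensorProduct

universe u v

namespace Pool.Agent.H71.KP

section Orbit

variable {p : ℕ} [hp : Fact p.Prime] {M : Type u} [Ring M] (t : TwTr p M)

theorem orbit_inj {X : Type v} (σ : ZMod p → X → X) (h0 : ∀ x, σ 0 x = x)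
    (hadd : ∀ i j x, σ (i + j) x = σ i (σ j x)) {x : X} (hx : σ 1 x ≠ x) :
    Function.Injective (fun i => σ i x) := by
  intro i j hij
  by_contra hne
  apply hx
  have hk : i - j ≠ 0 := sub_ne_zero.2 hne
  have h1 : σ (i - j) x = x := by
    have e1 : i - j = -j + i := by ring
    rw [e1, hadd]
    change σ (-j) ((fun i => σ i x) i) = x
    rw [hij]
    change σ (-j) (σ j x) = x
    rw [← hadd, neg_add_cancel, h0]
  have h2 : ∀ n : ℕ, σ ((n : ZMod p) * (i - j)) x = x := by
    intro n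
    induction n with
    | zero => rw [Nat.cast_zero, zero_mul, h0]
    | succ n ih => rw [Nat.cast_succ, add_mul, one_mul, hadd, h1, ih]
  have h3 := h2 ((i - j)⁻¹ : ZMod p).val
  rwa [ZMod.natCast_zmod_val, inv_mul_cancel₀ hk] at h3

theorem orbit_sum {X : Type v} [DecidableEq X] (σ : ZMod p → X → X) (h0 : ∀ x, σ 0 x = x)
    (hadd : ∀ i j x, σ (i + j) x = σ i (σ j x)) (f : X → M)
    (hf : ∀ i x, f (σ i x) = t.act i (f x)) (U : Finset X) :
    (∀ x ∈ U, ∀ i, σ i x ∈ U) → (∀ x ∈ U, σ 1 x ≠ x) → ∃ z, ∑ x ∈ U, f x = t.tr z := by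
  induction U using Finset.strongInduction with
  | H U ih =>
    intro hU hne
    by_cases hemp : U = ∅
    · subst hemp
      exact ⟨0, by simp⟩
    obtain ⟨x, hx⟩ := Finset.nonempty_iff_ne_empty.2 hemp
    let O : Finset X := Finset.univ.image (fun i => σ i x)
    have hinj := orbit_inj σ h0 hadd (hne x hx)
    have hO : O ⊆ U := by
      intro y hy
      obtain ⟨i, _, rfl⟩ := Finset.mem_image.1 hy
      exact hU x hx i
    have hxO : x ∈ O := Finset.mem_image.2 ⟨0, Finset.mem_univ _, h0 x⟩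
    have hss : U \ O ⊂ U := by
      refine ⟨Finset.sdiff_subset, fun h => ?_⟩
      have := h hx
      rw [Finset.mem_sdiff] at this
      exact this.2 hxO
    obtain ⟨z, hz⟩ := ih (U \ O) hss (by
      intro y hy i
      rw [Finset.mem_sdiff] at hy ⊢
      refine ⟨hU y hy.1 i, fun h => hy.2 ?_⟩
      obtain ⟨j, _, hj⟩ := Finset.mem_image.1 h
      refine Finset.mem_image.2 ⟨-i + j, Finset.mem_univ _, ?_⟩
      rw [hadd, show σ j x = σ i y from hj, ← hadd, neg_add_cancel, h0]) (by
      intro y hy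
      exact hne y (Finset.mem_sdiff.1 hy).1)
    refine ⟨z + f x, ?_⟩
    rw [map_add, ← hz, ← Finset.sum_sdiff hO]
    congr 1
    rw [Finset.sum_image (fun i _ j _ h => hinj h)]
    rw [TwTr.tr_apply]
    exact Finset.sum_congr rfl fun i _ => hf i x

end Orbit

variable (p : ℕ) [hp : Fact p.Prime] {A : Type u} [Ring A] [Algebra ℤ_[p] A]
  (τ : A →ₗ[ℤ_[p]] ℤ_[p]) (hτ : ∀ a b, τ (a * b) = τ (b * a))

/-- translation of subsets -/
def trans (i : ZMod p) (s : Finset (ZMod p)) : Finset (ZMod p) :=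
  Finset.univ.filter (fun j => j + i ∈ s)

theorem mem_trans {i j : ZMod p} {s : Finset (ZMod p)} : j ∈ trans p i s ↔ j + i ∈ s := by
  simp [trans]

theorem trans_zero (s : Finset (ZMod p)) : trans p 0 s = s := by
  ext j
  rw [mem_trans, add_zero]

theorem trans_add (i j : ZMod p) (s : Finset (ZMod p)) :
    trans p (i + j) s = trans p i (trans p j s) := by
  ext l
  rw [mem_trans, mem_trans, mem_trans, add_assoc]

theorem trans_fix {s : Finset (ZMod p)} (h : trans p 1 s = s) : s = ∅ ∨ s = Finset.univ := by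
  rw [or_iff_not_imp_left]
  intro hs
  obtain ⟨x, hx⟩ := Finset.nonempty_iff_ne_empty.2 hs
  have h1 : ∀ j, j ∈ s → j + 1 ∈ s := by
    intro j hj
    rw [← h] at hj
    exact (mem_trans p).1 hj
  have h2 : ∀ n : ℕ, x + n ∈ s := by
    intro n
    induction n with
    | zero => rwa [Nat.cast_zero, add_zero]
    | succ n ih => rw [Nat.cast_succ, ← add_assoc]; exact h1 _ ih
  rw [Finset.eq_univ_iff_forall]
  intro y
  have h3 := h2 (y - x).val
  rwa [ZMod.natCast_zmod_val, add_sub_cancel] at h3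

/-- the mixed tensors -/
noncomputable def mx (a b : A) (s : Finset (ZMod p)) : TP p A :=
  tp p (s.piecewise (fun _ => a) (fun _ => b))

theorem mx_trans (a b : A) (i : ZMod p) (s : Finset (ZMod p)) :
    mx p a b (trans p i s) = sh p i (mx p a b s) := by
  rw [mx, mx, sh_tp]
  congr 1
  funext j
  by_cases h : j + i ∈ s
  · rw [Finset.piecewise_eq_of_mem _ _ _ ((mem_trans p).2 h), Finset.piecewise_eq_of_mem _ _ _ h]
  · rw [Finset.piecewise_eq_of_notMem _ _ _ (fun h' => h ((mem_trans p).1 h')),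
      Finset.piecewise_eq_of_notMem _ _ _ h]

theorem TT_add (a b : A) : ∃ z, TT p (a + b) - (TT p a + TT p b) = (tG p τ hτ).tr z := by
  classical
  have h1 : TT p (a + b) = ∑ s, mx p a b s := by
    have := (PiTensorProduct.tprod ℤ_[p] (s := fun _ : ZMod p => A)).map_add_univ
      (fun _ => a) (fun _ => b)
    exact this
  obtain ⟨z, hz⟩ := orbit_sum (tG p τ hτ) (trans p) (trans_zero p) (trans_add p) (mx p a b)
    (fun i s => by rw [tG_act]; exact mx_trans p a b i s)
    (Finset.univ.filter (fun s => trans p 1 s ≠ s)) (by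
      intro s hs i
      rw [Finset.mem_filter] at hs ⊢
      refine ⟨Finset.mem_univ _, fun h => hs.2 ?_⟩
      rw [← trans_add, add_comm, trans_add] at h
      have h3 := congrArg (trans p (-i)) h
      rw [← trans_add p (-i) i, ← trans_add p (-i) i, neg_add_cancel, trans_zero, trans_zero] at h3
      exact h3) (by
      intro s hs
      exact (Finset.mem_filter.1 hs).2)
  refine ⟨z, ?_⟩
  have h2 : (Finset.univ.filter (fun s : Finset (ZMod p) => ¬ (trans p 1 s ≠ s))) =
      {∅, Finset.univ} := by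
    ext s
    rw [Finset.mem_filter, not_not, Finset.mem_insert, Finset.mem_singleton]
    constructor
    · rintro ⟨_, h⟩
      exact trans_fix p h
    · rintro (rfl | rfl)
      · refine ⟨Finset.mem_univ _, ?_⟩
        ext j
        simp [mem_trans]
      · refine ⟨Finset.mem_univ _, ?_⟩
        ext j
        simp [mem_trans]
  have h3 : (∅ : Finset (ZMod p)) ≠ Finset.univ := by
    intro h
    have := Finset.mem_univ (0 : ZMod p)
    rw [← h] at this
    exact absurd this (Finset.notMem_empty _)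
  rw [h1, ← Finset.sum_filter_add_sum_filter_not Finset.univ (fun s => trans p 1 s ≠ s), h2,
    Finset.sum_pair h3, hz]
  have h4 : mx p a b ∅ = TT p b := by rw [mx, Finset.piecewise_empty]; rfl
  have h5 : mx p a b Finset.univ = TT p a := by rw [mx, Finset.piecewise_univ]; rfl
  rw [h4, h5]
  abel

theorem dvd_pow_sub (r : ℤ_[p]) : (p : ℤ_[p]) ∣ r ^ p - r := by
  have h : PadicInt.toZMod (r ^ p - r) = 0 := by
    rw [map_sub, map_pow, ZMod.pow_card, sub_self]
  have h1 : r ^ p - r ∈ RingHom.ker (PadicInt.toZMod (p := p)) := h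
  rw [PadicInt.ker_toZMod, PadicInt.maximalIdeal_eq_span_p, Ideal.mem_span_singleton] at h1
  exact h1

theorem tr_smul (t : TwTr p (TP p A)) (ht : ∀ i x, t.act i x = sh p i x) (r : ℤ_[p])
    (x : TP p A) : t.tr (r • x) = r • t.tr x := by
  rw [TwTr.tr_apply, TwTr.tr_apply, Finset.smul_sum]
  apply Finset.sum_congr rfl
  intro i _
  rw [ht, ht, map_smul]

theorem TT_smul_sub (r : ℤ_[p]) (a : A) :
    ∃ z, TT p (r • a) - r • TT p a = (tG p τ hτ).tr z := by
  obtain ⟨s, hs⟩ := dvd_pow_sub p r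
  refine ⟨s • TT p a, ?_⟩
  rw [tr_smul p _ (fun _ _ => rfl), (tG p τ hτ).tr_fix (fun i => sh_TT p i a), TT_smul,
    ← sub_smul, hs, mul_comm (p : ℤ_[p]) s, mul_smul]
  congr 1
  rw [← nsmul_eq_mul, Nat.cast_smul_eq_nsmul]

/-- the inclusion of the `j`-th factor -/
noncomputable def kk (j : ZMod p) : A →+* TP p A :=
  (PiTensorProduct.singleAlgHom (R := ℤ_[p]) (A := fun _ : ZMod p => A) j).toRingHom

theorem kk_apply (j : ZMod p) (a : A) : kk p j a = tp p (Pi.mulSingle j a) := rfl

theorem kk_comm (i j : ZMod p) {a b : A} (h : a * b = b * a) : kk p i a * kk p j b = kk p j b * kk p i a := by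
  by_cases hij : i = j
  · subst hij
    rw [← map_mul, ← map_mul, h]
  · rw [kk_apply, kk_apply, tp_mul, tp_mul]
    congr 1
    funext l
    by_cases h1 : l = i
    · subst h1
      rw [Pi.mulSingle_eq_same, Pi.mulSingle_eq_of_ne hij, mul_one, one_mul]
    · rw [Pi.mulSingle_eq_of_ne h1, mul_one, one_mul]

include hτ in
theorem kap_sh (i : ZMod p) (x : TP p A) : kap p τ (sh p i x) = kap p τ x :=
  (tG p τ hτ).κ_act i x

include hτ in
theorem kap_kk (j : ZMod p) (a : A) : kap p τ (kk p j a) = τ a := by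
  have h1 : sh p j (kk p j a) = kk p 0 a := by
    rw [kk_apply, kk_apply, sh_tp]
    congr 1
    funext l
    by_cases h : l = 0
    · subst h
      rw [zero_add, Pi.mulSingle_eq_same, Pi.mulSingle_eq_same]
    · rw [Pi.mulSingle_eq_of_ne h, Pi.mulSingle_eq_of_ne (fun h' => h (by simpa using h'))]
  rw [← kap_sh p τ hτ j, h1, kk_apply, kap_tp]
  congr 1
  have h2 : ∀ n : ℕ, n < p → oprod (fun n => (Pi.mulSingle (0 : ZMod p) a : ZMod p → A) n)
      (n + 1) = a := by
    intro n
    induction n with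
    | zero =>
      intro _
      rw [oprod_succ, oprod_zero, one_mul, Nat.cast_zero, Pi.mulSingle_eq_same]
    | succ n ih =>
      intro hn
      rw [oprod_succ, ih (by omega), Pi.mulSingle_eq_of_ne, mul_one]
      intro h
      rw [ZMod.natCast_eq_zero_iff] at h
      exact absurd (Nat.le_of_dvd (Nat.succ_pos n) h) (by omega)
  have h3 := h2 (p - 1) (by have := hp.out.pos; omega)
  rwa [Nat.sub_add_cancel hp.out.pos] at h3

/-- `kap τ` as an additive map -/
noncomputable def kapA : TP p A →+ ℤ_[p] := (kap p τ).toAddMonoidHom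

/-- `τ` as an additive map -/
noncomputable def tauA : A →+ ℤ_[p] := τ.toAddMonoidHom

include hτ in
theorem L_TT (x : A) : L (kapA p τ) (TT p (1 + (p : A) * x)) =
    p * L (tauA p τ) (1 + (p : A) * x) := by
  classical
  set u := 1 + (p : A) * x with hu
  have hcl : ∀ y ∈ Set.range (fun j => kk p j x), ∀ z ∈ Set.range (fun j => kk p j x),
      y * z = z * y := by
    rintro _ ⟨i, rfl⟩ _ ⟨j, rfl⟩
    exact kk_comm p i j rfl
  let S : Subring (TP p A) := Subring.closure (Set.range (fun j => kk p j x))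
  have hS : ∀ a ∈ S, ∀ b ∈ S, a * b = b * a := by
    intro a ha b hb
    have := (Subring.isMulCommutative_closure hcl).is_comm.comm (⟨a, ha⟩ : S) ⟨b, hb⟩
    exact congrArg Subtype.val this
  have hk : ∀ j, kk p j u = 1 + (p : TP p A) * kk p j x := by
    intro j
    rw [hu, map_add, map_one, map_mul, map_natCast]
  have hL : ∀ j, L (kapA p τ) (kk p j u) = L (tauA p τ) u := by
    intro j
    rw [L_map]
    apply L_congr_fun
    intro a
    exact kap_kk p τ hτ j a
  have key : ∀ s : Finset (ZMod p), (∃ y ∈ S, mx p u 1 s = 1 + (p : TP p A) * y) ∧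
      L (kapA p τ) (mx p u 1 s) = s.card * L (tauA p τ) u := by
    intro s
    induction s using Finset.induction_on with
    | empty =>
      have h0 : mx p u 1 ∅ = 1 := by rw [mx, Finset.piecewise_empty]; rfl
      refine ⟨⟨0, S.zero_mem, ?_⟩, ?_⟩
      · rw [h0]; simp
      · rw [h0, L_one]; simp
    | insert j s hj ih =>
      obtain ⟨⟨y, hy, hy'⟩, ih2⟩ := ih
      have e1 : mx p u 1 (insert j s) = kk p j u * mx p u 1 s := by
        rw [mx, mx, kk_apply, tp_mul]
        congr 1
        funext l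
        by_cases h : l = j
        · subst h
          rw [Finset.piecewise_eq_of_mem _ _ _ (Finset.mem_insert_self _ _),
            Pi.mulSingle_eq_same, Finset.piecewise_eq_of_notMem _ _ _ hj, mul_one]
        · rw [Pi.mulSingle_eq_of_ne h, one_mul]
          by_cases h2 : l ∈ s
          · rw [Finset.piecewise_eq_of_mem _ _ _ (Finset.mem_insert_of_mem h2),
              Finset.piecewise_eq_of_mem _ _ _ h2]
          · rw [Finset.piecewise_eq_of_notMem _ _ _ (fun h3 => by
              rcases Finset.mem_insert.1 h3 with h4 | h4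
              · exact h h4
              · exact h2 h4), Finset.piecewise_eq_of_notMem _ _ _ h2]
      have hx : kk p j x ∈ S := Subring.subset_closure ⟨j, rfl⟩
      refine ⟨⟨kk p j x + y + (p : TP p A) * (kk p j x * y), ?_, ?_⟩, ?_⟩
      · exact S.add_mem (S.add_mem hx hy) (S.mul_mem (natCast_mem S p) (S.mul_mem hx hy))
      · rw [e1, hk, hy', add_mul, one_mul, mul_add, mul_one, mul_add, mul_add,
          mul_assoc (p : TP p A) (kk p j x), ← mul_assoc (kk p j x), ← p_comm (kk p j x)]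
        simp only [mul_assoc]
        abel
      · rw [e1, hk, hy', L_mul_sub (kapA p τ) S (fun a ha b hb => by rw [hS a ha b hb]) hx hy,
          ← hk, ← hy', ih2, hL, Finset.card_insert_of_notMem hj]
        push_cast
        ring
  have h1 := (key Finset.univ).2
  have h2 : mx p u 1 Finset.univ = TT p u := by rw [mx, Finset.piecewise_univ]; rfl
  rw [h2, Finset.card_univ, ZMod.card] at h1
  exact h1

section Free

variable [Module.Free ℤ_[p] A]

theorem smul_inj {n : ℕ} (hn : n ≠ 0) {x y : TP p A} (h : (n : TP p A) * x = (n : TP p A) * y) :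
    x = y := by
  let b := Module.Free.chooseBasis ℤ_[p] A
  let B := Basis.piTensorProduct (fun _ : ZMod p => b)
  apply B.repr.injective
  ext i
  have h1 := congrArg (fun z => B.repr z i) h
  have h2 : ∀ z : TP p A, B.repr ((n : TP p A) * z) i = n * B.repr z i := by
    intro z
    rw [← nsmul_eq_mul, map_nsmul, Finsupp.smul_apply, nsmul_eq_mul]
  simp only [h2] at h1
  have hn0 : (n : ℤ_[p]) ≠ 0 := by exact_mod_cast hn
  exact mul_left_cancel₀ hn0 h1

theorem fix_of_mul (t : TwTr p (TP p A)) {n : ℕ} (hn : n ≠ 0) {x : TP p A}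
    (h : t.Fix ((n : TP p A) * x)) : t.Fix x := by
  intro i
  apply smul_inj p hn
  have := h i
  rwa [map_mul, map_natCast] at this

end Free

end Pool.Agent.H71.KP

end

section

/-!
# The homomorphism `Lam`
-/

set_option autoImplicit false
set_option linter.unusedSectionVars false

open Matrix

universe u v

namespace Pool.Agent.H71.KP

namespace TwTr

variable {p : ℕ} [hp : Fact p.Prime] {M : Type u} [Ring M] (t : TwTr p M)

/-- the value of `lam` on `1 + y N` for `tr y = 0` -/
noncomputable def lamY (y : M) (hy : t.tr y = 0) : ℚ_[p] := t.lam (t.vU y 1 (t.cond_one hy))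

theorem lam_congr {z z' : M} {g g' : Mˣ} (h : (g : M) = 1 + t.tr z)
    (h' : (g' : M) = 1 + t.tr z') (hz : z = z') : t.lam (t.vU z g h) = t.lam (t.vU z' g' h') := by
  subst hz
  have : g = g' := Units.ext (h.trans h'.symm)
  subst this
  rfl

theorem lamY_add {y y' : M} (hy : t.tr y = 0) (hy' : t.tr y' = 0)
    (h : t.tr (y + y') = 0) : t.lamY (y + y') h = t.lamY y hy + t.lamY y' hy' := by
  rw [lamY, lamY, lamY, ← lam_mul,
    t.vU_mul (t.cond_one hy) (t.cond_one hy') (t.mul_add_cond (t.cond_one hy) (t.cond_one hy'))]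
  apply t.lam_congr
  rw [Units.val_one, mul_one]

theorem lamY_nsmul {y : M} (hy : t.tr y = 0) (n : ℕ) (h : t.tr (n • y) = 0) :
    t.lamY (n • y) h = n * t.lamY y hy := by
  induction n with
  | zero =>
    have h0 : t.tr (0 : M) = 0 := map_zero _
    have e : t.lamY (0 • y) h = t.lamY 0 h0 := by
      rw [lamY, lamY]
      apply t.lam_congr
      rw [zero_smul]
    have e2 : t.lamY 0 h0 = 0 := by
      rw [lamY]
      have : t.vU 0 1 (t.cond_one h0) = 1 := by
        apply Units.ext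
        rw [vU_val, map_zero, add_zero, Units.val_one]
      rw [this, lam_one]
    rw [e, e2, Nat.cast_zero, zero_mul]
  | succ n ih =>
    have hn : t.tr (n • y) = 0 := by rw [map_nsmul, hy, smul_zero]
    have h2 : t.tr (n • y + y) = 0 := by rw [map_add, hn, hy, add_zero]
    have h3 : t.lamY ((n + 1) • y) h = t.lamY (n • y + y) h2 := by
      rw [lamY, lamY]
      exact t.lam_congr _ _ (succ_nsmul y n)
    rw [h3, t.lamY_add hn hy, ih hn]
    push_cast
    ring

theorem lamY_eq_zero {y : M} (hy : t.tr y = 0) : t.lamY y hy = 0 := by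
  have h1 : t.tr (p • y) = 0 := by rw [map_nsmul, hy, smul_zero]
  have h2 := t.lamY_nsmul hy p h1
  have h3 : t.lamY (p • y) h1 = 0 := by
    have e1 : (t.vU (p • y) 1 (t.cond_one h1) : t.S) = 1 + (p : t.S) * t.Zm y := by
      rw [vU_val, map_nsmul, nsmul_eq_mul]
    rw [lamY, t.lam_eq ⟨_, e1⟩, e1, L_one_add]
    have e2 : tl t.τ ((p : t.S) * t.Zm y) = tl t.τ 0 := by
      apply tl_congr
      intro k
      rcases k with _ | k
      · rw [zero_add, pow_one, pow_one, map_p_mul, τ_Zm, t.κ_eq_zero hy, mul_zero, map_zero]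
      · have e3 : ((p : t.S) * t.Zm y) * ((p : t.S) * t.Zm y) = 0 := by
          rw [mul_assoc, ← mul_assoc (t.Zm y), ← p_comm, mul_assoc, Zm_mul, hy, mul_zero, map_zero,
            mul_zero, mul_zero]
        rw [pow_succ, pow_succ, mul_assoc, e3, mul_zero, zero_pow (by omega)]
    rw [e2, tl_zero]
  rw [h3] at h2
  have hp0 : (p : ℚ_[p]) ≠ 0 := by exact_mod_cast hp.out.ne_zero
  exact (mul_eq_zero.1 h2.symm).resolve_left hp0

/-- `lam (1 + z N)` does not depend on `z` -/
theorem lam_indep {z z' : M} {g g' : Mˣ} (h : (g : M) = 1 + t.tr z)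
    (h' : (g' : M) = 1 + t.tr z') (hg : g = g') : t.lam (t.vU z g h) = t.lam (t.vU z' g' h') := by
  subst hg
  have hs : t.Fix ((g⁻¹ : Mˣ) : M) := (t.fix_of_cond h).inv
  set y := (z' - z) * ((g⁻¹ : Mˣ) : M) with hy
  have hy0 : t.tr y = 0 := by
    rw [hy, t.tr_mul_fix _ hs, map_sub]
    have : t.tr z' - t.tr z = 0 := by
      rw [h] at h'
      rw [sub_eq_zero]
      exact (add_left_cancel h').symm
    rw [this, zero_mul]
  have h1 := t.vU_mul (t.cond_one hy0) h (t.mul_add_cond (t.cond_one hy0) h)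
  have h2 : t.lam (t.vU z' g h') = t.lam (t.vU (y * g + z) (1 * g)
      (t.mul_add_cond (t.cond_one hy0) h)) := by
    apply t.lam_congr
    rw [hy, mul_assoc, Units.inv_mul, mul_one]
    abel
  rw [h2, ← h1, lam_mul]
  have h3 := t.lamY_eq_zero hy0
  rw [lamY] at h3
  rw [h3, zero_add]

open scoped Classical in
/-- the homomorphism `Lam` -/
noncomputable def Lam (g : Mˣ) : ℚ_[p] :=
  if h : t.Adm g then t.lam (t.vU h.choose g h.choose_spec) else 0

theorem Lam_eq {z : M} {g : Mˣ} (h : (g : M) = 1 + t.tr z) : t.Lam g = t.lam (t.vU z g h) := by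
  have h' : t.Adm g := ⟨z, h⟩
  rw [Lam, dif_pos h']
  exact t.lam_indep _ _ rfl

theorem Lam_mul {g g' : Mˣ} (h : t.Adm g) (h' : t.Adm g') :
    t.Lam (g * g') = t.Lam g + t.Lam g' := by
  obtain ⟨z, hz⟩ := h
  obtain ⟨z', hz'⟩ := h'
  rw [t.Lam_eq (t.mul_add_cond hz hz'), ← t.vU_mul hz hz', lam_mul, t.Lam_eq hz, t.Lam_eq hz']

theorem Lam_conj {g w : Mˣ} (h : t.Adm g) (hw : t.Fix (w : M)) :
    t.Lam (w⁻¹ * g * w) = t.Lam g := by
  obtain ⟨z, hz⟩ := h
  rw [t.Lam_eq (t.conj_cond hz hw), t.Lam_eq hz,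
    ← t.lam_conj (t.vU z g hz) (Units.map t.em.toMonoidHom w)]
  congr 1
  apply Units.ext
  rw [Units.val_mul, Units.val_mul, vU_val, vU_val, ← map_inv]
  change _ = t.em ((w⁻¹ : Mˣ) : M) * (1 + t.Zm z) * t.em (w : M)
  rw [mul_add, mul_one, add_mul, ← map_mul, Units.inv_mul, map_one, em_mul_Zm,
    t.Zm_mul_em _ hw]

/-- The value of `Lam` on units `1 + p ^ 2 x` with `x` fixed. -/
theorem Lam_sq {x : M} (hx : t.Fix x) {g : Mˣ} (h : (g : M) = 1 + (p : M) ^ 2 * x) :
    p * t.Lam g = L t.κ (g : M) := by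
  have hz : (g : M) = 1 + t.tr ((p : M) * x) := by
    rw [t.tr_fix_mul _ (Fix.natCast t p), t.tr_fix hx, h, pow_two, mul_assoc]
  have e1 : (t.vU ((p : M) * x) g hz : t.S) = 1 + (p : t.S) * t.Zm x := by
    rw [vU_val, ← nsmul_eq_mul, map_nsmul, nsmul_eq_mul]
  rw [t.Lam_eq hz, t.lam_eq ⟨_, e1⟩, e1, h, L_one_add, L_one_add]
  have hpow : ∀ k : ℕ, ((p : t.S) * t.Zm x) ^ (k + 1) = (p : t.S) ^ (2 * k + 1) *
      t.Zm (x ^ (k + 1)) := by
    intro k
    induction k with
    | zero => simp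
    | succ k ih =>
      have e2 : t.Zm (x ^ (k + 1)) * t.Zm x = (p : t.S) * t.Zm (x ^ (k + 1 + 1)) := by
        rw [Zm_mul, t.tr_fix hx, ← mul_assoc, ← p_comm (x ^ (k + 1)), mul_assoc, ← pow_succ,
          ← nsmul_eq_mul, map_nsmul, nsmul_eq_mul]
      rw [pow_succ, ih, mul_assoc, ← mul_assoc (t.Zm (x ^ (k + 1))), ← p_comm, mul_assoc, e2,
        ← mul_assoc, ← mul_assoc, ← pow_succ, ← pow_succ]
      congr 2
  rw [tl, tl, ← tsum_mul_left]
  congr 1
  funext k
  rw [tlTerm, tlTerm, hpow, map_p_pow_mul, τ_Zm]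
  have h4 : ((p : M) ^ 2 * x) ^ (k + 1) = (p : M) ^ (2 * (k + 1)) * x ^ (k + 1) := by
    rw [((Nat.cast_commute p x).pow_left 2).mul_pow, pow_mul]
  rw [h4, map_p_pow_mul]
  push_cast
  rw [show 2 * (k + 1) = 2 * k + 1 + 1 by ring, pow_succ (p : ℚ_[p]) (2 * k + 1)]
  ring

end TwTr

end Pool.Agent.H71.KP

end

section

/-!
# The integral logarithm
-/

set_option autoImplicit false
set_option linter.unusedSectionVars false

open scoped TensorProduct
open Pool.Agent.H71.WH (unitExt unitExt_val)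

universe u v w

namespace Pool.Agent.H71.KP

theorem grp_aux {H : Type u} [Group H] (a b c d : H) :
    (a * b)⁻¹ * (c * d) = (b⁻¹ * (a⁻¹ * c) * b) * (b⁻¹ * d) := by group

namespace TwTr

variable {p : ℕ} [hp : Fact p.Prime] {M : Type u} [Ring M] (t : TwTr p M) {M' : Type v} [Ring M']
  (t' : TwTr p M') (j : M →+* M') (hact : ∀ i x, j (t.act i x) = t'.act i (j x))

/-- the induced map of skew rings -/
def skMap {A : Type} [AddCommGroup A] [Fintype A] [DecidableEq A] (π : A →+ ZMod p) :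
    t.sk π →+* t'.sk π where
  toFun V := ⟨V.1.map j, by
    intro a b l
    change j (V.1 (a + l) (b + l)) = t'.act (π l) (j (V.1 a b))
    rw [V.2, hact]⟩
  map_one' := Subtype.ext (by
    change (1 : Matrix A A M).map j = 1
    rw [Matrix.map_one _ (map_zero j) (map_one j)])
  map_zero' := Subtype.ext (by
    change (0 : Matrix A A M).map j = 0
    rw [Matrix.map_zero _ (map_zero j)])
  map_add' V W := Subtype.ext (Matrix.map_add j (map_add j) V.1 W.1)
  map_mul' V W := Subtype.ext (Matrix.map_mul (f := j))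

theorem skMap_apply {A : Type} [AddCommGroup A] [Fintype A] [DecidableEq A] (π : A →+ ZMod p)
    (V : t.sk π) (a b : A) : (t.skMap t' j hact π V).1 a b = j (V.1 a b) := rfl

include hact in
theorem lam_map (hκ : ∀ x, t'.κ (j x) = t.κ x) (v : t.Sˣ) :
    t'.lam (Units.map (t.skMap t' j hact _).toMonoidHom v) = t.lam v := by
  let JB : t.B →+* t'.B := t.skMap t' j hact _
  have h1 : ∀ V : t.S, t'.ι (t.skMap t' j hact _ V) = JB (t.ι V) := by
    intro V
    apply Subtype.ext
    ext a b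
    rw [skMap_apply, ι_apply, ι_apply, skMap_apply]
    split_ifs
    · rfl
    · rw [map_zero]
  have h2 : ∀ V : t.S, t'.θ (t.skMap t' j hact _ V) = JB (t.θ V) := by
    intro V
    apply Subtype.ext
    ext a b
    rw [skMap_apply, θ_apply, θ_apply, skMap_apply]
    split_ifs
    · rfl
    · rw [map_zero]
  have h3 : Units.map t'.ι.toMonoidHom (Units.map (t.skMap t' j hact _).toMonoidHom v) =
      Units.map JB.toMonoidHom (Units.map t.ι.toMonoidHom v) := Units.ext (h1 v)
  rw [lam, lam, h3, ← map_inv]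
  have h4 : ((Units.map JB.toMonoidHom (Units.map t.ι.toMonoidHom v)⁻¹ : t'.Bˣ) : t'.B) *
      t'.θ (Units.map (t.skMap t' j hact _).toMonoidHom v : t'.Sˣ) =
      JB (((Units.map t.ι.toMonoidHom v)⁻¹ : t.Bˣ) * t.θ v) := by
    rw [map_mul, ← h2]
    rfl
  rw [h4, L_map]
  apply L_congr_fun
  intro r
  change t'.κ (j (r.1 0 (1, 1))) = t.κ (r.1 0 (1, 1))
  rw [hκ]

/-- the fixed subring -/
def fixSub : Subring M where
  carrier := {x | t.Fix x}
  mul_mem' hx hy := hx.mul t hy
  one_mem' := Fix.one t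
  add_mem' hx hy := hx.add t hy
  zero_mem' := fun i => map_zero _
  neg_mem' := by
    intro x hx i
    rw [map_neg, hx i]

theorem κ_fix_comm : ∀ a ∈ t.fixSub, ∀ b ∈ t.fixSub, t.κ (a * b) = t.κ (b * a) := by
  intro a ha b _
  rw [t.tw, ha 1]

end TwTr

/-- An algebra with a multiplicative lift of the diagonal power to the tensor power. -/
structure PowAlg (p : ℕ) [Fact p.Prime] (A : Type u) [Ring A] [Algebra ℤ_[p] A] where
  /-- the map -/
  Ψ : A →ₙ+* TP p A
  fix : ∀ i a, sh p i (Ψ a) = Ψ a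
  cond : ∀ a, ∃ z, TT p a - Ψ a = ∑ i, sh p i z

section

variable {p : ℕ} [hp : Fact p.Prime] {A : Type u} [Ring A] [Algebra ℤ_[p] A] (P : PowAlg p A)
  (τ : A →ₗ[ℤ_[p]] ℤ_[p]) (hτ : ∀ a b, τ (a * b) = τ (b * a))

/-- the extension to units -/
noncomputable def PowAlg.U : Aˣ →* (TP p A)ˣ := unitExt P.Ψ

theorem PowAlg.U_val (u : Aˣ) : (P.U u : TP p A) = P.Ψ u + (1 - P.Ψ 1) := rfl

/-- the quotient -/
noncomputable def PowAlg.gg (u : Aˣ) : (TP p A)ˣ := (P.U u)⁻¹ * TU p u

theorem PowAlg.gg_mul (u w : Aˣ) : P.gg (u * w) = ((P.U w)⁻¹ * P.gg u * P.U w) * P.gg w := by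
  rw [gg, gg, gg, map_mul, map_mul]
  exact grp_aux _ _ _ _

theorem PowAlg.fix_U (u : Aˣ) : (tG p τ hτ).Fix (P.U u : TP p A) := by
  intro i
  rw [P.U_val, map_add, map_sub, map_one, tG_act, tG_act, P.fix, P.fix]

theorem fix_TT (a : A) : (tG p τ hτ).Fix (TT p a) := fun i => sh_TT p i a

theorem PowAlg.gg_adm (u : Aˣ) : (tG p τ hτ).Adm (P.gg u) := by
  obtain ⟨z, hz⟩ := P.cond u
  obtain ⟨y, hy⟩ := P.cond 1
  refine ⟨((P.U u)⁻¹ : (TP p A)ˣ) * (z - y), ?_⟩
  have h1 : (tG p τ hτ).tr (z - y) = TT p (u : A) - P.U u := by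
    have e1 : (tG p τ hτ).tr z = TT p (u : A) - P.Ψ u := hz.symm
    have e2 : (tG p τ hτ).tr y = 1 - P.Ψ 1 := by rw [← TT_one p]; exact hy.symm
    rw [map_sub, e1, e2, P.U_val]
    abel
  rw [TwTr.tr_fix_mul _ _ (TwTr.Fix.inv _ (P.fix_U τ hτ u)), h1, mul_sub, Units.inv_mul,
    PowAlg.gg, Units.val_mul, TU_val]
  abel

/-- the functional `kap ∘ Ψ` -/
noncomputable def PowAlg.frob : A →+ ℤ_[p] := (kap p τ).toAddMonoidHom.comp P.Ψ.toAddMonoidHom

theorem PowAlg.frob_apply (a : A) : P.frob τ a = kap p τ (P.Ψ a) := rfl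

theorem PowAlg.map_nat_mul (n : ℕ) (x : A) : P.Ψ ((n : A) * x) = (n : TP p A) * P.Ψ x := by
  rw [← nsmul_eq_mul, ← nsmul_eq_mul]
  exact map_nsmul P.Ψ.toAddMonoidHom n x

section Nat

variable {A' : Type v} [Ring A'] [Algebra ℤ_[p] A'] (P' : PowAlg p A')
  (τ' : A' →ₗ[ℤ_[p]] ℤ_[p]) (hτ' : ∀ a b, τ' (a * b) = τ' (b * a)) (φ : A →ₐ[ℤ_[p]] A')

/-- the induced map of tensor powers -/
noncomputable def tpMap : TP p A →ₐ[ℤ_[p]] TP p A' :=
  PiTensorProduct.liftAlgHom
    ((PiTensorProduct.tprod ℤ_[p] (s := fun _ : ZMod p => A')).compLinearMap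
      (fun _ => φ.toLinearMap))
    (by
      change tp p (fun _ => φ 1) = 1
      rw [map_one]
      rfl) (by
      intro x y
      change tp p (fun j => φ (x j * y j)) = tp p (fun j => φ (x j)) * tp p (fun j => φ (y j))
      rw [tp_mul]
      simp only [map_mul])

theorem tpMap_tp (m : ZMod p → A) : tpMap φ (tp p m) = tp p (fun j => φ (m j)) := by
  change PiTensorProduct.lift _ (PiTensorProduct.tprod ℤ_[p] m) = _
  rw [PiTensorProduct.lift.tprod]
  rfl

theorem tpMap_sh (i : ZMod p) (x : TP p A) : tpMap φ (sh p i x) = sh p i (tpMap φ x) := by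
  induction x using tp_induction with
  | h1 r m => rw [map_smul, map_smul, map_smul, map_smul, sh_tp, tpMap_tp, tpMap_tp, sh_tp]
  | h2 x y hx hy => rw [map_add, map_add, map_add, map_add, hx, hy]

theorem oprod_map (φ : A →ₐ[ℤ_[p]] A') (f : ℕ → A) (n : ℕ) :
    φ (oprod f n) = oprod (fun i => φ (f i)) n := by
  induction n with
  | zero => rw [oprod_zero, oprod_zero, map_one]
  | succ n ih => rw [oprod_succ, oprod_succ, map_mul, ih]

theorem kap_tpMap (h : ∀ a, τ' (φ a) = τ a) (x : TP p A) : kap p τ' (tpMap φ x) = kap p τ x := by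
  induction x using tp_induction with
  | h1 r m =>
    rw [map_smul, map_smul, map_smul, tpMap_tp, kap_tp, kap_tp, ← h, oprod_map]
  | h2 x y hx hy => rw [map_add, map_add, map_add, hx, hy]

end Nat

end

end Pool.Agent.H71.KP

end
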