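import Pool.Agent.H71.TCZ.M37
import Pool.Agent.H71.TCZ.M40
import Pool.Agent.H71.TCZ.M50

/-! The parts of this file: H39.CZ.RTau, H71.WH.Col_1. -/

section

/-!
# Project CZ: the rotation functional of an element no conjugate of which is a `p ^ r`-th power

`stab_dvd`, `exists_tau` (`H39/KL/Tau.lean`), `TR_dvd_exp`, `bd_dvdG` (`H39/KL/Coch1.lean`), `lamQ_dvd`, `lamQ_mul`, `lamQ_pow`
(`H39/KL/LamA.lean`) with the hypothesis `hroot : ∀ h, ¬ IsConj c (h ^ p ^ r)` in place of the bound of the `p`-power torsion.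
-/

set_option autoImplicit false

open Matrix

universe u v w

namespace Pool.Agent.H39.CZ

open Pool.Agent.H71.FQ Pool.Agent.H16.KN Pool.Agent.H39.KL

section

variable {G : Type u} [Group G]

private theorem lmul_lmul {q : ℕ} (g h : G) (v : Fin q → G) : lmul g (lmul h v) = lmul (g * h) v :=
  funext fun t => (mul_assoc g h (v t)).symm

private theorem lmul_one {q : ℕ} (v : Fin q → G) : lmul (1 : G) v = v :=
  funext fun t => one_mul (v t)

private theorem lmul_inj {q : ℕ} (hq : 0 < q) {g h : G} {v : Fin q → G} (e : lmul g v = lmul h v) : g = h :=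
  mul_right_cancel (show g * v ⟨0, hq⟩ = h * v ⟨0, hq⟩ from congrFun e ⟨0, hq⟩)

private theorem iter_lmul {q : ℕ} {c g : G} (h : g * c = c * g) (n : ℕ) (v : Fin q → G) :
    (sig q c)^[n] (lmul g v) = lmul g ((sig q c)^[n] v) := by
  induction n with
  | zero => rfl
  | succ n ih => rw [Function.iterate_succ_apply', ih, sig_lmul c g h, Function.iterate_succ_apply']

private theorem pow_comm_of {c g : G} (h : g * c = c * g) (j : ℕ) : g ^ j * c = c * g ^ j :=
  (Commute.pow_left (show Commute g c from h) j).eq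

private theorem iter_pow {q : ℕ} {c g : G} (h : g * c = c * g) {n : ℕ} {v : Fin q → G}
    (e : (sig q c)^[n] v = lmul g v) (j : ℕ) : (sig q c)^[n * j] v = lmul (g ^ j) v := by
  induction j with
  | zero => rw [pow_zero, lmul_one]; rfl
  | succ j ih =>
    rw [show n * (j + 1) = n + n * j by ring, Function.iterate_add_apply, ih, iter_lmul (pow_comm_of h j), e,
      lmul_lmul, pow_succ]

private theorem iter_q {q : ℕ} (c : G) (v : Fin q → G) (t : ℕ) : (sig q c)^[q * t] v = lmul (c ^ t) v :=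
  iter_pow rfl (sig_iterate q c v) t

theorem stab_dvdR {p : ℕ} (hp : p.Prime) (m r : ℕ)
    {c : G} (hroot : ∀ h : G, ¬ IsConj c (h ^ p ^ r)) {z : G} (hz : z * c = c * z) {k : ℕ} {v : Fin (p ^ m) → G}
    (h : (sig (p ^ m) c)^[k] v = lmul z v) : p ^ m ∣ p ^ r * k := by
  rcases Nat.eq_zero_or_pos k with hk | hk
  · subst hk
    exact dvd_zero _
  by_contra hcon
  obtain ⟨a, k', hk', hkk⟩ := Nat.exists_eq_pow_mul_and_not_dvd hk.ne' p hp.ne_one
  have har : a + r < m := by
    by_contra h1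
    apply hcon
    rw [hkk, ← mul_assoc, ← pow_add]
    exact Dvd.dvd.mul_right (pow_dvd_pow p (by omega)) _
  have hq : 0 < p ^ m := Nat.pow_pos hp.pos
  -- the inverse of `k'` modulo `q`
  obtain ⟨j, t, hj⟩ : ∃ j t : ℕ, k' * j = 1 + p ^ m * t := by
    have hco : Nat.Coprime k' (p ^ m) := (Nat.Coprime.pow_right m ((hp.coprime_iff_not_dvd.2 hk').symm))
    obtain ⟨j, -, hj⟩ := Nat.exists_mul_mod_eq_one_of_coprime hco (Nat.one_lt_pow (by omega) hp.one_lt)
    exact ⟨j, k' * j / p ^ m, by have := Nat.mod_add_div (k' * j) (p ^ m); omega⟩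
  have hkj : k * j = p ^ a + p ^ m * (p ^ a * t) := by
    rw [hkk, mul_assoc, hj]
    ring
  have h1 := iter_pow hz h j
  have hcz : z ^ j * c = c * z ^ j := pow_comm_of hz j
  rw [hkj, add_comm, Function.iterate_add_apply, iter_q] at h1
  -- `σ ^ (p ^ a) v = w v`
  have h2 : (sig (p ^ m) c)^[p ^ a] v = lmul ((c ^ (p ^ a * t))⁻¹ * z ^ j) v := by
    rw [← lmul_lmul, ← h1, lmul_lmul, inv_mul_cancel, lmul_one]
  have hw : ((c ^ (p ^ a * t))⁻¹ * z ^ j) * c = c * ((c ^ (p ^ a * t))⁻¹ * z ^ j) :=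
    (Commute.mul_left (((Commute.refl c).pow_left (p ^ a * t)).inv_left) (show Commute (z ^ j) c from hcz)).eq
  generalize (c ^ (p ^ a * t))⁻¹ * z ^ j = w at h2 hw
  have h3 := iter_pow hw h2 (p ^ (m - a))
  rw [← pow_add, show a + (m - a) = m by omega, sig_iterate] at h3
  have h4 : c = w ^ p ^ (m - a) := lmul_inj hq h3
  refine hroot (w ^ p ^ (m - a - r)) ?_
  rw [← pow_mul, ← pow_add, show m - a - r + r = m - a by omega, ← h4]

/-- the orbits of the centralizer and the rotation -/
private def orb {q : ℕ} (hq : 0 < q) (c : G) : Setoid (Fin q → G) where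
  r w v := ∃ z : G, z * c = c * z ∧ ∃ j : ℕ, w = lmul z ((sig q c)^[j] v)
  iseqv := by
    refine ⟨fun v => ⟨1, by simp, 0, (lmul_one v).symm⟩, ?_, ?_⟩
    · rintro w v ⟨z, hz, j, rfl⟩
      have hz' : (z * c ^ j) * c = c * (z * c ^ j) :=
        (Commute.mul_left (show Commute z c from hz) ((Commute.refl c).pow_left j)).eq
      refine ⟨(z * c ^ j)⁻¹, (Commute.inv_left (show Commute (z * c ^ j) c from hz')).eq, q * j - j, ?_⟩
      rw [iter_lmul hz, ← Function.iterate_add_apply,
        Nat.sub_add_cancel (Nat.le_mul_of_pos_left j hq), iter_q, lmul_lmul z, lmul_lmul, inv_mul_cancel, lmul_one]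
    · rintro u w v ⟨z, hz, j, rfl⟩ ⟨z', hz', j', rfl⟩
      refine ⟨z * z', (Commute.mul_left (show Commute z c from hz) (show Commute z' c from hz')).eq, j + j', ?_⟩
      rw [iter_lmul hz', lmul_lmul, ← Function.iterate_add_apply]

theorem exists_tauR {p : ℕ} (hp : p.Prime) (m r : ℕ)
    {c : G} (hroot : ∀ h : G, ¬ IsConj c (h ^ p ^ r)) : ∃ τ : (Fin (p ^ m) → G) → ZMod (p ^ m), IsTau p m r c τ := by
  classical
  have hq : 0 < p ^ m := Nat.pow_pos hp.pos
  have hinj : ∀ j : ℕ, Function.Injective ((sig (p ^ m) c)^[j]) := fun j =>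
    Function.Injective.iterate (sig_bijective (p ^ m) c).1 j
  -- well definedness
  have hwd1 : ∀ (ρ : Fin (p ^ m) → G) (z z' : G), z * c = c * z → z' * c = c * z' → ∀ j j' : ℕ, j ≤ j' →
      lmul z ((sig (p ^ m) c)^[j] ρ) = lmul z' ((sig (p ^ m) c)^[j'] ρ) →
      (p : ZMod (p ^ m)) ^ r * (j : ZMod (p ^ m)) = (p : ZMod (p ^ m)) ^ r * (j' : ZMod (p ^ m)) := by
    intro ρ z z' hz hz' j j' hjj e
    obtain ⟨d, rfl⟩ := Nat.exists_eq_add_of_le hjj
    rw [Function.iterate_add_apply, ← iter_lmul hz, ← iter_lmul hz'] at e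
    have e1 := hinj j e
    have hzz : (z'⁻¹ * z) * c = c * (z'⁻¹ * z) :=
      (Commute.mul_left (Commute.inv_left (show Commute z' c from hz')) (show Commute z c from hz)).eq
    have e2 : (sig (p ^ m) c)^[d] ρ = lmul (z'⁻¹ * z) ρ := by
      rw [← lmul_lmul, e1, lmul_lmul, inv_mul_cancel, lmul_one]
    have e3 : ((p ^ r * d : ℕ) : ZMod (p ^ m)) = 0 :=
      (ZMod.natCast_eq_zero_iff _ _).2 (stab_dvdR hp m r hroot hzz e2)
    push_cast at e3 ⊢
    rw [mul_add, e3, add_zero]
  have hwd : ∀ (ρ : Fin (p ^ m) → G) (z z' : G), z * c = c * z → z' * c = c * z' → ∀ j j' : ℕ,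
      lmul z ((sig (p ^ m) c)^[j] ρ) = lmul z' ((sig (p ^ m) c)^[j'] ρ) →
      (p : ZMod (p ^ m)) ^ r * (j : ZMod (p ^ m)) = (p : ZMod (p ^ m)) ^ r * (j' : ZMod (p ^ m)) := by
    intro ρ z z' hz hz' j j' e
    rcases le_total j j' with h | h
    · exact hwd1 ρ z z' hz hz' j j' h e
    · exact (hwd1 ρ z' z hz' hz j' j h e.symm).symm
  have hrep : ∀ v : Fin (p ^ m) → G, ∃ z : G, z * c = c * z ∧ ∃ j : ℕ,
      v = lmul z ((sig (p ^ m) c)^[j] (Quotient.out (Quotient.mk (orb hq c) v))) := fun v =>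
    (orb hq c).symm (Quotient.exact (Quotient.out_eq (Quotient.mk (orb hq c) v)))
  choose zz hzz jj hjj using hrep
  -- the value can be computed with any expression
  have key : ∀ (v w : Fin (p ^ m) → G) (z : G) (j : ℕ), z * c = c * z → w = lmul z ((sig (p ^ m) c)^[j] v) →
      (p : ZMod (p ^ m)) ^ r * (jj w : ZMod (p ^ m)) =
        (p : ZMod (p ^ m)) ^ r * (jj v : ZMod (p ^ m)) + (p : ZMod (p ^ m)) ^ r * (j : ZMod (p ^ m)) := by
    intro v w z j hz e
    have e1 : Quotient.mk (orb hq c) w = Quotient.mk (orb hq c) v := Quotient.sound ⟨z, hz, j, e⟩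
    have e2 := hjj w
    rw [e1] at e2
    have e3 := hjj v
    have e4 : w = lmul (z * zz v) ((sig (p ^ m) c)^[j + jj v] (Quotient.out (Quotient.mk (orb hq c) v))) := by
      rw [Function.iterate_add_apply, ← lmul_lmul, ← iter_lmul (hzz v), ← e3]
      exact e
    have e5 := hwd _ _ _ (hzz w)
      (Commute.mul_left (show Commute z c from hz) (show Commute (zz v) c from hzz v)).eq _ _ (e2.symm.trans e4)
    rw [e5]
    push_cast
    ring
  refine ⟨fun v => (p : ZMod (p ^ m)) ^ r * (jj v : ZMod (p ^ m)), ⟨?_, ?_⟩⟩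
  · intro z hz v
    have := key v (lmul z v) z 0 hz rfl
    rw [Nat.cast_zero, mul_zero, add_zero] at this
    exact this
  · intro v
    have := key v (sig (p ^ m) c v) 1 1 (by simp) (by rw [lmul_one]; rfl)
    rw [Nat.cast_one, mul_one] at this
    exact this

end

section

variable {G : Type u} [Group G] {B : Type v} [CommRing B] {k : ℕ}

/-- **Divisibility when no conjugate of `c` has a root.** -/
theorem TR_dvdR {p : ℕ} [Fact p.Prime] (m r : ℕ) (hrm : r ≤ m)
    {c : G} (hroot : ∀ h : G, ¬ IsConj c (h ^ p ^ r)) {Φ : (Fin (k + 1) → Fin (p ^ m) → G) → B} (hΦ : CIq c (p ^ m) Φ)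
    (hr : RIq c (p ^ m) Φ) (w : QC (MonoidAlgebra B G) k) :
    (p : B) ^ (m - r + 1) ∣ TR (p ^ m) c Φ w := by
  induction w using QC.induction with
  | h0 => rw [map_zero]; exact dvd_zero _
  | ha a b h1 h2 => rw [map_add]; exact dvd_add h1 h2
  | hn a h1 => rw [map_neg]; exact (dvd_neg).2 h1
  | ht N x =>
    obtain ⟨S, hS⟩ := exists_supp (lts x)
    refine TR_dvd m (m - r) (Nat.sub_le m r) hΦ hr x S hS ?_
    intro l _ _ u hu
    rw [Nat.sub_sub_self hrm] at hu
    exact hroot l.prod (isConj_iff.2 ⟨u⁻¹, by rw [← hu]; group⟩)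

end

section

end

end Pool.Agent.H39.CZ

end

section

/-!
# The functionals on the colimit and their relation to the functionals on the Whitehead group
-/

set_option autoImplicit false
set_option linter.unusedSectionVars false
set_option linter.unusedSimpArgs false

open Matrix
open scoped Classical

universe u v w

namespace Pool.Agent.H71.WH

section

variable {G : Type v} [Group G]

theorem assembly_cl (C : CycSub G) (x : (MonoidAlgebra ℤ C.1)ˣ) :
    assembly G (cl C x) = incWh C x := FreeAbelianGroup.lift_apply_of _ _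

theorem colim_induction {P : ColimU G → Prop} (h0 : P 0)
    (h1 : ∀ (C : CycSub G) (x : (MonoidAlgebra ℤ C.1)ˣ), P (cl C x))
    (h2 : ∀ a b, P a → P b → P (a + b)) (z : ColimU G) : P z := by
  obtain ⟨y, rfl⟩ : ∃ y, toColim G y = z := QuotientAddGroup.mk_surjective z
  induction y using FreeAbelianGroup.induction_on with
  | zero => rw [map_zero]; exact h0
  | of x => exact h1 x.C x.x
  | neg x _ =>
    rw [map_neg]
    change P (-cl x.C x.x)
    rw [← cl_inv]
    exact h1 _ _
  | add x y hx hy => rw [map_add]; exact h2 _ _ hx hy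

theorem class_sq (f : CF G) (x y : G) : f.1 (x * y * (x * y)) = f.1 (y * x * (y * x)) := by
  have h1 : x * y * (x * y) = x * (y * x * y) := by group
  have h2 : y * x * (y * x) = y * x * y * x := by group
  rw [h1, h2, f.2]

/-- composition with the square -/
def CF.sq (f : CF G) : CF G := ⟨fun x => f.1 (x * x), class_sq f⟩

theorem CF.sq_iter (f : CF G) (k : ℕ) (x : G) : (CF.sq^[k] f).1 x = f.1 (x ^ 2 ^ k) := by
  induction k generalizing f with
  | zero => simp
  | succ k ih =>
    rw [Function.iterate_succ_apply, ih]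
    change f.1 (x ^ 2 ^ k * x ^ 2 ^ k) = _
    rw [← pow_add, pow_succ, mul_two]

theorem GamWh_assembly (f : CF G) (z : ColimU G) :
    GamWh f.1 f.2 (assembly G z) = LUc f z - 1 / 2 * LUc f.sq z := by
  induction z using colim_induction with
  | h0 => simp
  | h1 C x =>
    rw [assembly_cl, GamWh_incWh, LUc_cl, LUc_cl]
    rfl
  | h2 a b ha hb =>
    rw [map_add, map_add, ha, hb, map_add, map_add]
    ring

theorem LUc_half (f : CF G) {z : ColimU G} {M : ℤ} (hM : M ≠ 0) (h : M • assembly G z = 0) :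
    LUc f z = 1 / 2 * LUc f.sq z := by
  have h1 := congrArg (GamWh f.1 f.2) h
  rw [map_zsmul, map_zero, GamWh_assembly, zsmul_eq_mul] at h1
  rcases mul_eq_zero.1 h1 with h2 | h2
  · exact absurd (by exact_mod_cast h2) hM
  · exact sub_eq_zero.1 h2

theorem LUc_iter (f : CF G) {z : ColimU G} {M : ℤ} (hM : M ≠ 0) (h : M • assembly G z = 0)
    (n : ℕ) : LUc f z = (1 / 2) ^ n * LUc (CF.sq^[n] f) z := by
  induction n generalizing f with
  | zero => simp
  | succ n ih =>
    rw [LUc_half f hM h, ih f.sq, Function.iterate_succ_apply, pow_succ]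
    ring

/-- Eventual periodicity. -/
def Per (z : ColimU G) (k d : ℕ) : Prop :=
  ∀ f : CF G, LUc (CF.sq^[k + d] f) z = LUc (CF.sq^[k] f) z

theorem Per.mul {z : ColimU G} {k d : ℕ} (h : Per z k d) (m : ℕ) : Per z k (m * d) := by
  induction m with
  | zero => intro f; rw [zero_mul, add_zero]
  | succ m ih =>
    intro f
    rw [← ih f]
    have h1 := h (CF.sq^[m * d] f)
    rw [← Function.iterate_add_apply, ← Function.iterate_add_apply] at h1
    have e1 : k + (m + 1) * d = k + d + m * d := by ring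
    rw [e1]
    exact h1

theorem Per.add {z : ColimU G} {k d : ℕ} (h : Per z k d) (j : ℕ) : Per z (k + j) d := by
  intro f
  have h1 := h (CF.sq^[j] f)
  rw [← Function.iterate_add_apply, ← Function.iterate_add_apply] at h1
  have e1 : k + j + d = k + d + j := by ring
  rw [e1]
  exact h1

theorem exists_per (z : ColimU G) : ∃ k d, 0 < d ∧ Per z k d := by
  induction z using colim_induction with
  | h0 => exact ⟨0, 1, one_pos, fun f => by rw [map_zero, map_zero]⟩
  | h1 C x =>
    have := C.2.1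
    obtain ⟨a, b, hab, h⟩ := Finite.exists_ne_map_eq_of_infinite
      (fun (k : ℕ) (c : C.1) => c ^ 2 ^ k)
    wlog hlt : a < b generalizing a b
    · exact this b a (Ne.symm hab) h.symm (lt_of_le_of_ne (not_lt.1 hlt) (Ne.symm hab))
    refine ⟨a, b - a, Nat.sub_pos_of_lt hlt, ?_⟩
    intro f
    rw [Nat.add_sub_cancel' hlt.le, LUc_cl, LUc_cl]
    congr 1
    funext c
    rw [CF.sq_iter, CF.sq_iter]
    have h1 : c ^ 2 ^ a = c ^ 2 ^ b := congrFun h c
    have h2 : (c : G) ^ 2 ^ a = (c : G) ^ 2 ^ b := by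
      rw [← Subgroup.coe_pow, h1, Subgroup.coe_pow]
    rw [h2]
  | h2 x y hx hy =>
    obtain ⟨k, d, hd, h⟩ := hx
    obtain ⟨k', d', hd', h'⟩ := hy
    refine ⟨k + k', d' * d, Nat.mul_pos hd' hd, ?_⟩
    intro f
    have e1 := (h.mul d').add k' f
    have e2 := (h'.mul d).add k f
    rw [mul_comm d d', add_comm k' k] at e2
    rw [map_add, map_add, e1, e2]

/-- The functionals vanish on the kernel of the assembly map. -/
theorem LUc_eq_zero (f : CF G) {z : ColimU G} {M : ℤ} (hM : M ≠ 0) (h : M • assembly G z = 0) :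
    LUc f z = 0 := by
  obtain ⟨k, d, hd, hp⟩ := exists_per z
  have h1 := LUc_iter f hM h k
  have h2 := LUc_iter f hM h (k + d)
  rw [hp f] at h2
  rw [pow_add] at h2
  have h3 : LUc f z = (1 / 2) ^ d * LUc f z := by
    conv_rhs => rw [h1]
    rw [h2]
    ring
  have h4 : ((1 : ℚ_[2]) / 2) ^ d ≠ 1 := by
    intro h5
    have h6 : ((2 : ℚ_[2])) ^ d = 1 := by
      rw [one_div, inv_pow] at h5
      exact inv_eq_one.1 h5
    have h7 : (2 : ℕ) ^ d = 1 := by exact_mod_cast h6
    have h8 := Nat.one_lt_pow hd.ne' (by norm_num : 1 < 2)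
    omega
  have h5 : (1 - (1 / 2 : ℚ_[2]) ^ d) * LUc f z = 0 := by
    linear_combination h3
  rcases mul_eq_zero.1 h5 with h6 | h6
  · exact absurd (sub_eq_zero.1 h6).symm h4
  · exact h6

end

end Pool.Agent.H71.WH

end
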