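import Pool.Agent.H71.TCZ.M36
import Pool.Agent.H71.TCZ.M45
import Pool.Agent.H71.TCZ.M47
import Pool.Agent.H71.TCZ.M54
import Pool.Agent.H71.TCZ.M55
import Pool.Agent.H71.TCZ.M56

/-! The parts of this file: H71.KP.Sys0, H71.KP.Main0, H71.CZ.KpMap, H71.FU0.Field0. -/

section

/-!
# The system of logarithms of a subring of `ℤ_[p]`
-/

set_option autoImplicit false
set_option linter.unusedSectionVars false
set_option linter.unusedSimpArgs false

open Matrix Filter
open scoped Classical

universe u v w

namespace Pool.Agent.H71.KP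

open Pool.Agent.H71.WH (Sat mem_Sat CycSub conjHom)

variable {p : ℕ} [hp : Fact p.Prime]

theorem LU_zero_fun {H : Type w} [Group H] [Finite H] (x : (MonoidAlgebra ℤ_[p] H)ˣ)
    (f : H → ℤ_[p]) (hf : ∀ a, f a = 0) : LU f x = 0 := by
  have := Fintype.ofFinite H
  rw [LU_sum]
  apply Finset.sum_eq_zero
  intro c _
  rw [hf, PadicInt.coe_zero, zero_mul]

theorem uMap_injective {R : Type u} [CommRing R] {S : Type w} [CommRing S] {φ : R →+* S}
    (hφ : Function.Injective φ) (H : Type v) [Group H] : Function.Injective (uMap φ H) := by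
  intro x y h
  apply Units.ext
  ext a
  apply hφ
  have h1 := congrArg (fun z : (MonoidAlgebra S H)ˣ => (z : MonoidAlgebra S H).coeff a) h
  simpa only [uMap_val, MonoidAlgebra.coeff_mapRingHom] using h1

/-- The system of logarithms. -/
noncomputable def logSys0 {R : Type u} [CommRing R] (ρ : R →+* ℤ_[p])
    (hρ : Function.Injective ρ) : LogSys.{u, v, 0} R ℚ_[p] where
  good _ := True
  good_dvd _ _ := trivial
  ell H _ _ _ c x := LU (dlt p c) (uMap ρ H x)
  ell_mul H _ _ _ c x y _ := by
    rw [map_mul, LU_mul cyc_comm]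
  ell_map H H' _ _ _ _ _ _ φ hφ c x _ := by
    rw [uMap_unitsMap]
    refine (LU_map φ (dlt p (φ c)) (fun a b => by rw [cyc_comm]) (uMap ρ H x)).trans ?_
    congr 1
    funext a
    unfold dlt
    congr 1
    rw [eq_iff_iff]
    exact hφ.eq_iff
  ell_map_zero H H' _ _ _ _ _ _ φ hφ c' hc x _ := by
    rw [uMap_unitsMap]
    refine (LU_map φ (dlt p c') (fun a b => by rw [cyc_comm]) (uMap ρ H x)).trans ?_
    apply LU_zero_fun
    intro a
    exact if_neg (hc a)
  ell_res H _ _ _ E _ c x _ := by
    rw [uMap_resU, LU_resU, zsmul_eq_mul, Int.cast_natCast]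
  detect H _ _ _ x _ h := by
    refine ⟨NP p H, NP_ne_zero, ?_⟩
    apply uMap_injective hρ
    rw [map_pow, map_one]
    exact LU_detect h

/-- the indicator function of the conjugacy class of `c` -/
noncomputable def cf (p : ℕ) [Fact p.Prime] {G : Type v} [Group G] (c h : G) : ℤ_[p] :=
  if IsConj c h ∧ IsOfFinOrder h then 1 else 0

theorem cf_comm {G : Type v} [Group G] (c x y : G) : cf p c (x * y) = cf p c (y * x) := by
  have h : IsConj (x * y) (y * x) := isConj_iff.2 ⟨x⁻¹, by group⟩
  have h2 : IsOfFinOrder (x * y) ↔ IsOfFinOrder (y * x) := by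
    have e1 : y * x = x⁻¹ * (x * y) * x := by group
    rw [isOfFinOrder_iff_pow_eq_one, isOfFinOrder_iff_pow_eq_one]
    constructor
    · rintro ⟨n, hn, h⟩
      refine ⟨n, hn, ?_⟩
      have e2 : x⁻¹ * (x * y) * x = x⁻¹ * (x * y) * x⁻¹⁻¹ := by group
      rw [e1, e2, conj_pow, h]
      group
    · rintro ⟨n, hn, h⟩
      refine ⟨n, hn, ?_⟩
      have e2 : x * y = x * (y * x) * x⁻¹ := by group
      rw [e2, conj_pow, h]
      group
  unfold cf
  by_cases h1 : IsConj c (x * y) ∧ IsOfFinOrder (x * y)
  · rw [if_pos h1, if_pos ⟨h1.1.trans h, h2.1 h1.2⟩]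
  · rw [if_neg h1, if_neg (fun h3 => h1 ⟨h3.1.trans h.symm, h2.2 h3.2⟩)]

/-- the class function of `c` -/
noncomputable def cF (p : ℕ) [Fact p.Prime] {G : Type v} [Group G] (c : G) : CF p G :=
  ⟨cf p c, cf_comm c, fun g hg => by
    by_contra h
    exact hg (if_neg fun h' => h h'.2)⟩

variable {G : Type v} [Group G]

theorem LUc_cF (c : G) (D : CycSub G) [Fintype D.1] (y : (MonoidAlgebra ℤ_[p] D.1)ˣ) :
    LUc (cF p c) (cl D y) =
      ∑ d ∈ Finset.univ.filter (fun d : D.1 => IsConj c (d : G)), LU (dlt p d) y := by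
  rw [LUc_cl, LU_sum, Finset.sum_filter]
  apply Finset.sum_congr rfl
  intro d _
  change ((cf p c (d : G) : ℤ_[p]) : ℚ_[p]) * _ = _
  have hd : IsOfFinOrder (d : G) := D.1.subtype.isOfFinOrder (isOfFinOrder_of_finite d)
  unfold cf
  by_cases h : IsConj c (d : G)
  · rw [if_pos ⟨h, hd⟩, if_pos h, PadicInt.coe_one, one_mul]
  · rw [if_neg (fun h' => h h'.1), if_neg h, PadicInt.coe_zero, zero_mul]

/-- The kernel of the assembly map is a torsion group, for subrings of `ℤ_[p]`. -/
theorem kernel_torsion_of_padic {R : Type u} [CommRing R] (ρ : R →+* ℤ_[p])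
    (hρ : Function.Injective ρ) (z : ColimU R G) (M : ℤ) (hM : M ≠ 0)
    (h : M • assembly R G z = 0) : ∃ m : ℤ, m ≠ 0 ∧ m • z = 0 := by
  let S : LogSys.{u, v, 0} R ℚ_[p] := logSys0 ρ hρ
  refine S.torsion_of_V (fun c => (LUc (cF p c)).comp (colimMap ρ G)) ?_ z ?_ 1 one_ne_zero ?_
  · intro c D i1 i2 y _
    have := Fintype.ofFinite D.1
    change LUc (cF p c) (colimMap ρ G (cl D y)) = _
    rw [colimMap_cl, LUc_cF, LogSys.val]
    exact Finset.sum_congr (by ext; simp) (fun _ _ => rfl)
  · apply mem_Sat
    have key : ∀ w : ColimU R G, w ∈ AddSubgroup.closure (S.GoodSet G) := by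
      intro w
      induction w using colim_induction with
      | h0 => exact AddSubgroup.zero_mem _
      | h1 C x => exact AddSubgroup.subset_closure ⟨C, x, trivial, rfl⟩
      | h2 a b ha hb => exact AddSubgroup.add_mem _ ha hb
    exact key z
  · intro c
    rw [one_smul]
    refine LUc_eq_zero (cF p c) hM ?_
    rw [← whMap_assembly, ← map_zsmul, h, map_zero]

end Pool.Agent.H71.KP

end

section

/-!
# The kernel of the assembly map is torsion for domains of characteristic zero
-/

set_option autoImplicit false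

open Matrix Filter

universe u v w

namespace Pool.Agent.H71.KP

theorem finiteType_sub {R : Type u} [CommRing R] (s : Finset R) :
    Algebra.FiniteType ℤ (sub s) := by
  have h1 : Algebra.FiniteType ℤ (Algebra.adjoin ℤ (s : Set R)) :=
    (Subalgebra.fg_iff_finiteType _).1 (Subalgebra.fg_adjoin_finset s)
  have h2 : ∀ x : R, x ∈ Algebra.adjoin ℤ (s : Set R) ↔ x ∈ sub s := by
    intro x
    rw [Algebra.adjoin_int]
    exact Iff.rfl
  let f : Algebra.adjoin ℤ (s : Set R) →+* sub s :=
    { toFun := fun x => ⟨x.1, (h2 x.1).1 x.2⟩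
      map_one' := rfl
      map_mul' := fun _ _ => rfl
      map_zero' := rfl
      map_add' := fun _ _ => rfl }
  exact Algebra.FiniteType.of_surjective f.toIntAlgHom
    (fun x => ⟨⟨x.1, (h2 x.1).2 x.2⟩, rfl⟩)

/-- **The kernel of the assembly map is a torsion group** for domains of characteristic zero. -/
theorem kernel_torsion {R : Type u} [CommRing R] [IsDomain R] [CharZero R] {G : Type v} [Group G]
    (z : ColimU R G) (M : ℤ) (hM : M ≠ 0) (h : M • assembly R G z = 0) :
    ∃ m : ℤ, m ≠ 0 ∧ m • z = 0 := by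
  obtain ⟨s, z', hz, h'⟩ := (eventually_kernel z M h).exists
  have : CharZero (sub s) := ⟨fun a b hab => by
    have h1 := congrArg (incl s) hab
    rw [map_natCast, map_natCast] at h1
    exact Nat.cast_injective h1⟩
  have := finiteType_sub s
  obtain ⟨p, hp, ρ, hρ⟩ := exists_padic_embedding (sub s)
  obtain ⟨m, hm, h1⟩ := kernel_torsion_of_padic ρ hρ z' M hM h'
  exact ⟨m, hm, by rw [← hz, ← map_zsmul, h1, map_zero]⟩

end Pool.Agent.H71.KP

end

section

/-!
# The kernel of `ColimU R G → Wh R' G` for an injection of `R` into a domain `R'` of characteristic zero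

`kernel_torsion_map`: as `kernel_torsion` of `H71/KP/Main0`, with the relation over a larger domain.
-/

set_option autoImplicit false

open Matrix Filter

universe u v w t

namespace Pool.Agent.H71.KP

open Pool.Agent.H71.WH (InvMat K1 K1.mk K1.unit K1Rel genK1 addOne oneByOne CycSub conjHom Sat Sat_of_smul mem_Sat)

variable {G : Type v} [Group G]

section

variable {p : ℕ} [Fact p.Prime]

/-- The case of the subrings of `ℤ_[p]`. -/
theorem kernel_torsion_of_padic_map {R : Type u} [CommRing R] (ρ : R →+* ℤ_[p])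
    (hρ : Function.Injective ρ) (z : ColimU R G) (M : ℤ) (hM : M ≠ 0)
    (h : M • assembly ℤ_[p] G (colimMap ρ G z) = 0) : ∃ m : ℤ, m ≠ 0 ∧ m • z = 0 := by
  let S : LogSys.{u, v, 0} R ℚ_[p] := logSys0 ρ hρ
  refine S.torsion_of_V (fun c => (LUc (cF p c)).comp (colimMap ρ G)) ?_ z ?_ 1 one_ne_zero ?_
  · intro c D i1 i2 y _
    have := Fintype.ofFinite D.1
    change LUc (cF p c) (colimMap ρ G (cl D y)) = _
    rw [colimMap_cl, LUc_cF, LogSys.val]
    exact Finset.sum_congr (by ext; simp) (fun _ _ => rfl)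
  · apply mem_Sat
    have key : ∀ w : ColimU R G, w ∈ AddSubgroup.closure (S.GoodSet G) := by
      intro w
      induction w using colim_induction with
      | h0 => exact AddSubgroup.zero_mem _
      | h1 C x => exact AddSubgroup.subset_closure ⟨C, x, trivial, rfl⟩
      | h2 a b ha hb => exact AddSubgroup.add_mem _ ha hb
    exact key z
  · intro c
    rw [one_smul]
    exact LUc_eq_zero (cF p c) hM h

end

section

variable {R : Type u} [CommRing R] {S : Type t} [CommRing S] (φ : R →+* S)

variable (G) in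
/-- the map on the free abelian groups -/
noncomputable def freeMap : FreeAbelianGroup (CycUnit R G) →+ FreeAbelianGroup (CycUnit S G) :=
  FreeAbelianGroup.map fun a => ⟨a.C, uMap φ a.C.1 a.x⟩

theorem toColim_freeMap (z : FreeAbelianGroup (CycUnit R G)) :
    toColim S G (freeMap G φ z) = colimMap φ G (toColim R G z) := by
  induction z using FreeAbelianGroup.induction_on with
  | zero => rw [map_zero, map_zero, map_zero, map_zero]
  | of x =>
    rw [freeMap, FreeAbelianGroup.map_of_apply]
    exact (colimMap_cl φ G x.C x.x).symm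
  | neg x hx => rw [map_neg, map_neg, hx, map_neg, map_neg]
  | add x y hx hy => rw [map_add, map_add, hx, hy, map_add, map_add]

theorem asmF_freeMap (z : FreeAbelianGroup (CycUnit R G)) :
    asmF S G (freeMap G φ z) =
      FreeAbelianGroup.map (invMap (MonoidAlgebra.mapRingHom G φ)) (asmF R G z) := by
  induction z using FreeAbelianGroup.induction_on with
  | zero => rw [map_zero, map_zero, map_zero, map_zero]
  | of x =>
    rw [freeMap, FreeAbelianGroup.map_of_apply, asmF, FreeAbelianGroup.lift_apply_of, asmF,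
      FreeAbelianGroup.lift_apply_of]
    refine Eq.trans ?_ (FreeAbelianGroup.map_of_apply _).symm
    change genK1 (oneByOne (unitsMap x.C.1.subtype (uMap φ x.C.1 x.x))) =
      genK1 (mapGL (MonoidAlgebra.mapRingHom G φ) 1 (oneByOne (unitsMap x.C.1.subtype x.x)))
    rw [mapGL_oneByOne, ← uMap_unitsMap]
    rfl
  | neg x hx => rw [map_neg, map_neg, hx, map_neg, map_neg]
  | add x y hx hy => rw [map_add, map_add, hx, hy, map_add, map_add]

theorem colimMap_comp {T : Type w} [CommRing T] (ψ : S →+* T) (z : ColimU R G) :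
    colimMap ψ G (colimMap φ G z) = colimMap (ψ.comp φ) G z := by
  induction z using colim_induction with
  | h0 => rw [map_zero, map_zero, map_zero]
  | h1 C x =>
    rw [colimMap_cl, colimMap_cl, colimMap_cl]
    congr 1
    apply Units.ext
    exact congrArg (fun g : MonoidAlgebra R C.1 →+* MonoidAlgebra T C.1 => g x)
      (MonoidAlgebra.mapRingHom_comp ψ φ).symm
  | h2 a b ha hb => rw [map_add, map_add, ha, hb, map_add]

end

/-- **The kernel of `ColimU R G → Wh R' G` is a torsion group** for an injection of a commutative ring `R` into a domain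
`R'` of characteristic zero. -/
theorem kernel_torsion_map {R : Type u} [CommRing R] {S : Type t} [CommRing S] [IsDomain S] [CharZero S]
    (φ : R →+* S) (hφ : Function.Injective φ) (z : ColimU R G) (M : ℤ) (hM : M ≠ 0)
    (h : M • assembly S G (colimMap φ G z) = 0) : ∃ m : ℤ, m ≠ 0 ∧ m • z = 0 := by
  classical
  obtain ⟨y, rfl⟩ : ∃ y, toColim R G y = z := QuotientAddGroup.mk_surjective z
  have h1 : M • asmF S G (freeMap G φ y) ∈ WRel S G := by
    rw [← toWhF_eq_zero, map_zsmul, toWhF_asmF, toColim_freeMap, h]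
  obtain ⟨s, y0, hy1, hy2⟩ := (eventually_free y).exists
  obtain ⟨t, ht, y', hy3, hy4⟩ := ((eventually_ge_atTop (s.image φ)).and (eventually_rel h1)).exists
  have hmem : ∀ x : sub s, φ (incl s x) ∈ sub t := by
    intro x
    have h2 : sub s ≤ (sub t).comap φ := by
      rw [sub, Subring.closure_le]
      intro a ha
      exact Subring.subset_closure (ht (Finset.mem_image_of_mem φ ha))
    exact h2 x.2
  let j : sub s →+* sub t := (φ.comp (incl s)).codRestrict (sub t) hmem
  have hj : (incl t).comp j = φ.comp (incl s) := rfl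
  have hjinj : Function.Injective j := by
    intro a b hab
    apply incl_injective s
    apply hφ
    exact congrArg (incl t) hab
  have h5 : mapF G t (asmF (sub t) G (freeMap G j y0)) = asmF S G (freeMap G φ y) := by
    rw [asmF_freeMap, asmF_freeMap, ← hy2, mapF, mapF]
    have e : ∀ x : FreeAbelianGroup (InvMat (MonoidAlgebra (sub s) G)),
        FreeAbelianGroup.map (invMap (MonoidAlgebra.mapRingHom G (incl t)))
          (FreeAbelianGroup.map (invMap (MonoidAlgebra.mapRingHom G j)) x) =
        FreeAbelianGroup.map (invMap (MonoidAlgebra.mapRingHom G φ))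
          (FreeAbelianGroup.map (invMap (MonoidAlgebra.mapRingHom G (incl s))) x) := by
      intro x
      induction x using FreeAbelianGroup.induction_on with
      | zero => simp only [map_zero]
      | of x =>
        rw [FreeAbelianGroup.map_of_apply, FreeAbelianGroup.map_of_apply, FreeAbelianGroup.map_of_apply,
          FreeAbelianGroup.map_of_apply]
        congr 1
        obtain ⟨n, x⟩ := x
        change (⟨n, _⟩ : InvMat _) = ⟨n, _⟩
        congr 1
        apply Units.ext
        refine Matrix.ext fun a b => ?_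
        exact congrArg (fun g : MonoidAlgebra (sub s) G →+* MonoidAlgebra S G => g (x.val a b))
          ((MonoidAlgebra.mapRingHom_comp (incl t) j).symm.trans
            (MonoidAlgebra.mapRingHom_comp φ (incl s)))
      | neg x hx => simp only [map_neg, hx]
      | add x y hx hy => simp only [map_add, hx, hy]
    exact e _
  have h6 : y' = M • asmF (sub t) G (freeMap G j y0) := by
    apply mapF_injective t
    rw [hy4, map_zsmul, h5]
  have h7 : M • assembly (sub t) G (colimMap j G (toColim (sub s) G y0)) = 0 := by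
    rw [← toColim_freeMap, ← toWhF_asmF, ← map_zsmul, ← h6]
    exact (toWhF_eq_zero _ _ y').2 hy3
  have : CharZero (sub t) := ⟨fun a b hab => by
    have h1 := congrArg (incl t) hab
    rw [map_natCast, map_natCast] at h1
    exact Nat.cast_injective h1⟩
  have := finiteType_sub t
  obtain ⟨p, hp, ρ, hρ⟩ := exists_padic_embedding (sub t)
  obtain ⟨m, hm, h8⟩ := kernel_torsion_of_padic_map (ρ.comp j) (hρ.comp hjinj)
    (toColim (sub s) G y0) M hM (by
      rw [← colimMap_comp, ← whMap_assembly, ← map_zsmul, h7, map_zero])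
  exact ⟨m, hm, by rw [← hy1, ← map_zsmul, h8, map_zero]⟩

end Pool.Agent.H71.KP

end

section

/-!
# Project FU, degree one: the fields

Comparison with the full assembly map in degree one of `DB/Defs.lean`.
-/

set_option autoImplicit false

open Matrix

universe u v w

namespace Pool.Agent.H71.FU0

open Pool.Agent.H71.FQ
open Pool.Agent.H71.FJ (IdemMat K0 K0.mk K0.map K0.hom_ext)
open Pool.Agent.H95.WH (K1 K1.mk K1.map K1.map_map FamSub conjHom FinSub)

section

variable {k : Type u} [CommRing k] {G : Type v} [Group G]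

/-- the symbol in the second variable -/
noncomputable def chiD (F : FamSub G FinSub) (x : K0 (MonoidAlgebra k F.1)) :
    Subgroup.centralizer (F.1 : Set G) →* Multiplicative (DB.H1K0 k G) where
  toFun z := Multiplicative.ofAdd (DB.sy F x z)
  map_one' := by
    have h := DB.sy_mul F x 1 1
    rw [mul_one] at h
    exact congrArg Multiplicative.ofAdd (left_eq_add.1 h)
  map_mul' z z' := congrArg Multiplicative.ofAdd (DB.sy_mul F x z z')

/-- the biadditive map -/
noncomputable def bD (F : FamSub G FinSub) : K0 (MonoidAlgebra k F.1) →+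
    HG (Subgroup.centralizer (F.1 : Set G)) 0 →+ DB.H1K0 k G :=
  AddMonoidHom.mk' (fun x => ev1 (chiD F x)) (by
    intro x y
    apply hg0_ext
    intro z
    rw [AddMonoidHom.add_apply, ev1_e1, ev1_e1, ev1_e1]
    exact DB.sy_add F x y z)

theorem bD_e1 (F : FamSub G FinSub) (x : K0 (MonoidAlgebra k F.1))
    (z : Subgroup.centralizer (F.1 : Set G)) : bD F x (e1 z) = DB.sy F x z := by
  change ev1 (chiD F x) (e1 z) = _
  rw [ev1_e1]
  rfl

theorem bD_conj (F F' : FamSub G FinSub) (g : G) (h : ∀ x ∈ F.1, g * x * g⁻¹ ∈ F'.1)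
    (x : K0 (MonoidAlgebra k F.1)) (z : HG (Subgroup.centralizer (F'.1 : Set G)) 0) :
    bD F' (K0.map (MonoidAlgebra.mapDomainRingHom k (conjHom g F.1 F'.1 h)) x) z =
      bD F x (HG.map 0 (centConj g F.1 F'.1 h) z) := by
  have h1 : bD F' (K0.map (MonoidAlgebra.mapDomainRingHom k (conjHom g F.1 F'.1 h)) x) =
      (bD F x).comp (HG.map 0 (centConj g F.1 F'.1 h)) := by
    apply hg0_ext
    intro z
    rw [AddMonoidHom.comp_apply, map_e1, bD_e1, bD_e1]
    exact DB.sy_conj F F' g h x z
  exact DFunLike.congr_fun h1 z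

/-- the homomorphism to `H1K0` -/
noncomputable def toD0 : HnK0 k G 0 →+ DB.H1K0 k G := Pool.Agent.H16.FU.lift0 (fun F => bD F) bD_conj

theorem toD0_sy (F : FamSub G FinSub) (x : K0 (MonoidAlgebra k F.1))
    (z : HG (Subgroup.centralizer (F.1 : Set G)) 0) : toD0 (sy F x z) = bD F x z :=
  Pool.Agent.H16.FU.lift0_sy _ _ F x z

/-- the homomorphism from `H1K0` -/
noncomputable def fromD0 : DB.H1K0 k G →+ HnK0 k G 0 :=
  QuotientAddGroup.lift (DB.SymRel k G)
    (FreeAbelianGroup.lift fun s : DB.Sym k G => (sy s.F s.x (e1 s.z) : HnK0 k G 0)) (by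
      rw [DB.SymRel, AddSubgroup.closure_le]
      rintro w ((⟨F, x, y, z, rfl⟩ | ⟨F, x, z, z', rfl⟩) | ⟨F, F', g, h, x, z, rfl⟩)
      · change FreeAbelianGroup.lift _ _ = 0
        rw [DB.symX, DB.symOf, DB.symOf, DB.symOf, map_sub, map_add,
          FreeAbelianGroup.lift_apply_of, FreeAbelianGroup.lift_apply_of,
          FreeAbelianGroup.lift_apply_of, sub_eq_zero]
        exact sy_add F x y (e1 z)
      · change FreeAbelianGroup.lift _ _ = 0
        rw [DB.symZ, DB.symOf, DB.symOf, DB.symOf, map_sub, map_add,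
          FreeAbelianGroup.lift_apply_of, FreeAbelianGroup.lift_apply_of,
          FreeAbelianGroup.lift_apply_of, sub_eq_zero]
        exact (congrArg (sy F x) (e1_mul z z')).trans (sy_addz F x _ _)
      · change FreeAbelianGroup.lift _ _ = 0
        rw [DB.symC, DB.symOf, DB.symOf, map_sub, FreeAbelianGroup.lift_apply_of,
          FreeAbelianGroup.lift_apply_of, sub_eq_zero]
        refine (sy_conj F F' g h x (e1 z)).trans ?_
        rw [map_e1]
        rfl)

theorem fromD0_sy (F : FamSub G FinSub) (x : K0 (MonoidAlgebra k F.1))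
    (z : Subgroup.centralizer (F.1 : Set G)) : fromD0 (DB.sy F x z) = sy F x (e1 z) :=
  FreeAbelianGroup.lift_apply_of (fun s : DB.Sym k G => (sy s.F s.x (e1 s.z) : HnK0 k G 0))
    ⟨F, x, z⟩

theorem fromD0_toD0 (w : HnK0 k G 0) : fromD0 (toD0 w) = w := by
  have h : (fromD0 (k := k) (G := G)).comp toD0 = AddMonoidHom.id _ := by
    apply hnk0_ext
    intro F x z
    rw [AddMonoidHom.comp_apply, toD0_sy, AddMonoidHom.id_apply]
    induction z using hg0_induction with
    | h0 =>
      rw [map_zero, map_zero]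
      have e : sy F x (0 : HG (Subgroup.centralizer (F.1 : Set G)) 0) +
          sy F x (0 : HG (Subgroup.centralizer (F.1 : Set G)) 0) =
          (sy F x (0 : HG (Subgroup.centralizer (F.1 : Set G)) 0) : HnK0 k G 0) := by
        rw [← sy_addz, add_zero]
      exact (left_eq_add.1 e.symm).symm
    | h1 a => rw [bD_e1, fromD0_sy]
    | h2 a b ha hb => rw [map_add, map_add, ha, hb, sy_addz]
    | h3 a ha =>
      rw [map_neg, map_neg, ha]
      have e : sy F x a + sy F x (-a) = (0 : HnK0 k G 0) := by
        rw [← sy_addz, add_neg_cancel]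
        have e : sy F x (0 : HG (Subgroup.centralizer (F.1 : Set G)) 0) +
            sy F x (0 : HG (Subgroup.centralizer (F.1 : Set G)) 0) =
            (sy F x (0 : HG (Subgroup.centralizer (F.1 : Set G)) 0) : HnK0 k G 0) := by
          rw [← sy_addz, add_zero]
        exact left_eq_add.1 e.symm
      exact neg_eq_of_add_eq_zero_right e
  exact DFunLike.congr_fun h w

/-- the homomorphism to the colimit -/
noncomputable def toD1 : H0K1 k G →+ DB.ColimK1 k G :=
  lift10 (fun F => DB.cl1 k G F) (fun F F' g h x => DB.cl1_conj k G F F' g h x)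

theorem toD1_cl (F : FamSub G FinSub) (x : K1 (MonoidAlgebra k F.1)) :
    toD1 (cl F x) = DB.cl1 k G F x := lift10_cl _ _ F x

/-- the homomorphism from the colimit -/
noncomputable def fromD1 : DB.ColimK1 k G →+ H0K1 k G :=
  QuotientAddGroup.lift (DB.colimRel1 k G)
    (DB.sumLift1 k G fun F => (cl F : K1 (MonoidAlgebra k F.1) →+ H0K1 k G)) (by
      rw [DB.colimRel1, AddSubgroup.closure_le]
      rintro z ⟨F, F', g, h, x, rfl⟩
      change DB.sumLift1 k G _ _ = 0
      refine (map_sub (DB.sumLift1 k G fun F => (cl F : K1 (MonoidAlgebra k F.1) →+ H0K1 k G))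
        _ _).trans ?_
      refine sub_eq_zero.2 ?_
      refine (DB.sumLift1_inc k G (fun F => (cl F : K1 (MonoidAlgebra k F.1) →+ H0K1 k G)) F'
        _).trans ?_
      refine Eq.trans ?_ (DB.sumLift1_inc k G
        (fun F => (cl F : K1 (MonoidAlgebra k F.1) →+ H0K1 k G)) F _).symm
      exact cl_conj F F' g h x)

theorem fromD1_cl1 (F : FamSub G FinSub) (x : K1 (MonoidAlgebra k F.1)) :
    fromD1 (DB.cl1 k G F x) = cl F x :=
  DB.sumLift1_inc k G (fun F => (cl F : K1 (MonoidAlgebra k F.1) →+ H0K1 k G)) F x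

theorem fromD1_toD1 (w : H0K1 k G) : fromD1 (toD1 w) = w := by
  have h : (fromD1 (k := k) (G := G)).comp toD1 = AddMonoidHom.id _ := by
    apply h0k1_ext
    intro F x
    rw [AddMonoidHom.comp_apply, toD1_cl, fromD1_cl1, AddMonoidHom.id_apply]
  exact DFunLike.congr_fun h w

theorem kap_asm0 (w : HnK0 k G 0) : kap (assemblyN k 0 G w) = DB.asmH k G (toD0 w) := by
  have h : kap.comp (assemblyN k 0 G) = (DB.asmH k G).comp toD0 := by
    apply hnk0_ext
    intro F x z
    rw [AddMonoidHom.comp_apply, AddMonoidHom.comp_apply, toD0_sy, asmN_sy]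
    have h1 : kap.comp (gasm k 0 F.1.subtype (Subgroup.centralizer (F.1 : Set G)).subtype
        (cent_comm F.1) x) = (DB.asmH k G).comp (bD F x) := by
      apply hg0_ext
      intro γ
      rw [AddMonoidHom.comp_apply, AddMonoidHom.comp_apply, bD_e1, DB.asmH_sy]
      have h4 : kap.comp ((AddMonoidHom.eval (e1 γ)).comp (gasm k 0 F.1.subtype
          (Subgroup.centralizer (F.1 : Set G)).subtype (cent_comm F.1))) =
          DB.gbass k F.1.subtype (γ : G) (DB.cent_comm γ) := by
        apply K0.hom_ext
        intro a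
        change kap (gasm k 0 F.1.subtype (Subgroup.centralizer (F.1 : Set G)).subtype
          (cent_comm F.1) (K0.mk a) (e1 γ)) = _
        rw [gasm, asm_mk, map_e1, kap_cls, DB.gbass, DB.bass_mk]
        congr 1
      exact DFunLike.congr_fun h4 x
    exact DFunLike.congr_fun h1 z
  exact DFunLike.congr_fun h w

theorem kap_asm1 (w : H0K1 k G) : kap (assembly10 k G w) = DB.asm1 k G (toD1 w) := by
  have h : kap.comp (assembly10 k G) = (DB.asm1 k G).comp toD1 := by
    apply h0k1_ext
    intro F x
    rw [AddMonoidHom.comp_apply, AddMonoidHom.comp_apply, toD1_cl, assembly10_cl, kap_kq1,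
      DB.asm1_cl]
  exact DFunLike.congr_fun h w

theorem kap_asm00 (w : HnK0 k G 0 × H0K1 k G) :
    kap (assembly00 k G w) = DB.asm1 k G (toD1 w.2) + DB.asmH k G (toD0 w.1) := by
  rw [assembly00_apply, map_add, kap_asm0, kap_asm1, add_comm]

theorem ratInj00_of_full (h : DB.RatInj (DB.fullAssembly k G)) : RatInj (assembly00 k G) := by
  rw [ratInj_iff]
  intro z M hM hz
  have h1 : M • (DB.asm1 k G (toD1 z.2) + DB.asmH k G (toD0 z.1)) = 0 := by
    rw [← kap_asm00]
    have h2 : kap (M • assembly00 k G z) = 0 := by rw [hz, map_zero]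
    rw [map_zsmul] at h2
    exact h2
  obtain ⟨m, hm, h2⟩ := (ratInj_iff (f := DB.fullAssembly k G)).1 h (toD1 z.2, toD0 z.1) M hM h1
  refine ⟨m, hm, ?_⟩
  have h3 : m • toD1 z.2 = 0 := congrArg Prod.fst h2
  have h4 : m • toD0 z.1 = 0 := congrArg Prod.snd h2
  refine Prod.ext ?_ ?_
  · change m • z.1 = 0
    rw [← fromD0_toD0 z.1, ← map_zsmul, h4, map_zero]
  · change m • z.2 = 0
    rw [← fromD1_toD1 z.2, ← map_zsmul, h3, map_zero]

end

end Pool.Agent.H71.FU0

end
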