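import Pool.Agent.H71.TCZ.M12
import Pool.Agent.H71.TCZ.M27

/-! The parts of this file: H71.CZ.Wr_1, H71.CZ.TrW. -/

section

/-!
# Project CZ: the wreath product `G ≀ C_p`

`Wr p G = G^p ⋊ C_p`, `sg * inc g * sg⁻¹ = inc (shG g)`, `(shG g) i = g (i + 1)`; `hat c = inc (c, 1, …, 1) * sg`, `hat c ^ p = inc (c, …, c)`.

PROOFS.  `inc_sg_pow`: `(inc a * sg) ^ k = inc (∏_{j < k} shG^j a) * sg ^ k` (product in this order).  `hat_pow`: for `a = (c at 0)` the product of
the `(shG^j a) i = a (i + j)`, `j < p`, has exactly one factor `≠ 1` for each `i`.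
`conj_hat`: `h : ZMod p → G`; with `P = h_0 h_1 ⋯ h_{p-1}` (in the order `h 0, h 1, …`) `inc h * sg` is conjugate to `hat P` by `inc k`:
`inc k * hat P * (inc k)⁻¹ = inc (k * (P at 0) * (shG k)⁻¹) * sg`, so solve `k i * (P at 0) i * k (i + 1)⁻¹ = h i`: `k (i + 1) = h i ⁻¹ k i` for
`i ≠ 0`, `k 1 = h 0 ⁻¹ k 0 P`; take `k 0 = 1`, then `k 1 = h 0⁻¹ P = h 1 ⋯ h (p-1)`, …, `k i = h i h (i+1) ⋯ h (p-1)` for `1 ≤ i < p`, `k p = 1 = k 0`.
If `u P u⁻¹ = c` then `inc (u, …, u)` conjugates `hat P` to `hat c`.  Conversely `y (inc h * sg) y⁻¹ = hat c`, `y = inc k * sg ^ j`: take `p`-th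
powers: `inc (cyclic rotations of the product h_i h_{i+1} ⋯ h_{i-1})` is conjugate to `inc (c, …, c)`.
-/

set_option autoImplicit false

universe u v w

namespace Pool.Agent.H71.CZ

section

variable (p : ℕ) (G : Type v) [Group G]

variable {p G}

theorem inc_injective : Function.Injective (inc p G) := SemidirectProduct.inl_injective

theorem dgG_apply (g : G) (i : ZMod p) : dgG p G g i = g := rfl

theorem sg_mul_dg (g : G) : sg p G * inc p G (dgG p G g) = inc p G (dgG p G g) * sg p G := by
  rw [sg_mul_inc]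
  rfl

theorem right_inc_sg (g : ZMod p → G) (k : ℕ) :
    SemidirectProduct.rightHom (inc p G g * sg p G ^ k) = Multiplicative.ofAdd (k : ZMod p) := by
  rw [map_mul, sg_pow_nat]
  show (1 : Multiplicative (ZMod p)) * Multiplicative.ofAdd (k : ZMod p) = _
  rw [one_mul]

theorem right_inc (g : ZMod p → G) : SemidirectProduct.rightHom (inc p G g) = (1 : Multiplicative (ZMod p)) := rfl

theorem eq_inc_of_right {x : Wr p G} (h : SemidirectProduct.rightHom x = (1 : Multiplicative (ZMod p))) : x = inc p G x.left := by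
  have h1 := SemidirectProduct.inl_left_mul_inr_right x
  have h2 : x.right = 1 := h
  rw [h2, map_one, mul_one] at h1
  exact h1.symm

/-- every element is of the form `inc g * sg ^ j` -/
theorem exists_inc_sg [NeZero p] (x : Wr p G) :
    ∃ (g : ZMod p → G) (j : ℕ), j < p ∧ x = inc p G g * sg p G ^ j := by
  refine ⟨x.left, x.right.toAdd.val, ZMod.val_lt _, ?_⟩
  rw [sg_pow_nat, ZMod.natCast_zmod_val, ofAdd_toAdd]
  exact (SemidirectProduct.inl_left_mul_inr_right x).symm

/-- the elements `inc g * sg ^ j`, `0 < j < p`, are not in `G^p` -/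
theorem inc_sg_notMem [NeZero p] (g : ZMod p → G) (j : ℕ) (h0 : j ≠ 0) (hj : j < p)
    (h : ZMod p → G) : inc p G g * sg p G ^ j ≠ inc p G h := by
  intro he
  have h1 := congrArg (SemidirectProduct.rightHom) he
  rw [right_inc_sg, right_inc] at h1
  have h2 : (j : ZMod p) = 0 := by
    have := congrArg Multiplicative.toAdd h1
    exact this
  rw [ZMod.natCast_eq_zero_iff] at h2
  exact absurd (Nat.le_of_dvd (Nat.pos_of_ne_zero h0) h2) (not_le.2 hj)

variable (p) in
/-- the element `(c, 1, …, 1) σ` -/
def hat (c : G) : Wr p G := inc p G (Function.update 1 0 c) * sg p G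

/-- the product of `k` consecutive entries -/
def cprod (a : ZMod p → G) (k : ℕ) (i : ZMod p) : G := ((List.range k).map fun j : ℕ => a (i + (j : ZMod p))).prod

theorem cprod_succ (a : ZMod p → G) (k : ℕ) (i : ZMod p) : cprod a (k + 1) i = cprod a k i * a (i + (k : ZMod p)) := by
  unfold cprod
  rw [List.range_succ, List.map_append, List.prod_append]
  simp

theorem sg_pow_mul_inc (k : ℕ) (g : ZMod p → G) : sg p G ^ k * inc p G g = inc p G (fun i => g (i + (k : ZMod p))) * sg p G ^ k := by
  induction k with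
  | zero => simp
  | succ k ih =>
    have h1 : (fun i : ZMod p => g (i + ((k + 1 : ℕ) : ZMod p))) = shG p G (fun i => g (i + (k : ZMod p))) := by
      funext i
      rw [shG_apply]
      congr 1
      push_cast
      ring
    rw [pow_succ', mul_assoc, ih, ← mul_assoc, sg_mul_inc, h1, mul_assoc]

theorem inc_sg_pow (a : ZMod p → G) (k : ℕ) : (inc p G a * sg p G) ^ k = inc p G (cprod a k) * sg p G ^ k := by
  induction k with
  | zero =>
    have h1 : cprod a 0 = 1 := by
      funext i
      simp [cprod]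
    simp [h1]
  | succ k ih =>
    have h1 : cprod a (k + 1) = cprod a k * fun i => a (i + (k : ZMod p)) := by
      funext i
      exact cprod_succ a k i
    rw [pow_succ, ih, mul_assoc, ← mul_assoc (sg p G ^ k), sg_pow_mul_inc, h1, map_mul, pow_succ]
    simp only [mul_assoc]

variable [hp : Fact p.Prime]

theorem cprod_hat (c : G) (i : ZMod p) (k : ℕ) (hk : k ≤ p) :
    cprod (Function.update (1 : ZMod p → G) 0 c) k i = if (-i).val < k then c else 1 := by
  induction k with
  | zero => simp [cprod]
  | succ k ih =>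
    rw [cprod_succ, ih (by omega)]
    have h1 : i + (k : ZMod p) = 0 ↔ (-i).val = k := by
      constructor
      · intro h
        have h2 : -i = (k : ZMod p) := neg_eq_of_add_eq_zero_right h
        rw [h2, ZMod.val_natCast, Nat.mod_eq_of_lt (by omega)]
      · intro h
        rw [← h, ZMod.natCast_zmod_val]
        ring
    by_cases h2 : i + (k : ZMod p) = 0
    · have h3 := h1.1 h2
      rw [h2, Function.update_self, if_neg (by omega), if_pos (by omega), one_mul]
    · have h3 : ¬ (-i).val = k := fun h => h2 (h1.2 h)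
      rw [Function.update_of_ne h2, Pi.one_apply, mul_one]
      by_cases h4 : (-i).val < k
      · rw [if_pos h4, if_pos (by omega)]
      · rw [if_neg h4, if_neg (by omega)]

theorem hat_pow (c : G) : hat p c ^ p = inc p G (dgG p G c) := by
  unfold hat
  rw [inc_sg_pow, sg_pow, mul_one]
  congr 1
  funext i
  rw [cprod_hat c i p le_rfl, if_pos (ZMod.val_lt _)]
  rfl

theorem isOfFinOrder_hat {c : G} (hc : IsOfFinOrder c) : IsOfFinOrder (hat p c) := by
  obtain ⟨n, hn, h1⟩ := isOfFinOrder_iff_pow_eq_one.1 hc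
  refine isOfFinOrder_iff_pow_eq_one.2 ⟨p * n, Nat.mul_pos hp.out.pos hn, ?_⟩
  rw [pow_mul, hat_pow, ← map_pow, ← map_pow, h1, map_one, map_one]

theorem right_hat (c : G) : SemidirectProduct.rightHom (hat p c) = Multiplicative.ofAdd (1 : ZMod p) := by
  have h := right_inc_sg (Function.update (1 : ZMod p → G) 0 c) 1
  rw [pow_one, Nat.cast_one] at h
  exact h

theorem ofAdd_one_ne : Multiplicative.ofAdd (1 : ZMod p) ≠ 1 := by
  intro h
  have h1 : (1 : ZMod p) = 0 := congrArg Multiplicative.toAdd h
  exact one_ne_zero h1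

theorem dvd_orderOf_hat {c : G} (hc : IsOfFinOrder c) : p ∣ orderOf (hat p c) := by
  have h1 := orderOf_map_dvd (SemidirectProduct.rightHom (φ := actW p G)) (hat p c)
  rw [right_hat, orderOf_ofAdd_eq_addOrderOf, ZMod.addOrderOf_one] at h1
  exact h1

/-- no conjugate of `hat c` is in `G^p` -/
theorem hat_conj_notMem (c : G) (x : Wr p G) (g : ZMod p → G) :
    x * hat p c * x⁻¹ ≠ inc p G g := by
  intro h
  have h1 := congrArg (SemidirectProduct.rightHom) h
  rw [map_mul, map_mul, map_inv, right_inc, right_hat, mul_comm (SemidirectProduct.rightHom x), mul_inv_cancel_right] at h1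
  exact ofAdd_one_ne h1

/-- the product `h_0 h_1 ⋯ h_{p-1}` -/
def pr0 (h : ZMod p → G) : G := (List.ofFn fun j : Fin p => h ((j : ℕ) : ZMod p)).prod

/-- the product `h_m ⋯ h_{p-1}` -/
def sfx (h : ZMod p → G) (m : ℕ) : G := ((List.range (p - m)).map fun j : ℕ => h ((m + j : ℕ) : ZMod p)).prod

theorem sfx_self (h : ZMod p → G) : sfx h p = 1 := by
  simp [sfx]

theorem sfx_step (h : ZMod p → G) {m : ℕ} (hm : m < p) : sfx h m = h (m : ZMod p) * sfx h (m + 1) := by
  unfold sfx
  have h1 : p - m = (p - (m + 1)) + 1 := by omega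
  rw [h1, List.range_succ_eq_map, List.map_cons, List.prod_cons, List.map_map]
  congr 2
  refine List.map_congr_left fun j _ => ?_
  show h ((m + (j + 1) : ℕ) : ZMod p) = h ((m + 1 + j : ℕ) : ZMod p)
  rw [show m + (j + 1) = m + 1 + j by omega]

theorem sfx_zero (h : ZMod p → G) : sfx h 0 = pr0 h := by
  unfold sfx pr0
  rw [Nat.sub_zero, List.ofFn_eq_map, ← List.map_coe_finRange_eq_range, List.map_map]
  congr 1
  refine List.map_congr_left fun j _ => ?_
  simp

theorem sfx_mem (h : ZMod p → G) (m : ℕ) {D : Subgroup G} (hD : ∀ i, h i ∈ D) : sfx h m ∈ D := by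
  unfold sfx
  refine list_prod_mem fun x hx => ?_
  obtain ⟨j, -, rfl⟩ := List.mem_map.1 hx
  exact hD _

/-- the conjugates of `hat c` with `C_p`-component the generator: explicit conjugating element -/
theorem conj_hat (h : ZMod p → G) : ∃ k : ZMod p → G,
    (∀ (D : Subgroup G), (∀ i, h i ∈ D) → ∀ i, k i ∈ D) ∧
      inc p G h * sg p G = inc p G k * hat p (pr0 h) * (inc p G k)⁻¹ := by
  classical
  obtain ⟨k, hk⟩ : ∃ k : ZMod p → G, ∀ i, k i = if i = 0 then 1 else sfx h i.val := ⟨_, fun _ => rfl⟩
  have hk1 : ∀ i : ZMod p, k (i + 1) = sfx h (i.val + 1) := by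
    intro i
    have hi := ZMod.val_lt i
    by_cases h1 : i.val + 1 = p
    · have h2 : i + 1 = 0 := by
        have h3 : ((i.val + 1 : ℕ) : ZMod p) = 0 := by rw [h1, ZMod.natCast_self]
        rwa [Nat.cast_add, ZMod.natCast_zmod_val, Nat.cast_one] at h3
      rw [hk, if_pos h2, h1, sfx_self]
    · have h2 : (i + 1).val = i.val + 1 := by
        have h3 : i + 1 = ((i.val + 1 : ℕ) : ZMod p) := by rw [Nat.cast_add, ZMod.natCast_zmod_val, Nat.cast_one]
        rw [h3, ZMod.val_natCast, Nat.mod_eq_of_lt (by omega)]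
      have h4 : i + 1 ≠ 0 := by
        intro h5
        rw [h5, ZMod.val_zero] at h2
        omega
      rw [hk, if_neg h4, h2]
  have hs : ∀ i : ZMod p, h i * k (i + 1) = sfx h i.val := by
    intro i
    rw [hk1, sfx_step h (ZMod.val_lt i), ZMod.natCast_zmod_val]
  refine ⟨k, fun D hD i => ?_, ?_⟩
  · rw [hk]
    split_ifs
    · exact D.one_mem
    · exact sfx_mem h _ hD
  · have h1 : h = k * Function.update (1 : ZMod p → G) 0 (pr0 h) * shG p G k⁻¹ := by
      funext i
      show h i = k i * Function.update (1 : ZMod p → G) 0 (pr0 h) i * (k (i + 1))⁻¹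
      rw [eq_mul_inv_iff_mul_eq, hs]
      by_cases h0 : i = 0
      · rw [h0, Function.update_self, hk 0, if_pos rfl, one_mul, ZMod.val_zero, sfx_zero]
      · rw [Function.update_of_ne h0, Pi.one_apply, mul_one, hk i, if_neg h0]
    unfold hat
    rw [← map_inv, mul_assoc (inc p G k), mul_assoc (inc p G _) (sg p G), sg_mul_inc]
    conv_lhs => rw [h1]
    rw [map_mul, map_mul]
    simp only [mul_assoc]

/-- conjugation by the diagonal -/
theorem conj_hat_dg (u c : G) :
    inc p G (dgG p G u) * hat p c * (inc p G (dgG p G u))⁻¹ = hat p (u * c * u⁻¹) := by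
  unfold hat
  rw [← map_inv, ← map_inv, mul_assoc (inc p G (dgG p G u)), mul_assoc (inc p G _) (sg p G), sg_mul_dg, ← mul_assoc, ← mul_assoc,
    ← map_mul, ← map_mul]
  congr 2
  funext i
  show u * Function.update (1 : ZMod p → G) 0 c i * u⁻¹ = Function.update (1 : ZMod p → G) 0 (u * c * u⁻¹) i
  by_cases h0 : i = 0
  · rw [h0, Function.update_self, Function.update_self]
  · rw [Function.update_of_ne h0, Function.update_of_ne h0, Pi.one_apply, mul_one, mul_inv_cancel]

theorem sg_pow_mul_dg (k : ℕ) (g : G) : sg p G ^ k * inc p G (dgG p G g) = inc p G (dgG p G g) * sg p G ^ k := by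
  rw [sg_pow_mul_inc]
  rfl

/-- **The conjugacy class of `hat c`.** -/
theorem isConj_hat_iff (c : G) (h : ZMod p → G) :
    IsConj (hat p c) (inc p G h * sg p G) ↔ IsConj c (pr0 h) := by
  obtain ⟨k, -, hk⟩ := conj_hat h
  have h1 : IsConj (hat p (pr0 h)) (inc p G h * sg p G) := isConj_iff.2 ⟨inc p G k, hk.symm⟩
  constructor
  · intro h2
    obtain ⟨x, hx⟩ := isConj_iff.1 (h2.trans h1.symm)
    obtain ⟨g, j, -, rfl⟩ := exists_inc_sg x
    have h3 : (inc p G g * sg p G ^ j) * inc p G (dgG p G c) * (inc p G g * sg p G ^ j)⁻¹ = inc p G (dgG p G (pr0 h)) := by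
      rw [← hat_pow, ← hat_pow, ← hx, conj_pow]
    rw [mul_assoc (inc p G g), sg_pow_mul_dg, ← mul_assoc, mul_inv_rev, mul_assoc (inc p G g * inc p G (dgG p G c)),
      mul_inv_cancel_left, ← map_mul, ← map_inv, ← map_mul] at h3
    have h4 := congrFun (inc_injective h3) 0
    exact isConj_iff.2 ⟨g 0, h4⟩
  · intro h2
    obtain ⟨u, hu⟩ := isConj_iff.1 h2
    refine IsConj.trans ?_ h1
    rw [← hu]
    exact isConj_iff.2 ⟨inc p G (dgG p G u), conj_hat_dg u c⟩

/-- conjugates of `hat c` have `C_p`-component the generator -/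
theorem isConj_hat_form (c : G) (x : Wr p G) (hx : IsConj (hat p c) x) :
    ∃ h : ZMod p → G, x = inc p G h * sg p G := by
  obtain ⟨y, hy⟩ := isConj_iff.1 hx
  obtain ⟨g, j, hj, h1⟩ := exists_inc_sg x
  have h2 : SemidirectProduct.rightHom x = Multiplicative.ofAdd (1 : ZMod p) := by
    rw [← hy, map_mul, map_mul, map_inv, right_hat, mul_comm (SemidirectProduct.rightHom y), mul_inv_cancel_right]
  rw [h1, right_inc_sg] at h2
  have h3 : (j : ZMod p) = ((1 : ℕ) : ZMod p) := by
    rw [Nat.cast_one]
    exact congrArg Multiplicative.toAdd h2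
  have h4 : j = 1 := by
    have h5 := congrArg ZMod.val h3
    rwa [ZMod.val_natCast, ZMod.val_natCast, Nat.mod_eq_of_lt hj, Nat.mod_eq_of_lt hp.out.one_lt] at h5
  exact ⟨g, by rw [h1, h4, pow_one]⟩

/-- **The centralizer of `hat c`.** -/
theorem mem_centralizer_hat (c : G) (x : Wr p G) (hx : x * hat p c = hat p c * x) :
    ∃ (y : G) (i : ℕ), i < p ∧ y * c = c * y ∧ x = inc p G (dgG p G y) * hat p c ^ i := by
  obtain ⟨g, i, hi, h1⟩ := exists_inc_sg x
  obtain ⟨z, hz⟩ : ∃ z, z = x * (hat p c ^ i)⁻¹ := ⟨_, rfl⟩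
  have hzr : SemidirectProduct.rightHom z = (1 : Multiplicative (ZMod p)) := by
    rw [hz, map_mul, map_inv, map_pow, right_hat, h1, right_inc_sg, ← ofAdd_nsmul, nsmul_one, mul_inv_cancel]
  have hzc : z * hat p c = hat p c * z := by
    have h2 : Commute (hat p c ^ i)⁻¹ (hat p c) := ((Commute.refl (hat p c)).pow_left i).inv_left
    rw [hz, mul_assoc, h2.eq, ← mul_assoc, hx, mul_assoc]
  obtain ⟨f, hf⟩ : ∃ f : ZMod p → G, z = inc p G f := ⟨_, eq_inc_of_right hzr⟩
  have h3 : f * Function.update (1 : ZMod p → G) 0 c = Function.update (1 : ZMod p → G) 0 c * shG p G f := by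
    rw [hf] at hzc
    unfold hat at hzc
    rw [mul_assoc, sg_mul_inc, ← mul_assoc, ← mul_assoc, ← map_mul, ← map_mul] at hzc
    exact inc_injective (mul_right_cancel hzc)
  have h4 : ∀ i : ZMod p, i ≠ 0 → f i = f (i + 1) := by
    intro i hi
    have h5 := congrFun h3 i
    have h6 : f i * Function.update (1 : ZMod p → G) 0 c i = Function.update (1 : ZMod p → G) 0 c i * f (i + 1) := h5
    rwa [Function.update_of_ne hi, Pi.one_apply, mul_one, one_mul] at h6
  have h5 : f 0 * c = c * f 1 := by
    have h6 : f 0 * Function.update (1 : ZMod p → G) 0 c 0 = Function.update (1 : ZMod p → G) 0 c 0 * f (0 + 1) := congrFun h3 0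
    rwa [Function.update_self, zero_add] at h6
  have h6 : ∀ m : ℕ, m + 1 ≤ p → f ((m + 1 : ℕ) : ZMod p) = f 1 := by
    intro m
    induction m with
    | zero => intro _; simp
    | succ m ih =>
      intro hm
      have h7 : ((m + 1 : ℕ) : ZMod p) ≠ 0 := by
        intro h8
        rw [ZMod.natCast_eq_zero_iff] at h8
        exact absurd (Nat.le_of_dvd (Nat.succ_pos m) h8) (by omega)
      have h8 := h4 _ h7
      have h9 : ((m + 1 : ℕ) : ZMod p) + 1 = ((m + 1 + 1 : ℕ) : ZMod p) := by push_cast; ring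
      rw [h9] at h8
      rw [← h8]
      exact ih (by omega)
  have h01 : f 0 = f 1 := by
    have h7 := h6 (p - 1) (by have := hp.out.pos; omega)
    rwa [show p - 1 + 1 = p by have := hp.out.pos; omega, ZMod.natCast_self] at h7
  have hall : f = dgG p G (f 1) := by
    funext j
    show f j = f 1
    by_cases hj : j = 0
    · rw [hj, h01]
    · have h7 : j.val ≠ 0 := fun h => hj ((ZMod.val_eq_zero j).1 h)
      have h8 := h6 (j.val - 1) (by have := ZMod.val_lt j; omega)
      rwa [show j.val - 1 + 1 = j.val by omega, ZMod.natCast_zmod_val] at h8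
  refine ⟨f 1, i, hi, ?_, ?_⟩
  · rwa [h01] at h5
  · rw [← hall, ← hf, hz, inv_mul_cancel_right]

end

end Pool.Agent.H71.CZ

end

section

/-!
# Project CZ: the lift of a unit of the group ring of a finite abelian group and its trace at `hat c`

`D` a finite abelian group, `u` a unit of `B[D]`; `Y = Fin 1`, so `ZMod p → Fin 1` has one element.

PROOF of `exists_uD`: `x = tpM u - beM u` is invariant under the shift and all its coefficients are divisible by `p ^ 4` (`tp` of
`1 + p ^ 4 a` minus `1`: multilinearity), `x = p ^ 4 y`, `y` invariant (`B` torsion free), `p y = nm z` by `exists_nm`, so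
`x = nm (p ^ 3 z)`.  The element `mkD (beM u) (p ^ 3 z)` is above the unit `eta u`, so it is a unit (`isUnit_lift`), and
`jR` of it is `1 + p ^ 2 (..)`.
PROOF of `trace_hat`: `X = uD ^ k`, `b = X 1 1 = beM (u ^ k) = dgM (u ^ k)` (one index, which is constant), `b + nm z = tpM (u ^ k)`, `z = X 1 0`.
The coefficient of `jR X` at `inc h * sg` is the coefficient of `z` at `h` (`jR_apply`, term `j = 1`).  `ε_d (z) = ∑_{pr0 h = d} z_h` satisfies
`ε_d (nm z) = p ε_d z` (`pr0 (shG h) = pr0 h` as `D` is abelian), `ε_d (tpM v) = (v ^ p)_d`, `ε_d (dgM v) = ∑_{g ^ p = d} v_g`.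
-/

set_option autoImplicit false

open Matrix

universe u v w

namespace Pool.Agent.H71.CZ

section

variable {p : ℕ} [hp : Fact p.Prime] {B : Type u} [CommRing B] {D : Type v} [Group D]

/-- the `1 × 1` matrix of a unit -/
noncomputable def sc1 {R : Type*} [Ring R] (w : Rˣ) : (Matrix (Fin 1) (Fin 1) R)ˣ :=
  Units.map (Matrix.scalar (Fin 1)).toMonoidHom w

theorem natCast_mul' {X : Type*} [Group X] (n : ℕ) (a : MonoidAlgebra B X) :
    (n : MonoidAlgebra B X) * a = (n : B) • a := by
  rw [← nsmul_eq_mul, Nat.cast_smul_eq_nsmul]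

theorem tp_congr {I : Type*} [Fintype I] [DecidableEq I] (c : B) (a : MonoidAlgebra B D)
    (s : Finset I) :
    ∃ t : MonoidAlgebra B (I → D), tp (fun i : I => if i ∈ s then 1 + c • a else 1) =
      1 + c • t := by
  induction s using Finset.induction_on with
  | empty =>
    refine ⟨0, ?_⟩
    rw [smul_zero, add_zero, ← tp_one]
    congr 1
  | insert i s hi ih =>
    obtain ⟨t, ht⟩ := ih
    set m : I → MonoidAlgebra B D := fun i => if i ∈ s then 1 + c • a else 1 with hm
    have e1 : (fun j : I => if j ∈ insert i s then 1 + c • a else (1 : MonoidAlgebra B D)) =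
        Function.update m i (1 + c • a) := by
      funext j
      by_cases hj : j = i
      · subst hj
        rw [Function.update_self, if_pos (Finset.mem_insert_self _ _)]
      · rw [Function.update_of_ne hj, hm]
        simp only [Finset.mem_insert, hj, false_or]
    have e2 : Function.update m i 1 = m := by
      rw [Function.update_eq_self_iff, hm]
      simp only [hi, if_false]
    have h1 := (tpL (B := B) (G := D) (I := I)).map_update_add m i 1 (c • a)
    have h2 := (tpL (B := B) (G := D) (I := I)).map_update_smul m i c a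
    rw [h2, e2, tpL_apply, tpL_apply, tpL_apply, ht] at h1
    refine ⟨t + tp (Function.update m i a), ?_⟩
    rw [e1, h1, smul_add]
    abel

theorem sc1_zero {R : Type*} [Ring R] (w : Rˣ) : (sc1 w).val 0 0 = (w : R) := by
  show Matrix.scalar (Fin 1) (w : R) 0 0 = w
  simp

theorem eps_map {X Y : Type*} [Group X] [Group Y] [Fintype X] [Fintype Y] (f : X →* Y)
    (P : Y → Prop) [DecidablePred P] (w : MonoidAlgebra B X) :
    ∑ y : Y with P y, (MonoidAlgebra.mapDomainRingHom B f w).coeff y =
      ∑ x : X with P (f x), w.coeff x := by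
  classical
  induction w using MonoidAlgebra.induction_linear with
  | zero => simp
  | add a b ha hb =>
    simp only [map_add, MonoidAlgebra.coeff_add, Finsupp.add_apply, Finset.sum_add_distrib, ha, hb]
  | single a b =>
    have e1 : MonoidAlgebra.mapDomainRingHom B f (MonoidAlgebra.single a b) =
        MonoidAlgebra.single (f a) b := by
      simp
    rw [e1, Finset.sum_filter, Finset.sum_filter]
    simp only [MonoidAlgebra.coeff_single, Finsupp.single_apply]
    have e2 : ∀ y : Y, (if P y then if f a = y then b else 0 else 0) =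
        if f a = y then (if P (f a) then b else 0) else 0 := by
      intro y
      by_cases h : f a = y
      · subst h
        simp
      · simp [h]
    have e3 : ∀ x : X, (if P (f x) then if a = x then b else 0 else 0) =
        if a = x then (if P (f a) then b else 0) else 0 := by
      intro x
      by_cases h : a = x
      · subst h
        simp
      · simp [h]
    rw [Finset.sum_congr rfl fun y _ => e2 y, Finset.sum_congr rfl fun x _ => e3 x,
      Finset.sum_ite_eq, Finset.sum_ite_eq]
    simp

open Classical in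
private theorem pow_coeff [Fintype D] (w : MonoidAlgebra B D) (n : ℕ) (d : D) :
    (w ^ n).coeff d = ∑ g : Fin n → D with (List.ofFn g).prod = d, ∏ i, w.coeff (g i) := by
  induction n generalizing d with
  | zero =>
    rw [pow_zero, MonoidAlgebra.one_def, MonoidAlgebra.coeff_single, Finsupp.single_apply,
      Finset.sum_filter, Fintype.sum_unique]
    simp
  | succ n ih =>
    rw [pow_succ', MonoidAlgebra.coeff_mul_apply_left, Finsupp.sum_fintype _ _ (by simp),
      Finset.sum_filter, ← Equiv.sum_comp (Fin.consEquiv fun _ : Fin (n + 1) => D),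
      Fintype.sum_prod_type]
    refine Finset.sum_congr rfl fun a _ => ?_
    rw [ih, Finset.sum_filter, Finset.mul_sum]
    refine Finset.sum_congr rfl fun g _ => ?_
    have e1 : (Fin.consEquiv fun _ : Fin (n + 1) => D) (a, g) = Fin.cons a g := rfl
    rw [e1, List.ofFn_succ, List.prod_cons, Fin.prod_univ_succ]
    simp only [Fin.cons_zero, Fin.cons_succ]
    by_cases h : a * (List.ofFn g).prod = d
    · have h2 : (List.ofFn g).prod = a⁻¹ * d := by rw [← h, inv_mul_cancel_left]
      rw [if_pos h, if_pos h2]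
    · have h2 : ¬ (List.ofFn g).prod = a⁻¹ * d := fun h2 => h (by rw [h2, mul_inv_cancel_left])
      rw [if_neg h, if_neg h2, mul_zero]

/-- the residues -/
private def zE : Fin p ≃ ZMod p where
  toFun j := ((j : ℕ) : ZMod p)
  invFun a := ⟨a.val, ZMod.val_lt a⟩
  left_inv j := Fin.ext (ZMod.val_cast_of_lt j.2)
  right_inv a := ZMod.natCast_zmod_val a

theorem pr0_shG (hD : ∀ a b : D, a * b = b * a) (g : ZMod p → D) :
    pr0 (shG p D g) = pr0 g := by
  have h1 : (List.ofFn fun j : Fin p => shG p D g ((j : ℕ) : ZMod p)).Perm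
      (List.ofFn fun j : Fin p => g ((j : ℕ) : ZMod p)) := by
    have h2 := Equiv.Perm.ofFn_comp_perm ((zE (p := p)).trans ((Equiv.addRight (1 : ZMod p)).trans
      zE.symm)) fun j : Fin p => g ((j : ℕ) : ZMod p)
    have e : ((fun j : Fin p => g ((j : ℕ) : ZMod p)) ∘ ((zE (p := p)).trans
        ((Equiv.addRight (1 : ZMod p)).trans zE.symm))) =
        fun j : Fin p => shG p D g ((j : ℕ) : ZMod p) := by
      funext j
      show g (zE (zE.symm (((j : ℕ) : ZMod p) + 1))) = g (((j : ℕ) : ZMod p) + 1)
      rw [Equiv.apply_symm_apply]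
    rw [e] at h2
    exact h2
  exact h1.prod_eq' (List.pairwise_of_forall fun a b => hD a b)

open Classical in
/-- the coefficients of the tensor power -/
theorem eps_tp [Fintype D] (w : MonoidAlgebra B D) (d : D) :
    ∑ g : ZMod p → D with pr0 g = d, (tp fun _ : ZMod p => w).coeff g = (w ^ p).coeff d := by
  rw [pow_coeff, Finset.sum_filter, Finset.sum_filter]
  refine Fintype.sum_equiv ((zE (p := p)).symm.arrowCongr (Equiv.refl D)) _ _ fun g => ?_
  have h1 : (List.ofFn (((zE (p := p)).symm.arrowCongr (Equiv.refl D)) g)).prod = pr0 g := rfl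
  have h2 : ∏ i, w.coeff ((((zE (p := p)).symm.arrowCongr (Equiv.refl D)) g) i) =
      (tp fun _ : ZMod p => w).coeff g := by
    rw [tp_coeff]
    exact Equiv.prod_comp (zE (p := p)) fun i => w.coeff (g i)
  rw [h1, h2]

end

end Pool.Agent.H71.CZ

end
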