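import Pool.Agent.H71.TCZ.M31
import Pool.Agent.H71.TCZ.M41
import Pool.Agent.H71.TCZ.M48
import Pool.Agent.H71.TCZ.M52
import Pool.Agent.H71.TCZ.M58
import Pool.Agent.H71.TCZ.M59

/-! The parts of this file: H39.CZ.HatA, H71.FQ.St3_1, H71.FQ.StK, H71.CZ.St1, H16.KN.UctF, H71.FQ.LocK, H39.CZ.OrbA, H71.CZ.Orb, H16.KN.Deg. -/

section

/-!
# Project CZ: the cocycle of the centralizer of `hat c`

`rho`: the projection of the centralizer of `hat c` to the centralizer of `c`, `rho (Δ(y) (hat c) ^ i) = y` for `0 ≤ i < p`.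
`hatF φ v = ∑_{j < p} φ (rho ((hat c) ^ j * v))`: a cocycle of the centralizer of `hat c`, with `hatF φ (Δ z) = p φ z`.
-/

set_option autoImplicit false

universe u v w

namespace Pool.Agent.H39.CZ

open Pool.Agent.H71.FQ Pool.Agent.H16.KN Pool.Agent.H71.CZ

section

variable {p : ℕ} {G : Type v} [Group G]

/-- the components of a product -/
theorem left_mul' (x y : Wr p G) (i : ZMod p) :
    (x * y).left i = x.left i * y.left (i + Multiplicative.toAdd x.right) := rfl

theorem inc_left (g : ZMod p → G) : (inc p G g).left = g := rfl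

theorem inc_right (g : ZMod p → G) : (inc p G g).right = 1 := rfl

end

section

variable {p : ℕ} [hp : Fact p.Prime] {G : Type v} [Group G]

theorem hat_left (c : G) (i : ZMod p) : (hat p c).left i = if i = 0 then c else 1 := by
  unfold hat
  rw [left_mul']
  have h : (sg p G).left = 1 := rfl
  rw [h, Pi.one_apply, mul_one, inc_left]
  by_cases hi : i = 0
  · rw [if_pos hi, hi, Function.update_self]
  · rw [if_neg hi, Function.update_of_ne hi, Pi.one_apply]

theorem hat_right (c : G) : (hat p c).right = Multiplicative.ofAdd (1 : ZMod p) := by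
  show (inc p G _).right * (sg p G).right = _
  rw [inc_right, one_mul]
  rfl

theorem hat_pow_right (c : G) (j : ℕ) :
    (hat p c ^ j).right = Multiplicative.ofAdd ((j : ℕ) : ZMod p) := by
  have h := map_pow (SemidirectProduct.rightHom : Wr p G →* Multiplicative (ZMod p)) (hat p c) j
  have h1 : (hat p c ^ j).right = ((hat p c).right) ^ j := h
  rw [h1, hat_right, ← ofAdd_nsmul, nsmul_eq_mul, mul_one]

theorem hat_pow_left_one (c : G) (j : ℕ) (hj : j < p) : (hat p c ^ j).left 1 = 1 := by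
  induction j with
  | zero => rw [pow_zero]; rfl
  | succ j ih =>
    rw [pow_succ, left_mul', ih (by omega), one_mul, hat_pow_right, toAdd_ofAdd, hat_left, if_neg]
    intro h
    have h1 : ((j + 1 : ℕ) : ZMod p) = 0 := by
      push_cast
      rw [add_comm]
      exact h
    rw [ZMod.natCast_eq_zero_iff] at h1
    exact absurd (Nat.le_of_dvd (by omega) h1) (by omega)

variable {c : G}

/-- the element `hat c` of its centralizer -/
def hatZ (p : ℕ) (c : G) : Subgroup.centralizer ({hat p c} : Set (Wr p G)) :=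
  ⟨hat p c, by
    rw [Subgroup.mem_centralizer_iff]
    intro y hy
    rw [Set.mem_singleton_iff.1 hy]⟩

/-- the diagonal embedding of the centralizers of elements -/
def dgZ (p : ℕ) [Fact p.Prime] (c : G) :
    Subgroup.centralizer ({c} : Set G) →* Subgroup.centralizer ({hat p c} : Set (Wr p G)) where
  toFun y := ⟨inc p G (dgG p G y), by
    rw [Subgroup.mem_centralizer_iff]
    intro x hx
    rw [Set.mem_singleton_iff.1 hx]
    have h := conj_hat_dg (p := p) (y : G) c
    have h1 : (y : G) * c * (y : G)⁻¹ = c := by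
      have h2 : c * (y : G) = y * c := Subgroup.mem_centralizer_iff.1 y.2 c rfl
      rw [← h2, mul_inv_cancel_right]
    rw [h1] at h
    rw [mul_inv_eq_iff_eq_mul] at h
    exact h.symm⟩
  map_one' := by
    apply Subtype.ext
    show inc p G (dgG p G 1) = 1
    rw [map_one, map_one]
  map_mul' a b := by
    apply Subtype.ext
    show inc p G (dgG p G (a * b)) = inc p G (dgG p G a) * inc p G (dgG p G b)
    rw [map_mul, map_mul]

theorem dgZ_coe (y : Subgroup.centralizer ({c} : Set G)) :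
    (dgZ p c y : Wr p G) = inc p G (dgG p G y) := rfl

/-- every element of the centralizer is of this form -/
theorem exists_dgZ (x : Subgroup.centralizer ({hat p c} : Set (Wr p G))) :
    ∃ (y : Subgroup.centralizer ({c} : Set G)) (i : ℕ), i < p ∧ x = dgZ p c y * hatZ p c ^ i := by
  have hx : (x : Wr p G) * hat p c = hat p c * x :=
    (Subgroup.mem_centralizer_iff.1 x.2 (hat p c) rfl).symm
  obtain ⟨y, i, hi, hy, e⟩ := mem_centralizer_hat c (x : Wr p G) hx
  refine ⟨⟨y, ?_⟩, i, hi, Subtype.ext ?_⟩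
  · rw [Subgroup.mem_centralizer_iff]
    intro a ha
    rw [Set.mem_singleton_iff.1 ha]
    exact hy.symm
  · rw [e]
    rfl

/-- the projection to the centralizer of `c` -/
def rho (x : Subgroup.centralizer ({hat p c} : Set (Wr p G))) :
    Subgroup.centralizer ({c} : Set G) :=
  ⟨(x : Wr p G).left 1, by
    obtain ⟨y, i, hi, rfl⟩ := exists_dgZ x
    have h : ((dgZ p c y * hatZ p c ^ i : Subgroup.centralizer ({hat p c} : Set (Wr p G))) :
        Wr p G).left 1 = y := by
      show (inc p G (dgG p G y) * hat p c ^ i).left 1 = y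
      rw [left_mul', inc_left, inc_right, toAdd_one, add_zero, hat_pow_left_one c i hi, mul_one,
        dgG_apply]
    rw [h]
    exact y.2⟩

theorem rho_coe (x : Subgroup.centralizer ({hat p c} : Set (Wr p G))) :
    (rho x : G) = (x : Wr p G).left 1 := rfl

theorem rho_dgZ_mul (y : Subgroup.centralizer ({c} : Set G))
    (x : Subgroup.centralizer ({hat p c} : Set (Wr p G))) : rho (dgZ p c y * x) = y * rho x := by
  apply Subtype.ext
  show (inc p G (dgG p G y) * (x : Wr p G)).left 1 = y * (x : Wr p G).left 1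
  rw [left_mul', inc_left, inc_right, toAdd_one, add_zero, dgG_apply]

theorem dgZ_comm (y : Subgroup.centralizer ({c} : Set G)) (j : ℕ) :
    hatZ p c ^ j * dgZ p c y = dgZ p c y * hatZ p c ^ j := by
  have h : hatZ p c * dgZ p c y = dgZ p c y * hatZ p c := by
    apply Subtype.ext
    exact Subgroup.mem_centralizer_iff.1 (dgZ p c y).2 (hat p c) rfl
  have h1 : Commute (hatZ p c) (dgZ p c y) := h
  exact (h1.pow_left j)

theorem rho_hat_mul_dgZ (y : Subgroup.centralizer ({c} : Set G)) (j : ℕ) (hj : j < p) :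
    rho (hatZ p c ^ j * dgZ p c y) = y := by
  apply Subtype.ext
  rw [rho_coe]
  show (hat p c ^ j * inc p G (dgG p G y)).left 1 = y
  rw [left_mul', inc_left, dgG_apply, hat_pow_left_one c j hj, one_mul]

/-- `c` as an element of its centralizer -/
def cZ (c : G) : Subgroup.centralizer ({c} : Set G) :=
  ⟨c, by
    rw [Subgroup.mem_centralizer_iff]
    intro y hy
    rw [Set.mem_singleton_iff.1 hy]⟩

theorem hatZ_pow (c : G) : hatZ p c ^ p = dgZ p c (cZ c) := by
  apply Subtype.ext
  exact hat_pow c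

theorem rho_hatZ_pow_mul (x : Subgroup.centralizer ({hat p c} : Set (Wr p G))) :
    rho (hatZ p c ^ p * x) = cZ c * rho x := by
  rw [hatZ_pow, rho_dgZ_mul]

variable {B : Type u} [AddCommGroup B] {n : ℕ}

/-- the cocycle `f^` -/
def hatF (p : ℕ) [Fact p.Prime] {c : G} (φ : (Fin (n + 2) → Subgroup.centralizer ({c} : Set G)) → B)
    (v : Fin (n + 2) → Subgroup.centralizer ({hat p c} : Set (Wr p G))) : B :=
  ∑ j ∈ Finset.range p, φ fun t => rho (hatZ p c ^ j * v t)

theorem hatF_dgZ_mul {φ : (Fin (n + 2) → Subgroup.centralizer ({c} : Set G)) → B}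
    (hφ : IsCoc (Subgroup.centralizer ({c} : Set G)) n φ) (y : Subgroup.centralizer ({c} : Set G))
    (v : Fin (n + 2) → Subgroup.centralizer ({hat p c} : Set (Wr p G))) :
    hatF p φ (fun t => dgZ p c y * v t) = hatF p φ v := by
  unfold hatF
  refine Finset.sum_congr rfl fun j _ => ?_
  rw [← hφ.inv y fun t => rho (hatZ p c ^ j * v t)]
  congr 1
  funext t
  rw [← mul_assoc, dgZ_comm, mul_assoc, rho_dgZ_mul]

theorem hatF_hatZ_mul {φ : (Fin (n + 2) → Subgroup.centralizer ({c} : Set G)) → B}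
    (hφ : IsCoc (Subgroup.centralizer ({c} : Set G)) n φ)
    (v : Fin (n + 2) → Subgroup.centralizer ({hat p c} : Set (Wr p G))) :
    hatF p φ (fun t => hatZ p c * v t) = hatF p φ v := by
  unfold hatF
  have h1 : ∀ j, (φ fun t => rho (hatZ p c ^ j * (hatZ p c * v t))) =
      φ fun t => rho (hatZ p c ^ (j + 1) * v t) := by
    intro j
    congr 1
    funext t
    rw [pow_succ, mul_assoc]
  rw [Finset.sum_congr rfl fun j _ => h1 j]
  have h2 := Finset.sum_range_succ' (fun j => φ fun t => rho (hatZ p c ^ j * v t)) p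
  have h3 := Finset.sum_range_succ (fun j => φ fun t => rho (hatZ p c ^ j * v t)) p
  have h4 : (φ fun t => rho (hatZ p c ^ p * v t)) = φ fun t => rho (hatZ p c ^ 0 * v t) := by
    rw [pow_zero]
    simp only [rho_hatZ_pow_mul, one_mul]
    exact hφ.inv (cZ c) _
  rw [h4, h2] at h3
  exact add_right_cancel h3

theorem isCoc_hatF {φ : (Fin (n + 2) → Subgroup.centralizer ({c} : Set G)) → B}
    (hφ : IsCoc (Subgroup.centralizer ({c} : Set G)) n φ) :
    IsCoc (Subgroup.centralizer ({hat p c} : Set (Wr p G))) n (hatF p φ) where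
  inv g v := by
    obtain ⟨y, i, -, rfl⟩ := exists_dgZ g
    have h1 : ∀ (i : ℕ) (v : Fin (n + 2) → Subgroup.centralizer ({hat p c} : Set (Wr p G))),
        hatF p φ (fun t => hatZ p c ^ i * v t) = hatF p φ v := by
      intro i
      induction i with
      | zero => intro v; simp only [pow_zero, one_mul]
      | succ i ih =>
        intro v
        simp only [pow_succ, mul_assoc]
        rw [ih fun t => hatZ p c * v t, hatF_hatZ_mul hφ]
    simp only [mul_assoc]
    rw [hatF_dgZ_mul hφ y fun t => hatZ p c ^ i * v t, h1]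
  coc v := by
    have h1 : ∀ i : Fin (n + 3), ((-1 : ℤ) ^ (i : ℕ) • hatF p φ fun j => v (i.succAbove j)) =
        ∑ j ∈ Finset.range p, (-1 : ℤ) ^ (i : ℕ) •
          φ fun t => rho (hatZ p c ^ j * v (i.succAbove t)) := by
      intro i
      unfold hatF
      rw [Finset.smul_sum]
    rw [Finset.sum_congr rfl fun i _ => h1 i, Finset.sum_comm]
    refine Finset.sum_eq_zero fun j _ => ?_
    exact hφ.coc fun t => rho (hatZ p c ^ j * v t)

theorem hatF_dgZ {φ : (Fin (n + 2) → Subgroup.centralizer ({c} : Set G)) → B}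
    (v : Fin (n + 2) → Subgroup.centralizer ({c} : Set G)) :
    hatF p φ (fun t => dgZ p c (v t)) = (p : ℕ) • φ v := by
  unfold hatF
  have h : ∀ j ∈ Finset.range p, (φ fun t => rho (hatZ p c ^ j * dgZ p c (v t))) = φ v := by
    intro j hj
    congr 1
    funext t
    exact rho_hat_mul_dgZ (v t) j (Finset.mem_range.1 hj)
  rw [Finset.sum_congr rfl h, Finset.sum_const, Finset.card_range]

/-- the values of `f^` on the diagonal -/
theorem ev_dgZ {φ : (Fin (n + 2) → Subgroup.centralizer ({c} : Set G)) → B}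
    (hφ : IsCoc (Subgroup.centralizer ({c} : Set G)) n φ)
    (z : HG (Subgroup.centralizer ({c} : Set G)) n) :
    HG.ev (isCoc_hatF (p := p) hφ) (HG.map n (dgZ p c) z) = (p : ℕ) • HG.ev hφ z := by
  rw [HG.ev_map]
  obtain ⟨z, rfl⟩ := HG.mk_surjective z
  rw [HG.ev_mk, HG.ev_mk]
  have h : Finsupp.linearCombination ℤ (fun x : Fin (n + 2) →
      Subgroup.centralizer ({c} : Set G) => hatF p φ fun j => dgZ p c (x j)) =
      (p : ℤ) • Finsupp.linearCombination ℤ φ := by
    refine Finsupp.lhom_ext' fun x => LinearMap.ext_ring ?_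
    simp only [LinearMap.comp_apply, Finsupp.lsingle_apply, LinearMap.smul_apply]
    rw [Finsupp.linearCombination_single, Finsupp.linearCombination_single, one_smul, one_smul,
      hatF_dgZ, natCast_zsmul]
  rw [h, LinearMap.smul_apply, natCast_zsmul]

/-! ### The subgroup `C ≀ C_p` -/

end

section

variable {p : ℕ} {G : Type v} [Group G]

/-- the subgroup `C ≀ C_p` -/
def hatS (p : ℕ) (C : Subgroup G) : Subgroup (Wr p G) where
  carrier := {x | ∀ i, x.left i ∈ C}
  mul_mem' {x y} hx hy i := by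
    rw [left_mul']
    exact C.mul_mem (hx i) (hy _)
  one_mem' i := C.one_mem
  inv_mem' {x} hx i := by
    show x⁻¹.left i ∈ C
    have h : x⁻¹.left i = (x.left (i + Multiplicative.toAdd x⁻¹.right))⁻¹ := rfl
    rw [h]
    exact C.inv_mem (hx _)

end

section

variable {p : ℕ} [hp : Fact p.Prime] {G : Type v} [Group G]

instance finite_hatS (C : Subgroup G) [Finite C] : Finite (hatS p C) := by
  have hinj : Function.Injective (fun x : hatS p C =>
      ((fun i => (⟨(x : Wr p G).left i, x.2 i⟩ : C), (x : Wr p G).right) :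
        (ZMod p → C) × Multiplicative (ZMod p))) := by
    intro x y hxy
    apply Subtype.ext
    apply SemidirectProduct.ext
    · funext i
      have h := congrArg (fun q => ((q.1 i : C) : G)) hxy
      exact h
    · exact congrArg Prod.snd hxy
  have : NeZero p := ⟨hp.out.ne_zero⟩
  have : Finite (Multiplicative (ZMod p)) := inferInstanceAs (Finite (ZMod p))
  exact Finite.of_injective _ hinj

/-- the diagonal embedding of the centralizers of subgroups -/
def dgC (p : ℕ) [Fact p.Prime] (C : Subgroup G) : Subgroup.centralizer (C : Set G) →*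
    Subgroup.centralizer ((hatS p C : Subgroup (Wr p G)) : Set (Wr p G)) where
  toFun y := ⟨inc p G (dgG p G y), by
    rw [Subgroup.mem_centralizer_iff]
    intro x hx
    apply SemidirectProduct.ext
    · funext i
      rw [left_mul', left_mul', inc_left, inc_right, toAdd_one, add_zero]
      exact Subgroup.mem_centralizer_iff.1 y.2 _ (hx i)
    · show x.right * 1 = 1 * x.right
      rw [mul_one, one_mul]⟩
  map_one' := by
    apply Subtype.ext
    show inc p G (dgG p G 1) = 1
    rw [map_one, map_one]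
  map_mul' a b := by
    apply Subtype.ext
    show inc p G (dgG p G (a * b)) = inc p G (dgG p G a) * inc p G (dgG p G b)
    rw [map_mul, map_mul]

theorem dgC_coe (C : Subgroup G) (y : Subgroup.centralizer (C : Set G)) :
    (dgC p C y : Wr p G) = inc p G (dgG p G y) := rfl

variable {c : G} {B : Type u} [AddCommGroup B] {n : ℕ}

/-- elements which are not of the form `inc h * sg` -/
theorem trc_hat_of_not {C : Subgroup G} (d : hatS p C)
    (hd : ∀ h : ZMod p → G, (d : Wr p G) ≠ inc p G h * sg p G) :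
    trc n (hat p c) (hatS p C) d = 0 := by
  refine trc_of_not fun h => ?_
  obtain ⟨k, hk⟩ := isConj_hat_form c (d : Wr p G) h
  exact hd k hk

/-- **The transport to the centralizer of `hat c`.** -/
theorem trc_hat (c : G) (C : Subgroup G) (h : ZMod p → G) (hh : ∀ i, h i ∈ C) (d : hatS p C)
    (hd : (d : Wr p G) = inc p G h * sg p G) (P : C) (hP : (P : G) = pr0 h)
    (z : HG (Subgroup.centralizer (C : Set G)) n) :
    trc n (hat p c) (hatS p C) d (HG.map n (dgC p C) z) =
      HG.map n (dgZ p c) (trc n c C P z) := by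
  by_cases hc : IsConj c (P : G)
  · obtain ⟨x, hx⟩ := isConj_iff.1 hc
    obtain ⟨k, hk1, hk2⟩ := conj_hat h
    have hkC := hk1 C hh
    have hX : (inc p G k * inc p G (dgG p G x)) * hat p c *
        (inc p G k * inc p G (dgG p G x))⁻¹ = (d : Wr p G) := by
      rw [hd, hk2, ← hP, ← hx, ← conj_hat_dg]
      group
    have hm : x * c * x⁻¹ ∈ C := by
      rw [hx]
      exact P.2
    have hm' : (inc p G k * inc p G (dgG p G x)) * hat p c *
        (inc p G k * inc p G (dgG p G x))⁻¹ ∈ hatS p C := by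
      rw [hX]
      exact d.2
    rw [trc_eq _ hX hm', trc_eq x hx hm, HG.map_map, HG.map_map]
    congr 1
    apply congrArg
    apply MonoidHom.ext
    intro y
    apply Subtype.ext
    rw [MonoidHom.comp_apply, MonoidHom.comp_apply, cnj_coe, dgZ_coe, cnj_coe, dgC_coe]
    have h1 : (inc p G k)⁻¹ * inc p G (dgG p G y) * inc p G k = inc p G (dgG p G y) := by
      rw [← map_inv, ← map_mul, ← map_mul]
      congr 1
      funext i
      show (k i)⁻¹ * (y : G) * k i = y
      have h2 : k i * (y : G) = y * k i := Subgroup.mem_centralizer_iff.1 y.2 _ (hkC i)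
      rw [mul_assoc, ← h2, inv_mul_cancel_left]
    calc (inc p G k * inc p G (dgG p G x))⁻¹ * inc p G (dgG p G y) *
          (inc p G k * inc p G (dgG p G x)) = (inc p G (dgG p G x))⁻¹ *
          ((inc p G k)⁻¹ * inc p G (dgG p G y) * inc p G k) * inc p G (dgG p G x) := by group
      _ = (inc p G (dgG p G x))⁻¹ * inc p G (dgG p G y) * inc p G (dgG p G x) := by rw [h1]
      _ = inc p G (dgG p G (x⁻¹ * y * x)) := by
        simp only [map_mul, map_inv]
  · have hc' : ¬ IsConj (hat p c) (d : Wr p G) := by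
      rw [hd, isConj_hat_iff, ← hP]
      exact hc
    rw [trc_of_not hc, trc_of_not hc', AddMonoidHom.zero_apply, AddMonoidHom.zero_apply, map_zero]

/-- **The values of `f^` on the symbols.** -/
theorem ev_trc_hat {φ : (Fin (n + 2) → Subgroup.centralizer ({c} : Set G)) → B}
    (hφ : IsCoc (Subgroup.centralizer ({c} : Set G)) n φ) (C : Subgroup G) (h : ZMod p → G)
    (hh : ∀ i, h i ∈ C) (d : hatS p C) (hd : (d : Wr p G) = inc p G h * sg p G) (P : C)
    (hP : (P : G) = pr0 h) (z : HG (Subgroup.centralizer (C : Set G)) n) :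
    HG.ev (isCoc_hatF (p := p) hφ) (trc n (hat p c) (hatS p C) d (HG.map n (dgC p C) z)) =
      (p : ℕ) • HG.ev hφ (trc n c C P z) := by
  rw [trc_hat c C h hh d hd P hP, ev_dgZ]

end

end Pool.Agent.H39.CZ

end

section

/-!
# The assembly map over `ℤ` on the `K₀`-, `K₁`- and `K₋₁`-parts of the rational source: definitions

* `Hn Γ n` is the homology group `H_n(Γ; ℤ)`.
* `LQ A n` is the quotient of `KQ (A[t, t⁻¹]) n` by the images of `KQ (A[t]) n` and `KQ (A[t⁻¹]) n`; by the fundamental
  theorem of algebraic K-theory its tensor product with `ℚ` is `K_n(A) ⊗ ℚ`.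
* `K1Part R G n` is the group `HnK1 R G (n - 1)` of the symbols `[F, U, z]`, `z` of degree `n - 1` (zero for `n = 0`).
* `HnKm1 R G n` is generated by the symbols `[F, e, z]`, `F` a finite subgroup of `G`, `e` an idempotent matrix over
  `R[F][t, t⁻¹]` and `z` a cycle of degree `n + 1` of the centralizer `Z_G(F)`, modulo the relations of `K₀` in `e`, the
  relation `[F, e, z] = 0` if `e` comes from `R[F][t]` or from `R[F][t⁻¹]`, the relations of `H_{n+1}(Z_G(F); ℤ)` in `z`
  and `[F', c_g(e), z'] = [F, e, c_{g⁻¹}(z')]` for `g F g⁻¹ ⊆ F'`.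

The assembly map sends a cycle `z` of `G` to `[1, t × z]`, the symbol `[F, U, z]` to `[N, t × U × z]` and the symbol
`[F, e, z]` to `[N, ρ z]`, `ρ γ = 1 + e (γ - 1)`; the products are formed by means of the prism `pri`.
-/

set_option autoImplicit false

open Matrix

universe u v w

namespace Pool.Agent.H71.FQ3

open Pool.Agent.H71.FQS (Ch bd push coi bnd Cyc GLm blkM RF Cent KQ MatEquiv Idem)
open Pool.Agent.H71.FQ1 (pri IsCyc HSym1 HnK1)

section Homology

variable (Γ : Type v) [Group Γ] (n : ℕ)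

variable {Γ n}

/-- the class of a cycle -/
noncomputable def Hn.mk (c : Ch Γ n) (h : IsCyc Γ n c) : Hn Γ n :=
  QuotientAddGroup.mk ⟨c, AddSubgroup.subset_closure h⟩

end Homology

section Laurent

end Laurent

section LQ

end LQ

section Km1

end Km1

section Assembly

end Assembly

end Pool.Agent.H71.FQ3

end

section

/-!
# Comparison of the definitions over `ℤ`: the target and the homology groups
-/

set_option autoImplicit false

open Matrix
open scoped LaurentPolynomial

universe u v w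

namespace Pool.Agent.H71.FQ3

open Pool.Agent.H71.FQS (Ch bd push coi bnd Cyc GLm blkM RF Cent KQ toHG toHG_surjective map_toHG map_toHG' toHG_add toHG_bnd)
open Pool.Agent.H71.FQ1 (pri IsCyc HSym1 HnK1)
open Pool.Agent.H71.FQ (HG)
open Pool.Agent.H16.KN (PSepA)

section

variable {A : Type u} [Ring A] {n : ℕ}

end

section

variable {Γ : Type v} [Group Γ] {n : ℕ}

theorem isCyc_iff (c : Ch Γ (n + 1)) : IsCyc Γ (n + 1) c ↔ c ∈ FQ.cyc Γ n := by
  change bd Γ n c ∈ coi Γ n ↔ FQ.bd ℤ Γ n c ∈ FQ.coi Γ n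
  rw [FQS.bd_eq, FQS.mem_coi]

theorem mem_Zn {c : Ch Γ (n + 1)} : c ∈ Zn Γ (n + 1) ↔ c ∈ FQ.cyc Γ n := by
  constructor
  · intro h
    have h1 : Zn Γ (n + 1) ≤ (FQ.cyc Γ n).toAddSubgroup := by
      rw [Zn, AddSubgroup.closure_le]
      exact fun x hx => (isCyc_iff x).1 hx
    exact h1 h
  · exact fun h => AddSubgroup.subset_closure ((isCyc_iff c).2 h)

theorem Hn.mk_surjective (x : Hn Γ (n + 1)) : ∃ z : Cyc Γ n, Hn.mk z.ch z.2 = x := by
  obtain ⟨⟨c, hc⟩, rfl⟩ := QuotientAddGroup.mk_surjective x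
  exact ⟨Cyc.of c (mem_Zn.1 hc), rfl⟩

theorem Hn.mk_eq {c c' : Ch Γ n} {h : IsCyc Γ n c} {h' : IsCyc Γ n c'} :
    Hn.mk c h = Hn.mk c' h' ↔ c - c' ∈ bnd Γ n := by
  refine (QuotientAddGroup.eq_iff_sub_mem).trans ?_
  rfl

theorem Hn.mk_add' {c c' c'' : Ch Γ n} {h : IsCyc Γ n c} {h' : IsCyc Γ n c'}
    {h'' : IsCyc Γ n c''} (e : c'' = c + c') : Hn.mk c'' h'' = Hn.mk c h + Hn.mk c' h' := by
  subst e
  rfl

theorem Hn.mk_bnd {c : Ch Γ n} {h : IsCyc Γ n c} (hc : c ∈ bnd Γ n) : Hn.mk c h = 0 :=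
  (QuotientAddGroup.eq_zero_iff _).2 hc

theorem exists_hnHG : ∃ f : Hn Γ (n + 1) →+ HG Γ n, ∀ z : Cyc Γ n, f (Hn.mk z.ch z.2) = toHG z := by
  choose g hg using Hn.mk_surjective (Γ := Γ) (n := n)
  have h3 : ∀ z z' : Cyc Γ n, Hn.mk z.ch z.2 = Hn.mk z'.ch z'.2 → toHG z = toHG z' :=
    fun z z' h => FQS.toHG_eq_iff.2 (Hn.mk_eq.1 h)
  refine ⟨AddMonoidHom.mk' (fun x => toHG (g x)) fun x y => ?_, fun z => h3 _ _ (hg _)⟩
  rw [← toHG_add (z'' := Cyc.of ((g x).ch + (g y).ch) (Submodule.add_mem _ (g x).mem (g y).mem))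
    rfl]
  apply h3
  rw [hg]
  refine Eq.trans (congrArg₂ (· + ·) (hg x).symm (hg y).symm) ?_
  rfl

/-- the comparison homomorphism of the homology groups -/
noncomputable def hnHG : Hn Γ (n + 1) →+ HG Γ n := (exists_hnHG (Γ := Γ) (n := n)).choose

theorem hnHG_mk (z : Cyc Γ n) : hnHG (Hn.mk z.ch z.2) = toHG z :=
  (exists_hnHG (Γ := Γ) (n := n)).choose_spec z

theorem exists_hgHn : ∃ f : HG Γ n →+ Hn Γ (n + 1), ∀ z : Cyc Γ n, f (toHG z) = Hn.mk z.ch z.2 :=
  FQS.exists_lift (fun z => Hn.mk z.ch z.2) (fun z z' z'' h => Hn.mk_add' h)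
    fun z h => Hn.mk_bnd h

/-- the comparison homomorphism in the other direction -/
noncomputable def hgHn : HG Γ n →+ Hn Γ (n + 1) := (exists_hgHn (Γ := Γ) (n := n)).choose

theorem hgHn_toHG (z : Cyc Γ n) : hgHn (toHG z) = Hn.mk z.ch z.2 :=
  (exists_hgHn (Γ := Γ) (n := n)).choose_spec z

theorem hnHG_hgHn (x : HG Γ n) : hnHG (hgHn x) = x := by
  obtain ⟨z, rfl⟩ := toHG_surjective x
  rw [hgHn_toHG, hnHG_mk]

theorem psepA_of {p : ℕ} (h : LSep p Γ (n + 1)) : PSepA p (HG Γ n) := by
  intro x hx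
  obtain ⟨m, hm, h1⟩ := h (hgHn x) fun f hf => hx (f.comp hgHn) fun y => hf _
  refine ⟨m.natAbs, Int.natAbs_ne_zero.2 hm, ?_⟩
  have h2 : m • x = 0 := by
    rw [← hnHG_hgHn (m • x), map_zsmul hgHn, h1, map_zero]
  rcases Int.natAbs_eq m with h3 | h3
  · rw [h3, natCast_zsmul] at h2
    exact h2
  · rw [h3, neg_smul, natCast_zsmul, neg_eq_zero] at h2
    exact h2

end

section

variable {Γ : Type v} [Group Γ]

end

end Pool.Agent.H71.FQ3

end

section

/-!
# Fields of characteristic zero: comparison of the definitions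
-/

set_option autoImplicit false

universe u v w

namespace Pool.Agent.H71.CZS

open Pool.Agent.H71.FQS (KQ HnK0 IsAssembly Cent)
open Pool.Agent.H71.FQ1 (HnK1 IsAssembly1)
open Pool.Agent.H16.KN (PSepA)

/-- the condition on the subgroup `G'` -/
def Sub (G : Type v) [Group G] (n : ℕ) : Prop :=
  ∀ C : Subgroup G, Finite C → IsCyclic C → ∃ N : ℕ, ∀ p : ℕ, p.Prime → N < p →
    PSepA p (FQ.HG (Subgroup.centralizer (C : Set G)) n)

theorem sub_of {G : Type v} [Group G] {n : ℕ}
    (h : ∀ C : Subgroup G, Finite C → IsCyclic C → ∃ N : ℕ, ∀ p : ℕ, p.Prime → N < p →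
      FQ3.LSep p (Cent C) (n + 1)) : Sub G n := by
  intro C hf hc
  obtain ⟨N, h⟩ := h C hf hc
  exact ⟨N, fun p hp hN => FQ3.psepA_of (h p hp hN)⟩

end Pool.Agent.H71.CZS

end

section

/-!
# Project KN: homomorphisms from homology to any group come from cocycles

PROOFS.  `free_sub`: well-order `X` (`exists_wellOrder`).  For `x : X` let `I x ⊆ ℤ` be the ideal of the coefficients at
`x` of the elements of `D` supported in `{y | y ≤ x}`; `I x = (a x)`, choose `d x ∈ D` with coefficient `a x` at `x`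
and supported in `{y ≤ x}`, for the `x` with `a x ≠ 0`.  The `d x` are a basis: linearly independent (look at the
largest index), spanning by well-founded induction on the largest element of the support of `d ∈ D`
(`Finset.max'`).
`exists_extension'`: `C ⧸ Z` embeds in a free abelian group, hence is free, so `Z → C` splits.
`exists_cocycle'`: copy of `exists_cocycle` in `FQ/Uct.lean` with `exists_extension'`: `bd` followed by the projection
to the chains of degree `n` modulo `coi`, which embed in `Cx ℤ Γ n` by `nrm`.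
-/

set_option autoImplicit false

universe u v w

namespace Pool.Agent.H16.KN

open Pool.Agent.H71.FQ

/-- leading coefficients at `x` of the elements of `D` supported below `x` -/
private def leadIdeal {X : Type u} [LinearOrder X] (D : Submodule ℤ (X →₀ ℤ)) (x : X) : Ideal ℤ where
  carrier := {m | ∃ d ∈ D, (∀ y, x < y → d y = 0) ∧ d x = m}
  zero_mem' := ⟨0, D.zero_mem, fun _ _ => rfl, rfl⟩
  add_mem' := by
    rintro a b ⟨d, hd, hd1, rfl⟩ ⟨e, he, he1, rfl⟩
    refine ⟨d + e, D.add_mem hd he, fun y hy => ?_, rfl⟩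
    rw [Finsupp.add_apply, hd1 y hy, he1 y hy, add_zero]
  smul_mem' := by
    rintro k a ⟨d, hd, hd1, rfl⟩
    refine ⟨k • d, D.smul_mem k hd, fun y hy => ?_, rfl⟩
    rw [Finsupp.smul_apply, hd1 y hy, smul_zero]

/-- subgroups of free abelian groups (of any rank) are free -/
theorem free_sub (X : Type u) (D : Submodule ℤ (X →₀ ℤ)) : Module.Free ℤ D := by
  classical
  obtain ⟨_, _⟩ := exists_wellFoundedLT X
  have hprin : ∀ x : X, ∃ d : X →₀ ℤ, d ∈ D ∧ (∀ y, x < y → d y = 0) ∧
      leadIdeal D x = Ideal.span {d x} := by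
    intro x
    obtain ⟨a, ha⟩ := (IsPrincipalIdealRing.principal (leadIdeal D x)).principal
    have hmem : a ∈ leadIdeal D x := by
      rw [ha]
      exact Submodule.mem_span_singleton_self a
    obtain ⟨d, hd, hd1, hd2⟩ := hmem
    refine ⟨d, hd, hd1, ?_⟩
    rw [hd2]
    exact ha
  choose d hdD hd1 hd2 using hprin
  let J : Set X := {x | d x x ≠ 0}
  let v : J → D := fun x => ⟨d x, hdD x⟩
  have hli : LinearIndependent ℤ v := by
    rw [linearIndependent_iff]
    intro l hl
    by_contra hne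
    have hsupp : l.support.Nonempty := Finsupp.support_nonempty_iff.2 hne
    let x0 : J := l.support.max' hsupp
    have hx0 : x0 ∈ l.support := Finset.max'_mem _ _
    have hle : ∀ x ∈ l.support, x ≤ x0 := fun x hx => Finset.le_max' _ _ hx
    have h1 : ((Finsupp.linearCombination ℤ v l : D) : X →₀ ℤ) (x0 : X) = 0 := by
      rw [hl]
      rfl
    rw [Finsupp.linearCombination_apply, Finsupp.sum] at h1
    rw [AddSubmonoidClass.coe_finsetSum, Finsupp.finsetSum_apply] at h1
    rw [Finset.sum_eq_single x0] at h1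
    · have h2 : l x0 * d x0 x0 = 0 := h1
      rcases mul_eq_zero.1 h2 with h3 | h3
      · exact (Finsupp.mem_support_iff.1 hx0) h3
      · exact x0.2 h3
    · intro b hb hb0
      have hlt : b < x0 := lt_of_le_of_ne (hle b hb) hb0
      show l b * d b x0 = 0
      rw [hd1 b x0 hlt, mul_zero]
    · intro h
      exact absurd hx0 h
  have hspan : ∀ x : X, ∀ e : D, (∀ y, x < y → (e : X →₀ ℤ) y = 0) →
      e ∈ Submodule.span ℤ (Set.range v) := by
    intro x
    induction x using WellFoundedLT.induction with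
    | ind x ih =>
      have key : ∀ e : D, (∀ y, x ≤ y → (e : X →₀ ℤ) y = 0) →
          e ∈ Submodule.span ℤ (Set.range v) := by
        intro e he
        by_cases h0 : (e : X →₀ ℤ) = 0
        · have : e = 0 := Subtype.ext h0
          rw [this]
          exact Submodule.zero_mem _
        · have hs : (e : X →₀ ℤ).support.Nonempty := Finsupp.support_nonempty_iff.2 h0
          have hm := Finset.max'_mem _ hs
          refine ih ((e : X →₀ ℤ).support.max' hs) ?_ e ?_
          · by_contra hlt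
            exact (Finsupp.mem_support_iff.1 hm) (he _ (not_lt.1 hlt))
          · intro y hy
            by_contra hne
            exact absurd (Finset.le_max' _ y (Finsupp.mem_support_iff.2 hne)) (not_le.2 hy)
      intro e he
      have hmem : (e : X →₀ ℤ) x ∈ leadIdeal D x := ⟨e, e.2, he, rfl⟩
      rw [hd2 x, Ideal.mem_span_singleton'] at hmem
      obtain ⟨k, hk⟩ := hmem
      by_cases hx : d x x = 0
      · refine key e ?_
        intro y hy
        rcases hy.eq_or_lt with rfl | hy
        · rw [← hk, hx, mul_zero]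
        · exact he y hy
      · have hv : (v ⟨x, hx⟩ : D) ∈ Submodule.span ℤ (Set.range v) :=
          Submodule.subset_span ⟨⟨x, hx⟩, rfl⟩
        have h1 : e - k • v ⟨x, hx⟩ ∈ Submodule.span ℤ (Set.range v) := by
          refine key _ ?_
          intro y hy
          show (e : X →₀ ℤ) y - k * d x y = 0
          rcases hy.eq_or_lt with rfl | hy
          · rw [hk, sub_self]
          · rw [he y hy, hd1 x y hy, mul_zero, sub_zero]
        have h2 := Submodule.add_mem _ h1 (Submodule.smul_mem _ k hv)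
        rwa [sub_add_cancel] at h2
  have htop : ⊤ ≤ Submodule.span ℤ (Set.range v) := by
    intro e _
    by_cases h0 : (e : X →₀ ℤ) = 0
    · have : e = 0 := Subtype.ext h0
      rw [this]
      exact Submodule.zero_mem _
    · have hs : (e : X →₀ ℤ).support.Nonempty := Finsupp.support_nonempty_iff.2 h0
      refine hspan ((e : X →₀ ℤ).support.max' hs) e ?_
      intro y hy
      by_contra hne
      exact absurd (Finset.le_max' _ y (Finsupp.mem_support_iff.2 hne)) (not_le.2 hy)
  exact Module.Free.of_basis (Module.Basis.mk hli htop)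

/-- extension of homomorphisms from the kernel of a homomorphism to a free group -/
theorem exists_extension' {C : Type u} [AddCommGroup C] {X : Type v} (g : C →+ (X →₀ ℤ))
    {A : Type w} [AddCommGroup A] (f : g.ker →+ A) : ∃ F : C →+ A, ∀ z : g.ker, F z = f z := by
  let G : C →ₗ[ℤ] (X →₀ ℤ) := g.toIntLinearMap
  have hfree : Module.Free ℤ (LinearMap.range G) := free_sub X _
  obtain ⟨s, hs⟩ := Module.projective_lifting_property G.rangeRestrict LinearMap.id
    G.surjective_rangeRestrict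
  have hs' : ∀ e : LinearMap.range G, G.rangeRestrict (s e) = e := fun e => LinearMap.congr_fun hs e
  have hmem : ∀ c : C, c - s (G.rangeRestrict c) ∈ g.ker := by
    intro c
    have h1 : G.rangeRestrict (c - s (G.rangeRestrict c)) = 0 := by
      rw [map_sub, hs', sub_self]
    exact congrArg Subtype.val h1
  refine ⟨AddMonoidHom.mk' (fun c => f ⟨c - s (G.rangeRestrict c), hmem c⟩) ?_, ?_⟩
  · intro a b
    rw [← map_add]
    congr 1
    apply Subtype.ext
    show a + b - s (G.rangeRestrict (a + b)) =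
      (a - s (G.rangeRestrict a)) + (b - s (G.rangeRestrict b))
    rw [map_add, map_add]
    abel
  · intro z
    show f ⟨(z : C) - s (G.rangeRestrict z), hmem z⟩ = f z
    congr 1
    apply Subtype.ext
    have h0 : G.rangeRestrict (z : C) = 0 := Subtype.ext z.2
    show (z : C) - s (G.rangeRestrict z) = z
    rw [h0, map_zero, sub_zero]

/-- **Every homomorphism from `H_{n+1}(Γ; ℤ)` to an abelian group is the evaluation of a cocycle.** -/
theorem exists_cocycle' {Γ : Type v} [Group Γ] {n : ℕ} {A : Type w} [AddCommGroup A]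
    (f : HG Γ n →+ A) :
    ∃ (φ : (Fin (n + 2) → Γ) → A) (hφ : IsCoc Γ n φ), ∀ x, HG.ev hφ x = f x := by
  let g : Cx ℤ Γ (n + 1) →+ ((Fin (n + 1) → Γ) →₀ ℤ) :=
    ((nrm Γ n).comp (bd ℤ Γ n)).toAddMonoidHom
  have hker : ∀ c : Cx ℤ Γ (n + 1), c ∈ g.ker ↔ c ∈ cyc Γ n := by
    intro c
    constructor
    · intro h
      have h1 : nrm Γ n (bd ℤ Γ n c) = 0 := h
      have h2 := sub_nrm_mem (bd ℤ Γ n c)
      rw [h1, sub_zero] at h2
      exact h2
    · intro h
      exact nrm_coi (show bd ℤ Γ n c ∈ coi Γ n from h)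
  let f0 : g.ker →+ A := AddMonoidHom.mk' (fun z => f (HG.mk ⟨z.1, (hker z.1).1 z.2⟩)) (by
    intro a b
    rw [← map_add, ← HG.mk_add]
    rfl)
  have hf0 : ∀ z : g.ker, f0 z = f (HG.mk ⟨z.1, (hker z.1).1 z.2⟩) := fun z => rfl
  obtain ⟨F, hF⟩ := exists_extension' g f0
  have hF' : ∀ (c : Cx ℤ Γ (n + 1)) (hc : c ∈ cyc Γ n), F c = f (HG.mk ⟨c, hc⟩) :=
    fun c hc => hF ⟨c, (hker c).2 hc⟩
  have hF0 : ∀ c : Cx ℤ Γ (n + 1), c ∈ bnd Γ n → F c = 0 := by
    intro c hc
    rw [hF' c (bnd_le_cyc hc)]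
    have h0 : (0 : HG Γ n) = HG.mk 0 := rfl
    have h1 : HG.mk ⟨c, bnd_le_cyc hc⟩ = (0 : HG Γ n) := by
      rw [h0, HG.mk_eq_iff]
      show c - 0 ∈ bnd Γ n
      rw [sub_zero]
      exact hc
    rw [h1, map_zero]
  have hcoc : IsCoc Γ n fun x => F (Finsupp.single x 1) := by
    constructor
    · intro g x
      rw [← sub_eq_zero, ← map_sub]
      exact hF0 _ (Submodule.mem_sup_right (Submodule.subset_span ⟨g, x, rfl⟩))
    · intro x
      have h1 := hF0 (bd ℤ Γ (n + 1) (Finsupp.single x 1))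
        (Submodule.mem_sup_left (LinearMap.mem_range_self _ _))
      rw [bd_single, map_sum] at h1
      simp only [map_zsmul] at h1
      exact h1
  refine ⟨_, hcoc, ?_⟩
  intro x
  obtain ⟨z, rfl⟩ := HG.mk_surjective x
  rw [HG.ev_mk, lc_addHom]
  exact hF' z z.2

end Pool.Agent.H16.KN

end

section

/-!
# Project FQ: classes of `KQ A n` which die over a larger ring

A class of `KQ A' n` which dies in `KQ A n` dies in `KQ A'' n` for every ring `A''` between `A'` and `A` which
contains a finite set.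
-/

set_option autoImplicit false

open Matrix

universe u v w w'

namespace Pool.Agent.H71.FQ

section

variable {A : Type u} [Ring A] {A' : Type v} [Ring A'] {n : ℕ}

theorem mapGL_injective {f : A' →+* A} (hf : Function.Injective f) (N : ℕ) :
    Function.Injective (mapGL f N) := by
  intro X Y h
  have h1 : (mapGL f N X).val = (mapGL f N Y).val := by rw [h]
  rw [mapGL_val, mapGL_val] at h1
  apply Units.ext
  refine Matrix.ext fun i j => hf ?_
  have h2 := congrFun (congrFun h1 i) j
  rw [Matrix.map_apply, Matrix.map_apply] at h2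
  exact h2

theorem mapGL_comp {A'' : Type w} [Ring A''] (f : A' →+* A) (g : A →+* A'') (N : ℕ) :
    (mapGL g N).comp (mapGL f N) = mapGL (g.comp f) N := rfl

theorem exists_mapGL {N : ℕ} (X : GLm N A) : ∃ S : Finset A, ∀ {A' : Type w} [Ring A']
    (f : A' →+* A), Function.Injective f → (∀ s ∈ S, s ∈ Set.range f) →
      X ∈ Set.range (mapGL f N) := by
  classical
  refine ⟨(Finset.univ.image fun p : Fin N × Fin N => X.val p.1 p.2) ∪
    (Finset.univ.image fun p : Fin N × Fin N => X.inv p.1 p.2), ?_⟩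
  intro A' _ f hf hS
  have h1 : ∀ i j, ∃ a, f a = X.val i j := fun i j =>
    hS _ (Finset.mem_union_left _ (Finset.mem_image.2 ⟨(i, j), Finset.mem_univ _, rfl⟩))
  have h2 : ∀ i j, ∃ a, f a = X.inv i j := fun i j =>
    hS _ (Finset.mem_union_right _ (Finset.mem_image.2 ⟨(i, j), Finset.mem_univ _, rfl⟩))
  choose V hV using h1
  choose W hW using h2
  have e1 : (Matrix.of V).map f = X.val := Matrix.ext hV
  have e2 : (Matrix.of W).map f = X.inv := Matrix.ext hW
  have hinj : Function.Injective fun M : Matrix (Fin N) (Fin N) A' => M.map f := by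
    intro M M' h
    refine Matrix.ext fun i j => hf ?_
    exact congrFun (congrFun h i) j
  have hone : (1 : Matrix (Fin N) (Fin N) A').map f = 1 :=
    Matrix.map_one f (map_zero f) (map_one f)
  refine ⟨⟨Matrix.of V, Matrix.of W, ?_, ?_⟩, ?_⟩
  · apply hinj
    change (Matrix.of V * Matrix.of W).map f = (1 : Matrix (Fin N) (Fin N) A').map f
    rw [Matrix.map_mul, e1, e2, hone]
    exact X.val_inv
  · apply hinj
    change (Matrix.of W * Matrix.of V).map f = (1 : Matrix (Fin N) (Fin N) A').map f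
    rw [Matrix.map_mul, e1, e2, hone]
    exact X.inv_val
  · exact Units.ext e1

theorem exists_mapGL_finset {N : ℕ} (T : Finset (GLm N A)) :
    ∃ S : Finset A, ∀ {A' : Type w} [Ring A'] (f : A' →+* A), Function.Injective f →
      (∀ s ∈ S, s ∈ Set.range f) → ∀ X ∈ T, X ∈ Set.range (mapGL f N) := by
  classical
  choose S hS using fun X : GLm N A => exists_mapGL.{u, w} X
  refine ⟨T.biUnion S, ?_⟩
  intro A' _ f hf h X hX
  exact hS X f hf fun s hs => h s (Finset.mem_biUnion.2 ⟨X, hX, hs⟩)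

/-- the homomorphism on pairs of matrices -/
def mapGL2 (f : A' →+* A) (N M : ℕ) : GLm N A' × GLm M A' →* GLm N A × GLm M A :=
  (mapGL f N).prodMap (mapGL f M)

theorem mapGL2_injective {f : A' →+* A} (hf : Function.Injective f) (N M : ℕ) :
    Function.Injective (mapGL2 f N M) :=
  (mapGL_injective hf N).prodMap (mapGL_injective hf M)

theorem exists_mapGL2_finset {N M : ℕ} (T : Finset (GLm N A × GLm M A)) :
    ∃ S : Finset A, ∀ {A' : Type w} [Ring A'] (f : A' →+* A), Function.Injective f →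
      (∀ s ∈ S, s ∈ Set.range f) → ∀ X ∈ T, X ∈ Set.range (mapGL2 f N M) := by
  classical
  obtain ⟨S1, h1⟩ := exists_mapGL_finset.{u, w} (T.image Prod.fst)
  obtain ⟨S2, h2⟩ := exists_mapGL_finset.{u, w} (T.image Prod.snd)
  refine ⟨S1 ∪ S2, ?_⟩
  intro A' _ f hf h X hX
  obtain ⟨Y, hY⟩ := h1 f hf (fun s hs => h s (Finset.mem_union_left _ hs)) X.1
    (Finset.mem_image_of_mem _ hX)
  obtain ⟨Z, hZ⟩ := h2 f hf (fun s hs => h s (Finset.mem_union_right _ hs)) X.2
    (Finset.mem_image_of_mem _ hX)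
  exact ⟨(Y, Z), Prod.ext hY hZ⟩

variable (n) in
/-- Functoriality of the sum of the homology groups. -/
noncomputable def SumH.map (f : A' →+* A) : SumH A' n →+ SumH A n :=
  liftS fun N => (incH A n N).comp (HG.map n (mapGL f N))

theorem SumH.map_incH (f : A' →+* A) (N : ℕ) (x : HG (GLm N A') n) :
    SumH.map n f (incH A' n N x) = incH A n N (HG.map n (mapGL f N) x) :=
  liftS_incH _ N x

theorem SumH.hom_ext {M : Type w} [AddCommGroup M] {f g : SumH A n →+ M}
    (h : ∀ N x, f (incH A n N x) = g (incH A n N x)) : f = g :=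
  DirectSum.addHom_ext fun N x => h N x

theorem SumH.map_map {A'' : Type w} [Ring A''] (f : A' →+* A) (g : A →+* A'') (s : SumH A' n) :
    SumH.map n g (SumH.map n f s) = SumH.map n (g.comp f) s := by
  have h : (SumH.map n g).comp (SumH.map n f) = SumH.map n (g.comp f) := by
    refine SumH.hom_ext fun N x => ?_
    rw [AddMonoidHom.comp_apply, SumH.map_incH, SumH.map_incH, SumH.map_incH, HG.map_map,
      mapGL_comp]
  exact DFunLike.congr_fun h s

variable (A n) in
/-- the class of an element of the sum -/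
noncomputable def KQ.mk : SumH A n →+ KQ A n := QuotientAddGroup.mk' (blkRel A n)

theorem KQ.mk_surjective (y : KQ A n) : ∃ s, KQ.mk A n s = y :=
  QuotientAddGroup.mk'_surjective (blkRel A n) y

theorem KQ.mk_eq_zero (s : SumH A n) : KQ.mk A n s = 0 ↔ s ∈ blkRel A n :=
  QuotientAddGroup.eq_zero_iff s

theorem KQ.map_mk (f : A' →+* A) (s : SumH A' n) :
    KQ.map f (KQ.mk A' n s) = KQ.mk A n (SumH.map n f s) := by
  have h : (KQ.map f).comp (KQ.mk A' n) = (KQ.mk A n).comp (SumH.map n f) := by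
    refine SumH.hom_ext fun N x => ?_
    rw [AddMonoidHom.comp_apply, AddMonoidHom.comp_apply, SumH.map_incH]
    exact KQ.map_cls f N x
  exact DFunLike.congr_fun h s

variable (A n) in
/-- the component of an element of the sum -/
noncomputable def prS (N : ℕ) : SumH A n →+ HG (GLm N A) n :=
  DFinsupp.evalAddMonoidHom (β := fun N => HG (GLm N A) n) N

theorem prS_incH (N : ℕ) (x : HG (GLm N A) n) : prS A n N (incH A n N x) = x :=
  DirectSum.of_eq_same (β := fun N => HG (GLm N A) n) N x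

theorem prS_incH_ne {N M : ℕ} (h : M ≠ N) (x : HG (GLm M A) n) : prS A n N (incH A n M x) = 0 :=
  DirectSum.of_eq_of_ne (β := fun N => HG (GLm N A) n) _ _ _ h.symm

theorem prS_map (f : A' →+* A) (N : ℕ) (s : SumH A' n) :
    prS A n N (SumH.map n f s) = HG.map n (mapGL f N) (prS A' n N s) := by
  have h : (prS A n N).comp (SumH.map n f) = (HG.map n (mapGL f N)).comp (prS A' n N) := by
    refine SumH.hom_ext fun M x => ?_
    rw [AddMonoidHom.comp_apply, AddMonoidHom.comp_apply, SumH.map_incH]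
    by_cases hM : M = N
    · subst hM
      rw [prS_incH, prS_incH]
    · rw [prS_incH_ne hM, prS_incH_ne hM, map_zero]
  exact DFunLike.congr_fun h s

theorem exists_sum (s : SumH A n) : ∃ T : Finset ℕ, s = ∑ N ∈ T, incH A n N (prS A n N s) := by
  classical
  exact ⟨DFinsupp.support s, (DirectSum.sum_support_of s).symm⟩

theorem exists_zero_sum (f : A' →+* A) (s : SumH A' n) (hs : SumH.map n f s = 0) :
    ∃ S : Finset A, ∀ {A'' : Type w} [Ring A''] (g : A'' →+* A) (k : A' →+* A''),
      Function.Injective g → g.comp k = f → (∀ a ∈ S, a ∈ Set.range g) →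
        SumH.map n k s = 0 := by
  classical
  obtain ⟨T, hT⟩ := exists_sum s
  have h1 : ∀ N, HG.map n (mapGL f N) (prS A' n N s) = 0 := by
    intro N
    rw [← prS_map, hs, map_zero]
  choose S0 h2 using fun N => HG.exists_zero.{u, v, w} (mapGL f N) (prS A' n N s) (h1 N)
  choose S1 h3 using fun N => exists_mapGL_finset.{u, w} (S0 N)
  refine ⟨T.biUnion S1, ?_⟩
  intro A'' _ g k hg hgk h
  rw [hT, map_sum]
  refine Finset.sum_eq_zero fun N hN => ?_
  rw [SumH.map_incH, h2 N (mapGL g N) (mapGL k N) (mapGL_injective hg N)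
    (by rw [mapGL_comp, hgk]) (h3 N g hg fun a ha => h a (Finset.mem_biUnion.2 ⟨N, hN, ha⟩)),
    map_zero]

theorem exists_lift_rel (u : SumH A n) (hu : u ∈ blkRel A n) :
    ∃ S : Finset A, ∀ {A'' : Type w} [Ring A''] (g : A'' →+* A),
      Function.Injective g → (∀ a ∈ S, a ∈ Set.range g) →
        ∃ u' ∈ blkRel A'' n, SumH.map n g u' = u := by
  classical
  rw [blkRel] at hu
  induction hu using AddSubgroup.closure_induction with
  | mem y hy =>
    obtain ⟨N, M, w, rfl⟩ := hy
    obtain ⟨S0, h0⟩ := HG.exists_lift'.{u, w} w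
    obtain ⟨S1, h1⟩ := exists_mapGL2_finset.{u, w} S0
    refine ⟨S1, ?_⟩
    intro A'' _ g hg h
    obtain ⟨w', hw'⟩ := h0 (mapGL2 g N M) (mapGL2_injective hg N M) (h1 g hg h)
    refine ⟨_, AddSubgroup.subset_closure ⟨N, M, w', rfl⟩, ?_⟩
    rw [map_sub, map_add, SumH.map_incH, SumH.map_incH, SumH.map_incH, HG.map_map, HG.map_map,
      HG.map_map, ← hw', HG.map_map, HG.map_map, HG.map_map, mapGL_comp_blk]
    rfl
  | zero =>
    refine ⟨∅, ?_⟩
    intro A'' _ g hg h
    exact ⟨0, AddSubgroup.zero_mem _, map_zero _⟩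
  | add x y _ _ hx hy =>
    obtain ⟨S1, h1⟩ := hx
    obtain ⟨S2, h2⟩ := hy
    refine ⟨S1 ∪ S2, ?_⟩
    intro A'' _ g hg h
    obtain ⟨a, ha, ea⟩ := h1 g hg fun s hs => h s (Finset.mem_union_left _ hs)
    obtain ⟨b, hb, eb⟩ := h2 g hg fun s hs => h s (Finset.mem_union_right _ hs)
    exact ⟨a + b, AddSubgroup.add_mem _ ha hb, by rw [map_add, ea, eb]⟩
  | neg x _ hx =>
    obtain ⟨S1, h1⟩ := hx
    refine ⟨S1, ?_⟩
    intro A'' _ g hg h
    obtain ⟨a, ha, ea⟩ := h1 g hg h
    exact ⟨-a, AddSubgroup.neg_mem _ ha, by rw [map_neg, ea]⟩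

/-- the factorization of the inclusion of a subring through an injective homomorphism whose range contains it -/
theorem exists_factor {A'' : Type w} [Ring A''] (g : A'' →+* A) (hg : Function.Injective g)
    (B : Subring A) (hB : B ≤ g.range) : ∃ k : B →+* A'', g.comp k = B.subtype := by
  let e : A'' ≃+* g.range := RingEquiv.ofBijective g.rangeRestrict
    ⟨fun x y h => hg (congrArg Subtype.val h), g.rangeRestrict_surjective⟩
  refine ⟨(e.symm : g.range →+* A'').comp (Subring.inclusion hB), ?_⟩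
  refine RingHom.ext fun b => ?_
  have h1 : e (e.symm (Subring.inclusion hB b)) = Subring.inclusion hB b := e.apply_symm_apply _
  exact congrArg Subtype.val h1

/-- **A class of `KQ A' n` which dies in `KQ A n` dies over the rings which contain a finite set.** -/
theorem KQ.exists_zero (f : A' →+* A) (y : KQ A' n) (hy : KQ.map f y = 0) :
    ∃ S : Finset A, ∀ {A'' : Type w} [Ring A''] (g : A'' →+* A) (k : A' →+* A''),
      Function.Injective g → g.comp k = f → (∀ a ∈ S, a ∈ Set.range g) →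
        KQ.map k y = 0 := by
  classical
  obtain ⟨s, rfl⟩ := KQ.mk_surjective y
  rw [KQ.map_mk, KQ.mk_eq_zero] at hy
  have hu : SumH.map n f s ∈ blkRel A n := hy
  obtain ⟨S1, h1⟩ := exists_lift_rel.{u, u} _ hu
  let B : Subring A := Subring.closure (Set.range f ∪ (S1 : Set A))
  have hfB : ∀ a, f a ∈ B := fun a => Subring.subset_closure (Or.inl ⟨a, rfl⟩)
  let f1 : A' →+* B := f.codRestrict B hfB
  have hf1 : B.subtype.comp f1 = f := RingHom.ext fun a => rfl
  obtain ⟨u1, hu1, e1⟩ := h1 B.subtype Subtype.val_injective fun a ha =>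
    ⟨⟨a, Subring.subset_closure (Or.inr ha)⟩, rfl⟩
  have h2 : SumH.map n B.subtype (SumH.map n f1 s - u1) = 0 := by
    rw [map_sub, SumH.map_map, hf1, e1, sub_self]
  obtain ⟨S2, h3⟩ := exists_zero_sum.{u, u, w} B.subtype _ h2
  refine ⟨S1 ∪ S2, ?_⟩
  intro A'' _ g k hg hgk h
  have hB : B ≤ g.range := by
    rw [Subring.closure_le]
    rintro a (⟨b, rfl⟩ | ha)
    · exact ⟨k b, RingHom.congr_fun hgk b⟩
    · exact h a (Finset.mem_union_left _ ha)
  obtain ⟨k1, hk1⟩ := exists_factor g hg B hB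
  have h4 := h3 g k1 hg hk1 fun a ha => h a (Finset.mem_union_right _ ha)
  have h5 : k1.comp f1 = k := by
    refine RingHom.ext fun a => hg ?_
    have h6 := RingHom.congr_fun hk1 (f1 a)
    have h7 := RingHom.congr_fun hgk a
    exact h6.trans h7.symm
  rw [map_sub, SumH.map_map, h5, sub_eq_zero] at h4
  rw [KQ.map_mk, h4, ← KQ.map_mk, (KQ.mk_eq_zero u1).2 hu1, map_zero]

end

end Pool.Agent.H71.FQ

end

section

/-!
# Project CZ: the orbit argument, abstract form

`orb_abs`: `L (j + 1) l ≡ L j (l + 1)` and `L j (l + 1) ≡ p L j l` modulo `p ^ (2 l)`, up to fixed multiples, and `L s = L 0` imply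
`(p ^ s - 1) L 0 l ≡ 0`.
`pow_binom`: `u ^ (p ^ (l + 1)) - 1 ≡ p (u ^ (p ^ l) - 1)` modulo `p ^ (2 l)` if `u` is one modulo `p ^ 2`.
-/

set_option autoImplicit false

universe u v w

namespace Pool.Agent.H39.CZ

section

variable {B : Type u} [CommRing B]

theorem orb_abs (p : ℕ) (L : ℕ → ℕ → B)
    (hK : ∀ j, ∃ K : ℕ, K ≠ 0 ∧ ∀ l, (p : B) ^ (2 * l) ∣ (K : B) * (L j (l + 1) - L (j + 1) l))
    (hb : ∀ j l, (p : B) ^ (2 * l) ∣ L j (l + 1) - (p : B) * L j l) (s : ℕ) :
    ∃ K : ℕ, K ≠ 0 ∧ ∀ l, (p : B) ^ (2 * l) ∣ (K : B) * (L s l - (p : B) ^ s * L 0 l) := by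
  induction s with
  | zero =>
    refine ⟨1, one_ne_zero, fun l => ?_⟩
    rw [pow_zero, one_mul, sub_self, mul_zero]
    exact dvd_zero _
  | succ s ih =>
    obtain ⟨K, hK0, h1⟩ := ih
    obtain ⟨K', hK0', h2⟩ := hK s
    refine ⟨K * K', mul_ne_zero hK0 hK0', fun l => ?_⟩
    have e : ((K * K' : ℕ) : B) * (L (s + 1) l - (p : B) ^ (s + 1) * L 0 l) =
        -((K : B) * ((K' : B) * (L s (l + 1) - L (s + 1) l))) +
          (K : B) * (K' : B) * (L s (l + 1) - (p : B) * L s l) +
          (K' : B) * (p : B) * ((K : B) * (L s l - (p : B) ^ s * L 0 l)) := by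
      push_cast
      ring
    rw [e]
    exact dvd_add (dvd_add ((h2 l).mul_left _).neg_right ((hb s l).mul_left _))
      ((h1 l).mul_left _)

/-- **The orbit.** -/
theorem orb_fix (p : ℕ) (L : ℕ → ℕ → B)
    (hK : ∀ j, ∃ K : ℕ, K ≠ 0 ∧ ∀ l, (p : B) ^ (2 * l) ∣ (K : B) * (L j (l + 1) - L (j + 1) l))
    (hb : ∀ j l, (p : B) ^ (2 * l) ∣ L j (l + 1) - (p : B) * L j l) (s : ℕ) (hp : 2 ≤ p)
    (hs : s ≠ 0) (hfix : ∀ l, L s l = L 0 l) :
    ∃ K : ℕ, K ≠ 0 ∧ ∀ l, (p : B) ^ (2 * l) ∣ (K : B) * L 0 l := by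
  obtain ⟨K, hK0, h⟩ := orb_abs p L hK hb s
  have h1 : 1 < p ^ s := Nat.one_lt_pow hs hp
  refine ⟨K * (p ^ s - 1), mul_ne_zero hK0 (by omega), fun l => ?_⟩
  have h2 := h l
  rw [hfix l] at h2
  have e : ((K * (p ^ s - 1) : ℕ) : B) * L 0 l = -((K : B) * (L 0 l - (p : B) ^ s * L 0 l)) := by
    push_cast [Nat.cast_sub h1.le]
    ring
  rw [e]
  exact h2.neg_right

end

section

variable {p : ℕ} [Fact p.Prime] {S : Type w} [Ring S]

private theorem one_add_pow' (x : S) (n : ℕ) :
    ∃ y : S, (1 + x) ^ n = 1 + n • x + x ^ 2 * y := by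
  induction n with
  | zero => exact ⟨0, by simp⟩
  | succ n ih =>
    obtain ⟨y, hy⟩ := ih
    refine ⟨n • 1 + y + y * x, ?_⟩
    rw [pow_succ, hy, add_smul, one_smul]
    noncomm_ring

/-- the binomial theorem -/
theorem pow_binom {k : ℕ} (hk : 2 ≤ k) (l : ℕ) (U A : S) (hU : U = 1 + (p ^ k : ℕ) • A) :
    ∃ y : S, U ^ p ^ (l + 1) - 1 - p • (U ^ p ^ l - 1) = (p ^ (2 * l) : ℕ) • y := by
  obtain ⟨A', hA'⟩ := Pool.Agent.H39.KL.pow_congr_one hk l U A hU
  obtain ⟨y, hy⟩ := one_add_pow' ((p ^ (k + l) : ℕ) • A') p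
  refine ⟨(p ^ (2 * k) : ℕ) • (A' ^ 2 * y), ?_⟩
  have e : (p ^ (k + l)) ^ 2 = p ^ (2 * l) * p ^ (2 * k) := by
    rw [← pow_mul, ← pow_add]
    congr 1
    ring
  have h1 : ((p ^ (k + l) : ℕ) • A') ^ 2 * y = (p ^ (2 * l) : ℕ) • (p ^ (2 * k) : ℕ) • (A' ^ 2 * y) := by
    rw [smul_pow, smul_mul_assoc, e, mul_smul]
  rw [pow_succ, pow_mul, hA', hy, h1]
  generalize (p ^ (k + l) : ℕ) • A' = x
  rw [add_sub_cancel_left]
  abel

end

end Pool.Agent.H39.CZ

end

section

/-!
# Project CZ: the orbit of `c` under the `p`-th power map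

`B = ℤ_[p]`, `p` prime to the orders of the `C i` and of `c`.  `ψ : H_{n+1}(Z_G(c)) → ℤ_[p]`,
`L c ψ l = ∑ i, ∑ d, ψ (trc n c (C i) d (z i)) * (u_i ^ (p ^ l) - 1)_d`.

PROOF of `relO`.
(A) `relC` for the element `c ^ p` and a cocycle of `ψ'` (`exists_cocycle` of `FQ/Uct`; `Z(c ^ p) = Z(c)`), substitute `d = g ^ p` in the second sum
(`g ↦ g ^ p` is a bijection of `C i`; `trc n (c ^ p) C (g ^ p) z` is the image of `trc n c C g z` under `Z(c) ≤ Z(c ^ p)`, and
`c ^ p ~ g ^ p ↔ c ~ g`; the terms of `1` cancel): `L (c ^ p) ψ' (l + 1) = L c (ψ' ∘ incl) l` modulo `p ^ (2 l) / K`.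
(B) `pow_congr`: `u ^ (p ^ (l + 1)) - 1 = p (u ^ (p ^ l) - 1)` modulo `p ^ (2 l)`, so `L c ψ (l + 1) = p L c ψ l` modulo `p ^ (2 l)`.
(C) so `p L (c ^ p) ψ' l = L c (ψ' ∘ incl) l` modulo `p ^ (2 l) / K`; `s ≥ 1` with `c ^ (p ^ s) = c`; all `Z(c ^ (p ^ j))` are equal to `Z(c)`: iterate,
`(p ^ s - 1) L c ψ l = 0` modulo `p ^ (2 l) / K'`.  (To avoid dependent types use `ψ` on `Z(c₀)` and the elements `c'` with
`Z(c') ≤ Z(c₀)`, `ψ ∘ HG.map (Subgroup.inclusion _)`.)
-/

set_option autoImplicit false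

open Matrix

universe u v w

namespace Pool.Agent.H71.CZ

open Pool.Agent.H71.FQ Pool.Agent.H16.KN

section

variable {p : ℕ} [hp : Fact p.Prime] {G : Type v} [Group G] {n : ℕ}

/-- the binomial theorem -/
theorem pow_congr {C : Type w} [Group C] (u : MonoidAlgebra ℤ_[p] C)
    (hu : ∃ a : MonoidAlgebra ℤ_[p] C, u = 1 + (p : MonoidAlgebra ℤ_[p] C) ^ 4 * a) (l : ℕ)
    (d : C) : ∃ y : ℤ_[p], (u ^ p ^ (l + 1) - 1).coeff d =
      (p : ℤ_[p]) * (u ^ p ^ l - 1).coeff d + (p : ℤ_[p]) ^ (2 * l) * y := by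
  obtain ⟨a, ha⟩ := hu
  have hns : ∀ (k : ℕ) (x : MonoidAlgebra ℤ_[p] C), (k • x).coeff d = (k : ℤ_[p]) * x.coeff d := by
    intro k x
    rw [← Nat.cast_smul_eq_nsmul ℤ_[p], MonoidAlgebra.coeff_smul, Finsupp.smul_apply, smul_eq_mul]
  obtain ⟨y, hy⟩ := Pool.Agent.H39.CZ.pow_binom (p := p) (k := 4) (by norm_num) l u a (by
    rw [ha, nsmul_eq_mul]
    push_cast
    rfl)
  refine ⟨y.coeff d, ?_⟩
  have h1 := congrArg (fun x : MonoidAlgebra ℤ_[p] C => x.coeff d) hy
  simp only [MonoidAlgebra.coeff_sub, Finsupp.sub_apply, hns] at h1 ⊢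
  push_cast at h1
  linear_combination h1

/-- the transport for an element `c'` with `c' ^ k = c` -/
private theorem trc_pow {c c' : G} {k k' : ℕ} (hc : c' ^ k = c) (hc' : c ^ k' = c') {C : Subgroup G}
    (d : C) (hd : (d ^ k) ^ k' = d)
    (hle : Subgroup.centralizer ({c'} : Set G) ≤ Subgroup.centralizer ({c} : Set G))
    (z : HG (Subgroup.centralizer (C : Set G)) n) :
    HG.map n (Subgroup.inclusion hle) (trc n c' C d z) = trc n c C (d ^ k) z := by
  by_cases h : IsConj c' (d : G)
  · obtain ⟨x, hx⟩ := isConj_iff.1 h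
    have hm' : x * c' * x⁻¹ ∈ C := by
      rw [hx]
      exact d.2
    have hx' : x * c * x⁻¹ = ((d ^ k : C) : G) := by
      rw [Subgroup.coe_pow, ← hx, ← hc, conj_pow]
    have hm : x * c * x⁻¹ ∈ C := by
      rw [hx']
      exact (d ^ k).2
    rw [trc_eq x hx hm', trc_eq x hx' hm, HG.map_map]
    rfl
  · have h' : ¬ IsConj c ((d ^ k : C) : G) := by
      intro h1
      apply h
      obtain ⟨x, hx⟩ := isConj_iff.1 h1
      refine isConj_iff.2 ⟨x, ?_⟩
      rw [← hc', ← conj_pow, hx, ← Subgroup.coe_pow, hd]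
    rw [trc_of_not h, trc_of_not h', AddMonoidHom.zero_apply, AddMonoidHom.zero_apply, map_zero]

/-- the two sums -/
private theorem sum_two {C : Type w} [Group C] [Fintype C] (dec : ∀ d g : C, Decidable (g ^ p = d))
    (F : C → ℤ_[p]) (v : MonoidAlgebra ℤ_[p] C) :
    ∑ d : C, F d * ((v ^ p).coeff d - ∑ g : C with g ^ p = d, v.coeff g) =
      ∑ d : C, F d * (v ^ p - 1).coeff d - ∑ d : C, F (d ^ p) * (v - 1).coeff d := by
  have h1 : ∀ H : C → ℤ_[p], ∑ d : C, H d * (1 : MonoidAlgebra ℤ_[p] C).coeff d = H 1 := by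
    intro H
    rw [Finset.sum_eq_single 1]
    · rw [MonoidAlgebra.one_def, MonoidAlgebra.coeff_single, Finsupp.single_eq_same, mul_one]
    · intro d _ hd
      rw [MonoidAlgebra.one_def, MonoidAlgebra.coeff_single, Finsupp.single_eq_of_ne hd, mul_zero]
    · intro h
      exact absurd (Finset.mem_univ _) h
  have h2 : ∑ d : C, F d * ∑ g : C with g ^ p = d, v.coeff g = ∑ g : C, F (g ^ p) * v.coeff g := by
    simp only [Finset.sum_filter, Finset.mul_sum]
    rw [Finset.sum_comm]
    refine Finset.sum_congr rfl fun g _ => ?_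
    rw [Finset.sum_eq_single (g ^ p)]
    · rw [if_pos rfl]
    · intro d _ hd
      rw [if_neg hd.symm, mul_zero]
    · intro h
      exact absurd (Finset.mem_univ _) h
  simp only [mul_sub, MonoidAlgebra.coeff_sub, Finsupp.sub_apply, Finset.sum_sub_distrib]
  rw [h1, h1 fun d => F (d ^ p), h2, one_pow]
  ring

end

end Pool.Agent.H71.CZ

end

section

/-!
# Project KN: degrees in `G × ℤ`

`QC0 G B k` is generated by the tuples `x` with all `x_i⁻¹ x_j` supported in degrees `≥ 0`, or all in degrees `≤ 0`.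

PROOF of `TT_half`.  `TM_eq`: for a word `g` with non-zero coefficients all `dg (g j) ≥ 0` (or all `≤ 0`) and
`u (∏ g) u⁻¹ = (c, 1)` gives `∑ dg (g j) = 0`, so all `dg (g j) = 0` and the vertices have the same degree; the value of
`φ` is zero.  `TQ_half`, `TR_half`: `QC.induction`-like on the closure; the letters of a half tuple are `x_j⁻¹ x_{j+1}`,
the letters of `rep q x` are letters of `x`.
-/

set_option autoImplicit false

open Matrix

universe u v w

namespace Pool.Agent.H16.KN

open Pool.Agent.H71.FQ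

section

variable {G : Type u} [Group G] {B : Type v} [CommRing B]

end

end Pool.Agent.H16.KN

end
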