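import Pool.Agent.H71.TCZ.H71.FJ.Artin
import Pool.Agent.H71.TCZ.M08
import Pool.Agent.H71.TCZ.M21
import Pool.Agent.H71.TCZ.M34
import Pool.Agent.H71.TCZ.M41
import Pool.Agent.H71.TCZ.M52

/-! The parts of this file: H95.WH.ArtRel, H95.WH.ArtKR_1, H95.WH.ArtP. -/

section

/-!
# Artin's relation between permutation lattices

For a finite group `F` there are cyclic subgroups `D i`, `E j` (two finite families) such that the
permutation lattices `ℤ^{|F|} ⊕ ⨁ᵢ ℤ[F/D i]` and `⨁ⱼ ℤ[F/E j]` are rationally isomorphic: there are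
equivariant integral matrices `a`, `b` with `a b = n`, `b a = n`, `n ≠ 0`. (The trivial lattices are
written as `ℤ[F/⊤]`.)

## Paper proof

Let `s` be the set of the cyclic subgroups of `F`. `exists_nu s (fun _ => 1)` gives `ν : Subgroup F → ℤ`
with `∑_{D ∈ s, C ≤ D} ν D = 1` for all `C ∈ s`; with `C = zpowers h`: `∑_{D ∈ s, h ∈ D} ν D = 1` for all
`h : F`.

For a subgroup `D` let `e_D = (1/|D|) ∑_{h ∈ D} h ∈ ℚ[F]`, an idempotent, and `[e_D] = K0.cls` of the
`1 × 1` matrix. Claim: `|F| • [e_⊤] = ∑_{D ∈ s} (ν D |D|) • [e_D]` in `K0 (ℚ[F])`. By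
`K0.eq_zero_of_rk_push` it is enough to compare the ranks of the images under a homomorphism
`ρ : ℚ[F] → Mat_J(ℚ)`. The rank of an idempotent matrix over `ℚ` is its trace (`tr_eq_rk`, or
directly), so `rk ρ(e_D) = (1/|D|) ∑_{h ∈ D} tr ρ(h)` and the right side is
`∑_D ν D ∑_{h ∈ D} tr ρ(h) = ∑_h tr ρ(h) ∑_{D ∋ h} ν D = ∑_h tr ρ(h)`, the left side.

Bring the negative coefficients to the other side and apply `Pool.Agent.H95.KM.exists_stab`: there are
families `D'` (`|F|` times `⊤`, cyclic subgroups with multiplicities `|ν D| |D|` for `ν D < 0`, and `k` times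
the trivial subgroup `⊥`, `e_⊥ = 1`) and `E` (cyclic subgroups: `ν D |D|` times `D` for `ν D > 0`, `k` times
`⊥`) with `MatEquiv (diagonal e_{D' i}) (diagonal e_{E j})` over `ℚ[F]`: matrices `x`, `y` with
`x y = diag(e_{D' i})`, `y x = diag(e_{E j})`, and, replacing `x` by `diag(e_{D'}) x diag(e_E)` and `y` by
`diag(e_E) y diag(e_{D'})`, `x i j ∈ e_{D' i} ℚ[F] e_{E j}`, `y j i ∈ e_{E j} ℚ[F] e_{D' i}`.

Define `A (i, g D'_i) (j, h E_j) = |E_j| (x i j)(g⁻¹ h)` and
`B (j, h E_j) (i, g D'_i) = |D'_i| (y j i)(h⁻¹ g)`. These are well defined, since the coefficient function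
of `x i j` is left `D'_i`-invariant and right `E_j`-invariant, and they are equivariant.
`(A B) (i, g) (i', g') = ∑_j ∑_{h ∈ F/E_j} |E_j| (x i j)(g⁻¹ h) |D'_{i'}| (y j i')(h⁻¹ g')
= |D'_{i'}| ∑_j ∑_{h ∈ F} (x i j)(g⁻¹ h) (y j i')(h⁻¹ g') = |D'_{i'}| (x y)_{i i'} (g⁻¹ g')
= [i = i'] |D'_i| e_{D'_i}(g⁻¹ g') = [(i, g) = (i', g')]`. In the same way `B A = 1`. Multiply by a common
denominator `d` of the entries of `A` and of `B`: `a = d A`, `b = d B`, `n = d²`.
-/

set_option autoImplicit false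

open Matrix
open scoped Classical

universe v

namespace Pool.Agent.H95.WH

open Pool.Agent.H71.FJ

section ArtRelAlg

variable {F : Type v} [Group F] [Fintype F]

/-- The idempotent of a subgroup. -/
private noncomputable def artE (D : Subgroup F) : MonoidAlgebra ℚ F :=
  ∑ h : F, if h ∈ D then MonoidAlgebra.single h ((Nat.card D : ℚ)⁻¹) else 0

private theorem artE_coeff (D : Subgroup F) (g : F) :
    (artE D).coeff g = if g ∈ D then (Nat.card D : ℚ)⁻¹ else 0 := by
  rw [artE, MonoidAlgebra.coeff_sum, Finsupp.finsetSum_apply, Finset.sum_eq_single g]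
  · split_ifs
    · rw [MonoidAlgebra.coeff_single, Finsupp.single_eq_same]
    · rfl
  · intro b _ hb
    split_ifs
    · rw [MonoidAlgebra.coeff_single, Finsupp.single_eq_of_ne (by tauto)]
    · rfl
  · intro h
    exact absurd (Finset.mem_univ _) h

private theorem single_mul_artE (D : Subgroup F) (d : F) (hd : d ∈ D) :
    MonoidAlgebra.single d (1 : ℚ) * artE D = artE D := by
  apply MonoidAlgebra.ext
  ext g
  rw [MonoidAlgebra.coeff_single_mul_apply, one_mul, artE_coeff, artE_coeff,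
    D.mul_mem_cancel_left (D.inv_mem hd)]

private theorem artE_mul_single (D : Subgroup F) (d : F) (hd : d ∈ D) :
    artE D * MonoidAlgebra.single d (1 : ℚ) = artE D := by
  apply MonoidAlgebra.ext
  ext g
  rw [MonoidAlgebra.coeff_mul_single_apply, mul_one, artE_coeff, artE_coeff,
    D.mul_mem_cancel_right (D.inv_mem hd)]

private theorem artE_idem (D : Subgroup F) : artE D * artE D = artE D := by
  nth_rewrite 1 [artE]
  rw [Finset.sum_mul]
  have h1 : ∀ h : F, (if h ∈ D then MonoidAlgebra.single h ((Nat.card D : ℚ)⁻¹) else 0) * artE D =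
      if h ∈ D then (Nat.card D : ℚ)⁻¹ • artE D else 0 := by
    intro h
    split_ifs with hh
    · have : MonoidAlgebra.single h ((Nat.card D : ℚ)⁻¹) =
          (Nat.card D : ℚ)⁻¹ • MonoidAlgebra.single h (1 : ℚ) := by
        rw [MonoidAlgebra.smul_single, smul_eq_mul, mul_one]
      rw [this, smul_mul_assoc, single_mul_artE D h hh]
    · rw [zero_mul]
  simp only [h1]
  rw [← Finset.sum_filter, Finset.sum_const]
  have h2 : (Finset.univ.filter fun h : F => h ∈ D).card = Nat.card D := by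
    rw [← Fintype.card_subtype, Nat.card_eq_fintype_card]
  rw [h2, ← Nat.cast_smul_eq_nsmul ℚ, smul_smul, mul_inv_cancel₀, one_smul]
  exact_mod_cast Nat.card_pos.ne'

private theorem artE_bot : artE (⊥ : Subgroup F) = 1 := by
  apply MonoidAlgebra.ext
  ext g
  rw [artE_coeff, MonoidAlgebra.one_def, MonoidAlgebra.coeff_single, Subgroup.mem_bot]
  by_cases hg : g = 1
  · subst hg
    rw [if_pos rfl, Finsupp.single_eq_same]
    simp
  · rw [if_neg hg, Finsupp.single_eq_of_ne (by tauto)]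

/-- The diagonal matrix of the idempotents of a family of subgroups. -/
private noncomputable def artM {I : Type} [Fintype I] (D : I → Subgroup F) :
    Matrix I I (MonoidAlgebra ℚ F) := diagonal fun i => artE (D i)

private theorem artM_idem {I : Type} [Fintype I] (D : I → Subgroup F) :
    artM D * artM D = artM D := by
  rw [artM, diagonal_mul_diagonal]
  simp only [artE_idem]

/-- The averages of a function over the subgroups. -/
private noncomputable def artA (D : Subgroup F) (χ : F → ℚ) : ℚ :=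
  (Nat.card D : ℚ)⁻¹ * ∑ h : F, if h ∈ D then χ h else 0

private theorem artE_trace {J : Type} [Fintype J] [DecidableEq J]
    (ρ : MonoidAlgebra ℚ F →ₐ[ℚ] Matrix J J ℚ) (D : Subgroup F) :
    trace (ρ (artE D)) = artA D (fun h => trace (ρ (MonoidAlgebra.single h 1))) := by
  rw [artE, artA, map_sum, trace_sum, Finset.mul_sum]
  apply Finset.sum_congr rfl
  intro h _
  split_ifs
  · have : MonoidAlgebra.single h ((Nat.card D : ℚ)⁻¹) =
        (Nat.card D : ℚ)⁻¹ • MonoidAlgebra.single h (1 : ℚ) := by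
      rw [MonoidAlgebra.smul_single, smul_eq_mul, mul_one]
    rw [this, map_smul, trace_smul, smul_eq_mul]
  · rw [map_zero, trace_zero, mul_zero]

private theorem nilKer_id : NilKer (RingHom.id ℚ) := by
  refine ⟨1, fun j => if j = 0 then ⊤ else ⊥, fun _ => ?_, fun x hx => ?_, fun j x y hx _ => ?_⟩
  · simp
  · simpa using hx
  · have : x = 0 := hx
    subst this
    simp

private theorem rk_eq_tr (x : K0 ℚ) :
    (K0.rk x : ℚ) = K0.tr (AddMonoidHom.id ℚ) (fun x y => mul_comm x y) x := by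
  rw [K0.tr_eq_rk (φ := RingHom.id ℚ) Function.surjective_id nilKer_id, K0.map_id]
  rfl

private theorem tr_push_artM {J : Type} [Fintype J] [DecidableEq J]
    (ρ : MonoidAlgebra ℚ F →ₐ[ℚ] Matrix J J ℚ) {I : Type} [Fintype I] (D : I → Subgroup F) :
    (K0.rk (K0.push (ρ : MonoidAlgebra ℚ F →+* Matrix J J ℚ) (K0.cls (artM D) (artM_idem D))) : ℚ) =
      ∑ i, artA (D i) (fun h => trace (ρ (MonoidAlgebra.single h 1))) := by
  rw [rk_eq_tr, K0.tr_push, K0.tr_cls]
  rw [artM, trace_diagonal, map_sum]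
  apply Finset.sum_congr rfl
  intro i _
  rw [← artE_trace]
  rfl

private theorem cls_artM_eq {I J : Type} [Fintype I] [Fintype J] (D : I → Subgroup F)
    (E : J → Subgroup F) (h : ∀ χ : F → ℚ, ∑ i, artA (D i) χ = ∑ j, artA (E j) χ) :
    K0.cls (artM D) (artM_idem D) = K0.cls (artM E) (artM_idem E) := by
  rw [← sub_eq_zero]
  apply K0.eq_zero_of_rk_push (k := ℚ)
  intro L _ _ ρ
  have h1 := tr_push_artM ρ D
  have h2 := tr_push_artM ρ E
  rw [map_sub, map_sub, sub_eq_zero]
  have h3 := h fun h => trace (ρ (MonoidAlgebra.single h 1))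
  rw [← h1, ← h2] at h3
  exact_mod_cast h3

private theorem artM_equiv {I J : Type} [Fintype I] [Fintype J] (D : I → Subgroup F)
    (E : J → Subgroup F) (h : ∀ χ : F → ℚ, ∑ i, artA (D i) χ = ∑ j, artA (E j) χ) :
    ∃ k : ℕ, MatEquiv (artM (Sum.elim D (fun _ : Fin k => ⊥)))
      (artM (Sum.elim E (fun _ : Fin k => ⊥))) := by
  obtain ⟨k, hk⟩ := Pool.Agent.H95.KM.exists_stab (artM D) (artM E) (artM_idem D) (artM_idem E)
    (cls_artM_eq D E h)
  refine ⟨k, ?_⟩
  have key : ∀ {I : Type} [Fintype I] (D : I → Subgroup F),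
      artM (Sum.elim D (fun _ : Fin k => ⊥)) =
        fromBlocks (artM D) 0 0 (1 : Matrix (Fin k) (Fin k) (MonoidAlgebra ℚ F)) := by
    intro I _ D
    ext a b : 1
    rcases a with a | a <;> rcases b with b | b
    · simp only [artM, diagonal_apply, fromBlocks_apply₁₁, Sum.inl.injEq, Sum.elim_inl]
    · simp only [artM, diagonal_apply, fromBlocks_apply₁₂, reduceCtorEq, if_false, Matrix.zero_apply]
    · simp only [artM, diagonal_apply, fromBlocks_apply₂₁, reduceCtorEq, if_false, Matrix.zero_apply]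
    · simp only [artM, diagonal_apply, fromBlocks_apply₂₂, Sum.inr.injEq, Sum.elim_inr, artE_bot,
        Matrix.one_apply]
  rw [key, key]
  exact hk

/-- Convolution data. -/
private theorem art_conv {I J : Type} [Fintype I] [Fintype J] (D : I → Subgroup F)
    (E : J → Subgroup F) (h : MatEquiv (artM D) (artM E)) :
    ∃ (u : I → J → F → ℚ) (v : J → I → F → ℚ),
      (∀ i j, ∀ d ∈ D i, ∀ e ∈ E j, ∀ t, u i j (d * t * e) = u i j t) ∧
      (∀ j i, ∀ e ∈ E j, ∀ d ∈ D i, ∀ t, v j i (e * t * d) = v j i t) ∧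
      (∀ i i' g, ∑ j, ∑ y : F, u i j y * v j i' (y⁻¹ * g) =
        if i = i' ∧ g ∈ D i then (Nat.card (D i) : ℚ)⁻¹ else 0) ∧
      (∀ j j' g, ∑ i, ∑ y : F, v j i y * u i j' (y⁻¹ * g) =
        if j = j' ∧ g ∈ E j then (Nat.card (E j) : ℚ)⁻¹ else 0) := by
  obtain ⟨x, y, hxy, hyx⟩ := h
  have inv : ∀ {I J : Type} [Fintype I] [Fintype J] (D : I → Subgroup F) (E : J → Subgroup F)
      (x : Matrix I J (MonoidAlgebra ℚ F)) (i : I) (j : J), ∀ d ∈ D i, ∀ e ∈ E j, ∀ t,
      ((artM D * x * artM E) i j).coeff (d * t * e) = ((artM D * x * artM E) i j).coeff t := by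
    intro I J _ _ D E x i j d hd e he t
    have h1 : (artM D * x * artM E) i j = artE (D i) * x i j * artE (E j) := by
      rw [artM, artM, mul_diagonal, diagonal_mul]
    rw [h1]
    have h2 : artE (D i) * x i j * artE (E j) =
        MonoidAlgebra.single d⁻¹ (1 : ℚ) * (artE (D i) * x i j * artE (E j)) *
          MonoidAlgebra.single e⁻¹ (1 : ℚ) := by
      calc artE (D i) * x i j * artE (E j)
          = (MonoidAlgebra.single d⁻¹ (1 : ℚ) * artE (D i)) * x i j *
            (artE (E j) * MonoidAlgebra.single e⁻¹ (1 : ℚ)) := by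
            rw [artE_mul_single _ _ ((E j).inv_mem he), single_mul_artE _ _ ((D i).inv_mem hd)]
        _ = _ := by simp only [mul_assoc]
    conv_rhs => rw [h2]
    rw [MonoidAlgebra.coeff_mul_single_apply, MonoidAlgebra.coeff_single_mul_apply, mul_one,
      one_mul, inv_inv, inv_inv, ← mul_assoc]
  have prod : ∀ {I J : Type} [Fintype I] [Fintype J] (D : I → Subgroup F) (E : J → Subgroup F)
      (x : Matrix I J (MonoidAlgebra ℚ F)) (y : Matrix J I (MonoidAlgebra ℚ F)),
      x * y = artM D → y * x = artM E →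
      (artM D * x * artM E) * (artM E * y * artM D) = artM D := by
    intro I J _ _ D E x y hxy hyx
    have hE := artM_idem E
    calc (artM D * x * artM E) * (artM E * y * artM D)
        = artM D * x * (artM E * artM E) * y * artM D := by simp only [Matrix.mul_assoc]
      _ = artM D * x * (y * x) * y * artM D := by rw [hE, hyx]
      _ = artM D * (x * y) * (x * y) * artM D := by simp only [Matrix.mul_assoc]
      _ = artM D := by rw [hxy, artM_idem, artM_idem, artM_idem]
  have coef : ∀ {I J : Type} [Fintype I] [Fintype J] (D : I → Subgroup F)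
      (x : Matrix I J (MonoidAlgebra ℚ F)) (y : Matrix J I (MonoidAlgebra ℚ F)),
      x * y = artM D → ∀ i i' g, ∑ j, ∑ z : F, (x i j).coeff z * (y j i').coeff (z⁻¹ * g) =
        if i = i' ∧ g ∈ D i then (Nat.card (D i) : ℚ)⁻¹ else 0 := by
    intro I J _ _ D x y hxy i i' g
    have h1 : ∀ j, ∑ z : F, (x i j).coeff z * (y j i').coeff (z⁻¹ * g) =
        (x i j * y j i').coeff g := by
      intro j
      rw [MonoidAlgebra.coeff_mul_apply_left, Finsupp.sum_fintype]
      intro z
      rw [zero_mul]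
    simp only [h1]
    rw [← Finsupp.finsetSum_apply, ← MonoidAlgebra.coeff_sum, ← Matrix.mul_apply, hxy, artM,
      diagonal_apply]
    by_cases hi : i = i'
    · subst hi
      rw [if_pos rfl, artE_coeff]
      simp
    · rw [if_neg hi, if_neg (fun hh => hi hh.1)]
      rfl
  refine ⟨fun i j t => ((artM D * x * artM E) i j).coeff t,
    fun j i t => ((artM E * y * artM D) j i).coeff t, ?_, ?_, ?_, ?_⟩
  · exact fun i j d hd e he t => inv D E x i j d hd e he t
  · exact fun j i e he d hd t => inv E D y j i e he d hd t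
  · exact coef D _ _ (prod D E x y hxy hyx)
  · exact coef E _ _ (prod E D y x hyx hxy)

/-- The matrix of a family of functions on the group. -/
private noncomputable def artN {I J : Type} (D : I → Subgroup F) (E : J → Subgroup F)
    (u : I → J → F → ℚ) : Matrix (Σ i, F ⧸ D i) (Σ j, F ⧸ E j) ℚ :=
  Matrix.of fun x y => (Nat.card (E y.1) : ℚ) * u x.1 y.1 (x.2.out⁻¹ * y.2.out)

private theorem artN_mul {I J : Type} [Fintype I] [Fintype J] (D : I → Subgroup F)
    (E : J → Subgroup F) [Fintype (Σ i, F ⧸ D i)] [Fintype (Σ j, F ⧸ E j)]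
    (u : I → J → F → ℚ) (v : J → I → F → ℚ)
    (hu : ∀ i j, ∀ e ∈ E j, ∀ t, u i j (t * e) = u i j t)
    (hv : ∀ j i, ∀ e ∈ E j, ∀ t, v j i (e * t) = v j i t)
    (huv : ∀ i i' g, ∑ j, ∑ y : F, u i j y * v j i' (y⁻¹ * g) =
        if i = i' ∧ g ∈ D i then (Nat.card (D i) : ℚ)⁻¹ else 0) :
    artN D E u * artN E D v = 1 := by
  ext ⟨i, q⟩ ⟨i', q'⟩
  rw [Matrix.mul_apply]
  have e0 : ∀ f : (Σ j, F ⧸ E j) → ℚ, ∑ x, f x = ∑ j, ∑ r : F ⧸ E j, f ⟨j, r⟩ := by
    intro f
    have h1 := Fintype.sum_sigma f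
    rw [← h1]
    exact Finset.sum_congr (by ext; simp) (fun _ _ => rfl)
  rw [e0]
  have e1 : ∀ j, ∑ r : F ⧸ E j, artN D E u ⟨i, q⟩ ⟨j, r⟩ * artN E D v ⟨j, r⟩ ⟨i', q'⟩ =
      (Nat.card (D i') : ℚ) * ∑ y : F, u i j y * v j i' (y⁻¹ * (q.out⁻¹ * q'.out)) := by
    intro j
    have h1 : ∑ y : F, u i j y * v j i' (y⁻¹ * (q.out⁻¹ * q'.out)) =
        ∑ y : F, u i j (q.out⁻¹ * y) * v j i' (y⁻¹ * q'.out) := by
      rw [← Equiv.sum_comp (Equiv.mulLeft q.out⁻¹)
        (fun y => u i j y * v j i' (y⁻¹ * (q.out⁻¹ * q'.out)))]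
      apply Finset.sum_congr rfl
      intro y _
      simp only [Equiv.coe_mulLeft]
      congr 2
      group
    rw [h1, sum_out (E j) (fun y => u i j (q.out⁻¹ * y) * v j i' (y⁻¹ * q'.out))]
    · rw [nsmul_eq_mul, Finset.mul_sum, Finset.mul_sum]
      apply Finset.sum_congr rfl
      intro r _
      simp only [artN, of_apply]
      ring
    · intro y d hd
      rw [← mul_assoc, hu i j d hd, _root_.mul_inv_rev, mul_assoc, hv j i' d⁻¹ ((E j).inv_mem hd)]
  simp only [e1]
  rw [← Finset.mul_sum, huv, Matrix.one_apply]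
  by_cases hi : i = i'
  · subst hi
    have h2 : q.out⁻¹ * q'.out ∈ D i ↔ q = q' := by
      rw [← QuotientGroup.eq, QuotientGroup.out_eq', QuotientGroup.out_eq']
    by_cases hq : q = q'
    · rw [if_pos ⟨rfl, h2.2 hq⟩, if_pos (by rw [hq]), mul_inv_cancel₀]
      exact_mod_cast Nat.card_pos.ne'
    · rw [if_neg (fun hh => hq (h2.1 hh.2)), if_neg, mul_zero]
      intro hh
      apply hq
      simpa using hh
  · rw [if_neg (fun hh => hi hh.1), if_neg, mul_zero]
    intro hh
    exact hi (congrArg Sigma.fst hh)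

omit [Fintype F] in
private theorem out_smul (D : Subgroup F) (h : F) (q : F ⧸ D) :
    ∃ d ∈ D, (h • q).out = h * q.out * d := by
  obtain ⟨d, hd⟩ := QuotientGroup.mk_out_eq_mul D (h * q.out)
  refine ⟨d, d.2, ?_⟩
  rw [← hd]
  congr 1
  conv_lhs => rw [← QuotientGroup.out_eq' q]
  rfl

omit [Fintype F] in
private theorem artN_smul {I J : Type} (D : I → Subgroup F) (E : J → Subgroup F)
    (u : I → J → F → ℚ)
    (hu : ∀ i j, ∀ d ∈ D i, ∀ e ∈ E j, ∀ t, u i j (d * t * e) = u i j t) (h : F) (x y) :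
    artN D E u (h • x) (h • y) = artN D E u x y := by
  obtain ⟨i, q⟩ := x
  obtain ⟨j, r⟩ := y
  obtain ⟨d, hd, hd'⟩ := out_smul (D i) h q
  obtain ⟨e, he, he'⟩ := out_smul (E j) h r
  change (Nat.card (E j) : ℚ) * u i j ((h • q).out⁻¹ * (h • r).out) =
    (Nat.card (E j) : ℚ) * u i j (q.out⁻¹ * r.out)
  rw [hd', he']
  congr 1
  have : (h * q.out * d)⁻¹ * (h * r.out * e) = d⁻¹ * (q.out⁻¹ * r.out) * e := by group
  rw [this]
  exact hu i j d⁻¹ ((D i).inv_mem hd) e he _

/-- Clearing denominators. -/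
private theorem art_clear {m n : Type*} [Fintype m] [Fintype n] (A : Matrix m n ℚ) :
    ∃ (d : ℕ) (a : Matrix m n ℤ), d ≠ 0 ∧ ∀ x y, (a x y : ℚ) = d * A x y := by
  refine ⟨∏ p : m × n, (A p.1 p.2).den, Matrix.of fun x y =>
    ((∏ p : m × n, (A p.1 p.2).den) / (A x y).den : ℕ) * (A x y).num, ?_, ?_⟩
  · rw [Finset.prod_ne_zero_iff]
    exact fun p _ => (A p.1 p.2).den_ne_zero
  · intro x y
    have hdvd : (A x y).den ∣ ∏ p : m × n, (A p.1 p.2).den :=
      Finset.dvd_prod_of_mem (fun p : m × n => (A p.1 p.2).den) (Finset.mem_univ (x, y))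
    obtain ⟨c, hc⟩ := hdvd
    rw [Matrix.of_apply, hc, Nat.mul_div_cancel_left _ (A x y).den_pos]
    push_cast
    have h1 : ((A x y).num : ℚ) = A x y * (A x y).den := (Rat.mul_den_eq_num _).symm
    rw [h1]
    ring

private theorem art_int {I J : Type} [Fintype I] [Fintype J] (D : I → Subgroup F)
    (E : J → Subgroup F) [Fintype (Σ i, F ⧸ D i)] [Fintype (Σ j, F ⧸ E j)]
    (h : MatEquiv (artM D) (artM E)) :
    ∃ (a : Matrix (Σ i, F ⧸ D i) (Σ j, F ⧸ E j) ℤ) (b : Matrix (Σ j, F ⧸ E j) (Σ i, F ⧸ D i) ℤ)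
      (n : ℕ), n ≠ 0 ∧ a * b = (n : ℤ) • 1 ∧ b * a = (n : ℤ) • 1 ∧
        ∀ (h : F) x y, a (h • x) (h • y) = a x y := by
  obtain ⟨u, v, hu, hv, huv, hvu⟩ := art_conv D E h
  have hAB : artN D E u * artN E D v = 1 := artN_mul D E u v
    (fun i j e he t => by simpa using hu i j 1 (D i).one_mem e he t)
    (fun j i e he t => by simpa using hv j i e he 1 (D i).one_mem t) huv
  have hBA : artN E D v * artN D E u = 1 := artN_mul E D v u
    (fun j i d hd t => by simpa using hv j i 1 (E j).one_mem d hd t)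
    (fun i j d hd t => by simpa using hu i j d hd 1 (E j).one_mem t) hvu
  obtain ⟨d, a, hd, ha⟩ := art_clear (artN D E u)
  obtain ⟨e, b, he, hb⟩ := art_clear (artN E D v)
  have ha' : a.map (Int.cast : ℤ → ℚ) = (d : ℚ) • artN D E u := by
    ext x y
    rw [Matrix.map_apply, ha, Matrix.smul_apply, smul_eq_mul]
  have hb' : b.map (Int.cast : ℤ → ℚ) = (e : ℚ) • artN E D v := by
    ext x y
    rw [Matrix.map_apply, hb, Matrix.smul_apply, smul_eq_mul]
  have inj : ∀ {m : Type v} [Fintype m] [DecidableEq m] (c : Matrix m m ℤ),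
      c.map (Int.cast : ℤ → ℚ) = ((d * e : ℕ) : ℚ) • 1 → c = ((d * e : ℕ) : ℤ) • 1 := by
    intro m _ _ c hc
    ext x y
    have h1 := congrFun (congrFun hc x) y
    rw [Matrix.map_apply, Matrix.smul_apply, smul_eq_mul] at h1
    rw [Matrix.smul_apply, smul_eq_mul]
    have h2 : ((c x y : ℤ) : ℚ) = ((((d * e : ℕ) : ℤ) * (1 : Matrix m m ℤ) x y : ℤ) : ℚ) := by
      rw [h1]
      push_cast
      congr 1
      rw [Matrix.one_apply, Matrix.one_apply]
      split_ifs <;> simp
    exact_mod_cast h2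
  refine ⟨a, b, d * e, Nat.mul_ne_zero hd he, ?_, ?_, ?_⟩
  · apply inj
    have : (a * b).map (Int.cast : ℤ → ℚ) = a.map (Int.cast : ℤ → ℚ) * b.map (Int.cast : ℤ → ℚ) :=
      Matrix.map_mul (f := Int.castRingHom ℚ)
    rw [this, ha', hb', Matrix.smul_mul, Matrix.mul_smul, hAB, smul_smul]
    push_cast
    rfl
  · apply inj
    have : (b * a).map (Int.cast : ℤ → ℚ) = b.map (Int.cast : ℤ → ℚ) * a.map (Int.cast : ℤ → ℚ) :=
      Matrix.map_mul (f := Int.castRingHom ℚ)
    rw [this, ha', hb', Matrix.smul_mul, Matrix.mul_smul, hBA, smul_smul]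
    push_cast
    rw [mul_comm (e : ℚ)]
  · intro g x y
    have h1 := artN_smul D E u hu g x y
    have h2 : ((a (g • x) (g • y) : ℤ) : ℚ) = ((a x y : ℤ) : ℚ) := by
      rw [ha, ha, h1]
    exact_mod_cast h2

end ArtRelAlg

private theorem art_count (F : Type v) [Group F] [Fintype F] :
    ∃ (I J : Type) (_ : Fintype I) (_ : Fintype J) (D : I → Subgroup F) (E : J → Subgroup F),
      (∀ i, IsCyclic (D i)) ∧ (∀ j, IsCyclic (E j)) ∧
      ∀ χ : F → ℚ, ∑ h, χ h + ∑ i, artA (D i) χ = ∑ j, artA (E j) χ := by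
  let s : Finset (Subgroup F) := Finset.univ.filter fun D => IsCyclic D
  obtain ⟨ν, hν⟩ := exists_nu s (fun _ => 1)
  let t : Fin s.card ≃ s := s.equivFin.symm
  have hcyc : ∀ k : Fin s.card, IsCyclic (t k : Subgroup F) := fun k =>
    (Finset.mem_filter.1 (t k).2).2
  let c : Subgroup F → ℤ := fun D => ν D * Nat.card D
  refine ⟨Σ k : Fin s.card, Fin (-(c (t k))).toNat, Σ k : Fin s.card, Fin (c (t k)).toNat,
    inferInstance, inferInstance, fun x => t x.1, fun x => t x.1, fun x => hcyc x.1,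
    fun x => hcyc x.1, ?_⟩
  intro χ
  have h1 : ∀ n : Fin s.card → ℕ, ∑ x : (Σ k : Fin s.card, Fin (n k)),
      artA (t x.1 : Subgroup F) χ = ∑ k, (n k : ℚ) * artA (t k : Subgroup F) χ := by
    intro n
    rw [Fintype.sum_sigma]
    apply Finset.sum_congr rfl
    intro k _
    change ∑ _y : Fin (n k), artA (t k : Subgroup F) χ = _
    rw [Finset.sum_const, Finset.card_univ, Fintype.card_fin, nsmul_eq_mul]
  rw [h1, h1]
  have h2 : ∑ h, χ h = ∑ k, (c (t k) : ℚ) * artA (t k : Subgroup F) χ := by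
    rw [Equiv.sum_comp t (fun D : s => (c D : ℚ) * artA (D : Subgroup F) χ),
      Finset.sum_coe_sort s (fun D => (c D : ℚ) * artA D χ)]
    have h3 : ∀ D ∈ s, (c D : ℚ) * artA D χ = ∑ h : F, if h ∈ D then (ν D : ℚ) * χ h else 0 := by
      intro D _
      have h4 : (Nat.card D : ℚ) ≠ 0 := by exact_mod_cast Nat.card_pos.ne'
      simp only [c, artA]
      push_cast
      rw [mul_assoc, ← mul_assoc (Nat.card D : ℚ), mul_inv_cancel₀ h4, one_mul, Finset.mul_sum]
      apply Finset.sum_congr rfl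
      intro h _
      split_ifs <;> simp
    rw [Finset.sum_congr rfl h3, Finset.sum_comm]
    apply Finset.sum_congr rfl
    intro h _
    rw [← Finset.sum_filter, ← Finset.sum_mul]
    have h5 : Subgroup.zpowers h ∈ s := Finset.mem_filter.2 ⟨Finset.mem_univ _, inferInstance⟩
    have h6 := hν _ h5
    have h7 : s.filter (fun D => Subgroup.zpowers h ≤ D) = s.filter (fun D => h ∈ D) := by
      ext D
      simp only [Finset.mem_filter, Subgroup.zpowers_le]
    rw [h7] at h6
    have h8 : (∑ D ∈ s.filter (fun D => h ∈ D), (ν D : ℚ)) = 1 := by exact_mod_cast h6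
    rw [h8, one_mul]
  rw [h2, ← Finset.sum_add_distrib]
  apply Finset.sum_congr rfl
  intro k _
  rw [← add_mul]
  congr 1
  have h9 : (c (t k) : ℤ) + ((-(c (t k))).toNat : ℤ) = ((c (t k)).toNat : ℤ) := by omega
  exact_mod_cast h9

private theorem smul_one_inst {m : Type v} (i1 i2 : DecidableEq m) (n : ℤ) :
    n • (@OfNat.ofNat (Matrix m m ℤ) 1 (@One.toOfNat1 _ (@Matrix.one m ℤ i1 _ _))) =
      n • (@OfNat.ofNat (Matrix m m ℤ) 1 (@One.toOfNat1 _ (@Matrix.one m ℤ i2 _ _))) := by
  rw [Subsingleton.elim i1 i2]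

theorem exists_artin_rel (F : Type v) [Group F] [Finite F] :
    ∃ (I J : Type) (_ : Fintype I) (_ : Fintype J) (D : I → Subgroup F) (E : J → Subgroup F)
      (_ : Fintype (Σ i : Fin (Nat.card F) ⊕ I, F ⧸ (Sum.elim (fun _ => ⊤) D i : Subgroup F)))
      (_ : Fintype (Σ j, F ⧸ E j))
      (a : Matrix (Σ i : Fin (Nat.card F) ⊕ I, F ⧸ (Sum.elim (fun _ => ⊤) D i : Subgroup F))
        (Σ j, F ⧸ E j) ℤ)
      (b : Matrix (Σ j, F ⧸ E j)
        (Σ i : Fin (Nat.card F) ⊕ I, F ⧸ (Sum.elim (fun _ => ⊤) D i : Subgroup F)) ℤ) (n : ℕ),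
      (∀ i, IsCyclic (D i)) ∧ (∀ j, IsCyclic (E j)) ∧ n ≠ 0 ∧
        a * b = (n : ℤ) • 1 ∧ b * a = (n : ℤ) • 1 ∧
        ∀ (h : F) x y, a (h • x) (h • y) = a x y := by
  have : Fintype F := Fintype.ofFinite F
  obtain ⟨I, J, _, _, D, E, hD, hE, hsum⟩ := art_count F
  have h1 : ∀ χ : F → ℚ, ∑ i : Fin (Nat.card F) ⊕ I,
      artA (Sum.elim (fun _ => ⊤) D i : Subgroup F) χ = ∑ j, artA (E j) χ := by
    intro χ
    rw [← hsum, Fintype.sum_sum_type]
    congr 1
    simp only [Sum.elim_inl]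
    rw [Finset.sum_const, Finset.card_univ, Fintype.card_fin, nsmul_eq_mul, artA, ← mul_assoc]
    have h2 : Nat.card (⊤ : Subgroup F) = Nat.card F := Subgroup.card_top
    have h3 : (Nat.card F : ℚ) ≠ 0 := by exact_mod_cast Nat.card_pos.ne'
    rw [h2, mul_inv_cancel₀ h3, one_mul]
    simp
  obtain ⟨k, hk⟩ := artM_equiv _ E h1
  have hk' : MatEquiv (artM (Sum.elim (fun _ : Fin (Nat.card F) => (⊤ : Subgroup F))
      (Sum.elim D (fun _ : Fin k => ⊥)))) (artM (Sum.elim E (fun _ : Fin k => ⊥))) := by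
    refine K0.matEquiv_trans (artM_idem _) (artM_idem _) ?_ hk
    have h4 : artM (Sum.elim (Sum.elim (fun _ : Fin (Nat.card F) => (⊤ : Subgroup F)) D)
        (fun _ : Fin k => ⊥)) = (artM (Sum.elim (fun _ : Fin (Nat.card F) => (⊤ : Subgroup F))
      (Sum.elim D (fun _ : Fin k => ⊥)))).submatrix (Equiv.sumAssoc _ _ _)
        (Equiv.sumAssoc _ _ _) := by
      ext x y : 1
      rcases x with (x | x) | x <;> rcases y with (y | y) | y <;>
        simp [artM, diagonal_apply]
    rw [h4]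
    exact K0.matEquiv_symm (K0.matEquiv_submatrix _ (artM_idem _) _)
  have f1 : Finite (Σ i : Fin (Nat.card F) ⊕ (I ⊕ Fin k), F ⧸ (Sum.elim (fun _ => ⊤)
      (Sum.elim D (fun _ : Fin k => ⊥)) i : Subgroup F)) := inferInstance
  have f2 : Finite (Σ j, F ⧸ (Sum.elim E (fun _ : Fin k => ⊥) j : Subgroup F)) := inferInstance
  let i1 := Fintype.ofFinite (Σ i : Fin (Nat.card F) ⊕ (I ⊕ Fin k), F ⧸ (Sum.elim (fun _ => ⊤)
      (Sum.elim D (fun _ : Fin k => ⊥)) i : Subgroup F))
  let i2 := Fintype.ofFinite (Σ j, F ⧸ (Sum.elim E (fun _ : Fin k => ⊥) j : Subgroup F))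
  obtain ⟨a, b, n, hn, hab, hba, heq⟩ := art_int _ _ hk'
  refine ⟨I ⊕ Fin k, J ⊕ Fin k, inferInstance, inferInstance, Sum.elim D (fun _ : Fin k => ⊥),
    Sum.elim E (fun _ : Fin k => ⊥), i1, i2, a, b, n, ?_, ?_, hn, ?_, ?_, heq⟩
  · rintro (i | i)
    · exact hD i
    · change IsCyclic (⊥ : Subgroup F)
      infer_instance
  · rintro (j | j)
    · exact hE j
    · change IsCyclic (⊥ : Subgroup F)
      infer_instance
  · exact hab.trans (smul_one_inst _ _ _)
  · exact hba.trans (smul_one_inst _ _ _)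

end Pool.Agent.H95.WH

end

section

/-!
# Artin induction for `K₁(R[F]) ⊗ ℚ`

`R` is a commutative ring such that `R/nR` is finite for all `n ≥ 1`.
-/

set_option autoImplicit false

open Matrix
open scoped Classical

universe u v w

namespace Pool.Agent.H95.WH

open Pool.Agent.H71.FJ (lamR twR incl)
open Pool.Agent.H71.FJ (tw tw_single)

variable (R : Type u) [CommRing R] (F : Type v) [Group F]

/-- the relation for the permutation modules -/
private theorem art_rel [Finite F] (hint : InterP R F)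
    (x : K1 (MonoidAlgebra R F)) :
    ∃ (I J : Type) (_ : Fintype I) (_ : Fintype J) (D : I → Subgroup F) (E : J → Subgroup F)
      (_ : ∀ i, Fintype (F ⧸ D i)) (_ : ∀ j, Fintype (F ⧸ E j)) (m : ℕ),
      (∀ i, IsCyclic (D i)) ∧ (∀ j, IsCyclic (E j)) ∧ 0 < m ∧
      m • (Nat.card F • x + ∑ i : I, K1.push (twR R (F ⧸ D i)) x) =
        m • ∑ j : J, K1.push (twR R (F ⧸ E j)) x := by
  obtain ⟨I, J, hI, hJ, D, E, hf1, hf2, a, b, n, hD, hE, hn, hab, hba, ha⟩ := exists_artin_rel F
  have hfD : ∀ H : Subgroup F, Fintype (F ⧸ H) := fun H => Fintype.ofFinite _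
  obtain ⟨m, hm, key⟩ := hint n hn a b hab hba ha x
  refine ⟨I, J, hI, hJ, D, E, fun _ => hfD _, fun _ => hfD _, m, hD, hE, hm, ?_⟩
  rw [push_tw_sigmaR R (fun i : Fin (Nat.card F) ⊕ I => (Sum.elim (fun _ => ⊤) D i : Subgroup F)),
    push_tw_sigmaR R E, Fintype.sum_sum_type] at key
  have h1 : ∑ i : Fin (Nat.card F), K1.push (twR R (F ⧸ (⊤ : Subgroup F))) x = Nat.card F • x := by
    rw [Finset.sum_const, Finset.card_univ, Fintype.card_fin, push_tw_topR]
  rw [← h1]
  exact key

theorem artin_K1_of_inter [Finite F] (hint : InterP R F)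
    (x : K1 (MonoidAlgebra R F)) :
    ∃ (m r : ℕ) (D : Fin r → Subgroup F) (y : ∀ i, K1 (MonoidAlgebra R (D i))),
      0 < m ∧ (∀ i, IsCyclic (D i)) ∧ m • x = ∑ i, K1.map (incl R (D i)) (y i) := by
  obtain ⟨I, J, hI, hJ, D, E, hfD, hfE, m, hD, hE, hm, key⟩ := art_rel R F hint x
  obtain ⟨r, DD, y, h1, h2⟩ := art_enum R F (K := J ⊕ I) (Sum.elim E D)
    (fun i => match i with
      | Sum.inl j => m • K1.push (lamR R (E j)) x
      | Sum.inr i => -(m • K1.push (lamR R (D i)) x))
    (by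
      rintro (i | i)
      · exact hE i
      · exact hD i) ((m * Nat.card F) • x) (by
      rw [Fintype.sum_sum_type]
      have h4 : ∀ j : J, K1.map (incl R (E j)) (m • K1.push (lamR R (E j)) x) =
          m • K1.push (twR R (F ⧸ E j)) x := by
        intro j
        rw [map_nsmul, ind_res1R]
      have h5 : ∀ j : I, K1.map (incl R (D j)) (-(m • K1.push (lamR R (D j)) x)) =
          -(m • K1.push (twR R (F ⧸ D j)) x) := by
        intro j
        rw [map_neg, map_nsmul, ind_res1R]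
      refine Eq.trans ?_ (congrArg₂ (· + ·) (Finset.sum_congr rfl (fun j _ => (h4 j).symm))
        (Finset.sum_congr rfl (fun j _ => (h5 j).symm)))
      rw [Finset.sum_neg_distrib, ← Finset.smul_sum, ← Finset.smul_sum, ← key, smul_add, mul_smul]
      abel)
  exact ⟨m * Nat.card F, r, DD, y, Nat.mul_pos hm Nat.card_pos, h1, h2⟩

theorem artin_K1_of_pow [Finite F] (hpow : PowMod (MonoidAlgebra R F))
    (x : K1 (MonoidAlgebra R F)) :
    ∃ (m r : ℕ) (D : Fin r → Subgroup F) (y : ∀ i, K1 (MonoidAlgebra R (D i))),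
      0 < m ∧ (∀ i, IsCyclic (D i)) ∧ m • x = ∑ i, K1.map (incl R (D i)) (y i) :=
  artin_K1_of_inter R F
    (fun n hn a b hab hba ha x => inter_tw R F hpow n hn a b hab hba ha x) x

/-- **Artin induction** for `K₁(R[F]) ⊗ ℚ`, `R` commutative, `R/nR` finite for all `n ≥ 1`. -/
theorem artin_K1R [Finite F] (hR : ∀ n : ℕ, n ≠ 0 → Finite (R ⧸ Ideal.span {(n : R)}))
    (x : K1 (MonoidAlgebra R F)) :
    ∃ (m r : ℕ) (D : Fin r → Subgroup F) (y : ∀ i, K1 (MonoidAlgebra R (D i))),
      0 < m ∧ (∀ i, IsCyclic (D i)) ∧ m • x = ∑ i, K1.map (incl R (D i)) (y i) :=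
  artin_K1_of_pow R F (powMod_of_finite R F hR) x

/-- The case of a field of characteristic zero. -/
theorem artin_K1_field (k : Type u) [Field k] [CharZero k] [Finite F]
    (x : K1 (MonoidAlgebra k F)) :
    ∃ (m r : ℕ) (D : Fin r → Subgroup F) (y : ∀ i, K1 (MonoidAlgebra k (D i))),
      0 < m ∧ (∀ i, IsCyclic (D i)) ∧ m • x = ∑ i, K1.map (incl k (D i)) (y i) := by
  apply artin_K1R k F
  intro n hn
  have h : Ideal.span {(n : k)} = ⊤ := by
    rw [Ideal.span_singleton_eq_top]
    exact (Nat.cast_ne_zero.2 hn).isUnit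
  rw [h]
  have : Subsingleton (k ⧸ (⊤ : Ideal k)) := Ideal.Quotient.subsingleton_iff.2 rfl
  infer_instance

end Pool.Agent.H95.WH

end

section

/-!
# Artin induction for `K₁(k[F]) ⊗ ℚ`, `k` a commutative ring of characteristic `p`
-/

set_option autoImplicit false

open Matrix

universe u v w

namespace Pool.Agent.H95.WH

open Pool.Agent.H71.FJ (lamR twR incl)
open Pool.Agent.H71.FJ (tw tw_single)

section Conj

variable {R : Type u} [Ring R] {S : Type v} [Ring S] {J J' : Type*} [Fintype J] [DecidableEq J]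
  [Fintype J'] [DecidableEq J']

/-- The conjugate of a homomorphism to a matrix ring. -/
def conjRep (φ : R →+* Matrix J J S) (P : Matrix J J' S) (P' : Matrix J' J S) (h1 : P * P' = 1)
    (h2 : P' * P = 1) : R →+* Matrix J' J' S where
  toFun r := P' * φ r * P
  map_one' := by rw [map_one, Matrix.mul_one, h2]
  map_mul' r s := by
    have e : P' * φ r * P * (P' * φ s * P) = P' * φ r * (P * P') * φ s * P := by
      simp only [Matrix.mul_assoc]
    rw [e, h1, Matrix.mul_one, map_mul, ← Matrix.mul_assoc]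
  map_zero' := by rw [map_zero, Matrix.mul_zero, Matrix.zero_mul]
  map_add' r s := by rw [map_add, Matrix.mul_add, Matrix.add_mul]

theorem conjRep_apply (φ : R →+* Matrix J J S) (P : Matrix J J' S) (P' : Matrix J' J S)
    (h1 : P * P' = 1) (h2 : P' * P = 1) (r : R) :
    conjRep φ P P' h1 h2 r = P' * φ r * P := rfl

theorem push_conjRep (φ : R →+* Matrix J J S) (P : Matrix J J' S) (P' : Matrix J' J S)
    (h1 : P * P' = 1) (h2 : P' * P = 1) (x : K1 R) :
    K1.push (conjRep φ P P' h1 h2) x = K1.push φ x := by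
  symm
  apply K1.push_congr φ _ P P' h1 h2
  intro r
  rw [conjRep_apply, Matrix.mul_assoc P', ← Matrix.mul_assoc P, h1, Matrix.one_mul]

theorem push_eq_of_tri (φ ψ : R →+* Matrix J J S) (v : J → ℕ)
    (h1 : ∀ r i j, v j < v i → φ r i j = 0) (h2 : ∀ r i j, v i < v j → ψ r i j = 0)
    (h3 : ∀ r i j, v i = v j → φ r i j = ψ r i j) (x : K1 R) : K1.push φ x = K1.push ψ x := by
  have key : K1.push φ = K1.push ψ := by
    apply K1.hom_ext
    intro n U
    rw [K1.push_mk, K1.push_mk]
    exact cls_tri (fun q : Fin n × J => v q.2) (flatU φ U) (flatU ψ U)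
      (fun i j h => h1 _ _ _ h) (fun i j h => h1 _ _ _ h)
      (fun i j h => h2 _ _ _ h) (fun i j h => h2 _ _ _ h)
      (fun i j h => h3 _ _ _ h)
  rw [key]

end Conj

variable (k : Type u) [CommRing k] (F : Type v) [Group F]

/-- The integral permutation matrices. -/
private def permZ (X : Type v) [DecidableEq X] [MulAction F X] (h : F) : Matrix X X ℤ :=
  Matrix.of fun x y => if x = h • y then 1 else 0

private theorem permZ_apply (X : Type v) [DecidableEq X] [MulAction F X] (h : F) (x y : X) :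
    permZ F X h x y = if x = h • y then 1 else 0 := rfl

private theorem permZ_inter {X Y : Type v} [Fintype X] [Fintype Y] [DecidableEq X] [DecidableEq Y]
    [MulAction F X] [MulAction F Y] (a : Matrix X Y ℤ)
    (ha : ∀ (h : F) x y, a (h • x) (h • y) = a x y) (h : F) :
    permZ F X h * a = a * permZ F Y h := by
  ext x y
  rw [Matrix.mul_apply, Matrix.mul_apply, Finset.sum_eq_single (h⁻¹ • x),
    Finset.sum_eq_single (h • y)]
  · rw [permZ_apply, permZ_apply, if_pos rfl, if_pos (smul_inv_smul h x).symm,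
      ← ha h (h⁻¹ • x) y, smul_inv_smul, one_mul, mul_one]
  · intro z _ hz
    rw [permZ_apply, if_neg hz, mul_zero]
  · intro hz
    exact absurd (Finset.mem_univ _) hz
  · intro z _ hz
    rw [permZ_apply, if_neg, zero_mul]
    intro e
    exact hz (by rw [e, inv_smul_smul])
  · intro hz
    exact absurd (Finset.mem_univ _) hz

private theorem tw_eq (X : Type v) [Fintype X] [DecidableEq X] [MulAction F X] (h : F) (s : k) :
    twR k X (MonoidAlgebra.single h s) =
      (permZ F X h).map (fun z : ℤ => ((z : MonoidAlgebra k F) * MonoidAlgebra.single h s)) := by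
  refine Matrix.ext fun x y => ?_
  have e1 : twR k X (MonoidAlgebra.single h s) x y =
      if x = h • y then MonoidAlgebra.single h s else 0 := tw_single k X h s x y
  rw [e1, Matrix.map_apply, permZ_apply]
  split_ifs
  · rw [Int.cast_one, one_mul]
  · rw [Int.cast_zero, zero_mul]

private theorem conj_tw {X Y : Type v} [Fintype X] [Fintype Y] [DecidableEq X] [DecidableEq Y]
    [MulAction F X] (P : Matrix X Y ℤ) (P' : Matrix Y X ℤ) (h : F) (s : k) (i j : Y) :
    (P'.map (Int.castRingHom (MonoidAlgebra k F)) * twR k X (MonoidAlgebra.single h s) *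
      P.map (Int.castRingHom (MonoidAlgebra k F))) i j =
      (((P' * permZ F X h * P) i j : ℤ) : MonoidAlgebra k F) * MonoidAlgebra.single h s := by
  rw [tw_eq]
  simp only [Matrix.mul_apply, Matrix.map_apply, eq_intCast, Int.cast_sum, Int.cast_mul,
    Finset.sum_mul]
  refine Finset.sum_congr rfl fun y _ => Finset.sum_congr rfl fun x _ => ?_
  rw [← mul_assoc, mul_assoc _ (MonoidAlgebra.single h s) _,
    ← (Int.cast_commute (P y j) (MonoidAlgebra.single h s)).eq, ← mul_assoc]

variable (p : ℕ) [Fact p.Prime] [CharP k p]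

private theorem cast_zero_of_dvd (z : ℤ) (hz : (p : ℤ) ∣ z) : (z : MonoidAlgebra k F) = 0 := by
  obtain ⟨y, rfl⟩ := hz
  have h1 : ((p : ℕ) : MonoidAlgebra k F) = 0 := by
    have h2 : ((p : ℕ) : MonoidAlgebra k F) = algebraMap k (MonoidAlgebra k F) (p : k) := by
      rw [map_natCast]
    rw [h2, CharP.cast_eq_zero, map_zero]
  rw [Int.cast_mul, Int.cast_natCast, h1, zero_mul]

include p in
theorem inter_p {X Y : Type v} [Fintype X] [Fintype Y] [DecidableEq X] [DecidableEq Y]
    [MulAction F X] [MulAction F Y] (n : ℕ) (hn : n ≠ 0) (a : Matrix X Y ℤ) (b : Matrix Y X ℤ)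
    (hab : a * b = (n : ℤ) • (1 : Matrix X X ℤ)) (hba : b * a = (n : ℤ) • (1 : Matrix Y Y ℤ))
    (ha : ∀ (h : F) x y, a (h • x) (h • y) = a x y) (x : K1 (MonoidAlgebra k F)) :
    K1.push (twR k X) x = K1.push (twR k Y) x := by
  obtain ⟨v, P, P', Q, Q', u, u', hP, hP', hQ, hQ', hu, hup, hlo, hd⟩ :=
    exists_modp p n hn a b hab hba (permZ F X) (permZ F Y) (permZ_inter F a ha)
  let c := Int.castRingHom (MonoidAlgebra k F)
  have mapc : ∀ {I J K : Type v} [Fintype J] (M : Matrix I J ℤ) (N : Matrix J K ℤ),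
      M.map c * N.map c = (M * N).map c := fun M N => (Matrix.map_mul (f := c)).symm
  have onec : ∀ {I : Type v} [DecidableEq I], (1 : Matrix I I ℤ).map c = 1 := fun {I} _ => by
    refine Matrix.ext fun i j => ?_
    rw [Matrix.map_apply, Matrix.one_apply, Matrix.one_apply]
    split_ifs
    · exact map_one c
    · exact map_zero c
  have eP : P.map c * P'.map c = 1 := by rw [mapc, hP, onec]
  have eP' : P'.map c * P.map c = 1 := by rw [mapc, hP', onec]
  have eQ : Q.map c * Q'.map c = 1 := by rw [mapc, hQ, onec]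
  have eQ' : Q'.map c * Q.map c = 1 := by rw [mapc, hQ', onec]
  let D : Matrix X X (MonoidAlgebra k F) := diagonal fun i => (u i : MonoidAlgebra k F)
  let D' : Matrix X X (MonoidAlgebra k F) := diagonal fun i => (u' i : MonoidAlgebra k F)
  have huu : ∀ i, (u i : MonoidAlgebra k F) * (u' i : MonoidAlgebra k F) = 1 := by
    intro i
    have h1 := cast_zero_of_dvd k F p _ (hu i)
    rw [Int.cast_sub, Int.cast_mul, Int.cast_one, sub_eq_zero] at h1
    exact h1
  have eD : D * D' = 1 := by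
    rw [diagonal_mul_diagonal, ← diagonal_one]
    exact congrArg diagonal (funext huu)
  have eD' : D' * D = 1 := by
    rw [diagonal_mul_diagonal, ← diagonal_one]
    refine congrArg diagonal (funext fun i => ?_)
    rw [(Int.cast_commute (u' i) ((u i : ℤ) : MonoidAlgebra k F)).eq]
    exact huu i
  rw [← push_conjRep (twR k X) (P.map c) (P'.map c) eP eP' x,
    ← push_conjRep (twR k Y) (Q.map c) (Q'.map c) eQ eQ' x,
    ← push_conjRep (conjRep (twR k Y) (Q.map c) (Q'.map c) eQ eQ') D' D eD' eD x]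
  apply push_eq_of_tri _ _ v
  · intro r i j hij
    induction r using MonoidAlgebra.induction_linear with
    | zero => rw [map_zero, Matrix.zero_apply]
    | add s t hs ht => rw [map_add, Matrix.add_apply, hs, ht, add_zero]
    | single h s =>
      rw [conjRep_apply, conj_tw, cast_zero_of_dvd k F p _ (hup h i j hij), zero_mul]
  · intro r i j hij
    induction r using MonoidAlgebra.induction_linear with
    | zero => rw [map_zero, Matrix.zero_apply]
    | add s t hs ht => rw [map_add, Matrix.add_apply, hs, ht, add_zero]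
    | single h s =>
      rw [conjRep_apply, conjRep_apply, Matrix.mul_diagonal, Matrix.diagonal_mul, conj_tw,
        cast_zero_of_dvd k F p _ (hlo h i j hij), zero_mul, mul_zero, zero_mul]
  · intro r i j hij
    induction r using MonoidAlgebra.induction_linear with
    | zero => rw [map_zero, map_zero]
    | add s t hs ht => rw [map_add, map_add, Matrix.add_apply, Matrix.add_apply, hs, ht]
    | single h s =>
      rw [conjRep_apply, conjRep_apply, conjRep_apply, Matrix.mul_diagonal, Matrix.diagonal_mul,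
        conj_tw, conj_tw]
      have h1 := cast_zero_of_dvd k F p _ (hd h i j hij)
      rw [Int.cast_sub, sub_eq_zero] at h1
      rw [h1, Int.cast_mul, Int.cast_mul, ← mul_assoc, mul_assoc _ (MonoidAlgebra.single h s) _,
        ← (Int.cast_commute (u' j) (MonoidAlgebra.single h s)).eq, ← mul_assoc]

include p in
/-- **Artin induction** for `K₁(k[F]) ⊗ ℚ`, `k` a commutative ring of characteristic `p`. -/
theorem artin_K1_charP [Finite F] (x : K1 (MonoidAlgebra k F)) :
    ∃ (m r : ℕ) (D : Fin r → Subgroup F) (y : ∀ i, K1 (MonoidAlgebra k (D i))),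
      0 < m ∧ (∀ i, IsCyclic (D i)) ∧ m • x = ∑ i, K1.map (incl k (D i)) (y i) :=
  artin_K1_of_inter k F
    (fun n hn a b hab hba ha x => ⟨1, one_pos, by rw [inter_p k F p n hn a b hab hba ha x]⟩) x

/-- **Artin induction** for `K₁(k[F]) ⊗ ℚ`, `k` a field. -/
theorem artin_K1_anyField (k : Type u) [Field k] (F : Type v) [Group F] [Finite F]
    (x : K1 (MonoidAlgebra k F)) :
    ∃ (m r : ℕ) (D : Fin r → Subgroup F) (y : ∀ i, K1 (MonoidAlgebra k (D i))),
      0 < m ∧ (∀ i, IsCyclic (D i)) ∧ m • x = ∑ i, K1.map (incl k (D i)) (y i) := by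
  obtain ⟨q, hq⟩ := CharP.exists k
  rcases CharP.char_is_prime_or_zero k q with h | h
  · have : Fact q.Prime := ⟨h⟩
    exact artin_K1_charP k F q x
  · subst h
    have : CharZero k := CharP.charP_to_charZero k
    exact artin_K1_field F k x

end Pool.Agent.H95.WH

end
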