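import Pool.Agent.H71.TCZ.M35
import Pool.Agent.H71.TCZ.M44
import Pool.Agent.H71.TCZ.M55
import Pool.Agent.H71.TCZ.M61

/-! The parts of this file: H71.DO.Bridge, H71.DO.Units. -/

section

/-!
# From units of finite cyclic subgroups to `K₁` of finite subgroups
-/

set_option autoImplicit false
set_option linter.unusedSectionVars false

open Matrix

universe u v w

namespace Pool.Agent.H71.DO

open Pool.Agent.H95.WH (K1 K1.mk K1.unit K1.map K1.map_unit K1.map_map K1_map_conj FamSub conjHom K1.lift K1.lift_mk FinSub K1.hom_ext K1.unit_mul)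
open Pool.Agent.H71.WH (CycSub Sat Sat_of_smul mem_Sat)

section K1

variable (A : Type u) [Ring A]

theorem stab_eq {n : ℕ} (U : (Matrix (Fin n) (Fin n) A)ˣ) :
    Pool.Agent.H95.WH.stab U = Pool.Agent.H71.WH.addOne U := Units.ext rfl

/-- the comparison of the two models of `K₁` -/
noncomputable def psi : K1 A →+ Pool.Agent.H71.WH.K1 A :=
  K1.lift (fun _ U => Pool.Agent.H71.WH.K1.mk U) (fun _ U V => Pool.Agent.H71.WH.K1.mk_mul U V)
    (fun n U => by rw [stab_eq, KP.K1.mk_addOne])

theorem psi_unit (u : Aˣ) : psi A (K1.unit u) = Pool.Agent.H71.WH.K1.unit u := by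
  rw [K1.unit, psi, K1.lift_mk]
  rfl

end K1

variable (R : Type u) [CommRing R] (G : Type v) [Group G]

theorem psi_le : WhRel R G ≤ (KP.trivialK1 R G).comap (psi (MonoidAlgebra R G)) := by
  rw [WhRel, AddSubgroup.closure_le]
  rintro z (hz | ⟨g, rfl⟩)
  · rw [Set.mem_singleton_iff] at hz
    rw [hz]
    refine AddSubgroup.subset_closure ⟨-1, ⟨1, -1, Or.inr rfl, ?_⟩, (psi_unit _ _).symm⟩
    rw [Units.val_neg, Units.val_one, MonoidAlgebra.one_def, ← MonoidAlgebra.single_neg]
  · exact AddSubgroup.subset_closure ⟨grpUnit R G g, ⟨g, 1, Or.inl rfl, rfl⟩,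
      (psi_unit _ _).symm⟩

/-- the comparison of the two models of `Wh` -/
noncomputable def psiW : Wh R G →+ KP.Wh R G :=
  QuotientAddGroup.map (WhRel R G) (KP.trivialK1 R G) (psi (MonoidAlgebra R G)) (psi_le R G)

theorem psiW_unit (u : (MonoidAlgebra R G)ˣ) :
    psiW R G (Wh.mk R G (K1.unit u)) = KP.Wh.unit u := by
  change (QuotientAddGroup.mk (psi (MonoidAlgebra R G) (K1.unit u)) : KP.Wh R G) = _
  rw [psi_unit]
  rfl

/-- a finite cyclic subgroup as a finite subgroup -/
def toFin (C : CycSub G) : FamSub G FinSub := ⟨C.1, C.2.1⟩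

/-- the class in the colimit of a unit -/
noncomputable def clF (F : FamSub G FinSub) (x : (MonoidAlgebra R F.1)ˣ) :
    ColimWh R G FinSub := cl R G FinSub F (Wh.mk R F.1 (K1.unit x))

theorem clF_mul (F : FamSub G FinSub) (x y : (MonoidAlgebra R F.1)ˣ) :
    clF R G F (x * y) = clF R G F x + clF R G F y := by
  rw [clF, clF, clF, K1.unit_mul, map_add, map_add]

theorem clF_conj (F F' : FamSub G FinSub) (g : G) (h : ∀ a ∈ F.1, g * a * g⁻¹ ∈ F'.1)
    (x : (MonoidAlgebra R F.1)ˣ) :
    clF R G F' (KP.unitsMap (Pool.Agent.H71.WH.conjHom g F.1 F'.1 h) x) = clF R G F x := by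
  rw [clF, clF, ← cl_conj R G FinSub F F' g h]
  congr 1
  rw [Wh.map_mk, ind, K1.map_unit]
  rfl

theorem assembly_clF (F : FamSub G FinSub) (x : (MonoidAlgebra R F.1)ˣ) :
    assembly R G FinSub (clF R G F x) =
      Wh.mk R G (K1.unit (KP.unitsMap F.1.subtype x)) := by
  rw [clF, assembly_cl, Wh.map_mk, ind, K1.map_unit]
  rfl

/-- the class in the colimit of a unit -/
noncomputable def clU (C : CycSub G) (x : (MonoidAlgebra R C.1)ˣ) : ColimWh R G FinSub :=
  clF R G (toFin G C) x

theorem exists_theta : ∃ Θ : KP.ColimU R G →+ ColimWh R G FinSub,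
    ∀ (C : CycSub G) (x : (MonoidAlgebra R C.1)ˣ), Θ (KP.cl C x) = clU R G C x := by
  refine KP.exists_lift (fun C x => clU R G C x) ?_ ?_
  · intro C x y
    exact clF_mul R G (toFin G C) x y
  · intro C C' g h x
    exact clF_conj R G (toFin G C) (toFin G C') g h x

/-- the comparison map -/
noncomputable def theta : KP.ColimU R G →+ ColimWh R G FinSub := (exists_theta R G).choose

theorem theta_cl (C : CycSub G) (x : (MonoidAlgebra R C.1)ˣ) :
    theta R G (KP.cl C x) = clU R G C x := (exists_theta R G).choose_spec C x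

theorem psiW_assembly (z : KP.ColimU R G) :
    psiW R G (assembly R G FinSub (theta R G z)) = KP.assembly R G z := by
  induction z using KP.colim_induction with
  | h0 => rw [map_zero, map_zero, map_zero, map_zero]
  | h1 C x =>
    rw [theta_cl, clU, assembly_clF, psiW_unit, KP.assembly_cl]
    rfl
  | h2 a b ha hb => rw [map_add, map_add, map_add, ha, hb, map_add]

/-- Artin induction for `K₁`. -/
def HArt : Prop := ∀ (F : Type v) [Group F] [Finite F] (x : K1 (MonoidAlgebra R F)),
  ∃ (m r : ℕ) (D : Fin r → Subgroup F) (y : ∀ i, K1 (MonoidAlgebra R (D i))),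
    0 < m ∧ (∀ i, IsCyclic (D i)) ∧ m • x = ∑ i, ind R (D i).subtype (y i)

/-- `K₁` of group rings of finite cyclic groups is generated by units up to torsion. -/
def HUnit : Prop := ∀ (C : Type v) [Group C] [Finite C] [IsCyclic C] (y : K1 (MonoidAlgebra R C)),
  ∃ (m : ℕ) (x : (MonoidAlgebra R C)ˣ), 0 < m ∧ m • y = K1.unit x

theorem colimWh_induction {𝓕 : Subgroup G → Prop} {P : ColimWh R G 𝓕 → Prop} (h0 : P 0)
    (h1 : ∀ (F : FamSub G 𝓕) (x : Wh R F.1), P (cl R G 𝓕 F x))
    (h2 : ∀ a b, P a → P b → P (a + b)) (z : ColimWh R G 𝓕) : P z := by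
  classical
  obtain ⟨y, rfl⟩ : ∃ y, QuotientAddGroup.mk' (colimRel R G 𝓕) y = z :=
    QuotientAddGroup.mk_surjective z
  induction y using DirectSum.induction_on with
  | zero => rw [map_zero]; exact h0
  | of F x =>
    have h := h1 F x
    change P (QuotientAddGroup.mk' (colimRel R G 𝓕) (inc R G 𝓕 F x)) at h
    rw [inc] at h
    convert! h
  | add x y hx hy => rw [map_add]; exact h2 _ _ hx hy

variable {R} in
theorem sat_theta (hA : HArt.{u, v} R) (hU : HUnit.{u, v} R) (z : ColimWh R G FinSub) :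
    z ∈ Sat (theta R G).range := by
  induction z using colimWh_induction with
  | h0 => exact AddSubgroup.zero_mem _
  | h2 a b ha hb => exact AddSubgroup.add_mem _ ha hb
  | h1 F x =>
    obtain ⟨x, rfl⟩ := Wh.mk_surjective R x
    have hF : Finite F.1 := F.2
    obtain ⟨m, r, D, y, hm, hD, hx⟩ := hA F.1 x
    have hm' : ((m : ℕ) : ℤ) ≠ 0 := by exact_mod_cast hm.ne'
    refine Sat_of_smul hm' ?_
    rw [natCast_zsmul, ← map_nsmul, ← map_nsmul, hx, map_sum, map_sum]
    refine AddSubgroup.sum_mem _ fun i _ => ?_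
    have hDi := hD i
    obtain ⟨m', u, hm1, hu⟩ := hU (D i) (y i)
    have hm1' : ((m' : ℕ) : ℤ) ≠ 0 := by exact_mod_cast hm1.ne'
    refine Sat_of_smul hm1' ?_
    rw [natCast_zsmul, ← map_nsmul, ← map_nsmul, ← map_nsmul, hu]
    apply mem_Sat
    have hinj : Function.Injective (F.1.subtype.comp (D i).subtype) :=
      F.1.subtype_injective.comp (D i).subtype_injective
    have hcyc : IsCyclic ((D i).map F.1.subtype) :=
      isCyclic_of_surjective ((D i).equivMapOfInjective F.1.subtype F.1.subtype_injective)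
        ((D i).equivMapOfInjective F.1.subtype F.1.subtype_injective).surjective
    have hfin : Finite ((D i).map F.1.subtype) :=
      Finite.of_equiv _ ((D i).equivMapOfInjective F.1.subtype F.1.subtype_injective).toEquiv
    let C : CycSub G := ⟨(D i).map F.1.subtype, hfin, hcyc⟩
    let e : D i →* C.1 :=
      ((D i).equivMapOfInjective F.1.subtype F.1.subtype_injective).toMonoidHom
    refine ⟨KP.cl C (KP.unitsMap e u), ?_⟩
    have h1 : ∀ a ∈ (toFin G C).1, (1 : G) * a * 1⁻¹ ∈ F.1 := by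
      intro a ha
      obtain ⟨b, _, rfl⟩ := ha
      rw [one_mul, inv_one, mul_one]
      exact b.2
    rw [theta_cl]
    refine (clF_conj R G (toFin G C) F 1 h1 (KP.unitsMap e u)).symm.trans ?_
    have h2 : KP.unitsMap (Pool.Agent.H71.WH.conjHom 1 (toFin G C).1 F.1 h1) (KP.unitsMap e u) =
        KP.unitsMap (D i).subtype u := by
      refine (KP.unitsMap_comp e (Pool.Agent.H71.WH.conjHom 1 (toFin G C).1 F.1 h1) u).trans ?_
      congr 2
      apply MonoidHom.ext
      intro a
      apply Subtype.ext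
      change (1 : G) * ((a : F.1) : G) * 1⁻¹ = ((a : F.1) : G)
      rw [one_mul, inv_one, mul_one]
    rw [h2, clF, ind, K1.map_unit]
    rfl

end Pool.Agent.H71.DO

end

section

/-!
# The classes of rings
-/

set_option autoImplicit false
set_option linter.unusedSectionVars false

open Matrix

universe u v w

namespace Pool.Agent.H71.DO

open Pool.Agent.H95.WH (K1 K1.mk K1.unit K1.map K1.map_unit K1.map_map K1_map_conj FamSub conjHom K1.lift K1.lift_mk FinSub K1.hom_ext K1.unit_mul K1.mk_mul detU det_semi det_torsion GLAll K1Rel)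

theorem K1_induction {A : Type u} [Ring A] {P : K1 A → Prop} (h0 : P 0)
    (h1 : ∀ (n : ℕ) (U : (Matrix (Fin n) (Fin n) A)ˣ), P (K1.mk U))
    (h2 : ∀ a b, P a → P b → P (a + b)) (h3 : ∀ a, P a → P (-a)) (z : K1 A) : P z := by
  obtain ⟨y, rfl⟩ : ∃ y, QuotientAddGroup.mk' (K1Rel A) y = z := QuotientAddGroup.mk_surjective z
  induction y using FreeAbelianGroup.induction_on with
  | zero => rw [map_zero]; exact h0
  | of x => exact h1 x.1 x.2
  | neg x _ =>
    rw [map_neg]
    exact h3 _ (h1 x.1 x.2)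
  | add x y hx hy => rw [map_add]; exact h2 _ _ hx hy

theorem K1_unit_one (A : Type u) [Ring A] : K1.unit (1 : Aˣ) = 0 := by
  have h := K1.unit_mul (1 : Aˣ) 1
  rw [one_mul] at h
  exact left_eq_add.1 h

theorem K1_unit_inv {A : Type u} [Ring A] (u : Aˣ) : K1.unit u⁻¹ = -K1.unit u := by
  have h := K1.unit_mul u⁻¹ u
  rw [inv_mul_cancel, K1_unit_one] at h
  exact eq_neg_of_add_eq_zero_left h.symm

theorem K1_unit_pow {A : Type u} [Ring A] (u : Aˣ) (n : ℕ) : K1.unit (u ^ n) = n • K1.unit u := by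
  induction n with
  | zero => rw [pow_zero, K1_unit_one, zero_smul]
  | succ n ih => rw [pow_succ, K1.unit_mul, ih, succ_nsmul]

/-- If the class of every invertible matrix is the class of a unit up to torsion then `K₁` is
generated by units up to torsion. -/
theorem unit_of_mk {A : Type u} [Ring A]
    (h : ∀ (n : ℕ) (U : (Matrix (Fin n) (Fin n) A)ˣ),
      ∃ (m : ℕ) (x : Aˣ), 0 < m ∧ m • K1.mk U = K1.unit x) (y : K1 A) :
    ∃ (m : ℕ) (x : Aˣ), 0 < m ∧ m • y = K1.unit x := by
  have key : ∃ (m : ℕ) (x : Aˣ), 0 < m ∧ m • y = K1.unit x ∧ True := by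
    induction y using K1_induction with
    | h0 => exact ⟨1, 1, one_pos, by rw [K1_unit_one, smul_zero], trivial⟩
    | h1 n U =>
      obtain ⟨m, x, hm, hx⟩ := h n U
      exact ⟨m, x, hm, hx, trivial⟩
    | h2 a b ha hb =>
      obtain ⟨m, x, hm, hx, -⟩ := ha
      obtain ⟨m', x', hm', hx', -⟩ := hb
      refine ⟨m * m', x ^ m' * x' ^ m, Nat.mul_pos hm hm', ?_, trivial⟩
      rw [K1.unit_mul, K1_unit_pow, K1_unit_pow, ← hx, ← hx', smul_smul, smul_smul, smul_add,
        mul_comm m' m]
    | h3 a ha =>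
      obtain ⟨m, x, hm, hx, -⟩ := ha
      exact ⟨m, x⁻¹, hm, by rw [K1_unit_inv, smul_neg, hx], trivial⟩
  obtain ⟨m, x, hm, hx, -⟩ := key
  exact ⟨m, x, hm, hx⟩

theorem hUnit_field (k : Type u) [Field k] : HUnit.{u, v} k := by
  intro C _ _ _
  letI : CommGroup C := IsCyclic.commGroup
  apply unit_of_mk
  intro n U
  have : IsArtinianRing (MonoidAlgebra k C) := by
    have : Module.Finite k (MonoidAlgebra k C) := by
      have := Fintype.ofFinite C
      exact Module.Finite.of_basis (ι := C) (MonoidAlgebra.basis C k)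
    exact IsArtinianRing.of_finite k (MonoidAlgebra k C)
  exact ⟨1, detU U, one_pos, by rw [one_smul]; exact det_semi U⟩

theorem hArt_of (R : Type u) [CommRing R]
    (hR : ∀ n : ℕ, n ≠ 0 → Finite (R ⧸ Ideal.span {(n : R)})) : HArt.{u, v} R :=
  fun F _ _ x => Pool.Agent.H95.WH.artin_K1R R F hR x

end Pool.Agent.H71.DO

end
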