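import Pool.Agent.H71.TCZ.M36
import Pool.Agent.H71.TCZ.M56
import Pool.Agent.H71.TCZ.M60
import Pool.Agent.H71.TCZ.M62

/-! The parts of this file: H71.FQ.LocR, H71.FU1.Fun1, H71.FU0.Defs0_1, H73.CZ.RedA, H73.CZ.RedD, H71.DO.Semi, H71.DO.Red. -/

section

/-!
# Project FQ: directed unions of coefficient rings

If every finite subset of `R` lies in a subring `R'` for which the assembly map of `R'[G]` is rationally injective,
then the assembly map of `R[G]` is rationally injective.
-/

set_option autoImplicit false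

open Matrix

universe u u' v w

namespace Pool.Agent.H71.FQ

open Pool.Agent.H71.FJ (IdemMat K0 K0.mk K0.map K0.map_map)
open Pool.Agent.H95.WH (FamSub conjHom FinSub)

section

variable {A : Type u} [Ring A]

end

section

variable {R : Type u} [Ring R] {S : Type u'} [Ring S] {G : Type v} [Group G] {n : ℕ}

/-- **The assembly map is natural in the coefficient ring.** -/
theorem assemblyN_ofHom (φ : R →+* S) (w : HnK0 R G n) :
    assemblyN S n G ((NatK0.ofHom G φ).src n w) =
      KQ.map (MonoidAlgebra.mapRingHom G φ) (assemblyN R n G w) := by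
  have h1 : (KQ.map (MonoidAlgebra.mapRingHom G φ)).comp (assemblyN R n G) =
      (assemblyN S n G).comp ((NatK0.ofHom G φ).src n) := by
    apply hnk0_ext
    intro F x z
    rw [AddMonoidHom.comp_apply, AddMonoidHom.comp_apply, NatK0.ofHom_asm, NatK0.src_sy]
  exact (DFunLike.congr_fun h1 w).symm

theorem mapRingHom_injective' {φ : R →+* S} (hφ : Function.Injective φ) (M : Type*) [Monoid M] :
    Function.Injective (MonoidAlgebra.mapRingHom M φ) := by
  intro a b h
  apply MonoidAlgebra.ext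
  apply Finsupp.ext
  intro m
  apply hφ
  have h1 := congrArg (fun c : MonoidAlgebra S M => c.coeff m) h
  simpa using h1

end

end Pool.Agent.H71.FQ

end

section

/-!
# Project FU: change of the coefficient ring for the joint assembly map

`NatK1 R S G`: a family of homomorphisms `K₁(R[F]) → K₁(S[F])`, compatible with the conjugations.
`ratInj01_of_family`: the reduction principle for the joint assembly map.
-/

set_option autoImplicit false

open Matrix

universe u u' v w

namespace Pool.Agent.H71.FU1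

open Pool.Agent.H71.FQ
open Pool.Agent.H71.FJ (IdemMat K0 K0.mk K0.map)
open Pool.Agent.H95.WH (K1 K1.mk K1.map K1.map_map FamSub conjHom FinSub)

section Nat

/-- A natural family of homomorphisms `K₁(R[F]) → K₁(S[F])`. -/
structure NatK1 (R : Type u) [Ring R] (S : Type u') [Ring S] (G : Type v) [Group G] where
  /-- the homomorphisms -/
  app : ∀ F : FamSub G FinSub, K1 (MonoidAlgebra R F.1) →+ K1 (MonoidAlgebra S F.1)
  nat : ∀ (F F' : FamSub G FinSub) (g : G) (h : ∀ x ∈ F.1, g * x * g⁻¹ ∈ F'.1)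
    (x : K1 (MonoidAlgebra R F.1)),
    app F' (K1.map (MonoidAlgebra.mapDomainRingHom R (conjHom g F.1 F'.1 h)) x) =
      K1.map (MonoidAlgebra.mapDomainRingHom S (conjHom g F.1 F'.1 h)) (app F x)

variable {R : Type u} [Ring R] {S : Type u'} [Ring S] {G : Type v} [Group G]

variable (G) in
/-- The family of a homomorphism of rings. -/
noncomputable def NatK1.ofHom (φ : R →+* S) : NatK1 R S G where
  app F := K1.map (MonoidAlgebra.mapRingHom F.1 φ)
  nat F F' g h x := by
    rw [K1.map_map, K1.map_map, mapRing_mapDomain]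

theorem NatK1.ofHom_app (φ : R →+* S) (F : FamSub G FinSub) (x : K1 (MonoidAlgebra R F.1)) :
    (NatK1.ofHom G φ).app F x = K1.map (MonoidAlgebra.mapRingHom F.1 φ) x := rfl

end Nat

end Pool.Agent.H71.FU1

end

section

/-!
# Project FU, degree one: the colimit of the groups `K₁(R[F])`, the joint assembly map in degree one

`H0K1 R G` is the colimit of the groups `K₁(R[F])` over the finite subgroups `F` of `G`, `assembly10 R G` the map to
`KQ (R[G]) 0`, `assembly00 R G` the joint assembly map in degree one. The reductions of `FU1` in degree one.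
-/

set_option autoImplicit false

open Matrix
open scoped TensorProduct

universe u u' v w

namespace Pool.Agent.H71.FU0

open Pool.Agent.H71.FQ
open Pool.Agent.H71.FU1
open Pool.Agent.H71.FJ (K0 K0.map K0.flat K0.push K0.push_congr K0.map_push K0.push_map K0.nilLift_map NilKer)
open Pool.Agent.H95.WH (K1 K1.mk K1.lift K1.lift_mk K1.hom_ext K1.map K1.map_mk K1.map_map FamSub conjHom FinSub K1_map_conj)

section

end

section

end

section

end

section

variable {R : Type u} [Ring R] {S : Type u'} [Ring S] {G : Type v} [Group G]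

/-- The homomorphism of the colimits. -/
noncomputable def src0 (τ : NatK1 R S G) : H0K1 R G →+ H0K1 S G :=
  lift10 (fun F => (cl F).comp (τ.app F)) (by
    intro F F' g h x
    change cl F' (τ.app F' (K1.map _ x)) = cl F (τ.app F x)
    rw [τ.nat, cl_conj])

theorem src0_cl (τ : NatK1 R S G) (F : FamSub G FinSub) (x : K1 (MonoidAlgebra R F.1)) :
    src0 τ (cl F x) = cl F (τ.app F x) := lift10_cl _ _ F x

theorem ofHom_asm0 (φ : R →+* S) (F : FamSub G FinSub) (x : K1 (MonoidAlgebra R F.1)) :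
    KQ.map (MonoidAlgebra.mapRingHom G φ) (assembly10 R G (cl F x)) =
      assembly10 S G (cl F ((NatK1.ofHom G φ).app F x)) := by
  rw [assembly10_cl, assembly10_cl, map_kq1, NatK1.ofHom_app, K1.map_map, K1.map_map,
    mapRing_mapDomain]

end

section

end

section

end

end Pool.Agent.H71.FU0

end

section

/-!
# Project CZ, block RED: relations over a field come from finitely generated subrings

`exists_units` : finitely many units of the group rings `k[C_i]` come from all subrings of `k` which contain a finite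
set.
`exists_subring` : a relation `m • ∑ [C_i, u_i, z_i] = 0` in `KQ (k[G])` holds over all subrings of `k` which contain a
finite set.
-/

set_option autoImplicit false

open Matrix

universe u u' v w

namespace Pool.Agent.H73.CZ

open Pool.Agent.H71.FQ
open Pool.Agent.H16.FU (HnK1 sy1 assembly1 hn1 hn1_sy1 map_assembly1)
open Pool.Agent.H95.WH (K1 K1.mk K1.unit K1.map K1.map_unit FamSub FinSub)

section

variable {k : Type u} [Ring k]

theorem mem_range_mapM {R : Type u'} [Ring R] (f : R →+* k) (M : Type*) [Monoid M]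
    (a : MonoidAlgebra k M) (h : ∀ m, a.coeff m ∈ Set.range f) :
    a ∈ Set.range (MonoidAlgebra.mapRingHom M f) := by
  classical
  choose c hc using h
  refine ⟨∑ m ∈ a.coeff.support, MonoidAlgebra.single m (c m), ?_⟩
  rw [map_sum]
  simp only [MonoidAlgebra.mapRingHom_single, hc]
  exact MonoidAlgebra.sum_coeff_single a

open Classical in
/-- the coefficients of a finite set -/
noncomputable def cfs (M : Type*) [Monoid M] (S : Finset (MonoidAlgebra k M)) : Finset k :=
  S.biUnion fun a => a.coeff.support.image a.coeff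

theorem mem_cfs {R : Type u'} [Ring R] (f : R →+* k) (M : Type*) [Monoid M]
    (S : Finset (MonoidAlgebra k M)) (h : ∀ s ∈ cfs M S, s ∈ Set.range f) (a : MonoidAlgebra k M)
    (ha : a ∈ S) : a ∈ Set.range (MonoidAlgebra.mapRingHom M f) := by
  classical
  apply mem_range_mapM f M a
  intro m
  by_cases hm : a.coeff m = 0
  · rw [hm]
    exact ⟨0, map_zero f⟩
  · refine h _ (Finset.mem_biUnion.2 ⟨a, ha, Finset.mem_image.2
      ⟨m, Finsupp.mem_support_iff.2 hm, rfl⟩⟩)

theorem exists_unit {C : Type w} [Group C] (u : (MonoidAlgebra k C)ˣ) :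
    ∃ S : Finset k, ∀ R : Subring k, (∀ s ∈ S, s ∈ R) → ∃ v : (MonoidAlgebra R C)ˣ,
      MonoidAlgebra.mapRingHom C R.subtype (v : MonoidAlgebra R C) = u := by
  classical
  refine ⟨cfs C {(u : MonoidAlgebra k C), ((u⁻¹ : (MonoidAlgebra k C)ˣ) : MonoidAlgebra k C)}, ?_⟩
  intro R hR
  have h1 : ∀ s ∈ cfs C {(u : MonoidAlgebra k C), ((u⁻¹ : (MonoidAlgebra k C)ˣ) :
      MonoidAlgebra k C)}, s ∈ Set.range R.subtype := fun s hs => ⟨⟨s, hR s hs⟩, rfl⟩
  obtain ⟨a, ha⟩ := mem_cfs R.subtype C _ h1 (u : MonoidAlgebra k C) (Finset.mem_insert_self _ _)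
  obtain ⟨b, hb⟩ := mem_cfs R.subtype C _ h1 ((u⁻¹ : (MonoidAlgebra k C)ˣ) : MonoidAlgebra k C)
    (Finset.mem_insert_of_mem (Finset.mem_singleton_self _))
  have hinj := mapRingHom_injective' (φ := R.subtype) Subtype.val_injective C
  refine ⟨⟨a, b, hinj ?_, hinj ?_⟩, ha⟩
  · rw [map_mul, ha, hb, Units.mul_inv, map_one]
  · rw [map_mul, ha, hb, Units.inv_mul, map_one]

theorem exists_units {r : ℕ} {C : Fin r → Type w} [∀ i, Group (C i)]
    (u : ∀ i, (MonoidAlgebra k (C i))ˣ) :
    ∃ S : Finset k, ∀ R : Subring k, (∀ s ∈ S, s ∈ R) → ∃ v : ∀ i, (MonoidAlgebra R (C i))ˣ,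
      ∀ i, MonoidAlgebra.mapRingHom (C i) R.subtype (v i : MonoidAlgebra R (C i)) = u i := by
  classical
  choose S hS using fun i => exists_unit (u i)
  refine ⟨Finset.univ.biUnion S, ?_⟩
  intro R hR
  choose v hv using fun i => hS i R fun s hs =>
    hR s (Finset.mem_biUnion.2 ⟨i, Finset.mem_univ _, hs⟩)
  exact ⟨v, hv⟩

end

section

variable {k : Type u} [Ring k] {G : Type v} [Group G] {n : ℕ}

/-- change of the coefficients of a symbol of a unit -/
theorem hn1_unit {k' : Type u'} [Ring k'] (θ : k →+* k') (F : FamSub G FinSub)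
    (v : (MonoidAlgebra k F.1)ˣ) (u : (MonoidAlgebra k' F.1)ˣ)
    (h : MonoidAlgebra.mapRingHom F.1 θ (v : MonoidAlgebra k F.1) = u)
    (z : HG (Subgroup.centralizer (F.1 : Set G)) n) :
    hn1 θ (sy1 F (K1.unit v) z) = sy1 F (K1.unit u) z := by
  rw [hn1_sy1, K1.map_unit]
  congr 2
  exact Units.ext h

theorem hn1_units {k' : Type u'} [Ring k'] (θ : k →+* k') {r : ℕ} (C : Fin r → Subgroup G)
    (hC : ∀ i, Finite (C i)) (v : ∀ i, (MonoidAlgebra k (C i))ˣ)
    (u : ∀ i, (MonoidAlgebra k' (C i))ˣ)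
    (h : ∀ i, MonoidAlgebra.mapRingHom (C i) θ (v i : MonoidAlgebra k (C i)) = u i)
    (z : ∀ i, HG (Subgroup.centralizer (C i : Set G)) n) :
    hn1 θ (∑ i, sy1 ⟨C i, hC i⟩ (K1.unit (v i)) (z i)) =
      ∑ i, sy1 ⟨C i, hC i⟩ (K1.unit (u i)) (z i) := by
  rw [map_sum]
  exact Finset.sum_congr rfl fun i _ => hn1_unit θ ⟨C i, hC i⟩ (v i) (u i) (h i) (z i)

/-- **A relation over `k` holds over the subrings which contain a finite set.** -/
theorem exists_subring {r : ℕ} (C : Fin r → Subgroup G) (hC : ∀ i, Finite (C i))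
    (u : ∀ i, (MonoidAlgebra k (C i))ˣ) (z : ∀ i, HG (Subgroup.centralizer (C i : Set G)) n)
    (m : ℤ) (hm : m • assembly1 k n G (∑ i, sy1 ⟨C i, hC i⟩ (K1.unit (u i)) (z i)) = 0) :
    ∃ S : Finset k, ∀ R : Subring k, (∀ s ∈ S, s ∈ R) → ∃ v : ∀ i, (MonoidAlgebra R (C i))ˣ,
      (∀ i, MonoidAlgebra.mapRingHom (C i) R.subtype (v i : MonoidAlgebra R (C i)) = u i) ∧
      m • assembly1 R n G (∑ i, sy1 ⟨C i, hC i⟩ (K1.unit (v i)) (z i)) = 0 := by
  classical
  obtain ⟨S1, hS1⟩ := exists_units u
  obtain ⟨v1, hv1⟩ := hS1 (Subring.closure (S1 : Set k)) fun s hs => Subring.subset_closure hs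
  have h1 : KQ.map (MonoidAlgebra.mapRingHom G (Subring.closure (S1 : Set k)).subtype)
      (m • assembly1 (Subring.closure (S1 : Set k)) n G
        (∑ i, sy1 ⟨C i, hC i⟩ (K1.unit (v1 i)) (z i))) = 0 := by
    rw [map_zsmul, map_assembly1, hn1_units _ C hC v1 u hv1 z, hm]
  obtain ⟨T, hT⟩ := KQ.exists_zero.{max u v, max u v, max u v} _ _ h1
  refine ⟨S1 ∪ cfs G T, ?_⟩
  intro R hR
  have hle : Subring.closure (S1 : Set k) ≤ R := by
    rw [Subring.closure_le]
    intro s hs
    exact hR s (Finset.mem_union_left _ hs)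
  have hcomp : R.subtype.comp (Subring.inclusion hle) =
      (Subring.closure (S1 : Set k)).subtype := rfl
  have h2 : KQ.map (MonoidAlgebra.mapRingHom G (Subring.inclusion hle))
      (m • assembly1 (Subring.closure (S1 : Set k)) n G
        (∑ i, sy1 ⟨C i, hC i⟩ (K1.unit (v1 i)) (z i))) = 0 := by
    refine hT (MonoidAlgebra.mapRingHom G R.subtype) _
      (mapRingHom_injective' Subtype.val_injective G) ?_ ?_
    · rw [← hcomp, MonoidAlgebra.mapRingHom_comp]
    · exact mem_cfs R.subtype G T fun s hs =>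
        ⟨⟨s, hR s (Finset.mem_union_right _ hs)⟩, rfl⟩
  refine ⟨fun i => Units.map (MonoidAlgebra.mapRingHom (C i) (Subring.inclusion hle)).toMonoidHom
    (v1 i), ?_, ?_⟩
  · intro i
    rw [← hv1 i, ← hcomp, MonoidAlgebra.mapRingHom_comp]
    rfl
  · rw [map_zsmul, map_assembly1] at h2
    rw [← hn1_units (Subring.inclusion hle) C hC v1 _ (fun i => rfl) z]
    exact h2

end

end Pool.Agent.H73.CZ

end

section

/-!
# Project CZ, block RED: descent of a relation to a subring of `ℤ_[p]`

`exists_subring` gives a finite set `S0` of `k`; the subring `A` generated by `S0` and `1 / N!` embeds in `ℤ_[p]` for some prime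
`p` (Cassels, `exists_padic_embedding`), and `p > N` because `N!` is a unit of `A`.
-/

set_option autoImplicit false

open Matrix

universe u u' v w

namespace Pool.Agent.H73.CZ

open Pool.Agent.H71.FQ
open Pool.Agent.H16.FU (HnK1 sy1 assembly1 hn1 hn1_sy1 map_assembly1)
open Pool.Agent.H95.WH (K1 K1.mk K1.unit K1.map K1.map_unit FamSub FinSub)

private theorem finiteType_closure {k : Type u} [CommRing k] (T : Finset k) :
    Algebra.FiniteType ℤ (Subring.closure (T : Set k)) := by
  have h1 : Algebra.FiniteType ℤ (Algebra.adjoin ℤ (T : Set k)) :=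
    (Subalgebra.fg_iff_finiteType _).1 (Subalgebra.fg_adjoin_finset T)
  have h2 : ∀ x, x ∈ Algebra.adjoin ℤ (T : Set k) ↔ x ∈ Subring.closure (T : Set k) := by
    intro x
    rw [Algebra.adjoin_int]
    exact mem_subalgebraOfSubring
  let e : Algebra.adjoin ℤ (T : Set k) →+* Subring.closure (T : Set k) :=
    { toFun := fun x => ⟨x, (h2 x).1 x.2⟩
      map_one' := rfl
      map_mul' := fun _ _ => rfl
      map_zero' := rfl
      map_add' := fun _ _ => rfl }
  refine Algebra.FiniteType.of_surjective e.toIntAlgHom ?_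
  rintro ⟨x, hx⟩
  exact ⟨⟨x, (h2 x).2 hx⟩, rfl⟩

/-- **A relation over a field of characteristic zero comes from a subring of `ℤ_[p]`, `p > N`.** -/
theorem descent {k : Type u} [Field k] [CharZero k] {G : Type v} [Group G] {n : ℕ} (N r : ℕ)
    (C : Fin r → Subgroup G) (hC : ∀ i, Finite (C i)) (u : ∀ i, (MonoidAlgebra k (C i))ˣ)
    (z : ∀ i, HG (Subgroup.centralizer (C i : Set G)) n) (M : ℤ) (_hM : M ≠ 0)
    (h : M • assembly1 k n G (∑ i, sy1 ⟨C i, hC i⟩ (K1.unit (u i)) (z i)) = 0) :
    ∃ (p : ℕ) (_ : Fact p.Prime) (S : Subring k) (φ : S →+* ℤ_[p])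
      (v : ∀ i, (MonoidAlgebra S (C i))ˣ), N < p ∧ Function.Injective φ ∧
      (∀ i, MonoidAlgebra.mapRingHom (C i) S.subtype (v i : MonoidAlgebra S (C i)) = u i) ∧
      M • assembly1 S n G (∑ i, sy1 ⟨C i, hC i⟩ (K1.unit (v i)) (z i)) = 0 := by
  classical
  obtain ⟨S0, hS0⟩ := exists_subring C hC u z M h
  obtain ⟨T, hT⟩ : ∃ T : Finset k, T = insert ((N.factorial : k)⁻¹) S0 := ⟨_, rfl⟩
  have hft := finiteType_closure T
  obtain ⟨p, hp, φ, hφ⟩ := Pool.Agent.H71.KP.exists_padic_embedding (Subring.closure (T : Set k))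
  obtain ⟨v, hv, h2⟩ := hS0 (Subring.closure (T : Set k)) fun s hs =>
    Subring.subset_closure (by rw [hT]; exact Finset.mem_coe.2 (Finset.mem_insert_of_mem hs))
  refine ⟨p, hp, Subring.closure (T : Set k), φ, v, ?_, hφ, hv, h2⟩
  by_contra hlt
  have hle : p ≤ N := not_lt.1 hlt
  obtain ⟨a, ha⟩ : ∃ a : Subring.closure (T : Set k), (a : k) = (N.factorial : k)⁻¹ :=
    ⟨⟨(N.factorial : k)⁻¹, Subring.subset_closure (by
      rw [hT]
      exact Finset.mem_coe.2 (Finset.mem_insert_self _ _))⟩, rfl⟩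
  have h3 : (N.factorial : Subring.closure (T : Set k)) * a = 1 := by
    apply Subtype.ext
    push_cast
    rw [ha]
    exact mul_inv_cancel₀ (Nat.cast_ne_zero.2 (Nat.factorial_ne_zero N))
  have h4 : (N.factorial : ℤ_[p]) * φ a = 1 := by
    rw [← map_natCast φ, ← map_mul, h3, map_one]
  have h5 : (p : ℤ_[p]) ∣ 1 := by
    rw [← h4]
    exact dvd_mul_of_dvd_left (Nat.cast_dvd_cast ((Nat.Prime.dvd_factorial hp.out).2 hle)) _
  exact PadicInt.prime_p.not_isUnit (isUnit_of_dvd_one h5)

end Pool.Agent.H73.CZ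

end

section

/-!
# Semilocal rings and rings of characteristic `p`
-/

set_option autoImplicit false

open Matrix

universe u v w

namespace Pool.Agent.H71.DO

open Pool.Agent.H95.WH (K1 K1.mk K1.unit K1.map FinSub)

theorem hArt_field (k : Type u) [Field k] : HArt.{u, v} k :=
  fun F _ _ x => Pool.Agent.H95.WH.artin_K1_anyField k F x

theorem hArt_charP (k : Type u) [CommRing k] (p : ℕ) [Fact p.Prime] [CharP k p] : HArt.{u, v} k :=
  fun F _ _ x => Pool.Agent.H95.WH.artin_K1_charP k F p x

end Pool.Agent.H71.DO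

end

section

/-!
# `SK₁` is torsion for rings with finite quotients

Let `A` be a commutative ring with an element `q` such that `A/qA` is finite and `A/aA` is finite for
every `a` which is a unit modulo `q`. Then for every invertible matrix `U` over `A` there is an
`m > 0` with `m • [U] = m • [det U]` in `K₁(A)`. This is the argument of `Pool.Agent.H95.WH.Red`, which
treats the rings that are finitely generated free as abelian groups.
-/

set_option autoImplicit false

open Matrix

universe u v w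

namespace Pool.Agent.H71.DO

open Pool.Agent.H95.WH (K1 K1.mk K1.unit K1.map K1.cls K1.cls_mk K1.cls_mul K1.cls_one K1.cls_diagonal K1.unit_mul detU detU_val red_op red_row red_corner red_one sr_row men_torsion sl2 FinSub)

variable {A : Type u} [CommRing A]

/-- The condition on `A`. -/
def FinQ (A : Type u) [CommRing A] : Prop :=
  ∃ q : A, Finite (A ⧸ Ideal.span {q}) ∧
    ∀ a a' z : A, a * a' = 1 + q * z → Finite (A ⧸ Ideal.span {a})

theorem fq_fin1 (hA : FinQ A) {n : ℕ}
    (U : (Matrix (Fin (n + 1)) (Fin (n + 1)) A)ˣ) :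
    ∃ V : (Matrix (Fin (n + 1)) (Fin (n + 1)) A)ˣ, K1.cls V = K1.cls U ∧ detU V = detU U ∧
      Finite (A ⧸ Ideal.span {V.val 0 0}) := by
  obtain ⟨q, hq, hA⟩ := hA
  let π := Ideal.Quotient.mk (Ideal.span {q})
  obtain ⟨t, ht⟩ := sr_row (fun j => π (U.val 0 j)) (fun j => π (U.inv j 0)) (by
    rw [← map_one π, ← red_row U 0, map_sum]
    exact Finset.sum_congr rfl fun j _ => (map_mul π _ _).symm)
  choose s hs using fun i => Ideal.Quotient.mk_surjective (t i)
  obtain ⟨V, hV1, hV2, hV3⟩ := red_op U (fun j => j ≠ 0)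
    (fun i j => if j = 0 then (Fin.cases 0 s i : A) else 0) (by
      intro i j h
      by_cases hj : j = 0
      · have hi : i = 0 := by
          by_contra hi
          exact h ⟨hi, fun h' => h' hj⟩
        simp [hi]
      · simp [hj])
  refine ⟨V, hV1, hV2, ?_⟩
  have h1 : V.val 0 0 = U.val 0 0 + ∑ i, s i * U.val 0 i.succ := by
    rw [hV3, Fin.sum_univ_succ]
    simp [mul_comm]
  have h2 : IsUnit (π (V.val 0 0)) := by
    rw [h1, map_add, map_sum]
    convert ht using 4 with i
    rw [map_mul, ← hs]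
  obtain ⟨b, hb⟩ := h2.exists_right_inv
  obtain ⟨b, rfl⟩ := Ideal.Quotient.mk_surjective b
  rw [← map_mul, ← map_one π, Ideal.Quotient.eq, Ideal.mem_span_singleton] at hb
  obtain ⟨z, hz⟩ := hb
  exact hA (V.val 0 0) b z (by rw [← hz]; ring)

/-- The case of `SL₂`, `a` with finite quotient. -/
theorem fq_two (hA : FinQ A) (U : (Matrix (Fin 2) (Fin 2) A)ˣ) :
    ∃ m : ℕ, 0 < m ∧ m • K1.mk U = m • K1.unit (detU U) := by
  obtain ⟨V, hV1, hV2, hV3⟩ := fq_fin1 hA U
  rw [← K1.cls_mk, ← hV1, ← hV2]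
  clear hV1 hV2 U
  let δ := detU V
  have hδ : V.val 0 0 * V.val 1 1 - V.val 0 1 * V.val 1 0 = δ := by
    rw [← Matrix.det_fin_two]
    rfl
  have hδ' : (δ : A) * ((δ⁻¹ : Aˣ) : A) = 1 := Units.mul_inv δ
  have hS : V.val 0 0 * ((δ⁻¹ : Aˣ) * V.val 1 1) - V.val 0 1 * ((δ⁻¹ : Aˣ) * V.val 1 0) = 1 := by
    rw [← hδ', ← hδ]
    ring
  let D : (Matrix (Fin 2) (Fin 2) A)ˣ :=
    { val := Matrix.diagonal fun i => ((![1, δ] i : Aˣ) : A)
      inv := Matrix.diagonal fun i => (((![1, δ] i)⁻¹ : Aˣ) : A)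
      val_inv := by
        rw [Matrix.diagonal_mul_diagonal]
        simp
      inv_val := by
        rw [Matrix.diagonal_mul_diagonal]
        simp }
  have hD : K1.cls D = K1.unit δ := by
    rw [K1.cls_diagonal ![1, δ] D rfl, Fin.sum_univ_two]
    have h1 : K1.unit (1 : Aˣ) = 0 := by
      have h := K1.unit_mul (1 : Aˣ) 1
      rw [one_mul] at h
      exact left_eq_add.1 h
    change K1.unit 1 + K1.unit δ = _
    rw [h1, zero_add]
  have hVD : V = D * sl2 _ _ _ _ hS := by
    apply Units.ext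
    rw [Units.val_mul]
    change V.val = Matrix.diagonal _ * !![_, _; _, _]
    refine Matrix.ext fun i j => ?_
    rw [Matrix.diagonal_mul]
    fin_cases i <;> fin_cases j
    · simp
    · simp
    · simp
    · simp
  have hb : ∃ m : ℕ, 0 < m ∧ V.val 0 0 ∣ V.val 0 1 ^ m - 1 := by
    let π := Ideal.Quotient.mk (Ideal.span {V.val 0 0})
    have hu : π (V.val 0 1) * π (-((δ⁻¹ : Aˣ) * V.val 1 0)) = 1 := by
      rw [← map_mul, ← map_one π, Ideal.Quotient.eq, Ideal.mem_span_singleton]
      exact ⟨-((δ⁻¹ : Aˣ) * V.val 1 1), by linear_combination hS⟩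
    let u : (A ⧸ Ideal.span {V.val 0 0})ˣ := Units.mkOfMulEqOne _ _ hu
    refine ⟨Nat.card (A ⧸ Ideal.span {V.val 0 0})ˣ, Nat.card_pos, ?_⟩
    have h1 : u ^ Nat.card (A ⧸ Ideal.span {V.val 0 0})ˣ = 1 := pow_card_eq_one'
    have h2 := congrArg Units.val h1
    rw [Units.val_pow_eq_pow_val, Units.val_one] at h2
    change π (V.val 0 1) ^ _ = 1 at h2
    rw [← map_pow, ← map_one π, Ideal.Quotient.eq, Ideal.mem_span_singleton] at h2
    exact h2
  obtain ⟨m, hm, hdvd⟩ := hb
  refine ⟨m, hm, ?_⟩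
  have h3 := men_torsion _ _ _ _ hS m hdvd
  have h4 : K1.cls V = K1.unit δ + K1.mk (sl2 _ _ _ _ hS) := by
    rw [← hD, ← K1.cls_mk, ← K1.cls_mul, ← hVD]
  rw [h4, smul_add, h3, add_zero]

/-- Reduction of the size. -/
theorem fq_succ (hA : FinQ A) {n : ℕ}
    (U : (Matrix (Fin (n + 3)) (Fin (n + 3)) A)ˣ) :
    ∃ V : (Matrix (Fin (n + 2)) (Fin (n + 2)) A)ˣ, K1.mk U = K1.mk V ∧ detU U = detU V := by
  obtain ⟨V, hV1, hV2, hV3⟩ := fq_fin1 hA U
  let π := Ideal.Quotient.mk (Ideal.span {V.val 0 0})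
  have hπ : π (V.val 0 0) = 0 :=
    Ideal.Quotient.eq_zero_iff_mem.2 (Ideal.mem_span_singleton_self _)
  obtain ⟨t, ht⟩ := sr_row (fun j : Fin (n + 2) => π (V.val 0 j.succ))
    (fun j => π (V.inv j.succ 0)) (by
    have h := red_row V 0
    rw [Fin.sum_univ_succ] at h
    rw [← map_one π, ← h, map_add, map_mul, hπ, mul_zero, zero_add, map_sum]
    exact Finset.sum_congr rfl fun j _ => (map_mul π _ _).symm)
  choose s hs using fun i => Ideal.Quotient.mk_surjective (t i)
  obtain ⟨W, hW1, hW2, hW3⟩ := red_op V (fun j => j ≠ 1)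
    (fun i j => if j = 1 then (Fin.cases 0 (Fin.cases 0 s) i : A) else 0) (by
      intro i j h
      by_cases hj : j = 1
      · have hi : i = 1 := by
          by_contra hi
          exact h ⟨hi, fun h' => h' hj⟩
        rw [if_pos hj, hi]
        rfl
      · rw [if_neg hj])
  have h0 : W.val 0 0 = V.val 0 0 := by
    rw [hW3]
    simp
  have h1 : W.val 0 1 = V.val 0 1 + ∑ i, s i * V.val 0 i.succ.succ := by
    have e1 : ∑ i, s i * V.val 0 i.succ.succ =
        V.val 0 0 * 0 + (V.val 0 (Fin.succ 0) * 0 + ∑ i, V.val 0 i.succ.succ * s i) := by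
      rw [mul_zero, mul_zero, zero_add, zero_add]
      exact Finset.sum_congr rfl fun i _ => mul_comm _ _
    rw [hW3, Fin.sum_univ_succ, Fin.sum_univ_succ, e1]
    rfl
  have h2 : IsUnit (π (W.val 0 1)) := by
    have e : π (W.val 0 1) =
        π (V.val 0 (Fin.succ 0)) + ∑ i, t i * π (V.val 0 i.succ.succ) := by
      rw [h1, map_add, map_sum]
      refine congrArg₂ (· + ·) rfl (Finset.sum_congr rfl fun i _ => ?_)
      rw [map_mul, ← hs]
    rw [e]
    exact ht
  obtain ⟨b, hb⟩ := h2.exists_right_inv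
  obtain ⟨b, rfl⟩ := Ideal.Quotient.mk_surjective b
  rw [← map_mul, ← map_one π, Ideal.Quotient.eq, Ideal.mem_span_singleton] at hb
  obtain ⟨z, hz⟩ := hb
  rw [← h0] at hz
  obtain ⟨c, hc⟩ : ∃ c : Fin (n + 3), c = (0 : Fin (n + 1)).succ.succ := ⟨_, rfl⟩
  have hc0 : c ≠ 0 := by rw [hc]; exact Fin.succ_ne_zero _
  have hc1 : c ≠ 1 := by
    rw [hc]
    exact (Fin.succ_injective _).ne (Fin.succ_ne_zero _)
  obtain ⟨Z, hZ1, hZ2, hZ3⟩ := red_op W (fun j => j ≠ c)
    (fun i j => if j = c then (if i = 0 then (1 - W.val 0 c) * (-z) else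
      if i = 1 then (1 - W.val 0 c) * b else 0) else 0) (by
      intro i j h
      by_cases hj : j = c
      · have hi : i = c := by
          by_contra hi
          exact h ⟨hi, fun h' => h' hj⟩
        rw [if_pos hj, hi, if_neg hc0, if_neg hc1]
      · rw [if_neg hj])
  have h4 : Z.val 0 c = 1 := by
    rw [hZ3, Fin.sum_univ_succ, Fin.sum_univ_succ, Finset.sum_eq_zero]
    · have e1 : ((0 : Fin (n + 2)).succ : Fin (n + 3)) = 1 := rfl
      rw [e1, if_pos rfl, if_pos rfl, if_pos rfl, if_neg, if_pos rfl]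
      · linear_combination (1 - W.val 0 c) * hz
      · intro h
        have := congrArg Fin.val h
        simp at this
    · intro i _
      have e1 : (i.succ.succ : Fin (n + 3)) ≠ 0 := Fin.succ_ne_zero _
      have e2 : (i.succ.succ : Fin (n + 3)) ≠ 1 :=
        (Fin.succ_injective _).ne (Fin.succ_ne_zero _)
      rw [if_neg e1, if_neg e2]
      simp
  obtain ⟨Y, hY1, hY2⟩ := red_one Z c hc0 h4
  refine ⟨Y, ?_, ?_⟩
  · rw [← hY1, ← K1.cls_mk, ← K1.cls_mk, hZ1, hW1, hV1]
  · rw [← hY2, hZ2, hW2, hV2]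

theorem fq_det_torsion (hA : FinQ A) {n : ℕ}
    (U : (Matrix (Fin n) (Fin n) A)ˣ) :
    ∃ m : ℕ, 0 < m ∧ m • K1.mk U = m • K1.unit (detU U) := by
  have hu1 : K1.unit (1 : Aˣ) = 0 := by
    have h := K1.unit_mul (1 : Aˣ) 1
    rw [one_mul] at h
    exact left_eq_add.1 h
  match n, U with
  | 0, U =>
    refine ⟨1, one_pos, ?_⟩
    have h1 : U = 1 := Units.ext (Subsingleton.elim _ _)
    rw [h1, map_one, hu1, ← K1.cls_mk, K1.cls_one]
  | 1, U =>
    refine ⟨1, one_pos, ?_⟩
    rw [K1.unit]
    congr 2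
    apply Units.ext
    refine Matrix.ext fun i j => ?_
    change U.val i j = (Matrix.scalar (Fin 1)) U.val.det i j
    rw [Matrix.det_fin_one, Matrix.scalar_apply, Subsingleton.elim i 0, Subsingleton.elim j 0,
      Matrix.diagonal_apply_eq]
  | 2, U => exact fq_two hA U
  | (n + 3), U =>
    obtain ⟨V, hV1, hV2⟩ := fq_succ hA U
    rw [hV1, hV2]
    exact fq_det_torsion hA V

/-- A domain in which all proper quotients are finite. -/
def FNDomain (R : Type u) [CommRing R] : Prop :=
  ∀ r : R, r ≠ 0 → Finite (R ⧸ Ideal.span {r})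

theorem norm_mul {R : Type u} [CommRing R] {A : Type v} [CommRing A] [Algebra R A] {ι : Type w}
    [Fintype ι] [DecidableEq ι] (b : Module.Basis ι R A) (a : A) :
    ∃ y : A, algebraMap R A (Algebra.norm R a) = a * y := by
  let M := Algebra.leftMulMatrix b a
  let v : ι → R := b.repr 1
  let y : A := b.repr.symm (Finsupp.equivFunOnFinite.symm (M.adjugate *ᵥ v))
  refine ⟨y, ?_⟩
  have hy : (b.repr y : ι → R) = M.adjugate *ᵥ v := by
    simp only [y, LinearEquiv.apply_symm_apply]
    rfl
  apply b.repr.injective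
  apply DFunLike.coe_injective
  rw [← Algebra.leftMulMatrix_mulVec_repr b a y, hy, Matrix.mulVec_mulVec, Matrix.mul_adjugate,
    Matrix.smul_mulVec, Matrix.one_mulVec, ← Algebra.norm_eq_matrix_det b a,
    Algebra.algebraMap_eq_smul_one, map_smul]
  rfl

theorem finite_quot_map {R : Type u} [CommRing R] {A : Type v} [CommRing A] [Algebra R A]
    [Module.Finite R A] (r : R) (h : Finite (R ⧸ Ideal.span {r})) :
    Finite (A ⧸ Ideal.span {algebraMap R A r}) := by
  have h1 : Ideal.span {algebraMap R A r} = (Ideal.span {r}).map (algebraMap R A) := by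
    rw [Ideal.map_span, Set.image_singleton]
  rw [h1]
  have h2 : Module.Finite R (A ⧸ (Ideal.span {r}).map (algebraMap R A)) :=
    Module.Finite.of_surjective
      (Ideal.Quotient.mkₐ R ((Ideal.span {r}).map (algebraMap R A))).toLinearMap
      Ideal.Quotient.mk_surjective
  have h3 : Module.Finite (R ⧸ Ideal.span {r}) (A ⧸ (Ideal.span {r}).map (algebraMap R A)) :=
    Module.Finite.of_restrictScalars_finite R _ _
  exact Module.finite_of_finite (R ⧸ Ideal.span {r})

theorem finite_quot_of_mul {A : Type v} [CommRing A] (a y : A)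
    (h : Finite (A ⧸ Ideal.span {a * y})) : Finite (A ⧸ Ideal.span {a}) := by
  have h1 : Ideal.span {a * y} ≤ Ideal.span {a} := by
    rw [Ideal.span_singleton_le_span_singleton]
    exact Dvd.intro _ rfl
  exact Finite.of_surjective _ (Ideal.Quotient.factor_surjective h1)

theorem finQ_of {R : Type u} [CommRing R] [IsDomain R] (hR : FNDomain R) (hf : ¬ IsField R)
    {A : Type v} [CommRing A] [Algebra R A] {ι : Type w} [Fintype ι] [DecidableEq ι]
    (b : Module.Basis ι R A) : FinQ A := by
  obtain ⟨q, hq0, hq1⟩ : ∃ q : R, q ≠ 0 ∧ ¬ IsUnit q := by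
    by_contra hcon
    apply hf
    refine ⟨exists_pair_ne R, mul_comm, fun {a} ha => ?_⟩
    have h1 : IsUnit a := by
      by_contra h2
      exact hcon ⟨a, ha, h2⟩
    exact h1.exists_right_inv
  have hfin : Module.Finite R A := Module.Finite.of_basis b
  have hfree : Module.Free R A := Module.Free.of_basis b
  refine ⟨algebraMap R A q, finite_quot_map q (hR q hq0), ?_⟩
  intro a a' z h
  obtain ⟨y, hy⟩ := norm_mul b a
  apply finite_quot_of_mul a y
  rw [← hy]
  apply finite_quot_map _ (hR _ _)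
  intro h0
  apply hq1
  have h1 : Algebra.norm R (1 + algebraMap R A q * z) = 0 := by
    rw [← h, map_mul, h0, zero_mul]
  have h2 : ∃ t : R, Algebra.norm R (1 + algebraMap R A q * z) = 1 + q * t := by
    rw [Algebra.norm_eq_matrix_det b, map_add, map_one, map_mul]
    have h3 : Algebra.leftMulMatrix b (algebraMap R A q) = q • (1 : Matrix ι ι R) := by
      rw [Algebra.algebraMap_eq_smul_one, map_smul, map_one]
    rw [h3, Matrix.smul_mul, Matrix.one_mul]
    have h4 : (Ideal.Quotient.mk (Ideal.span {q})) (1 + q • Algebra.leftMulMatrix b z).det = 1 := by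
      rw [RingHom.map_det]
      have h5 : (Ideal.Quotient.mk (Ideal.span {q})).mapMatrix
          (1 + q • Algebra.leftMulMatrix b z) = 1 := by
        refine Matrix.ext fun i j => ?_
        change (Ideal.Quotient.mk (Ideal.span {q})) ((1 : Matrix ι ι R) i j +
          q * Algebra.leftMulMatrix b z i j) = _
        rw [map_add, map_mul, Ideal.Quotient.eq_zero_iff_mem.2 (Ideal.mem_span_singleton_self q),
          zero_mul, add_zero, Matrix.one_apply, Matrix.one_apply]
        split_ifs
        · exact map_one _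
        · exact map_zero _
      rw [h5, Matrix.det_one]
    rw [← map_one (Ideal.Quotient.mk (Ideal.span {q})), Ideal.Quotient.eq,
      Ideal.mem_span_singleton] at h4
    obtain ⟨t, ht⟩ := h4
    exact ⟨t, by linear_combination ht⟩
  obtain ⟨t, ht⟩ := h2
  rw [h1] at ht
  exact IsUnit.of_mul_eq_one (-t) (by linear_combination ht)

theorem hUnit_fn (R : Type u) [CommRing R] [IsDomain R] (hR : FNDomain R) : HUnit.{u, v} R := by
  by_cases hf : IsField R
  · let _ : Field R := hf.toField
    exact hUnit_field R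
  intro C _ _ _
  let _ : CommGroup C := IsCyclic.commGroup
  apply unit_of_mk
  intro n U
  classical
  have := Fintype.ofFinite C
  obtain ⟨m, hm, h⟩ := fq_det_torsion (finQ_of hR hf (MonoidAlgebra.basis C R)) U
  exact ⟨m, detU U ^ m, hm, by rw [K1_unit_pow]; exact h⟩

theorem hArt_fn (R : Type u) [CommRing R] [IsDomain R] (hR : FNDomain R) : HArt.{u, v} R := by
  obtain ⟨p, hp⟩ := CharP.exists R
  rcases CharP.char_is_prime_or_zero R p with h1 | h1
  · have : Fact p.Prime := ⟨h1⟩
    exact hArt_charP R p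
  · subst h1
    have : CharZero R := CharP.charP_to_charZero R
    exact hArt_of R (fun n hn => hR (n : R) (Nat.cast_ne_zero.2 hn))

end Pool.Agent.H71.DO

end
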