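import Pool.Agent.H71.TCZ.H71.CZ.Eta
import Pool.Agent.H71.TCZ.M42
import Pool.Agent.H71.TCZ.M59

/-! The parts of this file: H71.CZ.TrW_1, H71.KP.Place, H71.KP.TorsP. -/

section

/-!
# Project CZ: the lift of a unit of the group ring of a finite abelian group and its trace at `hat c`

`D` a finite abelian group, `u` a unit of `B[D]`; `Y = Fin 1`, so `ZMod p → Fin 1` has one element.

PROOF of `exists_uD`: `x = tpM u - beM u` is invariant under the shift and all its coefficients are divisible by `p ^ 4` (`tp` of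
`1 + p ^ 4 a` minus `1`: multilinearity), `x = p ^ 4 y`, `y` invariant (`B` torsion free), `p y = nm z` by `exists_nm`, so
`x = nm (p ^ 3 z)`.  The element `mkD (beM u) (p ^ 3 z)` is above the unit `eta u`, so it is a unit (`isUnit_lift`), and
`jR` of it is `1 + p ^ 2 (..)`.
PROOF of `trace_hat`: `X = uD ^ k`, `b = X 1 1 = beM (u ^ k) = dgM (u ^ k)` (one index, which is constant), `b + nm z = tpM (u ^ k)`, `z = X 1 0`.
The coefficient of `jR X` at `inc h * sg` is the coefficient of `z` at `h` (`jR_apply`, term `j = 1`).  `ε_d (z) = ∑_{pr0 h = d} z_h` satisfies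
`ε_d (nm z) = p ε_d z` (`pr0 (shG h) = pr0 h` as `D` is abelian), `ε_d (tpM v) = (v ^ p)_d`, `ε_d (dgM v) = ∑_{g ^ p = d} v_g`.
-/

set_option autoImplicit false

open Matrix

universe u v w

namespace Pool.Agent.H71.CZ

section

variable {p : ℕ} [hp : Fact p.Prime] {B : Type u} [CommRing B] {D : Type v} [Group D]

private theorem dgM_zero (U : Matrix (Fin 1) (Fin 1) (MonoidAlgebra B D)) (v w : ZMod p → Fin 1) :
    (dgM U : MM p B D (Fin 1)) v w = MonoidAlgebra.mapDomainRingHom B (dgG p D) (U 0 0) := by
  rw [dgM, if_pos ⟨fun _ => Subsingleton.elim _ _, fun _ => Subsingleton.elim _ _⟩]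
  congr 2
  · exact Subsingleton.elim _ _
  · exact Subsingleton.elim _ _

private theorem beM_zero (U : Matrix (Fin 1) (Fin 1) (MonoidAlgebra B D)) (v w : ZMod p → Fin 1) :
    (beM U : MM p B D (Fin 1)) v w = MonoidAlgebra.mapDomainRingHom B (dgG p D) (U 0 0) := by
  have hvw : v = w := Subsingleton.elim _ _
  rw [beM_apply, Matrix.add_apply, Matrix.sub_apply, dgM_zero, dgM_zero, hvw, Matrix.one_apply_eq,
    Matrix.one_apply_eq, map_one, sub_self, zero_add]

private theorem tpM_zero (U : Matrix (Fin 1) (Fin 1) (MonoidAlgebra B D)) (v w : ZMod p → Fin 1) :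
    (tpM U : MM p B D (Fin 1)) v w = tp fun _ => U 0 0 := by
  rw [tpM_apply]
  congr 1
  funext i
  congr 1
  · exact Subsingleton.elim _ _
  · exact Subsingleton.elim _ _

omit hp in
private theorem mm_tf (hB : GoodB p B) {n : ℕ} (hn : n ≠ 0) {m : MM p B D (Fin 1)}
    (h : n • m = 0) : m = 0 := by
  funext v w
  refine MonoidAlgebra.coeff_injective (Finsupp.ext fun g => ?_)
  have h1 : ((n • m) v w).coeff g = ((0 : MM p B D (Fin 1)) v w).coeff g := by rw [h]
  rw [Matrix.smul_apply, MonoidAlgebra.coeff_smul, Finsupp.smul_apply, nsmul_eq_mul,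
    Matrix.zero_apply, MonoidAlgebra.coeff_zero, Finsupp.zero_apply] at h1
  rw [Matrix.zero_apply, MonoidAlgebra.coeff_zero, Finsupp.zero_apply]
  exact hB.tf _ n hn h1

/-- **The lift.** -/
theorem exists_uD (hB : GoodB p B) (u : (MonoidAlgebra B D)ˣ) (a : MonoidAlgebra B D)
    (hu : (u : MonoidAlgebra B D) = 1 + (p : MonoidAlgebra B D) ^ 4 * a) :
    ∃ uD : (Dt (shM p B D (Fin 1)))ˣ, prU (shM p B D (Fin 1)) uD = eta hB (sc1 u) ∧
      ∃ X : Matrix (ZMod p → Fin 1) (ZMod p → Fin 1) (MonoidAlgebra B (Wr p D)),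
        (jU p B D (Fin 1) uD).val = 1 + ((p : B) ^ 2) • X := by
  classical
  have hp0 : p ≠ 0 := hp.out.ne_zero
  have hu' : (u : MonoidAlgebra B D) = 1 + ((p ^ 4 : ℕ) : B) • a := by
    rw [hu, ← natCast_mul', Nat.cast_pow]
  set U : Matrix (Fin 1) (Fin 1) (MonoidAlgebra B D) := (sc1 u).val with hU
  have hU0 : U 0 0 = 1 + ((p ^ 4 : ℕ) : B) • a := by rw [hU, sc1_zero, hu']
  obtain ⟨t, ht⟩ := tp_congr (D := D) ((p ^ 4 : ℕ) : B) a (Finset.univ : Finset (ZMod p))
  simp only [Finset.mem_univ, if_true] at ht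
  set a' : MonoidAlgebra B (ZMod p → D) := MonoidAlgebra.mapDomainRingHom B (dgG p D) a with ha'
  set Y' : MM p B D (Fin 1) := fun _ _ => a' with hY'
  set Y : MM p B D (Fin 1) := fun _ _ => t - a' with hY
  have hsm : ∀ (n : ℕ) (x : MonoidAlgebra B D), MonoidAlgebra.mapDomainRingHom B (dgG p D)
      ((n : B) • x) = (n : B) • MonoidAlgebra.mapDomainRingHom B (dgG p D) x := by
    intro n x
    rw [← natCast_mul', map_mul, map_natCast, natCast_mul']
  have hbe : ∀ v w, (beM U : MM p B D (Fin 1)) v w = 1 + ((p ^ 4 : ℕ) : B) • a' := by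
    intro v w
    rw [beM_zero, hU0, map_add, map_one, hsm]
  have hone : ∀ v w : ZMod p → Fin 1, (1 : MM p B D (Fin 1)) v w = 1 := by
    intro v w
    rw [Subsingleton.elim v w, Matrix.one_apply_eq]
  have hbeM : (beM U : MM p B D (Fin 1)) = 1 + (p ^ 4) • Y' := by
    funext v w
    rw [hbe, Matrix.add_apply, Matrix.smul_apply, hone, Nat.cast_smul_eq_nsmul]
  have hx : (tpM U : MM p B D (Fin 1)) = beM U + (p ^ 4) • Y := by
    funext v w
    rw [Matrix.add_apply, Matrix.smul_apply, hbe, tpM_zero, hU0, ht]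
    show 1 + ((p ^ 4 : ℕ) : B) • t = 1 + ((p ^ 4 : ℕ) : B) • a' + (p ^ 4) • (t - a')
    rw [← Nat.cast_smul_eq_nsmul B, smul_sub]
    abel
  have hsY : sM p B D (Fin 1) Y = Y := by
    have h1 : (p ^ 4) • (sM p B D (Fin 1) Y - Y) = 0 := by
      have h2 : (p ^ 4) • Y = (tpM U : MM p B D (Fin 1)) - beM U := by
        rw [hx, add_sub_cancel_left]
      rw [nsmul_sub, ← map_nsmul, h2, map_sub, s_tpM, s_beM, sub_self]
    exact sub_eq_zero.1 (mm_tf hB (pow_ne_zero 4 hp0) h1)
  obtain ⟨z, hz⟩ := exists_nm (p • Y) (by rw [map_nsmul, hsY]) (by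
    intro y y' g
    refine ⟨(Y (fun _ => y) (fun _ => y')).coeff fun _ => g, ?_⟩
    rw [Matrix.smul_apply, MonoidAlgebra.coeff_smul, Finsupp.smul_apply, nsmul_eq_mul])
  have hxz : (tpM U : MM p B D (Fin 1)) = beM U + (shM p B D (Fin 1)).nm (p ^ 3 • z) := by
    rw [hx, map_nsmul, ← hz, smul_smul, ← pow_succ]
  set X : Dt (shM p B D (Fin 1)) := mkD (shM p B D (Fin 1)) (beM U) (p ^ 3 • z) (s_beM U) with hX
  have hpr : prD (shM p B D (Fin 1)) X = (eta hB (sc1 u)).val := by
    refine Subtype.ext (Prod.ext ?_ ?_)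
    · exact hxz.symm
    · rfl
  have hunit : IsUnit X := isUnit_lift _ X (by rw [hpr]; exact Units.isUnit _)
  refine ⟨hunit.unit, Units.ext hpr, ?_⟩
  refine ⟨((p : B) ^ 2) • iS p B D (Fin 1) Y' +
    (p : B) • (iS p B D (Fin 1) z * ∑ j ∈ Finset.range p, piS p B D (Fin 1) ^ j), ?_⟩
  have h1 : (jU p B D (Fin 1) hunit.unit).val = iS p B D (Fin 1) (beM U) +
      iS p B D (Fin 1) (p ^ 3 • z) * ∑ j ∈ Finset.range p, piS p B D (Fin 1) ^ j := rfl
  rw [h1, hbeM, map_add, map_one, map_nsmul, map_nsmul, smul_mul_assoc, smul_add, smul_smul,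
    smul_smul, add_assoc, ← Nat.cast_smul_eq_nsmul B, ← Nat.cast_smul_eq_nsmul B, ← pow_add,
    ← pow_succ, Nat.cast_pow, Nat.cast_pow]

open Classical in
/-- **The trace of the lift.** -/
theorem trace_hat [Fintype D] (hD : ∀ a b : D, a * b = b * a) (hB : GoodB p B)
    (u : (MonoidAlgebra B D)ˣ) (uD : (Dt (shM p B D (Fin 1)))ˣ)
    (h : prU (shM p B D (Fin 1)) uD = eta hB (sc1 u)) (k : ℕ) (d : D) :
    (p : B) * ∑ g : ZMod p → D with pr0 g = d,
        ((jU p B D (Fin 1) (uD ^ k)).val 0 0).coeff (inc p D g * sg p D) =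
      (((u : MonoidAlgebra B D) ^ k) ^ p).coeff d -
        ∑ g : D with g ^ p = d, ((u : MonoidAlgebra B D) ^ k).coeff g := by
  set X : Dt (shM p B D (Fin 1)) := ((uD ^ k : (Dt (shM p B D (Fin 1)))ˣ) :
    Dt (shM p B D (Fin 1))) with hX
  set w : MonoidAlgebra B D := (u : MonoidAlgebra B D) ^ k with hw
  have hpr : prD (shM p B D (Fin 1)) X = (eta hB (sc1 (u ^ k))).val := by
    have h1 : prU (shM p B D (Fin 1)) (uD ^ k) = eta hB (sc1 (u ^ k)) := by
      have h2 : sc1 (u ^ k) = (sc1 u) ^ k := map_pow _ u k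
      rw [map_pow, h, h2, map_pow]
    exact congrArg Units.val h1
  have h00 : X.1 0 0 = tpM (sc1 (u ^ k)).val := by
    rw [← prD_fst, hpr, eta_fst]
  have h11 : X.1 1 1 = beM (sc1 (u ^ k)).val := by
    rw [← prD_snd, hpr, eta_snd]
  have hnm : X.1 0 0 = X.1 1 1 + (shM p B D (Fin 1)).nm (X.1 1 0) := X.2.2.2
  have hw0 : (sc1 (u ^ k)).val 0 0 = w := by
    rw [sc1_zero, Units.val_pow_eq_pow_val]
  -- the functional
  obtain ⟨ε, hε⟩ : ∃ ε : MM p B D (Fin 1) →+ B, ∀ m, ε m =
      ∑ g : ZMod p → D with pr0 g = d, (m 0 0).coeff g := by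
    refine ⟨⟨⟨fun m => ∑ g : ZMod p → D with pr0 g = d, (m 0 0).coeff g, ?_⟩, ?_⟩, fun _ => rfl⟩
    · simp
    · intro m n
      simp only [Matrix.add_apply, MonoidAlgebra.coeff_add, Finsupp.add_apply,
        Finset.sum_add_distrib]
  have hs : ∀ m, ε (sM p B D (Fin 1) m) = ε m := by
    intro m
    rw [hε, hε, sM_apply]
    have e := eps_map (shG p D) (fun g => pr0 g = d)
      (m (fun i => (0 : ZMod p → Fin 1) (i - 1)) fun i => (0 : ZMod p → Fin 1) (i - 1))
    rw [e]
    simp only [pr0_shG hD]
    rfl
  have hsj : ∀ (j : ℕ) (m : MM p B D (Fin 1)),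
      ε (((shM p B D (Fin 1)).s : MM p B D (Fin 1) → MM p B D (Fin 1))^[j] m) = ε m := by
    intro j
    induction j with
    | zero => intro m; rfl
    | succ j ih =>
      intro m
      rw [Function.iterate_succ_apply, ih]
      exact hs m
  have hεn : ∀ m, ε ((shM p B D (Fin 1)).nm m) = (p : B) * ε m := by
    intro m
    rw [Sh.nm_apply, map_sum, Finset.sum_congr rfl fun j _ => hsj j m, Finset.sum_const,
      Finset.card_range, nsmul_eq_mul]
  -- the coefficients of the image
  have hcoef : ∀ g : ZMod p → D,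
      ((jU p B D (Fin 1) (uD ^ k)).val 0 0).coeff (inc p D g * sg p D) =
        (X.1 1 0 0 0).coeff g := by
    intro g
    have h1 : (jU p B D (Fin 1) (uD ^ k)).val = jR p B D (Fin 1) X := rfl
    have hz : ∀ j : ℕ, (fun i : ZMod p => (0 : ZMod p → Fin 1) (i + (j : ZMod p))) = 0 :=
      fun j => rfl
    have hnot : ∀ (A : MonoidAlgebra B (ZMod p → D)) (x : Wr p D), (∀ g', inc p D g' ≠ x) →
        (MonoidAlgebra.mapDomainRingHom B (inc p D) A).coeff x = 0 := by
      intro A x hx
      refine Finsupp.mapDomain_of_notMem_range A.coeff x ?_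
      rintro ⟨g', hg'⟩
      exact hx g' hg'
    have hyes : ∀ (A : MonoidAlgebra B (ZMod p → D)),
        (MonoidAlgebra.mapDomainRingHom B (inc p D) A).coeff (inc p D g) = A.coeff g :=
      fun A => Finsupp.mapDomain_apply inc_injective A.coeff g
    have hright : ∀ j : ℕ, SemidirectProduct.rightHom (sg p D ^ j) =
        Multiplicative.ofAdd (j : ZMod p) := by
      intro j
      have h2 := right_inc_sg (1 : ZMod p → D) j
      rwa [map_one, one_mul] at h2
    rw [h1, jR_apply, MonoidAlgebra.coeff_add, Finsupp.add_apply, MonoidAlgebra.coeff_sum,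
      Finsupp.finsetSum_apply]
    simp only [hz, MonoidAlgebra.coeff_mul_single_apply, mul_one]
    rw [hnot _ _ (fun g' hg' => by
      have h2 := inc_sg_notMem g 1 one_ne_zero hp.out.one_lt g'
      rw [pow_one] at h2
      exact h2 hg'.symm), zero_add, Finset.sum_eq_single 1]
    · rw [pow_one, mul_inv_cancel_right, hyes]
    · intro j hj hj1
      refine hnot _ _ fun g' hg' => hj1 ?_
      have h2 := congrArg SemidirectProduct.rightHom hg'
      have h3 := right_inc_sg g 1
      rw [pow_one] at h3
      rw [right_inc, map_mul, h3, map_inv, hright, eq_mul_inv_iff_mul_eq, one_mul] at h2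
      have h4 : (j : ZMod p) = ((1 : ℕ) : ZMod p) := congrArg Multiplicative.toAdd h2
      have h5 := congrArg ZMod.val h4
      rwa [ZMod.val_natCast, ZMod.val_natCast, Nat.mod_eq_of_lt (Finset.mem_range.1 hj),
        Nat.mod_eq_of_lt hp.out.one_lt] at h5
    · intro hn
      exact absurd (Finset.mem_range.2 hp.out.one_lt) hn
  rw [Finset.sum_congr rfl fun g _ => hcoef g]
  have h2 : (p : B) * ∑ g : ZMod p → D with pr0 g = d, (X.1 1 0 0 0).coeff g =
      ε (X.1 0 0) - ε (X.1 1 1) := by
    rw [hnm, map_add, add_sub_cancel_left, hεn, hε]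
  rw [h2, h00, h11, hε, hε, tpM_zero, beM_zero, hw0, eps_tp]
  congr 1
  rw [eps_map (dgG p D) (fun g => pr0 g = d) w]
  have h3 : ∀ g : D, pr0 (dgG p D g) = g ^ p := by
    intro g
    show (List.ofFn fun _ : Fin p => g).prod = g ^ p
    rw [List.ofFn_const, List.prod_replicate]
  simp only [h3]

end

end Pool.Agent.H71.CZ

end

section

/-!
# Embeddings of finitely generated fields of characteristic `p` in fields of Laurent series

PROOF. Let `Ω` be an algebraic closure of `k`. Extend `x` to a transcendence basis `{x} ∪ B'` of `k`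
over `ZMod p` (`x ∉ B'`), and let `E` be the algebraic closure of `(ZMod p)(B')` in `Ω`
(`algebraicClosure`, an intermediate field; it is algebraically closed since `Ω` is), and
`K = E k` the subfield of `Ω` generated by `E` and `k` (`IntermediateField.adjoin E`). Then `x` is
transcendental over `E`, `K` is algebraic over `E(x)` and essentially of finite type over `E`. As `E`
is perfect there is a separating transcendence basis `s` of `K` over `E`
(`exists_isTranscendenceBasis_and_isSeparable_of_perfectField`), which has one element `y`, since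
`{x}` is also a transcendence basis. `K` is finite over `E(y)`. Apply `exists_dvr` to `x`, then
`exists_laurent_of_dvr` to the discrete valuation ring, and restrict to `k`. Note that
`order (φ (x⁻¹)) = - order (φ x)`.
-/

set_option autoImplicit false

universe u v

namespace Pool.Agent.H71.KP

open IntermediateField

theorem Place_trdeg_simple {E Ω : Type u} [Field E] [Field Ω] [Algebra E Ω] (x' : Ω) :
    Algebra.trdeg E (IntermediateField.adjoin E {x'}) ≤ 1 := by
  open scoped algebraAdjoinAdjoin in
  have alg : Algebra.IsAlgebraic (Algebra.adjoin E {AdjoinSimple.gen E x'})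
      (IntermediateField.adjoin E {x'}) := by
    let v : IntermediateField.adjoin E {x'} →ₐ[E] Ω := (IntermediateField.adjoin E {x'}).val
    have hmap : (Algebra.adjoin E {AdjoinSimple.gen E x'}).map v = Algebra.adjoin E {x'} := by
      rw [AlgHom.map_adjoin]
      simp [v]
    have hmem : ∀ w : Algebra.adjoin E {AdjoinSimple.gen E x'},
        v (w : IntermediateField.adjoin E {x'}) ∈ Algebra.adjoin E {x'} := by
      intro w
      rw [← hmap]
      exact ⟨w, w.2, rfl⟩
    let f : Algebra.adjoin E {AdjoinSimple.gen E x'} →+* Algebra.adjoin E {x'} :=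
      { toFun := fun w => ⟨v w, hmem w⟩
        map_one' := by ext; simp
        map_mul' := by intro a b; ext; simp
        map_zero' := by ext; simp
        map_add' := by intro a b; ext; simp }
    refine Algebra.IsAlgebraic.of_ringHom_of_comp_eq (S := Algebra.adjoin E {x'})
      (B := IntermediateField.adjoin E {x'}) f
      (RingHom.id (IntermediateField.adjoin E {x'})) ?_ Function.injective_id ?_
    · rintro ⟨w, hw⟩
      rw [← hmap] at hw
      obtain ⟨z, hz, rfl⟩ := hw
      exact ⟨⟨z, hz⟩, rfl⟩
    · ext w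
      rfl
  refine le_trans (Algebra.IsAlgebraic.trdeg_le_cardinalMk E {AdjoinSimple.gen E x'}) ?_
  simp

theorem Place_alg {R : Type v} {k Ω : Type u} [Field R] [Field k] [Field Ω] [Algebra R k] [Algebra R Ω]
    [Algebra k Ω] [IsScalarTower R k Ω] {t : Set k}
    (ht : IsTranscendenceBasis R ((↑) : t → k)) (x : k)
    {E : Type u} [Field E] [Algebra E Ω] [Algebra R E] [IsScalarTower R E Ω]
    (hE : ∀ y ∈ t, y ≠ x → algebraMap k Ω y ∈ (algebraMap E Ω).range) (z : k) :
    IsAlgebraic (IntermediateField.adjoin E {algebraMap k Ω x}) (algebraMap k Ω z) := by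
  have h1 := ht.isAlgebraic_field
  have h2 := h1.isAlgebraic z
  set L := IntermediateField.adjoin E {algebraMap k Ω x} with hL
  have hle : IntermediateField.adjoin R (Set.range ((↑) : t → k)) ≤
      (L.restrictScalars R).comap (IsScalarTower.toAlgHom R k Ω) := by
    rw [IntermediateField.adjoin_le_iff]
    rintro _ ⟨y, rfl⟩
    show algebraMap k Ω (y : k) ∈ L
    by_cases hyx : (y : k) = x
    · rw [hyx]
      exact IntermediateField.mem_adjoin_simple_self E _
    · obtain ⟨e, he⟩ := hE y y.2 hyx
      rw [← he]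
      exact L.algebraMap_mem e
  have hmem : ∀ w : IntermediateField.adjoin R (Set.range ((↑) : t → k)),
      algebraMap k Ω (w : k) ∈ L := fun w => hle w.2
  let f : IntermediateField.adjoin R (Set.range ((↑) : t → k)) →+* L :=
    { toFun := fun w => ⟨algebraMap k Ω (w : k), hmem w⟩
      map_one' := by ext; simp
      map_mul' := by intro a b; ext; simp
      map_zero' := by ext; simp
      map_add' := by intro a b; ext; simp }
  refine h2.ringHom_of_comp_eq f (algebraMap k Ω) f.injective ?_
  ext w
  rfl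

theorem Place_tr {R : Type v} {k Ω : Type u} [Field R] [Field k] [Field Ω] [Algebra R k] [Algebra R Ω]
    [Algebra k Ω] [IsScalarTower R k Ω] {t : Set k}
    (ht : IsTranscendenceBasis R ((↑) : t → k)) (x : k) (hx : x ∈ t) :
    Transcendental (IntermediateField.adjoin R ((algebraMap k Ω) '' (t \ {x})))
      (algebraMap k Ω x) := by
  have h1 : AlgebraicIndependent R ((IsScalarTower.toAlgHom R k Ω) ∘ ((↑) : t → k)) :=
    ht.1.map' (f := IsScalarTower.toAlgHom R k Ω) (algebraMap k Ω).injective
  have h2 := h1.transcendental_adjoin (s := {i : t | (i : k) ≠ x}) (i := ⟨x, hx⟩) (by simp)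
  have hset : ((IsScalarTower.toAlgHom R k Ω) ∘ ((↑) : t → k)) '' {i : t | (i : k) ≠ x}
      = (algebraMap k Ω) '' (t \ {x}) := by
    ext w
    constructor
    · rintro ⟨i, hi, rfl⟩
      exact ⟨i, ⟨i.2, hi⟩, rfl⟩
    · rintro ⟨i, ⟨hi1, hi2⟩, rfl⟩
      exact ⟨⟨i, hi1⟩, hi2, rfl⟩
  rw [hset] at h2
  open scoped algebraAdjoinAdjoin in
  exact h2.extendScalars (S := IntermediateField.adjoin R ((algebraMap k Ω) '' (t \ {x})))

theorem Place_exE {R : Type v} {k Ω : Type u} [Field R] [Field k] [Field Ω] [Algebra R k] [Algebra R Ω]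
    [Algebra k Ω] [IsScalarTower R k Ω] [IsAlgClosed Ω] (x : k) {t : Set k}
    (ht : IsTranscendenceBasis R ((↑) : t → k)) (hxt : x ∈ t) (F0 : IntermediateField R Ω)
    (hF0 : F0 = IntermediateField.adjoin R ((algebraMap k Ω) '' (t \ {x}))) :
    ∃ (E : Type u) (_ : Field E) (_ : IsAlgClosed E) (_ : Algebra E Ω),
      (∀ r : R, algebraMap R Ω r ∈ (algebraMap E Ω).range) ∧
      Transcendental E (algebraMap k Ω x) ∧
      ∀ z : k, IsAlgebraic (IntermediateField.adjoin E {algebraMap k Ω x}) (algebraMap k Ω z) := by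
  have htr0 : Transcendental F0 (algebraMap k Ω x) := by
    subst hF0
    exact Place_tr ht x hxt
  have hE : IsAlgClosed (algebraicClosure F0 Ω) :=
    (IsAlgClosed.algebraicClosure_eq_bot_iff (algebraicClosure F0 Ω) Ω).mp
      (algebraicClosure.algebraicClosure_eq_bot F0 Ω)
  have htow : IsScalarTower R (algebraicClosure F0 Ω) Ω :=
    IsScalarTower.of_algebraMap_eq (fun r => rfl)
  refine ⟨algebraicClosure F0 Ω, inferInstance, hE, inferInstance,
    fun r => ⟨algebraMap R (algebraicClosure F0 Ω) r, rfl⟩, htr0.algebraicClosure, ?_⟩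
  intro z
  refine Place_alg (R := R) (E := algebraicClosure F0 Ω) ht x ?_ z
  intro y hy hyx
  have h1 : algebraMap k Ω y ∈ F0 := by
    rw [hF0]
    exact IntermediateField.subset_adjoin _ _ ⟨y, ⟨hy, hyx⟩, rfl⟩
  have h2 : algebraMap k Ω y ∈ algebraicClosure F0 Ω :=
    (algebraicClosure F0 Ω).algebraMap_mem (⟨_, h1⟩ : F0)
  exact ⟨⟨_, h2⟩, rfl⟩

theorem Place_finK {R : Type v} {k Ω L : Type u} [Field R] [Field k] [Field Ω] [Field L] [Algebra R k]
    [Algebra R Ω] [Algebra k Ω] [IsScalarTower R k Ω] [Algebra L Ω]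
    (hR : ∀ r : R, algebraMap R Ω r ∈ (algebraMap L Ω).range) [Algebra.EssFiniteType R k] :
    Algebra.EssFiniteType L (IntermediateField.adjoin L (Set.range (algebraMap k Ω))) := by
  classical
  obtain ⟨s, hs⟩ := IntermediateField.fg_top R k
  rw [IntermediateField.essFiniteType_iff]
  refine ⟨s.image (algebraMap k Ω), ?_⟩
  apply le_antisymm
  · rw [IntermediateField.adjoin_le_iff]
    intro w hw
    simp only [Finset.coe_image, Set.mem_image] at hw
    obtain ⟨z, hz, rfl⟩ := hw
    exact IntermediateField.subset_adjoin _ _ ⟨z, rfl⟩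
  · rw [IntermediateField.adjoin_le_iff]
    rintro _ ⟨z, rfl⟩
    have hle : IntermediateField.adjoin R (s : Set k) ≤
        (((IntermediateField.adjoin L ((s.image (algebraMap k Ω) : Finset Ω) : Set Ω)).toSubfield).comap
          (algebraMap k Ω)).toIntermediateField (by
            intro r
            show algebraMap k Ω (algebraMap R k r) ∈
              IntermediateField.adjoin L ((s.image (algebraMap k Ω) : Finset Ω) : Set Ω)
            rw [← IsScalarTower.algebraMap_apply R k Ω]
            obtain ⟨l, hl⟩ := hR r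
            rw [← hl]
            exact IntermediateField.algebraMap_mem _ l) := by
      rw [IntermediateField.adjoin_le_iff]
      intro y hy
      show algebraMap k Ω y ∈
        IntermediateField.adjoin L ((s.image (algebraMap k Ω) : Finset Ω) : Set Ω)
      refine IntermediateField.subset_adjoin _ _ ?_
      rw [Finset.coe_image]
      exact ⟨y, hy, rfl⟩
    have hz : z ∈ IntermediateField.adjoin R (s : Set k) := by
      rw [hs]
      exact IntermediateField.mem_top
    exact hle hz

theorem Place_card {E K : Type u} [Field E] [Field K] [Algebra E K] (s : Finset K)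
    (hs : IsTranscendenceBasis E ((↑) : s → K)) (h1 : Algebra.trdeg E K ≤ 1)
    (h0 : ¬ Algebra.IsAlgebraic E K) : ∃ y : K, s = {y} := by
  have h2 := hs.cardinalMk_eq_trdeg
  rw [← h2] at h1
  simp only [Cardinal.mk_coe_finset] at h1
  have h3 : s.card ≤ 1 := by exact_mod_cast h1
  have h4 : s.card ≠ 0 := by
    intro h5
    rw [Finset.card_eq_zero] at h5
    subst h5
    apply h0
    rw [← hs.isEmpty_iff_isAlgebraic]
    infer_instance
  exact Finset.card_eq_one.1 (by omega)

theorem Place_core {R : Type v} {k Ω E : Type u} [Field R] [Field k] [Field Ω] [Field E] [IsAlgClosed E]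
    [Algebra R k] [Algebra R Ω] [Algebra k Ω] [IsScalarTower R k Ω] [Algebra E Ω]
    [Algebra.EssFiniteType R k] (x : k)
    (hR : ∀ r : R, algebraMap R Ω r ∈ (algebraMap E Ω).range)
    (htr : Transcendental E (algebraMap k Ω x))
    (L : IntermediateField E Ω) (hL : L = IntermediateField.adjoin E {algebraMap k Ω x})
    (halg : ∀ z : k, IsAlgebraic L (algebraMap k Ω z))
    (K : IntermediateField L Ω) (hK : K = IntermediateField.adjoin L (Set.range (algebraMap k Ω))) :
    ∃ φ : k →+* LaurentSeries E, (φ x).order ≠ 0 := by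
  have hKalg : Algebra.IsAlgebraic L K := by
    rw [hK, IntermediateField.isAlgebraic_adjoin_iff_isAlgebraic]
    rintro _ ⟨z, rfl⟩
    exact halg z
  have hKfin : Algebra.EssFiniteType L K := by
    rw [hK]
    refine Place_finK (R := R) (k := k) ?_
    intro r
    obtain ⟨e, he⟩ := hR r
    refine ⟨algebraMap E L e, ?_⟩
    rw [← he]
    rfl
  have hLfin : Algebra.EssFiniteType E L := by
    rw [IntermediateField.essFiniteType_iff, hL]
    exact ⟨{algebraMap k Ω x}, by simp⟩
  have htow : IsScalarTower E L K := IsScalarTower.of_algebraMap_eq (fun e => rfl)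
  have hEK : Algebra.EssFiniteType E K := Algebra.EssFiniteType.comp E L K
  have hxK : algebraMap k Ω x ∈ K := by
    rw [hK]
    exact IntermediateField.subset_adjoin _ _ ⟨x, rfl⟩
  have hnalg : ¬ Algebra.IsAlgebraic E K := by
    intro h
    have h1 := h.isAlgebraic ⟨_, hxK⟩
    apply htr
    have htow2 : IsScalarTower E K Ω := IsScalarTower.of_algebraMap_eq (fun e => rfl)
    have h2 : IsAlgebraic E (algebraMap K Ω ⟨_, hxK⟩) := h1.algebraMap
    exact h2
  have htrdeg : Algebra.trdeg E K ≤ 1 := by
    have hf1 : FaithfulSMul L K :=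
      (faithfulSMul_iff_algebraMap_injective L K).mpr (algebraMap L K).injective
    have hf2 : FaithfulSMul E L :=
      (faithfulSMul_iff_algebraMap_injective E L).mpr (algebraMap E L).injective
    rw [← trdeg_add_eq E L (A := K), trdeg_eq_zero (R := L) (A := K), add_zero, hL]
    exact Place_trdeg_simple _
  obtain ⟨s, hs1, hs2⟩ := exists_isTranscendenceBasis_and_isSeparable_of_perfectField E K
  obtain ⟨y, rfl⟩ := Place_card s hs1 htrdeg hnalg
  have hsep : Algebra.IsSeparable (IntermediateField.adjoin E {y}) K := by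
    have h1 : ((({y} : Finset K) : Set K)) = {y} := Finset.coe_singleton y
    rw [h1] at hs2
    exact hs2
  have hfd : FiniteDimensional (IntermediateField.adjoin E {y}) K := by
    have h1 : Algebra.EssFiniteType (IntermediateField.adjoin E {y}) K :=
      Algebra.EssFiniteType.of_comp E (IntermediateField.adjoin E {y}) K
    exact Algebra.finite_of_essFiniteType_of_isAlgebraic
  have hytr : Transcendental E y := by
    have h1 := hs1.1
    exact (algebraicIndependent_singleton_iff (x := ((↑) : ({y} : Finset K) → K))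
      ⟨y, Finset.mem_singleton_self y⟩).1 h1
  have hxr : (⟨_, hxK⟩ : K) ∉ (algebraMap E K).range := by
    rintro ⟨e, he⟩
    apply htr
    have h1 : algebraMap E Ω e = algebraMap k Ω x := congrArg (fun w : K => (w : Ω)) he
    rw [← h1]
    exact isAlgebraic_algebraMap e
  obtain ⟨O, hO, i, hi, a, ha, hax⟩ := exists_dvr y hytr (⟨_, hxK⟩ : K) hxr
  obtain ⟨φ, hφ⟩ := exists_laurent_of_dvr K i hi
  have hmemK : ∀ z : k, algebraMap k Ω z ∈ K := by
    intro z
    rw [hK]
    exact IntermediateField.subset_adjoin _ _ ⟨z, rfl⟩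
  let ψ : k →+* K :=
    { toFun := fun w => ⟨algebraMap k Ω w, hmemK w⟩
      map_one' := by ext; simp
      map_mul' := by intro a b; ext; simp
      map_zero' := by ext; simp
      map_add' := by intro a b; ext; simp }
  have hx0 : x ≠ 0 := by
    rintro rfl
    apply htr
    rw [map_zero]
    exact isAlgebraic_zero
  refine ⟨φ.comp ψ, ?_⟩
  rcases hax with hax | hax
  · have ha0 : a ≠ 0 := by
      rintro rfl
      apply hx0
      have h1 : ψ x = 0 := by
        show (⟨_, hxK⟩ : K) = 0
        rw [← hax]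
        rfl
      exact (map_eq_zero ψ).1 h1
    have h1 := hφ a ha0 ha
    have h2 : algebraMap O K a = ψ x := hax
    rw [h2] at h1
    exact ne_of_gt h1
  · have hψ : ψ (x⁻¹) = (⟨_, hxK⟩ : K)⁻¹ := by
      rw [map_inv₀]
      rfl
    have ha0 : a ≠ 0 := by
      rintro rfl
      apply inv_ne_zero hx0
      have h1 : ψ (x⁻¹) = 0 := by
        rw [hψ, ← hax]
        rfl
      exact (map_eq_zero ψ).1 h1
    have h1 := hφ a ha0 ha
    have h2 : algebraMap O K a = ψ (x⁻¹) := by
      rw [hψ]
      exact hax
    rw [h2] at h1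
    intro h3
    have h4 : (φ.comp ψ) x * (φ.comp ψ) (x⁻¹) = 1 := by
      rw [← map_mul, mul_inv_cancel₀ hx0, map_one]
    have h5 : (φ.comp ψ) x ≠ 0 := by
      rw [Ne, map_eq_zero]
      exact hx0
    have h6 : (φ.comp ψ) (x⁻¹) ≠ 0 := by
      rw [Ne, map_eq_zero]
      exact inv_ne_zero hx0
    have h7 := HahnSeries.order_mul h5 h6
    rw [h4, h3, zero_add, HahnSeries.order_one] at h7
    have h8 : (0 : ℤ) < ((φ.comp ψ) (x⁻¹)).order := h1
    omega

/-- An element of a finitely generated field of characteristic `p` which is transcendental over the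
prime field has nonzero order in some field of Laurent series over an algebraically closed field. -/
theorem exists_place (p : ℕ) [Fact p.Prime] (k : Type u) [Field k] [Algebra (ZMod p) k]
    [Algebra.EssFiniteType (ZMod p) k] (x : k) (hx : Transcendental (ZMod p) x) :
    ∃ (F : Type u) (_ : Field F) (_ : IsAlgClosed F) (φ : k →+* LaurentSeries F),
      (φ x).order ≠ 0 := by
  have hind : AlgebraicIndepOn (ZMod p) id {x} := by
    have h1 : AlgebraicIndependent (ZMod p) (fun i : ({x} : Set k) => (i : k)) :=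
      (algebraicIndependent_singleton_iff ⟨x, rfl⟩).2 hx
    exact h1
  obtain ⟨t, hxt, ht⟩ := exists_isTranscendenceBasis_superset hind
  obtain ⟨E, hE1, hE2, hE3, hR, htr, halg⟩ :=
    Place_exE (R := ZMod p) (Ω := AlgebraicClosure k) x ht (hxt rfl) _ rfl
  obtain ⟨φ, hφ⟩ := Place_core (R := ZMod p) (k := k) (Ω := AlgebraicClosure k) x hR htr _ rfl
    halg _ rfl
  exact ⟨E, hE1, hE2, φ, hφ⟩

end Pool.Agent.H71.KP

end

section

/-!
# Units of group rings in characteristic `p` with vanishing valuations are torsion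

PROOF. Let `n` be the order of `H`, `g` a generator, `Ω` an algebraic closure of the fraction field
of `R`. As `p ∤ n` there is a primitive `n`-th root of unity `ζ` in `Ω`. For `j < n` let
`χ_j : H → Ω`, `g ↦ ζ ^ j`, and let `x_j ∈ Ω` be the image of `x` under
`R[H] → Ω`, `∑ r_h h ↦ ∑ r_h χ_j(h)`. Let `k` be the subfield of `Ω` generated by `ζ` and the
image of `R`: a finitely generated field over `ZMod p` (`Algebra.EssFiniteType (ZMod p) k`), and
`x_j ∈ k`. If `x_j` were transcendental over `ZMod p`, `exists_place` would give an algebraically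
closed field `F` and `φ' : k → F((t))` with `(φ' x_j).order ≠ 0`. The elements `φ' (ζ ^ i)` are
`n`-th roots of unity of the field `F((t))`; as `F` is algebraically closed and `n` is not zero in
`F` (`p = 0` in `F`), there are already `n` of them in `F`, so `φ' (χ_j h) = C (χ h)` for a
homomorphism `χ : H → F`. With `φ = φ'` restricted to `R` this contradicts `h`. So all `x_j` are
algebraic over `ZMod p`, nonzero, hence of finite order: `x_j ^ m = 1` for a common `m ≠ 0`. So
`x ^ m - 1` is killed by all the `χ_j`; writing `x ^ m - 1 = ∑_{i < n} a_i g ^ i`, the polynomial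
`∑ a_i X ^ i` of degree `< n` has the `n` distinct roots `ζ ^ j`, so it is zero.
-/

set_option autoImplicit false

universe u v

namespace Pool.Agent.H71.KP

/-- The evaluation `R[H] → F((t))` given by an embedding of `R` and a character of `H`. -/
noncomputable def evF {R : Type u} [CommRing R] {F : Type u} [Field F] {H : Type v} [Group H]
    (φ : R →+* LaurentSeries F) (χ : H →* F) : MonoidAlgebra R H →+* LaurentSeries F :=
  MonoidAlgebra.liftNCRingHom φ
    (((HahnSeries.C : F →+* HahnSeries ℤ F) : F →* HahnSeries ℤ F).comp χ)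
    (fun _ _ => Commute.all _ _)

/-- The evaluation `R[H] → A` given by a homomorphism of `R` and a character of `H`. -/
private noncomputable def TorsP_ev {R A H : Type*} [CommRing R] [CommRing A] [Group H]
    (φ : R →+* A) (χ : H →* A) : MonoidAlgebra R H →+* A :=
  MonoidAlgebra.liftNCRingHom φ χ (fun _ _ => Commute.all _ _)

private theorem TorsP_ev_single {R A H : Type*} [CommRing R] [CommRing A] [Group H]
    (φ : R →+* A) (χ : H →* A) (h : H) (r : R) :
    TorsP_ev φ χ (MonoidAlgebra.single h r) = φ r * χ h :=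
  MonoidAlgebra.liftNCRingHom_single _ _ _ _ _

private theorem TorsP_ev_apply {R A H : Type*} [CommRing R] [CommRing A] [Group H] [Fintype H]
    (φ : R →+* A) (χ : H →* A) (y : MonoidAlgebra R H) :
    TorsP_ev φ χ y = ∑ h, φ (y.coeff h) * χ h := by
  classical
  induction y using MonoidAlgebra.induction_linear with
  | zero => simp
  | add a b ha hb =>
    rw [map_add, ha, hb, ← Finset.sum_add_distrib]
    refine Finset.sum_congr rfl fun h _ => ?_
    rw [MonoidAlgebra.coeff_add, Finsupp.add_apply, map_add, add_mul]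
  | single g r =>
    rw [TorsP_ev_single, Finset.sum_eq_single g]
    · rw [MonoidAlgebra.coeff_single, Finsupp.single_eq_same]
    · intro h _ hh
      rw [MonoidAlgebra.coeff_single, Finsupp.single_eq_of_ne hh, map_zero, zero_mul]
    · intro hg
      exact absurd (Finset.mem_univ _) hg

/-- A group ring element killed by all the characters is zero. -/
private theorem TorsP_sep {R Ω H : Type*} [CommRing R] [Field Ω] [Group H] [Finite H] [IsCyclic H]
    [HasEnoughRootsOfUnity Ω (Nat.card H)] (φ : R →+* Ω) (hφ : Function.Injective φ)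
    (y : MonoidAlgebra R H) (hy : ∀ χ : H →* Ωˣ, TorsP_ev φ ((Units.coeHom Ω).comp χ) y = 0) :
    y = 0 := by
  classical
  have : Fintype H := Fintype.ofFinite H
  let : CommGroup H := IsCyclic.commGroup
  obtain ⟨e⟩ := IsCyclic.monoidHom_equiv_self H Ω
  have : Finite (H →* Ωˣ) := Finite.of_equiv H e.toEquiv.symm
  have : Fintype (H →* Ωˣ) := Fintype.ofFinite _
  have hinj : Function.Injective (fun χ : H →* Ωˣ => (Units.coeHom Ω).comp χ) := by
    intro a b hab
    apply MonoidHom.ext
    intro h
    apply Units.ext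
    exact DFunLike.congr_fun hab h
  have hli : LinearIndependent Ω (fun χ : H →* Ωˣ => (((Units.coeHom Ω).comp χ : H →* Ω) : H → Ω)) :=
    (linearIndependent_monoidHom H Ω).comp _ hinj
  have hcard : Fintype.card (H →* Ωˣ) = Module.finrank Ω (H → Ω) := by
    rw [Module.finrank_fintype_fun_eq_card]
    exact Fintype.card_congr e.toEquiv
  have hspan := hli.span_eq_top_of_card_eq_finrank' hcard
  -- the functional
  let L : (H → Ω) →ₗ[Ω] Ω := ∑ h : H, (φ (y.coeff h)) • LinearMap.proj h
  have hL : ∀ f : H → Ω, L f = ∑ h, φ (y.coeff h) * f h := by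
    intro f
    simp only [L, LinearMap.sum_apply, LinearMap.smul_apply, LinearMap.proj_apply, smul_eq_mul]
  have hL0 : L = 0 := by
    apply LinearMap.ext_on_range hspan
    intro χ
    rw [hL, LinearMap.zero_apply, ← TorsP_ev_apply φ ((Units.coeHom Ω).comp χ) y]
    exact hy χ
  apply MonoidAlgebra.ext
  apply Finsupp.ext
  intro h
  have h1 := hL (Pi.single h 1)
  rw [hL0, LinearMap.zero_apply, Finset.sum_eq_single h] at h1
  · rw [Pi.single_eq_same, mul_one] at h1
    apply hφ
    rw [MonoidAlgebra.coeff_zero, Finsupp.zero_apply, map_zero]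
    exact h1.symm
  · intro h' _ hh
    rw [Pi.single_eq_of_ne hh, mul_zero]
  · intro hh
    exact absurd (Finset.mem_univ _) hh

/-- A nonzero algebraic element over a finite field has finite order. -/
private theorem TorsP_fin (p : ℕ) [Fact p.Prime] {Ω : Type*} [Field Ω] [Algebra (ZMod p) Ω] (x : Ω)
    (hx : IsAlgebraic (ZMod p) x) (h0 : x ≠ 0) : ∃ m : ℕ, m ≠ 0 ∧ x ^ m = 1 := by
  have := IntermediateField.adjoin.finiteDimensional hx.isIntegral
  have : Finite (IntermediateField.adjoin (ZMod p) {x}) := Module.finite_of_finite (ZMod p)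
  have : Fintype (IntermediateField.adjoin (ZMod p) {x}) := Fintype.ofFinite _
  let y : (IntermediateField.adjoin (ZMod p) {x}) :=
    ⟨x, IntermediateField.mem_adjoin_simple_self (ZMod p) x⟩
  have hy : y ≠ 0 := fun h => h0 (congrArg Subtype.val h)
  let u : (IntermediateField.adjoin (ZMod p) {x})ˣ := Units.mk0 y hy
  refine ⟨Nat.card (IntermediateField.adjoin (ZMod p) {x})ˣ, Nat.card_pos.ne', ?_⟩
  have h1 : u ^ Nat.card (IntermediateField.adjoin (ZMod p) {x})ˣ = 1 := pow_card_eq_one'
  have h2 : ((u ^ Nat.card (IntermediateField.adjoin (ZMod p) {x})ˣ :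
      (IntermediateField.adjoin (ZMod p) {x})ˣ) : (IntermediateField.adjoin (ZMod p) {x})) = 1 := by
    rw [h1, Units.val_one]
  rw [Units.val_pow_eq_pow_val] at h2
  exact congrArg Subtype.val h2

/-- The roots of unity of `F((t))` are constant. -/
private theorem TorsP_const {F : Type u} [Field F] (n : ℕ) [NeZero n] (ζ : F)
    (hζ : IsPrimitiveRoot ζ n) (y : LaurentSeries F) (hy : y ^ n = 1) :
    ∃ c : F, (HahnSeries.C c : LaurentSeries F) = y := by
  have h1 : IsPrimitiveRoot ((HahnSeries.C : F →+* LaurentSeries F) ζ) n :=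
    hζ.map_of_injective (HahnSeries.C : F →+* LaurentSeries F).injective
  obtain ⟨i, _, hi⟩ := h1.eq_pow_of_pow_eq_one hy
  exact ⟨ζ ^ i, by rw [map_pow]; exact hi⟩

/-- A unit of `R[H]`, `H` cyclic of order prime to `p`, all of whose valuations vanish is
torsion. -/
theorem torsion_of_places (p : ℕ) [Fact p.Prime] {R : Type u} [CommRing R] [IsDomain R] [CharP R p]
    [Algebra.FiniteType ℤ R] {H : Type v} [Group H] [Finite H] [IsCyclic H]
    (hH : ¬ p ∣ Nat.card H) (x : (MonoidAlgebra R H)ˣ)
    (h : ∀ (F : Type u) [Field F] [IsAlgClosed F] (φ : R →+* LaurentSeries F),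
      Function.Injective φ → ∀ χ : H →* F, (evF φ χ (x : MonoidAlgebra R H)).order = 0) :
    ∃ m : ℕ, m ≠ 0 ∧ x ^ m = 1 := by
  classical
  obtain ⟨n, hn⟩ : ∃ n, n = Nat.card H := ⟨_, rfl⟩
  have hn0 : NeZero n := ⟨by rw [hn]; exact Nat.card_pos.ne'⟩
  rw [← hn] at hH
  let Ω := AlgebraicClosure (FractionRing R)
  let i : R →+* Ω := (algebraMap (FractionRing R) Ω).comp (algebraMap R (FractionRing R))
  have hi : Function.Injective i :=
    (algebraMap (FractionRing R) Ω).injective.comp (IsFractionRing.injective R (FractionRing R))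
  have : CharP Ω p := charP_of_injective_ringHom hi p
  have : NeZero (n : Ω) := ⟨fun h0 => hH ((CharP.cast_eq_zero_iff Ω p n).1 h0)⟩
  let : Algebra (ZMod p) Ω := ZMod.algebra Ω p
  have hr : HasEnoughRootsOfUnity Ω n := IsSepClosed.hasEnoughRootsOfUnity Ω n
  have hr' : HasEnoughRootsOfUnity Ω (Nat.card H) := hn ▸ hr
  obtain ⟨ζ, hζ⟩ := HasEnoughRootsOfUnity.exists_primitiveRoot Ω n
  obtain ⟨s, hs⟩ := (inferInstance : Algebra.FiniteType ℤ R).out
  obtain ⟨k, hk⟩ : ∃ k : IntermediateField (ZMod p) Ω,
      k = IntermediateField.adjoin (ZMod p) ((insert ζ (s.image i) : Finset Ω) : Set Ω) := ⟨_, rfl⟩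
  have hkfg : Algebra.EssFiniteType (ZMod p) k := by
    rw [IntermediateField.essFiniteType_iff, hk]
    exact IntermediateField.fg_adjoin_finset _
  have hζk : ζ ∈ k := by
    rw [hk]
    apply IntermediateField.subset_adjoin
    rw [Finset.coe_insert]
    exact Set.mem_insert _ _
  have hik : ∀ r : R, i r ∈ k := by
    intro r
    have hr : r ∈ Algebra.adjoin ℤ (s : Set R) := by rw [hs]; trivial
    induction hr using Algebra.adjoin_induction with
    | mem r hr =>
      rw [hk]
      apply IntermediateField.subset_adjoin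
      rw [Finset.coe_insert]
      apply Set.mem_insert_of_mem
      rw [Finset.coe_image]
      exact Set.mem_image_of_mem _ hr
    | algebraMap r =>
      have : i (algebraMap ℤ R r) = ((r : ℤ) : Ω) := by simp
      rw [this]
      exact intCast_mem k r
    | add a b _ _ ha hb => rw [map_add]; exact add_mem ha hb
    | mul a b _ _ ha hb => rw [map_mul]; exact mul_mem ha hb
  let ik : R →+* k := i.codRestrict k.toSubring hik
  have hiki : Function.Injective ik := by
    intro a b hab
    apply hi
    exact congrArg Subtype.val hab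
  -- the images under characters are algebraic
  have halg : ∀ χ : H →* Ωˣ,
      IsAlgebraic (ZMod p) (TorsP_ev i ((Units.coeHom Ω).comp χ) (x : MonoidAlgebra R H)) := by
    intro χ
    by_contra hcon
    have hχn : ∀ g : H, ((χ g : Ωˣ) : Ω) ^ n = 1 := by
      intro g
      have h1 : g ^ n = 1 := by rw [hn]; exact pow_card_eq_one'
      rw [← Units.val_pow_eq_pow_val, ← map_pow, h1, map_one, Units.val_one]
    have hχk : ∀ g : H, ((χ g : Ωˣ) : Ω) ∈ k := by
      intro g
      obtain ⟨j, _, hj⟩ := hζ.eq_pow_of_pow_eq_one (hχn g)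
      rw [← hj]
      exact pow_mem hζk j
    let χk : H →* k :=
      { toFun := fun g => ⟨((χ g : Ωˣ) : Ω), hχk g⟩
        map_one' := by
          apply Subtype.ext
          simp
        map_mul' := by
          intro a b
          apply Subtype.ext
          simp }
    have hev : ∀ y : MonoidAlgebra R H,
        ((TorsP_ev ik χk y : k) : Ω) = TorsP_ev i ((Units.coeHom Ω).comp χ) y := by
      have h1 : (k.val.toRingHom).comp (TorsP_ev ik χk) = TorsP_ev i ((Units.coeHom Ω).comp χ) := by
        apply MonoidAlgebra.ringHom_ext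
        · intro r
          rw [RingHom.comp_apply, TorsP_ev_single, TorsP_ev_single, map_one, map_one]
          simp only [mul_one]
          rfl
        · intro g
          rw [RingHom.comp_apply, TorsP_ev_single, TorsP_ev_single, map_one, map_one]
          simp only [one_mul]
          rfl
      intro y
      exact RingHom.congr_fun h1 y
    have htr : Transcendental (ZMod p) (TorsP_ev ik χk (x : MonoidAlgebra R H)) := by
      intro hal
      apply hcon
      rw [← hev]
      exact hal.algebraMap (A := Ω)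
    obtain ⟨F, hF1, hF2, φ', hφ'⟩ := exists_place p k _ htr
    have : CharP k p := charP_of_injective_ringHom hiki p
    have : CharP (LaurentSeries F) p := charP_of_injective_ringHom φ'.injective p
    have : CharP F p := (RingHom.charP_iff (HahnSeries.C : F →+* LaurentSeries F)
      (HahnSeries.C : F →+* LaurentSeries F).injective p).2 inferInstance
    have : NeZero (n : F) := ⟨fun h0 => hH ((CharP.cast_eq_zero_iff F p n).1 h0)⟩
    have hrF : HasEnoughRootsOfUnity F n := IsSepClosed.hasEnoughRootsOfUnity F n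
    obtain ⟨ζF, hζF⟩ := HasEnoughRootsOfUnity.exists_primitiveRoot F n
    have hc : ∀ g : H, ∃ c : F, (HahnSeries.C c : LaurentSeries F) = φ' (χk g) := by
      intro g
      apply TorsP_const n ζF hζF
      rw [← map_pow]
      have h1 : (χk g) ^ n = 1 := by
        apply Subtype.ext
        exact hχn g
      rw [h1, map_one]
    choose c hc using hc
    have hCinj : Function.Injective (HahnSeries.C : F →+* LaurentSeries F) :=
      (HahnSeries.C : F →+* LaurentSeries F).injective
    let χF : H →* F :=
      { toFun := c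
        map_one' := by
          apply hCinj
          rw [hc, map_one, map_one, map_one]
        map_mul' := by
          intro a b
          apply hCinj
          rw [hc, map_mul, map_mul, map_mul, hc, hc] }
    have h1 := h F (φ'.comp ik) (φ'.injective.comp hiki) χF
    apply hφ'
    rw [← h1]
    congr 1
    have h2 : φ'.comp (TorsP_ev ik χk) = evF (φ'.comp ik) χF := by
      apply MonoidAlgebra.ringHom_ext
      · intro r
        rw [RingHom.comp_apply, TorsP_ev_single, evF, MonoidAlgebra.liftNCRingHom_single, map_one,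
          map_one, mul_one, mul_one]
        rfl
      · intro g
        rw [RingHom.comp_apply, TorsP_ev_single, evF, MonoidAlgebra.liftNCRingHom_single, map_one,
          map_one, one_mul, one_mul]
        exact (hc g).symm
    exact RingHom.congr_fun h2 _
  -- finite order of the images
  have hfin : ∀ χ : H →* Ωˣ, ∃ m : ℕ, m ≠ 0 ∧
      (TorsP_ev i ((Units.coeHom Ω).comp χ) (x : MonoidAlgebra R H)) ^ m = 1 := by
    intro χ
    refine TorsP_fin p _ (halg χ) ?_
    exact (x.isUnit.map (TorsP_ev i ((Units.coeHom Ω).comp χ))).ne_zero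
  choose m hm0 hm using hfin
  have : Finite (H →* Ωˣ) := by
    let : CommGroup H := IsCyclic.commGroup
    obtain ⟨e⟩ := IsCyclic.monoidHom_equiv_self H Ω
    exact Finite.of_equiv H e.toEquiv.symm
  have : Fintype (H →* Ωˣ) := Fintype.ofFinite _
  refine ⟨∏ χ, m χ, Finset.prod_ne_zero_iff.2 fun χ _ => hm0 χ, ?_⟩
  apply Units.ext
  rw [Units.val_pow_eq_pow_val, Units.val_one, ← sub_eq_zero]
  apply TorsP_sep i hi
  intro χ
  rw [map_sub, map_pow, map_one]
  obtain ⟨d, hd⟩ := Finset.dvd_prod_of_mem m (Finset.mem_univ χ)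
  rw [hd, pow_mul, hm, one_pow, sub_self]

end Pool.Agent.H71.KP

end
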