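import Pool.Agent.H71.TCZ.M09
import Pool.Agent.H71.TCZ.M34
import Pool.Agent.H71.TCZ.M40
import Pool.Agent.H71.TCZ.M44

/-! The parts of this file: H71.KP.ResK_3, H71.KP.Jac, H71.KP.Laur, H71.KP.ResK_2, H71.KP.ResK_1, H71.KP.ResK_6, H71.KP.Witt. -/

section

/-!
# The residue functionals on `Wh` in positive characteristic
-/

set_option autoImplicit false
set_option linter.unusedSectionVars false
set_option linter.unusedSimpArgs false

open Matrix

universe u v w t

namespace Pool.Agent.H71.KP

open Pool.Agent.H71.WH (InvMat K1 K1.mk K1.unit K1Rel genK1 addOne oneByOne CycSub conjHom K1.mk_mul K1.unit_mul)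

namespace ResDat

variable {p : ℕ} [hp : Fact p.Prime] {k : Type u} [CommRing k] (d : ResDat p k)

section Grp

variable {G : Type v} [Group G]

/-- reduction of group rings -/
noncomputable def red (G : Type v) [Group G] : MonoidAlgebra d.A G →+* MonoidAlgebra k G :=
  MonoidAlgebra.mapRingHom G d.π

theorem red_surjective : Function.Surjective (d.red G) := by
  intro x
  induction x using MonoidAlgebra.induction_linear with
  | zero => exact ⟨0, map_zero _⟩
  | add x y hx hy =>
    obtain ⟨x', rfl⟩ := hx
    obtain ⟨y', rfl⟩ := hy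
    exact ⟨x' + y', map_add _ _ _⟩
  | single g a =>
    obtain ⟨a', rfl⟩ := d.surj a
    exact ⟨MonoidAlgebra.single g a', MonoidAlgebra.mapRingHom_single _ _ _⟩

theorem red_ker (x : MonoidAlgebra d.A G) (hx : d.red G x = 0) :
    ∃ y, x = (p : MonoidAlgebra d.A G) * y := by
  classical
  have h1 : ∀ g, d.π (x.coeff g) = 0 := by
    intro g
    have h2 := congrArg (fun z : MonoidAlgebra k G => z.coeff g) hx
    have h3 : (d.red G x).coeff g = d.π (x.coeff g) := MonoidAlgebra.coeff_mapRingHom _ _ _
    rw [← h3, hx]
    rfl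
  choose y hy using fun g => d.ker _ (h1 g)
  refine ⟨MonoidAlgebra.ofCoeff (Finsupp.onFinset x.coeff.support
    (fun c => if x.coeff c = 0 then 0 else y c) ?_), ?_⟩
  · intro c hc
    rw [Finsupp.mem_support_iff]
    intro h0
    exact hc (if_pos h0)
  · rw [← nsmul_eq_mul]
    ext c
    rw [MonoidAlgebra.coeff_smul, Finsupp.smul_apply, MonoidAlgebra.coeff_ofCoeff,
      Finsupp.onFinset_apply, nsmul_eq_mul]
    split_ifs with h0
    · rw [h0, mul_zero]
    · exact hy c

/-- reduction of matrices -/
noncomputable def redM (G : Type v) [Group G] (n : ℕ) :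
    Matrix (Fin n) (Fin n) (MonoidAlgebra d.A G) →+* Matrix (Fin n) (Fin n) (MonoidAlgebra k G) :=
  RingHom.mapMatrix (d.red G)

theorem redM_surjective (n : ℕ) : Function.Surjective (d.redM G n) := by
  intro x
  choose y hy using fun i j => d.red_surjective (x i j)
  exact ⟨Matrix.of y, Matrix.ext fun i j => hy i j⟩

theorem redM_ker {n : ℕ} (x : Matrix (Fin n) (Fin n) (MonoidAlgebra d.A G))
    (hx : d.redM G n x = 0) : ∃ y, x = (p : Matrix (Fin n) (Fin n) (MonoidAlgebra d.A G)) * y := by
  choose y hy using fun i j => d.red_ker (x i j) (congrFun (congrFun hx i) j)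
  refine ⟨Matrix.of y, ?_⟩
  rw [← nsmul_eq_mul]
  refine Matrix.ext fun i j => ?_
  rw [Matrix.smul_apply, nsmul_eq_mul]
  exact hy i j

theorem p_pow_ga : (p : MonoidAlgebra d.A G) ^ d.n = 0 := by
  have h : (p : MonoidAlgebra d.A G) = MonoidAlgebra.singleOneRingHom (p : d.A) :=
    (map_natCast _ _).symm
  rw [h, ← map_pow, d.nilA, map_zero]

theorem p_pow_mat (n : ℕ) : (p : Matrix (Fin n) (Fin n) (MonoidAlgebra d.A G)) ^ d.n = 0 := by
  have h : (p : Matrix (Fin n) (Fin n) (MonoidAlgebra d.A G)) =
      scalar (Fin n) (p : MonoidAlgebra d.A G) := (map_natCast _ _).symm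
  rw [h, ← map_pow, d.p_pow_ga, map_zero]

end Grp

section Lam

end Lam

section Map

end Map

end ResDat

end Pool.Agent.H71.KP

end

section

/-!
# Jacobi's formula and the residue functional of the restriction
-/

set_option autoImplicit false
set_option linter.unusedSectionVars false
set_option linter.unusedSimpArgs false

open Matrix
open scoped Classical

universe u v w t

namespace Pool.Agent.H71.KP

open TrivSqZeroExt in
/-- The homomorphism to the dual numbers of a derivation. -/
noncomputable def toDual {C : Type u} [CommRing C] (D : C →+ C)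
    (leib : ∀ x y, D (x * y) = D x * y + x * D y) : C →+* TrivSqZeroExt C C where
  toFun c := inl c + inr (D c)
  map_one' := by
    have h := leib 1 1
    rw [mul_one, one_mul, mul_one] at h
    rw [add_eq_left.1 h.symm, inr_zero, add_zero, inl_one]
  map_zero' := by rw [map_zero, inl_zero, inr_zero, add_zero]
  map_add' a b := by rw [map_add, inl_add, inr_add]; abel
  map_mul' a b := by
    ext
    · simp
    · simp [leib, mul_comm, add_comm]

open TrivSqZeroExt in
/-- **Jacobi's formula** for derivations. -/
theorem D_det {C : Type u} [CommRing C] {ι : Type v} [Fintype ι] [DecidableEq ι] (D : C →+ C)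
    (leib : ∀ x y, D (x * y) = D x * y + x * D y) (W V : Matrix ι ι C) (hV : W * V = 1) :
    D (det W) = det W * trace (V * W.map D) := by
  set E := toDual D leib with hE
  let ε : TrivSqZeroExt C C := inr 1
  have hε : ε ^ 2 = 0 := by rw [pow_two]; exact inr_mul_inr _ _ _
  have h1 : W.map E = (W.map (inlHom C C)) * (1 + ε • (V * W.map D).map (inlHom C C)) := by
    have h2 : (W.map (inlHom C C)) * ((V * W.map D).map (inlHom C C)) =
        (W.map D).map (inlHom C C) := by
      rw [← Matrix.map_mul, ← mul_assoc, hV, one_mul]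
    rw [mul_add, mul_one, Matrix.mul_smul, h2]
    refine Matrix.ext fun i j => ?_
    rw [Matrix.map_apply, Matrix.add_apply, Matrix.map_apply, Matrix.smul_apply, Matrix.map_apply,
      Matrix.map_apply]
    change inl (W i j) + inr (D (W i j)) = inl (W i j) + inr 1 * inl (D (W i j))
    congr 1
    rw [inr_mul_inl]
    simp
  have h3 : E (det W) = det (W.map E) := RingHom.map_det E W
  have h4 : det (W.map (inlHom C C)) = inlHom C C (det W) := (RingHom.map_det _ W).symm
  have h5 : trace ((V * W.map D).map (inlHom C C)) = inlHom C C (trace (V * W.map D)) :=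
    (AddMonoidHom.map_trace (inlHom C C).toAddMonoidHom _).symm
  rw [h1, det_mul, det_one_add_smul, hε, mul_zero, add_zero, h4, h5] at h3
  have h6 := congrArg snd h3
  have h7 : snd (E (det W)) = D (det W) := by
    change snd (inl (det W) + inr (D (det W))) = _
    simp
  rw [h7] at h6
  rw [h6]
  change snd (inl (det W) * (1 + inl (trace (V * W.map D)) * inr 1)) = _
  simp

variable {M : Type u} [CommRing M] {B : Type v} [AddCommGroup B] (t : DT M B)

/-- The logarithmic derivative of the determinant. -/
theorem dlog_det {ι : Type w} [Fintype ι] [DecidableEq ι] (u : (Matrix ι ι M)ˣ) :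
    t.dlog (Units.map (detMonoidHom : Matrix ι ι M →* M) u) = (t.mat ι).dlog u := by
  have h1 := D_det t.D t.leib (u : Matrix ι ι M) ((u⁻¹ : (Matrix ι ι M)ˣ) : Matrix ι ι M)
    (Units.mul_inv u)
  rw [DT.dlog, DT.dlog, t.mat_τ, t.mat_D]
  have h2 : t.D ((Units.map (detMonoidHom : Matrix ι ι M →* M) u : Mˣ) : M) =
      ((Units.map (detMonoidHom : Matrix ι ι M →* M) u : Mˣ) : M) *
        trace (((u⁻¹ : (Matrix ι ι M)ˣ) : Matrix ι ι M) * (u : Matrix ι ι M).map t.D) := h1
  rw [h2, ← mul_assoc, Units.inv_mul, one_mul, trace, map_sum]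
  rfl

namespace ResDat

variable {p : ℕ} [hp : Fact p.Prime] {k : Type u} [CommRing k] (d : ResDat p k)

/-- the delta function -/
noncomputable def del {H : Type v} (d : ResDat p k) (c : H) : H → d.B :=
  fun a => if a = c then 1 else 0

variable {H : Type v} [CommGroup H]

theorem gD_resR (E : Subgroup H) [Fintype (H ⧸ E)] (x : MonoidAlgebra d.A H) :
    (resR d.A E x).map (d.gD E) = resR d.A E (d.gD H x) := by
  induction x using MonoidAlgebra.induction_linear with
  | zero => rw [map_zero, map_zero, map_zero]; exact Matrix.map_zero _ (map_zero _)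
  | add x y hx hy => rw [map_add, map_add, map_add, ← hx, ← hy, Matrix.map_add _ (map_add _)]
  | single h a =>
    refine Matrix.ext fun i j => ?_
    rw [gD_single, Matrix.map_apply]
    change d.gD E (resA d.A E (MonoidAlgebra.single h a) i j) =
      resA d.A E (MonoidAlgebra.single h (d.θ a)) i j
    rw [resA_single, resA_single]
    split_ifs
    · rw [gD_single]
    · rw [map_zero]

theorem gf_resR (E : Subgroup H) [Fintype (H ⧸ E)] (c : E) (x : MonoidAlgebra d.A H) :
    ∑ i, d.gf (d.del c) (resR d.A E x i i) =
      (Nat.card (H ⧸ E) : ℤ) • d.gf (d.del (c : H)) x := by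
  induction x using MonoidAlgebra.induction_linear with
  | zero => simp
  | add x y hx hy =>
    rw [map_add, map_add, smul_add, ← hx, ← hy, ← Finset.sum_add_distrib]
    exact Finset.sum_congr rfl fun i _ => by rw [Matrix.add_apply, map_add]
  | single h a =>
    rw [gf_single]
    have h1 : ∀ q : H ⧸ E, d.gf (d.del c) (resR d.A E (MonoidAlgebra.single h a) q q) =
        d.del (c : H) h * d.res a := by
      intro q
      change d.gf (d.del c) (resA d.A E (MonoidAlgebra.single h a) q q) = _
      rw [resA_single]
      have h2 : q.out⁻¹ * h * q.out = h := by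
        rw [mul_comm, ← mul_assoc, mul_inv_cancel, one_mul]
      by_cases hh : q.out⁻¹ * h * q.out ∈ E
      · rw [dif_pos hh, gf_single]
        congr 1
        unfold del
        congr 1
        rw [Subtype.ext_iff]
        change (q.out⁻¹ * h * q.out = (c : H)) = (h = (c : H))
        rw [h2]
      · rw [dif_neg hh, map_zero, del, if_neg, zero_mul]
        intro h3
        apply hh
        rw [h2, h3]
        exact c.2
    rw [Finset.sum_congr rfl (fun q _ => h1 q), Finset.sum_const, Finset.card_univ,
      Nat.card_eq_fintype_card, natCast_zsmul]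

end ResDat

end Pool.Agent.H71.KP

end

section

/-!
# Residue data for fields of Laurent series
-/

set_option autoImplicit false
set_option linter.unusedSectionVars false
set_option linter.unusedSimpArgs false

open Matrix HahnSeries
open scoped Classical

universe u v w t

namespace Pool.Agent.H71.KP

section Map

variable {B : Type u} [CommRing B] {F : Type u} [CommRing F] (π : B →+* F)

/-- the coefficientwise map of Laurent series -/
noncomputable def mapL : LaurentSeries B →+* LaurentSeries F where
  toFun x := HahnSeries.map x π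
  map_zero' := by ext; simp
  map_one' := by
    ext a
    rw [HahnSeries.map_coeff, HahnSeries.coeff_one, HahnSeries.coeff_one]
    split_ifs
    · exact map_one π
    · exact map_zero π
  map_add' x y := by ext; simp
  map_mul' x y := HahnSeries.map_mul (π : B →ₙ+* F)

theorem mapL_coeff (x : LaurentSeries B) (a : ℤ) : (mapL π x).coeff a = π (x.coeff a) := rfl

theorem mapL_surjective (h : Function.Surjective π) : Function.Surjective (mapL π) := by
  intro x
  choose g hg using h
  refine ⟨⟨fun a => if x.coeff a = 0 then 0 else g (x.coeff a), x.isPWO_support.mono ?_⟩, ?_⟩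
  · intro a ha hx
    exact ha (if_pos hx)
  · ext a
    rw [mapL_coeff]
    change π (if x.coeff a = 0 then 0 else g (x.coeff a)) = _
    split_ifs with h0
    · rw [map_zero, h0]
    · exact hg _

theorem natCast_mul_coeff (p : ℕ) (x : LaurentSeries B) (a : ℤ) :
    ((p : LaurentSeries B) * x).coeff a = (p : B) * x.coeff a := by
  rw [← nsmul_eq_mul, HahnSeries.coeff_smul, nsmul_eq_mul]

theorem mapL_ker (p : ℕ) (h : ∀ b, π b = 0 → ∃ c, b = (p : B) * c) (x : LaurentSeries B)
    (hx : mapL π x = 0) : ∃ y, x = (p : LaurentSeries B) * y := by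
  have h1 : ∀ a, π (x.coeff a) = 0 := by
    intro a
    rw [← mapL_coeff, hx]
    rfl
  choose g hg using fun a => h _ (h1 a)
  refine ⟨⟨fun a => if x.coeff a = 0 then 0 else g a, x.isPWO_support.mono ?_⟩, ?_⟩
  · intro a ha hx
    exact ha (if_pos hx)
  · ext a
    rw [natCast_mul_coeff]
    change x.coeff a = (p : B) * (if x.coeff a = 0 then 0 else g a)
    split_ifs with h0
    · rw [mul_zero, h0]
    · exact hg a

end Map

section Theta

variable {B : Type u} [CommRing B]

/-- the derivation `t d/dt` -/
noncomputable def theta (B : Type u) [CommRing B] : LaurentSeries B →+ LaurentSeries B where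
  toFun x := ⟨fun a => (a : B) * x.coeff a, x.isPWO_support.mono fun a ha hx => ha (by
    change (a : B) * x.coeff a = 0
    have hx' : x.coeff a = 0 := hx
    rw [hx', mul_zero])⟩
  map_zero' := by
    ext a
    change (a : B) * (0 : LaurentSeries B).coeff a = 0
    rw [HahnSeries.coeff_zero, mul_zero]
  map_add' x y := by
    ext a
    change (a : B) * (x + y).coeff a = (a : B) * x.coeff a + (a : B) * y.coeff a
    rw [HahnSeries.coeff_add, mul_add]

theorem theta_coeff (x : LaurentSeries B) (a : ℤ) : (theta B x).coeff a = (a : B) * x.coeff a := rfl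

theorem theta_support (x : LaurentSeries B) : (theta B x).support ⊆ x.support := by
  intro a ha hx
  apply ha
  change (theta B x).coeff a = 0
  have hx' : x.coeff a = 0 := hx
  rw [theta_coeff, hx', mul_zero]

theorem theta_leib (x y : LaurentSeries B) :
    theta B (x * y) = theta B x * y + x * theta B y := by
  ext a
  rw [theta_coeff, HahnSeries.coeff_add, HahnSeries.coeff_mul,
    HahnSeries.coeff_mul_left' x.isPWO_support (theta_support x),
    HahnSeries.coeff_mul_right' y.isPWO_support (theta_support y), ← Finset.sum_add_distrib,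
    Finset.mul_sum]
  apply Finset.sum_congr rfl
  intro ij hij
  have h1 : ij.1 + ij.2 = a := by
    simp only [Finset.mem_antidiagonal, Finset.mem_addAntidiagonal] at hij
    exact hij.2.2
  rw [theta_coeff, theta_coeff, ← h1]
  push_cast
  ring

theorem theta_C (b : B) : theta B (HahnSeries.C b) = 0 := by
  ext a
  rw [theta_coeff, HahnSeries.coeff_zero, HahnSeries.C_apply, HahnSeries.coeff_single]
  split_ifs with h
  · rw [h, Int.cast_zero, zero_mul]
  · rw [mul_zero]

end Theta

/-- Residue data for Laurent series. -/
noncomputable def laurDat (p : ℕ) {B : Type u} [CommRing B] {F : Type u} [CommRing F]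
    (π : B →+* F) (hs : Function.Surjective π) (hk : ∀ b, π b = 0 → ∃ c, b = (p : B) * c) (n : ℕ)
    (hn : (p : B) ^ n = 0) : ResDat p (LaurentSeries F) where
  A := LaurentSeries B
  instA := inferInstance
  B := B
  instB := inferInstance
  π := mapL π
  surj := mapL_surjective π hs
  ker x hx := mapL_ker π p hk x hx
  n := n
  nilA := by
    have h : (p : LaurentSeries B) = HahnSeries.C (p : B) := (map_natCast _ _).symm
    rw [h, ← map_pow, hn, map_zero]
  nilB b := by
    rw [nsmul_eq_mul, Nat.cast_pow, hn, zero_mul]
  θ := theta B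
  leib := theta_leib
  ι := HahnSeries.C
  θι := theta_C
  res :=
    { toFun := fun x => x.coeff 0
      map_zero' := rfl
      map_add' := fun x y => HahnSeries.coeff_add }
  res_θ x := by
    change (theta B x).coeff 0 = 0
    rw [theta_coeff, Int.cast_zero, zero_mul]
  res_ι b x := by
    change (HahnSeries.C b * x).coeff 0 = b * x.coeff 0
    rw [HahnSeries.C_mul_eq_smul, HahnSeries.coeff_smul, smul_eq_mul]

/-- the structure on the lift -/
noncomputable def ResDat.base {p : ℕ} {k : Type u} [CommRing k] (d : ResDat p k) : DT d.A d.B where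
  D := d.θ
  leib := d.leib
  τ := d.res
  comm x y := by rw [mul_comm]
  τD := d.res_θ

section Value

variable (p : ℕ) [hp : Fact p.Prime] {B : Type u} [CommRing B] {F : Type u} [Field F]
  (π : B →+* F) (hs : Function.Surjective π) (hk : ∀ b, π b = 0 → ∃ c, b = (p : B) * c) (n : ℕ)
  (hn : (p : B) ^ n = 0)

include hs hk hn in
theorem isUnit_of_map_ne_zero (b : B) (hb : π b ≠ 0) : IsUnit b := by
  obtain ⟨c, hc⟩ := hs (π b)⁻¹
  have h1 : π (b * c - 1) = 0 := by
    rw [map_sub, map_mul, hc, mul_inv_cancel₀ hb, map_one, sub_self]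
  obtain ⟨y, hy⟩ := hk _ h1
  have h2 : IsNilpotent (b * c - 1) := ⟨n, by rw [hy, mul_pow, hn, zero_mul]⟩
  have h3 := h2.isUnit_one_add
  rw [add_sub_cancel] at h3
  exact isUnit_of_mul_isUnit_left h3

theorem coeff_ofPS {R : Type u} [CommRing R] (x : PowerSeries R) (a : ℤ) :
    (HahnSeries.ofPowerSeries ℤ R x).coeff a =
      if a < 0 then 0 else PowerSeries.coeff a.natAbs x := PowerSeries.coeff_coe x a

omit hp in
theorem theta_ofPS (β : PowerSeries B) : theta B (HahnSeries.ofPowerSeries ℤ B β) =
    HahnSeries.ofPowerSeries ℤ B (PowerSeries.mk fun i => (i : B) * PowerSeries.coeff i β) := by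
  ext a
  rw [theta_coeff, coeff_ofPS, coeff_ofPS]
  split_ifs with h
  · rw [mul_zero]
  · rw [PowerSeries.coeff_mk]
    congr 1
    have h1 : (a.natAbs : ℤ) = a := by omega
    rw [← Int.cast_natCast, h1]

theorem mapL_ofPowerSeries (β : PowerSeries B) :
    mapL π (HahnSeries.ofPowerSeries ℤ B β) = HahnSeries.ofPowerSeries ℤ F (β.map π) := by
  ext a
  rw [mapL_coeff, coeff_ofPS, coeff_ofPS]
  split_ifs
  · exact map_zero π
  · rw [PowerSeries.coeff_map]

/-- The logarithmic derivative has residue the valuation. -/
theorem base_dlog (a : (LaurentSeries B)ˣ) :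
    (laurDat p π hs hk n hn).base.dlog a = ((mapL π (a : LaurentSeries B)).order : B) := by
  set d := laurDat p π hs hk n hn with hd
  set x : LaurentSeries F := mapL π (a : LaurentSeries B) with hx
  have hx0 : x ≠ 0 := by
    intro h0
    have h1 : mapL π (a : LaurentSeries B) * mapL π ((a⁻¹ : (LaurentSeries B)ˣ) :
      LaurentSeries B) = 1 := by rw [← map_mul, Units.mul_inv, map_one]
    rw [← hx, h0, zero_mul] at h1
    exact zero_ne_one h1
  set v : ℤ := x.order with hv
  obtain ⟨g, hg⟩ : ∃ g : F → B, ∀ x, π (g x) = x := ⟨fun x => (hs x).choose,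
    fun x => (hs x).choose_spec⟩
  let β : PowerSeries B := PowerSeries.mk fun i => g (PowerSeries.coeff i x.powerSeriesPart)
  have hβ : β.map π = x.powerSeriesPart := by
    ext i
    rw [PowerSeries.coeff_map, PowerSeries.coeff_mk, hg]
  have hβ0 : IsUnit β := by
    rw [PowerSeries.isUnit_iff_constantCoeff]
    apply isUnit_of_map_ne_zero p π hs hk n hn
    rw [← PowerSeries.coeff_zero_eq_constantCoeff_apply, PowerSeries.coeff_mk, hg,
      LaurentSeries.powerSeriesPart_coeff]
    intro h0
    rw [Nat.cast_zero, add_zero] at h0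
    exact hx0 (HahnSeries.coeff_order_eq_zero.1 h0)
  let γ : (PowerSeries B)ˣ := hβ0.unit
  have hγ : (γ : PowerSeries B) = β := rfl
  let T : (LaurentSeries B)ˣ := ⟨HahnSeries.single v 1, HahnSeries.single (-v) 1,
    by rw [HahnSeries.single_mul_single, add_neg_cancel, one_mul]; rfl,
    by rw [HahnSeries.single_mul_single, neg_add_cancel, one_mul]; rfl⟩
  let P : (LaurentSeries B)ˣ := Units.map (HahnSeries.ofPowerSeries ℤ B).toMonoidHom γ
  have hT : mapL π (T : LaurentSeries B) = HahnSeries.single v 1 := by
    ext i
    rw [mapL_coeff]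
    change π ((HahnSeries.single v (1 : B)).coeff i) = _
    rw [HahnSeries.coeff_single, HahnSeries.coeff_single]
    split_ifs
    · exact map_one π
    · exact map_zero π
  have hP : mapL π (P : LaurentSeries B) = HahnSeries.ofPowerSeries ℤ F x.powerSeriesPart := by
    change mapL π (HahnSeries.ofPowerSeries ℤ B β) = _
    rw [mapL_ofPowerSeries, hβ]
  have hTP : mapL π ((T * P : (LaurentSeries B)ˣ) : LaurentSeries B) = x := by
    rw [Units.val_mul, map_mul, hT, hP, hv]
    exact LaurentSeries.single_order_mul_powerSeriesPart x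
  have h1 : d.base.dlog (a * (T * P)⁻¹) = 0 := by
    have h2 : mapL π (((a * (T * P)⁻¹ : (LaurentSeries B)ˣ) : LaurentSeries B) - 1) = 0 := by
      have h3 : mapL π ((((T * P)⁻¹ : (LaurentSeries B)ˣ) : LaurentSeries B)) * x = 1 := by
        rw [← hTP, ← map_mul, Units.inv_mul, map_one]
      rw [map_sub, Units.val_mul, map_mul, ← hx, mul_comm, h3, map_one, sub_self]
    obtain ⟨y, hy⟩ := d.ker _ h2
    exact DT.dlog_eq_zero (p := p) d.base d.nilB d.nilA _ y (by
      rw [← hy]
      exact (add_sub_cancel _ _).symm)
  have h2 : d.base.dlog a = d.base.dlog (T * P) := by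
    have h3 := d.base.dlog_mul (a * (T * P)⁻¹) (T * P)
    rw [h1, zero_add] at h3
    rw [← h3]
    congr 1
    exact (inv_mul_cancel_right a (T * P)).symm
  have h3 : d.base.dlog T = (v : B) := by
    change (HahnSeries.single (-v) (1 : B) * theta B (HahnSeries.single v 1)).coeff 0 = _
    have h4 : theta B (HahnSeries.single v 1) = HahnSeries.single v (v : B) := by
      ext i
      rw [theta_coeff, HahnSeries.coeff_single, HahnSeries.coeff_single]
      split_ifs with h
      · rw [h, mul_one]
      · rw [mul_zero]
    rw [h4, HahnSeries.single_mul_single, neg_add_cancel, one_mul, HahnSeries.coeff_single_same]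
  have h4 : d.base.dlog P = 0 := by
    change (((P⁻¹ : (LaurentSeries B)ˣ) : LaurentSeries B) *
      theta B (HahnSeries.ofPowerSeries ℤ B β)).coeff 0 = _
    have h5 : ((P⁻¹ : (LaurentSeries B)ˣ) : LaurentSeries B) =
        HahnSeries.ofPowerSeries ℤ B ((γ⁻¹ : (PowerSeries B)ˣ) : PowerSeries B) := rfl
    rw [h5, theta_ofPS, ← map_mul, coeff_ofPS, if_neg (lt_irrefl _), Int.natAbs_zero,
      PowerSeries.coeff_zero_eq_constantCoeff_apply, map_mul,
      ← PowerSeries.coeff_zero_eq_constantCoeff_apply (PowerSeries.mk _), PowerSeries.coeff_mk,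
      Nat.cast_zero, zero_mul, mul_zero]
    rfl
  have h5 := d.base.dlog_mul T P
  rw [h3, h4, add_zero] at h5
  exact h2.trans h5

end Value

end Pool.Agent.H71.KP

end

section

/-!
# The residue functionals on `Wh` in positive characteristic
-/

set_option autoImplicit false
set_option linter.unusedSectionVars false
set_option linter.unusedSimpArgs false

open Matrix

universe u v w t

namespace Pool.Agent.H71.KP

open Pool.Agent.H71.WH (InvMat K1 K1.mk K1.unit K1Rel genK1 addOne oneByOne CycSub conjHom K1.mk_mul K1.unit_mul)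

namespace ResDat

variable {p : ℕ} [hp : Fact p.Prime] {k : Type u} [CommRing k] (d : ResDat p k)

section Grp

variable {G : Type v} [Group G]

/-- the structure on the group ring -/
noncomputable def grp (f : G → d.B) (hf : ∀ x y, f (x * y) = f (y * x)) :
    DT (MonoidAlgebra d.A G) d.B where
  D := d.gD G
  leib x y := by
    induction x using MonoidAlgebra.induction_linear with
    | zero => simp
    | add x x' hx hx' => rw [add_mul, map_add, hx, hx', map_add, add_mul, add_mul]; abel
    | single g a =>
      induction y using MonoidAlgebra.induction_linear with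
      | zero => simp
      | add y y' hy hy' => rw [mul_add, map_add, hy, hy', map_add, mul_add, mul_add]; abel
      | single h b =>
        rw [MonoidAlgebra.single_mul_single, gD_single, gD_single, gD_single,
          MonoidAlgebra.single_mul_single, MonoidAlgebra.single_mul_single, d.leib,
          MonoidAlgebra.single_add]
  τ := d.gf f
  comm x y := by
    induction x using MonoidAlgebra.induction_linear with
    | zero => simp
    | add x x' hx hx' => rw [add_mul, map_add, hx, hx', mul_add, map_add]
    | single g a =>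
      induction y using MonoidAlgebra.induction_linear with
      | zero => simp
      | add y y' hy hy' => rw [mul_add, map_add, hy, hy', add_mul, map_add]
      | single h b =>
        rw [MonoidAlgebra.single_mul_single, MonoidAlgebra.single_mul_single, gf_single,
          gf_single, hf, mul_comm a b]
  τD x := by
    induction x using MonoidAlgebra.induction_linear with
    | zero => simp
    | add x x' hx hx' => rw [map_add, map_add, hx, hx', add_zero]
    | single g a => rw [gD_single, gf_single, d.res_θ, mul_zero]

end Grp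

section Lam

end Lam

section Map

end Map

end ResDat

end Pool.Agent.H71.KP

end

section

/-!
# The residue functionals on `Wh` in positive characteristic
-/

set_option autoImplicit false
set_option linter.unusedSectionVars false
set_option linter.unusedSimpArgs false

open Matrix

universe u v w t

namespace Pool.Agent.H71.KP

open Pool.Agent.H71.WH (InvMat K1 K1.mk K1.unit K1Rel genK1 addOne oneByOne CycSub conjHom K1.mk_mul K1.unit_mul)

namespace ResDat

variable {p : ℕ} [hp : Fact p.Prime] {k : Type u} [CommRing k] (d : ResDat p k)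

section Grp

variable {G : Type v} [Group G]

theorem exists_lift {n : ℕ} (u : (Matrix (Fin n) (Fin n) (MonoidAlgebra k G))ˣ) :
    ∃ x : (Matrix (Fin n) (Fin n) (MonoidAlgebra d.A G))ˣ, mapGL (d.red G) n x = u := by
  refine exists_unit_lift_nil (d.redM G n) (d.redM_surjective n) ?_ u
  intro a ha
  obtain ⟨y, rfl⟩ := d.redM_ker a ha
  refine ⟨d.n, ?_⟩
  rw [(Nat.cast_commute p y).mul_pow, d.p_pow_mat, zero_mul]

theorem exists_lift_unit (u : (MonoidAlgebra k G)ˣ) :
    ∃ x : (MonoidAlgebra d.A G)ˣ, uMap d.π G x = u := by
  refine exists_unit_lift_nil (d.red G) d.red_surjective ?_ u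
  intro a ha
  obtain ⟨y, rfl⟩ := d.red_ker a ha
  refine ⟨d.n, ?_⟩
  rw [(Nat.cast_commute p y).mul_pow, d.p_pow_ga, zero_mul]

end Grp

section Lam

variable {G : Type v} [Group G] (f : G → d.B) (hf : ∀ x y, f (x * y) = f (y * x))

theorem dlog_ker {n : ℕ} (x : (Matrix (Fin n) (Fin n) (MonoidAlgebra d.A G))ˣ)
    (hx : mapGL (d.red G) n x = 1) : ((d.grp f hf).mat (Fin n)).dlog x = 0 := by
  obtain ⟨y, hy⟩ := d.redM_ker ((x : Matrix (Fin n) (Fin n) (MonoidAlgebra d.A G)) - 1) (by
    rw [map_sub, map_one, sub_eq_zero]
    exact congrArg Units.val hx)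
  exact DT.dlog_eq_zero _ d.nilB (d.p_pow_mat n) x y (by rw [← hy, add_sub_cancel])

/-- the functional on invertible matrices -/
noncomputable def lam {n : ℕ} (u : (Matrix (Fin n) (Fin n) (MonoidAlgebra k G))ˣ) : d.B :=
  ((d.grp f hf).mat (Fin n)).dlog (d.exists_lift u).choose

theorem lam_eq {n : ℕ} (x : (Matrix (Fin n) (Fin n) (MonoidAlgebra d.A G))ˣ) :
    d.lam f hf (mapGL (d.red G) n x) = ((d.grp f hf).mat (Fin n)).dlog x := by
  have h1 := (d.exists_lift (mapGL (d.red G) n x)).choose_spec
  have h2 := d.dlog_ker f hf ((d.exists_lift (mapGL (d.red G) n x)).choose * x⁻¹) (by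
    rw [map_mul, h1, map_inv, mul_inv_cancel])
  have h3 := DT.dlog_mul ((d.grp f hf).mat (Fin n))
    ((d.exists_lift (mapGL (d.red G) n x)).choose * x⁻¹) x
  rw [h2, zero_add, inv_mul_cancel_right] at h3
  exact h3

/-- the functional on units of the group ring -/
noncomputable def elp (x : (MonoidAlgebra k G)ˣ) : d.B := d.lam f hf (oneByOne x)

theorem elp_eq (x : (MonoidAlgebra d.A G)ˣ) :
    d.elp f hf (uMap d.π G x) = (d.grp f hf).dlog x := by
  rw [elp]
  have h1 : oneByOne (uMap d.π G x) = mapGL (d.red G) 1 (oneByOne x) :=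
    (mapGL_oneByOne _ x).symm
  rw [h1, lam_eq, dlog_oneByOne]

end Lam

section Map

end Map

end ResDat

end Pool.Agent.H71.KP

end

section

/-!
# The residue functionals on `Wh` in positive characteristic
-/

set_option autoImplicit false
set_option linter.unusedSectionVars false
set_option linter.unusedSimpArgs false

open Matrix

universe u v w t

namespace Pool.Agent.H71.KP

open Pool.Agent.H71.WH (InvMat K1 K1.mk K1.unit K1Rel genK1 addOne oneByOne CycSub conjHom K1.mk_mul K1.unit_mul)

namespace ResDat

variable {p : ℕ} [hp : Fact p.Prime] {k : Type u} [CommRing k] (d : ResDat p k)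

section Grp

end Grp

section Lam

end Lam

section Map

variable {G : Type v} [Group G] {H : Type w} [Group H] (ψ : H →* G)

theorem gD_map (x : MonoidAlgebra d.A H) :
    d.gD G (MonoidAlgebra.mapDomainRingHom d.A ψ x) =
      MonoidAlgebra.mapDomainRingHom d.A ψ (d.gD H x) := by
  induction x using MonoidAlgebra.induction_linear with
  | zero => simp
  | add x y hx hy => rw [map_add, map_add, hx, hy, map_add, map_add]
  | single g a =>
    rw [gD_single]
    change d.gD G (MonoidAlgebra.mapDomain ψ (MonoidAlgebra.single g a)) =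
      MonoidAlgebra.mapDomain ψ (MonoidAlgebra.single g (d.θ a))
    rw [MonoidAlgebra.mapDomain_single, MonoidAlgebra.mapDomain_single, gD_single]

theorem gf_map (f : G → d.B) (x : MonoidAlgebra d.A H) :
    d.gf f (MonoidAlgebra.mapDomainRingHom d.A ψ x) = d.gf (fun h => f (ψ h)) x := by
  induction x using MonoidAlgebra.induction_linear with
  | zero => simp
  | add x y hx hy => rw [map_add, map_add, hx, hy, map_add]
  | single g a =>
    rw [gf_single]
    change d.gf f (MonoidAlgebra.mapDomain ψ (MonoidAlgebra.single g a)) = _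
    rw [MonoidAlgebra.mapDomain_single, gf_single]

end Map

end ResDat

end Pool.Agent.H71.KP

end

section

/-!
# Places and truncated Witt vectors
-/

set_option autoImplicit false
set_option linter.unusedSectionVars false
set_option linter.unusedSimpArgs false

open Matrix HahnSeries
open scoped Classical

universe u v w t

namespace Pool.Agent.H71.KP

section WB

variable (p : ℕ) [hp : Fact p.Prime] (F : Type u) [Field F]

/-- Witt vectors modulo `p ^ (n + 1)` -/
abbrev WB (n : ℕ) : Type u := WittVector p F ⧸ Ideal.span {(p : WittVector p F) ^ (n + 1)}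

variable [CharP F p]

/-- the projection -/
noncomputable def wπ (n : ℕ) : WB p F n →+* F :=
  Ideal.Quotient.lift _ (WittVector.constantCoeff : WittVector p F →+* F) (by
    intro a ha
    obtain ⟨c, rfl⟩ := Ideal.mem_span_singleton'.1 ha
    rw [map_mul, map_pow, map_natCast, CharP.cast_eq_zero, zero_pow (Nat.succ_ne_zero n), mul_zero])

theorem wπ_mk (n : ℕ) (x : WittVector p F) :
    wπ p F n (Ideal.Quotient.mk _ x) = WittVector.constantCoeff x := Ideal.Quotient.lift_mk _ _ _

/-- the multiplicative section -/
noncomputable def wτ (n : ℕ) : F →* WB p F n :=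
  ((Ideal.Quotient.mk (Ideal.span {(p : WittVector p F) ^ (n + 1)}) : WittVector p F →+* WB p F n) :
    WittVector p F →* WB p F n).comp (WittVector.teichmuller p)

theorem wπ_wτ (n : ℕ) (x : F) : wπ p F n (wτ p F n x) = x := by
  change wπ p F n (Ideal.Quotient.mk _ (WittVector.teichmuller p x)) = x
  rw [wπ_mk]
  exact WittVector.teichmuller_coeff_zero p x

theorem wπ_surjective (n : ℕ) : Function.Surjective (wπ p F n) := fun x => ⟨_, wπ_wτ p F n x⟩

variable [PerfectRing F p]

theorem wπ_ker (n : ℕ) (b : WB p F n) (hb : wπ p F n b = 0) :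
    ∃ c, b = (p : WB p F n) * c := by
  obtain ⟨w, rfl⟩ := Ideal.Quotient.mk_surjective b
  rw [wπ_mk] at hb
  have hw : w ∈ RingHom.ker (WittVector.constantCoeff : WittVector p F →+* F) := hb
  rw [WittVector.ker_constantCoeff] at hw
  obtain ⟨c, rfl⟩ := Ideal.mem_span_singleton'.1 hw
  refine ⟨Ideal.Quotient.mk _ c, ?_⟩
  rw [map_mul, map_natCast, mul_comm]

omit [CharP F p] [PerfectRing F p] in
theorem w_nil (n : ℕ) : (p : WB p F n) ^ (n + 1) = 0 := by
  rw [← map_natCast (Ideal.Quotient.mk (Ideal.span {(p : WittVector p F) ^ (n + 1)})) p,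
    ← map_pow]
  exact Ideal.Quotient.eq_zero_iff_mem.2 (Ideal.mem_span_singleton_self _)

theorem w_int (m : ℤ) (h : ∀ n, (m : WB p F n) = 0) : m = 0 := by
  apply Pool.Agent.H71.FJ.witt_int p F m
  intro n
  have h1 := h n
  rw [← map_intCast (Ideal.Quotient.mk (Ideal.span {(p : WittVector p F) ^ (n + 1)})) m] at h1
  exact Ideal.mem_span_singleton.1 (Ideal.Quotient.eq_zero_iff_mem.1 h1)

end WB

section Lin

variable {p : ℕ} [hp : Fact p.Prime] {k : Type u} [CommRing k] (d : ResDat p k)
  {H : Type v} [Group H]

/-- evaluation at a character -/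
noncomputable def ResDat.evd (χ : H →* d.B) : MonoidAlgebra d.A H →+* d.A :=
  MonoidAlgebra.liftNCRingHom (RingHom.id d.A) ((d.ι : d.B →* d.A).comp χ)
    (fun _ _ => Commute.all _ _)

theorem ResDat.evd_single (χ : H →* d.B) (h : H) (a : d.A) :
    d.evd χ (MonoidAlgebra.single h a) = a * d.ι (χ h) :=
  MonoidAlgebra.liftNCRingHom_single _ _ _ _ _

theorem ResDat.θ_evd (χ : H →* d.B) (x : MonoidAlgebra d.A H) :
    d.θ (d.evd χ x) = d.evd χ (d.gD H x) := by
  induction x using MonoidAlgebra.induction_linear with
  | zero => simp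
  | add x y hx hy => rw [map_add, map_add, hx, hy, map_add, map_add]
  | single h a => rw [d.evd_single, d.leib, d.θι, mul_zero, add_zero, d.gD_single, d.evd_single]

theorem ResDat.res_evd (χ : H →* d.B) (x : MonoidAlgebra d.A H) :
    d.res (d.evd χ x) = d.gf χ x := by
  induction x using MonoidAlgebra.induction_linear with
  | zero => simp
  | add x y hx hy => rw [map_add, map_add, hx, hy, map_add]
  | single h a => rw [d.evd_single, mul_comm, d.res_ι, d.gf_single]

end Lin

end Pool.Agent.H71.KP

end
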