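import Pool.Agent.H71.TCZ.H71.FQ.EvD
import Pool.Agent.H71.TCZ.M26
import Pool.Agent.H71.TCZ.M56

/-! The parts of this file: H71.FQ.StF, H71.FQ.StI, H71.FQ.StJ. -/

section

/-!
# Comparison of the definitions: the assembly map on the `K₁`-part
-/

set_option autoImplicit false

open Matrix

universe u v w

namespace Pool.Agent.H71.FQS

open Pool.Agent.H71.FQ (Cx HG centConj grpHom cent_comm mapGL)
open Pool.Agent.H95.WH (K1 FamSub conjHom FinSub stab)

section

variable {Λ : Type v} [Group Λ] {m : ℕ}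

theorem pri_eq (u : Λ) (c : Ch Λ m) : pri u c = Pool.Agent.H16.FU.pri u m c := by
  rw [pri, Pool.Agent.H16.FU.pri, Finsupp.linearCombination_apply]
  refine Finsupp.sum_congr fun x _ => ?_
  rw [Finset.smul_sum]
  refine Finset.sum_congr rfl fun i _ => ?_
  rw [smul_smul, Finsupp.smul_single, smul_eq_mul, mul_one, mul_comm]
  rfl

theorem cr_toHG {Γ : Type w} [Group Γ] {n : ℕ} (f : Γ →* Λ) (u : Λ)
    (hu : ∀ γ, f γ * u = u * f γ) {z : Cyc Γ n} {z' : Cyc Λ (n + 1)}
    (h : z'.ch = pri u (push f z.ch)) :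
    Pool.Agent.H16.FU.HG.cr f u hu (toHG z) = toHG z' := by
  rw [toHG, Pool.Agent.H16.FU.HG.cr_mk, toHG]
  congr 1
  apply Subtype.ext
  change Pool.Agent.H16.FU.pri u (n + 1) (FQ.push ℤ f (n + 1) z.ch) = z'.ch
  rw [h, pri_eq, push_eq]

end

section

variable {R : Type u} [Ring R] {G : Type v} [Group G] {n : ℕ}

theorem mk1_eq {s t : HSym1 R G n} (h : FreeAbelianGroup.of s - FreeAbelianGroup.of t ∈
    relU R G n ∪ relZ1 R G n ∪ relC1 R G n) : HnK1.mk s = HnK1.mk t :=
  (QuotientAddGroup.eq_iff_sub_mem).2 (AddSubgroup.subset_closure h)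

theorem mk1_add {s t r : HSym1 R G n} (h : FreeAbelianGroup.of s -
    (FreeAbelianGroup.of t + FreeAbelianGroup.of r) ∈
      relU R G n ∪ relZ1 R G n ∪ relC1 R G n) :
    HnK1.mk s = HnK1.mk t + HnK1.mk r :=
  (QuotientAddGroup.eq_iff_sub_mem).2 (AddSubgroup.subset_closure h)

theorem exists_g1 (F : FamSub G FinSub) {N : ℕ} (U : GLm N (RF R F.1)) :
    ∃ f : HG (Cent F.1) n →+ HnK1 R G n, ∀ z, f (toHG z) = HnK1.mk ⟨F.1, F.2, N, U, z⟩ := by
  apply exists_lift
  · intro z z' z'' h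
    exact mk1_add (Or.inl (Or.inr (Or.inl ⟨F.1, F.2, N, U, z, z', z'', h, rfl⟩)))
  · intro z h
    exact (QuotientAddGroup.eq_zero_iff _).2 (AddSubgroup.subset_closure
      (Or.inl (Or.inr (Or.inr ⟨F.1, F.2, N, U, z, h, rfl⟩))))

/-- the homomorphism in the variable `z` -/
noncomputable def gz1 (F : FamSub G FinSub) {N : ℕ} (U : GLm N (RF R F.1)) :
    HG (Cent F.1) n →+ HnK1 R G n := (exists_g1 F U).choose

theorem gz1_toHG (F : FamSub G FinSub) {N : ℕ} (U : GLm N (RF R F.1))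
    (z : Cyc (Cent F.1) n) : gz1 F U (toHG z) = HnK1.mk ⟨F.1, F.2, N, U, z⟩ :=
  (exists_g1 F U).choose_spec z

/-- the biadditive map -/
noncomputable def gb1 (F : FamSub G FinSub) :
    K1 (MonoidAlgebra R F.1) →+ (HG (Cent F.1) n →+ HnK1 R G n) :=
  K1.lift (fun _ U => gz1 F U)
    (fun N U V => by
      apply DFunLike.ext
      intro x
      obtain ⟨z, rfl⟩ := toHG_surjective x
      rw [AddMonoidHom.add_apply]
      refine (gz1_toHG F _ z).trans ?_
      refine Eq.trans ?_ (congrArg₂ (· + ·) (gz1_toHG F U z).symm (gz1_toHG F V z).symm)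
      exact mk1_add (Or.inl (Or.inl (Or.inl ⟨F.1, F.2, N, U, V, z, rfl⟩))))
    (fun N U => by
      apply DFunLike.ext
      intro x
      obtain ⟨z, rfl⟩ := toHG_surjective x
      refine (gz1_toHG F _ z).trans ?_
      refine Eq.trans ?_ (gz1_toHG F U z).symm
      exact mk1_eq (Or.inl (Or.inl (Or.inr ⟨F.1, F.2, N, U, _, z, rfl, rfl⟩))))

theorem gb1_mk (F : FamSub G FinSub) {N : ℕ} (U : GLm N (RF R F.1))
    (z : Cyc (Cent F.1) n) :
    gb1 F (K1.mk (R := MonoidAlgebra R F.1) U) (toHG z) = HnK1.mk ⟨F.1, F.2, N, U, z⟩ := by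
  have h : gb1 (n := n) F (K1.mk (R := MonoidAlgebra R F.1) U) = gz1 F U := K1.lift_mk _ _ _ _
  rw [h, gz1_toHG]

theorem gb1_conj (F F' : FamSub G FinSub) (g : G) (h : ∀ x ∈ F.1, g * x * g⁻¹ ∈ F'.1)
    (x : K1 (MonoidAlgebra R F.1)) (z : HG (Cent F'.1) n) :
    gb1 F' (K1.map (MonoidAlgebra.mapDomainRingHom R (conjHom g F.1 F'.1 h)) x) z =
      gb1 F x (HG.map n (centConj g F.1 F'.1 h) z) := by
  obtain ⟨z, rfl⟩ := toHG_surjective z
  suffices H : (AddMonoidHom.eval (toHG z)).comp ((gb1 (n := n) F').comp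
      (K1.map (MonoidAlgebra.mapDomainRingHom R (conjHom g F.1 F'.1 h)))) =
      (AddMonoidHom.eval (HG.map n (centConj g F.1 F'.1 h) (toHG z))).comp (gb1 F) from
    DFunLike.congr_fun H x
  apply K1.hom_ext
  intro N U
  change gb1 F' (K1.map _ (K1.mk U)) (toHG z) = gb1 F (K1.mk U) (HG.map n _ (toHG z))
  have e1 := map_toHG' (centConj g F.1 F'.1 h) z
  rw [K1.map_mk]
  refine (gb1_mk F' _ z).trans ?_
  refine Eq.trans ?_ (congrArg (gb1 F (K1.mk U)) e1).symm
  refine Eq.trans ?_ (gb1_mk F U _).symm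
  exact mk1_eq (Or.inr ⟨F.1, F'.1, F.2, F'.2, g, N, U,
    K1.mapU (MonoidAlgebra.mapDomainRingHom R (conjHom g F.1 F'.1 h)) U,
    z.map (centConj g F.1 F'.1 h), z, conjHom g F.1 F'.1 h, centConj g F.1 F'.1 h,
    fun _ => rfl, fun _ => rfl, fun _ _ => rfl, rfl, rfl⟩)

/-- the comparison homomorphism -/
noncomputable def fromH1 : Pool.Agent.H16.FU.HnK1 R G n →+ HnK1 R G n :=
  Pool.Agent.H16.FU.lift1 (fun F => gb1 F) gb1_conj

theorem fromH1_sy (F : FamSub G FinSub) {N : ℕ} (U : GLm N (RF R F.1)) (z : Cyc (Cent F.1) n) :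
    fromH1 (Pool.Agent.H16.FU.sy1 F (K1.mk (R := MonoidAlgebra R F.1) U)
      (toHG (Γ := Subgroup.centralizer (F.1 : Set G)) z)) = HnK1.mk ⟨F.1, F.2, N, U, z⟩ :=
  (Pool.Agent.H16.FU.lift1_sy1 _ _ F _ _).trans (gb1_mk F U z)

/-- the class in the first definition -/
noncomputable def hsy1 (s : HSym1 R G n) : Pool.Agent.H16.FU.HnK1 R G n :=
  Pool.Agent.H16.FU.sy1 ⟨s.F, s.fin⟩ (K1.mk (R := MonoidAlgebra R s.F) s.U)
    (toHG (Γ := Subgroup.centralizer (s.F : Set G)) s.z)

/-- the comparison homomorphism in the other direction -/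
noncomputable def toH1c : HnK1 R G n →+ Pool.Agent.H16.FU.HnK1 R G n :=
  QuotientAddGroup.lift _ (FreeAbelianGroup.lift hsy1) (by
    rw [AddSubgroup.closure_le]
    rintro w (((⟨F, hF, N, U, V, z, rfl⟩ | ⟨F, hF, N, U, V, z, h, rfl⟩) |
        (⟨F, hF, N, U, z, z', z'', h, rfl⟩ | ⟨F, hF, N, U, z, h, rfl⟩)) |
        ⟨F, F', hF, hF', g, N, U, U', z, z', c, κ, hc, hκ, hee, hz, rfl⟩)
    · change FreeAbelianGroup.lift hsy1 _ = 0
      rw [map_sub, map_add, FreeAbelianGroup.lift_apply_of, FreeAbelianGroup.lift_apply_of,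
        FreeAbelianGroup.lift_apply_of, sub_eq_zero]
      exact (congrArg (fun x => Pool.Agent.H16.FU.sy1 (⟨F, hF⟩ : FamSub G FinSub) x
        (toHG (Γ := Subgroup.centralizer (F : Set G)) z))
        (K1.mk_mul (R := MonoidAlgebra R F) U V)).trans (Pool.Agent.H16.FU.sy1_add _ _ _ _)
    · change FreeAbelianGroup.lift hsy1 _ = 0
      rw [map_sub, FreeAbelianGroup.lift_apply_of, FreeAbelianGroup.lift_apply_of, sub_eq_zero]
      have h1 : V = stab (R := MonoidAlgebra R F) U := Units.ext h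
      subst h1
      exact congrArg (fun x => Pool.Agent.H16.FU.sy1 (⟨F, hF⟩ : FamSub G FinSub) x
        (toHG (Γ := Subgroup.centralizer (F : Set G)) z))
        (K1.mk_stab (R := MonoidAlgebra R F) U)
    · change FreeAbelianGroup.lift hsy1 _ = 0
      rw [map_sub, map_add, FreeAbelianGroup.lift_apply_of, FreeAbelianGroup.lift_apply_of,
        FreeAbelianGroup.lift_apply_of, sub_eq_zero]
      exact (congrArg (fun x => Pool.Agent.H16.FU.sy1 (⟨F, hF⟩ : FamSub G FinSub)
        (K1.mk (R := MonoidAlgebra R F) U) x)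
        (toHG_add (Γ := Subgroup.centralizer (F : Set G)) h)).trans
          (Pool.Agent.H16.FU.sy1_addz _ _ _ _)
    · change FreeAbelianGroup.lift hsy1 _ = 0
      rw [FreeAbelianGroup.lift_apply_of]
      exact (congrArg (fun x => Pool.Agent.H16.FU.syB1 (⟨F, hF⟩ : FamSub G FinSub)
        (K1.mk (R := MonoidAlgebra R F) U) x)
        (toHG_bnd (Γ := Subgroup.centralizer (F : Set G)) h)).trans (map_zero _)
    · change FreeAbelianGroup.lift hsy1 _ = 0
      rw [map_sub, FreeAbelianGroup.lift_apply_of, FreeAbelianGroup.lift_apply_of, sub_eq_zero]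
      have hg : ∀ x ∈ F, g * x * g⁻¹ ∈ F' := fun x hx => by
        rw [← hc ⟨x, hx⟩]
        exact (c ⟨x, hx⟩).2
      have h1 : c = conjHom g F F' hg := funext fun a => Subtype.ext (hc a)
      have h2 : κ = centConj g F F' hg := funext fun γ => Subtype.ext (hκ γ)
      subst h1
      subst h2
      have h3 := Pool.Agent.H16.FU.sy1_conj (⟨F, hF⟩ : FamSub G FinSub) ⟨F', hF'⟩ g hg
        (K1.mk (R := MonoidAlgebra R F) U)
        (toHG (Γ := Subgroup.centralizer (F' : Set G)) z')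
      have h4 : K1.mapU (MonoidAlgebra.mapDomainRingHom R (conjHom g F F' hg)) U = U' :=
        Units.ext (Matrix.ext fun i j => (hee i j).symm)
      have h5 : K1.map (MonoidAlgebra.mapDomainRingHom R (conjHom g F F' hg))
          (K1.mk (R := MonoidAlgebra R F) U) = K1.mk (R := MonoidAlgebra R F') U' :=
        (K1.map_mk _ _).trans (congrArg (fun V => K1.mk (R := MonoidAlgebra R F') V) h4)
      refine Eq.trans ?_ (h3.trans ?_)
      · exact congrArg (fun x => Pool.Agent.H16.FU.sy1 (⟨F', hF'⟩ : FamSub G FinSub) x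
          (toHG (Γ := Subgroup.centralizer (F' : Set G)) z')) h5.symm
      · exact congrArg (fun x => Pool.Agent.H16.FU.sy1 (⟨F, hF⟩ : FamSub G FinSub)
          (K1.mk (R := MonoidAlgebra R F) U) x) (map_toHG (Γ := Subgroup.centralizer (F' : Set G))
            (Γ' := Subgroup.centralizer (F : Set G)) (centConj g F F' hg) hz))

theorem toH1c_mk (s : HSym1 R G n) : toH1c (HnK1.mk s) = hsy1 s :=
  FreeAbelianGroup.lift_apply_of _ _

theorem fromH1_toH1c (x : HnK1 R G n) : fromH1 (toH1c x) = x := by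
  have h : (fromH1 (R := R) (G := G) (n := n)).comp toH1c = AddMonoidHom.id _ := by
    apply QuotientAddGroup.addMonoidHom_ext
    apply FreeAbelianGroup.lift_ext
    intro s
    change fromH1 (toH1c (HnK1.mk s)) = HnK1.mk s
    rw [toH1c_mk]
    exact fromH1_sy (⟨s.F, s.fin⟩ : FamSub G FinSub) s.U s.z
  exact DFunLike.congr_fun h x

variable (R G n) in
/-- the assembly map on the `K₁`-part -/
noncomputable def asmS1 : HnK1 R G n →+ KQ (MonoidAlgebra R G) (n + 1) :=
  fromK.comp ((Pool.Agent.H16.FU.assembly1 R n G).comp toH1c)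

theorem asmS1_isAssembly1 : IsAssembly1 (R := R) (G := G) (n := n) (asmS1 R G n) := by
  rintro ⟨F, hF, N, U, z⟩ σ u z' hσ hu hz
  change z'.ch = pri u (push σ z.ch) at hz
  have h1 : toH1c (HnK1.mk ⟨F, hF, N, U, z⟩) = hsy1 ⟨F, hF, N, U, z⟩ := toH1c_mk _
  change fromK (Pool.Agent.H16.FU.assembly1 R n G (toH1c (HnK1.mk ⟨F, hF, N, U, z⟩))) = _
  rw [h1, hsy1, Pool.Agent.H16.FU.asm1_sy1, Pool.Agent.H16.FU.gasm1]
  refine (congrArg fromK (Pool.Agent.H16.FU.asm1_mk (n := n)
    (MonoidAlgebra.mapDomainRingHom R F.subtype)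
    ((grpHom R G).comp (Subgroup.centralizer (F : Set G)).subtype)
    (FQ.grpHom_comm R F.subtype (Subgroup.centralizer (F : Set G)).subtype (cent_comm F))
    (B := MonoidAlgebra R F) U (toHG (Γ := Subgroup.centralizer (F : Set G)) z))).trans ?_
  refine Eq.trans ?_ (fromK_cls N z')
  refine congrArg (fun x => fromK (FQ.KQ.cls (MonoidAlgebra R G) (n + 1) N x)) ?_
  have h2 : σ = Pool.Agent.H16.FU.scal N
      ((grpHom R G).comp (Subgroup.centralizer (F : Set G)).subtype) :=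
    funext fun γ => Units.ext (hσ γ)
  have h3 : u = mapGL (MonoidAlgebra.mapDomainRingHom R F.subtype) N U :=
    Units.ext (Matrix.ext fun i j => hu i j)
  refine cr_toHG (Γ := Subgroup.centralizer (F : Set G)) _ _ _ ?_
  rw [hz, h2, h3]
  rfl

end

section

variable {R : Type u} [Ring R] {G : Type v} [Group G] {n : ℕ}

end

end Pool.Agent.H71.FQS

end

section

/-!
# Comparison of the definitions: the assembly map on the `K₁`-part in all degrees
-/

set_option autoImplicit false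

open Matrix

universe u v w

namespace Pool.Agent.H71.FQ1

open Pool.Agent.H71.FQS (Ch bd push coi bnd Cyc GLm blkM RF Cent KQ HnK0 IsAssembly toHG fromK fromK_cls toK toK_fromK bd_eq push_eq mem_coi)
open Pool.Agent.H71.FQ (Cx HG centConj grpHom)
open Pool.Agent.H71.FU0 (H0K1 cl cl_conj lift10 lift10_cl h0k1_ext e1 mk_single cyc0 kq1 kq1_mk assembly10 assembly10_cl assembly00 assembly00_apply)
open Pool.Agent.H95.WH (K1 K1.mk K1.lift K1.lift_mk K1.hom_ext K1.mk_mul K1.mk_stab K1.map K1.map_mk K1.mapU FamSub conjHom FinSub stab)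

section

variable {R : Type u} [Ring R] {G : Type v} [Group G] {n : ℕ}

theorem mk_eq {s t : HSym1 R G n} (h : FreeAbelianGroup.of s - FreeAbelianGroup.of t ∈
    relU R G n ∪ relZ1 R G n ∪ relC1 R G n) : HnK1.mk s = HnK1.mk t :=
  (QuotientAddGroup.eq_iff_sub_mem).2 (AddSubgroup.subset_closure h)

theorem mk_add {s t r : HSym1 R G n} (h : FreeAbelianGroup.of s -
    (FreeAbelianGroup.of t + FreeAbelianGroup.of r) ∈
      relU R G n ∪ relZ1 R G n ∪ relC1 R G n) :
    HnK1.mk s = HnK1.mk t + HnK1.mk r :=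
  (QuotientAddGroup.eq_iff_sub_mem).2 (AddSubgroup.subset_closure h)

theorem mk_zero {s : HSym1 R G n} (h : FreeAbelianGroup.of s ∈
    relU R G n ∪ relZ1 R G n ∪ relC1 R G n) : HnK1.mk s = 0 :=
  (QuotientAddGroup.eq_zero_iff _).2 (AddSubgroup.subset_closure h)

/-- homomorphisms out of `HnK1` -/
noncomputable def lift {M : Type*} [AddCommGroup M] (f : HSym1 R G n → M)
    (h1 : ∀ (F : Subgroup G) (hF : Finite F) (N : ℕ) (U V : GLm N (RF R F)) (z : Ch (Cent F) n)
      (hz : IsCyc (Cent F) n z), f ⟨F, hF, N, U * V, z, hz⟩ =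
        f ⟨F, hF, N, U, z, hz⟩ + f ⟨F, hF, N, V, z, hz⟩)
    (h2 : ∀ (F : Subgroup G) (hF : Finite F) (N : ℕ) (U : GLm N (RF R F))
      (V : GLm (N + 1) (RF R F)) (z : Ch (Cent F) n) (hz : IsCyc (Cent F) n z),
      V.val = blkM U.val (1 : Matrix (Fin 1) (Fin 1) (RF R F)) →
      f ⟨F, hF, N + 1, V, z, hz⟩ = f ⟨F, hF, N, U, z, hz⟩)
    (h3 : ∀ (F : Subgroup G) (hF : Finite F) (N : ℕ) (U : GLm N (RF R F))
      (z z' : Ch (Cent F) n) (hz : IsCyc (Cent F) n z) (hz' : IsCyc (Cent F) n z')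
      (h : IsCyc (Cent F) n (z + z')), f ⟨F, hF, N, U, z + z', h⟩ =
        f ⟨F, hF, N, U, z, hz⟩ + f ⟨F, hF, N, U, z', hz'⟩)
    (h4 : ∀ (F : Subgroup G) (hF : Finite F) (N : ℕ) (U : GLm N (RF R F))
      (z : Ch (Cent F) n) (hz : IsCyc (Cent F) n z), z ∈ bnd (Cent F) n →
      f ⟨F, hF, N, U, z, hz⟩ = 0)
    (h5 : ∀ (F F' : Subgroup G) (hF : Finite F) (hF' : Finite F') (g : G) (N : ℕ)
      (U : GLm N (RF R F)) (U' : GLm N (RF R F')) (z : Ch (Cent F) n) (z' : Ch (Cent F') n)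
      (hz : IsCyc (Cent F) n z) (hz' : IsCyc (Cent F') n z')
      (c : F → F') (κ : Cent F' → Cent F),
      (∀ a, (c a : G) = g * a * g⁻¹) → (∀ γ, (κ γ).val = g⁻¹ * γ.val * g) →
      (∀ i j, U'.val i j = MonoidAlgebra.mapDomain c (U.val i j)) → z = push κ z' →
      f ⟨F', hF', N, U', z', hz'⟩ = f ⟨F, hF, N, U, z, hz⟩) : HnK1 R G n →+ M :=
  QuotientAddGroup.lift _ (FreeAbelianGroup.lift f) (by
    rw [AddSubgroup.closure_le]
    rintro w (((⟨F, hF, N, U, V, z, hz, rfl⟩ | ⟨F, hF, N, U, V, z, hz, h, rfl⟩) |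
        (⟨F, hF, N, U, z, z', hz, hz', h, rfl⟩ | ⟨F, hF, N, U, z, hz, h, rfl⟩)) |
        ⟨F, F', hF, hF', g, N, U, U', z, z', hz, hz', c, κ, hc, hκ, hee, hzz, rfl⟩)
    · change FreeAbelianGroup.lift f _ = 0
      rw [map_sub, map_add, FreeAbelianGroup.lift_apply_of, FreeAbelianGroup.lift_apply_of,
        FreeAbelianGroup.lift_apply_of, sub_eq_zero]
      exact h1 F hF N U V z hz
    · change FreeAbelianGroup.lift f _ = 0
      rw [map_sub, FreeAbelianGroup.lift_apply_of, FreeAbelianGroup.lift_apply_of, sub_eq_zero]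
      exact h2 F hF N U V z hz h
    · change FreeAbelianGroup.lift f _ = 0
      rw [map_sub, map_add, FreeAbelianGroup.lift_apply_of, FreeAbelianGroup.lift_apply_of,
        FreeAbelianGroup.lift_apply_of, sub_eq_zero]
      exact h3 F hF N U z z' hz hz' h
    · change FreeAbelianGroup.lift f _ = 0
      rw [FreeAbelianGroup.lift_apply_of]
      exact h4 F hF N U z hz h
    · change FreeAbelianGroup.lift f _ = 0
      rw [map_sub, FreeAbelianGroup.lift_apply_of, FreeAbelianGroup.lift_apply_of, sub_eq_zero]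
      exact h5 F F' hF hF' g N U U' z z' hz hz' c κ hc hκ hee hzz)

theorem hom_ext {M : Type*} [AddCommGroup M] {f g : HnK1 R G n →+ M}
    (h : ∀ s, f (HnK1.mk s) = g (HnK1.mk s)) : f = g := by
  apply QuotientAddGroup.addMonoidHom_ext
  apply FreeAbelianGroup.lift_ext
  exact h

/-- the homomorphism to the group of the first definition -/
noncomputable def conv : HnK1 R G (n + 1) →+ FQS.HnK1 R G n :=
  lift (fun s => FQS.HnK1.mk ⟨s.F, s.fin, s.N, s.U, ⟨s.z, s.cyc⟩⟩)
    (fun F hF N U V z hz => FQS.mk1_add (Or.inl (Or.inl (Or.inl ⟨F, hF, N, U, V, ⟨z, hz⟩, rfl⟩))))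
    (fun F hF N U V z hz h => FQS.mk1_eq (Or.inl (Or.inl (Or.inr
      ⟨F, hF, N, U, V, ⟨z, hz⟩, h, rfl⟩))))
    (fun F hF N U z z' hz hz' h => FQS.mk1_add (Or.inl (Or.inr (Or.inl
      ⟨F, hF, N, U, ⟨z, hz⟩, ⟨z', hz'⟩, ⟨z + z', h⟩, rfl, rfl⟩))))
    (fun F hF N U z hz h => (QuotientAddGroup.eq_zero_iff _).2 (AddSubgroup.subset_closure
      (Or.inl (Or.inr (Or.inr ⟨F, hF, N, U, ⟨z, hz⟩, h, rfl⟩)))))
    (fun F F' hF hF' g N U U' z z' hz hz' c κ hc hκ hee hzz => FQS.mk1_eq (Or.inr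
      ⟨F, F', hF, hF', g, N, U, U', ⟨z, hz⟩, ⟨z', hz'⟩, c, κ, hc, hκ, hee, hzz, rfl⟩))

theorem conv_mk (s : HSym1 R G (n + 1)) :
    conv (HnK1.mk s) = FQS.HnK1.mk ⟨s.F, s.fin, s.N, s.U, ⟨s.z, s.cyc⟩⟩ :=
  FreeAbelianGroup.lift_apply_of _ _

/-- the homomorphism in the other direction -/
noncomputable def vnoc : FQS.HnK1 R G n →+ HnK1 R G (n + 1) :=
  QuotientAddGroup.lift _ (FreeAbelianGroup.lift fun s : FQS.HSym1 R G n =>
    (HnK1.mk ⟨s.F, s.fin, s.N, s.U, s.z.1, s.z.2⟩ : HnK1 R G (n + 1))) (by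
    rw [AddSubgroup.closure_le]
    rintro w (((⟨F, hF, N, U, V, z, rfl⟩ | ⟨F, hF, N, U, V, z, h, rfl⟩) |
        (⟨F, hF, N, U, z, z', z'', h, rfl⟩ | ⟨F, hF, N, U, z, h, rfl⟩)) |
        ⟨F, F', hF, hF', g, N, U, U', z, z', c, κ, hc, hκ, hee, hz, rfl⟩)
    · change FreeAbelianGroup.lift _ _ = 0
      rw [map_sub, map_add, FreeAbelianGroup.lift_apply_of, FreeAbelianGroup.lift_apply_of,
        FreeAbelianGroup.lift_apply_of, sub_eq_zero]
      exact mk_add (Or.inl (Or.inl (Or.inl ⟨F, hF, N, U, V, z.1, z.2, rfl⟩)))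
    · change FreeAbelianGroup.lift _ _ = 0
      rw [map_sub, FreeAbelianGroup.lift_apply_of, FreeAbelianGroup.lift_apply_of, sub_eq_zero]
      exact mk_eq (Or.inl (Or.inl (Or.inr ⟨F, hF, N, U, V, z.1, z.2, h, rfl⟩)))
    · change FreeAbelianGroup.lift _ _ = 0
      rw [map_sub, map_add, FreeAbelianGroup.lift_apply_of, FreeAbelianGroup.lift_apply_of,
        FreeAbelianGroup.lift_apply_of, sub_eq_zero]
      obtain ⟨z, hz⟩ := z
      obtain ⟨z', hz'⟩ := z'
      obtain ⟨z'', hz''⟩ := z''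
      change z'' = z + z' at h
      subst h
      exact mk_add (Or.inl (Or.inr (Or.inl ⟨F, hF, N, U, z, z', hz, hz', hz'', rfl⟩)))
    · change FreeAbelianGroup.lift _ _ = 0
      rw [FreeAbelianGroup.lift_apply_of]
      exact mk_zero (Or.inl (Or.inr (Or.inr ⟨F, hF, N, U, z.1, z.2, h, rfl⟩)))
    · change FreeAbelianGroup.lift _ _ = 0
      rw [map_sub, FreeAbelianGroup.lift_apply_of, FreeAbelianGroup.lift_apply_of, sub_eq_zero]
      exact mk_eq (Or.inr ⟨F, F', hF, hF', g, N, U, U', z.1, z'.1, z.2, z'.2, c, κ, hc, hκ, hee,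
        hz, rfl⟩))

theorem vnoc_conv (x : HnK1 R G (n + 1)) : vnoc (conv x) = x := by
  have h : (vnoc (R := R) (G := G) (n := n)).comp conv = AddMonoidHom.id _ := by
    apply hom_ext
    intro s
    rw [AddMonoidHom.comp_apply, conv_mk]
    exact FreeAbelianGroup.lift_apply_of _ _
  exact DFunLike.congr_fun h x

end

/-! ### Degree one -/

section

variable {Γ : Type v} [Group Γ]

/-- the sum of the coefficients -/
noncomputable def aug (Γ : Type v) : Ch Γ 0 →+ ℤ := Finsupp.liftAddHom fun _ => AddMonoidHom.id ℤ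

theorem aug_single (x : Fin (0 + 1) → Γ) (a : ℤ) : aug Γ (Finsupp.single x a) = a :=
  Finsupp.liftAddHom_apply_single _ _ _

theorem aug_bnd {c : Ch Γ 0} (h : c ∈ bnd Γ 0) : aug Γ c = 0 := by
  have h1 : bnd Γ 0 ≤ (aug Γ).ker := by
    rw [bnd, AddSubgroup.closure_le]
    rintro c (hc | ⟨b, rfl⟩)
    · have h2 : coi Γ 0 ≤ (aug Γ).ker := by
        rw [coi, AddSubgroup.closure_le]
        rintro c ⟨g, x, rfl⟩
        change aug Γ _ = 0
        rw [map_sub, aug_single, aug_single, sub_self]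
      exact h2 hc
    · change aug Γ _ = 0
      rw [bd, Finsupp.sum, map_sum]
      refine Finset.sum_eq_zero fun x _ => ?_
      rw [map_sum, Fin.sum_univ_two, aug_single, aug_single]
      simp
  exact h1 h

theorem aug_push {Γ' : Type w} [Group Γ'] (f : Γ → Γ') (c : Ch Γ 0) :
    aug Γ' (push f c) = aug Γ c := by
  induction c using Finsupp.induction_linear with
  | zero => rw [push, Finsupp.mapDomain_zero, map_zero, map_zero]
  | add a b ha hb =>
    rw [push] at ha hb ⊢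
    rw [Finsupp.mapDomain_add, map_add, map_add, ha, hb]
  | single x r => rw [push, Finsupp.mapDomain_single, aug_single, aug_single]

theorem sub_aug_mem (c : Ch Γ 0) :
    c - aug Γ c • (Finsupp.single (fun _ => 1) 1 : Ch Γ 0) ∈ bnd Γ 0 := by
  induction c using Finsupp.induction_linear with
  | zero =>
    rw [map_zero, zero_smul, sub_zero]
    exact AddSubgroup.zero_mem _
  | add a b ha hb =>
    have e : a + b - aug Γ (a + b) • (Finsupp.single (fun _ => 1) 1 : Ch Γ 0) =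
        (a - aug Γ a • (Finsupp.single (fun _ => 1) 1 : Ch Γ 0)) +
          (b - aug Γ b • (Finsupp.single (fun _ => 1) 1 : Ch Γ 0)) := by
      rw [map_add, add_smul]
      abel
    rw [e]
    exact AddSubgroup.add_mem _ ha hb
  | single x r =>
    have hx : x = fun j => x 0 * (fun _ : Fin (0 + 1) => (1 : Γ)) j := by
      funext j
      have hj : j = 0 := Fin.ext (by omega)
      rw [hj, mul_one]
    have e : (Finsupp.single x r : Ch Γ 0) -
        aug Γ (Finsupp.single x r) • (Finsupp.single (fun _ => 1) 1 : Ch Γ 0) =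
        r • ((Finsupp.single (fun j => x 0 * (fun _ : Fin (0 + 1) => (1 : Γ)) j) 1 : Ch Γ 0) -
          Finsupp.single (fun _ => 1) 1) := by
      rw [aug_single, smul_sub, Finsupp.smul_single, Finsupp.smul_single, smul_eq_mul, mul_one]
      exact congrArg (fun y => Finsupp.single y r - (Finsupp.single (fun _ => 1) r : Ch Γ 0)) hx
    rw [e]
    have hm : (Finsupp.single (fun j => x 0 * (fun _ : Fin (0 + 1) => (1 : Γ)) j) 1 : Ch Γ 0) -
        Finsupp.single (fun _ => 1) 1 ∈ bnd Γ 0 := AddSubgroup.subset_closure (Or.inl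
      (AddSubgroup.subset_closure ⟨x 0, fun _ => 1, rfl⟩))
    exact AddSubgroup.zsmul_mem _ hm r

/-- the class of the prism over a chain of degree zero -/
theorem toHG_pri {Λ : Type w} [Group Λ] (σ : Γ → Λ) (u : Λ) (c : Ch Γ 0) (z' : Cyc Λ 0)
    (h : z'.ch = pri u (push σ c)) : toHG z' = aug Γ c • e1 u := by
  have key : ∀ (c : Ch Λ 0), (HG.mk ⟨pri u c, cyc0 _⟩ : HG Λ 0) = aug Λ c • e1 u := by
    intro c
    induction c using Finsupp.induction_linear with
    | zero =>
      rw [map_zero, zero_smul]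
      have e : (⟨pri u (0 : Ch Λ 0), cyc0 _⟩ : FQ.cyc Λ 0) = 0 := Subtype.ext (by
        rw [pri, Finsupp.sum_zero_index]
        rfl)
      rw [e]
      rfl
    | add a b ha hb =>
      have e : (⟨pri u (a + b), cyc0 _⟩ : FQ.cyc Λ 0) = ⟨pri u a, cyc0 _⟩ + ⟨pri u b, cyc0 _⟩ :=
        Subtype.ext (by
          change pri u (a + b) = pri u a + pri u b
          rw [pri, pri, pri]
          refine Finsupp.sum_add_index' (fun x => ?_) fun x r s => ?_
          · simp
          · rw [← Finset.sum_add_distrib]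
            refine Finset.sum_congr rfl fun i _ => ?_
            rw [mul_add, Finsupp.single_add])
      rw [e, HG.mk_add, ha, hb, map_add, add_smul]
    | single x r =>
      rw [aug_single]
      have e : (⟨pri u (Finsupp.single x r), cyc0 _⟩ : FQ.cyc Λ 0) =
          r • ⟨Finsupp.single (fun j : Fin (0 + 2) => if (0 : Fin (0 + 1)).castSucc < j then
            x ((0 : Fin (0 + 1)).predAbove j) * u else x ((0 : Fin (0 + 1)).predAbove j)) 1,
              cyc0 _⟩ :=
        Subtype.ext (by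
          change pri u (Finsupp.single x r) = r • _
          rw [pri, Finsupp.sum_single_index (by simp), Fin.sum_univ_one, Finsupp.smul_single,
            smul_eq_mul, mul_one]
          simp)
      rw [e]
      change r • (HG.mk ⟨Finsupp.single _ 1, cyc0 _⟩ : HG Λ 0) = _
      rw [mk_single]
      congr 2
      simp
  rw [← aug_push σ c, ← key]
  exact congrArg HG.mk (Subtype.ext h)

end

section

variable {R : Type u} [Ring R] {G : Type v} [Group G]

/-- the homomorphism to the colimit -/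
noncomputable def toL : HnK1 R G 0 →+ H0K1 R G :=
  lift (fun s => aug (Cent s.F) s.z • cl (⟨s.F, s.fin⟩ : FamSub G FinSub)
      (K1.mk (R := MonoidAlgebra R s.F) s.U))
    (fun F hF N U V z hz => by
      change aug (Cent F) z • cl (⟨F, hF⟩ : FamSub G FinSub)
        (K1.mk (R := MonoidAlgebra R F) (U * V)) = _
      rw [← smul_add]
      congr 1
      rw [← map_add]
      exact congrArg (cl (⟨F, hF⟩ : FamSub G FinSub)) (K1.mk_mul (R := MonoidAlgebra R F) U V))
    (fun F hF N U V z hz h => by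
      have h1 : V = stab (R := MonoidAlgebra R F) U := Units.ext h
      subst h1
      exact congrArg (fun y => aug (Cent F) z • cl (⟨F, hF⟩ : FamSub G FinSub) y)
        (K1.mk_stab (R := MonoidAlgebra R F) U))
    (fun F hF N U z z' hz hz' h => by
      change aug (Cent F) (z + z') • _ = aug (Cent F) z • _ + aug (Cent F) z' • _
      rw [map_add, add_smul])
    (fun F hF N U z hz h => by
      change aug (Cent F) z • _ = 0
      rw [aug_bnd h, zero_smul])
    (fun F F' hF hF' g N U U' z z' hz hz' c κ hc hκ hee hzz => by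
      change aug (Cent F') z' • _ = aug (Cent F) z • _
      have hg : ∀ x ∈ F, g * x * g⁻¹ ∈ F' := fun x hx => by
        rw [← hc ⟨x, hx⟩]
        exact (c ⟨x, hx⟩).2
      have h1 : c = conjHom g F F' hg := funext fun a => Subtype.ext (hc a)
      subst h1
      rw [hzz, aug_push]
      congr 1
      have h3 := cl_conj (⟨F, hF⟩ : FamSub G FinSub) ⟨F', hF'⟩ g hg
        (K1.mk (R := MonoidAlgebra R F) U)
      have h4 : K1.mapU (MonoidAlgebra.mapDomainRingHom R (conjHom g F F' hg)) U = U' :=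
        Units.ext (Matrix.ext fun i j => (hee i j).symm)
      have h5 : K1.map (MonoidAlgebra.mapDomainRingHom R (conjHom g F F' hg))
          (K1.mk (R := MonoidAlgebra R F) U) = K1.mk (R := MonoidAlgebra R F') U' :=
        (K1.map_mk _ _).trans (congrArg (fun V => K1.mk (R := MonoidAlgebra R F') V) h4)
      refine Eq.trans ?_ h3
      exact congrArg (cl (⟨F', hF'⟩ : FamSub G FinSub)) h5.symm)

theorem toL_mk (s : HSym1 R G 0) : toL (HnK1.mk s) = aug (Cent s.F) s.z •
    cl (⟨s.F, s.fin⟩ : FamSub G FinSub) (K1.mk (R := MonoidAlgebra R s.F) s.U) :=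
  FreeAbelianGroup.lift_apply_of _ _

/-- the base point -/
noncomputable def pt (Γ : Type v) [Group Γ] : Ch Γ 0 := Finsupp.single (fun _ => 1) 1

/-- the homomorphism in the variable `U` -/
noncomputable def fU (F : FamSub G FinSub) : K1 (MonoidAlgebra R F.1) →+ HnK1 R G 0 :=
  K1.lift (fun N U => HnK1.mk ⟨F.1, F.2, N, U, pt (Cent F.1), trivial⟩)
    (fun N U V => mk_add (Or.inl (Or.inl (Or.inl ⟨F.1, F.2, N, U, V, pt _, trivial, rfl⟩))))
    (fun N U => mk_eq (Or.inl (Or.inl (Or.inr ⟨F.1, F.2, N, U, _, pt _, trivial, rfl, rfl⟩))))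

theorem fU_mk (F : FamSub G FinSub) {N : ℕ} (U : GLm N (RF R F.1)) :
    fU F (K1.mk (R := MonoidAlgebra R F.1) U) =
      HnK1.mk ⟨F.1, F.2, N, U, pt (Cent F.1), trivial⟩ := K1.lift_mk _ _ _ _

theorem fU_conj (F F' : FamSub G FinSub) (g : G) (h : ∀ x ∈ F.1, g * x * g⁻¹ ∈ F'.1)
    (x : K1 (MonoidAlgebra R F.1)) :
    fU F' (K1.map (MonoidAlgebra.mapDomainRingHom R (conjHom g F.1 F'.1 h)) x) = fU F x := by
  suffices H : (fU F').comp (K1.map (MonoidAlgebra.mapDomainRingHom R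
      (conjHom g F.1 F'.1 h))) = (fU F : K1 (MonoidAlgebra R F.1) →+ HnK1 R G 0) from
    DFunLike.congr_fun H x
  apply K1.hom_ext
  intro N U
  rw [AddMonoidHom.comp_apply, K1.map_mk]
  refine (fU_mk F' _).trans ?_
  refine Eq.trans ?_ (fU_mk F U).symm
  refine mk_eq (Or.inr ⟨F.1, F'.1, F.2, F'.2, g, N, U,
    K1.mapU (MonoidAlgebra.mapDomainRingHom R (conjHom g F.1 F'.1 h)) U,
    pt _, pt _, trivial, trivial, conjHom g F.1 F'.1 h, centConj g F.1 F'.1 h,
    fun _ => rfl, fun _ => rfl, fun _ _ => rfl, ?_, rfl⟩)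
  refine Eq.symm ((Finsupp.mapDomain_single (a := fun _ => (1 : Cent F'.1)) (b := (1 : ℤ))).trans ?_)
  refine congrArg (fun y => (Finsupp.single y 1 : Ch (Cent F.1) 0)) ?_
  funext j
  exact map_one (centConj g F.1 F'.1 h)

/-- the homomorphism from the colimit -/
noncomputable def fromL : H0K1 R G →+ HnK1 R G 0 := lift10 fU fU_conj

theorem fromL_cl (F : FamSub G FinSub) (x : K1 (MonoidAlgebra R F.1)) :
    fromL (cl F x) = fU F x := lift10_cl _ _ F x

/-- the homomorphism in the variable `z` -/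
noncomputable def fZ (F : Subgroup G) (hF : Finite F) (N : ℕ) (U : GLm N (RF R F)) :
    Ch (Cent F) 0 →+ HnK1 R G 0 :=
  AddMonoidHom.mk' (fun z => HnK1.mk ⟨F, hF, N, U, z, trivial⟩) fun z z' =>
    mk_add (Or.inl (Or.inr (Or.inl ⟨F, hF, N, U, z, z', trivial, trivial, trivial, rfl⟩)))

theorem fromL_toL (x : HnK1 R G 0) : fromL (toL x) = x := by
  have h : (fromL (R := R) (G := G)).comp toL = AddMonoidHom.id _ := by
    apply hom_ext
    rintro ⟨F, hF, N, U, z, hz⟩
    rw [AddMonoidHom.comp_apply, toL_mk, map_zsmul, fromL_cl, AddMonoidHom.id_apply]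
    have h1 : fU (⟨F, hF⟩ : FamSub G FinSub) (K1.mk (R := MonoidAlgebra R F) U) =
        fZ F hF N U (pt (Cent F)) := fU_mk _ _
    have h2 : fZ F hF N U (z - aug (Cent F) z • pt (Cent F)) = 0 :=
      mk_zero (Or.inl (Or.inr (Or.inr ⟨F, hF, N, U, _, trivial, sub_aug_mem z, rfl⟩)))
    rw [map_sub, map_zsmul, sub_eq_zero] at h2
    refine (congrArg (fun y => aug (Cent F) z • y) h1).trans h2.symm
  exact DFunLike.congr_fun h x

variable (R G) in
/-- the assembly map -/
noncomputable def asmL : HnK1 R G 0 →+ KQ (MonoidAlgebra R G) 0 :=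
  fromK.comp ((assembly10 R G).comp toL)

theorem asmL_isAssembly1 : IsAssembly1 (R := R) (G := G) (n := 0) (asmL R G) := by
  rintro ⟨F, hF, N, U, z, hc⟩ σ u z' hσ hu hz
  change z'.ch = pri u (push σ z) at hz
  change fromK (assembly10 R G (toL (HnK1.mk ⟨F, hF, N, U, z, hc⟩))) = _
  rw [toL_mk, map_zsmul, map_zsmul]
  have h3 : u = K1.mapU (MonoidAlgebra.mapDomainRingHom R F.subtype) U :=
    Units.ext (Matrix.ext fun i j => hu i j)
  have h4 : assembly10 R G (cl (⟨F, hF⟩ : FamSub G FinSub) (K1.mk (R := MonoidAlgebra R F) U)) =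
      FQ.KQ.cls (MonoidAlgebra R G) 0 N (e1 u) := by
    rw [assembly10_cl]
    refine (congrArg kq1 (K1.map_mk _ _)).trans ?_
    rw [h3]
    exact kq1_mk _
  refine (congrArg (fun y => aug (Cent F) z • fromK y) h4).trans ?_
  rw [← map_zsmul, ← map_zsmul, ← toHG_pri σ u z z' hz]
  exact fromK_cls N z'

end

section

variable {R : Type u} [Ring R] {G : Type v} [Group G]

end

end Pool.Agent.H71.FQ1

end

section

/-!
# Rational injectivity on the `K₀`-part and on the sum of the `K₀`-part and the `K₁`-part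
-/

set_option autoImplicit false

universe u v

namespace Pool.Agent.H71.FQ1

open Pool.Agent.H71.FQS (KQ HnK0 IsAssembly fromK toK toK_fromK asmS1 asmS1_isAssembly1 toH1c fromH1 fromH1_toH1c)
open Pool.Agent.H71.FU0 (H0K1 assembly10 assembly00)

section

variable {R : Type u} [Ring R] {G : Type v} [Group G] {n : ℕ}

variable (R G) in
/-- the assembly map on the `K₁`-part -/
noncomputable def asm1 : (n : ℕ) → HnK1 R G n →+ KQ (MonoidAlgebra R G) n
  | 0 => asmL R G
  | n + 1 => (asmS1 R G n).comp conv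

theorem asm1_isAssembly1 : IsAssembly1 (R := R) (G := G) (n := n) (asm1 R G n) := by
  rcases n with _ | n
  · exact asmL_isAssembly1
  · intro s σ u z' hσ hu hz
    change (asmS1 R G n) (conv (HnK1.mk s)) = _
    rw [conv_mk]
    exact asmS1_isAssembly1 ⟨s.F, s.fin, s.N, s.U, ⟨s.z, s.cyc⟩⟩ σ u z' hσ hu hz

end

end Pool.Agent.H71.FQ1

end
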