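import Pool.Agent.H71.TCZ.H71.FQ.EvD
import Pool.Agent.H71.TCZ.H71.FQ.Sy
import Pool.Agent.H71.TCZ.M26
import Pool.Agent.H71.TCZ.M48
import Pool.Agent.H71.TCZ.M68

/-! The parts of this file: H71.FQ.StC, H71.FQ.StD, H71.FU1.LocF1. -/

section

/-!
# Comparison of the definitions: the source
-/

set_option autoImplicit false

open Matrix

universe u v w

namespace Pool.Agent.H71.FQS

open Pool.Agent.H71.FQ (Cx HG centConj)
open Pool.Agent.H71.FJ (IdemMat K0 K0.mk K0.lift K0.lift_mk K0.hom_ext K0.map)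
open Pool.Agent.H95.WH (FamSub conjHom FinSub)

section

variable {R : Type u} [Ring R] {G : Type v} [Group G] {n : ℕ}

/-- the symbol of an idempotent matrix -/
def hs (F : FamSub G FinSub) (a : IdemMat (MonoidAlgebra R F.1)) (z : Cyc (Cent F.1) n) :
    HSym R G n := ⟨F.1, F.2, a.n, a.mat, a.idem, z⟩

theorem mk_eq {s t : HSym R G n} (h : FreeAbelianGroup.of s - FreeAbelianGroup.of t ∈
    relE R G n ∪ relS R G n ∪ relZ R G n ∪ relC R G n) : HnK0.mk s = HnK0.mk t :=
  (QuotientAddGroup.eq_iff_sub_mem).2 (AddSubgroup.subset_closure h)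

theorem mk_add {s t r : HSym R G n} (h : FreeAbelianGroup.of s -
    (FreeAbelianGroup.of t + FreeAbelianGroup.of r) ∈
      relE R G n ∪ relS R G n ∪ relZ R G n ∪ relC R G n) :
    HnK0.mk s = HnK0.mk t + HnK0.mk r :=
  (QuotientAddGroup.eq_iff_sub_mem).2 (AddSubgroup.subset_closure h)

theorem exists_g (F : FamSub G FinSub) (a : IdemMat (MonoidAlgebra R F.1)) :
    ∃ f : HG (Cent F.1) n →+ HnK0 R G n, ∀ z, f (toHG z) = HnK0.mk (hs F a z) := by
  apply exists_lift
  · intro z z' z'' h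
    exact mk_add (Or.inl (Or.inr (Or.inl
      ⟨F.1, F.2, a.n, a.mat, a.idem, z, z', z'', h, rfl⟩)))
  · intro z h
    exact (QuotientAddGroup.eq_zero_iff _).2 (AddSubgroup.subset_closure
      (Or.inl (Or.inr (Or.inr ⟨F.1, F.2, a.n, a.mat, a.idem, z, h, rfl⟩))))

/-- the homomorphism in the variable `z` -/
noncomputable def gz (F : FamSub G FinSub) (a : IdemMat (MonoidAlgebra R F.1)) :
    HG (Cent F.1) n →+ HnK0 R G n := (exists_g F a).choose

theorem gz_toHG (F : FamSub G FinSub) (a : IdemMat (MonoidAlgebra R F.1))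
    (z : Cyc (Cent F.1) n) : gz F a (toHG z) = HnK0.mk (hs F a z) :=
  (exists_g F a).choose_spec z

/-- the biadditive map -/
noncomputable def gb (F : FamSub G FinSub) :
    K0 (MonoidAlgebra R F.1) →+ (HG (Cent F.1) n →+ HnK0 R G n) :=
  K0.lift (gz F)
    (fun a b h => by
      apply DFunLike.ext
      intro x
      obtain ⟨z, rfl⟩ := toHG_surjective x
      rw [gz_toHG, gz_toHG]
      exact mk_eq (Or.inl (Or.inl (Or.inl
        ⟨F.1, F.2, a.n, b.n, a.mat, b.mat, a.idem, b.idem, z, h, rfl⟩))))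
    (fun a b => by
      apply DFunLike.ext
      intro x
      obtain ⟨z, rfl⟩ := toHG_surjective x
      rw [AddMonoidHom.add_apply, gz_toHG, gz_toHG, gz_toHG]
      exact mk_add (Or.inl (Or.inl (Or.inr
        ⟨F.1, F.2, a.n, b.n, a.mat, b.mat, a.idem, b.idem, (a.sum b).idem, z, rfl⟩))))

theorem gb_mk (F : FamSub G FinSub) (a : IdemMat (MonoidAlgebra R F.1))
    (z : Cyc (Cent F.1) n) : gb F (K0.mk a) (toHG z) = HnK0.mk (hs F a z) := by
  rw [gb, K0.lift_mk, gz_toHG]

theorem gb_conj (F F' : FamSub G FinSub) (g : G) (h : ∀ x ∈ F.1, g * x * g⁻¹ ∈ F'.1)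
    (x : K0 (MonoidAlgebra R F.1)) (z : HG (Cent F'.1) n) :
    gb F' (K0.map (MonoidAlgebra.mapDomainRingHom R (conjHom g F.1 F'.1 h)) x) z =
      gb F x (HG.map n (centConj g F.1 F'.1 h) z) := by
  obtain ⟨z, rfl⟩ := toHG_surjective z
  suffices H : (AddMonoidHom.eval (toHG z)).comp ((gb (n := n) F').comp
      (K0.map (MonoidAlgebra.mapDomainRingHom R (conjHom g F.1 F'.1 h)))) =
      (AddMonoidHom.eval (HG.map n (centConj g F.1 F'.1 h) (toHG z))).comp (gb F) from
    DFunLike.congr_fun H x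
  apply K0.hom_ext
  intro a
  change gb F' (K0.map _ (K0.mk a)) (toHG z) = gb F (K0.mk a) (HG.map n _ (toHG z))
  have e1 := map_toHG' (centConj g F.1 F'.1 h) z
  rw [Pool.Agent.H71.FJ.K0.map_mk', gb_mk]
  refine Eq.trans ?_ (congrArg (gb F (K0.mk a)) e1).symm
  refine Eq.trans ?_ (gb_mk F a _).symm
  exact mk_eq (Or.inr ⟨F.1, F'.1, F.2, F'.2, g, a.n, a.mat,
    (a.map (MonoidAlgebra.mapDomainRingHom R (conjHom g F.1 F'.1 h))).mat, a.idem,
    (a.map (MonoidAlgebra.mapDomainRingHom R (conjHom g F.1 F'.1 h))).idem,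
    z.map (centConj g F.1 F'.1 h), z, conjHom g F.1 F'.1 h, centConj g F.1 F'.1 h,
    fun _ => rfl, fun _ => rfl, fun _ _ => rfl, rfl, rfl⟩)

/-- the comparison homomorphism -/
noncomputable def fromH : FQ.HnK0 R G n →+ HnK0 R G n :=
  QuotientAddGroup.lift _ (FreeAbelianGroup.lift fun s : FQ.Sym R G n => gb s.F s.x s.z) (by
    rw [FQ.SymRel, AddSubgroup.closure_le]
    rintro w ((⟨F, x, y, z, rfl⟩ | ⟨F, x, z, z', rfl⟩) | ⟨F, F', g, h, x, z, rfl⟩)
    · change FreeAbelianGroup.lift _ _ = 0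
      rw [FQ.symX, FQ.symOf, FQ.symOf, FQ.symOf, map_sub, map_add,
        FreeAbelianGroup.lift_apply_of, FreeAbelianGroup.lift_apply_of,
        FreeAbelianGroup.lift_apply_of, sub_eq_zero]
      exact DFunLike.congr_fun (map_add (gb F) x y) z
    · change FreeAbelianGroup.lift _ _ = 0
      rw [FQ.symZ, FQ.symOf, FQ.symOf, FQ.symOf, map_sub, map_add,
        FreeAbelianGroup.lift_apply_of, FreeAbelianGroup.lift_apply_of,
        FreeAbelianGroup.lift_apply_of, sub_eq_zero]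
      exact map_add (gb F x) z z'
    · change FreeAbelianGroup.lift _ _ = 0
      rw [FQ.symC, FQ.symOf, FQ.symOf, map_sub, FreeAbelianGroup.lift_apply_of,
        FreeAbelianGroup.lift_apply_of, sub_eq_zero]
      exact gb_conj F F' g h x z)

theorem fromH_sy (F : FamSub G FinSub) (a : IdemMat (MonoidAlgebra R F.1))
    (z : Cyc (Cent F.1) n) :
    fromH (FQ.sy F (K0.mk a) (toHG (Γ := Subgroup.centralizer (F.1 : Set G)) z)) =
      HnK0.mk (hs F a z) := by
  have h : fromH (FQ.sy F (K0.mk a) (toHG (Γ := Subgroup.centralizer (F.1 : Set G)) z)) =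
      gb F (K0.mk a) (toHG z) := FreeAbelianGroup.lift_apply_of _ _
  rw [h, gb_mk]

/-- the class in the first definition -/
noncomputable def hsy (s : HSym R G n) : FQ.HnK0 R G n :=
  FQ.sy ⟨s.F, s.fin⟩ (K0.mk ⟨s.N, s.e, s.idem⟩)
    (toHG (Γ := Subgroup.centralizer (s.F : Set G)) s.z)

/-- the comparison homomorphism in the other direction -/
noncomputable def toH : HnK0 R G n →+ FQ.HnK0 R G n :=
  QuotientAddGroup.lift _ (FreeAbelianGroup.lift hsy) (by
    rw [AddSubgroup.closure_le]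
    rintro w (((⟨F, hF, N, M, e, f, he, hf, z, h, rfl⟩ |
        ⟨F, hF, N, M, e, f, he, hf, h, z, rfl⟩) |
        (⟨F, hF, N, e, he, z, z', z'', h, rfl⟩ | ⟨F, hF, N, e, he, z, h, rfl⟩)) |
        ⟨F, F', hF, hF', g, N, e, e', he, he', z, z', c, κ, hc, hκ, hee, hz, rfl⟩)
    · change FreeAbelianGroup.lift hsy _ = 0
      rw [map_sub, FreeAbelianGroup.lift_apply_of, FreeAbelianGroup.lift_apply_of, sub_eq_zero]
      have h1 : (K0.mk ⟨N, e, he⟩ : K0 (MonoidAlgebra R F)) = K0.mk ⟨M, f, hf⟩ :=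
        Pool.Agent.H71.FJ.K0.mk_eq_of_equiv h
      exact congrArg (fun x => FQ.sy (⟨F, hF⟩ : FamSub G FinSub) x
        (toHG (Γ := Subgroup.centralizer (F : Set G)) z)) h1
    · change FreeAbelianGroup.lift hsy _ = 0
      rw [map_sub, map_add, FreeAbelianGroup.lift_apply_of, FreeAbelianGroup.lift_apply_of,
        FreeAbelianGroup.lift_apply_of, sub_eq_zero]
      have h1 : (K0.mk ⟨N + M, blkM e f, h⟩ : K0 (MonoidAlgebra R F)) =
          K0.mk ⟨N, e, he⟩ + K0.mk ⟨M, f, hf⟩ :=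
        Pool.Agent.H71.FJ.K0.mk_sum (⟨N, e, he⟩ : IdemMat (MonoidAlgebra R F)) ⟨M, f, hf⟩
      exact (congrArg (fun x => FQ.sy (⟨F, hF⟩ : FamSub G FinSub) x
        (toHG (Γ := Subgroup.centralizer (F : Set G)) z)) h1).trans (FQ.sy_add _ _ _ _)
    · change FreeAbelianGroup.lift hsy _ = 0
      rw [map_sub, map_add, FreeAbelianGroup.lift_apply_of, FreeAbelianGroup.lift_apply_of,
        FreeAbelianGroup.lift_apply_of, sub_eq_zero]
      exact (congrArg (fun x => FQ.sy (⟨F, hF⟩ : FamSub G FinSub) (K0.mk ⟨N, e, he⟩) x)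
        (toHG_add (Γ := Subgroup.centralizer (F : Set G)) h)).trans (FQ.sy_addz _ _ _ _)
    · change FreeAbelianGroup.lift hsy _ = 0
      rw [FreeAbelianGroup.lift_apply_of]
      exact (congrArg (fun x => FQ.syB (⟨F, hF⟩ : FamSub G FinSub) (K0.mk ⟨N, e, he⟩) x)
        (toHG_bnd (Γ := Subgroup.centralizer (F : Set G)) h)).trans (map_zero _)
    · change FreeAbelianGroup.lift hsy _ = 0
      rw [map_sub, FreeAbelianGroup.lift_apply_of, FreeAbelianGroup.lift_apply_of, sub_eq_zero]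
      have hg : ∀ x ∈ F, g * x * g⁻¹ ∈ F' := fun x hx => by
        rw [← hc ⟨x, hx⟩]
        exact (c ⟨x, hx⟩).2
      have h1 : c = conjHom g F F' hg := funext fun a => Subtype.ext (hc a)
      have h2 : κ = centConj g F F' hg := funext fun γ => Subtype.ext (hκ γ)
      subst h1
      subst h2
      have h3 := FQ.sy_conj (⟨F, hF⟩ : FamSub G FinSub) ⟨F', hF'⟩ g hg
        (K0.mk (⟨N, e, he⟩ : IdemMat (MonoidAlgebra R F)))
        (toHG (Γ := Subgroup.centralizer (F' : Set G)) z')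
      rw [map_toHG (Γ := Subgroup.centralizer (F' : Set G))
        (Γ' := Subgroup.centralizer (F : Set G)) (centConj g F F' hg) hz,
        Pool.Agent.H71.FJ.K0.map_mk'] at h3
      have h4 : (⟨N, e, he⟩ : IdemMat (MonoidAlgebra R F)).map
          (MonoidAlgebra.mapDomainRingHom R (conjHom g F F' hg)) = ⟨N, e', he'⟩ := by
        have h5 : e.map (MonoidAlgebra.mapDomainRingHom R (conjHom g F F' hg)) = e' :=
          Matrix.ext fun i j => (hee i j).symm
        subst h5
        rfl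
      rw [h4] at h3
      exact h3)

theorem toH_mk (s : HSym R G n) : toH (HnK0.mk s) = hsy s := FreeAbelianGroup.lift_apply_of _ _

theorem fromH_toH (x : HnK0 R G n) : fromH (toH x) = x := by
  have h : (fromH (R := R) (G := G) (n := n)).comp toH = AddMonoidHom.id _ := by
    apply QuotientAddGroup.addMonoidHom_ext
    apply FreeAbelianGroup.lift_ext
    intro s
    change fromH (toH (HnK0.mk s)) = HnK0.mk s
    rw [toH_mk]
    exact fromH_sy (⟨s.F, s.fin⟩ : FamSub G FinSub) ⟨s.N, s.e, s.idem⟩ s.z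
  exact DFunLike.congr_fun h x

end

end Pool.Agent.H71.FQS

end

section

/-!
# Comparison of the definitions: the assembly map
-/

set_option autoImplicit false

open Matrix

universe u v w

namespace Pool.Agent.H71.FQS

open Pool.Agent.H71.FQ (Cx HG)
open Pool.Agent.H71.FJ (IdemMat K0 K0.mk)
open Pool.Agent.H95.WH (FamSub FinSub)

section

variable (R : Type u) [Ring R] (G : Type v) [Group G] (n : ℕ)

/-- the assembly map -/
noncomputable def asmS : HnK0 R G n →+ KQ (MonoidAlgebra R G) n :=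
  fromK.comp ((FQ.assemblyN R n G).comp toH)

variable {R G n}

/-- the homomorphism of the definition of `assemblyN` -/
noncomputable def rhoG (F : Subgroup G) (a : IdemMat (MonoidAlgebra R F)) :
    Subgroup.centralizer (F : Set G) →* GLm a.n (MonoidAlgebra R G) :=
  FQ.rho (MonoidAlgebra.mapDomainRingHom R F.subtype)
    ((FQ.grpHom R G).comp (Subgroup.centralizer (F : Set G)).subtype)
    (FQ.grpHom_comm R F.subtype (Subgroup.centralizer (F : Set G)).subtype (FQ.cent_comm F)) a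

theorem rhoG_val (F : Subgroup G) (a : IdemMat (MonoidAlgebra R F))
    (γ : Subgroup.centralizer (F : Set G)) (i j : Fin a.n) :
    (rhoG F a γ).val i j = (if i = j then 1 else 0) +
      (MonoidAlgebra.mapDomain (fun b : F => (b : G) * γ.val) (a.mat i j) -
        MonoidAlgebra.mapDomain (fun b : F => (b : G)) (a.mat i j)) := by
  rw [rhoG, FQ.rho_val, Matrix.add_apply, Matrix.one_apply, Matrix.map_apply]
  congr 1
  change MonoidAlgebra.mapDomain F.subtype (a.mat i j) *
    (MonoidAlgebra.single γ.val (1 : R) - 1) = _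
  rw [mul_sub, mul_one]
  congr 1
  generalize a.mat i j = x
  induction x using MonoidAlgebra.induction_linear with
  | zero => simp
  | add x y hx hy => rw [MonoidAlgebra.mapDomain_add, add_mul, hx, hy, MonoidAlgebra.mapDomain_add]
  | single b r =>
    rw [MonoidAlgebra.mapDomain_single, MonoidAlgebra.mapDomain_single,
      MonoidAlgebra.single_mul_single, mul_one]
    rfl

theorem rhoG_eq (F : Subgroup G) (a : IdemMat (MonoidAlgebra R F))
    (ρ : Subgroup.centralizer (F : Set G) → GLm a.n (MonoidAlgebra R G))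
    (h : IsRho F a.mat ρ) : ρ = rhoG F a := by
  funext γ
  apply Units.ext
  refine Matrix.ext fun i j => ?_
  rw [rhoG_val]
  exact h γ i j

theorem asmS_isAssembly : IsAssembly (R := R) (G := G) (n := n) (asmS R G n) := by
  rintro ⟨F, hF, N, e, he, z⟩ ρ z' hρ hz
  change z'.ch = push ρ z.ch at hz
  have h1 : toH (HnK0.mk ⟨F, hF, N, e, he, z⟩) = hsy ⟨F, hF, N, e, he, z⟩ := toH_mk _
  change fromK (FQ.assemblyN R n G (toH (HnK0.mk ⟨F, hF, N, e, he, z⟩))) = _
  rw [h1, hsy, FQ.asmN_sy, FQ.gasm, FQ.asm_mk]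
  have h2 := rhoG_eq F ⟨N, e, he⟩ ρ hρ
  subst h2
  have h3 := map_toHG (Γ := Subgroup.centralizer (F : Set G)) (rhoG F ⟨N, e, he⟩) (z := z)
    (z' := z') hz
  refine Eq.trans ?_ (fromK_cls N z')
  exact congrArg (fun x => fromK (FQ.KQ.cls (MonoidAlgebra R G) n N x)) h3

end

section

variable {R : Type u} [Ring R] {G : Type v} [Group G] {n : ℕ}

end

end Pool.Agent.H71.FQS

end

section

/-!
# Project FU: functoriality of the source of the assembly map in the group, the `K₁`-part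

As `Pool/Agent/H71/FQ/LocF.lean` with `K₁` in place of `K₀`.
-/

set_option autoImplicit false

open Matrix

universe u v w

namespace Pool.Agent.H71.FU1

open Pool.Agent.H71.FQ
open Pool.Agent.H16.FU
open Pool.Agent.H71.FJ (K0 K0.map)
open Pool.Agent.H95.WH (K1 K1.mk K1.map K1.map_map FamSub conjHom FinSub)

section

variable {R : Type u} [Ring R] {G : Type v} [Group G] {n : ℕ}

variable {H : Type*} [Group H] [Finite H] {Γ : Type w} [Group Γ]

/-- The class of a pair of commuting homomorphisms. -/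
noncomputable def gsym1 (f : H →* G) (κ : Γ →* G) (h : ∀ γ a, f a * κ γ = κ γ * f a)
    (x : K1 (MonoidAlgebra R H)) (z : HG Γ n) : HnK1 R G n :=
  sy1 (rangeF f) (K1.map (MonoidAlgebra.mapDomainRingHom R f.rangeRestrict) x)
    (HG.map n (centRestrict f κ h) z)

theorem gsym1_add_left (f : H →* G) (κ : Γ →* G) (h : ∀ γ a, f a * κ γ = κ γ * f a)
    (x y : K1 (MonoidAlgebra R H)) (z : HG Γ n) :
    gsym1 f κ h (x + y) z = gsym1 f κ h x z + gsym1 f κ h y z := by
  rw [gsym1, map_add, sy1_add]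
  rfl

theorem gsym1_add_right (f : H →* G) (κ : Γ →* G) (h : ∀ γ a, f a * κ γ = κ γ * f a)
    (x : K1 (MonoidAlgebra R H)) (z z' : HG Γ n) :
    gsym1 f κ h x (z + z') = gsym1 f κ h x z + gsym1 f κ h x z' := by
  rw [gsym1, map_add, sy1_addz]
  rfl

/-- the biadditive map -/
noncomputable def gsymB1 (f : H →* G) (κ : Γ →* G) (h : ∀ γ a, f a * κ γ = κ γ * f a) :
    K1 (MonoidAlgebra R H) →+ HG Γ n →+ HnK1 R G n :=
  AddMonoidHom.mk' (fun x => AddMonoidHom.mk' (fun z => gsym1 f κ h x z)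
    (fun z z' => gsym1_add_right f κ h x z z')) (by
      intro x y
      ext z
      exact gsym1_add_left f κ h x y z)

theorem gsym1_comp {H' : Type*} [Group H'] [Finite H'] (f : H →* G) (ψ : H' →* H) (κ : Γ →* G)
    (h : ∀ γ a, f a * κ γ = κ γ * f a) (h' : ∀ γ a, (f.comp ψ) a * κ γ = κ γ * (f.comp ψ) a)
    (x : K1 (MonoidAlgebra R H')) (z : HG Γ n) :
    gsym1 f κ h (K1.map (MonoidAlgebra.mapDomainRingHom R ψ) x) z =
      gsym1 (f.comp ψ) κ h' x z := by
  have hr : ∀ x ∈ (rangeF (f.comp ψ)).1, (1 : G) * x * (1 : G)⁻¹ ∈ (rangeF f).1 := by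
    rintro _ ⟨a, rfl⟩
    rw [one_mul, inv_one, mul_one]
    exact ⟨ψ a, rfl⟩
  have e1 : (MonoidAlgebra.mapDomainRingHom R f.rangeRestrict).comp
      (MonoidAlgebra.mapDomainRingHom R ψ) =
      (MonoidAlgebra.mapDomainRingHom R (conjHom 1 (rangeF (f.comp ψ)).1 (rangeF f).1 hr)).comp
        (MonoidAlgebra.mapDomainRingHom R (f.comp ψ).rangeRestrict) := by
    rw [← MonoidAlgebra.mapDomainRingHom_comp, ← MonoidAlgebra.mapDomainRingHom_comp]
    congr 1
    refine MonoidHom.ext fun a => Subtype.ext ?_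
    change f (ψ a) = 1 * f (ψ a) * 1⁻¹
    rw [one_mul, inv_one, mul_one]
  have e2 : (centConj 1 (rangeF (f.comp ψ)).1 (rangeF f).1 hr).comp (centRestrict f κ h) =
      centRestrict (f.comp ψ) κ h' := by
    refine MonoidHom.ext fun a => Subtype.ext ?_
    change (1 : G)⁻¹ * κ a * 1 = κ a
    rw [inv_one, one_mul, mul_one]
  rw [gsym1, gsym1, K1.map_map, e1, ← K1.map_map, sy1_conj, HG.map_map, e2]

theorem gsym1_map {Γ' : Type*} [Group Γ'] (f : H →* G) (κ : Γ →* G) (ψ : Γ' →* Γ)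
    (h : ∀ γ a, f a * κ γ = κ γ * f a) (h' : ∀ γ a, f a * (κ.comp ψ) γ = (κ.comp ψ) γ * f a)
    (x : K1 (MonoidAlgebra R H)) (z : HG Γ' n) :
    gsym1 f κ h x (HG.map n ψ z) = gsym1 f (κ.comp ψ) h' x z := by
  rw [gsym1, gsym1, HG.map_map]
  rfl

theorem gsym1_conj (f f' : H →* G) (κ κ' : Γ →* G) (g : G) (h : ∀ γ a, f a * κ γ = κ γ * f a)
    (h' : ∀ γ a, f' a * κ' γ = κ' γ * f' a) (hf : ∀ a, f' a = g * f a * g⁻¹)
    (hκ : ∀ γ, κ' γ = g * κ γ * g⁻¹) (x : K1 (MonoidAlgebra R H)) (z : HG Γ n) :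
    gsym1 f' κ' h' x z = gsym1 f κ h x z := by
  have hr : ∀ x ∈ (rangeF f).1, g * x * g⁻¹ ∈ (rangeF f').1 := by
    rintro _ ⟨a, rfl⟩
    exact ⟨a, hf a⟩
  have e1 : (MonoidAlgebra.mapDomainRingHom R f'.rangeRestrict) =
      (MonoidAlgebra.mapDomainRingHom R (conjHom g (rangeF f).1 (rangeF f').1 hr)).comp
        (MonoidAlgebra.mapDomainRingHom R f.rangeRestrict) := by
    rw [← MonoidAlgebra.mapDomainRingHom_comp]
    congr 1
    exact MonoidHom.ext fun a => Subtype.ext (hf a)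
  have e2 : (centConj g (rangeF f).1 (rangeF f').1 hr).comp (centRestrict f' κ' h') =
      centRestrict f κ h := by
    refine MonoidHom.ext fun a => Subtype.ext ?_
    change g⁻¹ * κ' a * g = κ a
    rw [hκ]
    group
  rw [gsym1, gsym1, e1, ← K1.map_map, sy1_conj, HG.map_map, e2]

/-- the class of a symbol is the class of the inclusions -/
theorem sy1_eq_gsym1 (F : FamSub G FinSub) (x : K1 (MonoidAlgebra R F.1))
    (z : HG (Subgroup.centralizer (F.1 : Set G)) n) (hF : Finite F.1) :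
    sy1 F x z = gsym1 F.1.subtype (Subgroup.centralizer (F.1 : Set G)).subtype
      (cent_comm F.1) x z := by
  have hr : ∀ x ∈ F.1, (1 : G) * x * (1 : G)⁻¹ ∈ (rangeF F.1.subtype).1 := by
    intro a ha
    rw [one_mul, inv_one, mul_one]
    exact ⟨⟨a, ha⟩, rfl⟩
  have e1 : (MonoidAlgebra.mapDomainRingHom R F.1.subtype.rangeRestrict) =
      MonoidAlgebra.mapDomainRingHom R (conjHom 1 F.1 (rangeF F.1.subtype).1 hr) := by
    congr 1
    refine MonoidHom.ext fun a => Subtype.ext ?_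
    change (a : G) = 1 * a * 1⁻¹
    rw [one_mul, inv_one, mul_one]
  have e2 : (centConj 1 F.1 (rangeF F.1.subtype).1 hr).comp
      (centRestrict F.1.subtype (Subgroup.centralizer (F.1 : Set G)).subtype (cent_comm F.1)) =
      MonoidHom.id _ := by
    refine MonoidHom.ext fun a => Subtype.ext ?_
    change (1 : G)⁻¹ * a * 1 = a
    rw [inv_one, one_mul, mul_one]
  rw [gsym1, e1, sy1_conj, HG.map_map, e2, HG.map_id]

end

section

variable (R : Type u) [Ring R] (n : ℕ) {G : Type v} [Group G] {G' : Type w} [Group G']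

/-- the image of a symbol as a biadditive map -/
noncomputable def symF1 (φ : G →* G') (F : FamSub G FinSub) : K1 (MonoidAlgebra R F.1) →+
    HG (Subgroup.centralizer (F.1 : Set G)) n →+ HnK1 R G' n :=
  haveI : Finite F.1 := F.2
  gsymB1 (φ.comp F.1.subtype) (φ.comp (Subgroup.centralizer (F.1 : Set G)).subtype)
    (comm_map φ F.1)

theorem symF1_conj (φ : G →* G') (F F' : FamSub G FinSub) (g : G)
    (h : ∀ x ∈ F.1, g * x * g⁻¹ ∈ F'.1) (x : K1 (MonoidAlgebra R F.1))
    (z : HG (Subgroup.centralizer (F'.1 : Set G)) n) :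
    symF1 R n φ F' (K1.map (MonoidAlgebra.mapDomainRingHom R (conjHom g F.1 F'.1 h)) x) z =
      symF1 R n φ F x (HG.map n (centConj g F.1 F'.1 h) z) := by
  haveI : Finite F.1 := F.2
  haveI : Finite F'.1 := F'.2
  change gsym1 (φ.comp F'.1.subtype) (φ.comp (Subgroup.centralizer (F'.1 : Set G)).subtype)
      (comm_map φ F'.1) (K1.map (MonoidAlgebra.mapDomainRingHom R (conjHom g F.1 F'.1 h)) x) z =
    gsym1 (φ.comp F.1.subtype) (φ.comp (Subgroup.centralizer (F.1 : Set G)).subtype)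
      (comm_map φ F.1) x (HG.map n (centConj g F.1 F'.1 h) z)
  have h1 : ∀ (γ : Subgroup.centralizer (F'.1 : Set G)) (a : F.1),
      ((φ.comp F'.1.subtype).comp (conjHom g F.1 F'.1 h)) a *
        (φ.comp (Subgroup.centralizer (F'.1 : Set G)).subtype) γ =
      (φ.comp (Subgroup.centralizer (F'.1 : Set G)).subtype) γ *
        ((φ.comp F'.1.subtype).comp (conjHom g F.1 F'.1 h)) a := fun γ a =>
    comm_map φ F'.1 γ (conjHom g F.1 F'.1 h a)
  have h2 : ∀ (γ : Subgroup.centralizer (F'.1 : Set G)) (a : F.1),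
      (φ.comp F.1.subtype) a * ((φ.comp (Subgroup.centralizer (F.1 : Set G)).subtype).comp
        (centConj g F.1 F'.1 h)) γ =
      ((φ.comp (Subgroup.centralizer (F.1 : Set G)).subtype).comp (centConj g F.1 F'.1 h)) γ *
        (φ.comp F.1.subtype) a := fun γ a => comm_map φ F.1 (centConj g F.1 F'.1 h γ) a
  rw [gsym1_comp (φ.comp F'.1.subtype) (conjHom g F.1 F'.1 h) _ (comm_map φ F'.1) h1,
    gsym1_map (φ.comp F.1.subtype) _ (centConj g F.1 F'.1 h) (comm_map φ F.1) h2]
  apply gsym1_conj _ _ _ _ (φ g)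
  · intro a
    change φ (g * a * g⁻¹) = φ g * φ a * (φ g)⁻¹
    rw [map_mul, map_mul, map_inv]
  · intro γ
    change φ γ = φ g * φ (g⁻¹ * γ * g) * (φ g)⁻¹
    rw [map_mul, map_mul, map_inv]
    group

/-- homomorphisms which agree on the symbols agree -/
theorem hom1_ext {M : Type*} [AddCommGroup M] {f g : HnK1 R G n →+ M}
    (h : ∀ (F : FamSub G FinSub) (x : K1 (MonoidAlgebra R F.1))
      (z : HG (Subgroup.centralizer (F.1 : Set G)) n), f (sy1 F x z) = g (sy1 F x z)) : f = g := by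
  apply QuotientAddGroup.addMonoidHom_ext (SymRel1 R G n)
  apply FreeAbelianGroup.lift_ext
  rintro ⟨F, x, z⟩
  exact h F x z

theorem asm1_congr' {A : Type*} [Ring A] {B : Type*} [Ring B] {Γ : Type*} [Group Γ]
    {φ φ' : B →+* A} {κ κ' : Γ →* Aˣ} (e : φ = φ') (e' : κ = κ')
    (hκ : ∀ γ b, φ b * (κ γ : A) = κ γ * φ b) (hκ' : ∀ γ b, φ' b * (κ' γ : A) = κ' γ * φ' b)
    (x : K1 B) (z : HG Γ n) : asm1 n φ κ hκ x z = asm1 n φ' κ' hκ' x z := by
  subst e
  subst e'
  rfl

/-- Functoriality of the source of the assembly map. -/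
noncomputable def mapH1 (φ : G →* G') : HnK1 R G n →+ HnK1 R G' n :=
  lift1 (symF1 R n φ) (symF1_conj R n φ)

theorem mapH1_sy1 (φ : G →* G') (F : FamSub G FinSub) (x : K1 (MonoidAlgebra R F.1))
    (z : HG (Subgroup.centralizer (F.1 : Set G)) n) (hF : Finite F.1) :
    mapH1 R n φ (sy1 F x z) = gsym1 (φ.comp F.1.subtype)
      (φ.comp (Subgroup.centralizer (F.1 : Set G)).subtype) (comm_map φ F.1) x z :=
  lift1_sy1 _ _ F x z

theorem mapH1_gsym1 (φ : G →* G') {H : Type*} [Group H] [Finite H] {Γ : Type*} [Group Γ]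
    (f : H →* G) (κ : Γ →* G) (h : ∀ γ a, f a * κ γ = κ γ * f a)
    (h' : ∀ γ a, (φ.comp f) a * (φ.comp κ) γ = (φ.comp κ) γ * (φ.comp f) a)
    (x : K1 (MonoidAlgebra R H)) (z : HG Γ n) :
    mapH1 R n φ (gsym1 f κ h x z) = gsym1 (φ.comp f) (φ.comp κ) h' x z := by
  haveI hfin : Finite (rangeF f).1 := (rangeF f).2
  rw [gsym1, mapH1_sy1 R n φ (rangeF f) _ _ hfin,
    gsym1_comp (φ.comp (rangeF f).1.subtype) f.rangeRestrict _ (comm_map φ (rangeF f).1)
      (fun γ a => comm_map φ (rangeF f).1 γ (f.rangeRestrict a)),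
    gsym1_map ((φ.comp (rangeF f).1.subtype).comp f.rangeRestrict)
      (φ.comp (Subgroup.centralizer ((rangeF f).1 : Set G)).subtype) (centRestrict f κ h) _
      (fun γ a => h' γ a)]
  rfl

theorem mapH1_mapH1 {G'' : Type*} [Group G''] (φ : G →* G') (ψ : G' →* G'') (z : HnK1 R G n) :
    mapH1 R n ψ (mapH1 R n φ z) = mapH1 R n (ψ.comp φ) z := by
  suffices H : (mapH1 R n ψ).comp (mapH1 R n φ) = mapH1 R n (ψ.comp φ) from
    DFunLike.congr_fun H z
  refine hom1_ext R n fun F x z => ?_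
  haveI : Finite F.1 := F.2
  rw [AddMonoidHom.comp_apply, mapH1_sy1 R n φ F x z this,
    mapH1_sy1 R n (ψ.comp φ) F x z this]
  exact mapH1_gsym1 R n ψ _ _ _ _ x z

theorem assembly1_gsym1 {H : Type*} [Group H] [Finite H] {Γ : Type*} [Group Γ]
    (f : H →* G) (κ : Γ →* G) (h : ∀ γ a, f a * κ γ = κ γ * f a)
    (x : K1 (MonoidAlgebra R H)) (z : HG Γ n) :
    assembly1 R n G (gsym1 f κ h x z) = gasm1 R n f κ h x z := by
  rw [gsym1, asm1_sy1, gasm1_comp R n (rangeF f).1.subtype f.rangeRestrict _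
      (cent_comm (rangeF f).1) (fun γ a => cent_comm (rangeF f).1 γ (f.rangeRestrict a)),
    gasm1_map R n _ _ (centRestrict f κ h) _ h]
  rfl

theorem map_gasm1' (φ : G →* G') {H : Type*} [Group H] {Γ : Type*} [Group Γ]
    (f : H →* G) (κ : Γ →* G) (h : ∀ γ a, f a * κ γ = κ γ * f a)
    (h' : ∀ γ a, (φ.comp f) a * (φ.comp κ) γ = (φ.comp κ) γ * (φ.comp f) a)
    (x : K1 (MonoidAlgebra R H)) (z : HG Γ n) :
    KQ.map (MonoidAlgebra.mapDomainRingHom R φ) (gasm1 R n f κ h x z) =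
      gasm1 R n (φ.comp f) (φ.comp κ) h' x z := by
  have e1 : (MonoidAlgebra.mapDomainRingHom R φ).comp (MonoidAlgebra.mapDomainRingHom R f) =
      MonoidAlgebra.mapDomainRingHom R (φ.comp f) :=
    (MonoidAlgebra.mapDomainRingHom_comp _ _).symm
  have e2 : (Units.map ((MonoidAlgebra.mapDomainRingHom R φ :
      MonoidAlgebra R G →+* MonoidAlgebra R G') : MonoidAlgebra R G →* MonoidAlgebra R G')).comp
      ((grpHom R G).comp κ) = (grpHom R G').comp (φ.comp κ) := by
    refine MonoidHom.ext fun γ => Units.ext ?_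
    change MonoidAlgebra.mapDomain φ (MonoidAlgebra.single (κ γ) 1) =
      MonoidAlgebra.single (φ (κ γ)) 1
    rw [MonoidAlgebra.mapDomain_single]
  have hc : ∀ γ b, ((MonoidAlgebra.mapDomainRingHom R φ).comp
      (MonoidAlgebra.mapDomainRingHom R f)) b *
      (((Units.map ((MonoidAlgebra.mapDomainRingHom R φ :
        MonoidAlgebra R G →+* MonoidAlgebra R G') : MonoidAlgebra R G →*
          MonoidAlgebra R G')).comp ((grpHom R G).comp κ)) γ : MonoidAlgebra R G') =
      ((Units.map ((MonoidAlgebra.mapDomainRingHom R φ :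
        MonoidAlgebra R G →+* MonoidAlgebra R G') : MonoidAlgebra R G →*
          MonoidAlgebra R G')).comp ((grpHom R G).comp κ)) γ *
        ((MonoidAlgebra.mapDomainRingHom R φ).comp (MonoidAlgebra.mapDomainRingHom R f)) b := by
    rw [e1, e2]
    exact grpHom_comm R (φ.comp f) (φ.comp κ) h'
  exact (map_asm1 _ _ _ _ hc x z).trans (asm1_congr' n e1 e2 _ _ x z)

/-- **The assembly map is natural in the group.** -/
theorem assembly1_map (φ : G →* G') (z : HnK1 R G n) :
    assembly1 R n G' (mapH1 R n φ z) =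
      KQ.map (MonoidAlgebra.mapDomainRingHom R φ) (assembly1 R n G z) := by
  suffices H : (assembly1 R n G').comp (mapH1 R n φ) =
      (KQ.map (MonoidAlgebra.mapDomainRingHom R φ)).comp (assembly1 R n G) from
    DFunLike.congr_fun H z
  refine hom1_ext R n fun F x z => ?_
  haveI : Finite F.1 := F.2
  rw [AddMonoidHom.comp_apply, AddMonoidHom.comp_apply, mapH1_sy1 R n φ F x z this,
    assembly1_gsym1, asm1_sy1]
  exact (map_gasm1' R n φ _ _ _ _ x z).symm

/-- **Every class comes from the subgroups which contain a finite set.** -/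
theorem exists_lift1 (z : HnK1 R G n) :
    ∃ S : Finset G, ∀ G' : Subgroup G, (∀ s ∈ S, s ∈ G') →
      ∃ y : HnK1 R G' n, mapH1 R n G'.subtype y = z := by
  classical
  induction z using hnk1_induction with
  | h0 => exact ⟨∅, fun G' _ => ⟨0, map_zero _⟩⟩
  | h1 F x z =>
    haveI hfin : Finite F.1 := F.2
    haveI : Fintype F.1 := Fintype.ofFinite _
    obtain ⟨S, hS⟩ := HG.exists_lift z
    refine ⟨(Finset.univ.image fun a : F.1 => (a : G)) ∪ S.image (Subgroup.centralizer (F.1 : Set G)).subtype, ?_⟩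
    intro G' hG'
    have hF : ∀ a : F.1, (a : G) ∈ G' := fun a =>
      hG' _ (Finset.mem_union_left _ (Finset.mem_image_of_mem _ (Finset.mem_univ a)))
    obtain ⟨y, hy⟩ := hS (G'.subgroupOf (Subgroup.centralizer (F.1 : Set G))) fun s hs =>
      hG' _ (Finset.mem_union_right _ (Finset.mem_image_of_mem _ hs))
    let f1 : F.1 →* G' := F.1.subtype.codRestrict G' hF
    let κ1 : G'.subgroupOf (Subgroup.centralizer (F.1 : Set G)) →* G' :=
      ((Subgroup.centralizer (F.1 : Set G)).subtype.comp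
        (G'.subgroupOf (Subgroup.centralizer (F.1 : Set G))).subtype).codRestrict G' fun γ => γ.2
    have hc : ∀ γ a, f1 a * κ1 γ = κ1 γ * f1 a := fun γ a =>
      Subtype.ext (cent_comm F.1 γ.1 a)
    refine ⟨gsym1 f1 κ1 hc x y, ?_⟩
    rw [mapH1_gsym1 R n G'.subtype f1 κ1 hc (fun γ a => cent_comm F.1 γ.1 a)]
    rw [sy1_eq_gsym1 F x z hfin, ← hy, gsym1_map _ _ _ _ (fun γ a => cent_comm F.1 γ.1 a)]
    rfl
  | h2 a b ha hb =>
    obtain ⟨S1, h1⟩ := ha
    obtain ⟨S2, h2⟩ := hb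
    refine ⟨S1 ∪ S2, fun G' hG' => ?_⟩
    obtain ⟨y1, e1⟩ := h1 G' fun s hs => hG' s (Finset.mem_union_left _ hs)
    obtain ⟨y2, e2⟩ := h2 G' fun s hs => hG' s (Finset.mem_union_right _ hs)
    exact ⟨y1 + y2, by rw [map_add, e1, e2]⟩
  | h3 a ha =>
    obtain ⟨S, hS⟩ := ha
    refine ⟨S, fun G' hG' => ?_⟩
    obtain ⟨y, hy⟩ := hS G' hG'
    exact ⟨-y, by rw [map_neg, hy]⟩

end

end Pool.Agent.H71.FU1

end
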