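import Pool.Agent.H71.TCZ.M26
import Pool.Agent.H71.TCZ.M34
import Pool.Agent.H71.TCZ.M38
import Pool.Agent.H71.TCZ.M49
import Pool.Agent.H71.TCZ.M60
import Pool.Agent.H71.TCZ.M64
import Pool.Agent.H71.TCZ.M68

/-! The parts of this file: H39.CZ.Kill, H16.CZ.Sep1, H71.CZ.ValU, H71.CZ.SumH, H71.CZ.LinF, H8.KL.LinK1. -/

section

/-!
# Project CZ: the rotation functional of the class of `c` vanishes on chains with entries in a subgroup ring

If no conjugate of `c` lies in the image of `e : H → G`, then `TR q c Φ` vanishes on the image of the chains over `B[H]`.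
`relK`: if `X` is, in `KQ (B[G])`, the image of an element of `KQ (B[H])`, then the value of the functional on a chain which
represents `X` is divisible by `p ^ (m + (m - r + 1))`.
-/

set_option autoImplicit false

open Matrix

universe u v w

namespace Pool.Agent.H39.CZ

open Pool.Agent.H71.FQ Pool.Agent.H16.KN

section

variable {G : Type u} [Group G] {H : Type w} [Group H] {B : Type v} [CommRing B]

private theorem coeff_range (e : H →* G) (a : MonoidAlgebra B H) {x : G}
    (hx : (MonoidAlgebra.mapDomainRingHom B e a).coeff x ≠ 0) : ∃ h : H, e h = x := by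
  classical
  induction a using MonoidAlgebra.induction_linear with
  | zero =>
    rw [map_zero] at hx
    exact absurd rfl hx
  | add a b ha hb =>
    rw [map_add, MonoidAlgebra.coeff_add, Finsupp.add_apply] at hx
    by_cases h1 : (MonoidAlgebra.mapDomainRingHom B e a).coeff x = 0
    · rw [h1, zero_add] at hx
      exact hb hx
    · exact ha h1
  | single y r =>
    change (MonoidAlgebra.mapDomain e (MonoidAlgebra.single y r)).coeff x ≠ 0 at hx
    rw [MonoidAlgebra.mapDomain_single, MonoidAlgebra.coeff_single, Finsupp.single_apply] at hx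
    by_cases h1 : e y = x
    · exact ⟨y, h1⟩
    · rw [if_neg h1] at hx
      exact absurd rfl hx

private theorem TT_kill {K N : ℕ} [NeZero K] (e : H →* G) {c : G}
    (hc : ∀ (u : G) (h : H), u * e h * u⁻¹ ≠ c) {φ : (Fin K → G) → B} (hφ : CI c φ)
    (x : Fin K → GLm N (MonoidAlgebra B G))
    (hx : ∀ j y, cof (lts x j) y ≠ 0 → ∃ h : H, e h = y) : TT c φ x = 0 := by
  classical
  obtain ⟨S, hS⟩ := exists_supp (lts x)
  rw [TT, TM_eq hφ _ S hS]
  refine Finset.sum_eq_zero fun g _ => ?_
  by_cases hg : ∀ j, cof (lts x j) (g j : G) ≠ 0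
  · have h1 : wv c φ (fun j => (g j : G)) = 0 := by
      rw [wv]
      rw [dif_neg]
      rintro ⟨u, hu⟩
      choose h hh using fun j => hx j _ (hg j)
      have e1 : (List.ofFn fun j => (g j : G)).prod = e (List.ofFn h).prod := by
        rw [map_list_prod, List.map_ofFn]
        congr 1
        exact congrArg List.ofFn (funext fun j => (hh j).symm)
      rw [e1] at hu
      exact hc u _ hu
    rw [h1, mul_zero]
  · push Not at hg
    obtain ⟨j, hj⟩ := hg
    have h1 : (List.ofFn fun j => cof (lts x j) (g j : G)).prod = 0 := by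
      apply List.prod_eq_zero
      rw [List.mem_ofFn]
      exact ⟨j, hj⟩
    rw [h1, Matrix.trace_zero, zero_mul]

/-- The rotation functional vanishes on the chains over `B[H]`. -/
theorem TR_kill {k : ℕ} (q : ℕ) [NeZero q] (e : H →* G) {c : G}
    (hc : ∀ (u : G) (h : H), u * e h * u⁻¹ ≠ c) {Φ : (Fin (k + 1) → Fin q → G) → B}
    (hΦ : CIq c q Φ) (w : QC (MonoidAlgebra B H) k) :
    TR q c Φ (QC.map (MonoidAlgebra.mapDomainRingHom B e) w) = 0 := by
  have h : (TR q c Φ).comp (QC.map (MonoidAlgebra.mapDomainRingHom B e)) = 0 := by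
    refine QC.hom_ext fun N x => ?_
    rw [AddMonoidHom.comp_apply, QC.map_t, TR_t, AddMonoidHom.zero_apply]
    refine TT_kill e hc (fun g hg y => hΦ g hg fun j b => y (finProdFinEquiv (b, j))) _ ?_
    intro j y hy
    have e1 : lts (rep q fun i => mapGL (MonoidAlgebra.mapDomainRingHom B e) N (x i)) j =
        (lts (rep q x) j).map (MonoidAlgebra.mapDomainRingHom B e) := by
      show ((mapGL (MonoidAlgebra.mapDomainRingHom B e) N _)⁻¹ *
        mapGL (MonoidAlgebra.mapDomainRingHom B e) N _).val = _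
      rw [← map_inv, ← map_mul]
      rfl
    rw [e1] at hy
    have h1 : ∃ i i', ((lts (rep q x) j).map (MonoidAlgebra.mapDomainRingHom B e) i i').coeff y ≠ 0 := by
      by_contra hcon
      push Not at hcon
      apply hy
      ext i i'
      exact hcon i i'
    obtain ⟨i, i', h2⟩ := h1
    exact coeff_range e _ h2
  exact DFunLike.congr_fun h w

end

end Pool.Agent.H39.CZ

end

section

/-!
# Project CZ, the `K₀`-part: cocycles with values in a field of characteristic zero

PROOF. `exists_cocycle'` (`KN/UctF.lean`) and `exists_hom_rat` (`H71/DB/Elim.lean`), composed with `algebraMap ℚ k`.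
-/

set_option autoImplicit false

universe u v w

namespace Pool.Agent.H16.CZ

open Pool.Agent.H71.FQ Pool.Agent.H16.KN

theorem sep_field (k : Type u) [Field k] [CharZero k] {Γ : Type v} [Group Γ] {n : ℕ}
    (b : HG Γ n) (h : ∀ (φ : (Fin (n + 2) → Γ) → k) (hφ : IsCoc Γ n φ), HG.ev hφ b = 0) :
    ∃ m : ℤ, m ≠ 0 ∧ m • b = 0 := by
  by_contra hcon
  push Not at hcon
  obtain ⟨μ, hμ⟩ := Pool.Agent.H71.DB.exists_hom_rat b hcon
  obtain ⟨φ, hφ, h1⟩ := exists_cocycle' ((algebraMap ℚ k : ℚ →+* k).toAddMonoidHom.comp μ)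
  have h2 := h φ hφ
  rw [h1 b] at h2
  exact hμ ((map_eq_zero_iff _ (algebraMap ℚ k).injective).1 h2)

end Pool.Agent.H16.CZ

end

section

/-!
# Project CZ: the value of `Θ` on a symbol `[C, u, z]`

PROOF of `Theta_gasm1`.  Over `G` let `u' = ` the image of `u`, `X' = DtG C.subtype uD` (`prU_DtG`).  `gasm1 .. (K1.unit u) z` is the class
`clX _ (n + 1) (Fin 1) (HG.map (zhom (scal 1 κ) (sc1 u') _) (HG.crz _ n z))` (`asm1_mk`, `HG.cr_eq_map`, `clX_fin`).  Lift `zhom ..` to
`D~^×`: `dgD γ` is the unit `mkD (J γ) 0` over `eta (scal γ)`, it commutes with `X'` (`γ` centralizes `C`: the entries of `X'` are supported on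
`C^p` and `dgG γ` commutes with `C^p`), `ρ' = zhom dgD X' _`; `Theta_lift`.  `jU ∘ ρ' = zhom (scal (inc ∘ dgG ∘ κ)) (jU X')` and `jU X'` is
the image of `hatU` (`jU_DtG`): reindex `ZMod p → Fin 1` to `Fin 1` (`clX_equiv`), `asm1_mk` and `gasm1_map` for `dgC`.
-/

set_option autoImplicit false

open Matrix

universe u v w

namespace Pool.Agent.H71.CZ

open Pool.Agent.H71.FQ Pool.Agent.H16.FU
open Pool.Agent.H95.WH (K1 K1.unit K1.mk)
open Pool.Agent.H39.CZ (hatS dgC dgC_coe)

section

variable {p : ℕ} [hp : Fact p.Prime] {B : Type} [CommRing B] {G : Type v} [Group G] {n : ℕ}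

/-- the wreath product of a subgroup as a subgroup -/
def toHat (p : ℕ) [Fact p.Prime] (C : Subgroup G) : Wr p C →* hatS p C :=
  (WrMap p C.subtype).codRestrict (hatS p C) fun x i => (x.left i).2

theorem toHat_coe (C : Subgroup G) (x : Wr p C) :
    ((toHat p C x : hatS p C) : Wr p G) = WrMap p C.subtype x := rfl

/-- the entry of a `1 × 1` matrix -/
noncomputable def ent {R : Type*} [Ring R] :
    (Matrix (ZMod p → Fin 1) (ZMod p → Fin 1) R)ˣ →* Rˣ :=
  Units.map
    { toFun := fun m => m 0 0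
      map_one' := Matrix.one_apply_eq 0
      map_mul' := fun a b => by
        rw [Matrix.mul_apply, Fintype.sum_eq_single 0 fun x hx => absurd (Subsingleton.elim x 0) hx] }

theorem ent_val {R : Type*} [Ring R] (U : (Matrix (ZMod p → Fin 1) (ZMod p → Fin 1) R)ˣ)
    (v w : ZMod p → Fin 1) : (ent U : R) = U.val v w := by
  have hv : v = 0 := Subsingleton.elim _ _
  have hw : w = 0 := Subsingleton.elim _ _
  rw [hv, hw]
  rfl

/-- the unit `u~` of the group ring of `C ≀ C_p` -/
noncomputable def hatU (C : Subgroup G) (uD : (Dt (shM p B C (Fin 1)))ˣ) :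
    (MonoidAlgebra B (hatS p C))ˣ :=
  Units.map (MonoidAlgebra.mapDomainRingHom B (toHat p C)).toMonoidHom (ent (jU p B C (Fin 1) uD))

theorem hatU_val (C : Subgroup G) (uD : (Dt (shM p B C (Fin 1)))ˣ) (v w : ZMod p → Fin 1) :
    (hatU C uD : MonoidAlgebra B (hatS p C)) =
      MonoidAlgebra.mapDomainRingHom B (toHat p C) ((jU p B C (Fin 1) uD).val v w) := by
  rw [← ent_val (jU p B C (Fin 1) uD) v w]
  rfl

theorem toHat_injective (C : Subgroup G) : Function.Injective (toHat p C) := by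
  intro x y hxy
  apply WrMap_injective (p := p) C.subtype_injective
  rw [← toHat_coe, ← toHat_coe, hxy]

/-- the unit `u~` is `1` modulo `p ^ 2` -/
theorem hatU_cong (C : Subgroup G) (uD : (Dt (shM p B C (Fin 1)))ˣ)
    (X : Matrix (ZMod p → Fin 1) (ZMod p → Fin 1) (MonoidAlgebra B (Wr p C)))
    (h : (jU p B C (Fin 1) uD).val = 1 + ((p : B) ^ 2) • X) :
    ∃ a : MonoidAlgebra B (hatS p C),
      (hatU C uD : MonoidAlgebra B (hatS p C)) = 1 + ((p : B) ^ 2) • a := by
  refine ⟨MonoidAlgebra.mapDomainRingHom B (toHat p C) (X 0 0), ?_⟩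
  rw [hatU_val C uD 0 0, h, Matrix.add_apply, Matrix.one_apply_eq, Matrix.smul_apply, map_add, map_one]
  congr 1
  exact map_smul (MonoidAlgebra.mapDomainAlgHom B B (toHat p C)) _ _

/-- the coefficients of the powers of `u~` -/
theorem hatU_coeff (C : Subgroup G) (uD : (Dt (shM p B C (Fin 1)))ˣ) (k : ℕ) (x : Wr p C) :
    ((hatU C uD : MonoidAlgebra B (hatS p C)) ^ k).coeff (toHat p C x) =
      ((jU p B C (Fin 1) (uD ^ k)).val 0 0).coeff x := by
  have h1 : (hatU C uD : MonoidAlgebra B (hatS p C)) ^ k =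
      MonoidAlgebra.mapDomainRingHom B (toHat p C) ((jU p B C (Fin 1) (uD ^ k)).val 0 0) := by
    rw [← hatU_val C (uD ^ k) 0 0, ← Units.val_pow_eq_pow_val]
    congr 1
    unfold hatU
    rw [map_pow (jU p B C (Fin 1)), map_pow ent, map_pow]
  rw [h1]
  have h2 := Finsupp.mapDomain_apply (f := (toHat p C : Wr p C → hatS p C)) (toHat_injective C)
    ((jU p B C (Fin 1) (uD ^ k)).val 0 0).coeff x
  rw [← h2]
  simp

private theorem vu_dgM (U : Matrix (Fin 1) (Fin 1) (MonoidAlgebra B G)) (v w : ZMod p → Fin 1) :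
    (dgM U : MM p B G (Fin 1)) v w = MonoidAlgebra.mapDomainRingHom B (dgG p G) (U 0 0) := by
  rw [dgM, if_pos ⟨fun _ => Subsingleton.elim _ _, fun _ => Subsingleton.elim _ _⟩]
  congr 2
  · exact Subsingleton.elim _ _
  · exact Subsingleton.elim _ _

private theorem vu_beM (U : Matrix (Fin 1) (Fin 1) (MonoidAlgebra B G)) (v w : ZMod p → Fin 1) :
    (beM U : MM p B G (Fin 1)) v w = MonoidAlgebra.mapDomainRingHom B (dgG p G) (U 0 0) := by
  have hvw : v = w := Subsingleton.elim _ _
  rw [beM_apply, Matrix.add_apply, Matrix.sub_apply, vu_dgM, vu_dgM, hvw, Matrix.one_apply_eq,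
    Matrix.one_apply_eq, map_one, sub_self, zero_add]

private theorem vu_tpM (U : Matrix (Fin 1) (Fin 1) (MonoidAlgebra B G)) (v w : ZMod p → Fin 1) :
    (tpM U : MM p B G (Fin 1)) v w = tp fun _ => U 0 0 := by
  rw [tpM_apply]
  congr 1
  funext i
  congr 1
  · exact Subsingleton.elim _ _
  · exact Subsingleton.elim _ _

private theorem vu_mul (a b : MM p B G (Fin 1)) (v w : ZMod p → Fin 1) :
    (a * b) v w = a v w * b v w := by
  have hvw : v = w := Subsingleton.elim _ _
  rw [Matrix.mul_apply, Fintype.sum_eq_single w fun x hx => absurd (Subsingleton.elim x w) hx, hvw]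

variable (B) in
/-- the scalar matrix of an element of the group -/
private noncomputable def sB (g : G) : Matrix (Fin 1) (Fin 1) (MonoidAlgebra B G) :=
  diagonal fun _ => MonoidAlgebra.single g 1

private theorem sB_mul (g h : G) : sB B (g * h) = sB B g * sB B h := by
  unfold sB
  rw [Matrix.diagonal_mul_diagonal]
  simp only [MonoidAlgebra.single_mul_single, mul_one]

private theorem sB_one : sB B (1 : G) = 1 := by
  unfold sB
  rw [← MonoidAlgebra.one_def]
  exact Matrix.diagonal_one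

private theorem beM_sB (g : G) (v w : ZMod p → Fin 1) :
    (beM (sB B g) : MM p B G (Fin 1)) v w = MonoidAlgebra.single (dgG p G g) 1 := by
  rw [vu_beM]
  change MonoidAlgebra.mapDomainRingHom B (dgG p G) (diagonal (fun _ => MonoidAlgebra.single g 1) 0 0) = _
  rw [Matrix.diagonal_apply_eq, MonoidAlgebra.mapDomainRingHom_apply, MonoidAlgebra.mapDomain_single]

private theorem tpM_sB (g : G) : (tpM (sB B g) : MM p B G (Fin 1)) = beM (sB B g) := by
  ext1 v w
  rw [vu_tpM, beM_sB]
  have h1 : (fun _ : ZMod p => sB B g 0 0) = fun i : ZMod p => MonoidAlgebra.single (dgG p G g i) (1 : B) := by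
    funext i
    change diagonal (fun _ => MonoidAlgebra.single g 1) 0 0 = _
    rw [Matrix.diagonal_apply_eq]
    rfl
  rw [h1, tp_single, Finset.prod_const_one]

variable (p B) in
/-- the lift of the scalar matrices to `D~` -/
private noncomputable def dgD0 : G →* Dt (shM p B G (Fin 1)) where
  toFun g := mkD (shM p B G (Fin 1)) (beM (sB B g)) 0 (s_beM _)
  map_one' := by
    rw [← mkD_one]
    refine dt_ext _ ?_ rfl
    change beM (sB B (1 : G)) = (1 : MM p B G (Fin 1))
    rw [sB_one, map_one]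
  map_mul' g h := by
    rw [mkD_mul]
    refine dt_ext _ ?_ ?_
    · change beM (sB B (g * h)) = (beM (sB B g) * beM (sB B h) : MM p B G (Fin 1))
      rw [sB_mul, map_mul]
    · change (0 : MM p B G (Fin 1)) = 0 * (beM (sB B h) + (shM p B G (Fin 1)).nm 0) + beM (sB B g) * 0
      rw [zero_mul, mul_zero, add_zero]

private theorem dgD0_11 (g : G) : (dgD0 p B g).1 1 1 = (beM (sB B g) : MM p B G (Fin 1)) := rfl

private theorem dgD0_10 (g : G) : (dgD0 p B g).1 1 0 = (0 : MM p B G (Fin 1)) := rfl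

/-- the lift of the scalar matrices of a group -/
noncomputable def dgD {Γ : Type v} [Group Γ] (κ : Γ →* G) : Γ →* (Dt (shM p B G (Fin 1)))ˣ :=
  ((dgD0 p B).comp κ).toHomUnits

theorem prU_dgD {Γ : Type v} [Group Γ] (hB : GoodB p B) (κ : Γ →* G) (γ : Γ) :
    prU (shM p B G (Fin 1)) (dgD κ γ) = eta hB (scal 1 ((grpHom B G).comp κ) γ) := by
  refine Units.ext (Subtype.ext (Prod.ext ?_ ?_))
  · rw [eta_fst]
    change (beM (sB B (κ γ)) + (shM p B G (Fin 1)).nm 0 : MM p B G (Fin 1)) = tpM (sB B (κ γ))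
    rw [map_zero, add_zero, tpM_sB]
  · rw [eta_snd]
    rfl

private theorem dt_mul_11' (X Y : Dt (shM p B G (Fin 1))) : (X * Y).1 1 1 = X.1 1 1 * Y.1 1 1 := by
  have h : (X * Y).1 1 1 = (X.1 * Y.1) 1 1 := rfl
  rw [h, Matrix.mul_apply, Fin.sum_univ_two, Y.2.1, mul_zero, zero_add]

private theorem dt_mul_10' (X Y : Dt (shM p B G (Fin 1))) :
    (X * Y).1 1 0 = X.1 1 0 * Y.1 0 0 + X.1 1 1 * Y.1 1 0 := by
  have h : (X * Y).1 1 0 = (X.1 * Y.1) 1 0 := rfl
  rw [h, Matrix.mul_apply, Fin.sum_univ_two]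

private theorem comm_single (C : Subgroup G) (γ : G) (hγ : ∀ c : C, (c : G) * γ = γ * c)
    (a : MonoidAlgebra B (ZMod p → C)) :
    MonoidAlgebra.single (dgG p G γ) 1 * MonoidAlgebra.mapDomainRingHom B (piG (p := p) C.subtype) a =
      MonoidAlgebra.mapDomainRingHom B (piG (p := p) C.subtype) a * MonoidAlgebra.single (dgG p G γ) 1 := by
  induction a using MonoidAlgebra.induction_linear with
  | zero => rw [map_zero, mul_zero, zero_mul]
  | add a b ha hb => rw [map_add, mul_add, add_mul, ha, hb]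
  | single g b =>
    rw [MonoidAlgebra.mapDomainRingHom_apply, MonoidAlgebra.mapDomain_single,
      MonoidAlgebra.single_mul_single, MonoidAlgebra.single_mul_single, one_mul, mul_one]
    congr 1
    funext i
    exact (hγ (g i)).symm

private theorem comm_mat (C : Subgroup G) (γ : G) (hγ : ∀ c : C, (c : G) * γ = γ * c)
    (a : MM p B C (Fin 1)) :
    beM (sB B γ) * mG B (Fin 1) C.subtype a = mG B (Fin 1) C.subtype a * beM (sB B γ) := by
  ext1 v w
  rw [vu_mul, vu_mul, beM_sB]
  exact comm_single C γ hγ (a v w)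

private theorem dgD0_comm (C : Subgroup G) (γ : G) (hγ : ∀ c : C, (c : G) * γ = γ * c)
    (X : (Dt (shM p B C (Fin 1)))ˣ) :
    dgD0 p B γ * (DtG B (Fin 1) C.subtype X : Dt (shM p B G (Fin 1))) =
      (DtG B (Fin 1) C.subtype X : Dt (shM p B G (Fin 1))) * dgD0 p B γ := by
  have h1 : ∀ i j, (DtG B (Fin 1) C.subtype X : Dt (shM p B G (Fin 1))).1 i j =
      mG B (Fin 1) C.subtype ((X : Dt (shM p B C (Fin 1))).1 i j) := fun i j => rfl
  have h2 : (dgD0 p B γ).1 0 0 = (beM (sB B γ) : MM p B G (Fin 1)) := by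
    change (beM (sB B γ) + (shM p B G (Fin 1)).nm 0 : MM p B G (Fin 1)) = _
    rw [map_zero, add_zero]
  refine dt_ext _ ?_ ?_
  · rw [dt_mul_11', dt_mul_11', dgD0_11, h1, comm_mat C γ hγ]
  · rw [dt_mul_10', dt_mul_10', dgD0_11, dgD0_10, h2, h1, h1, h1, zero_mul, mul_zero, zero_add, add_zero,
      comm_mat C γ hγ]

theorem dgD_comm (C : Subgroup G) (X : (Dt (shM p B C (Fin 1)))ˣ)
    (γ : Subgroup.centralizer (C : Set G)) :
    dgD (Subgroup.centralizer (C : Set G)).subtype γ * DtG B (Fin 1) C.subtype X =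
      DtG B (Fin 1) C.subtype X * dgD (Subgroup.centralizer (C : Set G)).subtype γ :=
  Units.ext (dgD0_comm C γ (fun c => Subgroup.mem_centralizer_iff.1 γ.2 c c.2) X)

/-- the reindexing -/
def e1 (p : ℕ) : (ZMod p → Fin 1) ≃ Fin 1 := Equiv.ofUnique _ _

theorem rxU_dgD {Γ : Type v} [Group Γ] (κ : Γ →* G) (γ : Γ) :
    rxU (e1 p) (jU p B G (Fin 1) (dgD κ γ)) =
      scal 1 ((grpHom B (Wr p G)).comp ((inc p G).comp ((dgG p G).comp κ))) γ := by
  refine Units.ext (Matrix.ext fun i j => ?_)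
  have hij : i = j := Subsingleton.elim _ _
  subst hij
  rw [rxU_apply, scal_val, Matrix.diagonal_apply_eq]
  change jR p B G (Fin 1) (dgD0 p B (κ γ)) _ _ = _
  rw [jR_apply, dgD0_11, dgD0_10, beM_sB]
  have h1 : ∀ j ∈ Finset.range p, MonoidAlgebra.mapDomainRingHom B (inc p G)
      ((0 : MM p B G (Fin 1)) ((e1 p).symm i) (fun k => (e1 p).symm i (k + (j : ZMod p)))) *
        MonoidAlgebra.single (sg p G ^ j) 1 = 0 := by
    intro j _
    rw [Matrix.zero_apply, map_zero, zero_mul]
  rw [Finset.sum_congr rfl h1, Finset.sum_const_zero, add_zero, MonoidAlgebra.mapDomainRingHom_apply,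
    MonoidAlgebra.mapDomain_single]
  rfl

theorem rxU_jU (C : Subgroup G) (uD : (Dt (shM p B C (Fin 1)))ˣ) :
    rxU (e1 p) (jU p B G (Fin 1) (DtG B (Fin 1) C.subtype uD)) =
      mapGL (MonoidAlgebra.mapDomainRingHom B (hatS p C).subtype) 1 (sc1 (hatU C uD)) := by
  refine Units.ext (Matrix.ext fun i j => ?_)
  have hij : i = j := Subsingleton.elim _ _
  subst hij
  rw [rxU_apply, jU_DtG, Matrix.map_apply, mapGL_val, Matrix.map_apply]
  change _ = MonoidAlgebra.mapDomainRingHom B (hatS p C).subtype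
    (Matrix.scalar (Fin 1) (hatU C uD : MonoidAlgebra B (hatS p C)) i i)
  rw [Matrix.scalar_apply, Matrix.diagonal_apply_eq, hatU_val C uD ((e1 p).symm i) ((e1 p).symm i)]
  have h1 : (WrMap p C.subtype) = (hatS p C).subtype.comp (toHat p C) := rfl
  rw [h1, MonoidAlgebra.mapDomainRingHom_comp]
  rfl

theorem sc1_map {R S : Type*} [Ring R] [Ring S] (f : R →+* S) (u : Rˣ) :
    sc1 (Units.map f.toMonoidHom u) = mapGL f 1 (sc1 u) := by
  refine Units.ext (Matrix.ext fun i j => ?_)
  have hij : i = j := Subsingleton.elim _ _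
  subst hij
  rw [mapGL_val, Matrix.map_apply]
  change Matrix.scalar (Fin 1) (f u) i i = f (Matrix.scalar (Fin 1) (u : R) i i)
  rw [Matrix.scalar_apply, Matrix.diagonal_apply_eq, Matrix.scalar_apply, Matrix.diagonal_apply_eq]

/-- a symbol of a unit as the class of a homomorphism from `Γ × ℤ` -/
theorem gasm1_unit {G' : Type v} [Group G'] {H : Type v} [Group H] {Γ : Type v} [Group Γ] (f : H →* G')
    (κ : Γ →* G') (h : ∀ γ a, f a * κ γ = κ γ * f a) (u : (MonoidAlgebra B H)ˣ) (z : HG Γ n) :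
    gasm1 B n f κ h (K1.unit u) z = clX (MonoidAlgebra B G') (n + 1) (Fin 1)
      (HG.map (n + 1) (zhom (scal 1 ((grpHom B G').comp κ))
        (mapGL (MonoidAlgebra.mapDomainRingHom B f) 1 (sc1 u))
        (scal_comm _ _ (grpHom_comm B f κ h) (sc1 u))) (HG.crz Γ n z)) := by
  rw [clX_fin, ← HG.cr_eq_map]
  exact asm1_mk _ _ (grpHom_comm B f κ h) (sc1 u) z

section

variable {Γ : Type*} [Group Γ] {Λ : Type*} [Group Λ] {Λ' : Type*} [Group Λ'] {Λ'' : Type*} [Group Λ'']

theorem comp_zhom (θ : Λ →* Λ') (f : Γ →* Λ) (u : Λ) (hu : ∀ γ, f γ * u = u * f γ) (f' : Γ →* Λ')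
    (u' : Λ') (hu' : ∀ γ, f' γ * u' = u' * f' γ) (h1 : ∀ γ, θ (f γ) = f' γ) (h2 : θ u = u') :
    θ.comp (zhom f u hu) = zhom f' u' hu' := by
  refine MonoidHom.ext fun x => ?_
  change θ (f x.1 * u ^ (Multiplicative.toAdd x.2)) = f' x.1 * u' ^ (Multiplicative.toAdd x.2)
  rw [map_mul, map_zpow, h1, h2]

theorem zhom_rel (θ : Λ →* Λ'') (η : Λ' →* Λ'') (f : Γ →* Λ) (u : Λ) (hu : ∀ γ, f γ * u = u * f γ)
    (f' : Γ →* Λ') (u' : Λ') (hu' : ∀ γ, f' γ * u' = u' * f' γ) (h1 : ∀ γ, θ (f γ) = η (f' γ))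
    (h2 : θ u = η u') (x : Γ × Multiplicative ℤ) : θ (zhom f u hu x) = η (zhom f' u' hu' x) := by
  change θ (f x.1 * u ^ (Multiplicative.toAdd x.2)) = η (f' x.1 * u' ^ (Multiplicative.toAdd x.2))
  rw [map_mul, map_zpow, h1, h2, map_mul, map_zpow]

end

end

end Pool.Agent.H71.CZ

end

section

/-!
# Project CZ: the sum of the values of the cocycle `hatF φ` on the symbols of the wreath product

PROOF.  Only the `d = inc h * sg` contribute (`trc_hat_of_not`), `d = toHat (inc h * sg)` for `h : ZMod p → C`; `ev_trc_hat` and `hatU_coeff`, the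
`- 1` has no coefficient at such `d` (`inc_sg_notMem`); collect the `h` with `pr0 h = d`, `trace_hat`.
-/

set_option autoImplicit false

open Matrix

universe u v w

namespace Pool.Agent.H71.CZ

open Pool.Agent.H71.FQ Pool.Agent.H16.KN Pool.Agent.H16.FU
open Pool.Agent.H95.WH (K1 K1.unit)
open Pool.Agent.H39.CZ (hatS dgC dgC_coe hatF isCoc_hatF ev_trc_hat trc_hat_of_not)

section

variable {p : ℕ} [hp : Fact p.Prime] {B : Type} [CommRing B] {G : Type v} [Group G] {n : ℕ}

/-- the element `inc h * sg` of the subgroup -/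
private def hel (C : Subgroup G) (h : ZMod p → C) : hatS p C := toHat p C (inc p C h * sg p C)

private theorem hel_coe (C : Subgroup G) (h : ZMod p → C) :
    ((hel C h : hatS p C) : Wr p G) = inc p G (fun i => (h i : G)) * sg p G := by
  rw [hel, toHat_coe, map_mul, WrMap_inc, WrMap_sg]
  rfl

private theorem hel_left (C : Subgroup G) (h : ZMod p → C) (i : ZMod p) :
    ((hel C h : hatS p C) : Wr p G).left i = (h i : G) := by
  rw [hel_coe, Pool.Agent.H39.CZ.left_mul']
  exact mul_one _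

private theorem hel_injective (C : Subgroup G) : Function.Injective (hel (p := p) C) := by
  intro h h' e
  funext i
  apply Subtype.ext
  rw [← hel_left C h i, ← hel_left C h' i, e]

private theorem not_range (C : Subgroup G) (d : hatS p C) (hd : d ∉ Set.range (hel (p := p) C))
    (h : ZMod p → G) : (d : Wr p G) ≠ inc p G h * sg p G := by
  intro e
  apply hd
  have hm : ∀ i, h i ∈ C := by
    intro i
    have h1 := d.2 i
    rw [e, Pool.Agent.H39.CZ.left_mul'] at h1
    have h2 : (inc p G h).left i * (sg p G).left (i + Multiplicative.toAdd (inc p G h).right) =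
        h i := mul_one _
    rwa [h2] at h1
  refine ⟨fun i => ⟨h i, hm i⟩, Subtype.ext ?_⟩
  rw [hel_coe, e]

private theorem pr0_coe (C : Subgroup G) (h : ZMod p → C) :
    ((pr0 h : C) : G) = pr0 fun i => (h i : G) := by
  unfold pr0
  have h1 := map_list_prod C.subtype (List.ofFn fun j : Fin p => h ((j : ℕ) : ZMod p))
  rw [List.map_ofFn] at h1
  exact h1

open Classical in
/-- **The sum of the values at `hat c`.** -/
theorem sum_hat (hB : GoodB p B) {c : G}
    {φ : (Fin (n + 2) → Subgroup.centralizer ({c} : Set G)) → B}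
    (hφ : IsCoc (Subgroup.centralizer ({c} : Set G)) n φ) (C : Subgroup G) [Fintype C]
    [Fintype (hatS p C)] (hC : ∀ a b : C, a * b = b * a) (u : (MonoidAlgebra B C)ˣ)
    (uD : (Dt (shM p B C (Fin 1)))ˣ) (h : prU (shM p B C (Fin 1)) uD = eta hB (sc1 u)) (k : ℕ)
    (z : HG (Subgroup.centralizer (C : Set G)) n) :
    ∑ d : hatS p C, HG.ev (isCoc_hatF (p := p) hφ)
        (trc n (hat p c) (hatS p C) d (HG.map n (dgC p C) z)) *
        (((hatU C uD : MonoidAlgebra B (hatS p C)) ^ k - 1).coeff d) =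
      ∑ d : C, HG.ev hφ (trc n c C d z) *
        ((((u : MonoidAlgebra B C) ^ k) ^ p).coeff d -
          ∑ g : C with g ^ p = d, ((u : MonoidAlgebra B C) ^ k).coeff g) := by
  have e1 := Fintype.sum_of_injective (hel (p := p) C) (hel_injective C)
    (fun h : ZMod p → C => HG.ev hφ (trc n c C (pr0 h) z) * ((p : B) *
      ((jU p B C (Fin 1) (uD ^ k)).val 0 0).coeff (inc p C h * sg p C)))
    (fun d : hatS p C => HG.ev (isCoc_hatF (p := p) hφ)
        (trc n (hat p c) (hatS p C) d (HG.map n (dgC p C) z)) *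
        (((hatU C uD : MonoidAlgebra B (hatS p C)) ^ k - 1).coeff d))
    (fun d hd => by
      rw [trc_hat_of_not d (not_range C d hd), AddMonoidHom.zero_apply, map_zero, zero_mul])
    (fun h => by
      have hne : (1 : hatS p C) ≠ hel C h := by
        intro e
        have e2 : ((1 : hatS p C) : Wr p G) = inc p G (fun i => (h i : G)) * sg p G := by
          rw [e, hel_coe]
        have : NeZero p := ⟨hp.out.ne_zero⟩
        refine inc_sg_notMem (p := p) (fun i => (h i : G)) 1 one_ne_zero hp.out.one_lt 1 ?_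
        rw [pow_one, ← e2, map_one]
        rfl
      have h2 : ((hatU C uD : MonoidAlgebra B (hatS p C)) ^ k - 1).coeff (hel C h) =
          ((jU p B C (Fin 1) (uD ^ k)).val 0 0).coeff (inc p C h * sg p C) := by
        rw [MonoidAlgebra.coeff_sub, Finsupp.sub_apply, MonoidAlgebra.one_def,
          MonoidAlgebra.coeff_single, Finsupp.single_eq_of_ne hne.symm, sub_zero]
        exact hatU_coeff C uD k _
      rw [h2, ev_trc_hat hφ C (fun i => (h i : G)) (fun i => (h i).2) (hel C h) (hel_coe C h)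
        (pr0 h) (pr0_coe C h) z, nsmul_eq_mul]
      ring)
  rw [← e1, ← Finset.sum_fiberwise Finset.univ (fun h : ZMod p → C => pr0 h)]
  refine Finset.sum_congr rfl fun d _ => ?_
  have h3 : (p : B) * ∑ g : ZMod p → C with pr0 g = d,
        ((jU p B C (Fin 1) (uD ^ k)).val 0 0).coeff (inc p C g * sg p C) =
      (((u : MonoidAlgebra B C) ^ k) ^ p).coeff d -
        ∑ g : C with g ^ p = d, ((u : MonoidAlgebra B C) ^ k).coeff g := by
    convert trace_hat hC hB u uD h k d
  refine Eq.trans ?_ (congrArg (fun t => HG.ev hφ (trc n c C d z) * t) h3)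
  rw [Finset.mul_sum, Finset.mul_sum]
  refine Finset.sum_congr rfl fun h hh => ?_
  rw [(Finset.mem_filter.1 hh).2]

end

end Pool.Agent.H71.CZ

end

section

/-!
# Project CZ: the linear algebra of the `K₁`-part over a field of characteristic zero

`HasRelF k G n Q`: the relations that are proved with the functionals.  A relation `∑ [C_i, u_i, z_i] ∈ Q` over the field `k`
comes, for arbitrarily large `p`, from a subring `R` of `k` with an embedding `φ : R → ℤ_[p]`: the `u_i` are the images of units `v_i`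
of `R[C_i]` and `∑ [C_i, v_i, z_i]` is in a subgroup `QR` of `HnK1 R G n` such that for every family `(C'_i, v'_i, z'_i)` with sum in
`QR`, every `c` and every `f : H_{n+1}(Z_G(c)) → ℚ` with `p`-integral values, and every exponent `e` such that the `φ(v'_i)^e` are
`1` modulo `p ^ 4`, the number `∑_i ∑_{d ∈ C'_i} f (trc d z'_i) * (φ(v'_i)^(e p^l) - 1)_d` is divisible by `p ^ (2 l - K)` for all `l`
(`RelP`).

`linF` is proved as `linK1` of `H8/KL`: Artin induction for `K₁(k[F])` (`gen_hnk1` of `H8/CZ/Inst`), primitive parts over `R`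
(`H8/CZ/Prim`), the relations of the primitive family, `elim_sep`, units of `R[C]` with vanishing `p`-adic logarithm are torsion.
-/

set_option autoImplicit false

open Matrix

universe u v w

namespace Pool.Agent.H71.CZ

open Pool.Agent.H95.WH (K1 K1.mk K1.map K1.unit K1.map_unit FamSub FinSub)
open Pool.Agent.H71.FQ (HG HG.map)
open Pool.Agent.H16.FU (HnK1 sy1 syB1 syB1_apply)
open Pool.Agent.H16.KN (trc)

/-- the relations of the functionals for one prime `p`, coefficients `R`, `φ : R → ℤ_[p]`, and a subgroup `QR` of `HnK1 R G n`,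
see the header -/
def RelP (p : ℕ) [hp : Fact p.Prime] (R : Type u) [CommRing R] (φ : R →+* ℤ_[p]) (G : Type v) [Group G] (n : ℕ)
    (QR : AddSubgroup (HnK1 R G n)) : Prop :=
  ∀ (r : ℕ) (C : Fin r → Subgroup G) (hC : ∀ i, Finite (C i)), (∀ i, IsCyclic (C i)) → (∀ i, ¬ p ∣ Nat.card (C i)) →
    ∀ [∀ i, Fintype (C i)] (v : ∀ i, (MonoidAlgebra R (C i))ˣ)
    (z : ∀ i, HG (Subgroup.centralizer (C i : Set G)) n),
    ∑ i, sy1 ⟨C i, hC i⟩ (K1.unit (v i)) (z i) ∈ QR →
      ∀ c : G, IsOfFinOrder c → ¬ p ∣ orderOf c →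
      ∀ f : HG (Subgroup.centralizer ({c} : Set G)) n →+ ℚ, (∀ y, ¬ p ∣ (f y).den) →
      ∀ e : ℕ, (∀ i, ∃ a : MonoidAlgebra ℤ_[p] (C i),
          (MonoidAlgebra.mapRingHom (C i) φ (v i : MonoidAlgebra R (C i))) ^ e =
            1 + (p : MonoidAlgebra ℤ_[p] (C i)) ^ 4 * a) →
      ∃ K : ℕ, ∀ l : ℕ, ∃ y : ℤ_[p],
        (p : ℚ_[p]) ^ K * (∑ i, ∑ d : C i, ((f (trc n c (C i) d (z i)) : ℚ) : ℚ_[p]) *
          ((((MonoidAlgebra.mapRingHom (C i) φ (v i : MonoidAlgebra R (C i))) ^ (e * p ^ l) -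
            1).coeff d : ℤ_[p]) : ℚ_[p])) = (p : ℚ_[p]) ^ (2 * l) * (y : ℚ_[p])

end Pool.Agent.H71.CZ

end

section

/-!
# Project KL, module LinK1: the linear algebra of the `K₁`-part

`HasRel1 G k Q` : for every relation `∑ [C i, u i, z i] ∈ Q` with units `u i = 1` modulo `p ^ 2`, every `c` of finite
order divisible by `p` and every `p`-integral functional `f` on `H_{k+1}(Z_G(c))` the number
`∑ i, ∑ d ∈ C i, f (trc c (C i) d (z i)) * coeff_d (u i ^ p ^ l - 1)` is divisible by `p ^ (2 l - K)`, `K` independent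
of `l`.

`linK1` : if `HasRel1 G k Q` and for every finite cyclic `C ≠ 1` the group `H_{k+1}(Z_G(C))` is `p`-separated for one
prime `p` dividing the order of `C`, then all elements of `Q` have finite order.
-/

set_option autoImplicit false

open Matrix

universe u v w

namespace Pool.Agent.H8.KL

open Pool.Agent.H95.WH (K1 K1.mk K1.map K1.unit K1.map_unit K1.unit_mul FamSub conjHom FinSub uH unit_pow)

section Triv

variable {G : Type v} [Group G] {k : ℕ}

end Triv

section Tor

variable {E : Type u} [AddCommGroup E]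

/-- elements of finite order -/
def Tor (x : E) : Prop := ∃ m : ℤ, m ≠ 0 ∧ m • x = 0

theorem Tor.zero : Tor (0 : E) := ⟨1, one_ne_zero, smul_zero _⟩

theorem Tor.add {x y : E} (hx : Tor x) (hy : Tor y) : Tor (x + y) := by
  obtain ⟨m, hm, h⟩ := hx
  obtain ⟨n, hn, h'⟩ := hy
  refine ⟨m * n, mul_ne_zero hm hn, ?_⟩
  rw [smul_add, mul_smul m n y, h', smul_zero, add_zero, mul_comm, mul_smul, h, smul_zero]

theorem Tor.sum {ι : Type*} (s : Finset ι) (f : ι → E) (h : ∀ i ∈ s, Tor (f i)) :
    Tor (∑ i ∈ s, f i) := by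
  classical
  induction s using Finset.induction_on with
  | empty => rw [Finset.sum_empty]; exact Tor.zero
  | insert i s hi ih =>
    rw [Finset.sum_insert hi]
    exact (h i (Finset.mem_insert_self i s)).add
      (ih fun j hj => h j (Finset.mem_insert_of_mem hj))

end Tor

section Main

variable {G : Type v} [Group G] {k : ℕ}

theorem Cj.refl (C : Subgroup G) : Cj C C := ⟨1, by simp, by simp⟩

theorem Cj.symm {C C' : Subgroup G} (h : Cj C C') : Cj C' C := by
  obtain ⟨g, h1, h2⟩ := h
  refine ⟨g⁻¹, h2, fun y hy => ?_⟩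
  have h3 := h1 y hy
  rw [inv_inv]
  exact h3

theorem Cj.trans {C C' C'' : Subgroup G} (h : Cj C C') (h' : Cj C' C'') : Cj C C'' := by
  obtain ⟨g, h1, h2⟩ := h
  obtain ⟨g', h1', h2'⟩ := h'
  refine ⟨g' * g, fun y hy => ?_, fun y hy => ?_⟩
  · have h3 := h1' _ (h1 y hy)
    have h4 : g' * g * y * (g' * g)⁻¹ = g' * (g * y * g⁻¹) * g'⁻¹ := by group
    rw [h4]
    exact h3
  · have h3 := h2 _ (h2' y hy)
    have h4 : (g' * g)⁻¹ * y * (g' * g)⁻¹⁻¹ = g⁻¹ * (g'⁻¹ * y * g'⁻¹⁻¹) * g⁻¹⁻¹ := by group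
    rw [h4]
    exact h3

end Main

end Pool.Agent.H8.KL

end
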