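import Pool.Agent.H71.TCZ.H39.CZ.MonoN
import Pool.Agent.H71.TCZ.M36
import Pool.Agent.H71.TCZ.M54
import Pool.Agent.H71.TCZ.M56
import Pool.Agent.H71.TCZ.M62
import Pool.Agent.H71.TCZ.M71
import Pool.Agent.H71.TCZ.M75
import Pool.Agent.H71.TCZ.M76

/-! The parts of this file: H39.CZ.RelN, H39.CZ.LinRL, H71.DB.Main_1, H8.CZ.Inst, H39.CZ.GenR, H39.CZ.LinFR. -/

section

/-!
# Project CZ: the relation of the logarithms over `B` for symbols of finite subgroups, modulo a subgroup

`relN`: as `relB` (`H39/KL/RelB.lean`), with finite subgroups `C i` which need not be commutative, and for a sum of symbols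
which is, up to the multiple `M`, the image of an element of `KQ (B[H])`, where no conjugate of `c` is in the image of `H`.
-/

set_option autoImplicit false

open Matrix

universe u v w

namespace Pool.Agent.H39.CZ

open Pool.Agent.H71.FQ Pool.Agent.H16.KN Pool.Agent.H16.FU Pool.Agent.H39.KL
open Pool.Agent.H95.WH (K1 K1.unit)

section

variable {G : Type u} [Group G] {B : Type} [CommRing B] {n : ℕ}

private theorem rb_arith [IsDomain B] [CharZero B] {p : ℕ} [Fact p.Prime] (r l : ℕ) (M : ℤ)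
    (μ k : ℕ) (S Λ x y : B)
    (h1 : (p : B) ^ l * Λ = (p : B) ^ (2 * l + r + 1 + r) * S +
      (p : B) ^ (2 * l + (2 * l + r + 1 - r + 1)) * x +
      (p : B) ^ (2 * l + r + 1 + (2 * l + r + 1 - r + 1)) * y)
    (h2 : (p : B) ^ (2 * l + r + 1 + (2 * l + r + 1 - r + 1)) ∣
      (M : B) * ((-1) ^ (k + 1) * ((μ : B) ^ (k + 2) * Λ))) :
    (p : B) ^ (2 * l) ∣ ((M.natAbs * μ ^ (k + 2) * p ^ (2 * r) : ℕ) : B) * S := by
  have hp0 : (p : B) ≠ 0 := Nat.cast_ne_zero.2 (Fact.out : p.Prime).ne_zero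
  rw [show 2 * l + r + 1 - r + 1 = 2 * l + 2 by omega] at h1 h2
  obtain ⟨q, hq⟩ := h2
  have hs : ((-1 : B) ^ (k + 1)) * (-1) ^ (k + 1) = 1 := by
    rw [← mul_pow, neg_one_mul, neg_neg, one_pow]
  have hT : (M : B) * ((μ : B) ^ (k + 2) * Λ) =
      (-1) ^ (k + 1) * ((p : B) ^ (2 * l + r + 1 + (2 * l + 2)) * q) := by
    rw [← hq]
    calc (M : B) * ((μ : B) ^ (k + 2) * Λ) =
        (((-1 : B) ^ (k + 1)) * (-1) ^ (k + 1)) * ((M : B) * ((μ : B) ^ (k + 2) * Λ)) := by
          rw [hs, one_mul]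
      _ = _ := by ring
  have hc : (p : B) ^ (2 * l + 1) * ((p : B) ^ (2 * r) * ((M : B) * ((μ : B) ^ (k + 2) * S))) =
      (p : B) ^ (2 * l + 1) * ((p : B) ^ (2 * l) * ((p : B) * ((p : B) ^ (l + r + 1) *
        ((-1) ^ (k + 1) * q) - (M : B) * (μ : B) ^ (k + 2) * x -
          (p : B) ^ (r + 1) * ((M : B) * (μ : B) ^ (k + 2) * y)))) := by
    have e1 : (p : B) ^ (2 * l + 1) * ((p : B) ^ (2 * r) * ((M : B) * ((μ : B) ^ (k + 2) * S))) =
        (M : B) * (μ : B) ^ (k + 2) * ((p : B) ^ (2 * l + r + 1 + r) * S) := by ring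
    have e2 : (p : B) ^ (2 * l + r + 1 + r) * S = (p : B) ^ l * Λ -
      (p : B) ^ (2 * l + (2 * l + 2)) * x -
      (p : B) ^ (2 * l + r + 1 + (2 * l + 2)) * y := by
      rw [h1]
      ring
    rw [e1, e2]
    calc (M : B) * (μ : B) ^ (k + 2) * ((p : B) ^ l * Λ -
          (p : B) ^ (2 * l + (2 * l + 2)) * x - (p : B) ^ (2 * l + r + 1 + (2 * l + 2)) * y) =
        (p : B) ^ l * ((M : B) * ((μ : B) ^ (k + 2) * Λ)) -
          (M : B) * (μ : B) ^ (k + 2) * ((p : B) ^ (2 * l + (2 * l + 2)) * x +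
            (p : B) ^ (2 * l + r + 1 + (2 * l + 2)) * y) := by ring
      _ = _ := by
        rw [hT]
        ring
  have hd : (p : B) ^ (2 * r) * ((M : B) * ((μ : B) ^ (k + 2) * S)) =
      (p : B) ^ (2 * l) * ((p : B) * ((p : B) ^ (l + r + 1) *
        ((-1) ^ (k + 1) * q) - (M : B) * (μ : B) ^ (k + 2) * x -
          (p : B) ^ (r + 1) * ((M : B) * (μ : B) ^ (k + 2) * y))) :=
    mul_left_cancel₀ (pow_ne_zero _ hp0) hc
  have he : (p : B) ^ (2 * l) ∣ (M : B) * (((μ : B) ^ (k + 2) * (p : B) ^ (2 * r)) * S) :=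
    ⟨_, by rw [← hd]; ring⟩
  have hf : (p : B) ^ (2 * l) ∣ ((M.natAbs : ℕ) : B) *
      (((μ : B) ^ (k + 2) * (p : B) ^ (2 * r)) * S) := by
    rcases Int.natAbs_eq M with h | h
    · rw [h, Int.cast_natCast] at he
      exact he
    · rw [h, Int.cast_neg, Int.cast_natCast, neg_mul, dvd_neg] at he
      exact he
  push_cast
  rw [mul_assoc, mul_assoc, ← mul_assoc ((μ : B) ^ (k + 2))]
  exact hf

/-- the `1 × 1` matrix of a unit -/
private noncomputable def rb_U {R : Type*} [Ring R] (w : Rˣ) : GLm 1 R :=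
  Units.map (Matrix.scalar (Fin 1)).toMonoidHom w

private theorem rb_U_apply {R : Type*} [Ring R] (w : Rˣ) (i j : Fin 1) :
    (rb_U w).val i j = (w : R) := by
  rw [Subsingleton.elim j i]
  exact Matrix.diagonal_apply_eq _ i

private theorem rb_U_pow {R : Type*} [Ring R] (w : Rˣ) (k : ℕ) : rb_U w ^ k = rb_U (w ^ k) :=
  (map_pow (Units.map (Matrix.scalar (Fin 1) : R →+* Matrix (Fin 1) (Fin 1) R).toMonoidHom)
    w k).symm

private theorem rb_U_val {D : Type u} [Group D] (w : (MonoidAlgebra B D)ˣ) (q : B)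
    (a : MonoidAlgebra B D) (h : (w : MonoidAlgebra B D) = 1 + q • a) :
    (rb_U w).val = 1 + q • (Matrix.of fun _ _ : Fin 1 => a) := by
  refine Matrix.ext fun i j => ?_
  rw [rb_U_apply, h, Subsingleton.elim j i, Matrix.add_apply, Matrix.one_apply_eq,
    Matrix.smul_apply, Matrix.of_apply]

open Classical in
private theorem rb_trace {D : Type u} [Group D] [Fintype D] (w : (MonoidAlgebra B D)ˣ) (k : ℕ)
    (d : D) : trs d ((rb_U w ^ k : GLm 1 (MonoidAlgebra B D)).val - 1) =
      ∑ x : D, if IsConj d x then ((w : MonoidAlgebra B D) ^ k - 1).coeff x else 0 := by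
  unfold trs
  refine Finset.sum_congr rfl fun x _ => ?_
  congr 1
  rw [rb_U_pow, Matrix.trace_fin_one]
  show (((rb_U (w ^ k)).val - 1) 0 0).coeff x = _
  rw [Matrix.sub_apply, rb_U_apply, Matrix.one_apply_eq, Units.val_pow_eq_pow_val]

/-- conjugate elements of `D` give the same homomorphism -/
theorem trc_conj {k : ℕ} {c : G} {D : Subgroup G} {d d' : D} (h : IsConj d d')
    (z : HG (Subgroup.centralizer (D : Set G)) k) : trc k c D d' z = trc k c D d z := by
  obtain ⟨v, hv⟩ := isConj_iff.1 h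
  have hvG : (v : G) * d * (v : G)⁻¹ = d' := by
    rw [← hv]
    rfl
  by_cases hc : IsConj c (d : G)
  · obtain ⟨x, hx⟩ := isConj_iff.1 hc
    have hm : x * c * x⁻¹ ∈ D := by
      rw [hx]
      exact d.2
    have hx' : ((v : G) * x) * c * ((v : G) * x)⁻¹ = d' := by
      rw [← hvG, ← hx]
      group
    have hm' : ((v : G) * x) * c * ((v : G) * x)⁻¹ ∈ D := by
      rw [hx']
      exact d'.2
    rw [trc_eq ((v : G) * x) hx' hm', trc_eq x hx hm]
    have e : cnj c ((v : G) * x) D hm' = cnj c x D hm := by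
      apply MonoidHom.ext
      intro z
      apply Subtype.ext
      rw [cnj_coe, cnj_coe]
      have h1 : (v : G) * z = z * v := Subgroup.mem_centralizer_iff.1 z.2 v v.2
      calc ((v : G) * x)⁻¹ * z * ((v : G) * x) = x⁻¹ * ((v : G)⁻¹ * (z * v)) * x := by group
        _ = x⁻¹ * ((v : G)⁻¹ * (v * z)) * x := by rw [h1]
        _ = x⁻¹ * z * x := by group
    rw [e]
  · have hc' : ¬ IsConj c (d' : G) := by
      intro h'
      apply hc
      exact h'.trans (isConj_iff.2 ⟨(v : G), hvG⟩).symm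
    rw [trc_of_not hc, trc_of_not hc']

private theorem rb_gasm (D : Subgroup G) (w : (MonoidAlgebra B D)ˣ)
    (z : cyc (Subgroup.centralizer (D : Set G)) n) :
    ofKQ (gasm1 B n D.subtype (Subgroup.centralizer (D : Set G)).subtype (cent_comm D)
        (K1.unit w) (HG.mk z)) =
      QH.mk (ch 1 (prUz B D (rb_U w)
        (z : Cx ℤ (Subgroup.centralizer (D : Set G)) (n + 1)))) := by
  rw [gasm1, K1.unit, asm1_mk, HG.cr_mk, ofKQ_cls]
  rfl

private theorem rb_log {p : ℕ} [Fact p.Prime] (r l : ℕ)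
    (hG : ∀ g : G, (∃ j : ℕ, g ^ p ^ j = 1) → g ^ p ^ r = 1) {c : G}
    (hpc : p ∣ orderOf c) {φ : (Fin (n + 2) → Subgroup.centralizer ({c} : Set G)) → B}
    (hφ : IsCoc (Subgroup.centralizer ({c} : Set G)) n φ)
    {τ : (Fin (p ^ (2 * l + r + 1)) → G) → ZMod (p ^ (2 * l + r + 1))}
    (hτ : IsTau p (2 * l + r + 1) r c τ) (D : Subgroup G) [Fintype D]
    (w : (MonoidAlgebra B D)ˣ)
    (hw : ∃ a : MonoidAlgebra B D, (w : MonoidAlgebra B D) = 1 + ((p : B) ^ 2) • a)
    (z : HG (Subgroup.centralizer (D : Set G)) n) (d : D) :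
    ∃ x y : B, (p : B) ^ l * (HG.ev hφ (trc n c D d z) *
        lamQ p (2 * l + r + 1) d (tauC τ c d) (rb_U w)) =
      (p : B) ^ (2 * l + r + 1 + r) * (HG.ev hφ (trc n c D d z) *
        trs d ((rb_U w ^ p ^ l : GLm 1 (MonoidAlgebra B D)).val - 1)) +
      (p : B) ^ (2 * l + (2 * l + r + 1 - r + 1)) * x +
      (p : B) ^ (2 * l + r + 1 + (2 * l + r + 1 - r + 1)) * y := by
  by_cases hd : IsConj c (d : G)
  · obtain ⟨a, ha⟩ := hw
    have hpd : p ∣ orderOf d := by
      rw [← orderOf_injective D.subtype D.subtype_injective d]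
      obtain ⟨g, hg⟩ := isConj_iff.1 hd
      have e : (D.subtype d : G) = g * c * g⁻¹ := hg.symm
      rw [e, ← MulAut.conj_apply, ← MulEquiv.coe_toMonoidHom,
        orderOf_injective _ (MulAut.conj g).injective c]
      exact hpc
    have hGD : ∀ g : D, (∃ j : ℕ, g ^ p ^ j = 1) → g ^ p ^ r = 1 := by
      rintro g ⟨j, hj⟩
      apply Subtype.ext
      have e : (g : G) ^ p ^ j = 1 := by
        rw [← Subgroup.coe_pow, hj, Subgroup.coe_one]
      rw [Subgroup.coe_pow, Subgroup.coe_one]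
      exact hG _ ⟨j, e⟩
    obtain ⟨x, y, hxy⟩ := lamQ_logN (by omega) hGD hpd (isTau_tauC hτ d hd)
      (Matrix.of fun _ _ : Fin 1 => a) (rb_U w) (rb_U_val w _ a ha) l
    refine ⟨HG.ev hφ (trc n c D d z) * x, HG.ev hφ (trc n c D d z) * y, ?_⟩
    calc (p : B) ^ l * (HG.ev hφ (trc n c D d z) *
          lamQ p (2 * l + r + 1) d (tauC τ c d) (rb_U w)) =
        HG.ev hφ (trc n c D d z) * ((p : B) ^ l *
          lamQ p (2 * l + r + 1) d (tauC τ c d) (rb_U w)) := by ring
      _ = _ := by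
        rw [hxy]
        ring
  · refine ⟨0, 0, ?_⟩
    rw [trc_of_not hd, AddMonoidHom.zero_apply, map_zero]
    ring

/-- the sum over the representatives -/
private theorem rb_sum {c : G} {φ : (Fin (n + 2) → Subgroup.centralizer ({c} : Set G)) → B}
    (hφ : IsCoc (Subgroup.centralizer ({c} : Set G)) n φ) (D : Subgroup G) [Fintype D]
    {T : Finset D} (hT : Reps T) (w : (MonoidAlgebra B D)ˣ) (k : ℕ)
    (z : HG (Subgroup.centralizer (D : Set G)) n) :
    ∑ d ∈ T, HG.ev hφ (trc n c D d z) *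
        trs d ((rb_U w ^ k : GLm 1 (MonoidAlgebra B D)).val - 1) =
      ∑ d : D, HG.ev hφ (trc n c D d z) * (((w : MonoidAlgebra B D) ^ k - 1).coeff d) := by
  classical
  simp only [rb_trace, Finset.mul_sum]
  rw [Finset.sum_comm]
  refine Finset.sum_congr rfl fun x _ => ?_
  obtain ⟨d, hdT, hd, hun⟩ := hT x
  rw [Finset.sum_eq_single_of_mem d hdT, if_pos hd, trc_conj hd]
  intro d' hd' hne
  rw [if_neg, mul_zero]
  intro h
  exact hne (hun d' hd' h)

end

end Pool.Agent.H39.CZ

end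

section

/-!
# Project CZ: the linear algebra of the `K₁`-part, with the separation only for the subgroups of the given groups

`linR` of `H8/CZ/Cls.lean` for symbols of subgroups with a property `L` which passes to subgroups; the separation is needed only
for subgroups with this property.
-/

set_option autoImplicit false

open Matrix

universe u v w

namespace Pool.Agent.H39.CZ.Ln

open Pool.Agent Pool.Agent.H8.CZ
open Pool.Agent.H95.WH (K1 K1.mk K1.map K1.unit K1.map_unit K1.unit_mul FamSub conjHom FinSub uH conjHom_injective unit_pow)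
open Pool.Agent.H16.KN (PSepA)
open Pool.Agent.H8.KL (Cj CI finite_hom card_CI inv_mem_of_card zpowers_eq_of_card orderOf_conj' elim_sep Tor One2)

section

variable {p : ℕ} [hp : Fact p.Prime] {B : Type u} [CommRing B] {j : B →+* ℤ_[p]} {G : Type v} [Group G] {S : CoefR B G}
  {L : Subgroup G → Prop}

variable (j) in
/-- the subgroup generated by the primitive symbols of subgroups with the property `L` -/
noncomputable def PSL (S : CoefR B G) (L : Subgroup G → Prop) : AddSubgroup S.E :=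
  AddSubgroup.closure {x | ∃ t : TrR S p, L t.C ∧ PrimJ p j t.C t.u ∧ x = t.val}

variable (j) in
/-- the elements with a multiple in `PSL` -/
def MPL (L : Subgroup G → Prop) (x : S.E) : Prop := ∃ m : ℕ, 0 < m ∧ m • x ∈ PSL j S L

theorem MPL.zero : MPL j L (0 : S.E) := ⟨1, one_pos, by rw [smul_zero]; exact zero_mem _⟩

theorem MPL.add {x y : S.E} (hx : MPL j L x) (hy : MPL j L y) : MPL j L (x + y) := by
  obtain ⟨m, hm, h⟩ := hx
  obtain ⟨n, hn, h'⟩ := hy
  refine ⟨m * n, Nat.mul_pos hm hn, ?_⟩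
  rw [smul_add]
  refine add_mem ?_ ?_
  · rw [mul_comm, mul_smul]
    exact AddSubgroup.nsmul_mem _ h n
  · rw [mul_smul]
    exact AddSubgroup.nsmul_mem _ h' m

theorem MPL.of_smul {x : S.E} {m : ℕ} (hm : 0 < m) (h : MPL j L (m • x)) : MPL j L x := by
  obtain ⟨n, hn, h'⟩ := h
  exact ⟨n * m, Nat.mul_pos hn hm, by rw [mul_smul]; exact h'⟩

theorem MPL.sum {ι : Type*} (s : Finset ι) (f : ι → S.E) (h : ∀ i ∈ s, MPL j L (f i)) :
    MPL j L (∑ i ∈ s, f i) := by
  classical
  induction s using Finset.induction_on with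
  | empty => rw [Finset.sum_empty]; exact MPL.zero
  | insert i s hi ih =>
    rw [Finset.sum_insert hi]
    exact (h i (Finset.mem_insert_self i s)).add
      (ih fun j hj => h j (Finset.mem_insert_of_mem hj))

variable (j) in
theorem MPL_unit (hL : ∀ D C : Subgroup G, D ≤ C → L C → L D) :
    ∀ (n : ℕ) (t : TrR S p), L t.C → Nat.card t.C ≤ n → MPL j L t.val := by
  intro n
  induction n with
  | zero =>
    intro t htL ht
    have := t.fin
    have h1 : 0 < Nat.card t.C := Nat.card_pos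
    omega
  | succ n ih =>
    intro t htL ht
    have := t.fin
    have hcyc := t.cyc
    obtain ⟨m, r, D, hD, v, w, hm, h1, h2⟩ := low_primJ p j t.C t.comm t.u
    apply MPL.of_smul hm
    have e1 : m • t.val = S.sy ⟨t.C, t.fin⟩ (m • K1.unit t.u) t.z := by
      rw [map_nsmul, AddMonoidHom.coe_smul, Pi.smul_apply]
      rfl
    rw [e1, h1, map_add, map_sum, AddMonoidHom.add_apply, AddMonoidHom.finsetSum_apply]
    refine MPL.add ?_ (MPL.sum _ _ fun a _ => ?_)
    · refine ⟨1, one_pos, ?_⟩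
      rw [one_smul]
      exact AddSubgroup.subset_closure ⟨⟨t.C, t.fin, t.cyc, t.cop, w, t.z⟩, htL, h2, rfl⟩
    · have hf : Finite (D a) := Finite.of_injective _ (Subgroup.inclusion_injective (hD a).le)
      have hc : IsCyclic (D a) := isCyclic_of_injective _ (Subgroup.inclusion_injective (hD a).le)
      obtain ⟨z', hz'⟩ := syR_iK (hD a).le hf t.fin (K1.unit (v a)) t.z
      rw [hz']
      refine ih ⟨D a, hf, hc, fun h0 => t.cop (h0.trans (Subgroup.card_dvd_of_le (hD a).le)), v a, z'⟩ (hL _ _ (hD a).le htL) ?_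
      have h3 : Nat.card (D a) < Nat.card t.C := by
        by_contra hcon
        have h4 := Subgroup.eq_of_le_of_card_ge (hD a).le (not_lt.1 hcon)
        exact (hD a).ne h4
      change Nat.card (D a) ≤ n
      omega

theorem exists_listL {x : S.E} (hx : x ∈ PSL j S L) :
    ∃ l : List (TrR S p), (∀ t ∈ l, L t.C ∧ PrimJ p j t.C t.u) ∧ x = (l.map TrR.val).sum := by
  induction hx using AddSubgroup.closure_induction with
  | mem x hx =>
    obtain ⟨t, htL, ht, rfl⟩ := hx
    exact ⟨[t], by simpa using ⟨htL, ht⟩, by simp⟩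
  | zero => exact ⟨[], by simp, by simp⟩
  | add x y _ _ hx hy =>
    obtain ⟨l, h1, h2⟩ := hx
    obtain ⟨l', h1', h2'⟩ := hy
    refine ⟨l ++ l', ?_, ?_⟩
    · intro t ht
      rcases List.mem_append.1 ht with h | h
      · exact h1 t h
      · exact h1' t h
    · rw [List.map_append, List.sum_append, h2, h2']
  | neg x _ hx =>
    obtain ⟨l, h1, h2⟩ := hx
    refine ⟨l.map fun t => ⟨t.C, t.fin, t.cyc, t.cop, t.u, -t.z⟩, ?_, ?_⟩
    · intro t ht
      obtain ⟨t', ht', rfl⟩ := List.mem_map.1 ht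
      exact h1 t' ht'
    · rw [h2, List.map_map]
      clear h1 h2
      induction l with
      | nil => simp
      | cons t l ih =>
        rw [List.map_cons, List.map_cons, List.sum_cons, List.sum_cons, neg_add, ih,
          TrR.neg_val]
        rfl

/-- A multiple of a sum of symbols of units of subgroups with the property `L` is a sum of primitive symbols of such
subgroups. -/
theorem exists_primL (j : B →+* ℤ_[p]) (hL : ∀ D C : Subgroup G, D ≤ C → L C → L D) {ι : Type*} [Fintype ι]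
    (s : ι → TrR S p) (hs : ∀ i, L (s i).C) :
    ∃ (m n : ℕ) (t : Fin n → TrR S p), 0 < m ∧ (∀ i, L (t i).C ∧ PrimJ p j (t i).C (t i).u) ∧
      m • ∑ i, (s i).val = ∑ i, (t i).val := by
  obtain ⟨m, hm, h⟩ : MPL j L (∑ i, (s i).val) := MPL.sum _ _ fun i _ => MPL_unit j hL _ (s i) (hs i) le_rfl
  obtain ⟨l, h1, h2⟩ := exists_listL h
  refine ⟨m, l.length, fun i => l.get i, hm, fun i => h1 _ (List.get_mem l i), ?_⟩
  rw [h2]
  clear h h1 h2
  induction l with
  | nil => simp
  | cons t l ih =>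
    rw [List.map_cons, List.sum_cons, ih]
    exact (Fin.sum_univ_succ (n := l.length) fun i => ((t :: l).get i).val).symm

open scoped Classical in
/-- **The linear algebra of the `K₁`-part, coefficients `B`.** -/
theorem linRL (hL : ∀ D C : Subgroup G, D ≤ C → L C → L D) (hj : Function.Injective j) (P : S.E → Prop) (hP : ∀ (m : ℕ) (x : S.E), P x → P (m • x))
    (hQ : HasRelR j S P)
    (hsep : ∀ C : Subgroup G, L C → Finite C → IsCyclic C → ¬ p ∣ Nat.card C → PSepA p (S.M C))
    {ι : Type*} [Fintype ι] (s : ι → TrR S p) (hs : ∀ i, L (s i).C) (hw : P (∑ i, (s i).val)) :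
    ∃ m : ℤ, m ≠ 0 ∧ m • ∑ i, (s i).val = 0 := by
  obtain ⟨M, n, t, hM, hprim', hsum⟩ := exists_primL j hL s hs
  have hprim := fun i => (hprim' i).2
  have hfin : ∀ i, Finite (t i).C := fun i => (t i).fin
  let _ : ∀ i, Fintype (t i).C := fun i => Fintype.ofFinite _
  have ht : P (∑ i, (t i).val) := by
    rw [← hsum]
    exact hP M _ hw
  let s' : Setoid (Fin n) :=
    { r := fun i k => Cj (t i).C (t k).C
      iseqv := ⟨fun i => Cj.refl _, fun h => h.symm, fun h h' => h.trans h'⟩ }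
  have htor : Tor (∑ i, (t i).val) := by
    rw [← Finset.sum_fiberwise Finset.univ (fun i => (Quotient.mk s' i))]
    refine Tor.sum _ _ fun q _ => ?_
    obtain ⟨k, rfl⟩ := Quotient.exists_rep q
    rw [Finset.sum_subtype (p := fun i => Cj (t i).C (t k).C) _ (by
      intro i
      rw [Finset.mem_filter]
      constructor
      · rintro ⟨_, h⟩
        exact Quotient.exact h
      · intro h
        exact ⟨Finset.mem_univ _, Quotient.sound h⟩)]
    exact clsR_tor hj t hprim (fun c hc hpc f hf => relR_TJ hQ t ht c hc hpc f hf) (t k).C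
      (t k).fin (t k).cyc (t k).cop (hsep _ (hprim' k).1 (t k).fin (t k).cyc (t k).cop)
  obtain ⟨m, hm, h⟩ := htor
  refine ⟨m * M, mul_ne_zero hm (by exact_mod_cast hM.ne'), ?_⟩
  rw [mul_smul, natCast_zsmul, hsum, h]

end

end Pool.Agent.H39.CZ.Ln

end

section

/-!
# Rational injectivity of the full assembly map in degree one
-/

set_option autoImplicit false

open Matrix
open scoped Classical

universe t u v w

namespace Pool.Agent.H71.DB

open Pool.Agent.H71.FJ (K0 Sat Sat_of_smul mem_Sat)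
open Pool.Agent.H95.WH (K1 K1.mk K1.unit K1.map K1.map_mk FamSub conjHom FinSub)

section Bridge

variable (R : Type u) [CommRing R] (G : Type v) [Group G]

theorem whRel_le (F : FamSub G FinSub) :
    DO.WhRel R F.1 ≤ ((mt R G).comp (cl1 R G F)).ker := by
  have : Finite F.1 := F.2
  rw [DO.WhRel, AddSubgroup.closure_le]
  rintro z (hz | ⟨g, rfl⟩)
  · rw [Set.mem_singleton_iff] at hz
    rw [hz]
    change mt R G (cl1 R G F _) = 0
    rw [mt_eq_zero, mem_tor1]
    refine ⟨2, two_ne_zero, ?_⟩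
    rw [← map_zsmul]
    have h1 : (2 : ℤ) • K1.unit (-1 : (MonoidAlgebra R F.1)ˣ) = 0 := by
      have h2 := DO.K1_unit_pow (-1 : (MonoidAlgebra R F.1)ˣ) 2
      rw [neg_one_sq, DO.K1_unit_one] at h2
      rw [h2]
      exact (natCast_zsmul _ 2)
    rw [h1, map_zero]
  · change mt R G (cl1 R G F _) = 0
    rw [mt_eq_zero, mem_tor1]
    refine ⟨(orderOf g : ℕ), by exact_mod_cast (orderOf_pos g).ne', ?_⟩
    rw [← map_zsmul, natCast_zsmul, ← DO.K1_unit_pow, ← map_pow, pow_orderOf_eq_one, map_one,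
      DO.K1_unit_one, map_zero]

/-- The component at one subgroup. -/
noncomputable def fromWhF (F : FamSub G FinSub) : DO.Wh R F.1 →+ ColimK1 R G ⧸ tor1 R G :=
  QuotientAddGroup.lift (DO.WhRel R F.1) ((mt R G).comp (cl1 R G F)) (whRel_le R G F)

theorem fromWhF_mk (F : FamSub G FinSub) (x : K1 (MonoidAlgebra R F.1)) :
    fromWhF R G F (DO.Wh.mk R F.1 x) = mt R G (cl1 R G F x) := rfl

/-- `SumWh → ColimK1` modulo torsion -/
noncomputable def fromWhSum : DO.SumWh R G FinSub →+ ColimK1 R G ⧸ tor1 R G :=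
  DirectSum.toAddMonoid fun F : FamSub G FinSub => fromWhF R G F

theorem fromWhSum_inc (F : FamSub G FinSub) (x : DO.Wh R F.1) :
    fromWhSum R G (DO.inc R G FinSub F x) = fromWhF R G F x := by
  rw [fromWhSum, DO.inc, DirectSum.toAddMonoid_of]

/-- `ColimWh → ColimK1` modulo torsion -/
noncomputable def fromWh : DO.ColimWh R G FinSub →+ ColimK1 R G ⧸ tor1 R G :=
  QuotientAddGroup.lift (DO.colimRel R G FinSub) (fromWhSum R G)
    (by
      rw [DO.colimRel, AddSubgroup.closure_le]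
      rintro z ⟨F, F', g, h, x, rfl⟩
      obtain ⟨x, rfl⟩ := DO.Wh.mk_surjective R x
      change fromWhSum R G _ = 0
      rw [DO.rel, map_sub, fromWhSum_inc, fromWhSum_inc, DO.Wh.map_mk, fromWhF_mk, fromWhF_mk,
        sub_eq_zero]
      exact congrArg (mt R G) (cl1_conj R G F F' g h x))

theorem fromWh_toWh (a : ColimK1 R G) : fromWh R G (toWh R G a) = mt R G a := by
  induction a using colim1_induction with
  | h0 => simp only [map_zero]
  | h2 a b ha hb => rw [map_add, map_add, map_add, ha, hb]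
  | h1 F x =>
    rw [toWh_cl]
    exact (fromWhSum_inc R G F (DO.Wh.mk R F.1 x)).trans (fromWhF_mk R G F x)

end Bridge

section Main

end Main

section Zero

end Zero

section CharP

end CharP

end Pool.Agent.H71.DB

end

section

/-!
# Project CZ, block LIN, module Inst: the system `M C = H_{n+1}(Z_G(C); ℤ)`, coefficient ring `B`

`hgR B G n` : the system of coefficients, symbols in `HnK1 B G n`.
`gen_hnk1` : over a field of characteristic zero a multiple of every element of `HnK1 k G n` is a sum of symbols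
`[C, u, z]` with `C` finite cyclic and `u` a unit of `k[C]`.
-/

set_option autoImplicit false

open Matrix

universe u v w

namespace Pool.Agent.H8.CZ

open Pool.Agent.H95.WH (K1 K1.mk K1.map K1.unit K1.map_unit K1.map_map K1.unit_mul FamSub conjHom FinSub uH conjHom_injective unit_pow artin_K1_field)
open Pool.Agent.H71.FJ (incl)
open Pool.Agent.H71.FQ (HG HG.map HG.map_map centConj)
open Pool.Agent.H16.FU (HnK1 sy1 sy1_conj syB1 syB1_apply hnk1_induction)
open Pool.Agent.H16.KN (trc trc_of_not trc_eq)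

section HG

variable (B : Type u) [CommRing B] (G : Type v) [Group G] (n : ℕ)

/-- the coefficients `H_{n+1}(Z_G(C); ℤ)` -/
noncomputable def hgR : CoefR.{u, v, v, v, max u v} B G where
  M C := HG (Subgroup.centralizer (C : Set G)) n
  tr g F F' h := HG.map n (centConj g F F' h)
  N c := HG (Subgroup.centralizer ({c} : Set G)) n
  trc c C d := trc n c C d
  kap C₀ e he := HG.map n (H8.KL.kap C₀ e he)
  trc_of_not h := trc_of_not h
  kap_trc C₀ e he C x h2 d hd z := by
    rw [trc_eq x hd (by rw [hd]; exact d.2), HG.map_map]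
    rfl
  E := HnK1 B G n
  sy F := syB1 F
  sy_conj F F' g h x z := sy1_conj F F' g h x z

end HG

section Gen

variable {k : Type u} [Field k] {G : Type v} [Group G] {n : ℕ}

/-- the symbol of an element induced from a subgroup -/
theorem sy1_sub {D C : Subgroup G} (h : D ≤ C) (hD : FinSub D) (hC : FinSub C)
    (x : K1 (MonoidAlgebra k D)) (z : HG (Subgroup.centralizer (C : Set G)) n) :
    ∃ z', sy1 ⟨C, hC⟩ (iKB k h x) z = sy1 ⟨D, hD⟩ x z' := by
  obtain ⟨z', hz'⟩ := syR_iK (S := hgR k G n) h hD hC x z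
  exact ⟨z', hz'⟩

variable (k G n) in
/-- the symbols of units of group rings of finite cyclic subgroups -/
def UnS : Set (HnK1 k G n) :=
  {x | ∃ (C : Subgroup G) (hC : Finite C) (_ : IsCyclic C) (u : (MonoidAlgebra k C)ˣ)
    (z : HG (Subgroup.centralizer (C : Set G)) n), x = sy1 ⟨C, hC⟩ (K1.unit u) z}

theorem UnS.neg {x : HnK1 k G n} (hx : x ∈ UnS k G n) : -x ∈ UnS k G n := by
  obtain ⟨C, hC, hc, u, z, rfl⟩ := hx
  refine ⟨C, hC, hc, u, -z, ?_⟩
  rw [← syB1_apply, ← syB1_apply, map_neg]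

variable (k G n) in
/-- the elements with a multiple in the subgroup generated by the symbols of units -/
def MUn (x : HnK1 k G n) : Prop := ∃ m : ℕ, 0 < m ∧ m • x ∈ AddSubgroup.closure (UnS k G n)

theorem MUn.zero : MUn k G n 0 := ⟨1, one_pos, by rw [smul_zero]; exact zero_mem _⟩

theorem MUn.add {x y : HnK1 k G n} (hx : MUn k G n x) (hy : MUn k G n y) : MUn k G n (x + y) := by
  obtain ⟨m, hm, h⟩ := hx
  obtain ⟨m', hm', h'⟩ := hy
  refine ⟨m * m', Nat.mul_pos hm hm', ?_⟩
  rw [smul_add]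
  refine add_mem ?_ ?_
  · rw [mul_comm, mul_smul]
    exact AddSubgroup.nsmul_mem _ h m'
  · rw [mul_smul]
    exact AddSubgroup.nsmul_mem _ h' m

theorem MUn.neg {x : HnK1 k G n} (hx : MUn k G n x) : MUn k G n (-x) := by
  obtain ⟨m, hm, h⟩ := hx
  exact ⟨m, hm, by rw [smul_neg]; exact neg_mem h⟩

theorem MUn.of_smul {x : HnK1 k G n} {m : ℕ} (hm : 0 < m) (h : MUn k G n (m • x)) : MUn k G n x := by
  obtain ⟨m', hm', h'⟩ := h
  exact ⟨m' * m, Nat.mul_pos hm' hm, by rw [mul_smul]; exact h'⟩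

theorem MUn.sum {ι : Type*} (s : Finset ι) (f : ι → HnK1 k G n) (h : ∀ i ∈ s, MUn k G n (f i)) :
    MUn k G n (∑ i ∈ s, f i) := by
  classical
  induction s using Finset.induction_on with
  | empty => rw [Finset.sum_empty]; exact MUn.zero
  | insert i s hi ih =>
    rw [Finset.sum_insert hi]
    exact (h i (Finset.mem_insert_self i s)).add
      (ih fun j hj => h j (Finset.mem_insert_of_mem hj))

theorem MUn_sy [CharZero k] (F : FamSub G FinSub) (x : K1 (MonoidAlgebra k F.1))
    (z : HG (Subgroup.centralizer (F.1 : Set G)) n) : MUn k G n (sy1 F x z) := by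
  have : Finite F.1 := F.2
  obtain ⟨m, r, D, y, hm, hcyc, h⟩ := artin_K1_field F.1 k x
  apply MUn.of_smul hm
  have e1 : m • sy1 F x z = syB1 F (m • x) z := by
    rw [map_nsmul, AddMonoidHom.coe_smul, Pi.smul_apply, syB1_apply]
  rw [e1, h, map_sum, AddMonoidHom.finsetSum_apply]
  refine MUn.sum _ _ fun i _ => ?_
  have hfin : Finite ((D i).map F.1.subtype) :=
    Finite.of_equiv _ ((D i).equivMapOfInjective F.1.subtype F.1.subtype_injective).toEquiv
  have hcyc' : IsCyclic ((D i).map F.1.subtype) := by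
    have := hcyc i
    exact isCyclic_of_surjective
      ((D i).equivMapOfInjective F.1.subtype F.1.subtype_injective)
      ((D i).equivMapOfInjective F.1.subtype F.1.subtype_injective).surjective
  have hle : (D i).map F.1.subtype ≤ F.1 := by
    rintro _ ⟨x, _, rfl⟩
    exact x.2
  obtain ⟨z', hz'⟩ := sy1_sub (k := k) hle hfin F.2 (K1.map (MonoidAlgebra.mapDomainRingHom k
        ((D i).equivMapOfInjective F.1.subtype F.1.subtype_injective).toMonoidHom) (y i)) z
  have e2 : iKB k hle (K1.map (MonoidAlgebra.mapDomainRingHom k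
        ((D i).equivMapOfInjective F.1.subtype F.1.subtype_injective).toMonoidHom) (y i)) =
      K1.map (incl k (D i)) (y i) := by
    rw [iKB, K1.map_map, ← MonoidAlgebra.mapDomainRingHom_comp]
    rfl
  rw [e2] at hz'
  have e3 : syB1 F (K1.map (incl k (D i)) (y i)) z = sy1 ⟨(D i).map F.1.subtype, hfin⟩
      (K1.map (MonoidAlgebra.mapDomainRingHom k
        ((D i).equivMapOfInjective F.1.subtype F.1.subtype_injective).toMonoidHom) (y i)) z' := hz'
  rw [e3]
  obtain ⟨m', u, hm', h'⟩ := H71.DO.hUnit_field k ((D i).map F.1.subtype)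
    (K1.map (MonoidAlgebra.mapDomainRingHom k
      ((D i).equivMapOfInjective F.1.subtype F.1.subtype_injective).toMonoidHom) (y i))
  apply MUn.of_smul hm'
  rw [← syB1_apply, ← AddMonoidHom.smul_apply, ← map_nsmul, h', syB1_apply]
  refine ⟨1, one_pos, ?_⟩
  rw [one_smul]
  exact AddSubgroup.subset_closure ⟨_, hfin, hcyc', u, z', rfl⟩

theorem MUn_all [CharZero k] (x : HnK1 k G n) : MUn k G n x := by
  induction x using hnk1_induction with
  | h0 => exact MUn.zero
  | h1 F x z => exact MUn_sy F x z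
  | h2 a b ha hb => exact ha.add hb
  | h3 a ha => exact ha.neg

theorem exists_list_un {x : HnK1 k G n} (hx : x ∈ AddSubgroup.closure (UnS k G n)) :
    ∃ l : List (HnK1 k G n), (∀ y ∈ l, y ∈ UnS k G n) ∧ l.sum = x := by
  induction hx using AddSubgroup.closure_induction with
  | mem x hx => exact ⟨[x], by simpa using hx, by simp⟩
  | zero => exact ⟨[], by simp, by simp⟩
  | add x y _ _ hx hy =>
    obtain ⟨l, h1, h2⟩ := hx
    obtain ⟨l', h1', h2'⟩ := hy
    refine ⟨l ++ l', ?_, ?_⟩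
    · intro t ht
      rcases List.mem_append.1 ht with h | h
      · exact h1 t h
      · exact h1' t h
    · rw [List.sum_append, h2, h2']
  | neg x _ hx =>
    obtain ⟨l, h1, h2⟩ := hx
    refine ⟨l.map fun t => -t, ?_, ?_⟩
    · intro t ht
      obtain ⟨t', ht', rfl⟩ := List.mem_map.1 ht
      exact UnS.neg (h1 t' ht')
    · rw [← h2]
      clear h1 h2
      induction l with
      | nil => simp
      | cons t l ih => rw [List.map_cons, List.sum_cons, List.sum_cons, neg_add, ih]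

end Gen

end Pool.Agent.H8.CZ

end

section

/-!
# Project CZ: generators of the `K₁`-part over a ring with Artin induction

`gen_hnk1` of `H8/CZ/Inst.lean` for a commutative ring `k` with `HArt k` (Artin induction for `K₁ (k[F])`, `F` finite) and
`HUnit k` (`K₁ (k[C])` is generated by units up to torsion, `C` finite cyclic).
-/

set_option autoImplicit false

open Matrix

universe u v w

namespace Pool.Agent.H39.CZ.Gn

open Pool.Agent Pool.Agent.H8.CZ
open Pool.Agent.H95.WH (K1 K1.mk K1.map K1.unit K1.map_unit K1.map_map K1.unit_mul FamSub conjHom FinSub uH conjHom_injective unit_pow)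
open Pool.Agent.H71.FJ (incl)
open Pool.Agent.H71.DO (HArt HUnit)
open Pool.Agent.H71.FQ (HG HG.map HG.map_map centConj)
open Pool.Agent.H16.FU (HnK1 sy1 sy1_conj syB1 syB1_apply hnk1_induction)
open Pool.Agent.H16.KN (trc trc_of_not trc_eq)

section Gen

variable {k : Type u} [CommRing k] {G : Type v} [Group G] {n : ℕ}

/-- the symbol of an element induced from a subgroup -/
theorem sy1_sub {D C : Subgroup G} (h : D ≤ C) (hD : FinSub D) (hC : FinSub C)
    (x : K1 (MonoidAlgebra k D)) (z : HG (Subgroup.centralizer (C : Set G)) n) :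
    ∃ z', sy1 ⟨C, hC⟩ (iKB k h x) z = sy1 ⟨D, hD⟩ x z' := by
  obtain ⟨z', hz'⟩ := syR_iK (S := hgR k G n) h hD hC x z
  exact ⟨z', hz'⟩

variable (k G n) in
/-- the symbols of units of group rings of finite cyclic subgroups -/
def UnS : Set (HnK1 k G n) :=
  {x | ∃ (C : Subgroup G) (hC : Finite C) (_ : IsCyclic C) (u : (MonoidAlgebra k C)ˣ)
    (z : HG (Subgroup.centralizer (C : Set G)) n), x = sy1 ⟨C, hC⟩ (K1.unit u) z}

theorem UnS.neg {x : HnK1 k G n} (hx : x ∈ UnS k G n) : -x ∈ UnS k G n := by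
  obtain ⟨C, hC, hc, u, z, rfl⟩ := hx
  refine ⟨C, hC, hc, u, -z, ?_⟩
  rw [← syB1_apply, ← syB1_apply, map_neg]

variable (k G n) in
/-- the elements with a multiple in the subgroup generated by the symbols of units -/
def MUn (x : HnK1 k G n) : Prop := ∃ m : ℕ, 0 < m ∧ m • x ∈ AddSubgroup.closure (UnS k G n)

theorem MUn.zero : MUn k G n 0 := ⟨1, one_pos, by rw [smul_zero]; exact zero_mem _⟩

theorem MUn.add {x y : HnK1 k G n} (hx : MUn k G n x) (hy : MUn k G n y) : MUn k G n (x + y) := by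
  obtain ⟨m, hm, h⟩ := hx
  obtain ⟨m', hm', h'⟩ := hy
  refine ⟨m * m', Nat.mul_pos hm hm', ?_⟩
  rw [smul_add]
  refine add_mem ?_ ?_
  · rw [mul_comm, mul_smul]
    exact AddSubgroup.nsmul_mem _ h m'
  · rw [mul_smul]
    exact AddSubgroup.nsmul_mem _ h' m

theorem MUn.neg {x : HnK1 k G n} (hx : MUn k G n x) : MUn k G n (-x) := by
  obtain ⟨m, hm, h⟩ := hx
  exact ⟨m, hm, by rw [smul_neg]; exact neg_mem h⟩

theorem MUn.of_smul {x : HnK1 k G n} {m : ℕ} (hm : 0 < m) (h : MUn k G n (m • x)) : MUn k G n x := by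
  obtain ⟨m', hm', h'⟩ := h
  exact ⟨m' * m, Nat.mul_pos hm' hm, by rw [mul_smul]; exact h'⟩

theorem MUn.sum {ι : Type*} (s : Finset ι) (f : ι → HnK1 k G n) (h : ∀ i ∈ s, MUn k G n (f i)) :
    MUn k G n (∑ i ∈ s, f i) := by
  classical
  induction s using Finset.induction_on with
  | empty => rw [Finset.sum_empty]; exact MUn.zero
  | insert i s hi ih =>
    rw [Finset.sum_insert hi]
    exact (h i (Finset.mem_insert_self i s)).add
      (ih fun j hj => h j (Finset.mem_insert_of_mem hj))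

theorem MUn_sy (hA : HArt.{u, v} k) (hU : HUnit.{u, v} k) (F : FamSub G FinSub) (x : K1 (MonoidAlgebra k F.1))
    (z : HG (Subgroup.centralizer (F.1 : Set G)) n) : MUn k G n (sy1 F x z) := by
  have : Finite F.1 := F.2
  obtain ⟨m, r, D, y, hm, hcyc, h⟩ := hA F.1 x
  apply MUn.of_smul hm
  have e1 : m • sy1 F x z = syB1 F (m • x) z := by
    rw [map_nsmul, AddMonoidHom.coe_smul, Pi.smul_apply, syB1_apply]
  rw [e1, h, map_sum, AddMonoidHom.finsetSum_apply]
  refine MUn.sum _ _ fun i _ => ?_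
  have hfin : Finite ((D i).map F.1.subtype) :=
    Finite.of_equiv _ ((D i).equivMapOfInjective F.1.subtype F.1.subtype_injective).toEquiv
  have hcyc' : IsCyclic ((D i).map F.1.subtype) := by
    have := hcyc i
    exact isCyclic_of_surjective
      ((D i).equivMapOfInjective F.1.subtype F.1.subtype_injective)
      ((D i).equivMapOfInjective F.1.subtype F.1.subtype_injective).surjective
  have hle : (D i).map F.1.subtype ≤ F.1 := by
    rintro _ ⟨x, _, rfl⟩
    exact x.2
  obtain ⟨z', hz'⟩ := sy1_sub (k := k) hle hfin F.2 (K1.map (MonoidAlgebra.mapDomainRingHom k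
        ((D i).equivMapOfInjective F.1.subtype F.1.subtype_injective).toMonoidHom) (y i)) z
  have e2 : iKB k hle (K1.map (MonoidAlgebra.mapDomainRingHom k
        ((D i).equivMapOfInjective F.1.subtype F.1.subtype_injective).toMonoidHom) (y i)) =
      K1.map (incl k (D i)) (y i) := by
    rw [iKB, K1.map_map, ← MonoidAlgebra.mapDomainRingHom_comp]
    rfl
  rw [e2] at hz'
  have e3 : syB1 F (K1.map (incl k (D i)) (y i)) z = sy1 ⟨(D i).map F.1.subtype, hfin⟩
      (K1.map (MonoidAlgebra.mapDomainRingHom k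
        ((D i).equivMapOfInjective F.1.subtype F.1.subtype_injective).toMonoidHom) (y i)) z' := hz'
  change MUn k G n (syB1 F (K1.map (incl k (D i)) (y i)) z)
  rw [e3]
  obtain ⟨m', u, hm', h'⟩ := hU ((D i).map F.1.subtype)
    (K1.map (MonoidAlgebra.mapDomainRingHom k
      ((D i).equivMapOfInjective F.1.subtype F.1.subtype_injective).toMonoidHom) (y i))
  apply MUn.of_smul hm'
  rw [← syB1_apply, ← AddMonoidHom.smul_apply, ← map_nsmul, h', syB1_apply]
  refine ⟨1, one_pos, ?_⟩
  rw [one_smul]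
  exact AddSubgroup.subset_closure ⟨_, hfin, hcyc', u, z', rfl⟩

theorem MUn_all (hA : HArt.{u, v} k) (hU : HUnit.{u, v} k) (x : HnK1 k G n) : MUn k G n x := by
  induction x using hnk1_induction with
  | h0 => exact MUn.zero
  | h1 F x z => exact MUn_sy hA hU F x z
  | h2 a b ha hb => exact ha.add hb
  | h3 a ha => exact ha.neg

theorem exists_list_un {x : HnK1 k G n} (hx : x ∈ AddSubgroup.closure (UnS k G n)) :
    ∃ l : List (HnK1 k G n), (∀ y ∈ l, y ∈ UnS k G n) ∧ l.sum = x := by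
  induction hx using AddSubgroup.closure_induction with
  | mem x hx => exact ⟨[x], by simpa using hx, by simp⟩
  | zero => exact ⟨[], by simp, by simp⟩
  | add x y _ _ hx hy =>
    obtain ⟨l, h1, h2⟩ := hx
    obtain ⟨l', h1', h2'⟩ := hy
    refine ⟨l ++ l', ?_, ?_⟩
    · intro t ht
      rcases List.mem_append.1 ht with h | h
      · exact h1 t h
      · exact h1' t h
    · rw [List.sum_append, h2, h2']
  | neg x _ hx =>
    obtain ⟨l, h1, h2⟩ := hx
    refine ⟨l.map fun t => -t, ?_, ?_⟩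
    · intro t ht
      obtain ⟨t', ht', rfl⟩ := List.mem_map.1 ht
      exact UnS.neg (h1 t' ht')
    · rw [← h2]
      clear h1 h2
      induction l with
      | nil => simp
      | cons t l ih => rw [List.map_cons, List.sum_cons, List.sum_cons, neg_add, ih]

/-- **Generators.** -/
theorem gen_hnk1R (hA : HArt.{u, v} k) (hU : HUnit.{u, v} k) (x : HnK1 k G n) :
    ∃ (m r : ℕ) (C : Fin r → Subgroup G) (hC : ∀ i, Finite (C i)) (_ : ∀ i, IsCyclic (C i))
      (u : ∀ i, (MonoidAlgebra k (C i))ˣ) (z : ∀ i, HG (Subgroup.centralizer (C i : Set G)) n),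
      0 < m ∧ m • x = ∑ i, sy1 ⟨C i, hC i⟩ (K1.unit (u i)) (z i) := by
  obtain ⟨m, hm, h⟩ := MUn_all hA hU x
  obtain ⟨l, hl, hs⟩ := exists_list_un h
  have h1 : ∀ i : Fin l.length, l.get i ∈ UnS k G n := fun i => hl _ (List.get_mem l i)
  choose C hC hc u z hz using h1
  refine ⟨m, l.length, C, hC, hc, u, z, hm, ?_⟩
  rw [← Finset.sum_congr rfl fun i _ => hz i, ← hs]
  have h2 := List.sum_ofFn (f := fun i : Fin l.length => l.get i)
  rw [List.ofFn_get] at h2
  exact h2

end Gen

end Pool.Agent.H39.CZ.Gn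

end

section

/-!
# Project CZ: the linear algebra of the `K₁`-part over a ring with Artin induction

`RelPU`: `RelP` (`H71/CZ/LinF.lean`) with a coefficient ring in any universe.  `HasRelD`: `HasRelF` with a commutative ring `R` in
place of the field.  `linFR`: the version of `linF` for commutative rings `R` with `HArt R` and `HUnit R`; the
separation is needed, for each finite cyclic subgroup `C`, only for the primes larger than a bound which depends on `C`.
-/

set_option autoImplicit false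

open Matrix

universe u v w

namespace Pool.Agent.H39.CZ

open Pool.Agent.H95.WH (K1 K1.mk K1.map K1.unit K1.map_unit FamSub FinSub)
open Pool.Agent.H71.FQ (HG HG.map)
open Pool.Agent.H71.DO (HArt HUnit)
open Pool.Agent.H71.CZ (RelP)
open Pool.Agent.H16.FU (HnK1 sy1 syB1 syB1_apply hn1 hn1_sy1)
open Pool.Agent.H16.KN (PSepA trc)
open Pool.Agent.H8.CZ (hgR TrR jU)

/-- the relations of the functionals for one prime `p`, coefficients `R`, `φ : R → ℤ_[p]`, and a subgroup `QR` of
`HnK1 R G n` -/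
def RelPU (p : ℕ) [hp : Fact p.Prime] (R : Type u) [CommRing R] (φ : R →+* ℤ_[p]) (G : Type v) [Group G] (n : ℕ)
    (QR : AddSubgroup (HnK1 R G n)) : Prop :=
  ∀ (r : ℕ) (C : Fin r → Subgroup G) (hC : ∀ i, Finite (C i)), (∀ i, IsCyclic (C i)) → (∀ i, ¬ p ∣ Nat.card (C i)) →
    ∀ [∀ i, Fintype (C i)] (v : ∀ i, (MonoidAlgebra R (C i))ˣ)
    (z : ∀ i, HG (Subgroup.centralizer (C i : Set G)) n),
    ∑ i, sy1 ⟨C i, hC i⟩ (K1.unit (v i)) (z i) ∈ QR →
      ∀ c : G, IsOfFinOrder c → ¬ p ∣ orderOf c →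
      ∀ f : HG (Subgroup.centralizer ({c} : Set G)) n →+ ℚ, (∀ y, ¬ p ∣ (f y).den) →
      ∀ e : ℕ, (∀ i, ∃ a : MonoidAlgebra ℤ_[p] (C i),
          (MonoidAlgebra.mapRingHom (C i) φ (v i : MonoidAlgebra R (C i))) ^ e =
            1 + (p : MonoidAlgebra ℤ_[p] (C i)) ^ 4 * a) →
      ∃ K : ℕ, ∀ l : ℕ, ∃ y : ℤ_[p],
        (p : ℚ_[p]) ^ K * (∑ i, ∑ d : C i, ((f (trc n c (C i) d (z i)) : ℚ) : ℚ_[p]) *
          ((((MonoidAlgebra.mapRingHom (C i) φ (v i : MonoidAlgebra R (C i))) ^ (e * p ^ l) -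
            1).coeff d : ℤ_[p]) : ℚ_[p])) = (p : ℚ_[p]) ^ (2 * l) * (y : ℚ_[p])

/-- from the relations over `ℤ_[p]` to the relations over `R` -/
theorem relPU_of_id {p : ℕ} [hp : Fact p.Prime] {R : Type u} [CommRing R] (φ : R →+* ℤ_[p]) {G : Type v} [Group G] {n : ℕ}
    {QP : AddSubgroup (HnK1 ℤ_[p] G n)} (h : RelP p ℤ_[p] (RingHom.id ℤ_[p]) G n QP)
    {QR : AddSubgroup (HnK1 R G n)} (hQ : ∀ x ∈ QR, hn1 φ x ∈ QP) : RelPU p R φ G n QR := by
  intro r C hC hcyc hcop _ v z hmem c hc hpc f hf e he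
  have h1 : ∑ i, sy1 ⟨C i, hC i⟩ (K1.unit (jU φ (v i))) (z i) ∈ QP := by
    have h2 := hQ _ hmem
    rw [map_sum] at h2
    rw [Finset.sum_congr rfl fun i _ => ?_]
    · exact h2
    · rw [hn1_sy1, K1.map_unit]
      rfl
  have h2 : ∀ i, MonoidAlgebra.mapRingHom (C i) (RingHom.id ℤ_[p])
      ((jU φ (v i) : (MonoidAlgebra ℤ_[p] (C i))ˣ) : MonoidAlgebra ℤ_[p] (C i)) =
      MonoidAlgebra.mapRingHom (C i) φ (v i : MonoidAlgebra R (C i)) := by
    intro i
    rw [MonoidAlgebra.mapRingHom_id]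
    rfl
  obtain ⟨K, hK⟩ := h r C hC hcyc hcop (fun i => jU φ (v i)) z h1 c hc hpc f hf e (fun i => by
    rw [h2]
    exact he i)
  simp only [h2] at hK
  exact ⟨K, hK⟩

/-- the relations of the functionals over the ring `R`: every relation `∑ [C_i, u_i, z_i] ∈ Q` comes, for arbitrarily large
`p`, from a subring `S` of `R` with an embedding into `ℤ_[p]` -/
def HasRelD (R : Type u) [CommRing R] (G : Type v) [Group G] (n : ℕ) (Q : AddSubgroup (HnK1 R G n)) :
    Prop :=
  ∀ (N r : ℕ) (C : Fin r → Subgroup G) (hC : ∀ i, Finite (C i)), (∀ i, IsCyclic (C i)) →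
    ∀ [∀ i, Fintype (C i)] (u : ∀ i, (MonoidAlgebra R (C i))ˣ)
    (z : ∀ i, HG (Subgroup.centralizer (C i : Set G)) n),
    ∑ i, sy1 ⟨C i, hC i⟩ (K1.unit (u i)) (z i) ∈ Q →
    ∃ (p : ℕ) (_ : Fact p.Prime) (S : Subring R) (φ : S →+* ℤ_[p])
      (v : ∀ i, (MonoidAlgebra S (C i))ˣ) (QR : AddSubgroup (HnK1 S G n)),
      N < p ∧ Function.Injective φ ∧
      (∀ i, (MonoidAlgebra.mapRingHom (C i) S.subtype (v i : MonoidAlgebra S (C i))) = u i) ∧
      ∑ i, sy1 ⟨C i, hC i⟩ (K1.unit (v i)) (z i) ∈ QR ∧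
      RelPU p S φ G n QR

/-- the subgroups of finitely many finite subgroups -/
private theorem finite_le {G : Type v} [Group G] {r : ℕ} (C : Fin r → Subgroup G) (hC : ∀ i, Finite (C i)) :
    {D : Subgroup G | ∃ i, D ≤ C i}.Finite := by
  have h1 : {D : Subgroup G | ∃ i, D ≤ C i} = ⋃ i, {D : Subgroup G | D ≤ C i} := by
    ext D
    rw [Set.mem_iUnion]
    rfl
  rw [h1]
  refine Set.finite_iUnion fun i => ?_
  have h2 : {s : Set G | s ⊆ (C i : Set G)}.Finite := Set.Finite.finite_subsets (Set.toFinite (C i : Set G))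
  exact Set.Finite.preimage (SetLike.coe_injective.injOn) h2

/-- **The linear algebra of the `K₁`-part over a ring with Artin induction.** -/
theorem linFR {R : Type u} [CommRing R] (hA : HArt.{u, v} R) (hU : HUnit.{u, v} R) {G : Type v} [Group G] {n : ℕ}
    (Q : AddSubgroup (HnK1 R G n)) (hQ : HasRelD R G n Q)
    (hsep : ∀ C : Subgroup G, Finite C → IsCyclic C → ∃ N : ℕ, ∀ p : ℕ, p.Prime → N < p →
      PSepA p (HG (Subgroup.centralizer (C : Set G)) n))
    (w : HnK1 R G n) (hw : w ∈ Q) : ∃ m : ℤ, m ≠ 0 ∧ m • w = 0 := by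
  classical
  obtain ⟨m, r, C, hC, hc, u, z, hm, h⟩ := Gn.gen_hnk1R hA hU w
  let _ : ∀ i, Fintype (C i) := fun i => Fintype.ofFinite _
  have h1 : ∑ i, sy1 ⟨C i, hC i⟩ (K1.unit (u i)) (z i) ∈ Q := by
    rw [← h]
    exact AddSubgroup.nsmul_mem _ hw m
  -- the bound
  obtain ⟨N, hN⟩ : ∃ N : ℕ, ∀ D : Subgroup G, (∃ i, D ≤ C i) → ∀ p : ℕ, p.Prime → N < p →
      PSepA p (HG (Subgroup.centralizer (D : Set G)) n) := by
    have h2 : ∀ D : Subgroup G, ∃ N : ℕ, (∃ i, D ≤ C i) → ∀ p : ℕ, p.Prime → N < p →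
        PSepA p (HG (Subgroup.centralizer (D : Set G)) n) := by
      intro D
      by_cases hD : ∃ i, D ≤ C i
      · obtain ⟨i, hi⟩ := hD
        have hf : Finite D := Finite.of_injective _ (Subgroup.inclusion_injective hi)
        have hcy : IsCyclic D := isCyclic_of_injective _ (Subgroup.inclusion_injective hi)
        obtain ⟨N, hN⟩ := hsep D hf hcy
        exact ⟨N, fun _ => hN⟩
      · exact ⟨0, fun h => absurd h hD⟩
    choose N hN using h2
    obtain ⟨b, hb⟩ := ((finite_le C hC).image N).bddAbove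
    exact ⟨b, fun D hD p hp hbp => hN D hD p hp (lt_of_le_of_lt (hb ⟨D, hD, rfl⟩) hbp)⟩
  obtain ⟨p, hp, S, φ, v, QR, hNp, hφ, hv, hQR, hrel⟩ := hQ (N + ∑ i, Nat.card (C i)) r C hC hc u z h1
  have hcop : ∀ i, ¬ p ∣ Nat.card (C i) := by
    intro i hi
    have h2 := Nat.le_of_dvd Nat.card_pos hi
    have h3 : Nat.card (C i) ≤ ∑ i, Nat.card (C i) :=
      Finset.single_le_sum (f := fun i => Nat.card (C i)) (fun _ _ => Nat.zero_le _) (Finset.mem_univ i)
    omega
  let s : Fin r → TrR (hgR S G n) p := fun i => ⟨C i, hC i, hc i, hcop i, v i, z i⟩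
  have hval : ∀ i, (s i).val = sy1 ⟨C i, hC i⟩ (K1.unit (v i)) (z i) := fun i => rfl
  obtain ⟨m', hm', h'⟩ := Ln.linRL (S := hgR S G n) (L := fun D => ∃ i, D ≤ C i)
    (fun D D' h ⟨i, hi⟩ => ⟨i, h.trans hi⟩) hφ (fun x : HnK1 S G n => x ∈ QR)
    (fun m x hx => AddSubgroup.nsmul_mem _ hx m) hrel
    (fun D hD _ _ _ => hN D hD p hp.out (lt_of_le_of_lt (Nat.le_add_right _ _) hNp)) s
    (fun i => ⟨i, le_rfl⟩) (by
      rw [Finset.sum_congr rfl fun i _ => hval i]
      exact hQR)
  have h4 : m' • (∑ i, sy1 ⟨C i, hC i⟩ (K1.unit (v i)) (z i)) = (0 : HnK1 S G n) := h'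
  have h2 : hn1 S.subtype (∑ i, sy1 ⟨C i, hC i⟩ (K1.unit (v i)) (z i)) = m • w := by
    rw [h, map_sum]
    refine Finset.sum_congr rfl fun i _ => ?_
    rw [hn1_sy1, K1.map_unit]
    congr 2
    apply Units.ext
    exact hv i
  refine ⟨m' * m, mul_ne_zero hm' (by exact_mod_cast hm.ne'), ?_⟩
  rw [mul_smul, natCast_zsmul, ← h2, ← map_zsmul]
  rw [h4, map_zero]

end Pool.Agent.H39.CZ

end
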