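import Pool.Agent.H71.TCZ.H71.DB.Tors2
import Pool.Agent.H71.TCZ.M57
import Pool.Agent.H71.TCZ.M63
import Pool.Agent.H71.TCZ.M66
import Pool.Agent.H71.TCZ.M67
import Pool.Agent.H71.TCZ.M69
import Pool.Agent.H71.TCZ.M77

/-! The parts of this file: H71.KP.Main, H71.DO.Bridge_1, H71.DB.Main_2, H71.CZ.Zero1, H71.CZ.St3. -/

section

/-!
# Rational injectivity of the assembly map for domains
-/

set_option autoImplicit false

open Matrix Filter

universe u v w

namespace Pool.Agent.H71.KP

/-- **The kernel of the assembly map is a torsion group** for all domains. -/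
theorem kernel_torsion_domain {R : Type u} [CommRing R] [IsDomain R] {G : Type v} [Group G]
    (z : ColimU R G) (M : ℤ) (hM : M ≠ 0) (h : M • assembly R G z = 0) :
    ∃ m : ℤ, m ≠ 0 ∧ m • z = 0 := by
  obtain ⟨p, hp⟩ := CharP.exists R
  rcases CharP.char_is_prime_or_zero R p with h1 | h1
  · have : Fact p.Prime := ⟨h1⟩
    obtain ⟨s, z', hz, h'⟩ := (eventually_kernel z M h).exists
    have : CharP (sub s) p := (RingHom.charP (incl s) (incl_injective s) p)
    have := finiteType_sub s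
    obtain ⟨m, hm, h1⟩ := kernel_torsion_fg p (sub s) z' M hM h'
    exact ⟨m, hm, by rw [← hz, ← map_zsmul, h1, map_zero]⟩
  · subst h1
    have : CharZero R := CharP.charP_to_charZero R
    exact kernel_torsion z M hM h

end Pool.Agent.H71.KP

end

section

/-!
# From units of finite cyclic subgroups to `K₁` of finite subgroups
-/

set_option autoImplicit false
set_option linter.unusedSectionVars false

open Matrix

universe u v w

namespace Pool.Agent.H71.DO

open Pool.Agent.H95.WH (K1 K1.mk K1.unit K1.map K1.map_unit K1.map_map K1_map_conj FamSub conjHom K1.lift K1.lift_mk FinSub K1.hom_ext K1.unit_mul)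
open Pool.Agent.H71.WH (CycSub Sat Sat_of_smul mem_Sat)

section K1

end K1

variable (R : Type u) [CommRing R] (G : Type v) [Group G]

/-- The kernel of the assembly map is torsion. -/
theorem kernel_torsion_fin {R : Type u} [CommRing R] [IsDomain R] (hA : HArt.{u, v} R)
    (hU : HUnit.{u, v} R) (G : Type v) [Group G] (z : ColimWh R G FinSub) (M : ℤ) (hM : M ≠ 0)
    (h : M • assembly R G FinSub z = 0) : ∃ m : ℤ, m ≠ 0 ∧ m • z = 0 := by
  obtain ⟨m, hm, z', hz⟩ := sat_theta G hA hU z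
  have h1 : M • KP.assembly R G z' = 0 := by
    rw [← psiW_assembly, hz, ← map_zsmul, map_zsmul (assembly R G FinSub), smul_comm, h, smul_zero,
      map_zero]
  obtain ⟨m', hm', h2⟩ := KP.kernel_torsion_domain z' M hM h1
  exact ⟨m' * m, mul_ne_zero hm' hm, by rw [mul_smul, ← hz, ← map_zsmul, h2, map_zero]⟩

end Pool.Agent.H71.DO

end

section

/-!
# Rational injectivity of the full assembly map in degree one
-/

set_option autoImplicit false

open Matrix
open scoped Classical

universe t u v w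

namespace Pool.Agent.H71.DB

open Pool.Agent.H71.FJ (K0 Sat Sat_of_smul mem_Sat)
open Pool.Agent.H95.WH (K1 K1.mk K1.unit K1.map K1.map_mk FamSub conjHom FinSub)

section Bridge

variable (R : Type u) [CommRing R] (G : Type v) [Group G]

theorem torsion_colim1 {R : Type u} [CommRing R] [IsDomain R] (hA : DO.HArt.{u, v} R)
    (hU : DO.HUnit.{u, v} R) (G : Type v) [Group G] (a : ColimK1 R G) (M : ℤ) (hM : M ≠ 0)
    (h : M • asm1 R G a = 0) : ∃ m : ℤ, m ≠ 0 ∧ m • a = 0 := by
  obtain ⟨m, hm, h1⟩ := DO.kernel_torsion_fin hA hU G (toWh R G a) M hM (by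
    rw [assembly_toWh, ← map_zsmul, h, map_zero])
  rw [← map_zsmul] at h1
  have h2 := congrArg (fromWh R G) h1
  rw [fromWh_toWh, map_zero, mt_eq_zero, mem_tor1] at h2
  obtain ⟨m', hm', h3⟩ := h2
  exact ⟨m' * m, mul_ne_zero hm' hm, by rw [mul_smul, h3]⟩

end Bridge

section Main

variable {k : Type u} [Field k] {K : Type t} [Field K] (L : BLift K) (i : k →+* K)
  {G : Type v} [Group G]

variable (hsep : ∀ D : FamSub G FinSub, IsCyclic D.1 → (∀ h : D.1, (orderOf h : k) ≠ 0) →
  ∀ b : CAb D.1, (∀ ν : CAb D.1 →+ L.Lam, ν b = 0) → ∃ m : ℤ, m ≠ 0 ∧ m • b = 0)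

include L i hsep in
theorem kernel_torsion (z : ColimK1 k G × H1K0 k G) (M : ℤ) (hM : M ≠ 0)
    (h : M • fullA k G z = 0) : ∃ m : ℤ, m ≠ 0 ∧ m • z = 0 := by
  obtain ⟨a, w⟩ := z
  have e : fullA k G (a, w) = asm1 k G a + asmH k G w := rfl
  have h1 : VanOn L i (fun _ => True) (asmH k G w) := by
    have e1 : asmH k G w = fullA k G (a, w) - asm1 k G a := by
      rw [e, add_sub_cancel_left]
    rw [e1]
    refine VanOn.sub (VanOn.of_smul hM ?_) (vanOn_asm1 L i a)
    rw [h]
    exact VanOn.zero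
  obtain ⟨m, hm, hw⟩ := torsion_of_vanOn L i hsep w h1
  have h2 : (M * m) • asm1 k G a = 0 := by
    have h3 : (M * m) • fullA k G (a, w) = 0 := by
      rw [mul_comm, mul_smul, h, smul_zero]
    rw [e, smul_add, mul_smul M m (asmH k G w), ← map_zsmul (asmH k G), hw, map_zero,
      smul_zero, add_zero] at h3
    exact h3
  obtain ⟨m', hm', ha⟩ := torsion_colim1 (DO.hArt_field k) (DO.hUnit_field k) G a (M * m)
    (mul_ne_zero hM hm) h2
  refine ⟨m * m', mul_ne_zero hm hm', Prod.ext ?_ ?_⟩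
  · change (m * m') • a = 0
    rw [mul_smul, ha, smul_zero]
  · change (m * m') • w = 0
    rw [mul_comm, mul_smul, hw, smul_zero]

end Main

section Zero

/-- Characteristic zero. -/
theorem kernel_torsion_zero (k : Type u) [Field k] [CharZero k] (G : Type v) [Group G]
    (z : ColimK1 k G × H1K0 k G) (M : ℤ) (hM : M ≠ 0) (h : M • fullA k G z = 0) :
    ∃ m : ℤ, m ≠ 0 ∧ m • z = 0 :=
  kernel_torsion (bLiftZero k) (RingHom.id k) (fun _ _ _ b hb => sep_zero k b hb) z M hM h

end Zero

section CharP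

variable (p : ℕ) [hp : Fact p.Prime] (k : Type u) [Field k] [CharP k p]

theorem kernel_torsion_p (G : Type v) [Group G]
    (hG : ∀ C : Subgroup G, Finite C → IsCyclic C → ¬ p ∣ Nat.card C →
      ∀ z : Subgroup.centralizer (C : Set G),
        (∀ f : Subgroup.centralizer (C : Set G) →* Multiplicative ℤ_[p], f z = 1) →
        ∃ m : ℕ, m ≠ 0 ∧ z ^ m ∈ commutator (Subgroup.centralizer (C : Set G)))
    (z : ColimK1 k G × H1K0 k G) (M : ℤ) (hM : M ≠ 0) (h : M • fullA k G z = 0) :
    ∃ m : ℤ, m ≠ 0 ∧ m • z = 0 := by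
  let K := AlgebraicClosure k
  have : CharP K p := charP_of_injective_algebraMap (algebraMap k K).injective p
  have : PerfectRing K p := PerfectField.toPerfectRing p
  refine kernel_torsion (bLiftP p K) (algebraMap k K) ?_ z M hM h
  intro D hD ho b hb
  have hfin : Finite D.1 := D.2
  have hcard : ¬ p ∣ Nat.card D.1 := by
    intro hdvd
    obtain ⟨g, hg⟩ := IsCyclic.exists_generator (α := D.1)
    have h1 : orderOf g = Nat.card D.1 := orderOf_eq_card_of_forall_mem_zpowers hg
    apply ho g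
    rw [h1]
    exact (CharP.cast_eq_zero_iff k p _).2 hdvd
  obtain ⟨z₀, rfl⟩ : ∃ z₀ : Subgroup.centralizer (D.1 : Set G), cab z₀ = b := by
    obtain ⟨z₀, hz₀⟩ := QuotientGroup.mk_surjective (Additive.toMul b)
    exact ⟨z₀, congrArg Additive.ofMul hz₀⟩
  obtain ⟨ψ, hψ⟩ := padic_to_witt p K
  obtain ⟨m, hm, h1⟩ := hG D.1 hfin hD hcard z₀ (by
    intro f
    have h2 := hb (ψ.toAddMonoidHom.comp (MonoidHom.toAdditiveLeft (Abelianization.lift f)))
    have h3 : ψ (Multiplicative.toAdd (f z₀)) = 0 := h2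
    have h4 : Multiplicative.toAdd (f z₀) = 0 := hψ (by rw [h3, map_zero])
    exact congrArg Multiplicative.ofAdd h4)
  refine ⟨(m : ℤ), by exact_mod_cast hm, ?_⟩
  have h2 : Abelianization.of (z₀ ^ m) = 1 :=
    (QuotientGroup.eq_one_iff _).2 h1
  rw [map_pow] at h2
  rw [natCast_zsmul]
  exact congrArg Additive.ofMul h2

end CharP

/-- **Rational injectivity of the full assembly map in degree one.** -/
theorem full_injective (k : Type u) [Field k] (G : Type v) [Group G]
    (hG : ∀ (p : ℕ) [Fact p.Prime], CharP k p →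
      ∀ C : Subgroup G, Finite C → IsCyclic C → ¬ p ∣ Nat.card C →
      PadicSep p (Subgroup.centralizer (C : Set G))) :
    RatInj (fullAssembly k G) := by
  apply lTensor_injective
  intro z M hM h
  obtain ⟨p, hp⟩ := CharP.exists k
  rcases CharP.char_is_prime_or_zero k p with h1 | h1
  · have : Fact p.Prime := ⟨h1⟩
    exact kernel_torsion_p p k G (fun C hC hc hd z hz => hG p hp C hC hc hd z hz) z M hM h
  · subst h1
    have : CharZero k := CharP.charP_to_charZero k
    exact kernel_torsion_zero k G z M hM h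

end Pool.Agent.H71.DB

end

section

/-!
# Degree one over a domain of characteristic zero: the relations with the `K₀`-part

`zero_joint`: if `M • (α₀ w₀ + α₁ w₁) = 0` in degree one, `M ≠ 0`, over a domain of characteristic zero with Artin induction, then
`w₁` is torsion.
-/

set_option autoImplicit false

open Matrix

universe u v w t

namespace Pool.Agent.H71.DB

open Pool.Agent.H95.WH (K1 K1.mk K1.unit K1.map K1.map_mk K1.hom_ext FamSub conjHom FinSub)

section

variable {R : Type u} [CommRing R] {S : Type t} [CommRing S] (φ : R →+* S) (G : Type v) [Group G]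

theorem whMap_psiW (x : K1 (MonoidAlgebra R G)) :
    KP.whMap φ G (DO.psiW R G (DO.Wh.mk R G x)) =
      DO.psiW S G (DO.Wh.mk S G (K1.map (MonoidAlgebra.mapRingHom G φ) x)) := by
  have h : ((KP.whMap φ G).comp (DO.psiW R G)).comp (DO.Wh.mk R G) =
      ((DO.psiW S G).comp (DO.Wh.mk S G)).comp (K1.map (MonoidAlgebra.mapRingHom G φ)) := by
    apply K1.hom_ext
    intro n U
    change (QuotientAddGroup.mk (KP.K1map (MonoidAlgebra.mapRingHom G φ)
      (DO.psi (MonoidAlgebra R G) (K1.mk U))) : KP.Wh S G) =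
        QuotientAddGroup.mk (DO.psi (MonoidAlgebra S G)
          (K1.map (MonoidAlgebra.mapRingHom G φ) (K1.mk U)))
    rw [K1.map_mk, DO.psi, Pool.Agent.H95.WH.K1.lift_mk, KP.K1map_mk, DO.psi,
      Pool.Agent.H95.WH.K1.lift_mk]
    rfl
  exact DFunLike.congr_fun h x

end

/-- as `torsion_colim1`, with the relation over a larger domain of characteristic zero -/
theorem torsion_colim1_map {R : Type u} [CommRing R] [IsDomain R] (hA : DO.HArt.{u, v} R)
    (hU : DO.HUnit.{u, v} R) {S : Type t} [CommRing S] [IsDomain S] [CharZero S] (φ : R →+* S)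
    (hφ : Function.Injective φ) (G : Type v) [Group G] (a : ColimK1 R G) (M : ℤ) (hM : M ≠ 0)
    (h : M • K1.map (MonoidAlgebra.mapRingHom G φ) (asm1 R G a) = 0) :
    ∃ m : ℤ, m ≠ 0 ∧ m • a = 0 := by
  obtain ⟨m, hm, z', hz⟩ := DO.sat_theta G hA hU (toWh R G a)
  have h1 : M • KP.assembly S G (KP.colimMap φ G z') = 0 := by
    rw [← KP.whMap_assembly, ← DO.psiW_assembly, hz, map_zsmul (DO.assembly R G FinSub), assembly_toWh,
      map_zsmul, map_zsmul, whMap_psiW, smul_comm, ← map_zsmul (DO.psiW S G),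
      ← map_zsmul (DO.Wh.mk S G), h, map_zero, map_zero, smul_zero]
  obtain ⟨m', hm', h2⟩ := KP.kernel_torsion_map φ hφ z' M hM h1
  have h3 : (m' * m) • toWh R G a = 0 := by rw [mul_smul, ← hz, ← map_zsmul, h2, map_zero]
  rw [← map_zsmul] at h3
  have h4 := congrArg (fromWh R G) h3
  rw [fromWh_toWh, map_zero, mt_eq_zero, mem_tor1] at h4
  obtain ⟨m'', hm'', h5⟩ := h4
  exact ⟨m'' * (m' * m), mul_ne_zero hm'' (mul_ne_zero hm' hm), by rw [mul_smul, h5]⟩

end Pool.Agent.H71.DB

namespace Pool.Agent.H71.CZS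

open Pool.Agent.H71.FQ
open Pool.Agent.H71.FU0
open Pool.Agent.H71.FU1
open Pool.Agent.H95.WH (K1 K1.mk K1.unit K1.map K1.map_mk K1.map_map K1.hom_ext FamSub conjHom FinSub)

theorem kap_src0 {R : Type u} [CommRing R] {S : Type u} [CommRing S] (φ : R →+* S) {G : Type v} [Group G]
    (w : H0K1 R G) : kap (assembly10 S G (src0 (NatK1.ofHom G φ) w)) =
      K1.map (MonoidAlgebra.mapRingHom G φ) (DB.asm1 R G (toD1 w)) := by
  have h : (kap.comp (assembly10 S G)).comp (src0 (NatK1.ofHom G φ)) =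
      ((K1.map (MonoidAlgebra.mapRingHom G φ)).comp (DB.asm1 R G)).comp toD1 := by
    apply h0k1_ext
    intro F x
    rw [AddMonoidHom.comp_apply, AddMonoidHom.comp_apply, AddMonoidHom.comp_apply, AddMonoidHom.comp_apply,
      src0_cl, kap_asm1, toD1_cl, toD1_cl, DB.asm1_cl, DB.asm1_cl, NatK1.ofHom_app, K1.map_map, K1.map_map,
      mapRing_mapDomain]
  exact DFunLike.congr_fun h w

theorem map_asm10 {R : Type u} [CommRing R] {S : Type u} [CommRing S] (φ : R →+* S) {G : Type v} [Group G]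
    (w : H0K1 R G) : KQ.map (MonoidAlgebra.mapRingHom G φ) (assembly10 R G w) =
      assembly10 S G (src0 (NatK1.ofHom G φ) w) := by
  have h : (KQ.map (MonoidAlgebra.mapRingHom G φ)).comp (assembly10 R G) =
      (assembly10 S G).comp (src0 (NatK1.ofHom G φ)) := by
    apply h0k1_ext
    intro F x
    rw [AddMonoidHom.comp_apply, AddMonoidHom.comp_apply, ofHom_asm0, src0_cl]
  exact DFunLike.congr_fun h w

/-- **Degree one: the relations with the `K₀`-part.** -/
theorem zero_joint {R : Type u} [CommRing R] [IsDomain R] [CharZero R] (hA : DO.HArt.{u, v} R)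
    (hU : DO.HUnit.{u, v} R) {G : Type v} [Group G] (w0 : HnK0 R G 0) (w1 : H0K1 R G) (M : ℤ) (hM : M ≠ 0)
    (h : M • assembly00 R G (w0, w1) = 0) : ∃ m : ℤ, m ≠ 0 ∧ m • w1 = 0 := by
  have hk : CharZero (FractionRing R) :=
    charZero_of_injective_algebraMap (IsFractionRing.injective R (FractionRing R))
  obtain ⟨ι, hι⟩ : ∃ ι, ι = algebraMap R (FractionRing R) := ⟨_, rfl⟩
  have hinj : Function.Injective ι := by
    rw [hι]
    exact IsFractionRing.injective R (FractionRing R)
  have h1 : M • assembly00 (FractionRing R) G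
      ((NatK0.ofHom G ι).src 0 w0, src0 (NatK1.ofHom G ι) w1) = 0 := by
    have h2 := congrArg (KQ.map (MonoidAlgebra.mapRingHom G ι)) h
    rw [map_zsmul, map_zero] at h2
    rw [← h2, assembly00_apply, assembly00_apply, map_add, assemblyN_ofHom, map_asm10]
  obtain ⟨m, hm, h3⟩ := (ratInj_iff (f := assembly00 (FractionRing R) G)).1
    (ratInj00_of_full (DB.full_injective (FractionRing R) G (fun p hp hk' => by
      have h1 : p = 0 := CharP.eq (FractionRing R) hk' (CharP.ofCharZero (FractionRing R))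
      exact absurd h1 hp.out.ne_zero))) _ M hM h1
  have h4 : m • src0 (NatK1.ofHom G ι) w1 = 0 := congrArg Prod.snd h3
  obtain ⟨m', hm', h5⟩ := DB.torsion_colim1_map hA hU ι hinj G (toD1 w1) m hm (by
    rw [← kap_src0, ← map_zsmul, ← map_zsmul, h4, map_zero, map_zero])
  exact ⟨m', hm', by rw [← fromD1_toD1 w1, ← map_zsmul, h5, map_zero]⟩

end Pool.Agent.H71.CZS

end

section

/-!
# Domains of characteristic zero: the kernel of the assembly map on the sum of the `K₀`-part and the `K₁`-part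
-/

set_option autoImplicit false

universe u v w

namespace Pool.Agent.H71.CZS

open Pool.Agent.H71.FQS (KQ HnK0 IsAssembly Cent toK toK_fromK toH fromH fromH_toH toH1c fromH1 fromH1_toH1c)
open Pool.Agent.H71.FQ1 (HnK1 IsAssembly1 conv vnoc vnoc_conv toL fromL fromL_toL)
open Pool.Agent.H16.FU (assembly01 assembly1)
open Pool.Agent.H71.FU0 (assembly10 assembly00)

section

variable {R : Type u} [CommRing R] {G : Type v} [Group G] {n : ℕ}

theorem toK_zero (w0 : HnK0 R G 0) (w1 : HnK1 R G 0) :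
    toK (FQS.asmS R G 0 w0 + FQ1.asm1 R G 0 w1) = assembly00 R G (toH w0, toL w1) := by
  rw [map_add]
  exact congrArg₂ (· + ·) (toK_fromK _) (toK_fromK _)

theorem toK_succ (w0 : HnK0 R G (n + 1)) (w1 : HnK1 R G (n + 1)) :
    toK (FQS.asmS R G (n + 1) w0 + FQ1.asm1 R G (n + 1) w1) =
      assembly01 R n G (toH w0, toH1c (conv w1)) := by
  rw [map_add]
  exact congrArg₂ (· + ·) (toK_fromK _) (toK_fromK _)

theorem tors_of {A B : Type*} [AddCommGroup A] [AddCommGroup B] {i : A → B} (i' : B →+ A)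
    (hi : ∀ x, i' (i x) = x) {x : A} (h : ∃ m : ℤ, m ≠ 0 ∧ m • i x = 0) : IsOfFinAddOrder x := by
  obtain ⟨m, hm, h⟩ := h
  refine isOfFinAddOrder_iff_zsmul_eq_zero.2 ⟨m, hm, ?_⟩
  rw [← hi x, ← map_zsmul, h, map_zero]

end

/-- **The main theorem, from the torsion statements.** -/
theorem main_ofK (R : Type u) [CommRing R] [IsDomain R] [CharZero R] (hR : DO.FNDomain R)
    (G : Type v) [Group G] (n : ℕ)
    (hmain : ∀ m : ℕ, (∀ S : Finset G, ∃ G' : Subgroup G, (∀ g ∈ S, g ∈ G') ∧ Sub G' m) →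
      ∀ (w0 : FQ.HnK0 R G (m + 1)) (w1 : H16.FU.HnK1 R G m) (M : ℤ), M ≠ 0 →
        M • assembly01 R m G (w0, w1) = 0 → ∃ m' : ℤ, m' ≠ 0 ∧ m' • w1 = 0)
    (hK0 : ∀ (k : Type u) [Field k] [CharZero k] (m : ℕ) (w0 : FQ.HnK0 k G (m + 1))
      (w1 : H16.FU.HnK1 k G m) (M : ℤ), M ≠ 0 →
        M • assembly01 k m G (w0, w1) = 0 → ∃ m' : ℤ, m' ≠ 0 ∧ m' • w0 = 0)
    (hG : LocSep G n) :
    ∃ (α₀ : HnK0 R G n →+ KQ (MonoidAlgebra R G) n)
      (α₁ : HnK1 R G n →+ KQ (MonoidAlgebra R G) n),
      IsAssembly α₀ ∧ IsAssembly1 α₁ ∧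
        ∀ (w₀ : HnK0 R G n) (w₁ : HnK1 R G n), IsOfFinAddOrder (α₀ w₀ + α₁ w₁) →
          IsOfFinAddOrder w₁ ∧ (IsField R → IsOfFinAddOrder w₀) := by
  refine ⟨FQS.asmS R G n, FQ1.asm1 R G n, FQS.asmS_isAssembly, FQ1.asm1_isAssembly1,
    fun w₀ w₁ h => ?_⟩
  obtain ⟨M, hM, h⟩ := isOfFinAddOrder_iff_zsmul_eq_zero.1 h
  have h0 := congrArg toK h
  rw [map_zsmul, map_zero] at h0
  rcases n with _ | n
  · have h1 : M • assembly00 R G (toH w₀, toL w₁) = 0 := by rw [← toK_zero, h0]
    refine ⟨tors_of (i := fun x => toL x) fromL fromL_toL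
      (zero_joint (DO.hArt_fn R hR) (DO.hUnit_fn R hR) _ _ M hM h1), fun hf => ?_⟩
    have h2 : FQ.RatInj (assembly00 R G) :=
      @FU0.ratInj00_of_full R hf.toField.toCommRing G _
        (@DB.full_injective R hf.toField G _ (fun p hp hk => by
          have h1 : p = 0 := CharP.eq R hk (CharP.ofCharZero R)
          exact absurd h1 hp.out.ne_zero))
    obtain ⟨m, hm, h3⟩ := (FQ.ratInj_iff (f := assembly00 R G)).1 h2 _ M hM h1
    exact tors_of (i := fun x => toH x) fromH fromH_toH ⟨m, hm, congrArg Prod.fst h3⟩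
  · have h1 : M • assembly01 R n G (toH w₀, toH1c (conv w₁)) = 0 := by rw [← toK_succ, h0]
    have hS : ∀ S : Finset G, ∃ G' : Subgroup G, (∀ g ∈ S, g ∈ G') ∧ Sub G' n := fun S => by
      obtain ⟨G', h1, h2⟩ := hG S
      exact ⟨G', h1, sub_of h2⟩
    refine ⟨tors_of (i := fun x => toH1c (conv x)) (vnoc.comp fromH1)
      (fun x => (congrArg vnoc (fromH1_toH1c (conv x))).trans (vnoc_conv x))
      (hmain n hS _ _ M hM h1), fun hf => ?_⟩
    exact tors_of (i := fun x => toH x) fromH fromH_toH (@hK0 R hf.toField _ n _ _ M hM h1)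

end Pool.Agent.H71.CZS

end
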