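import Pool.Agent.H71.TCZ.H16.CZ.Val0
import Pool.Agent.H71.TCZ.H71.CZ.BlkD
import Pool.Agent.H71.TCZ.H71.FQ.Tors
import Pool.Agent.H71.TCZ.M76
import Pool.Agent.H71.TCZ.M80

/-! The parts of this file: H71.CZ.Theta, H71.CZ.ValU_1, H16.CZ.TorsA. -/

section

/-!
# Project CZ: the map `Θ : KQ (B[G]) n → ℚ ⊗ (KQ (B[G ≀ C_p]) n / image of KQ (B[G^p]) n)`

PROOF.  `KQ.lift` of `fun N => th (Fin N) hB`; the relation: `blk N M A = rxU finSumFinEquiv ∘ blkX`, `th_equiv`, `th_blk`.
`Theta_clX`: `clX_eq`, `KQ.lift_cls`, `th_equiv`.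
-/

set_option autoImplicit false

open Matrix

universe u v w

namespace Pool.Agent.H71.CZ

open Pool.Agent.H71.FQ

section

variable {p : ℕ} [hp : Fact p.Prime] {B : Type} [CommRing B] {G : Type v} [Group G] {n : ℕ}

theorem th_rel (hB : GoodB p B) (N M : ℕ)
    (w : HG (GLm N (MonoidAlgebra B G) × GLm M (MonoidAlgebra B G)) n) :
    th (Fin (N + M)) hB (HG.map n (blk N M (MonoidAlgebra B G)) w) =
      th (Fin N) hB (HG.map n
        (MonoidHom.fst (GLm N (MonoidAlgebra B G)) (GLm M (MonoidAlgebra B G))) w) +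
      th (Fin M) hB (HG.map n
        (MonoidHom.snd (GLm N (MonoidAlgebra B G)) (GLm M (MonoidAlgebra B G))) w) := by
  have h : blk N M (MonoidAlgebra B G) = (rxU (A := MonoidAlgebra B G) finSumFinEquiv).comp
      (blkX (A := MonoidAlgebra B G) (X := Fin N) (Y := Fin M)) :=
    MonoidHom.ext fun w => Units.ext rfl
  rw [h, ← HG.map_map, th_equiv]
  exact th_blk hB w

variable (p B G n) in
/-- **The map `Θ`.** -/
noncomputable def Theta (hB : GoodB p B) : KQ (MonoidAlgebra B G) n →+ TV p B G n :=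
  KQ.lift (fun N => th (Fin N) hB) (th_rel hB)

theorem Theta_clX (hB : GoodB p B) (Y : Type) [Fintype Y] [DecidableEq Y]
    (x : HG (Matrix Y Y (MonoidAlgebra B G))ˣ n) :
    Theta p B G n hB (clX _ n Y x) = th Y hB x := by
  have h : Theta p B G n hB (KQ.cls _ n (Fintype.card Y)
      (HG.map n (rxU (A := MonoidAlgebra B G) (Fintype.equivFin Y)) x)) =
      th (Fin (Fintype.card Y)) hB
        (HG.map n (rxU (A := MonoidAlgebra B G) (Fintype.equivFin Y)) x) :=
    KQ.lift_cls _ _ _ _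
  rw [clX_eq (Fintype.equivFin Y) x, h, th_equiv]

/-- **The value of `Θ` on a class which lifts to `D~^×`.** -/
theorem Theta_lift (hB : GoodB p B) (Y : Type) [Fintype Y] [DecidableEq Y] {Γ : Type w} [Group Γ]
    (ρ : Γ →* (Matrix Y Y (MonoidAlgebra B G))ˣ) (ρ' : Γ →* (Dt (shM p B G Y))ˣ)
    (h : ∀ γ, prU (shM p B G Y) (ρ' γ) = eta hB (ρ γ)) (x : HG Γ n) :
    Theta p B G n hB (clX _ n Y (HG.map n ρ x)) =
      toTV p B G n (clX _ n (ZMod p → Y) (HG.map n ((jU p B G Y).comp ρ') x)) := by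
  have h1 : (eta hB).comp ρ = (prU (shM p B G Y)).comp ρ' := MonoidHom.ext fun γ => (h γ).symm
  rw [Theta_clX, th_apply, HG.map_map, h1, ← HG.map_map, psD_map]
  show toTV p B G n (clX _ n (ZMod p → Y) (HG.map n (jU p B G Y) (HG.map n ρ' x))) = _
  rw [HG.map_map]

end

end Pool.Agent.H71.CZ

end

section

/-!
# Project CZ: the value of `Θ` on a symbol `[C, u, z]`

PROOF of `Theta_gasm1`.  Over `G` let `u' = ` the image of `u`, `X' = DtG C.subtype uD` (`prU_DtG`).  `gasm1 .. (K1.unit u) z` is the class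
`clX _ (n + 1) (Fin 1) (HG.map (zhom (scal 1 κ) (sc1 u') _) (HG.crz _ n z))` (`asm1_mk`, `HG.cr_eq_map`, `clX_fin`).  Lift `zhom ..` to
`D~^×`: `dgD γ` is the unit `mkD (J γ) 0` over `eta (scal γ)`, it commutes with `X'` (`γ` centralizes `C`: the entries of `X'` are supported on
`C^p` and `dgG γ` commutes with `C^p`), `ρ' = zhom dgD X' _`; `Theta_lift`.  `jU ∘ ρ' = zhom (scal (inc ∘ dgG ∘ κ)) (jU X')` and `jU X'` is
the image of `hatU` (`jU_DtG`): reindex `ZMod p → Fin 1` to `Fin 1` (`clX_equiv`), `asm1_mk` and `gasm1_map` for `dgC`.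
-/

set_option autoImplicit false

open Matrix

universe u v w

namespace Pool.Agent.H71.CZ

open Pool.Agent.H71.FQ Pool.Agent.H16.FU
open Pool.Agent.H95.WH (K1 K1.unit K1.mk)
open Pool.Agent.H39.CZ (hatS dgC dgC_coe)

section

variable {p : ℕ} [hp : Fact p.Prime] {B : Type} [CommRing B] {G : Type v} [Group G] {n : ℕ}

section

end

/-- **The value of `Θ` on a symbol.** -/
theorem Theta_gasm1 (hB : GoodB p B) (C : Subgroup G) (u : (MonoidAlgebra B C)ˣ)
    (uD : (Dt (shM p B C (Fin 1)))ˣ) (h : prU (shM p B C (Fin 1)) uD = eta hB (sc1 u))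
    (z : HG (Subgroup.centralizer (C : Set G)) n) :
    Theta p B G (n + 1) hB (gasm1 B n C.subtype (Subgroup.centralizer (C : Set G)).subtype
        (cent_comm C) (K1.unit u) z) =
      toTV p B G (n + 1) (gasm1 B n (hatS p C).subtype
        (Subgroup.centralizer ((hatS p C : Subgroup (Wr p G)) : Set (Wr p G))).subtype
        (cent_comm (hatS p C)) (K1.unit (hatU C uD)) (HG.map n (dgC p C) z)) := by
  have hc : ∀ γ, dgD (Subgroup.centralizer (C : Set G)).subtype γ * DtG B (Fin 1) C.subtype uD =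
      DtG B (Fin 1) C.subtype uD * dgD (Subgroup.centralizer (C : Set G)).subtype γ :=
    fun γ => dgD_comm C uD γ
  have hcomp : ∀ (γ : Subgroup.centralizer (C : Set G)) (a : hatS p C),
      (hatS p C).subtype a * ((Subgroup.centralizer ((hatS p C : Subgroup (Wr p G)) : Set (Wr p G))).subtype.comp
        (dgC p C)) γ = ((Subgroup.centralizer ((hatS p C : Subgroup (Wr p G)) : Set (Wr p G))).subtype.comp
        (dgC p C)) γ * (hatS p C).subtype a := fun γ a => cent_comm (hatS p C) (dgC p C γ) a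
  have hz : ∀ x, prU (shM p B G (Fin 1)) (zhom (dgD (Subgroup.centralizer (C : Set G)).subtype)
      (DtG B (Fin 1) C.subtype uD) hc x) = eta hB (zhom (scal 1 ((grpHom B G).comp
        (Subgroup.centralizer (C : Set G)).subtype)) (mapGL (MonoidAlgebra.mapDomainRingHom B C.subtype) 1 (sc1 u))
        (scal_comm _ _ (grpHom_comm B C.subtype _ (cent_comm C)) (sc1 u)) x) := by
    refine zhom_rel _ _ _ _ _ _ _ _ (prU_dgD hB _) ?_
    rw [prU_DtG B hB C.subtype uD u h, sc1_map]
  rw [gasm1_unit, gasm1_map B n (hatS p C).subtype _ (dgC p C) (cent_comm (hatS p C)) hcomp, gasm1_unit,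
    Theta_lift hB (Fin 1) _ (zhom (dgD (Subgroup.centralizer (C : Set G)).subtype) (DtG B (Fin 1) C.subtype uD) hc)
      hz, ← clX_equiv (e1 p), HG.map_map, ← MonoidHom.comp_assoc, comp_zhom ((rxU (e1 p)).comp (jU p B G (Fin 1))) _ _ hc
      (scal 1 ((grpHom B (Wr p G)).comp ((Subgroup.centralizer ((hatS p C : Subgroup (Wr p G)) : Set (Wr p G))).subtype.comp
        (dgC p C)))) (mapGL (MonoidAlgebra.mapDomainRingHom B (hatS p C).subtype) 1 (sc1 (hatU C uD)))
      (scal_comm _ _ (grpHom_comm B _ _ hcomp) (sc1 (hatU C uD))) (fun γ => rxU_dgD _ γ) (rxU_jU C uD)]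

/-- **The relation in the wreath product.** -/
theorem rel_hat (hB : GoodB p B) {ι : Type} [Fintype ι] (C : ι → Subgroup G)
    (u : ∀ i, (MonoidAlgebra B (C i))ˣ) (uD : ∀ i, (Dt (shM p B (C i) (Fin 1)))ˣ)
    (h : ∀ i, prU (shM p B (C i) (Fin 1)) (uD i) = eta hB (sc1 (u i)))
    (z : ∀ i, HG (Subgroup.centralizer (C i : Set G)) n) (M : ℤ) (hM : M ≠ 0)
    (h0 : M • ∑ i, gasm1 B n (C i).subtype (Subgroup.centralizer (C i : Set G)).subtype
        (cent_comm (C i)) (K1.unit (u i)) (z i) = 0) :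
    ∃ (k : ℤ) (X : KQ (MonoidAlgebra B (ZMod p → G)) (n + 1)), k ≠ 0 ∧
      k • ∑ i, gasm1 B n (hatS p (C i)).subtype
        (Subgroup.centralizer ((hatS p (C i) : Subgroup (Wr p G)) : Set (Wr p G))).subtype
        (cent_comm (hatS p (C i))) (K1.unit (hatU (C i) (uD i))) (HG.map n (dgC p (C i)) (z i)) =
      KQ.map (MonoidAlgebra.mapDomainRingHom B (inc p G)) X := by
  have h1 : toTV p B G (n + 1) (M • ∑ i, gasm1 B n (hatS p (C i)).subtype
        (Subgroup.centralizer ((hatS p (C i) : Subgroup (Wr p G)) : Set (Wr p G))).subtype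
        (cent_comm (hatS p (C i))) (K1.unit (hatU (C i) (uD i)))
        (HG.map n (dgC p (C i)) (z i))) = 0 := by
    rw [map_zsmul, map_sum, Finset.sum_congr rfl fun i _ =>
      (Theta_gasm1 hB (C i) (u i) (uD i) (h i) (z i)).symm, ← map_sum, ← map_zsmul, h0, map_zero]
  obtain ⟨k, y, hk, hy⟩ := toTV_eq_zero h1
  refine ⟨k * M, y, mul_ne_zero hk hM, ?_⟩
  rw [mul_smul]
  exact hy

end

end Pool.Agent.H71.CZ

end

section

/-!
# Project CZ, the `K₀`-part: vanishing of the functionals implies torsion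

PROOF. Port of `FQ/Tors.lean` (from `VanOn` to `torsion_of_vanOn`) with `X.dtr` replaced by `T1`, the lifting system
`bLiftZero k` and `i = RingHom.id k` (`H71/DB/Lift.lean`).
-/

set_option autoImplicit false

open Matrix
open scoped Classical

universe t u v w

namespace Pool.Agent.H16.CZ

open Pool.Agent.H71.FQ Pool.Agent.H16.KN
open Pool.Agent.H71.FJ (IdemMat K0 K0.mk K0.map K0.map_map K0.map_id K0.push K0.rk LiftSys IsPrim isPrim_map LT_aut exists_rep_lift dlt dlt_comm cyc_comm mulAut_finite IsInd zpowers_aut sum_ind isPrim_neg liftK map_liftK T Sat)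
open Pool.Agent.H71.DB (BLift bLiftZero)
open Pool.Agent.H95.WH (FamSub conjHom FinSub)

section

variable {k : Type u} [Field k] [CharZero k] {G : Type v} [Group G] {n : ℕ}

/-- the lifted trace, which is the trace -/
noncomputable def ltk {D : Type w} [Group D] [IsCyclic D] (m : ℕ) (a : D)
    (y : K0 (MonoidAlgebra k D)) : k :=
  Pool.Agent.H71.FJ.LT (bLiftZero k).sys m (RingHom.id k) (dlt ((bLiftZero k).sys.B m) a)
    (dlt_comm _ a) y

theorem ltk_eq {D : Type w} [Group D] [IsCyclic D] (m : ℕ) (a : D)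
    (y : K0 (MonoidAlgebra k D)) : ltk m a y = T (dlt k a) (dlt_comm k a) y := by
  have h1 : liftK (bLiftZero k).sys m (RingHom.id k) D y = y := by
    have h2 := map_liftK (bLiftZero k).sys m (RingHom.id k) D y
    have h3 : (bLiftZero k).sys.π m = RingHom.id k := rfl
    have h4 : K0.map (MonoidAlgebra.mapRingHom D (RingHom.id k)) =
        AddMonoidHom.id (K0 (MonoidAlgebra k D)) := by
      rw [MonoidAlgebra.mapRingHom_id]
      exact K0.map_id
    rw [h4] at h2
    exact (DFunLike.congr_fun h4 _).symm.trans h2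
  show T (dlt k a) (dlt_comm k a) (liftK (bLiftZero k).sys m (RingHom.id k) D y) = _
  exact congrArg (T (dlt k a) (dlt_comm k a)) h1

theorem ltk_aut {D : Type w} [Group D] [IsCyclic D] (m : ℕ) (w : MulAut D) (c : D)
    (y : K0 (MonoidAlgebra k D)) :
    ltk m c (K0.map (MonoidAlgebra.mapDomainRingHom k w.toMonoidHom) y) =
      ltk m (w.symm c) y :=
  LT_aut (bLiftZero k).sys (RingHom.id k) m w c y

/-- Vanishing of all functionals for the elements in `P`. -/
def Van (P : G → Prop) (x : KQ (MonoidAlgebra k G) n) : Prop :=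
  ∀ c, P c → IsOfFinOrder c → ∀ (φ : (Fin (n + 2) → Subgroup.centralizer ({c} : Set G)) → k)
    (hφ : IsCoc (Subgroup.centralizer ({c} : Set G)) n φ), T1 hφ x = 0

variable {P : G → Prop}

omit [CharZero k] in
theorem Van.mono {Q : G → Prop} (hPQ : ∀ c, Q c → P c) {x : KQ (MonoidAlgebra k G) n}
    (h : Van P x) : Van Q x := fun c hc => h c (hPQ c hc)

omit [CharZero k] in
theorem Van.zero : Van P (0 : KQ (MonoidAlgebra k G) n) :=
  fun _ _ _ _ _ => map_zero _

omit [CharZero k] in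
theorem Van.add {x y : KQ (MonoidAlgebra k G) n} (hx : Van P x) (hy : Van P y) :
    Van P (x + y) := by
  intro c hP hc φ hφ
  rw [map_add, hx c hP hc φ hφ, hy c hP hc φ hφ, add_zero]

omit [CharZero k] in
theorem Van.sub {x y : KQ (MonoidAlgebra k G) n} (hx : Van P x) (hy : Van P y) :
    Van P (x - y) := by
  intro c hP hc φ hφ
  rw [map_sub, hx c hP hc φ hφ, hy c hP hc φ hφ, sub_zero]

theorem Van.of_smul {x : KQ (MonoidAlgebra k G) n} {a : ℤ} (ha : a ≠ 0)
    (hx : Van P (a • x)) : Van P x := by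
  intro c hP hc φ hφ
  have h1 := hx c hP hc φ hφ
  rw [map_zsmul, zsmul_eq_mul] at h1
  rcases mul_eq_zero.1 h1 with h2 | h2
  · exact absurd (by exact_mod_cast h2) ha
  · exact h2

omit [CharZero k] in
theorem Van.smul {x : KQ (MonoidAlgebra k G) n} (a : ℤ) (hx : Van P x) :
    Van P (a • x) := by
  intro c hP hc φ hφ
  rw [map_zsmul, hx c hP hc φ hφ, smul_zero]

omit [CharZero k] in
theorem Van.list_sum (l : List (KQ (MonoidAlgebra k G) n)) (h : ∀ a ∈ l, Van P a) :
    Van P l.sum := by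
  induction l with
  | nil => rw [List.sum_nil]; exact Van.zero
  | cons a l ih =>
    rw [List.sum_cons]
    exact (h a List.mem_cons_self).add (ih fun b hb => h b (List.mem_cons_of_mem _ hb))

/-- The value at a symbol. -/
theorem T1_sy (D : FamSub G FinSub) [Fintype D.1] [IsCyclic D.1]
    (z : HG (Subgroup.centralizer (D.1 : Set G)) n) (c : G)
    {φ : (Fin (n + 2) → Subgroup.centralizer ({c} : Set G)) → k}
    (hφ : IsCoc (Subgroup.centralizer ({c} : Set G)) n φ) (m : ℕ)
    (y : K0 (MonoidAlgebra k D.1)) :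
    T1 hφ (assemblyN k n G (sy D y z)) =
      ∑ a : D.1, vl hφ D.1 a z *
        ltk m a y := by
  rw [asmN_sy]
  refine (T1_gasm hφ D.1 y z).trans ?_
  exact Finset.sum_congr rfl fun a _ => congrArg (fun t => vl hφ D.1 a z * t) (ltk_eq m a y).symm

/-- Symbols over a cyclic subgroup `D₀`. -/
noncomputable def OverZ (n : ℕ) (D₀ : FamSub G FinSub) [IsCyclic D₀.1] :
    AddSubgroup (HnK0 k G n) :=
  AddSubgroup.closure {w | ∃ y : K0 (MonoidAlgebra k D₀.1),
    IsPrim (bLiftZero k).sys (RingHom.id k) y ∧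
    ∃ z : HG (Subgroup.centralizer (D₀.1 : Set G)) n, w = sy D₀ y z}

theorem over_of_conj (D₀ D : FamSub G FinSub) [IsCyclic D₀.1] [IsCyclic D.1] (c : D₀.1) (d : D.1)
    (hc : Subgroup.zpowers c = ⊤) (hd : Subgroup.zpowers d = ⊤) (h : IsConj (c : G) (d : G))
    (y : K0 (MonoidAlgebra k D.1)) (hy : IsPrim (bLiftZero k).sys (RingHom.id k) y)
    (z : HG (Subgroup.centralizer (D.1 : Set G)) n) : sy D y z ∈ OverZ n D₀ := by
  obtain ⟨g, hg⟩ := isConj_iff.1 h
  have hg' : g⁻¹ * (d : G) * g⁻¹⁻¹ = c := by rw [← hg]; group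
  have h1 : ∀ x ∈ D₀.1, g * x * g⁻¹ ∈ D.1 := by
    intro x hx
    have : (⟨x, hx⟩ : D₀.1) ∈ Subgroup.zpowers c := by rw [hc]; trivial
    obtain ⟨m, hm⟩ := Subgroup.mem_zpowers_iff.1 this
    have hm' : (c : G) ^ m = x := by
      rw [← Subgroup.coe_zpow, hm]
    rw [← hm', ← conj_zpow, hg]
    exact D.1.zpow_mem d.2 m
  have h2 : ∀ x ∈ D.1, g⁻¹ * x * g⁻¹⁻¹ ∈ D₀.1 := by
    intro x hx
    have : (⟨x, hx⟩ : D.1) ∈ Subgroup.zpowers d := by rw [hd]; trivial
    obtain ⟨m, hm⟩ := Subgroup.mem_zpowers_iff.1 this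
    have hm' : (d : G) ^ m = x := by
      rw [← Subgroup.coe_zpow, hm]
    rw [← hm', ← conj_zpow, hg']
    exact D₀.1.zpow_mem c.2 m
  let e : D.1 ≃* D₀.1 :=
    { toFun := conjHom g⁻¹ D.1 D₀.1 h2
      invFun := conjHom g D₀.1 D.1 h1
      left_inv := by
        intro x
        apply Subtype.ext
        change g * (g⁻¹ * (x : G) * g⁻¹⁻¹) * g⁻¹ = x
        group
      right_inv := by
        intro x
        apply Subtype.ext
        change g⁻¹ * (g * (x : G) * g⁻¹) * g⁻¹⁻¹ = x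
        group
      map_mul' := map_mul _ }
  have h3 : (centConj g⁻¹ D.1 D₀.1 h2).comp (centConj g D₀.1 D.1 h1) = MonoidHom.id _ := by
    apply MonoidHom.ext
    intro γ
    apply Subtype.ext
    change g⁻¹⁻¹ * (g⁻¹ * (γ : G) * g) * g⁻¹ = γ
    group
  have hz' : z = HG.map n (centConj g⁻¹ D.1 D₀.1 h2) (HG.map n (centConj g D₀.1 D.1 h1) z) := by
    rw [HG.map_map, h3, HG.map_id]
  rw [hz']
  refine AddSubgroup.subset_closure
    ⟨K0.map (MonoidAlgebra.mapDomainRingHom k e.toMonoidHom) y, isPrim_map (bLiftZero k).sys (RingHom.id k) e hy,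
      HG.map n (centConj g D₀.1 D.1 h1) z, ?_⟩
  exact (sy_conj D D₀ g⁻¹ h2 y _).symm

/-- Symbols over other cyclic groups. -/
theorem van_not_over (D₀ D : FamSub G FinSub) [IsCyclic D₀.1] [IsCyclic D.1]
    (y : K0 (MonoidAlgebra k D.1)) (hy : IsPrim (bLiftZero k).sys (RingHom.id k) y)
    (z : HG (Subgroup.centralizer (D.1 : Set G)) n) (h : ¬ sy D y z ∈ OverZ n D₀) :
    Van (IsGen D₀) (assemblyN k n G (sy D y z)) := by
  have : Finite D.1 := D.2
  have : Fintype D.1 := Fintype.ofFinite D.1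
  intro c hgen hc φ hφ
  obtain ⟨c₀, hc₀, hgen⟩ := hgen
  rw [T1_sy D z c hφ 0 y]
  refine Finset.sum_eq_zero fun a _ => ?_
  by_cases ha : IsConj c (a : G)
  · have h3 : Subgroup.zpowers a ≠ ⊤ := by
      intro h4
      exact h (over_of_conj D₀ D c₀ a hgen h4 (by rw [hc₀]; exact ha) y hy z)
    have h4 : ltk 0 a y = 0 := hy 0 a h3
    rw [h4, mul_zero]
  · rw [vl_zero hφ D.1 a ha, zero_mul]

/-- Representation of the elements over `D₀`. -/
theorem exists_fam (D₀ : FamSub G FinSub) [IsCyclic D₀.1] {w : HnK0 k G n}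
    (hw : w ∈ OverZ n D₀) :
    ∃ (N : ℕ) (y : Fin N → K0 (MonoidAlgebra k D₀.1))
      (z : Fin N → HG (Subgroup.centralizer (D₀.1 : Set G)) n),
      (∀ j, IsPrim (bLiftZero k).sys (RingHom.id k) (y j)) ∧ w = ∑ j, sy D₀ (y j) (z j) := by
  induction hw using AddSubgroup.closure_induction with
  | mem x hx =>
    obtain ⟨y, hy, z, rfl⟩ := hx
    exact ⟨1, fun _ => y, fun _ => z, fun _ => hy, by simp⟩
  | zero => exact ⟨0, Fin.elim0, Fin.elim0, fun j => j.elim0, by simp⟩
  | add a b _ _ ha hb =>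
    obtain ⟨N, y, z, h1, rfl⟩ := ha
    obtain ⟨N', y', z', h1', rfl⟩ := hb
    refine ⟨N + N', Fin.append y y', Fin.append z z', ?_, ?_⟩
    · intro j
      refine Fin.addCases (fun j => ?_) (fun j => ?_) j
      · rw [Fin.append_left]; exact h1 j
      · rw [Fin.append_right]; exact h1' j
    · rw [Fin.sum_univ_add]
      simp only [Fin.append_left, Fin.append_right]
  | neg a _ ha =>
    obtain ⟨N, y, z, h1, rfl⟩ := ha
    refine ⟨N, fun j => -y j, z, fun j => isPrim_neg (bLiftZero k).sys (RingHom.id k) (h1 j), ?_⟩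
    rw [← Finset.sum_neg_distrib]
    refine Finset.sum_congr rfl fun j _ => ?_
    rw [← syH_apply, ← syH_apply, map_neg]

theorem torsion_over (D₀ : FamSub G FinSub) [IsCyclic D₀.1]
    (hsep : ∀ b : HG (Subgroup.centralizer (D₀.1 : Set G)) n,
      (∀ (φ : (Fin (n + 2) → Subgroup.centralizer (D₀.1 : Set G)) → k)
        (hφ : IsCoc (Subgroup.centralizer (D₀.1 : Set G)) n φ), HG.ev hφ b = 0) →
        ∃ m : ℤ, m ≠ 0 ∧ m • b = 0)
    (N : ℕ) (y : Fin N → K0 (MonoidAlgebra k D₀.1))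
    (hy : ∀ j, IsPrim (bLiftZero k).sys (RingHom.id k) (y j))
    (z : Fin N → HG (Subgroup.centralizer (D₀.1 : Set G)) n)
    (hv : Van (IsGen D₀) (assemblyN k n G (∑ j, sy D₀ (y j) (z j)))) :
    ∃ m : ℤ, m ≠ 0 ∧ m • ∑ j, sy D₀ (y j) (z j) = 0 := by
  have : Finite D₀.1 := D₀.2
  have : Fintype D₀.1 := Fintype.ofFinite D₀.1
  have := mulAut_finite D₀.1
  have : Fintype (MulAut D₀.1) := Fintype.ofFinite _
  have ho : ∀ h : D₀.1, (orderOf h : k) ≠ 0 := fun h =>
    Nat.cast_ne_zero.2 (orderOf_pos h).ne'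
  have hS' : ∀ c : G, IsGen D₀ c → ∀ (_ : IsOfFinOrder c)
      (φ : (Fin (n + 2) → Subgroup.centralizer ({c} : Set G)) → k)
      (hφ : IsCoc (Subgroup.centralizer ({c} : Set G)) n φ) (m : ℕ),
      ∑ j, ∑ a : D₀.1, vl hφ D₀.1 a (z j) * ltk m a (y j) = 0 := by
    intro c hgen hc φ hφ m
    have h1 := hv c hgen hc φ hφ
    rw [map_sum, map_sum] at h1
    rw [← h1]
    exact Finset.sum_congr rfl fun j _ => (T1_sy D₀ (z j) c hφ m (y j)).symm
  let ι := {w : MulAut D₀.1 // IsInd D₀.1 w}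
  have : Fintype ι := Fintype.ofFinite _
  choose g hg using fun w : ι => w.2
  obtain ⟨m, hm, h⟩ := det_tensor (bLiftZero k) (RingHom.id k)
    (fun ν : HG (Subgroup.centralizer (D₀.1 : Set G)) n →+ (bLiftZero k).Lam =>
      ∃ (φ : (Fin (n + 2) → Subgroup.centralizer (D₀.1 : Set G)) → k)
        (hφ : IsCoc (Subgroup.centralizer (D₀.1 : Set G)) n φ), ν = HG.ev hφ) ho
    (fun b hb => hsep b fun φ hφ => hb _ ⟨φ, hφ, rfl⟩) (syB (k := k) D₀)
    (fun p : ι × Fin N => K0.map (MonoidAlgebra.mapDomainRingHom k p.1.1.toMonoidHom) (y p.2))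
    (fun p : ι × Fin N => HG.map n (cAut (hg p.1)) (z p.2)) 1 one_ne_zero (by
      rintro m c ν ⟨φ, hφ, rfl⟩
      have hgoal : ∑ p : ι × Fin N, HG.ev hφ (HG.map n (cAut (hg p.1)) (z p.2)) *
          ltk m c (K0.map (MonoidAlgebra.mapDomainRingHom k p.1.1.toMonoidHom) (y p.2)) =
          (0 : k) := ?_
      · rw [Int.cast_one, one_mul]
        exact hgoal
      by_cases hc : Subgroup.zpowers c = ⊤
      · have hcfin : IsOfFinOrder (c : G) := D₀.1.subtype.isOfFinOrder (isOfFinOrder_of_finite c)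
        have hφ' := hφ.comp (genC c hc)
        refine Eq.trans ?_ (hS' (c : G) ⟨c, rfl, hc⟩ hcfin _ hφ' m)
        rw [Fintype.sum_prod_type_right]
        refine Finset.sum_congr rfl fun j _ => ?_
        have h1 : ∑ a : D₀.1, vl hφ' D₀.1 a (z j) * ltk m a (y j) =
            ∑ a ∈ Finset.univ.filter (fun d : D₀.1 => IsConj (c : G) (d : G)),
              vl hφ' D₀.1 a (z j) * ltk m a (y j) := by
          rw [Finset.sum_filter]
          refine Finset.sum_congr rfl fun a _ => ?_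
          by_cases ha : IsConj (c : G) (a : G)
          · rw [if_pos ha]
          · rw [if_neg ha, vl_zero hφ' D₀.1 a ha, zero_mul]
        rw [h1, ← sum_ind D₀.1 c hc (fun a => vl hφ' D₀.1 a (z j) * ltk m a (y j))]
        have h2 : ∀ w : ι, HG.ev hφ (HG.map n (cAut (hg w)) (z j)) *
            ltk m c (K0.map (MonoidAlgebra.mapDomainRingHom k w.1.toMonoidHom) (y j)) =
            vl hφ' D₀.1 (w.1.symm c) (z j) * ltk m (w.1.symm c) (y j) := by
          intro w
          rw [ltk_aut m w.1 c (y j)]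
          congr 1
          have h3 : g w * ((w.1.symm c : D₀.1) : G) * (g w)⁻¹ = (c : G) := by
            rw [← hg w, w.1.apply_symm_apply]
          rw [vl_eq hφ' D₀.1 (w.1.symm c) (g w) h3, ← HG.ev_map hφ (genC c hc), HG.map_map]
          congr 1
        refine Eq.trans (Finset.sum_congr rfl fun w _ => h2 w) ?_
        exact (Finset.sum_subtype _ (fun w => by simp)
          (fun w : MulAut D₀.1 => vl hφ' D₀.1 (w.symm c) (z j) * ltk m (w.symm c) (y j))).symm
      · refine Finset.sum_eq_zero fun p _ => ?_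
        have h4 : ltk m (p.1.1.symm c) (y p.2) = 0 := hy p.2 m _ (zpowers_aut p.1.1.symm c hc)
        rw [ltk_aut m p.1.1 c (y p.2), h4, mul_zero])
  have h7 : ∑ p : ι × Fin N, syB D₀
      (K0.map (MonoidAlgebra.mapDomainRingHom k p.1.1.toMonoidHom) (y p.2))
      (HG.map n (cAut (hg p.1)) (z p.2)) =
      (Fintype.card ι : ℤ) • ∑ j, sy D₀ (y j) (z j) := by
    rw [Fintype.sum_prod_type]
    have h8 : ∀ w : ι, ∑ j : Fin N, syB D₀
        (K0.map (MonoidAlgebra.mapDomainRingHom k w.1.toMonoidHom) (y j))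
        (HG.map n (cAut (hg w)) (z j)) = ∑ j, sy D₀ (y j) (z j) := by
      intro w
      refine Finset.sum_congr rfl fun j _ => ?_
      rw [syB_apply]
      exact sy_ind D₀ w.1 (g w) (hg w) (y j) (z j)
    rw [Finset.sum_congr rfl fun w _ => h8 w, Finset.sum_const, Finset.card_univ, natCast_zsmul]
  rw [h7, smul_smul] at h
  have hne : Nonempty ι := ⟨⟨1, 1, fun d => by simp⟩⟩
  exact ⟨m * Fintype.card ι, mul_ne_zero hm (by exact_mod_cast Fintype.card_ne_zero), h⟩

/-- Sums of primitive symbols. -/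
theorem split_list (D₀ : FamSub G FinSub) [IsCyclic D₀.1] (l : List (HnK0 k G n))
    (hl : ∀ w ∈ l, w ∈ PSet (bLiftZero k).sys (RingHom.id k) G n) :
    ∃ w₀ ∈ OverZ n D₀, ∃ l' : List (HnK0 k G n),
      (∀ w ∈ l', w ∈ PSet (bLiftZero k).sys (RingHom.id k) G n ∧ w ∉ OverZ n D₀) ∧ l'.length ≤ l.length ∧
        l.sum = w₀ + l'.sum := by
  induction l with
  | nil => exact ⟨0, AddSubgroup.zero_mem _, [], by simp, le_rfl, by simp⟩
  | cons w l ih =>
    obtain ⟨w₀, hw₀, l', h1, h2, h3⟩ := ih (fun w hw => hl w (List.mem_cons_of_mem _ hw))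
    by_cases hw : w ∈ OverZ n D₀
    · refine ⟨w + w₀, AddSubgroup.add_mem _ hw hw₀, l', h1, h2.trans (by simp), ?_⟩
      rw [List.sum_cons, h3, add_assoc]
    · refine ⟨w₀, hw₀, w :: l', ?_, by simpa using h2, ?_⟩
      · intro w' hw'
        rcases List.mem_cons.1 hw' with rfl | hw'
        · exact ⟨hl _ List.mem_cons_self, hw⟩
        · exact h1 w' hw'
      · rw [List.sum_cons, List.sum_cons, h3]
        abel

variable (hsep : ∀ D : FamSub G FinSub, IsCyclic D.1 →
  ∀ b : HG (Subgroup.centralizer (D.1 : Set G)) n,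
    (∀ (φ : (Fin (n + 2) → Subgroup.centralizer (D.1 : Set G)) → k)
      (hφ : IsCoc (Subgroup.centralizer (D.1 : Set G)) n φ), HG.ev hφ b = 0) →
      ∃ m : ℤ, m ≠ 0 ∧ m • b = 0)

include hsep in
theorem torsion_list (N : ℕ) : ∀ l : List (HnK0 k G n), l.length = N →
    (∀ w ∈ l, w ∈ PSet (bLiftZero k).sys (RingHom.id k) G n) →
    Van (fun _ => True) (assemblyN k n G l.sum) →
    ∃ m : ℤ, m ≠ 0 ∧ m • l.sum = 0 := by
  induction N using Nat.strong_induction_on with
  | _ N ih =>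
    intro l hN hl hv
    match l, hN, hl, hv with
    | [], _, _, _ => exact ⟨1, one_ne_zero, by simp⟩
    | w :: l, hN, hl, hv =>
      obtain ⟨D₀, hD₀, ho, y₀, hy₀, z₀, hw⟩ := hl w List.mem_cons_self
      have hwO : w ∈ OverZ n D₀ := by
        rw [hw]
        exact AddSubgroup.subset_closure ⟨y₀, hy₀, z₀, rfl⟩
      obtain ⟨w₁, hw₁, l', h1, h2, h3⟩ := split_list D₀ l
        (fun w hw => hl w (List.mem_cons_of_mem _ hw))
      obtain ⟨N', y, z, hy, hfam⟩ := exists_fam D₀ (AddSubgroup.add_mem _ hwO hw₁)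
      have e1 : (w :: l).sum = (w + w₁) + l'.sum := by rw [List.sum_cons, h3, add_assoc]
      have hrest : Van (IsGen D₀) (assemblyN k n G l'.sum) := by
        rw [map_list_sum]
        apply Van.list_sum
        intro a ha
        obtain ⟨w', hw', rfl⟩ := List.mem_map.1 ha
        obtain ⟨⟨D, hD, ho', y', hy', z', rfl⟩, hno⟩ := h1 w' hw'
        exact van_not_over D₀ D y' hy' z' hno
      have hv0 : Van (IsGen D₀) (assemblyN k n G (w + w₁)) := by
        have e2 : assemblyN k n G (w + w₁) =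
            assemblyN k n G (w :: l).sum - assemblyN k n G l'.sum := by
          rw [e1, map_add (assemblyN k n G) (w + w₁), add_sub_cancel_right]
        rw [e2]
        exact (hv.mono fun _ _ => trivial).sub hrest
      rw [hfam] at hv0
      obtain ⟨m, hm, hm0⟩ := torsion_over D₀ (hsep D₀ hD₀) N' y hy z hv0
      rw [← hfam] at hm0
      have hv1 : Van (fun _ => True) (assemblyN k n G l'.sum) := by
        apply Van.of_smul hm
        have e3 : m • assemblyN k n G l'.sum = m • assemblyN k n G (w :: l).sum := by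
          rw [e1, map_add (assemblyN k n G) (w + w₁), smul_add,
            ← map_zsmul (assemblyN k n G) m (w + w₁), hm0, map_zero, zero_add]
        rw [e3]
        exact hv.smul m
      obtain ⟨m', hm', h4⟩ := ih l'.length (by rw [← hN, List.length_cons]; omega) l' rfl
        (fun w hw => (h1 w hw).1) hv1
      refine ⟨m * m', mul_ne_zero hm hm', ?_⟩
      rw [e1, smul_add, mul_smul m m' l'.sum, h4, smul_zero, add_zero, mul_comm, mul_smul, hm0,
        smul_zero]

theorem pSet_neg {w : HnK0 k G n} (hw : w ∈ PSet (bLiftZero k).sys (RingHom.id k) G n) :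
    -w ∈ PSet (bLiftZero k).sys (RingHom.id k) G n := by
  obtain ⟨D, hD, ho, y, hy, z, rfl⟩ := hw
  refine ⟨D, hD, ho, -y, isPrim_neg (bLiftZero k).sys (RingHom.id k) hy, z, ?_⟩
  rw [← syH_apply, ← syH_apply, map_neg]

theorem exists_list {w : HnK0 k G n}
    (hw : w ∈ AddSubgroup.closure (PSet (bLiftZero k).sys (RingHom.id k) G n)) :
    ∃ l : List (HnK0 k G n), (∀ w ∈ l, w ∈ PSet (bLiftZero k).sys (RingHom.id k) G n) ∧ l.sum = w := by
  induction hw using AddSubgroup.closure_induction with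
  | mem x hx => exact ⟨[x], by simpa using hx, by simp⟩
  | zero => exact ⟨[], by simp, rfl⟩
  | add x y _ _ hx hy =>
    obtain ⟨l, h1, rfl⟩ := hx
    obtain ⟨l', h1', rfl⟩ := hy
    refine ⟨l ++ l', ?_, List.sum_append⟩
    intro z hz
    rcases List.mem_append.1 hz with h | h
    · exact h1 z h
    · exact h1' z h
  | neg x _ hx =>
    obtain ⟨l, h1, rfl⟩ := hx
    refine ⟨l.map (- ·), ?_, ?_⟩
    · intro z hz
      obtain ⟨y, hy, rfl⟩ := List.mem_map.1 hz
      exact pSet_neg (h1 y hy)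
    · have hneg : ∀ l : List (HnK0 k G n), (l.map (- ·)).sum = - l.sum := by
        intro l
        induction l with
        | nil => simp
        | cons a l ih => rw [List.map_cons, List.sum_cons, List.sum_cons, ih, neg_add]
      exact hneg l

omit hsep in
theorem torsion_of_T1
    (hsep : ∀ D : FamSub G FinSub, IsCyclic D.1 →
      ∀ b : HG (Subgroup.centralizer (D.1 : Set G)) n,
        (∀ (φ : (Fin (n + 2) → Subgroup.centralizer (D.1 : Set G)) → k)
          (hφ : IsCoc (Subgroup.centralizer (D.1 : Set G)) n φ), HG.ev hφ b = 0) →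
          ∃ m : ℤ, m ≠ 0 ∧ m • b = 0)
    (w : HnK0 k G n)
    (hv : ∀ (c : G), IsOfFinOrder c → ∀
      (φ : (Fin (n + 2) → Subgroup.centralizer ({c} : Set G)) → k)
      (hφ : IsCoc (Subgroup.centralizer ({c} : Set G)) n φ),
      T1 hφ (assemblyN k n G w) = 0) :
    ∃ m : ℤ, m ≠ 0 ∧ m • w = 0 := by
  have hv' : Van (fun _ => True) (assemblyN k n G w) := fun c _ hc φ hφ => hv c hc φ hφ
  obtain ⟨m, hm, hw⟩ := mem_sat (bLiftZero k).sys (RingHom.id k) w
  obtain ⟨l, h1, hl⟩ := exists_list hw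
  obtain ⟨m', hm', h2⟩ := torsion_list hsep l.length l rfl h1 (by
    rw [hl, map_zsmul]
    exact hv'.smul m)
  exact ⟨m' * m, mul_ne_zero hm' hm, by rw [mul_smul, ← hl, h2]⟩

end

end Pool.Agent.H16.CZ

end
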