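import Pool.Agent.H71.TCZ.M55
import Pool.Agent.H71.TCZ.M75

/-! The parts of this file: H39.CZ.RTau_1, H39.CZ.RLam. -/

section

/-!
# Project CZ: the rotation functional of an element no conjugate of which is a `p ^ r`-th power

`stab_dvd`, `exists_tau` (`H39/KL/Tau.lean`), `TR_dvd_exp`, `bd_dvdG` (`H39/KL/Coch1.lean`), `lamQ_dvd`, `lamQ_mul`, `lamQ_pow`
(`H39/KL/LamA.lean`) with the hypothesis `hroot : ∀ h, ¬ IsConj c (h ^ p ^ r)` in place of the bound of the `p`-power torsion.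
-/

set_option autoImplicit false

open Matrix

universe u v w

namespace Pool.Agent.H39.CZ

open Pool.Agent.H71.FQ Pool.Agent.H16.KN Pool.Agent.H39.KL

section

end

section

variable {G : Type u} [Group G] {B : Type v} [CommRing B] {k : ℕ}

private theorem tau_mul {p m r : ℕ} {c : G} {τ : (Fin (p ^ m) → G) → ZMod (p ^ m)}
    (hτ : IsTau p m r c τ) {g : G} (hg : g * c = c * g) (v : Fin (p ^ m) → G) :
    τ (fun b => g * v b) = τ v := hτ.inv g hg v

/-- the cochain of the boundary values on `G` -/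
private def psG {q : ℕ} (ψ : (Fin (k + 1) → Fin q → G) → B) (τ : (Fin q → G) → ZMod q) :
    (Fin (k + 3) → Fin q → G) → B := pLL ψ (ep B τ)

private theorem CIq_psG {p m r : ℕ} {c : G} {ψ : (Fin (k + 1) → Fin (p ^ m) → G) → B}
    (h1 : CIq c (p ^ m) ψ) {τ : (Fin (p ^ m) → G) → ZMod (p ^ m)} (hτ : IsTau p m r c τ) :
    CIq c (p ^ m) (psG ψ τ) := by
  intro g hg v
  have e1 := h1 g hg fun j => v j.castSucc.castSucc
  have e2 := tau_mul hτ hg (v (Fin.last k).castSucc.castSucc)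
  have e3 := tau_mul hτ hg (v (Fin.last (k + 1)).castSucc)
  have e4 := tau_mul hτ hg (v (Fin.last (k + 2)))
  unfold psG pLL ep
  rw [e1, e2, e3, e4]

private theorem RIq_psG {p m r : ℕ} {c : G} {ψ : (Fin (k + 1) → Fin (p ^ m) → G) → B}
    (h2 : RIq c (p ^ m) ψ) {τ : (Fin (p ^ m) → G) → ZMod (p ^ m)} (hτ : IsTau p m r c τ) :
    RIq c (p ^ m) (psG ψ τ) := by
  intro v
  have e1 := h2 fun j => v j.castSucc.castSucc
  unfold psG pLL ep
  rw [e1, hτ.rot, hτ.rot, hτ.rot, add_sub_add_right_eq_sub, add_sub_add_right_eq_sub]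

private theorem dl_zero_pL {X : Type*} {M : ℕ} [NeZero M] (τ : X → ZMod M)
    (ψ : (Fin (k + 1) → X) → B) (h3 : ∀ v, dl ψ v = 0) (v : Fin (k + 3) → X) :
    dl (pL ψ (tl B τ)) v = (-1) ^ k * (M : B) * pLL ψ (ep B τ) v := by
  rw [dl_pL_tl]
  unfold pL
  rw [h3]
  ring

/-- the values on boundaries -/
theorem bd_dvdR {p : ℕ} [Fact p.Prime] (m r : ℕ) (hrm : r ≤ m)
    {c : G} (hroot : ∀ h : G, ¬ IsConj c (h ^ p ^ r)) {ψ : (Fin (k + 1) → Fin (p ^ m) → G) → B} (h1 : CIq c (p ^ m) ψ)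
    (h2 : RIq c (p ^ m) ψ) (h3 : ∀ v, dl ψ v = 0) {τ : (Fin (p ^ m) → G) → ZMod (p ^ m)}
    (hτ : IsTau p m r c τ) (w : QC (MonoidAlgebra B G) (k + 2)) :
    (p : B) ^ (m + (m - r + 1)) ∣ TR (p ^ m) c (phiG ψ τ) (qbd w) := by
  rw [TR_bd (p ^ m) (CIq_phiG h1 hτ)]
  have h4 : dl (phiG ψ τ) = fun v => (-1) ^ k * ((p ^ m : ℕ) : B) * psG ψ τ v :=
    funext fun v => dl_zero_pL τ ψ h3 v
  rw [h4, TR_smul, pow_add, Nat.cast_pow]
  exact mul_dvd_mul (Dvd.intro_left _ rfl)
    (TR_dvdR m r hrm hroot (CIq_psG h1 hτ) (RIq_psG h2 hτ) w)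

end

section

variable {C : Type u} [Group C] {B : Type v} [CommRing B] {p m r : ℕ} [Fact p.Prime]

private theorem one_CIq (q : ℕ) (d : C) :
    CIq d q (fun _ : Fin (0 + 1) → Fin q → C => (1 : B)) := fun _ _ _ => rfl

private theorem one_RIq (q : ℕ) (d : C) :
    RIq d q (fun _ : Fin (0 + 1) → Fin q → C => (1 : B)) := fun _ => rfl

private theorem phi_RIq {d : C} {τ : (Fin (p ^ m) → C) → ZMod (p ^ m)}
    (hτ : IsTau p m r d τ) :
    RIq d (p ^ m) (phiG (k := 0) (fun _ => (1 : B)) τ) := by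
  intro v
  show (1 : B) * ((τ (sig (p ^ m) d (v (Fin.last (0 + 1)))) -
      τ (sig (p ^ m) d (v (Fin.last 0).castSucc))).val : B) =
    (1 : B) * ((τ (v (Fin.last (0 + 1))) - τ (v (Fin.last 0).castSucc)).val : B)
  rw [hτ.rot, hτ.rot, add_sub_add_right_eq_sub]

theorem lamQ_dvdR (hrm : r ≤ m) {d : C} (hroot : ∀ h : C, ¬ IsConj d (h ^ p ^ r))
    {τ : (Fin (p ^ m) → C) → ZMod (p ^ m)}
    (hτ : IsTau p m r d τ) {N : ℕ} (U : GLm N (MonoidAlgebra B C)) :
    (p : B) ^ (m - r + 1) ∣ lamQ p m d τ U :=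
  TR_dvdR m r hrm hroot (CIq_phiG (one_CIq _ d) hτ) (phi_RIq hτ) _

theorem lamQ_mulR (hrm : r ≤ m) {d : C} (hroot : ∀ h : C, ¬ IsConj d (h ^ p ^ r))
    {τ : (Fin (p ^ m) → C) → ZMod (p ^ m)}
    (hτ : IsTau p m r d τ) {N : ℕ} (U V : GLm N (MonoidAlgebra B C)) :
    (p : B) ^ (m + (m - r + 1)) ∣ lamQ p m d τ (U * V) - (lamQ p m d τ U + lamQ p m d τ V) := by
  have h3 : ∀ v : Fin (0 + 2) → Fin (p ^ m) → C,
      dl (fun _ : Fin (0 + 1) → Fin (p ^ m) → C => (1 : B)) v = 0 := by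
    intro v
    unfold dl
    rw [Fin.sum_univ_two]
    simp
  have h := bd_dvdR (k := 0) m r hrm hroot (one_CIq (B := B) _ d) (one_RIq _ d) h3 hτ
    (QC.t N ![1, U, U * V])
  have e : TR (p ^ m) d (phiG (k := 0) (fun _ => (1 : B)) τ) (qbd (QC.t N ![1, U, U * V])) =
      lamQ p m d τ V - lamQ p m d τ (U * V) + lamQ p m d τ U := by
    have e0 : (fun j => (![1, U, U * V] : Fin (0 + 1 + 2) → GLm N (MonoidAlgebra B C))
        ((0 : Fin (0 + 1 + 2)).succAbove j)) = fun j => U * (![1, V] : Fin (0 + 1 + 1) → _) j := by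
      funext j
      fin_cases j
      · show U = U * 1
        rw [mul_one]
      · rfl
    have e1 : (fun j => (![1, U, U * V] : Fin (0 + 1 + 2) → GLm N (MonoidAlgebra B C))
        ((1 : Fin (0 + 1 + 2)).succAbove j)) = (![1, U * V] : Fin (0 + 1 + 1) → _) := by
      funext j
      fin_cases j <;> rfl
    have e2 : (fun j => (![1, U, U * V] : Fin (0 + 1 + 2) → GLm N (MonoidAlgebra B C))
        ((2 : Fin (0 + 1 + 2)).succAbove j)) = (![1, U] : Fin (0 + 1 + 1) → _) := by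
      funext j
      fin_cases j <;> rfl
    rw [qbd_t, Fin.sum_univ_three, e0, e1, e2, QC.t_inv, map_add, map_add, map_zsmul, map_zsmul,
      map_zsmul]
    unfold lamQ
    simp
    ring
  rw [e] at h
  have h' := (dvd_neg (α := B)).2 h
  have e' : -(lamQ p m d τ V - lamQ p m d τ (U * V) + lamQ p m d τ U) =
      lamQ p m d τ (U * V) - (lamQ p m d τ U + lamQ p m d τ V) := by ring
  rwa [e'] at h'

theorem lamQ_powR (hrm : r ≤ m) {d : C} (hroot : ∀ h : C, ¬ IsConj d (h ^ p ^ r))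
    {τ : (Fin (p ^ m) → C) → ZMod (p ^ m)}
    (hτ : IsTau p m r d τ) {N : ℕ} (U : GLm N (MonoidAlgebra B C)) (l : ℕ) :
    (p : B) ^ (m + (m - r + 1)) ∣ lamQ p m d τ (U ^ l) - l * lamQ p m d τ U := by
  induction l with
  | zero =>
    have h := (dvd_neg (α := B)).2 (lamQ_mulR (B := B) hrm hroot hτ (N := N) 1 1)
    have e : -(lamQ p m d τ ((1 : GLm N (MonoidAlgebra B C)) * 1) -
        (lamQ p m d τ (1 : GLm N (MonoidAlgebra B C)) +
          lamQ p m d τ (1 : GLm N (MonoidAlgebra B C)))) =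
        lamQ p m d τ (U ^ 0) - ((0 : ℕ) : B) * lamQ p m d τ U := by
      rw [mul_one, pow_zero, Nat.cast_zero]
      ring
    rwa [e] at h
  | succ l ih =>
    have h := dvd_add (lamQ_mulR hrm hroot hτ (U ^ l) U) ih
    have e : lamQ p m d τ (U ^ l * U) - (lamQ p m d τ (U ^ l) + lamQ p m d τ U) +
        (lamQ p m d τ (U ^ l) - l * lamQ p m d τ U) =
        lamQ p m d τ (U ^ (l + 1)) - ((l + 1 : ℕ) : B) * lamQ p m d τ U := by
      rw [pow_succ, Nat.cast_succ]
      ring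
    rwa [e] at h

end

end Pool.Agent.H39.CZ

end

section

/-!
# Project CZ: the value of the functional on `(1, U)` for an element without roots

`lamQ_leadN`, `lamQ_logN` (`H39/CZ/LamN.lean`) with the hypothesis `hroot : ∀ h, ¬ IsConj d (h ^ p ^ r)` in place of the bound
of the `p`-power torsion.
-/

set_option autoImplicit false

open Matrix

universe u v w

namespace Pool.Agent.H39.CZ

open Pool.Agent.H71.FQ Pool.Agent.H16.KN Pool.Agent.H39.KL

section

variable {C : Type u} [Group C] {B : Type v} [CommRing B] {p m r : ℕ} [Fact p.Prime]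

private theorem val_mapGL {B' : Type w} [CommRing B'] (f : B →+* B') {N : ℕ} (s : B)
    (A : Matrix (Fin N) (Fin N) (MonoidAlgebra B C)) (U : GLm N (MonoidAlgebra B C))
    (hU : U.val = 1 + s • A) :
    (mapGL (MonoidAlgebra.mapRingHom C f) N U).val =
      1 + f s • A.map (MonoidAlgebra.mapRingHom C f) := by
  classical
  rw [mapGL_val, hU]
  ext i j : 1
  rw [Matrix.map_apply, Matrix.add_apply, Matrix.add_apply, map_add, Matrix.smul_apply,
    Matrix.smul_apply, Matrix.map_apply]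
  congr 1
  · by_cases hij : i = j
    · subst hij
      rw [Matrix.one_apply_eq, Matrix.one_apply_eq, map_one]
    · rw [Matrix.one_apply_ne hij, Matrix.one_apply_ne hij, map_zero]
  · apply MonoidAlgebra.coeff_injective
    ext x
    rw [MonoidAlgebra.coeff_mapRingHom, MonoidAlgebra.coeff_smul, MonoidAlgebra.coeff_smul,
      Finsupp.smul_apply, Finsupp.smul_apply, MonoidAlgebra.coeff_mapRingHom, smul_eq_mul,
      smul_eq_mul, map_mul]

private theorem exists_unit {N : ℕ} (s : B) {n : ℕ} (hs : s ^ n = 0)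
    (A : Matrix (Fin N) (Fin N) (MonoidAlgebra B C)) :
    ∃ V : GLm N (MonoidAlgebra B C), V.val = 1 + s • A := by
  have h1 : IsNilpotent (s • A) := ⟨n, by rw [smul_pow, hs, zero_smul]⟩
  exact ⟨h1.isUnit_one_add.unit, rfl⟩

private theorem poly_split (g : Polynomial B) : ∃ (h : Polynomial B) (a b : B),
    g = (h * Polynomial.X + Polynomial.C b) * Polynomial.X + Polynomial.C a :=
  ⟨g.divX.divX, g.coeff 0, g.divX.coeff 0, by
    rw [Polynomial.divX_mul_X_add, Polynomial.divX_mul_X_add]⟩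

theorem lamQ_leadR [Fintype C] (hrm : r < m)
    {d : C} (hroot : ∀ h : C, ¬ IsConj d (h ^ p ^ r)) (hpd : p ∣ orderOf d)
    {τ : (Fin (p ^ m) → C) → ZMod (p ^ m)} (hτ : IsTau p m r d τ) {N k : ℕ} (hk : 0 < k)
    (A : Matrix (Fin N) (Fin N) (MonoidAlgebra B C)) (U : GLm N (MonoidAlgebra B C))
    (hU : U.val = 1 + ((p : B) ^ k) • A) :
    (p : B) ^ (2 * k + (m - r + 1)) ∣
      lamQ p m d τ U - (p : B) ^ (m + r) * ((p : B) ^ k * trs d A) := by
  obtain ⟨e, he⟩ : ∃ e, e = m - r + 1 := ⟨_, rfl⟩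
  obtain ⟨J, hJ⟩ : ∃ J, J = 2 * k + e + 2 := ⟨_, rfl⟩
  rw [← he]
  let R := Polynomial B ⧸ Ideal.span {(Polynomial.X : Polynomial B) ^ J}
  let q : Polynomial B →+* R := Ideal.Quotient.mk _
  let ξ : R := q Polynomial.X
  have hξ : ξ ^ J = 0 := by
    show q Polynomial.X ^ J = 0
    rw [← map_pow]
    exact Ideal.Quotient.eq_zero_iff_mem.2 (Ideal.subset_span rfl)
  let ι : B →+* R := q.comp Polynomial.C
  let AR : Matrix (Fin N) (Fin N) (MonoidAlgebra R C) := A.map (MonoidAlgebra.mapRingHom C ι)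
  obtain ⟨V, hV⟩ : ∃ V : GLm N (MonoidAlgebra R C), V.val = 1 + ξ • AR := exists_unit ξ hξ AR
  obtain ⟨μ, hμ⟩ := lamQ_dvdR (B := R) hrm.le hroot hτ V
  obtain ⟨g, hg⟩ : ∃ g, q g = μ := Ideal.Quotient.mk_surjective μ
  rw [← he] at hμ
  obtain ⟨h, a, b, hgab⟩ := poly_split g
  have key : ∀ (S : Type v) [CommRing S] (f : B →+* S) (s : S), s ^ J = 0 →
      ∀ W : GLm N (MonoidAlgebra S C), W.val = 1 + s • A.map (MonoidAlgebra.mapRingHom C f) →
      lamQ p m d τ W = (p : S) ^ e * ((Polynomial.eval₂ f s h * s + f b) * s + f a) := by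
    intro S _ f s hs W hW
    have hker : ∀ x ∈ Ideal.span {(Polynomial.X : Polynomial B) ^ J},
        Polynomial.eval₂RingHom f s x = 0 := by
      intro x hx
      obtain ⟨y, rfl⟩ := Ideal.mem_span_singleton'.1 hx
      rw [map_mul, map_pow, Polynomial.coe_eval₂RingHom, Polynomial.eval₂_X, hs, mul_zero]
    let ψ : R →+* S := Ideal.Quotient.lift _ (Polynomial.eval₂RingHom f s) hker
    have hψq : ∀ x, ψ (q x) = Polynomial.eval₂ f s x := fun x => Ideal.Quotient.lift_mk _ _ _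
    have hψξ : ψ ξ = s := (hψq _).trans (Polynomial.eval₂_X _ _)
    have hψι : ψ.comp ι = f := RingHom.ext fun x => (hψq _).trans (Polynomial.eval₂_C _ _)
    have hVW : mapGL (MonoidAlgebra.mapRingHom C ψ) N V = W := by
      apply Units.ext
      rw [val_mapGL ψ ξ AR V hV, hψξ, hW]
      congr 2
      ext i j y
      show (MonoidAlgebra.mapRingHom C ψ (MonoidAlgebra.mapRingHom C ι (A i j))).coeff y =
        (MonoidAlgebra.mapRingHom C f (A i j)).coeff y
      rw [MonoidAlgebra.coeff_mapRingHom, MonoidAlgebra.coeff_mapRingHom,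
        MonoidAlgebra.coeff_mapRingHom, ← hψι]
      rfl
    rw [← hVW, lamQ_map ψ hτ V, hμ, ← hg, map_mul, map_pow, map_natCast, hψq, hgab]
    simp only [Polynomial.eval₂_add, Polynomial.eval₂_mul, Polynomial.eval₂_X,
      Polynomial.eval₂_C]
  -- the dual numbers
  have hdual : (p : B) ^ e * a = 0 ∧ (p : B) ^ e * b = (p : B) ^ (m + r) * trs d A := by
    let f : B →+* DualNumber B := TrivSqZeroExt.inlHom B B
    have hε : (DualNumber.eps : DualNumber B) ^ 2 = 0 := by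
      rw [sq]
      exact DualNumber.eps_mul_eps
    have hεJ : (DualNumber.eps : DualNumber B) ^ J = 0 := by
      rw [hJ, pow_add, hε, mul_zero]
    obtain ⟨W, hW⟩ : ∃ W : GLm N (MonoidAlgebra (DualNumber B) C),
        W.val = 1 + (DualNumber.eps : DualNumber B) • A.map (MonoidAlgebra.mapRingHom C f) :=
      exists_unit _ hε _
    have h1 := key (DualNumber B) f DualNumber.eps hεJ W hW
    have h2 := lamQ_epsN (B := DualNumber B) hrm hpd hτ DualNumber.eps hε
      (A.map (MonoidAlgebra.mapRingHom C f)) W hW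
    rw [h2, trs_map] at h1
    have h3 : (Polynomial.eval₂ f (DualNumber.eps : DualNumber B) h * DualNumber.eps + f b) *
        DualNumber.eps + f a = f b * DualNumber.eps + f a := by
      rw [add_mul, mul_assoc, DualNumber.eps_mul_eps, mul_zero, zero_add]
    rw [h3] at h1
    have hp1 : (p : DualNumber B) = f (p : B) := (map_natCast f p).symm
    rw [hp1, ← map_pow, ← map_pow] at h1
    constructor
    · have h4 := congrArg TrivSqZeroExt.fst h1
      simpa [f] using h4.symm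
    · have h4 := congrArg TrivSqZeroExt.snd h1
      simpa [f] using h4.symm
  obtain ⟨h0, h1⟩ := hdual
  -- the quotient
  let I : Ideal B := Ideal.span {(p : B) ^ (k * J)}
  have hs : (Ideal.Quotient.mk I ((p : B) ^ k)) ^ J = 0 := by
    rw [← map_pow, ← pow_mul]
    exact Ideal.Quotient.eq_zero_iff_mem.2 (Ideal.subset_span rfl)
  have h2 := key (B ⧸ I) (Ideal.Quotient.mk I) (Ideal.Quotient.mk I ((p : B) ^ k)) hs
    (mapGL (MonoidAlgebra.mapRingHom C (Ideal.Quotient.mk I)) N U)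
    (val_mapGL (Ideal.Quotient.mk I) _ A U hU)
  rw [lamQ_map (Ideal.Quotient.mk I) hτ U] at h2
  have h3 : Polynomial.eval₂ (Ideal.Quotient.mk I) (Ideal.Quotient.mk I ((p : B) ^ k)) h =
      Ideal.Quotient.mk I (h.eval ((p : B) ^ k)) := by
    rw [Polynomial.eval₂_at_apply]
  have h4 : ((p : ℕ) : B ⧸ I) = Ideal.Quotient.mk I (p : B) := (map_natCast _ p).symm
  rw [h3, h4, ← map_pow, ← map_mul, ← map_add, ← map_mul, ← map_add, ← map_mul,
    Ideal.Quotient.mk_eq_mk_iff_sub_mem, Ideal.mem_span_singleton] at h2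
  have h5 : (p : B) ^ (2 * k + e) ∣ (p : B) ^ (k * J) := by
    refine pow_dvd_pow _ ?_
    calc 2 * k + e ≤ 1 * J := by omega
      _ ≤ k * J := Nat.mul_le_mul_right _ hk
  obtain ⟨x, hx⟩ := h5.trans h2
  refine ⟨x + h.eval ((p : B) ^ k), ?_⟩
  have e1 : (p : B) ^ (2 * k + e) = (p : B) ^ e * ((p : B) ^ k * (p : B) ^ k) := by
    rw [← pow_add, ← pow_add]
    congr 1
    omega
  rw [e1] at hx ⊢
  linear_combination hx + h0 + (p : B) ^ k * h1

/-- **The functional and the logarithm.** -/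
theorem lamQ_logR [Fintype C] (hrm : r < m)
    {d : C} (hroot : ∀ h : C, ¬ IsConj d (h ^ p ^ r)) (hpd : p ∣ orderOf d)
    {τ : (Fin (p ^ m) → C) → ZMod (p ^ m)} (hτ : IsTau p m r d τ) {N : ℕ}
    (A : Matrix (Fin N) (Fin N) (MonoidAlgebra B C)) (U : GLm N (MonoidAlgebra B C))
    (hU : U.val = 1 + ((p : B) ^ 2) • A) (l : ℕ) :
    ∃ x y : B, (p : B) ^ l * lamQ p m d τ U =
      (p : B) ^ (m + r) * trs d ((U ^ p ^ l : GLm N (MonoidAlgebra B C)).val - 1) +
        (p : B) ^ (2 * l + (m - r + 1)) * x + (p : B) ^ (m + (m - r + 1)) * y := by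
  classical
  have hns : ∀ (n : ℕ) (M : Matrix (Fin N) (Fin N) (MonoidAlgebra B C)),
      (p ^ n : ℕ) • M = ((p : B) ^ n) • M := by
    intro n M
    rw [← Nat.cast_pow, Nat.cast_smul_eq_nsmul]
  obtain ⟨A', hA'⟩ := pow_congr_one (p := p) (le_refl 2) l U.val A (by rw [hU, hns])
  have hUl : (U ^ p ^ l : GLm N (MonoidAlgebra B C)).val = 1 + ((p : B) ^ (2 + l)) • A' := by
    rw [Units.val_pow_eq_pow_val, hA', hns]
  obtain ⟨x, hx⟩ := lamQ_leadR hrm hroot hpd hτ (by omega : 0 < 2 + l) A' _ hUl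
  obtain ⟨y, hy⟩ := lamQ_powR hrm.le hroot hτ U (p ^ l)
  have htr : trs d ((U ^ p ^ l : GLm N (MonoidAlgebra B C)).val - 1) =
      (p : B) ^ (2 + l) * trs d A' := by
    rw [hUl, add_sub_cancel_left]
    unfold trs
    rw [Finset.mul_sum]
    refine Finset.sum_congr rfl fun x _ => ?_
    rw [mul_ite, mul_zero]
    congr 1
    unfold Matrix.trace
    rw [Finset.mul_sum]
    rfl
  refine ⟨(p : B) ^ 4 * x, -y, ?_⟩
  rw [htr]
  rw [Nat.cast_pow] at hy
  have e1 : (p : B) ^ (2 * (2 + l) + (m - r + 1)) =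
      (p : B) ^ (2 * l + (m - r + 1)) * (p : B) ^ 4 := by
    rw [← pow_add]
    congr 1
    omega
  rw [e1] at hx
  linear_combination hx - hy

end

end Pool.Agent.H39.CZ

end
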