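import Pool.Agent.H71.TCZ.H16.CZ.NuR
import Pool.Agent.H71.TCZ.H39.CZ.ValN
import Pool.Agent.H71.TCZ.M63
import Pool.Agent.H71.TCZ.M69
import Pool.Agent.H71.TCZ.M77
import Pool.Agent.H71.TCZ.M81
import Pool.Agent.H71.TCZ.M82
import Pool.Agent.H71.TCZ.M83

/-! The parts of this file: H39.CZ.RelR, H39.CZ.RelCR, H39.CZ.OrbR, H71.CZ.RelVR, H16.CZ.T1, H39.CZ.MainR. -/

section

/-!
# Project CZ: the relation of the logarithms over `B` for an element without roots

`relN'`: as `relN` (`H39/CZ/RelN.lean`), with the hypothesis that no conjugate of `c` is a `p ^ r`-th power in place of the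
bound of the `p`-power torsion of `G`.
-/

set_option autoImplicit false

open Matrix

universe u v w

namespace Pool.Agent.H39.CZ

open Pool.Agent.H71.FQ Pool.Agent.H16.KN Pool.Agent.H16.FU Pool.Agent.H39.KL
open Pool.Agent.H95.WH (K1 K1.unit)

section

variable {G : Type u} [Group G] {H : Type w} [Group H] {B : Type v} [CommRing B]

/-- **Elements which come from a subgroup.**  If `X` is the image of an element of `KQ (B[H])` and no conjugate of `c` is in
the image of `H`, then the functional of `c` is divisible by `p ^ (m + (m - r + 1))` on the chains which represent `X`. -/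
theorem relKR {k : ℕ} {p : ℕ} [Fact p.Prime] (m r : ℕ) (hrm : r ≤ m)
    {c : G} (hroot : ∀ h : G, ¬ IsConj c (h ^ p ^ r)) {ψ : (Fin (k + 1) → Fin (p ^ m) → G) → B} (h1 : CIq c (p ^ m) ψ)
    (h2 : RIq c (p ^ m) ψ) (h3 : ∀ v, dl ψ v = 0) {τ : (Fin (p ^ m) → G) → ZMod (p ^ m)}
    (hτ : IsTau p m r c τ) (e : H →* G) (he : ∀ (u : G) (h : H), u * e h * u⁻¹ ≠ c)
    (X : KQ (MonoidAlgebra B H) k) (x : QC (MonoidAlgebra B G) (k + 1))
    (hx : ofKQ (KQ.map (MonoidAlgebra.mapDomainRingHom B e) X) = QH.mk x) :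
    (p : B) ^ (m + (m - r + 1)) ∣ TR (p ^ m) c (phiG ψ τ) x := by
  obtain ⟨y, hy⟩ := ofKQ_map (MonoidAlgebra.mapDomainRingHom B e) X
  have h4 : QH.mk (x - QC.map (MonoidAlgebra.mapDomainRingHom B e) y) = 0 := by
    rw [map_sub, ← hx, hy, sub_self]
  obtain ⟨w, hw⟩ := QH.mk_eq_zero.1 h4
  have hs : x = QC.map (MonoidAlgebra.mapDomainRingHom B e) y + qbd w := by
    rw [hw]
    abel
  have : NeZero (p ^ m) := ⟨pow_ne_zero m (Fact.out : p.Prime).ne_zero⟩
  rw [hs, map_add, TR_kill (p ^ m) e he (CIq_phiG h1 hτ), zero_add]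
  exact bd_dvdR m r hrm hroot h1 h2 h3 hτ w

end

section

variable {G : Type u} [Group G] {B : Type} [CommRing B] {n : ℕ}

private theorem rb_arith [IsDomain B] [CharZero B] {p : ℕ} [Fact p.Prime] (r l : ℕ) (M : ℤ)
    (μ k : ℕ) (S Λ x y : B)
    (h1 : (p : B) ^ l * Λ = (p : B) ^ (2 * l + r + 1 + r) * S +
      (p : B) ^ (2 * l + (2 * l + r + 1 - r + 1)) * x +
      (p : B) ^ (2 * l + r + 1 + (2 * l + r + 1 - r + 1)) * y)
    (h2 : (p : B) ^ (2 * l + r + 1 + (2 * l + r + 1 - r + 1)) ∣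
      (M : B) * ((-1) ^ (k + 1) * ((μ : B) ^ (k + 2) * Λ))) :
    (p : B) ^ (2 * l) ∣ ((M.natAbs * μ ^ (k + 2) * p ^ (2 * r) : ℕ) : B) * S := by
  have hp0 : (p : B) ≠ 0 := Nat.cast_ne_zero.2 (Fact.out : p.Prime).ne_zero
  rw [show 2 * l + r + 1 - r + 1 = 2 * l + 2 by omega] at h1 h2
  obtain ⟨q, hq⟩ := h2
  have hs : ((-1 : B) ^ (k + 1)) * (-1) ^ (k + 1) = 1 := by
    rw [← mul_pow, neg_one_mul, neg_neg, one_pow]
  have hT : (M : B) * ((μ : B) ^ (k + 2) * Λ) =
      (-1) ^ (k + 1) * ((p : B) ^ (2 * l + r + 1 + (2 * l + 2)) * q) := by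
    rw [← hq]
    calc (M : B) * ((μ : B) ^ (k + 2) * Λ) =
        (((-1 : B) ^ (k + 1)) * (-1) ^ (k + 1)) * ((M : B) * ((μ : B) ^ (k + 2) * Λ)) := by
          rw [hs, one_mul]
      _ = _ := by ring
  have hc : (p : B) ^ (2 * l + 1) * ((p : B) ^ (2 * r) * ((M : B) * ((μ : B) ^ (k + 2) * S))) =
      (p : B) ^ (2 * l + 1) * ((p : B) ^ (2 * l) * ((p : B) * ((p : B) ^ (l + r + 1) *
        ((-1) ^ (k + 1) * q) - (M : B) * (μ : B) ^ (k + 2) * x -
          (p : B) ^ (r + 1) * ((M : B) * (μ : B) ^ (k + 2) * y)))) := by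
    have e1 : (p : B) ^ (2 * l + 1) * ((p : B) ^ (2 * r) * ((M : B) * ((μ : B) ^ (k + 2) * S))) =
        (M : B) * (μ : B) ^ (k + 2) * ((p : B) ^ (2 * l + r + 1 + r) * S) := by ring
    have e2 : (p : B) ^ (2 * l + r + 1 + r) * S = (p : B) ^ l * Λ -
      (p : B) ^ (2 * l + (2 * l + 2)) * x -
      (p : B) ^ (2 * l + r + 1 + (2 * l + 2)) * y := by
      rw [h1]
      ring
    rw [e1, e2]
    calc (M : B) * (μ : B) ^ (k + 2) * ((p : B) ^ l * Λ -
          (p : B) ^ (2 * l + (2 * l + 2)) * x - (p : B) ^ (2 * l + r + 1 + (2 * l + 2)) * y) =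
        (p : B) ^ l * ((M : B) * ((μ : B) ^ (k + 2) * Λ)) -
          (M : B) * (μ : B) ^ (k + 2) * ((p : B) ^ (2 * l + (2 * l + 2)) * x +
            (p : B) ^ (2 * l + r + 1 + (2 * l + 2)) * y) := by ring
      _ = _ := by
        rw [hT]
        ring
  have hd : (p : B) ^ (2 * r) * ((M : B) * ((μ : B) ^ (k + 2) * S)) =
      (p : B) ^ (2 * l) * ((p : B) * ((p : B) ^ (l + r + 1) *
        ((-1) ^ (k + 1) * q) - (M : B) * (μ : B) ^ (k + 2) * x -
          (p : B) ^ (r + 1) * ((M : B) * (μ : B) ^ (k + 2) * y))) :=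
    mul_left_cancel₀ (pow_ne_zero _ hp0) hc
  have he : (p : B) ^ (2 * l) ∣ (M : B) * (((μ : B) ^ (k + 2) * (p : B) ^ (2 * r)) * S) :=
    ⟨_, by rw [← hd]; ring⟩
  have hf : (p : B) ^ (2 * l) ∣ ((M.natAbs : ℕ) : B) *
      (((μ : B) ^ (k + 2) * (p : B) ^ (2 * r)) * S) := by
    rcases Int.natAbs_eq M with h | h
    · rw [h, Int.cast_natCast] at he
      exact he
    · rw [h, Int.cast_neg, Int.cast_natCast, neg_mul, dvd_neg] at he
      exact he
  push_cast
  rw [mul_assoc, mul_assoc, ← mul_assoc ((μ : B) ^ (k + 2))]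
  exact hf

/-- the `1 × 1` matrix of a unit -/
private noncomputable def rb_U {R : Type*} [Ring R] (w : Rˣ) : GLm 1 R :=
  Units.map (Matrix.scalar (Fin 1)).toMonoidHom w

private theorem rb_U_apply {R : Type*} [Ring R] (w : Rˣ) (i j : Fin 1) :
    (rb_U w).val i j = (w : R) := by
  rw [Subsingleton.elim j i]
  exact Matrix.diagonal_apply_eq _ i

private theorem rb_U_pow {R : Type*} [Ring R] (w : Rˣ) (k : ℕ) : rb_U w ^ k = rb_U (w ^ k) :=
  (map_pow (Units.map (Matrix.scalar (Fin 1) : R →+* Matrix (Fin 1) (Fin 1) R).toMonoidHom)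
    w k).symm

private theorem rb_U_val {D : Type u} [Group D] (w : (MonoidAlgebra B D)ˣ) (q : B)
    (a : MonoidAlgebra B D) (h : (w : MonoidAlgebra B D) = 1 + q • a) :
    (rb_U w).val = 1 + q • (Matrix.of fun _ _ : Fin 1 => a) := by
  refine Matrix.ext fun i j => ?_
  rw [rb_U_apply, h, Subsingleton.elim j i, Matrix.add_apply, Matrix.one_apply_eq,
    Matrix.smul_apply, Matrix.of_apply]

open Classical in
private theorem rb_trace {D : Type u} [Group D] [Fintype D] (w : (MonoidAlgebra B D)ˣ) (k : ℕ)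
    (d : D) : trs d ((rb_U w ^ k : GLm 1 (MonoidAlgebra B D)).val - 1) =
      ∑ x : D, if IsConj d x then ((w : MonoidAlgebra B D) ^ k - 1).coeff x else 0 := by
  unfold trs
  refine Finset.sum_congr rfl fun x _ => ?_
  congr 1
  rw [rb_U_pow, Matrix.trace_fin_one]
  show (((rb_U (w ^ k)).val - 1) 0 0).coeff x = _
  rw [Matrix.sub_apply, rb_U_apply, Matrix.one_apply_eq, Units.val_pow_eq_pow_val]

private theorem rb_gasm (D : Subgroup G) (w : (MonoidAlgebra B D)ˣ)
    (z : cyc (Subgroup.centralizer (D : Set G)) n) :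
    ofKQ (gasm1 B n D.subtype (Subgroup.centralizer (D : Set G)).subtype (cent_comm D)
        (K1.unit w) (HG.mk z)) =
      QH.mk (ch 1 (prUz B D (rb_U w)
        (z : Cx ℤ (Subgroup.centralizer (D : Set G)) (n + 1)))) := by
  rw [gasm1, K1.unit, asm1_mk, HG.cr_mk, ofKQ_cls]
  rfl

private theorem rb_log {p : ℕ} [Fact p.Prime] (r l : ℕ)
    {c : G} (hroot : ∀ h : G, ¬ IsConj c (h ^ p ^ r)) (hpc : p ∣ orderOf c) {φ : (Fin (n + 2) → Subgroup.centralizer ({c} : Set G)) → B}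
    (hφ : IsCoc (Subgroup.centralizer ({c} : Set G)) n φ)
    {τ : (Fin (p ^ (2 * l + r + 1)) → G) → ZMod (p ^ (2 * l + r + 1))}
    (hτ : IsTau p (2 * l + r + 1) r c τ) (D : Subgroup G) [Fintype D]
    (w : (MonoidAlgebra B D)ˣ)
    (hw : ∃ a : MonoidAlgebra B D, (w : MonoidAlgebra B D) = 1 + ((p : B) ^ 2) • a)
    (z : HG (Subgroup.centralizer (D : Set G)) n) (d : D) :
    ∃ x y : B, (p : B) ^ l * (HG.ev hφ (trc n c D d z) *
        lamQ p (2 * l + r + 1) d (tauC τ c d) (rb_U w)) =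
      (p : B) ^ (2 * l + r + 1 + r) * (HG.ev hφ (trc n c D d z) *
        trs d ((rb_U w ^ p ^ l : GLm 1 (MonoidAlgebra B D)).val - 1)) +
      (p : B) ^ (2 * l + (2 * l + r + 1 - r + 1)) * x +
      (p : B) ^ (2 * l + r + 1 + (2 * l + r + 1 - r + 1)) * y := by
  by_cases hd : IsConj c (d : G)
  · obtain ⟨a, ha⟩ := hw
    have hpd : p ∣ orderOf d := by
      rw [← orderOf_injective D.subtype D.subtype_injective d]
      obtain ⟨g, hg⟩ := isConj_iff.1 hd
      have e : (D.subtype d : G) = g * c * g⁻¹ := hg.symm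
      rw [e, ← MulAut.conj_apply, ← MulEquiv.coe_toMonoidHom,
        orderOf_injective _ (MulAut.conj g).injective c]
      exact hpc
    have hrD : ∀ h : D, ¬ IsConj d (h ^ p ^ r) := by
      intro h hh
      obtain ⟨v, hv⟩ := isConj_iff.1 hh
      refine hroot (h : G) (hd.trans (isConj_iff.2 ⟨(v : G), ?_⟩))
      rw [← Subgroup.coe_pow, ← hv]
      rfl
    obtain ⟨x, y, hxy⟩ := lamQ_logR (by omega) hrD hpd (isTau_tauC hτ d hd)
      (Matrix.of fun _ _ : Fin 1 => a) (rb_U w) (rb_U_val w _ a ha) l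
    refine ⟨HG.ev hφ (trc n c D d z) * x, HG.ev hφ (trc n c D d z) * y, ?_⟩
    calc (p : B) ^ l * (HG.ev hφ (trc n c D d z) *
          lamQ p (2 * l + r + 1) d (tauC τ c d) (rb_U w)) =
        HG.ev hφ (trc n c D d z) * ((p : B) ^ l *
          lamQ p (2 * l + r + 1) d (tauC τ c d) (rb_U w)) := by ring
      _ = _ := by
        rw [hxy]
        ring
  · refine ⟨0, 0, ?_⟩
    rw [trc_of_not hd, AddMonoidHom.zero_apply, map_zero]
    ring

/-- the sum over the representatives -/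
private theorem rb_sum {c : G} {φ : (Fin (n + 2) → Subgroup.centralizer ({c} : Set G)) → B}
    (hφ : IsCoc (Subgroup.centralizer ({c} : Set G)) n φ) (D : Subgroup G) [Fintype D]
    {T : Finset D} (hT : Reps T) (w : (MonoidAlgebra B D)ˣ) (k : ℕ)
    (z : HG (Subgroup.centralizer (D : Set G)) n) :
    ∑ d ∈ T, HG.ev hφ (trc n c D d z) *
        trs d ((rb_U w ^ k : GLm 1 (MonoidAlgebra B D)).val - 1) =
      ∑ d : D, HG.ev hφ (trc n c D d z) * (((w : MonoidAlgebra B D) ^ k - 1).coeff d) := by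
  classical
  simp only [rb_trace, Finset.mul_sum]
  rw [Finset.sum_comm]
  refine Finset.sum_congr rfl fun x _ => ?_
  obtain ⟨d, hdT, hd, hun⟩ := hT x
  rw [Finset.sum_eq_single_of_mem d hdT, if_pos hd, trc_conj hd]
  intro d' hd' hne
  rw [if_neg, mul_zero]
  intro h
  exact hne (hun d' hd' h)

/-- **The relation of the logarithms, modulo the image of a subgroup without conjugates of `c`.** -/
theorem relN' [IsDomain B] [CharZero B] {p : ℕ} [Fact p.Prime] (r : ℕ) {c : G}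
    (hroot : ∀ h : G, ¬ IsConj c (h ^ p ^ r)) (hpc : p ∣ orderOf c) {π : G → Subgroup.centralizer ({c} : Set G)}
    (hπ : ∀ (z : Subgroup.centralizer ({c} : Set G)) (g : G), π (z * g) = z * π g)
    {φ : (Fin (n + 2) → Subgroup.centralizer ({c} : Set G)) → B}
    (hφ : IsCoc (Subgroup.centralizer ({c} : Set G)) n φ) (hmeas : Meas p c π φ)
    {ι : Type} [Fintype ι] (C : ι → Subgroup G) [∀ i, Fintype (C i)]
    (u : ∀ i, (MonoidAlgebra B (C i))ˣ)
    (hu : ∀ i, ∃ a : MonoidAlgebra B (C i),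
      (u i : MonoidAlgebra B (C i)) = 1 + ((p : B) ^ 2) • a)
    (z : ∀ i, HG (Subgroup.centralizer (C i : Set G)) n)
    {H : Type w} [Group H] (e : H →* G) (he : ∀ (v : G) (h : H), v * e h * v⁻¹ ≠ c)
    (X : KQ (MonoidAlgebra B H) (n + 1)) (M : ℤ) (hM : M ≠ 0)
    (h : M • ∑ i, gasm1 B n (C i).subtype (Subgroup.centralizer (C i : Set G)).subtype
        (cent_comm (C i)) (K1.unit (u i)) (z i) =
      KQ.map (MonoidAlgebra.mapDomainRingHom B e) X) :
    ∃ K : ℕ, K ≠ 0 ∧ ∀ l : ℕ, (p : B) ^ (2 * l) ∣ (K : B) *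
      ∑ i, ∑ d : C i, HG.ev hφ (trc n c (C i) d (z i)) *
        (((u i : MonoidAlgebra B (C i)) ^ p ^ l - 1).coeff d) := by
  classical
  have hp : p.Prime := Fact.out
  obtain ⟨μ, hμ, hm⟩ := hmeas
  refine ⟨M.natAbs * μ ^ (n + 2) * p ^ (2 * r), mul_ne_zero (mul_ne_zero
    (Int.natAbs_ne_zero.2 hM) (pow_ne_zero _ hμ)) (pow_ne_zero _ hp.ne_zero), fun l => ?_⟩
  obtain ⟨ψ, β, h1, h2, h3, h4, h5⟩ := hm (2 * l + r + 1)
  obtain ⟨τ, hτ⟩ := exists_tauR hp (2 * l + r + 1) r hroot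
  choose z' hz' using fun i => HG.mk_surjective (z i)
  choose T hT using fun i => exists_reps (C i)
  have hX : ofKQ (KQ.map (MonoidAlgebra.mapDomainRingHom B e) X) =
      QH.mk (M • ∑ i, ch 1 (prUz B (C i) (rb_U (u i))
          (z' i : Cx ℤ (Subgroup.centralizer (C i : Set G)) (n + 1)))) := by
    rw [← h, map_zsmul, map_zsmul, map_sum, map_sum]
    congr 1
    refine Finset.sum_congr rfl fun i _ => ?_
    rw [← hz' i, rb_gasm]
  have key := relKR (2 * l + r + 1) r (by omega) hroot h1 h2 h3 hτ e he X _ hX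
  have hval : ∀ i, TR (p ^ (2 * l + r + 1)) c (phiG ψ τ) (ch 1 (prUz B (C i) (rb_U (u i))
      (z' i : Cx ℤ (Subgroup.centralizer (C i : Set G)) (n + 1)))) =
      (-1) ^ (n + 1) * ((μ : B) ^ (n + 2) * ∑ d ∈ T i, HG.ev hφ (trc n c (C i) d (z i)) *
        lamQ p (2 * l + r + 1) d (tauC τ c d) (rb_U (u i))) := by
    intro i
    rw [val_unitN (C i) (hT i) hπ hφ h1 h4 h5 hτ 1 (rb_U (u i)) (z' i), hz' i]
  rw [map_zsmul, map_sum,
    Finset.sum_congr rfl fun i _ => hval i, ← Finset.mul_sum, ← Finset.mul_sum,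
    zsmul_eq_mul] at key
  choose x y hxy using fun i => rb_log r l hroot hpc hφ hτ (C i) (u i) (hu i) (z i)
  have hS : ∑ i, ∑ d : C i, HG.ev hφ (trc n c (C i) d (z i)) *
        (((u i : MonoidAlgebra B (C i)) ^ p ^ l - 1).coeff d) =
      ∑ i, ∑ d ∈ T i, HG.ev hφ (trc n c (C i) d (z i)) *
        trs d ((rb_U (u i) ^ p ^ l : GLm 1 (MonoidAlgebra B (C i))).val - 1) :=
    Finset.sum_congr rfl fun i _ => (rb_sum hφ (C i) (hT i) (u i) (p ^ l) (z i)).symm
  rw [hS]
  refine rb_arith r l M μ n _ _ (∑ i, ∑ d ∈ T i, x i d) (∑ i, ∑ d ∈ T i, y i d) ?_ key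
  simp only [Finset.mul_sum, ← Finset.sum_add_distrib]
  refine Finset.sum_congr rfl fun i _ => ?_
  refine Finset.sum_congr rfl fun d _ => ?_
  exact hxy i d

end

end Pool.Agent.H39.CZ

end

section

/-!
# Project CZ: the relation of the logarithms for elements `c` of arbitrary finite order, without a bound of the torsion

`hat p c` is not conjugate to a `p`-th power (`noRoot_hat`): its image in `C_p` is a generator.  So `relN'` applies with `r = 1`
and no bound of the `p`-power torsion of `G` is needed.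
-/

set_option autoImplicit false

open Matrix

universe u v w

namespace Pool.Agent.H39.CZ

open Pool.Agent.H71.FQ Pool.Agent.H16.KN Pool.Agent.H16.FU Pool.Agent.H71.CZ
open Pool.Agent.H95.WH (K1 K1.unit)
open Pool.Agent.H16.CZ (meas_of_root)

section

variable {p : ℕ} [hp : Fact p.Prime] {B : Type} [CommRing B] {G : Type v} [Group G] {n : ℕ}

/-- No conjugate of `hat p c` is a `p`-th power. -/
theorem noRoot_hat (c : G) (h : Wr p G) : ¬ IsConj (hat p c) (h ^ p ^ 1) := by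
  intro hh
  obtain ⟨v, hv⟩ := isConj_iff.1 hh
  have h1 := congrArg (SemidirectProduct.rightHom) hv
  rw [pow_one, map_mul, map_mul, map_inv, map_pow, right_hat, mul_comm, inv_mul_cancel_left] at h1
  apply ofAdd_one_ne (p := p)
  rw [h1]
  have h2 : ∀ x : Multiplicative (ZMod p), x ^ p = 1 := by
    intro x
    apply Multiplicative.toAdd.injective
    rw [toAdd_pow, nsmul_eq_mul, ZMod.natCast_self, zero_mul]
    rfl
  exact h2 _

open Classical in
/-- **The relation.** -/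
theorem relC' [IsDomain B] [CharZero B] (hB : GoodB p B) {c : G} (hc : IsOfFinOrder c)
    {φ : (Fin (n + 2) → Subgroup.centralizer ({c} : Set G)) → B}
    (hφ : IsCoc (Subgroup.centralizer ({c} : Set G)) n φ)
    {ι : Type} [Fintype ι] (C : ι → Subgroup G) [∀ i, Fintype (C i)]
    (hC : ∀ i, ∀ a b : C i, a * b = b * a) (u : ∀ i, (MonoidAlgebra B (C i))ˣ)
    (hu : ∀ i, ∃ a : MonoidAlgebra B (C i),
      (u i : MonoidAlgebra B (C i)) = 1 + (p : MonoidAlgebra B (C i)) ^ 4 * a)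
    (z : ∀ i, HG (Subgroup.centralizer (C i : Set G)) n) (M : ℤ) (hM : M ≠ 0)
    (h : M • ∑ i, gasm1 B n (C i).subtype (Subgroup.centralizer (C i : Set G)).subtype
        (cent_comm (C i)) (K1.unit (u i)) (z i) = 0) :
    ∃ K : ℕ, K ≠ 0 ∧ ∀ l : ℕ, (p : B) ^ (2 * l) ∣ (K : B) *
      ∑ i, ∑ d : C i, HG.ev hφ (trc n c (C i) d (z i)) *
        ((((u i : MonoidAlgebra B (C i)) ^ p ^ l) ^ p).coeff d -
          ∑ g : C i with g ^ p = d, ((u i : MonoidAlgebra B (C i)) ^ p ^ l).coeff g) := by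
  choose a ha using hu
  choose uD hprU X hX using fun i => exists_uD hB (u i) (a i) (ha i)
  obtain ⟨k, Y, hk, hY⟩ := rel_hat hB C u uD hprU z M hM h
  obtain ⟨π, hπ⟩ := exists_pi (hat p c)
  have hcc := isOfFinOrder_hat (p := p) hc
  have hφ' := isCoc_hatF (p := p) hφ
  have hmeas := meas_of_root hp.out 1 (noRoot_hat c) hcc π hπ hφ'
  let hft : ∀ i, Fintype (hatS p (C i)) := fun i => Fintype.ofFinite _
  obtain ⟨K, hK, hdvd⟩ := relN' 1 (noRoot_hat c) (dvd_orderOf_hat hc) hπ hφ' hmeas (fun i => hatS p (C i))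
    (fun i => hatU (C i) (uD i)) (fun i => hatU_cong (C i) (uD i) (X i) (hX i))
    (fun i => HG.map n (dgC p (C i)) (z i)) (inc p G)
    (fun v g hv => hat_conj_notMem c v⁻¹ g (by rw [← hv]; group)) Y k hk hY
  refine ⟨K, hK, fun l => ?_⟩
  have h1 := hdvd l
  rw [Finset.sum_congr rfl fun i _ => sum_hat hB hφ (C i) (hC i) (u i) (uD i) (hprU i) (p ^ l) (z i)] at h1
  exact h1

end

end Pool.Agent.H39.CZ

end

section

/-!
# Project CZ: the orbit of `c` under the `p`-th power map, without a bound of the torsion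

`relO'`: as `relO` (`H71/CZ/Orb.lean`), by `relC'`.
-/

set_option autoImplicit false

open Matrix

universe u v w

namespace Pool.Agent.H39.CZ

open Pool.Agent.H71.FQ Pool.Agent.H16.KN Pool.Agent.H16.FU Pool.Agent.H71.CZ
open Pool.Agent.H95.WH (K1 K1.unit)

section

variable {p : ℕ} [hp : Fact p.Prime] {G : Type v} [Group G] {n : ℕ}

private theorem trc_pow {c c' : G} {k k' : ℕ} (hc : c' ^ k = c) (hc' : c ^ k' = c') {C : Subgroup G}
    (d : C) (hd : (d ^ k) ^ k' = d)
    (hle : Subgroup.centralizer ({c'} : Set G) ≤ Subgroup.centralizer ({c} : Set G))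
    (z : HG (Subgroup.centralizer (C : Set G)) n) :
    HG.map n (Subgroup.inclusion hle) (trc n c' C d z) = trc n c C (d ^ k) z := by
  by_cases h : IsConj c' (d : G)
  · obtain ⟨x, hx⟩ := isConj_iff.1 h
    have hm' : x * c' * x⁻¹ ∈ C := by
      rw [hx]
      exact d.2
    have hx' : x * c * x⁻¹ = ((d ^ k : C) : G) := by
      rw [Subgroup.coe_pow, ← hx, ← hc, conj_pow]
    have hm : x * c * x⁻¹ ∈ C := by
      rw [hx']
      exact (d ^ k).2
    rw [trc_eq x hx hm', trc_eq x hx' hm, HG.map_map]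
    rfl
  · have h' : ¬ IsConj c ((d ^ k : C) : G) := by
      intro h1
      apply h
      obtain ⟨x, hx⟩ := isConj_iff.1 h1
      refine isConj_iff.2 ⟨x, ?_⟩
      rw [← hc', ← conj_pow, hx, ← Subgroup.coe_pow, hd]
    rw [trc_of_not h, trc_of_not h', AddMonoidHom.zero_apply, AddMonoidHom.zero_apply, map_zero]

/-- the two sums -/
private theorem sum_two {C : Type w} [Group C] [Fintype C] (dec : ∀ d g : C, Decidable (g ^ p = d))
    (F : C → ℤ_[p]) (v : MonoidAlgebra ℤ_[p] C) :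
    ∑ d : C, F d * ((v ^ p).coeff d - ∑ g : C with g ^ p = d, v.coeff g) =
      ∑ d : C, F d * (v ^ p - 1).coeff d - ∑ d : C, F (d ^ p) * (v - 1).coeff d := by
  have h1 : ∀ H : C → ℤ_[p], ∑ d : C, H d * (1 : MonoidAlgebra ℤ_[p] C).coeff d = H 1 := by
    intro H
    rw [Finset.sum_eq_single 1]
    · rw [MonoidAlgebra.one_def, MonoidAlgebra.coeff_single, Finsupp.single_eq_same, mul_one]
    · intro d _ hd
      rw [MonoidAlgebra.one_def, MonoidAlgebra.coeff_single, Finsupp.single_eq_of_ne hd, mul_zero]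
    · intro h
      exact absurd (Finset.mem_univ _) h
  have h2 : ∑ d : C, F d * ∑ g : C with g ^ p = d, v.coeff g = ∑ g : C, F (g ^ p) * v.coeff g := by
    simp only [Finset.sum_filter, Finset.mul_sum]
    rw [Finset.sum_comm]
    refine Finset.sum_congr rfl fun g _ => ?_
    rw [Finset.sum_eq_single (g ^ p)]
    · rw [if_pos rfl]
    · intro d _ hd
      rw [if_neg hd.symm, mul_zero]
    · intro h
      exact absurd (Finset.mem_univ _) h
  simp only [mul_sub, MonoidAlgebra.coeff_sub, Finsupp.sub_apply, Finset.sum_sub_distrib]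
  rw [h1, h1 fun d => F (d ^ p), h2, one_pow]
  ring

/-- **The relation of the logarithms.** -/
theorem relO' {c : G} (hc : IsOfFinOrder c)
    (hpc : ¬ p ∣ orderOf c) (ψ : HG (Subgroup.centralizer ({c} : Set G)) n →+ ℤ_[p])
    {ι : Type} [Fintype ι] (C : ι → Subgroup G) [∀ i, Fintype (C i)]
    (hC : ∀ i, ∀ a b : C i, a * b = b * a) (hpC : ∀ i, ¬ p ∣ Nat.card (C i))
    (u : ∀ i, (MonoidAlgebra ℤ_[p] (C i))ˣ)
    (hu : ∀ i, ∃ a : MonoidAlgebra ℤ_[p] (C i),
      (u i : MonoidAlgebra ℤ_[p] (C i)) = 1 + (p : MonoidAlgebra ℤ_[p] (C i)) ^ 4 * a)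
    (z : ∀ i, HG (Subgroup.centralizer (C i : Set G)) n) (M : ℤ) (hM : M ≠ 0)
    (h : M • ∑ i, gasm1 ℤ_[p] n (C i).subtype (Subgroup.centralizer (C i : Set G)).subtype
        (cent_comm (C i)) (K1.unit (u i)) (z i) = 0) :
    ∃ K : ℕ, K ≠ 0 ∧ ∀ l : ℕ, (p : ℤ_[p]) ^ (2 * l) ∣ (K : ℤ_[p]) *
      ∑ i, ∑ d : C i, ψ (trc n c (C i) d (z i)) *
        ((u i : MonoidAlgebra ℤ_[p] (C i)) ^ p ^ l - 1).coeff d := by
  classical
  obtain ⟨φ, hφ, hev⟩ := exists_cocycle p ψ
  obtain ⟨N, hN⟩ : ∃ N, N = orderOf c * ∏ i, Nat.card (C i) := ⟨_, rfl⟩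
  have hcop : Nat.Coprime p N := by
    rw [hN]
    refine Nat.Coprime.mul_right ((Nat.Prime.coprime_iff_not_dvd hp.out).2 hpc) ?_
    exact Nat.Coprime.prod_right fun i _ => (Nat.Prime.coprime_iff_not_dvd hp.out).2 (hpC i)
  have hN0 : 0 < N := by
    rw [hN]
    exact Nat.mul_pos hc.orderOf_pos (Finset.prod_pos fun i _ => Nat.card_pos)
  obtain ⟨s, hs⟩ : ∃ s, s = Nat.totient N := ⟨_, rfl⟩
  have hs0 : s ≠ 0 := by
    rw [hs]
    exact (Nat.totient_pos.2 hN0).ne'
  have hmod : p ^ s ≡ 1 [MOD N] := by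
    rw [hs]
    exact Nat.ModEq.pow_totient hcop
  have hfixc : ∀ k, k ≡ 1 [MOD N] → c ^ k = c := by
    intro k hk
    have h1 : c ^ k = c ^ 1 := pow_eq_pow_iff_modEq.2 (hk.of_dvd (by rw [hN]; exact Dvd.intro _ rfl))
    rwa [pow_one] at h1
  have hfixC : ∀ i (d : C i) k, k ≡ 1 [MOD N] → d ^ k = d := by
    intro i d k hk
    have h1 : d ^ k = d ^ 1 := by
      refine pow_eq_pow_iff_modEq.2 (hk.of_dvd ((orderOf_dvd_natCard d).trans ?_))
      rw [hN]
      exact (Finset.dvd_prod_of_mem (fun i => Nat.card (C i)) (Finset.mem_univ i)).mul_left _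
    rwa [pow_one] at h1
  let L : ℕ → ℕ → ℤ_[p] := fun j l => ∑ i, ∑ d : C i, ψ (trc n c (C i) (d ^ p ^ j) (z i)) *
    ((u i : MonoidAlgebra ℤ_[p] (C i)) ^ p ^ l - 1).coeff d
  have key := orb_fix p L ?_ ?_ s hp.out.two_le hs0 ?_
  · obtain ⟨K, hK0, hK⟩ := key
    refine ⟨K, hK0, fun l => ?_⟩
    have h1 := hK l
    have h2 : L 0 l = ∑ i, ∑ d : C i, ψ (trc n c (C i) d (z i)) *
        ((u i : MonoidAlgebra ℤ_[p] (C i)) ^ p ^ l - 1).coeff d := by
      refine Finset.sum_congr rfl fun i _ => Finset.sum_congr rfl fun d _ => ?_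
      rw [pow_zero, pow_one]
    rwa [h2] at h1
  · -- the relation for `c ^ (a ^ j)`
    intro j
    obtain ⟨a, ha⟩ : ∃ a, a = p ^ ((s - 1) * j) := ⟨_, rfl⟩
    have hmodj : p ^ j * a ≡ 1 [MOD N] := by
      have e1 : p ^ j * a = (p ^ s) ^ j := by
        rw [ha, ← pow_add, ← pow_mul]
        congr 1
        have : s = (s - 1) + 1 := by omega
        nth_rewrite 2 [this]
        ring
      rw [e1]
      have h1 := hmod.pow j
      rwa [one_pow] at h1
    have hc' : (c ^ a) ^ p ^ j = c := by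
      rw [← pow_mul, mul_comm]
      exact hfixc _ hmodj
    have hle : Subgroup.centralizer ({c ^ a} : Set G) ≤ Subgroup.centralizer ({c} : Set G) := by
      intro g hg
      rw [Subgroup.mem_centralizer_iff] at hg ⊢
      intro y hy
      rw [Set.mem_singleton_iff.1 hy]
      have h1 : Commute (c ^ a) g := hg _ rfl
      have h2 := h1.pow_left (p ^ j)
      rw [hc'] at h2
      exact h2
    obtain ⟨K, hK0, hK⟩ := relC' (goodB_padic (p := p)) (hc.pow (n := a))
      (hφ.comp (Subgroup.inclusion hle)) C hC u hu z M hM h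
    refine ⟨K, hK0, fun l => ?_⟩
    have h1 := hK l
    have h2 : ∀ i, ∀ d : C i, HG.ev (hφ.comp (Subgroup.inclusion hle))
        (trc n (c ^ a) (C i) d (z i)) = ψ (trc n c (C i) (d ^ p ^ j) (z i)) := by
      intro i d
      rw [← HG.ev_map hφ (Subgroup.inclusion hle), trc_pow hc' rfl d (by rw [← pow_mul]; exact hfixC i d _ hmodj) hle, hev]
    have h3 := fun i => sum_two (p := p) (fun d g : C i => Classical.propDecidable _)
      (fun d : C i => ψ (trc n c (C i) (d ^ p ^ j) (z i)))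
      ((u i : MonoidAlgebra ℤ_[p] (C i)) ^ p ^ l)
    have h4 : ∑ i, ∑ d : C i, HG.ev (hφ.comp (Subgroup.inclusion hle))
        (trc n (c ^ a) (C i) d (z i)) * ((((u i : MonoidAlgebra ℤ_[p] (C i)) ^ p ^ l) ^ p).coeff d -
          ∑ g ∈ @Finset.filter (C i) (fun g => g ^ p = d) (fun g => Classical.propDecidable _)
            Finset.univ, ((u i : MonoidAlgebra ℤ_[p] (C i)) ^ p ^ l).coeff g) =
        L j (l + 1) - L (j + 1) l := by
      show _ = ∑ i, ∑ d : C i, _ - ∑ i, ∑ d : C i, _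
      rw [← Finset.sum_sub_distrib]
      refine Finset.sum_congr rfl fun i _ => ?_
      rw [Finset.sum_congr rfl fun d _ => by rw [h2 i d], h3 i, ← pow_mul, ← pow_succ]
      congr 1
      refine Finset.sum_congr rfl fun d _ => ?_
      rw [← pow_mul, ← pow_succ']
    rw [← h4]
    convert h1
  · intro j l
    choose y hy using fun i (d : C i) => pow_congr (u i : MonoidAlgebra ℤ_[p] (C i)) (hu i) l d
    have e : L j (l + 1) - (p : ℤ_[p]) * L j l = (p : ℤ_[p]) ^ (2 * l) *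
        ∑ i, ∑ d : C i, ψ (trc n c (C i) (d ^ p ^ j) (z i)) * y i d := by
      show ∑ i, ∑ d : C i, _ - (p : ℤ_[p]) * ∑ i, ∑ d : C i, _ = _
      simp only [Finset.mul_sum, ← Finset.sum_sub_distrib]
      refine Finset.sum_congr rfl fun i _ => Finset.sum_congr rfl fun d _ => ?_
      rw [hy i d]
      ring
    rw [e]
    exact Dvd.intro _ rfl
  · intro l
    refine Finset.sum_congr rfl fun i _ => Finset.sum_congr rfl fun d _ => ?_
    rw [hfixC i d _ hmod, pow_zero, pow_one]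

end

end Pool.Agent.H39.CZ

end

section

/-!
# Project CZ: the relations of the functionals over `ℤ_[p]`, without a bound of the torsion

PROOF.  Cyclic groups are commutative; the `mapRingHom (RingHom.id _)` is the identity; `assembly1 .. (sy1 ..)` is `gasm1 ..` (`asm1_sy1`, as in
`H39/KL/RelC.lean`); `K1.unit (v ^ e) = e • K1.unit v`, so the relation holds for the units `v_i ^ e`; `ψ y = (f y : ℚ_[p])` is in `ℤ_[p]`
(`¬ p ∣ (f y).den`), an additive homomorphism; `relO'`; `K = p ^ a * K'` with `K'` a unit of `ℤ_[p]`.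
-/

set_option autoImplicit false

open Matrix

universe u v w

namespace Pool.Agent.H71.CZ

open Pool.Agent.H71.FQ Pool.Agent.H16.KN Pool.Agent.H16.FU
open Pool.Agent.H95.WH (K1 K1.unit FamSub FinSub)

private theorem RelVR_unit_pow {R : Type u} [Ring R] (x : Rˣ) (k : ℕ) : K1.unit (x ^ k) = k • K1.unit x := by
  induction k with
  | zero =>
    rw [pow_zero, zero_smul]
    have h := Pool.Agent.H95.WH.K1.unit_mul (1 : Rˣ) 1
    rw [mul_one] at h
    exact left_eq_add.1 h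
  | succ k ih => rw [pow_succ, Pool.Agent.H95.WH.K1.unit_mul, ih, succ_nsmul]

/-- **The relations of the functionals over `ℤ_[p]`.** -/
theorem relP_zp' {p : ℕ} [hp : Fact p.Prime] {G : Type v} [Group G] {n : ℕ} (QP : AddSubgroup (HnK1 ℤ_[p] G n))
    (hQP : ∀ x ∈ QP, ∃ M : ℤ, M ≠ 0 ∧ M • assembly1 ℤ_[p] n G x = 0) :
    RelP p ℤ_[p] (RingHom.id _) G n QP := by
  intro s C hC hcy hcop _ v z hsum c hc hpc f hf e he
  classical
  have hid : ∀ i, MonoidAlgebra.mapRingHom (C i) (RingHom.id ℤ_[p]) (v i : MonoidAlgebra ℤ_[p] (C i)) = v i := by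
    intro i
    apply MonoidAlgebra.ext
    refine Finsupp.ext fun d => ?_
    rw [MonoidAlgebra.coeff_mapRingHom, RingHom.id_apply]
  -- the relation
  obtain ⟨M, hM0, hM⟩ := hQP _ hsum
  have h1 : M • ∑ i, gasm1 ℤ_[p] n (C i).subtype (Subgroup.centralizer (C i : Set G)).subtype
      (cent_comm (C i)) (K1.unit (v i)) (z i) = 0 := by
    rw [map_sum] at hM
    rw [← hM]
    congr 1
    refine Finset.sum_congr rfl fun i _ => ?_
    rw [asm1_sy1]
  have h2 : M • ∑ i, gasm1 ℤ_[p] n (C i).subtype (Subgroup.centralizer (C i : Set G)).subtype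
      (cent_comm (C i)) (K1.unit (v i ^ e)) (z i) = 0 := by
    have h3 : ∀ i, gasm1 ℤ_[p] n (C i).subtype (Subgroup.centralizer (C i : Set G)).subtype
        (cent_comm (C i)) (K1.unit (v i ^ e)) (z i) = e • gasm1 ℤ_[p] n (C i).subtype (Subgroup.centralizer (C i : Set G)).subtype
        (cent_comm (C i)) (K1.unit (v i)) (z i) := by
      intro i
      rw [RelVR_unit_pow, map_nsmul]
      rfl
    rw [Finset.sum_congr rfl fun i _ => h3 i, ← Finset.smul_sum, smul_comm, h1, smul_zero]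
  -- the functional
  obtain ⟨ψ, hψ⟩ : ∃ ψ : HG (Subgroup.centralizer ({c} : Set G)) n →+ ℤ_[p], ∀ y, ((ψ y : ℤ_[p]) : ℚ_[p]) = ((f y : ℚ) : ℚ_[p]) := by
    refine ⟨AddMonoidHom.mk' (fun y => (⟨((f y : ℚ) : ℚ_[p]), Padic.norm_rat_le_one (hf y)⟩ : ℤ_[p])) fun a b => ?_, fun y => rfl⟩
    apply Subtype.ext
    show ((f (a + b) : ℚ) : ℚ_[p]) = ((f a : ℚ) : ℚ_[p]) + ((f b : ℚ) : ℚ_[p])
    rw [map_add, Rat.cast_add]
  have hcomm : ∀ i, ∀ a b : C i, a * b = b * a := by
    intro i a b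
    have := hcy i
    exact (IsCyclic.commGroup (α := C i)).mul_comm a b
  obtain ⟨K, hK0, hK⟩ := Pool.Agent.H39.CZ.relO' hc hpc ψ C hcomm hcop (fun i => v i ^ e) (fun i => by
    obtain ⟨a, ha⟩ := he i
    refine ⟨a, ?_⟩
    rw [← ha, hid, Units.val_pow_eq_pow_val]) z M hM0 h2
  obtain ⟨a, K0, hK1, eK⟩ := Nat.exists_eq_pow_mul_and_not_dvd hK0 p hp.out.ne_one
  refine ⟨a, fun l => ?_⟩
  obtain ⟨t, ht⟩ := hK l
  have hu : IsUnit (K0 : ℤ_[p]) := by
    rw [PadicInt.isUnit_iff]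
    refine le_antisymm (PadicInt.norm_le_one _) (not_lt.1 fun h => hK1 ?_)
    exact_mod_cast (PadicInt.norm_int_lt_one_iff_dvd (K0 : ℤ)).1 (by exact_mod_cast h)
  obtain ⟨w, hw⟩ := hu
  set S : ℤ_[p] := ∑ i, ∑ d : C i, ψ (trc n c (C i) d (z i)) *
        (((v i ^ e : (MonoidAlgebra ℤ_[p] (C i))ˣ) : MonoidAlgebra ℤ_[p] (C i)) ^ p ^ l - 1).coeff d with hS
  have h4 : (p : ℤ_[p]) ^ a * S = (p : ℤ_[p]) ^ (2 * l) * ((w⁻¹ : ℤ_[p]ˣ) * t) := by
    have h5 : (K : ℤ_[p]) = (p : ℤ_[p]) ^ a * w := by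
      rw [hw, eK]
      push_cast
      ring
    rw [h5] at ht
    have h6 : ((w⁻¹ : ℤ_[p]ˣ) : ℤ_[p]) * w = 1 := Units.inv_mul w
    linear_combination ((w⁻¹ : ℤ_[p]ˣ) : ℤ_[p]) * ht - (p : ℤ_[p]) ^ a * S * h6
  refine ⟨(w⁻¹ : ℤ_[p]ˣ) * t, ?_⟩
  have h5 : (∑ i, ∑ d : C i, ((f (trc n c (C i) d (z i)) : ℚ) : ℚ_[p]) *
          ((((MonoidAlgebra.mapRingHom (C i) (RingHom.id ℤ_[p]) (v i : MonoidAlgebra ℤ_[p] (C i))) ^ (e * p ^ l) -
            1).coeff d : ℤ_[p]) : ℚ_[p])) = ((S : ℤ_[p]) : ℚ_[p]) := by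
    have hcoe : ∀ x : ℤ_[p], (x : ℚ_[p]) = PadicInt.Coe.ringHom x := fun _ => rfl
    rw [hcoe S, hS, map_sum]
    refine Finset.sum_congr rfl fun i _ => ?_
    rw [map_sum]
    refine Finset.sum_congr rfl fun d _ => ?_
    rw [map_mul, ← hcoe, ← hcoe, hψ, hid, pow_mul, Units.val_pow_eq_pow_val]
  rw [h5]
  have h6 := congrArg (fun x : ℤ_[p] => (x : ℚ_[p])) h4
  push_cast at h6
  push_cast
  exact h6

end Pool.Agent.H71.CZ

end

section

/-!
# Project CZ: the `K₀`-part

If a nonzero multiple of the value of the assembly map of the `K₀`- and the `K₁`-part vanishes then the `K₀`-component is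
torsion.
-/

set_option autoImplicit false

universe u v w

namespace Pool.Agent.H16.CZ

open Pool.Agent.H71.FQ Pool.Agent.H16.KN Pool.Agent.H16.FU

theorem k0_tor {k : Type u} [Field k] [CharZero k] {G : Type v} [Group G] {n : ℕ}
    (w0 : HnK0 k G (n + 1)) (w1 : HnK1 k G n) (M : ℤ) (hM : M ≠ 0)
    (h : M • assembly01 k n G (w0, w1) = 0) : ∃ m : ℤ, m ≠ 0 ∧ m • w0 = 0 := by
  refine torsion_of_T1 (fun D _ b hb => sep_field k b hb) w0 fun c _ φ hφ => ?_
  have h1 : M • (assemblyN k (n + 1) G w0 + assembly1 k n G w1) = 0 := h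
  have h2 := congrArg (T1 hφ) h1
  rw [map_zsmul, map_add, T1_assembly1 hφ w1, add_zero, map_zero, zsmul_eq_mul] at h2
  rcases mul_eq_zero.1 h2 with h3 | h3
  · exact absurd (by exact_mod_cast h3) hM
  · exact h3

end Pool.Agent.H16.CZ

end

section

/-!
# Project CZ: the `K₁`-part over a domain of characteristic zero with Artin induction

`w1_directed`: the torsion statement for the `K₁`-component is local in the group (as `ratInj01_directed` of
`H71/FU1/LocF1.lean`).  `hasRelD_fr`: the relations of the functionals over a domain `R` for the elements of `HnK1 R G n` which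
have a torsion value over the fraction field `k`: the descent over `k` (`descent` of `H73/CZ/RedD`) gives a subring `S` of `k`, take
`S ∩ R`.  `main_R`: a relation `M • (α₀ w₀ + α₁ w₁) = 0` over `R` gives one over `k`, there `w₀` is torsion (`k0_tor`), so the
value of `w₁` is torsion; `linFR`.
-/

set_option autoImplicit false

open Matrix

universe u v w

namespace Pool.Agent.H39.CZ

open Pool.Agent.H71.FQ (HG HG.map KQ HnK0 KQ.map assemblyN NatK0.ofHom assemblyN_ofHom)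
open Pool.Agent.H71.DO (HArt HUnit)
open Pool.Agent.H71.CZ (RelP relP_zp')
open Pool.Agent.H16.FU (HnK1 sy1 syB1 syB1_apply hn1 hn1_sy1 hn1_comp map_assembly1 assembly1 assembly01)
open Pool.Agent.H16.KN (PSepA trc)
open Pool.Agent.H16.CZ (k0_tor)
open Pool.Agent.H73.CZ (descent)

section Loc

open Pool.Agent.H71.FQ Pool.Agent.H71.FU1

/-- **The torsion statement for the `K₁`-component is local in the group.** -/
theorem w1_directed {R : Type u} [Ring R] {G : Type v} [Group G] {n : ℕ}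
    (P : Subgroup G → Prop)
    (hP : ∀ S : Finset G, ∃ G' : Subgroup G, P G' ∧ ∀ g ∈ S, g ∈ G')
    (h : ∀ G' : Subgroup G, P G' → ∀ (w0 : HnK0 R G' (n + 1)) (w1 : HnK1 R G' n) (M : ℤ), M ≠ 0 →
      M • assembly01 R n G' (w0, w1) = 0 → ∃ m : ℤ, m ≠ 0 ∧ m • w1 = 0)
    (w0 : HnK0 R G (n + 1)) (w1 : HnK1 R G n) (M : ℤ) (hM : M ≠ 0)
    (hz : M • assembly01 R n G (w0, w1) = 0) : ∃ m : ℤ, m ≠ 0 ∧ m • w1 = 0 := by
  classical
  obtain ⟨S0, hS0⟩ := HnK0.exists_lift R (n + 1) w0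
  obtain ⟨S1, hS1⟩ := exists_lift1 R n w1
  set S : Finset G := S0 ∪ S1 with hS
  obtain ⟨z1, hz1⟩ := hS0 (Subgroup.closure (S : Set G)) fun s hs =>
    Subgroup.subset_closure (Finset.mem_union_left _ hs)
  obtain ⟨z2, hz2⟩ := hS1 (Subgroup.closure (S : Set G)) fun s hs =>
    Subgroup.subset_closure (Finset.mem_union_right _ hs)
  have key : ∀ (G₁ : Subgroup G) (w : HnK0 R (Subgroup.closure (S : Set G)) (n + 1) ×
      HnK1 R (Subgroup.closure (S : Set G)) n) (φ : Subgroup.closure (S : Set G) →* G₁),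
      assembly01 R n G₁ (HnK0.map R (n + 1) φ w.1, mapH1 R n φ w.2) =
        KQ.map (MonoidAlgebra.mapDomainRingHom R φ)
          (assembly01 R n (Subgroup.closure (S : Set G)) w) := by
    intro G₁ w φ
    change assemblyN R (n + 1) G₁ (HnK0.map R (n + 1) φ w.1) + assembly1 R n G₁ (mapH1 R n φ w.2) =
      KQ.map (MonoidAlgebra.mapDomainRingHom R φ) (assemblyN R (n + 1) _ w.1 + assembly1 R n _ w.2)
    rw [map_add, assemblyN_map, assembly1_map]
  have h1 : KQ.map (MonoidAlgebra.mapDomainRingHom R (Subgroup.closure (S : Set G)).subtype)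
      (M • assembly01 R n (Subgroup.closure (S : Set G)) (z1, z2)) = 0 := by
    have h0 : assembly01 R n (Subgroup.closure (S : Set G)) (z1, z2) =
      assemblyN R (n + 1) _ z1 + assembly1 R n _ z2 := rfl
    rw [map_zsmul, h0, map_add, ← assemblyN_map, ← assembly1_map, hz1, hz2]
    exact hz
  obtain ⟨T, hT⟩ := KQ.exists_zero.{max u v, max u v, max u v} _ _ h1
  obtain ⟨G', hPG, hG'⟩ := hP (S ∪ T.biUnion fun a => a.coeff.support)
  have hle : Subgroup.closure (S : Set G) ≤ G' := by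
    rw [Subgroup.closure_le]
    intro s hs
    exact hG' s (Finset.mem_union_left _ hs)
  have hcomp : G'.subtype.comp (Subgroup.inclusion hle) =
      (Subgroup.closure (S : Set G)).subtype := rfl
  have h2 : KQ.map (MonoidAlgebra.mapDomainRingHom R (Subgroup.inclusion hle))
      (M • assembly01 R n (Subgroup.closure (S : Set G)) (z1, z2)) = 0 := by
    refine hT (MonoidAlgebra.mapDomainRingHom R G'.subtype) _
      (mapDomainRingHom_injective R _ G'.subtype_injective) ?_ ?_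
    · rw [← hcomp]
      exact (MonoidAlgebra.mapDomainRingHom_comp _ _).symm
    · intro a ha
      exact mem_range_mapDomainRingHom R G' a fun g hg =>
        hG' g (Finset.mem_union_right _ (Finset.mem_biUnion.2 ⟨a, ha, hg⟩))
  rw [map_zsmul, ← key] at h2
  obtain ⟨m, hm, h5⟩ := h G' hPG _ _ M hM h2
  refine ⟨m, hm, ?_⟩
  have h7 := congrArg (mapH1 R n G'.subtype) h5
  rw [map_zsmul, mapH1_mapH1, map_zero, hcomp, hz2] at h7
  exact h7

end Loc

/-- the elements with a torsion value -/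
def kerT {A : Type u} [AddCommGroup A] {B : Type v} [AddCommGroup B] (f : A →+ B) : AddSubgroup A where
  carrier := {w | ∃ M : ℤ, M ≠ 0 ∧ M • f w = 0}
  zero_mem' := ⟨1, one_ne_zero, by rw [map_zero, smul_zero]⟩
  add_mem' := by
    rintro a b ⟨M, hM, ha⟩ ⟨M', hM', hb⟩
    refine ⟨M * M', mul_ne_zero hM hM', ?_⟩
    rw [map_add, smul_add, mul_smul M M' (f b), hb, smul_zero, add_zero, mul_comm, mul_smul, ha,
      smul_zero]
  neg_mem' := by
    rintro a ⟨M, hM, ha⟩
    exact ⟨M, hM, by rw [map_neg, smul_neg, ha, neg_zero]⟩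

section Lift

open Pool.Agent.H95.WH (K1 K1.map K1.unit K1.map_unit)

private theorem map_inj {A : Type*} [CommRing A] {B : Type*} [CommRing B] {f : A →+* B}
    (hf : Function.Injective f) (C : Type*) [Group C] :
    Function.Injective (MonoidAlgebra.mapRingHom C f) := by
  intro x y h
  apply MonoidAlgebra.ext
  refine Finsupp.ext fun d => hf ?_
  have h1 := congrArg (fun a : MonoidAlgebra B C => a.coeff d) h
  simp only [MonoidAlgebra.coeff_mapRingHom] at h1
  exact h1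

private theorem exists_el {R : Type*} [CommRing R] (S : Subring R) {C : Type*} [Group C] [Finite C]
    (x : MonoidAlgebra R C) (h : ∀ d, x.coeff d ∈ S) :
    ∃ y : MonoidAlgebra S C, MonoidAlgebra.mapRingHom C S.subtype y = x := by
  refine ⟨MonoidAlgebra.ofCoeff (Finsupp.equivFunOnFinite.symm fun d => ⟨x.coeff d, h d⟩), ?_⟩
  apply MonoidAlgebra.ext
  refine Finsupp.ext fun d => ?_
  rw [MonoidAlgebra.coeff_mapRingHom]
  rfl

private theorem exists_unit {R : Type*} [CommRing R] (S : Subring R) {C : Type*} [Group C] [Finite C]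
    (x : (MonoidAlgebra R C)ˣ) (h : ∀ d, (x : MonoidAlgebra R C).coeff d ∈ S)
    (h' : ∀ d, ((x⁻¹ : (MonoidAlgebra R C)ˣ) : MonoidAlgebra R C).coeff d ∈ S) :
    ∃ y : (MonoidAlgebra S C)ˣ, MonoidAlgebra.mapRingHom C S.subtype (y : MonoidAlgebra S C) = x := by
  obtain ⟨a, ha⟩ := exists_el S _ h
  obtain ⟨b, hb⟩ := exists_el S _ h'
  have hinj := map_inj (f := S.subtype) S.subtype_injective C
  refine ⟨⟨a, b, hinj ?_, hinj ?_⟩, ha⟩
  · rw [map_mul, map_one, ha, hb, Units.mul_inv]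
  · rw [map_mul, map_one, ha, hb, Units.inv_mul]

/-- **The relations of the functionals over a domain.** -/
theorem hasRelD_fr (R : Type u) [CommRing R] [IsDomain R] [CharZero R] (G : Type v) [Group G] (n : ℕ) :
    HasRelD R G n (kerT ((assembly1 (FractionRing R) n G).comp
      (hn1 (algebraMap R (FractionRing R))))) := by
  intro N r C hC hcyc _ u z hmem
  obtain ⟨M, hM, h⟩ := hmem
  obtain ⟨ι, hι⟩ : ∃ ι, ι = algebraMap R (FractionRing R) := ⟨_, rfl⟩
  have hinj : Function.Injective ι := by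
    rw [hι]
    exact IsFractionRing.injective R (FractionRing R)
  have hk : CharZero (FractionRing R) := charZero_of_injective_algebraMap (IsFractionRing.injective R (FractionRing R))
  rw [← hι] at h
  let uk : ∀ i, (MonoidAlgebra (FractionRing R) (C i))ˣ := fun i =>
    Units.map (MonoidAlgebra.mapRingHom (C i) ι).toMonoidHom (u i)
  have h1 : M • assembly1 (FractionRing R) n G (∑ i, sy1 ⟨C i, hC i⟩ (K1.unit (uk i)) (z i)) = 0 := by
    rw [AddMonoidHom.comp_apply, map_sum (hn1 ι)] at h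
    rw [← h]
    congr 2
    refine Finset.sum_congr rfl fun i _ => ?_
    rw [hn1_sy1, K1.map_unit]
  obtain ⟨p, hp, S, φ, v, hN, hφ, hv, hS⟩ := descent N r C hC uk z M hM h1
  -- the subring of `R`
  let j : S.comap ι →+* S := (ι.comp (S.comap ι).subtype).codRestrict S fun x => x.2
  have hj : ∀ x : S.comap ι, ((j x : S) : FractionRing R) = ι (x : R) := fun x => rfl
  have hjinj : Function.Injective j := by
    intro x y hxy
    apply Subtype.ext
    apply hinj
    rw [← hj, ← hj, hxy]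
  -- the units
  have hc1 : ∀ i d, (u i : MonoidAlgebra R (C i)).coeff d ∈ S.comap ι := by
    intro i d
    have h2 := congrArg (fun a : MonoidAlgebra (FractionRing R) (C i) => a.coeff d) (hv i)
    simp only [MonoidAlgebra.coeff_mapRingHom] at h2
    have h3 : (uk i : MonoidAlgebra (FractionRing R) (C i)).coeff d =
        ι ((u i : MonoidAlgebra R (C i)).coeff d) := MonoidAlgebra.coeff_mapRingHom _ _ _
    rw [Subring.mem_comap, ← h3, ← h2]
    exact ((v i : MonoidAlgebra S (C i)).coeff d).2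
  have hc2 : ∀ i d, (((u i)⁻¹ : (MonoidAlgebra R (C i))ˣ) : MonoidAlgebra R (C i)).coeff d ∈ S.comap ι := by
    intro i d
    have hv' : Units.map (MonoidAlgebra.mapRingHom (C i) S.subtype).toMonoidHom (v i) = uk i :=
      Units.ext (hv i)
    have hv2 : Units.map (MonoidAlgebra.mapRingHom (C i) S.subtype).toMonoidHom (v i)⁻¹ = (uk i)⁻¹ := by
      rw [map_inv, hv']
    have h4 : MonoidAlgebra.mapRingHom (C i) S.subtype
        (((v i)⁻¹ : (MonoidAlgebra S (C i))ˣ) : MonoidAlgebra S (C i)) =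
        (((uk i)⁻¹ : (MonoidAlgebra (FractionRing R) (C i))ˣ) : MonoidAlgebra (FractionRing R) (C i)) :=
      congrArg Units.val hv2
    have h2 := congrArg (fun a : MonoidAlgebra (FractionRing R) (C i) => a.coeff d) h4
    simp only [MonoidAlgebra.coeff_mapRingHom] at h2
    have h5 : (uk i)⁻¹ = Units.map (MonoidAlgebra.mapRingHom (C i) ι).toMonoidHom (u i)⁻¹ :=
      (map_inv _ _).symm
    have h3 : (((uk i)⁻¹ : (MonoidAlgebra (FractionRing R) (C i))ˣ) :
        MonoidAlgebra (FractionRing R) (C i)).coeff d =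
        ι ((((u i)⁻¹ : (MonoidAlgebra R (C i))ˣ) : MonoidAlgebra R (C i)).coeff d) := by
      rw [h5]
      exact MonoidAlgebra.coeff_mapRingHom _ _ _
    rw [Subring.mem_comap, ← h3, ← h2]
    exact ((((v i)⁻¹ : (MonoidAlgebra S (C i))ˣ) : MonoidAlgebra S (C i)).coeff d).2
  choose v0 hv0 using fun i => exists_unit (S.comap ι) (u i) (hc1 i) (hc2 i)
  have hjv : ∀ i, MonoidAlgebra.mapRingHom (C i) j (v0 i : MonoidAlgebra (S.comap ι) (C i)) = v i := by
    intro i
    apply map_inj S.subtype_injective (C i)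
    rw [hv i]
    apply MonoidAlgebra.ext
    refine Finsupp.ext fun d => ?_
    rw [MonoidAlgebra.coeff_mapRingHom, MonoidAlgebra.coeff_mapRingHom]
    have h3 : (uk i : MonoidAlgebra (FractionRing R) (C i)).coeff d =
        ι ((u i : MonoidAlgebra R (C i)).coeff d) := MonoidAlgebra.coeff_mapRingHom _ _ _
    rw [h3, ← hv0 i, MonoidAlgebra.coeff_mapRingHom]
    rfl
  refine ⟨p, hp, S.comap ι, φ.comp j, v0, (kerT (assembly1 ℤ_[p] n G)).comap (hn1 (φ.comp j)), hN,
    hφ.comp hjinj, hv0, ?_, relPU_of_id (φ.comp j) (QP := kerT (assembly1 ℤ_[p] n G))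
      (relP_zp' (kerT (assembly1 ℤ_[p] n G)) fun x hx => hx) fun x hx => hx⟩
  refine ⟨M, hM, ?_⟩
  have h6 : hn1 j (∑ i, sy1 ⟨C i, hC i⟩ (K1.unit (v0 i)) (z i)) =
      ∑ i, sy1 ⟨C i, hC i⟩ (K1.unit (v i)) (z i) := by
    rw [map_sum]
    refine Finset.sum_congr rfl fun i _ => ?_
    rw [hn1_sy1, K1.map_unit]
    congr 2
    apply Units.ext
    exact hjv i
  rw [← hn1_comp, h6, ← map_assembly1, ← map_zsmul, hS, map_zero]

end Lift

/-- **The `K₁`-part over a domain with Artin induction, the case of the subgroups.** -/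
theorem main_sub {R : Type u} [CommRing R] [IsDomain R] [CharZero R] (hA : HArt.{u, v} R) (hU : HUnit.{u, v} R)
    {G : Type v} [Group G] {n : ℕ} (hG : Pool.Agent.H71.CZS.Sub G n)
    (w0 : HnK0 R G (n + 1)) (w1 : HnK1 R G n) (M : ℤ) (hM : M ≠ 0)
    (h : M • assembly01 R n G (w0, w1) = 0) : ∃ m : ℤ, m ≠ 0 ∧ m • w1 = 0 := by
  have hk : CharZero (FractionRing R) := charZero_of_injective_algebraMap (IsFractionRing.injective R (FractionRing R))
  obtain ⟨ι, hι⟩ : ∃ ι, ι = algebraMap R (FractionRing R) := ⟨_, rfl⟩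
  have h1 : M • assembly01 (FractionRing R) n G
      ((NatK0.ofHom G ι).src (n + 1) w0, hn1 ι w1) = 0 := by
    have h2 := congrArg (KQ.map (MonoidAlgebra.mapRingHom G ι)) h
    rw [map_zsmul, map_zero] at h2
    rw [← h2]
    have e1 : assembly01 (FractionRing R) n G ((NatK0.ofHom G ι).src (n + 1) w0, hn1 ι w1) =
        assemblyN _ (n + 1) G ((NatK0.ofHom G ι).src (n + 1) w0) + assembly1 _ n G (hn1 ι w1) := rfl
    have e2 : assembly01 R n G (w0, w1) = assemblyN R (n + 1) G w0 + assembly1 R n G w1 := rfl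
    rw [e1, e2, map_add, assemblyN_ofHom, map_assembly1]
  obtain ⟨m0, hm0, h3⟩ := k0_tor _ _ M hM h1
  refine linFR hA hU _ (hasRelD_fr R G n) hG w1 ⟨m0 * M, mul_ne_zero hm0 hM, ?_⟩
  have h4 : assembly01 (FractionRing R) n G ((NatK0.ofHom G ι).src (n + 1) w0, hn1 ι w1) =
      assemblyN _ (n + 1) G ((NatK0.ofHom G ι).src (n + 1) w0) + assembly1 _ n G (hn1 ι w1) := rfl
  have h5 : m0 • assemblyN (FractionRing R) (n + 1) G ((NatK0.ofHom G ι).src (n + 1) w0) = 0 := by
    rw [← map_zsmul, h3, map_zero]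
  have h6 : (m0 * M) • (assemblyN (FractionRing R) (n + 1) G ((NatK0.ofHom G ι).src (n + 1) w0) +
      assembly1 (FractionRing R) n G (hn1 ι w1)) = 0 := by
    rw [← h4, mul_smul, h1, smul_zero]
  rw [smul_add, mul_comm, mul_smul, h5, smul_zero, zero_add, mul_comm] at h6
  rw [← hι, AddMonoidHom.comp_apply]
  exact h6

/-- **The `K₁`-part over a domain with Artin induction.** -/
theorem main_R {R : Type u} [CommRing R] [IsDomain R] [CharZero R] (hA : HArt.{u, v} R) (hU : HUnit.{u, v} R)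
    {G : Type v} [Group G] (n : ℕ)
    (hG : ∀ S : Finset G, ∃ G' : Subgroup G, (∀ g ∈ S, g ∈ G') ∧ Pool.Agent.H71.CZS.Sub G' n)
    (w0 : HnK0 R G (n + 1)) (w1 : HnK1 R G n) (M : ℤ) (hM : M ≠ 0)
    (h : M • assembly01 R n G (w0, w1) = 0) : ∃ m : ℤ, m ≠ 0 ∧ m • w1 = 0 := by
  refine w1_directed (fun G' => Pool.Agent.H71.CZS.Sub G' n) (fun S => ?_)
    (fun G' hG' w0 w1 M hM h => main_sub hA hU hG' w0 w1 M hM h) w0 w1 M hM h
  obtain ⟨G', h1, h2⟩ := hG S
  exact ⟨G', h2, h1⟩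

end Pool.Agent.H39.CZ

end
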